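import Pool.Agent.Q212.ZA3

/-!
# Finitary partitions in a model of set theory: the definitions and the bridge
-/

set_option maxHeartbeats 400000
set_option linter.all false

namespace Pool.Agent.Q212.ZADefs

open FirstOrder FirstOrder.Language
open Pool.Agent.Helper672.Plain (LSet Mem)
open Pool.Agent.H310Cards

universe u

variable {M : Type u} [LSet.Structure M]

/-- `P` is a partition of `a`: a set of nonempty, pairwise disjoint sets whose union is `a`. -/
def IsPartition (P a : M) : Prop :=
  (∀ b, Mem b P → ∃ z, Mem z b) ∧
    (∀ b c z, Mem b P → Mem c P → Mem z b → Mem z c → b = c) ∧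
      ∀ z, Mem z a ↔ ∃ b, Mem b P ∧ Mem z b

/-- `B` is the set of all finitary partitions of `a`: the partitions of `a` all of whose blocks
are finite in the model. -/
def IsFinPartSet (B a : M) : Prop :=
  ∀ P, Mem P B ↔ IsPartition P a ∧ ∀ b, Mem b P → IsFinite b

end Pool.Agent.Q212.ZADefs

namespace Pool.Agent.Q212.ZA

open FirstOrder FirstOrder.Language
open Pool.Agent.Helper672.ZFA
open Pool.Agent.H310
open Pool.Agent.H310Cards
open Pool.Agent.Q212.ZADefs

universe u u₁ u₂ u₃ u₄

section

variable {M : Type u} [L.Structure M] [hM : IsModel M]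
variable {α : Type u₁} {β : Type u₂} [ITy M α] [ITy M β]

/-- Partitions as sets of blocks. -/
def IsBP (S : IPow M (IPow M α)) : Prop :=
  (∀ b, b ∈ S → ∃ z, z ∈ b) ∧ (∀ b c z, b ∈ S → c ∈ S → z ∈ b → z ∈ c → b = c) ∧
    (∀ z, ∃ b, b ∈ S ∧ z ∈ b) ∧ ∀ b, b ∈ S → IFin b

theorem int_isBP : Int M (fun S : IPow M (IPow M α) => IsBP S) := by
  unfold IsBP
  (repeat' (first | with_reducible exact IntF.id | with_reducible exact IntF.fst' | with_reducible exact IntF.snd' | with_reducible exact IntF.const _ | with_reducible exact Int.const _ | assumption | with_reducible apply Int.and | with_reducible apply Int.or | with_reducible apply Int.not | with_reducible apply Int.imp | with_reducible apply Int.iff | with_reducible apply Int.ne | with_reducible apply Int.eq | with_reducible apply Int.mem | with_reducible apply Int.subset | with_reducible apply Int.ltN | with_reducible apply Int.leN | with_reducible apply Int.fin | with_reducible apply Int.unique | with_reducible apply Int.all | with_reducible apply Int.ex | with_reducible apply IntF.fst | with_reducible apply IntF.snd | with_reducible apply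 IntF.app | with_reducible apply IntF.ite | with_reducible apply IntF.sep | with_reducible apply IntF.lam | with_reducible apply IntF.insert | with_reducible apply IntF.singleton | with_reducible apply IntF.union | with_reducible apply IntF.inter | with_reducible apply IntF.sdiff | with_reducible apply IntF.isUnion | with_reducible apply IntF.iimage | with_reducible apply IntF.the | with_reducible apply IntF.irec | with_reducible_and_instances apply IntF.add | with_reducible_and_instances apply IntF.mul | with_reducible apply IntF.succ | with_reducible apply IntF.val | (with_reducible refine Int.comp ?_ ?_; assumption) | (with_reducible refine Int.comp₂ ?_ ?_ ?_; assumption) | (with_reducible refine Int.comp₃ ?_ ?_ ?_ ?_; assumption) | (with_reducible refine IntF.comp ?_ ?_; assumption) | (with_reducible refine IntF.comp₂ ?_ ?_ ?_; assumption) | (with_reducible refine IntF.comp₃ ?_ ?_ ?_ ?_; assumption) | with_reducible apply IntF.pair))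

instance instFactBP : Fact (Int M (fun S : IPow M (IPow M α) => IsBP S)) := ⟨int_isBP⟩

variable (M α) in
/-- The type of partitions. -/
abbrev IBp : Type _ := {S : IPow M (IPow M α) // IsBP S}

/-- The blocks of an equivalence relation. -/
noncomputable def bl (P : IFr M α) : IPow M (IPow M α) :=
  sep M fun s => ∃ x, ∀ y, (y ∈ s ↔ (x, y) ∈ P.1)

theorem int_bl : IntF M (fun P : IFr M α => bl P) := by
  unfold bl
  (repeat' (first | with_reducible exact IntF.id | with_reducible exact IntF.fst' | with_reducible exact IntF.snd' | with_reducible exact IntF.const _ | with_reducible exact Int.const _ | assumption | with_reducible apply Int.and | with_reducible apply Int.or | with_reducible apply Int.not | with_reducible apply Int.imp | with_reducible apply Int.iff | with_reducible apply Int.ne | with_reducible apply Int.eq | with_reducible apply Int.mem | with_reducible apply Int.subset | with_reducible apply Int.ltN | with_reducible apply Int.leN | with_reducible apply Int.fin | with_reducible apply Int.unique | with_reducible apply Int.all | with_reducible apply Int.ex | with_reducible apply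 IntF.fst | with_reducible apply IntF.snd | with_reducible apply IntF.app | with_reducible apply IntF.ite | with_reducible apply IntF.sep | with_reducible apply IntF.lam | with_reducible apply IntF.insert | with_reducible apply IntF.singleton | with_reducible apply IntF.union | with_reducible apply IntF.inter | with_reducible apply IntF.sdiff | with_reducible apply IntF.isUnion | with_reducible apply IntF.iimage | with_reducible apply IntF.the | with_reducible apply IntF.irec | with_reducible_and_instances apply IntF.add | with_reducible_and_instances apply IntF.mul | with_reducible apply IntF.succ | with_reducible apply IntF.val | (with_reducible refine Int.comp ?_ ?_; assumption) | (with_reducible refine Int.comp₂ ?_ ?_ ?_; assumption) | (with_reducible refine Int.comp₃ ?_ ?_ ?_ ?_; assumption) | (with_reducible refine IntF.comp ?_ ?_; assumption) | (with_reducible refine IntF.comp₂ ?_ ?_ ?_; assumption) | (with_reducible refine IntF.comp₃ ?_ ?_ ?_ ?_; assumption) | with_reducible apply IntF.pair))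

theorem mem_bl {P : IFr M α} {s : IPow M α} : s ∈ bl P ↔ ∃ x, ∀ y, (y ∈ s ↔ (x, y) ∈ P.1) := by
  unfold bl
  rw [mem_sep (by (repeat' (first | with_reducible exact IntF.id | with_reducible exact IntF.fst' | with_reducible exact IntF.snd' | with_reducible exact IntF.const _ | with_reducible exact Int.const _ | assumption | with_reducible apply Int.and | with_reducible apply Int.or | with_reducible apply Int.not | with_reducible apply Int.imp | with_reducible apply Int.iff | with_reducible apply Int.ne | with_reducible apply Int.eq | with_reducible apply Int.mem | with_reducible apply Int.subset | with_reducible apply Int.ltN | with_reducible apply Int.leN | with_reducible apply Int.fin | with_reducible apply Int.unique | with_reducible apply Int.all | with_reducible apply Int.ex | with_reducible apply IntF.fst | with_reducible apply IntF.snd | with_reducible apply IntF.app | with_reducible apply IntF.ite | with_reducible apply IntF.sep | with_reducible apply IntF.lam | with_reducible apply IntF.insert | with_reducible apply IntF.singleton | with_reducible apply IntF.union | with_reducible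 apply IntF.inter | with_reducible apply IntF.sdiff | with_reducible apply IntF.isUnion | with_reducible apply IntF.iimage | with_reducible apply IntF.the | with_reducible apply IntF.irec | with_reducible_and_instances apply IntF.add | with_reducible_and_instances apply IntF.mul | with_reducible apply IntF.succ | with_reducible apply IntF.val | (with_reducible refine Int.comp ?_ ?_; assumption) | (with_reducible refine Int.comp₂ ?_ ?_ ?_; assumption) | (with_reducible refine Int.comp₃ ?_ ?_ ?_ ?_; assumption) | (with_reducible refine IntF.comp ?_ ?_; assumption) | (with_reducible refine IntF.comp₂ ?_ ?_ ?_; assumption) | (with_reducible refine IntF.comp₃ ?_ ?_ ?_ ?_; assumption) | with_reducible apply IntF.pair)))]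

theorem isBP_bl (P : IFr M α) : IsBP (bl P) := by
  have hI : ∀ z, Int M (fun y => (z, y) ∈ P.1) := fun z => by (repeat' (first | with_reducible exact IntF.id | with_reducible exact IntF.fst' | with_reducible exact IntF.snd' | with_reducible exact IntF.const _ | with_reducible exact Int.const _ | assumption | with_reducible apply Int.and | with_reducible apply Int.or | with_reducible apply Int.not | with_reducible apply Int.imp | with_reducible apply Int.iff | with_reducible apply Int.ne | with_reducible apply Int.eq | with_reducible apply Int.mem | with_reducible apply Int.subset | with_reducible apply Int.ltN | with_reducible apply Int.leN | with_reducible apply Int.fin | with_reducible apply Int.unique | with_reducible apply Int.all | with_reducible apply Int.ex | with_reducible apply IntF.fst | with_reducible apply IntF.snd | with_reducible apply IntF.app | with_reducible apply IntF.ite | with_reducible apply IntF.sep | with_reducible apply IntF.lam | with_reducible apply IntF.insert | with_reducible apply IntF.singleton | with_reducible apply IntF.union | with_reducible apply IntF.inter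 | with_reducible apply IntF.sdiff | with_reducible apply IntF.isUnion | with_reducible apply IntF.iimage | with_reducible apply IntF.the | with_reducible apply IntF.irec | with_reducible_and_instances apply IntF.add | with_reducible_and_instances apply IntF.mul | with_reducible apply IntF.succ | with_reducible apply IntF.val | (with_reducible refine Int.comp ?_ ?_; assumption) | (with_reducible refine Int.comp₂ ?_ ?_ ?_; assumption) | (with_reducible refine Int.comp₃ ?_ ?_ ?_ ?_; assumption) | (with_reducible refine IntF.comp ?_ ?_; assumption) | (with_reducible refine IntF.comp₂ ?_ ?_ ?_; assumption) | (with_reducible refine IntF.comp₃ ?_ ?_ ?_ ?_; assumption) | with_reducible apply IntF.pair))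
  refine ⟨fun b hb => ?_, fun b c z hb hc hzb hzc => ?_, fun z => ?_, fun b hb => ?_⟩
  · obtain ⟨x, hx⟩ := mem_bl.1 hb
    exact ⟨x, (hx x).2 (P.2.1 x)⟩
  · obtain ⟨x, hx⟩ := mem_bl.1 hb
    obtain ⟨x', hx'⟩ := mem_bl.1 hc
    refine IPow.ext' fun y => ?_
    rw [hx, hx']
    have h1 := (hx z).1 hzb
    have h2 := (hx' z).1 hzc
    constructor
    · intro h
      exact P.2.2.2.1 _ _ _ h2 (P.2.2.2.1 _ _ _ (P.2.2.1 _ _ h1) h)
    · intro h
      exact P.2.2.2.1 _ _ _ h1 (P.2.2.2.1 _ _ _ (P.2.2.1 _ _ h2) h)
  · exact ⟨sep M fun y => (z, y) ∈ P.1, mem_bl.2 ⟨z, fun y => mem_sep (hI z)⟩,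
      (mem_sep (hI z)).2 (P.2.1 z)⟩
  · obtain ⟨x, hx⟩ := mem_bl.1 hb
    obtain ⟨t, ht, h1⟩ := P.2.2.2.2 x
    exact ht.subset fun y hy => h1 y ((hx y).1 hy)

theorem bl_inj {P Q : IFr M α} (h : bl P = bl Q) : P = Q := by
  have key : ∀ P Q : IFr M α, bl P = bl Q → ∀ a b, (a, b) ∈ P.1 → (a, b) ∈ Q.1 := by
    intro P Q h a b hab
    have hI : Int M (fun y => (a, y) ∈ P.1) := by (repeat' (first | with_reducible exact IntF.id | with_reducible exact IntF.fst' | with_reducible exact IntF.snd' | with_reducible exact IntF.const _ | with_reducible exact Int.const _ | assumption | with_reducible apply Int.and | with_reducible apply Int.or | with_reducible apply Int.not | with_reducible apply Int.imp | with_reducible apply Int.iff | with_reducible apply Int.ne | with_reducible apply Int.eq | with_reducible apply Int.mem | with_reducible apply Int.subset | with_reducible apply Int.ltN | with_reducible apply Int.leN | with_reducible apply Int.fin | with_reducible apply Int.unique | with_reducible apply Int.all | with_reducible apply Int.ex | with_reducible apply IntF.fst | with_reducible apply IntF.snd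 | with_reducible apply IntF.app | with_reducible apply IntF.ite | with_reducible apply IntF.sep | with_reducible apply IntF.lam | with_reducible apply IntF.insert | with_reducible apply IntF.singleton | with_reducible apply IntF.union | with_reducible apply IntF.inter | with_reducible apply IntF.sdiff | with_reducible apply IntF.isUnion | with_reducible apply IntF.iimage | with_reducible apply IntF.the | with_reducible apply IntF.irec | with_reducible_and_instances apply IntF.add | with_reducible_and_instances apply IntF.mul | with_reducible apply IntF.succ | with_reducible apply IntF.val | (with_reducible refine Int.comp ?_ ?_; assumption) | (with_reducible refine Int.comp₂ ?_ ?_ ?_; assumption) | (with_reducible refine Int.comp₃ ?_ ?_ ?_ ?_; assumption) | (with_reducible refine IntF.comp ?_ ?_; assumption) | (with_reducible refine IntF.comp₂ ?_ ?_ ?_; assumption) | (with_reducible refine IntF.comp₃ ?_ ?_ ?_ ?_; assumption) | with_reducible apply IntF.pair))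
    have h1 : (sep M fun y => (a, y) ∈ P.1) ∈ bl Q := by
      rw [← h]
      exact mem_bl.2 ⟨a, fun y => mem_sep hI⟩
    obtain ⟨x, hx⟩ := mem_bl.1 h1
    have h2 := (hx a).1 ((mem_sep hI).2 (P.2.1 a))
    have h3 := (hx b).1 ((mem_sep hI).2 hab)
    exact Q.2.2.2.1 _ _ _ (Q.2.2.1 _ _ h2) h3
  exact IFr.ext fun a b => ⟨key P Q h a b, key Q P h.symm a b⟩

/-- The theorem for partitions as sets of blocks. -/
theorem no_fto_bp (hinf : ¬ FinP M (fun _ : α => True)) {f : IBp M α → α} (hf : IntF M f)
    (hfib : ∀ a, FinP M (fun P => f P = a)) : False := by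
  have hb := int_bl (M := M) (α := α)
  have h1 : IntF M (fun P : IFr M α => (⟨bl P, isBP_bl P⟩ : IBp M α)) := IntF.mk hb
  refine no_fto hinf (f := fun P => f ⟨bl P, isBP_bl P⟩) (IntF.comp hf h1) fun a => ?_
  refine FinP.of_inj (f := fun P : IFr M α => (⟨bl P, isBP_bl P⟩ : IBp M α)) ?_ h1
    (fun P Q _ _ h => bl_inj (congrArg Subtype.val h)) (hfib a) fun P hP => hP
  exact Int.eq (IntF.comp hf h1) (IntF.const a)

end

/-! ### The bridge -/

section

attribute [local instance] Helper672.Plain.toL

variable {M : Type u} [Helper672.Plain.LSet.Structure M] [hZ : Helper672.Plain.Zermelo M]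
variable {α : Type u₁} {β : Type u₂}

local instance instModelL : IsModel M := Helper672.Plain.isModel_toL

variable [ITy M α] [ITy M β]

theorem isFinite_code {s : IPow M α} : IsFinite (code (M := M) s) ↔ IFin s := by
  constructor
  · intro h
    have h1 := finP_of_finite (p := fun a => a ∈ s) s.int (fun z => mem_code_pow) h
    obtain ⟨t, ht, h2⟩ := h1
    exact ht.subset h2
  · intro h
    haveI : Fact (Int M (fun a => a ∈ s)) := ⟨s.int⟩
    by_contra hn
    refine not_finP (α := {a // a ∈ s}) (a := code (M := M) s) (fun z => ?_) hn ?_
    · refine mem_code_pow.trans ⟨?_, ?_⟩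
      · rintro ⟨a, ha, rfl⟩
        exact ⟨⟨a, ha⟩, rfl⟩
      · rintro ⟨a, rfl⟩
        exact ⟨a.1, a.2, rfl⟩
    · exact FinP.of_inj (Int.const _) (f := fun a : {a // a ∈ s} => a.1) (IntF.val IntF.id)
        (fun a b _ _ h => Subtype.ext h) ⟨s, h, fun _ h => h⟩ fun a _ => a.2

theorem code_mem_code {s : IPow M α} {z : M} : Mem z (code (M := M) s) ↔ ∃ a, a ∈ s ∧ code a = z :=
  mem_code_pow

theorem mem_finPartSet {a B z : M} (hB : IsFinPartSet B a) :
    Mem z B ↔ ∃ S : IBp M (El a), code S = z := by
  refine (hB z).trans ⟨?_, ?_⟩
  · rintro ⟨⟨h1, h2, h3⟩, h4⟩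
    -- the blocks
    have h5 : ∀ b, Mem b z → ∃ s : IPow M (El a), code s = b := by
      intro b hb
      have hs : Int M (fun x : El a => Mem (code x) b) := ⟨b, fun _ => Iff.rfl⟩
      refine ⟨⟨_, hs⟩, extM fun t => ?_⟩
      refine (mem_code_pow (s := (⟨_, hs⟩ : IPow M (El a)))).trans ⟨?_, fun ht => ?_⟩
      · rintro ⟨x, hx, rfl⟩
        exact hx
      · exact ⟨⟨t, (h3 t).2 ⟨b, hb, ht⟩⟩, ht, rfl⟩
    have hS : Int M (fun s : IPow M (El a) => Mem (code s) z) := ⟨z, fun _ => Iff.rfl⟩
    have hm : ∀ s : IPow M (El a), s ∈ (⟨_, hS⟩ : IPow M (IPow M (El a))) ↔ Mem (code s) z :=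
      fun s => Iff.rfl
    refine ⟨⟨⟨_, hS⟩, fun b hb => ?_, fun b c x hb hc hxb hxc => ?_, fun x => ?_, fun b hb => ?_⟩,
      extM fun t => ?_⟩
    · obtain ⟨t, ht⟩ := h1 _ ((hm b).1 hb)
      obtain ⟨x, hx, -⟩ := code_mem_code.1 ht
      exact ⟨x, hx⟩
    · exact ITy.inj (h2 _ _ (code x) ((hm b).1 hb) ((hm c).1 hc) (mem_code_iff.2 hxb)
        (mem_code_iff.2 hxc))
    · obtain ⟨b, hb, hx⟩ := (h3 x.1).1 x.2
      obtain ⟨s, rfl⟩ := h5 b hb
      exact ⟨s, (hm s).2 hb, mem_code_iff.1 hx⟩
    · exact isFinite_code.1 (h4 _ ((hm b).1 hb))
    · refine (mem_code_pow (s := (⟨_, hS⟩ : IPow M (IPow M (El a))))).trans ⟨?_, fun ht => ?_⟩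
      · rintro ⟨x, hx, rfl⟩
        exact hx
      · obtain ⟨s, rfl⟩ := h5 t ht
        exact ⟨s, ht, rfl⟩
  · rintro ⟨S, rfl⟩
    have hc : ∀ b, Mem b (code (M := M) S) ↔ ∃ s : IPow M (El a), s ∈ S.1 ∧ code s = b :=
      fun b => code_mem_code (s := S.1)
    refine ⟨⟨fun b hb => ?_, fun b c x hb hc' hxb hxc => ?_, fun x => ⟨fun hx => ?_, ?_⟩⟩,
      fun b hb => ?_⟩
    · obtain ⟨s, hs, rfl⟩ := (hc b).1 hb
      obtain ⟨x, hx⟩ := S.2.1 s hs
      exact ⟨code x, mem_code_iff.2 hx⟩
    · obtain ⟨s, hs, rfl⟩ := (hc b).1 hb
      obtain ⟨t, ht, rfl⟩ := (hc c).1 hc'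
      obtain ⟨y, hy, rfl⟩ := code_mem_code.1 hxb
      rw [S.2.2.1 s t y hs ht hy (mem_code_iff.1 hxc)]
    · obtain ⟨s, hs, h⟩ := S.2.2.2.1 ⟨x, hx⟩
      exact ⟨code s, (hc _).2 ⟨s, hs, rfl⟩, code_mem_code.2 ⟨⟨x, hx⟩, h, rfl⟩⟩
    · rintro ⟨b, hb, hx⟩
      obtain ⟨s, hs, rfl⟩ := (hc b).1 hb
      obtain ⟨y, hy, rfl⟩ := code_mem_code.1 hx
      exact y.2
    · obtain ⟨s, hs, rfl⟩ := (hc b).1 hb
      exact isFinite_code.2 (S.2.2.2.2 s hs)

end

end Pool.Agent.Q212.ZA
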