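import Pool.Agent.TH255.QI.Main

/-!
# Sums of differences of elements of a set of quasi-integers
-/

set_option autoImplicit false

namespace Pool.Agent.Q212.DZ

open MvPolynomial Pool.Agent.TH255.HC Pool.Agent.TH255.QI

/-! ### Existential definitions -/

theorem pf_sum {m : ℕ} {f : Fin m → (ℕ → ℚ) → ℚ} (h : ∀ i, PF (f i)) :
    PF (fun v => ∑ i, f i v) := by
  choose p hp using h
  exact ⟨∑ i, p i, fun v => by rw [map_sum]; exact Finset.sum_congr rfl fun i _ => hp i v⟩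

theorem pf_prod {ι : Type} {s : Finset ι} {f : ι → (ℕ → ℚ) → ℚ} (h : ∀ i, PF (f i)) :
    PF (fun v => ∏ i ∈ s, f i v) := by
  choose p hp using h
  exact ⟨∏ i ∈ s, p i, fun v => by rw [map_prod]; exact Finset.prod_congr rfl fun i _ => hp i v⟩

/-- replacing the predicate by a set which is defined from the predicate -/
theorem dt_subst {𝒯 𝒯' : Set ℚ → Prop} {Φ : Set ℚ → Set ℚ} (hΦ : ∀ T, 𝒯 T → 𝒯' (Φ T))
    (hd : DT 𝒯 (fun T v => v 0 ∈ Φ T)) {P : Set ℚ → (ℕ → ℚ) → Prop} (h : DT 𝒯' P) :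
    DT 𝒯 (fun T v => P (Φ T) v) := by
  obtain ⟨p, S, hp⟩ := h
  have h1 : DT 𝒯 (fun T v => ∃ u : ℕ → ℚ, MvPolynomial.aeval (mix v u) p = 0 ∧
      ∀ s ∈ S, mix v u s ∈ Φ T) := by
    refine DT.exs ?_
    have e : ∀ w : ℕ → ℚ, mix (fun n => w (2 * n)) (fun n => w (2 * n + 1)) = w := by
      intro w
      funext n
      obtain ⟨m, rfl | rfl⟩ : ∃ m, n = 2 * m ∨ n = 2 * m + 1 := ⟨n / 2, by omega⟩
      · rw [mix_even]
      · rw [mix_odd]
    have h2 : DT 𝒯 (fun T w => MvPolynomial.aeval w p = 0 ∧ ∀ s ∈ S, w s ∈ Φ T) :=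
      (DT.eq ⟨p, fun _ => rfl⟩ PF.zero).and (DT.list S fun s => DT.ren hd fun _ => s)
    refine h2.congr fun T _ w => ?_
    rw [e]
  exact h1.congr fun T hT v => hp _ (hΦ T hT) v

/-- The numbers `x` for which `K x` is the sum of `m` differences of elements of `T` which are not
much larger than `x`. -/
def Phi (m K C : ℕ) (T : Set ℚ) : Set ℚ :=
  {x | ∃ a b : Fin m → ℚ, (∀ i, (a i ∈ T ∧ b i ∈ T) ∧ a i ^ 2 ≤ (C : ℚ) ^ 2 * (1 + x ^ 2) ∧
    b i ^ 2 ≤ (C : ℚ) ^ 2 * (1 + x ^ 2)) ∧ K * x = ∑ i, (a i - b i)}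

theorem pf_nat (n : ℕ) : PF (fun _ => (n : ℚ)) := by
  have := PF.int (n : ℤ)
  simpa using this

theorem dt_phi {𝒯 : Set ℚ → Prop} (m K C : ℕ) : DT 𝒯 (fun T v => v 0 ∈ Phi m K C T) := by
  have h : DT 𝒯 (fun T v => ∃ u : ℕ → ℚ, (∀ i ∈ List.range m,
      (u (2 * i) ∈ T ∧ u (2 * i + 1) ∈ T) ∧ u (2 * i) ^ 2 ≤ (C : ℚ) ^ 2 * (1 + v 0 ^ 2) ∧
        u (2 * i + 1) ^ 2 ≤ (C : ℚ) ^ 2 * (1 + v 0 ^ 2)) ∧
      K * v 0 = ∑ i : Fin m, (u (2 * i) - u (2 * i + 1))) := by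
    refine DT.exs ((DT.list _ fun i => ?_).and ?_)
    · have l : PF (fun v : ℕ → ℚ => (C : ℚ) ^ 2 * (1 + v (2 * 0) ^ 2)) :=
        ((pf_nat C).pow 2).mul (PF.one.add ((PF.var (2 * 0)).pow 2))
      exact ((DT.mem (PF.od (2 * i))).and (DT.mem (PF.od (2 * i + 1)))).and
        ((DT.le ((PF.od (2 * i)).pow 2) l).and (DT.le ((PF.od (2 * i + 1)).pow 2) l))
    · refine DT.eq ((pf_nat K).mul (PF.var (2 * 0))) (pf_sum fun i => ?_)
      exact (PF.od (2 * i)).sub (PF.od (2 * i + 1))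
  refine h.congr fun T _ v => ?_
  constructor
  · rintro ⟨a, b, h1, h2⟩
    refine ⟨fun n => if hn : n / 2 < m then (if n % 2 = 0 then a ⟨n / 2, hn⟩ else b ⟨n / 2, hn⟩)
      else 0, fun i hi => ?_, ?_⟩
    · have hi' := List.mem_range.1 hi
      have e1 : 2 * i / 2 = i := by omega
      have e2 : (2 * i + 1) / 2 = i := by omega
      have e3 : 2 * i % 2 = 0 := by omega
      have e4 : ¬ (2 * i + 1) % 2 = 0 := by omega
      simp only [e1, e2, e3, e4, hi', dif_pos, if_true, if_false]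
      exact h1 ⟨i, hi'⟩
    · rw [h2]
      refine Finset.sum_congr rfl fun i _ => ?_
      have e1 : 2 * (i : ℕ) / 2 = i := by omega
      have e2 : (2 * (i : ℕ) + 1) / 2 = i := by omega
      have e3 : 2 * (i : ℕ) % 2 = 0 := by omega
      have e4 : ¬ (2 * (i : ℕ) + 1) % 2 = 0 := by omega
      simp only [e1, e2, e3, e4, i.2, dif_pos, if_true, if_false]
  · rintro ⟨u, h1, h2⟩
    exact ⟨fun i => u (2 * i), fun i => u (2 * i + 1), fun i => h1 i (List.mem_range.2 i.2), h2⟩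

theorem mem_phi_of {m K C : ℕ} {T : Set ℚ} {x : ℚ} {ι : Type} [Fintype ι]
    (hm : Fintype.card ι = m) (a b : ι → ℚ) (h1 : ∀ i, (a i ∈ T ∧ b i ∈ T) ∧
      a i ^ 2 ≤ (C : ℚ) ^ 2 * (1 + x ^ 2) ∧ b i ^ 2 ≤ (C : ℚ) ^ 2 * (1 + x ^ 2))
    (h2 : K * x = ∑ i, (a i - b i)) : x ∈ Phi m K C T := by
  subst hm
  let e := Fintype.equivFin ι
  refine ⟨fun i => a (e.symm i), fun i => b (e.symm i), fun i => h1 _, ?_⟩
  rw [h2]
  exact (Equiv.sum_comp e.symm fun i => a i - b i).symm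

/-! ### Denominators -/

/-- the denominators of the elements are at most `exp (A (1 + log max(1, |x|)) ^ δ)` -/
def Qi (A δ : ℝ) (T : Set ℚ) : Prop :=
  ∀ x ∈ T, Real.log x.den ≤ A * (1 + Real.log (max 1 |(x : ℝ)|)) ^ δ

theorem log_den_add (a b : ℚ) : Real.log (a + b).den ≤ Real.log a.den + Real.log b.den := by
  rw [← Real.log_mul (by exact_mod_cast a.den_nz) (by exact_mod_cast b.den_nz)]
  refine Real.log_le_log (by exact_mod_cast (a + b).den_pos) ?_
  exact_mod_cast den_add_le a b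

theorem log_den_mul (a b : ℚ) : Real.log (a * b).den ≤ Real.log a.den + Real.log b.den := by
  rw [← Real.log_mul (by exact_mod_cast a.den_nz) (by exact_mod_cast b.den_nz)]
  refine Real.log_le_log (by exact_mod_cast (a * b).den_pos) ?_
  exact_mod_cast den_mul_le a b

theorem log_den_sub (a b : ℚ) : Real.log (a - b).den ≤ Real.log a.den + Real.log b.den := by
  have h := log_den_add a (-b)
  rwa [← sub_eq_add_neg, Rat.neg_den] at h

theorem log_den_sum {ι : Type} (s : Finset ι) (f : ι → ℚ) :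
    Real.log (∑ i ∈ s, f i).den ≤ ∑ i ∈ s, Real.log (f i).den := by
  classical
  induction s using Finset.induction_on with
  | empty => simp
  | insert i s hi ih =>
    rw [Finset.sum_insert hi, Finset.sum_insert hi]
    exact (log_den_add _ _).trans (by linarith)

theorem log_den_of_mul {K : ℕ} (hK : 0 < K) {x s : ℚ} (h : K * x = s) :
    Real.log x.den ≤ Real.log K + Real.log s.den := by
  have hK0 : (K : ℚ) ≠ 0 := by exact_mod_cast hK.ne'
  have h1 : x = (K : ℚ)⁻¹ * s := by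
    rw [← h]
    field_simp
  rw [h1]
  refine (log_den_mul _ _).trans ?_
  have h2 : ((K : ℚ)⁻¹).den = K := by
    rw [Rat.den_inv_of_ne_zero hK0]
    simp
  rw [h2]

/-- The sums of differences are quasi-integers. -/
theorem qi_phi {A δ : ℝ} (m : ℕ) {K C : ℕ} (hK : 0 < K) (hC : 0 < C) :
    ∃ A' : ℝ, ∀ T, Qi A δ T → Qi A' (max δ 0) (Phi m K C T) := by
  set δ' := max δ 0 with hδ'
  have hd0 : 0 ≤ δ' := le_max_right _ _
  set c : ℝ := (1 + Real.log (2 * C)) ^ δ' with hc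
  have hC1 : (1 : ℝ) ≤ C := by exact_mod_cast hC
  have hlC : 0 ≤ Real.log (2 * C) := Real.log_nonneg (by linarith)
  have hc0 : 0 ≤ c := Real.rpow_nonneg (by linarith) _
  refine ⟨Real.log K + m * (2 * (|A| * c)), fun T hT x hx => ?_⟩
  obtain ⟨a, b, h1, h2⟩ := hx
  set L : ℝ := Real.log (max 1 |(x : ℝ)|) with hL
  have hL0 : 0 ≤ L := Real.log_nonneg (le_max_left _ _)
  set E : ℝ := (1 + L) ^ δ' with hE
  have hE1 : 1 ≤ E := Real.one_le_rpow (by linarith) hd0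
  have key : ∀ y ∈ T, y ^ 2 ≤ (C : ℚ) ^ 2 * (1 + x ^ 2) → Real.log y.den ≤ |A| * c * E := by
    intro y hy hyC
    have hy1 : (y : ℝ) ^ 2 ≤ (C : ℝ) ^ 2 * (1 + (x : ℝ) ^ 2) := by exact_mod_cast hyC
    have hmx : 1 ≤ max 1 |(x : ℝ)| := le_max_left _ _
    have hmx' : |(x : ℝ)| ≤ max 1 |(x : ℝ)| := le_max_right _ _
    have hy2 : |(y : ℝ)| ≤ 2 * C * max 1 |(x : ℝ)| := by
      refine abs_le_of_sq_le_sq ?_ (by positivity)
      have h3 : (x : ℝ) ^ 2 ≤ max 1 |(x : ℝ)| ^ 2 := by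
        rw [← sq_abs (x : ℝ)]
        exact pow_le_pow_left₀ (abs_nonneg _) hmx' 2
      have h4 : 1 + (x : ℝ) ^ 2 ≤ 4 * max 1 |(x : ℝ)| ^ 2 := by nlinarith
      calc (y : ℝ) ^ 2 ≤ (C : ℝ) ^ 2 * (1 + (x : ℝ) ^ 2) := hy1
        _ ≤ (C : ℝ) ^ 2 * (4 * max 1 |(x : ℝ)| ^ 2) := by gcongr
        _ = (2 * C * max 1 |(x : ℝ)|) ^ 2 := by ring
    have hy3 : Real.log (max 1 |(y : ℝ)|) ≤ Real.log (2 * C) + L := by
      rw [hL, ← Real.log_mul (by positivity) (by positivity)]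
      refine Real.log_le_log (by positivity) (max_le ?_ hy2)
      nlinarith
    have hy0 : 0 ≤ Real.log (max 1 |(y : ℝ)|) := Real.log_nonneg (le_max_left _ _)
    calc Real.log y.den ≤ A * (1 + Real.log (max 1 |(y : ℝ)|)) ^ δ := hT y hy
      _ ≤ |A| * (1 + Real.log (max 1 |(y : ℝ)|)) ^ δ' := by
          refine mul_le_mul (le_abs_self A) ?_ (Real.rpow_nonneg (by linarith) _) (abs_nonneg _)
          exact Real.rpow_le_rpow_of_exponent_le (by linarith) (le_max_left _ _)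
      _ ≤ |A| * ((1 + Real.log (2 * C)) * (1 + L)) ^ δ' := by
          refine mul_le_mul_of_nonneg_left ?_ (abs_nonneg _)
          refine Real.rpow_le_rpow (by linarith) ?_ hd0
          nlinarith [mul_nonneg hlC hL0]
      _ = |A| * c * E := by
          rw [Real.mul_rpow (by linarith) (by linarith), ← mul_assoc]
  have h3 := log_den_of_mul hK h2
  have h4 : Real.log (∑ i, (a i - b i)).den ≤ m * (2 * (|A| * c * E)) := by
    refine (log_den_sum _ _).trans ?_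
    have h5 : ∀ i ∈ (Finset.univ : Finset (Fin m)), Real.log (a i - b i).den ≤
        2 * (|A| * c * E) := by
      intro i _
      have h6 := key _ (h1 i).1.1 (h1 i).2.1
      have h7 := key _ (h1 i).1.2 (h1 i).2.2
      have h8 := log_den_sub (a i) (b i)
      linarith
    have h6 := Finset.sum_le_sum h5
    rwa [Finset.sum_const, Finset.card_univ, Fintype.card_fin, nsmul_eq_mul] at h6
  have hlK : 0 ≤ Real.log K := Real.log_nonneg (by exact_mod_cast hK)
  have h5 : Real.log K ≤ Real.log K * E := by nlinarith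
  calc Real.log x.den ≤ Real.log K * E + m * (2 * (|A| * c * E)) := by linarith
    _ = (Real.log K + m * (2 * (|A| * c))) * E := by ring

end Pool.Agent.Q212.DZ
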