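import Pool.Agent.Q212.DZ1

/-!
# Sets of integers of positive density: every integer is a bounded combination of differences
-/

set_option autoImplicit false

namespace Pool.Agent.Q212.DZ

/-- Pigeonhole principle: some multiple `j g` with `j ≤ M` is a difference of two elements. -/
theorem cover {A : Finset ℤ} {N g M : ℕ} (hA : ∀ a ∈ A, |a| ≤ N) (hc : 3 * N + 1 < (M + 1) * A.card)
    (hg : 1 ≤ g) (hM : M * g ≤ N) :
    ∃ j, 1 ≤ j ∧ j ≤ M ∧ ∃ a ∈ A, ∃ b ∈ A, (j : ℤ) * g = a - b := by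
  classical
  let f : ℕ × ℤ → ℤ := fun p => p.1 * g + p.2
  have hmap : ∀ p ∈ (Finset.range (M + 1) ×ˢ A), f p ∈ Finset.Icc (-(N : ℤ)) (2 * N) := by
    rintro ⟨i, a⟩ hp
    rw [Finset.mem_product, Finset.mem_range] at hp
    obtain ⟨h1, h2⟩ := hp
    simp only at h1 h2
    have h3 := abs_le.1 (hA a h2)
    have h4 : (i : ℤ) * g ≤ N := by
      have : i * g ≤ N := (Nat.mul_le_mul_right g (by omega : i ≤ M)).trans hM
      exact_mod_cast this
    have h5 : (0 : ℤ) ≤ (i : ℤ) * g := by positivity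
    rw [Finset.mem_Icc]
    simp only [f]
    constructor <;> linarith [h3.1, h3.2]
  have hcard : (Finset.Icc (-(N : ℤ)) (2 * N)).card < (Finset.range (M + 1) ×ˢ A).card := by
    rw [Int.card_Icc, Finset.card_product, Finset.card_range]
    have : (2 * (N : ℤ) + 1 - -(N : ℤ)).toNat = 3 * N + 1 := by omega
    rw [this]
    exact hc
  obtain ⟨p, hp, q, hq, hpq, hf⟩ := Finset.exists_ne_map_eq_of_card_lt_of_maps_to hcard hmap
  rw [Finset.mem_product, Finset.mem_range] at hp hq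
  obtain ⟨i, a⟩ := p
  obtain ⟨k, b⟩ := q
  simp only [f] at hf hp hq
  rcases lt_trichotomy i k with h | h | h
  · refine ⟨k - i, by omega, by omega, a, hp.2, b, hq.2, ?_⟩
    rw [Nat.cast_sub h.le]
    linarith
  · exfalso
    subst h
    exact hpq (Prod.ext rfl (by simpa using hf))
  · refine ⟨i - k, by omega, by omega, b, hq.2, a, hp.2, ?_⟩
    rw [Nat.cast_sub h.le]
    linarith

/-- Every integer is in `Phi (M! r) M! C T` as soon as, for all `g ≥ 1`, some multiple `j g` with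
`1 ≤ j ≤ M` is the sum of `r` differences of elements of `T` of absolute value at most `C g`. -/
theorem phi_of_cover {T : Set ℚ} {M r C : ℕ} (hr : 0 < r)
    (h : ∀ g : ℕ, 1 ≤ g → ∃ j, 1 ≤ j ∧ j ≤ M ∧ ∃ a b : Fin r → ℚ,
      (∀ i, (a i ∈ T ∧ b i ∈ T) ∧ |a i| ≤ C * g ∧ |b i| ≤ C * g) ∧
        (j : ℚ) * g = ∑ i, (a i - b i)) (z : ℤ) :
    (z : ℚ) ∈ Phi (M.factorial * r) M.factorial C T := by
  classical
  -- squares
  have hsq : ∀ {y : ℚ} {g : ℕ}, |y| ≤ C * g → ((g : ℚ) ^ 2 ≤ 1 + (z : ℚ) ^ 2) →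
      y ^ 2 ≤ (C : ℚ) ^ 2 * (1 + (z : ℚ) ^ 2) := by
    intro y g h1 h2
    calc y ^ 2 = |y| ^ 2 := (sq_abs y).symm
      _ ≤ (C * g) ^ 2 := pow_le_pow_left₀ (abs_nonneg _) h1 2
      _ = (C : ℚ) ^ 2 * (g : ℚ) ^ 2 := by ring
      _ ≤ (C : ℚ) ^ 2 * (1 + (z : ℚ) ^ 2) := by gcongr
  have hcard : Fintype.card (Fin M.factorial × Fin r) = M.factorial * r := by
    rw [Fintype.card_prod, Fintype.card_fin, Fintype.card_fin]
  rcases eq_or_ne z 0 with hz | hz
  · obtain ⟨j, -, -, a, b, h1, -⟩ := h 1 le_rfl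
    refine mem_phi_of hcard (fun _ => a ⟨0, hr⟩) (fun _ => a ⟨0, hr⟩) (fun _ => ?_) ?_
    · have h2 := h1 ⟨0, hr⟩
      have h3 : ((1 : ℕ) : ℚ) ^ 2 ≤ 1 + (z : ℚ) ^ 2 := by
        rw [Nat.cast_one]
        nlinarith [sq_nonneg (z : ℚ)]
      exact ⟨⟨h2.1.1, h2.1.1⟩, hsq h2.2.1 h3, hsq h2.2.1 h3⟩
    · rw [hz]
      simp
  · have hg : 1 ≤ z.natAbs := Int.natAbs_pos.2 hz
    obtain ⟨j, hj1, hjM, a, b, h1, h2⟩ := h z.natAbs hg
    have h3 : ((z.natAbs : ℕ) : ℚ) ^ 2 ≤ 1 + (z : ℚ) ^ 2 := by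
      have h4 : ((z.natAbs : ℕ) : ℚ) ^ 2 = (z : ℚ) ^ 2 := by
        rw [Nat.cast_natAbs, Int.cast_abs, sq_abs]
      rw [h4]
      linarith
    have hdvd : j ∣ M.factorial := Nat.dvd_factorial hj1 hjM
    obtain ⟨l, hl⟩ := hdvd
    have hlM : l ≤ M.factorial := by
      rw [hl]
      exact Nat.le_mul_of_pos_left l hj1
    -- the sum
    have hsum : ∀ u : Fin r → ℚ, ∑ p : Fin M.factorial × Fin r,
        (if (p.1 : ℕ) < l then u p.2 else 0) = l * ∑ i, u i := by
      intro u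
      rw [Fintype.sum_prod_type]
      have e1 : ∀ k : Fin M.factorial, ∑ i : Fin r, (if (k : ℕ) < l then u i else 0) =
          if (k : ℕ) < l then ∑ i, u i else 0 := by
        intro k
        split_ifs <;> simp
      rw [Finset.sum_congr rfl fun k _ => e1 k]
      rw [← Finset.sum_filter, Finset.sum_const, nsmul_eq_mul]
      congr 2
      rw [Fin.card_filter_val_lt]
      exact min_eq_right hlM
    rcases lt_or_gt_of_ne hz with hneg | hpos
    · -- negative
      refine mem_phi_of hcard (fun p => if (p.1 : ℕ) < l then b p.2 else a p.2)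
        (fun p => a p.2) (fun p => ?_) ?_
      · have h5 := h1 p.2
        split_ifs
        · exact ⟨⟨h5.1.2, h5.1.1⟩, hsq h5.2.2 h3, hsq h5.2.1 h3⟩
        · exact ⟨⟨h5.1.1, h5.1.1⟩, hsq h5.2.1 h3, hsq h5.2.1 h3⟩
      · have e2 : ∀ p : Fin M.factorial × Fin r,
            (if (p.1 : ℕ) < l then b p.2 else a p.2) - a p.2 =
            if (p.1 : ℕ) < l then -(a p.2 - b p.2) else 0 := by
          intro p
          split_ifs <;> ring
        rw [Finset.sum_congr rfl fun p _ => e2 p, hsum fun i => -(a i - b i),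
          Finset.sum_neg_distrib, ← h2]
        have e3 : (z : ℚ) = -(z.natAbs : ℚ) := by
          have h6 : (z : ℚ) < 0 := by exact_mod_cast hneg
          rw [Nat.cast_natAbs, Int.cast_abs, abs_of_neg h6, neg_neg]
        rw [hl]
        conv_lhs => rw [e3]
        push_cast
        ring
    · -- positive
      refine mem_phi_of hcard (fun p => a p.2)
        (fun p => if (p.1 : ℕ) < l then b p.2 else a p.2) (fun p => ?_) ?_
      · have h5 := h1 p.2
        split_ifs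
        · exact ⟨⟨h5.1.1, h5.1.2⟩, hsq h5.2.1 h3, hsq h5.2.2 h3⟩
        · exact ⟨⟨h5.1.1, h5.1.1⟩, hsq h5.2.1 h3, hsq h5.2.1 h3⟩
      · have e2 : ∀ p : Fin M.factorial × Fin r,
            a p.2 - (if (p.1 : ℕ) < l then b p.2 else a p.2) =
            if (p.1 : ℕ) < l then (a p.2 - b p.2) else 0 := by
          intro p
          split_ifs <;> ring
        rw [Finset.sum_congr rfl fun p _ => e2 p, hsum fun i => (a i - b i), ← h2]
        have e3 : (z : ℚ) = (z.natAbs : ℚ) := by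
          have h6 : 0 < (z : ℚ) := by exact_mod_cast hpos
          rw [Nat.cast_natAbs, Int.cast_abs, abs_of_pos h6]
        rw [hl]
        conv_lhs => rw [e3]
        push_cast
        ring

/-- the integers of absolute value at most `N` in `T` -/
noncomputable def cnt (T : Set ℚ) (N : ℕ) : ℕ :=
  {z : ℤ | |z| ≤ N ∧ (z : ℚ) ∈ T}.ncard

/-- the lower density of the integers in `T` is positive -/
theorem int_mem_phi {ε : ℝ} (hε : 0 < ε) (N₀ : ℕ) : ∃ m K C : ℕ, 0 < K ∧ 0 < C ∧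
    ∀ T : Set ℚ, (∀ N, N₀ ≤ N → ε * N ≤ cnt T N) → ∀ z : ℤ, (z : ℚ) ∈ Phi m K C T := by
  classical
  obtain ⟨M, hM⟩ := exists_nat_gt (4 / ε)
  refine ⟨M.factorial * 1, M.factorial, N₀ + M + 2, Nat.factorial_pos M, by omega,
    fun T hT z => phi_of_cover one_pos (fun g hg => ?_) z⟩
  set N : ℕ := N₀ + M * g + 2 with hN
  have hfin : {z : ℤ | |z| ≤ N ∧ (z : ℚ) ∈ T}.Finite :=
    (Set.finite_Icc (-(N : ℤ)) N).subset fun z hz => abs_le.1 hz.1
  set A : Finset ℤ := hfin.toFinset with hA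
  have hAc : A.card = cnt T N := (Set.ncard_eq_toFinset_card _ hfin).symm
  have hAm : ∀ a ∈ A, |a| ≤ N ∧ (a : ℚ) ∈ T := fun a ha => by
    rw [hA, Set.Finite.mem_toFinset] at ha
    exact ha
  have h1 := hT N (by omega)
  have h2 : 3 * N + 1 < (M + 1) * A.card := by
    rw [hAc]
    have h3 : (4 : ℝ) < M * ε := by
      rwa [div_lt_iff₀ hε] at hM
    have h4 : (2 : ℝ) ≤ N := by
      have : 2 ≤ N := by omega
      exact_mod_cast this
    have h5 : (3 * N + 1 : ℝ) < (M + 1) * cnt T N := by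
      have h6 : (4 : ℝ) * N < (M * ε) * N := by nlinarith
      have h7 : (M : ℝ) * (ε * N) ≤ M * cnt T N := by gcongr
      have h8 : (0 : ℝ) ≤ cnt T N := Nat.cast_nonneg _
      nlinarith
    exact_mod_cast h5
  obtain ⟨j, hj1, hjM, a, ha, b, hb, hab⟩ := cover (fun a ha => (hAm a ha).1) h2 hg (by omega)
  have hbd : ∀ a ∈ A, |(a : ℚ)| ≤ ((N₀ + M + 2 : ℕ) : ℚ) * g := by
    intro a ha
    have h3 := (hAm a ha).1
    have h4 : N ≤ (N₀ + M + 2) * g := by
      rw [hN]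
      nlinarith
    have h5 : |a| ≤ (((N₀ + M + 2) * g : ℕ) : ℤ) := h3.trans (by exact_mod_cast h4)
    exact_mod_cast h5
  refine ⟨j, hj1, hjM, fun _ => a, fun _ => b, fun _ => ⟨⟨(hAm a ha).2, (hAm b hb).2⟩,
    hbd a ha, hbd b hb⟩, ?_⟩
  rw [Fin.sum_const, one_smul]
  exact_mod_cast hab

end Pool.Agent.Q212.DZ
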