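import Pool.Agent.Q212.DZ2
import Pool.Agent.H357R2.SI.PairFinal

/-!
# Sets of primes of positive relative density: many differences
-/

set_option autoImplicit false

open Filter Topology

namespace Pool.Agent.Q212.DZ

open Pool.Agent.H357R2.SI

lemma cs_pow (s : Finset ℕ) (hs : ∀ d ∈ s, 0 < d) (a b : ℝ) :
    (∑ d ∈ s, (d : ℝ) ^ (a + b)) ^ 2 ≤
      (∑ d ∈ s, (d : ℝ) ^ (2 * a)) * ∑ d ∈ s, (d : ℝ) ^ (2 * b) := by
  have h1 : ∑ d ∈ s, (d : ℝ) ^ (a + b) = ∑ d ∈ s, (d : ℝ) ^ a * (d : ℝ) ^ b :=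
    Finset.sum_congr rfl fun d hd => Real.rpow_add (by exact_mod_cast hs d hd) _ _
  rw [h1]
  refine (Finset.sum_mul_sq_le_sq_mul_sq _ _ _).trans (le_of_eq ?_)
  congr 1 <;> refine Finset.sum_congr rfl fun d _ => ?_
  · rw [← Real.rpow_natCast, ← Real.rpow_mul (Nat.cast_nonneg d), mul_comm a]
    norm_num
  · rw [← Real.rpow_natCast, ← Real.rpow_mul (Nat.cast_nonneg d), mul_comm b]
    norm_num

/-- average of `σ_{-1}(h)^4` -/
theorem sum_sg_four : ∃ C : ℝ, 1 ≤ C ∧ ∀ T : ℕ, ∑ h ∈ Finset.Icc 1 T, sg h ^ 4 ≤ C * T := by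
  have hsum : Summable (fun n : ℕ => (n : ℝ) ^ (-(11 / 10) : ℝ)) :=
    Real.summable_nat_rpow.mpr (by norm_num)
  set C₀ : ℝ := ∑' n : ℕ, (n : ℝ) ^ (-(11 / 10) : ℝ) with hC₀
  have hC₀0 : 0 ≤ C₀ := tsum_nonneg (fun n => by positivity)
  have hpart : ∀ s : Finset ℕ, ∑ d ∈ s, (d : ℝ) ^ (-(11 / 10) : ℝ) ≤ C₀ :=
    fun s => hsum.sum_le_tsum s (fun n _ => by positivity)
  have hpart' : ∀ (s : Finset ℕ) (t : ℝ), (∀ d ∈ s, 0 < d) → t ≤ -(11 / 10) →
      ∑ d ∈ s, (d : ℝ) ^ t ≤ C₀ := by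
    intro s t hs ht
    refine (Finset.sum_le_sum fun d hd => ?_).trans (hpart s)
    exact Real.rpow_le_rpow_of_exponent_le (by exact_mod_cast hs d hd) ht
  refine ⟨C₀ ^ 4 + 1, by nlinarith [sq_nonneg (C₀ ^ 2)], fun T => ?_⟩
  have h1 : ∀ h ∈ Finset.Icc 1 T,
      sg h ^ 4 ≤ C₀ ^ 3 * ∑ d ∈ h.divisors, (d : ℝ) ^ (-(3 / 5) : ℝ) := by
    intro h _
    have hpos : ∀ d ∈ h.divisors, 0 < d := fun d hd => Nat.pos_of_mem_divisors hd
    set s1 : ℝ := ∑ d ∈ h.divisors, (d : ℝ) ^ (-(9 / 10) : ℝ) with hs1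
    set s2 : ℝ := ∑ d ∈ h.divisors, (d : ℝ) ^ (-(3 / 5) : ℝ) with hs2
    have h10 : 0 ≤ s1 := Finset.sum_nonneg (fun _ _ => by positivity)
    have h20 : 0 ≤ s2 := Finset.sum_nonneg (fun _ _ => by positivity)
    have h2 : sg h = ∑ d ∈ h.divisors, (d : ℝ) ^ (-(11 / 20) + -(9 / 20) : ℝ) := by
      unfold sg
      apply Finset.sum_congr rfl
      intro d _
      rw [one_div, ← Real.rpow_neg_one]
      norm_num
    have h3 : sg h ^ 2 ≤ C₀ * s1 := by
      rw [h2]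
      refine (cs_pow _ hpos _ _).trans ?_
      have e1 : (2 : ℝ) * -(11 / 20) = -(11 / 10) := by norm_num
      have e2 : (2 : ℝ) * -(9 / 20) = -(9 / 10) := by norm_num
      rw [e1, e2]
      exact mul_le_mul_of_nonneg_right (hpart _) h10
    have h4 : s1 ^ 2 ≤ C₀ * s2 := by
      have e0 : s1 = ∑ d ∈ h.divisors, (d : ℝ) ^ (-(3 / 5) + -(3 / 10) : ℝ) := by
        rw [hs1]
        norm_num
      rw [e0]
      refine (cs_pow _ hpos _ _).trans ?_
      have e2 : (2 : ℝ) * -(3 / 10) = -(3 / 5) := by norm_num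
      rw [e2]
      exact mul_le_mul_of_nonneg_right (hpart' _ _ hpos (by norm_num)) h20
    calc sg h ^ 4 = (sg h ^ 2) ^ 2 := by ring
      _ ≤ (C₀ * s1) ^ 2 := pow_le_pow_left₀ (sq_nonneg _) h3 2
      _ = C₀ ^ 2 * s1 ^ 2 := by ring
      _ ≤ C₀ ^ 2 * (C₀ * s2) := by gcongr
      _ = C₀ ^ 3 * s2 := by ring
  have h5 : ∑ h ∈ Finset.Icc 1 T, ∑ d ∈ h.divisors, (d : ℝ) ^ (-(3 / 5) : ℝ) ≤ C₀ * T := by
    have h6 : ∀ h ∈ Finset.Icc 1 T, ∑ d ∈ h.divisors, (d : ℝ) ^ (-(3 / 5) : ℝ) =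
        ∑ d ∈ Finset.Icc 1 T, if d ∣ h then (d : ℝ) ^ (-(3 / 5) : ℝ) else 0 := by
      intro h hh
      rw [Finset.mem_Icc] at hh
      rw [← Finset.sum_filter]
      apply Finset.sum_congr _ (fun _ _ => rfl)
      ext d
      rw [Nat.mem_divisors, Finset.mem_filter, Finset.mem_Icc]
      constructor
      · rintro ⟨h7, h8⟩
        exact ⟨⟨Nat.pos_of_dvd_of_pos h7 (by omega), (Nat.le_of_dvd (by omega) h7).trans hh.2⟩, h7⟩
      · rintro ⟨_, h7⟩
        exact ⟨h7, by omega⟩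
    rw [Finset.sum_congr rfl h6, Finset.sum_comm]
    have h7 : ∀ d ∈ Finset.Icc 1 T, (∑ h ∈ Finset.Icc 1 T,
        if d ∣ h then (d : ℝ) ^ (-(3 / 5) : ℝ) else 0) ≤ (d : ℝ) ^ (-(8 / 5) : ℝ) * T := by
      intro d hd
      rw [Finset.mem_Icc] at hd
      have hd0 : (0 : ℝ) < d := by exact_mod_cast hd.1
      rw [← Finset.sum_filter, Finset.sum_const, nsmul_eq_mul]
      have h8 : ((Finset.Icc 1 T).filter (fun h => d ∣ h)).card = T / d := by
        have := Nat.Ioc_filter_dvd_card_eq_div T d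
        rw [← this]
        congr 1
      rw [h8]
      have h9 : ((T / d : ℕ) : ℝ) ≤ (T : ℝ) / d := Nat.cast_div_le
      calc ((T / d : ℕ) : ℝ) * (d : ℝ) ^ (-(3 / 5) : ℝ) ≤ (T : ℝ) / d * (d : ℝ) ^ (-(3 / 5) : ℝ) := by
            gcongr
        _ = (d : ℝ) ^ (-(8 / 5) : ℝ) * T := by
            rw [show (-(8 / 5) : ℝ) = -1 + -(3 / 5) by norm_num, Real.rpow_add hd0,
              Real.rpow_neg_one]
            field_simp
    refine (Finset.sum_le_sum h7).trans ?_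
    rw [← Finset.sum_mul]
    refine mul_le_mul_of_nonneg_right (hpart' _ _ (fun d hd => ?_) (by norm_num))
      (Nat.cast_nonneg T)
    exact (Finset.mem_Icc.1 hd).1
  calc ∑ h ∈ Finset.Icc 1 T, sg h ^ 4
      ≤ ∑ h ∈ Finset.Icc 1 T, C₀ ^ 3 * ∑ d ∈ h.divisors, (d : ℝ) ^ (-(3 / 5) : ℝ) :=
        Finset.sum_le_sum h1
    _ = C₀ ^ 3 * ∑ h ∈ Finset.Icc 1 T, ∑ d ∈ h.divisors, (d : ℝ) ^ (-(3 / 5) : ℝ) := by
        rw [Finset.mul_sum]
    _ ≤ C₀ ^ 3 * (C₀ * T) := mul_le_mul_of_nonneg_left h5 (by positivity)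
    _ ≤ (C₀ ^ 4 + 1) * T := by
        have : (0 : ℝ) ≤ T := Nat.cast_nonneg T
        nlinarith

/-- the differences of the elements of `P`, in absolute value -/
def dif (P : Finset ℕ) : Finset ℕ := P.offDiag.image fun p => (p.1 - p.2) + (p.2 - p.1)

lemma mem_dif {P : Finset ℕ} {h : ℕ} (hh : h ∈ dif P) : 0 < h ∧ ∃ p ∈ P, ∃ q ∈ P, p = q + h := by
  rw [dif, Finset.mem_image] at hh
  obtain ⟨⟨p, q⟩, h1, h2⟩ := hh
  rw [Finset.mem_offDiag] at h1
  obtain ⟨hp, hq, hne⟩ := h1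
  simp only at hp hq hne h2
  rcases lt_or_gt_of_ne hne with h | h
  · exact ⟨by omega, q, hq, p, hp, by omega⟩
  · exact ⟨by omega, p, hp, q, hq, by omega⟩

/-- counting pairs by their difference -/
lemma card_le_sum (P : Finset ℕ) (hP : ∀ p ∈ P, p.Prime) (X : ℕ) (hX : ∀ p ∈ P, p ≤ X) :
    P.card * P.card - P.card ≤ ∑ h ∈ dif P,
      2 * ((Finset.Ioc 0 (0 + X)).filter (fun n => n.Prime ∧ (n + h).Prime)).card := by
  classical
  rw [← Finset.offDiag_card,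
    Finset.card_eq_sum_card_image (fun p : ℕ × ℕ => (p.1 - p.2) + (p.2 - p.1)) P.offDiag]
  refine Finset.sum_le_sum fun h _ => ?_
  set B := (Finset.Ioc 0 (0 + X)).filter (fun n => n.Prime ∧ (n + h).Prime) with hB
  have hsub : (P.offDiag.filter fun p => (p.1 - p.2) + (p.2 - p.1) = h) ⊆
      (B.image fun n => (n, n + h)) ∪ (B.image fun n => (n + h, n)) := by
    rintro ⟨p, q⟩ hpq
    rw [Finset.mem_filter, Finset.mem_offDiag] at hpq
    obtain ⟨⟨hp, hq, hne⟩, hd⟩ := hpq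
    simp only at hp hq hne hd
    rw [Finset.mem_union, Finset.mem_image, Finset.mem_image]
    rcases lt_or_gt_of_ne hne with hlt | hlt
    · left
      refine ⟨p, ?_, ?_⟩
      · rw [hB, Finset.mem_filter, Finset.mem_Ioc]
        have e : p + h = q := by omega
        exact ⟨⟨(hP p hp).pos, by have := hX p hp; omega⟩, hP p hp, by rw [e]; exact hP q hq⟩
      · have e : p + h = q := by omega
        rw [e]
    · right
      refine ⟨q, ?_, ?_⟩
      · rw [hB, Finset.mem_filter, Finset.mem_Ioc]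
        have e : q + h = p := by omega
        exact ⟨⟨(hP q hq).pos, by have := hX q hq; omega⟩, hP q hq, by rw [e]; exact hP p hp⟩
      · have e : q + h = p := by omega
        rw [e]
  refine (Finset.card_le_card hsub).trans ((Finset.card_union_le _ _).trans ?_)
  have h1 : (B.image fun n => (n, n + h)).card ≤ B.card := Finset.card_image_le
  have h2 : (B.image fun n => (n + h, n)).card ≤ B.card := Finset.card_image_le
  omega

/-- asymptotics -/
lemma asym {ε : ℝ} (hε : 0 < ε) : ∀ᶠ n : ℕ in atTop, 1 < n ∧ Real.log n ≤ ε / 4 * n ∧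
    (n : ℝ) / 2 ≤ Nat.primeCounting n * Real.log n := by
  have h1 : ∀ᶠ x : ℝ in atTop, Real.log x ≤ ε / 4 * x := by
    filter_upwards [Real.isLittleO_log_id_atTop.bound (by positivity : 0 < ε / 4),
      eventually_ge_atTop 1] with x h2 h3
    rw [Real.norm_of_nonneg (Real.log_nonneg h3), id, Real.norm_of_nonneg (by linarith)] at h2
    exact h2
  have h2 : ∀ᶠ x : ℝ in atTop, Real.log x ≤ 1 / 12 * x := by
    filter_upwards [Real.isLittleO_log_id_atTop.bound (by norm_num : (0 : ℝ) < 1 / 12),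
      eventually_ge_atTop 1] with x h2 h3
    rw [Real.norm_of_nonneg (Real.log_nonneg h3), id, Real.norm_of_nonneg (by linarith)] at h2
    exact h2
  have h3 := tendsto_natCast_atTop_atTop (R := ℝ) |>.eventually h1
  have h4 : ∀ᶠ n : ℕ in atTop, Real.log ((n : ℝ) + 1) ≤ 1 / 12 * ((n : ℝ) + 1) :=
    (tendsto_atTop_add_const_right _ (1 : ℝ) (tendsto_natCast_atTop_atTop (R := ℝ))).eventually h2
  filter_upwards [h3, h4, eventually_gt_atTop 1] with n h3 h4 h5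
  refine ⟨h5, h3, ?_⟩
  have h6 := Chebyshev.psi_ge n
  have h7 := Chebyshev.psi_le_primeCounting_mul_log n
  have h8 := Real.log_two_gt_d9
  have h9 : (2 : ℝ) ≤ n := by exact_mod_cast h5
  nlinarith

open Classical in
/-- The primes up to `X` in `T`. -/
noncomputable def pr (T : Set ℚ) (X : ℕ) : Finset ℕ :=
  (Finset.Icc 1 X).filter fun p => p.Prime ∧ (p : ℚ) ∈ T

lemma mem_pr {T : Set ℚ} {X p : ℕ} : p ∈ pr T X ↔ p ≤ X ∧ p.Prime ∧ (p : ℚ) ∈ T := by
  classical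
  rw [pr, Finset.mem_filter, Finset.mem_Icc]
  constructor
  · rintro ⟨h1, h2, h3⟩
    exact ⟨h1.2, h2, h3⟩
  · rintro ⟨h1, h2, h3⟩
    exact ⟨⟨h2.pos, h1⟩, h2, h3⟩

/-- A set of primes of positive relative lower density has a positive proportion of differences. -/
theorem card_dif {ε : ℝ} (hε : 0 < ε) (N₀ : ℕ) : ∃ (η : ℝ) (X₀ : ℕ), 0 < η ∧
    ∀ T : Set ℚ, (∀ N, N₀ ≤ N → ε * Nat.primeCounting N ≤ (pr T N).card) →
      ∀ X, X₀ ≤ X → η * X ≤ (dif (pr T X)).card := by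
  obtain ⟨C, hC1, u₀, hC⟩ := pair_sieve
  obtain ⟨C₄, hC41, hC4⟩ := sum_sg_four
  obtain ⟨X₁, hX₁⟩ := eventually_atTop.1 (asym hε)
  refine ⟨(ε ^ 2 / (16 * C)) ^ 2 / C₄, N₀ + u₀ + X₁, by positivity, fun T hT X hX => ?_⟩
  obtain ⟨hX1, hlogX, hpi⟩ := hX₁ X (by omega)
  set P := pr T X with hP
  set D := dif P with hD
  have hX0 : (0 : ℝ) < X := by
    have : 0 < X := by omega
    exact_mod_cast this
  have hlog : 0 < Real.log X := Real.log_pos (by exact_mod_cast hX1)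
  have h1 := hT X (by omega)
  rw [← hP] at h1
  have h2 : ε / 2 * X ≤ P.card * Real.log X := by
    calc ε / 2 * X = ε * (X / 2) := by ring
      _ ≤ ε * (Nat.primeCounting X * Real.log X) := by gcongr
      _ = (ε * Nat.primeCounting X) * Real.log X := by ring
      _ ≤ P.card * Real.log X := by gcongr
  have h3 : (2 : ℝ) ≤ P.card := by
    by_contra h
    push Not at h
    have : (P.card : ℝ) * Real.log X < 2 * (ε / 4 * X) := by
      calc (P.card : ℝ) * Real.log X < 2 * Real.log X := by gcongr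
        _ ≤ 2 * (ε / 4 * X) := by gcongr
    linarith
  have h4 := card_le_sum P (fun p hp => (mem_pr.1 hp).2.1) X (fun p hp => (mem_pr.1 hp).1)
  have h5 : (P.card : ℝ) ^ 2 / 2 ≤ ∑ h ∈ D, 2 * (C * sg h ^ 2 * X / Real.log X ^ 2) := by
    have h6 : ((P.card * P.card - P.card : ℕ) : ℝ) = (P.card : ℝ) ^ 2 - P.card := by
      have : P.card ≤ P.card * P.card := Nat.le_mul_self _
      rw [Nat.cast_sub this]
      push_cast
      ring
    have h7 : ((P.card * P.card - P.card : ℕ) : ℝ) ≤ ∑ h ∈ D,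
        2 * (((Finset.Ioc 0 (0 + X)).filter (fun n => n.Prime ∧ (n + h).Prime)).card : ℝ) := by
      exact_mod_cast h4
    rw [h6] at h7
    have h8 : ∑ h ∈ D,
        2 * (((Finset.Ioc 0 (0 + X)).filter (fun n => n.Prime ∧ (n + h).Prime)).card : ℝ) ≤
        ∑ h ∈ D, 2 * (C * sg h ^ 2 * X / Real.log X ^ 2) := by
      refine Finset.sum_le_sum fun h hh => ?_
      exact mul_le_mul_of_nonneg_left (hC h 0 X (mem_dif hh).1 (by omega)) (by norm_num)
    nlinarith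
  set S : ℝ := ∑ h ∈ D, sg h ^ 2 with hS
  have h6 : ∑ h ∈ D, 2 * (C * sg h ^ 2 * X / Real.log X ^ 2) = 2 * C * X / Real.log X ^ 2 * S := by
    rw [hS, Finset.mul_sum]
    refine Finset.sum_congr rfl fun h _ => ?_
    ring
  rw [h6] at h5
  have h7 : ε ^ 2 / (16 * C) * X ≤ S := by
    have h8 : (ε / 2 * X) ^ 2 ≤ (P.card * Real.log X) ^ 2 := pow_le_pow_left₀ (by positivity) h2 2
    have h9 : (P.card * Real.log X) ^ 2 ≤ 4 * C * X * S := by
      calc (P.card * Real.log X) ^ 2 = ((P.card : ℝ) ^ 2 / 2) * (2 * Real.log X ^ 2) := by ring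
        _ ≤ (2 * C * X / Real.log X ^ 2 * S) * (2 * Real.log X ^ 2) := by gcongr
        _ = 4 * C * X * S := by
            field_simp
            ring
    have h10 : ε ^ 2 * X * X ≤ 16 * C * S * X := by nlinarith
    have h11 : ε ^ 2 * X ≤ 16 * C * S := le_of_mul_le_mul_right h10 hX0
    rw [div_mul_eq_mul_div, div_le_iff₀ (by positivity)]
    linarith
  have h8 : S ^ 2 ≤ D.card * (C₄ * X) := by
    calc S ^ 2 ≤ D.card * ∑ h ∈ D, (sg h ^ 2) ^ 2 := sq_sum_le_card_mul_sum_sq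
      _ ≤ D.card * (C₄ * X) := by
          refine mul_le_mul_of_nonneg_left ?_ (Nat.cast_nonneg _)
          refine le_trans ?_ (hC4 X)
          have e : ∀ h : ℕ, (sg h ^ 2) ^ 2 = sg h ^ 4 := fun h => by ring
          rw [Finset.sum_congr rfl fun h _ => e h]
          refine Finset.sum_le_sum_of_subset_of_nonneg ?_ fun _ _ _ => by positivity
          intro h hh
          obtain ⟨h9, p, hp, q, hq, e⟩ := mem_dif hh
          have := (mem_pr.1 hp).1
          rw [Finset.mem_Icc]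
          omega
  have h9 : (ε ^ 2 / (16 * C) * X) ^ 2 ≤ D.card * (C₄ * X) :=
    (pow_le_pow_left₀ (by positivity) h7 2).trans h8
  have h10 : (ε ^ 2 / (16 * C)) ^ 2 * X * X ≤ D.card * C₄ * X := by nlinarith
  have h11 := le_of_mul_le_mul_right h10 hX0
  rw [div_mul_eq_mul_div, div_le_iff₀ (by positivity)]
  exact h11

/-- the lower density of the primes in `T`, relative to the primes, is positive -/
theorem prime_mem_phi {ε : ℝ} (hε : 0 < ε) (N₀ : ℕ) : ∃ m K C : ℕ, 0 < K ∧ 0 < C ∧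
    ∀ T : Set ℚ, (∀ N, N₀ ≤ N → ε * Nat.primeCounting N ≤ (pr T N).card) →
      ∀ z : ℤ, (z : ℚ) ∈ Phi m K C T := by
  classical
  obtain ⟨η, X₀, hη, hc⟩ := card_dif hε N₀
  obtain ⟨M, hM⟩ := exists_nat_gt (4 / η)
  refine ⟨M.factorial * 2, M.factorial, X₀ + M + 2, Nat.factorial_pos M, by omega,
    fun T hT z => phi_of_cover two_pos (fun g hg => ?_) z⟩
  set N : ℕ := X₀ + M * g + 2 with hN
  set D := dif (pr T N) with hD
  set A : Finset ℤ := D.image (fun n : ℕ => (n : ℤ)) with hA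
  have hAc : A.card = D.card := Finset.card_image_of_injective _ Nat.cast_injective
  have hAm : ∀ a ∈ A, ∃ p ∈ pr T N, ∃ q ∈ pr T N, a = (p : ℤ) - q := fun a ha => by
    rw [hA, Finset.mem_image] at ha
    obtain ⟨h, hh, rfl⟩ := ha
    obtain ⟨-, p, hp, q, hq, e⟩ := mem_dif hh
    refine ⟨p, hp, q, hq, ?_⟩
    rw [e]
    push_cast
    ring
  have hAN : ∀ a ∈ A, |a| ≤ N := fun a ha => by
    obtain ⟨p, hp, q, hq, rfl⟩ := hAm a ha
    have h1 := (mem_pr.1 hp).1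
    have h2 := (mem_pr.1 hq).1
    rw [abs_le]
    constructor <;> omega
  have h1 := hc T hT N (by omega)
  have h2 : 3 * N + 1 < (M + 1) * A.card := by
    rw [hAc]
    have h3 : (4 : ℝ) < M * η := by
      rwa [div_lt_iff₀ hη] at hM
    have h4 : (2 : ℝ) ≤ N := by
      have : 2 ≤ N := by omega
      exact_mod_cast this
    have h5 : (3 * N + 1 : ℝ) < (M + 1) * D.card := by
      have h6 : (4 : ℝ) * N < (M * η) * N := by nlinarith
      have h7 : (M : ℝ) * (η * N) ≤ M * D.card := by gcongr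
      have h8 : (0 : ℝ) ≤ D.card := Nat.cast_nonneg _
      nlinarith
    exact_mod_cast h5
  obtain ⟨j, hj1, hjM, a, ha, b, hb, hab⟩ := cover hAN h2 hg (by omega)
  have hbd : ∀ p ∈ pr T N, |(p : ℚ)| ≤ ((X₀ + M + 2 : ℕ) : ℚ) * g := by
    intro p hp
    have h3 := (mem_pr.1 hp).1
    have h4 : N ≤ (X₀ + M + 2) * g := by
      rw [hN]
      nlinarith
    have h5 : p ≤ (X₀ + M + 2) * g := h3.trans h4
    rw [abs_of_nonneg (Nat.cast_nonneg _)]
    exact_mod_cast h5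
  obtain ⟨p, hp, q, hq, e1⟩ := hAm a ha
  obtain ⟨p', hp', q', hq', e2⟩ := hAm b hb
  refine ⟨j, hj1, hjM, ![(p : ℚ), (q' : ℚ)], ![(q : ℚ), (p' : ℚ)], fun i => ?_, ?_⟩
  · fin_cases i
    · exact ⟨⟨(mem_pr.1 hp).2.2, (mem_pr.1 hq).2.2⟩, hbd p hp, hbd q hq⟩
    · exact ⟨⟨(mem_pr.1 hq').2.2, (mem_pr.1 hp').2.2⟩, hbd q' hq', hbd p' hp'⟩
  · rw [Fin.sum_univ_two]
    simp only [Matrix.cons_val_zero, Matrix.cons_val_one]
    have h3 : (j : ℤ) * g = (p - q) + (q' - p') := by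
      rw [hab, e1, e2]
      ring
    exact_mod_cast h3

end Pool.Agent.Q212.DZ
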