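import Pool.Agent.Q212.DZ1

/-!
# Diophantine sets of integers which are not thin, and Diophantine approximate subgroups
-/

set_option autoImplicit false

namespace Pool.Agent.Q212.DZ

open MvPolynomial Pool.Agent.TH255.HC Pool.Agent.TH255.QI

/-- existentially definable sets of rational numbers -/
def Dio (X : Set ℚ) : Prop :=
  ∃ (n : ℕ) (P : MvPolynomial (Fin (n + 1)) ℤ), ∀ q : ℚ, q ∈ X ↔
    ∃ y : Fin n → ℚ, aeval (Fin.cons q y : Fin (n + 1) → ℚ) P = 0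

theorem dt_of_dio {𝒯 : Set ℚ → Prop} {X : Set ℚ} (h : Dio X) : DT 𝒯 (fun _ v => v 0 ∈ X) := by
  obtain ⟨n, P, hP⟩ := h
  let g : Fin (n + 1) → ℕ := fun i => if (i : ℕ) = 0 then 0 else 2 * i + 1
  have h1 : DT 𝒯 (fun _ v => ∃ u : ℕ → ℚ, aeval (fun i : Fin (n + 1) =>
      if (i : ℕ) = 0 then v 0 else u i) P = 0) := by
    refine DT.exs (DT.eq ⟨rename g P, fun w => ?_⟩ PF.zero)
    rw [aeval_rename]
    congr 2
    funext i
    simp only [Function.comp, g]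
    split_ifs <;> rfl
  refine h1.congr fun _ _ v => ?_
  rw [hP]
  constructor
  · rintro ⟨y, hy⟩
    refine ⟨fun k => if hk : k - 1 < n then y ⟨k - 1, hk⟩ else 0, ?_⟩
    rw [← hy]
    congr 2
    funext i
    refine Fin.cases ?_ (fun i => ?_) i
    · simp
    · simp [Fin.cons_succ]
  · rintro ⟨u, hu⟩
    refine ⟨fun i => u (i + 1), ?_⟩
    rw [← hu]
    congr 2
    funext i
    refine Fin.cases ?_ (fun i => ?_) i
    · simp
    · simp [Fin.cons_succ]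

theorem dio_of_dt {X : Set ℚ} (h : DT (fun T => T = Set.univ) (fun _ v => v 0 ∈ X)) : Dio X := by
  obtain ⟨n, p, S, hp⟩ := DT.final (Q := fun x => x ∈ X) h
  refine ⟨n, p, fun q => ?_⟩
  rw [hp Set.univ rfl q]
  constructor
  · rintro ⟨y, hy0, hy, -⟩
    refine ⟨fun i => y i.succ, ?_⟩
    have e : (Fin.cons q (fun i => y i.succ) : Fin (n + 1) → ℚ) = y := by
      funext i
      refine Fin.cases ?_ (fun i => ?_) i
      · rw [Fin.cons_zero, hy0]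
      · rw [Fin.cons_succ]
    rw [e]
    exact hy
  · rintro ⟨y, hy⟩
    exact ⟨_, Fin.cons_zero _ _, hy, fun _ _ => Set.mem_univ _⟩

/-- definability from a Diophantine set -/
theorem dio_of_dt_of_dio {𝒯 : Set ℚ → Prop} {X T : Set ℚ} (hT : Dio T) (hT' : 𝒯 T)
    (h : DT 𝒯 (fun _ v => v 0 ∈ X)) : Dio X := by
  refine dio_of_dt ?_
  exact dt_subst (𝒯 := fun T => T = Set.univ) (Φ := fun _ => T) (fun _ _ => hT') (dt_of_dio hT) h

/-- the integers as rational numbers -/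
def ZZ : Set ℚ := {x | ∃ z : ℤ, x = z}

theorem dio_zz_of_comb {T : Set ℚ} (hT : Dio T) (J : Finset ℤ) (d e : ℤ)
    (h : ∀ x : ℚ, x ∈ ZZ ↔ ∃ a ∈ T, ∃ b ∈ T, ∃ j ∈ J, x = j + d * a + e * b) : Dio ZZ := by
  refine dio_of_dt_of_dio (𝒯 := fun U => U = T) hT rfl ?_
  have h1 : DT (fun U => U = T) (fun U v => ∃ u : ℕ → ℚ, (u 0 ∈ U ∧ u 1 ∈ U) ∧
      ∏ j ∈ J, (v 0 - (j + d * u 0 + e * u 1)) = 0) := by
    refine DT.exs (((DT.mem (PF.od 0)).and (DT.mem (PF.od 1))).and (DT.eq (pf_prod fun j => ?_)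
      PF.zero))
    exact (PF.var (2 * 0)).sub (((PF.int j).add ((PF.int d).mul (PF.od 0))).add
      ((PF.int e).mul (PF.od 1)))
  refine h1.congr fun U hU v => ?_
  rw [h, hU]
  constructor
  · rintro ⟨a, ha, b, hb, j, hj, hx⟩
    refine ⟨fun k => if k = 0 then a else b, ⟨by simpa using ha, by simpa using hb⟩, ?_⟩
    refine Finset.prod_eq_zero hj ?_
    simp [hx]
  · rintro ⟨u, ⟨ha, hb⟩, h2⟩
    obtain ⟨j, hj, h3⟩ := Finset.prod_eq_zero_iff.1 h2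
    exact ⟨u 0, ha, u 1, hb, j, hj, by linarith⟩

/-! ### Positive upper Banach density -/

/-- there are arbitrarily long intervals which contain a fixed positive proportion of elements -/
def UBD (T : Set ℤ) : Prop :=
  ∃ ε : ℝ, 0 < ε ∧ ∀ L : ℕ, ∃ (a : ℤ) (n : ℕ), L ≤ n ∧
    ε * n ≤ {z : ℤ | z ∈ T ∧ a < z ∧ z ≤ a + n}.ncard

theorem syndetic {T : Set ℤ} (h : UBD T) :
    ∃ J : Finset ℤ, ∀ x : ℤ, ∃ a ∈ T, ∃ b ∈ T, ∃ j ∈ J, x = j + (a - b) := by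
  classical
  obtain ⟨ε, hε, hT⟩ := h
  by_contra hcon
  push Not at hcon
  -- `T` is not empty
  obtain ⟨t₀, ht₀⟩ : ∃ t, t ∈ T := by
    obtain ⟨a, n, hn, h1⟩ := hT 1
    by_contra h2
    push Not at h2
    have h3 : {z : ℤ | z ∈ T ∧ a < z ∧ z ≤ a + n} = ∅ := by
      ext z
      simp [h2 z]
    rw [h3, Set.ncard_empty] at h1
    have h4 : (1 : ℝ) ≤ n := by exact_mod_cast hn
    have : 0 < ε * n := by positivity
    simp at h1
    linarith
  -- families of disjoint translates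
  have hgood : ∀ k : ℕ, ∃ J : Finset ℤ, J.card = k ∧ ∀ i ∈ J, ∀ j ∈ J, i ≠ j →
      ∀ a ∈ T, ∀ b ∈ T, i + a ≠ j + b := by
    intro k
    induction k with
    | zero => exact ⟨∅, rfl, by simp⟩
    | succ k ih =>
      obtain ⟨J, hJc, hJ⟩ := ih
      obtain ⟨x, hx⟩ := hcon J
      have hxJ : x ∉ J := fun hxJ => hx t₀ ht₀ t₀ ht₀ x hxJ (by ring)
      refine ⟨insert x J, by rw [Finset.card_insert_of_notMem hxJ, hJc], ?_⟩
      intro i hi j hj hij a ha b hb heq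
      rw [Finset.mem_insert] at hi hj
      rcases hi with rfl | hi <;> rcases hj with rfl | hj
      · exact hij rfl
      · exact hx b hb a ha j hj (by linarith)
      · exact hx a ha b hb i hi (by linarith)
      · exact hJ i hi j hj hij a ha b hb heq
  obtain ⟨k, hk⟩ := exists_nat_gt (2 / ε)
  obtain ⟨J, hJc, hJ⟩ := hgood k
  -- a bound for the translates
  obtain ⟨B, hB⟩ : ∃ B : ℕ, ∀ j ∈ J, |j| ≤ B := by
    refine ⟨J.sup Int.natAbs, fun j hj => ?_⟩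
    have : j.natAbs ≤ J.sup Int.natAbs := Finset.le_sup hj
    rw [Int.abs_eq_natAbs]
    exact_mod_cast this
  obtain ⟨a, n, hn, h1⟩ := hT (2 * B + 1)
  have hfin : {z : ℤ | z ∈ T ∧ a < z ∧ z ≤ a + n}.Finite :=
    (Set.finite_Icc a (a + n)).subset fun z hz => ⟨hz.2.1.le, hz.2.2⟩
  set A := hfin.toFinset with hA
  have hAm : ∀ z ∈ A, z ∈ T ∧ a < z ∧ z ≤ a + n := fun z hz => by
    rw [hA, Set.Finite.mem_toFinset] at hz
    exact hz
  have hAc : A.card = {z : ℤ | z ∈ T ∧ a < z ∧ z ≤ a + n}.ncard :=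
    (Set.ncard_eq_toFinset_card _ hfin).symm
  rw [← hAc] at h1
  have hinj : Set.InjOn (fun p : ℤ × ℤ => p.1 + p.2) ((J ×ˢ A : Finset (ℤ × ℤ)) : Set (ℤ × ℤ)) := by
    rintro ⟨i, x⟩ h2 ⟨j, y⟩ h3 h4
    rw [Finset.mem_coe, Finset.mem_product] at h2 h3
    simp only at h2 h3 h4
    have hij : i = j := by
      by_contra hij
      exact hJ i h2.1 j h3.1 hij x (hAm x h2.2).1 y (hAm y h3.2).1 h4
    subst hij
    exact Prod.ext rfl (by simpa using h4)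
  have hmaps : Set.MapsTo (fun p : ℤ × ℤ => p.1 + p.2) ((J ×ˢ A : Finset (ℤ × ℤ)) : Set (ℤ × ℤ))
      ((Finset.Ioc (a - B) (a + n + B) : Finset ℤ) : Set ℤ) := by
    rintro ⟨i, x⟩ h2
    rw [Finset.mem_coe, Finset.mem_product] at h2
    simp only at h2
    have h3 := abs_le.1 (hB i h2.1)
    have h4 := hAm x h2.2
    rw [Finset.mem_coe, Finset.mem_Ioc]
    simp only
    omega
  have h2 := Finset.card_le_card_of_injOn _ hmaps hinj
  rw [Finset.card_product, Int.card_Ioc, hJc] at h2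
  have h3 : (a + n + B - (a - B) : ℤ).toNat = n + 2 * B := by omega
  rw [h3] at h2
  have h4 : (k : ℝ) * A.card ≤ n + 2 * B := by exact_mod_cast h2
  have h5 : (2 : ℝ) < k * ε := by rwa [div_lt_iff₀ hε] at hk
  have h6 : (2 * B + 1 : ℝ) ≤ n := by exact_mod_cast hn
  have h7 : (k : ℝ) * (ε * n) ≤ k * A.card := by gcongr
  have h8 : (0 : ℝ) ≤ B := Nat.cast_nonneg _
  nlinarith

theorem dio_zz_of_ubd {T : Set ℤ} (hT : Dio ((fun z : ℤ => (z : ℚ)) '' T)) (h : UBD T) :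
    Dio ZZ := by
  obtain ⟨J, hJ⟩ := syndetic h
  refine dio_zz_of_comb hT J 1 (-1) fun x => ?_
  constructor
  · rintro ⟨z, rfl⟩
    obtain ⟨a, ha, b, hb, j, hj, hz⟩ := hJ z
    refine ⟨a, ⟨a, ha, rfl⟩, b, ⟨b, hb, rfl⟩, j, hj, ?_⟩
    rw [hz]
    push_cast
    ring
  · rintro ⟨_, ⟨a, ha, rfl⟩, _, ⟨b, hb, rfl⟩, j, hj, rfl⟩
    refine ⟨j + 1 * a + (-1) * b, ?_⟩
    push_cast
    ring

/-! ### Approximate subgroups -/

/-- approximate subgroups of the rational numbers -/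
def AppSub (T F : Set ℚ) : Prop := ∀ a ∈ T, ∀ b ∈ T, ∃ t ∈ T, ∃ f ∈ F, a - b = t + f

lemma steps {T F : Set ℚ} (h : AppSub T F) {R : ℚ} (hR : ∀ f ∈ F, |f| ≤ R) {a : ℚ} (ha : a ∈ T)
    (haR : R + 1 ≤ a) (y : ℚ) : ∀ (n : ℕ) (x : ℚ), x ∈ T → y - (a + R) ≤ x → x ≤ y + n →
      ∃ t ∈ T, y - (a + R) ≤ t ∧ t ≤ y := by
  intro n
  induction n with
  | zero =>
    intro x hx h1 h2
    exact ⟨x, hx, h1, by simpa using h2⟩
  | succ n ih =>
    intro x hx h1 h2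
    by_cases hxy : x ≤ y
    · exact ⟨x, hx, h1, hxy⟩
    · push Not at hxy
      obtain ⟨t, ht, f, hf, h3⟩ := h x hx a ha
      have h4 := abs_le.1 (hR f hf)
      push_cast at h2
      exact ih t ht (by linarith) (by linarith)

lemma one_side {T F : Set ℚ} (h : AppSub T F) {R : ℚ} (hR : ∀ f ∈ F, |f| ≤ R) (hR0 : 0 ≤ R) {a : ℚ}
    (ha : a ∈ T) (haR : R + 1 ≤ a) (y : ℚ) (hy : y ≤ 0) : ∃ t ∈ T, y - (a + R) ≤ t ∧ t ≤ y := by
  obtain ⟨t, ht, f, hf, h3⟩ := h a ha a ha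
  have h4 := abs_le.1 (hR f hf)
  obtain ⟨n, hn⟩ := exists_nat_ge (t - y)
  exact steps h hR ha haR y n t ht (by linarith) (by linarith)

lemma AppSub.neg {T F : Set ℚ} (h : AppSub T F) :
    AppSub ((fun x => -x) '' T) ((fun x => -x) '' F) := by
  rintro _ ⟨a, ha, rfl⟩ _ ⟨b, hb, rfl⟩
  obtain ⟨t, ht, f, hf, h3⟩ := h a ha b hb
  exact ⟨-t, ⟨t, ht, rfl⟩, -f, ⟨f, hf, rfl⟩, by linarith⟩

lemma other_side {T F : Set ℚ} (h : AppSub T F) {R : ℚ} (hR : ∀ f ∈ F, |f| ≤ R) (hR0 : 0 ≤ R) {a : ℚ}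
    (ha : a ∈ T) (haR : a ≤ -(R + 1)) (y : ℚ) (hy : 0 ≤ y) :
    ∃ t ∈ T, y ≤ t ∧ t ≤ y + (-a + R) := by
  have hR' : ∀ f ∈ ((fun x => -x) '' F : Set ℚ), |f| ≤ R := by
    rintro _ ⟨f, hf, rfl⟩
    rw [abs_neg]
    exact hR f hf
  obtain ⟨_, ⟨t, ht, rfl⟩, h1, h2⟩ := one_side h.neg hR' hR0 (a := -a) ⟨a, ha, rfl⟩ (by linarith)
    (-y) (by linarith)
  exact ⟨t, ht, by linarith, by linarith⟩

/-- an infinite locally finite approximate subgroup is relatively dense -/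
lemma rel_dense {T F : Set ℚ} (h : AppSub T F) {R : ℚ} (hR : ∀ f ∈ F, |f| ≤ R) (hR0 : 0 ≤ R)
    (hinf : T.Infinite) (hloc : ∀ B : ℚ, {t ∈ T | |t| ≤ B}.Finite) :
    ∃ L : ℚ, 0 ≤ L ∧ ∀ y : ℚ, ∃ t ∈ T, |t - y| ≤ L := by
  obtain ⟨a, ha, haR⟩ : ∃ a ∈ T, R + 1 < |a| := by
    by_contra hcon
    push Not at hcon
    exact hinf ((hloc (R + 1)).subset fun t ht => ⟨ht, hcon t ht⟩)
  obtain ⟨b, hb, hbR, c, hc, hcR⟩ : ∃ b ∈ T, R + 1 ≤ b ∧ ∃ c ∈ T, c ≤ -(R + 1) := by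
    rcases le_or_gt 0 a with h0 | h0
    · rw [abs_of_nonneg h0] at haR
      obtain ⟨t, ht, -, h2⟩ := one_side h hR hR0 ha haR.le (-(R + 1)) (by linarith)
      exact ⟨a, ha, haR.le, t, ht, h2⟩
    · rw [abs_of_neg h0] at haR
      obtain ⟨t, ht, h1, -⟩ := other_side h hR hR0 ha (by linarith) (R + 1) (by linarith)
      exact ⟨t, ht, h1, a, ha, by linarith⟩
  refine ⟨b + R + (-c + R), by linarith, fun y => ?_⟩
  rcases le_total y 0 with hy | hy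
  · obtain ⟨t, ht, h1, h2⟩ := one_side h hR hR0 hb hbR y hy
    exact ⟨t, ht, abs_le.2 ⟨by linarith, by linarith⟩⟩
  · obtain ⟨t, ht, h1, h2⟩ := other_side h hR hR0 hc hcR y hy
    exact ⟨t, ht, abs_le.2 ⟨by linarith, by linarith⟩⟩

lemma common_den {S : Set ℚ} (hS : S.Finite) : ∃ d : ℕ, 0 < d ∧ ∀ s ∈ S, ∃ z : ℤ, (d : ℚ) * s = z := by
  classical
  refine ⟨∏ s ∈ hS.toFinset, s.den, Finset.prod_pos fun s _ => s.den_pos, fun s hs => ?_⟩
  have h1 : s ∈ hS.toFinset := hS.mem_toFinset.2 hs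
  obtain ⟨c, hc⟩ := Finset.dvd_prod_of_mem (fun s : ℚ => s.den) h1
  refine ⟨c * s.num, ?_⟩
  rw [hc]
  push_cast
  have h2 := Rat.mul_den_eq_num s
  calc (s.den : ℚ) * c * s = c * (s * s.den) := by ring
    _ = c * s.num := by rw [h2]

/-- bounded denominators -/
lemma bdd_den {T F : Set ℚ} (h : AppSub T F) (hF : F.Finite) {R : ℚ} (hR : ∀ f ∈ F, |f| ≤ R)
    (hloc : ∀ B : ℚ, {t ∈ T | |t| ≤ B}.Finite) {L : ℚ} (hL : ∀ y : ℚ, ∃ t ∈ T, |t - y| ≤ L) :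
    ∃ d : ℕ, 0 < d ∧ ∀ t ∈ T, ∃ z : ℤ, (d : ℚ) * t = z := by
  obtain ⟨d, hd, hdS⟩ := common_den ((hloc (2 * (L + R + 1))).union hF)
  refine ⟨d, hd, ?_⟩
  have key : ∀ (n : ℕ) (t : ℚ), t ∈ T → |t| ≤ 2 * (L + R + 1) + n → ∃ z : ℤ, (d : ℚ) * t = z := by
    intro n
    induction n with
    | zero =>
      intro t ht h1
      exact hdS t (Or.inl ⟨ht, by simpa using h1⟩)
    | succ n ih =>
      intro t ht h1
      by_cases h2 : |t| ≤ 2 * (L + R + 1)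
      · exact hdS t (Or.inl ⟨ht, h2⟩)
      · push Not at h2
        push_cast at h1
        obtain ⟨s, hs, h3⟩ := hL (t / 2)
        obtain ⟨t', ht', f, hf, h4⟩ := h t ht s hs
        have h5 := hR f hf
        have h6 : |t / 2| = |t| / 2 := by
          rw [abs_div]
          norm_num
        have h7 : |s| ≤ |t| / 2 + L := by
          have : |s| ≤ |s - t / 2| + |t / 2| := by
            have := abs_add_le (s - t / 2) (t / 2)
            rwa [sub_add_cancel] at this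
          linarith
        have h8 : |t'| ≤ |t| / 2 + L + R := by
          have e : t' = (t / 2 - (s - t / 2)) - f := by linarith
          rw [e]
          have h9 := abs_sub (t / 2 - (s - t / 2)) f
          have h10 := abs_sub (t / 2) (s - t / 2)
          linarith
        have h9 : 0 ≤ R := (abs_nonneg f).trans h5
        obtain ⟨z1, hz1⟩ := ih s hs (by linarith)
        obtain ⟨z2, hz2⟩ := ih t' ht' (by linarith)
        obtain ⟨z3, hz3⟩ := hdS f (Or.inr hf)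
        refine ⟨z1 + z2 + z3, ?_⟩
        push_cast
        rw [← hz1, ← hz2, ← hz3]
        have e : t = s + t' + f := by linarith
        conv_lhs => rw [e]
        ring
  intro t ht
  obtain ⟨n, hn⟩ := exists_nat_ge (|t| - 2 * (L + R + 1))
  exact key n t ht (by linarith)

theorem dio_zz_of_app {T F : Set ℚ} (hT : Dio T) (h : AppSub T F) (hF : F.Finite)
    (hinf : T.Infinite) (hloc : ∀ B : ℚ, {t ∈ T | |t| ≤ B}.Finite) : Dio ZZ := by
  obtain ⟨R, hR0, hR⟩ : ∃ R : ℚ, 0 ≤ R ∧ ∀ f ∈ F, |f| ≤ R := by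
    obtain ⟨R, hR⟩ := (hF.image fun f => |f|).bddAbove
    refine ⟨max 0 R, le_max_left _ _, fun f hf => ?_⟩
    exact (hR ⟨f, hf, rfl⟩).trans (le_max_right _ _)
  obtain ⟨L, hL0, hL⟩ := rel_dense h hR hR0 hinf hloc
  obtain ⟨d, hd, hdT⟩ := bdd_den h hF hR hloc hL
  obtain ⟨B, hB⟩ := exists_nat_ge (d * L)
  obtain ⟨t₀, ht₀⟩ := hinf.nonempty
  have hd0 : (0 : ℚ) < d := by exact_mod_cast hd
  refine dio_zz_of_comb hT (Finset.Icc (-(B : ℤ)) B) d 0 fun x => ?_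
  constructor
  · rintro ⟨z, rfl⟩
    obtain ⟨t, ht, h1⟩ := hL (z / d)
    obtain ⟨w, hw⟩ := hdT t ht
    refine ⟨t, ht, t₀, ht₀, z - w, ?_, ?_⟩
    · have h2 : |(w : ℚ) - z| ≤ B := by
        have e : (w : ℚ) - z = d * (t - z / d) := by
          rw [← hw, mul_sub, mul_div_cancel₀ _ hd0.ne']
        rw [e, abs_mul, abs_of_pos hd0]
        exact (mul_le_mul_of_nonneg_left h1 hd0.le).trans hB
      have h3 : |w - z| ≤ B := by exact_mod_cast h2
      have h4 := abs_le.1 h3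
      rw [Finset.mem_Icc]
      omega
    · push_cast
      rw [hw]
      ring
  · rintro ⟨t, ht, b, hb, j, hj, rfl⟩
    obtain ⟨w, hw⟩ := hdT t ht
    refine ⟨j + w, ?_⟩
    push_cast
    rw [hw]
    ring

end Pool.Agent.Q212.DZ
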