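import Pool.Agent.Q212.ChooseW

/-!
# Upward absoluteness of winning strategies in selection games of length `ω`

Everything takes place inside the type `ZFSet.{0}` of all sets; `IsZFC M` (in
`Pool.Agent.W868.Defs`) says that `M : Set ZFSet.{0}` is a transitive model of ZFC.
-/

set_option autoImplicit false
set_option linter.unreachableTactic false
set_option linter.unusedTactic false

namespace Pool.Agent.Q212.GA

open Pool.Agent.W868
open ZFSet (pair)

/-! ### Finite sequences and runs -/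

/-- The first `n` terms of the sequence `A`, the last one first. -/
def hist {α : Type 1} (A : ℕ → α) : ℕ → List α
  | 0 => []
  | n + 1 => A n :: hist A n

/-- The code of a finite sequence of sets, which is given with its last member first. -/
noncomputable def code : List ZFSet.{0} → ZFSet.{0}
  | [] => ∅
  | A :: s => pair A (code s)

/-- The infinite sequence `A` of sets belongs to `M`. -/
def InModel (M : Set ZFSet.{0}) (A : ℕ → ZFSet.{0}) : Prop :=
  ZFSet.range (fun n : ℕ => pair (nat n) (A n)) ∈ M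

/-- In `M`, player II has a winning strategy in the following game of length `ω`: in each inning
player I plays a set `A n` with `Mv (A n)` and player II answers with an element of `A n`; II wins
if for each `e` with `E e` there is an answer `a` with `Hit e a`. The strategy is a set
`σ ∈ M` of pairs `(code s, a)`, where `s` is the finite sequence of the moves made so far. -/
def Wins (M : Set ZFSet.{0}) (Mv E : ZFSet.{0} → Prop) (Hit : ZFSet.{0} → ZFSet.{0} → Prop) :
    Prop :=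
  ∃ σ ∈ M, (∀ (A : ZFSet.{0}) (s : List ZFSet.{0}), Mv A → (∀ B ∈ s, Mv B) →
      ∃ a ∈ A, ∀ b, pair (code (A :: s)) b ∈ σ ↔ b = a) ∧
    ∀ A : ℕ → ZFSet.{0}, (∀ n, Mv (A n)) → InModel M A → ∀ e, E e →
      ∃ n a, pair (code (hist A (n + 1))) a ∈ σ ∧ Hit e a

/-! ### Codes in a model -/

/-- The set of the codes of the finite sequences of elements of `Y`. -/
noncomputable def Sq (Y : ZFSet.{0}) : ZFSet.{0} := itr (fun S => ZFSet.prod Y S) {∅} ZFSet.omega

theorem mem_Sq {Y z : ZFSet.{0}} :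
    z ∈ Sq Y ↔ ∃ s : List ZFSet.{0}, (∀ A ∈ s, A ∈ Y) ∧ z = code s := by
  constructor
  · intro h
    obtain ⟨k, hk⟩ := mem_itr_omega h
    clear h
    induction k generalizing z with
    | zero =>
      rcases mem_itr.1 hk with h | ⟨u, hu, -⟩
      · exact ⟨[], by simp, by simpa [code] using h⟩
      · exact absurd hu (ZFSet.notMem_empty _)
    | succ k ih =>
      rcases mem_itr.1 hk with h | ⟨u, hu, h⟩
      · exact ⟨[], by simp, by simpa [code] using h⟩
      · obtain ⟨A, hA, b, hb, rfl⟩ := ZFSet.mem_prod.1 h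
        have hu' : u ⊆ nat k := by
          rcases ZFSet.mem_insert_iff.1 hu with rfl | hu
          · exact fun _ h => h
          · have := (ZFSet.isOrdinal_toZFSet (k : Ordinal.{0}))
            rw [← nat_eq] at this
            exact this.subset_of_mem hu
        obtain ⟨s, hs, rfl⟩ := ih (itr_mono hu' hb)
        refine ⟨A :: s, ?_, rfl⟩
        intro B hB
        rcases List.mem_cons.mp hB with rfl | hB
        · exact hA
        · exact hs B hB
  · rintro ⟨s, hs, rfl⟩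
    have h : ∃ k, code s ∈ itr (fun S => ZFSet.prod Y S) {∅} (nat k) := by
      induction s with
      | nil => exact ⟨0, itr_base (by simp [code])⟩
      | cons A s ih =>
        obtain ⟨k, hk⟩ := ih fun B hB => hs B (List.mem_cons_of_mem _ hB)
        refine ⟨k + 1, itr_step (u := nat k) (ZFSet.mem_insert _ _) ?_⟩
        exact ZFSet.pair_mem_prod.2 ⟨hs A List.mem_cons_self, hk⟩
    obtain ⟨k, hk⟩ := h
    exact itr_mono nat_subset_omega hk

theorem code_injective : Function.Injective code := by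
  intro s t h
  induction s generalizing t with
  | nil =>
    cases t with
    | nil => rfl
    | cons B t =>
      exfalso
      have h1 : (∅ : ZFSet.{0}) = pair B (code t) := h
      have h2 : ({B} : ZFSet.{0}) ∈ (∅ : ZFSet.{0}) := by
        rw [h1]
        simp [ZFSet.pair]
      exact ZFSet.notMem_empty _ h2
  | cons A s ih =>
    cases t with
    | nil =>
      exfalso
      have h1 : pair A (code s) = (∅ : ZFSet.{0}) := h
      have h2 : ({A} : ZFSet.{0}) ∈ (∅ : ZFSet.{0}) := by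
        rw [← h1]
        simp [ZFSet.pair]
      exact ZFSet.notMem_empty _ h2
    | cons B t =>
      obtain ⟨rfl, h2⟩ := ZFSet.pair_inj.1 (show pair A (code s) = pair B (code t) from h)
      rw [ih h2]

section Model

variable {M : Set ZFSet.{0}} (hM : IsZF M)

include hM

theorem Sq_mem {Y : ZFSet.{0}} (hY : Y ∈ M) : Sq Y ∈ M :=
  itr_mem_M hM (hM.single_mem hM.empty_mem) hM.infinity
    (hM.prod' (DfnF.const hY) (DfnF.proj 0))

/-- Recursion on natural numbers in `M`. -/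
theorem exists_natrec {b : ZFSet.{0}} (hb : b ∈ M) {K : ZFSet.{0} → ZFSet.{0}}
    (hK : DfnF M M fun w : Fin 1 → ZFSet.{0} => K (w 0)) :
    ∃ F : ZFSet.{0} → ZFSet.{0}, DfnF M M (fun w : Fin 1 → ZFSet.{0} => F (w 0)) ∧
      F (nat 0) = b ∧ ∀ n, F (nat (n + 1)) = K (F (nat n)) := by
  classical
  have hB := hM.base
  let G : ZFSet.{0} → ZFSet.{0} → ZFSet.{0} := fun z g =>
    if z = ∅ then b else K (ap g (ZFSet.sUnion z))
  let F : ZFSet.{0} → ZFSet.{0} := wfF (fun z => z) ZFSet.mem_wf G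
  have hF : ∀ z, F z = G z (gr F z) := fun z => wfF_eq _ _ _ z
  refine ⟨F, hM.memrec (G := G) ?_ hF, ?_, fun n => ?_⟩
  · refine DfnF.ite (Dfn.eq (DfnF.proj 0) (DfnF.const hM.empty_mem)) (DfnF.const hb) ?_
    exact DfnF.comp1 (f := K) hK (hM.ap' (DfnF.proj 1) (hB.sUnion' (DfnF.proj 0)))
  · rw [hF]
    simp [G, nat]
  · rw [hF]
    have h1 : nat (n + 1) ≠ ∅ := by
      intro h
      have h2 : nat n ∈ nat (n + 1) := ZFSet.mem_insert _ _
      rw [h] at h2
      exact ZFSet.notMem_empty _ h2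
    have h2 : ZFSet.sUnion (nat (n + 1)) = nat n := by
      have ho : (nat n).IsOrdinal := by
        rw [nat_eq]
        exact ZFSet.isOrdinal_toZFSet _
      ext z
      rw [ZFSet.mem_sUnion]
      constructor
      · rintro ⟨y, hy, hz⟩
        rcases ZFSet.mem_insert_iff.1 hy with rfl | hy
        · exact hz
        · exact ho.subset_of_mem hy hz
      · exact fun hz => ⟨nat n, ZFSet.mem_insert _ _, hz⟩
    simp only [G, if_neg h1, h2]
    rw [ap_gr (x := nat (n + 1)) (ZFSet.mem_insert _ _)]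

/-- Runs given by a definable function of the position. -/
theorem exists_run {h : ZFSet.{0} → ZFSet.{0}}
    (hh : DfnF M M fun w : Fin 1 → ZFSet.{0} => h (w 0)) :
    ∃ B : ℕ → ZFSet.{0}, InModel M B ∧ ∀ n, B n = h (code (hist B n)) := by
  have hB := hM.base
  obtain ⟨F, hFd, hF0, hF1⟩ := exists_natrec hM hM.empty_mem (K := fun b => pair (h b) b)
    (hB.pair' hh (DfnF.proj 0))
  let B : ℕ → ZFSet.{0} := fun n => fs (F (nat (n + 1)))
  have hB1 : ∀ n, B n = h (F (nat n)) := by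
    intro n
    simp only [B, hF1, fs_pair]
  have hcode : ∀ n, code (hist B n) = F (nat n) := by
    intro n
    induction n with
    | zero => rw [hF0]; rfl
    | succ n ih =>
      rw [hF1]
      change pair (B n) (code (hist B n)) = _
      rw [ih, hB1]
  refine ⟨B, ?_, fun n => by rw [hB1, hcode]⟩
  have h1 : ZFSet.range (fun n : ℕ => pair (nat n) (B n)) =
      im (fun z => pair z (fs (F (insert z z)))) ZFSet.omega := by
    ext p
    rw [ZFSet.mem_range, mem_im]
    constructor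
    · rintro ⟨n, rfl⟩
      exact ⟨nat n, nat_mem_omega n, rfl⟩
    · rintro ⟨z, hz, rfl⟩
      obtain ⟨n, rfl⟩ := mem_omega_iff.1 hz
      exact ⟨n, rfl⟩
  unfold InModel
  rw [h1]
  refine hM.im_mem hM.infinity (hB.pair' (DfnF.proj 0) (hM.fs' ?_))
  exact DfnF.comp1 (f := F) hFd (hB.insert' (DfnF.proj 0) (DfnF.proj 0))

/-- Recursion on codes of finite sequences. -/
theorem exists_coderec {h : ZFSet.{0} → ZFSet.{0} → ZFSet.{0}}
    (hh : DfnF M M fun w : Fin 2 → ZFSet.{0} => h (w 0) (w 1)) :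
    ∃ F : ZFSet.{0} → ZFSet.{0}, DfnF M M (fun w : Fin 1 → ZFSet.{0} => F (w 0)) ∧
      F ∅ = ∅ ∧ ∀ A b, F (pair A b) = pair (h A (F b)) (F b) := by
  classical
  have hB := hM.base
  have hwf : WellFounded fun u z : ZFSet.{0} => u ∈ (ZFSet.sUnion z : ZFSet.{0}) := by
    refine Subrelation.wf ?_ (InvImage.wf ZFSet.rank Ordinal.lt_wf)
    intro u z hu
    obtain ⟨y, hy, hz⟩ := ZFSet.mem_sUnion.1 hu
    exact (ZFSet.rank_lt_of_mem hz).trans (ZFSet.rank_lt_of_mem hy)
  let G : ZFSet.{0} → ZFSet.{0} → ZFSet.{0} := fun z g =>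
    if z = ∅ then ∅ else pair (h (fs z) (ap g (sn z))) (ap g (sn z))
  let F : ZFSet.{0} → ZFSet.{0} := wfF (fun z => (ZFSet.sUnion z : ZFSet.{0})) hwf G
  have hF : ∀ z, F z = G z (gr F (ZFSet.sUnion z)) := fun z => wfF_eq _ _ _ z
  refine ⟨F, hM.wfrec (pr := fun z => (ZFSet.sUnion z : ZFSet.{0})) hwf hB.dfn_sUnion (G := G) ?_ hF,
    ?_, fun A b => ?_⟩
  · refine DfnF.ite (Dfn.eq (DfnF.proj 0) (DfnF.const hM.empty_mem)) (DfnF.const hM.empty_mem) ?_
    have h1 : DfnF M M fun w : Fin 2 → ZFSet.{0} => ap (w 1) (sn (w 0)) :=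
      hM.ap' (DfnF.proj 1) (hM.sn' (DfnF.proj 0))
    exact hB.pair' (DfnF.comp2 (f := h) hh (hM.fs' (DfnF.proj 0)) h1) h1
  · rw [hF]
    simp [G]
  · rw [hF]
    have h1 : pair A b ≠ ∅ := by
      intro h
      have h2 : ({A} : ZFSet.{0}) ∈ pair A b := by simp [ZFSet.pair]
      rw [h] at h2
      exact ZFSet.notMem_empty _ h2
    have h2 : b ∈ (ZFSet.sUnion (pair A b) : ZFSet.{0}) :=
      ZFSet.mem_sUnion.2 ⟨{A, b}, by simp [ZFSet.pair], by simp⟩
    simp only [G, if_neg h1, fs_pair, sn_pair]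
    rw [ap_gr h2]

end Model

/-! ### Absoluteness of the existence of runs -/

section Abs

variable {M : Set ZFSet.{0}} (hM : IsZFC M)

include hM

/-- If all runs in `M` of moves in the set `mv ∈ M` eventually leave the definable class `Q` of
positions, then so do all runs of moves in `mv`. -/
theorem branch_abs {mv : ZFSet.{0}} (hmv : mv ∈ M) {Q : ZFSet.{0} → Prop}
    (hQ : Dfn M M fun w : Fin 1 → ZFSet.{0} => Q (w 0))
    (h : ∀ B : ℕ → ZFSet.{0}, (∀ n, B n ∈ mv) → InModel M B → ∃ n, ¬ Q (code (hist B (n + 1))))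
    (B : ℕ → ZFSet.{0}) (hB : ∀ n, B n ∈ mv) : ∃ n, ¬ Q (code (hist B (n + 1))) := by
  classical
  have hZ := hM.toIsZF
  have hBs := hZ.base
  have hS := Sq_mem hZ hmv
  let G : ZFSet.{0} → ZFSet.{0} → ZFSet.{0} := fun _ g =>
    ZFSet.sep (fun b => ∀ C ∈ mv, Q (pair C b) → ∃ q ∈ g, pair C b ∈ sn q) (Sq mv)
  let F : ZFSet.{0} → ZFSet.{0} := wfF (fun z => z) ZFSet.mem_wf G
  have hF : ∀ z, F z = G z (gr F z) := fun z => wfF_eq _ _ _ z
  have hFd : DfnF M M fun w : Fin 1 → ZFSet.{0} => F (w 0) := by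
    refine hZ.memrec (G := G) ?_ hF
    refine hZ.sep' (Q := fun b w => ∀ C ∈ mv, Q (pair C b) → ∃ q ∈ w 1, pair C b ∈ sn q)
      (DfnF.const hS) ?_
    refine hBs.ball (DfnF.const hmv) (Dfn.imp ?_ ?_)
    · exact Dfn.comp1 (Q := Q) hQ (hBs.pair' (DfnF.proj 0) (DfnF.proj 1))
    · refine hBs.bex (DfnF.proj _) ?_
      exact Dfn.mem (hBs.pair' (DfnF.proj 1) (DfnF.proj 2)) (hZ.sn' (DfnF.proj 0))
  have hmem : ∀ a b, b ∈ F a ↔ b ∈ Sq mv ∧ ∀ C ∈ mv, Q (pair C b) → ∃ a' ∈ a, pair C b ∈ F a' := by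
    intro a b
    rw [hF]
    simp only [G, ZFSet.mem_sep]
    refine and_congr_right fun _ => forall_congr' fun C => forall_congr' fun _ =>
      forall_congr' fun _ => ?_
    constructor
    · rintro ⟨q, hq, h1⟩
      obtain ⟨u, hu, rfl⟩ := mem_gr.1 hq
      rw [sn_pair] at h1
      exact ⟨u, hu, h1⟩
    · rintro ⟨a', ha', h1⟩
      exact ⟨pair a' (F a'), mem_gr.2 ⟨a', ha', rfl⟩, by rwa [sn_pair]⟩
  let W : ZFSet.{0} → Prop := fun b => ∃ a ∈ M, b ∈ F a
  have hFd2 : ∀ {m : ℕ} (i : Fin m), DfnF M M fun w : Fin m → ZFSet.{0} => F (w i) := fun i =>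
    DfnF.comp1 (f := F) hFd (DfnF.proj i)
  have hWd : Dfn M M fun w : Fin 1 → ZFSet.{0} => W (w 0) := by
    apply Dfn.ex
    exact Dfn.mem (DfnF.proj 1) (hFd2 0)
  have hclosed : ∀ b ∈ Sq mv, (∀ C ∈ mv, Q (pair C b) → W (pair C b)) → W b := by
    intro b hb hall
    have hbM := hZ.trans _ hS _ hb
    have hx : ZFSet.sep (fun C => Q (pair C b)) mv ∈ M := hZ.sep_mem
      (Q := fun C => Q (pair C b))
      (Dfn.comp1 (Q := Q) hQ (hBs.pair' (DfnF.proj 0) (DfnF.const hbM))) hmv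
    obtain ⟨Y, hY, h1⟩ := collect hZ hx (Q := fun w C => pair C b ∈ F w)
      (Dfn.mem (hBs.pair' (DfnF.proj 1) (DfnF.const hbM)) (hFd2 0)) (by
        intro C hC
        rw [ZFSet.mem_sep] at hC
        exact hall C hC.1 hC.2)
    refine ⟨Y, hY, (hmem _ _).2 ⟨hb, fun C hC hQC => ?_⟩⟩
    exact h1 C (ZFSet.mem_sep.2 ⟨hC, hQC⟩)
  have hW : W ∅ := by
    by_contra hcon
    have hx : ZFSet.sep (fun b => ¬ W b) (Sq mv) ∈ M := hZ.sep_mem hWd.not hS
    obtain ⟨f, hf, -, -, h1⟩ := choose_fn hM hx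
      (Q := fun C b => C ∈ mv ∧ Q (pair C b) ∧ ¬ W (pair C b)) (by
        apply Dfn.and (Dfn.mem (DfnF.proj 0) (DfnF.const hmv))
        apply Dfn.and
        · exact Dfn.comp1 (Q := Q) hQ (hBs.pair' (DfnF.proj 0) (DfnF.proj 1))
        · exact (Dfn.comp1 (Q := W) hWd (hBs.pair' (DfnF.proj 0) (DfnF.proj 1))).not) (by
        intro b hb
        rw [ZFSet.mem_sep] at hb
        by_contra hno
        apply hb.2
        apply hclosed b hb.1
        intro C hC hQC
        by_contra hWC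
        exact hno ⟨C, hZ.trans _ hmv _ hC, hC, hQC, hWC⟩)
    obtain ⟨B', hB'M, hB'⟩ := exists_run hZ (h := fun b => ap f b)
      (hZ.ap' (DfnF.const hf) (DfnF.proj 0))
    have hind : ∀ n, (∀ A ∈ hist B' n, A ∈ mv) ∧ ¬ W (code (hist B' n)) := by
      intro n
      induction n with
      | zero => exact ⟨by simp [hist], hcon⟩
      | succ n ih =>
        have h2 := h1 (code (hist B' n)) (ZFSet.mem_sep.2 ⟨mem_Sq.2 ⟨_, ih.1, rfl⟩, ih.2⟩)
        rw [← hB' n] at h2
        refine ⟨?_, h2.2.2⟩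
        intro A hA
        rcases List.mem_cons.mp hA with rfl | hA
        · exact h2.1
        · exact ih.1 A hA
    obtain ⟨n, hn⟩ := h B' (fun n => (hind (n + 1)).1 _ List.mem_cons_self) hB'M
    apply hn
    have h2 := h1 (code (hist B' n)) (ZFSet.mem_sep.2 ⟨mem_Sq.2 ⟨_, (hind n).1, rfl⟩, (hind n).2⟩)
    rw [← hB' n] at h2
    exact h2.2.1
  by_contra hcon
  push Not at hcon
  have hno : ∀ a n, code (hist B n) ∉ F a := by
    intro a
    induction a using ZFSet.inductionOn with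
    | _ a ih =>
    intro n hn
    obtain ⟨a', ha', h1⟩ := ((hmem _ _).1 hn).2 (B n) (hB n) (hcon n)
    exact ih a' ha' (n + 1) h1
  obtain ⟨a, -, ha⟩ := hW
  exact hno a 0 ha

end Abs

/-! ### Winning strategies -/

/-- Transfer of a winning strategy from `M` to `N`. -/
theorem wins_up {M N : Set ZFSet.{0}} (hM : IsZFC M) (hN : IsZFC N) (hMN : M ⊆ N)
    {mv mv' : ZFSet.{0}} (hmv : mv ∈ M) (hmv' : mv' ∈ N) {E : ZFSet.{0} → Prop}
    {Hit T : ZFSet.{0} → ZFSet.{0} → Prop}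
    (hHit : Dfn M M fun w : Fin 2 → ZFSet.{0} => Hit (w 0) (w 1))
    (hE : ∀ e, E e → e ∈ M)
    (hT : Dfn N N fun w : Fin 2 → ZFSet.{0} => T (w 0) (w 1))
    (hTH : ∀ e a a', E e → T a' a → Hit e a → Hit e a')
    {σ : ZFSet.{0}} (hσ : σ ∈ M)
    (h1 : ∀ (A : ZFSet.{0}) (s : List ZFSet.{0}), A ∈ mv → (∀ B ∈ s, B ∈ mv) →
      ∃ a ∈ A, ∀ b, pair (code (A :: s)) b ∈ σ ↔ b = a)
    (h2 : ∀ A : ℕ → ZFSet.{0}, (∀ n, A n ∈ mv) → InModel M A → ∀ e, E e →
      ∃ n a, pair (code (hist A (n + 1))) a ∈ σ ∧ Hit e a)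
    (hsub : ∀ A ∈ mv', ∀ s : List ZFSet.{0}, (∀ B ∈ s, B ∈ mv) →
      ∃ C ∈ mv, ∃ a, pair (code (C :: s)) a ∈ σ ∧ ∃ a' ∈ A, T a' a) :
    Wins N (fun A => A ∈ mv') E Hit := by
  classical
  have hZ := hN.toIsZF
  have hBs := hZ.base
  have hσN := hMN hσ
  have hmvN := hMN hmv
  have hsn : ∀ {t a : ZFSet.{0}}, pair t a ∈ σ → a ∈ M := fun h =>
    (hM.toIsZF.of_pair_mem (hM.trans _ hσ _ h)).2
  -- replacement of the moves
  obtain ⟨f, hf, -, -, hf1⟩ := choose_fn hN (x := ZFSet.prod mv' (Sq mv))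
    (hZ.prod_mem hmv' (Sq_mem hZ hmvN))
    (Q := fun C z => C ∈ mv ∧ ∃ a ∈ N, pair (pair C (sn z)) a ∈ σ ∧ ∃ a' ∈ fs z, T a' a) (by
      apply Dfn.and (Dfn.mem (DfnF.proj 0) (DfnF.const hmvN))
      apply Dfn.ex
      apply Dfn.and
      · exact Dfn.mem (hBs.pair' (hBs.pair' (DfnF.proj 1) (hZ.sn' (DfnF.proj 2))) (DfnF.proj 0))
          (DfnF.const hσN)
      · apply hBs.bex
        · exact hZ.fs' (DfnF.proj 2)
        · exact Dfn.comp2 (Q := T) hT (DfnF.proj 0) (DfnF.proj 1)) (by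
      intro z hz
      obtain ⟨A, hA, b, hb, rfl⟩ := ZFSet.mem_prod.1 hz
      obtain ⟨s, hs, rfl⟩ := mem_Sq.1 hb
      obtain ⟨C, hC, a, ha, ha'⟩ := hsub A hA s hs
      refine ⟨C, hMN (hM.trans _ hmv _ hC), hC, a, hMN (hsn ha), ?_⟩
      rw [fs_pair, sn_pair]
      exact ⟨ha, ha'⟩)
  obtain ⟨β, hβd, hβ0, hβ1⟩ := exists_coderec hZ (h := fun A b => ap f (pair A b))
    (hZ.ap' (DfnF.const hf) (hBs.pair' (DfnF.proj 0) (DfnF.proj 1)))
  -- the replaced sequences
  let st : List ZFSet.{0} → List ZFSet.{0} := List.rec [] fun A _ r => ap f (pair A (code r)) :: r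
  have hst : ∀ A s, st (A :: s) = ap f (pair A (code (st s))) :: st s := fun _ _ => rfl
  have hβ : ∀ s, β (code s) = code (st s) := by
    intro s
    induction s with
    | nil => exact hβ0
    | cons A s ih =>
      rw [hst]
      change β (pair A (code s)) = _
      rw [hβ1, ih]
      rfl
  have hstmv : ∀ s : List ZFSet.{0}, (∀ A ∈ s, A ∈ mv') → ∀ B ∈ st s, B ∈ mv := by
    intro s
    induction s with
    | nil => intro _ B hB; simp [st] at hB
    | cons A s ih =>
      intro hs B hB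
      have ih' := ih fun A hA => hs A (List.mem_cons_of_mem _ hA)
      rw [hst] at hB
      rcases List.mem_cons.mp hB with rfl | hB
      · exact (hf1 _ (ZFSet.pair_mem_prod.2 ⟨hs A List.mem_cons_self,
          mem_Sq.2 ⟨_, ih', rfl⟩⟩)).1
      · exact ih' B hB
  have hans : ∀ A s, A ∈ mv' → (∀ B ∈ s, B ∈ mv') → ∃ a ∈ N, pair (code (st (A :: s))) a ∈ σ ∧
      ∃ a' ∈ A, T a' a := by
    intro A s hA hs
    have h3 := (hf1 (pair A (code (st s))) (ZFSet.pair_mem_prod.2 ⟨hA,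
      mem_Sq.2 ⟨_, hstmv s hs, rfl⟩⟩)).2
    rw [fs_pair, sn_pair] at h3
    exact h3
  -- the new strategy
  obtain ⟨σ', hσ', hσ1, hσ2, hσ3⟩ := choose_fn hN (x := ZFSet.prod mv' (Sq mv'))
    (hZ.prod_mem hmv' (Sq_mem hZ hmv'))
    (Q := fun a' z => a' ∈ fs z ∧ ∃ a ∈ N, pair (β z) a ∈ σ ∧ T a' a) (by
      apply Dfn.and (Dfn.mem (DfnF.proj 0) (hZ.fs' (DfnF.proj 1)))
      apply Dfn.ex
      apply Dfn.and
      · exact Dfn.mem (hBs.pair' (DfnF.comp1 (f := β) hβd (DfnF.proj 2)) (DfnF.proj 0))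
          (DfnF.const hσN)
      · exact Dfn.comp2 (Q := T) hT (DfnF.proj 1) (DfnF.proj 0)) (by
      intro z hz
      obtain ⟨A, hA, b, hb, rfl⟩ := ZFSet.mem_prod.1 hz
      obtain ⟨s, hs, rfl⟩ := mem_Sq.1 hb
      obtain ⟨a, haN, ha, a', ha', hTa⟩ := hans A s hA hs
      refine ⟨a', hZ.trans _ (hZ.trans _ hmv' _ hA) _ ha', ?_⟩
      rw [fs_pair]
      refine ⟨ha', a, haN, ?_, hTa⟩
      rw [show pair A (code s) = code (A :: s) from rfl, hβ]
      exact ha)
  have huniq : ∀ A s, A ∈ mv' → (∀ B ∈ s, B ∈ mv') → ∀ b, pair (code (A :: s)) b ∈ σ' ↔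
      b = ap σ' (code (A :: s)) := by
    intro A s hA hs b
    constructor
    · intro hb
      obtain ⟨z, -, hz⟩ := hσ1 _ hb
      obtain ⟨rfl, h4⟩ := ZFSet.pair_inj.1 hz
      exact h4
    · rintro rfl
      exact hσ2 _ (ZFSet.pair_mem_prod.2 ⟨hA, mem_Sq.2 ⟨_, hs, rfl⟩⟩)
  refine ⟨σ', hσ', fun A s hA hs => ?_, fun A hA _ e he => ?_⟩
  · have h3 := hσ3 (pair A (code s)) (ZFSet.pair_mem_prod.2 ⟨hA, mem_Sq.2 ⟨_, hs, rfl⟩⟩)
    rw [fs_pair] at h3
    exact ⟨_, h3.1, huniq A s hA hs⟩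
  · -- the run of the replaced moves
    let B : ℕ → ZFSet.{0} := fun n => ap f (pair (A n) (code (st (hist A n))))
    have hhist : ∀ n, hist B n = st (hist A n) := by
      intro n
      induction n with
      | zero => rfl
      | succ n ih =>
        change B n :: hist B n = st (A n :: hist A n)
        rw [hst, ih]
    have hAn : ∀ n, ∀ C ∈ hist A n, C ∈ mv' := by
      intro n
      induction n with
      | zero => intro C hC; simp [hist] at hC
      | succ n ih =>
        intro C hC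
        rcases List.mem_cons.mp hC with rfl | hC
        · exact hA n
        · exact ih C hC
    have hBmv : ∀ n, B n ∈ mv := by
      intro n
      have h3 := hstmv (hist A (n + 1)) (hAn (n + 1)) (B n)
      rw [← hhist] at h3
      exact h3 List.mem_cons_self
    obtain ⟨n, hn⟩ := branch_abs hM hmv (Q := fun t => ∀ a ∈ M, pair t a ∈ σ → ¬ Hit e a) (by
        apply Dfn.all
        apply Dfn.imp
        · exact Dfn.mem (hM.toIsZF.base.pair' (DfnF.proj 1) (DfnF.proj 0)) (DfnF.const hσ)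
        · exact (Dfn.comp2 (Q := Hit) hHit (DfnF.const (hE e he)) (DfnF.proj 0)).not) (by
        intro C hC hCM
        obtain ⟨n, a, h3, h4⟩ := h2 C hC hCM e he
        exact ⟨n, fun h5 => h5 a (hsn h3) h3 h4⟩) B hBmv
    push Not at hn
    obtain ⟨a, haM, ha, hhit⟩ := hn
    refine ⟨n, _, (huniq (A n) (hist A n) (hA n) (hAn n) _).2 rfl, ?_⟩
    have h3 := hσ3 (pair (A n) (code (hist A n))) (ZFSet.pair_mem_prod.2 ⟨hA n,
      mem_Sq.2 ⟨_, hAn n, rfl⟩⟩)
    obtain ⟨-, a2, -, h4, h5⟩ := h3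
    rw [show pair (A n) (code (hist A n)) = code (hist A (n + 1)) from rfl, hβ, ← hhist] at h4
    obtain ⟨a3, -, h6⟩ := h1 (B n) (hist B n) (hBmv n) fun C hC => by
      rw [hhist] at hC
      exact hstmv _ (hAn n) C hC
    have h7 : a2 = a := ((h6 a2).1 h4).trans ((h6 a).1 ha).symm
    rw [h7] at h5
    exact hTH e a _ he h5 hhit

end Pool.Agent.Q212.GA
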