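import Pool.Agent.Q212.GameAbs
import Pool.Agent.Y588.Fnl

/-!
# Two topological games in transitive models of set theory, and the constructible universe
-/

set_option autoImplicit false
set_option linter.unreachableTactic false
set_option linter.unusedTactic false

namespace Pool.Agent.Q212.GA

open Pool.Agent.W868 Pool.Agent.Y588
open ZFSet (pair)

/-- In the model `M`, the pair `(X, τ)` is a topological space. -/
structure IsTop (M : Set ZFSet.{0}) (X τ : ZFSet.{0}) : Prop where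
  carrier : X ∈ M
  opens : τ ∈ M
  sub : ∀ O ∈ τ, O ⊆ X
  univ : X ∈ τ
  inter : ∀ O ∈ τ, ∀ O' ∈ τ, O ∩ O' ∈ τ
  union : ∀ S ∈ M, S ⊆ τ → (ZFSet.sUnion S : ZFSet.{0}) ∈ τ

/-- The point `x` is in the closure of `A`, in the topology generated by the base `τ`. -/
def InClosure (τ x A : ZFSet.{0}) : Prop := ∀ O ∈ τ, x ∈ O → ∃ a ∈ A, a ∈ O

/-- In the model `M`, player II has a winning strategy in the strong countable fan tightness game
at `x` on the set `X` with the topology generated by `τ`. -/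
def WinsSCFT (M : Set ZFSet.{0}) (X τ x : ZFSet.{0}) : Prop :=
  Wins M (fun A => A ∈ M ∧ A ⊆ X ∧ InClosure τ x A) (fun O => O ∈ τ ∧ x ∈ O) fun O a => a ∈ O

/-- The set `U` is an open subset of `X`, in the topology generated by the base `τ`. -/
def IsOpenIn (X τ U : ZFSet.{0}) : Prop := U ⊆ X ∧ ∀ y ∈ U, ∃ O ∈ τ, y ∈ O ∧ O ⊆ U

/-- In the model `M`, the set `𝒰` is an open cover of the set `X` with the topology generated by
the base `τ`. -/
def IsCover (M : Set ZFSet.{0}) (X τ 𝒰 : ZFSet.{0}) : Prop :=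
  𝒰 ∈ M ∧ (∀ U ∈ 𝒰, IsOpenIn X τ U) ∧ ∀ y ∈ X, ∃ U ∈ 𝒰, y ∈ U

/-- In the model `M`, player II has a winning strategy in the Rothberger game on the set `X` with
the topology generated by `τ`. -/
def WinsRothberger (M : Set ZFSet.{0}) (X τ : ZFSet.{0}) : Prop :=
  Wins M (IsCover M X τ) (fun y => y ∈ X) fun y U => y ∈ U

section Up

variable {M N : Set ZFSet.{0}} (hM : IsZFC M) (hN : IsZFC N) (hMN : M ⊆ N)

theorem scft_set {M : Set ZFSet.{0}} (hM : IsZF M) {X τ x : ZFSet.{0}} (hX : X ∈ M) (hτ : τ ∈ M)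
    (hx : x ∈ M) : ∃ mv ∈ M, ∀ A, (A ∈ M ∧ A ⊆ X ∧ InClosure τ x A) ↔ A ∈ mv := by
  have hB := hM.base
  refine ⟨ZFSet.sep (fun A => InClosure τ x A) (pwW M X),
    hM.sep_mem (Q := fun A => InClosure τ x A) ?_ (pwW_mem hM hX), fun A => ?_⟩
  · unfold InClosure
    (repeat' first
      | assumption
      | exact DfnF.proj _
      | exact DfnF.const (by assumption)
      | exact Dfn.prop _
      | apply Dfn.not | apply Dfn.and | apply Dfn.or | apply Dfn.imp | apply Dfn.iff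
      | apply hB.bex | apply hB.ball | apply Dfn.ex | apply Dfn.all
      | apply Dfn.eq | apply Dfn.mem | apply hB.pair')
  · rw [ZFSet.mem_sep, mem_pwW, and_assoc]

include hM hN hMN

theorem scft_up {X τ x : ZFSet.{0}} (hX : X ∈ M) (hτ : τ ∈ M) (hsub : ∀ O ∈ τ, O ⊆ X)
    (hx : x ∈ X) (h : WinsSCFT M X τ x) : WinsSCFT N X τ x := by
  have hZ := hM.toIsZF
  have hB := hZ.base
  have hxM := hZ.trans _ hX _ hx
  obtain ⟨mv, hmv, hmv1⟩ := scft_set hZ hX hτ hxM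
  obtain ⟨mv', hmv', hmv1'⟩ := scft_set hN.toIsZF (hMN hX) (hMN hτ) (hMN hxM)
  obtain ⟨σ, hσ, h1, h2⟩ := h
  simp only [hmv1] at h1 h2
  unfold WinsSCFT
  simp only [hmv1']
  refine wins_up hM hN hMN hmv hmv' (T := fun a' a => a' = a) (Dfn.mem (DfnF.proj 1) (DfnF.proj 0))
    (fun e he => hZ.trans _ hτ _ he.1) (Dfn.eq (DfnF.proj 0) (DfnF.proj 1)) ?_ hσ h1 h2 ?_
  · rintro e a a' - rfl h3
    exact h3
  · intro A hA s hs
    have hA' := (hmv1' A).2 hA
    have hcs : code s ∈ M := hZ.trans _ (Sq_mem hZ hmv) _ (mem_Sq.2 ⟨s, hs, rfl⟩)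
    -- the points which are not answers
    let Z := ZFSet.sep (fun a => ∀ C ∈ mv, ¬ pair (pair C (code s)) a ∈ σ) X
    have hZM : Z ∈ M := by
      refine hZ.sep_mem (Q := fun a => ∀ C ∈ mv, ¬ pair (pair C (code s)) a ∈ σ) ?_ hX
      (repeat' first
        | assumption
        | exact DfnF.proj _
        | exact DfnF.const (by assumption)
        | exact Dfn.prop _
        | apply Dfn.not | apply Dfn.and | apply Dfn.or | apply Dfn.imp | apply Dfn.iff
        | apply hB.bex | apply hB.ball | apply Dfn.ex | apply Dfn.all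
        | apply Dfn.eq | apply Dfn.mem | apply hB.pair')
    have hnc : ¬ InClosure τ x Z := by
      intro hcl
      have h3 := (hmv1 Z).1 ⟨hZM, fun z hz => (ZFSet.mem_sep.1 hz).1, hcl⟩
      obtain ⟨a, ha, h4⟩ := h1 Z s h3 hs
      exact (ZFSet.mem_sep.1 ha).2 Z h3 ((h4 a).2 rfl)
    unfold InClosure at hnc
    push Not at hnc
    obtain ⟨O, hO, hxO, hno⟩ := hnc
    obtain ⟨a, haA, haO⟩ := hA'.2.2 O hO hxO
    have h5 : ∃ C ∈ mv, pair (pair C (code s)) a ∈ σ := by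
      by_contra hcon
      push Not at hcon
      exact hno a (ZFSet.mem_sep.2 ⟨hsub O hO haO, hcon⟩) haO
    obtain ⟨C, hC, h6⟩ := h5
    exact ⟨C, hC, a, h6, a, haA, rfl⟩

omit hM hN hMN in
theorem roth_set {M : Set ZFSet.{0}} (hM : IsZF M) {X τ : ZFSet.{0}} (hX : X ∈ M) (hτ : τ ∈ M) :
    ∃ mv ∈ M, ∀ A, IsCover M X τ A ↔ A ∈ mv := by
  have hB := hM.base
  refine ⟨ZFSet.sep (fun A => (∀ U ∈ A, U ⊆ X ∧ ∀ y ∈ U, ∃ O ∈ τ, y ∈ O ∧ O ⊆ U) ∧
      ∀ y ∈ X, ∃ U ∈ A, y ∈ U) (pwW M (pwW M X)),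
    hM.sep_mem (Q := fun A => (∀ U ∈ A, U ⊆ X ∧ ∀ y ∈ U, ∃ O ∈ τ, y ∈ O ∧ O ⊆ U) ∧
      ∀ y ∈ X, ∃ U ∈ A, y ∈ U) ?_ (pwW_mem hM (pwW_mem hM hX)), fun A => ?_⟩
  · (repeat' first
      | assumption
      | exact DfnF.proj _
      | exact DfnF.const (by assumption)
      | exact Dfn.prop _
      | apply Dfn.not | apply Dfn.and | apply Dfn.or | apply Dfn.imp | apply Dfn.iff
      | apply hB.bex | apply hB.ball | apply Dfn.ex | apply Dfn.all
      | apply hB.subset'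
      | apply Dfn.eq | apply Dfn.mem | apply hB.pair')
  · rw [ZFSet.mem_sep, mem_pwW]
    constructor
    · rintro ⟨h1, h2, h3⟩
      exact ⟨⟨h1, fun U hU => mem_pwW.2 ⟨hM.trans _ h1 _ hU, (h2 U hU).1⟩⟩, h2, h3⟩
    · rintro ⟨⟨h1, -⟩, h2, h3⟩
      exact ⟨h1, h2, h3⟩

theorem roth_up {X τ : ZFSet.{0}} (hX : X ∈ M) (hτ : τ ∈ M) (hsub : ∀ O ∈ τ, O ⊆ X)
    (h : WinsRothberger M X τ) : WinsRothberger N X τ := by
  have hZ := hM.toIsZF
  have hB := hZ.base
  have hBN := hN.toIsZF.base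
  obtain ⟨mv, hmv, hmv1⟩ := roth_set hZ hX hτ
  obtain ⟨mv', hmv', hmv1'⟩ := roth_set hN.toIsZF (hMN hX) (hMN hτ)
  obtain ⟨σ, hσ, h1, h2⟩ := h
  simp only [hmv1] at h1 h2
  unfold WinsRothberger
  have h0 : IsCover N X τ = fun A => A ∈ mv' := funext fun A => propext (hmv1' A)
  rw [h0]
  refine wins_up hM hN hMN hmv hmv' (T := fun a' a => a ⊆ a') (Dfn.mem (DfnF.proj 0) (DfnF.proj 1))
    (fun e he => hZ.trans _ hX _ he) (hBN.subset' (DfnF.proj 1) (DfnF.proj 0)) ?_ hσ h1 h2 ?_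
  · intro e a a' _ h3 h4
    exact h3 h4
  · intro A hA s hs
    have hA' := (hmv1' A).2 hA
    have hcs : code s ∈ M := hZ.trans _ (Sq_mem hZ hmv) _ (mem_Sq.2 ⟨s, hs, rfl⟩)
    -- the members of `τ` which are not answers
    let Z := ZFSet.sep (fun a => ∀ C ∈ mv, ¬ pair (pair C (code s)) a ∈ σ) τ
    have hZM : Z ∈ M := by
      refine hZ.sep_mem (Q := fun a => ∀ C ∈ mv, ¬ pair (pair C (code s)) a ∈ σ) ?_ hτ
      (repeat' first
        | assumption
        | exact DfnF.proj _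
        | exact DfnF.const (by assumption)
        | exact Dfn.prop _
        | apply Dfn.not | apply Dfn.and | apply Dfn.or | apply Dfn.imp | apply Dfn.iff
        | apply hB.bex | apply hB.ball | apply Dfn.ex | apply Dfn.all
        | apply Dfn.eq | apply Dfn.mem | apply hB.pair')
    have hnc : ∃ y ∈ X, ∀ U ∈ Z, y ∉ U := by
      by_contra hcon
      push Not at hcon
      have h3 := (hmv1 Z).1 ⟨hZM, fun U hU => ⟨hsub U (ZFSet.mem_sep.1 hU).1, fun y hy =>
        ⟨U, (ZFSet.mem_sep.1 hU).1, hy, fun _ h => h⟩⟩, hcon⟩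
      obtain ⟨a, ha, h4⟩ := h1 Z s h3 hs
      exact (ZFSet.mem_sep.1 ha).2 Z h3 ((h4 a).2 rfl)
    obtain ⟨y, hy, hno⟩ := hnc
    obtain ⟨U, hU, hyU⟩ := hA'.2.2 y hy
    obtain ⟨O, hO, hyO, hOU⟩ := (hA'.2.1 U hU).2 y hyU
    have h5 : ∃ C ∈ mv, pair (pair C (code s)) O ∈ σ := by
      by_contra hcon
      push Not at hcon
      exact hno O (ZFSet.mem_sep.2 ⟨hO, hcon⟩) hyO
    obtain ⟨C, hC, h6⟩ := h5
    exact ⟨C, hC, O, h6, U, hU, hOU⟩

end Up

/-! ### The constructible universe -/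

/-- The constructible universe of `V`: the union of the levels `LA ∅ α` of the constructible
hierarchy over the ordinals `α` of `V`. -/
def Lof (V : Set ZFSet.{0}) : Set ZFSet.{0} :=
  {x | ∃ α : Ordinal.{0}, α.toZFSet ∈ V ∧ x ∈ LA ∅ α}

theorem Lof_eq {V : Set ZFSet.{0}} (hV : IsZF V) : LC V ∅ = Lof V := by
  have hL : IsLA ∅ (LC V ∅) := isLA_LC hV hV.empty_mem hV.empty_mem ZFSet.isOrdinal_empty
    fun z hz => absurd hz (ZFSet.notMem_empty _)
  refine L_eq hL fun x hx => ⟨fun h => LC_subset hV hV.empty_mem h, fun h => ?_⟩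
  exact ord_LC hV hV.empty_mem h hx

theorem isZFC_Lof {V : Set ZFSet.{0}} (hV : IsZF V) : IsZFC (Lof V) := by
  have hL : IsLA ∅ (LC V ∅) := isLA_LC hV hV.empty_mem hV.empty_mem ZFSet.isOrdinal_empty
    fun z hz => absurd hz (ZFSet.notMem_empty _)
  rw [← Lof_eq hV]
  exact isZFC_of_gc hL.zf hL.gc

theorem Lof_subset {V : Set ZFSet.{0}} (hV : IsZF V) : Lof V ⊆ V := by
  rw [← Lof_eq hV]
  exact LC_subset hV hV.empty_mem

/-- The class of all sets is a transitive model of ZFC. -/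
theorem isZFC_univ : IsZFC (Set.univ : Set ZFSet.{0}) where
  trans _ _ _ _ := trivial
  pairing _ _ _ _ := trivial
  union _ _ := trivial
  infinity := trivial
  power x _ := ⟨ZFSet.powerset x, trivial, fun z => by simp⟩
  separation φ _ x _ := ⟨ZFSet.sep (fun z => Sat Set.univ id φ ![z]) x, trivial, fun z => by simp⟩
  replacement φ _ x _ h := by
    classical
    choose! w hw hu using h
    refine ⟨ZFSet.range fun z : x => w z.1, trivial, fun y => ?_⟩
    rw [ZFSet.mem_range]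
    constructor
    · rintro ⟨z, rfl⟩
      exact ⟨trivial, z.1, z.2, (hw z.1 z.2).2⟩
    · rintro ⟨-, z, hz, h1⟩
      exact ⟨⟨z, hz⟩, (hu z hz y ⟨trivial, h1⟩).symm⟩
  choice x _ hne hdis := by
    classical
    choose! c hc using hne
    refine ⟨ZFSet.range fun z : x => c z.1, trivial, fun y hy => ⟨c y, ⟨hc y hy, ?_⟩, ?_⟩⟩
    · exact ZFSet.mem_range.2 ⟨⟨y, hy⟩, rfl⟩
    · rintro z ⟨hz, hz'⟩
      obtain ⟨y', rfl⟩ := ZFSet.mem_range.1 hz'
      rw [hdis y hy y'.1 y'.2 _ hz (hc y'.1 y'.2)]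

end Pool.Agent.Q212.GA
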