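import Mathlib

/-!
# Basic facts on ultrafilters: the Rudin-Keisler order, limits, weak P-points
-/

open Set Filter

namespace Pool.Agent.Q212.RK

/-- Every finite part of a fixed point free function graph is 3-colourable. -/
theorem finite_coloring {X : Type*} [DecidableEq X] (f : X → X) (F : Finset X)
    (hF : ∀ x ∈ F, f x ≠ x) : ∃ c : X → Fin 3, ∀ x ∈ F, c x ≠ c (f x) := by
  induction hn : F.card generalizing F with
  | zero =>
    refine ⟨fun _ => 0, fun x hx => ?_⟩
    rw [Finset.card_eq_zero] at hn
    rw [hn] at hx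
    exact absurd hx (Finset.notMem_empty x)
  | succ n ih =>
    -- some `x ∈ F` has at most one preimage in `F`
    have hex : ∃ x ∈ F, (F.filter (fun y => f y = x)).card ≤ 1 := by
      by_contra hcon
      push Not at hcon
      have h1 : ∑ x ∈ F, (F.filter (fun y => f y = x)).card ≤ F.card := by
        have h2 : (F.filter (fun y => f y ∈ F)).card = ∑ x ∈ F, (F.filter (fun y => f y = x)).card := by
          rw [Finset.card_eq_sum_card_fiberwise (s := F.filter (fun y => f y ∈ F)) (f := f) (t := F)
            (fun y hy => (Finset.mem_filter.mp (Finset.mem_coe.mp hy)).2)]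
          refine Finset.sum_congr rfl fun x hx => ?_
          congr 1
          ext y
          simp only [Finset.mem_filter]
          constructor
          · rintro ⟨⟨h1, _⟩, h3⟩
            exact ⟨h1, h3⟩
          · rintro ⟨h1, h3⟩
            exact ⟨⟨h1, h3 ▸ hx⟩, h3⟩
        rw [← h2]
        exact Finset.card_filter_le _ _
      have h3 : ∑ _x ∈ F, 2 ≤ ∑ x ∈ F, (F.filter (fun y => f y = x)).card :=
        Finset.sum_le_sum fun x hx => hcon x hx
      rw [Finset.sum_const, smul_eq_mul] at h3
      omega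
    obtain ⟨x, hxF, hx1⟩ := hex
    obtain ⟨c, hc⟩ := ih (F.erase x) (fun y hy => hF y (Finset.mem_of_mem_erase hy))
      (by rw [Finset.card_erase_of_mem hxF, hn]; rfl)
    -- choose the new colour of `x`
    have hcol : ∃ i : Fin 3, i ≠ c (f x) ∧ ∀ y ∈ F, f y = x → i ≠ c y := by
      have : Nonempty X := ⟨x⟩
      rcases Finset.card_le_one_iff_subset_singleton.mp hx1 with ⟨y, hy⟩
      have : ∃ i : Fin 3, i ≠ c (f x) ∧ i ≠ c y := by
        generalize c (f x) = p
        generalize c y = q
        revert p q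
        decide
      obtain ⟨i, hi1, hi2⟩ := this
      refine ⟨i, hi1, fun z hz hzx => ?_⟩
      have : z ∈ F.filter (fun y => f y = x) := Finset.mem_filter.mpr ⟨hz, hzx⟩
      have := Finset.mem_singleton.mp (hy this)
      rw [this]
      exact hi2
    obtain ⟨i, hi1, hi2⟩ := hcol
    refine ⟨fun y => if y = x then i else c y, fun y hy => ?_⟩
    by_cases hyx : y = x
    · subst hyx
      simp only [if_true, if_neg (hF y hy)]
      exact hi1
    · by_cases hfy : f y = x
      · simp only [if_neg hyx, if_pos hfy]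
        exact (hi2 y hy hfy).symm
      · simp only [if_neg hyx, if_neg hfy]
        exact hc y (Finset.mem_erase.mpr ⟨hyx, hy⟩)

/-- A finite colouring is constant on a member of an ultrafilter. -/
theorem exists_fiber {X ι : Type*} [Finite ι] (u : Ultrafilter X) (c : X → ι) :
    ∃ i, {x | c x = i} ∈ u := by
  have h1 : (⋃ i ∈ (Set.univ : Set ι), {x | c x = i}) ∈ u := by
    refine Filter.mem_of_superset Filter.univ_mem fun x _ => ?_
    exact mem_iUnion₂.mpr ⟨c x, mem_univ _, rfl⟩
  obtain ⟨i, _, hi⟩ := (Ultrafilter.finite_biUnion_mem_iff finite_univ).mp h1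
  exact ⟨i, hi⟩

/-- An ultrafilter fixed by `f` concentrates on the fixed points of `f`. -/
theorem fix_mem {X : Type*} (u : Ultrafilter X) (f : X → X) (h : u.map f = u) :
    {x | f x = x} ∈ u := by
  classical
  by_contra hcon
  have hN : {x | f x = x}ᶜ ∈ u := Ultrafilter.compl_mem_iff_notMem.mpr hcon
  -- modify `f` to have the colouring on the set of non-fixed points
  have hcol : ∀ F : Finset X, ∃ c : X → Fin 3, ∀ x ∈ F, f x ≠ x → c x ≠ c (f x) := by
    intro F
    obtain ⟨c, hc⟩ := finite_coloring f (F.filter fun x => f x ≠ x)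
      (fun x hx => (Finset.mem_filter.mp hx).2)
    exact ⟨c, fun x hx hfx => hc x (Finset.mem_filter.mpr ⟨hx, hfx⟩)⟩
  choose c hc using hcol
  let W : Ultrafilter (Finset X) := Ultrafilter.of atTop
  have hW : ∀ x : X, {F : Finset X | x ∈ F} ∈ W := fun x =>
    Ultrafilter.of_le _ (by
      filter_upwards [eventually_ge_atTop ({x} : Finset X)] with F hF
      exact hF (Finset.mem_singleton_self x))
  have hlim : ∀ x : X, ∃ i : Fin 3, {F | c F x = i} ∈ W := fun x =>
    exists_fiber W fun F => c F x
  choose d hd using hlim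
  have hd' : ∀ x, f x ≠ x → d x ≠ d (f x) := by
    intro x hx heq
    obtain ⟨F, ⟨hF1, hF2⟩, hF3⟩ := Ultrafilter.nonempty_of_mem
      (Filter.inter_mem (Filter.inter_mem (hd x) (hd (f x))) (hW x))
    refine hc F x hF3 hx ?_
    have e1 : c F x = d x := hF1
    have e2 : c F (f x) = d (f x) := hF2
    rw [e1, e2, heq]
  obtain ⟨i, hi⟩ := exists_fiber u d
  have hi' : f ⁻¹' {x | d x = i} ∈ u := by
    have : {x | d x = i} ∈ u.map f := by rw [h]; exact hi
    exact this
  obtain ⟨x, ⟨hx1, hx2⟩, hx3⟩ := Ultrafilter.nonempty_of_mem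
    (Filter.inter_mem (Filter.inter_mem hi hi') hN)
  refine hd' x hx3 ?_
  have e1 : d x = i := hx1
  have e2 : d (f x) = i := hx2
  rw [e1, e2]

/-- The Rudin-Keisler order. -/
def LE {X Y : Type} (u : Ultrafilter Y) (v : Ultrafilter X) : Prop := ∃ f : X → Y, u = v.map f

/-- Isomorphism (Rudin-Keisler equivalence). -/
def Iso {X Y : Type} (u : Ultrafilter Y) (v : Ultrafilter X) : Prop := LE u v ∧ LE v u

theorem LE.refl {X : Type} (u : Ultrafilter X) : LE u u := ⟨id, by rw [Ultrafilter.map_id]⟩

theorem LE.trans {X Y Z : Type} {u : Ultrafilter X} {v : Ultrafilter Y} {w : Ultrafilter Z}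
    (h1 : LE u v) (h2 : LE v w) : LE u w := by
  obtain ⟨f, rfl⟩ := h1
  obtain ⟨g, rfl⟩ := h2
  exact ⟨f ∘ g, by rw [Ultrafilter.map_map]⟩

theorem Iso.refl {X : Type} (u : Ultrafilter X) : Iso u u := ⟨LE.refl u, LE.refl u⟩

theorem Iso.symm {X Y : Type} {u : Ultrafilter X} {v : Ultrafilter Y} (h : Iso u v) : Iso v u :=
  ⟨h.2, h.1⟩

theorem Iso.trans {X Y Z : Type} {u : Ultrafilter X} {v : Ultrafilter Y} {w : Ultrafilter Z}
    (h1 : Iso u v) (h2 : Iso v w) : Iso u w := ⟨h1.1.trans h2.1, h2.2.trans h1.2⟩

/-- If two maps agree on a member, the images agree. -/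
theorem map_congr {X Y : Type} {u : Ultrafilter X} {f g : X → Y} (h : {x | f x = g x} ∈ u) :
    u.map f = u.map g := by
  refine Ultrafilter.ext fun A => ?_
  rw [Ultrafilter.mem_map, Ultrafilter.mem_map]
  constructor
  · intro hA
    filter_upwards [hA, h] with x hx1 hx2
    rw [mem_preimage, ← show f x = g x from hx2]
    exact hx1
  · intro hA
    filter_upwards [hA, h] with x hx1 hx2
    rw [mem_preimage, show f x = g x from hx2]
    exact hx1

/-- `u` is non-principal. -/
def NonPrincipal {X : Type} (u : Ultrafilter X) : Prop := ∀ n, u ≠ pure n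

theorem eq_pure_of_mem {X : Type} {u : Ultrafilter X} {n : X} (h : {n} ∈ u) : u = pure n := by
  refine Ultrafilter.ext fun A => ?_
  rw [Ultrafilter.mem_pure]
  constructor
  · intro hA
    obtain ⟨x, hx1, hx2⟩ := Ultrafilter.nonempty_of_mem (Filter.inter_mem hA h)
    rw [mem_singleton_iff] at hx2
    rwa [← hx2]
  · intro hA
    exact Filter.mem_of_superset h (singleton_subset_iff.mpr hA)

theorem NonPrincipal.notMem {X : Type} {u : Ultrafilter X} (hu : NonPrincipal u) (n : X) :
    {n} ∉ u := fun h => hu n (eq_pure_of_mem h)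

theorem NonPrincipal.gt_mem {u : Ultrafilter ℕ} (hu : NonPrincipal u) (n : ℕ) :
    {k | n < k} ∈ u := by
  by_contra hcon
  have h3 := Ultrafilter.compl_mem_iff_notMem.mpr hcon
  have h4 : (⋃ k ∈ (Iic n : Set ℕ), ({k} : Set ℕ)) ∈ u := by
    refine Filter.mem_of_superset h3 fun k hk => ?_
    exact mem_iUnion₂.mpr ⟨k, mem_Iic.mpr (not_lt.mp (show ¬ n < k from hk)), rfl⟩
  obtain ⟨k, _, hk⟩ := (Ultrafilter.finite_biUnion_mem_iff (Set.finite_Iic n)).mp h4
  exact hu.notMem k hk

/-- `u` is a weak P-point of `ω*`. -/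
def WeakPPoint (u : Ultrafilter ℕ) : Prop :=
  NonPrincipal u ∧ ∀ F : Set (Ultrafilter ℕ), F.Countable →
    (∀ w ∈ F, NonPrincipal w ∧ w ≠ u) → u ∉ closure F

/-- A weak P-point which is a limit of countably many ultrafilters along `v` is almost always
equal to them, or they are almost always principal. -/
theorem WeakPPoint.limit {X : Type} [Countable X] {u : Ultrafilter ℕ} (hu : WeakPPoint u)
    (v : Ultrafilter X) (m : X → Ultrafilter ℕ) (h : ∀ A : Set ℕ, A ∈ u ↔ {x | A ∈ m x} ∈ v) :
    {x | m x = u} ∈ v ∨ ∃ g : X → ℕ, {x | m x = pure (g x)} ∈ v ∧ u = v.map g := by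
  classical
  by_cases h1 : {x | m x = u} ∈ v
  · exact Or.inl h1
  right
  by_cases h2 : {x | ∃ n, m x = pure n} ∈ v
  · refine ⟨fun x => if hx : ∃ n, m x = pure n then hx.choose else 0, ?_, ?_⟩
    · filter_upwards [h2] with x hx
      rw [dif_pos hx]
      exact hx.choose_spec
    · refine Ultrafilter.ext fun A => ?_
      rw [h A, Ultrafilter.mem_map]
      constructor
      · intro hA
        filter_upwards [hA, h2] with x hx1 hx2
        have hc := hx2.choose_spec
        simp only [mem_preimage, dif_pos hx2]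
        rw [hc] at hx1
        exact hx1
      · intro hA
        filter_upwards [hA, h2] with x hx1 hx2
        have hc := hx2.choose_spec
        simp only [mem_preimage, dif_pos hx2] at hx1
        rw [hc]
        exact hx1
  exfalso
  have h1' := (Ultrafilter.compl_mem_iff_notMem).mpr h1
  have h2' := (Ultrafilter.compl_mem_iff_notMem).mpr h2
  refine hu.2 (m '' ({x | m x = u}ᶜ ∩ {x | ∃ n, m x = pure n}ᶜ))
    ((Set.to_countable _).image m) ?_ ?_
  · rintro _ ⟨x, ⟨hx1, hx2⟩, rfl⟩
    exact ⟨fun n hn => hx2 ⟨n, hn⟩, fun he => hx1 he⟩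
  · rw [(ultrafilterBasis_is_basis).mem_closure_iff]
    rintro _ ⟨A, rfl⟩ hA
    have h3 := (h A).mp hA
    obtain ⟨x, hx, hx'⟩ := Ultrafilter.nonempty_of_mem
      (Filter.inter_mem h3 (Filter.inter_mem h1' h2'))
    exact ⟨m x, hx, ⟨x, hx', rfl⟩⟩

/-- The product `v ⊗ w` on `X × Y`. -/
def tensor {X Y : Type} (v : Ultrafilter X) (w : Ultrafilter Y) : Ultrafilter (X × Y) :=
  v.bind (fun x => w.map (fun y => (x, y)))

theorem mem_tensor {X Y : Type} (v : Ultrafilter X) (w : Ultrafilter Y) (A : Set (X × Y)) :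
    A ∈ tensor v w ↔ {x | {y | (x, y) ∈ A} ∈ w} ∈ v := Iff.rfl

theorem tensor_fst {X Y : Type} (v : Ultrafilter X) (w : Ultrafilter Y) :
    (tensor v w).map Prod.fst = v := by
  refine Ultrafilter.ext fun A => ?_
  rw [Ultrafilter.mem_map, mem_tensor]
  constructor
  · intro h
    filter_upwards [h] with x hx
    obtain ⟨y, hy⟩ := Ultrafilter.nonempty_of_mem hx
    exact hy
  · intro h
    filter_upwards [h] with x hx
    exact Filter.mem_of_superset Filter.univ_mem fun y _ => hx

/-- **Cancellation.** If `a ⊗ w` and `b ⊗ w'` are isomorphic, where `a` and `b` are weak P-points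
and `w`, `w'` are arbitrary, then `a ≅ b` and `w ≅ w'`. -/
theorem cancel {a b : Ultrafilter ℕ} (ha : WeakPPoint a) (hb : WeakPPoint b)
    {w w' : Ultrafilter ℕ} (h : Iso (tensor a w) (tensor b w')) : Iso a b ∧ Iso w w' := by
  classical
  obtain ⟨⟨G, hG⟩, ⟨F, hF⟩⟩ := h
  -- `G ∘ F` is the identity on a member
  have hfix : {p | G (F p) = p} ∈ tensor a w := by
    refine fix_mem (tensor a w) (G ∘ F) ?_
    rw [← Ultrafilter.map_map, ← hF, ← hG]
  let x : ℕ → Ultrafilter (ℕ × ℕ) := fun n => w.map (fun j => F (n, j))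
  let y : ℕ → Ultrafilter (ℕ × ℕ) := fun m => w'.map (fun j => (m, j))
  let σ : ℕ × ℕ → ℕ := fun p => (G p).1
  have hx : ∀ A : Set (ℕ × ℕ), A ∈ tensor b w' ↔ {n | A ∈ x n} ∈ a := by
    intro A
    rw [hF]
    exact Iff.rfl
  have hy : ∀ A : Set (ℕ × ℕ), A ∈ tensor b w' ↔ {m | A ∈ y m} ∈ b := fun A => Iff.rfl
  have hE : {n | {j | G (F (n, j)) = (n, j)} ∈ w} ∈ a := hfix
  have hxσ : ∀ n, {j | G (F (n, j)) = (n, j)} ∈ w → {p | σ p = n} ∈ x n := by
    intro n hn
    change {j | σ (F (n, j)) = n} ∈ w
    filter_upwards [hn] with j hj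
    change (G (F (n, j))).1 = n
    rw [show G (F (n, j)) = (n, j) from hj]
  have hyπ : ∀ m, {p : ℕ × ℕ | p.1 = m} ∈ y m := by
    intro m
    change {j : ℕ | m = m} ∈ w'
    exact Filter.mem_of_superset Filter.univ_mem fun _ _ => rfl
  -- `b` is the limit of the images of the `x n`
  have hb' : ∀ A : Set ℕ, A ∈ b ↔ {n | A ∈ (x n).map Prod.fst} ∈ a := by
    intro A
    conv_lhs => rw [← tensor_fst b w']
    exact hx (Prod.fst ⁻¹' A)
  -- `a` is the limit of the images of the `y m`
  have ha' : ∀ A : Set ℕ, A ∈ a ↔ {m | A ∈ (y m).map σ} ∈ b := by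
    intro A
    have h1 : (tensor b w').map σ = a := by
      have h2 : (tensor b w').map σ = (tensor a w).map Prod.fst := by
        rw [hG, Ultrafilter.map_map]
        rfl
      rw [h2, tensor_fst]
    conv_lhs => rw [← h1]
    exact hy (σ ⁻¹' A)
  rcases hb.limit a _ hb' with c1 | ⟨g, hg, hgb⟩
  · exfalso
    rcases ha.limit b _ ha' with d1 | ⟨g', hg', hga⟩
    · -- both families of images are constant
      have h1 : {p | σ p < p.1} ∈ tensor b w' := by
        rw [hx]
        filter_upwards [c1, hE] with n hn1 hn2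
        have h2 : {k | n < k} ∈ (x n).map Prod.fst := by
          rw [show (x n).map Prod.fst = b from hn1]
          exact hb.1.gt_mem n
        filter_upwards [h2, hxσ n hn2] with p hp1 hp2
        have e1 : n < p.1 := hp1
        have e2 : σ p = n := hp2
        change σ p < p.1
        rw [e2]
        exact e1
      have h2 : {p : ℕ × ℕ | p.1 < σ p} ∈ tensor b w' := by
        rw [hy]
        filter_upwards [d1] with m hm
        have h2 : {k | m < k} ∈ (y m).map σ := by
          rw [show (y m).map σ = a from hm]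
          exact ha.1.gt_mem m
        filter_upwards [h2, hyπ m] with p hp1 hp2
        have e1 : m < σ p := hp1
        have e2 : p.1 = m := hp2
        change p.1 < σ p
        rw [e2]
        exact e1
      obtain ⟨p, hp1, hp2⟩ := Ultrafilter.nonempty_of_mem (Filter.inter_mem h1 h2)
      exact lt_asymm (show σ p < p.1 from hp1) hp2
    · -- mixed case
      have h1 : {p : ℕ × ℕ | g' p.1 = σ p} ∈ tensor b w' := by
        rw [hy]
        filter_upwards [hg'] with m hm
        have h2 : {k | k = g' m} ∈ (y m).map σ := by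
          rw [show (y m).map σ = pure (g' m) from hm, Ultrafilter.mem_pure]
          rfl
        filter_upwards [h2, hyπ m] with p hp1 hp2
        have e1 : σ p = g' m := hp1
        have e2 : p.1 = m := hp2
        change g' p.1 = σ p
        rw [e1, e2]
      rw [hx] at h1
      obtain ⟨n, ⟨hn1, hn2⟩, hn3⟩ := Ultrafilter.nonempty_of_mem
        (Filter.inter_mem (Filter.inter_mem h1 c1) hE)
      refine ha.1.notMem n ?_
      rw [hga, ← show (x n).map Prod.fst = b from hn2]
      change {p : ℕ × ℕ | g' p.1 = n} ∈ x n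
      filter_upwards [hn1, hxσ n hn3] with p hp1 hp2
      have e1 : g' p.1 = σ p := hp1
      have e2 : σ p = n := hp2
      change g' p.1 = n
      rw [e1, e2]
  · rcases ha.limit b _ ha' with d1 | ⟨g', hg', hga⟩
    · exfalso
      -- mixed case
      have h1 : {p : ℕ × ℕ | g (σ p) = p.1} ∈ tensor b w' := by
        rw [hx]
        filter_upwards [hg, hE] with n hn1 hn2
        have h2 : {k | k = g n} ∈ (x n).map Prod.fst := by
          rw [show (x n).map Prod.fst = pure (g n) from hn1, Ultrafilter.mem_pure]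
          rfl
        filter_upwards [h2, hxσ n hn2] with p hp1 hp2
        have e1 : p.1 = g n := hp1
        have e2 : σ p = n := hp2
        change g (σ p) = p.1
        rw [e1, e2]
      rw [hy] at h1
      obtain ⟨m, hm1, hm2⟩ := Ultrafilter.nonempty_of_mem (Filter.inter_mem h1 d1)
      refine hb.1.notMem m ?_
      rw [hgb, ← show (y m).map σ = a from hm2]
      change {p : ℕ × ℕ | g (σ p) = m} ∈ y m
      filter_upwards [hm1, hyπ m] with p hp1 hp2
      have e1 : g (σ p) = p.1 := hp1
      have e2 : p.1 = m := hp2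
      change g (σ p) = m
      rw [e1, e2]
    · refine ⟨⟨⟨g', hga⟩, ⟨g, hgb⟩⟩, ?_⟩
      have hgg : {n | g' (g n) = n} ∈ a := by
        refine fix_mem a (g' ∘ g) ?_
        rw [← Ultrafilter.map_map, ← hgb, ← hga]
      -- almost always `x n = y (g n)`
      have hxy : {n | x n = y (g n)} ∈ a := by
        by_contra hcon
        have hQ := Ultrafilter.compl_mem_iff_notMem.mpr hcon
        have hsep : ∀ n, ∃ E : Set (ℕ × ℕ), x n ≠ y (g n) → E ∈ x n ∧ E ∉ y (g n) := by
          intro n
          by_cases hn : x n = y (g n)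
          · exact ⟨∅, fun h => absurd hn h⟩
          · by_contra hcon2
            push Not at hcon2
            refine hn (Ultrafilter.ext fun A => ?_)
            constructor
            · intro hA
              exact (hcon2 A).2 hA
            · intro hA
              by_contra hA2
              have h1 := Ultrafilter.compl_mem_iff_notMem.mpr hA2
              exact Ultrafilter.compl_mem_iff_notMem.mp ((hcon2 Aᶜ).2 h1) hA
        choose E hE' using hsep
        let U : Set (ℕ × ℕ) := {p | ∃ n, x n ≠ y (g n) ∧ g' (g n) = n ∧ p.1 = g n ∧ p ∈ E n}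
        have hU : U ∈ tensor b w' := by
          rw [hx]
          filter_upwards [hQ, hgg, hg] with n hn1 hn2 hn3
          have h2 : {k | k = g n} ∈ (x n).map Prod.fst := by
            rw [show (x n).map Prod.fst = pure (g n) from hn3, Ultrafilter.mem_pure]
            rfl
          filter_upwards [h2, (hE' n hn1).1] with p hp1 hp2
          exact ⟨n, hn1, hn2, hp1, hp2⟩
        rw [hy, hgb] at hU
        have hU' : {n | U ∈ y (g n)} ∈ a := hU
        obtain ⟨n, ⟨hn1, hn2⟩, hn3⟩ := Ultrafilter.nonempty_of_mem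
          (Filter.inter_mem (Filter.inter_mem hU' hQ) hgg)
        refine (hE' n hn2).2 ?_
        filter_upwards [hn1, hyπ (g n)] with p hp1 hp2
        obtain ⟨n', _, hn'2, hn'3, hn'4⟩ := hp1
        have e2 : p.1 = g n := hp2
        have e3 : n' = n := by
          rw [← hn'2, ← hn'3, e2]
          exact hn3
        rwa [← e3]
      obtain ⟨n, hn1, hn2⟩ := Ultrafilter.nonempty_of_mem (Filter.inter_mem hxy hE)
      have e1 : w.map (fun j => F (n, j)) = w'.map (fun j => (g n, j)) := hn1
      constructor
      · refine ⟨fun j => (G (g n, j)).2, ?_⟩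
        have e2 : w'.map (fun j => (G (g n, j)).2) =
            (w'.map (fun j => (g n, j))).map (fun p => (G p).2) := by
          rw [Ultrafilter.map_map]
          rfl
        rw [e2, ← e1, Ultrafilter.map_map]
        have e3 : w.map ((fun p => (G p).2) ∘ fun j => F (n, j)) = w.map id := by
          refine map_congr ?_
          filter_upwards [hn2] with j hj
          change (G (F (n, j))).2 = j
          rw [show G (F (n, j)) = (n, j) from hj]
        rw [e3, Ultrafilter.map_id]
      · refine ⟨fun j => (F (n, j)).2, ?_⟩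
        have e2 : w.map (fun j => (F (n, j)).2) = (w.map (fun j => F (n, j))).map Prod.snd := by
          rw [Ultrafilter.map_map]
          rfl
        rw [e2, e1, Ultrafilter.map_map]
        have e3 : (Prod.snd ∘ fun j => (g n, j) : ℕ → ℕ) = id := rfl
        rw [e3, Ultrafilter.map_id]

end Pool.Agent.Q212.RK
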