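import Mathlib

/-!
# A second recursion lemma for constructions of length the continuum
-/

open Set Cardinal

namespace Pool.Agent.Q212.Rec2

/-- Transfinite construction of length the continuum. The states are pairs `(G, S)` of a set `G`
that is constructed and a set `S` of used resources; the property `Good` of states is preserved by
unions of chains, and each task can be satisfied by a step which uses countably many
resources. -/
theorem recursion2 {X Y T : Type} (Good : Set X → Set Y → Prop) (Sat : T → Set X → Prop)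
    (hchain : ∀ (W : Type) [LinearOrder W] [Nonempty W] (G : W → Set X) (S : W → Set Y),
      Monotone G → Monotone S → (∀ w, Good (G w) (S w)) → Good (⋃ w, G w) (⋃ w, S w))
    (hmono : ∀ t B B', B ⊆ B' → Sat t B → Sat t B')
    (hT : #T ≤ Cardinal.continuum)
    (hstep : ∀ t G S, Good G S → #S < Cardinal.continuum → ∃ (D : Set X) (E : Set Y),
      E.Countable ∧ Good (G ∪ D) (S ∪ E) ∧ Sat t (G ∪ D))
    (G0 : Set X) (h0 : Good G0 ∅) : ∃ G S, G0 ⊆ G ∧ Good G S ∧ ∀ t, Sat t G := by
  classical
  rcases isEmpty_or_nonempty T with hE | hne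
  · exact ⟨G0, ∅, subset_rfl, h0, fun t => hE.elim t⟩
  let W := (Cardinal.continuum.{0}).ord.ToType
  obtain ⟨τ, hτ⟩ : ∃ τ : W → T, Function.Surjective τ := by
    have h1 : #T ≤ #W := by rw [mk_ord_toType]; exact hT
    obtain ⟨g⟩ := h1
    exact ⟨Function.invFun g, Function.invFun_surjective g.injective⟩
  have hWne : Nonempty W := by
    rw [← mk_ne_zero_iff, mk_ord_toType]
    exact continuum_ne_zero
  let GU : (w : W) → ((w' : W) → w' < w → Set X × Set Y) → Set X := fun w prev =>
    G0 ∪ ⋃ w', ⋃ (hw : w' < w), (prev w' hw).1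
  let SU : (w : W) → ((w' : W) → w' < w → Set X × Set Y) → Set Y := fun w prev =>
    ⋃ w', ⋃ (hw : w' < w), (prev w' hw).2
  let step : (w : W) → ((w' : W) → w' < w → Set X × Set Y) → Set X × Set Y := fun w prev =>
    if h : ∃ d : Set X × Set Y, d.2.Countable ∧ Good (GU w prev ∪ d.1) (SU w prev ∪ d.2) ∧
      Sat (τ w) (GU w prev ∪ d.1) then h.choose else (∅, ∅)
  let D : W → Set X × Set Y := (wellFounded_lt (α := W)).fix step
  let U : W → Set X := fun w => G0 ∪ ⋃ w', ⋃ (_ : w' < w), (D w').1
  let V : W → Set Y := fun w => ⋃ w', ⋃ (_ : w' < w), (D w').2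
  have hD : ∀ w, D w = if h : ∃ d : Set X × Set Y, d.2.Countable ∧
      Good (U w ∪ d.1) (V w ∪ d.2) ∧ Sat (τ w) (U w ∪ d.1) then h.choose else (∅, ∅) := by
    intro w
    exact (wellFounded_lt (α := W)).fix_eq step w
  have hDc : ∀ w, (D w).2.Countable := by
    intro w
    rw [hD]
    split_ifs with h
    · exact h.choose_spec.1
    · exact countable_empty
  have hVcard : ∀ w, #(V w) < Cardinal.continuum := by
    intro w
    have h1 : V w = ⋃ w' : Iio w, (D w').2 := by
      ext x
      simp only [V, mem_iUnion, Subtype.exists, mem_Iio]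
    rw [h1]
    have h2 : #(Iio w) < Cardinal.continuum := Cardinal.mk_Iio_toType_ord_lt w
    refine (mk_iUnion_le _).trans_lt ?_
    refine (mul_le_mul_right (c := ℵ₀) ?_ _).trans_lt
      (mul_lt_of_lt aleph0_le_continuum h2 aleph0_lt_continuum)
    exact ciSup_le' fun i => Cardinal.le_aleph0_iff_set_countable.mpr (hDc i)
  have hUmono : Monotone U := by
    intro w w' hww x hx
    rcases hx with hx | hx
    · exact Or.inl hx
    · right
      simp only [mem_iUnion] at hx ⊢
      obtain ⟨i, hi, hx⟩ := hx
      exact ⟨i, lt_of_lt_of_le hi hww, hx⟩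
  have hVmono : Monotone V := by
    intro w w' hww x hx
    simp only [V, mem_iUnion] at hx ⊢
    obtain ⟨i, hi, hx⟩ := hx
    exact ⟨i, lt_of_lt_of_le hi hww, hx⟩
  have hUD : ∀ w w', w < w' → U w ∪ (D w).1 ⊆ U w' := by
    intro w w' hww
    refine union_subset (hUmono hww.le) fun x hx => Or.inr ?_
    simp only [mem_iUnion]
    exact ⟨w, hww, hx⟩
  have hVD : ∀ w w', w < w' → V w ∪ (D w).2 ⊆ V w' := by
    intro w w' hww
    refine union_subset (hVmono hww.le) fun x hx => ?_
    simp only [V, mem_iUnion]
    exact ⟨w, hww, hx⟩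
  have hgoodD : ∀ w, Good (U w) (V w) →
      Good (U w ∪ (D w).1) (V w ∪ (D w).2) ∧ Sat (τ w) (U w ∪ (D w).1) := by
    intro w hw
    obtain ⟨d, e, h1, h2, h3⟩ := hstep (τ w) (U w) (V w) hw (hVcard w)
    have hex : ∃ d : Set X × Set Y, d.2.Countable ∧
      Good (U w ∪ d.1) (V w ∪ d.2) ∧ Sat (τ w) (U w ∪ d.1) := ⟨(d, e), h1, h2, h3⟩
    rw [hD, dif_pos hex]
    exact hex.choose_spec.2
  have hgood : ∀ w, Good (U w) (V w) := by
    intro w
    induction w using (wellFounded_lt (α := W)).induction with
    | _ w ih =>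
      rcases isEmpty_or_nonempty (Iio w) with hem | hnem
      · have h1 : U w = G0 := by
          ext x
          simp only [U, mem_union, mem_iUnion]
          refine ⟨?_, Or.inl⟩
          rintro (h | ⟨i, hi, -⟩)
          · exact h
          · exact (hem.false ⟨i, hi⟩).elim
        have h2 : V w = ∅ := by
          ext x
          simp only [V, mem_iUnion, mem_empty_iff_false, iff_false, not_exists]
          intro i hi _
          exact hem.false ⟨i, hi⟩
        rw [h1, h2]
        exact h0
      · have h1 : U w = ⋃ w' : Iio w, (U w' ∪ (D w').1) := by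
          ext x
          constructor
          · rintro (hx | hx)
            · obtain ⟨i⟩ := hnem
              exact mem_iUnion.mpr ⟨i, Or.inl (Or.inl hx)⟩
            · simp only [mem_iUnion] at hx
              obtain ⟨i, hi, hx⟩ := hx
              exact mem_iUnion.mpr ⟨⟨i, hi⟩, Or.inr hx⟩
          · intro hx
            obtain ⟨⟨i, hi⟩, hx⟩ := mem_iUnion.mp hx
            exact hUD i w hi hx
        have h2 : V w = ⋃ w' : Iio w, (V w' ∪ (D w').2) := by
          ext x
          constructor
          · intro hx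
            simp only [V, mem_iUnion] at hx
            obtain ⟨i, hi, hx⟩ := hx
            exact mem_iUnion.mpr ⟨⟨i, hi⟩, Or.inr hx⟩
          · intro hx
            obtain ⟨⟨i, hi⟩, hx⟩ := mem_iUnion.mp hx
            exact hVD i w hi hx
        rw [h1, h2]
        refine hchain (Iio w) _ _ ?_ ?_ fun w' => (hgoodD w'.1 (ih w'.1 w'.2)).1
        · intro a b hab
          rcases hab.eq_or_lt with rfl | hab
          · exact le_rfl
          · exact (hUD _ _ hab).trans subset_union_left
        · intro a b hab
          rcases hab.eq_or_lt with rfl | hab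
          · exact le_rfl
          · exact (hVD _ _ hab).trans subset_union_left
  refine ⟨⋃ w, (U w ∪ (D w).1), ⋃ w, (V w ∪ (D w).2), ?_, ?_, ?_⟩
  · obtain ⟨w⟩ := hWne
    exact fun x hx => mem_iUnion.mpr ⟨w, Or.inl (Or.inl hx)⟩
  · refine hchain W _ _ ?_ ?_ fun w => (hgoodD w (hgood w)).1
    · intro a b hab
      rcases hab.eq_or_lt with rfl | hab
      · exact le_rfl
      · exact (hUD _ _ hab).trans subset_union_left
    · intro a b hab
      rcases hab.eq_or_lt with rfl | hab
      · exact le_rfl
      · exact (hVD _ _ hab).trans subset_union_left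
  · intro t
    obtain ⟨w, rfl⟩ := hτ t
    refine hmono _ _ _ ?_ (hgoodD w (hgood w)).2
    exact fun x hx => mem_iUnion.mpr ⟨w, hx⟩

end Pool.Agent.Q212.Rec2
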