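import Mathlib
import Pool.Agent.Q212.RK
import Pool.Agent.Q212.Rec2

/-!
# Kunen's theorem: weak P-points exist in ZFC

For every family of at most continuum many non-principal ultrafilters `t i` on `ℕ` there are weak
P-points `u i` which are above `t i` in the Rudin-Keisler order and pairwise incomparable.
-/

open Set Cardinal

namespace Pool.Agent.Q212.Kunen

open Pool.Agent.Q212.RK (NonPrincipal WeakPPoint LE)

/-! ## The independent linked family -/

/-- The trace of a set below `k`. -/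
noncomputable def tr (X : Set ℕ) (k : ℕ) : Finset ℕ :=
  @Finset.filter ℕ (fun n => n ∈ X) (Classical.decPred _) (Finset.range k)

/-- The countable set on which the family is defined. -/
abbrev Om := ℕ × Finset (Finset ℕ × Finset ℕ)

/-- The sets of the family. -/
def AA (n : ℕ) (X Y : Set ℕ) : Set Om :=
  {p | (∀ q ∈ p.2, q.1 ⊆ Finset.range p.1 ∧ q.2 ⊆ Finset.range p.1) ∧
    (p.2.filter (fun q => q.1 = tr X p.1)).card ≤ n ∧ (tr X p.1, tr Y p.1) ∈ p.2}

theorem tr_subset (X : Set ℕ) (k : ℕ) : tr X k ⊆ Finset.range k :=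
  @Finset.filter_subset _ _ (Classical.decPred _) _

theorem tr_inj (X Y : Set ℕ) : ∃ K, ∀ k ≥ K, tr X k = tr Y k → X = Y := by
  classical
  by_cases h : X = Y
  · exact ⟨0, fun _ _ _ => h⟩
  · have h1 : ∃ n, ¬ (n ∈ X ↔ n ∈ Y) := by
      by_contra hcon
      push Not at hcon
      exact h (Set.ext hcon)
    obtain ⟨n, hn⟩ := h1
    refine ⟨n + 1, fun k hk he => ?_⟩
    exfalso
    apply hn
    have h2 : n ∈ tr X k ↔ n ∈ tr Y k := by rw [he]
    unfold tr at h2
    simp only [Finset.mem_filter, Finset.mem_range] at h2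
    have h3 : n < k := by omega
    tauto

theorem tr_inj_finset (τ : Finset (Set ℕ)) :
    ∃ K, ∀ k ≥ K, ∀ X ∈ τ, ∀ Y ∈ τ, tr X k = tr Y k → X = Y := by
  choose d hd using tr_inj
  refine ⟨(τ ×ˢ τ).sup (fun p => d p.1 p.2), fun k hk X hX Y hY h => hd X Y k ?_ h⟩
  refine le_trans ?_ hk
  exact Finset.le_sup (f := fun p : Set ℕ × Set ℕ => d p.1 p.2)
    (Finset.mk_mem_product hX hY)

theorem AA_mono {n m : ℕ} (h : n ≤ m) (X Y : Set ℕ) : AA n X Y ⊆ AA m X Y :=
  fun _ hp => ⟨hp.1, hp.2.1.trans h, hp.2.2⟩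

theorem AA_fin (n : ℕ) (X : Set ℕ) (σ : Finset (Set ℕ)) (h : n < σ.card) :
    (⋂ Y ∈ σ, AA n X Y).Finite := by
  classical
  obtain ⟨K, hK⟩ := tr_inj_finset σ
  refine ((Finset.range K ×ˢ
    ((Finset.range K).powerset ×ˢ (Finset.range K).powerset).powerset).finite_toSet).subset ?_
  intro p hp
  rw [mem_iInter₂] at hp
  have hne : σ.Nonempty := by
    rw [← Finset.card_pos]
    omega
  obtain ⟨Y, hY⟩ := hne
  have h1 := hp Y hY
  have h2 : p.1 < K := by
    by_contra hcon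
    push Not at hcon
    have h3 : (σ.image (fun Y => (tr X p.1, tr Y p.1))).card = σ.card := by
      refine Finset.card_image_of_injOn fun Y hY Y' hY' he => ?_
      exact hK p.1 hcon Y hY Y' hY' (Prod.ext_iff.mp he).2
    have h4 : σ.image (fun Y => (tr X p.1, tr Y p.1)) ⊆ p.2.filter (fun q => q.1 = tr X p.1) := by
      intro q hq
      obtain ⟨Y, hY, rfl⟩ := Finset.mem_image.mp hq
      exact Finset.mem_filter.mpr ⟨(hp Y hY).2.2, rfl⟩
    have h5 := Finset.card_le_card h4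
    have h6 := h1.2.1
    omega
  refine Finset.mem_coe.mpr (Finset.mem_product.mpr ⟨Finset.mem_range.mpr h2, ?_⟩)
  rw [Finset.mem_powerset]
  intro q hq
  have h3 := h1.1 q hq
  have h4 : Finset.range p.1 ⊆ Finset.range K := Finset.range_subset_range.mpr h2.le
  exact Finset.mem_product.mpr ⟨Finset.mem_powerset.mpr (h3.1.trans h4),
    Finset.mem_powerset.mpr (h3.2.trans h4)⟩

theorem AA_inf (T : Set ℕ) (hT : T.Infinite) (τ : Finset (Set ℕ))
    (σ : Set ℕ → Finset (Set ℕ)) :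
    {p : Om | p.1 ∈ T ∧ ∀ X ∈ τ, ∀ Y ∈ σ X, p ∈ AA (σ X).card X Y}.Infinite := by
  classical
  obtain ⟨K, hK⟩ := tr_inj_finset τ
  let R : ℕ → Finset (Finset ℕ × Finset ℕ) := fun k =>
    τ.biUnion (fun X => (σ X).image (fun Y => (tr X k, tr Y k)))
  have h1 : (T \ Iio K).Infinite := hT.sdiff (finite_Iio K)
  refine (h1.image (f := fun k => ((k, R k) : Om)) ?_).mono ?_
  · intro a _ b _ hab
    exact (Prod.ext_iff.mp hab).1
  · rintro _ ⟨k, ⟨hkT, hkK⟩, rfl⟩
    rw [mem_Iio, not_lt] at hkK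
    refine ⟨hkT, fun X hX Y hY => ⟨?_, ?_, ?_⟩⟩
    · intro q hq
      obtain ⟨X', _, hq⟩ := Finset.mem_biUnion.mp hq
      obtain ⟨Y', _, rfl⟩ := Finset.mem_image.mp hq
      exact ⟨tr_subset _ _, tr_subset _ _⟩
    · refine (Finset.card_le_card (t := (σ X).image (fun Y => (tr X k, tr Y k))) ?_).trans
        Finset.card_image_le
      intro q hq
      obtain ⟨hq1, hq2⟩ := Finset.mem_filter.mp hq
      obtain ⟨X', hX', hq⟩ := Finset.mem_biUnion.mp hq1
      obtain ⟨Y', hY', rfl⟩ := Finset.mem_image.mp hq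
      have : X' = X := hK k hkK X' hX' X hX hq2
      subst this
      exact Finset.mem_image.mpr ⟨Y', hY', rfl⟩
    · exact Finset.mem_biUnion.mpr ⟨X, hX, Finset.mem_image.mpr ⟨Y, hY, rfl⟩⟩

/-- The sets `⋂_{X ∈ τ} ⋂_{Y ∈ σ X} A (σ X).card X Y`. -/
def CC (A : ℕ → Set ℕ → Set ℕ → Set ℕ) (τ : Finset (Set ℕ)) (σ : Set ℕ → Finset (Set ℕ)) :
    Set ℕ := {x | ∀ X ∈ τ, ∀ Y ∈ σ X, x ∈ A (σ X).card X Y}

/-- An independent linked family. -/
structure Fam (A : ℕ → Set ℕ → Set ℕ → Set ℕ) (g : ℕ → ℕ) : Prop where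
  mono : ∀ X Y n m, n ≤ m → A n X Y ⊆ A m X Y
  fin : ∀ n X (σ : Finset (Set ℕ)), n < σ.card → (⋂ Y ∈ σ, A n X Y).Finite
  inf : ∀ T : Set ℕ, T.Infinite → ∀ (τ : Finset (Set ℕ)) (σ : Set ℕ → Finset (Set ℕ)),
    (g ⁻¹' T ∩ CC A τ σ).Infinite

theorem exists_fam : ∃ A g, Fam A g := by
  obtain ⟨e⟩ : Nonempty (Om ≃ ℕ) := by
    have : Infinite Om := inferInstance
    have : Countable Om := inferInstance
    exact nonempty_equiv_of_countable
  refine ⟨fun n X Y => e.symm ⁻¹' AA n X Y, fun k => (e.symm k).1, ?_, ?_, ?_⟩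
  · intro X Y n m h x hx
    exact AA_mono h X Y hx
  · intro n X σ h
    have h1 := (AA_fin n X σ h).image e
    refine h1.subset fun x hx => ⟨e.symm x, ?_, e.apply_symm_apply x⟩
    rw [mem_iInter₂] at hx ⊢
    exact hx
  · intro T hT τ σ
    have h1 := (AA_inf T hT τ σ).image e.injective.injOn
    refine h1.mono ?_
    rintro _ ⟨p, ⟨hp1, hp2⟩, rfl⟩
    refine ⟨?_, fun X hX Y hY => ?_⟩
    · simp only [mem_preimage, Equiv.symm_apply_apply]
      exact hp1
    · simp only [mem_preimage, Equiv.symm_apply_apply]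
      exact hp2 X hX Y hY

/-! ## Good states -/

variable {ι : Type} {A : ℕ → Set ℕ → Set ℕ → Set ℕ} {g : ℕ → ℕ}

/-- The generators at the coordinate `i`. -/
def Gen (G : Set (ι × Set ℕ)) (i : ι) : Filter ℕ := Filter.generate {V | (i, V) ∈ G}

/-- A good state. -/
def Good (A : ℕ → Set ℕ → Set ℕ → Set ℕ) (G : Set (ι × Set ℕ)) (S : Set (Set ℕ)) : Prop :=
  ∀ i, ∀ B ∈ Gen G i, ∀ τ : Finset (Set ℕ), (∀ X ∈ τ, X ∉ S) → ∀ σ,
    (B ∩ CC A τ σ).Infinite

theorem gen_mono {G G' : Set (ι × Set ℕ)} (h : G ⊆ G') (i : ι) {B : Set ℕ} (hB : B ∈ Gen G i) :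
    B ∈ Gen G' i := by
  unfold Gen at *
  rw [Filter.mem_generate_iff] at *
  obtain ⟨T, hT, hT2, hT3⟩ := hB
  exact ⟨T, fun V hV => h (hT hV), hT2, hT3⟩

theorem gen_union_other {G : Set (ι × Set ℕ)} {i j : ι} (hij : i ≠ j) (𝒟 : Set (Set ℕ)) :
    Gen (G ∪ {p | p.1 = i ∧ p.2 ∈ 𝒟}) j = Gen G j := by
  unfold Gen
  congr 1
  ext V
  simp only [mem_union, Set.mem_ofPred_eq]
  constructor
  · rintro (h | ⟨h, _⟩)
    · exact h
    · exact absurd h.symm hij
  · exact Or.inl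

theorem gen_union_same {G : Set (ι × Set ℕ)} {i : ι} (𝒟 : Set (Set ℕ)) :
    Gen (G ∪ {p | p.1 = i ∧ p.2 ∈ 𝒟}) i = Gen G i ⊓ Filter.generate 𝒟 := by
  unfold Gen
  rw [← Filter.generate_union]
  congr 1
  ext V
  simp only [mem_union, Set.mem_ofPred_eq, true_and]

/-- Goodness when generators are added at one coordinate. -/
theorem good_add {G : Set (ι × Set ℕ)} {S S' : Set (Set ℕ)} (hG : Good A G S) (hS : S ⊆ S')
    (i : ι) (𝒟 : Set (Set ℕ))
    (h : ∀ B ∈ Gen G i, ∀ D ∈ Filter.generate 𝒟, ∀ τ : Finset (Set ℕ), (∀ X ∈ τ, X ∉ S') →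
      ∀ σ, (B ∩ D ∩ CC A τ σ).Infinite) :
    Good A (G ∪ {p | p.1 = i ∧ p.2 ∈ 𝒟}) S' := by
  intro j B hB τ hτ σ
  by_cases hij : i = j
  · subst hij
    rw [gen_union_same, Filter.mem_inf_iff] at hB
    obtain ⟨B1, hB1, D, hD, rfl⟩ := hB
    exact h B1 hB1 D hD τ hτ σ
  · rw [gen_union_other hij] at hB
    exact hG j B hB τ (fun X hX hXS => hτ X hX (hS hXS)) σ

theorem good_of_not {G : Set (ι × Set ℕ)} {S : Set (Set ℕ)} (hG : Good A G S)
    (i : ι) {B0 U : Set ℕ} (hB0 : B0 ∈ Gen G i) (τ : Finset (Set ℕ)) (hτ : ∀ X ∈ τ, X ∉ S)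
    (σ : Set ℕ → Finset (Set ℕ)) (h : ¬ (B0 ∩ U ∩ CC A τ σ).Infinite) :
    Good A (G ∪ {p | p.1 = i ∧ p.2 ∈ ({Uᶜ} : Set (Set ℕ))}) (S ∪ τ) := by
  classical
  refine good_add hG subset_union_left i {Uᶜ} fun B hB D hD τ' hτ' σ' => ?_
  rw [Filter.generate_singleton, Filter.mem_principal] at hD
  -- join the two functions
  let σ'' : Set ℕ → Finset (Set ℕ) := fun X => if X ∈ τ then σ X else σ' X
  have h1 := hG i (B ∩ B0) (Filter.inter_mem hB hB0) (τ ∪ τ') (by
    intro X hX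
    rcases Finset.mem_union.mp hX with hX | hX
    · exact hτ X hX
    · exact fun hXS => hτ' X hX (Or.inl hXS)) σ''
  have h2 : (B ∩ B0 ∩ CC A (τ ∪ τ') σ'') ∩ U ⊆ B0 ∩ U ∩ CC A τ σ := by
    rintro x ⟨⟨⟨_, hx1⟩, hx2⟩, hx3⟩
    refine ⟨⟨hx1, hx3⟩, fun X hX Y hY => ?_⟩
    have h3 := hx2 X (Finset.mem_union_left _ hX)
    simp only [σ'', if_pos hX] at h3
    exact h3 Y hY
  have h4 : ((B ∩ B0 ∩ CC A (τ ∪ τ') σ'') \ U).Infinite := by
    intro hfin
    refine h1 ?_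
    have h5 : ((B ∩ B0 ∩ CC A (τ ∪ τ') σ'') ∩ U).Finite := (not_infinite.mp h).subset h2
    rw [← inter_union_sdiff (B ∩ B0 ∩ CC A (τ ∪ τ') σ'') U]
    exact h5.union hfin
  refine h4.mono ?_
  rintro x ⟨⟨⟨hx1, _⟩, hx2⟩, hx3⟩
  refine ⟨⟨hx1, hD hx3⟩, fun X hX Y hY => ?_⟩
  have h3 := hx2 X (Finset.mem_union_right _ hX)
  have h6 : X ∉ τ := fun hXτ => hτ' X hX (Or.inr hXτ)
  simp only [σ'', if_neg h6] at h3
  exact h3 Y hY

theorem good_chain (W : Type) [LinearOrder W] [Nonempty W] (G : W → Set (ι × Set ℕ))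
    (S : W → Set (Set ℕ)) (hG : Monotone G) (h : ∀ w, Good A (G w) (S w)) :
    Good A (⋃ w, G w) (⋃ w, S w) := by
  intro i B hB τ hτ σ
  unfold Gen at hB
  rw [Filter.mem_generate_iff] at hB
  obtain ⟨T, hT, hT2, hT3⟩ := hB
  have h1 : ∃ w, ∀ V ∈ T, (i, V) ∈ G w := by
    clear hT3
    induction T, hT2 using Set.Finite.induction_on with
    | empty =>
      obtain ⟨w⟩ := ‹Nonempty W›
      exact ⟨w, fun V hV => absurd hV (notMem_empty V)⟩
    | @insert a T _ _ ih =>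
      obtain ⟨w, hw⟩ := ih (fun V hV => hT (mem_insert_of_mem _ hV))
      obtain ⟨w', hw'⟩ := mem_iUnion.mp (hT (mem_insert _ _))
      refine ⟨max w w', ?_⟩
      rintro V (rfl | hV)
      · exact hG (le_max_right w w') hw'
      · exact hG (le_max_left w w') (hw V hV)
  obtain ⟨w, hw⟩ := h1
  refine h w i B ?_ τ (fun X hX hXS => hτ X hX (mem_iUnion.mpr ⟨w, hXS⟩)) σ
  unfold Gen
  rw [Filter.mem_generate_iff]
  exact ⟨T, hw, hT2, hT3⟩

/-! ## The tasks -/

/-- The tasks. -/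
abbrev Task (ι : Type) := (ι × (ℕ → Set ℕ)) ⊕ (ι × ι × (ℕ → ℕ))

/-- The task is satisfied. -/
def Sat : Task ι → Set (ι × Set ℕ) → Prop
  | Sum.inl (i, U), G => Antitone U → (∃ n, (i, (U n)ᶜ) ∈ G) ∨
      ∃ V : Set ℕ → Set ℕ, (∀ β, (i, V β) ∈ G) ∧
        ∀ (σ : Finset (Set ℕ)) n, n < σ.card → ((⋂ β ∈ σ, V β) \ U n).Finite
  | Sum.inr (i, j, f), G => i ≠ j → ∃ B : Set ℕ, (i, f ⁻¹' B) ∈ G ∧ (j, Bᶜ) ∈ G

theorem exists_new {S : Set (Set ℕ)} (hS : #S < Cardinal.continuum) : ∃ α : Set ℕ, α ∉ S := by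
  by_contra hcon
  push Not at hcon
  have h1 : S = Set.univ := Set.eq_univ_of_forall hcon
  rw [h1, mk_univ, mk_set, mk_nat, two_power_aleph0] at hS
  exact lt_irrefl _ hS

theorem generate_range_antitone {U : ℕ → Set ℕ} (hU : Antitone U) {D : Set ℕ}
    (hD : D ∈ Filter.generate (range U)) : ∃ N, U N ⊆ D := by
  rw [Filter.mem_generate_iff] at hD
  obtain ⟨T, hT, hT2, hT3⟩ := hD
  have h1 : ∃ N, ∀ V ∈ T, U N ⊆ V := by
    clear hT3
    induction T, hT2 using Set.Finite.induction_on with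
    | empty => exact ⟨0, fun V hV => absurd hV (notMem_empty V)⟩
    | @insert a T _ _ ih =>
      obtain ⟨N, hN⟩ := ih (fun V hV => hT (mem_insert_of_mem _ hV))
      obtain ⟨M, hM⟩ := hT (mem_insert _ _)
      refine ⟨max N M, ?_⟩
      rintro V (rfl | hV)
      · rw [← hM]
        exact hU (le_max_right N M)
      · exact (hU (le_max_left N M)).trans (hN V hV)
  obtain ⟨N, hN⟩ := h1
  exact ⟨N, (subset_sInter hN).trans hT3⟩

theorem generate_range {J : Type} {V : J → Set ℕ} {D : Set ℕ}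
    (hD : D ∈ Filter.generate (range V)) : ∃ ρ : Finset J, ⋂ β ∈ ρ, V β ⊆ D := by
  classical
  rw [Filter.mem_generate_iff] at hD
  obtain ⟨T, hT, hT2, hT3⟩ := hD
  have h1 : ∃ ρ : Finset J, ∀ E ∈ T, ⋂ β ∈ ρ, V β ⊆ E := by
    clear hT3
    induction T, hT2 using Set.Finite.induction_on with
    | empty => exact ⟨∅, fun V hV => absurd hV (notMem_empty V)⟩
    | @insert a T _ _ ih =>
      obtain ⟨N, hN⟩ := ih (fun V hV => hT (mem_insert_of_mem _ hV))
      obtain ⟨M, hM⟩ := hT (mem_insert _ _)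
      refine ⟨insert M N, ?_⟩
      rintro E (rfl | hE)
      · intro x hx
        rw [mem_iInter₂] at hx
        rw [← hM]
        exact hx M (Finset.mem_insert_self _ _)
      · intro x hx
        refine hN E hE ?_
        rw [mem_iInter₂] at hx ⊢
        exact fun β hβ => hx β (Finset.mem_insert_of_mem hβ)
  obtain ⟨ρ, hρ⟩ := h1
  exact ⟨ρ, (subset_sInter hρ).trans hT3⟩

theorem step_one (hF : Fam A g) {G : Set (ι × Set ℕ)} {S : Set (Set ℕ)} (hG : Good A G S)
    (hS : #S < Cardinal.continuum) (i : ι) {U : ℕ → Set ℕ} (hU : Antitone U) :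
    ∃ (D : Set (ι × Set ℕ)) (E : Set (Set ℕ)), E.Countable ∧ Good A (G ∪ D) (S ∪ E) ∧
      ((∃ n, (i, (U n)ᶜ) ∈ G ∪ D) ∨
      ∃ V : Set ℕ → Set ℕ, (∀ β, (i, V β) ∈ G ∪ D) ∧
        ∀ (σ : Finset (Set ℕ)) n, n < σ.card → ((⋂ β ∈ σ, V β) \ U n).Finite) := by
  classical
  by_cases hcase : ∀ n, ∀ B ∈ Gen G i, ∀ τ : Finset (Set ℕ), (∀ X ∈ τ, X ∉ S) → ∀ σ,
    (B ∩ U n ∩ CC A τ σ).Infinite
  · obtain ⟨α, hα⟩ := exists_new hS
    let V : Set ℕ → Set ℕ := fun β => {x | (∀ n, x ∈ U n) ∨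
      ∃ n, x ∉ U n ∧ (∀ m < n, x ∈ U m) ∧ x ∈ A n α β}
    refine ⟨{p | p.1 = i ∧ p.2 ∈ range V}, {α}, countable_singleton _, ?_,
      Or.inr ⟨V, fun β => Or.inr ⟨rfl, ⟨β, rfl⟩⟩, ?_⟩⟩
    · refine good_add hG subset_union_left i (range V) fun B hB D hD τ hτ σ => ?_
      obtain ⟨ρ, hρ⟩ := generate_range hD
      let σ' : Set ℕ → Finset (Set ℕ) := fun X => if X = α then ρ else σ X
      have h1 := hcase ρ.card B hB (insert α τ) (by
        intro X hX
        rcases Finset.mem_insert.mp hX with rfl | hX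
        · exact hα
        · exact fun hXS => hτ X hX (Or.inl hXS)) σ'
      refine h1.mono ?_
      rintro x ⟨⟨hx1, hx2⟩, hx3⟩
      refine ⟨⟨hx1, hρ ?_⟩, fun X hX Y hY => ?_⟩
      · rw [mem_iInter₂]
        intro β hβ
        by_cases hall : ∀ n, x ∈ U n
        · exact Or.inl hall
        · right
          push Not at hall
          refine ⟨Nat.find hall, Nat.find_spec hall, fun m hm => ?_, ?_⟩
          · exact not_not.mp (Nat.find_min hall hm)
          · have h2 := hx3 α (Finset.mem_insert_self _ _)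
            simp only [σ', if_true] at h2
            refine hF.mono α β ρ.card _ ?_ (h2 β hβ)
            by_contra hcon
            push Not at hcon
            exact Nat.find_spec hall (hU hcon.le hx2)
      · have h2 := hx3 X (Finset.mem_insert_of_mem hX)
        have h3 : X ≠ α := fun he => hτ X hX (Or.inr he)
        simp only [σ', if_neg h3] at h2
        exact h2 Y hY
    · intro σ n hn
      refine (hF.fin n α σ hn).subset ?_
      rintro x ⟨hx1, hx2⟩
      rw [mem_iInter₂] at hx1 ⊢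
      intro β hβ
      rcases hx1 β hβ with h | ⟨m, hm1, hm2, hm3⟩
      · exact absurd (h n) hx2
      · refine hF.mono α β m n ?_ hm3
        by_contra hcon
        push Not at hcon
        exact hx2 (hm2 n hcon)
  · push Not at hcase
    obtain ⟨n, B, hB, τ, hτ, σ, hfin⟩ := hcase
    refine ⟨{p | p.1 = i ∧ p.2 ∈ ({(U n)ᶜ} : Set (Set ℕ))}, τ, τ.countable_toSet, ?_,
      Or.inl ⟨n, Or.inr ⟨rfl, rfl⟩⟩⟩
    exact good_of_not hG i hB τ hτ σ (not_infinite.mpr hfin)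

theorem step_two (hF : Fam A g) {G : Set (ι × Set ℕ)} {S : Set (Set ℕ)} (hG : Good A G S)
    (hS : #S < Cardinal.continuum) {i j : ι} (hij : i ≠ j) (f : ℕ → ℕ) :
    ∃ (D : Set (ι × Set ℕ)) (E : Set (Set ℕ)), E.Countable ∧ Good A (G ∪ D) (S ∪ E) ∧
      ∃ B : Set ℕ, (i, f ⁻¹' B) ∈ G ∪ D ∧ (j, Bᶜ) ∈ G ∪ D := by
  classical
  obtain ⟨α, hα⟩ := exists_new hS
  -- adding at `j` a set which almost contains `A 1 α β`
  have hadd : ∀ (β : Set ℕ) (C : Set ℕ), (A 1 α β \ C).Finite →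
      ∀ (G' : Set (ι × Set ℕ)) (S' : Set (Set ℕ)), Good A G' S' → α ∉ S' →
      Good A (G' ∪ {p | p.1 = j ∧ p.2 ∈ ({C} : Set (Set ℕ))}) (S' ∪ {α}) := by
    intro β C hC G' S' hG' hα'
    refine good_add hG' subset_union_left j {C} fun B hB D hD τ hτ σ => ?_
    rw [Filter.generate_singleton, Filter.mem_principal] at hD
    let σ' : Set ℕ → Finset (Set ℕ) := fun X => if X = α then {β} else σ X
    have h1 := hG' j B hB (insert α τ) (by
      intro X hX
      rcases Finset.mem_insert.mp hX with rfl | hX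
      · exact hα'
      · exact fun hXS => hτ X hX (Or.inl hXS)) σ'
    refine (h1.sdiff hC).mono ?_
    rintro x ⟨⟨hx1, hx2⟩, hx3⟩
    have h2 := hx2 α (Finset.mem_insert_self _ _)
    simp only [σ', if_true, Finset.card_singleton] at h2
    have h3 := h2 β (Finset.mem_singleton_self _)
    refine ⟨⟨hx1, hD ?_⟩, fun X hX Y hY => ?_⟩
    · by_contra hcon
      exact hx3 ⟨h3, hcon⟩
    · have h2 := hx2 X (Finset.mem_insert_of_mem hX)
      have h3 : X ≠ α := fun he => hτ X hX (Or.inr he)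
      simp only [σ', if_neg h3] at h2
      exact h2 Y hY
  let B : Set ℕ := A 1 α ∅
  have hBfin : (A 1 α Set.univ \ Bᶜ).Finite := by
    have hne : (∅ : Set ℕ) ≠ Set.univ := (Set.empty_ne_univ)
    refine (hF.fin 1 α {∅, Set.univ} (by rw [Finset.card_pair hne]; norm_num)).subset ?_
    rintro x ⟨hx1, hx2⟩
    rw [mem_iInter₂]
    intro Y hY
    rcases Finset.mem_insert.mp hY with rfl | hY
    · exact not_not.mp hx2
    · rw [Finset.mem_singleton.mp hY]
      exact hx1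
  have hgen : ∀ 𝒟, Gen (G ∪ {p | p.1 = j ∧ p.2 ∈ 𝒟}) i = Gen G i :=
    fun 𝒟 => gen_union_other (Ne.symm hij) 𝒟
  by_cases hcase : ∀ B' ∈ Gen G i, ∀ τ : Finset (Set ℕ), (∀ X ∈ τ, X ∉ S ∪ {α}) → ∀ σ,
    (B' ∩ f ⁻¹' B ∩ CC A τ σ).Infinite
  · have h2 := hadd Set.univ Bᶜ hBfin _ _ hG hα
    have h1 : Good A (G ∪ {p | p.1 = j ∧ p.2 ∈ ({Bᶜ} : Set (Set ℕ))} ∪
        {p | p.1 = i ∧ p.2 ∈ ({f ⁻¹' B} : Set (Set ℕ))}) (S ∪ {α}) := by
      refine good_add h2 subset_rfl i _ fun B' hB' D hD τ hτ σ => ?_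
      rw [hgen] at hB'
      rw [Filter.generate_singleton, Filter.mem_principal] at hD
      refine (hcase B' hB' τ hτ σ).mono ?_
      rintro x ⟨⟨hx1, hx2⟩, hx3⟩
      exact ⟨⟨hx1, hD hx2⟩, hx3⟩
    rw [union_assoc] at h1
    exact ⟨_, {α}, countable_singleton _, h1, B, Or.inr (Or.inr ⟨rfl, rfl⟩),
      Or.inr (Or.inl ⟨rfl, rfl⟩)⟩
  · push Not at hcase
    obtain ⟨B', hB', τ, hτ, σ, hfin⟩ := hcase
    have h2 := hadd ∅ B (by simp [B]) _ _ hG hα
    rw [← hgen ({B} : Set (Set ℕ))] at hB'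
    have h1 := good_of_not h2 i hB' τ hτ σ (not_infinite.mpr hfin)
    rw [union_assoc, union_assoc] at h1
    refine ⟨_, _, (countable_singleton α).union τ.countable_toSet, h1, Bᶜ, ?_, ?_⟩
    · exact Or.inr (Or.inr ⟨rfl, rfl⟩)
    · rw [compl_compl]
      exact Or.inr (Or.inl ⟨rfl, rfl⟩)

theorem good_start (hF : Fam A g) (t : ι → Filter ℕ) (ht : ∀ i, ∀ T ∈ t i, T.Infinite) :
    Good A {p : ι × Set ℕ | ∃ T ∈ t p.1, p.2 = g ⁻¹' T} ∅ := by
  intro i B hB τ _ σ
  unfold Gen at hB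
  have h1 : ∃ T ∈ t i, g ⁻¹' T ⊆ B := by
    rw [← Filter.mem_comap]
    refine Filter.le_generate_iff.mpr ?_ hB
    rintro V ⟨T, hT, rfl⟩
    exact Filter.preimage_mem_comap hT
  obtain ⟨T, hT, hTB⟩ := h1
  exact (hF.inf T (ht i T hT) τ σ).mono (inter_subset_inter_left _ hTB)

theorem mk_task_le [Countable ι] : #(Task ι) ≤ Cardinal.continuum := by
  have h0 : #ι ≤ Cardinal.continuum := (mk_le_aleph0_iff.mpr ‹_›).trans aleph0_le_continuum
  have h1 : #(ℕ → Set ℕ) = Cardinal.continuum := by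
    rw [← power_def, mk_set, mk_nat, two_power_aleph0, continuum_power_aleph0]
  have h2 : #(ℕ → ℕ) = Cardinal.continuum := by
    rw [← power_def, mk_nat, aleph0_power_aleph0]
  unfold Task
  simp only [mk_sum, mk_prod, lift_id, h1, h2]
  refine add_le_of_le aleph0_le_continuum ?_ ?_
  · exact mul_le_of_le aleph0_le_continuum h0 le_rfl
  · exact mul_le_of_le aleph0_le_continuum h0 (mul_le_of_le aleph0_le_continuum h0 le_rfl)

/-- **Kunen's theorem.** -/
theorem exists_weakPPoints (ι : Type) [Countable ι] (t : ι → Ultrafilter ℕ)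
    (ht : ∀ i, NonPrincipal (t i)) : ∃ u : ι → Ultrafilter ℕ, (∀ i, WeakPPoint (u i)) ∧
      (∀ i, LE (t i) (u i)) ∧ ∀ i j, i ≠ j → ¬ LE (u j) (u i) := by
  classical
  obtain ⟨A, g, hF⟩ := exists_fam
  have hinf : ∀ i, ∀ T ∈ (t i : Filter ℕ), T.Infinite := by
    intro i T hT hfin
    have h1 : (⋃ n ∈ T, ({n} : Set ℕ)) ∈ t i := by
      refine Filter.mem_of_superset hT fun x hx => mem_iUnion₂.mpr ⟨x, hx, rfl⟩
    obtain ⟨n, _, hn⟩ := (Ultrafilter.finite_biUnion_mem_iff hfin).mp h1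
    exact (ht i).notMem n hn
  obtain ⟨G, S, hG0, hG, hsat⟩ := Rec2.recursion2 (X := ι × Set ℕ) (Y := Set ℕ) (T := Task ι)
    (Good A) Sat (fun W _ _ G S hG _ h => good_chain W G S hG h)
    (by
      rintro (⟨i, U⟩ | ⟨i, j, f⟩) B B' hB h
      · intro hU
        rcases h hU with ⟨n, hn⟩ | ⟨V, hV1, hV2⟩
        · exact Or.inl ⟨n, hB hn⟩
        · exact Or.inr ⟨V, fun β => hB (hV1 β), hV2⟩
      · intro hij
        obtain ⟨C, h1, h2⟩ := h hij
        exact ⟨C, hB h1, hB h2⟩)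
    mk_task_le
    (by
      rintro (⟨i, U⟩ | ⟨i, j, f⟩) G S hG hS
      · by_cases hU : Antitone U
        · obtain ⟨D, E, h1, h2, h3⟩ := step_one hF hG hS i hU
          exact ⟨D, E, h1, h2, fun _ => h3⟩
        · refine ⟨∅, ∅, countable_empty, ?_, fun h => absurd h hU⟩
          rw [union_empty, union_empty]
          exact hG
      · by_cases hij : i = j
        · refine ⟨∅, ∅, countable_empty, ?_, fun h => absurd hij h⟩
          rw [union_empty, union_empty]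
          exact hG
        · obtain ⟨D, E, h1, h2, h3⟩ := step_two hF hG hS hij f
          exact ⟨D, E, h1, h2, fun _ => h3⟩)
    _ (good_start hF (fun i => (t i : Filter ℕ)) hinf)
  have hne : ∀ i, (Gen G i ⊓ Filter.cofinite).NeBot := by
    intro i
    rw [Filter.inf_neBot_iff]
    intro B hB C hC
    have h1 := hG i B hB ∅ (fun X hX => absurd hX (Finset.notMem_empty X)) (fun _ => ∅)
    have h2 := h1.sdiff (Filter.mem_cofinite.mp hC)
    obtain ⟨x, ⟨hx1, _⟩, hx2⟩ := h2.nonempty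
    exact ⟨x, hx1, not_not.mp hx2⟩
  let u : ι → Ultrafilter ℕ := fun i => @Ultrafilter.of _ _ (hne i)
  have hu : ∀ i, (u i : Filter ℕ) ≤ Gen G i ⊓ Filter.cofinite := fun i =>
    @Ultrafilter.of_le _ _ (hne i)
  have huG : ∀ i V, (i, V) ∈ G → V ∈ u i := by
    intro i V hV
    exact hu i (Filter.mem_inf_of_left (Filter.mem_generate_of_mem hV))
  have hunp : ∀ i, NonPrincipal (u i) := by
    intro i n hn
    have h1 : ({n}ᶜ : Set ℕ) ∈ u i :=
      hu i (Filter.mem_inf_of_right (Filter.mem_cofinite.mpr (by simp)))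
    rw [hn, Ultrafilter.mem_pure] at h1
    exact h1 rfl
  refine ⟨u, fun i => ⟨hunp i, fun F hF' hFw hcl => ?_⟩, fun i => ⟨g, ?_⟩, fun i j hij => ?_⟩
  · -- weak P-point
    have hFne : F.Nonempty := by
      rcases F.eq_empty_or_nonempty with rfl | h
      · rw [closure_empty] at hcl
        exact absurd hcl (notMem_empty _)
      · exact h
    obtain ⟨w, hw⟩ := hF'.exists_eq_range hFne
    have hw1 : ∀ m, NonPrincipal (w m) ∧ w m ≠ u i := fun m => hFw _ (hw ▸ mem_range_self m)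
    have hsep : ∀ m, ∃ C : Set ℕ, C ∈ u i ∧ C ∉ w m := by
      intro m
      by_contra hcon
      push Not at hcon
      refine (hw1 m).2 (Ultrafilter.ext fun C => ?_)
      constructor
      · intro hC
        by_contra hC2
        have h1 := hcon _ (Ultrafilter.compl_mem_iff_notMem.mpr hC2)
        exact Ultrafilter.compl_mem_iff_notMem.mp h1 hC
      · exact hcon C
    choose C hC1 hC2 using hsep
    let U : ℕ → Set ℕ := fun n => ⋂ m ∈ Iic n, C m
    have hUu : ∀ n, U n ∈ u i := by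
      intro n
      exact (Filter.biInter_mem (finite_Iic n)).mpr fun m _ => hC1 m
    have hUw : ∀ n, U n ∉ w n := by
      intro n h
      refine hC2 n (Filter.mem_of_superset h ?_)
      intro x hx
      exact mem_iInter₂.mp hx n (mem_Iic.mpr le_rfl)
    have hUa : Antitone U := by
      intro a b hab x hx
      rw [mem_iInter₂] at hx ⊢
      exact fun m hm => hx m (mem_Iic.mpr ((mem_Iic.mp hm).trans hab))
    rcases hsat (Sum.inl (i, U)) hUa with ⟨n, hn⟩ | ⟨V, hV1, hV2⟩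
    · exact Ultrafilter.compl_mem_iff_notMem.mp (huG i _ hn) (hUu n)
    · have hsmall : ∀ m, {β | V β ∈ w m}.Countable := by
        intro m
        by_contra hcon
        have hinf : {β | V β ∈ w m}.Infinite := fun h => hcon h.countable
        obtain ⟨σ, hσ1, hσ2⟩ := hinf.exists_subset_card_eq (m + 1)
        have h1 := hV2 σ m (by omega)
        have h2 : (⋂ β ∈ σ, V β) ∈ w m := by
          exact (Filter.biInter_finset_mem σ).mpr fun β hβ => hσ1 hβ
        have h3 : ((⋂ β ∈ σ, V β) \ U m) ∈ w m :=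
          Filter.inter_mem h2 (Ultrafilter.compl_mem_iff_notMem.mpr (hUw m))
        have h4 : (⋃ n ∈ ((⋂ β ∈ σ, V β) \ U m), ({n} : Set ℕ)) ∈ w m := by
          refine Filter.mem_of_superset h3 fun x hx => mem_iUnion₂.mpr ⟨x, hx, rfl⟩
        obtain ⟨n, _, hn⟩ := (Ultrafilter.finite_biUnion_mem_iff h1).mp h4
        exact (hw1 m).1.notMem n hn
      have hcount : (⋃ m, {β | V β ∈ w m}).Countable := countable_iUnion hsmall
      have hex : ∃ β, ∀ m, V β ∉ w m := by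
        by_contra hcon
        push Not at hcon
        have h1 : (⋃ m, {β | V β ∈ w m}) = Set.univ :=
          Set.eq_univ_of_forall fun β => mem_iUnion.mpr (hcon β)
        rw [h1, countable_univ_iff, ← mk_le_aleph0_iff, mk_set, mk_nat, two_power_aleph0] at hcount
        exact absurd hcount (not_le.mpr aleph0_lt_continuum)
      obtain ⟨β, hβ⟩ := hex
      rw [(ultrafilterBasis_is_basis).mem_closure_iff] at hcl
      obtain ⟨v, hv1, hv2⟩ := hcl {v | V β ∈ v} ⟨V β, rfl⟩ (huG i _ (hV1 β))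
      rw [hw] at hv2
      obtain ⟨m, rfl⟩ := hv2
      exact hβ m hv1
  · -- above `t i`
    refine Ultrafilter.ext fun T => ?_
    rw [Ultrafilter.mem_map]
    constructor
    · intro hT
      exact huG i _ (hG0 ⟨T, hT, rfl⟩)
    · intro hT
      by_contra hcon
      have h1 := Ultrafilter.compl_mem_iff_notMem.mpr hcon
      have h2 : g ⁻¹' Tᶜ ∈ u i := huG i _ (hG0 ⟨Tᶜ, h1, rfl⟩)
      rw [preimage_compl] at h2
      exact Ultrafilter.compl_mem_iff_notMem.mp h2 hT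
  · -- incomparability
    rintro ⟨f, hf⟩
    obtain ⟨B, hB1, hB2⟩ := hsat (Sum.inr (i, j, f)) hij
    have h1 := huG i _ hB1
    have h2 := huG j _ hB2
    rw [hf, Ultrafilter.mem_map, preimage_compl] at h2
    exact Ultrafilter.compl_mem_iff_notMem.mp h2 h1

end Pool.Agent.Q212.Kunen
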