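import Pool.Agent.Q211.AM.Md3

/-!
# Finitely supported sequences of integers with the congruence structure

The countable set `ℤ^(ω)` of the finitely supported sequences of integers, the congruences
`cg k` (the first `k` coordinates agree modulo `2 ^ k`), the relations `ag i` (the first `i`
coordinates agree), and the group of the permutations that preserve them and the differences of
the `i`-th coordinates of the points with the same first `i` coordinates.
-/

set_option autoImplicit false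

namespace Pool.Agent.Q212.LB

open Pool.Agent.Q211.AM

/-- Finitely supported sequences of integers. -/
abbrev Xs := ℕ →₀ ℤ

/-- The first `i` coordinates agree. -/
def ag (i : ℕ) (z w : Xs) : Prop := ∀ j < i, z j = w j

/-- The first `k` coordinates agree modulo `2 ^ k`. -/
def cg (k : ℕ) (z w : Xs) : Prop := ∀ i < k, (2 ^ k : ℤ) ∣ z i - w i

theorem cg_refl (k : ℕ) (z : Xs) : cg k z z := fun i _ => by simp

theorem cg_symm {k : ℕ} {z w : Xs} (h : cg k z w) : cg k w z := fun i hi => by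
  have := h i hi
  rw [← neg_sub]
  exact (dvd_neg).2 this

theorem cg_trans {k : ℕ} {z w v : Xs} (h : cg k z w) (h' : cg k w v) : cg k z v := fun i hi => by
  have h1 := dvd_add (h i hi) (h' i hi)
  rwa [sub_add_sub_cancel] at h1

theorem cg_mono {k l : ℕ} (hkl : k ≤ l) {z w : Xs} (h : cg l z w) : cg k z w := fun i hi =>
  (pow_dvd_pow 2 hkl).trans (h i (hi.trans_le hkl))

theorem ag_cg {k : ℕ} {z w : Xs} (h : ag k z w) : cg k z w := fun i hi => by
  rw [h i hi, sub_self]
  exact dvd_zero _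

theorem ag_refl (i : ℕ) (z : Xs) : ag i z z := fun _ _ => rfl

theorem exists_not_dvd {a : ℤ} (ha : a ≠ 0) : ∃ k : ℕ, ∀ l, k ≤ l → ¬ (2 ^ l : ℤ) ∣ a := by
  refine ⟨a.natAbs + 1, fun l hl h => ?_⟩
  have h1 := Int.natAbs_dvd_natAbs.2 h
  have h2 : (2 ^ l : ℤ).natAbs = 2 ^ l := by
    rw [Int.natAbs_pow]
    rfl
  rw [h2] at h1
  have h3 := Nat.le_of_dvd (Int.natAbs_pos.2 ha) h1
  have h4 : l < 2 ^ l := Nat.lt_two_pow_self
  omega

theorem exists_not_cg {z w : Xs} (h : z ≠ w) : ∃ k, ∀ l, k ≤ l → ¬ cg l z w := by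
  obtain ⟨i, hi⟩ : ∃ i, z i ≠ w i := by
    by_contra hcon
    push Not at hcon
    exact h (Finsupp.ext hcon)
  obtain ⟨k, hk⟩ := exists_not_dvd (sub_ne_zero.2 hi)
  refine ⟨max k (i + 1), fun l hl hc => hk l ((le_max_left _ _).trans hl) (hc i ?_)⟩
  exact (Nat.lt_succ_self i).trans_le ((le_max_right _ _).trans hl)

/-- The group. -/
def Gm : Subgroup (Equiv.Perm Xs) where
  carrier := {γ | (∀ k z w, cg k (γ z) (γ w) ↔ cg k z w) ∧
    (∀ i z w, ag i (γ z) (γ w) ↔ ag i z w) ∧ ∀ i z w, ag i z w → γ z i - γ w i = z i - w i}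
  one_mem' := ⟨fun _ _ _ => Iff.rfl, fun _ _ _ => Iff.rfl, fun _ _ _ _ => rfl⟩
  mul_mem' := by
    rintro a b ⟨ha1, ha2, ha3⟩ ⟨hb1, hb2, hb3⟩
    exact ⟨fun k z w => (ha1 k _ _).trans (hb1 k _ _), fun i z w => (ha2 i _ _).trans (hb2 i _ _),
      fun i z w h => (ha3 i _ _ ((hb2 i z w).2 h)).trans (hb3 i z w h)⟩
  inv_mem' := by
    rintro a ⟨ha1, ha2, ha3⟩
    have h1 : ∀ z, a (a⁻¹ z) = z := fun z => Equiv.apply_symm_apply a z
    refine ⟨fun k z w => ?_, fun i z w => ?_, fun i z w h => ?_⟩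
    · rw [← ha1 k, h1, h1]
    · rw [← ha2 i, h1, h1]
    · have h2 : ag i (a⁻¹ z) (a⁻¹ w) := by
        rw [← ha2 i, h1, h1]
        exact h
      have h3 := ha3 i _ _ h2
      rw [h1, h1] at h3
      exact h3.symm

abbrev GG := ↥Gm

theorem sm_def (γ : GG) (z : Xs) : γ • z = γ.1 z := rfl

theorem sm_cg (γ : GG) {k : ℕ} {z w : Xs} : cg k (γ • z) (γ • w) ↔ cg k z w := γ.2.1 k z w

theorem sm_ag (γ : GG) {k : ℕ} {z w : Xs} : ag k (γ • z) (γ • w) ↔ ag k z w := γ.2.2.1 k z w

theorem sm_sub (γ : GG) {k : ℕ} {z w : Xs} (h : ag k z w) :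
    (γ • z) k - (γ • w) k = z k - w k := γ.2.2.2 k z w h

open Classical in
/-- The move of the `K`-th coordinate in one congruence class. -/
noncomputable def mvf (c : Xs) (K : ℕ) (t : ℤ) (z : Xs) : Xs :=
  if cg K z c then z + Finsupp.single K t else z

theorem mvf_ne {c : Xs} {K : ℕ} {t : ℤ} {z : Xs} {i : ℕ} (h : i ≠ K) : mvf c K t z i = z i := by
  unfold mvf
  split_ifs with h1
  · rw [Finsupp.add_apply, Finsupp.single_eq_of_ne h, add_zero]
  · rfl

theorem cg_mvf {c : Xs} {K : ℕ} {t : ℤ} {z w : Xs} {k : ℕ} (hk : k ≤ K) :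
    cg k (mvf c K t z) w ↔ cg k z w := by
  unfold cg
  refine forall_congr' fun i => forall_congr' fun hi => ?_
  rw [mvf_ne (hi.trans_le hk).ne]

theorem mvf_mvf (c : Xs) (K : ℕ) (t : ℤ) (z : Xs) : mvf c K (-t) (mvf c K t z) = z := by
  have h1 : cg K (mvf c K t z) c ↔ cg K z c := cg_mvf le_rfl
  by_cases h : cg K z c
  · have h2 : mvf c K t z = z + Finsupp.single K t := if_pos h
    rw [mvf, if_pos (h1.2 h), h2, add_assoc, ← Finsupp.single_add, add_neg_cancel,
      Finsupp.single_zero, add_zero]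
  · have h2 : mvf c K t z = z := if_neg h
    rw [h2]
    exact if_neg h

/-- The move as a permutation. -/
noncomputable def mvp (c : Xs) (K : ℕ) (t : ℤ) : Equiv.Perm Xs where
  toFun := mvf c K t
  invFun := mvf c K (-t)
  left_inv := mvf_mvf c K t
  right_inv z := by
    have := mvf_mvf c K (-t) z
    rwa [neg_neg] at this

theorem mvp_same {c : Xs} {K : ℕ} {t : ℤ} {z w : Xs} (h : cg K z w) (i : ℕ) :
    mvf c K t z i - mvf c K t w i = z i - w i := by
  have h1 : cg K z c ↔ cg K w c := ⟨fun h1 => cg_trans (cg_symm h) h1, fun h1 => cg_trans h h1⟩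
  by_cases h2 : cg K z c
  · rw [mvf, if_pos h2, mvf, if_pos (h1.1 h2), Finsupp.add_apply, Finsupp.add_apply]
    ring
  · rw [mvf, if_neg h2, mvf, if_neg fun h3 => h2 (h1.2 h3)]

theorem mvp_mem (c : Xs) (K : ℕ) (t : ℤ) : mvp c K t ∈ Gm := by
  refine ⟨fun k z w => ?_, fun i z w => ?_, fun i z w h => ?_⟩
  · change cg k (mvf c K t z) (mvf c K t w) ↔ cg k z w
    rcases le_or_gt k K with hk | hk
    · unfold cg
      refine forall_congr' fun i => forall_congr' fun hi => ?_
      rw [mvf_ne (hi.trans_le hk).ne, mvf_ne (hi.trans_le hk).ne]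
    · have h1 : cg K z w → (cg k (mvf c K t z) (mvf c K t w) ↔ cg k z w) := by
        intro h
        unfold cg
        refine forall_congr' fun i => forall_congr' fun hi => ?_
        rw [mvp_same h]
      constructor
      · intro h
        refine (h1 ?_).1 h
        have h2 := cg_mono hk.le h
        rw [cg_mvf le_rfl] at h2
        have h3 := cg_symm h2
        rw [cg_mvf le_rfl] at h3
        exact cg_symm h3
      · intro h
        exact (h1 (cg_mono hk.le h)).2 h
  · change ag i (mvf c K t z) (mvf c K t w) ↔ ag i z w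
    rcases le_or_gt i K with hk | hk
    · unfold ag
      refine forall_congr' fun j => forall_congr' fun hj => ?_
      rw [mvf_ne (hj.trans_le hk).ne, mvf_ne (hj.trans_le hk).ne]
    · have h1 : cg K z w → (ag i (mvf c K t z) (mvf c K t w) ↔ ag i z w) := by
        intro h
        unfold ag
        refine forall_congr' fun j => forall_congr' fun hj => ?_
        rw [← sub_eq_zero, mvp_same h, sub_eq_zero]
      have h0 : ag i z w → cg K z w := fun h => cg_mono hk.le (ag_cg h)
      have h0' : ag i (mvf c K t z) (mvf c K t w) → cg K z w := by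
        intro h
        have h2 := cg_mono hk.le (ag_cg h)
        rw [cg_mvf le_rfl] at h2
        have h3 := cg_symm h2
        rw [cg_mvf le_rfl] at h3
        exact cg_symm h3
      exact ⟨fun h => (h1 (h0' h)).1 h, fun h => (h1 (h0 h)).2 h⟩
  · change mvf c K t z i - mvf c K t w i = z i - w i
    rcases eq_or_ne i K with rfl | hi
    · exact mvp_same (ag_cg h) i
    · rw [mvf_ne hi, mvf_ne hi]

/-- The move as an element of the group. -/
noncomputable def mv (c : Xs) (K : ℕ) (t : ℤ) : GG := ⟨mvp c K t, mvp_mem c K t⟩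

theorem mv_fix {c : Xs} {K : ℕ} {t : ℤ} {z : Xs} (h : ¬ cg K z c) : mv c K t • z = z := if_neg h

theorem mv_self (c : Xs) (K : ℕ) (t : ℤ) : mv c K t • c = c + Finsupp.single K t :=
  if_pos (cg_refl K c)

/-- A finite set that does not contain `x` is fixed by the moves of `x` at a late coordinate. -/
theorem exists_late (E : Finset Xs) {x : Xs} (hx : x ∉ E) :
    ∃ K, ∀ l, K ≤ l → ∀ e ∈ E, ¬ cg l e x := by
  classical
  induction E using Finset.induction_on with
  | empty => exact ⟨0, fun _ _ e he => absurd he (Finset.notMem_empty _)⟩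
  | insert a s _ ih =>
    obtain ⟨K, hK⟩ := ih fun h => hx (Finset.mem_insert_of_mem h)
    obtain ⟨k, hk⟩ := exists_not_cg (z := a) (w := x)
      fun h => hx (h ▸ Finset.mem_insert_self _ _)
    refine ⟨max K k, fun l hl e he => ?_⟩
    rcases Finset.mem_insert.1 he with rfl | he
    · exact hk l ((le_max_right _ _).trans hl)
    · exact hK l ((le_max_left _ _).trans hl) e he

/-! ### The sets -/

/-- Balls. -/
def ball (k : ℕ) (z : Xs) : Set Xs := {w | cg k w z}

/-- The points with a given first coordinate. -/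
def Zm (m : ℤ) : Set Xs := {w | w 0 = m}

/-- Initial segments of the lexicographic order. -/
def low (z : Xs) : Set Xs := {w | toLex w ≤ toLex z}

/-- The partial sums of the powers of four. -/
def nn (k : ℕ) : ℤ := ∑ l ∈ Finset.range k, (4 : ℤ) ^ l

theorem nn_succ (k : ℕ) : nn (k + 1) = nn k + 4 ^ k := Finset.sum_range_succ _ _

theorem three_nn (k : ℕ) : 3 * nn k = 4 ^ k - 1 := by
  induction k with
  | zero => simp [nn]
  | succ k ih =>
    rw [nn_succ, mul_add, ih, pow_succ]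
    ring

/-- Closed sets with empty intersection. -/
def CC (x : Xs) (i k : ℕ) : Set Xs :=
  {w | ag i w x ∧ (2 ^ (i + 2 * k) : ℤ) ∣ w i - x i - 2 ^ i * nn k}

/-- Their complements. -/
def UU (x : Xs) (i k : ℕ) : Set Xs := (CC x i k)ᶜ

theorem CC_mono {x : Xs} {i k : ℕ} : CC x i (k + 1) ⊆ CC x i k := by
  rintro w ⟨h1, h2⟩
  refine ⟨h1, ?_⟩
  have h3 : (2 ^ (i + 2 * k) : ℤ) ∣ w i - x i - 2 ^ i * nn (k + 1) :=
    (pow_dvd_pow 2 (by omega)).trans h2
  have h4 : w i - x i - 2 ^ i * nn k = (w i - x i - 2 ^ i * nn (k + 1)) + 2 ^ (i + 2 * k) := by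
    rw [nn_succ, pow_add, pow_mul]
    norm_num
    ring
  rw [h4]
  exact dvd_add h3 (dvd_refl _)

theorem mem_CC (x : Xs) (i k : ℕ) : mv x i (2 ^ i * nn k) • x ∈ CC x i k := by
  rw [mv_self]
  constructor
  · intro j hj
    rw [Finsupp.add_apply, Finsupp.single_eq_of_ne hj.ne, add_zero]
  · rw [Finsupp.add_apply, Finsupp.single_eq_same]
    have : x i + 2 ^ i * nn k - x i - 2 ^ i * nn k = 0 := by ring
    rw [this]
    exact dvd_zero _

theorem not_mem_CC (x w : Xs) (i : ℕ) : ∃ k, w ∉ CC x i k := by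
  by_contra hcon
  push Not at hcon
  set a : ℤ := 3 * (w i - x i) + 2 ^ i with ha
  have h1 : ∀ k, (2 ^ (i + 2 * k) : ℤ) ∣ a := by
    intro k
    have h2 := Dvd.dvd.mul_left (hcon k).2 3
    have h3 : 3 * (w i - x i - 2 ^ i * nn k) = a - 2 ^ (i + 2 * k) := by
      rw [ha, mul_sub, mul_left_comm, three_nn, pow_add, pow_mul]
      norm_num
      ring
    rw [h3] at h2
    have h4 := dvd_add h2 (dvd_refl ((2 : ℤ) ^ (i + 2 * k)))
    rwa [sub_add_cancel] at h4
  have h2 : a ≠ 0 := by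
    intro h
    have h3 : (3 : ℤ) ∣ 2 ^ i := by
      refine ⟨-(w i - x i), ?_⟩
      rw [ha] at h
      linarith
    have h4 : (3 : ℤ) ∣ 2 := Int.Prime.dvd_pow' (p := 3) (by norm_num) h3
    norm_num at h4
  obtain ⟨K, hK⟩ := exists_not_dvd h2
  exact hK (i + 2 * K) (by omega) (h1 K)

theorem open_UU {x : Xs} {i k : ℕ} {z : Xs} (hz : z ∈ UU x i k) : ∃ K, ball K z ⊆ UU x i k := by
  by_cases h : ag i z x
  · have h1 : ¬ (2 ^ (i + 2 * k) : ℤ) ∣ z i - x i - 2 ^ i * nn k := fun h1 => hz ⟨h, h1⟩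
    refine ⟨i + 2 * k + 1, fun w hw hc => h1 ?_⟩
    have h2 := hw i (by omega)
    have h3 : (2 ^ (i + 2 * k) : ℤ) ∣ w i - z i := (pow_dvd_pow 2 (by omega)).trans h2
    have h4 := dvd_sub hc.2 h3
    have h5 : w i - x i - 2 ^ i * nn k - (w i - z i) = z i - x i - 2 ^ i * nn k := by ring
    rwa [h5] at h4
  · unfold ag at h
    push Not at h
    obtain ⟨j, hj, hne⟩ := h
    obtain ⟨K, hK⟩ := exists_not_dvd (sub_ne_zero.2 hne)
    refine ⟨max K (j + 1), fun w hw hc => hK _ (le_max_left K (j + 1)) ?_⟩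
    have h2 := hw j ((Nat.lt_succ_self j).trans_le (le_max_right _ _))
    rw [← hc.1 j hj, ← neg_sub]
    exact (dvd_neg).2 h2

theorem open_Zm {m : ℤ} {z : Xs} (hz : z ∉ Zm m) : ∃ K, ∀ w ∈ ball K z, w ∉ Zm m := by
  obtain ⟨K, hK⟩ := exists_not_dvd (sub_ne_zero.2 hz)
  refine ⟨max K 1, fun w hw hc => hK _ (le_max_left K 1) ?_⟩
  have h2 := hw 0 (Nat.lt_of_lt_of_le Nat.zero_lt_one (le_max_right _ _))
  have h3 : w 0 = m := hc
  rw [← h3, ← neg_sub]
  exact (dvd_neg).2 h2

end Pool.Agent.Q212.LB
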