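import Pool.Agent.Q212.LB1
import Pool.Agent.Q211.AM.P3

/-!
# The family of sets of points and the model
-/

set_option autoImplicit false
set_option linter.unusedSectionVars false

namespace Pool.Agent.Q212.LB

open Pool.Agent.Q211.AM Pool.Agent.Q211.TP Pool.Agent.W868 Pool.Agent.Q211.PA
open ZFSet (pair)

theorem im'_ball (γ : GG) (k : ℕ) (z : Xs) : im' γ (ball k z) = ball k (γ • z) := by
  ext x
  rw [mem_im']
  change cg k (γ⁻¹ • x) z ↔ cg k x (γ • z)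
  rw [← sm_cg γ, smul_inv_smul]

theorem im'_Zm (γ : GG) (m : ℤ) : im' γ (Zm m) = Zm (m + (γ • (0 : Xs)) 0) := by
  ext x
  rw [mem_im']
  change (γ⁻¹ • x) 0 = m ↔ x 0 = m + (γ • (0 : Xs)) 0
  have h1 := sm_sub γ (k := 0) (z := γ⁻¹ • x) (w := 0) (fun j hj => absurd hj (Nat.not_lt_zero _))
  rw [smul_inv_smul] at h1
  have h2 : (0 : Xs) 0 = 0 := rfl
  rw [h2, sub_zero] at h1
  constructor
  · intro h
    rw [h] at h1
    linarith
  · intro h
    rw [h] at h1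
    linarith

theorem sm_lt (γ : GG) {z w : Xs} (h : toLex z < toLex w) : toLex (γ • z) < toLex (γ • w) := by
  rw [Finsupp.Lex.lt_iff] at h ⊢
  obtain ⟨i, h1, h2⟩ := h
  have h1' : ag i z w := h1
  refine ⟨i, fun j hj => ((sm_ag γ).2 h1') j hj, ?_⟩
  have h3 := sm_sub γ h1'
  have h4 : z i < w i := h2
  change (γ • z) i < (γ • w) i
  linarith

theorem sm_le (γ : GG) {z w : Xs} : toLex (γ • z) ≤ toLex (γ • w) ↔ toLex z ≤ toLex w := by
  constructor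
  · intro h
    by_contra hcon
    exact absurd (sm_lt γ (not_le.1 hcon)) (not_lt.2 h)
  · intro h
    by_contra hcon
    have h1 := sm_lt γ⁻¹ (not_le.1 hcon)
    rw [inv_smul_smul, inv_smul_smul] at h1
    exact absurd h1 (not_lt.2 h)

theorem im'_low (γ : GG) (z : Xs) : im' γ (low z) = low (γ • z) := by
  ext x
  rw [mem_im']
  change toLex (γ⁻¹ • x) ≤ toLex z ↔ toLex x ≤ toLex (γ • z)
  rw [← sm_le γ, smul_inv_smul]

theorem im'_UU (γ : GG) (x : Xs) (i k : ℕ) : im' γ (UU x i k) = UU (γ • x) i k := by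
  ext w
  rw [mem_im']
  change ¬ (γ⁻¹ • w ∈ CC x i k) ↔ ¬ (w ∈ CC (γ • x) i k)
  refine not_congr ?_
  have h1 : ag i (γ⁻¹ • w) x ↔ ag i w (γ • x) := by
    rw [← sm_ag γ, smul_inv_smul]
  constructor
  · rintro ⟨h2, h3⟩
    refine ⟨h1.1 h2, ?_⟩
    have h4 := sm_sub γ h2
    rw [smul_inv_smul] at h4
    rwa [h4]
  · rintro ⟨h2, h3⟩
    refine ⟨h1.2 h2, ?_⟩
    have h4 := sm_sub γ (h1.2 h2)
    rw [smul_inv_smul] at h4
    rwa [← h4]

/-- The sets of points. -/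
def DD : Set (Set Xs) := {Set.univ} ∪ (Set.range (fun p : ℕ × Xs => ball p.1 p.2) ∪
  (Set.range Zm ∪ (Set.range low ∪ Set.range (fun p : Xs × ℕ × ℕ => UU p.1 p.2.1 p.2.2))))

theorem univ_mem : (Set.univ : Set Xs) ∈ DD := Or.inl rfl

theorem ball_mem (k : ℕ) (z : Xs) : ball k z ∈ DD := Or.inr (Or.inl ⟨(k, z), rfl⟩)

theorem Zm_mem (m : ℤ) : Zm m ∈ DD := Or.inr (Or.inr (Or.inl ⟨m, rfl⟩))

theorem low_mem (z : Xs) : low z ∈ DD := Or.inr (Or.inr (Or.inr (Or.inl ⟨z, rfl⟩)))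

theorem UU_mem (x : Xs) (i k : ℕ) : UU x i k ∈ DD :=
  Or.inr (Or.inr (Or.inr (Or.inr ⟨(x, i, k), rfl⟩)))

theorem DD_cases {P : Set Xs → Prop} (h0 : P Set.univ) (h1 : ∀ k z, P (ball k z))
    (h2 : ∀ m, P (Zm m)) (h3 : ∀ z, P (low z)) (h4 : ∀ x i k, P (UU x i k)) : ∀ D ∈ DD, P D := by
  rintro D (rfl | ⟨p, rfl⟩ | ⟨m, rfl⟩ | ⟨z, rfl⟩ | ⟨p, rfl⟩)
  · exact h0
  · exact h1 _ _
  · exact h2 _
  · exact h3 _
  · exact h4 _ _ _

theorem DD_cnt : DD.Countable := (Set.countable_singleton _).union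
  ((Set.countable_range _).union ((Set.countable_range _).union
    ((Set.countable_range _).union (Set.countable_range _))))

theorem im'_univ (γ : GG) : im' γ (Set.univ : Set Xs) = Set.univ := by
  ext x
  rw [mem_im']
  exact Iff.rfl

theorem DD_inv (γ : GG) : ∀ D ∈ DD, im' γ D ∈ DD := by
  refine DD_cases ?_ (fun k z => ?_) (fun m => ?_) (fun z => ?_) fun x i k => ?_
  · rw [im'_univ]
    exact univ_mem
  · rw [im'_ball]
    exact ball_mem _ _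
  · rw [im'_Zm]
    exact Zm_mem _
  · rw [im'_low]
    exact low_mem _
  · rw [im'_UU]
    exact UU_mem _ _ _

/-- The filter of the finite supports. -/
abbrev NN := NFin Xs GG

theorem stab_mem (x : Xs) : fixingSubgroup GG ({x} : Set Xs) ∈ (NFin Xs GG).F := by
  refine ⟨{x}, fun k => ?_⟩
  rw [mem_fixingSubgroup_iff]
  simp

theorem stab_fix {x : Xs} {g : GG} (h : g ∈ fixingSubgroup GG ({x} : Set Xs)) : g • x = x := by
  rw [mem_fixingSubgroup_iff] at h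
  exact h x rfl

theorem DD_sym : ∀ D ∈ DD, ∃ H ∈ (NFin Xs GG).F, ∀ g ∈ H, im' g D = D := by
  refine DD_cases ?_ (fun k z => ?_) (fun m => ?_) (fun z => ?_) fun x i k => ?_
  · exact ⟨_, stab_mem 0, fun g _ => im'_univ g⟩
  · exact ⟨_, stab_mem z, fun g hg => by rw [im'_ball, stab_fix hg]⟩
  · exact ⟨_, stab_mem 0, fun g hg => by
      rw [im'_Zm, stab_fix hg]
      have : (0 : Xs) 0 = 0 := rfl
      rw [this, add_zero]⟩
  · exact ⟨_, stab_mem z, fun g hg => by rw [im'_low, stab_fix hg]⟩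
  · exact ⟨_, stab_mem x, fun g hg => by rw [im'_UU, stab_fix hg]⟩

/-- The covers. -/
def FU (x : Xs) (i : ℕ) : Set (Set Xs) := Set.range (UU x i)

/-- The family that codes the order. -/
def FL : Set (Set Xs) := Set.range low

/-- The families. -/
def FF : Set (Set (Set Xs)) := {FL} ∪ Set.range fun p : Xs × ℕ => FU p.1 p.2

theorem FL_mem : FL ∈ FF := Or.inl rfl

theorem FU_mem (x : Xs) (i : ℕ) : FU x i ∈ FF := Or.inr ⟨(x, i), rfl⟩

theorem FF_cnt : FF.Countable := (Set.countable_singleton _).union (Set.countable_range _)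

theorem FF_sub : ∀ φ ∈ FF, φ ⊆ DD := by
  rintro φ (rfl | ⟨p, rfl⟩)
  · rintro D ⟨z, rfl⟩
    exact low_mem z
  · rintro D ⟨k, rfl⟩
    exact UU_mem _ _ _

theorem imF_FL (γ : GG) : imF γ FL = FL := by
  ext D
  rw [mem_imF]
  constructor
  · rintro ⟨z, hz⟩
    refine ⟨γ • z, ?_⟩
    rw [← im'_low, hz, im'_inv']
  · rintro ⟨z, rfl⟩
    exact ⟨γ⁻¹ • z, (im'_low _ _).symm⟩

theorem imF_FU (γ : GG) (x : Xs) (i : ℕ) : imF γ (FU x i) = FU (γ • x) i := by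
  ext D
  rw [mem_imF]
  constructor
  · rintro ⟨k, hk⟩
    refine ⟨k, ?_⟩
    rw [← im'_UU, hk, im'_inv']
  · rintro ⟨k, rfl⟩
    refine ⟨k, ?_⟩
    rw [im'_UU, inv_smul_smul]

theorem FF_inv (γ : GG) : ∀ φ ∈ FF, imF γ φ ∈ FF := by
  rintro φ (rfl | ⟨p, rfl⟩)
  · rw [imF_FL]
    exact FL_mem
  · change imF γ (FU p.1 p.2) ∈ FF
    rw [imF_FU]
    exact FU_mem _ _

theorem FF_sym : ∀ φ ∈ FF, ∃ H ∈ (NFin Xs GG).F, ∀ g ∈ H, imF g φ = φ := by
  rintro φ (rfl | ⟨p, rfl⟩)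
  · exact ⟨_, stab_mem 0, fun g _ => imF_FL g⟩
  · refine ⟨_, stab_mem p.1, fun g hg => ?_⟩
    change imF g (FU p.1 p.2) = FU p.1 p.2
    rw [imF_FU, stab_fix hg]

/-- Codes of pairs of natural numbers. -/
noncomputable def cdp (j : ℕ) : ZFSet.{0} := pair (nat j.unpair.1) (nat j.unpair.2)

theorem cd_cdp (j : ℕ) : Cd (cdp j) := .pair (.nat _) (.nat _)

/-- The relations: the balls of a given order, and the balls whose radius is less than a given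
positive rational number. -/
def Rl (k j : ℕ) (D : Set Xs) : Prop :=
  (k = 0 ∧ ∃ z, D = ball j.unpair.1 z ∧ j.unpair.2 = 0) ∨
    (k = 1 ∧ ∃ l z, D = ball l z ∧ ((1 / 2 : ℝ) ^ l < (j.unpair.1 : ℝ) / (j.unpair.2 + 1)))

theorem Rl_imp {k j : ℕ} (γ : GG) {D : Set Xs} (h : Rl k j D) : Rl k j (im' γ D) := by
  rcases h with ⟨h0, z, rfl, h1⟩ | ⟨h0, l, z, rfl, h1⟩
  · exact Or.inl ⟨h0, γ • z, im'_ball _ _ _, h1⟩
  · exact Or.inr ⟨h0, l, γ • z, im'_ball _ _ _, h1⟩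

theorem Rl_inv (k j : ℕ) (γ : GG) (D : Set Xs) (_ : D ∈ DD) : Rl k j (im' γ D) ↔ Rl k j D := by
  refine ⟨fun h => ?_, Rl_imp γ⟩
  have h1 := Rl_imp γ⁻¹ h
  rwa [im'_inv] at h1

/-- The properties of the model. -/
abbrev MB (M : Set ZFSet.{0}) (at' : Xs → ZFSet.{0}) (st : Set Xs → ZFSet.{0})
    (fam : Set (Set Xs) → ZFSet.{0}) : Prop := PM3 (NFin Xs GG) DD FF cdp Rl M at' st fam

theorem exists_mb : ∃ M at' st fam, MB M at' st fam :=
  exists_pm3 pt_NFin DD DD_cnt DD_inv DD_sym FF FF_cnt FF_sub FF_inv FF_sym cdp cd_cdp Rl Rl_inv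

end Pool.Agent.Q212.LB
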