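import Pool.Agent.Q212.LB2
import Pool.Agent.Q211.FS.Met

/-!
# The topological notions and the metric
-/

set_option autoImplicit false
set_option linter.unusedSectionVars false
set_option linter.unreachableTactic false
set_option linter.unusedTactic false

namespace Pool.Agent.Q212.LB

open Pool.Agent.Q211.AM Pool.Agent.Q211.TP Pool.Agent.W868 Pool.Agent.Q211.PA
open Pool.Agent.Q211.SY Pool.Agent.Q211.FS
open ZFSet (pair)

/-- In `M`, the subset `K` of a space with the topology `τ` is compact. -/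
def CptSub (M : Set ZFSet.{0}) (τ K : ZFSet.{0}) : Prop :=
  ∀ C ∈ M, C ⊆ τ → (∀ x ∈ K, ∃ U ∈ C, x ∈ U) →
    ∃ F : Finset ZFSet.{0}, (∀ U ∈ F, U ∈ C) ∧ ∀ x ∈ K, ∃ U ∈ F, x ∈ U

/-- In `M`, there is a choice function for the family of the nonempty sets `K` with the
property `P`. -/
def ChoiceFor (M : Set ZFSet.{0}) (P : ZFSet.{0} → Prop) : Prop :=
  ∃ f ∈ M, ∀ K ∈ M, P K → (∃ x, x ∈ K) → ∃ y ∈ K, ∀ z, pair K z ∈ f ↔ z = y

/-- In `M`, the space `(X, τ)` is `𝒦`-Loeb: the nonempty compact subsets have a choice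
function. -/
def KLoebIn (M : Set ZFSet.{0}) (X τ : ZFSet.{0}) : Prop :=
  ChoiceFor M fun K => K ⊆ X ∧ CptSub M τ K

/-- In `M`, the space `(X, τ)` is Loeb: the nonempty closed subsets have a choice function. -/
def LoebIn (M : Set ZFSet.{0}) (X τ : ZFSet.{0}) : Prop :=
  ChoiceFor M fun C => C ⊆ X ∧ X \ C ∈ τ

/-- In `M`, the space `(X, τ)` has a cuf base: a base that is the union of a sequence of finite
sets. -/
def CufBaseIn (M : Set ZFSet.{0}) (_X τ : ZFSet.{0}) : Prop :=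
  ∃ s ∈ M, ∃ V : ℕ → ZFSet.{0}, IsSeqF s V ∧ (∀ n, FinIn M (V n)) ∧ (∀ n, ∀ D ∈ V n, D ∈ τ) ∧
    ∀ U ∈ τ, ∀ x ∈ U, ∃ n, ∃ D ∈ V n, x ∈ D ∧ D ⊆ U

/-- In `M`, the metric `d` of the space `(X, τ)` is Cantor complete. -/
def CantorIn (M : Set ZFSet.{0}) (X τ : ZFSet.{0}) (d : ZFSet.{0} → ZFSet.{0} → ℝ) : Prop :=
  ∀ s ∈ M, ∀ F : ℕ → ZFSet.{0}, IsSeqF s F → (∀ n, F n ⊆ X ∧ X \ F n ∈ τ ∧ ∃ x, x ∈ F n) →
    (∀ n, F (n + 1) ⊆ F n) →
    (∀ ε : ℝ, 0 < ε → ∃ N, ∀ n, N ≤ n → ∀ x ∈ F n, ∀ y ∈ F n, d x y < ε) → ∃ x, ∀ n, x ∈ F n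

/-- In `M`, the space `(X, τ)` is Cantor completely metrizable. -/
def CantorMetrizableIn (M : Set ZFSet.{0}) (X τ : ZFSet.{0}) : Prop :=
  ∃ d : ZFSet.{0} → ZFSet.{0} → ℝ, MetricIn M X τ d ∧ CantorIn M X τ d

/-! ### The metric on the index set -/

/-- The metric. -/
noncomputable def dX (z w : Xs) : ℝ := sInf {r | ∃ k, cg k z w ∧ r = (1 / 2 : ℝ) ^ k}

theorem dX_lt {z w : Xs} {ε : ℝ} : dX z w < ε ↔ ∃ k, cg k z w ∧ (1 / 2 : ℝ) ^ k < ε := by
  unfold dX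
  rw [csInf_lt_iff]
  · constructor
    · rintro ⟨_, ⟨k, hk, rfl⟩, h⟩
      exact ⟨k, hk, h⟩
    · rintro ⟨k, hk, h⟩
      exact ⟨_, ⟨k, hk, rfl⟩, h⟩
  · refine ⟨0, ?_⟩
    rintro _ ⟨k, -, rfl⟩
    positivity
  · exact ⟨_, 0, fun i hi => absurd hi (Nat.not_lt_zero _), rfl⟩

theorem dX_nonneg (z w : Xs) : 0 ≤ dX z w := by
  by_contra h
  obtain ⟨k, -, hk⟩ := dX_lt.1 (not_le.1 h)
  exact absurd hk (not_lt.2 (by positivity))

theorem half_lt {k l : ℕ} : (1 / 2 : ℝ) ^ k < (1 / 2) ^ l ↔ l < k :=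
  pow_lt_pow_iff_right_of_lt_one₀ (by norm_num) (by norm_num)

theorem exists_half {ε : ℝ} (h : 0 < ε) : ∃ l : ℕ, (1 / 2 : ℝ) ^ l < ε :=
  exists_pow_lt_of_lt_one h (by norm_num)

theorem dX_self (z : Xs) : dX z z = 0 := by
  refine le_antisymm (le_of_forall_pos_lt_add fun ε hε => ?_) (dX_nonneg _ _)
  rw [zero_add]
  obtain ⟨l, hl⟩ := exists_half hε
  exact dX_lt.2 ⟨l, cg_refl _ _, hl⟩

theorem dX_half {z w : Xs} {l : ℕ} (h : dX z w < (1 / 2) ^ l) : cg l z w := by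
  obtain ⟨k, hk, h1⟩ := dX_lt.1 h
  exact cg_mono (half_lt.1 h1).le hk

theorem dX_eq {z w : Xs} (h : dX z w = 0) : z = w := by
  by_contra hne
  obtain ⟨k, hk⟩ := exists_not_cg hne
  exact hk k le_rfl (dX_half (by rw [h]; positivity))

theorem dX_comm (z w : Xs) : dX z w = dX w z := by
  unfold dX
  congr 1
  ext r
  exact exists_congr fun k => and_congr_left fun _ => ⟨cg_symm, cg_symm⟩

theorem dX_tri (z w v : Xs) : dX z v ≤ dX z w + dX w v := by
  have h1 : dX z v ≤ max (dX z w) (dX w v) := by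
    refine le_of_forall_pos_lt_add fun ε hε => ?_
    have h2 : dX z w < max (dX z w) (dX w v) + ε := by
      have := le_max_left (dX z w) (dX w v)
      linarith
    have h3 : dX w v < max (dX z w) (dX w v) + ε := by
      have := le_max_right (dX z w) (dX w v)
      linarith
    obtain ⟨k, hk, h4⟩ := dX_lt.1 h2
    obtain ⟨l, hl, h5⟩ := dX_lt.1 h3
    rcases le_total k l with hkl | hkl
    · exact dX_lt.2 ⟨k, cg_trans hk (cg_mono hkl hl), h4⟩
    · exact dX_lt.2 ⟨l, cg_trans (cg_mono hkl hk) hl, h5⟩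
  refine h1.trans (max_le ?_ ?_)
  · have := dX_nonneg w v
    linarith
  · have := dX_nonneg z w
    linarith

theorem ball_eq {k : ℕ} {z w : Xs} (h : cg k z w) : ball k z = ball k w := by
  ext x
  exact ⟨fun hx => cg_trans hx h, fun hx => cg_trans hx (cg_symm h)⟩

theorem finite_ball (n : ℕ) : (Set.range (ball n)).Finite := by
  classical
  haveI : NeZero (2 ^ n) := ⟨by positivity⟩
  let π : Xs → (Fin n → ZMod (2 ^ n)) := fun z i => ((z i : ℤ) : ZMod (2 ^ n))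
  have hπ : ∀ z w, π z = π w → ball n z = ball n w := by
    intro z w h
    refine ball_eq fun i hi => ?_
    have h1 := congrFun h ⟨i, hi⟩
    have h2 : ((w i : ℤ) : ZMod (2 ^ n)) = ((z i : ℤ) : ZMod (2 ^ n)) := h1.symm
    have h3 := (ZMod.intCast_eq_intCast_iff_dvd_sub _ _ _).1 h2
    simpa using h3
  let g : (Fin n → ZMod (2 ^ n)) → Set Xs := fun v =>
    if h : ∃ z, π z = v then ball n h.choose else ∅
  refine (Set.finite_range g).subset ?_
  rintro _ ⟨z, rfl⟩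
  refine ⟨π z, ?_⟩
  have h : ∃ w, π w = π z := ⟨z, rfl⟩
  change (if h : ∃ w, π w = π z then ball n h.choose else ∅) = ball n z
  rw [dif_pos h]
  exact hπ _ _ h.choose_spec

end Pool.Agent.Q212.LB
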