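import Pool.Agent.Q212.LB3

/-!
# The space in the model
-/

set_option autoImplicit false
set_option linter.unusedSectionVars false
set_option linter.unreachableTactic false
set_option linter.unusedTactic false

namespace Pool.Agent.Q212.LB

open Pool.Agent.Q211.AM Pool.Agent.Q211.TP Pool.Agent.W868 Pool.Agent.Q211.PA
open Pool.Agent.Q211.SY Pool.Agent.Q211.FS
open ZFSet (pair)

/-- The two relations. -/
structure RB (M : Set ZFSet.{0}) (at' : Xs → ZFSet.{0}) (st : Set Xs → ZFSet.{0})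
    (fam : Set (Set Xs) → ZFSet.{0}) (B0 B1 : ZFSet.{0}) : Prop where
  h : MB M at' st fam
  hB0 : B0 ∈ M
  hB1 : B1 ∈ M
  m0 : ∀ z, z ∈ B0 ↔ ∃ n : ℕ, ∃ D ∈ DD, Rl 0 n D ∧ z = pair (cdp n) (st D)
  m1 : ∀ z, z ∈ B1 ↔ ∃ n : ℕ, ∃ D ∈ DD, Rl 1 n D ∧ z = pair (cdp n) (st D)

theorem exists_rb : ∃ M at' st fam B0 B1, RB M at' st fam B0 B1 := by
  obtain ⟨M, at', st, fam, h⟩ := exists_mb
  obtain ⟨B0, h0, m0⟩ := h.rl 0
  obtain ⟨B1, h1, m1⟩ := h.rl 1
  exact ⟨M, at', st, fam, B0, B1, h, h0, h1, m0, m1⟩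

/-- The topology. -/
noncomputable def tau (M : Set ZFSet.{0}) (X B1 : ZFSet.{0}) : ZFSet.{0} :=
  ZFSet.sep (fun U => ∀ x ∈ U, ∃ p ∈ M, ∃ D ∈ M, pair p D ∈ B1 ∧ x ∈ D ∧ D ⊆ U) (PM M X)

/-- The metric. -/
noncomputable def dM (at' : Xs → ZFSet.{0}) (x y : ZFSet.{0}) : ℝ :=
  dX (Function.invFun at' x) (Function.invFun at' y)

namespace RB

variable {M : Set ZFSet.{0}} {at' : Xs → ZFSet.{0}} {st : Set Xs → ZFSet.{0}}
  {fam : Set (Set Xs) → ZFSet.{0}} {B0 B1 : ZFSet.{0}} (r : RB M at' st fam B0 B1)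

include r

theorem XM : st Set.univ ∈ M := r.h.stM _ univ_mem

theorem at_mem (x : Xs) : at' x ∈ st Set.univ := (r.h.mem_st univ_mem).2 trivial

theorem of_mem {z : ZFSet.{0}} (h : z ∈ st Set.univ) : ∃ x, z = at' x := r.h.atoms univ_mem z h

theorem mb0 {k : ℕ} {D : ZFSet.{0}} : pair (pair (nat k) (nat 0)) D ∈ B0 ↔
    ∃ z, D = st (ball k z) := by
  rw [r.m0]
  constructor
  · rintro ⟨n, D', -, h | ⟨h, -⟩, h2⟩
    · obtain ⟨-, z, rfl, -⟩ := h
      obtain ⟨h3, rfl⟩ := ZFSet.pair_inj.1 h2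
      obtain ⟨h4, -⟩ := ZFSet.pair_inj.1 h3
      refine ⟨z, ?_⟩
      rw [nat_injective h4]
    · exact absurd h (by norm_num)
  · rintro ⟨z, rfl⟩
    refine ⟨Nat.pair k 0, ball k z, ball_mem _ _, Or.inl ⟨rfl, z, ?_, ?_⟩, ?_⟩
    · rw [Nat.unpair_pair]
    · rw [Nat.unpair_pair]
    · rw [cdp, Nat.unpair_pair]

theorem mb1 {p D : ZFSet.{0}} : pair p D ∈ B1 ↔ ∃ m n l : ℕ, ∃ z, p = pair (nat m) (nat n) ∧
    D = st (ball l z) ∧ (1 / 2 : ℝ) ^ l < (m : ℝ) / (n + 1) := by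
  rw [r.m1]
  constructor
  · rintro ⟨j, D', -, ⟨h, -⟩ | h, h2⟩
    · exact absurd h (by norm_num)
    · obtain ⟨-, l, z, rfl, h1⟩ := h
      obtain ⟨h3, rfl⟩ := ZFSet.pair_inj.1 h2
      exact ⟨j.unpair.1, j.unpair.2, l, z, h3, rfl, h1⟩
  · rintro ⟨m, n, l, z, rfl, rfl, h1⟩
    refine ⟨Nat.pair m n, ball l z, ball_mem _ _, Or.inr ⟨rfl, l, z, rfl, ?_⟩, ?_⟩
    · rw [Nat.unpair_pair]
      exact h1
    · rw [cdp, Nat.unpair_pair]

theorem mem_tau {U : ZFSet.{0}} : U ∈ tau M (st Set.univ) B1 ↔ U ∈ M ∧ U ⊆ st Set.univ ∧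
    ∀ x, at' x ∈ U → ∃ l, ∀ w ∈ ball l x, at' w ∈ U := by
  rw [tau, ZFSet.mem_sep, mem_PM, and_assoc]
  refine and_congr_right fun hU => and_congr_right fun hUX => ?_
  constructor
  · intro h x hx
    obtain ⟨p, -, D, -, hD, hxD, hDU⟩ := h _ hx
    obtain ⟨m, n, l, z, rfl, rfl, -⟩ := r.mb1.1 hD
    rw [r.h.mem_st (ball_mem _ _)] at hxD
    refine ⟨l, fun w hw => hDU ((r.h.mem_st (ball_mem _ _)).2 ?_)⟩
    exact cg_trans hw hxD
  · intro h x hx
    obtain ⟨x, rfl⟩ := r.of_mem (hUX hx)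
    obtain ⟨l, hl⟩ := h x hx
    have h1 : pair (pair (nat 2) (nat 0)) (st (ball l x)) ∈ B1 := by
      refine r.mb1.2 ⟨2, 0, l, x, rfl, rfl, ?_⟩
      have : (1 / 2 : ℝ) ^ l ≤ 1 := pow_le_one₀ (by norm_num) (by norm_num)
      norm_num at this ⊢
      linarith
    refine ⟨pair (nat 2) (nat 0), r.h.zf.pair_mem (r.h.zf.nat_mem 2) (r.h.zf.nat_mem 0),
      st (ball l x), r.h.stM _ (ball_mem _ _), h1, (r.h.mem_st (ball_mem _ _)).2 (cg_refl _ _),
      fun z hz => ?_⟩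
    obtain ⟨w, rfl⟩ := r.h.atoms (ball_mem _ _) z hz
    exact hl w ((r.h.mem_st (ball_mem _ _)).1 hz)

theorem tau_mem : tau M (st Set.univ) B1 ∈ M := by
  have hM := r.h.zf
  have hB := hM.base
  have hX := r.XM
  have h1 := r.hB1
  refine hM.sep_mem (Q := fun U => ∀ x ∈ U, ∃ p ∈ M, ∃ D ∈ M,
    pair p D ∈ B1 ∧ x ∈ D ∧ D ⊆ U) ?_ (PM_mem hM hX)
  (repeat' first
    | assumption
    | exact DfnF.proj _
    | exact DfnF.const (by assumption)
    | exact DfnF.const' (by first | assumption | trivial) (by first | assumption | trivial)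
    | exact Dfn.prop _
    | apply hB.isFunc' | apply hB.isInj' | apply hB.isBij' | apply hB.isOrdinal'
    | apply hB.subset' | apply hB.pair' | apply hB.insert'
    | apply Dfn.not | apply Dfn.and | apply Dfn.or | apply Dfn.imp | apply Dfn.iff
    | apply hB.bex | apply hB.ball | apply Dfn.ex | apply Dfn.all
    | apply Dfn.eq | apply Dfn.mem)

/-- Open sets of points are open. -/
theorem st_open {D : Set Xs} (hD : D ∈ DD) (h : ∀ z ∈ D, ∃ K, ball K z ⊆ D) :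
    st D ∈ tau M (st Set.univ) B1 := by
  refine r.mem_tau.2 ⟨r.h.stM D hD, fun z hz => ?_, fun x hx => ?_⟩
  · obtain ⟨x, rfl⟩ := r.h.atoms hD z hz
    exact r.at_mem x
  · obtain ⟨K, hK⟩ := h x ((r.h.mem_st hD).1 hx)
    exact ⟨K, fun w hw => (r.h.mem_st hD).2 (hK hw)⟩

theorem top : IsTopIn M (st Set.univ) (tau M (st Set.univ) B1) := by
  have hM := r.h.zf
  refine ⟨fun U hU => (r.mem_tau.1 hU).2.1, r.st_open univ_mem fun z _ => ⟨0, fun _ _ => trivial⟩,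
    fun U hU V hV => ?_, fun C hC hCτ => ?_⟩
  · obtain ⟨h1, h2, h3⟩ := r.mem_tau.1 hU
    obtain ⟨h4, h5, h6⟩ := r.mem_tau.1 hV
    have h7 : U ∩ V = ZFSet.sep (fun z => z ∈ V) U := by
      ext z
      rw [ZFSet.mem_inter, ZFSet.mem_sep]
    refine r.mem_tau.2 ⟨?_, fun z hz => h2 (ZFSet.mem_inter.1 hz).1, fun x hx => ?_⟩
    · rw [h7]
      exact hM.sep_mem (Q := fun z => z ∈ V) (Dfn.mem (DfnF.proj 0) (DfnF.const h4)) h1
    · obtain ⟨hx1, hx2⟩ := ZFSet.mem_inter.1 hx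
      obtain ⟨l, hl⟩ := h3 x hx1
      obtain ⟨l', hl'⟩ := h6 x hx2
      exact ⟨max l l', fun w hw => ZFSet.mem_inter.2 ⟨hl w (cg_mono (le_max_left _ _) hw),
        hl' w (cg_mono (le_max_right _ _) hw)⟩⟩
  · refine r.mem_tau.2 ⟨hM.union _ hC, fun z hz => ?_, fun x hx => ?_⟩
    · obtain ⟨U, hU, hz⟩ := ZFSet.mem_sUnion.1 hz
      exact (r.mem_tau.1 (hCτ hU)).2.1 hz
    · obtain ⟨U, hU, hx⟩ := ZFSet.mem_sUnion.1 hx
      obtain ⟨l, hl⟩ := (r.mem_tau.1 (hCτ hU)).2.2 x hx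
      exact ⟨l, fun w hw => ZFSet.mem_sUnion.2 ⟨U, hU, hl w hw⟩⟩

/-- Complements. -/
theorem compl_mem {U : ZFSet.{0}} (hU : U ∈ M) : st Set.univ \ U ∈ M := by
  have hM := r.h.zf
  have h7 : st Set.univ \ U = ZFSet.sep (fun z => z ∉ U) (st Set.univ) := by
    ext z
    rw [ZFSet.mem_sdiff, ZFSet.mem_sep]
  rw [h7]
  exact hM.sep_mem (Q := fun z => z ∉ U) (Dfn.not (Dfn.mem (DfnF.proj 0) (DfnF.const hU))) r.XM

/-! ### The metric -/

theorem inv_at (x : Xs) : Function.invFun at' (at' x) = x :=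
  Function.leftInverse_invFun r.h.inj x

theorem dM_at (x y : Xs) : dM at' (at' x) (at' y) = dX x y := by
  rw [dM, r.inv_at, r.inv_at]

theorem metric : MetricIn M (st Set.univ) (tau M (st Set.univ) B1) (dM at') := by
  have hM := r.h.zf
  have hB := hM.base
  have hX := r.XM
  have h1 := r.hB1
  have hom : ZFSet.omega ∈ M := hM.infinity
  refine ⟨fun x _ => dX_self _, fun x hx y hy h => ?_, fun x _ y _ => dX_comm _ _,
    fun x _ y _ z _ => dX_tri _ _ _, ?_, fun U => ?_⟩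
  · obtain ⟨x, rfl⟩ := r.of_mem hx
    obtain ⟨y, rfl⟩ := r.of_mem hy
    rw [r.dM_at] at h
    rw [dX_eq h]
  · obtain ⟨G, hG, hGs, hG'⟩ := hM.rel_mem (x := ZFSet.prod (st Set.univ) (st Set.univ))
      (y := ZFSet.prod ZFSet.omega ZFSet.omega) (hM.prod_mem hX hX) (hM.prod_mem hom hom)
      (Q := fun q p => ∃ D ∈ M, ∃ x ∈ M, ∃ y ∈ M, q = pair x y ∧ pair p D ∈ B1 ∧ x ∈ D ∧ y ∈ D) (by
        (repeat' first
          | assumption
          | exact DfnF.proj _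
          | exact DfnF.const (by assumption)
          | exact DfnF.const' (by first | assumption | trivial) (by first | assumption | trivial)
          | exact Dfn.prop _
          | apply hB.isFunc' | apply hB.isInj' | apply hB.isBij' | apply hB.isOrdinal'
          | apply hB.subset' | apply hB.pair' | apply hB.insert'
          | apply Dfn.not | apply Dfn.and | apply Dfn.or | apply Dfn.imp | apply Dfn.iff
          | apply hB.bex | apply hB.ball | apply Dfn.ex | apply Dfn.all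
          | apply Dfn.eq | apply Dfn.mem))
    refine ⟨G, hG, fun z => ?_⟩
    constructor
    · intro hz
      obtain ⟨q, hq, p, hp, rfl⟩ := ZFSet.mem_prod.1 (hGs hz)
      obtain ⟨-, -, D, -, x, -, y, -, rfl, h2, h3, h4⟩ := (hG' _ _).1 hz
      obtain ⟨m, n, l, z, rfl, rfl, h5⟩ := r.mb1.1 h2
      obtain ⟨hx, hy⟩ := ZFSet.pair_mem_prod.1 hq
      refine ⟨x, hx, y, hy, m, n, rfl, ?_⟩
      obtain ⟨x, rfl⟩ := r.of_mem hx
      obtain ⟨y, rfl⟩ := r.of_mem hy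
      rw [r.dM_at]
      rw [r.h.mem_st (ball_mem _ _)] at h3 h4
      exact dX_lt.2 ⟨l, cg_trans h3 (cg_symm h4), h5⟩
    · rintro ⟨x, hx, y, hy, m, n, rfl, h2⟩
      obtain ⟨x, rfl⟩ := r.of_mem hx
      obtain ⟨y, rfl⟩ := r.of_mem hy
      rw [r.dM_at] at h2
      obtain ⟨l, h3, h4⟩ := dX_lt.1 h2
      refine (hG' _ _).2 ⟨ZFSet.pair_mem_prod.2 ⟨hx, hy⟩, ZFSet.pair_mem_prod.2
        ⟨mem_omega_iff.2 ⟨m, rfl⟩, mem_omega_iff.2 ⟨n, rfl⟩⟩, st (ball l y),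
        r.h.stM _ (ball_mem _ _), at' x, r.h.atM x, at' y, r.h.atM y, rfl,
        r.mb1.2 ⟨m, n, l, y, rfl, rfl, h4⟩, (r.h.mem_st (ball_mem _ _)).2 h3,
        (r.h.mem_st (ball_mem _ _)).2 (cg_refl _ _)⟩
  · rw [r.mem_tau]
    refine and_congr_right fun hU => and_congr_right fun hUX => ?_
    constructor
    · intro h x hx
      obtain ⟨x, rfl⟩ := r.of_mem (hUX hx)
      obtain ⟨l, hl⟩ := h x hx
      refine ⟨(1 / 2) ^ l, by positivity, fun y hy h2 => ?_⟩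
      obtain ⟨y, rfl⟩ := r.of_mem hy
      rw [r.dM_at] at h2
      exact hl y (cg_symm (dX_half h2))
    · intro h x hx
      obtain ⟨ε, hε, h2⟩ := h _ hx
      obtain ⟨l, hl⟩ := exists_half hε
      refine ⟨l, fun w hw => h2 _ (r.at_mem w) ?_⟩
      rw [r.dM_at]
      exact dX_lt.2 ⟨l, cg_symm hw, hl⟩

/-! ### The cuf base -/

theorem cufBase : CufBaseIn M (st Set.univ) (tau M (st Set.univ) B1) := by
  have hM := r.h.zf
  have hB := hM.base
  have hX := r.XM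
  have h0 := r.hB0
  have hom : ZFSet.omega ∈ M := hM.infinity
  have h00 : nat 0 ∈ M := hM.nat_mem 0
  have hP := PM_mem hM hX
  have hPP := PM_mem hM hP
  let V : ℕ → ZFSet.{0} := fun n =>
    ZFSet.sep (fun D => pair (pair (nat n) (nat 0)) D ∈ B0) (PM M (st Set.univ))
  have hV : ∀ n D, D ∈ V n ↔ ∃ z, D = st (ball n z) := by
    intro n D
    rw [ZFSet.mem_sep, r.mb0, mem_PM]
    refine ⟨fun h => h.2, fun h => ⟨?_, h⟩⟩
    obtain ⟨z, rfl⟩ := h
    refine ⟨r.h.stM _ (ball_mem _ _), fun y hy => ?_⟩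
    obtain ⟨w, rfl⟩ := r.h.atoms (ball_mem _ _) y hy
    exact r.at_mem w
  have hVM : ∀ n, V n ∈ M := by
    intro n
    have hn : nat n ∈ M := hM.nat_mem n
    refine hM.sep_mem (Q := fun D => pair (pair (nat n) (nat 0)) D ∈ B0) ?_ hP
    (repeat' first
      | assumption
      | exact DfnF.proj _
      | exact DfnF.const (by assumption)
      | exact Dfn.prop _
      | apply hB.subset' | apply hB.pair' | apply hB.insert'
      | apply Dfn.not | apply Dfn.and | apply Dfn.or | apply Dfn.imp | apply Dfn.iff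
      | apply hB.bex | apply hB.ball | apply Dfn.ex | apply Dfn.all
      | apply Dfn.eq | apply Dfn.mem)
  obtain ⟨s, hs, hs1, hs2⟩ := hM.rel_mem (x := ZFSet.omega) (y := PM M (PM M (st Set.univ)))
    hom hPP (Q := fun n W => ∀ D ∈ PM M (st Set.univ), (D ∈ W ↔ pair (pair n (nat 0)) D ∈ B0)) (by
      (repeat' first
        | assumption
        | exact DfnF.proj _
        | exact DfnF.const (by assumption)
        | exact Dfn.prop _
        | apply hB.subset' | apply hB.pair' | apply hB.insert'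
        | apply Dfn.not | apply Dfn.and | apply Dfn.or | apply Dfn.imp | apply Dfn.iff
        | apply hB.bex | apply hB.ball | apply Dfn.ex | apply Dfn.all
        | apply Dfn.eq | apply Dfn.mem))
  have hop : ∀ n z, st (ball n z) ∈ tau M (st Set.univ) B1 := fun n z =>
    r.st_open (ball_mem _ _) fun w hw => ⟨n, fun v hv => cg_trans hv hw⟩
  refine ⟨s, hs, V, fun z => ?_, fun n => ?_, fun n D hD => ?_, fun U hU x hx => ?_⟩
  · constructor
    · intro hz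
      obtain ⟨m, hm, W, hW, rfl⟩ := ZFSet.mem_prod.1 (hs1 hz)
      obtain ⟨n, rfl⟩ := mem_omega_iff.1 hm
      obtain ⟨-, -, h3⟩ := (hs2 _ _).1 hz
      refine ⟨n, ?_⟩
      congr 1
      ext D
      constructor
      · intro hD
        have h4 := (mem_PM.1 hW).2 hD
        exact ZFSet.mem_sep.2 ⟨h4, (h3 D h4).1 hD⟩
      · intro hD
        obtain ⟨h4, h5⟩ := ZFSet.mem_sep.1 hD
        exact (h3 D h4).2 h5
    · rintro ⟨n, rfl⟩
      refine (hs2 _ _).2 ⟨mem_omega_iff.2 ⟨n, rfl⟩, mem_PM.2 ⟨hVM n, fun D hD =>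
        (ZFSet.mem_sep.1 hD).1⟩, fun D hD => ?_⟩
      rw [ZFSet.mem_sep]
      exact ⟨fun h => h.2, fun h => ⟨hD, h⟩⟩
  · unfold FinIn
    rw [← finite_iff hM (hVM n)]
    refine ((finite_ball n).image st).subset ?_
    intro D hD
    obtain ⟨z, rfl⟩ := (hV n D).1 hD
    exact ⟨_, ⟨z, rfl⟩, rfl⟩
  · obtain ⟨z, rfl⟩ := (hV n D).1 hD
    exact hop n z
  · obtain ⟨h1, h2, h3⟩ := r.mem_tau.1 hU
    obtain ⟨x, rfl⟩ := r.of_mem (h2 hx)
    obtain ⟨l, hl⟩ := h3 x hx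
    refine ⟨l, st (ball l x), (hV _ _).2 ⟨x, rfl⟩, (r.h.mem_st (ball_mem _ _)).2 (cg_refl _ _),
      fun z hz => ?_⟩
    obtain ⟨w, rfl⟩ := r.h.atoms (ball_mem _ _) z hz
    exact hl w ((r.h.mem_st (ball_mem _ _)).1 hz)

end RB

end Pool.Agent.Q212.LB
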