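import Pool.Agent.Q212.LB4

/-!
# Completeness, compact subsets and choice functions
-/

set_option autoImplicit false
set_option linter.unusedSectionVars false
set_option linter.unreachableTactic false
set_option linter.unusedTactic false

namespace Pool.Agent.Q212.LB

open Pool.Agent.Q211.AM Pool.Agent.Q211.TP Pool.Agent.W868 Pool.Agent.Q211.PA
open Pool.Agent.Q211.SY Pool.Agent.Q211.FS
open ZFSet (pair)

theorem ud_sub : UD fun M (v : Fin 3 → ZFSet.{0}) =>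
    ∃ n ∈ M, ∃ V ∈ M, pair n V ∈ v 0 ∧ V ⊆ v 2 := by
  (repeat' first
    | assumption
    | exact UF.proj _
    | exact UF.om
    | exact UD.prop _
    | apply UD.not | apply UD.and | apply UD.or | apply UD.imp | apply UD.iff
    | apply UD.bex | apply UD.ball | apply UD.ex | apply UD.all
    | apply UD.subset
    | apply UD.eq | apply UD.mem | apply UF.pair)

theorem ud_at : UD fun _ (v : Fin 3 → ZFSet.{0}) => v 2 ∈ v 0 := by
  (repeat' first
    | assumption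
    | exact UF.proj _
    | exact UD.prop _
    | apply UD.eq | apply UD.mem | apply UF.pair)

theorem ud_pr : UD fun _ (v : Fin 4 → ZFSet.{0}) => pair (v 2) (v 3) ∈ v 0 := by
  (repeat' first
    | assumption
    | exact UF.proj _
    | exact UD.prop _
    | apply UD.eq | apply UD.mem | apply UF.pair)

namespace RB

variable {M : Set ZFSet.{0}} {at' : Xs → ZFSet.{0}} {st : Set Xs → ZFSet.{0}}
  {fam : Set (Set Xs) → ZFSet.{0}} {B0 B1 : ZFSet.{0}} (r : RB M at' st fam B0 B1)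

include r

open Classical in
/-- Symmetry for one object. -/
theorem supp1 {f : ZFSet.{0}} (hf : f ∈ M) : ∃ E : Finset Xs, ∀ γ : GG,
    (∀ x ∈ E, γ • x = x) → ∀ Q : Set ZFSet.{0} → (Fin 3 → ZFSet.{0}) → Prop, UD Q →
      ∀ o : Ob Xs, okO DD FF o → Q M ![f, nat 0, vO at' st fam o] →
        Q M ![f, nat 0, vO at' st fam (acO γ o)] := by
  obtain ⟨H, ⟨E, hE⟩, e, h1⟩ := r.h.inv1 hf
  exact ⟨E ∪ e, fun γ hγ Q hQ o ho hq => h1 γ ((hE γ).2 fun x hx =>
    hγ x (Finset.mem_union_left _ hx)) (fun x hx => hγ x (Finset.mem_union_right _ hx)) _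
    (.nat 0) Q hQ o ho hq⟩

open Classical in
/-- Symmetry for two objects. -/
theorem supp2 {f : ZFSet.{0}} (hf : f ∈ M) : ∃ E : Finset Xs, ∀ γ : GG,
    (∀ x ∈ E, γ • x = x) → ∀ Q : Set ZFSet.{0} → (Fin 4 → ZFSet.{0}) → Prop, UD Q →
      ∀ o o' : Ob Xs, okO DD FF o → okO DD FF o' →
        Q M ![f, nat 0, vO at' st fam o, vO at' st fam o'] →
        Q M ![f, nat 0, vO at' st fam (acO γ o), vO at' st fam (acO γ o')] := by
  obtain ⟨H, ⟨E, hE⟩, e, h1⟩ := r.h.inv2 hf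
  exact ⟨E ∪ e, fun γ hγ Q hQ o o' ho ho' hq => h1 γ ((hE γ).2 fun x hx =>
    hγ x (Finset.mem_union_left _ hx)) (fun x hx => hγ x (Finset.mem_union_right _ hx)) _
    (.nat 0) Q hQ o o' ho ho' hq⟩

/-! ### Completeness -/

theorem cantor : CantorIn M (st Set.univ) (tau M (st Set.univ) B1) (dM at') := by
  classical
  intro s hs F hF hcl hdec hdiam
  have hmono : ∀ n m, n ≤ m → F m ⊆ F n := by
    intro n m hnm
    induction m, hnm using Nat.le_induction with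
    | base => exact fun z hz => hz
    | succ m _ ih => exact fun z hz => ih (hdec m hz)
  have hpt : ∀ n, ∃ x, at' x ∈ F n := by
    intro n
    obtain ⟨h1, -, z, hz⟩ := hcl n
    obtain ⟨x, rfl⟩ := r.of_mem (h1 hz)
    exact ⟨x, hz⟩
  -- the balls
  have hN : ∀ k : ℕ, ∃ N, ∃ x, ∀ n, N ≤ n → ∀ w, at' w ∈ F n → cg k w x := by
    intro k
    obtain ⟨N, hN⟩ := hdiam ((1 / 2) ^ k) (by positivity)
    obtain ⟨x, hx⟩ := hpt N
    refine ⟨N, x, fun n hn w hw => ?_⟩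
    have h1 := hN N le_rfl _ (hmono N n hn hw) _ hx
    rw [r.dM_at] at h1
    exact dX_half h1
  choose N x hx using hN
  have hFM : ∀ n, F n ∈ M := by
    intro n
    exact (r.h.zf.of_pair_mem (r.h.zf.trans _ hs _ ((hF _).2 ⟨n, rfl⟩))).2
  obtain ⟨E, hE⟩ := r.supp1 hs
  -- consistency
  have hcons : ∀ k l, k ≤ l → cg k (x l) (x k) := by
    intro k l hkl
    obtain ⟨w, hw⟩ := hpt (max (N k) (N l))
    exact cg_trans (cg_symm (cg_mono hkl (hx l _ (le_max_right _ _) w hw)))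
      (hx k _ (le_max_left _ _) w hw)
  have hfix : ∀ γ : GG, (∀ e ∈ E, γ • e = e) → ∀ k, cg k (γ • x k) (x k) := by
    intro γ hγ k
    have h1 := hE γ hγ _ ud_sub (.inr (.inl (ball k (x k)))) (ball_mem _ _)
      ⟨nat (N k), r.h.zf.nat_mem _, F (N k), hFM _, (hF _).2 ⟨N k, rfl⟩, fun z hz => by
        obtain ⟨w, rfl⟩ := r.of_mem ((hcl (N k)).1 hz)
        exact (r.h.mem_st (ball_mem _ _)).2 (hx k _ le_rfl w hz)⟩
    obtain ⟨n', -, V, -, h2, h3⟩ := h1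
    obtain ⟨n, h4⟩ := (hF _).1 h2
    obtain ⟨-, rfl⟩ := ZFSet.pair_inj.1 h4
    change F n ⊆ st (im' γ (ball k (x k))) at h3
    rw [im'_ball] at h3
    obtain ⟨w, hw⟩ := hpt (max n (N k))
    have h5 := (r.h.mem_st (ball_mem _ _)).1 (h3 (hmono _ _ (le_max_left _ _) hw))
    exact cg_trans (cg_symm h5) (hx k _ (le_max_right _ _) w hw)
  have hex : ∃ e ∈ E, ∀ k, cg k e (x k) := by
    by_contra hcon
    push Not at hcon
    choose! kk hkk using hcon
    let K := E.sup kk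
    have h1 : ∀ e ∈ E, ¬ cg K e (x K) := by
      intro e he h2
      have h3 : kk e ≤ K := Finset.le_sup (f := kk) he
      exact hkk e he (cg_trans (cg_mono h3 h2) (hcons _ _ h3))
    have h2 := hfix (mv (x K) K (2 ^ K)) (fun e he => mv_fix (h1 e he)) (K + 1)
    have h3 : mv (x K) K (2 ^ K) • x (K + 1) = x (K + 1) + Finsupp.single K (2 ^ K) :=
      if_pos (hcons K (K + 1) (Nat.le_succ K))
    have h4 := h2 K (Nat.lt_succ_self K)
    rw [h3, Finsupp.add_apply, Finsupp.single_eq_same, add_sub_cancel_left] at h4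
    have h5 := (Int.natAbs_dvd_natAbs.2 h4)
    rw [Int.natAbs_pow, Int.natAbs_pow] at h5
    have h6 : (2 : ℤ).natAbs = 2 := rfl
    rw [h6] at h5
    have h7 := (Nat.pow_dvd_pow_iff_le_right (by norm_num : 1 < 2)).1 h5
    omega
  obtain ⟨e, -, he⟩ := hex
  refine ⟨at' e, fun n => ?_⟩
  by_contra hcon
  have h1 : at' e ∈ st Set.univ \ F n := ZFSet.mem_sdiff.2 ⟨r.at_mem e, hcon⟩
  obtain ⟨l, hl⟩ := (r.mem_tau.1 (hcl n).2.1).2.2 e h1
  obtain ⟨w, hw⟩ := hpt (max n (N l))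
  have h2 := hl w (cg_trans (hx l _ (le_max_right _ _) w hw) (cg_symm (he l)))
  exact (ZFSet.mem_sdiff.1 h2).2 (hmono _ _ (le_max_left _ _) hw)

/-! ### Compact subsets -/

theorem finite_of_cpt {K : ZFSet.{0}} (hK : K ∈ M) (hKX : K ⊆ st Set.univ)
    (hc : CptSub M (tau M (st Set.univ) B1) K) : ∃ E : Finset Xs, ∀ x, at' x ∈ K → x ∈ E := by
  classical
  obtain ⟨E, hE⟩ := r.supp1 hK
  refine ⟨E, fun x hx => ?_⟩
  by_contra hxE
  obtain ⟨i, hi⟩ := exists_late E hxE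
  have hUU : ∀ k, st (UU x i k) ∈ tau M (st Set.univ) B1 := fun k =>
    r.st_open (UU_mem _ _ _) fun z hz => open_UU hz
  obtain ⟨F, hF, hF'⟩ := hc (fam (FU x i)) (r.h.famM _ (FU_mem _ _)) (fun U hU => by
    obtain ⟨D, ⟨k, rfl⟩, rfl⟩ := (r.h.mfam _ (FU_mem _ _) U).1 hU
    exact hUU k) (fun z hz => by
    obtain ⟨w, rfl⟩ := r.of_mem (hKX hz)
    obtain ⟨k, hk⟩ := not_mem_CC x w i
    exact ⟨st (UU x i k), (r.h.mfam _ (FU_mem _ _) _).2 ⟨_, ⟨k, rfl⟩, rfl⟩,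
      (r.h.mem_st (UU_mem _ _ _)).2 hk⟩)
  have h1 : ∀ U ∈ F, ∃ k, U = st (UU x i k) := by
    intro U hU
    obtain ⟨D, ⟨k, rfl⟩, rfl⟩ := (r.h.mfam _ (FU_mem _ _) U).1 (hF U hU)
    exact ⟨k, rfl⟩
  choose! kk hkk using h1
  let k := F.sup kk
  have hdec : ∀ a b, a ≤ b → CC x i b ⊆ CC x i a := by
    intro a b hab
    induction b, hab using Nat.le_induction with
    | base => exact fun z hz => hz
    | succ m _ ih => exact fun z hz => ih (CC_mono hz)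
  have h2 : at' (mv x i (2 ^ i * nn k) • x) ∈ K :=
    hE (mv x i (2 ^ i * nn k)) (fun e he => mv_fix (hi i le_rfl e he)) _ ud_at (.inl x) trivial hx
  obtain ⟨U, hU, h3⟩ := hF' _ h2
  rw [hkk U hU, r.h.mem_st (UU_mem _ _ _)] at h3
  exact h3 (hdec _ _ (Finset.le_sup (f := kk) hU) (mem_CC x i k))

theorem le_iff {y z : Xs} : (∀ D ∈ fam FL, at' z ∈ D → at' y ∈ D) ↔ toLex y ≤ toLex z := by
  constructor
  · intro h
    have h1 := h (st (low z)) ((r.h.mfam _ FL_mem _).2 ⟨_, ⟨z, rfl⟩, rfl⟩)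
      ((r.h.mem_st (low_mem _)).2 (show toLex z ≤ toLex z from le_rfl))
    exact (r.h.mem_st (low_mem _)).1 h1
  · intro h D hD hz
    obtain ⟨D, ⟨w, rfl⟩, rfl⟩ := (r.h.mfam _ FL_mem _).1 hD
    exact (r.h.mem_st (low_mem _)).2 (h.trans ((r.h.mem_st (low_mem _)).1 hz))

theorem kLoeb : KLoebIn M (st Set.univ) (tau M (st Set.univ) B1) := by
  classical
  have hM := r.h.zf
  have hB := hM.base
  have hX := r.XM
  have hL := r.h.famM _ FL_mem
  obtain ⟨f, hf, -, hf'⟩ := hM.rel_mem (x := PM M (st Set.univ)) (y := st Set.univ)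
    (PM_mem hM hX) hX (Q := fun K y => y ∈ K ∧ ∀ z ∈ K, ∀ D ∈ fam FL, z ∈ D → y ∈ D) (by
      (repeat' first
        | assumption
        | exact DfnF.proj _
        | exact DfnF.const (by assumption)
        | exact Dfn.prop _
        | apply hB.subset' | apply hB.pair' | apply hB.insert'
        | apply Dfn.not | apply Dfn.and | apply Dfn.or | apply Dfn.imp | apply Dfn.iff
        | apply hB.bex | apply hB.ball | apply Dfn.ex | apply Dfn.all
        | apply Dfn.eq | apply Dfn.mem))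
  refine ⟨f, hf, fun K hK ⟨hKX, hc⟩ ⟨z, hz⟩ => ?_⟩
  obtain ⟨E, hE⟩ := r.finite_of_cpt hK hKX hc
  let S := E.filter fun x => at' x ∈ K
  have hS : ∀ x, x ∈ S ↔ at' x ∈ K := fun x =>
    ⟨fun h => (Finset.mem_filter.1 h).2, fun h => Finset.mem_filter.2 ⟨hE x h, h⟩⟩
  obtain ⟨z, rfl⟩ := r.of_mem (hKX hz)
  obtain ⟨y, hy, hmin⟩ := S.exists_min_image (fun x => toLex x) ⟨z, (hS z).2 hz⟩
  refine ⟨at' y, (hS y).1 hy, fun w => ?_⟩
  rw [hf', mem_PM]
  constructor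
  · rintro ⟨-, -, h1, h2⟩
    obtain ⟨w, rfl⟩ := r.of_mem (hKX h1)
    have h3 := r.le_iff.1 (h2 _ ((hS y).1 hy))
    have h4 := hmin w ((hS w).2 h1)
    rw [toLex_inj.1 (le_antisymm h3 h4)]
  · rintro rfl
    refine ⟨⟨hK, hKX⟩, r.at_mem y, (hS y).1 hy, fun w hw => ?_⟩
    obtain ⟨w, rfl⟩ := r.of_mem (hKX hw)
    exact r.le_iff.2 (hmin w ((hS w).2 hw))

/-! ### The failure of the Loeb property -/

theorem notLoeb : ¬ LoebIn M (st Set.univ) (tau M (st Set.univ) B1) := by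
  classical
  rintro ⟨f, hf, h⟩
  obtain ⟨E, hE⟩ := r.supp2 hf
  obtain ⟨m, hm⟩ := Infinite.exists_notMem_finset ((insert 0 E).image fun x : Xs => x 0)
  have hop : st Set.univ \ st (Zm m) ∈ tau M (st Set.univ) B1 := by
    refine r.mem_tau.2 ⟨r.compl_mem (r.h.stM _ (Zm_mem m)), fun z hz =>
      (ZFSet.mem_sdiff.1 hz).1, fun x hx => ?_⟩
    have h1 : x ∉ Zm m := fun h1 => (ZFSet.mem_sdiff.1 hx).2 ((r.h.mem_st (Zm_mem m)).2 h1)
    obtain ⟨K, hK⟩ := open_Zm h1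
    exact ⟨K, fun w hw => ZFSet.mem_sdiff.2 ⟨r.at_mem w, fun h2 =>
      hK w hw ((r.h.mem_st (Zm_mem m)).1 h2)⟩⟩
  obtain ⟨y, hy, hy'⟩ := h (st (Zm m)) (r.h.stM _ (Zm_mem m)) ⟨fun z hz => by
    obtain ⟨w, rfl⟩ := r.h.atoms (Zm_mem m) z hz
    exact r.at_mem w, hop⟩ ⟨at' (Finsupp.single 0 m), (r.h.mem_st (Zm_mem m)).2
      (Finsupp.single_eq_same)⟩
  obtain ⟨w, rfl⟩ := r.h.atoms (Zm_mem m) y hy
  have hw : w 0 = m := (r.h.mem_st (Zm_mem m)).1 hy
  have hwE : w ∉ insert 0 E := fun h1 => hm (Finset.mem_image.2 ⟨w, h1, hw⟩)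
  obtain ⟨K, hK⟩ := exists_late _ hwE
  set γ := mv w K 1 with hγ
  have hfix : ∀ x ∈ insert 0 E, γ • x = x := fun x hx => mv_fix (hK K le_rfl x hx)
  have h1 := hE γ (fun x hx => hfix x (Finset.mem_insert_of_mem hx)) _ ud_pr
    (.inr (.inl (Zm m))) (.inl w) (Zm_mem m) trivial ((hy' _).2 rfl)
  change pair (st (im' γ (Zm m))) (at' (γ • w)) ∈ f at h1
  rw [im'_Zm, hfix 0 (Finset.mem_insert_self _ _)] at h1
  have h2 : (0 : Xs) 0 = 0 := rfl
  rw [h2, add_zero, hy'] at h1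
  have h3 := r.h.inj h1
  rw [hγ, mv_self] at h3
  have h4 := DFunLike.congr_fun h3 K
  rw [Finsupp.add_apply, Finsupp.single_eq_same] at h4
  omega

end RB

theorem main : ∃ M : Set ZFSet.{0}, M.Countable ∧ IsZF M ∧ ∃ X ∈ M, ∃ τ ∈ M, IsTopIn M X τ ∧
    CantorMetrizableIn M X τ ∧ KLoebIn M X τ ∧ CufBaseIn M X τ ∧ ¬ LoebIn M X τ := by
  obtain ⟨M, at', st, fam, B0, B1, r⟩ := exists_rb
  exact ⟨M, r.h.cnt, r.h.zf, _, r.XM, _, r.tau_mem, r.top, ⟨_, r.metric, r.cantor⟩, r.kLoeb,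
    r.cufBase, r.notLoeb⟩

end Pool.Agent.Q212.LB
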