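import Pool.Agent.H916R3.HFC.Delta
import Pool.Agent.W684.MADef

/-!
# Trees, the fine wedge topology, and the effect of Martin's axiom
-/

universe u v

open Set Cardinal

namespace Pool.Agent.Q212.LTree

open Pool.Agent.H916R3.HFC Pool.Agent.W684

/-- A tree: a partial order in which the set of the predecessors of each node is well-ordered. -/
def IsTree (T : Type u) [PartialOrder T] : Prop :=
  ∀ x : T, IsWellOrder (Iio x) (· < ·)

/-- The fine wedge topology, generated by the cones `V_t = {s | t ≤ s}` and their complements. -/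
@[instance_reducible]
def fineWedge (T : Type u) [PartialOrder T] : TopologicalSpace T :=
  TopologicalSpace.generateFrom {U | ∃ t : T, U = Ici t ∨ U = (Ici t)ᶜ}

/-- The tree `T` is Lindelof in the fine wedge topology. -/
def LindelofTree (T : Type u) [PartialOrder T] : Prop := @LindelofSpace T (fineWedge T)

/-- The product of `T` with the fine wedge topology and the space `Y` is Lindelof. -/
def LindelofProduct (T : Type u) [PartialOrder T] (Y : Type v) (τ : TopologicalSpace Y) : Prop :=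
  @LindelofSpace (T × Y) (@instTopologicalSpaceProd T Y (fineWedge T) τ)

section Basics

variable {T : Type u} [PartialOrder T]

theorem IsTree.comparable (hT : IsTree T) {a b x : T} (ha : a ≤ x) (hb : b ≤ x) :
    a ≤ b ∨ b ≤ a := by
  rcases ha.eq_or_lt with rfl | ha
  · exact Or.inr hb
  rcases hb.eq_or_lt with rfl | hb
  · exact Or.inl ha.le
  have := hT x
  rcases trichotomous_of (fun p q : Iio x => p < q) ⟨a, ha⟩ ⟨b, hb⟩ with h | h | h
  · exact Or.inl (le_of_lt h)
  · exact Or.inl (le_of_eq (Subtype.ext_iff.mp h))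
  · exact Or.inr (le_of_lt h)

/-- Nonempty sets of nodes below `x` have a least element. -/
theorem IsTree.exists_least (hT : IsTree T) {x : T} {A : Set T} (hA : ∀ a ∈ A, a ≤ x)
    (hne : A.Nonempty) : ∃ m ∈ A, ∀ a ∈ A, m ≤ a := by
  by_cases hx : ∃ a ∈ A, a < x
  · have := hT x
    have hne' : {p : Iio x | p.1 ∈ A}.Nonempty := by
      obtain ⟨a, ha, hax⟩ := hx
      exact ⟨⟨a, hax⟩, ha⟩
    have hwf : WellFounded (fun p q : Iio x => p < q) := IsWellFounded.wf
    refine ⟨(hwf.min _ hne').1, hwf.min_mem _ hne', fun a ha => ?_⟩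
    have hm := hwf.min_mem _ hne'
    rcases hT.comparable (hwf.min _ hne').2.le (hA a ha) with h | h
    · exact h
    · rcases h.eq_or_lt with h | h
      · exact h.symm.le
      · have hax : a < x := h.trans (hwf.min _ hne').2
        exact absurd h (hwf.not_lt_min _ (x := ⟨a, hax⟩) ha)
  · push Not at hx
    obtain ⟨a, ha⟩ := hne
    have hax : a = x := (hA a ha).eq_of_not_lt (hx a ha)
    refine ⟨a, ha, fun b hb => ?_⟩
    have hbx : b = x := (hA b hb).eq_of_not_lt (hx b hb)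
    rw [hax, hbx]

/-- The immediate successor of `s` below `a`. -/
theorem IsTree.exists_covBy (hT : IsTree T) {s a : T} (h : s < a) : ∃ c, s ⋖ c ∧ c ≤ a := by
  obtain ⟨m, hm, hmin⟩ := hT.exists_least (x := a) (A := {c | s < c ∧ c ≤ a}) (fun c hc => hc.2)
    ⟨a, h, le_rfl⟩
  refine ⟨m, ⟨hm.1, fun c hc hcm => ?_⟩, hm.2⟩
  exact absurd hcm (not_lt_of_ge (hmin c ⟨hc, hcm.le.trans hm.2⟩))

theorem covBy_unique (hT : IsTree T) {s c c' x : T} (h : s ⋖ c) (h' : s ⋖ c') (hx : c ≤ x)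
    (hx' : c' ≤ x) : c = c' := by
  rcases hT.comparable hx hx' with h1 | h1
  · rcases h1.eq_or_lt with h1 | h1
    · exact h1
    · exact absurd h1 (h'.2 h.1)
  · rcases h1.eq_or_lt with h1 | h1
    · exact h1.symm
    · exact absurd h1 (h.2 h'.1)

/-- If `s ⋖ c ≤ x` and `s < d ≤ x` then `c ≤ d`. -/
theorem covBy_le (hT : IsTree T) {s c d x : T} (h : s ⋖ c) (hx : c ≤ x) (hd : s < d)
    (hdx : d ≤ x) : c ≤ d := by
  rcases hT.comparable hx hdx with h1 | h1
  · exact h1
  · rcases h1.eq_or_lt with h1 | h1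
    · exact h1.symm.le
    · exact absurd h1 (h.2 hd)

/-- `S` is finitely splitting. -/
def FinSplit (S : Set T) : Prop := ∀ t ∈ S, {c | c ∈ S ∧ t ⋖ c}.Finite

/-- `S` is countably splitting. -/
def CtblSplit (S : Set T) : Prop := ∀ t ∈ S, {c | c ∈ S ∧ t ⋖ c}.Countable

end Basics

section Topology

variable {T : Type u} [PartialOrder T]

/-- Basic neighbourhoods in the fine wedge topology. -/
theorem mem_nhds (hT : IsTree T) {t : T} {U : Set T} (hU : U ∈ @nhds T (fineWedge T) t) :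
    ∃ F : Set T, F.Finite ∧ (∀ c ∈ F, t ⋖ c) ∧ {x | t ≤ x ∧ ∀ c ∈ F, ¬ c ≤ x} ⊆ U := by
  let 𝓕 : Filter T :=
    { sets := {U | ∃ F : Set T, F.Finite ∧ (∀ c ∈ F, t ⋖ c) ∧
        {x | t ≤ x ∧ ∀ c ∈ F, ¬ c ≤ x} ⊆ U}
      univ_sets := ⟨∅, finite_empty, by simp, subset_univ _⟩
      sets_of_superset := by
        rintro U V ⟨F, h1, h2, h3⟩ hUV
        exact ⟨F, h1, h2, h3.trans hUV⟩
      inter_sets := by
        rintro U V ⟨F, h1, h2, h3⟩ ⟨F', h1', h2', h3'⟩
        refine ⟨F ∪ F', h1.union h1', ?_, ?_⟩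
        · rintro c (hc | hc)
          · exact h2 c hc
          · exact h2' c hc
        · rintro x ⟨hx, hF⟩
          exact ⟨h3 ⟨hx, fun c hc => hF c (Or.inl hc)⟩, h3' ⟨hx, fun c hc => hF c (Or.inr hc)⟩⟩ }
  have hle : 𝓕 ≤ @nhds T (fineWedge T) t := by
    unfold fineWedge
    rw [TopologicalSpace.nhds_generateFrom]
    refine le_iInf₂ fun V hV => ?_
    rw [Filter.le_principal_iff]
    obtain ⟨htV, r, rfl | rfl⟩ := hV
    · exact ⟨∅, finite_empty, by simp, fun x hx => le_trans htV hx.1⟩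
    · by_cases htr : t < r
      · obtain ⟨c, hc, hcr⟩ := hT.exists_covBy htr
        refine ⟨{c}, finite_singleton c, by simpa using hc, fun x hx hrx => ?_⟩
        exact hx.2 c rfl (hcr.trans hrx)
      · refine ⟨∅, finite_empty, by simp, fun x hx hrx => ?_⟩
        rcases hT.comparable hx.1 (show r ≤ x from hrx) with h | h
        · rcases h.eq_or_lt with h | h
          · exact htV h.symm.le
          · exact htr h
        · exact htV h
  exact hle hU

theorem isOpen_Ici (t : T) : @IsOpen T (fineWedge T) (Ici t) :=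
  TopologicalSpace.isOpen_generateFrom_of_mem ⟨t, Or.inl rfl⟩

theorem isOpen_compl_Ici (t : T) : @IsOpen T (fineWedge T) (Ici t)ᶜ :=
  TopologicalSpace.isOpen_generateFrom_of_mem ⟨t, Or.inr rfl⟩

theorem isOpen_basic (t : T) {F : Set T} (hF : F.Finite) :
    @IsOpen T (fineWedge T) {x | t ≤ x ∧ ∀ c ∈ F, ¬ c ≤ x} := by
  let _ := fineWedge T
  have h1 : {x | t ≤ x ∧ ∀ c ∈ F, ¬ c ≤ x} = Ici t ∩ ⋂ c ∈ F, (Ici c)ᶜ := by
    ext x
    simp
  rw [h1]
  exact (isOpen_Ici t).inter (hF.isOpen_biInter fun c _ => isOpen_compl_Ici c)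

/-- In a Lindelof tree all finitely splitting subtrees are countable. -/
theorem countable_of_finSplit (hT : IsTree T) (hL : LindelofTree T) {S : Set T}
    (hS : IsLowerSet S) (hfs : FinSplit S) : S.Countable := by
  classical
  let _ := fineWedge T
  have : LindelofSpace T := hL
  let U : T → Set T := fun x => if x ∈ S then {y | x ≤ y ∧ ∀ c ∈ {c | c ∈ S ∧ x ⋖ c}, ¬ c ≤ y}
    else Ici x
  have hU : ∀ x, U x ∈ nhds x := by
    intro x
    by_cases hx : x ∈ S
    · simp only [U, if_pos hx]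
      refine (isOpen_basic x (hfs x hx)).mem_nhds ⟨le_rfl, fun c hc hcx => ?_⟩
      exact absurd hc.2.1 (not_lt_of_ge hcx)
    · simp only [U, if_neg hx]
      exact (isOpen_Ici x).mem_nhds le_rfl
  obtain ⟨t, htc, htU⟩ := LindelofSpace.elim_nhds_subcover U hU
  refine htc.mono fun s hs => ?_
  have h1 : s ∈ ⋃ x ∈ t, U x := by rw [htU]; exact mem_univ s
  obtain ⟨x, hx, hsx⟩ := mem_iUnion₂.mp h1
  by_cases hxS : x ∈ S
  · simp only [U, if_pos hxS] at hsx
    rcases hsx.1.eq_or_lt with h | h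
    · rwa [← h]
    · obtain ⟨c, hc, hcs⟩ := hT.exists_covBy h
      exact absurd hcs (hsx.2 c ⟨hS hcs hs, hc⟩)
  · simp only [U, if_neg hxS] at hsx
    exact absurd (hS hsx hs) hxS

/-- If all countably splitting subtrees of `T` are countable, then the product of `T` with any
Lindelof space is Lindelof. -/
theorem lindelofProduct_of_ctblSplit (hT : IsTree T)
    (h : ∀ S : Set T, IsLowerSet S → CtblSplit S → S.Countable)
    (Y : Type v) [τ : TopologicalSpace Y] [LindelofSpace Y] : LindelofProduct T Y τ := by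
  classical
  let _ := fineWedge T
  refine ⟨isLindelof_of_countable_subcover fun {ι} U hUo hUc => ?_⟩
  -- rectangles
  have hrect : ∀ (s : T) (y : Y), ∃ (i : ι) (F : Set T) (O : Set Y), F.Finite ∧ (∀ c ∈ F, s ⋖ c) ∧
      IsOpen O ∧ y ∈ O ∧ {x | s ≤ x ∧ ∀ c ∈ F, ¬ c ≤ x} ×ˢ O ⊆ U i := by
    intro s y
    obtain ⟨i, hi⟩ := mem_iUnion.mp (hUc (mem_univ (s, y)))
    have hn : U i ∈ nhds (s, y) := (hUo i).mem_nhds hi
    rw [mem_nhds_prod_iff] at hn
    obtain ⟨A, hA, B, hB, hAB⟩ := hn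
    obtain ⟨F, hF1, hF2, hF3⟩ := mem_nhds hT hA
    obtain ⟨O, hO1, hO2, hO3⟩ := _root_.mem_nhds_iff.mp hB
    exact ⟨i, F, O, hF1, hF2, hO2, hO3, (prod_mono hF3 hO1).trans hAB⟩
  choose i F O hF1 hF2 hO1 hO2 hO3 using hrect
  -- for each `s` countably many `y` suffice
  have hcov : ∀ s, ∃ t : Set Y, t.Countable ∧ ⋃ y ∈ t, O s y = Set.univ := fun s =>
    LindelofSpace.elim_nhds_subcover (O s) fun y => (hO1 s y).mem_nhds (hO2 s y)
  choose t htc htU using hcov
  -- the subtree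
  let S : Set T := {s | ∀ s' c, s' ⋖ c → c ≤ s → ∃ y ∈ t s', c ∈ F s' y}
  have hS : IsLowerSet S := fun a b hba ha s' c h1 h2 => ha s' c h1 (h2.trans hba)
  have hSc : CtblSplit S := by
    intro s _
    refine ((htc s).biUnion fun y _ => (hF1 s y).countable).mono ?_
    rintro c ⟨hc, hsc⟩
    obtain ⟨y, hy, hcy⟩ := hc s c hsc le_rfl
    exact mem_iUnion₂.mpr ⟨y, hy, hcy⟩
  have hScount := h S hS hSc
  refine ⟨(fun p : T × Y => i p.1 p.2) '' {p | p.1 ∈ S ∧ p.2 ∈ t p.1}, ?_, ?_⟩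
  · refine Set.Countable.image ?_ _
    have : {p : T × Y | p.1 ∈ S ∧ p.2 ∈ t p.1} = ⋃ s ∈ S, (fun y => (s, y)) '' t s := by
      ext ⟨s, y⟩
      simp only [mem_ofPred_eq, mem_iUnion, mem_image, Prod.mk.injEq, exists_prop]
      constructor
      · rintro ⟨h1, h2⟩
        exact ⟨s, h1, y, h2, rfl, rfl⟩
      · rintro ⟨s', h1, y', h2, rfl, rfl⟩
        exact ⟨h1, h2⟩
    rw [this]
    exact hScount.biUnion fun s _ => (htc s).image _
  · rintro ⟨a, z⟩ _
    -- if some `s ≤ a` in `S` has a rectangle containing `(a, z)` we are done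
    by_cases hex : ∃ s ∈ S, ∃ y ∈ t s, s ≤ a ∧ (∀ c ∈ F s y, ¬ c ≤ a) ∧ z ∈ O s y
    · obtain ⟨s, hs, y, hy, hsa, hFa, hz⟩ := hex
      refine mem_iUnion₂.mpr ⟨i s y, ⟨(s, y), ⟨hs, hy⟩, rfl⟩, ?_⟩
      exact hO3 s y ⟨⟨hsa, hFa⟩, hz⟩
    exfalso
    push Not at hex
    have haS : a ∈ S := by
      by_contra haS
      -- the least node below `a` outside `S`
      obtain ⟨m, hm, hmin⟩ := hT.exists_least (x := a) (A := {s | s ≤ a ∧ s ∉ S})
        (fun s hs => hs.1) ⟨a, le_rfl, haS⟩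
      apply hm.2
      intro s' c hc hcm
      have hs'm : s' < m := hc.1.trans_le hcm
      have hs'S : s' ∈ S := by
        by_contra hs'
        exact absurd (hmin s' ⟨(hs'm.le.trans hm.1), hs'⟩) (fun h => absurd hs'm (not_lt_of_ge h))
      have hz : z ∈ ⋃ y ∈ t s', O s' y := by rw [htU]; exact mem_univ z
      obtain ⟨y, hy, hzy⟩ := mem_iUnion₂.mp hz
      by_contra hcon
      push Not at hcon
      refine hex s' hs'S y hy (hs'm.le.trans hm.1) ?_ hzy
      intro c' hc' hc'a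
      have : c' = c := covBy_unique hT (hF2 s' y c' hc') hc hc'a (hcm.trans hm.1)
      rw [this] at hc'
      exact hcon y hy hc'
    have hz : z ∈ ⋃ y ∈ t a, O a y := by rw [htU]; exact mem_univ z
    obtain ⟨y, hy, hzy⟩ := mem_iUnion₂.mp hz
    refine hex a haS y hy le_rfl ?_ hzy
    intro c hc hca
    exact absurd (hF2 a y c hc).1 (not_lt_of_ge hca)

end Topology

end Pool.Agent.Q212.LTree
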