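import Pool.Agent.Q212.LTree

/-!
# A Lindelof tree of height `ω + 1` with a non-Lindelof square, from CH
-/

open Set Cardinal

namespace Pool.Agent.Q212.LTree

/-! ### Diagonal sequences -/

/-- The initial segment of length `n` of `x`. -/
def ini (x : ℕ → ℕ) (n : ℕ) : List ℕ := (List.range n).map x

@[simp] theorem length_ini (x : ℕ → ℕ) (n : ℕ) : (ini x n).length = n := by simp [ini]

theorem ini_congr {x y : ℕ → ℕ} {n : ℕ} (h : ∀ m < n, x m = y m) : ini x n = ini y n := by
  unfold ini
  exact List.map_congr_left fun m hm => h m (List.mem_range.mp hm)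

theorem ini_succ (x : ℕ → ℕ) (n : ℕ) : ini x (n + 1) = ini x n ++ [x n] := by
  simp [ini, List.range_succ]

theorem ini_inj {x : ℕ → ℕ} {m n : ℕ} (h : ini x m = ini x n) : m = n := by
  have := congrArg List.length h
  simpa using this

theorem ini_prefix (x : ℕ → ℕ) {m n : ℕ} (h : m ≤ n) : ini x m <+: ini x n := by
  induction n, h using Nat.le_induction with
  | base => exact List.prefix_rfl
  | succ n _ ih =>
    refine ih.trans ?_
    rw [ini_succ]
    exact List.prefix_append _ _

theorem prefix_ini {x : ℕ → ℕ} {n : ℕ} {s : List ℕ} (h : s <+: ini x n) :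
    s = ini x s.length := by
  have hl : s.length ≤ n := by
    have := h.length_le
    simpa using this
  have h1 := ini_prefix x hl
  exact List.IsPrefix.eq_of_length (List.prefix_of_prefix_length_le h h1 (by simp)) (by simp)

/-- The limit of a sequence of functions each of which changes the previous one at one point. -/
theorem exists_limit (X : ℕ → ℕ → ℕ) (L a : ℕ → ℕ) (hL : ∀ k, L k < L (k + 1))
    (h0 : ∀ m, X 0 m = 0) (hX : ∀ k, X (k + 1) = Function.update (X k) (L k) (a k)) :
    ∃ x : ℕ → ℕ, (∀ k, ∀ m < L k, x m = X k m) ∧ (∀ k, x (L k) = a k) ∧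
      ∀ m, x m = 0 ∨ ∃ k, m = L k := by
  have hmono : StrictMono L := strictMono_nat_of_lt_succ hL
  have hstab : ∀ k j, k ≤ j → ∀ m < L k, X j m = X k m := by
    intro k j hkj
    induction j, hkj using Nat.le_induction with
    | base => intro m _; rfl
    | succ j hj ih =>
      intro m hm
      rw [hX, Function.update_of_ne, ih m hm]
      have := hmono.monotone hj
      omega
  have hval : ∀ k, ∀ m < L k, X (m + 1) m = X k m := by
    intro k m hm
    have h1 : m < L (m + 1) := lt_of_lt_of_le (Nat.lt_succ_self m) hmono.le_apply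
    rcases le_total k (m + 1) with h | h
    · exact hstab k (m + 1) h m hm
    · exact (hstab (m + 1) k h m h1).symm
  refine ⟨fun m => X (m + 1) m, hval, fun k => ?_, fun m => ?_⟩
  · change X (L k + 1) (L k) = a k
    rw [hval (k + 1) (L k) (hL k), hX, Function.update_self]
  · by_cases hm : ∃ k, m = L k
    · exact Or.inr hm
    · left
      have : ∀ k, X k m = 0 := by
        intro k
        induction k with
        | zero => exact h0 m
        | succ k ih =>
          rw [hX, Function.update_of_ne (fun h => hm ⟨k, h⟩), ih]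
      exact this _

/-- One step of the construction. -/
def stepA (g : List ℕ → ℕ) (p : (ℕ → ℕ) × (ℕ → ℕ) × ℕ) : ℕ := g (ini p.1 p.2.2) + 1

/-- The place of the next large value of the second sequence. -/
def stepM (g : List ℕ → ℕ) (p : (ℕ → ℕ) × (ℕ → ℕ) × ℕ) : ℕ := p.2.2 + 1 + stepA g p

/-- The next large value of the second sequence. -/
def stepB (g : List ℕ → ℕ) (p : (ℕ → ℕ) × (ℕ → ℕ) × ℕ) : ℕ := g (ini p.2.1 (stepM g p)) + 1

/-- The states of the construction. -/
def state (G : ℕ → List ℕ → ℕ) : ℕ → (ℕ → ℕ) × (ℕ → ℕ) × ℕ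
  | 0 => (fun _ => 0, fun _ => 0, 0)
  | k + 1 => (Function.update (state G k).1 (state G k).2.2 (stepA (G k) (state G k)),
      Function.update (state G k).2.1 (stepM (G k) (state G k)) (stepB (G k) (state G k)),
      stepM (G k) (state G k) + 1 + stepB (G k) (state G k))

/-- Two sequences which escape from countably many functions, and which are large far apart. -/
theorem exists_pair (G : ℕ → List ℕ → ℕ) : ∃ x y : ℕ → ℕ,
    (∀ k, ∃ n, G k (ini x n) < x n) ∧ (∀ k, ∃ n, G k (ini y n) < y n) ∧
    ∀ m n, x m ≤ m + n ∨ y n ≤ m + n := by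
  let a : ℕ → ℕ := fun k => stepA (G k) (state G k)
  let b : ℕ → ℕ := fun k => stepB (G k) (state G k)
  let L : ℕ → ℕ := fun k => (state G k).2.2
  let M : ℕ → ℕ := fun k => stepM (G k) (state G k)
  have hM : ∀ k, M k = L k + 1 + a k := fun k => rfl
  have hL : ∀ k, L (k + 1) = M k + 1 + b k := fun k => rfl
  have hL1 : ∀ k, L k < L (k + 1) := fun k => by rw [hL, hM]; omega
  have hM1 : ∀ k, M k < M (k + 1) := fun k => by rw [hM (k + 1), hL]; omega
  obtain ⟨x, hx1, hx2, hx3⟩ := exists_limit (fun k => (state G k).1) L a hL1 (fun m => rfl)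
    (fun k => rfl)
  obtain ⟨y, hy1, hy2, hy3⟩ := exists_limit (fun k => (state G k).2.1) M b hM1 (fun m => rfl)
    (fun k => rfl)
  have hLm : StrictMono L := strictMono_nat_of_lt_succ hL1
  have hMm : StrictMono M := strictMono_nat_of_lt_succ hM1
  refine ⟨x, y, fun k => ⟨L k, ?_⟩, fun k => ⟨M k, ?_⟩, fun m n => ?_⟩
  · rw [hx2, ini_congr (hx1 k)]
    exact Nat.lt_succ_self _
  · rw [hy2, ini_congr (hy1 k)]
    exact Nat.lt_succ_self _
  · rcases hx3 m with h | ⟨k, rfl⟩
    · left
      rw [h]
      exact Nat.zero_le _
    rcases hy3 n with h | ⟨j, rfl⟩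
    · right
      rw [h]
      exact Nat.zero_le _
    rw [hx2, hy2]
    rcases le_or_gt k j with h | h
    · left
      have h1 := hMm.monotone h
      have h2 := hM k
      omega
    · right
      have h1 := hLm.monotone (show j + 1 ≤ k from h)
      have h2 := hL j
      omega

/-! ### The tree -/

/-- Finite sequences of natural numbers together with the branches `z i`. -/
inductive BTree {ι : Type} (z : ι → ℕ → ℕ) : Type
  | node (s : List ℕ) : BTree z
  | tip (i : ι) : BTree z

namespace BTree

variable {ι : Type} {z : ι → ℕ → ℕ}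

/-- The tree order: end-extension. -/
protected def le : BTree z → BTree z → Prop
  | node s, node t => s <+: t
  | node s, tip i => s = ini (z i) s.length
  | tip _, node _ => False
  | tip i, tip j => i = j

instance : PartialOrder (BTree z) where
  le := BTree.le
  le_refl a := by
    cases a with
    | node s => exact List.prefix_rfl
    | tip i => exact rfl
  le_trans a b c hab hbc := by
    cases a with
    | node s =>
      cases b with
      | node t =>
        cases c with
        | node u => exact List.IsPrefix.trans hab hbc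
        | tip i =>
          have h1 : s <+: t := hab
          have h2 : t = ini (z i) t.length := hbc
          rw [h2] at h1
          exact prefix_ini h1
      | tip i =>
        cases c with
        | node u => exact hbc.elim
        | tip j =>
          have h : i = j := hbc
          subst h
          exact hab
    | tip i =>
      cases b with
      | node t => exact hab.elim
      | tip j =>
        have h : i = j := hab
        subst h
        exact hbc
  le_antisymm a b hab hba := by
    cases a with
    | node s =>
      cases b with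
      | node t =>
        have h1 : s <+: t := hab
        have h2 : t <+: s := hba
        rw [h1.eq_of_length (le_antisymm h1.length_le h2.length_le)]
      | tip i => exact hba.elim
    | tip i =>
      cases b with
      | node t => exact hab.elim
      | tip j =>
        have h : i = j := hab
        rw [h]

theorem node_le_node {s t : List ℕ} : (node s : BTree z) ≤ node t ↔ s <+: t := Iff.rfl
theorem node_le_tip {s : List ℕ} {i : ι} : (node s : BTree z) ≤ tip i ↔
    s = ini (z i) s.length := Iff.rfl
theorem tip_le_tip {i j : ι} : (tip i : BTree z) ≤ tip j ↔ i = j := Iff.rfl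
theorem not_tip_le_node {i : ι} {s : List ℕ} : ¬ (tip i : BTree z) ≤ node s := fun h => h

/-- A rank function. -/
def rk : BTree z → WithTop ℕ
  | node s => (s.length : WithTop ℕ)
  | tip _ => ⊤

theorem rk_strictMono : StrictMono (rk (z := z)) := by
  intro a b hab
  cases a with
  | node s =>
    cases b with
    | node t =>
      have h : s <+: t := node_le_node.mp hab.le
      have hne : s.length ≠ t.length := by
        intro he
        exact hab.ne (by rw [h.eq_of_length he])
      have := lt_of_le_of_ne h.length_le hne
      simpa [rk] using this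
    | tip i =>
      simp only [rk]
      exact WithTop.coe_lt_top _
  | tip i =>
    cases b with
    | node t => exact absurd hab.le not_tip_le_node
    | tip j =>
      have h : i = j := tip_le_tip.mp hab.le
      exact absurd hab (by rw [h]; exact lt_irrefl _)

theorem comparable_below {s t : List ℕ} {x : BTree z} (hs : (node s : BTree z) ≤ x)
    (ht : (node t : BTree z) ≤ x) : s <+: t ∨ t <+: s := by
  cases x with
  | node u => exact List.prefix_or_prefix_of_prefix (node_le_node.mp hs) (node_le_node.mp ht)
  | tip i =>
    have h1 := node_le_tip.mp hs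
    have h2 := node_le_tip.mp ht
    rw [h1, h2]
    rcases le_total s.length t.length with h | h
    · exact Or.inl (ini_prefix _ h)
    · exact Or.inr (ini_prefix _ h)

theorem isTree : IsTree (BTree z) := by
  intro x
  have hwf : WellFounded (fun a b : Iio x => a < b) := by
    have h1 : WellFounded (fun a b : WithTop ℕ => a < b) := wellFounded_lt
    refine Subrelation.wf ?_ (InvImage.wf (fun a : Iio x => rk a.1) h1)
    intro a b hab
    exact rk_strictMono (Subtype.coe_lt_coe.mpr hab)
  refine { wf := hwf, trichotomous := ?_ }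
  rintro ⟨a, ha⟩ ⟨b, hb⟩
  cases a with
  | tip i =>
    exfalso
    cases x with
    | node s => exact not_tip_le_node (le_of_lt ha)
    | tip j =>
      have h : i = j := tip_le_tip.mp (le_of_lt ha)
      subst h
      exact lt_irrefl _ (mem_Iio.mp ha)
  | node s =>
    cases b with
    | tip i =>
      exfalso
      cases x with
      | node s => exact not_tip_le_node (le_of_lt hb)
      | tip j =>
        have h : i = j := tip_le_tip.mp (le_of_lt hb)
        subst h
        exact lt_irrefl _ (mem_Iio.mp hb)
    | node t =>
      rcases comparable_below (le_of_lt ha) (le_of_lt hb) with h | h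
      · rcases (node_le_node (z := z).mpr h).eq_or_lt with h' | h'
        · intro _ _
          exact Subtype.ext h'
        · intro h1
          exact absurd h' h1
      · rcases (node_le_node (z := z).mpr h).eq_or_lt with h' | h'
        · intro _ _
          exact Subtype.ext h'.symm
        · intro _ h2
          exact absurd h' h2

theorem node_covBy {s : List ℕ} {c : BTree z} (h : (node s : BTree z) ⋖ c) :
    ∃ k, c = node (s ++ [k]) := by
  cases c with
  | tip i =>
    exfalso
    have h1 := node_le_tip.mp h.1.le
    have h2 : (node (ini (z i) (s.length + 1)) : BTree z) < tip i := by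
      refine lt_of_le_not_ge (node_le_tip.mpr (by simp)) not_tip_le_node
    refine h.2 ?_ h2
    refine lt_of_le_of_ne ?_ ?_
    · rw [node_le_node, h1]
      simp only [length_ini]
      exact ini_prefix _ (Nat.le_succ _)
    · intro he
      injection he with he
      have := congrArg List.length he
      simp at this
  | node t =>
    obtain ⟨u, rfl⟩ : s <+: t := node_le_node.mp h.1.le
    cases u with
    | nil =>
      simp at h
    | cons k u =>
      refine ⟨k, ?_⟩
      by_contra hne
      have h3 : (node (s ++ [k]) : BTree z) ≤ node (s ++ k :: u) := by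
        rw [node_le_node]
        exact ⟨u, by simp⟩
      have h4 : (node (s ++ [k]) : BTree z) < node (s ++ k :: u) :=
        lt_of_le_of_ne h3 fun he => hne he.symm
      refine h.2 ?_ h4
      refine lt_of_le_of_ne (node_le_node.mpr (List.prefix_append _ _)) ?_
      intro he
      injection he with he
      have := congrArg List.length he
      simp at this

/-- The tree is Lindelof if the branches escape. -/
theorem lindelof (h : ∀ g : List ℕ → ℕ, {i | ∀ n, z i n ≤ g (ini (z i) n)}.Countable) :
    LindelofTree (BTree z) := by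
  classical
  let _ := fineWedge (BTree z)
  refine ⟨isLindelof_of_countable_subcover fun {ι'} U hUo hUc => ?_⟩
  have hch : ∀ x : BTree z, ∃ i, x ∈ U i := fun x => mem_iUnion.mp (hUc (mem_univ x))
  choose f hf using hch
  have hn : ∀ s : List ℕ, ∃ F : Set (BTree z), F.Finite ∧ (∀ c ∈ F, (node s : BTree z) ⋖ c) ∧
      {x | node s ≤ x ∧ ∀ c ∈ F, ¬ c ≤ x} ⊆ U (f (node s)) := fun s =>
    mem_nhds isTree ((hUo _).mem_nhds (hf (node s)))
  choose F hF1 hF2 hF3 using hn
  have hg : ∀ s : List ℕ, ∃ m : ℕ, ∀ k, (node (s ++ [k]) : BTree z) ∈ F s → k ≤ m := by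
    intro s
    have hfin : {k | (node (s ++ [k]) : BTree z) ∈ F s}.Finite := by
      refine (hF1 s).preimage (f := fun k => (node (s ++ [k]) : BTree z)) ?_
      intro k _ l _ hkl
      have h1 : s ++ [k] = s ++ [l] := by
        have h2 : (node (s ++ [k]) : BTree z) = node (s ++ [l]) := hkl
        injection h2
      simpa using h1
    obtain ⟨m, hm⟩ := hfin.bddAbove
    exact ⟨m, fun k hk => hm hk⟩
  choose g hg using hg
  refine ⟨f '' (range (node : List ℕ → BTree z) ∪ tip '' {i | ∀ n, z i n ≤ g (ini (z i) n)}),
    ((countable_range _).union ((h g).image _)).image _, ?_⟩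
  rintro x -
  by_cases hx : x ∈ range (node : List ℕ → BTree z) ∪ tip '' {i | ∀ n, z i n ≤ g (ini (z i) n)}
  · exact mem_iUnion₂.mpr ⟨f x, ⟨x, hx, rfl⟩, hf x⟩
  cases x with
  | node s => exact absurd (Or.inl ⟨s, rfl⟩) hx
  | tip i =>
    have hi : ∃ n, g (ini (z i) n) < z i n := by
      by_contra hcon
      push Not at hcon
      exact hx (Or.inr ⟨i, hcon, rfl⟩)
    obtain ⟨n, hn⟩ := hi
    refine mem_iUnion₂.mpr ⟨f (node (ini (z i) n)), ⟨_, Or.inl ⟨_, rfl⟩, rfl⟩, ?_⟩
    refine hF3 _ ⟨node_le_tip.mpr (by simp), fun c hc hci => ?_⟩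
    obtain ⟨k, rfl⟩ := node_covBy (hF2 _ c hc)
    have h1 := node_le_tip.mp hci
    simp only [List.length_append, length_ini, List.length_cons, List.length_nil, zero_add] at h1
    rw [ini_succ] at h1
    have h2 : k = z i n := by simpa using h1
    have h3 := hg _ k hc
    omega

/-- The product is not Lindelof if there are uncountably many pairs of branches which are large
far apart. -/
theorem not_lindelofProduct {W : Type} {x y : W → ι} (hW : ¬ (univ : Set W).Countable)
    (hx : Function.Injective x) (hy : Function.Injective y)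
    (h : ∀ w m n, z (x w) m ≤ m + n ∨ z (y w) n ≤ m + n) :
    ¬ LindelofProduct (BTree z) (BTree z) (fineWedge (BTree z)) := by
  classical
  intro hL
  let _ := fineWedge (BTree z)
  have : LindelofSpace (BTree z × BTree z) := hL
  -- the box of `(u, v)`
  let N : List ℕ → ℕ → Set (BTree z) := fun u r =>
    {a | node u ≤ a ∧ ∀ c ∈ ((fun k => (node (u ++ [k]) : BTree z)) '' Iic r), ¬ c ≤ a}
  have hNo : ∀ u r, IsOpen (N u r) := fun u r => isOpen_basic _ ((finite_Iic r).image _)
  have hNself : ∀ u r, node u ∈ N u r := by
    rintro u r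
    refine ⟨le_rfl, ?_⟩
    rintro _ ⟨k, _, rfl⟩ hk
    have := (node_le_node.mp hk).length_le
    simp at this
  have hNtip : ∀ u r i, tip i ∈ N u r → u = ini (z i) u.length ∧ r < z i u.length := by
    intro u r i hi
    have h1 := node_le_tip.mp hi.1
    refine ⟨h1, ?_⟩
    by_contra hcon
    push Not at hcon
    refine hi.2 _ ⟨z i u.length, hcon, rfl⟩ ?_
    rw [node_le_tip]
    simp only [List.length_append, List.length_cons, List.length_nil, zero_add]
    rw [ini_succ, ← h1]
  have htip : ∀ i, IsOpen ({tip i} : Set (BTree z)) := by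
    intro i
    have h1 : ({tip i} : Set (BTree z)) = Ici (tip i) := by
      ext a
      cases a with
      | node s => simp [not_tip_le_node]
      | tip j =>
        simp only [mem_singleton_iff, mem_Ici, tip_le_tip, tip.injEq]
        exact eq_comm
    rw [h1]
    exact isOpen_Ici _
  let V : BTree z × BTree z → Set (BTree z × BTree z) := fun p =>
    match p with
    | (node u, node v) => N u (u.length + v.length) ×ˢ N v (u.length + v.length)
    | (tip i, _) => {tip i} ×ˢ Set.univ
    | (node _, tip j) => Set.univ ×ˢ {tip j}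
  have hV : ∀ p, V p ∈ nhds p := by
    rintro ⟨a, b⟩
    cases a with
    | tip i => exact ((htip i).prod isOpen_univ).mem_nhds ⟨rfl, mem_univ _⟩
    | node u =>
      cases b with
      | tip j => exact (isOpen_univ.prod (htip j)).mem_nhds ⟨mem_univ _, rfl⟩
      | node v => exact ((hNo _ _).prod (hNo _ _)).mem_nhds ⟨hNself _ _, hNself _ _⟩
  obtain ⟨t, htc, htU⟩ := LindelofSpace.elim_nhds_subcover V hV
  apply hW
  have h1 : {i | (tip i : BTree z) ∈ Prod.fst '' t}.Countable :=
    (htc.image _).preimage_of_injOn (f := (tip : ι → BTree z)) (fun a _ b _ hab => by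
      injection hab)
  have h2 : {i | (tip i : BTree z) ∈ Prod.snd '' t}.Countable :=
    (htc.image _).preimage_of_injOn (f := (tip : ι → BTree z)) (fun a _ b _ hab => by
      injection hab)
  refine Set.Countable.mono (s₂ := x ⁻¹' {i | (tip i : BTree z) ∈ Prod.fst '' t} ∪
    y ⁻¹' {i | (tip i : BTree z) ∈ Prod.snd '' t}) ?_
    ((h1.preimage_of_injOn hx.injOn).union (h2.preimage_of_injOn hy.injOn))
  rintro w -
  have h3 : ((tip (x w), tip (y w)) : BTree z × BTree z) ∈ ⋃ p ∈ t, V p := by
    rw [htU]
    exact mem_univ _
  obtain ⟨⟨a, b⟩, hab, hw⟩ := mem_iUnion₂.mp h3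
  cases a with
  | tip i =>
    left
    have h4 : tip (x w) = (tip i : BTree z) := hw.1
    exact ⟨(tip i, b), hab, h4.symm⟩
  | node u =>
    cases b with
    | tip j =>
      right
      have h4 : tip (y w) = (tip j : BTree z) := hw.2
      exact ⟨(node u, tip j), hab, h4.symm⟩
    | node v =>
      exfalso
      obtain ⟨-, h5⟩ := hNtip _ _ _ hw.1
      obtain ⟨-, h6⟩ := hNtip _ _ _ hw.2
      rcases h w u.length v.length with h7 | h7 <;> omega

end BTree

/-- Under CH there is a Lindelof tree whose square is not Lindelof. -/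
theorem exists_tree (hCH : (ℵ_ 1 : Cardinal.{0}) = 𝔠) : ∃ (T : Type) (_ : PartialOrder T),
    IsTree T ∧ LindelofTree T ∧ ¬ LindelofProduct T T (fineWedge T) := by
  classical
  let W := (ℵ_ 1 : Cardinal.{0}).ord.ToType
  have hIic : ∀ w : W, (Iic w).Countable := by
    intro w
    have h1 : (Iio w).Countable := by
      rw [← Cardinal.le_aleph0_iff_set_countable, ← Cardinal.lt_aleph_one_iff]
      exact Cardinal.mk_Iio_toType_ord_lt w
    rw [← Iio_insert]
    exact h1.insert w
  have hcard : #W = #(List ℕ → ℕ) := by
    rw [mk_ord_toType, hCH]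
    simp
  obtain ⟨G⟩ := Cardinal.eq.mp hcard
  have hpair : ∀ w : W, ∃ p : (ℕ → ℕ) × (ℕ → ℕ), (∀ v ≤ w, ∃ n, G v (ini p.1 n) < p.1 n) ∧
      (∀ v ≤ w, ∃ n, G v (ini p.2 n) < p.2 n) ∧ ∀ m n, p.1 m ≤ m + n ∨ p.2 n ≤ m + n := by
    intro w
    obtain ⟨e, he⟩ := (hIic w).exists_eq_range ⟨w, self_mem_Iic⟩
    obtain ⟨x, y, h1, h2, h3⟩ := exists_pair fun k => G (e k)
    refine ⟨(x, y), ?_, ?_, h3⟩
    · intro v hv
      obtain ⟨k, rfl⟩ : v ∈ range e := he ▸ hv
      exact h1 k
    · intro v hv
      obtain ⟨k, rfl⟩ : v ∈ range e := he ▸ hv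
      exact h2 k
  choose p hp1 hp2 hp3 using hpair
  let z : W × Bool → ℕ → ℕ := fun i => if i.2 then (p i.1).1 else (p i.1).2
  refine ⟨BTree z, inferInstance, BTree.isTree, BTree.lindelof ?_, ?_⟩
  · intro g
    obtain ⟨v, rfl⟩ := G.surjective g
    refine Set.Countable.mono (s₂ := Iio v ×ˢ Set.univ) ?_
      ((((hIic v).mono Iio_subset_Iic_self)).prod (countable_univ (α := Bool)))
    rintro ⟨w, b⟩ hw
    refine ⟨?_, mem_univ _⟩
    by_contra hcon
    have hvw : v ≤ w := not_lt.mp hcon
    cases b with
    | true =>
      obtain ⟨n, hn⟩ := hp1 w v hvw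
      exact absurd (hw n) (not_le.mpr hn)
    | false =>
      obtain ⟨n, hn⟩ := hp2 w v hvw
      exact absurd (hw n) (not_le.mpr hn)
  · refine BTree.not_lindelofProduct (W := W) (x := fun w => (w, true)) (y := fun w => (w, false))
      ?_ (fun a b hab => (Prod.mk.inj hab).1) (fun a b hab => (Prod.mk.inj hab).1)
      fun w m n => hp3 w m n
    intro hc
    have h1 : #W ≤ ℵ₀ := by
      rw [Cardinal.mk_le_aleph0_iff]
      exact countable_univ_iff.mp hc
    rw [mk_ord_toType] at h1
    exact absurd h1 (not_le.mpr aleph0_lt_aleph_one)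

end Pool.Agent.Q212.LTree
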