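import Pool.Agent.Q212.LTree

/-!
# Under Martin's axiom, countably splitting subtrees of Lindelof trees are countable
-/

universe u v

open Set Cardinal

namespace Pool.Agent.Q212.LTree

open Pool.Agent.H916R3.HFC Pool.Agent.W684

/-- Baumgartner's lemma: if `lt` is a tree-like relation with countable sets of predecessors and
without uncountable chains, then an uncountable disjoint family of finite sets has two members
without comparable elements. -/
theorem cross {T I : Type} {lt : T → T → Prop}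
    (hlin : ∀ a a' b, lt a b → lt a' b → a = a' ∨ lt a a' ∨ lt a' a)
    (hpc : ∀ b, {a | lt a b}.Countable)
    (hch : ∀ C : Set T, (∀ a ∈ C, ∀ b ∈ C, a ≠ b → lt a b ∨ lt b a) → C.Countable)
    (G : I → Finset T) (J0 : Set I) (hJ0 : ¬ J0.Countable)
    (hd : ∀ i ∈ J0, ∀ j ∈ J0, i ≠ j → ∀ t ∈ G i, t ∉ G j) :
    ∃ i ∈ J0, ∃ j ∈ J0, i ≠ j ∧ ∀ a ∈ G i, ∀ b ∈ G j, ¬ lt a b ∧ ¬ lt b a := by
  classical
  by_contra hcon
  push Not at hcon
  -- constant size
  obtain ⟨n, hn⟩ := uncountable_fiber (fun i => (G i).card) J0 hJ0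
  set J : Set I := {i ∈ J0 | (G i).card = n} with hJdef
  have hJJ : J ⊆ J0 := fun i hi => hi.1
  have hJinf : ¬ Countable J := fun h => hn (Set.countable_coe_iff.mp h)
  have hne : (Filter.cocountable : Filter J).NeBot := by
    refine ⟨fun hbot => hJinf ?_⟩
    have : (∅ : Set J) ∈ (Filter.cocountable : Filter J) := by
      rw [hbot]
      exact Filter.mem_bot
    rw [Filter.mem_cocountable, compl_empty] at this
    exact Set.countable_univ_iff.mp this
  let U : Ultrafilter J := Ultrafilter.of Filter.cocountable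
  have hU : ∀ s : Set J, s.Countable → sᶜ ∈ U := fun s hs =>
    Ultrafilter.of_le (f := (Filter.cocountable : Filter J))
      (Filter.mem_cocountable.mpr (by rwa [compl_compl]))
  have hcard : ∀ i : J, (G i.1).card = n := fun i => i.2.2
  let en : J → Fin n → T := fun i k => (((G i.1).equivFinOfCardEq (hcard i)).symm k).1
  have henm : ∀ i k, en i k ∈ G i.1 := fun i k => (((G i.1).equivFinOfCardEq (hcard i)).symm k).2
  have hen : ∀ (i : J) (b : T), b ∈ G i.1 → ∃ k, en i k = b := by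
    intro i b hb
    exact ⟨(G i.1).equivFinOfCardEq (hcard i) ⟨b, hb⟩, by simp [en]⟩
  -- a set of indices meeting a countable set is countable
  have hrare : ∀ C : Set T, C.Countable → {j : J | ∃ b ∈ C, b ∈ G j.1}.Countable := by
    intro C hC
    have : {j : J | ∃ b ∈ C, b ∈ G j.1} = ⋃ b ∈ C, {j : J | b ∈ G j.1} := by
      ext j
      simp
    rw [this]
    refine hC.biUnion fun b _ => Set.Subsingleton.countable ?_
    intro j hj j' hj'
    by_contra hne
    exact hd j.1 (hJJ j.2) j'.1 (hJJ j'.2) (fun h => hne (Subtype.ext h)) b hj hj'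
  -- for each `i` some element of `G i` lies below an element of almost all `G j`
  have key : ∀ i : J, ∃ k k' : Fin n, {j : J | lt (en i k) (en j k')} ∈ U := by
    intro i
    have h1 : {j : J | ∃ b ∈ (⋃ a ∈ G i.1, {b | lt b a}), b ∈ G j.1}ᶜ ∈ U :=
      hU _ (hrare _ ((G i.1).countable_toSet.biUnion fun a _ => hpc a))
    have h2 : ({i} : Set J)ᶜ ∈ U := hU _ (countable_singleton i)
    have h3 : (⋃ kk ∈ (Set.univ : Set (Fin n × Fin n)), {j : J | lt (en i kk.1) (en j kk.2)}) ∈ U := by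
      filter_upwards [h1, h2] with j hj1 hj2
      have hij : i.1 ≠ j.1 := fun h => hj2 (Subtype.ext h.symm)
      obtain ⟨a, ha, b, hb, hab⟩ := hcon i.1 (hJJ i.2) j.1 (hJJ j.2) hij
      have hlt : lt a b := by
        by_contra hnot
        exact hj1 ⟨b, mem_iUnion₂.mpr ⟨a, ha, hab hnot⟩, hb⟩
      obtain ⟨k, hk⟩ := hen i a ha
      obtain ⟨k', hk'⟩ := hen j b hb
      refine mem_iUnion₂.mpr ⟨(k, k'), mem_univ _, ?_⟩
      change lt (en i k) (en j k')
      rw [hk, hk']
      exact hlt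
    obtain ⟨kk, _, hkk⟩ := (Ultrafilter.finite_biUnion_mem_iff finite_univ).mp h3
    exact ⟨kk.1, kk.2, hkk⟩
  choose k k' hkk using key
  obtain ⟨c, hc⟩ := uncountable_fiber (fun i : J => k' i) Set.univ
    (fun h => hJinf (Set.countable_univ_iff.mp h))
  have hchain := hch ((fun i : J => en i (k i)) '' {i : J | i ∈ Set.univ ∧ k' i = c}) (by
    rintro _ ⟨i, hi, rfl⟩ _ ⟨j, hj, rfl⟩ hne
    obtain ⟨l, hl1, hl2⟩ := Ultrafilter.nonempty_of_mem (Filter.inter_mem (hkk i) (hkk j))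
    have e1 : lt (en i (k i)) (en l (k' i)) := hl1
    have e2 : lt (en j (k j)) (en l (k' j)) := hl2
    rw [hi.2] at e1
    rw [hj.2] at e2
    rcases hlin _ _ _ e1 e2 with h | h | h
    · exact absurd h hne
    · exact Or.inl h
    · exact Or.inr h)
  apply hc
  refine (hrare _ hchain).mono ?_
  rintro i hi
  exact ⟨_, ⟨i, hi, rfl⟩, henm i (k i)⟩

section Poset

variable {T : Type u} [PartialOrder T] {W : Type}

/-- `s`, `a`, `b`: the nodes `e a` and `e b` lie above `e s` in the same direction. -/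
def SameDir (e : W → T) (s a b : W) : Prop := ∃ c, e s < c ∧ c ≤ e a ∧ c ≤ e b

/-- The conditions: finite sets of nodes (indices of nodes). -/
structure Cnd (e : W → T) (hT : IsTree T) where
  /-- the finite set of indices -/
  fs : Finset W

instance (e : W → T) (hT : IsTree T) : Preorder (Cnd e hT) where
  le B A := (∀ a ∈ A.fs, a ∈ B.fs) ∧
    ∀ s ∈ A.fs, ∀ b ∈ B.fs, e s < e b → ∃ a ∈ A.fs, SameDir e s a b
  le_refl A := ⟨fun a ha => ha, fun s _ b hb h => ⟨b, hb, e b, h, le_rfl, le_rfl⟩⟩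
  le_trans C B A h1 h2 := by
    refine ⟨fun a ha => h1.1 a (h2.1 a ha), fun s hs c hc hsc => ?_⟩
    obtain ⟨b, hb, c1, h3, h4, h5⟩ := h1.2 s (h2.1 s hs) c hc hsc
    obtain ⟨a, ha, c2, h6, h7, h8⟩ := h2.2 s hs b hb (h3.trans_le h4)
    rcases hT.comparable h4 h8 with h | h
    · exact ⟨a, ha, c1, h3, h.trans h7, h5⟩
    · exact ⟨a, ha, c2, h6, h7, h.trans h5⟩

theorem le_def {e : W → T} {hT : IsTree T} {B A : Cnd e hT} : B ≤ A ↔
    (∀ a ∈ A.fs, a ∈ B.fs) ∧
    ∀ s ∈ A.fs, ∀ b ∈ B.fs, e s < e b → ∃ a ∈ A.fs, SameDir e s a b :=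
  Iff.rfl

theorem cnd_ccc {e : W → T} (hT : IsTree T) (he : Function.Injective e)
    (hlow : IsLowerSet (range e))
    (hpc : ∀ b : W, {a | e a < e b}.Countable)
    (hch : ∀ C : Set W, (∀ a ∈ C, ∀ b ∈ C, a ≠ b → e a < e b ∨ e b < e a) → C.Countable)
    (hcs : ∀ s : W, {c : W | e s ⋖ e c}.Countable) : IsCCC (Cnd e hT) := by
  classical
  intro A hA
  by_contra hunc
  obtain ⟨J, R, hJA, hJ, hR, hd⟩ := delta_system (fun p : Cnd e hT => p.fs) A hunc
  -- fix the directions above the root of the delta system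
  have hcs' : ∀ s : R, Countable {c : W // e s.1 ⋖ e c} := fun s => (hcs s.1).to_subtype
  let pat : Cnd e hT → ((s : R) → Set {c : W // e s.1 ⋖ e c}) := fun p s =>
    {c | ∃ a ∈ p.fs, e c.1 ≤ e a}
  have hpatfin : ∀ p s, (pat p s).Finite := by
    intro p s
    have : pat p s ⊆ ⋃ a ∈ (p.fs : Set W), {c | e c.1 ≤ e a} := by
      rintro c ⟨a, ha, hca⟩
      exact mem_iUnion₂.mpr ⟨a, ha, hca⟩
    refine Set.Finite.subset ?_ this
    refine Set.Finite.biUnion (Finset.finite_toSet _) fun a _ => Set.Subsingleton.finite ?_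
    intro c hc c' hc'
    exact Subtype.ext (he (covBy_unique hT c.2 c'.2 hc hc'))
  let pat' : Cnd e hT → ((s : R) → Finset {c : W // e s.1 ⋖ e c}) := fun p s =>
    (hpatfin p s).toFinset
  obtain ⟨π, hπ⟩ := uncountable_fiber pat' J hJ
  obtain ⟨p, hp, q, hq, hpq, hinc⟩ := cross (lt := fun a b : W => e a < e b)
    (fun a a' b h h' => by
      rcases hT.comparable h.le h'.le with h1 | h1
      · rcases h1.eq_or_lt with h1 | h1
        · exact Or.inl (he h1)
        · exact Or.inr (Or.inl h1)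
      · rcases h1.eq_or_lt with h1 | h1
        · exact Or.inl (he h1.symm)
        · exact Or.inr (Or.inr h1)) hpc hch
    (fun p : Cnd e hT => p.fs \ R) _ hπ (by
      intro i hi j hj hij t ht htj
      exact (Finset.mem_sdiff.mp ht).2 (hd i hi.1 j hj.1 hij t (Finset.mem_sdiff.mp ht).1
        (Finset.mem_sdiff.mp htj).1))
  -- the union is a lower bound
  have hpatpq : ∀ s : R, pat p s = pat q s := by
    intro s
    have h1 : pat' p s = pat' q s := by
      rw [show pat' p = pat' q from hp.2.trans hq.2.symm]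
    ext c
    have h2 := Finset.ext_iff.mp h1 c
    simpa [pat'] using h2
  have hone : ∀ p q : Cnd e hT, (∀ s : R, pat p s = pat q s) →
      (∀ a ∈ p.fs \ R, ∀ b ∈ q.fs \ R, ¬ e a < e b) →
      (∀ r ∈ R, r ∈ p.fs) →
      ∀ s ∈ p.fs, ∀ b ∈ q.fs, e s < e b →
        ∃ a ∈ p.fs, SameDir e s a b := by
    intro p q hpat hcross hRp s hs b hb hsb
    by_cases hbR : b ∈ R
    · exact ⟨b, hRp b hbR, e b, hsb, le_rfl, le_rfl⟩
    by_cases hsR : s ∈ R
    · obtain ⟨c, hc, hcb⟩ := hT.exists_covBy hsb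
      obtain ⟨w, rfl⟩ := hlow hcb ⟨b, rfl⟩
      have h1 : (⟨w, hc⟩ : {c : W // e s ⋖ e c}) ∈ pat q ⟨s, hsR⟩ := ⟨b, hb, hcb⟩
      rw [← hpat ⟨s, hsR⟩] at h1
      obtain ⟨a, ha, hca⟩ := h1
      exact ⟨a, ha, e w, hc.1, hca, hcb⟩
    · exact absurd hsb (hcross s (Finset.mem_sdiff.mpr ⟨hs, hsR⟩) b
        (Finset.mem_sdiff.mpr ⟨hb, hbR⟩))
  refine hA p (hJA hp.1) q (hJA hq.1) hpq ⟨⟨p.fs ∪ q.fs⟩, ?_, ?_⟩
  · refine ⟨fun a ha => Finset.mem_union_left _ ha, fun s hs b hb hsb => ?_⟩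
    rcases Finset.mem_union.mp hb with hb | hb
    · exact ⟨b, hb, e b, hsb, le_rfl, le_rfl⟩
    · exact hone p q hpatpq (fun a ha b hb => (hinc a ha b hb).1) (fun r hr => hR p hp.1 hr)
        s hs b hb hsb
  · refine ⟨fun a ha => Finset.mem_union_right _ ha, fun s hs b hb hsb => ?_⟩
    rcases Finset.mem_union.mp hb with hb | hb
    · exact hone q p (fun s => (hpatpq s).symm) (fun a ha b hb => (hinc b hb a ha).2)
        (fun r hr => hR q hq.1 hr) s hs b hb hsb
    · exact ⟨b, hb, e b, hsb, le_rfl, le_rfl⟩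

end Poset

/-- A forcing notion with the countable chain condition whose conditions include an uncountable
family indexed by `ω₁` contains a condition forcing that uncountably many of them are in the
generic filter. -/
theorem exists_unbounded {P : Type} [Preorder P] (hccc : IsCCC P)
    (W : Type) [LinearOrder W] (hb : ∀ S : Set W, S.Countable → ∃ b, ∀ x ∈ S, x < b)
    (x : W → P) (E : W → Set P) (hE : ∀ w b, w < b → ∀ r ≤ x b, r ∈ E w) :
    ∃ p0 : P, ∀ w, ∀ q ≤ p0, ∃ r ≤ q, r ∈ E w := by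
  classical
  by_contra hcon
  push Not at hcon
  let Q : Set P := {q | ∃ w, ∀ r ≤ q, r ∉ E w}
  have hQ : ∀ p, ∃ q ≤ p, q ∈ Q := by
    intro p
    obtain ⟨w, q, hq, h⟩ := hcon p
    exact ⟨q, hq, w, h⟩
  obtain ⟨A, hA, hmax⟩ : ∃ A : Set P, Maximal (fun A : Set P => A ⊆ Q ∧
      ∀ p ∈ A, ∀ q ∈ A, p ≠ q → ¬ ∃ r : P, r ≤ p ∧ r ≤ q) A := by
    apply zorn_subset
    intro c hc1 hc2
    refine ⟨⋃₀ c, ⟨?_, ?_⟩, ?_⟩
    · exact sUnion_subset fun s hs => (hc1 hs).1
    · rintro i ⟨s, hs, his⟩ j ⟨s', hs', hjs'⟩ hij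
      rcases hc2.total hs hs' with h | h
      · exact (hc1 hs').2 i (h his) j hjs' hij
      · exact (hc1 hs).2 i his j (h hjs') hij
    · intro s hs
      exact subset_sUnion_of_mem hs
  have hAc : A.Countable := hccc A hA.2
  have hch : ∀ q : P, ∃ w, q ∈ Q → ∀ r ≤ q, r ∉ E w := by
    intro q
    by_cases hq : q ∈ Q
    · obtain ⟨w, hw⟩ := hq
      exact ⟨w, fun _ => hw⟩
    · obtain ⟨w, _⟩ := hb ∅ countable_empty
      exact ⟨w, fun h => absurd h hq⟩
  choose f hf using hch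
  obtain ⟨b, hb'⟩ := hb (f '' A) (hAc.image f)
  obtain ⟨q', hq', hq'Q⟩ := hQ (x b)
  -- `q'` is compatible with a member of `A`
  have hcomp : ∃ q ∈ A, ∃ r, r ≤ q ∧ r ≤ q' := by
    by_contra hno
    push Not at hno
    have hins : insert q' A ⊆ A := by
      apply hmax (y := insert q' A)
      · refine ⟨insert_subset hq'Q hA.1, ?_⟩
        rintro i (rfl | hi) j (rfl | hj) hij
        · exact absurd rfl hij
        · rintro ⟨r, hr1, hr2⟩
          exact hno j hj r hr2 hr1
        · rintro ⟨r, hr1, hr2⟩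
          exact hno i hi r hr1 hr2
        · exact hA.2 i hi j hj hij
      · exact subset_insert _ _
    exact hno q' (hins (mem_insert _ _)) q' le_rfl le_rfl
  obtain ⟨q, hq, r, hr1, hr2⟩ := hcomp
  exact hf q (hA.1 hq) r hr1 (hE (f q) b (hb' _ ⟨q, hq, rfl⟩) r (hr2.trans hq'))

/-- Under Martin's axiom, if all finitely splitting subtrees of a tree are countable, then so are
all countably splitting subtrees. -/
theorem countable_of_ctblSplit (hMA : MartinAxiomAleph1) {T : Type u} [PartialOrder T]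
    (hT : IsTree T) (hc : ∀ S : Set T, IsLowerSet S → FinSplit S → S.Countable) {S : Set T}
    (hS : IsLowerSet S) (hcs : CtblSplit S) : S.Countable := by
  classical
  by_contra hunc
  -- predecessors and chains are countable
  have hIic : ∀ x : T, (Iic x).Countable := by
    intro x
    refine hc _ (isLowerSet_Iic x) fun t _ => Set.Subsingleton.finite ?_
    rintro c ⟨hcx, htc⟩ c' ⟨hcx', htc'⟩
    exact covBy_unique hT htc htc' hcx hcx'
  have hchain : ∀ C : Set T, (∀ a ∈ C, ∀ b ∈ C, a ≠ b → a < b ∨ b < a) → C.Countable := by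
    intro C hC
    refine Set.Countable.mono (s₂ := {x | ∃ y ∈ C, x ≤ y}) (fun x hx => ⟨x, hx, le_rfl⟩) ?_
    refine hc {x | ∃ y ∈ C, x ≤ y} (fun a b hba ⟨y, hy, hay⟩ => ⟨y, hy, hba.trans hay⟩)
      fun t _ => Set.Subsingleton.finite ?_
    rintro c ⟨⟨y, hy, hcy⟩, htc⟩ c' ⟨⟨y', hy', hcy'⟩, htc'⟩
    by_cases hyy : y = y'
    · subst hyy
      exact covBy_unique hT htc htc' hcy hcy'
    · rcases hC y hy y' hy' hyy with h | h
      · exact covBy_unique hT htc htc' (hcy.trans h.le) hcy'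
      · exact covBy_unique hT htc htc' hcy (hcy'.trans h.le)
  -- a subtree of size `ℵ₁`
  have hScard : (ℵ_ 1 : Cardinal.{u}) ≤ #S := by
    rw [aleph_one_le_iff]
    exact not_le.mp fun h => hunc (Cardinal.le_aleph0_iff_set_countable.mp h)
  obtain ⟨S0, hS0, hS0c⟩ := le_mk_iff_exists_subset.mp hScard
  let S1 : Set T := ⋃ y ∈ S0, Iic y
  have hS1low : IsLowerSet S1 := by
    intro a b hba ha
    obtain ⟨y, hy, hay⟩ := mem_iUnion₂.mp ha
    exact mem_iUnion₂.mpr ⟨y, hy, hba.trans hay⟩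
  have hS1S : S1 ⊆ S := by
    intro x hx
    obtain ⟨y, hy, hxy⟩ := mem_iUnion₂.mp hx
    exact hS hxy (hS0 hy)
  have hS1card : #S1 = ℵ_ 1 := by
    refine le_antisymm ?_ ?_
    · refine (mk_biUnion_le _ _).trans ?_
      rw [hS0c]
      calc (ℵ_ 1 : Cardinal.{u}) * ⨆ x : S0, #(Iic x.1) ≤ ℵ_ 1 * ℵ₀ := by
            refine mul_le_mul_right ?_ _
            exact ciSup_le' fun y => Cardinal.le_aleph0_iff_set_countable.mpr (hIic y.1)
        _ = ℵ_ 1 := mul_aleph0_eq aleph0_lt_aleph_one.le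
    · rw [← hS0c]
      exact mk_le_mk_of_subset fun y hy => mem_iUnion₂.mpr ⟨y, hy, le_rfl⟩
  let W := (ℵ_ 1 : Cardinal.{0}).ord.ToType
  have hWcard : Cardinal.lift.{u} #W = Cardinal.lift.{0} #S1 := by
    rw [mk_ord_toType, hS1card, lift_aleph, lift_aleph]
    simp
  obtain ⟨e'⟩ := Cardinal.lift_mk_eq'.mp hWcard
  let e : W → T := fun w => (e' w).1
  have he : Function.Injective e := fun a b hab => e'.injective (Subtype.ext hab)
  have hrange : range e = S1 := by
    ext x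
    constructor
    · rintro ⟨w, rfl⟩
      exact (e' w).2
    · intro hx
      obtain ⟨w, hw⟩ := e'.surjective ⟨x, hx⟩
      exact ⟨w, by simp [e, hw]⟩
  have hlow : IsLowerSet (range e) := by
    rw [hrange]
    exact hS1low
  have hccc : IsCCC (Cnd e hT) := by
    refine cnd_ccc hT he hlow ?_ ?_ ?_
    · intro b
      refine Set.Countable.mono (s₂ := e ⁻¹' (Iic (e b))) (fun a ha => le_of_lt ha) ?_
      exact (hIic (e b)).preimage_of_injOn he.injOn
    · intro C hC
      have h1 : (e '' C).Countable := by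
        refine hchain _ ?_
        rintro _ ⟨a, ha, rfl⟩ _ ⟨b, hb, rfl⟩ hab
        exact hC a ha b hb fun h => hab (by rw [h])
      refine Set.Countable.mono (s₂ := e ⁻¹' (e '' C)) (fun a ha => ⟨a, ha, rfl⟩) ?_
      exact h1.preimage_of_injOn he.injOn
    · intro s
      have hs : e s ∈ S := hS1S (hrange ▸ ⟨s, rfl⟩)
      refine Set.Countable.mono (s₂ := e ⁻¹' {c | c ∈ S ∧ e s ⋖ c})
        (fun c hc => ⟨hS1S (hrange ▸ ⟨c, rfl⟩), hc⟩) ?_
      exact (hcs (e s) hs).preimage_of_injOn he.injOn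
  have hb : ∀ A : Set W, A.Countable → ∃ b, ∀ x ∈ A, x < b := by
    intro A hA
    by_contra hcon
    push Not at hcon
    have h : IsCofinal A := fun b => hcon b
    have h1 := Order.cof_le h
    rw [Ordinal.cof_toType, isRegular_aleph_one.cof_ord] at h1
    exact absurd (h1.trans (Cardinal.le_aleph0_iff_set_countable.mpr hA))
      (not_le.mpr aleph0_lt_aleph_one)
  obtain ⟨p0, hp0⟩ := exists_unbounded hccc W hb (fun b => (⟨{b}⟩ : Cnd e hT))
    (fun w => {p | ∃ b ∈ p.fs, w < b}) (by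
      intro w b hwb r hr
      exact ⟨b, hr.1 b (Finset.mem_singleton_self b), hwb⟩)
  -- the poset below `p0`
  let P := {p : Cnd e hT // p ≤ p0}
  have hPccc : IsCCC P := by
    intro A hA
    have h1 : (Subtype.val '' A).Countable := by
      refine hccc _ ?_
      rintro _ ⟨p, hp, rfl⟩ _ ⟨q, hq, rfl⟩ hpq ⟨r, hr1, hr2⟩
      exact hA p hp q hq (fun h => hpq (by rw [h])) ⟨⟨r, hr1.trans p.2⟩, hr1, hr2⟩
    refine Set.Countable.mono (s₂ := Subtype.val ⁻¹' (Subtype.val '' A))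
      (fun a ha => ⟨a, ha, rfl⟩) ?_
    exact h1.preimage_of_injOn Subtype.val_injective.injOn
  have hPne : Nonempty P := ⟨⟨p0, le_rfl⟩⟩
  let D1 : W → Set P := fun t => {p | t ∈ p.1.fs ∨ ∃ s ∈ p.1.fs, e s < e t ∧
    ∀ a ∈ p.1.fs, ¬ SameDir e s a t}
  let D2 : W → Set P := fun w => {p | ∃ b ∈ p.1.fs, w < b}
  obtain ⟨G, hGne, _, hG, hGD⟩ := hMA P hPccc (range D1 ∪ range D2) (by
      refine (mk_union_le _ _).trans ?_
      refine (add_le_add mk_range_le mk_range_le).trans ?_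
      rw [mk_ord_toType, add_eq_self aleph0_lt_aleph_one.le]) (by
      rintro _ (⟨t, rfl⟩ | ⟨w, rfl⟩) p
      · by_cases hp : p ∈ D1 t
        · exact ⟨p, hp, le_rfl⟩
        · have hp' : t ∉ p.1.fs ∧ ∀ s ∈ p.1.fs, e s < e t → ∃ a ∈ p.1.fs, SameDir e s a t := by
            simp only [D1, mem_ofPred_eq, not_or, not_exists, not_and] at hp
            refine ⟨hp.1, fun s hs hst => ?_⟩
            by_contra hno
            push Not at hno
            exact hp.2 s hs hst hno
          have hle : (⟨insert t p.1.fs⟩ : Cnd e hT) ≤ p.1 := by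
            refine ⟨fun a ha => Finset.mem_insert_of_mem ha, fun s hs b hb hsb => ?_⟩
            rcases Finset.mem_insert.mp hb with rfl | hb
            · exact hp'.2 s hs hsb
            · exact ⟨b, hb, e b, hsb, le_rfl, le_rfl⟩
          exact ⟨⟨_, hle.trans p.2⟩, Or.inl (Finset.mem_insert_self _ _), hle⟩
      · obtain ⟨r, hr, hrE⟩ := hp0 w p.1 p.2
        exact ⟨⟨r, hr.trans p.2⟩, hrE, hr⟩)
  -- the generic subtree
  let H : Set T := {x | ∃ p ∈ G, ∃ a ∈ p.1.fs, x ≤ e a}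
  have hHlow : IsLowerSet H := by
    rintro a b hba ⟨p, hp, c, hc, hac⟩
    exact ⟨p, hp, c, hc, hba.trans hac⟩
  have hHfs : FinSplit H := by
    rintro x ⟨p, hp, a, ha, hxa⟩
    obtain ⟨t, rfl⟩ := hlow hxa ⟨a, rfl⟩
    obtain ⟨q, hqG, hqD⟩ := hGD (D1 t) (Or.inl ⟨t, rfl⟩)
    have htq : t ∈ q.1.fs := by
      rcases hqD with h | ⟨s, hs, hst, hno⟩
      · exact h
      · exfalso
        obtain ⟨r, hrG, hrp, hrq⟩ := hG p hp q hqG
        obtain ⟨b, hb, c, hc1, hc2, hc3⟩ := hrq.2 s hs a (hrp.1 a ha) (hst.trans_le hxa)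
        refine hno b hb ?_
        rcases hT.comparable hc3 hxa with h | h
        · exact ⟨c, hc1, hc2, h⟩
        · exact ⟨e t, hst, h.trans hc2, le_rfl⟩
    refine Set.Finite.subset (s := ⋃ b ∈ (q.1.fs : Set W), {c | e t ⋖ c ∧ c ≤ e b}) ?_ ?_
    · refine Set.Finite.biUnion (Finset.finite_toSet _) fun b _ => Set.Subsingleton.finite ?_
      rintro c ⟨h1, h2⟩ c' ⟨h1', h2'⟩
      exact covBy_unique hT h1 h1' h2 h2'
    · rintro c ⟨⟨p', hp', a', ha', hca'⟩, htc⟩
      obtain ⟨r, hrG, hrp, hrq⟩ := hG p' hp' q hqG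
      obtain ⟨b, hb, d, hd1, hd2, hd3⟩ := hrq.2 t htq a' (hrp.1 a' ha') (htc.1.trans_le hca')
      exact mem_iUnion₂.mpr ⟨b, hb, htc, (covBy_le hT htc hca' hd1 hd3).trans hd2⟩
  have hHc := hc H hHlow hHfs
  obtain ⟨w, hw⟩ := hb (e ⁻¹' H) (hHc.preimage_of_injOn he.injOn)
  obtain ⟨p, hpG, b, hbp, hwb⟩ := hGD (D2 w) (Or.inr ⟨w, rfl⟩)
  exact absurd (hw b ⟨p, hpG, b, hbp, le_rfl⟩) (not_lt_of_ge hwb.le)

/-- Under Martin's axiom, every tree which is Lindelof in the fine wedge topology is productively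
Lindelof. -/
theorem lindelofProduct_of_MA (hMA : MartinAxiomAleph1) {T : Type u} [PartialOrder T]
    (hT : IsTree T) (hL : LindelofTree T) (Y : Type v) [τ : TopologicalSpace Y]
    [LindelofSpace Y] : LindelofProduct T Y τ :=
  lindelofProduct_of_ctblSplit hT (fun _ hS hcs => countable_of_ctblSplit hMA hT
    (fun _ hS' hfs => countable_of_finSplit hT hL hS' hfs) hS hcs) Y

end Pool.Agent.Q212.LTree
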