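import Pool.Agent.Q212.MengerF

/-!
# Covering games on the Cantor space of the ground model after adding a Cohen real
-/

open Set

namespace Pool.Agent.Q212.MG

open Pool.Agent.Helper669.Forcing Pool.Agent.Q212.SCFT

/-- Cohen forcing: the finite sequences of truth values, ordered by reverse end-extension. -/
def Coh : Type := List Bool

instance : Countable Coh := inferInstanceAs (Countable (List Bool))

instance : Preorder Coh where
  le q p := (show List Bool from p) <+: (show List Bool from q)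
  le_refl _ := List.prefix_rfl
  le_trans _ _ _ h1 h2 := h2.trans h1

theorem coh_le {q p : Coh} : q ≤ p ↔ (show List Bool from p) <+: (show List Bool from q) := Iff.rfl

/-- The Cantor space. -/
abbrev Ctr : Type := ℕ → Bool

/-- The initial segment of length `n` of `w`. -/
def res (w : Ctr) (n : ℕ) : Coh := (List.range n).map w

/-- The condition `q` is an initial segment of `w`. -/
def Ext (q : Coh) (w : Ctr) : Prop := q = res w (show List Bool from q).length

theorem length_res (w : Ctr) (n : ℕ) : (show List Bool from res w n).length = n := by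
  change ((List.range n).map w).length = n
  simp

theorem ext_res (w : Ctr) (n : ℕ) : Ext (res w n) w := by
  unfold Ext
  rw [length_res]

theorem res_prefix (w : Ctr) {m n : ℕ} (h : m ≤ n) : res w n ≤ res w m := by
  induction n, h using Nat.le_induction with
  | base => exact le_rfl
  | succ n _ ih =>
    refine le_trans ?_ ih
    rw [coh_le]
    change (List.range n).map w <+: (List.range (n + 1)).map w
    rw [List.range_succ, List.map_append]
    exact List.prefix_append _ _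

theorem Ext.mono {q p : Coh} {w : Ctr} (hq : Ext q w) (h : q ≤ p) : Ext p w := by
  have hl : (show List Bool from p).length ≤ (show List Bool from q).length := h.length_le
  have h1 : res w (show List Bool from q).length ≤ res w (show List Bool from p).length :=
    res_prefix w hl
  rw [← hq] at h1
  unfold Ext
  refine List.IsPrefix.eq_of_length ?_ ?_
  · exact List.prefix_of_prefix_length_le (coh_le.1 h) (coh_le.1 h1) (by rw [length_res])
  · rw [length_res]

theorem res_le {q : Coh} {w : Ctr} (hq : Ext q w) {n : ℕ}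
    (h : (show List Bool from q).length ≤ n) : res w n ≤ q := by
  have h1 := res_prefix w h
  rwa [← hq] at h1

theorem ext_res_iff {w v : Ctr} {n : ℕ} : Ext (res w n) v ↔ ∀ i < n, v i = w i := by
  unfold Ext
  rw [length_res]
  change (List.range n).map w = (List.range n).map v ↔ _
  rw [List.map_inj_left]
  simp only [List.mem_range]
  exact forall_congr' fun i => forall_congr' fun _ => eq_comm

/-- The extension of `q` by a constant sequence. -/
def cst (q : Coh) (b : Bool) : Ctr := fun i => (show List Bool from q).getD i b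

theorem ext_cst (q : Coh) (b : Bool) : Ext q (cst q b) := by
  unfold Ext
  change (show List Bool from q) = (List.range _).map _
  apply List.ext_getElem
  · simp
  · intro i h1 h2
    rw [List.getElem_map, List.getElem_range]
    exact (List.getD_eq_getElem (l := (show List Bool from q)) (d := b) h1).symm

theorem cst_ne (q : Coh) : cst q false ≠ cst q true := by
  intro h
  have h1 := congrFun h (show List Bool from q).length
  unfold cst at h1
  rw [List.getD_eq_default _ _ le_rfl, List.getD_eq_default _ _ le_rfl] at h1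
  exact Bool.false_ne_true h1

/-- Injective continuous maps from the Cantor space to itself. -/
abbrev HH : Type := {h : Ctr → Ctr // Continuous h ∧ Function.Injective h}

theorem exists_mod (h : HH) (w : Ctr) (N : ℕ) : ∃ k, ∀ w' : Ctr, (∀ i < k, w' i = w i) →
    ∀ i < N, h.1 w' i = h.1 w i := by
  have h1 : IsOpen (PiNat.cylinder (h.1 w) N) := PiNat.isOpen_cylinder _ _ _
  have h2 : IsOpen (h.1 ⁻¹' PiNat.cylinder (h.1 w) N) := h1.preimage h.2.1
  have h3 : w ∈ h.1 ⁻¹' PiNat.cylinder (h.1 w) N := PiNat.self_mem_cylinder _ _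
  obtain ⟨_, ⟨v, k, rfl⟩, h4, h5⟩ :=
    (PiNat.isTopologicalBasis_cylinders (fun _ : ℕ => Bool)).exists_subset_of_mem_open h3 h2
  refine ⟨k, fun w' hw' i hi => ?_⟩
  have h6 : w' ∈ PiNat.cylinder v k := by
    intro j hj
    rw [hw' j hj]
    exact h4 j hj
  exact h5 h6 i hi

/-- The condition `q` decides that the first `N` values of `h (c)` are those of `x`. -/
def Dec (h : HH) (q : Coh) (N : ℕ) (x : Ctr) : Prop := ∀ w, Ext q w → ∀ i < N, h.1 w i = x i

theorem Dec.mono {h : HH} {q q' : Coh} {N : ℕ} {x : Ctr} (hd : Dec h q N x) (hq : q' ≤ q) :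
    Dec h q' N x := fun w hw => hd w (hw.mono hq)

theorem exists_dec (h : HH) (w : Ctr) (N : ℕ) {q : Coh} (hq : Ext q w) :
    ∃ r ≤ q, Ext r w ∧ Dec h r N (h.1 w) := by
  obtain ⟨k, hk⟩ := exists_mod h w N
  refine ⟨res w (max k (show List Bool from q).length), res_le hq (le_max_right _ _), ext_res _ _,
    fun w' hw' => hk w' fun i hi => ?_⟩
  exact ext_res_iff.1 hw' i (lt_of_lt_of_le hi (le_max_left _ _))

/-- The name of the complement in the Cantor space of the ground model of the set of the points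
which agree with `h (c)` up to `n`, where `c` is the Cohen real. -/
def Wn (h : HH) (n : ℕ) : Ctr → Set Coh := fun x => {q | ∀ w, Ext q w → ∃ i < n, h.1 w i ≠ x i}

/-- The name of the cover by these sets. -/
def Uh (h : HH) : (Ctr → Set Coh) → Set Coh := fun U => {_q | ∃ n, U = Wn h n}

theorem down_Wn (h : HH) (n : ℕ) (x : Ctr) : Down (Wn h n x) :=
  fun _ hq _ hr w hw => hq w (hw.mono hr)

theorem Wn_mono {h : HH} {m n : ℕ} (hmn : m ≤ n) (x : Ctr) : Wn h m x ⊆ Wn h n x := by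
  intro q hq w hw
  obtain ⟨i, hi, hne⟩ := hq w hw
  exact ⟨i, lt_of_lt_of_le hi hmn, hne⟩

theorem not_meets_Wn {h : HH} {q : Coh} {N n : ℕ} {x : Ctr} (hd : Dec h q N x) (hn : n ≤ N) :
    q ∉ meets (Wn h n x) := by
  intro hq
  obtain ⟨r, hr, hrW⟩ := exists_of_meets (down_Wn h n x) hq
  obtain ⟨i, hi, hne⟩ := hrW _ (ext_cst r false)
  exact hne (hd _ ((ext_cst r false).mono hr) i (lt_of_lt_of_le hi hn))

theorem exists_Wn (h : HH) (x : Ctr) (q : Coh) : ∃ r ≤ q, ∃ n, r ∈ Wn h n x := by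
  have h1 : ∃ w, Ext q w ∧ h.1 w ≠ x := by
    by_cases h2 : h.1 (cst q false) = x
    · refine ⟨cst q true, ext_cst _ _, fun h3 => ?_⟩
      exact cst_ne q (h.2.2 (h2.trans h3.symm))
    · exact ⟨_, ext_cst _ _, h2⟩
  obtain ⟨w, hw, hne⟩ := h1
  obtain ⟨i, hi⟩ := Function.ne_iff.mp hne
  obtain ⟨r, hr, -, hd⟩ := exists_dec h w (i + 1) hw
  refine ⟨r, hr, i + 1, fun w' hw' => ⟨i, Nat.lt_succ_self i, ?_⟩⟩
  rw [hd w' hw' i (Nat.lt_succ_self i)]
  exact hi

theorem sameSet_refl {P X : Type*} [Preorder P] (A : X → Set P) (p : P) : p ∈ SameSet A A :=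
  fun _ => ⟨mem_fimp.2 fun q _ hq => ⟨q, le_rfl, hq⟩, mem_fimp.2 fun q _ hq => ⟨q, le_rfl, hq⟩⟩

theorem mem_SameSet_meets {P X : Type*} [Preorder P] {A B : X → Set P} {p : P}
    (h : p ∈ SameSet A B) (x : X) (hx : p ∈ meets (A x)) : p ∈ meets (B x) :=
  fimp_meets (down_meets _) (h x).1 hx

theorem down_InFam {P X : Type*} [Preorder P] (W : X → Set P) (𝒰 : (X → Set P) → Set P) :
    Down (InFam W 𝒰) := down_fex _

/-- Members of the cover. -/
theorem mem_Uh {h : HH} {W : Ctr → Set Coh} {q : Coh} (hq : q ∈ InFam W (Uh h)) :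
    ∃ r ≤ q, ∃ n, r ∈ SameSet (Wn h n) W := by
  obtain ⟨r, hr, U, hU, hs⟩ := mem_fex.1 hq q le_rfl
  obtain ⟨r', hr', s, ⟨n, rfl⟩, -⟩ := hU r le_rfl
  exact ⟨r', hr'.trans hr, n, down_SameSet _ _ _ hs _ hr'⟩

theorem Wn_mem_Uh (h : HH) (n : ℕ) (q : Coh) : q ∈ InFam (Wn h n) (Uh h) :=
  mem_fex.2 fun q' _ => ⟨q', le_rfl, Wn h n, meets_of_mem ⟨n, rfl⟩, sameSet_refl _ _⟩

theorem isOpen_Wn (h : HH) (n : ℕ) {W : Ctr → Set Coh} {q : Coh} (hq : q ∈ SameSet (Wn h n) W) :
    q ∈ IsOpenN W := by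
  intro x
  refine mem_fimp.2 fun q' hq' hW => ?_
  have h1 : q' ∈ meets (Wn h n x) :=
    mem_SameSet_meets (SameSet.symm (down_SameSet _ _ _ hq _ hq')) x hW
  obtain ⟨r, hr, hrW⟩ := exists_of_meets (down_Wn h n x) h1
  refine ⟨r, hr, mem_fex_of_mem (PiNat.cylinder x n) ?_ ⟨⟨PiNat.isOpen_cylinder _ _ _,
    PiNat.self_mem_cylinder _ _⟩, ?_⟩⟩
  · exact down_fand (down_fground _) (down_fall fun _ => down_fall fun _ => down_meets _)
  · intro y hy
    refine mem_SameSet_meets (down_SameSet _ _ _ hq _ (hr.trans hq')) y (meets_of_mem ?_)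
    intro w hw
    obtain ⟨i, hi, hne⟩ := hrW w hw
    refine ⟨i, hi, ?_⟩
    rw [hy i hi]
    exact hne

theorem down_IsOpenN {P X : Type*} [Preorder P] [TopologicalSpace X] (W : X → Set P) :
    Down (IsOpenN W) := down_fall fun _ => down_fimp _ _

theorem openFam_Uh (h : HH) (q : Coh) : q ∈ OpenFam (Uh h) := by
  intro W
  refine mem_fimp.2 fun q' _ hW => ?_
  obtain ⟨r, hr, n, hn⟩ := mem_Uh hW
  exact ⟨r, hr, isOpen_Wn h n hn⟩

theorem inUnion_Uh (h : HH) (x : Ctr) (q : Coh) : q ∈ InUnion x (Uh h) := by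
  refine mem_fex.2 fun q' _ => ?_
  obtain ⟨r, hr, n, hn⟩ := exists_Wn h x q'
  exact ⟨r, hr, Wn h n, Wn_mem_Uh h n r, meets_of_mem hn⟩

theorem isCover_Uh (h : HH) (q : Coh) : q ∈ IsCoverN (Uh h) :=
  ⟨openFam_Uh h q, fun x => inUnion_Uh h x q⟩

/-- A finite subfamily of the cover is contained in the first members. -/
theorem exists_bound {h : HH} {ℱ : (Ctr → Set Coh) → Set Coh} {q : Coh}
    (hfin : q ∈ FiniteFam ℱ) (hsub : q ∈ SubFam ℱ (Uh h)) :
    ∃ r ≤ q, ∃ N, ∀ r' ≤ r, ∀ W, r' ∈ InFam W ℱ → ∃ s ≤ r', ∃ n ≤ N, s ∈ SameSet (Wn h n) W := by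
  classical
  obtain ⟨r, hr, l, hl⟩ := mem_fex.1 hfin q le_rfl
  have key : ∀ l : List (Ctr → Set Coh), ∀ r ≤ q, ∃ r' ≤ r, ∃ N, ∀ U ∈ l,
      r' ∈ fnot (InFam U ℱ) ∨ ∃ n ≤ N, r' ∈ SameSet (Wn h n) U := by
    intro l
    induction l with
    | nil => exact fun r _ => ⟨r, le_rfl, 0, by simp⟩
    | cons U l ih =>
      intro r hr
      obtain ⟨r1, hr1, N, hN⟩ := ih r hr
      have hmono : ∀ r2 ≤ r1, ∀ N' ≥ N, ∀ U ∈ l,
          r2 ∈ fnot (InFam U ℱ) ∨ ∃ n ≤ N', r2 ∈ SameSet (Wn h n) U := by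
        intro r2 hr2 N' hN' U hU
        rcases hN U hU with h1 | ⟨n, hn, h1⟩
        · exact Or.inl (down_fnot _ _ h1 _ hr2)
        · exact Or.inr ⟨n, hn.trans hN', down_SameSet _ _ _ h1 _ hr2⟩
      by_cases h1 : ∃ r2 ≤ r1, r2 ∈ InFam U ℱ
      · obtain ⟨r2, hr2, h2⟩ := h1
        have h3 : r2 ∈ SubFam ℱ (Uh h) :=
          down_fall (fun _ => down_fimp _ _) _ hsub _ (hr2.trans (hr1.trans hr))
        obtain ⟨r3, hr3, h4⟩ := mem_fimp.1 (h3 U) r2 le_rfl h2
        obtain ⟨r4, hr4, n, hn⟩ := mem_Uh h4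
        refine ⟨r4, (hr4.trans hr3).trans (hr2.trans hr1), max N n, ?_⟩
        intro U' hU'
        rcases List.mem_cons.mp hU' with rfl | hU'
        · exact Or.inr ⟨n, le_max_right _ _, hn⟩
        · exact hmono r4 ((hr4.trans hr3).trans hr2) _ (le_max_left _ _) U' hU'
      · push Not at h1
        refine ⟨r1, hr1, N, ?_⟩
        intro U' hU'
        rcases List.mem_cons.mp hU' with rfl | hU'
        · exact Or.inl fun r2 hr2 => h1 r2 hr2
        · exact hN U' hU'
  obtain ⟨r1, hr1, N, hN⟩ := key l r hr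
  refine ⟨r1, hr1.trans hr, N, fun r' hr' W hW => ?_⟩
  obtain ⟨r2, hr2, hr2'⟩ := mem_fimp.1 (hl W) r' (hr'.trans hr1) hW
  obtain ⟨r3, hr3, U, hU, hUW⟩ := mem_fex.1 hr2' r2 le_rfl
  have hr31 : r3 ≤ r1 := (hr3.trans hr2).trans hr'
  have hUℱ : r3 ∈ InFam U ℱ := by
    refine mem_fex.2 fun r4 hr4 => ?_
    have h4 : r4 ∈ InFam W ℱ := down_InFam _ _ _ hW _ (hr4.trans (hr3.trans hr2))
    obtain ⟨r5, hr5, V, hV, hVW⟩ := mem_fex.1 h4 r4 le_rfl
    refine ⟨r5, hr5, V, hV, fun a => ?_⟩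
    have h5 : r5 ∈ SameSet U W := down_SameSet _ _ _ hUW _ (hr5.trans hr4)
    constructor
    · refine mem_fimp.2 fun r6 hr6 h6 => ⟨r6, le_rfl, ?_⟩
      exact mem_SameSet_meets (SameSet.symm (down_SameSet _ _ _ h5 _ hr6)) a
        (mem_SameSet_meets (down_SameSet _ _ _ hVW _ hr6) a h6)
    · refine mem_fimp.2 fun r6 hr6 h6 => ⟨r6, le_rfl, ?_⟩
      exact mem_SameSet_meets (SameSet.symm (down_SameSet _ _ _ hVW _ hr6)) a
        (mem_SameSet_meets (down_SameSet _ _ _ h5 _ hr6) a h6)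
  rcases hN U hU with h6 | ⟨n, hn, h6⟩
  · exact absurd hUℱ (h6 r3 hr31)
  · refine ⟨r3, hr3.trans hr2, n, hn, fun a => ?_⟩
    have h7 : r3 ∈ SameSet (Wn h n) U := down_SameSet _ _ _ h6 _ hr31
    constructor
    · refine mem_fimp.2 fun r6 hr6 h8 => ⟨r6, le_rfl, ?_⟩
      exact mem_SameSet_meets (down_SameSet _ _ _ hUW _ hr6) a
        (mem_SameSet_meets (down_SameSet _ _ _ h7 _ hr6) a h8)
    · refine mem_fimp.2 fun r6 hr6 h8 => ⟨r6, le_rfl, ?_⟩
      exact mem_SameSet_meets (SameSet.symm (down_SameSet _ _ _ h7 _ hr6)) a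
        (mem_SameSet_meets (SameSet.symm (down_SameSet _ _ _ hUW _ hr6)) a h8)

end Pool.Agent.Q212.MG
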