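import Pool.Agent.Q212.MengerC

/-!
# Covering games on the Cantor space of the ground model: the diagonal argument
-/

open Set

namespace Pool.Agent.Q212.MG

open Pool.Agent.Helper669.Forcing Pool.Agent.Q212.SCFT

/-- The properties of the sentence `the point x is covered by the answer to s` which are used. -/
structure CovProps (Cov : List ((Ctr → Set Coh) → Set Coh) → Ctr → Set Coh) (p0 : Coh) :
    Prop where
  ext : ∀ s t x, ∀ q ≤ p0, q ∈ SameFams s t → q ∈ Cov s x → q ∈ Cov t x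
  fin : ∀ (h : HH) (s : List HH), ∀ q ≤ p0, ∃ r ≤ q, ∃ N, ∀ x, ∀ r' ≤ r,
    r' ∈ Cov ((h :: s).map Uh) x → ¬ Dec h r' N x

section Core

variable {Cov : List ((Ctr → Set Coh) → Set Coh) → Ctr → Set Coh} {p0 : Coh}

/-- After the moves `s`, if player I plays `h`, then `r` forces that the answer does not cover any
extension of `t`. -/
def Good (Cov : List ((Ctr → Set Coh) → Set Coh) → Ctr → Set Coh) (p0 : Coh)
    (s : List HH) (h : HH) (r t : Coh) : Prop :=
  r ≤ p0 ∧ ∀ x, Ext t x → r ∈ fnot (Cov ((h :: s).map Uh) x)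

theorem countable_bad (hC : CovProps Cov p0) (s : List HH) {q : Coh} (hq : q ≤ p0) :
    {x : Ctr | ∀ h r t, r ≤ q → Good Cov p0 s h r t → ¬ Ext t x}.Countable := by
  by_contra hcon
  have hopen : ∀ t : Coh, IsOpen {x : Ctr | Ext t x} := by
    intro t
    have h1 : {x : Ctr | Ext t x} = PiNat.cylinder (cst t false)
        (show List Bool from t).length := by
      ext x
      have h2 : t = res (cst t false) (show List Bool from t).length := ext_cst t false
      constructor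
      · intro hx
        have hx' : Ext t x := hx
        rw [h2] at hx'
        exact ext_res_iff.1 hx'
      · intro hx
        change Ext t x
        rw [h2]
        exact ext_res_iff.2 hx
    rw [h1]
    exact PiNat.isOpen_cylinder _ _ _
  have hclosed : IsClosed {x : Ctr | ∀ h r t, r ≤ q → Good Cov p0 s h r t → ¬ Ext t x} := by
    simp only [Set.ofPred_forall]
    refine isClosed_iInter fun h => isClosed_iInter fun r => isClosed_iInter fun t =>
      isClosed_iInter fun _ => isClosed_iInter fun _ => ?_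
    exact (hopen t).isClosed_compl
  have hP : PolishSpace Ctr := {}
  obtain ⟨f, hf1, hf2, hf3⟩ := hclosed.exists_nat_bool_injection_of_not_countable hcon
  let h : HH := ⟨f, hf2, hf3⟩
  obtain ⟨r, hr, N, hN⟩ := hC.fin h s q hq
  obtain ⟨r1, hr1, hw1, hd1⟩ := exists_dec h (cst r false) N (ext_cst r false)
  have hgood : Good Cov p0 s h r1 (res (f (cst r false)) N) := by
    refine ⟨(hr1.trans hr).trans hq, fun x hx r' hr' hcov => ?_⟩
    refine hN x r' (hr'.trans hr1) hcov fun w hw i hi => ?_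
    rw [(hd1.mono hr') w hw i hi]
    exact (ext_res_iff.1 hx i hi).symm
  exact hf1 ⟨_, rfl⟩ h r1 _ (hr1.trans hr) hgood (ext_res _ _)

/-- The diagonal argument: there are a point of the Cantor space of the ground model and a named run
of the game such that the point is not covered by the answers. -/
theorem exists_run (hC : CovProps Cov p0) : ∃ (z : Ctr) (A : ℕ → (Ctr → Set Coh) → Set Coh),
    (∀ n, ∀ q ≤ p0, ∃ r ≤ q, ∃ h : HH, r ∈ SameFam (A n) (Uh h)) ∧
    ∀ n, ∀ q ≤ p0, ∃ r ≤ q, r ∈ fnot (Cov (hist A (n + 1)) z) := by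
  classical
  let Hc : List HH → Coh × Coh → HH := fun s j =>
    if hx : ∃ h, Good Cov p0 s h j.1 j.2 then hx.choose else ⟨id, continuous_id,
      Function.injective_id⟩
  have hHc : ∀ s j, (∃ h, Good Cov p0 s h j.1 j.2) → Good Cov p0 s (Hc s j) j.1 j.2 := by
    intro s j hx
    simp only [Hc, dif_pos hx]
    exact hx.choose_spec
  let pos : List (Coh × Coh) → List HH := List.rec [] fun j _ r => Hc r j :: r
  have hpos : ∀ j l, pos (j :: l) = Hc (pos l) j :: pos l := fun _ _ => rfl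
  -- the point
  have hz : ∃ z : Ctr, ∀ l : List (Coh × Coh), ∀ q ≤ p0, ∃ j : Coh × Coh, j.1 ≤ q ∧
      (∃ h, Good Cov p0 (pos l) h j.1 j.2) ∧ Ext j.2 z := by
    by_contra hcon
    push Not at hcon
    have hun : (Set.univ : Set Ctr) ⊆ ⋃ (l : List (Coh × Coh)) (q : Coh) (_ : q ≤ p0),
        {x : Ctr | ∀ h r t, r ≤ q → Good Cov p0 (pos l) h r t → ¬ Ext t x} := by
      intro z _
      obtain ⟨l, q, hq, hno⟩ := hcon z
      refine mem_iUnion.mpr ⟨l, mem_iUnion.mpr ⟨q, mem_iUnion.mpr ⟨hq, ?_⟩⟩⟩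
      exact fun h r t hr hg ht => hno (r, t) hr ⟨h, hg⟩ ht
    have hc : (Set.univ : Set Ctr).Countable := by
      refine Set.Countable.mono hun ?_
      exact countable_iUnion fun l => countable_iUnion fun q => countable_iUnion fun hq =>
        countable_bad hC (pos l) hq
    have hc' : Countable Ctr := countable_univ_iff.mp hc
    rw [← Cardinal.mk_le_aleph0_iff] at hc'
    refine absurd hc' (not_le.mpr ?_)
    simpa using Cardinal.cantor Cardinal.aleph0
  obtain ⟨z, hz⟩ := hz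
  obtain ⟨enc, henc⟩ := exists_injective_nat (Coh × Coh)
  let Gd : List (Coh × Coh) → Coh × Coh → Prop := fun l j =>
    (∃ h, Good Cov p0 (pos l) h j.1 j.2) ∧ Ext j.2 z
  let D : List (Coh × Coh) → Set Coh := List.rec univ fun j l r => {q | q ∈ r ∧ Gd l j ∧ q ≤ j.1 ∧
    ∀ j', enc j' < enc j → Gd l j' → ∀ r ≤ q, ¬ r ≤ j'.1}
  have hD : ∀ j l q, q ∈ D (j :: l) ↔ q ∈ D l ∧ Gd l j ∧ q ≤ j.1 ∧
      ∀ j', enc j' < enc j → Gd l j' → ∀ r ≤ q, ¬ r ≤ j'.1 := fun _ _ _ => Iff.rfl
  have hDdown : ∀ l, Down (D l) := by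
    intro l
    induction l with
    | nil => exact fun _ _ _ _ => mem_univ _
    | cons j l ih =>
      intro q hq r hr
      rw [hD] at hq ⊢
      exact ⟨ih q hq.1 r hr, hq.2.1, hr.trans hq.2.2.1, fun j' h1 h2 r' hr' =>
        hq.2.2.2 j' h1 h2 r' (hr'.trans hr)⟩
  have hDuniq : ∀ l l' : List (Coh × Coh), l.length = l'.length → ∀ q, q ∈ D l → q ∈ D l' →
      l = l' := by
    intro l
    induction l with
    | nil =>
      intro l' hl q _ _
      exact (List.length_eq_zero_iff.mp hl.symm).symm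
    | cons j l ih =>
      intro l' hl q hq hq'
      cases l' with
      | nil => simp at hl
      | cons j' l' =>
        rw [hD] at hq hq'
        have h1 : l = l' := ih l' (by simpa using hl) q hq.1 hq'.1
        subst h1
        rcases lt_trichotomy (enc j) (enc j') with h2 | h2 | h2
        · exact absurd hq.2.2.1 (hq'.2.2.2 j h2 hq.2.1 q le_rfl)
        · rw [henc h2]
        · exact absurd hq'.2.2.1 (hq.2.2.2 j' h2 hq'.2.1 q le_rfl)
  have hDstep : ∀ l, ∀ q ≤ p0, q ∈ D l → ∃ r ≤ q, ∃ j, r ∈ D (j :: l) := by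
    intro l q hq hqD
    let Z : Set ℕ := {n | ∃ j, n = enc j ∧ Gd l j ∧ ∃ r ≤ q, r ≤ j.1}
    have hZ : Z.Nonempty := by
      obtain ⟨j, hj, h1, h2⟩ := hz l q hq
      exact ⟨_, j, rfl, ⟨h1, h2⟩, j.1, hj, le_rfl⟩
    obtain ⟨j, hj, hG, r, hr, hrj⟩ := Nat.sInf_mem hZ
    refine ⟨r, hr, j, (hD _ _ _).2 ⟨hDdown l q hqD r hr, hG, hrj, ?_⟩⟩
    intro j' hj' hG' r' hr' hr'j
    rw [← hj] at hj'
    exact Nat.notMem_of_lt_sInf hj' ⟨j', rfl, hG', r', hr'.trans hr, hr'j⟩
  have hDex : ∀ n, ∀ q ≤ p0, ∃ r ≤ q, ∃ l : List (Coh × Coh), l.length = n ∧ r ∈ D l := by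
    intro n
    induction n with
    | zero => exact fun q _ => ⟨q, le_rfl, [], rfl, mem_univ _⟩
    | succ n ih =>
      intro q hq
      obtain ⟨r, hr, l, hl, hrl⟩ := ih q hq
      obtain ⟨r', hr', j, hj⟩ := hDstep l r (hr.trans hq) hrl
      exact ⟨r', hr'.trans hr, j :: l, by simp [hl], hj⟩
  -- the run
  let A : ℕ → (Ctr → Set Coh) → Set Coh := fun n U =>
    {q | ∃ j l, l.length = n ∧ q ∈ D (j :: l) ∧ ∃ m, U = Wn (Hc (pos l) j) m}
  have hAdown : ∀ n U, Down (A n U) := by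
    rintro n U q ⟨j, l, hl, hq, m, hm⟩ r hr
    exact ⟨j, l, hl, hDdown (j :: l) q hq r hr, m, hm⟩
  have hA : ∀ j l, ∀ r ∈ D (j :: l), r ∈ SameFam (A l.length) (Uh (Hc (pos l) j)) := by
    intro j l r hr
    constructor
    · intro W
      refine mem_fimp.2 fun q hq hW => ⟨q, le_rfl, ?_⟩
      refine mem_fex.2 fun q' hq' => ?_
      obtain ⟨q1, hq1, U, hU, hUW⟩ := mem_fex.1 hW q' hq'
      obtain ⟨q2, hq2, j', l', hl', hq2D, m, rfl⟩ := exists_of_meets (hAdown _ U) hU
      have h1 := hDuniq (j' :: l') (j :: l) (by simp [hl']) q2 hq2D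
        (hDdown (j :: l) _ hr _ (((hq2.trans hq1).trans hq').trans hq))
      obtain ⟨rfl, rfl⟩ := List.cons.inj h1
      exact ⟨q2, hq2.trans hq1, _, meets_of_mem ⟨m, rfl⟩, down_SameSet _ _ _ hUW _ hq2⟩
    · intro W
      refine mem_fimp.2 fun q hq hW => ⟨q, le_rfl, ?_⟩
      refine mem_fex.2 fun q' hq' => ?_
      obtain ⟨q1, hq1, n, hn⟩ := mem_Uh (down_InFam _ _ _ hW _ hq')
      refine ⟨q1, hq1, _, meets_of_mem ⟨j, l, rfl, ?_, n, rfl⟩, hn⟩
      exact hDdown (j :: l) _ hr _ ((hq1.trans hq').trans hq)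
  have hhist : ∀ l, ∀ r ∈ D l, r ∈ SameFams (hist A l.length) ((pos l).map Uh) := by
    intro l
    induction l with
    | nil => exact fun r _ => trivial
    | cons j l ih =>
      intro r hr
      exact ⟨hA j l r hr, ih r hr.1⟩
  refine ⟨z, A, fun n q hq => ?_, fun n q hq => ?_⟩
  · obtain ⟨r, hr, l, hl, hrl⟩ := hDex n q hq
    obtain ⟨r', hr', j, hj⟩ := hDstep l r (hr.trans hq) hrl
    have h1 := hA j l r' hj
    rw [hl] at h1
    exact ⟨r', hr'.trans hr, _, h1⟩
  · obtain ⟨r, hr, l, hl, hrl⟩ := hDex (n + 1) q hq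
    refine ⟨r, hr, fun r' hr' hcov => ?_⟩
    cases l with
    | nil => simp at hl
    | cons j l =>
      have h1 := hhist (j :: l) r' (hDdown (j :: l) _ hrl _ hr')
      rw [hl] at h1
      have h2 := hC.ext _ _ z r' ((hr'.trans hr).trans hq) h1 hcov
      have h3 : Gd l j := hrl.2.1
      exact (hHc (pos l) j h3.1).2 z h3.2 r' (hr'.trans hrl.2.2.1) h2

end Core

end Pool.Agent.Q212.MG
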