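import Pool.Agent.Q212.MengerD

/-!
# Covering games on the Cantor space of the ground model: the theorems
-/

universe v

open Set

namespace Pool.Agent.Q212.MG

open Pool.Agent.Helper669.Forcing Pool.Agent.Q212.SCFT

section General

variable {P X : Type*} [Preorder P]

theorem down_SubFam (𝒰 𝒱 : (X → Set P) → Set P) : Down (SubFam 𝒰 𝒱) :=
  down_fall fun _ => down_fimp _ _

theorem down_SameFam (𝒰 𝒱 : (X → Set P) → Set P) : Down (SameFam 𝒰 𝒱) :=
  down_fand (down_SubFam _ _) (down_SubFam _ _)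

theorem down_SameFams : (s t : List ((X → Set P) → Set P)) → Down (SameFams s t)
  | [], [] => down_fground _
  | _ :: s, _ :: t => down_fand (down_SameFam _ _) (down_SameFams s t)
  | [], _ :: _ => down_fground _
  | _ :: _, [] => down_fground _

theorem down_InUnion (x : X) (𝒰 : (X → Set P) → Set P) : Down (InUnion x 𝒰) := down_fex _

theorem InUnion.of_sub {𝒰 𝒱 : (X → Set P) → Set P} {x : X} {q : P} (h : q ∈ SubFam 𝒰 𝒱)
    (hx : q ∈ InUnion x 𝒰) : q ∈ InUnion x 𝒱 := by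
  refine mem_fex.2 fun q' hq' => ?_
  obtain ⟨r, hr, W, hW, hWx⟩ := mem_fex.1 hx q' hq'
  obtain ⟨r', hr', hr'W⟩ := mem_fimp.1 (h W) r (hr.trans hq') hW
  exact ⟨r', hr'.trans hr, W, hr'W, down_meets _ _ hWx _ hr'⟩

theorem InFam.congr {𝒰 : (X → Set P) → Set P} {W W' : X → Set P} {q : P}
    (h : q ∈ InFam W 𝒰) (hs : q ∈ SameSet W W') : q ∈ InFam W' 𝒰 := by
  refine mem_fex.2 fun q' hq' => ?_
  obtain ⟨r, hr, U, hU, hUW⟩ := mem_fex.1 h q' hq'
  refine ⟨r, hr, U, hU, fun a => ?_⟩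
  have h5 : r ∈ SameSet W W' := down_SameSet _ _ _ hs _ (hr.trans hq')
  constructor
  · refine mem_fimp.2 fun r6 hr6 h6 => ⟨r6, le_rfl, ?_⟩
    exact mem_SameSet_meets' (down_SameSet _ _ _ h5 _ hr6) a
      (mem_SameSet_meets' (down_SameSet _ _ _ hUW _ hr6) a h6)
  · refine mem_fimp.2 fun r6 hr6 h6 => ⟨r6, le_rfl, ?_⟩
    exact mem_SameSet_meets' (SameSet.symm (down_SameSet _ _ _ hUW _ hr6)) a
      (mem_SameSet_meets' (SameSet.symm (down_SameSet _ _ _ h5 _ hr6)) a h6)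
where
  mem_SameSet_meets' {A B : X → Set P} {p : P} (h : p ∈ SameSet A B) (x : X)
      (hx : p ∈ meets (A x)) : p ∈ meets (B x) := fimp_meets (down_meets _) (h x).1 hx

/-- The name of the set `{z}`. -/
def pt (P : Type*) {X : Type*} (z : X) : X → Set P := fun x => {_q | x = z}

theorem mem_pt {z x : X} {q : P} (h : q ∈ meets (pt P z x)) : x = z := by
  obtain ⟨r, -, s, hs, -⟩ := h q le_rfl
  exact hs

variable [TopologicalSpace X]

theorem compact_pt (z : X) (p : P) : p ∈ CompactN (pt P z) := by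
  intro 𝒰
  refine mem_fimp.2 fun q _ hq => ?_
  obtain ⟨r, hr, hrU⟩ := mem_fimp.1 (hq.2 z) q le_rfl (meets_of_mem rfl)
  obtain ⟨r1, hr1, W, hW, hWz⟩ := mem_fex.1 hrU r le_rfl
  let ℱ : (X → Set P) → Set P := fun U => {_q | U = W}
  have hℱ : ∀ (W' : X → Set P) (r' : P), r' ∈ InFam W' ℱ → ∃ s ≤ r', s ∈ SameSet W W' := by
    intro W' r' h
    obtain ⟨s, hs, U, hU, hUW⟩ := mem_fex.1 h r' le_rfl
    obtain ⟨s', hs', u, hu, -⟩ := hU s le_rfl
    have hu' : U = W := hu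
    rw [hu'] at hUW
    exact ⟨s', hs'.trans hs, down_SameSet _ _ _ hUW _ hs'⟩
  refine ⟨r1, hr1.trans hr, mem_fex_of_mem ℱ ?_ ⟨⟨?_, ?_⟩, ?_⟩⟩
  · exact down_fand (down_fand (down_fex _) (down_SubFam _ _)) (down_fall fun _ => down_fimp _ _)
  · refine mem_fex_of_mem [W] (down_fall fun _ => down_fimp _ _) fun W' => ?_
    refine mem_fimp.2 fun r' _ h => ?_
    obtain ⟨s, hs, hsW⟩ := hℱ W' r' h
    exact ⟨s, hs, mem_fex_of_mem W (down_fand (down_fground _) (down_SameSet _ _))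
      ⟨List.mem_singleton.mpr rfl, hsW⟩⟩
  · intro W'
    refine mem_fimp.2 fun r' hr' h => ?_
    obtain ⟨s, hs, hsW⟩ := hℱ W' r' h
    exact ⟨s, hs, InFam.congr (down_InFam _ _ _ hW _ (hs.trans hr')) hsW⟩
  · intro x
    refine mem_fimp.2 fun r' hr' h => ⟨r', le_rfl, ?_⟩
    rw [mem_pt h]
    refine mem_fex.2 fun s hs => ⟨s, le_rfl, W, ?_, down_meets _ _ hWz _ (hs.trans hr')⟩
    exact mem_fex.2 fun s' _ => ⟨s', le_rfl, W, meets_of_mem rfl, sameSet_refl _ _⟩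

end General

section Cohen

variable {p0 : Coh}

/-- The covers which player I plays are `k`-covers. -/
theorem isKCover_of_same {𝒜 : (Ctr → Set Coh) → Set Coh}
    (h : ∀ q ≤ p0, ∃ r ≤ q, ∃ h : HH, r ∈ SameFam 𝒜 (Uh h)) : p0 ∈ IsKCoverN 𝒜 := by
  constructor
  · intro W
    refine mem_fimp.2 fun q hq hW => ?_
    obtain ⟨r, hr, h', hs⟩ := h q hq
    obtain ⟨r1, hr1, h1⟩ := mem_fimp.1 (hs.1 W) r le_rfl (down_InFam _ _ _ hW _ hr)
    obtain ⟨r2, hr2, n, hn⟩ := mem_Uh h1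
    exact ⟨r2, hr2.trans (hr1.trans hr), isOpen_Wn h' n hn⟩
  · intro K
    refine mem_fimp.2 fun q hq hK => ?_
    obtain ⟨r, hr, h', hs⟩ := h q hq
    have hcov : r ∈ fand (OpenFam (Uh h')) (fall fun x : Ctr => fimp (meets (K x))
        (InUnion x (Uh h'))) :=
      ⟨openFam_Uh h' r, fun x => mem_fimp.2 fun q' _ _ => ⟨q', le_rfl, inUnion_Uh h' x q'⟩⟩
    obtain ⟨r1, hr1, h1⟩ := mem_fimp.1 (hK (Uh h')) r hr hcov
    obtain ⟨r2, hr2, ℱ, ⟨hfin, hsub⟩, hcv⟩ := mem_fex.1 h1 r1 le_rfl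
    obtain ⟨r3, hr3, N, hN⟩ := exists_bound hfin hsub
    have hr3r : r3 ≤ r := (hr3.trans hr2).trans hr1
    refine ⟨r3, hr3r.trans hr, mem_fex.2 fun r4 hr4 => ?_⟩
    obtain ⟨r5, hr5, h5⟩ := mem_fimp.1 (hs.2 (Wn h' N)) r4 (hr4.trans hr3r) (Wn_mem_Uh h' N r4)
    refine ⟨r5, hr5, Wn h' N, h5, fun x => mem_fimp.2 fun r6 hr6 h6 => ?_⟩
    have hr63 : r6 ≤ r3 := (hr6.trans hr5).trans hr4
    obtain ⟨r7, hr7, h7⟩ := mem_fimp.1 (hcv x) r6 (hr63.trans hr3) h6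
    obtain ⟨r8, hr8, W, hW, hWx⟩ := mem_fex.1 h7 r7 le_rfl
    obtain ⟨r9, hr9, n, hn, hnW⟩ := hN r8 ((hr8.trans hr7).trans hr63) W hW
    refine ⟨r9, (hr9.trans hr8).trans hr7, ?_⟩
    have h10 := mem_SameSet_meets (SameSet.symm hnW) x (down_meets _ _ hWx _ hr9)
    intro s hs'
    obtain ⟨s', hs's, t, ht, hst⟩ := h10 s hs'
    exact ⟨s', hs's, t, Wn_mono hn x ht, hst⟩

theorem isCover_of_same {𝒜 : (Ctr → Set Coh) → Set Coh}
    (h : ∀ q ≤ p0, ∃ r ≤ q, ∃ h : HH, r ∈ SameFam 𝒜 (Uh h)) : p0 ∈ IsCoverN 𝒜 := by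
  refine ⟨(isKCover_of_same h).1, fun x => mem_fex.2 fun q hq => ?_⟩
  obtain ⟨r, hr, h', hs⟩ := h q hq
  obtain ⟨r', hr', W, hW⟩ := mem_fex.1 (InUnion.of_sub hs.2 (inUnion_Uh h' x r)) r le_rfl
  exact ⟨r', hr'.trans hr, W, hW⟩

theorem isKCover_Uh (h : HH) (q : Coh) : q ∈ IsKCoverN (Uh h) :=
  isKCover_of_same fun q' _ => ⟨q', le_rfl, h, fun _ => mem_fimp.2 fun r _ hr => ⟨r, le_rfl, hr⟩,
    fun _ => mem_fimp.2 fun r _ hr => ⟨r, le_rfl, hr⟩⟩

theorem covProps_fam {S : List ((Ctr → Set Coh) → Set Coh) → (Ctr → Set Coh) → Set Coh}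
    (hext : p0 ∈ fall fun s => fall fun t => fimp (SameFams s t) (SameFam (S s) (S t)))
    (hleg : ∀ (h : HH) (s : List HH), ∀ q ≤ p0, ∃ r ≤ q, r ∈ FiniteFam (S ((h :: s).map Uh)) ∧
      r ∈ SubFam (S ((h :: s).map Uh)) (Uh h)) :
    CovProps (fun s x => InUnion x (S s)) p0 := by
  constructor
  · intro s t x q hq hst hx
    refine mem_fex.2 fun q' hq' => ?_
    obtain ⟨r, hr, hr2⟩ := mem_fimp.1 (hext s t) q' (hq'.trans hq)
      (down_SameFams _ _ _ hst _ hq')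
    obtain ⟨r', hr', W, hW⟩ := mem_fex.1 (InUnion.of_sub hr2.1
      (down_InUnion _ _ _ hx _ (hr.trans hq'))) r le_rfl
    exact ⟨r', hr'.trans hr, W, hW⟩
  · intro h s q hq
    obtain ⟨r0, hr0, hfin, hsub⟩ := hleg h s q hq
    obtain ⟨r, hr, N, hN⟩ := exists_bound hfin hsub
    refine ⟨r, hr.trans hr0, N, fun x r' hr' hcov hd => ?_⟩
    obtain ⟨r1, hr1, W, hW, hWx⟩ := mem_fex.1 hcov r' le_rfl
    obtain ⟨r2, hr2, n, hn, hnW⟩ := hN r1 (hr1.trans hr') W hW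
    refine not_meets_Wn (hd.mono (hr2.trans hr1)) hn ?_
    exact mem_SameSet_meets (SameSet.symm hnW) x (down_meets _ _ hWx _ hr2)

/-- No condition forces that player II has a winning strategy in the Menger game on the Cantor
space of the ground model. -/
theorem not_mengerForced (p : Coh) : p ∈ fnot (MengerForced Coh Ctr) := by
  intro p1 _ hp
  obtain ⟨p0, _, S, hext, hleg, hwin⟩ := mem_fex.1 hp p1 le_rfl
  have hC : CovProps (fun s x => InUnion x (S s)) p0 := by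
    refine covProps_fam hext fun h s q hq => ?_
    refine mem_fimp.1 (hleg (Uh h) (s.map Uh)) q hq fun 𝒱 h𝒱 => ?_
    obtain ⟨h', -, rfl⟩ := List.mem_map.mp (show 𝒱 ∈ (h :: s).map Uh from h𝒱)
    exact isCover_Uh h' q
  obtain ⟨z, A, hA1, hA2⟩ := exists_run hC
  obtain ⟨r, hr, hw⟩ := mem_fimp.1 (hwin A) p0 le_rfl fun n => isCover_of_same (hA1 n)
  obtain ⟨r', hr', n, hn⟩ := mem_fex.1 (hw z) r le_rfl
  obtain ⟨s, hs, hs'⟩ := hA2 n r' (hr'.trans hr)
  exact hs' s le_rfl (down_InUnion _ _ _ hn _ hs)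

/-- No condition forces that player II has a winning strategy in the `k`-Menger game on the Cantor
space of the ground model. -/
theorem not_kMengerForced (p : Coh) : p ∈ fnot (KMengerForced Coh Ctr) := by
  intro p1 _ hp
  obtain ⟨p0, _, S, hext, hleg, hwin⟩ := mem_fex.1 hp p1 le_rfl
  have hC : CovProps (fun s x => InUnion x (S s)) p0 := by
    refine covProps_fam hext fun h s q hq => ?_
    refine mem_fimp.1 (hleg (Uh h) (s.map Uh)) q hq fun 𝒱 h𝒱 => ?_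
    obtain ⟨h', -, rfl⟩ := List.mem_map.mp (show 𝒱 ∈ (h :: s).map Uh from h𝒱)
    exact isKCover_Uh h' q
  obtain ⟨z, A, hA1, hA2⟩ := exists_run hC
  obtain ⟨r, hr, hw⟩ := mem_fimp.1 (hwin A) p0 le_rfl fun n => isKCover_of_same (hA1 n)
  obtain ⟨r1, hr1, hw1⟩ := mem_fimp.1 (hw (pt Coh z)) r le_rfl (compact_pt z r)
  obtain ⟨r2, hr2, n, hn⟩ := mem_fex.1 hw1 r1 le_rfl
  obtain ⟨r3, hr3, W, hW, hKW⟩ := mem_fex.1 hn r2 le_rfl
  have hr30 : r3 ≤ p0 := ((hr3.trans hr2).trans hr1).trans hr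
  obtain ⟨s, hs, hs'⟩ := hA2 n r3 hr30
  refine hs' s le_rfl (mem_fex.2 fun s' hs' => ?_)
  obtain ⟨s'', hs'', h1⟩ := mem_fimp.1 (hKW z) s' (hs'.trans hs) (meets_of_mem rfl)
  exact ⟨s'', hs'', W, down_InFam _ _ _ hW _ ((hs''.trans hs').trans hs), h1⟩

/-- No condition forces that player II has a winning strategy in the `k`-Rothberger game on the
Cantor space of the ground model. -/
theorem not_kRothbergerForced (p : Coh) : p ∈ fnot (KRothbergerForced Coh Ctr) := by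
  intro p1 _ hp
  obtain ⟨p0, _, S, hext, hleg, hwin⟩ := mem_fex.1 hp p1 le_rfl
  have hC : CovProps (fun s x => meets (S s x)) p0 := by
    constructor
    · intro s t x q hq hst hx
      refine meets_of_dense fun q' hq' => ?_
      obtain ⟨r, hr, hr2⟩ := mem_fimp.1 (hext s t) q' (hq'.trans hq)
        (down_SameFams _ _ _ hst _ hq')
      exact ⟨r, hr, mem_SameSet_meets hr2 x (down_meets _ _ hx _ (hr.trans hq'))⟩
    · intro h s q hq
      obtain ⟨r0, hr0, hin⟩ := mem_fimp.1 (hleg (Uh h) (s.map Uh)) q hq fun 𝒱 h𝒱 => by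
        obtain ⟨h', -, rfl⟩ := List.mem_map.mp (show 𝒱 ∈ (h :: s).map Uh from h𝒱)
        exact isKCover_Uh h' q
      obtain ⟨r, hr, n, hn⟩ := mem_Uh hin
      refine ⟨r, hr.trans hr0, n, fun x r' hr' hcov hd => ?_⟩
      refine not_meets_Wn hd le_rfl ?_
      exact mem_SameSet_meets (SameSet.symm (down_SameSet _ _ _ hn _ hr')) x hcov
  obtain ⟨z, A, hA1, hA2⟩ := exists_run hC
  obtain ⟨r, hr, hw⟩ := mem_fimp.1 (hwin A) p0 le_rfl fun n => isKCover_of_same (hA1 n)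
  obtain ⟨r1, hr1, hw1⟩ := mem_fimp.1 (hw (pt Coh z)) r le_rfl (compact_pt z r)
  obtain ⟨r2, hr2, n, hn⟩ := mem_fex.1 hw1 r1 le_rfl
  have hr20 : r2 ≤ p0 := (hr2.trans hr1).trans hr
  obtain ⟨s, hs, hs'⟩ := hA2 n r2 hr20
  obtain ⟨s'', hs'', h1⟩ := mem_fimp.1 (hn z) s hs (meets_of_mem rfl)
  exact hs' s'' hs'' h1

end Cohen

/-! ### Cohen forcing is strongly proper, and compact spaces -/

/-- The stages of the closure of `A` under the operation `F`. -/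
def clo {H : Type v} (F : List H → H) (A : Set H) : ℕ → Set H
  | 0 => A
  | n + 1 => clo F A n ∪ F '' {l | ∀ a ∈ l, a ∈ clo F A n}

theorem countable_clo {H : Type v} (F : List H → H) {A : Set H} (hA : A.Countable) (n : ℕ) :
    (clo F A n).Countable := by
  induction n with
  | zero => exact hA
  | succ n ih =>
    refine ih.union (Set.Countable.image ?_ _)
    have hcn : Countable (clo F A n) := ih.to_subtype
    have h1 : {l : List H | ∀ a ∈ l, a ∈ clo F A n} ⊆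
        range (fun l : List (clo F A n) => l.map Subtype.val) := by
      intro l hl
      exact ⟨l.attach.map fun a => ⟨a.1, hl a.1 a.2⟩, by simp [Function.comp_def]⟩
    exact (countable_range _).mono h1

/-- Countable forcings are strongly proper. -/
theorem stronglyProper_of_countable (P : Type) [Preorder P] [Countable P] :
    StronglyProperStat.{0, v} P := by
  intro H e he F
  let C : ℕ → Set H := clo F (range e)
  have hC : ∀ n, C (n + 1) = C n ∪ F '' {l | ∀ a ∈ l, a ∈ C n} := fun _ => rfl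
  have hmono : Monotone C := monotone_nat_of_le_succ fun n => by
    rw [hC]
    exact subset_union_left
  have hcount : ∀ n, (C n).Countable := countable_clo F (countable_range e)
  refine ⟨⋃ n, C n, countable_iUnion hcount, fun l hl => ?_, fun p _ => ⟨p, le_rfl, ?_⟩⟩
  · have h1 : ∃ n, ∀ a ∈ l, a ∈ C n := by
      induction l with
      | nil => exact ⟨0, by simp⟩
      | cons a l ih =>
        obtain ⟨n, hn⟩ := ih fun b hb => hl b (List.mem_cons_of_mem _ hb)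
        obtain ⟨m, hm⟩ := mem_iUnion.mp (hl a List.mem_cons_self)
        refine ⟨max n m, fun b hb => ?_⟩
        rcases List.mem_cons.mp hb with rfl | hb
        · exact hmono (le_max_right n m) hm
        · exact hmono (le_max_left n m) (hn b hb)
    obtain ⟨n, hn⟩ := h1
    refine mem_iUnion.mpr ⟨n + 1, ?_⟩
    rw [hC]
    exact Or.inr ⟨l, hn, rfl⟩
  · intro r _
    have h1 : ∀ s : P, s ∈ e ⁻¹' (⋃ n, C n) := fun s => mem_iUnion.mpr ⟨0, s, rfl⟩
    exact ⟨r, h1 r, fun s _ hs => ⟨s, le_rfl, hs⟩⟩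

section Compact

variable (X : Type*) [TopologicalSpace X] [CompactSpace X]

theorem winsMenger_of_compact : WinsMenger X := by
  classical
  have hex : ∀ 𝒰 : Set (Set X), IsOpenCover 𝒰 → ∃ ℱ : Set (Set X), ℱ.Finite ∧ ℱ ⊆ 𝒰 ∧
      ∀ x : X, ∃ W ∈ ℱ, x ∈ W := by
    intro 𝒰 h
    obtain ⟨t, ht1, ht2, ht3⟩ := isCompact_univ.elim_finite_subcover_image (b := 𝒰) (c := id)
      (fun U hU => h.1 U hU) (fun x _ => by
        obtain ⟨U, hU, hx⟩ := h.2 x
        exact mem_iUnion₂.mpr ⟨U, hU, hx⟩)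
    refine ⟨t, ht2, ht1, fun x => ?_⟩
    obtain ⟨W, hW, hx⟩ := mem_iUnion₂.mp (ht3 (mem_univ x))
    exact ⟨W, hW, hx⟩
  choose! f hf1 hf2 hf3 using hex
  refine ⟨fun s => f (s.headD ∅), fun 𝒰 s h => ?_, fun 𝒰 h x => ⟨0, ?_⟩⟩
  · have h1 := h 𝒰 List.mem_cons_self
    exact ⟨hf1 𝒰 h1, hf2 𝒰 h1⟩
  · exact hf3 (𝒰 0) (h 0) x

theorem univ_mem_of_kCover {𝒰 : Set (Set X)} (h : IsKCover 𝒰) : Set.univ ∈ 𝒰 := by
  obtain ⟨U, hU, h1⟩ := h.2 Set.univ isCompact_univ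
  rwa [univ_subset_iff.mp h1] at hU

theorem winsKMenger_of_compact : WinsKMenger X := by
  refine ⟨fun _ => {Set.univ}, fun 𝒰 s h => ⟨finite_singleton _, ?_⟩, fun 𝒰 h => ⟨?_, ?_⟩⟩
  · exact singleton_subset_iff.mpr (univ_mem_of_kCover X (h 𝒰 List.mem_cons_self))
  · intro U hU
    obtain ⟨n, hn⟩ := mem_iUnion.mp hU
    rw [mem_singleton_iff.mp hn]
    exact isOpen_univ
  · exact fun K _ => ⟨Set.univ, mem_iUnion.mpr ⟨0, rfl⟩, subset_univ K⟩

theorem winsKRothberger_of_compact : WinsKRothberger X := by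
  refine ⟨fun _ => Set.univ, fun 𝒰 s h => univ_mem_of_kCover X (h 𝒰 List.mem_cons_self),
    fun 𝒰 h => ⟨?_, fun K _ => ⟨Set.univ, ⟨0, rfl⟩, subset_univ K⟩⟩⟩
  rintro U ⟨n, rfl⟩
  exact isOpen_univ

end Compact

end Pool.Agent.Q212.MG
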