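import Pool.Agent.Q212.SCFT

/-!
# Covering games in forcing extensions: the definitions

The names of the subsets of a ground model set `X` are the maps from `X` to sets of conditions. The
names of the families of subsets of `X` are the maps which send each name of a subset to a
set of conditions.
-/

universe u v

open Set

namespace Pool.Agent.Q212.MG

open Pool.Agent.Helper669.Forcing Pool.Agent.Q212.SCFT

section Names

variable {P : Type u} [Preorder P] {X : Type v}

/-- The named set `W` belongs to the named family `𝒰`. -/
def InFam (W : X → Set P) (𝒰 : (X → Set P) → Set P) : Set P :=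
  fex fun U : X → Set P => fand (meets (𝒰 U)) (SameSet U W)

/-- The named family `𝒰` is contained in the named family `𝒱`. -/
def SubFam (𝒰 𝒱 : (X → Set P) → Set P) : Set P :=
  fall fun W : X → Set P => fimp (InFam W 𝒰) (InFam W 𝒱)

/-- The named families `𝒰` and `𝒱` are equal. -/
def SameFam (𝒰 𝒱 : (X → Set P) → Set P) : Set P := fand (SubFam 𝒰 𝒱) (SubFam 𝒱 𝒰)

/-- The named finite sequences `s` and `t` of families are equal. -/
def SameFams : List ((X → Set P) → Set P) → List ((X → Set P) → Set P) → Set P
  | [], [] => fground True
  | 𝒰 :: s, 𝒱 :: t => fand (SameFam 𝒰 𝒱) (SameFams s t)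
  | _, _ => fground False

/-- All the members of the finite sequence `s` have the property `φ`. -/
def AllIn (φ : ((X → Set P) → Set P) → Set P) (s : List ((X → Set P) → Set P)) : Set P :=
  fall fun 𝒰 : (X → Set P) → Set P => fall fun _ : 𝒰 ∈ s => φ 𝒰

/-- The named set `K` is a subset of the named set `W`. -/
def SubSet (K W : X → Set P) : Set P := fall fun x => fimp (meets (K x)) (meets (W x))

/-- The named family `𝒰` is finite: all its members are among finitely many named sets. -/
def FiniteFam (𝒰 : (X → Set P) → Set P) : Set P :=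
  fex fun l : List (X → Set P) => fall fun W : X → Set P => fimp (InFam W 𝒰)
    (fex fun U : X → Set P => fand (fground (U ∈ l)) (SameSet U W))

/-- The point `x` is in the union of the named family `𝒰`. -/
def InUnion (x : X) (𝒰 : (X → Set P) → Set P) : Set P :=
  fex fun W : X → Set P => fand (InFam W 𝒰) (meets (W x))

variable [TopologicalSpace X]

/-- The named set `W` is open in the topology which is generated in the extension by the open sets
of the ground model. -/
def IsOpenN (W : X → Set P) : Set P :=
  fall fun x => fimp (meets (W x)) (fex fun O : Set X => fand (fground (IsOpen O ∧ x ∈ O))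
    (fall fun y => fall fun _ : y ∈ O => meets (W y)))

/-- All the members of the named family `𝒰` are open. -/
def OpenFam (𝒰 : (X → Set P) → Set P) : Set P :=
  fall fun W : X → Set P => fimp (InFam W 𝒰) (IsOpenN W)

/-- The named family `𝒰` is an open cover of `X`. -/
def IsCoverN (𝒰 : (X → Set P) → Set P) : Set P :=
  fand (OpenFam 𝒰) (fall fun x : X => InUnion x 𝒰)

/-- The named set `K` is compact: each family of open sets which covers `K` has a finite
subfamily which covers `K`. -/
def CompactN (K : X → Set P) : Set P :=
  fall fun 𝒰 : (X → Set P) → Set P =>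
    fimp (fand (OpenFam 𝒰) (fall fun x : X => fimp (meets (K x)) (InUnion x 𝒰)))
      (fex fun ℱ : (X → Set P) → Set P => fand (fand (FiniteFam ℱ) (SubFam ℱ 𝒰))
        (fall fun x : X => fimp (meets (K x)) (InUnion x ℱ)))

/-- The named family `𝒰` is a `k`-cover: a family of open sets such that each compact set is
contained in one of its members. -/
def IsKCoverN (𝒰 : (X → Set P) → Set P) : Set P :=
  fand (OpenFam 𝒰) (fall fun K : X → Set P => fimp (CompactN K)
    (fex fun W : X → Set P => fand (InFam W 𝒰) (SubSet K W)))

/-- In the extension, player II has a winning strategy in the Menger game. The strategy is named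
by `S`, which sends each finite sequence of named families (the moves of player I, the last one
first) to a named family. The clauses say that the answer only depends on the moves and not on
their names; that the answer to a sequence of open covers is a finite subfamily of the last
cover; and that in every run of `ω` innings each point is covered by one of the answers. -/
def MengerForced (P : Type u) [Preorder P] (X : Type v) [TopologicalSpace X] : Set P :=
  fex fun S : List ((X → Set P) → Set P) → (X → Set P) → Set P =>
    fand (fall fun s => fall fun t => fimp (SameFams s t) (SameFam (S s) (S t)))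
    (fand (fall fun 𝒰 => fall fun s => fimp (AllIn IsCoverN (𝒰 :: s))
        (fand (FiniteFam (S (𝒰 :: s))) (SubFam (S (𝒰 :: s)) 𝒰)))
      (fall fun 𝒰 : ℕ → (X → Set P) → Set P => fimp (fall fun n => IsCoverN (𝒰 n))
        (fall fun x : X => fex fun n : ℕ => InUnion x (S (hist 𝒰 (n + 1))))))

/-- In the extension, player II has a winning strategy in the `k`-Menger game: player I plays
`k`-covers, player II answers with finite subfamilies and wins if the union of the answers is a
`k`-cover. -/
def KMengerForced (P : Type u) [Preorder P] (X : Type v) [TopologicalSpace X] : Set P :=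
  fex fun S : List ((X → Set P) → Set P) → (X → Set P) → Set P =>
    fand (fall fun s => fall fun t => fimp (SameFams s t) (SameFam (S s) (S t)))
    (fand (fall fun 𝒰 => fall fun s => fimp (AllIn IsKCoverN (𝒰 :: s))
        (fand (FiniteFam (S (𝒰 :: s))) (SubFam (S (𝒰 :: s)) 𝒰)))
      (fall fun 𝒰 : ℕ → (X → Set P) → Set P => fimp (fall fun n => IsKCoverN (𝒰 n))
        (fall fun K : X → Set P => fimp (CompactN K) (fex fun n : ℕ => fex fun W : X → Set P =>
          fand (InFam W (S (hist 𝒰 (n + 1)))) (SubSet K W)))))

/-- In the extension, player II has a winning strategy in the `k`-Rothberger game: player I plays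
`k`-covers, player II answers with a member of each and wins if the set of the answers is a
`k`-cover. -/
def KRothbergerForced (P : Type u) [Preorder P] (X : Type v) [TopologicalSpace X] : Set P :=
  fex fun S : List ((X → Set P) → Set P) → X → Set P =>
    fand (fall fun s => fall fun t => fimp (SameFams s t) (SameSet (S s) (S t)))
    (fand (fall fun 𝒰 => fall fun s => fimp (AllIn IsKCoverN (𝒰 :: s))
        (InFam (S (𝒰 :: s)) 𝒰))
      (fall fun 𝒰 : ℕ → (X → Set P) → Set P => fimp (fall fun n => IsKCoverN (𝒰 n))
        (fall fun K : X → Set P => fimp (CompactN K) (fex fun n : ℕ =>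
          SubSet K (S (hist 𝒰 (n + 1)))))))

end Names

/-! ### The games in the ground model -/

section Ground

variable (X : Type v) [TopologicalSpace X]

/-- The family `𝒰` is an open cover of `X`. -/
def IsOpenCover {X : Type v} [TopologicalSpace X] (𝒰 : Set (Set X)) : Prop :=
  (∀ U ∈ 𝒰, IsOpen U) ∧ ∀ x : X, ∃ U ∈ 𝒰, x ∈ U

/-- The family `𝒰` is a `k`-cover of `X`. -/
def IsKCover {X : Type v} [TopologicalSpace X] (𝒰 : Set (Set X)) : Prop :=
  (∀ U ∈ 𝒰, IsOpen U) ∧ ∀ K : Set X, IsCompact K → ∃ U ∈ 𝒰, K ⊆ U

/-- Player II has a winning strategy in the Menger game on `X`. -/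
def WinsMenger : Prop :=
  ∃ σ : List (Set (Set X)) → Set (Set X),
    (∀ (𝒰 : Set (Set X)) (s : List (Set (Set X))), (∀ 𝒱 ∈ 𝒰 :: s, IsOpenCover 𝒱) →
      (σ (𝒰 :: s)).Finite ∧ σ (𝒰 :: s) ⊆ 𝒰) ∧
    ∀ 𝒰 : ℕ → Set (Set X), (∀ n, IsOpenCover (𝒰 n)) →
      ∀ x : X, ∃ n, ∃ W ∈ σ (hist 𝒰 (n + 1)), x ∈ W

/-- Player II has a winning strategy in the `k`-Menger game on `X`. -/
def WinsKMenger : Prop :=
  ∃ σ : List (Set (Set X)) → Set (Set X),
    (∀ (𝒰 : Set (Set X)) (s : List (Set (Set X))), (∀ 𝒱 ∈ 𝒰 :: s, IsKCover 𝒱) →
      (σ (𝒰 :: s)).Finite ∧ σ (𝒰 :: s) ⊆ 𝒰) ∧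
    ∀ 𝒰 : ℕ → Set (Set X), (∀ n, IsKCover (𝒰 n)) →
      IsKCover (⋃ n, σ (hist 𝒰 (n + 1)))

/-- Player II has a winning strategy in the `k`-Rothberger game on `X`. -/
def WinsKRothberger : Prop :=
  ∃ σ : List (Set (Set X)) → Set X,
    (∀ (𝒰 : Set (Set X)) (s : List (Set (Set X))), (∀ 𝒱 ∈ 𝒰 :: s, IsKCover 𝒱) →
      σ (𝒰 :: s) ∈ 𝒰) ∧
    ∀ 𝒰 : ℕ → Set (Set X), (∀ n, IsKCover (𝒰 n)) →
      IsKCover (range fun n => σ (hist 𝒰 (n + 1)))

end Ground

/-! ### Strongly proper forcing -/

section Proper

variable {P : Type u} [Preorder P]

/-- The condition `q` is strongly generic for the model `M`, where `A` is the set of the conditions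
in `M`. -/
def StronglyGeneric (A : Set P) (q : P) : Prop :=
  ∀ r ≤ q, ∃ r' ∈ A, ∀ s ∈ A, s ≤ r' → ∃ t, t ≤ s ∧ t ≤ r

/-- `P` is strongly proper for stationarily many models: for every set `H` which contains `P` (via
the injection `e`) the set of the countable subsets `M` of `H` such that each condition in `M` has
a strongly `(M, P)`-generic extension is stationary: for every operation `F` from finite sequences
of elements of `H` to `H`, some such `M` is closed under `F`. (If `H` is `H(θ)`, the elementary
submodels `M` of `H` with `P ∈ M` form a club, so they can be added to the requirements.) -/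
def StronglyProperStat (P : Type u) [Preorder P] : Prop :=
  ∀ (H : Type v) (e : P → H), Function.Injective e → ∀ F : List H → H,
    ∃ M : Set H, M.Countable ∧ (∀ l : List H, (∀ a ∈ l, a ∈ M) → F l ∈ M) ∧
      ∀ p : P, e p ∈ M → ∃ q ≤ p, StronglyGeneric (e ⁻¹' M) q

end Proper

end Pool.Agent.Q212.MG
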