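import Mathlib

/-!
# A Delta-system argument for pairs
-/

set_option autoImplicit false

namespace Pool.Agent.Q212.NU

open Cardinal

theorem big_pigeon {I C : Type} {κ : Cardinal.{0}} (hκ : κ.IsRegular) (J : Set I)
    (hJ : κ ≤ #J) (g : I → C) (hC : #C < κ) :
    ∃ c, κ ≤ #{ξ | ξ ∈ J ∧ g ξ = c} := by
  obtain ⟨c, hc⟩ := infinite_pigeonhole_card (fun ξ : J => g ξ.1) κ hJ hκ.aleph0_le
    (by rw [hκ.cof_ord]; exact hC)
  refine ⟨c, hc.trans ?_⟩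
  refine mk_le_of_injective (f := fun ξ => ⟨ξ.1.1, ξ.1.2, ξ.2⟩) ?_
  intro a b hab
  exact Subtype.ext (Subtype.ext (congrArg (fun z => z.1) hab))

/-- Among many finite sets there are two that agree on the intersection of their supports. -/
theorem delta {α W I C : Type} [DecidableEq W] {κ : Cardinal.{0}} (hκ : κ.IsRegular)
    (hκ0 : ℵ₀ < κ) (ment : α → Finset W)
    (hc : ∀ S : Finset W, {a | ment a ⊆ S}.Countable) (q : I → Finset α) (g : I → C)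
    (hI : κ ≤ #I) (hC : #C < κ) :
    ∃ ξ η : I, ξ ≠ η ∧ g ξ = g η ∧
      ∀ a, ment a ⊆ (q ξ).biUnion ment ∩ (q η).biUnion ment → (a ∈ q ξ ↔ a ∈ q η) := by
  classical
  set fs : I → Finset W := fun ξ => (q ξ).biUnion ment with hfs
  obtain ⟨n, hn⟩ := big_pigeon hκ (Set.univ : Set I) (by rwa [mk_univ])
    (fun ξ => (fs ξ).card) (by rw [mk_nat]; exact hκ0)
  -- the maximal root
  let Big : Finset W → Prop := fun S => κ ≤ #{ξ : I | (fs ξ).card = n ∧ S ⊆ fs ξ}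
  have hB0 : Big ∅ := by
    refine hn.trans (mk_le_mk_of_subset ?_)
    rintro ξ ⟨-, h⟩
    exact ⟨h, Finset.empty_subset _⟩
  have hBn : ∀ S, Big S → S.card ≤ n := by
    intro S hS
    have h1 : #{ξ : I | (fs ξ).card = n ∧ S ⊆ fs ξ} ≠ 0 := by
      intro h
      have hS' : κ ≤ #{ξ : I | (fs ξ).card = n ∧ S ⊆ fs ξ} := hS
      rw [h] at hS'
      exact absurd (hκ.pos.trans_le hS') (lt_irrefl _)
    obtain ⟨ξ, h2, h3⟩ := Set.nonempty_coe_sort.1 (mk_ne_zero_iff.1 h1)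
    exact (Finset.card_le_card h3).trans h2.le
  obtain ⟨S, hS, hmax⟩ : ∃ S, Big S ∧ ∀ T, Big T → T.card ≤ S.card := by
    obtain ⟨S, hS, hSm⟩ := Nat.findGreatest_spec (P := fun m => ∃ S, Big S ∧ S.card = m)
      (Nat.zero_le n) ⟨∅, hB0, rfl⟩
    refine ⟨S, hS, fun T hT => ?_⟩
    rw [hSm]
    exact Nat.le_findGreatest (hBn T hT) ⟨T, hT, rfl⟩
  -- second pigeonhole
  have hcS : Countable {a // ment a ⊆ S} := (hc S).to_subtype
  obtain ⟨⟨c, t⟩, hJ⟩ := big_pigeon hκ {ξ : I | (fs ξ).card = n ∧ S ⊆ fs ξ} hS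
    (fun ξ => (g ξ, ((q ξ).subtype fun a => ment a ⊆ S))) (by
      rw [mk_prod, lift_id, lift_id]
      refine mul_lt_of_lt hκ.aleph0_le hC ?_
      exact (mk_le_aleph0 (α := Finset {a // ment a ⊆ S})).trans_lt hκ0)
  set J : Set I := {ξ | ξ ∈ {ξ : I | (fs ξ).card = n ∧ S ⊆ fs ξ} ∧
    (g ξ, ((q ξ).subtype fun a => ment a ⊆ S)) = (c, t)} with hJdef
  have hne : #J ≠ 0 := by
    intro h
    rw [h] at hJ
    exact absurd (hκ.pos.trans_le hJ) (lt_irrefl _)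
  obtain ⟨ξ, hξ⟩ := Set.nonempty_coe_sort.1 (mk_ne_zero_iff.1 hne)
  have hsm : ∀ w ∈ fs ξ \ S, #{η : I | η ∈ J ∧ w ∈ fs η} < κ := by
    intro w hw
    obtain ⟨hw1, hw2⟩ := Finset.mem_sdiff.1 hw
    by_contra h
    rw [not_lt] at h
    have h1 : Big (insert w S) := by
      refine h.trans (mk_le_mk_of_subset ?_)
      rintro η ⟨⟨⟨h2, h3⟩, -⟩, h4⟩
      exact ⟨h2, Finset.insert_subset h4 h3⟩
    have h2 := hmax _ h1
    rw [Finset.card_insert_of_notMem hw2] at h2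
    omega
  have hun : ∀ T : Finset W, T ⊆ fs ξ \ S → #{η : I | η ∈ J ∧ ∃ w ∈ T, w ∈ fs η} < κ := by
    intro T
    induction T using Finset.induction_on with
    | empty =>
      intro _
      have h1 : {η : I | η ∈ J ∧ ∃ w ∈ (∅ : Finset W), w ∈ fs η} = ∅ := by
        ext η
        simp
      rw [h1, mk_eq_zero]
      exact hκ.pos
    | insert w T hw ih =>
      intro hT
      have h1 : {η : I | η ∈ J ∧ ∃ u ∈ insert w T, u ∈ fs η} ⊆
          {η : I | η ∈ J ∧ w ∈ fs η} ∪ {η : I | η ∈ J ∧ ∃ u ∈ T, u ∈ fs η} := by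
        rintro η ⟨h2, u, hu, h3⟩
        rcases Finset.mem_insert.1 hu with rfl | hu
        · exact Or.inl ⟨h2, h3⟩
        · exact Or.inr ⟨h2, u, hu, h3⟩
      refine (mk_le_mk_of_subset h1).trans_lt ((mk_union_le _ _).trans_lt ?_)
      exact add_lt_of_lt hκ.aleph0_le (hsm w (hT (Finset.mem_insert_self _ _)))
        (ih ((Finset.subset_insert _ _).trans hT))
  have hfin : #{η : I | η ∈ J ∧ (η = ξ ∨ ∃ w ∈ fs ξ \ S, w ∈ fs η)} < κ := by
    have h1 : {η : I | η ∈ J ∧ (η = ξ ∨ ∃ w ∈ fs ξ \ S, w ∈ fs η)} ⊆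
        {ξ} ∪ {η : I | η ∈ J ∧ ∃ w ∈ fs ξ \ S, w ∈ fs η} := by
      rintro η ⟨h2, h3 | h3⟩
      · exact Or.inl h3
      · exact Or.inr ⟨h2, h3⟩
    refine (mk_le_mk_of_subset h1).trans_lt ((mk_union_le _ _).trans_lt ?_)
    refine add_lt_of_lt hκ.aleph0_le ?_ (hun _ (Finset.Subset.refl _))
    rw [mk_singleton]
    exact one_lt_aleph0.trans hκ0
  obtain ⟨η, hη, hη'⟩ : ∃ η ∈ J, ¬ (η = ξ ∨ ∃ w ∈ fs ξ \ S, w ∈ fs η) := by
    by_contra h
    push Not at h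
    have h1 : J ⊆ {η : I | η ∈ J ∧ (η = ξ ∨ ∃ w ∈ fs ξ \ S, w ∈ fs η)} := by
      intro η hη
      exact ⟨hη, h η hη⟩
    exact absurd (hJ.trans (mk_le_mk_of_subset h1)) (not_le.2 hfin)
  push Not at hη'
  have hroot : fs ξ ∩ fs η ⊆ S := by
    intro w hw
    obtain ⟨h1, h2⟩ := Finset.mem_inter.1 hw
    by_contra h3
    exact hη'.2 w (Finset.mem_sdiff.2 ⟨h1, h3⟩) h2
  have e1 := hξ.2.trans hη.2.symm
  rw [Prod.mk.injEq] at e1
  refine ⟨ξ, η, fun h => hη'.1 h.symm, e1.1, fun a ha => ?_⟩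
  have ha' : ment a ⊆ S := ha.trans hroot
  have h1 := congrArg (fun s => (⟨a, ha'⟩ : {a // ment a ⊆ S}) ∈ s) e1.2
  simpa only [Finset.mem_subtype, eq_iff_iff] using h1

end Pool.Agent.Q212.NU
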