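import Pool.Agent.Q211.FS.Mod
import Pool.Agent.Q212.NU0

/-!
# The notion of forcing: a colouring, homogeneous sets and collapses
-/

set_option autoImplicit false
set_option linter.unusedSectionVars false

namespace Pool.Agent.Q212.NU

open Pool.Agent.W868 Pool.Agent.W868.PName Pool.Agent.Q211.SY
open Pool.Agent.Q211.FS (Al AlF mem_AlF card_Al Hs im im_mul im_one im_injective mem_Hs mem_Hs'
  Hs_mono exists_move)
open ZFSet (pair)

/-- The union of all the `Al n`. -/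
noncomputable def Lam : ZFSet.{0} := ZFSet.sUnion AlF

/-- The rows. -/
abbrev W : Type := Ty Lam

/-- The points. -/
abbrev Pt : Type := W × ℕ

/-- The index set of the columns. -/
abbrev K : Type := Bool × ℕ

/-- The columns. -/
abbrev Co : Type := K × ℕ

/-- The atomic conditions. -/
inductive Atom
  | col (x y : Pt) (b : Bool) : Atom
  | ent (c : Co) (x : Pt) : Atom

open Classical in
noncomputable instance : DecidableEq Atom := Classical.decEq _

open Classical in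
noncomputable instance : DecidableEq W := Classical.decEq _

/-- The rows that are mentioned. -/
noncomputable def ment : Atom → Finset W
  | .col x y _ => {x.1, y.1}
  | .ent _ x => {x.1}

/-- The conditions. -/
structure Valid (s : Finset Atom) : Prop where
  fn : ∀ x y b b', .col x y b ∈ s → .col x y b' ∈ s → b = b'
  ty : ∀ c x, .ent c x ∈ s → el x.1 ∈ Al c.1.2
  ho : ∀ c x y, c.1.1 = true → .ent c x ∈ s → .ent c y ∈ s → x.1 ≠ y.1 → .col x y true ∈ s
  cl : ∀ c x y, c.1.1 = false → .ent c x ∈ s → .ent c y ∈ s → x.2 = y.2 → x.1 = y.1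

/-- The notion of forcing. -/
def P : Type := {s : Finset Atom // Valid s}

namespace P

instance : Preorder P where
  le p q := q.1 ⊆ p.1
  le_refl _ := Finset.Subset.refl _
  le_trans _ _ _ h1 h2 := Finset.Subset.trans h2 h1

theorem le_def {p q : P} : p ≤ q ↔ q.1 ⊆ p.1 := Iff.rfl

theorem valid_empty : Valid ∅ := ⟨by simp, by simp, by simp, by simp⟩

instance : OrderTop P where
  top := ⟨∅, valid_empty⟩
  le_top _ := Finset.empty_subset _

/-- The rows that are mentioned in a condition. -/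
noncomputable def rows (p : P) : Finset W := p.1.biUnion ment

theorem mem_rows {p : P} {w : W} : w ∈ p.rows ↔ ∃ a ∈ p.1, w ∈ ment a := Finset.mem_biUnion

theorem row_col1 {p : P} {x y : Pt} {b : Bool} (h : .col x y b ∈ p.1) : x.1 ∈ p.rows :=
  mem_rows.2 ⟨_, h, by simp [ment]⟩

theorem row_col2 {p : P} {x y : Pt} {b : Bool} (h : .col x y b ∈ p.1) : y.1 ∈ p.rows :=
  mem_rows.2 ⟨_, h, by simp [ment]⟩

theorem row_ent {p : P} {c : Co} {x : Pt} (h : .ent c x ∈ p.1) : x.1 ∈ p.rows :=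
  mem_rows.2 ⟨_, h, by simp [ment]⟩

end P

open Classical in
/-- The cross product with the colour `b`. -/
noncomputable def cross (b : Bool) (X Y : Finset Pt) : Finset Atom :=
  (X ×ˢ Y).image (fun t => .col t.1 t.2 b) ∪ (X ×ˢ Y).image (fun t => .col t.2 t.1 b)

theorem mem_cross {b : Bool} {X Y : Finset Pt} {a : Atom} : a ∈ cross b X Y ↔
    ∃ x ∈ X, ∃ y ∈ Y, a = .col x y b ∨ a = .col y x b := by
  unfold cross
  rw [Finset.mem_union, Finset.mem_image, Finset.mem_image]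
  constructor
  · rintro (⟨t, ht, rfl⟩ | ⟨t, ht, rfl⟩)
    · obtain ⟨h1, h2⟩ := Finset.mem_product.1 ht
      exact ⟨t.1, h1, t.2, h2, Or.inl rfl⟩
    · obtain ⟨h1, h2⟩ := Finset.mem_product.1 ht
      exact ⟨t.1, h1, t.2, h2, Or.inr rfl⟩
  · rintro ⟨x, hx, y, hy, rfl | rfl⟩
    · exact Or.inl ⟨(x, y), Finset.mem_product.2 ⟨hx, hy⟩, rfl⟩
    · exact Or.inr ⟨(x, y), Finset.mem_product.2 ⟨hx, hy⟩, rfl⟩

open Classical in
/-- Amalgamation of two conditions. -/
theorem exists_amalg {p q : P} (b : Bool) (X Y : Finset Pt)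
    (h2 : ∀ a, ment a ⊆ p.rows ∩ q.rows → (a ∈ p.1 ↔ a ∈ q.1))
    (hX : ∀ x ∈ X, x.1 ∉ q.rows) (hY : ∀ y ∈ Y, y.1 ∉ p.rows)
    (hc : ∀ c : Co, (∀ x, Atom.ent c x ∈ p.1 ↔ Atom.ent c x ∈ q.1) ∨ (c.1.1 = true ∧ b = true ∧
      (∀ x, Atom.ent c x ∈ p.1 → x.1 ∉ q.rows → x ∈ X) ∧
      (∀ x, Atom.ent c x ∈ q.1 → x.1 ∉ p.rows → x ∈ Y))) :
    ∃ r : P, r ≤ p ∧ r ≤ q ∧ ∀ x ∈ X, ∀ y ∈ Y, Atom.col x y b ∈ r.1 ∧ Atom.col y x b ∈ r.1 := by
  have hcol : ∀ x y d, Atom.col x y d ∈ p.1 → ∀ d', Atom.col x y d' ∈ q.1 → d = d' := by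
    intro x y d h3 d' h4
    have h5 : Atom.col x y d' ∈ p.1 := by
      refine (h2 _ ?_).2 h4
      intro w hw
      simp only [ment, Finset.mem_insert, Finset.mem_singleton] at hw
      rw [Finset.mem_inter]
      rcases hw with rfl | rfl
      · exact ⟨P.row_col1 h3, P.row_col1 h4⟩
      · exact ⟨P.row_col2 h3, P.row_col2 h4⟩
    exact p.2.fn _ _ _ _ h3 h5
  have hpc : ∀ x y d, Atom.col x y d ∈ p.1 → Atom.col x y d ∉ cross b X Y ∧
      ∀ d', Atom.col x y d' ∉ cross b X Y := by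
    have h0 : ∀ x y d, Atom.col x y d ∈ p.1 → ∀ d', Atom.col x y d' ∉ cross b X Y := by
      intro x y d h3 d' h4
      obtain ⟨u, hu, v, hv, h5 | h5⟩ := mem_cross.1 h4
      · obtain ⟨rfl, rfl, rfl⟩ := Atom.col.inj h5
        exact hY _ hv (P.row_col2 h3)
      · obtain ⟨rfl, rfl, rfl⟩ := Atom.col.inj h5
        exact hY _ hv (P.row_col1 h3)
    exact fun x y d h3 => ⟨h0 x y d h3 d, h0 x y d h3⟩
  have hqc : ∀ x y d, Atom.col x y d ∈ q.1 → ∀ d', Atom.col x y d' ∉ cross b X Y := by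
    intro x y d h3 d' h4
    obtain ⟨u, hu, v, hv, h5 | h5⟩ := mem_cross.1 h4
    · obtain ⟨rfl, rfl, rfl⟩ := Atom.col.inj h5
      exact hX _ hu (P.row_col1 h3)
    · obtain ⟨rfl, rfl, rfl⟩ := Atom.col.inj h5
      exact hX _ hu (P.row_col2 h3)
  have hcb : ∀ x y d, Atom.col x y d ∈ cross b X Y → d = b := by
    intro x y d h3
    obtain ⟨u, hu, v, hv, h5 | h5⟩ := mem_cross.1 h3
    · exact (Atom.col.inj h5).2.2
    · exact (Atom.col.inj h5).2.2
  have hent : ∀ c x, Atom.ent c x ∉ cross b X Y := by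
    intro c x h3
    obtain ⟨u, hu, v, hv, h5 | h5⟩ := mem_cross.1 h3
    · cases h5
    · cases h5
  have hmem : ∀ a, a ∈ p.1 ∪ q.1 ∪ cross b X Y ↔ a ∈ p.1 ∨ a ∈ q.1 ∨ a ∈ cross b X Y := by
    intro a
    rw [Finset.mem_union, Finset.mem_union, or_assoc]
  have hentm : ∀ c x, Atom.ent c x ∈ p.1 ∪ q.1 ∪ cross b X Y ↔
      Atom.ent c x ∈ p.1 ∨ Atom.ent c x ∈ q.1 := by
    intro c x
    rw [hmem]
    have := hent c x
    tauto
  have hent2 : ∀ c x, Atom.ent c x ∈ p.1 → x.1 ∈ q.rows → Atom.ent c x ∈ q.1 := by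
    intro c x h3 h4
    refine (h2 _ ?_).1 h3
    intro w hw
    simp only [ment, Finset.mem_singleton] at hw
    subst hw
    exact Finset.mem_inter.2 ⟨P.row_ent h3, h4⟩
  have hent3 : ∀ c x, Atom.ent c x ∈ q.1 → x.1 ∈ p.rows → Atom.ent c x ∈ p.1 := by
    intro c x h3 h4
    refine (h2 _ ?_).2 h3
    intro w hw
    simp only [ment, Finset.mem_singleton] at hw
    subst hw
    exact Finset.mem_inter.2 ⟨h4, P.row_ent h3⟩
  refine ⟨⟨p.1 ∪ q.1 ∪ cross b X Y, ⟨?_, ?_, ?_, ?_⟩⟩, ?_, ?_, ?_⟩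
  · intro x y d d' h3 h4
    rw [hmem] at h3 h4
    rcases h3 with h3 | h3 | h3 <;> rcases h4 with h4 | h4 | h4
    · exact p.2.fn _ _ _ _ h3 h4
    · exact hcol _ _ _ h3 _ h4
    · exact absurd h4 ((hpc _ _ _ h3).2 _)
    · exact (hcol _ _ _ h4 _ h3).symm
    · exact q.2.fn _ _ _ _ h3 h4
    · exact absurd h4 (hqc _ _ _ h3 _)
    · exact absurd h3 ((hpc _ _ _ h4).2 _)
    · exact absurd h3 (hqc _ _ _ h4 _)
    · rw [hcb _ _ _ h3, hcb _ _ _ h4]
  · intro c x h3
    rcases (hentm c x).1 h3 with h3 | h3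
    · exact p.2.ty _ _ h3
    · exact q.2.ty _ _ h3
  · intro c x y hk h3 h4 hxy
    rw [hentm] at h3 h4
    rcases hc c with hc | ⟨-, hb, hcX, hcY⟩
    · rw [← hc, or_self] at h3 h4
      exact (hmem _).2 (Or.inl (p.2.ho _ _ _ hk h3 h4 hxy))
    · subst hb
      have key : ∀ x y : Pt, x.1 ≠ y.1 → Atom.ent c x ∈ p.1 → Atom.ent c y ∈ q.1 →
          Atom.col x y true ∈ p.1 ∪ q.1 ∪ cross true X Y ∧
          Atom.col y x true ∈ p.1 ∪ q.1 ∪ cross true X Y := by
        intro x y hxy h5 h6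
        by_cases h7 : x.1 ∈ q.rows
        · have h8 := hent2 c x h5 h7
          exact ⟨(hmem _).2 (Or.inr (Or.inl (q.2.ho _ _ _ hk h8 h6 hxy))),
            (hmem _).2 (Or.inr (Or.inl (q.2.ho _ _ _ hk h6 h8 hxy.symm)))⟩
        by_cases h8 : y.1 ∈ p.rows
        · have h9 := hent3 c y h6 h8
          exact ⟨(hmem _).2 (Or.inl (p.2.ho _ _ _ hk h5 h9 hxy)),
            (hmem _).2 (Or.inl (p.2.ho _ _ _ hk h9 h5 hxy.symm))⟩
        have h9 := hcX x h5 h7
        have h10 := hcY y h6 h8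
        exact ⟨(hmem _).2 (Or.inr (Or.inr (mem_cross.2 ⟨x, h9, y, h10, Or.inl rfl⟩))),
          (hmem _).2 (Or.inr (Or.inr (mem_cross.2 ⟨x, h9, y, h10, Or.inr rfl⟩)))⟩
      rcases h3 with h3 | h3 <;> rcases h4 with h4 | h4
      · exact (hmem _).2 (Or.inl (p.2.ho _ _ _ hk h3 h4 hxy))
      · exact (key x y hxy h3 h4).1
      · exact (key y x hxy.symm h4 h3).2
      · exact (hmem _).2 (Or.inr (Or.inl (q.2.ho _ _ _ hk h3 h4 hxy)))
  · intro c x y hk h3 h4 hxy
    rw [hentm] at h3 h4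
    rcases hc c with hc | ⟨hk', -⟩
    · rw [← hc, or_self] at h3 h4
      exact p.2.cl _ _ _ hk h3 h4 hxy
    · rw [hk] at hk'
      cases hk'
  · intro a ha
    exact (hmem _).2 (Or.inl ha)
  · intro a ha
    exact (hmem _).2 (Or.inr (Or.inl ha))
  · intro x hx y hy
    exact ⟨(hmem _).2 (Or.inr (Or.inr (mem_cross.2 ⟨x, hx, y, hy, Or.inl rfl⟩))),
      (hmem _).2 (Or.inr (Or.inr (mem_cross.2 ⟨x, hx, y, hy, Or.inr rfl⟩)))⟩

/-! ### The symmetries -/

/-- The action on the atoms. -/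
def mv (σ : K → Equiv.Perm ℕ) : Atom → Atom
  | .col x y b => .col x y b
  | .ent c x => .ent (im σ c) x

theorem mv_mul (σ τ : K → Equiv.Perm ℕ) (a : Atom) : mv (σ * τ) a = mv σ (mv τ a) := by
  cases a <;> rfl

theorem mv_one (a : Atom) : mv 1 a = a := by
  cases a <;> rfl

theorem mv_injective (σ : K → Equiv.Perm ℕ) : Function.Injective (mv σ) := by
  intro a b h
  have h1 := congrArg (mv σ⁻¹) h
  rwa [← mv_mul, ← mv_mul, inv_mul_cancel, mv_one, mv_one] at h1

theorem mv_inv (σ : K → Equiv.Perm ℕ) (a : Atom) : mv σ (mv σ⁻¹ a) = a := by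
  rw [← mv_mul, mul_inv_cancel, mv_one]

theorem inv_mv (σ : K → Equiv.Perm ℕ) (a : Atom) : mv σ⁻¹ (mv σ a) = a := by
  rw [← mv_mul, inv_mul_cancel, mv_one]

open Classical in
theorem mem_img {σ : K → Equiv.Perm ℕ} {s : Finset Atom} {a : Atom} :
    a ∈ s.image (mv σ) ↔ mv σ⁻¹ a ∈ s := by
  rw [Finset.mem_image]
  constructor
  · rintro ⟨b, hb, rfl⟩
    rwa [inv_mv]
  · intro h
    exact ⟨_, h, mv_inv σ a⟩

open Classical in
/-- The action on the conditions. -/
noncomputable def sm (σ : K → Equiv.Perm ℕ) (p : P) : P :=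
  ⟨p.1.image (mv σ), by
    constructor
    · intro x y b b' h1 h2
      rw [mem_img] at h1 h2
      exact p.2.fn _ _ _ _ h1 h2
    · intro c x h1
      rw [mem_img] at h1
      exact p.2.ty (im σ⁻¹ c) x h1
    · intro c x y hk h1 h2 hxy
      rw [mem_img] at h1 h2 ⊢
      exact p.2.ho (im σ⁻¹ c) x y hk h1 h2 hxy
    · intro c x y hk h1 h2 hxy
      rw [mem_img] at h1 h2
      exact p.2.cl (im σ⁻¹ c) x y hk h1 h2 hxy⟩

theorem mem_sm {σ : K → Equiv.Perm ℕ} {p : P} {a : Atom} : a ∈ (sm σ p).1 ↔ mv σ⁻¹ a ∈ p.1 :=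
  mem_img

theorem P.ext' {p q : P} (h : ∀ a, a ∈ p.1 ↔ a ∈ q.1) : p = q :=
  Subtype.ext (Finset.ext h)

theorem sm_mul (σ τ : K → Equiv.Perm ℕ) (p : P) : sm (σ * τ) p = sm σ (sm τ p) := by
  refine P.ext' fun a => ?_
  rw [mem_sm, mem_sm, mem_sm, mul_inv_rev, mv_mul]

theorem sm_one (p : P) : sm 1 p = p := by
  refine P.ext' fun a => ?_
  rw [mem_sm, inv_one, mv_one]

theorem sm_le {σ : K → Equiv.Perm ℕ} {p q : P} (h : p ≤ q) : sm σ p ≤ sm σ q := by
  intro a ha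
  rw [mem_sm] at ha ⊢
  exact h ha

/-- The action as a homomorphism to the automorphisms. -/
noncomputable def ac : (K → Equiv.Perm ℕ) →* (P ≃o P) where
  toFun σ :=
    { toFun := sm σ
      invFun := sm σ⁻¹
      left_inv := fun p => by rw [← sm_mul, inv_mul_cancel, sm_one]
      right_inv := fun p => by rw [← sm_mul, mul_inv_cancel, sm_one]
      map_rel_iff' := by
        intro p q
        constructor
        · intro h
          have h1 : sm σ⁻¹ (sm σ p) ≤ sm σ⁻¹ (sm σ q) := sm_le h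
          rwa [← sm_mul, ← sm_mul, inv_mul_cancel, sm_one, sm_one] at h1
        · exact fun h => sm_le h }
  map_one' := RelIso.ext fun p => sm_one p
  map_mul' σ τ := RelIso.ext fun p => sm_mul σ τ p

theorem sm_top (σ : K → Equiv.Perm ℕ) : sm σ ⊤ = ⊤ := by
  refine P.ext' fun a => ?_
  rw [mem_sm]
  exact ⟨fun h => absurd h (Finset.notMem_empty _), fun h => absurd h (Finset.notMem_empty _)⟩

open Classical in
/-- The symmetric system. -/
noncomputable def SN : Sys P where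
  G := K → Equiv.Perm ℕ
  grp := inferInstance
  ac := ac
  top σ := sm_top σ
  F := Set.range (Hs K)
  ne := ⟨_, ∅, rfl⟩
  conj := by
    rintro _ ⟨e, rfl⟩ g
    refine ⟨_, ⟨e.image (im g), rfl⟩, fun k hk => ?_⟩
    rw [mem_Hs'] at hk ⊢
    intro c hc
    have h1 := hk (im g c) (Finset.mem_image_of_mem _ hc)
    rw [im_mul, im_mul, h1, ← im_mul, inv_mul_cancel, im_one]
  dir := by
    rintro _ ⟨e, rfl⟩ _ ⟨e', rfl⟩
    exact ⟨_, ⟨e ∪ e', rfl⟩, Hs_mono Finset.subset_union_left, Hs_mono Finset.subset_union_right⟩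

/-- The name `x` is fixed by the stabilizer of `e`. -/
abbrev Fx (e : Finset Co) (x : PName P) : Prop := SN.Fix (Hs K e) x

theorem sym_iff {x : PName P} : SN.Sym x ↔ ∃ e, Fx e x := by
  constructor
  · rintro ⟨H, ⟨e, rfl⟩, h⟩
    exact ⟨e, h⟩
  · rintro ⟨e, h⟩
    exact ⟨_, ⟨e, rfl⟩, h⟩

theorem Fx.mono {e e' : Finset Co} {x : PName P} (h : Fx e x) (he : e ⊆ e') :
    Fx e' x := Sys.Fix.mono h (Hs_mono he)

theorem fx_check (e : Finset Co) (x : ZFSet.{0}) : Fx e (check x) := by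
  intro σ _ p
  rw [act_check (SN.top σ)]
  exact Feq.refl _ _

/-! ### Restriction -/

/-- The atom is in the columns of `e`. -/
def Kp (e : Finset Co) : Atom → Prop
  | .col _ _ _ => True
  | .ent c _ => c ∈ e

open Classical in
/-- Restriction. -/
noncomputable def res (e : Finset Co) (p : P) : P :=
  ⟨p.1.filter (Kp e), by
    constructor
    · intro x y b b' h1 h2
      exact p.2.fn _ _ _ _ (Finset.mem_of_mem_filter _ h1) (Finset.mem_of_mem_filter _ h2)
    · intro c x h1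
      exact p.2.ty _ _ (Finset.mem_of_mem_filter _ h1)
    · intro c x y hk h1 h2 hxy
      exact Finset.mem_filter.2 ⟨p.2.ho _ _ _ hk (Finset.mem_of_mem_filter _ h1)
        (Finset.mem_of_mem_filter _ h2) hxy, trivial⟩
    · intro c x y hk h1 h2 hxy
      exact p.2.cl _ _ _ hk (Finset.mem_of_mem_filter _ h1) (Finset.mem_of_mem_filter _ h2) hxy⟩

open Classical in
theorem mem_res {e : Finset Co} {p : P} {a : Atom} : a ∈ (res e p).1 ↔ a ∈ p.1 ∧ Kp e a :=
  Finset.mem_filter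

theorem le_res (e : Finset Co) (p : P) : p ≤ res e p := fun _ ha => (mem_res.1 ha).1

/-- All the columns of `p` are in `e`. -/
def Sp (e : Finset Co) (p : P) : Prop := ∀ a ∈ p.1, Kp e a

theorem sp_res (e : Finset Co) (p : P) : Sp e (res e p) := fun _ ha => (mem_res.1 ha).2

theorem res_mono {e : Finset Co} {p q : P} (h : p ≤ q) : res e p ≤ res e q := by
  intro a ha
  rw [mem_res] at ha ⊢
  exact ⟨h ha.1, ha.2⟩

theorem Sp.res_eq {e : Finset Co} {p : P} (h : Sp e p) : res e p = p := by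
  refine P.ext' fun a => ?_
  rw [mem_res]
  exact ⟨fun h1 => h1.1, fun h1 => ⟨h1, h a h1⟩⟩

theorem res_res {e e' : Finset Co} (h : e ⊆ e') (p : P) : res e' (res e p) = res e p := by
  refine Sp.res_eq fun a ha => ?_
  have h1 := (mem_res.1 ha).2
  cases a with
  | col x y b => trivial
  | ent c x => exact h h1

open Classical in
/-- The columns of a condition. -/
noncomputable def cols (p : P) : Finset Co :=
  p.1.biUnion fun a => match a with
    | .col _ _ _ => ∅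
    | .ent c _ => {c}

theorem mem_cols {p : P} {c : Co} {x : Pt} (h : Atom.ent c x ∈ p.1) : c ∈ cols p := by
  unfold cols
  rw [Finset.mem_biUnion]
  exact ⟨_, h, by simp⟩

open Classical in
/-- Moving a condition away. -/
theorem exists_common (e : Finset Co) (p q : P) (h : q ≤ res e p) :
    ∃ σ ∈ Hs K e, ∃ r ≤ q, r ≤ sm σ p := by
  obtain ⟨σ, hσ, h1⟩ := exists_move e (cols p) (cols q)
  have hσ' := mem_Hs'.1 hσ
  have key : ∀ c x, Atom.ent c x ∈ (sm σ p).1 → (∃ y, Atom.ent c y ∈ q.1) →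
      Atom.ent c x ∈ q.1 := by
    intro c x h2 ⟨y, h3⟩
    rw [mem_sm] at h2
    change Atom.ent (im σ⁻¹ c) x ∈ p.1 at h2
    have h4 : im σ (im σ⁻¹ c) = c := by rw [← im_mul, mul_inv_cancel, im_one]
    by_cases h5 : im σ⁻¹ c ∈ e
    · have h6 := hσ' _ h5
      rw [h4] at h6
      rw [← h6] at h2 h5
      exact h (mem_res.2 ⟨h2, h5⟩)
    · have h6 := h1 _ (mem_cols h2) h5
      rw [h4] at h6
      exact absurd (mem_cols h3) h6
  have hcol : ∀ x y b, Atom.col x y b ∈ (sm σ p).1 → Atom.col x y b ∈ q.1 := by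
    intro x y b h2
    rw [mem_sm] at h2
    exact h (mem_res.2 ⟨h2, trivial⟩)
  refine ⟨σ, hσ, ⟨(sm σ p).1 ∪ q.1, ⟨?_, ?_, ?_, ?_⟩⟩, Finset.subset_union_right,
    Finset.subset_union_left⟩
  · intro x y b b' h2 h3
    refine q.2.fn x y b b' ?_ ?_
    · exact (Finset.mem_union.1 h2).elim (hcol _ _ _) id
    · exact (Finset.mem_union.1 h3).elim (hcol _ _ _) id
  · intro c x h2
    rcases Finset.mem_union.1 h2 with h2 | h2
    · exact (sm σ p).2.ty _ _ h2
    · exact q.2.ty _ _ h2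
  · intro c x y hk h2 h3 hxy
    rw [Finset.mem_union] at h2 h3 ⊢
    rcases h2 with h2 | h2 <;> rcases h3 with h3 | h3
    · exact Or.inl ((sm σ p).2.ho _ _ _ hk h2 h3 hxy)
    · exact Or.inr (q.2.ho _ _ _ hk (key _ _ h2 ⟨_, h3⟩) h3 hxy)
    · exact Or.inr (q.2.ho _ _ _ hk h2 (key _ _ h3 ⟨_, h2⟩) hxy)
    · exact Or.inr (q.2.ho _ _ _ hk h2 h3 hxy)
  · intro c x y hk h2 h3 hxy
    rw [Finset.mem_union] at h2 h3
    rcases h2 with h2 | h2 <;> rcases h3 with h3 | h3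
    · exact (sm σ p).2.cl _ _ _ hk h2 h3 hxy
    · exact q.2.cl _ _ _ hk (key _ _ h2 ⟨_, h3⟩) h3 hxy
    · exact q.2.cl _ _ _ hk h2 (key _ _ h3 ⟨_, h2⟩) hxy
    · exact q.2.cl _ _ _ hk h2 h3 hxy

/-- Homogeneity: what is forced about names with support `e` is forced by the restriction
to `e`. -/
theorem frc_res {n : ℕ} {R : Set ZFSet.{0} → (Fin n → ZFSet.{0}) → Prop} {h : UD R}
    {x : Fin n → PName P} {e : Finset Co} (hx : ∀ i, Fx e (x i)) {p : P}
    (hf : SN.Frc h x p) : SN.Frc h x (res e p) := by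
  refine Sys.frc_dense fun q hq => ?_
  obtain ⟨σ, hσ, r, hr, hr'⟩ := exists_common e p q hq
  exact ⟨r, hr, (Sys.frc_fix hx hσ hf).mono hr'⟩

end Pool.Agent.Q212.NU
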