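import Pool.Agent.Q212.NU1

/-!
# Two lemmas on pairs of conditions
-/

set_option autoImplicit false
set_option linter.unusedSectionVars false

namespace Pool.Agent.Q212.NU

open Pool.Agent.W868 Pool.Agent.W868.PName Pool.Agent.Q211.SY
open Pool.Agent.Q211.FS (Al AlF mem_AlF card_Al)
open ZFSet (pair)

/-! ### Cardinalities -/

theorem Al_mono {m n : ℕ} (h : m ≤ n) : Al m ⊆ Al n := by
  unfold Al
  refine Ordinal.toZFSet_subset_toZFSet_iff.2 (Cardinal.ord_le_ord.2 ?_)
  exact Cardinal.aleph_le_aleph.2 (by exact_mod_cast h)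

theorem Al_sub_Lam (n : ℕ) : Al n ⊆ Lam := fun _ hz =>
  ZFSet.mem_sUnion.2 ⟨_, mem_AlF.2 ⟨n, rfl⟩, hz⟩

theorem mk_Ty_Al (n : ℕ) : Cardinal.mk (Ty (Al n)) = Cardinal.aleph (n : Ordinal.{0}) := by
  have h2 : Cardinal.mk (Ty (Al n)) = (Al n).card := rfl
  rw [h2, card_Al]

/-- The rows in `Al n`, as elements of `W`. -/
noncomputable def up {n : ℕ} (i : Ty (Al n)) : W :=
  (exists_el (Al_sub_Lam n (el_mem i))).choose

theorem el_up {n : ℕ} (i : Ty (Al n)) : el (up i) = el i :=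
  (exists_el (Al_sub_Lam n (el_mem i))).choose_spec

theorem up_injective {n : ℕ} : Function.Injective (up : Ty (Al n) → W) := by
  intro i j h
  apply el_injective
  rw [← el_up, ← el_up, h]

/-- The entries in the columns in `e` with a row in `Al m`. -/
def Good (e : Finset Co) (m : ℕ) : Atom → Prop
  | .col _ _ _ => False
  | .ent c x => c ∈ e ∧ el x.1 ∈ Al m

theorem mk_good (e : Finset Co) (m : ℕ) :
    Cardinal.mk {a // Good e m a} ≤ Cardinal.aleph (m : Ordinal.{0}) := by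
  classical
  have h : ∀ a : {a // Good e m a}, ∃ t : Co × Ty (Al m) × ℕ,
      a.1 = .ent t.1 (up t.2.1, t.2.2) := by
    rintro ⟨a, ha⟩
    cases a with
    | col x y b => exact ha.elim
    | ent c x =>
      obtain ⟨i, hi⟩ := exists_el ha.2
      refine ⟨(c, i, x.2), ?_⟩
      have h1 : up i = x.1 := by
        apply el_injective
        rw [el_up, hi]
      simp only [h1]
  choose f hf using h
  have hinj : Function.Injective f := by
    intro a b hab
    apply Subtype.ext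
    rw [hf a, hf b, hab]
  refine (Cardinal.mk_le_of_injective hinj).trans ?_
  have h0 : Cardinal.aleph0 ≤ Cardinal.aleph (m : Ordinal.{0}) := Cardinal.aleph0_le_aleph _
  have h1 : Cardinal.mk (Co × Ty (Al m) × ℕ) =
      Cardinal.mk Co * (Cardinal.mk (Ty (Al m)) * Cardinal.mk ℕ) := by
    simp only [Cardinal.mk_prod, Cardinal.lift_id]
  rw [h1, mk_Ty_Al]
  refine (mul_le_mul' (Cardinal.mk_le_aleph0.trans h0) (mul_le_mul' le_rfl
    (Cardinal.mk_le_aleph0.trans h0))).trans ?_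
  rw [Cardinal.mul_eq_self h0, Cardinal.mul_eq_self h0]

theorem mk_finset_good (e : Finset Co) (m : ℕ) :
    Cardinal.mk (Finset {a // Good e m a}) ≤ Cardinal.aleph (m : Ordinal.{0}) := by
  classical
  have h1 : Function.Injective (Finset.toList : Finset {a // Good e m a} → List _) := by
    intro s t h
    rw [← Finset.toList_toFinset s, ← Finset.toList_toFinset t, h]
  refine (Cardinal.mk_le_of_injective h1).trans ((Cardinal.mk_list_le_max _).trans ?_)
  exact max_le (Cardinal.aleph0_le_aleph _) (mk_good e m)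

theorem reg (m : ℕ) : (Cardinal.aleph ((m + 1 : ℕ) : Ordinal.{0})).IsRegular := by
  have h := Cardinal.isRegular_aleph_add_one (m : Ordinal.{0})
  have h1 : ((m + 1 : ℕ) : Ordinal.{0}) = (m : Ordinal.{0}) + 1 := by
    push_cast
    rfl
  rw [h1]
  exact h

theorem mk_lt (e : Finset Co) (m : ℕ) :
    Cardinal.mk (Finset {a // Good e m a} × ℕ) < Cardinal.aleph ((m + 1 : ℕ) : Ordinal.{0}) := by
  rw [Cardinal.mk_prod, Cardinal.lift_id, Cardinal.lift_id]
  have h0 : Cardinal.aleph0 ≤ Cardinal.aleph (m : Ordinal.{0}) := Cardinal.aleph0_le_aleph _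
  refine (mul_le_mul' (mk_finset_good e m) (Cardinal.mk_le_aleph0.trans h0)).trans_lt ?_
  rw [Cardinal.mul_eq_self h0]
  exact Cardinal.aleph_lt_aleph.2 (by exact_mod_cast Nat.lt_succ_self m)

/-! ### Countability of the set of atoms with given rows -/

theorem cnt_pts (S : Finset W) : {x : Pt | x.1 ∈ S}.Countable := by
  have h : {x : Pt | x.1 ∈ S} = (S : Set W) ×ˢ (Set.univ : Set ℕ) := by
    ext x
    simp
  rw [h]
  exact S.countable_toSet.prod Set.countable_univ

theorem cnt_ment (S : Finset W) : {a | ment a ⊆ S}.Countable := by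
  have h1 := cnt_pts S
  have h2 : {a | ment a ⊆ S} ⊆
      (fun t : (Pt × Pt) × Bool => Atom.col t.1.1 t.1.2 t.2) ''
        (({x : Pt | x.1 ∈ S} ×ˢ {x : Pt | x.1 ∈ S}) ×ˢ Set.univ) ∪
      (fun t : Co × Pt => Atom.ent t.1 t.2) '' (Set.univ ×ˢ {x : Pt | x.1 ∈ S}) := by
    intro a ha
    cases a with
    | col x y b =>
      refine Or.inl ⟨((x, y), b), ⟨⟨?_, ?_⟩, trivial⟩, rfl⟩
      · exact ha (by simp [ment])
      · exact ha (by simp [ment])
    | ent c x =>
      refine Or.inr ⟨(c, x), ⟨trivial, ?_⟩, rfl⟩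
      exact ha (by simp [ment])
  exact (((((h1.prod h1).prod Set.countable_univ)).image _).union
    ((Set.countable_univ.prod h1).image _)).mono h2

/-! ### Codes -/

open Classical in
/-- The condition that says that `s` is free. -/
noncomputable def cf (s : Finset Pt) : P :=
  ⟨s.offDiag.image fun t => .col t.1 t.2 false, by
    constructor
    · intro x y b b' h1 h2
      obtain ⟨t, -, h3⟩ := Finset.mem_image.1 h1
      obtain ⟨u, -, h4⟩ := Finset.mem_image.1 h2
      rw [← (Atom.col.inj h3).2.2, ← (Atom.col.inj h4).2.2]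
    · intro c x h1
      obtain ⟨t, -, h3⟩ := Finset.mem_image.1 h1
      cases h3
    · intro c x y _ h1
      obtain ⟨t, -, h3⟩ := Finset.mem_image.1 h1
      cases h3
    · intro c x y _ h1
      obtain ⟨t, -, h3⟩ := Finset.mem_image.1 h1
      cases h3⟩

open Classical in
theorem mem_cf {s : Finset Pt} {a : Atom} :
    a ∈ (cf s).1 ↔ ∃ x ∈ s, ∃ y ∈ s, x ≠ y ∧ a = .col x y false := by
  unfold cf
  rw [Finset.mem_image]
  constructor
  · rintro ⟨t, ht, rfl⟩
    obtain ⟨h1, h2, h3⟩ := Finset.mem_offDiag.1 ht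
    exact ⟨t.1, h1, t.2, h2, h3, rfl⟩
  · rintro ⟨x, hx, y, hy, hxy, rfl⟩
    exact ⟨(x, y), Finset.mem_offDiag.2 ⟨hx, hy, hxy⟩, rfl⟩

theorem le_cf {p : P} {s : Finset Pt} :
    p ≤ cf s ↔ ∀ x ∈ s, ∀ y ∈ s, x ≠ y → Atom.col x y false ∈ p.1 := by
  constructor
  · intro h x hx y hy hxy
    exact h (mem_cf.2 ⟨x, hx, y, hy, hxy, rfl⟩)
  · intro h a ha
    obtain ⟨x, hx, y, hy, hxy, rfl⟩ := mem_cf.1 ha
    exact h x hx y hy hxy

theorem res_le_cf {p : P} {s : Finset Pt} {e : Finset Co} (h : p ≤ cf s) : res e p ≤ cf s := by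
  rw [le_cf] at h ⊢
  exact fun x hx y hy hxy => mem_res.2 ⟨h x hx y hy hxy, trivial⟩

open Classical in
/-- The entries of a column. -/
noncomputable def ents (c : Co) (p : P) : Finset Pt :=
  p.1.biUnion fun a => match a with
    | .col _ _ _ => ∅
    | .ent c' x => if c' = c then {x} else ∅

theorem mem_ents {c : Co} {p : P} {x : Pt} : x ∈ ents c p ↔ Atom.ent c x ∈ p.1 := by
  unfold ents
  rw [Finset.mem_biUnion]
  constructor
  · rintro ⟨a, ha, hx⟩
    cases a with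
    | col y z b => exact absurd hx (Finset.notMem_empty _)
    | ent c' y =>
      simp only at hx
      by_cases h : c' = c
      · rw [if_pos h, Finset.mem_singleton] at hx
        subst hx
        subst h
        exact ha
      · rw [if_neg h] at hx
        exact absurd hx (Finset.notMem_empty _)
  · intro h
    exact ⟨_, h, by simp⟩

open Classical in
/-- Two conditions among many with free extensions. -/
theorem pair_free {e : Finset Co} {m : ℕ} (he : ∀ c ∈ e, c.1.2 ≤ m) {I : Type}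
    (hI : Cardinal.aleph ((m + 1 : ℕ) : Ordinal.{0}) ≤ Cardinal.mk I) (p : I → P)
    (hp : ∀ i, Sp e (p i)) (s : I → Finset Pt) (hs : ∀ i, p i ≤ cf (s i)) (k : I → ℕ) :
    ∃ i j, i ≠ j ∧ k i = k j ∧ ∃ r, r ≤ p i ∧ r ≤ p j ∧ r ≤ cf (s i ∪ s j) := by
  have hω : Cardinal.aleph0 < Cardinal.aleph ((m + 1 : ℕ) : Ordinal.{0}) := by
    rw [← Cardinal.aleph_zero]
    exact Cardinal.aleph_lt_aleph.2 (by exact_mod_cast Nat.succ_pos m)
  obtain ⟨i, j, hij, hg, hd⟩ := delta (α := Atom ⊕ Pt) (reg m) hω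
    (Sum.elim ment fun x => {x.1}) (by
      intro S
      have h1 : {a : Atom ⊕ Pt | Sum.elim ment (fun x => {x.1}) a ⊆ S} ⊆
          Sum.inl '' {a | ment a ⊆ S} ∪ Sum.inr '' {x : Pt | x.1 ∈ S} := by
        rintro (a | x) ha
        · exact Or.inl ⟨a, ha, rfl⟩
        · exact Or.inr ⟨x, by simpa using ha, rfl⟩
      exact (((cnt_ment S).image _).union ((cnt_pts S).image _)).mono h1)
    (fun i => (p i).1.image Sum.inl ∪ (s i).image Sum.inr)
    (fun i => ((p i).1.subtype (Good e m), k i)) hI (mk_lt e m)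
  rw [Prod.mk.injEq] at hg
  obtain ⟨hg1, hg2⟩ := hg
  set F : I → Finset W := fun i => ((p i).1.image Sum.inl ∪ (s i).image Sum.inr).biUnion
    (Sum.elim ment fun x => {x.1}) with hF
  have hF1 : ∀ i, (p i).rows ⊆ F i := by
    intro i w hw
    obtain ⟨a, ha, hw'⟩ := P.mem_rows.1 hw
    refine Finset.mem_biUnion.2 ⟨Sum.inl a, ?_, hw'⟩
    exact Finset.mem_union_left _ (Finset.mem_image_of_mem _ ha)
  have hF2 : ∀ i, ∀ x ∈ s i, x.1 ∈ F i := by
    intro i x hx
    refine Finset.mem_biUnion.2 ⟨Sum.inr x, ?_, by simp⟩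
    exact Finset.mem_union_right _ (Finset.mem_image_of_mem _ hx)
  have hdA : ∀ a, ment a ⊆ F i ∩ F j → (a ∈ (p i).1 ↔ a ∈ (p j).1) := by
    intro a ha
    have h1 := hd (Sum.inl a) ha
    simpa using h1
  have hdP : ∀ x : Pt, x.1 ∈ F i ∩ F j → (x ∈ s i ↔ x ∈ s j) := by
    intro x hx
    have h1 := hd (Sum.inr x) (by
      intro w hw
      simp only [Sum.elim_inr, Finset.mem_singleton] at hw
      subst hw
      exact hx)
    simpa using h1
  have hent : ∀ (c : Co) (x : Pt), Atom.ent c x ∈ (p i).1 ↔ Atom.ent c x ∈ (p j).1 := by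
    have key : ∀ i' (c : Co) (x : Pt), Atom.ent c x ∈ (p i').1 → Good e m (.ent c x) := by
      intro i' c x h
      have h1 : c ∈ e := hp i' _ h
      exact ⟨h1, Al_mono (he c h1) ((p i').2.ty c x h)⟩
    intro c x
    constructor
    · intro h
      have h1 := key i c x h
      have h2 : (⟨Atom.ent c x, h1⟩ : {a // Good e m a}) ∈ (p i).1.subtype (Good e m) :=
        Finset.mem_subtype.2 h
      rw [hg1] at h2
      exact Finset.mem_subtype.1 h2
    · intro h
      have h1 := key j c x h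
      have h2 : (⟨Atom.ent c x, h1⟩ : {a // Good e m a}) ∈ (p j).1.subtype (Good e m) :=
        Finset.mem_subtype.2 h
      rw [← hg1] at h2
      exact Finset.mem_subtype.1 h2
  obtain ⟨r, h1, h2, h3⟩ := exists_amalg (p := p i) (q := p j) false
    ((s i).filter fun x => x.1 ∉ F j) ((s j).filter fun y => y.1 ∉ F i)
    (fun a ha => hdA a (ha.trans (Finset.inter_subset_inter (hF1 i) (hF1 j))))
    (fun x hx => fun h => (Finset.mem_filter.1 hx).2 (hF1 j h))
    (fun x hx => fun h => (Finset.mem_filter.1 hx).2 (hF1 i h))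
    (fun c => Or.inl fun x => hent c x)
  refine ⟨i, j, hij, hg2, r, h1, h2, le_cf.2 ?_⟩
  have hi := le_cf.1 (h1.trans (hs i))
  have hj := le_cf.1 (h2.trans (hs j))
  have key : ∀ x ∈ s i, ∀ y ∈ s j, x ≠ y →
      Atom.col x y false ∈ r.1 ∧ Atom.col y x false ∈ r.1 := by
    intro x hx y hy hxy
    by_cases hx' : x ∈ s j
    · exact ⟨hj x hx' y hy hxy, hj y hy x hx' hxy.symm⟩
    by_cases hy' : y ∈ s i
    · exact ⟨hi x hx y hy' hxy, hi y hy' x hx hxy.symm⟩
    refine h3 x (Finset.mem_filter.2 ⟨hx, fun h => ?_⟩) y (Finset.mem_filter.2 ⟨hy, fun h => ?_⟩)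
    · exact hx' ((hdP x (Finset.mem_inter.2 ⟨hF2 i x hx, h⟩)).1 hx)
    · exact hy' ((hdP y (Finset.mem_inter.2 ⟨h, hF2 j y hy⟩)).2 hy)
  intro x hx y hy hxy
  rcases Finset.mem_union.1 hx with hx | hx <;> rcases Finset.mem_union.1 hy with hy | hy
  · exact hi x hx y hy hxy
  · exact (key x hx y hy hxy).1
  · exact (key y hy x hx hxy.symm).2
  · exact hj x hx y hy hxy

open Classical in
/-- Two compatible conditions among many, with one large column. -/
theorem pair_col {e : Finset Co} {m : ℕ} (he : ∀ c ∈ e, c.1.2 ≤ m) {c0 : Co}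
    (h0 : c0.1.1 = true) {I : Type}
    (hI : Cardinal.aleph ((m + 1 : ℕ) : Ordinal.{0}) ≤ Cardinal.mk I) (p : I → P)
    (hp : ∀ i, Sp (insert c0 e) (p i)) (k : I → ℕ) :
    ∃ i j, i ≠ j ∧ k i = k j ∧ ∃ r, r ≤ p i ∧ r ≤ p j := by
  have hω : Cardinal.aleph0 < Cardinal.aleph ((m + 1 : ℕ) : Ordinal.{0}) := by
    rw [← Cardinal.aleph_zero]
    exact Cardinal.aleph_lt_aleph.2 (by exact_mod_cast Nat.succ_pos m)
  obtain ⟨i, j, hij, hg, hd⟩ := delta (α := Atom) (reg m) hω ment cnt_ment (fun i => (p i).1)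
    (fun i => ((p i).1.subtype (Good e m), k i)) hI (mk_lt e m)
  rw [Prod.mk.injEq] at hg
  obtain ⟨hg1, hg2⟩ := hg
  have hent : ∀ (c : Co) (x : Pt), c ∈ e → (Atom.ent c x ∈ (p i).1 ↔ Atom.ent c x ∈ (p j).1) := by
    intro c x hc
    constructor
    · intro h
      have h1 : Good e m (.ent c x) := ⟨hc, Al_mono (he c hc) ((p i).2.ty c x h)⟩
      have h2 : (⟨Atom.ent c x, h1⟩ : {a // Good e m a}) ∈ (p i).1.subtype (Good e m) :=
        Finset.mem_subtype.2 h
      rw [hg1] at h2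
      exact Finset.mem_subtype.1 h2
    · intro h
      have h1 : Good e m (.ent c x) := ⟨hc, Al_mono (he c hc) ((p j).2.ty c x h)⟩
      have h2 : (⟨Atom.ent c x, h1⟩ : {a // Good e m a}) ∈ (p j).1.subtype (Good e m) :=
        Finset.mem_subtype.2 h
      rw [← hg1] at h2
      exact Finset.mem_subtype.1 h2
  obtain ⟨r, h1, h2, h3⟩ := exists_amalg (p := p i) (q := p j) true
    ((ents c0 (p i)).filter fun x => x.1 ∉ (p j).rows)
    ((ents c0 (p j)).filter fun y => y.1 ∉ (p i).rows) hd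
    (fun x hx => (Finset.mem_filter.1 hx).2) (fun x hx => (Finset.mem_filter.1 hx).2) (by
      intro c
      by_cases hc : c ∈ e
      · exact Or.inl fun x => hent c x hc
      by_cases hc0 : c = c0
      · subst hc0
        exact Or.inr ⟨h0, rfl, fun x hx hx' => Finset.mem_filter.2 ⟨mem_ents.2 hx, hx'⟩,
          fun x hx hx' => Finset.mem_filter.2 ⟨mem_ents.2 hx, hx'⟩⟩
      · refine Or.inl fun x => ⟨fun h => ?_, fun h => ?_⟩
        · have h4 : c ∈ insert c0 e := hp i _ h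
          exact ((Finset.mem_insert.1 h4).elim hc0 hc).elim
        · have h4 : c ∈ insert c0 e := hp j _ h
          exact ((Finset.mem_insert.1 h4).elim hc0 hc).elim)
  exact ⟨i, j, hij, hg2, r, h1, h2⟩

/-! ### New entries -/

/-- The height of an atom. -/
def hgt : Atom → ℕ
  | .col x y _ => max x.2 y.2
  | .ent _ x => x.2

open Classical in
theorem exists_ent (c : Co) {i : W} (hi : el i ∈ Al c.1.2) (q : P) :
    ∃ r ≤ q, ∃ k, Atom.ent c (i, k) ∈ r.1 := by
  obtain ⟨N, hN⟩ : ∃ N : ℕ, ∀ a ∈ q.1, hgt a < N :=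
    ⟨q.1.sup hgt + 1, fun a ha => Nat.lt_succ_of_le (Finset.le_sup (f := hgt) ha)⟩
  set Y := (ents c q).filter fun y => y.1 ≠ i with hY
  have hq1 : ∀ (y : Pt) b, Atom.col (i, N) y b ∉ q.1 := fun y b h =>
    absurd (hN _ h) (not_lt.2 (le_max_left _ _))
  have hq2 : ∀ (y : Pt) b, Atom.col y (i, N) b ∉ q.1 := fun y b h =>
    absurd (hN _ h) (not_lt.2 (le_max_right _ _))
  have hm : ∀ a, a ∈ insert (Atom.ent c (i, N)) (q.1 ∪ cross true {(i, N)} Y) ↔
      a = .ent c (i, N) ∨ a ∈ q.1 ∨ a ∈ cross true {(i, N)} Y := by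
    intro a
    rw [Finset.mem_insert, Finset.mem_union]
  have hcr : ∀ a, a ∈ cross true {(i, N)} Y ↔ ∃ y ∈ Y, a = .col (i, N) y true ∨
      a = .col y (i, N) true := by
    intro a
    rw [mem_cross]
    simp
  have hme : ∀ c' x, Atom.ent c' x ∈ insert (Atom.ent c (i, N)) (q.1 ∪ cross true {(i, N)} Y) ↔
      (c' = c ∧ x = (i, N)) ∨ Atom.ent c' x ∈ q.1 := by
    intro c' x
    rw [hm, hcr]
    constructor
    · rintro (h | h | ⟨y, -, h | h⟩)
      · exact Or.inl ⟨(Atom.ent.inj h).1, (Atom.ent.inj h).2⟩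
      · exact Or.inr h
      · cases h
      · cases h
    · rintro (⟨rfl, rfl⟩ | h)
      · exact Or.inl rfl
      · exact Or.inr (Or.inl h)
  have hmc : ∀ x y b, Atom.col x y b ∈ insert (Atom.ent c (i, N)) (q.1 ∪ cross true {(i, N)} Y) ↔
      Atom.col x y b ∈ q.1 ∨ (b = true ∧ ((x = (i, N) ∧ y ∈ Y) ∨ (y = (i, N) ∧ x ∈ Y))) := by
    intro x y b
    rw [hm, hcr]
    constructor
    · rintro (h | h | ⟨z, hz, h | h⟩)
      · cases h
      · exact Or.inl h
      · obtain ⟨rfl, rfl, rfl⟩ := Atom.col.inj h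
        exact Or.inr ⟨rfl, Or.inl ⟨rfl, hz⟩⟩
      · obtain ⟨rfl, rfl, rfl⟩ := Atom.col.inj h
        exact Or.inr ⟨rfl, Or.inr ⟨rfl, hz⟩⟩
    · rintro (h | ⟨rfl, ⟨rfl, h⟩ | ⟨rfl, h⟩⟩)
      · exact Or.inr (Or.inl h)
      · exact Or.inr (Or.inr ⟨_, h, Or.inl rfl⟩)
      · exact Or.inr (Or.inr ⟨_, h, Or.inr rfl⟩)
  refine ⟨⟨insert (Atom.ent c (i, N)) (q.1 ∪ cross true {(i, N)} Y), ⟨?_, ?_, ?_, ?_⟩⟩, ?_, N,
    Finset.mem_insert_self _ _⟩
  · intro x y b b' h1 h2
    rw [hmc] at h1 h2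
    rcases h1 with h1 | ⟨rfl, h1⟩ <;> rcases h2 with h2 | ⟨rfl, h2⟩
    · exact q.2.fn _ _ _ _ h1 h2
    · rcases h2 with ⟨rfl, -⟩ | ⟨rfl, -⟩
      · exact absurd h1 (hq1 _ _)
      · exact absurd h1 (hq2 _ _)
    · rcases h1 with ⟨rfl, -⟩ | ⟨rfl, -⟩
      · exact absurd h2 (hq1 _ _)
      · exact absurd h2 (hq2 _ _)
    · rfl
  · intro c' x h1
    rcases (hme _ _).1 h1 with ⟨rfl, rfl⟩ | h1
    · exact hi
    · exact q.2.ty _ _ h1
  · intro c' x y hk h1 h2 hxy
    rw [hme] at h1 h2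
    rw [hmc]
    rcases h1 with ⟨rfl, rfl⟩ | h1 <;> rcases h2 with ⟨h3, rfl⟩ | h2
    · exact absurd rfl hxy
    · exact Or.inr ⟨rfl, Or.inl ⟨rfl, Finset.mem_filter.2 ⟨mem_ents.2 h2, hxy.symm⟩⟩⟩
    · subst h3
      exact Or.inr ⟨rfl, Or.inr ⟨rfl, Finset.mem_filter.2 ⟨mem_ents.2 h1, hxy⟩⟩⟩
    · exact Or.inl (q.2.ho _ _ _ hk h1 h2 hxy)
  · intro c' x y hk h1 h2 hxy
    rw [hme] at h1 h2
    rcases h1 with ⟨rfl, rfl⟩ | h1 <;> rcases h2 with ⟨h3, rfl⟩ | h2
    · rfl
    · have h4 := hN _ h2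
      simp only [hgt] at h4
      simp only at hxy
      omega
    · have h4 := hN _ h1
      simp only [hgt] at h4
      simp only at hxy
      omega
    · exact q.2.cl _ _ _ hk h1 h2 hxy
  · intro a ha
    exact (hm _).2 (Or.inr (Or.inl ha))

end Pool.Agent.Q212.NU
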