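import Pool.Agent.Q212.NU2

/-!
# The names
-/

set_option autoImplicit false
set_option linter.unusedSectionVars false
set_option linter.unreachableTactic false
set_option linter.unusedTactic false

namespace Pool.Agent.Q212.NU

open Pool.Agent.W868 Pool.Agent.W868.PName Pool.Agent.Q211.SY
open Pool.Agent.Q211.FS (Al AlF mem_AlF card_Al Hs im mem_Hs')
open ZFSet (pair)

/-! ### General facts -/

theorem fx_mk {ι : Type} {f : ι → PName P} {c : ι → P} {e : Finset Co}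
    (hf : ∀ σ ∈ Hs K e, ∀ i, act (SN.ac σ) (f i) = f i) (hc : ∀ σ ∈ Hs K e, ∀ i, sm σ (c i) = c i) :
    Fx e (PName.mk ι f c) := by
  intro (σ : K → Equiv.Perm ℕ) hσ p
  have h4 : act (SN.ac σ) (PName.mk ι f c) = PName.mk ι f c := by
    rw [act]
    congr 1
    · funext t
      exact hf σ hσ t
    · funext t
      exact hc σ hσ t
  rw [h4]
  exact Feq.refl _ _

theorem hs_mk {ι : Type} {f : ι → PName P} {c : ι → P} {e : Finset Co}
    (h : Fx e (PName.mk ι f c)) (hf : ∀ i, SN.HS (f i)) : SN.HS (PName.mk ι f c) := by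
  refine SN.hs_iff.2 ⟨sym_iff.2 ⟨_, h⟩, fun z d hz => ?_⟩
  obtain ⟨i, rfl, rfl⟩ := el_mk.1 hz
  exact hf i

theorem mem_mk (π : Pkg P) {ι : Type} {f : ι → PName P} {c : ι → P} {z : ZFSet.{0}} :
    z ∈ π.val (PName.mk ι f c) ↔ ∃ i, f i ∈ π.N ∧ z = π.val (f i) ∧ ∃ k, π.g k ≤ c i := by
  rw [π.mem_val]
  constructor
  · rintro ⟨w, hw, d, hd, hm, rfl⟩
    obtain ⟨i, rfl, rfl⟩ := el_mk.1 hd
    exact ⟨i, hw, rfl, hm⟩
  · rintro ⟨i, hi, rfl, hm⟩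
    exact ⟨_, hi, _, el_mk.2 ⟨i, rfl, rfl⟩, hm, rfl⟩

theorem act_ck (σ : K → Equiv.Perm ℕ) (x : ZFSet.{0}) :
    act (SN.ac σ) (check x : PName P) = check x := act_check (SN.top σ) x

theorem act_opck (σ : K → Equiv.Perm ℕ) (x y : ZFSet.{0}) :
    act (SN.ac σ) (opN (check x) (check y) : PName P) = opN (check x) (check y) := by
  rw [act_opN (SN.top σ), act_ck, act_ck]

/-- Forcing from the packages that contain additional names. -/
theorem frc_of {n : ℕ} {R : Set ZFSet.{0} → (Fin n → ZFSet.{0}) → Prop} {h : UD R}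
    {x : Fin n → PName P} (hx : ∀ i, SN.HS (x i)) {p : P} (B : Set (PName P)) (hB : B.Countable)
    (hf : ∀ π : Pkg P, SN.Cld π → (∀ i, x i ∈ π.N) → B ⊆ π.N → (∃ m, π.g m ≤ p) →
      R (SN.Ms π) (π.val ∘ x)) : SN.Frc h x p := by
  refine Sys.frc_dense fun q hq => ?_
  obtain ⟨π, h1, h2, h3, -⟩ := Sys.exists_cld SN (Set.range x ∪ B)
    ((Set.countable_range x).union hB) ∅ Set.countable_empty q
  have h4 : ∀ i, x i ∈ π.N := fun i => h1 (Or.inl ⟨i, rfl⟩)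
  obtain ⟨k, hk⟩ := (Sys.frc_iff h h3 fun i => ⟨h4 i, hx i⟩).1
    (hf π h3 h4 (fun y hy => h1 (Or.inr hy)) ⟨0, h2.le.trans hq⟩)
  exact ⟨π.g k, (Sys.g_le π (Nat.zero_le k)).trans h2.le, hk⟩

/-! ### Codes -/

/-- The code of a finite set of points. -/
noncomputable def cd (s : Finset Pt) : ZFSet.{0} :=
  (Ordinal.typein (α := Finset Pt) WellOrderingRel s).toZFSet

theorem cd_injective : Function.Injective cd := by
  intro s t h
  exact Ordinal.typein_injective WellOrderingRel (Ordinal.toZFSet_injective h)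

theorem cd_ord (s : Finset Pt) : (cd s).IsOrdinal := ZFSet.isOrdinal_toZFSet _

/-- The condition with one entry. -/
def ce (c : Co) (x : Pt) (h : el x.1 ∈ Al c.1.2) : P :=
  ⟨{.ent c x}, by
    constructor
    · intro x y b b' h1
      cases Finset.mem_singleton.1 h1
    · intro c' y h1
      obtain ⟨rfl, rfl⟩ := Atom.ent.inj (Finset.mem_singleton.1 h1)
      exact h
    · intro c' y z _ h1 h2 h3
      obtain ⟨rfl, rfl⟩ := Atom.ent.inj (Finset.mem_singleton.1 h1)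
      obtain ⟨-, rfl⟩ := Atom.ent.inj (Finset.mem_singleton.1 h2)
      exact absurd rfl h3
    · intro c' y z _ h1 h2 _
      obtain ⟨rfl, rfl⟩ := Atom.ent.inj (Finset.mem_singleton.1 h1)
      obtain ⟨-, rfl⟩ := Atom.ent.inj (Finset.mem_singleton.1 h2)
      rfl⟩

theorem le_ce {c : Co} {x : Pt} {h : el x.1 ∈ Al c.1.2} {p : P} :
    p ≤ ce c x h ↔ Atom.ent c x ∈ p.1 := by
  rw [P.le_def, ce, Finset.singleton_subset_iff]

theorem sm_cf (σ : K → Equiv.Perm ℕ) (s : Finset Pt) : sm σ (cf s) = cf s := by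
  refine P.ext' fun a => ?_
  rw [mem_sm, mem_cf, mem_cf]
  cases a with
  | col x y b => exact Iff.rfl
  | ent c x =>
    constructor
    · rintro ⟨x, hx, y, hy, hxy, h⟩
      cases h
    · rintro ⟨x, hx, y, hy, hxy, h⟩
      cases h

theorem sm_ce {σ : K → Equiv.Perm ℕ} {c : Co} (hσ : im σ c = c) {x : Pt}
    {h : el x.1 ∈ Al c.1.2} : sm σ (ce c x h) = ce c x h := by
  refine P.ext' fun a => ?_
  rw [mem_sm, ce, Finset.mem_singleton, Finset.mem_singleton]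
  constructor
  · intro h1
    have h2 := congrArg (mv σ) h1
    rw [mv_inv] at h2
    rw [h2]
    change Atom.ent (im σ c) x = _
    rw [hσ]
  · rintro rfl
    have h2 : mv σ⁻¹ (mv σ (.ent c x)) = .ent c x := inv_mv σ _
    change mv σ⁻¹ (.ent (im σ c) x) = .ent c x at h2
    rwa [hσ] at h2

/-! ### The names -/

/-- The name of the set of conditions. -/
noncomputable def AN : PName P := PName.mk (Finset Pt) (fun s => check (cd s)) cf

/-- The name of the order. -/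
noncomputable def RN : PName P :=
  PName.mk {t : Finset Pt × Finset Pt // t.2 ⊆ t.1}
    (fun t => opN (check (cd t.1.1)) (check (cd t.1.2))) (fun t => cf t.1.1)

/-- The name of the large antichain. -/
noncomputable def FN (n : ℕ) : PName P :=
  PName.mk {x : Pt // el x.1 ∈ Al n} (fun x => opN (check (cd {x.1})) (check (el x.1.1)))
    (fun x => ce ((true, n), 0) x.1 x.2)

/-- The name of the generic surjection. -/
noncomputable def GN (n : ℕ) : PName P :=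
  PName.mk {x : Pt // el x.1 ∈ Al n} (fun x => opN (check (nat x.1.2)) (check (el x.1.1)))
    (fun x => ce ((false, n), 0) x.1 x.2)

theorem fx_AN : Fx ∅ AN := fx_mk (fun σ _ _ => act_ck σ _) fun σ _ _ => sm_cf σ _

theorem fx_RN : Fx ∅ RN := fx_mk (fun σ _ _ => act_opck σ _ _) fun σ _ _ => sm_cf σ _

theorem fx_FN (n : ℕ) : Fx {((true, n), 0)} (FN n) :=
  fx_mk (fun σ _ _ => act_opck σ _ _) fun _ hσ _ =>
    sm_ce (mem_Hs'.1 hσ _ (Finset.mem_singleton_self _))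

theorem fx_GN (n : ℕ) : Fx {((false, n), 0)} (GN n) :=
  fx_mk (fun σ _ _ => act_opck σ _ _) fun _ hσ _ =>
    sm_ce (mem_Hs'.1 hσ _ (Finset.mem_singleton_self _))

theorem hs_AN : SN.HS AN := hs_mk fx_AN fun _ => SN.hs_check _

theorem hs_RN : SN.HS RN := hs_mk fx_RN fun _ => SN.hs_opN (SN.hs_check _) (SN.hs_check _)

theorem hs_FN (n : ℕ) : SN.HS (FN n) :=
  hs_mk (fx_FN n) fun _ => SN.hs_opN (SN.hs_check _) (SN.hs_check _)

theorem hs_GN (n : ℕ) : SN.HS (GN n) :=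
  hs_mk (fx_GN n) fun _ => SN.hs_opN (SN.hs_check _) (SN.hs_check _)

section vals

variable (π : Pkg P)

theorem opck_mem {x y : ZFSet.{0}} : (opN (check x) (check y) : PName P) ∈ π.N ↔
    x ∈ π.Z ∧ y ∈ π.Z := ⟨fun h => ⟨π.fst_mem h, π.snd_mem h⟩, fun h => π.opN_mem h.1 h.2⟩

theorem val_opck {x y : ZFSet.{0}} (hx : x ∈ π.Z) (hy : y ∈ π.Z) :
    π.val (opN (check x) (check y)) = pair (π.hat x) (π.hat y) := π.val_opN hx hy

theorem mem_AN {z : ZFSet.{0}} : z ∈ π.val AN ↔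
    ∃ s, cd s ∈ π.Z ∧ z = π.hat (cd s) ∧ ∃ k, π.g k ≤ cf s := mem_mk π

theorem mem_RN {z : ZFSet.{0}} : z ∈ π.val RN ↔ ∃ s t, t ⊆ s ∧ cd s ∈ π.Z ∧ cd t ∈ π.Z ∧
    z = pair (π.hat (cd s)) (π.hat (cd t)) ∧ ∃ k, π.g k ≤ cf s := by
  unfold RN
  rw [mem_mk]
  constructor
  · rintro ⟨⟨⟨s, t⟩, hts⟩, h1, h2, h3⟩
    obtain ⟨h4, h5⟩ := (opck_mem π).1 h1
    rw [val_opck π h4 h5] at h2
    exact ⟨s, t, hts, h4, h5, h2, h3⟩
  · rintro ⟨s, t, hts, h4, h5, h2, h3⟩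
    refine ⟨⟨(s, t), hts⟩, (opck_mem π).2 ⟨h4, h5⟩, ?_, h3⟩
    rw [val_opck π h4 h5]
    exact h2

theorem mem_FN {n : ℕ} {z : ZFSet.{0}} : z ∈ π.val (FN n) ↔ ∃ x : Pt, cd {x} ∈ π.Z ∧
    el x.1 ∈ π.Z ∧ el x.1 ∈ Al n ∧ z = pair (π.hat (cd {x})) (π.hat (el x.1)) ∧
      ∃ k, Atom.ent ((true, n), 0) x ∈ (π.g k).1 := by
  unfold FN
  rw [mem_mk]
  constructor
  · rintro ⟨⟨x, hx⟩, h1, h2, k, h3⟩
    obtain ⟨h4, h5⟩ := (opck_mem π).1 h1
    rw [val_opck π h4 h5] at h2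
    exact ⟨x, h4, h5, hx, h2, k, le_ce.1 h3⟩
  · rintro ⟨x, h4, h5, hx, h2, k, h3⟩
    refine ⟨⟨x, hx⟩, (opck_mem π).2 ⟨h4, h5⟩, ?_, k, le_ce.2 h3⟩
    rw [val_opck π h4 h5]
    exact h2

theorem mem_GN {n : ℕ} {z : ZFSet.{0}} : z ∈ π.val (GN n) ↔ ∃ x : Pt,
    el x.1 ∈ π.Z ∧ el x.1 ∈ Al n ∧ z = pair (nat x.2) (π.hat (el x.1)) ∧
      ∃ k, Atom.ent ((false, n), 0) x ∈ (π.g k).1 := by
  unfold GN
  rw [mem_mk]
  constructor
  · rintro ⟨⟨x, hx⟩, h1, h2, k, h3⟩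
    obtain ⟨h4, h5⟩ := (opck_mem π).1 h1
    rw [val_opck π h4 h5, π.hat_nat] at h2
    exact ⟨x, h5, hx, h2, k, le_ce.1 h3⟩
  · rintro ⟨x, h5, hx, h2, k, h3⟩
    refine ⟨⟨x, hx⟩, (opck_mem π).2 ⟨π.nat_Z _, h5⟩, ?_, k, le_ce.2 h3⟩
    rw [val_opck π (π.nat_Z _) h5, π.hat_nat]
    exact h2

end vals

theorem ud_dom : UD fun _ (v : Fin 2 → ZFSet.{0}) => ∃ p ∈ ZFSet.sUnion (ZFSet.sUnion (v 0)),
    pair p (v 1) ∈ v 0 := by
  refine UD.bex (F := fun _ v => ZFSet.sUnion (ZFSet.sUnion (v 0))) ?_ ?_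
  · exact UF.sUnion (UF.sUnion (UF.proj 0))
  · exact UD.mem (UF.pair (UF.proj 0) (UF.proj 2)) (UF.proj 1)

theorem mem_sU {p a f : ZFSet.{0}} (h : pair p a ∈ f) : p ∈ ZFSet.sUnion (ZFSet.sUnion f) := by
  refine ZFSet.mem_sUnion.2 ⟨{p}, ZFSet.mem_sUnion.2 ⟨_, h, ?_⟩, ZFSet.mem_singleton.2 rfl⟩
  rw [ZFSet.pair]
  exact ZFSet.mem_pair.2 (Or.inl rfl)

/-- The large antichain is indexed by `Al n`. -/
theorem FN_onto {π : Pkg P} (hcl : SN.Cld π) {n : ℕ} (hF : FN n ∈ π.N) {a : ZFSet.{0}}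
    (ha : a ∈ Al n) (haZ : a ∈ π.Z) : ∃ p, pair p (π.hat a) ∈ π.val (FN n) := by
  obtain ⟨i, rfl⟩ := exists_el (Al_sub_Lam n ha)
  have hS : ∀ j, SN.HS (![FN n, check (el i)] j) := by
    intro j
    fin_cases j
    exacts [hs_FN n, SN.hs_check _]
  have hf : SN.Frc ud_dom ![FN n, check (el i)] (π.g 0) := by
    refine Sys.frc_dense fun q _ => ?_
    obtain ⟨r, hr, k, hk⟩ := exists_ent ((true, n), 0) ha q
    refine ⟨r, hr, frc_of hS {check (cd {(i, k)})} (Set.countable_singleton _) ?_⟩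
    rintro π' hcl' hN hB ⟨m, hm⟩
    have h1 : pair (π'.hat (cd {(i, k)})) (π'.hat (el i)) ∈ π'.val (FN n) :=
      (mem_FN π').2 ⟨(i, k), hB rfl, hN 1, ha, rfl, m, hm hk⟩
    exact ⟨_, mem_sU h1, h1⟩
  obtain ⟨p, -, hp⟩ := (Sys.frc_sem hS).1 hf π hcl (by
    intro j
    fin_cases j
    exacts [hF, haZ]) ⟨0, le_rfl⟩
  exact ⟨p, hp⟩

/-- The generic function is onto. -/
theorem GN_onto {π : Pkg P} (hcl : SN.Cld π) {n : ℕ} (hG : GN n ∈ π.N) {a : ZFSet.{0}}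
    (ha : a ∈ Al n) (haZ : a ∈ π.Z) : ∃ m, pair (nat m) (π.hat a) ∈ π.val (GN n) := by
  obtain ⟨i, rfl⟩ := exists_el (Al_sub_Lam n ha)
  have hS : ∀ j, SN.HS (![GN n, check (el i)] j) := by
    intro j
    fin_cases j
    exacts [hs_GN n, SN.hs_check _]
  have hf : SN.Frc ud_dom ![GN n, check (el i)] (π.g 0) := by
    refine Sys.frc_dense fun q _ => ?_
    obtain ⟨r, hr, k, hk⟩ := exists_ent ((false, n), 0) ha q
    refine ⟨r, hr, frc_of hS ∅ Set.countable_empty ?_⟩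
    rintro π' hcl' hN hB ⟨m, hm⟩
    have h1 : pair (nat k) (π'.hat (el i)) ∈ π'.val (GN n) :=
      (mem_GN π').2 ⟨(i, k), hN 1, ha, rfl, m, hm hk⟩
    exact ⟨_, mem_sU h1, h1⟩
  obtain ⟨p, -, hp⟩ := (Sys.frc_sem hS).1 hf π hcl (by
    intro j
    fin_cases j
    exacts [hG, haZ]) ⟨0, le_rfl⟩
  obtain ⟨x, -, -, h1, -⟩ := (mem_GN π).1 hp
  obtain ⟨rfl, -⟩ := ZFSet.pair_inj.1 h1
  exact ⟨_, hp⟩

theorem GN_func (π : Pkg P) {n : ℕ} {m a b : ZFSet.{0}}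
    (h1 : pair m a ∈ π.val (GN n)) (h2 : pair m b ∈ π.val (GN n)) : a = b := by
  obtain ⟨x, -, -, h3, j, h4⟩ := (mem_GN π).1 h1
  obtain ⟨y, -, -, h5, k, h6⟩ := (mem_GN π).1 h2
  obtain ⟨rfl, rfl⟩ := ZFSet.pair_inj.1 h3
  obtain ⟨h7, rfl⟩ := ZFSet.pair_inj.1 h5
  have h8 := nat_injective h7
  have h9 := π.g_le_left j k h4
  have h10 := π.g_le_right j k h6
  rw [(π.g (max j k)).2.cl _ _ _ rfl h9 h10 h8]

end Pool.Agent.Q212.NU
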