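import Pool.Agent.W868.Defs

/-!
# Narrow notions of forcing in transitive models of ZF: the definitions
-/

set_option autoImplicit false

namespace Pool.Agent.Q212.NU

open Pool.Agent.W868
open ZFSet (pair)

/-- `(A, R)` is a notion of forcing: `R` is a partial order of the set `A`, where
`pair p q ∈ R` means `p ≤ q`, that is, `p` is stronger than or equal to `q`. -/
structure IsForcing (A R : ZFSet.{0}) : Prop where
  sub : ∀ z ∈ R, ∃ p ∈ A, ∃ q ∈ A, z = pair p q
  refl : ∀ p ∈ A, pair p p ∈ R
  anti : ∀ p q, pair p q ∈ R → pair q p ∈ R → p = q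
  trans : ∀ p q r, pair p q ∈ R → pair q r ∈ R → pair p r ∈ R

/-- The conditions `p` and `q` are compatible in `(A, R)`. -/
def Comp (A R p q : ZFSet.{0}) : Prop := ∃ r ∈ A, pair r p ∈ R ∧ pair r q ∈ R

/-- `f` is a partial function from `A` onto `δ` that takes the same value at compatible
elements of its domain: a partial homomorphism for compatibility, with range `δ`. -/
structure IsPHom (A R f δ : ZFSet.{0}) : Prop where
  sub : ∀ z ∈ f, ∃ p ∈ A, ∃ a ∈ δ, z = pair p a
  fn : ∀ p a b, pair p a ∈ f → pair p b ∈ f → a = b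
  onto : ∀ a ∈ δ, ∃ p, pair p a ∈ f
  hom : ∀ p q a b, pair p a ∈ f → pair q b ∈ f → Comp A R p q → a = b

/-- In `M`, the notion of forcing `(A, R)` has an antichain of cardinality `κ`: there is in `M`
an injective function from `κ` to `A` whose values are pairwise incompatible. -/
def HasAntichain (M : Set ZFSet.{0}) (A R κ : ZFSet.{0}) : Prop :=
  ∃ b ∈ M, IsInj κ A b ∧
    ∀ ξ η p q, pair ξ p ∈ b → pair η q ∈ b → ξ ≠ η → ¬ Comp A R p q

/-- In `M`, the notion of forcing `(A, R)` is uniformly `ω`-narrow: there is in `M` a function `G`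
that assigns to every partial homomorphism for compatibility in `M` whose range is an ordinal an
injective function from the range to `ω`. -/
def UNarrow (M : Set ZFSet.{0}) (A R : ZFSet.{0}) : Prop :=
  ∃ G ∈ M, ∀ f ∈ M, ∀ δ ∈ M, δ.IsOrdinal → IsPHom A R f δ →
    ∃ e, pair f e ∈ G ∧ (∀ e', pair f e' ∈ G → e' = e) ∧ IsInj δ ZFSet.omega e

end Pool.Agent.Q212.NU
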