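import Pool.Agent.Q212.NU3
import Pool.Agent.Q212.NUDefs

/-!
# A well-ordered ccc notion of forcing that is not uniformly narrow
-/

set_option autoImplicit false
set_option linter.unusedSectionVars false
set_option linter.unreachableTactic false
set_option linter.unusedTactic false

namespace Pool.Agent.Q212.NU

open Pool.Agent.W868 Pool.Agent.W868.PName Pool.Agent.Q211.SY
open Pool.Agent.Q211.FS (Al AlF mem_AlF card_Al Hs im mem_Hs' ud_inj ud_pm cnt_omega)
open ZFSet (pair)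

/-- The packages that contain the relevant names. -/
structure IsMod (π : Pkg P) : Prop where
  cl : SN.Cld π
  an : AN ∈ π.N
  rn : RN ∈ π.N
  fn : ∀ n, FN n ∈ π.N
  gn : ∀ n, GN n ∈ π.N
  al : ∀ n, Al n ∈ π.Z
  lam : Lam ∈ π.Z

theorem exists_mod : ∃ π : Pkg P, IsMod π := by
  obtain ⟨π, h1, -, h3, -⟩ := Sys.exists_cld SN
    ({AN, RN, check Lam} ∪ (Set.range FN ∪ (Set.range GN ∪ Set.range fun n => check (Al n))))
    ((Set.toFinite _).countable.union ((Set.countable_range _).union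
      ((Set.countable_range _).union (Set.countable_range _)))) ∅ Set.countable_empty ⊤
  exact ⟨π, h3, h1 (Or.inl (by simp)), h1 (Or.inl (by simp)),
    fun n => h1 (Or.inr (Or.inl ⟨n, rfl⟩)), fun n => h1 (Or.inr (Or.inr (Or.inl ⟨n, rfl⟩))),
    fun n => h1 (Or.inr (Or.inr (Or.inr ⟨n, rfl⟩))), h1 (Or.inl (by simp))⟩

/-! ### The statements -/

theorem ud_anti : UD fun M (v : Fin 4 → ZFSet.{0}) => IsInj (v 2) (v 0) (v 3) ∧
    ∀ ξ ∈ M, ∀ η ∈ M, ∀ p ∈ M, ∀ q ∈ M, pair ξ p ∈ v 3 → pair η q ∈ v 3 → ξ ≠ η →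
      ¬ ∃ r ∈ v 0, pair r p ∈ v 1 ∧ pair r q ∈ v 1 := by
  refine (UD.isInj (UF.proj _) (UF.proj _) (UF.proj _)).and ?_
  (repeat' first
    | assumption
    | exact UF.proj _
    | exact UF.om
    | exact UD.prop _
    | apply UD.not | apply UD.and | apply UD.or | apply UD.imp | apply UD.iff
    | apply UD.bex | apply UD.ball | apply UD.ex | apply UD.all
    | apply UD.eq | apply UD.mem | apply UF.pair)

theorem ud_G : UD fun M (v : Fin 3 → ZFSet.{0}) => ∃ e ∈ M, pair (v 1) e ∈ v 0 ∧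
    (∀ e' ∈ M, pair (v 1) e' ∈ v 0 → e' = e) ∧ IsInj (v 2) ZFSet.omega e := by
  refine UD.ex (Q := fun M e v => pair (v 1) e ∈ v 0 ∧
    (∀ e' ∈ M, pair (v 1) e' ∈ v 0 → e' = e) ∧ IsInj (v 2) ZFSet.omega e) ?_
  refine UD.and ?_ (UD.and ?_ (UD.isInj (UF.proj 3) UF.om (UF.proj 0)))
  · exact UD.mem (UF.pair (UF.proj 2) (UF.proj 0)) (UF.proj 1)
  · refine UD.all (Q := fun M e' w => pair (w 2) e' ∈ w 1 → e' = w 0) ?_
    exact (UD.mem (UF.pair (UF.proj 3) (UF.proj 0)) (UF.proj 2)).imp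
      (UD.eq (UF.proj 0) (UF.proj 1))

theorem ud_D : UD fun M (v : Fin 4 → ZFSet.{0}) => ∃ e ∈ M, pair (v 1) e ∈ v 0 ∧
    pair (v 2) (v 3) ∈ e := by
  (repeat' first
    | assumption
    | exact UF.proj _
    | exact UF.om
    | exact UD.prop _
    | apply UD.not | apply UD.and | apply UD.or | apply UD.imp | apply UD.iff
    | apply UD.bex | apply UD.ball | apply UD.ex | apply UD.all
    | apply UD.eq | apply UD.mem | apply UF.pair)

theorem mem_of_pair {M : Set ZFSet.{0}} (hM : IsZF M) {x y z : ZFSet.{0}} (hz : z ∈ M)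
    (h : pair x y ∈ z) : x ∈ M ∧ y ∈ M := by
  have h1 := hM.trans _ hz _ h
  have h2 : ({x, y} : ZFSet.{0}) ∈ M := by
    refine hM.trans _ h1 _ ?_
    rw [ZFSet.pair]
    exact ZFSet.mem_pair.2 (Or.inr rfl)
  exact ⟨hM.trans _ h2 _ (ZFSet.mem_pair.2 (Or.inl rfl)),
    hM.trans _ h2 _ (ZFSet.mem_pair.2 (Or.inr rfl))⟩

open Classical in
theorem bound (e : Finset Co) : ∀ c ∈ e, c.1.2 ≤ e.sup fun c => c.1.2 :=
  fun _ hc => Finset.le_sup (f := fun c : Co => c.1.2) hc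

theorem le_mk (m : ℕ) : Cardinal.aleph ((m + 1 : ℕ) : Ordinal.{0}) ≤
    Cardinal.mk (Ty (Al (m + 1))) := (mk_Ty_Al (m + 1)).ge

/-! ### The union of the `Al n` is uncountable in the model -/

theorem not_cnt_lam {π : Pkg P} (hcl : SN.Cld π) (hL : Lam ∈ π.Z) :
    ¬ ∃ f ∈ SN.Ms π, IsInj (π.hat Lam) ZFSet.omega f := by
  rintro ⟨_, ⟨f, ⟨hfN, hF⟩, rfl⟩, h1⟩
  obtain ⟨e, fx⟩ := sym_iff.1 hF.sym
  have hS2 : ∀ i, SN.HS (![check Lam, f] i) := by
    intro i
    fin_cases i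
    exacts [SN.hs_check _, hF]
  have hS3 : ∀ (b : ZFSet.{0}) (m : ℕ) i, SN.HS (![check b, check (nat m), f] i) := by
    intro b m i
    fin_cases i
    exacts [SN.hs_check _, SN.hs_check _, hF]
  obtain ⟨j, hj⟩ := (Sys.frc_iff ud_inj hcl (x := ![check Lam, f]) (fun i => by
    fin_cases i
    exacts [⟨hL, SN.hs_check _⟩, ⟨hfN, hF⟩])).1 h1
  have h2 : SN.Frc ud_inj ![check Lam, f] (res e (π.g j)) := frc_res (fun i => by
    fin_cases i
    exacts [fx_check _ _, fx]) hj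
  set p0 := res e (π.g j) with hp0
  have key : ∀ i : Ty (Al (e.sup (fun c => c.1.2) + 1)), ∃ (q : P) (m : ℕ), Sp e q ∧ q ≤ p0 ∧
      SN.Frc ud_pm ![check (el i), check (nat m), f] q := by
    intro i
    obtain ⟨π, hN, h0, hcl, -⟩ := Sys.exists_cld SN {check Lam, f, check (el i)}
      (Set.toFinite _).countable ∅ Set.countable_empty p0
    have hBN : (check Lam : PName P) ∈ π.N := hN (by simp)
    have hfN : f ∈ π.N := hN (by simp)
    have hbN : (check (el i) : PName P) ∈ π.N := hN (by simp)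
    have h1 : IsInj (π.hat Lam) ZFSet.omega (π.val f) :=
      (Sys.frc_sem hS2).1 h2 π hcl (by
        intro i
        fin_cases i
        exacts [hBN, hfN]) ⟨0, h0.le⟩
    obtain ⟨m, hm, -⟩ := h1.1.2 (π.hat (el i))
      ((π.hat_mem_hat hbN hBN).2 (Al_sub_Lam _ (el_mem i)))
    obtain ⟨k, rfl⟩ := mem_omega_iff.1 (ZFSet.pair_mem_prod.1 (h1.1.1 hm)).2
    have h2 : pair (π.val (check (el i))) (π.val (check (nat k))) ∈ π.val f := by
      have h3 : π.val (check (nat k)) = nat k := π.hat_nat k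
      rw [h3]
      exact hm
    obtain ⟨j, hj⟩ := (Sys.frc_iff ud_pm hcl (x := ![check (el i), check (nat k), f])
      (fun i' => ⟨by
        fin_cases i'
        exacts [hbN, π.nat_Z k, hfN], hS3 _ _ i'⟩)).1 h2
    refine ⟨res e (π.g j), k, sp_res _ _, ?_, ?_⟩
    · have h3 := res_mono (e := e) ((π.g_anti (Nat.zero_le j)).trans h0.le)
      rwa [hp0, (sp_res e _).res_eq] at h3
    · refine frc_res (fun i' => ?_) hj
      fin_cases i'
      exacts [fx_check _ _, fx_check _ _, fx]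
  choose q m hq1 hq2 hq3 using key
  obtain ⟨a, b, hab, hk, r, hra, hrb, -⟩ := pair_free (bound e) (le_mk _) q hq1 (fun _ => ∅)
    (fun i => le_cf.2 fun x hx => absurd hx (Finset.notMem_empty _)) m
  obtain ⟨π, hN, h0, hcl, -⟩ := Sys.exists_cld SN {check Lam, f, check (el a), check (el b)}
    (Set.toFinite _).countable ∅ Set.countable_empty r
  have hBN : (check Lam : PName P) ∈ π.N := hN (by simp)
  have hfN : f ∈ π.N := hN (by simp)
  have haN : (check (el a) : PName P) ∈ π.N := hN (by simp)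
  have hbN : (check (el b) : PName P) ∈ π.N := hN (by simp)
  have h3 : IsInj (π.hat Lam) ZFSet.omega (π.val f) :=
    (Sys.frc_sem hS2).1 h2 π hcl (by
      intro i
      fin_cases i
      exacts [hBN, hfN]) ⟨0, h0.le.trans (hra.trans (hq2 a))⟩
  have h4 : pair (π.hat (el a)) (π.val (check (nat (m a)))) ∈ π.val f :=
    (Sys.frc_sem (hS3 _ _)).1 (hq3 a) π hcl (by
      intro i
      fin_cases i
      exacts [haN, π.nat_Z _, hfN]) ⟨0, h0.le.trans hra⟩
  have h5 : pair (π.hat (el b)) (π.val (check (nat (m b)))) ∈ π.val f :=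
    (Sys.frc_sem (hS3 _ _)).1 (hq3 b) π hcl (by
      intro i
      fin_cases i
      exacts [hbN, π.nat_Z _, hfN]) ⟨0, h0.le.trans hrb⟩
  rw [← hk] at h5
  have h6 := h3.2 _ _ _ h4 h5
  exact hab (el_injective ((π.hat_inj haN hbN).1 h6))

/-! ### There is no large antichain -/

theorem not_anti {π : Pkg P} (hcl : SN.Cld π) (hL : Lam ∈ π.Z) (hA : AN ∈ π.N)
    (hR : RN ∈ π.N) : ¬ HasAntichain (SN.Ms π) (π.val AN) (π.val RN) (π.hat Lam) := by
  rintro ⟨_, ⟨f, ⟨hfN, hF⟩, rfl⟩, h1, h1'⟩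
  obtain ⟨e, fx⟩ := sym_iff.1 hF.sym
  have hS2 : ∀ i, SN.HS (![AN, RN, check Lam, f] i) := by
    intro i
    fin_cases i
    exacts [hs_AN, hs_RN, SN.hs_check _, hF]
  have hS3 : ∀ (b c : ZFSet.{0}) i, SN.HS (![check b, check c, f] i) := by
    intro b m i
    fin_cases i
    exacts [SN.hs_check _, SN.hs_check _, hF]
  obtain ⟨j, hj⟩ := (Sys.frc_iff ud_anti hcl (x := ![AN, RN, check Lam, f]) (fun i => by
    fin_cases i
    exacts [⟨hA, hs_AN⟩, ⟨hR, hs_RN⟩, ⟨hL, SN.hs_check _⟩, ⟨hfN, hF⟩])).1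
      ⟨h1, fun ξ _ η _ p _ q _ => h1' ξ η p q⟩
  have h2 : SN.Frc ud_anti ![AN, RN, check Lam, f] (res e (π.g j)) := frc_res (fun i => by
    fin_cases i
    exacts [fx_AN.mono (Finset.empty_subset _), fx_RN.mono (Finset.empty_subset _),
      fx_check _ _, fx]) hj
  set p0 := res e (π.g j) with hp0
  have key : ∀ i : Ty (Al (e.sup (fun c => c.1.2) + 1)), ∃ (q : P) (s : Finset Pt), Sp e q ∧
      q ≤ p0 ∧ q ≤ cf s ∧ SN.Frc ud_pm ![check (el i), check (cd s), f] q := by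
    intro i
    obtain ⟨π, hN, h0, hcl, -⟩ := Sys.exists_cld SN {AN, RN, check Lam, f, check (el i)}
      (Set.toFinite _).countable ∅ Set.countable_empty p0
    have hAN : AN ∈ π.N := hN (by simp)
    have hRN : RN ∈ π.N := hN (by simp)
    have hBN : (check Lam : PName P) ∈ π.N := hN (by simp)
    have hfN : f ∈ π.N := hN (by simp)
    have hbN : (check (el i) : PName P) ∈ π.N := hN (by simp)
    obtain ⟨h1, -⟩ := (Sys.frc_sem hS2).1 h2 π hcl (by
        intro i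
        fin_cases i
        exacts [hAN, hRN, hBN, hfN]) ⟨0, h0.le⟩
    have h1 : IsInj (π.hat Lam) (π.val AN) (π.val f) := h1
    obtain ⟨m, hm, -⟩ := h1.1.2 (π.hat (el i))
      ((π.hat_mem_hat hbN hBN).2 (Al_sub_Lam _ (el_mem i)))
    obtain ⟨s, hs, rfl, k, hk⟩ := (mem_AN π).1 (ZFSet.pair_mem_prod.1 (h1.1.1 hm)).2
    have h2 : pair (π.val (check (el i))) (π.val (check (cd s))) ∈ π.val f := hm
    obtain ⟨j, hj⟩ := (Sys.frc_iff ud_pm hcl (x := ![check (el i), check (cd s), f])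
      (fun i' => ⟨by
        fin_cases i'
        exacts [hbN, hs, hfN], hS3 _ _ i'⟩)).1 h2
    refine ⟨res e (π.g (max j k)), s, sp_res _ _, ?_, ?_, ?_⟩
    · have h3 := res_mono (e := e) ((π.g_anti (Nat.zero_le (max j k))).trans h0.le)
      rwa [hp0, (sp_res e _).res_eq] at h3
    · exact res_le_cf ((π.g_le_right j k).trans hk)
    · refine frc_res (fun i' => ?_) (hj.mono (π.g_le_left j k))
      fin_cases i'
      exacts [fx_check _ _, fx_check _ _, fx]
  choose q s hq1 hq2 hq3 hq4 using key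
  obtain ⟨a, b, hab, -, r, hra, hrb, hrc⟩ := pair_free (bound e) (le_mk _) q hq1 s hq3 fun _ => 0
  obtain ⟨π, hN, h0, hcl, -⟩ := Sys.exists_cld SN {AN, RN, check Lam, f, check (el a),
    check (el b), check (cd (s a)), check (cd (s b)), check (cd (s a ∪ s b))}
    (Set.toFinite _).countable ∅ Set.countable_empty r
  have hAN : AN ∈ π.N := hN (by simp)
  have hRN : RN ∈ π.N := hN (by simp)
  have hBN : (check Lam : PName P) ∈ π.N := hN (by simp)
  have hfN : f ∈ π.N := hN (by simp)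
  have haN : (check (el a) : PName P) ∈ π.N := hN (by simp)
  have hbN : (check (el b) : PName P) ∈ π.N := hN (by simp)
  have hsa : (check (cd (s a)) : PName P) ∈ π.N := hN (by simp)
  have hsb : (check (cd (s b)) : PName P) ∈ π.N := hN (by simp)
  have hsab : (check (cd (s a ∪ s b)) : PName P) ∈ π.N := hN (by simp)
  obtain ⟨h3, h3'⟩ := (Sys.frc_sem hS2).1 h2 π hcl (by
      intro i
      fin_cases i
      exacts [hAN, hRN, hBN, hfN]) ⟨0, h0.le.trans (hra.trans (hq2 a))⟩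
  have h4 : pair (π.hat (el a)) (π.hat (cd (s a))) ∈ π.val f :=
    (Sys.frc_sem (hS3 _ _)).1 (hq4 a) π hcl (by
      intro i
      fin_cases i
      exacts [haN, hsa, hfN]) ⟨0, h0.le.trans hra⟩
  have h5 : pair (π.hat (el b)) (π.hat (cd (s b))) ∈ π.val f :=
    (Sys.frc_sem (hS3 _ _)).1 (hq4 b) π hcl (by
      intro i
      fin_cases i
      exacts [hbN, hsb, hfN]) ⟨0, h0.le.trans hrb⟩
  have hM : ∀ {x : ZFSet.{0}}, x ∈ π.Z → π.hat x ∈ SN.Ms π := fun hx =>
    Sys.mem_Ms hx (SN.hs_check _)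
  refine h3' (π.hat (el a)) (hM haN) (π.hat (el b)) (hM hbN) (π.hat (cd (s a))) (hM hsa)
    (π.hat (cd (s b))) (hM hsb) h4 h5 ?_ ?_
  · intro h6
    exact hab (el_injective ((π.hat_inj haN hbN).1 h6))
  · refine ⟨π.hat (cd (s a ∪ s b)), (mem_AN π).2 ⟨_, hsab, rfl, 0, h0.le.trans hrc⟩, ?_, ?_⟩
    · exact (mem_RN π).2 ⟨_, _, Finset.subset_union_left, hsab, hsa, rfl, 0, h0.le.trans hrc⟩
    · exact (mem_RN π).2 ⟨_, _, Finset.subset_union_right, hsab, hsb, rfl, 0, h0.le.trans hrc⟩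

/-! ### The large antichains -/

theorem isPHom_FN {π : Pkg P} (hcl : SN.Cld π) {n : ℕ} (hF : FN n ∈ π.N) (hn : Al n ∈ π.Z) :
    IsPHom (π.val AN) (π.val RN) (π.val (FN n)) (π.hat (Al n)) := by
  have key : ∀ p q a b, pair p a ∈ π.val (FN n) → pair q b ∈ π.val (FN n) →
      (p = q ∨ Comp (π.val AN) (π.val RN) p q) → a = b := by
    intro p q a b h1 h2 h3
    obtain ⟨x, hx1, hx2, hx3, hx4, j, hj⟩ := (mem_FN π).1 h1
    obtain ⟨y, hy1, hy2, hy3, hy4, k, hk⟩ := (mem_FN π).1 h2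
    obtain ⟨rfl, rfl⟩ := ZFSet.pair_inj.1 hx4
    obtain ⟨rfl, rfl⟩ := ZFSet.pair_inj.1 hy4
    rcases h3 with h3 | ⟨r, -, h3, h4⟩
    · have h4 := cd_injective ((π.hat_inj hx1 hy1).1 h3)
      rw [Finset.singleton_inj] at h4
      rw [h4]
    · obtain ⟨s, t, hts, hs, ht, h5, l, hl⟩ := (mem_RN π).1 h3
      obtain ⟨s', t', hts', hs', ht', h6, l', hl'⟩ := (mem_RN π).1 h4
      obtain ⟨rfl, h7⟩ := ZFSet.pair_inj.1 h5
      obtain ⟨h8, h9⟩ := ZFSet.pair_inj.1 h6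
      have h7 := cd_injective ((π.hat_inj hx1 ht).1 h7)
      have h8 := cd_injective ((π.hat_inj hs hs').1 h8)
      have h9 := cd_injective ((π.hat_inj hy1 ht').1 h9)
      subst h7
      subst h8
      subst h9
      by_contra h10
      have h11 : x.1 ≠ y.1 := by
        intro h
        exact h10 (by rw [h])
      have hxs : x ∈ s := hts (Finset.mem_singleton_self _)
      have hys : y ∈ s := hts' (Finset.mem_singleton_self _)
      have h12 := le_cf.1 hl x hxs y hys (fun h => h11 (by rw [h]))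
      have h13 := π.g_le_left (max j k) l ((π.g_le_left j k) hj)
      have h14 := π.g_le_left (max j k) l ((π.g_le_right j k) hk)
      have h15 := π.g_le_right (max j k) l h12
      have h16 := (π.g (max (max j k) l)).2.ho _ _ _ rfl h13 h14 h11
      have h17 := (π.g (max (max j k) l)).2.fn _ _ _ _ h15 h16
      cases h17
  constructor
  · intro z hz
    obtain ⟨x, hx1, hx2, hx3, hx4, j, hj⟩ := (mem_FN π).1 hz
    refine ⟨_, (mem_AN π).2 ⟨_, hx1, rfl, 0, le_cf.2 ?_⟩, _, (π.hat_mem_hat hx2 hn).2 hx3, hx4⟩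
    intro y hy z hz hyz
    rw [Finset.mem_singleton] at hy hz
    exact absurd (hy.trans hz.symm) hyz
  · exact fun p a b h1 h2 => key p p a b h1 h2 (Or.inl rfl)
  · intro a ha
    obtain ⟨b, hb, hbZ, rfl⟩ := π.mem_hat.1 ha
    exact FN_onto hcl hF hb hbZ
  · exact fun p q a b h1 h2 h3 => key p q a b h1 h2 (Or.inr h3)

open Classical in
theorem not_unarrow {π : Pkg P} (h : IsMod π) :
    ¬ UNarrow (SN.Ms π) (π.val AN) (π.val RN) := by
  rintro ⟨_, ⟨f, ⟨hfN, hF⟩, rfl⟩, hG⟩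
  obtain ⟨e, fx⟩ := sym_iff.1 hF.sym
  set m := e.sup (fun c => c.1.2) with hm
  set c0 : Co := ((true, m + 1), 0) with hc0
  have hM : IsZF (SN.Ms π) := T_ZF.isZF h.cl
  have hFM : π.val (FN (m + 1)) ∈ SN.Ms π := Sys.mem_Ms (h.fn _) (hs_FN _)
  have hAM : π.hat (Al (m + 1)) ∈ SN.Ms π := Sys.mem_Ms (h.al _) (SN.hs_check _)
  have hfM : π.val f ∈ SN.Ms π := Sys.mem_Ms hfN hF
  obtain ⟨E, hE1, hE2, hE3⟩ := hG _ hFM _ hAM (π.hat_isOrdinal (ZFSet.isOrdinal_toZFSet _))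
    (isPHom_FN h.cl (h.fn _) (h.al _))
  have hEM : E ∈ SN.Ms π := (mem_of_pair hM hfM hE1).2
  have hS2 : ∀ i, SN.HS (![f, FN (m + 1), check (Al (m + 1))] i) := by
    intro i
    fin_cases i
    exacts [hF, hs_FN _, SN.hs_check _]
  have hS3 : ∀ (b : ZFSet.{0}) (k : ℕ) i, SN.HS (![f, FN (m + 1), check b, check (nat k)] i) := by
    intro b k i
    fin_cases i
    exacts [hF, hs_FN _, SN.hs_check _, SN.hs_check _]
  obtain ⟨j, hj⟩ := (Sys.frc_iff ud_G h.cl (x := ![f, FN (m + 1), check (Al (m + 1))])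
    (fun i => by
      fin_cases i
      exacts [⟨hfN, hF⟩, ⟨h.fn _, hs_FN _⟩, ⟨h.al _, SN.hs_check _⟩])).1
      ⟨E, hEM, hE1, fun e' _ => hE2 e', hE3⟩
  have h2 : SN.Frc ud_G ![f, FN (m + 1), check (Al (m + 1))] (res (insert c0 e) (π.g j)) :=
    frc_res (fun i => by
      fin_cases i
      exacts [fx.mono (Finset.subset_insert _ _), (fx_FN _).mono (by simp [hc0]),
        fx_check _ _]) hj
  set p0 := res (insert c0 e) (π.g j) with hp0
  have key : ∀ i : Ty (Al (m + 1)), ∃ (q : P) (k : ℕ), Sp (insert c0 e) q ∧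
      q ≤ p0 ∧ SN.Frc ud_D ![f, FN (m + 1), check (el i), check (nat k)] q := by
    intro i
    obtain ⟨π, hN, h0, hcl, -⟩ := Sys.exists_cld SN {f, FN (m + 1), check (Al (m + 1)),
      check (el i)} (Set.toFinite _).countable ∅ Set.countable_empty p0
    have hfN : f ∈ π.N := hN (by simp)
    have hFN : FN (m + 1) ∈ π.N := hN (by simp)
    have hAN : (check (Al (m + 1)) : PName P) ∈ π.N := hN (by simp)
    have hbN : (check (el i) : PName P) ∈ π.N := hN (by simp)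
    obtain ⟨E, hE, hE1, -, hE3⟩ := (Sys.frc_sem hS2).1 h2 π hcl (by
        intro i
        fin_cases i
        exacts [hfN, hFN, hAN]) ⟨0, h0.le⟩
    have hE3' : IsInj (π.hat (Al (m + 1))) ZFSet.omega E := hE3
    obtain ⟨k, hk, -⟩ := hE3'.1.2 (π.hat (el i)) ((π.hat_mem_hat hbN hAN).2 (el_mem i))
    obtain ⟨k, rfl⟩ := mem_omega_iff.1 (ZFSet.pair_mem_prod.1 (hE3'.1.1 hk)).2
    obtain ⟨j, hj⟩ := (Sys.frc_iff ud_D hcl
      (x := ![f, FN (m + 1), check (el i), check (nat k)]) (fun i' => ⟨by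
        fin_cases i'
        exacts [hfN, hFN, hbN, π.nat_Z k], hS3 _ _ i'⟩)).1 (by
          refine ⟨E, hE, hE1, ?_⟩
          have h3 : π.val (check (nat k)) = nat k := π.hat_nat k
          change pair (π.hat (el i)) (π.val (check (nat k))) ∈ E
          rw [h3]
          exact hk)
    refine ⟨res (insert c0 e) (π.g j), k, sp_res _ _, ?_, ?_⟩
    · have h3 := res_mono (e := insert c0 e) ((π.g_anti (Nat.zero_le j)).trans h0.le)
      rwa [hp0, (sp_res _ _).res_eq] at h3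
    · refine frc_res (fun i' => ?_) hj
      fin_cases i'
      exacts [fx.mono (Finset.subset_insert _ _), (fx_FN _).mono (by simp [hc0]),
        fx_check _ _, fx_check _ _]
  choose q k hq1 hq2 hq3 using key
  obtain ⟨a, b, hab, hk, r, hra, hrb⟩ := pair_col (bound e) (c0 := c0) rfl (le_mk _) q hq1 k
  obtain ⟨π, hN, h0, hcl, -⟩ := Sys.exists_cld SN {f, FN (m + 1), check (Al (m + 1)),
    check (el a), check (el b)} (Set.toFinite _).countable ∅ Set.countable_empty r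
  have hfN : f ∈ π.N := hN (by simp)
  have hFN : FN (m + 1) ∈ π.N := hN (by simp)
  have hAN : (check (Al (m + 1)) : PName P) ∈ π.N := hN (by simp)
  have haN : (check (el a) : PName P) ∈ π.N := hN (by simp)
  have hbN : (check (el b) : PName P) ∈ π.N := hN (by simp)
  obtain ⟨E, hE, hE1, hE2, hE3⟩ := (Sys.frc_sem hS2).1 h2 π hcl (by
      intro i
      fin_cases i
      exacts [hfN, hFN, hAN]) ⟨0, h0.le.trans (hra.trans (hq2 a))⟩
  obtain ⟨Ea, hEa, h4, h4'⟩ := (Sys.frc_sem (hS3 _ _)).1 (hq3 a) π hcl (by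
      intro i
      fin_cases i
      exacts [hfN, hFN, haN, π.nat_Z _]) ⟨0, h0.le.trans hra⟩
  obtain ⟨Eb, hEb, h5, h5'⟩ := (Sys.frc_sem (hS3 _ _)).1 (hq3 b) π hcl (by
      intro i
      fin_cases i
      exacts [hfN, hFN, hbN, π.nat_Z _]) ⟨0, h0.le.trans hrb⟩
  obtain rfl := hE2 _ hEa h4
  obtain rfl := hE2 _ hEb h5
  rw [← hk] at h5'
  have h6 : π.hat (el a) = π.hat (el b) := hE3.2 _ _ _ h4' h5'
  exact hab (el_injective ((π.hat_inj haN hbN).1 h6))

/-! ### The remaining properties -/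

theorem isForcing {π : Pkg P} : IsForcing (π.val AN) (π.val RN) := by
  constructor
  · intro z hz
    obtain ⟨s, t, hts, hs, ht, rfl, k, hk⟩ := (mem_RN π).1 hz
    refine ⟨_, (mem_AN π).2 ⟨s, hs, rfl, k, hk⟩, _, (mem_AN π).2 ⟨t, ht, rfl, k, ?_⟩, rfl⟩
    rw [le_cf] at hk ⊢
    exact fun x hx y hy hxy => hk x (hts hx) y (hts hy) hxy
  · intro p hp
    obtain ⟨s, hs, rfl, k, hk⟩ := (mem_AN π).1 hp
    exact (mem_RN π).2 ⟨s, s, Finset.Subset.refl _, hs, hs, rfl, k, hk⟩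
  · intro p q h1 h2
    obtain ⟨s, t, hts, hs, ht, h3, k, hk⟩ := (mem_RN π).1 h1
    obtain ⟨t', s', hts', ht', hs', h4, k', hk'⟩ := (mem_RN π).1 h2
    obtain ⟨rfl, rfl⟩ := ZFSet.pair_inj.1 h3
    obtain ⟨h5, h6⟩ := ZFSet.pair_inj.1 h4
    obtain rfl := cd_injective ((π.hat_inj ht ht').1 h5)
    obtain rfl := cd_injective ((π.hat_inj hs hs').1 h6)
    rw [Finset.Subset.antisymm hts hts']
  · intro p q r h1 h2
    obtain ⟨s, t, hts, hs, ht, h3, k, hk⟩ := (mem_RN π).1 h1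
    obtain ⟨t', u, hut, ht', hu, h4, k', hk'⟩ := (mem_RN π).1 h2
    obtain ⟨rfl, rfl⟩ := ZFSet.pair_inj.1 h3
    obtain ⟨h5, rfl⟩ := ZFSet.pair_inj.1 h4
    obtain rfl := cd_injective ((π.hat_inj ht ht').1 h5)
    exact (mem_RN π).2 ⟨s, u, hut.trans hts, hs, hu, rfl, k, hk⟩

theorem ordinals {π : Pkg P} {p : ZFSet.{0}} (hp : p ∈ π.val AN) : p.IsOrdinal := by
  obtain ⟨s, hs, rfl, -⟩ := (mem_AN π).1 hp
  exact π.hat_isOrdinal (cd_ord s)

theorem cnt_al {π : Pkg P} (h : IsMod π) (n : ℕ) : CntIn (SN.Ms π) (π.hat (Al n)) := by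
  have hM := T_ZF.isZF h.cl
  have hB := hM.base
  have hGM : π.val (GN n) ∈ SN.Ms π := Sys.mem_Ms (h.gn n) (hs_GN n)
  have hAM : π.hat (Al n) ∈ SN.Ms π := Sys.mem_Ms (h.al n) (SN.hs_check _)
  refine cnt_image hM (cnt_omega hM) hM.infinity hAM
    (G := fun m a => pair m a ∈ π.val (GN n)) ?_ ?_ ?_
  · (repeat' first
      | assumption
      | exact DfnF.proj _
      | exact DfnF.const (by assumption)
      | exact DfnF.const' (by first | assumption | trivial) (by first | assumption | trivial)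
      | exact Dfn.prop _
      | apply Dfn.not | apply Dfn.and | apply Dfn.or | apply Dfn.imp | apply Dfn.iff
      | apply hB.bex | apply hB.ball | apply Dfn.ex | apply Dfn.all
      | apply Dfn.eq | apply Dfn.mem | apply hB.pair')
  · exact fun m _ a _ b _ h1 h2 => GN_func π h1 h2
  · intro a ha
    obtain ⟨b, hb, hbZ, rfl⟩ := π.mem_hat.1 ha
    obtain ⟨m, hm⟩ := GN_onto h.cl (h.gn n) hb hbZ
    exact ⟨_, mem_omega_iff.2 ⟨m, rfl⟩, hm⟩

theorem ord_Lam : Lam.IsOrdinal := by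
  refine ⟨fun y hy z hz => ?_, fun {y z w} h1 h2 h3 => ?_⟩
  · obtain ⟨a, ha, hy⟩ := ZFSet.mem_sUnion.1 hy
    obtain ⟨n, rfl⟩ := mem_AlF.1 ha
    exact Al_sub_Lam n ((ZFSet.isOrdinal_toZFSet _).mem_trans hz hy)
  · obtain ⟨a, ha, h3⟩ := ZFSet.mem_sUnion.1 h3
    obtain ⟨n, rfl⟩ := mem_AlF.1 ha
    exact (ZFSet.isOrdinal_toZFSet _).mem_trans' h1 h2 h3

theorem isAleph1_lam {π : Pkg P} (h : IsMod π) : IsAleph1 (SN.Ms π) (π.hat Lam) := by
  refine ⟨Sys.mem_Ms h.lam (SN.hs_check _), π.hat_isOrdinal ord_Lam, not_cnt_lam h.cl h.lam, ?_⟩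
  intro α hα
  have hM := T_ZF.isZF h.cl
  have hB := hM.base
  obtain ⟨b, hb, hbZ, rfl⟩ := π.mem_hat.1 hα
  obtain ⟨a, ha, hb⟩ := ZFSet.mem_sUnion.1 hb
  obtain ⟨n, rfl⟩ := mem_AlF.1 ha
  have h1 : π.hat b ⊆ π.hat (Al n) :=
    π.hat_subset ((ZFSet.isOrdinal_toZFSet _).subset_of_mem hb)
  have hbM : π.hat b ∈ SN.Ms π := Sys.mem_Ms hbZ (SN.hs_check _)
  have hAM : π.hat (Al n) ∈ SN.Ms π := Sys.mem_Ms (h.al n) (SN.hs_check _)
  refine cnt_image hM (cnt_al h n) hAM hbM (G := fun m a => m = a) ?_ ?_ ?_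
  · (repeat' first
      | assumption
      | exact DfnF.proj _
      | exact Dfn.prop _
      | apply Dfn.eq)
  · exact fun m _ a _ b _ h1 h2 => h1.symm.trans h2
  · exact fun a ha => ⟨a, h1 ha, rfl⟩

theorem countable_Ms (π : Pkg P) : (SN.Ms π).Countable :=
  (π.cnt.mono fun _ hx => hx.1).image _

/-- The main result. -/
theorem main : ∃ M : Set ZFSet.{0}, M.Countable ∧ IsZF M ∧ ∃ κ, IsAleph1 M κ ∧
    ∃ A ∈ M, ∃ R ∈ M, (∀ p ∈ A, p.IsOrdinal) ∧ IsForcing A R ∧ ¬ HasAntichain M A R κ ∧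
      ¬ UNarrow M A R := by
  obtain ⟨π, h⟩ := exists_mod
  exact ⟨SN.Ms π, countable_Ms π, T_ZF.isZF h.cl, π.hat Lam, isAleph1_lam h, π.val AN,
    Sys.mem_Ms h.an hs_AN, π.val RN, Sys.mem_Ms h.rn hs_RN, fun p hp => ordinals hp, isForcing,
    not_anti h.cl h.lam h.an h.rn, not_unarrow h⟩

end Pool.Agent.Q212.NU
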