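import Mathlib

/-!
# Existentially definable relations over a field with a nonsquare
-/

set_option autoImplicit false

namespace Pool.Agent.Q212.PR

open MvPolynomial

variable {K : Type} [Field K]

/-- `P` is existentially definable (with parameters) -/
def EX {ι : Type} (P : (ι → K) → Prop) : Prop :=
  ∃ (τ : Type) (_ : Finite τ) (p : MvPolynomial (ι ⊕ τ) K), ∀ v, P v ↔
    ∃ u : τ → K, eval (Sum.elim v u) p = 0

section

variable {ι : Type} {P P' : (ι → K) → Prop}

theorem EX.congr (h : EX P) (h' : ∀ v, P' v ↔ P v) : EX P' := by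
  obtain ⟨τ, hτ, p, hp⟩ := h
  exact ⟨τ, hτ, p, fun v => (h' v).trans (hp v)⟩

theorem EX.eq (p : MvPolynomial ι K) : EX (fun v => eval v p = 0) := by
  refine ⟨Empty, inferInstance, rename Sum.inl p, fun v => ?_⟩
  have h : ∀ u : Empty → K, eval (Sum.elim v u) (rename Sum.inl p) = eval v p := fun u => by
    rw [eval_rename]
    rfl
  constructor
  · intro h1
    exact ⟨fun x => x.elim, by rw [h, h1]⟩
  · rintro ⟨u, hu⟩
    rwa [h] at hu

theorem EX.true : EX (fun _ : ι → K => True) := (EX.eq (0 : MvPolynomial ι K)).congr fun v => by simp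

theorem EX.or (h : EX P) (h' : EX P') : EX (fun v => P v ∨ P' v) := by
  obtain ⟨τ, hτ, p, hp⟩ := h
  obtain ⟨τ', hτ', p', hp'⟩ := h'
  refine ⟨τ ⊕ τ', inferInstance, rename (Sum.map id Sum.inl) p * rename (Sum.map id Sum.inr) p',
    fun v => ?_⟩
  have e1 : ∀ (u : τ ⊕ τ' → K), eval (Sum.elim v u) (rename (Sum.map id Sum.inl) p) =
      eval (Sum.elim v (u ∘ Sum.inl)) p := fun u => by
    rw [eval_rename]
    congr 2
    funext s
    rcases s with s | s <;> rfl
  have e2 : ∀ (u : τ ⊕ τ' → K), eval (Sum.elim v u) (rename (Sum.map id Sum.inr) p') =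
      eval (Sum.elim v (u ∘ Sum.inr)) p' := fun u => by
    rw [eval_rename]
    congr 2
    funext s
    rcases s with s | s <;> rfl
  change P v ∨ P' v ↔ _
  rw [hp, hp']
  constructor
  · rintro (⟨u, hu⟩ | ⟨u, hu⟩)
    · refine ⟨Sum.elim u 0, ?_⟩
      rw [map_mul, e1, Sum.elim_comp_inl, hu, zero_mul]
    · refine ⟨Sum.elim 0 u, ?_⟩
      rw [map_mul, e2, Sum.elim_comp_inr, hu, mul_zero]
  · rintro ⟨u, hu⟩
    rw [map_mul, e1, e2, mul_eq_zero] at hu
    exact hu.imp (fun h => ⟨_, h⟩) (fun h => ⟨_, h⟩)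

theorem EX.and (hc : ∃ c : K, ∀ x, x ^ 2 ≠ c) (h : EX P) (h' : EX P') :
    EX (fun v => P v ∧ P' v) := by
  obtain ⟨c, hc⟩ := hc
  obtain ⟨τ, hτ, p, hp⟩ := h
  obtain ⟨τ', hτ', p', hp'⟩ := h'
  refine ⟨τ ⊕ τ', inferInstance,
    rename (Sum.map id Sum.inl) p ^ 2 - C c * rename (Sum.map id Sum.inr) p' ^ 2, fun v => ?_⟩
  have e1 : ∀ (u : τ ⊕ τ' → K), eval (Sum.elim v u) (rename (Sum.map id Sum.inl) p) =
      eval (Sum.elim v (u ∘ Sum.inl)) p := fun u => by
    rw [eval_rename]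
    congr 2
    funext s
    rcases s with s | s <;> rfl
  have e2 : ∀ (u : τ ⊕ τ' → K), eval (Sum.elim v u) (rename (Sum.map id Sum.inr) p') =
      eval (Sum.elim v (u ∘ Sum.inr)) p' := fun u => by
    rw [eval_rename]
    congr 2
    funext s
    rcases s with s | s <;> rfl
  have e3 : ∀ x y : K, x ^ 2 - c * y ^ 2 = 0 → x = 0 ∧ y = 0 := by
    intro x y hxy
    have hy : y = 0 := by
      by_contra hy
      refine hc (x / y) ?_
      rw [div_pow, div_eq_iff (pow_ne_zero 2 hy)]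
      exact sub_eq_zero.1 hxy
    rw [hy] at hxy
    exact ⟨by simpa using hxy, hy⟩
  change P v ∧ P' v ↔ _
  rw [hp, hp']
  constructor
  · rintro ⟨⟨u, hu⟩, ⟨u', hu'⟩⟩
    refine ⟨Sum.elim u u', ?_⟩
    rw [map_sub, map_mul, map_pow, map_pow, e1, e2, Sum.elim_comp_inl, Sum.elim_comp_inr, hu, hu']
    simp
  · rintro ⟨u, hu⟩
    rw [map_sub, map_mul, map_pow, map_pow, e1, e2, eval_C] at hu
    obtain ⟨h1, h2⟩ := e3 _ _ hu
    exact ⟨⟨_, h1⟩, ⟨_, h2⟩⟩

theorem EX.exs {σ : Type} [Finite σ] {P : (ι → K) → (σ → K) → Prop}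
    (h : EX (fun w : ι ⊕ σ → K => P (w ∘ Sum.inl) (w ∘ Sum.inr))) :
    EX (fun v => ∃ u, P v u) := by
  obtain ⟨τ, hτ, p, hp⟩ := h
  refine ⟨σ ⊕ τ, inferInstance, rename (Equiv.sumAssoc ι σ τ) p, fun v => ?_⟩
  have e : ∀ (a : σ → K) (b : τ → K),
      eval (Sum.elim v (Sum.elim a b)) (rename (Equiv.sumAssoc ι σ τ) p) =
      eval (Sum.elim (Sum.elim v a) b) p := fun a b => by
    rw [eval_rename]
    congr 2
    funext s
    rcases s with (s | s) | s <;> rfl
  constructor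
  · rintro ⟨a, ha⟩
    obtain ⟨b, hb⟩ := (hp (Sum.elim v a)).1 (by simpa using ha)
    exact ⟨Sum.elim a b, by rw [e, hb]⟩
  · rintro ⟨u, hu⟩
    have h1 : u = Sum.elim (u ∘ Sum.inl) (u ∘ Sum.inr) := by
      funext s
      rcases s with s | s <;> rfl
    rw [h1, e] at hu
    have h2 := (hp _).2 ⟨_, hu⟩
    exact ⟨u ∘ Sum.inl, by simpa using h2⟩

/-- substitution of polynomials -/
theorem EX.comp {κ : Type} (h : EX P) (g : ι → MvPolynomial κ K) :
    EX (fun v : κ → K => P fun i => eval v (g i)) := by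
  obtain ⟨τ, hτ, p, hp⟩ := h
  refine ⟨τ, hτ, bind₁ (Sum.elim (fun i => rename Sum.inl (g i)) fun t => X (Sum.inr t)) p,
    fun v => ?_⟩
  change P _ ↔ _
  rw [hp]
  refine exists_congr fun u => ?_
  have e : eval (Sum.elim v u) (bind₁ (Sum.elim (fun i => rename Sum.inl (g i))
      fun t => X (Sum.inr t)) p) = eval (Sum.elim (fun i => eval v (g i)) u) p := by
    rw [← coe_aeval_eq_eval, ← coe_aeval_eq_eval, RingHom.coe_coe, RingHom.coe_coe, aeval_bind₁]
    congr 2
    funext s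
    rcases s with s | s
    · simp only [Sum.elim_inl, aeval_rename, Sum.elim_comp_inl]
      rfl
    · simp
  rw [e]

theorem EX.all (hc : ∃ c : K, ∀ x, x ^ 2 ≠ c) {α : Type} [Finite α] {Q : α → (ι → K) → Prop}
    (h : ∀ a, EX (Q a)) : EX (fun v => ∀ a, Q a v) := by
  classical
  have := Fintype.ofFinite α
  have key : ∀ s : Finset α, EX (fun v => ∀ a ∈ s, Q a v) := by
    intro s
    induction s using Finset.induction_on with
    | empty => exact EX.true.congr fun v => by simp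
    | insert a s _ ih =>
      exact ((h a).and hc ih).congr fun v => by simp
  exact (key Finset.univ).congr fun v => by simp

/-- the form with finitely many numbered variables -/
theorem EX.final (h : EX P) : ∃ (n : ℕ) (p : MvPolynomial (ι ⊕ Fin n) K), ∀ v, P v ↔
    ∃ u : Fin n → K, eval (Sum.elim v u) p = 0 := by
  obtain ⟨τ, hτ, p, hp⟩ := h
  obtain ⟨n, ⟨e⟩⟩ := Finite.exists_equiv_fin τ
  refine ⟨n, rename (Sum.map id e) p, fun v => ?_⟩
  rw [hp]
  have h1 : ∀ u : Fin n → K, eval (Sum.elim v u) (rename (Sum.map id e) p) =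
      eval (Sum.elim v (u ∘ e)) p := fun u => by
    rw [eval_rename]
    congr 2
    funext s
    rcases s with s | s <;> rfl
  constructor
  · rintro ⟨u, hu⟩
    refine ⟨u ∘ e.symm, ?_⟩
    rw [h1, Function.comp_assoc, Equiv.symm_comp_self, Function.comp_id, hu]
  · rintro ⟨u, hu⟩
    exact ⟨u ∘ e, by rw [← h1, hu]⟩

end

end Pool.Agent.Q212.PR
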