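import Pool.Agent.Q212.PR1

/-!
# Sets commensurable with rings of integers
-/

set_option autoImplicit false

namespace Pool.Agent.Q212.PR

open NumberField IsDedekindDomain WithZero

/-! ### Additive combinatorics -/

section Group

variable {A : Type} [AddCommGroup A]

/-- the sums of `n` elements of `D` -/
def SumN (D : Set A) (n : ℕ) : Set A := {x | ∃ a : Fin n → A, (∀ i, a i ∈ D) ∧ x = ∑ i, a i}

theorem mem_sumN_succ {D : Set A} {n : ℕ} {x : A} :
    x ∈ SumN D (n + 1) ↔ ∃ y ∈ SumN D n, ∃ d ∈ D, x = y + d := by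
  constructor
  · rintro ⟨a, ha, rfl⟩
    exact ⟨_, ⟨fun i => a i.castSucc, fun i => ha _, rfl⟩, a (Fin.last n), ha _,
      Fin.sum_univ_castSucc a⟩
  · rintro ⟨_, ⟨a, ha, rfl⟩, d, hd, rfl⟩
    refine ⟨Fin.snoc a d, fun i => ?_, ?_⟩
    · refine Fin.lastCases ?_ (fun i => ?_) i
      · rw [Fin.snoc_last]
        exact hd
      · rw [Fin.snoc_castSucc]
        exact ha i
    · rw [Fin.sum_univ_castSucc]
      simp

theorem sumN_mono {D : Set A} (h0 : (0 : A) ∈ D) {m n : ℕ} (h : m ≤ n) :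
    SumN D m ⊆ SumN D n := by
  induction h with
  | refl => exact subset_rfl
  | step _ ih =>
    intro x hx
    exact mem_sumN_succ.2 ⟨x, ih hx, 0, h0, by rw [add_zero]⟩

theorem sumN_of_le {D : Set A} {m : ℕ} (h : SumN D (m + 1) ⊆ SumN D m) (n : ℕ) :
    m ≤ n → SumN D n ⊆ SumN D m := by
  intro hn
  induction hn with
  | refl => exact subset_rfl
  | @step n _ ih =>
    intro x hx
    obtain ⟨y, hy, d, hd, rfl⟩ := mem_sumN_succ.1 hx
    exact h (mem_sumN_succ.2 ⟨y, ih hy, d, hd, rfl⟩)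

/-- If among any `k + 1` elements of the group `G` two differ by an element of `D`, then the
sums of `2 k` elements of `D` are a group which contains `k! G`. -/
theorem factorial_mem {G : AddSubgroup A} {D : Set A} {k : ℕ} (hDG : D ⊆ G) (h0 : (0 : A) ∈ D)
    (hneg : ∀ x ∈ D, -x ∈ D)
    (hk : ∀ c : Fin (k + 1) → A, (∀ i, c i ∈ G) → ∃ i j, i ≠ j ∧ c i - c j ∈ D)
    {x : A} (hx : x ∈ G) : k.factorial • x ∈ SumN D (2 * k) := by
  -- ordered form
  have hk' : ∀ c : ℕ → A, (∀ i, c i ∈ G) → ∃ i j, j < i ∧ i ≤ k ∧ c i - c j ∈ D := by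
    intro c hc
    obtain ⟨i, j, hij, hD⟩ := hk (fun i => c i) (fun i => hc i)
    rcases lt_or_gt_of_ne hij with h | h
    · refine ⟨j, i, h, by omega, ?_⟩
      have := hneg _ hD
      rwa [neg_sub] at this
    · exact ⟨i, j, h, by omega, hD⟩
  have hsub : ∀ n, SumN D n ⊆ G := by
    rintro n _ ⟨a, ha, rfl⟩
    exact AddSubgroup.sum_mem _ fun i _ => hDG (ha i)
  -- the chain of sumsets stops
  have hstop : ∃ m, m + 1 ≤ 2 * k ∧ SumN D (m + 1) ⊆ SumN D m := by
    by_contra hcon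
    push Not at hcon
    have hch : ∀ i : ℕ, ∃ y, y ∈ G ∧ (1 ≤ i → i ≤ k → y ∈ SumN D (2 * i) ∧
        y ∉ SumN D (2 * i - 1)) ∧ (i = 0 → y = 0) := by
      intro i
      by_cases hi : 1 ≤ i ∧ i ≤ k
      · obtain ⟨y, hy1, hy2⟩ := Set.not_subset.1 (hcon (2 * i - 1) (by omega))
        have e : 2 * i - 1 + 1 = 2 * i := by omega
        rw [e] at hy1
        exact ⟨y, hsub _ hy1, fun _ _ => ⟨hy1, hy2⟩, fun h => by omega⟩
      · exact ⟨0, G.zero_mem, fun h1 h2 => absurd ⟨h1, h2⟩ hi, fun _ => rfl⟩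
    choose y hyG hy1 hy0 using hch
    obtain ⟨i, j, hji, hik, hD⟩ := hk' y hyG
    obtain ⟨h1, h2⟩ := hy1 i (by omega) hik
    apply h2
    have h3 : y j ∈ SumN D (2 * j) := by
      rcases Nat.eq_zero_or_pos j with rfl | hj
      · rw [hy0 0 rfl]
        exact ⟨fun _ => 0, fun _ => h0, by simp⟩
      · exact (hy1 j hj (by omega)).1
    have h4 : y i ∈ SumN D (2 * j + 1) :=
      mem_sumN_succ.2 ⟨y j, h3, _, hD, by abel⟩
    exact sumN_mono h0 (by omega) h4
  obtain ⟨m, hm, hstop⟩ := hstop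
  have hall : ∀ n, SumN D n ⊆ SumN D (2 * k) := by
    intro n
    rcases le_total n m with h | h
    · exact sumN_mono h0 (by omega)
    · exact (sumN_of_le hstop n h).trans (sumN_mono h0 (by omega))
  obtain ⟨i, j, hji, hik, hD⟩ := hk' (fun n => n • x) fun n => G.nsmul_mem hx n
  have h1 : (i - j) • x ∈ D := by
    have e : i • x - j • x = (i - j) • x := by
      rw [sub_eq_iff_eq_add, ← add_nsmul]
      congr 1
      omega
    rwa [← e]
  obtain ⟨l, hl⟩ : (i - j) ∣ k.factorial := Nat.dvd_factorial (by omega) (by omega)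
  refine hall l ⟨fun _ => (i - j) • x, fun _ => h1, ?_⟩
  rw [Finset.sum_const, Finset.card_univ, Fintype.card_fin, ← mul_nsmul, hl]

end Group

/-! ### Rings of integers -/

variable {K : Type} [Field K] [NumberField K]

/-- the elements which are integral at the places in `V` -/
def RV (V : Set (HeightOneSpectrum (𝓞 K))) : AddSubgroup K where
  carrier := {a | ∀ v ∈ V, v.valuation K a ≤ 1}
  zero_mem' v _ := by rw [map_zero]; exact zero_le_one
  add_mem' ha hb v hv := (Valuation.map_add _ _ _).trans (max_le (ha v hv) (hb v hv))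
  neg_mem' ha v hv := by rw [Valuation.map_neg]; exact ha v hv

theorem mem_RV {V : Set (HeightOneSpectrum (𝓞 K))} {a : K} :
    a ∈ RV V ↔ ∀ v ∈ V, v.valuation K a ≤ 1 := Iff.rfl

theorem pow_mem_RV {V : Set (HeightOneSpectrum (𝓞 K))} {a : K} (h : a ∈ RV V) (n : ℕ) :
    a ^ n ∈ RV V := fun v hv => by
  rw [map_pow]
  exact pow_le_one' (h v hv) n

theorem int_mem_RV (V : Set (HeightOneSpectrum (𝓞 K))) (c : 𝓞 K) : (c : K) ∈ RV V :=
  fun v _ => v.valuation_le_one c

/-- a power difference which is integral -/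
theorem mem_RV_of_pow {V : Set (HeightOneSpectrum (𝓞 K))} {a : K} {i j : ℕ} (hij : i < j)
    (h : a ^ j - a ^ i ∈ RV V) : a ∈ RV V := by
  intro v hv
  by_contra hcon
  have h1 : 1 < v.valuation K a := not_le.1 hcon
  have h2 : v.valuation K (a ^ i) < v.valuation K (a ^ j) := by
    rw [map_pow, map_pow]
    exact pow_lt_pow_right₀ h1 hij
  have h3 := h v hv
  rw [Valuation.map_sub_eq_of_lt_left _ h2, map_pow] at h3
  have h4 : 1 < v.valuation K a ^ j := one_lt_pow₀ h1 (by omega)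
  exact absurd h3 (not_le.2 h4)

/-- approximation by integers -/
theorem approx (V : Set (HeightOneSpectrum (𝓞 K))) {m : ℕ} (hm : 0 < m) {a : K} (ha : a ∈ RV V) :
    ∃ c : 𝓞 K, ∃ r ∈ RV V, a - c = m * r := by
  classical
  have hmK : (m : K) ≠ 0 := by exact_mod_cast hm.ne'
  have hmO : (m : 𝓞 K) ≠ 0 := by exact_mod_cast hm.ne'
  have hfin : {v : HeightOneSpectrum (𝓞 K) | v.asIdeal ∣ Ideal.span {(m : 𝓞 K)}}.Finite :=
    Ideal.finite_factors (by simpa using hmO)
  let s : Finset (HeightOneSpectrum (𝓞 K)) := hfin.toFinset.filter (· ∈ V)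
  have hmv : ∀ v : HeightOneSpectrum (𝓞 K), v.valuation K (m : K) ≠ 0 := fun v =>
    (Valuation.ne_zero_iff _).2 hmK
  have hch : ∀ v : s, ∃ (x : 𝓞 K) (e : ℕ), v.1.valuation K (x - a) < v.1.valuation K (m : K) ∧
      exp (-(e : ℤ)) < v.1.valuation K (m : K) := by
    rintro ⟨v, hv⟩
    have hvV : v ∈ V := (Finset.mem_filter.1 hv).2
    obtain ⟨x, hx⟩ := v.exists_valuation_sub_lt_of_integer (ha v hvV)
      (Units.mk0 (v.valuation K (m : K)) (hmv v))
    obtain ⟨e, he, -⟩ := exists_exp_neg_natCast_lt_and_lt (hmv v) (hmv v)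
    exact ⟨x, e, hx, he⟩
  choose x e hx he using hch
  obtain ⟨y, hy⟩ := IsDedekindDomain.exists_forall_sub_mem_ideal (s := s)
    (fun v : HeightOneSpectrum (𝓞 K) => v.asIdeal)
    (fun v => if h : v ∈ s then e ⟨v, h⟩ else 0) (fun v _ => v.prime)
    (fun v _ w _ hvw h => hvw (HeightOneSpectrum.ext h)) x
  refine ⟨y, (a - y) / m, fun v hv => ?_, by field_simp⟩
  rw [map_div₀]
  refine div_le_one_of_le₀ ?_ zero_le
  by_cases hvs : v ∈ s
  · have h1 := hy v hvs
    rw [dif_pos hvs, ← v.intValuation_le_pow_iff_mem, ← v.valuation_of_algebraMap (K := K)] at h1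
    have h2 : v.valuation K ((y : K) - x ⟨v, hvs⟩) < v.valuation K (m : K) := by
      have h5 : ((y - x ⟨v, hvs⟩ : 𝓞 K) : K) = (y : K) - x ⟨v, hvs⟩ := map_sub _ _ _
      rw [← h5]
      exact lt_of_le_of_lt h1 (he ⟨v, hvs⟩)
    have h3 := hx ⟨v, hvs⟩
    have e1 : a - (y : K) = -((x ⟨v, hvs⟩ : K) - a) - ((y : K) - x ⟨v, hvs⟩) := by ring
    rw [e1]
    refine (Valuation.map_sub _ _ _).trans (max_le ?_ h2.le)
    rw [Valuation.map_neg]
    exact h3.le
  · have h1 : ¬ v.asIdeal ∣ Ideal.span {(m : 𝓞 K)} := fun h => hvs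
      (Finset.mem_filter.2 ⟨hfin.mem_toFinset.2 h, hv⟩)
    have h2 : v.valuation K (m : K) = 1 := by
      have h3 : v.valuation K ((m : 𝓞 K) : K) ≤ 1 := v.valuation_le_one _
      have h4 : ¬ v.valuation K ((m : 𝓞 K) : K) < 1 := fun h => h1
        ((v.valuation_lt_one_iff_dvd (K := K) _).1 h)
      have h5 : ((m : 𝓞 K) : K) = (m : K) := by simp
      rw [h5] at h3 h4
      exact le_antisymm h3 (not_lt.1 h4)
    rw [h2]
    exact (RV V).sub_mem ha (int_mem_RV V y) v hv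

/-- finitely many residue classes -/
theorem exists_reps {m : ℕ} (hm : 0 < m) : ∃ F : Finset (𝓞 K), ∀ c : 𝓞 K, ∃ f ∈ F, ∃ t : 𝓞 K,
    c - f = m * t := by
  classical
  have hmO : (m : 𝓞 K) ≠ 0 := by exact_mod_cast hm.ne'
  have hI : Ideal.span {(m : 𝓞 K)} ≠ ⊥ := by simpa using hmO
  have hfin : Finite (𝓞 K ⧸ Ideal.span {(m : 𝓞 K)}) := Ideal.finiteQuotientOfFreeOfNeBot _ hI
  have := Fintype.ofFinite (𝓞 K ⧸ Ideal.span {(m : 𝓞 K)})
  refine ⟨Finset.univ.image (fun q : 𝓞 K ⧸ Ideal.span {(m : 𝓞 K)} => Quotient.out q), fun c => ?_⟩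
  refine ⟨Quotient.out (Ideal.Quotient.mk (Ideal.span {(m : 𝓞 K)}) c),
    Finset.mem_image_of_mem _ (Finset.mem_univ _), ?_⟩
  have h1 : Ideal.Quotient.mk (Ideal.span {(m : 𝓞 K)}) c =
      Ideal.Quotient.mk _ (Quotient.out (Ideal.Quotient.mk (Ideal.span {(m : 𝓞 K)}) c)) :=
    (Quotient.out_eq _).symm
  rw [Ideal.Quotient.eq, Ideal.mem_span_singleton] at h1
  exact h1

/-- a number field contains a nonsquare -/
theorem exists_nonsquare (K : Type) [Field K] [NumberField K] : ∃ c : K, ∀ x, x ^ 2 ≠ c := by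
  obtain ⟨v⟩ : Nonempty (HeightOneSpectrum (𝓞 K)) := by
    obtain ⟨M, hM⟩ := Ideal.exists_maximal (𝓞 K)
    exact ⟨⟨M, hM.isPrime, Ring.ne_bot_of_isMaximal_of_not_isField hM
      (RingOfIntegers.not_isField K)⟩⟩
  obtain ⟨π, hπ⟩ := v.valuation_exists_uniformizer K
  refine ⟨π, fun x hx => ?_⟩
  have hx0 : x ≠ 0 := by
    rintro rfl
    rw [← hx, zero_pow two_ne_zero, map_zero] at hπ
    exact exp_ne_zero hπ.symm
  have h1 : v.valuation K x ^ 2 = exp (-1 : ℤ) := by
    rw [← map_pow, hx, hπ]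
  have h2 : v.valuation K x ≠ 0 := (Valuation.ne_zero_iff _).2 hx0
  have h3 := congrArg WithZero.log h1
  rw [WithZero.log_pow, WithZero.log_exp] at h3
  simp at h3
  omega

end Pool.Agent.Q212.PR
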