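import Pool.Agent.Q212.PR2

/-!
# From a commensurable existential set to the ring itself
-/

set_option autoImplicit false

namespace Pool.Agent.Q212.PR

open NumberField IsDedekindDomain WithZero MvPolynomial

/-! ### More closure properties of existential relations -/

section

variable {K : Type} [Field K] {ι : Type} {P P' : (ι → K) → Prop}

theorem EX.ne (p : MvPolynomial ι K) : EX (fun v => eval v p ≠ 0) := by
  refine ⟨Unit, inferInstance, rename Sum.inl p * X (Sum.inr ()) - 1, fun v => ?_⟩
  have h : ∀ u : Unit → K, eval (Sum.elim v u) (rename Sum.inl p * X (Sum.inr ()) - 1) =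
      eval v p * u () - 1 := fun u => by
    rw [map_sub, map_mul, map_one, eval_rename, Sum.elim_comp_inl, eval_X, Sum.elim_inr]
  constructor
  · intro h1
    exact ⟨fun _ => (eval v p)⁻¹, by rw [h, mul_inv_cancel₀ h1, sub_self]⟩
  · rintro ⟨u, hu⟩ h0
    rw [h, h0] at hu
    simp at hu

theorem EX.false : EX (fun _ : ι → K => False) := (EX.eq (1 : MvPolynomial ι K)).congr fun v => by
  simp

theorem EX.ex {α : Type} [Finite α] {Q : α → (ι → K) → Prop} (h : ∀ a, EX (Q a)) :
    EX (fun v => ∃ a, Q a v) := by
  classical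
  have := Fintype.ofFinite α
  have key : ∀ s : Finset α, EX (fun v => ∃ a ∈ s, Q a v) := by
    intro s
    induction s using Finset.induction_on with
    | empty => exact EX.false.congr fun v => by simp
    | insert a s _ ih =>
      exact ((h a).or ih).congr fun v => by simp
  exact (key Finset.univ).congr fun v => by simp

end

/-! ### Weil restriction -/

section

variable {K L : Type} [Field K] [Field L] [Algebra K L] {ι : Type}

theorem weil_poly {d : ℕ} (e : Module.Basis (Fin d) K L) {τ : Type}
    (p : MvPolynomial (ι ⊕ τ) L) : ∃ q : Fin d → MvPolynomial (ι ⊕ τ × Fin d) K,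
      ∀ (v : ι → K) (u : τ × Fin d → K),
        eval (Sum.elim (fun i => algebraMap K L (v i)) fun t => ∑ i, u (t, i) • e i) p =
          ∑ i, eval (Sum.elim v u) (q i) • e i := by
  classical
  induction p using MvPolynomial.induction_on with
  | C a =>
    refine ⟨fun i => C (e.repr a i), fun v u => ?_⟩
    simp only [eval_C]
    exact (e.sum_repr a).symm
  | add p p' hp hp' =>
    obtain ⟨q, hq⟩ := hp
    obtain ⟨q', hq'⟩ := hp'
    refine ⟨fun i => q i + q' i, fun v u => ?_⟩
    rw [map_add, hq, hq', ← Finset.sum_add_distrib]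
    refine Finset.sum_congr rfl fun i _ => ?_
    rw [map_add, add_smul]
  | mul_X p s hp =>
    obtain ⟨q, hq⟩ := hp
    rcases s with s | t
    · refine ⟨fun i => q i * X (Sum.inl s), fun v u => ?_⟩
      rw [map_mul, hq, eval_X, Sum.elim_inl, Finset.sum_mul]
      refine Finset.sum_congr rfl fun i _ => ?_
      rw [map_mul, eval_X, Sum.elim_inl, mul_comm, ← Algebra.smul_def, smul_smul, mul_comm]
    · refine ⟨fun l => ∑ i, ∑ j, q i * X (Sum.inr (t, j)) * C (e.repr (e i * e j) l),
        fun v u => ?_⟩
      rw [map_mul, hq, eval_X, Sum.elim_inr, Finset.sum_mul_sum]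
      have h1 : ∀ i j : Fin d, eval (Sum.elim v u) (q i) • e i * u (t, j) • e j =
          ∑ l, (eval (Sum.elim v u) (q i) * u (t, j) * e.repr (e i * e j) l) • e l := by
        intro i j
        rw [smul_mul_smul_comm]
        conv_lhs => rw [← e.sum_repr (e i * e j), Finset.smul_sum]
        refine Finset.sum_congr rfl fun l _ => ?_
        rw [smul_smul]
      simp only [h1, map_sum, map_mul, eval_X, eval_C, Sum.elim_inr, Finset.sum_smul]
      exact (Finset.sum_congr rfl fun i _ => Finset.sum_comm).trans Finset.sum_comm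

theorem EX.descend [FiniteDimensional K L] (hc : ∃ c : K, ∀ x, x ^ 2 ≠ c)
    {P : (ι → L) → Prop} (h : EX P) : EX (fun v : ι → K => P fun i => algebraMap K L (v i)) := by
  obtain ⟨τ, hτ, p, hp⟩ := h
  have e := Module.finBasis K L
  obtain ⟨q, hq⟩ := weil_poly e p
  refine (EX.exs (σ := τ × Fin (Module.finrank K L)) (P := fun v u => ∀ i,
    eval (Sum.elim v u) (q i) = 0) ?_).congr fun v => ?_
  · refine EX.all hc fun i => (EX.eq (q i)).congr fun w => ?_
    have h1 : Sum.elim (w ∘ Sum.inl) (w ∘ Sum.inr) = w := Sum.elim_comp_inl_inr w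
    rw [h1]
  · rw [hp]
    constructor
    · rintro ⟨u, hu⟩
      refine ⟨fun s => e.repr (u s.1) s.2, ?_⟩
      have h2 := hq v fun s => e.repr (u s.1) s.2
      have h3 : (fun t => ∑ i, (e.repr (u t) i) • e i) = u := funext fun t => e.sum_repr (u t)
      simp only at h2
      rw [h3, hu] at h2
      exact Fintype.linearIndependent_iff.1 e.linearIndependent _ h2.symm
    · rintro ⟨u, hu⟩
      refine ⟨_, (hq v u).trans ?_⟩
      exact Finset.sum_eq_zero fun i _ => by rw [hu i, zero_smul]

end

end Pool.Agent.Q212.PR
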