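import Pool.Agent.Q212.PR3

/-!
# The approximate definition becomes an exact one
-/

set_option autoImplicit false

namespace Pool.Agent.Q212.PR

open NumberField IsDedekindDomain WithZero MvPolynomial

variable {L : Type} [Field L] [NumberField L]

/-- the order of a positive integer is bounded over all places -/
theorem exists_bound (L : Type) [Field L] [NumberField L] {m : ℕ} (hm : 0 < m) :
    ∃ M : ℕ, ∀ v : HeightOneSpectrum (𝓞 L), exp (-(M : ℤ)) ≤ v.valuation L (m : L) := by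
  classical
  have hmK : (m : L) ≠ 0 := by exact_mod_cast hm.ne'
  have hmO : (m : 𝓞 L) ≠ 0 := by exact_mod_cast hm.ne'
  have hfin : {v : HeightOneSpectrum (𝓞 L) | v.asIdeal ∣ Ideal.span {(m : 𝓞 L)}}.Finite :=
    Ideal.finite_factors (by simpa using hmO)
  have hmv : ∀ v : HeightOneSpectrum (𝓞 L), v.valuation L (m : L) ≠ 0 := fun v =>
    (Valuation.ne_zero_iff _).2 hmK
  have hch : ∀ v : HeightOneSpectrum (𝓞 L), ∃ e : ℕ, exp (-(e : ℤ)) < v.valuation L (m : L) := by
    intro v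
    obtain ⟨e, he, -⟩ := exists_exp_neg_natCast_lt_and_lt (hmv v) (hmv v)
    exact ⟨e, he⟩
  choose e he using hch
  refine ⟨∑ v ∈ hfin.toFinset, e v, fun v => ?_⟩
  by_cases hvs : v ∈ hfin.toFinset
  · refine le_trans ?_ (he v).le
    rw [exp_le_exp, neg_le_neg_iff]
    exact_mod_cast Finset.single_le_sum (f := e) (fun _ _ => Nat.zero_le _) hvs
  · have h1 : ¬ v.asIdeal ∣ Ideal.span {(m : 𝓞 L)} := fun h => hvs (hfin.mem_toFinset.2 h)
    have h4 : ¬ v.valuation L ((m : 𝓞 L) : L) < 1 := fun h => h1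
      ((v.valuation_lt_one_iff_dvd (K := L) _).1 h)
    have h5 : ((m : 𝓞 L) : L) = (m : L) := by simp
    rw [h5] at h4
    refine le_trans ?_ (not_lt.1 h4)
    rw [← exp_zero, exp_le_exp]
    omega

/-- a difference of powers which is integral up to a bounded denominator -/
theorem mem_RV_of_pow' {V : Set (HeightOneSpectrum (𝓞 L))} {m M : ℕ}
    (hM : ∀ v : HeightOneSpectrum (𝓞 L), exp (-(M : ℤ)) ≤ v.valuation L (m : L))
    {a : L} {i j : ℕ} (hij : i < j) (hj : M < j) (h : (m : L) * (a ^ j - a ^ i) ∈ RV V) :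
    a ∈ RV V := by
  intro v hv
  by_contra hcon
  have h1 : 1 < v.valuation L a := not_le.1 hcon
  have h2 : v.valuation L (a ^ i) < v.valuation L (a ^ j) := by
    rw [map_pow, map_pow]
    exact pow_lt_pow_right₀ h1 hij
  have h3 := h v hv
  rw [map_mul, Valuation.map_sub_eq_of_lt_left _ h2, map_pow] at h3
  have h0 : v.valuation L a ≠ 0 := (zero_lt_one.trans h1).ne'
  obtain ⟨n, hn⟩ : ∃ n : ℤ, v.valuation L a = exp n := ⟨_, (exp_log h0).symm⟩
  rw [hn] at h1 h3
  rw [← exp_zero, exp_lt_exp] at h1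
  have h4 : (1 : ℤᵐ⁰) < exp (-(M : ℤ)) * exp n ^ j := by
    rw [← exp_nsmul, ← exp_add, ← exp_zero, exp_lt_exp, nsmul_eq_mul]
    have : (j : ℤ) ≤ j * n := by nlinarith
    omega
  exact absurd (h4.trans_le (mul_le_mul_left (hM v) _)) (not_lt.2 h3)

/-- the sums of `N` differences of elements of `A` -/
def DiffSum (A : Set L) (N : ℕ) : Set L :=
  {x | ∃ y z : Fin N → L, (∀ j, y j ∈ A) ∧ (∀ j, z j ∈ A) ∧ x = ∑ j, (y j - z j)}

/-- the sums of differences of elements of `δ_β` -/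
def TT (δ : (Fin 2 → L) → Prop) (k N : ℕ) (β : L) : Set L :=
  {x | ∃ y z : Fin (2 * k) × Fin N → L, (∀ j, δ ![y j, β]) ∧ (∀ j, δ ![z j, β]) ∧
    x = ∑ j, (y j - z j)}

theorem TT_mem {δ : (Fin 2 → L) → Prop} {V : Set (HeightOneSpectrum (𝓞 L))} {k N : ℕ} {β : L}
    (h2 : ∀ c : Fin (k + 1) → L, (∀ i, c i ∈ RV V) → ∃ i j, i ≠ j ∧
      c i - c j ∈ DiffSum {x | δ ![x, β]} N)
    {x : L} (hx : x ∈ RV V) : (k.factorial : L) * x ∈ TT δ k N β := by
  let D : Set L := {x | x ∈ RV V ∧ x ∈ DiffSum {x | δ ![x, β]} N}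
  have h0 : (0 : L) ∈ D := by
    obtain ⟨i, j, -, h⟩ := h2 (fun _ => 0) fun _ => (RV V).zero_mem
    rw [sub_zero] at h
    exact ⟨(RV V).zero_mem, h⟩
  have hneg : ∀ x ∈ D, -x ∈ D := by
    rintro x ⟨hx, y, z, hy, hz, rfl⟩
    refine ⟨(RV V).neg_mem hx, z, y, hz, hy, ?_⟩
    rw [← Finset.sum_neg_distrib]
    exact Finset.sum_congr rfl fun i _ => by ring
  have hk : ∀ c : Fin (k + 1) → L, (∀ i, c i ∈ RV V) → ∃ i j, i ≠ j ∧ c i - c j ∈ D := by
    intro c hc
    obtain ⟨i, j, hij, h⟩ := h2 c hc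
    exact ⟨i, j, hij, (RV V).sub_mem (hc i) (hc j), h⟩
  obtain ⟨a, ha, hxa⟩ := factorial_mem (G := RV V) (D := D) (k := k) (fun x hx => hx.1) h0 hneg hk hx
  choose _ y z hy hz he using ha
  refine ⟨fun j => y j.1 j.2, fun j => z j.1 j.2, fun j => hy _ _, fun j => hz _ _, ?_⟩
  rw [← nsmul_eq_mul, hxa, Fintype.sum_prod_type]
  exact Finset.sum_congr rfl fun j _ => he j

omit [NumberField L] in
theorem EX_TT (hc : ∃ c : L, ∀ x, x ^ 2 ≠ c) {δ : (Fin 2 → L) → Prop} (hδ : EX δ) (k N : ℕ)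
    (F : Finset (𝓞 L)) : EX (fun v : Fin 2 → L => ∃ f ∈ F, v 0 - f ∈ TT δ k N (v 1)) := by
  classical
  refine (EX.exs (σ := (Fin (2 * k) × Fin N) ⊕ (Fin (2 * k) × Fin N)) (P := fun v u =>
    (∀ j, δ ![u j, v 1]) ∧ ∏ f ∈ F, (v 0 - (f : L) - ∑ j, (u (Sum.inl j) - u (Sum.inr j))) = 0)
    ?_).congr fun v => ?_
  · refine EX.and hc (EX.all hc fun j => ?_) ?_
    · refine (hδ.comp ![X (Sum.inr j), X (Sum.inl 1)]).congr fun w => ?_
      have h1 : (fun i => eval w ((![X (Sum.inr j), X (Sum.inl 1)] :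
          Fin 2 → MvPolynomial _ L) i)) = ![w (Sum.inr j), w (Sum.inl 1)] := by
        funext i
        fin_cases i <;> simp
      rw [h1]
      rfl
    · refine (EX.eq (∏ f ∈ F, (X (Sum.inl 0) - C (f : L) -
        ∑ j, (X (Sum.inr (Sum.inl j)) - X (Sum.inr (Sum.inr j)))))).congr fun w => ?_
      simp only [map_prod, map_sub, map_sum, eval_X, eval_C, Function.comp]
  · constructor
    · rintro ⟨f, hf, y, z, hy, hz, he⟩
      refine ⟨Sum.elim y z, ?_, ?_⟩
      · rintro (j | j)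
        · exact hy j
        · exact hz j
      · refine Finset.prod_eq_zero hf ?_
        rw [he]
        simp
    · rintro ⟨u, hu, h0⟩
      obtain ⟨f, hf, he⟩ := Finset.prod_eq_zero_iff.1 h0
      exact ⟨f, hf, fun j => u (Sum.inl j), fun j => u (Sum.inr j), fun j => hu _, fun j => hu _,
        sub_eq_zero.1 he⟩

/-- The main step: an existential relation whose fibres are commensurable with the rings
is turned into a definition of the rings. -/
theorem core {δ : (Fin 2 → L) → Prop} (hδ : EX δ) (V : L → Set (HeightOneSpectrum (𝓞 L)))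
    (G : Set L) {k m n : ℕ} (hm : 0 < m)
    (h1 : ∀ β ∈ G, ∃ c : Fin k → L, ∀ x, δ ![x, β] → ∃ i, (m : L) * (x - c i) ∈ RV (V β))
    (h2 : ∀ β ∈ G, ∀ c : Fin (k + 1) → L, (∀ i, c i ∈ RV (V β)) → ∃ i j, i ≠ j ∧
      c i - c j ∈ DiffSum {x | δ ![x, β]} n) :
    ∃ P : (Fin 2 → L) → Prop, EX P ∧ ∀ β ∈ G, ∀ x, P ![x, β] ↔ x ∈ RV (V β) := by
  classical
  have hc := exists_nonsquare L
  obtain ⟨F, hF⟩ := exists_reps (K := L) (m := k.factorial) k.factorial_pos
  obtain ⟨M, hM⟩ := exists_bound L hm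
  let J := Fin (2 * k) × Fin n
  let N := Fintype.card ((J → Fin k) × (J → Fin k)) + 1
  refine ⟨fun v => ∀ l : Fin N, ∃ f ∈ F, v 0 ^ (M + 1 + (l : ℕ)) - (f : L) ∈ TT δ k n (v 1),
    EX.all hc fun l => ?_, fun β hβ x => ?_⟩
  · refine ((EX_TT hc hδ k n F).comp ![X 0 ^ (M + 1 + (l : ℕ)), X 1]).congr fun w => ?_
    simp
  · change (∀ l : Fin N, ∃ f ∈ F, x ^ (M + 1 + (l : ℕ)) - (f : L) ∈ TT δ k n β) ↔ _
    constructor
    · intro h
      obtain ⟨c, hc⟩ := h1 β hβ
      choose f hfF y z hy hz he using h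
      choose s hs using fun (l : Fin N) (j : J) => hc _ (hy l j)
      choose t ht using fun (l : Fin N) (j : J) => hc _ (hz l j)
      obtain ⟨l, l', hll, hst⟩ := Fintype.exists_ne_map_eq_of_card_lt
        (fun l : Fin N => (s l, t l)) (by simp [N])
      have hkey : ∀ l l' : Fin N, s l = s l' → t l = t l' →
          (m : L) * (x ^ (M + 1 + (l' : ℕ)) - x ^ (M + 1 + (l : ℕ))) ∈ RV (V β) := by
        intro l l' hs' ht'
        have e1 : (m : L) * (x ^ (M + 1 + (l' : ℕ)) - x ^ (M + 1 + (l : ℕ))) =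
            (((m * f l' : 𝓞 L) : L) - ((m * f l : 𝓞 L) : L)) +
            ∑ j, ((m : L) * (y l' j - c (s l' j)) - (m : L) * (z l' j - c (t l' j)) -
              ((m : L) * (y l j - c (s l j)) - (m : L) * (z l j - c (t l j)))) := by
          have e2 : ∀ l : Fin N, x ^ (M + 1 + (l : ℕ)) = (f l : L) + ∑ j, (y l j - z l j) :=
              fun l => by
            rw [← he l]
            ring
          rw [e2 l, e2 l', ← hs', ← ht']
          push_cast
          simp only [Finset.sum_sub_distrib, Finset.mul_sum, mul_sub, mul_add]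
          ring
        rw [e1]
        refine (RV (V β)).add_mem ((RV (V β)).sub_mem (int_mem_RV _ _) (int_mem_RV _ _))
          ((RV (V β)).sum_mem fun j _ => ?_)
        exact (RV (V β)).sub_mem ((RV (V β)).sub_mem (hs _ _) (ht _ _))
          ((RV (V β)).sub_mem (hs _ _) (ht _ _))
      have h3 := (Prod.ext_iff.1 hst).1
      have h4 := (Prod.ext_iff.1 hst).2
      rcases lt_or_gt_of_ne hll with hlt | hlt
      · have hlt' : (l : ℕ) < l' := hlt
        exact mem_RV_of_pow' hM (by omega) (by omega) (hkey l l' h3 h4)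
      · have hlt' : (l' : ℕ) < l := hlt
        exact mem_RV_of_pow' hM (by omega) (by omega) (hkey l' l h3.symm h4.symm)
    · intro hx l
      obtain ⟨c, r, hr, hcr⟩ := approx (V β) k.factorial_pos (pow_mem_RV hx (M + 1 + (l : ℕ)))
      obtain ⟨f, hf, t, hft⟩ := hF c
      refine ⟨f, hf, ?_⟩
      have e1 : x ^ (M + 1 + (l : ℕ)) - (f : L) = (k.factorial : L) * (r + (t : L)) := by
        have e2 : ((c - f : 𝓞 L) : L) = ((k.factorial * t : 𝓞 L) : L) := by rw [hft]
        push_cast at e2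
        linear_combination hcr + e2
      rw [e1]
      exact TT_mem (h2 β hβ) ((RV (V β)).add_mem hr (int_mem_RV _ t))

end Pool.Agent.Q212.PR
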