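import Pool.Agent.Q212.PR4

/-!
# Pole relations, restriction to a subfield, exceptional parameters, densities
-/

set_option autoImplicit false

namespace Pool.Agent.Q212.PR

open NumberField IsDedekindDomain WithZero MvPolynomial

/-- `b` has a pole at every place above a prime number of `Q` at which `a` has a pole. -/
def PoleRel (K : Type) [Field K] [NumberField K] (Q : Set ℕ) (a b : K) : Prop :=
  ∀ v : HeightOneSpectrum (𝓞 K), (∃ p : ℕ, p.Prime ∧ p ∈ Q ∧ ((p : 𝓞 K) ∈ v.asIdeal)) →
    1 < v.valuation K a → 1 < v.valuation K b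

/-- the places above `Q` at which `b` has no pole -/
def VV {K : Type} [Field K] [NumberField K] (Q : Set ℕ) (b : K) : Set (HeightOneSpectrum (𝓞 K)) :=
  {v | (∃ p : ℕ, p.Prime ∧ p ∈ Q ∧ ((p : 𝓞 K) ∈ v.asIdeal)) ∧ v.valuation K b ≤ 1}

section

variable {K L : Type} [Field K] [NumberField K] [Field L] [NumberField L] [Algebra K L]

theorem poleRel_iff {Q : Set ℕ} {a b : K} : PoleRel K Q a b ↔ a ∈ RV (VV Q b) := by
  constructor
  · intro h v hv
    by_contra hcon
    exact absurd (h v hv.1 (not_le.1 hcon)) (not_lt.2 hv.2)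
  · intro h v hv ha
    by_contra hcon
    exact absurd (h v ⟨hv, not_lt.1 hcon⟩) (not_le.2 ha)

theorem poleRel_algebraMap {Q : Set ℕ} {a b : K} :
    PoleRel L Q (algebraMap K L a) (algebraMap K L b) ↔ PoleRel K Q a b := by
  have key : ∀ (v : HeightOneSpectrum (𝓞 K)) (w : HeightOneSpectrum (𝓞 L))
      [w.asIdeal.LiesOver v.asIdeal],
      ((∃ p : ℕ, p.Prime ∧ p ∈ Q ∧ ((p : 𝓞 L) ∈ w.asIdeal)) ↔
        ∃ p : ℕ, p.Prime ∧ p ∈ Q ∧ ((p : 𝓞 K) ∈ v.asIdeal)) ∧
      ∀ x : K, 1 < w.valuation L (algebraMap K L x) ↔ 1 < v.valuation K x := by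
    intro v w hlo
    constructor
    · refine exists_congr fun p => and_congr_right fun _ => and_congr_right fun _ => ?_
      have h1 : v.asIdeal = w.asIdeal.under (𝓞 K) := hlo.over
      rw [h1, Ideal.under_def, Ideal.mem_comap, map_natCast]
    · intro x
      rw [← v.valuation_liesOver L w x]
      have h0 := Ideal.IsDedekindDomain.ramificationIdx'_ne_zero_of_liesOver w.asIdeal v.ne_bot
      exact one_lt_pow_iff h0
  constructor
  · intro h v hv ha
    obtain ⟨P, hP, hPv⟩ := v.asIdeal.exists_ideal_over_prime_of_isIntegral_of_isDomain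
      (S := 𝓞 L) (by simp)
    have hPb : P ≠ ⊥ := by
      rintro rfl
      apply v.ne_bot
      rw [← hPv]
      simp
    let w : HeightOneSpectrum (𝓞 L) := ⟨P, hP, hPb⟩
    have : w.asIdeal.LiesOver v.asIdeal := ⟨hPv.symm⟩
    obtain ⟨h1, h2⟩ := key v w
    exact (h2 b).1 (h w (h1.2 hv) ((h2 a).2 ha))
  · intro h w hw ha
    let v : HeightOneSpectrum (𝓞 K) := w.under (𝓞 K)
    have : w.asIdeal.LiesOver v.asIdeal := ⟨rfl⟩
    obtain ⟨h1, h2⟩ := key v w
    exact (h2 b).2 (h v (h1.1 hw) ((h2 a).1 ha))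

/-- the relation depends only on the poles of `b` -/
theorem poleRel_sq_add {Q : Set ℕ} {a b : K} (j : ℕ) :
    PoleRel K Q a (b ^ 2 + j) ↔ PoleRel K Q a b := by
  have key : ∀ v : HeightOneSpectrum (𝓞 K), 1 < v.valuation K (b ^ 2 + j) ↔
      1 < v.valuation K b := by
    intro v
    have hj : v.valuation K (j : K) ≤ 1 := by
      have h1 : ((j : 𝓞 K) : K) = (j : K) := by simp
      rw [← h1]
      exact v.valuation_le_one _
    constructor
    · intro h
      by_contra hcon
      refine absurd h (not_lt.2 ((Valuation.map_add _ _ _).trans (max_le ?_ hj)))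
      rw [map_pow]
      exact pow_le_one' (not_lt.1 hcon) 2
    · intro h
      have h1 : 1 < v.valuation K (b ^ 2) := by
        rw [map_pow]
        exact one_lt_pow₀ h two_ne_zero
      rw [Valuation.map_add_eq_of_lt_left _ (hj.trans_lt h1)]
      exact h1
  exact forall_congr' fun v => imp_congr_right fun _ => imp_congr_right fun _ => key v

end

/-! ### Means -/

/-- A finitely additive probability on the subsets of `G`, invariant under translation by the
elements of `G`. -/
structure IsMean {L : Type} [Field L] (G : Set L) (μ : Set L → ℝ) : Prop where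
  nonneg : ∀ S ⊆ G, 0 ≤ μ S
  add : ∀ S T, S ⊆ G → T ⊆ G → Disjoint S T → μ (S ∪ T) = μ S + μ T
  total : μ G = 1
  inv : ∀ c ∈ G, ∀ S ⊆ G, μ ((fun x => c + x) '' S) = μ S

theorem IsMean.packing {L : Type} [Field L] {G : AddSubgroup L} {μ : Set L → ℝ}
    (h : IsMean (G : Set L) μ) {A : Set L} (hA : A ⊆ G) {k : ℕ} (hk : 1 < (k + 1) * μ A)
    (c : Fin (k + 1) → L) (hc : ∀ i, c i ∈ G) : ∃ i j, i ≠ j ∧ ∃ y ∈ A, ∃ z ∈ A,
      c i - c j = y - z := by
  classical
  by_contra hcon
  push Not at hcon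
  have h0 : μ ∅ = 0 := by
    have := h.add ∅ ∅ (Set.empty_subset _) (Set.empty_subset _) (Set.disjoint_empty _)
    rw [Set.union_empty] at this
    linarith
  have hsub : ∀ i, (fun x => c i + x) '' A ⊆ (G : Set L) := by
    rintro i _ ⟨x, hx, rfl⟩
    exact G.add_mem (hc i) (hA hx)
  have key : ∀ s : Finset (Fin (k + 1)), μ (⋃ i ∈ s, (fun x => c i + x) '' A) = s.card * μ A := by
    intro s
    induction s using Finset.induction_on with
    | empty => simp [h0]
    | insert a s ha ih =>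
      rw [Finset.set_biUnion_insert, h.add _ _ (hsub a) (Set.iUnion₂_subset fun i _ => hsub i) ?_,
        ih, h.inv _ (hc a) _ hA, Finset.card_insert_of_notMem ha]
      · push_cast
        ring
      · rw [Set.disjoint_iUnion₂_right]
        intro i hi
        rw [Set.disjoint_left]
        rintro _ ⟨y, hy, rfl⟩ ⟨z, hz, hyz⟩
        refine hcon a i (fun hai => ha (hai ▸ hi)) z hz y hy ?_
        simp only at hyz
        linear_combination -hyz
  have h1 := key Finset.univ
  rw [Finset.card_univ, Fintype.card_fin] at h1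
  have h2 : μ (⋃ i ∈ (Finset.univ : Finset (Fin (k + 1))), (fun x => c i + x) '' A) ≤ 1 := by
    rw [← h.total]
    set U := ⋃ i ∈ (Finset.univ : Finset (Fin (k + 1))), (fun x => c i + x) '' A
    have hU : U ⊆ (G : Set L) := Set.iUnion₂_subset fun i _ => hsub i
    have h3 := h.add U ((G : Set L) \ U) hU Set.sdiff_subset Set.disjoint_sdiff_right
    rw [Set.union_sdiff_cancel hU] at h3
    linarith [h.nonneg _ (Set.sdiff_subset (s := (G : Set L)) (t := U))]
  rw [h1] at h2
  push_cast at h2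
  linarith

/-! ### The theorem -/

/-- the fibre at `b` of the relation `∃ z, g (x, b, z) = 0` -/
def Fib {L : Type} [Field L] {n : ℕ} (g : MvPolynomial (Fin 2 ⊕ Fin n) L) (b : L) : Set L :=
  {x | ∃ z : Fin n → L, eval (Sum.elim ![x, b] z) g = 0}

/-- the relation is existentially definable, in the form of the frozen statement -/
def ExDef {K : Type} [Field K] (R : K → K → Prop) : Prop :=
  ∃ (n : ℕ) (f : MvPolynomial (Fin 2 ⊕ Fin n) K), ∀ a b : K,
    (∃ z : Fin n → K, eval (Sum.elim ![a, b] z) f = 0) ↔ R a b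

theorem main {K L : Type} [Field K] [NumberField K] [Field L] [NumberField L] [Algebra K L]
    (Q : Set ℕ) {E : Set K} (hE : E.Finite) {k m N n : ℕ} (hm : 0 < m)
    (g : MvPolynomial (Fin 2 ⊕ Fin n) L)
    (h1 : ∀ b ∉ E, ∃ c : Fin k → L, ∀ x ∈ Fib g (algebraMap K L b),
      ∃ i, PoleRel L Q (m * (x - c i)) (algebraMap K L b))
    (h2 : ∀ b ∉ E, ∀ c : Fin (k + 1) → L, (∀ i, PoleRel L Q (c i) (algebraMap K L b)) →
      ∃ i j, i ≠ j ∧ c i - c j ∈ DiffSum (Fib g (algebraMap K L b)) N) :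
    ExDef (PoleRel K Q) := by
  classical
  have hc := exists_nonsquare K
  obtain ⟨P, hP, hPG⟩ := core (δ := fun v : Fin 2 → L => v 0 ∈ Fib g (v 1))
    ⟨Fin n, inferInstance, g, fun v => by
      change (∃ z : Fin n → L, _) ↔ _
      have : (![v 0, v 1] : Fin 2 → L) = v := by
        funext i
        fin_cases i <;> rfl
      rw [this]⟩
    (VV Q) (algebraMap K L '' Eᶜ) (k := k) (m := m) (n := N) hm
    (by
      rintro _ ⟨b, hb, rfl⟩
      obtain ⟨c, hc⟩ := h1 b hb
      refine ⟨c, fun x hx => ?_⟩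
      obtain ⟨i, hi⟩ := hc x hx
      exact ⟨i, poleRel_iff.1 hi⟩)
    (by
      rintro _ ⟨b, hb, rfl⟩ c hc
      exact h2 b hb c fun i => poleRel_iff.2 (hc i))
  -- restriction to `K`
  have hPK := EX.descend hc hP
  have hEX : EX (fun v : Fin 2 → K => ∃ j : Fin (hE.toFinset.card + 1),
      (v 1 ^ 2 + ((j : ℕ) : K) ∉ E) ∧
      P fun i => algebraMap K L ((![v 0, v 1 ^ 2 + ((j : ℕ) : K)] : Fin 2 → K) i)) := by
    refine EX.ex fun j => EX.and hc ?_ ?_
    · refine (EX.ne (∏ e ∈ hE.toFinset, (X 1 ^ 2 + C ((j : ℕ) : K) - C e))).congr fun v => ?_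
      rw [map_prod, Finset.prod_ne_zero_iff]
      simp only [map_sub, map_add, map_pow, eval_X, eval_C, Set.Finite.mem_toFinset, sub_ne_zero]
      constructor
      · rintro h e he rfl
        exact h he
      · intro h he
        exact h _ he rfl
    · refine (hPK.comp ![X 0, X 1 ^ 2 + C ((j : ℕ) : K)]).congr fun v => ?_
      have h3 : (fun i => eval v ((![X 0, X 1 ^ 2 + C ((j : ℕ) : K)] :
          Fin 2 → MvPolynomial (Fin 2) K) i)) = ![v 0, v 1 ^ 2 + ((j : ℕ) : K)] := by
        funext i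
        fin_cases i <;> simp
      rw [← h3]
  obtain ⟨n', f, hf⟩ := EX.final hEX
  refine ⟨n', f, fun a b => (hf ![a, b]).symm.trans ?_⟩
  have key : ∀ j : ℕ, (b ^ 2 + (j : K) ∉ E) →
      ((P fun i => algebraMap K L ((![a, b ^ 2 + (j : K)] : Fin 2 → K) i)) ↔
        PoleRel K Q a b) := by
    intro j hj
    have h3 : (fun i => algebraMap K L ((![a, b ^ 2 + (j : K)] : Fin 2 → K) i)) =
        ![algebraMap K L a, algebraMap K L (b ^ 2 + (j : K))] := by
      funext i
      fin_cases i <;> rfl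
    rw [h3, hPG _ ⟨_, hj, rfl⟩, ← poleRel_iff, poleRel_algebraMap, poleRel_sq_add]
  constructor
  · rintro ⟨j, hj, hPj⟩
    exact (key j hj).1 hPj
  · intro hab
    obtain ⟨j, hj⟩ : ∃ j : Fin (hE.toFinset.card + 1), b ^ 2 + ((j : ℕ) : K) ∉ E := by
      by_contra hcon
      push Not at hcon
      have h4 : Function.Injective (fun j : Fin (hE.toFinset.card + 1) =>
          b ^ 2 + ((j : ℕ) : K)) := by
        intro i j hij
        have h5 : ((i : ℕ) : K) = ((j : ℕ) : K) := add_left_cancel hij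
        exact Fin.ext (Nat.cast_injective h5)
      have h6 := Finset.card_le_card_of_injOn (s := Finset.univ) (t := hE.toFinset)
        (fun j : Fin (hE.toFinset.card + 1) => b ^ 2 + ((j : ℕ) : K))
        (fun j _ => by simpa using hcon j) h4.injOn
      rw [Finset.card_univ, Fintype.card_fin] at h6
      omega
    exact ⟨j, hj, (key j hj).2 hab⟩

theorem main_density {K L : Type} [Field K] [NumberField K] [Field L] [NumberField L]
    [Algebra K L] (Q : Set ℕ) {E : Set K} (hE : E.Finite) {k m n : ℕ} (hm : 0 < m)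
    (g : MvPolynomial (Fin 2 ⊕ Fin n) L)
    (h1 : ∀ b ∉ E, ∃ c : Fin k → L, ∀ x ∈ Fib g (algebraMap K L b),
      ∃ i, PoleRel L Q (m * (x - c i)) (algebraMap K L b))
    (h2 : ∀ b ∉ E, ∃ μ, IsMean {x : L | PoleRel L Q x (algebraMap K L b)} μ ∧
      1 < (k + 1) * μ (Fib g (algebraMap K L b) ∩ {x : L | PoleRel L Q x (algebraMap K L b)})) :
    ExDef (PoleRel K Q) := by
  refine main Q hE (N := 1) hm g h1 fun b hb c hc => ?_
  obtain ⟨μ, hμ, hk⟩ := h2 b hb
  have e : {x : L | PoleRel L Q x (algebraMap K L b)} =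
      (RV (VV Q (algebraMap K L b)) : Set L) := by
    ext x
    exact poleRel_iff
  rw [e] at hμ hk
  obtain ⟨i, j, hij, y, hy, z, hz, hyz⟩ := hμ.packing Set.inter_subset_right hk c fun i =>
    poleRel_iff.1 (hc i)
  exact ⟨i, j, hij, fun _ => y, fun _ => z, fun _ => hy.1, fun _ => hz.1, by simp [hyz]⟩

end Pool.Agent.Q212.PR
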