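import Mathlib
import Pool.Agent.Q212.RK

/-!
# The Rudin-Frolík order and additivity of the rank
-/

open Set Filter

namespace Pool.Agent.Q212.RF

open Pool.Agent.Q212.RK (fix_mem eq_pure_of_mem)

/-- The subset `D` of a space is discrete: each of its points is isolated in `D`. -/
def IsDiscreteSet (D : Set (Ultrafilter ℕ)) : Prop :=
  ∀ x ∈ D, ∃ U : Set (Ultrafilter ℕ), IsOpen U ∧ U ∩ D = {x}

/-- The Rudin-Frolík preorder. The ultrafilter `u.bind f` is the value at `u` of the continuous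
extension of `f` (a set `A` belongs to it iff `{i | A ∈ f i} ∈ u`). -/
def RFLE (u v : Ultrafilter ℕ) : Prop :=
  ∃ f : ℕ → Ultrafilter ℕ, Function.Injective f ∧ IsDiscreteSet (range f) ∧ v = u.bind f

/-- The strict Rudin-Frolík order. -/
def RFLT (u v : Ultrafilter ℕ) : Prop := RFLE u v ∧ ¬ RFLE v u

theorem mem_bind (u : Ultrafilter ℕ) (f : ℕ → Ultrafilter ℕ) (A : Set ℕ) :
    A ∈ u.bind f ↔ {i | A ∈ f i} ∈ u := Iff.rfl

theorem bind_assoc (u : Ultrafilter ℕ) (f g : ℕ → Ultrafilter ℕ) :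
    (u.bind f).bind g = u.bind (fun i => (f i).bind g) := Ultrafilter.ext fun _ => Iff.rfl

theorem map_bind (u : Ultrafilter ℕ) (f : ℕ → Ultrafilter ℕ) (c : ℕ → ℕ) :
    (u.bind f).map c = u.bind (fun i => (f i).map c) := Ultrafilter.ext fun _ => Iff.rfl

theorem bind_map (u : Ultrafilter ℕ) (f : ℕ → Ultrafilter ℕ) (c : ℕ → ℕ) :
    (u.map c).bind f = u.bind (fun i => f (c i)) := Ultrafilter.ext fun _ => Iff.rfl

theorem bind_pure (u : Ultrafilter ℕ) (c : ℕ → ℕ) : u.bind (fun i => pure (c i)) = u.map c :=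
  Ultrafilter.ext fun _ => Iff.rfl

theorem bind_congr {u : Ultrafilter ℕ} {f g : ℕ → Ultrafilter ℕ} (h : {i | f i = g i} ∈ u) :
    u.bind f = u.bind g := by
  refine Ultrafilter.ext fun A => ?_
  rw [mem_bind, mem_bind]
  constructor
  · intro hA
    filter_upwards [hA, h] with i h1 h2
    rwa [← show f i = g i from h2]
  · intro hA
    filter_upwards [hA, h] with i h1 h2
    rwa [show f i = g i from h2]

/-- `q` is the limit of `f` along `u` and almost every `f i` is concentrated on `{c = i}`. -/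
def Rep (u : Ultrafilter ℕ) (f : ℕ → Ultrafilter ℕ) (c : ℕ → ℕ) (q : Ultrafilter ℕ) : Prop :=
  q = u.bind f ∧ {i | {p | c p = i} ∈ f i} ∈ u

theorem exists_sep {f : ℕ → Ultrafilter ℕ} (h1 : Function.Injective f)
    (h2 : IsDiscreteSet (range f)) : ∃ c : ℕ → ℕ, ∀ i, {p | c p = i} ∈ f i := by
  classical
  have h3 : ∀ i, ∃ A : Set ℕ, A ∈ f i ∧ ∀ j, j ≠ i → A ∉ f j := by
    intro i
    obtain ⟨U, hU, hUi⟩ := h2 (f i) ⟨i, rfl⟩
    have h4 : f i ∈ U := by
      have : f i ∈ U ∩ range f := by rw [hUi]; exact mem_singleton _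
      exact this.1
    obtain ⟨_, ⟨A, rfl⟩, hA1, hA2⟩ := (ultrafilterBasis_is_basis).exists_subset_of_mem_open h4 hU
    refine ⟨A, hA1, fun j hj hA => hj ?_⟩
    have h5 : f j ∈ U ∩ range f := ⟨hA2 hA, j, rfl⟩
    rw [hUi] at h5
    exact h1 h5
  choose A hA1 hA2 using h3
  let B : ℕ → Set ℕ := fun i => A i \ ⋃ j ∈ Iio i, A j
  have hB : ∀ i, B i ∈ f i := by
    intro i
    refine Filter.inter_mem (hA1 i) (Ultrafilter.compl_mem_iff_notMem.mpr fun h => ?_)
    obtain ⟨j, hj1, hj2⟩ := (Ultrafilter.finite_biUnion_mem_iff (finite_Iio i)).mp h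
    exact hA2 j i (ne_of_gt hj1) hj2
  have hBd : ∀ i j p, p ∈ B i → p ∈ B j → i = j := by
    intro i j p h1 h2
    by_contra hij
    rcases lt_or_gt_of_ne hij with h | h
    · exact h2.2 (mem_iUnion₂.mpr ⟨i, h, h1.1⟩)
    · exact h1.2 (mem_iUnion₂.mpr ⟨j, h, h2.1⟩)
  refine ⟨fun p => if h : ∃ i, p ∈ B i then h.choose else 0, fun i => ?_⟩
  filter_upwards [hB i] with p hp
  have h : ∃ i, p ∈ B i := ⟨i, hp⟩
  simp only [dif_pos h]
  exact hBd _ _ p h.choose_spec hp

theorem of_sep {f : ℕ → Ultrafilter ℕ} {c : ℕ → ℕ} (h : ∀ i, {p | c p = i} ∈ f i) :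
    Function.Injective f ∧ IsDiscreteSet (range f) := by
  have key : ∀ i j, {p | c p = i} ∈ f j → j = i := by
    intro i j hij
    obtain ⟨p, hp1, hp2⟩ := Ultrafilter.nonempty_of_mem (Filter.inter_mem hij (h j))
    exact (show c p = j from hp2).symm.trans hp1
  constructor
  · intro i j hij
    exact key j i (hij ▸ h j)
  · rintro _ ⟨i, rfl⟩
    refine ⟨{w | {p | c p = i} ∈ w}, ultrafilter_isOpen_basic _, ?_⟩
    ext w
    constructor
    · rintro ⟨hw, ⟨j, rfl⟩⟩
      rw [key i j hw]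
      exact mem_singleton _
    · intro hw
      rw [mem_singleton_iff] at hw
      subst hw
      exact ⟨h i, i, rfl⟩

theorem exists_infinite_compl (q : Ultrafilter ℕ) : ∃ E ∈ q, Eᶜ.Infinite := by
  have he : {n : ℕ | Even n}.Infinite := by
    refine infinite_of_injective_forall_mem (f := fun n : ℕ => 2 * n) ?_ ?_
    · intro a b hab
      simpa using hab
    · intro n
      exact ⟨n, by ring⟩
  have ho : {n : ℕ | Even n}ᶜ.Infinite := by
    refine infinite_of_injective_forall_mem (f := fun n : ℕ => 2 * n + 1) ?_ ?_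
    · intro a b hab
      simpa using hab
    · intro n
      simp
  by_cases h : {n : ℕ | Even n} ∈ q
  · exact ⟨_, h, ho⟩
  · refine ⟨_, Ultrafilter.compl_mem_iff_notMem.mpr h, ?_⟩
    rw [compl_compl]
    exact he

/-- A representation can be modified on a null set so as to become a representation in the
sense of the definition of the Rudin-Frolík order, with the new values isomorphic to `p`. -/
theorem modify {u q : Ultrafilter ℕ} {f : ℕ → Ultrafilter ℕ} {c : ℕ → ℕ} (h : Rep u f c q)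
    (p : Ultrafilter ℕ) {B : Set ℕ} (hB : B ∈ u) :
    ∃ f' : ℕ → Ultrafilter ℕ, Function.Injective f' ∧ IsDiscreteSet (range f') ∧
      q = u.bind f' ∧ ∀ i, (i ∈ B ∧ f' i = f i) ∨
        ∃ e : ℕ → ℕ, Function.Injective e ∧ f' i = p.map e := by
  classical
  obtain ⟨hq, hs⟩ := h
  obtain ⟨E, hE, hEc⟩ := exists_infinite_compl q
  rw [hq, mem_bind] at hE
  let r : ℕ → ℕ := fun n => (hEc.natEmbedding _ n : ℕ)
  have hr : Function.Injective r := fun a b hab =>
    (hEc.natEmbedding _).injective (Subtype.ext hab)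
  have hrE : ∀ n, r n ∉ E := fun n => (hEc.natEmbedding _ n).2
  let B' : Set ℕ := B ∩ ({i | {p | c p = i} ∈ f i} ∩ {i | E ∈ f i})
  have hB' : B' ∈ u := Filter.inter_mem hB (Filter.inter_mem hs hE)
  let f' : ℕ → Ultrafilter ℕ := fun i =>
    if i ∈ B' then f i else p.map (fun j => r (Nat.pair i j))
  let c' : ℕ → ℕ := fun x => if x ∈ E then c x else (Function.invFun r x).unpair.1
  have hsep : ∀ i, {x | c' x = i} ∈ f' i := by
    intro i
    by_cases hi : i ∈ B'
    · simp only [f', if_pos hi]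
      filter_upwards [hi.2.1, hi.2.2] with x hx1 hx2
      simp only [c', if_pos hx2]
      exact hx1
    · simp only [f', if_neg hi]
      rw [Ultrafilter.mem_map]
      refine Filter.mem_of_superset Filter.univ_mem fun j _ => ?_
      simp only [c', mem_preimage, Set.mem_ofPred_eq, if_neg (hrE _)]
      rw [Function.leftInverse_invFun hr, Nat.unpair_pair]
  have h1 := of_sep hsep
  refine ⟨f', h1.1, h1.2, ?_, fun i => ?_⟩
  · rw [hq]
    refine bind_congr (Filter.mem_of_superset hB' fun i hi => ?_)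
    simp only [f', Set.mem_ofPred_eq, if_pos hi]
  · by_cases hi : i ∈ B'
    · left
      simp only [f', if_pos hi]
      exact ⟨hi.1, trivial⟩
    · right
      refine ⟨fun j => r (Nat.pair i j), ?_, by simp only [f', if_neg hi]⟩
      intro a b hab
      have h2 := hr hab
      have h3 := congrArg (fun n => (Nat.unpair n).2) h2
      simpa using h3

theorem Rep.le {u q : Ultrafilter ℕ} {f : ℕ → Ultrafilter ℕ} {c : ℕ → ℕ} (h : Rep u f c q) :
    RFLE u q := by
  obtain ⟨f', h1, h2, h3, _⟩ := modify h (pure 0) (B := Set.univ) Filter.univ_mem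
  exact ⟨f', h1, h2, h3⟩

theorem RFLE.rep {u q : Ultrafilter ℕ} (h : RFLE u q) : ∃ f c, Rep u f c q := by
  obtain ⟨f, h1, h2, h3⟩ := h
  obtain ⟨c, hc⟩ := exists_sep h1 h2
  exact ⟨f, c, h3, Filter.mem_of_superset Filter.univ_mem fun i _ => hc i⟩

theorem rfle_iff {u q : Ultrafilter ℕ} : RFLE u q ↔ ∃ f c, Rep u f c q :=
  ⟨RFLE.rep, fun ⟨_, _, h⟩ => h.le⟩

theorem Rep.map_eq {u q : Ultrafilter ℕ} {f : ℕ → Ultrafilter ℕ} {c : ℕ → ℕ} (h : Rep u f c q) :
    u = q.map c := by
  obtain ⟨rfl, hs⟩ := h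
  refine Ultrafilter.ext fun A => ?_
  rw [Ultrafilter.mem_map, mem_bind]
  constructor
  · intro hA
    filter_upwards [hA, hs] with i h1 h2
    filter_upwards [h2] with p hp
    change c p ∈ A
    rw [show c p = i from hp]
    exact h1
  · intro hA
    filter_upwards [hA, hs] with i h1 h2
    obtain ⟨p, hp1, hp2⟩ := Ultrafilter.nonempty_of_mem (Filter.inter_mem h1 h2)
    rw [← show c p = i from hp2]
    exact hp1

theorem Rep.trans {u q r : Ultrafilter ℕ} {f g : ℕ → Ultrafilter ℕ} {c d : ℕ → ℕ}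
    (h1 : Rep u f c q) (h2 : Rep q g d r) :
    Rep u (fun i => (f i).bind g) (fun p => c (d p)) r := by
  obtain ⟨rfl, hs1⟩ := h1
  obtain ⟨rfl, hs2⟩ := h2
  refine ⟨bind_assoc _ _ _, ?_⟩
  rw [mem_bind] at hs2
  filter_upwards [hs1, hs2] with i h1 h2
  rw [mem_bind]
  filter_upwards [h1, h2] with p h3 h4
  filter_upwards [h4] with x hx
  change c (d x) = i
  rw [show d x = p from hx]
  exact h3

theorem RFLE.trans {u v w : Ultrafilter ℕ} (h1 : RFLE u v) (h2 : RFLE v w) : RFLE u w := by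
  obtain ⟨f, c, h1⟩ := h1.rep
  obtain ⟨g, d, h2⟩ := h2.rep
  exact (h1.trans h2).le

theorem RFLE.refl (u : Ultrafilter ℕ) : RFLE u u :=
  Rep.le (f := fun i => pure i) (c := id) ⟨Ultrafilter.ext fun _ => Iff.rfl,
    Filter.mem_of_superset Filter.univ_mem fun _ _ => rfl⟩

theorem RFLT.trans_le {u v w : Ultrafilter ℕ} (h1 : RFLT u v) (h2 : RFLE v w) : RFLT u w :=
  ⟨h1.1.trans h2, fun h => h1.2 (h2.trans h)⟩

theorem RFLE.trans_lt {u v w : Ultrafilter ℕ} (h1 : RFLE u v) (h2 : RFLT v w) : RFLT u w :=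
  ⟨h1.trans h2.1, fun h => h2.2 (h.trans h1)⟩

/-- **Strictness.** -/
theorem Rep.not_le_iff {u q : Ultrafilter ℕ} {f : ℕ → Ultrafilter ℕ} {c : ℕ → ℕ}
    (h : Rep u f c q) : RFLE q u ↔ {i | ∃ m, f i = pure m} ∈ u := by
  classical
  constructor
  · intro hle
    obtain ⟨g, d, hg⟩ := hle.rep
    have h1 := hg.map_eq
    -- `q = u.map d`, `u = q.map c`
    have h2 := h.map_eq
    have h3 : {p | d (c p) = p} ∈ q := by
      refine fix_mem q (fun p => d (c p)) ?_
      have h4 : q.map (fun p => d (c p)) = (q.map c).map d := by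
        rw [Ultrafilter.map_map]
        rfl
      rw [h4, ← h2, ← h1]
    obtain ⟨hq, hs⟩ := h
    rw [hq, mem_bind] at h3
    filter_upwards [h3, hs] with i hi1 hi2
    refine ⟨d i, eq_pure_of_mem ?_⟩
    filter_upwards [hi1, hi2] with p hp1 hp2
    rw [mem_singleton_iff, ← show c p = i from hp2]
    exact (show d (c p) = p from hp1).symm
  · intro hP
    let m : ℕ → ℕ := fun i => if h : ∃ m, f i = pure m then h.choose else 0
    have hm : ∀ i, (∃ m, f i = pure m) → f i = pure (m i) := by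
      intro i hi
      simp only [m, dif_pos hi]
      exact hi.choose_spec
    obtain ⟨hq, hs⟩ := h
    have h1 : q = u.map m := by
      rw [hq, ← bind_pure]
      refine bind_congr ?_
      filter_upwards [hP] with i hi
      exact hm i hi
    have h2 : {i | c (m i) = i} ∈ u := by
      filter_upwards [hP, hs] with i hi1 hi2
      rw [hm i hi1, Ultrafilter.mem_pure] at hi2
      exact hi2
    refine Rep.le (f := fun p => pure (c p)) (c := m) ⟨?_, ?_⟩
    · rw [bind_pure, h1, Ultrafilter.map_map]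
      refine Ultrafilter.ext fun A => ?_
      rw [Ultrafilter.mem_map]
      constructor
      · intro hA
        filter_upwards [hA, h2] with i hi1 hi2
        change c (m i) ∈ A
        rw [show c (m i) = i from hi2]
        exact hi1
      · intro hA
        filter_upwards [hA, h2] with i hi1 hi2
        have h3 : c (m i) ∈ A := hi1
        rwa [show c (m i) = i from hi2] at h3
    · rw [h1, Ultrafilter.mem_map]
      filter_upwards [h2] with i hi
      change m (c (m i)) = m i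
      rw [show c (m i) = i from hi]

/-- **Comparison** (Z. Frolík, M. E. Rudin). -/
theorem compare {u v q : Ultrafilter ℕ} {f g : ℕ → Ultrafilter ℕ} {c d : ℕ → ℕ}
    (h1 : Rep u f c q) (h2 : Rep v g d q) :
    (∃ h : ℕ → ℕ, {p | d p = h (c p)} ∈ q) ∨ (∃ h : ℕ → ℕ, {p | c p = h (d p)} ∈ q) := by
  classical
  have key : ∀ {u v q : Ultrafilter ℕ} {f g : ℕ → Ultrafilter ℕ} {c d : ℕ → ℕ},
      Rep u f c q → Rep v g d q → (∃ h : ℕ → ℕ, {p | d p = h (c p)} ∈ q) ∨
        {p | c p < d p} ∈ q := by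
    intro u v q f g c d h1 h2
    by_cases hP : {i | ∃ m, {p | d p = m} ∈ f i} ∈ u
    · left
      refine ⟨fun i => if h : ∃ m, {p | d p = m} ∈ f i then h.choose else 0, ?_⟩
      rw [h1.1, mem_bind]
      filter_upwards [hP, h1.2] with i hi1 hi2
      filter_upwards [hi1.choose_spec, hi2] with p hp1 hp2
      have e1 : c p = i := hp2
      change d p = if h : ∃ m, {p | d p = m} ∈ f (c p) then h.choose else 0
      subst e1
      rw [dif_pos hi1]
      exact hp1
    · right
      rw [h1.1, mem_bind]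
      filter_upwards [Ultrafilter.compl_mem_iff_notMem.mpr hP, h1.2] with i hi1 hi2
      have h3 : {p | i < d p} ∈ f i := by
        by_contra hcon
        have h4 := Ultrafilter.compl_mem_iff_notMem.mpr hcon
        have h5 : (⋃ m ∈ Iic i, {p | d p = m}) ∈ f i := by
          refine Filter.mem_of_superset h4 fun p hp => ?_
          exact mem_iUnion₂.mpr ⟨d p, not_lt.mp (show ¬ i < d p from hp), rfl⟩
        obtain ⟨m, _, hm⟩ := (Ultrafilter.finite_biUnion_mem_iff (finite_Iic i)).mp h5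
        exact hi1 ⟨m, hm⟩
      filter_upwards [h3, hi2] with p hp1 hp2
      change c p < d p
      rw [show c p = i from hp2]
      exact hp1
  rcases key h1 h2 with h | h
  · exact Or.inl h
  rcases key h2 h1 with h' | h'
  · exact Or.inr h'
  exfalso
  obtain ⟨p, hp1, hp2⟩ := Ultrafilter.nonempty_of_mem (Filter.inter_mem h h')
  exact lt_asymm (show c p < d p from hp1) hp2

/-- Uniqueness of disintegrations. -/
theorem unique {v : Ultrafilter ℕ} {g g' : ℕ → Ultrafilter ℕ} {d : ℕ → ℕ}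
    (h : v.bind g = v.bind g') (h1 : {j | {p | d p = j} ∈ g j} ∈ v)
    (h2 : {j | {p | d p = j} ∈ g' j} ∈ v) : {j | g j = g' j} ∈ v := by
  classical
  by_contra hcon
  have hN := Ultrafilter.compl_mem_iff_notMem.mpr hcon
  have hsep : ∀ j, ∃ E : Set ℕ, g j ≠ g' j → E ∈ g j ∧ E ∉ g' j := by
    intro j
    by_cases hj : g j = g' j
    · exact ⟨∅, fun h => absurd hj h⟩
    · by_contra hcon2
      push Not at hcon2
      refine hj (Ultrafilter.ext fun A => ?_)
      constructor
      · intro hA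
        exact (hcon2 A).2 hA
      · intro hA
        by_contra hA2
        have h1 := Ultrafilter.compl_mem_iff_notMem.mpr hA2
        exact Ultrafilter.compl_mem_iff_notMem.mp ((hcon2 Aᶜ).2 h1) hA
  choose E hE using hsep
  have h3 : {p | p ∈ E (d p)} ∈ v.bind g := by
    rw [mem_bind]
    filter_upwards [hN, h1] with j hj1 hj2
    filter_upwards [hj2, (hE j hj1).1] with p hp1 hp2
    change p ∈ E (d p)
    rw [show d p = j from hp1]
    exact hp2
  rw [h, mem_bind] at h3
  obtain ⟨j, ⟨hj1, hj2⟩, hj3⟩ := Ultrafilter.nonempty_of_mem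
    (Filter.inter_mem (Filter.inter_mem h3 hN) h2)
  refine (hE j hj2).2 ?_
  filter_upwards [hj1, hj3] with p hp1 hp2
  have h4 : p ∈ E (d p) := hp1
  rwa [show d p = j from hp2] at h4

/-- **Refinement.** If `d = h ∘ c` on `q` then `v ≤ u ≤ q` coherently. -/
theorem refine' {u v q : Ultrafilter ℕ} {f g : ℕ → Ultrafilter ℕ} {c d h : ℕ → ℕ}
    (h1 : Rep u f c q) (h2 : Rep v g d q) (hh : {p | d p = h (c p)} ∈ q) :
    Rep v (fun j => (g j).map c) h u ∧ {j | Rep ((g j).map c) f c (g j)} ∈ v := by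
  have hu : u = v.bind (fun j => (g j).map c) := by
    rw [h1.map_eq, h2.1, map_bind]
  have hs : {j | {i | h i = j} ∈ (g j).map c} ∈ v := by
    rw [h2.1, mem_bind] at hh
    filter_upwards [hh, h2.2] with j hj1 hj2
    rw [Ultrafilter.mem_map]
    filter_upwards [hj1, hj2] with p hp1 hp2
    change h (c p) = j
    rw [← show d p = h (c p) from hp1]
    exact hp2
  refine ⟨⟨hu, hs⟩, ?_⟩
  have h3 : {i | {p | d p = h i} ∈ f i} ∈ u := by
    rw [h1.1, mem_bind] at hh
    filter_upwards [hh, h1.2] with i hi1 hi2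
    filter_upwards [hi1, hi2] with p hp1 hp2
    change d p = h i
    rw [← show c p = i from hp2]
    exact hp1
  have hbind : v.bind g = v.bind (fun j => ((g j).map c).bind f) := by
    rw [← h2.1, h1.1, ← bind_assoc, ← hu]
  have h4 := unique hbind h2.2 (by
    rw [hu, mem_bind] at h3
    filter_upwards [h3, hs] with j hj1 hj2
    rw [mem_bind]
    filter_upwards [hj1, hj2] with i hi1 hi2
    filter_upwards [hi1] with p hp
    change d p = j
    rw [show d p = h i from hp]
    exact hi2)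
  have h5 := h1.2
  rw [hu, mem_bind] at h5
  filter_upwards [h4, h5] with j hj1 hj2
  exact ⟨hj1, hj2⟩

/-! ## The rank -/

/-- `u` belongs to the well-founded part and has rank `< k`. -/
def RkLT : ℕ → Ultrafilter ℕ → Prop
  | 0, _ => False
  | k + 1, u => ∀ v, RFLT v u → RkLT k v

theorem RkLT.anti {k : ℕ} {u v : Ultrafilter ℕ} (h : RkLT k v) (huv : RFLE u v) : RkLT k u := by
  cases k with
  | zero => exact h
  | succ k => exact fun w hw => h w (hw.trans_le huv)

theorem RkLT.succ {k : ℕ} {u : Ultrafilter ℕ} (h : RkLT k u) : RkLT (k + 1) u := by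
  induction k generalizing u with
  | zero => exact h.elim
  | succ k ih => exact fun v hv => ih (h v hv)

theorem RkLT.mono {k l : ℕ} (hkl : k ≤ l) {u : Ultrafilter ℕ} (h : RkLT k u) : RkLT l u := by
  induction hkl with
  | refl => exact h
  | step _ ih => exact ih.succ

/-- `u` is principal. -/
theorem lt_of_not_principal {w : Ultrafilter ℕ} (hw : ¬ ∃ m, w = pure m) : RFLT (pure 0) w := by
  have h5 : Rep (pure 0) (fun _ => w) (fun _ => 0) w := by
    refine ⟨Ultrafilter.ext fun A => ?_, ?_⟩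
    · rw [mem_bind, Ultrafilter.mem_pure]
      rfl
    · rw [Ultrafilter.mem_pure]
      exact Filter.mem_of_superset Filter.univ_mem fun _ _ => rfl
  refine ⟨h5.le, ?_⟩
  rw [h5.not_le_iff, Ultrafilter.mem_pure]
  exact hw

/-- The upper bound. -/
theorem upper {n : ℕ} {u : Ultrafilter ℕ} (hu : RkLT (n + 1) u) (m : ℕ) :
    ∀ {f : ℕ → Ultrafilter ℕ} {c : ℕ → ℕ} {q : Ultrafilter ℕ}, Rep u f c q →
      {i | RkLT (m + 1) (f i)} ∈ u → RkLT (n + m + 1) q := by
  induction m with
  | zero =>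
    intro f c q h1 hf v hv
    -- `f i` is principal almost always
    have h4 : RFLE q u := by
      rw [h1.not_le_iff]
      filter_upwards [hf] with i hi
      by_contra hcon
      exact hi (pure 0) (lt_of_not_principal hcon)
    exact hu v (hv.trans_le h4)
  | succ m ih =>
    intro f c q h1 hf v hv
    obtain ⟨g, d, h2⟩ := hv.1.rep
    rcases compare h1 h2 with ⟨h, hh⟩ | ⟨h, hh⟩
    · exact (hu.anti (refine' h1 h2 hh).1.le).mono (by omega)
    · obtain ⟨h3, h4⟩ := refine' h2 h1 hh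
      have h5 := hv.2
      rw [h2.not_le_iff, h3.1, mem_bind] at h5
      refine ih h3 ?_
      filter_upwards [hf, h4, Ultrafilter.compl_mem_iff_notMem.mpr h5] with i hi1 hi2 hi3
      refine hi1 _ ⟨hi2.le, ?_⟩
      rw [hi2.not_le_iff]
      exact hi3

theorem not_rkLT_succ {k : ℕ} {u : Ultrafilter ℕ} (h : ¬ RkLT (k + 1) u) :
    ∃ v, RFLT v u ∧ ¬ RkLT k v := by
  by_contra hcon
  push Not at hcon
  exact h hcon

/-- An injective image is equivalent. -/
theorem map_equiv (p : Ultrafilter ℕ) {e : ℕ → ℕ} (he : Function.Injective e) :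
    RFLE p (p.map e) ∧ RFLE (p.map e) p := by
  have h1 : Rep p (fun j => pure (e j)) (Function.invFun e) (p.map e) := by
    refine ⟨(bind_pure _ _).symm, Filter.mem_of_superset Filter.univ_mem fun j _ => ?_⟩
    change Function.invFun e (e j) = j
    exact Function.leftInverse_invFun he j
  refine ⟨h1.le, ?_⟩
  rw [h1.not_le_iff]
  exact Filter.mem_of_superset Filter.univ_mem fun j _ => ⟨e j, rfl⟩

/-- The lower bound. -/
theorem lower {n : ℕ} {u : Ultrafilter ℕ} (hu : ¬ RkLT n u) (m : ℕ) :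
    ∀ {f : ℕ → Ultrafilter ℕ} {c : ℕ → ℕ} {q : Ultrafilter ℕ}, Rep u f c q →
      {i | ¬ RkLT m (f i)} ∈ u → ¬ RkLT (n + m) q := by
  classical
  induction m with
  | zero =>
    intro f c q h1 _ h
    exact hu (h.anti h1.le)
  | succ m ih =>
    intro f c q h1 hf h
    have hex : ∀ i, ∃ (v : Ultrafilter ℕ) (g : ℕ → Ultrafilter ℕ) (d : ℕ → ℕ),
        ¬ RkLT (m + 1) (f i) → ¬ RkLT m v ∧ Rep v g d (f i) ∧ {j | ∃ k, g j = pure k} ∉ v := by
      intro i
      by_cases hi : RkLT (m + 1) (f i)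
      · exact ⟨pure 0, fun _ => pure 0, id, fun h => absurd hi h⟩
      · obtain ⟨v, hv1, hv2⟩ := not_rkLT_succ hi
        obtain ⟨g, d, hg⟩ := hv1.1.rep
        refine ⟨v, g, d, fun _ => ⟨hv2, hg, ?_⟩⟩
        rw [← hg.not_le_iff]
        exact hv1.2
    choose v g d hvgd using hex
    -- the intermediate ultrafilter
    let v' : ℕ → Ultrafilter ℕ := fun i => (v i).map (Nat.pair i)
    have hv' : Rep u v' (fun p => p.unpair.1) (u.bind v') := by
      refine ⟨rfl, Filter.mem_of_superset Filter.univ_mem fun i _ => ?_⟩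
      refine Filter.mem_of_superset Filter.univ_mem fun j _ => ?_
      simp
    let G : ℕ → Ultrafilter ℕ := fun p => g p.unpair.1 p.unpair.2
    have hG : ∀ i, (v' i).bind G = (v i).bind (g i) := by
      intro i
      simp only [v', bind_map, G, Nat.unpair_pair]
    have hq : Rep (u.bind v') G (fun p => Nat.pair (c p) (d (c p) p)) q := by
      refine ⟨?_, ?_⟩
      · rw [bind_assoc, h1.1]
        refine bind_congr ?_
        filter_upwards [hf] with i hi
        rw [hG]
        exact (hvgd i hi).2.1.1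
      · rw [mem_bind]
        filter_upwards [hf, h1.2] with i hi1 hi2
        obtain ⟨_, ⟨h3, h4⟩, _⟩ := hvgd i hi1
        rw [h3, mem_bind] at hi2
        change {j | {p | Nat.pair (c p) (d (c p) p) = Nat.pair i j} ∈ G (Nat.pair i j)} ∈ v i
        filter_upwards [hi2, h4] with j hj1 hj2
        simp only [Set.mem_ofPred_eq, G, Nat.unpair_pair]
        filter_upwards [hj1, hj2] with p hp1 hp2
        change Nat.pair (c p) (d (c p) p) = Nat.pair i j
        rw [show c p = i from hp1, show d i p = j from hp2]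
    have hlt : RFLT (u.bind v') q := by
      refine ⟨hq.le, ?_⟩
      rw [hq.not_le_iff, mem_bind]
      intro hcon
      obtain ⟨i, hi1, hi2⟩ := Ultrafilter.nonempty_of_mem (Filter.inter_mem hcon hf)
      refine (hvgd i hi2).2.2 ?_
      have h5 : {j | ∃ k, G (Nat.pair i j) = pure k} ∈ v i := hi1
      filter_upwards [h5] with j hj
      simpa only [G, Nat.unpair_pair, Set.mem_ofPred_eq] using hj
    refine ih hv' ?_ (h _ hlt)
    filter_upwards [hf] with i hi hcon
    refine (hvgd i hi).1 (hcon.anti (map_equiv (v i) ?_).1)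
    intro a b hab
    have h3 := congrArg (fun n => (Nat.unpair n).2) hab
    simpa using h3

/-- Rank exactly `k`. -/
def RkEQ (k : ℕ) (u : Ultrafilter ℕ) : Prop := RkLT (k + 1) u ∧ ¬ RkLT k u

theorem RkEQ.congr {k : ℕ} {u v : Ultrafilter ℕ} (h : RkEQ k u) (h1 : RFLE u v)
    (h2 : RFLE v u) : RkEQ k v := ⟨h.1.anti h2, fun h3 => h.2 (h3.anti h1)⟩

/-- **Additivity.** -/
theorem RkEQ.add {n m : ℕ} {u q : Ultrafilter ℕ} {f : ℕ → Ultrafilter ℕ} {c : ℕ → ℕ}
    (h : Rep u f c q) (hu : RkEQ n u) (hf : {i | RkEQ m (f i)} ∈ u) : RkEQ (n + m) q :=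
  ⟨upper hu.1 m h (Filter.mem_of_superset hf fun _ hi => hi.1),
    lower hu.2 m h (Filter.mem_of_superset hf fun _ hi => hi.2)⟩

theorem RkEQ.exists_le {n m : ℕ} {q : Ultrafilter ℕ} (h : RkEQ (n + m) q) :
    ∃ u, RFLE u q ∧ RkEQ n u := by
  induction m generalizing q with
  | zero => exact ⟨q, RFLE.refl q, h⟩
  | succ m ih =>
    obtain ⟨v, hv1, hv2⟩ := not_rkLT_succ h.2
    obtain ⟨u, hu1, hu2⟩ := ih ⟨h.1 v hv1, hv2⟩
    exact ⟨u, hu1.trans hv1.1, hu2⟩

/-- **Decomposition.** -/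
theorem RkEQ.decompose {n m : ℕ} {q : Ultrafilter ℕ} (h : RkEQ (n + m) q) :
    ∃ (u : Ultrafilter ℕ) (f : ℕ → Ultrafilter ℕ), Function.Injective f ∧
      IsDiscreteSet (range f) ∧ RkEQ n u ∧ (∀ i, RkEQ m (f i)) ∧ q = u.bind f := by
  obtain ⟨u, hu1, hu2⟩ := h.exists_le
  obtain ⟨f, c, hr⟩ := hu1.rep
  have hB : {i | RkEQ m (f i)} ∈ u := by
    have h1 : {i | RkLT (m + 1) (f i)} ∈ u := by
      by_contra hcon
      exact lower hu2.2 (m + 1) hr (Ultrafilter.compl_mem_iff_notMem.mpr hcon) h.1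
    have h2 : {i | RkLT m (f i)} ∉ u := by
      intro hcon
      cases m with
      | zero =>
        obtain ⟨i, hi⟩ := Ultrafilter.nonempty_of_mem hcon
        exact hi
      | succ m => exact h.2 (upper hu2.1 m hr hcon)
    filter_upwards [h1, Ultrafilter.compl_mem_iff_notMem.mpr h2] with i hi1 hi2
    exact ⟨hi1, hi2⟩
  obtain ⟨i0, hi0⟩ := Ultrafilter.nonempty_of_mem hB
  obtain ⟨f', h1, h2, h3, h4⟩ := modify hr (f i0) hB
  refine ⟨u, f', h1, h2, hu2, fun i => ?_, h3⟩
  rcases h4 i with ⟨h5, h6⟩ | ⟨e, he, h6⟩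
  · rw [h6]
    exact h5
  · rw [h6]
    exact RkEQ.congr hi0 (map_equiv _ he).1 (map_equiv _ he).2

/-- Principal ultrafilters have rank `0`. -/
theorem rkEQ_zero_pure (k : ℕ) : RkEQ 0 (pure k) := by
  refine ⟨fun v hv => ?_, fun h => h⟩
  obtain ⟨f, c, h⟩ := hv.1.rep
  have h1 := h.map_eq
  exfalso
  apply hv.2
  rw [h.not_le_iff]
  -- `v` is principal
  have h2 : v = pure (c k) := by rw [h1]; rfl
  have h3 := h.1
  rw [h2] at h3 ⊢
  rw [Ultrafilter.mem_pure]
  refine ⟨k, ?_⟩
  rw [h3]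
  exact Ultrafilter.ext fun _ => Iff.rfl

theorem rkEQ_zero_iff (u : Ultrafilter ℕ) : RkEQ 0 u ↔ ∃ k, u = pure k := by
  constructor
  · intro h
    by_contra hcon
    exact h.1 _ (lt_of_not_principal hcon)
  · rintro ⟨k, rfl⟩
    exact rkEQ_zero_pure k

/-- Discretely weak P-points: non-principal ultrafilters which are not in the closure of a
countable discrete set of other non-principal ultrafilters. -/
def DiscretelyWeakPPoint (u : Ultrafilter ℕ) : Prop :=
  (∀ n, u ≠ pure n) ∧ ∀ D : Set (Ultrafilter ℕ), D.Countable → IsDiscreteSet D →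
    (∀ w ∈ D, (∀ n, w ≠ pure n) ∧ w ≠ u) → u ∉ closure D

theorem IsDiscreteSet.subset {D D' : Set (Ultrafilter ℕ)} (h : IsDiscreteSet D) (h' : D' ⊆ D) :
    IsDiscreteSet D' := by
  intro x hx
  obtain ⟨U, hU, hU2⟩ := h x (h' hx)
  refine ⟨U, hU, Subset.antisymm ?_ ?_⟩
  · rw [← hU2]
    exact inter_subset_inter_right _ h'
  · rw [singleton_subset_iff]
    have : x ∈ U ∩ D := by rw [hU2]; exact mem_singleton _
    exact ⟨this.1, hx⟩

theorem DiscretelyWeakPPoint.rkEQ {u : Ultrafilter ℕ} (hu : DiscretelyWeakPPoint u) :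
    RkEQ 1 u := by
  refine ⟨fun v hv => ?_, fun h => h (pure 0) (lt_of_not_principal ?_)⟩
  · -- `v` is principal
    by_cases hp : ∃ k, v = pure k
    · obtain ⟨k, rfl⟩ := hp
      exact (rkEQ_zero_pure k).1
    exfalso
    obtain ⟨g, hg1, hg2, hg3⟩ := hv.1
    obtain ⟨d, hd⟩ := exists_sep hg1 hg2
    have hrep : Rep v g d u := ⟨hg3, Filter.mem_of_superset Filter.univ_mem fun i _ => hd i⟩
    have h1 := hv.2
    rw [hrep.not_le_iff] at h1
    have h1 := Ultrafilter.compl_mem_iff_notMem.mpr h1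
    have h2 : {j | g j ≠ u} ∈ v := by
      by_contra hcon
      have h3 := Ultrafilter.compl_mem_iff_notMem.mpr hcon
      obtain ⟨j, hj⟩ := Ultrafilter.nonempty_of_mem h3
      refine hp ⟨j, eq_pure_of_mem ?_⟩
      filter_upwards [h3] with i hi
      have e1 : g i = u := not_not.mp hi
      have e2 : g j = u := not_not.mp hj
      exact hg1 (e1.trans e2.symm)
    refine hu.2 (g '' ({j | ∃ m, g j = pure m}ᶜ ∩ {j | g j ≠ u})) ((Set.to_countable _).image g)
      (hg2.subset (image_subset_range _ _)) ?_ ?_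
    · rintro _ ⟨j, ⟨hj1, hj2⟩, rfl⟩
      exact ⟨fun n hn => hj1 ⟨n, hn⟩, hj2⟩
    · rw [(ultrafilterBasis_is_basis).mem_closure_iff]
      rintro _ ⟨A, rfl⟩ hA
      have h3 : {j | A ∈ g j} ∈ v := by
        have hA' : A ∈ u := hA
        rw [hg3, mem_bind] at hA'
        exact hA'
      obtain ⟨j, hj1, hj2⟩ := Ultrafilter.nonempty_of_mem
        (Filter.inter_mem h3 (Filter.inter_mem h1 h2))
      exact ⟨g j, hj1, ⟨j, hj2, rfl⟩⟩
  · rintro ⟨m, hm⟩
    exact hu.1 m hm

end Pool.Agent.Q212.RF
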