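import Mathlib

/-!
# A recursion lemma for constructions of length the continuum
-/

open Set Cardinal

namespace Pool.Agent.Q212.Rec

/-- If fewer than continuum many countable sets of reals are given, some real avoids them all. -/
theorem exists_avoid {ι : Type} (hι : #ι < Cardinal.continuum) (bad : ι → Set ℝ)
    (h : ∀ i, (bad i).Countable) : ∃ t : ℝ, ∀ i, t ∉ bad i := by
  by_contra hcon
  push Not at hcon
  have hun : (⋃ i, bad i) = Set.univ := eq_univ_of_forall fun t => by
    obtain ⟨i, hi⟩ := hcon t
    exact mem_iUnion.mpr ⟨i, hi⟩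
  have h1 : Cardinal.continuum ≤ #ι * ℵ₀ := by
    calc Cardinal.continuum = #(⋃ i, bad i) := by rw [hun, mk_univ, mk_real]
      _ ≤ #ι * ⨆ i, #(bad i) := mk_iUnion_le _
      _ ≤ #ι * ℵ₀ := mul_le_mul_right (ciSup_le' fun i =>
          Cardinal.le_aleph0_iff_set_countable.mpr (h i)) _
  exact absurd h1 (not_le.mpr (mul_lt_of_lt aleph0_le_continuum hι aleph0_lt_continuum))

/-- A finite subset of the union of an increasing family lies in one member. -/
theorem finite_subset_mono {W X : Type} [LinearOrder W] [Nonempty W] (A : W → Set X)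
    (hA : ∀ w w', w ≤ w' → A w ⊆ A w') (F : Set X) (hF : F.Finite) (h : F ⊆ ⋃ w, A w) :
    ∃ w, F ⊆ A w := by
  induction F, hF using Set.Finite.induction_on with
  | empty => exact ⟨Classical.arbitrary W, empty_subset _⟩
  | @insert a F _ _ ih =>
    obtain ⟨w1, h1⟩ := mem_iUnion.mp (h (mem_insert _ _))
    obtain ⟨w2, h2⟩ := ih ((subset_insert _ _).trans h)
    refine ⟨max w1 w2, insert_subset (hA _ _ (le_max_left _ _) h1) (h2.trans ?_)⟩
    exact hA _ _ (le_max_right _ _)

/-- Transfinite construction of length the continuum: a finitary property `Good` of sets, a family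
of at most continuum many tasks, each of which can be satisfied by adding finitely many points to a
good set of size less than the continuum. -/
theorem recursion {X T : Type} (Good : Set X → Prop) (Sat : T → Set X → Prop)
    (hfin : ∀ B, (∀ F, F ⊆ B → F.Finite → Good F) → Good B)
    (hdown : ∀ B B', B ⊆ B' → Good B' → Good B)
    (hmono : ∀ t B B', B ⊆ B' → Sat t B → Sat t B')
    (hT : #T ≤ Cardinal.continuum)
    (hstep : ∀ t B, Good B → #B < Cardinal.continuum →
      ∃ D : Set X, D.Finite ∧ Good (B ∪ D) ∧ Sat t (B ∪ D))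
    (h0 : Good ∅) : ∃ B, Good B ∧ ∀ t, Sat t B := by
  classical
  rcases isEmpty_or_nonempty T with hE | hne
  · exact ⟨∅, h0, fun t => hE.elim t⟩
  let W := (Cardinal.continuum.{0}).ord.ToType
  obtain ⟨τ, hτ⟩ : ∃ τ : W → T, Function.Surjective τ := by
    have h1 : #T ≤ #W := by rw [mk_ord_toType]; exact hT
    obtain ⟨g⟩ := h1
    exact ⟨Function.invFun g, Function.invFun_surjective g.injective⟩
  let step : (w : W) → ((w' : W) → w' < w → Set X) → Set X := fun w prev =>
    if h : ∃ D : Set X, D.Finite ∧ Good ((⋃ w', ⋃ (hw : w' < w), prev w' hw) ∪ D) ∧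
      Sat (τ w) ((⋃ w', ⋃ (hw : w' < w), prev w' hw) ∪ D) then h.choose else ∅
  let D : W → Set X := (wellFounded_lt (α := W)).fix step
  let U : W → Set X := fun w => ⋃ w', ⋃ (_ : w' < w), D w'
  have hD : ∀ w, D w = if h : ∃ E : Set X, E.Finite ∧ Good (U w ∪ E) ∧
      Sat (τ w) (U w ∪ E) then h.choose else ∅ := by
    intro w
    exact (wellFounded_lt (α := W)).fix_eq step w
  have hDfin : ∀ w, (D w).Finite := by
    intro w
    rw [hD]
    split_ifs with h
    · exact h.choose_spec.1
    · exact finite_empty
  have hUcard : ∀ w, #(U w) < Cardinal.continuum := by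
    intro w
    have h1 : U w = ⋃ w' : Iio w, D w' := by
      ext x
      simp only [U, mem_iUnion, Subtype.exists, mem_Iio]
    rw [h1]
    have h2 : #(Iio w) < Cardinal.continuum := Cardinal.mk_Iio_toType_ord_lt w
    refine (mk_iUnion_le _).trans_lt ?_
    refine (mul_le_mul_right (c := ℵ₀) ?_ _).trans_lt
      (mul_lt_of_lt aleph0_le_continuum h2 aleph0_lt_continuum)
    exact ciSup_le' fun i => Cardinal.le_aleph0_iff_set_countable.mpr (hDfin i).countable
  have hUmono : ∀ w w', w ≤ w' → U w ⊆ U w' := by
    intro w w' hww x hx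
    simp only [U, mem_iUnion] at hx ⊢
    obtain ⟨i, hi, hx⟩ := hx
    exact ⟨i, lt_of_lt_of_le hi hww, hx⟩
  have hsub : ∀ w w', w < w' → U w ∪ D w ⊆ U w' := by
    intro w w' hww
    refine union_subset (hUmono w w' hww.le) ?_
    exact subset_iUnion₂ (s := fun i (_ : i < w') => D i) w hww
  -- goodness of `U w` and the specification of `D w`
  have hgood : ∀ w, Good (U w) := by
    intro w
    induction w using (wellFounded_lt (α := W)).induction with
    | _ w ih =>
      refine hfin _ fun F hF hFfin => ?_
      rcases F.eq_empty_or_nonempty with rfl | hFne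
      · exact h0
      have hne' : Nonempty (Iio w) := by
        obtain ⟨x, hx⟩ := hFne
        have := hF hx
        simp only [U, mem_iUnion] at this
        obtain ⟨i, hi, _⟩ := this
        exact ⟨⟨i, hi⟩⟩
      have hsup : ∃ w' : Iio w, F ⊆ U w'.1 ∪ D w'.1 := by
        refine finite_subset_mono (fun w' : Iio w => U w'.1 ∪ D w'.1) ?_ F hFfin ?_
        · intro w1 w2 h12
          rcases h12.eq_or_lt with rfl | h12
          · exact subset_rfl
          · exact (hsub _ _ h12).trans subset_union_left
        · refine hF.trans fun x hx => ?_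
          simp only [U, mem_iUnion] at hx
          obtain ⟨i, hi, hx⟩ := hx
          exact mem_iUnion.mpr ⟨⟨i, hi⟩, Or.inr hx⟩
      obtain ⟨⟨w', hw'⟩, hFw'⟩ := hsup
      refine hdown _ _ hFw' ?_
      have hex := hstep (τ w') (U w') (ih w' hw') (hUcard w')
      rw [hD, dif_pos hex]
      exact hex.choose_spec.2.1
  have hsat : ∀ w, Sat (τ w) (U w ∪ D w) := by
    intro w
    have hex := hstep (τ w) (U w) (hgood w) (hUcard w)
    rw [hD, dif_pos hex]
    exact hex.choose_spec.2.2
  have hsucc : ∀ w : W, ∃ w', w < w' := by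
    intro w
    by_contra hcon
    push Not at hcon
    have h1 : (Set.univ : Set W) = insert w (Iio w) := by
      refine (eq_univ_of_forall fun x => ?_).symm
      rcases (hcon x).eq_or_lt with h | h
      · exact Or.inl h
      · exact Or.inr h
    have h2 : #W ≤ #(Iio w) + 1 := by
      rw [← mk_univ, h1]
      exact mk_insert_le
    have h3 : #(Iio w) + 1 < Cardinal.continuum :=
      add_lt_of_lt aleph0_le_continuum (Cardinal.mk_Iio_toType_ord_lt w)
        (one_lt_aleph0.trans aleph0_lt_continuum)
    rw [mk_ord_toType] at h2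
    exact absurd h2 (not_le.mpr h3)
  refine ⟨⋃ w, U w, ?_, ?_⟩
  · refine hfin _ fun F hF hFfin => ?_
    have hW : Nonempty W := by
      rw [← Cardinal.mk_ne_zero_iff, Cardinal.mk_ord_toType]
      exact continuum_ne_zero
    obtain ⟨w, hw⟩ := finite_subset_mono U hUmono F hFfin hF
    exact hdown _ _ hw (hgood w)
  · intro t
    obtain ⟨w, rfl⟩ := hτ t
    obtain ⟨w', hw'⟩ := hsucc w
    exact hmono _ _ _ ((hsub w w' hw').trans (subset_iUnion U w')) (hsat w)

end Pool.Agent.Q212.Rec
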