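import Pool.Agent.Helper669.Forcing

/-!
# The strong countable fan tightness game, in the ground model and in forcing extensions
-/

universe u v

open Set

namespace Pool.Agent.Q212.SCFT

open Pool.Agent.Helper669.Forcing

/-! ### The game -/

/-- The first `n` terms of the sequence `A`, the last one first. -/
def hist {α : Type u} (A : ℕ → α) : ℕ → List α
  | 0 => []
  | n + 1 => A n :: hist A n

/-- Player II has a winning strategy in the strong countable fan tightness game at `x`. A strategy
answers to the list of the moves which player I has made so far (the last move first). -/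
def WinsAt {X : Type u} [TopologicalSpace X] (x : X) : Prop :=
  ∃ σ : List (Set X) → X,
    (∀ (A : Set X) (s : List (Set X)), x ∈ closure A → (∀ B ∈ s, x ∈ closure B) →
      σ (A :: s) ∈ A) ∧
    ∀ A : ℕ → Set X, (∀ n, x ∈ closure (A n)) →
      x ∈ closure (range fun n => σ (hist A (n + 1)))

section Ground

variable {X : Type u} [TopologicalSpace X] {x : X}

theorem mem_hist {α : Type u} {A : ℕ → α} {n : ℕ} {a : α} (h : a ∈ hist A n) :
    ∃ m, a = A m := by
  induction n with
  | zero => simp [hist] at h
  | succ n ih =>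
    rcases List.mem_cons.mp h with h | h
    · exact ⟨n, h⟩
    · exact ih h

/-- The dual game: there is a strategy which assigns neighbourhoods of `x` to finite sequences of
points such that all sequences of points of these neighbourhoods cluster at `x`. -/
theorem exists_dual (h : WinsAt x) : ∃ W : List X → Set X, (∀ s, IsOpen (W s) ∧ x ∈ W s) ∧
    ∀ f : ℕ → X, (∀ n, f n ∈ W (hist f n)) → x ∈ closure (range f) := by
  classical
  obtain ⟨σ, hσ1, hσ2⟩ := h
  -- the move which produces the answer `a`
  let B : List (Set X) → X → Set X := fun s a =>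
    if h : ∃ A : Set X, x ∈ closure A ∧ σ (A :: s) = a then h.choose else univ
  have hB1 : ∀ s a, x ∈ closure (B s a) := by
    intro s a
    by_cases h : ∃ A : Set X, x ∈ closure A ∧ σ (A :: s) = a
    · simp only [B, dif_pos h]
      exact h.choose_spec.1
    · simp only [B, dif_neg h]
      exact subset_closure (mem_univ x)
  let M : List X → List (Set X) := List.rec [] fun a _ r => B r a :: r
  have hM : ∀ a s, M (a :: s) = B (M s) a :: M s := fun _ _ => rfl
  have hMc : ∀ s, ∀ A ∈ M s, x ∈ closure A := by
    intro s
    induction s with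
    | nil => intro A hA; simp [M] at hA
    | cons a s ih =>
      intro A hA
      rw [hM] at hA
      rcases List.mem_cons.mp hA with rfl | hA
      · exact hB1 _ _
      · exact ih A hA
  let D : List X → Set X := fun s => {a | ∃ A : Set X, x ∈ closure A ∧ σ (A :: M s) = a}
  have hD : ∀ s, x ∈ interior (D s) := by
    intro s
    by_contra hcon
    have h1 : x ∈ closure (D s)ᶜ := by rwa [closure_compl]
    exact hσ1 _ _ h1 (hMc s) ⟨_, h1, rfl⟩
  refine ⟨fun s => interior (D s), fun s => ⟨isOpen_interior, hD s⟩, fun f hf => ?_⟩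
  let A : ℕ → Set X := fun n => B (M (hist f n)) (f n)
  have hhist : ∀ n, hist A n = M (hist f n) := by
    intro n
    induction n with
    | zero => rfl
    | succ n ih => simp only [hist, hM, ih, A]
  have hans : ∀ n, σ (hist A (n + 1)) = f n := by
    intro n
    have h1 : ∃ A : Set X, x ∈ closure A ∧ σ (A :: M (hist f n)) = f n :=
      show f n ∈ D (hist f n) from interior_subset (hf n)
    have h2 : hist A (n + 1) = B (M (hist f n)) (f n) :: M (hist f n) := by
      rw [hhist]
      rfl
    rw [h2]
    simp only [B, dif_pos h1]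
    exact h1.choose_spec.2
  have h3 := hσ2 A fun n => hB1 _ _
  simpa only [hans] using h3

end Ground

/-! ### The game in a forcing extension -/

section Forced

variable {P : Type u} [Preorder P] {X : Type v}

/-- The named sets `A` and `B` are equal. -/
def SameSet (A B : X → Set P) : Set P :=
  fall fun a => fand (fimp (meets (A a)) (meets (B a))) (fimp (meets (B a)) (meets (A a)))

/-- The named finite sequences `s` and `t` of sets are equal. -/
def SameList : List (X → Set P) → List (X → Set P) → Set P
  | [], [] => fground True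
  | A :: s, B :: t => fand (SameSet A B) (SameList s t)
  | _, _ => fground False

variable [TopologicalSpace X]

/-- `x` is in the closure of the named set `A`, in the topology generated in the extension by the
open sets of the ground model: each open set `O` of the ground model which contains `x` contains a
point of `A`. -/
def InClosure (x : X) (A : X → Set P) : Set P :=
  fall fun O : Set X => fall fun _ : IsOpen O ∧ x ∈ O => fex fun a : X =>
    fand (fground (a ∈ O)) (meets (A a))

/-- All the members of the finite sequence `s` of named sets have `x` in their closures. -/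
def Legal (x : X) (s : List (X → Set P)) : Set P :=
  fall fun A : X → Set P => fall fun _ : A ∈ s => InClosure x A

/-- In the extension, player II has a winning strategy in the strong countable fan tightness game
at `x`. The strategy is named by `S`: for every finite sequence `s` of named sets (the moves of
player I, the last one first), `S s` is the name of (the singleton of) the answer to `s`. The three
clauses say that the answer only depends on the moves and not on their names; that the answer to a
sequence of legal moves exists, is unique and belongs to the last move; and that in every run of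
`ω` innings the set of the answers has `x` in its closure. -/
def WinsForced (P : Type u) [Preorder P] {X : Type v} [TopologicalSpace X] (x : X) : Set P :=
  fex fun S : List (X → Set P) → X → Set P =>
    fand (fall fun s : List (X → Set P) => fall fun t : List (X → Set P) =>
        fimp (SameList s t) (SameSet (S s) (S t)))
    (fand (fall fun A : X → Set P => fall fun s : List (X → Set P) =>
        fimp (fand (InClosure x A) (Legal x s))
          (fand (fex fun a : X => fand (meets (S (A :: s) a)) (meets (A a)))
            (fall fun a : X => fall fun b : X =>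
              fimp (fand (meets (S (A :: s) a)) (meets (S (A :: s) b))) (fground (a = b)))))
      (fall fun A : ℕ → X → Set P => fimp (fall fun n => InClosure x (A n))
        (InClosure x fun a => {q | ∃ n, q ∈ meets (S (hist A (n + 1)) a)})))

end Forced

/-! ### The proof -/

section Proof

variable {P : Type u} [Preorder P] {X : Type v}

theorem meets_of_dense {N : Set P} {p : P} (h : ∀ q ≤ p, ∃ r ≤ q, r ∈ meets N) : p ∈ meets N := by
  intro q hq
  obtain ⟨r, hr, hrN⟩ := h q hq
  obtain ⟨r', hr', s, hs, hle⟩ := hrN r le_rfl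
  exact ⟨r', hr'.trans hr, s, hs, hle⟩

theorem fimp_meets {φ N : Set P} {p : P} (hφ : Down φ) (h : p ∈ fimp φ (meets N)) (hp : p ∈ φ) :
    p ∈ meets N :=
  meets_of_dense fun q hq => mem_fimp.1 h q hq (hφ _ hp _ hq)

theorem down_SameSet (A B : X → Set P) : Down (SameSet A B) :=
  down_fall fun _ => down_fand (down_fimp _ _) (down_fimp _ _)

theorem down_SameList : (s t : List (X → Set P)) → Down (SameList s t)
  | [], [] => down_fground _
  | _ :: s, _ :: t => down_fand (down_SameSet _ _) (down_SameList s t)
  | [], _ :: _ => down_fground _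
  | _ :: _, [] => down_fground _

theorem SameSet.symm {A B : X → Set P} {p : P} (h : p ∈ SameSet A B) : p ∈ SameSet B A :=
  fun a => ⟨(h a).2, (h a).1⟩

theorem SameList.symm : {s t : List (X → Set P)} → {p : P} → p ∈ SameList s t → p ∈ SameList t s
  | [], [], _, h => h
  | _ :: _, _ :: _, _, h => ⟨SameSet.symm h.1, SameList.symm h.2⟩
  | [], _ :: _, _, h => h.elim
  | _ :: _, [], _, h => h.elim

/-- The conditions which force that the answers to the moves `s` are the points `t`: the answer is
the least point of the last move which is in the neighbourhood given by `W`. -/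
def Ans (W : List X → Set X) : List (X → Set P) → List X → Set P
  | [], [] => univ
  | A :: s, a :: t => {q | q ∈ Ans W s t ∧ q ∈ meets (A a) ∧ a ∈ W t ∧
      ∀ b, WellOrderingRel b a → b ∈ W t → q ∈ fnot (meets (A b))}
  | _, _ => ∅

variable {W : List X → Set X}

theorem down_Ans : (s : List (X → Set P)) → (t : List X) → Down (Ans W s t)
  | [], [] => fun _ _ _ _ => mem_univ _
  | _ :: s, _ :: t => fun _ h _ hq => ⟨down_Ans s t _ h.1 _ hq, down_meets _ _ h.2.1 _ hq, h.2.2.1,
      fun b hb hbW => down_fnot _ _ (h.2.2.2 b hb hbW) _ hq⟩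
  | [], _ :: _ => fun _ h _ _ => h.elim
  | _ :: _, [] => fun _ h _ _ => h.elim

theorem not_mem_fnot {φ : Set P} {p : P} (h : p ∈ φ) : p ∉ fnot φ := fun h' => h' p le_rfl h

theorem Ans.unique : {s : List (X → Set P)} → {t t' : List X} → {q : P} → q ∈ Ans W s t →
    q ∈ Ans W s t' → t = t'
  | [], [], [], _, _, _ => rfl
  | A :: s, a :: t, a' :: t', q, h, h' => by
    have h1 : t = t' := Ans.unique h.1 h'.1
    subst h1
    rcases trichotomous_of WellOrderingRel a a' with h2 | h2 | h2
    · exact absurd (h'.2.2.2 a h2 h.2.2.1) (not_mem_fnot h.2.1)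
    · rw [h2]
    · exact absurd (h.2.2.2 a' h2 h'.2.2.1) (not_mem_fnot h'.2.1)
  | [], _ :: _, _, _, h, _ => h.elim
  | [], [], _ :: _, _, _, h => h.elim
  | _ :: _, [], _, _, h, _ => h.elim
  | _ :: _, _ :: _, [], _, _, h => h.elim

theorem Ans.congr : {s s' : List (X → Set P)} → {t : List X} → {q : P} → q ∈ SameList s s' →
    q ∈ Ans W s t → q ∈ Ans W s' t
  | [], [], _, _, _, h => h
  | A :: s, B :: s', a :: t, q, h, h' => by
    refine ⟨Ans.congr h.2 h'.1, fimp_meets (down_meets _) (h.1 a).1 h'.2.1, h'.2.2.1, ?_⟩
    intro b hb hbW r hr hrB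
    refine h'.2.2.2 b hb hbW r hr ?_
    exact fimp_meets (down_meets _) (down_fimp _ _ _ (h.1 b).2 _ hr) hrB
  | [], _ :: _, _, _, h, _ => h.elim
  | _ :: _, [], _, _, h, _ => h.elim
  | _ :: _, _ :: _, [], _, _, h => h.elim

variable [TopologicalSpace X] {x : X}

theorem down_InClosure (A : X → Set P) : Down (InClosure x A) :=
  down_fall fun _ => down_fall fun _ => down_fex _

theorem exists_step (hW : ∀ s, IsOpen (W s) ∧ x ∈ W s) {A : X → Set P} {s : List (X → Set P)}
    {t : List X} {r : P} (hr : r ∈ Ans W s t) (hA : r ∈ InClosure x A) :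
    ∃ r' ≤ r, ∃ a, r' ∈ Ans W (A :: s) (a :: t) := by
  classical
  let Z : Set X := {a | a ∈ W t ∧ ∃ r' ≤ r, r' ∈ meets (A a)}
  have hZ : Z.Nonempty := by
    obtain ⟨r1, hr1, a, ha, hrA⟩ := mem_fex.1 (hA (W t) (hW t)) r le_rfl
    exact ⟨a, ha, r1, hr1, hrA⟩
  have hwf : WellFounded (WellOrderingRel : X → X → Prop) := WellOrderingRel.isWellOrder.wf
  obtain ⟨ha, r1, hr1, hrA⟩ := hwf.min_mem Z hZ
  refine ⟨r1, hr1, hwf.min Z hZ, down_Ans s t _ hr _ hr1, hrA, ha, ?_⟩
  intro b hb hbW r2 hr2 hrb
  exact hwf.not_lt_min Z (x := b) ⟨hbW, r2, hr2.trans hr1, hrb⟩ hb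

theorem exists_ans (hW : ∀ s, IsOpen (W s) ∧ x ∈ W s) : (s : List (X → Set P)) → {q : P} →
    q ∈ Legal x s → ∃ r ≤ q, ∃ t, r ∈ Ans W s t
  | [], q, _ => ⟨q, le_rfl, [], mem_univ _⟩
  | A :: s, q, h => by
    obtain ⟨r, hr, t, ht⟩ := exists_ans hW s (q := q) fun B hB => h B (List.mem_cons_of_mem _ hB)
    obtain ⟨r', hr', a, ha⟩ := exists_step hW ht
      (down_InClosure A _ (h A List.mem_cons_self) _ hr)
    exact ⟨r', hr'.trans hr, a :: t, ha⟩

/-- A winning strategy in the ground model gives winning strategies in all forcing extensions. -/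
theorem winsForced (h : WinsAt x) (p : P) : p ∈ WinsForced P x := by
  classical
  obtain ⟨W, hW, hWf⟩ := exists_dual h
  let S : List (X → Set P) → X → Set P := fun s a => {q | ∃ t, q ∈ Ans W s (a :: t)}
  have hSd : ∀ s a, Down (S s a) := fun s a q ⟨t, ht⟩ q' hq' => ⟨t, down_Ans _ _ _ ht _ hq'⟩
  refine mem_fex_of_mem S ?_ ⟨?_, ?_, ?_⟩
  · refine down_fand ?_ (down_fand ?_ ?_)
    · exact down_fall fun _ => down_fall fun _ => down_fimp _ _
    · exact down_fall fun _ => down_fall fun _ => down_fimp _ _
    · exact down_fall fun _ => down_fimp _ _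
  · intro s t
    refine mem_fimp.2 fun q _ hq => ⟨q, le_rfl, ?_⟩
    have key : ∀ s t : List (X → Set P), ∀ q, q ∈ SameList s t → ∀ a, q ∈ fimp (meets (S s a))
        (meets (S t a)) := by
      intro s t q hq a
      refine mem_fimp.2 fun r hr hrm => ?_
      obtain ⟨r', hr', u, hu⟩ := exists_of_meets (hSd s a) hrm
      refine ⟨r', hr', meets_of_mem ⟨u, ?_⟩⟩
      exact Ans.congr (down_SameList _ _ _ hq _ (hr'.trans hr)) hu
    exact fun a => ⟨key s t q hq a, key t s q (SameList.symm hq) a⟩
  · intro A s
    refine mem_fimp.2 fun q _ hq => ⟨q, le_rfl, ?_, ?_⟩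
    · refine mem_fex.2 fun q' hq' => ?_
      have hl : q' ∈ Legal x (A :: s) := by
        intro B hB
        rcases List.mem_cons.mp hB with rfl | hB
        · exact down_InClosure _ _ hq.1 _ hq'
        · exact down_InClosure _ _ (hq.2 B hB) _ hq'
      obtain ⟨r, hr, t, ht⟩ := exists_ans hW (A :: s) hl
      cases t with
      | nil => exact ht.elim
      | cons a t => exact ⟨r, hr, a, meets_of_mem ⟨t, ht⟩, ht.2.1⟩
    · intro a b
      refine mem_fimp.2 fun q' _ hq' => ?_
      obtain ⟨r, hr, t, ht⟩ := exists_of_meets (hSd _ _) hq'.1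
      obtain ⟨r', hr', t', ht'⟩ := exists_of_meets (hSd _ _) (down_meets _ _ hq'.2 _ hr)
      refine ⟨r', hr'.trans hr, ?_⟩
      have h1 := Ans.unique (down_Ans _ _ _ ht _ hr') ht'
      exact (List.cons.inj h1).1
  · intro A
    refine mem_fimp.2 fun q _ hq => ⟨q, le_rfl, ?_⟩
    intro O hO
    refine mem_fex.2 fun q' hq' => ?_
    by_contra hcon
    push Not at hcon
    -- a descending sequence of conditions
    let Q := {p : P × List X // p.1 ≤ q' ∧ p.1 ∈ Ans W (hist A p.2.length) p.2}
    have hstep : ∀ p : Q, ∃ (a : X) (p' : Q), p'.1.2 = a :: p.1.2 ∧ a ∈ W p.1.2 ∧ a ∉ O := by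
      rintro ⟨⟨r, t⟩, hr, hrt⟩
      obtain ⟨r', hr', a, ha⟩ := exists_step hW hrt (A := A t.length)
        (down_InClosure _ _ (hq t.length) _ (hr.trans hq'))
      refine ⟨a, ⟨(r', a :: t), hr'.trans hr, ha⟩, rfl, ha.2.2.1, fun haO => ?_⟩
      exact hcon r' (hr'.trans hr) a ⟨haO, meets_of_mem ⟨t.length, meets_of_mem ⟨t, ha⟩⟩⟩
    choose nx np h1 h2 h3 using hstep
    let sq : ℕ → Q := Nat.rec ⟨(q', []), le_rfl, mem_univ _⟩ fun _ p => np p
    let f : ℕ → X := fun n => nx (sq n)
    have hsq : ∀ n, (sq n).1.2 = hist f n := by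
      intro n
      induction n with
      | zero => rfl
      | succ n ih =>
        change (np (sq n)).1.2 = f n :: hist f n
        rw [h1, ih]
    have hcl := hWf f fun n => by
      rw [← hsq n]
      exact h2 (sq n)
    obtain ⟨y, hyO, n, rfl⟩ := mem_closure_iff.1 hcl O hO.1 hO.2
    exact h3 (sq n) hyO

end Proof

end Pool.Agent.Q212.SCFT
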