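import Pool.Agent.Q211.AM.Md3

/-!
# Symmetric models of permutation type in which every set is an image of ordinals and reals

The symmetric models with finite supports, together with the rules that make every set of the
model the image of a class of pairs of an ordinal and a set of natural numbers.
-/

set_option autoImplicit false
set_option linter.unusedSectionVars false
set_option linter.unreachableTactic false
set_option linter.unusedTactic false

namespace Pool.Agent.Q212.SV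

open Pool.Agent.W868 Pool.Agent.W868.PName Pool.Agent.Q211.SY Pool.Agent.Q211.FS
open Pool.Agent.Q211.PA Pool.Agent.Q211.TP Pool.Agent.Q211.AM
open ZFSet (pair)

variable {X : Type} {Γ : Type} [Group Γ] [MulAction Γ X]

/-- Packages closed under additional rules. -/
theorem exists_PXR [Countable X] (N : NFil Γ) (A : Set (PName (PX X))) (hA : A.Countable)
    (Q : Set (Rule (PX X))) (hQ : Q.Countable) : ∃ π, IsPX X N A π ∧ ClR Q π := by
  obtain ⟨π, h1, -, h3, h4⟩ := Sys.exists_cld (SX X N)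
    (A ∪ ({check Qc, check LQ} ∪ (Set.range CnX ∪ (Set.range An ∪
      ((Set.range fun t : (X × ℕ) × ℚ => Sys.nm (PX X) (DX t.1 t.2)) ∪
      Set.range fun t : (X × ℕ) × (X × ℕ) => Sys.nm (PX X) (DN t.1 t.2))))))
    (hA.union ((Set.toFinite _).countable.union ((Set.countable_range _).union
      ((Set.countable_range _).union ((Set.countable_range _).union (Set.countable_range _))))))
    Q hQ ⊤
  exact ⟨π, ⟨h3, fun c => h1 (Or.inr (Or.inr (Or.inl ⟨c, rfl⟩))),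
    fun x => h1 (Or.inr (Or.inr (Or.inr (Or.inl ⟨x, rfl⟩)))),
    fun c y => h1 (Or.inr (Or.inr (Or.inr (Or.inr (Or.inl ⟨(c, y), rfl⟩))))),
    fun c d => h1 (Or.inr (Or.inr (Or.inr (Or.inr (Or.inr ⟨(c, d), rfl⟩))))),
    h1 (Or.inr (Or.inl (by simp))), h1 (Or.inr (Or.inl (by simp))), fun x hx => h1 (Or.inl hx)⟩,
    h4⟩

/-! ### Names of finite sequences of reals -/

/-- The code of an element of the cut of a term of a finite sequence of reals. -/
def ec (i : ℕ) (t : ℕ × ℕ × ℕ) : ℕ := Encodable.encode (i, t)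

theorem ec_inj {i j : ℕ} {s t : ℕ × ℕ × ℕ} (h : ec i s = ec j t) : i = j ∧ s = t :=
  Prod.ext_iff.1 (Encodable.encode_injective h)

/-- The name of the set of natural numbers that codes the finite sequence of the reals of the
columns `f i`. -/
noncomputable def Tn {n : ℕ} (f : Fin n → X × ℕ) : PName (PX X) :=
  PName.mk {u : RI × (Fin n × (ℕ × ℕ × ℕ)) // qv u.2.2 ≤ u.1.a}
    (fun u => check (nat (ec u.1.2.1 u.1.2.2))) (fun u => uX ⊤ (f u.1.2.1) u.1.1)

theorem ax_Tn (g : GG X Γ) {n : ℕ} (f : Fin n → X × ℕ) :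
    axg g (Tn f) = Tn fun i => g.1.2 (f i) := by
  unfold axg Tn
  rw [act]
  congr 1
  · funext t
    exact act_check (acX_top _) _
  · funext t
    exact sx_uX _ _ _

theorem hs_Tn {N : NFil Γ} {n : ℕ} (f : Fin n → X × ℕ) : (SX X N).HS (Tn f) := by
  classical
  obtain ⟨H, hH⟩ := N.ne
  refine (SX X N).hs_iff.2 ⟨sym_iffX.2 ⟨H, hH, Finset.univ.image f, fun g _ hg => ?_⟩,
    fun z d hz => ?_⟩
  · rw [ax_Tn]
    have h1 : (fun i => g.1.2 (f i)) = f := by
      funext i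
      exact hg _ (Finset.mem_image_of_mem _ (Finset.mem_univ i))
    rw [h1]
    exact Eqv.refl _
  · obtain ⟨t, rfl, rfl⟩ := hz
    exact (SX X N).hs_check _

theorem mem_Tn {N : NFil Γ} {A : Set (PName (PX X))} {π : Pkg (PX X)} (h : IsPX X N A π) {n : ℕ}
    {f : Fin n → X × ℕ} {z : ZFSet.{0}} :
    z ∈ π.val (Tn f) ↔ ∃ (i : Fin n) (t : ℕ × ℕ × ℕ), z = nat (ec i t) ∧ qv t < cX π (f i) := by
  rw [π.mem_val]
  constructor
  · rintro ⟨w, hw, d, ⟨⟨⟨I, i, t⟩, ht⟩, rfl, rfl⟩, ⟨j, hj⟩, rfl⟩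
    have h1 : (π.g j).1 (f i).1 (f i).2 ≤ I := le_uX_top.1 hj
    obtain ⟨J, h2, h3⟩ := le_coe h1
    have h4 := (h.cX_mem (I := J) (c := f i) ⟨j, h2⟩).1
    refine ⟨i, t, π.hat_nat _, ?_⟩
    have h5 : (I.a : ℝ) ≤ J.a := by exact_mod_cast h3.1
    have h6 : qv t ≤ I.a := ht
    linarith
  · rintro ⟨i, t, rfl, ht⟩
    have hne : {x : ℝ | ∃ I, InX π (f i) I ∧ x = I.a}.Nonempty := by
      obtain ⟨I, hI, -⟩ := h.exists_InX (f i) 0
      exact ⟨_, I, hI, rfl⟩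
    obtain ⟨_, ⟨I, ⟨j, hj⟩, rfl⟩, h1⟩ := exists_lt_of_lt_csSup hne ht
    exact ⟨check (nat (ec i t)), π.nat_Z _, _, ⟨⟨(I, i, t), h1.le⟩, rfl, rfl⟩,
      ⟨j, le_uX_top.2 hj.le⟩, π.hat_nat _⟩

theorem Tn_inj {N : NFil Γ} {A : Set (PName (PX X))} {π : Pkg (PX X)} (h : IsPX X N A π) {n : ℕ}
    {f f' : Fin n → X × ℕ} (hf : π.val (Tn f) = π.val (Tn f')) : f = f' := by
  funext i
  refine h.cX_injective ?_
  have key : ∀ {f f' : Fin n → X × ℕ}, π.val (Tn f) = π.val (Tn f') → ∀ i,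
      cX π (f i) ≤ cX π (f' i) := by
    intro f f' hf i
    by_contra hlt
    push Not at hlt
    obtain ⟨t, h1, h2⟩ := exists_qv_btwn hlt
    have h3 : nat (ec i t) ∈ π.val (Tn f) := (mem_Tn h).2 ⟨i, t, rfl, h2⟩
    rw [hf, mem_Tn h] at h3
    obtain ⟨i', t', h4, h5⟩ := h3
    obtain ⟨h6, rfl⟩ := ec_inj (nat_injective h4)
    obtain rfl := Fin.ext h6
    linarith
  exact le_antisymm (key hf i) (key hf.symm i)

/-! ### Supports that consist of columns -/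

theorem exists_sup {x : PName (PX X)} (h : (SX X (NFin X Γ)).HS x) :
    ∃ s : Σ n, (Fin n → X × ℕ), ∀ g : GG X Γ, (∀ i, g.1.2 (s.2 i) = s.2 i) → Eqv (axg g x) x := by
  classical
  obtain ⟨H, ⟨E, hE⟩, e, he⟩ := sym_iffX.1 h.sym
  let e' := e ∪ E.image fun y => (y, 0)
  refine ⟨⟨e'.card, fun i => (e'.equivFin.symm i).1⟩, fun g hg => ?_⟩
  have h1 : ∀ c ∈ e', g.1.2 c = c := by
    intro c hc
    have h2 := hg (e'.equivFin ⟨c, hc⟩)
    simpa using h2
  refine he g ((hE _).2 fun y hy => ?_) fun c hc => h1 c (Finset.mem_union_left _ hc)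
  have h2 := h1 (y, 0) (Finset.mem_union_right _ (Finset.mem_image_of_mem _ hy))
  have h3 := gg_fst g (y, 0)
  rw [h2] at h3
  exact h3.symm

open Classical in
variable (Γ) in
/-- A support of the name `x`. -/
noncomputable def sup (x : PName (PX X)) : Σ n, (Fin n → X × ℕ) :=
  if h : ∃ s : Σ n, (Fin n → X × ℕ),
    ∀ g : GG X Γ, (∀ i, g.1.2 (s.2 i) = s.2 i) → Eqv (axg g x) x then h.choose
  else ⟨0, Fin.elim0⟩

theorem sup_spec {x : PName (PX X)} (h : (SX X (NFin X Γ)).HS x) (g : GG X Γ)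
    (hg : ∀ i, g.1.2 ((sup Γ x).2 i) = (sup Γ x).2 i) : Eqv (axg g x) x := by
  have h1 := exists_sup h
  unfold sup at hg
  rw [dif_pos h1] at hg
  exact h1.choose_spec g hg

variable (Γ) in
/-- The element given by an automorphism and an element of the name `τ`. -/
noncomputable def elN (τ : PName (PX X)) (t : GG X Γ × τ.idx) : PName (PX X) :=
  opN (opN (check (ordI τ t.2).toZFSet) (Tn fun i => t.1.1.2 ((sup Γ (τ.chd t.2)).2 i)))
    (axg t.1 (τ.chd t.2))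

variable (Γ) in
/-- The name of the function that gives all the elements of `τ`. -/
noncomputable def PhN (τ : PName (PX X)) : PName (PX X) := mkN (GG X Γ × τ.idx) (elN Γ τ)

theorem ax_PhN (g : GG X Γ) (τ : PName (PX X)) : Eqv (axg g (PhN Γ τ)) (PhN Γ τ) := by
  refine eqv_mkN_perm g ((Equiv.mulLeft g).prodCongr (Equiv.refl _)) fun t => ?_
  unfold elN
  rw [ax_opN, ax_opN, ax_check, ax_Tn, ← axg_mul]
  exact Eqv.refl _

theorem hs_chd {τ : PName (PX X)} {N : NFil Γ} (h : (SX X N).HS τ) (j : τ.idx) :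
    (SX X N).HS (τ.chd j) := by
  cases τ with
  | mk ι x c => exact h.el (c := c j) ⟨j, rfl, rfl⟩

theorem hs_PhN {τ : PName (PX X)} (h : (SX X (NFin X Γ)).HS τ) :
    (SX X (NFin X Γ)).HS (PhN Γ τ) := by
  obtain ⟨H, hH⟩ := (NFin X Γ).ne
  refine hs_mkN hH (e := ∅) (fun g _ _ => ax_PhN g τ) fun t => ?_
  exact Sys.hs_opN _ (Sys.hs_opN _ (Sys.hs_check _ _) (hs_Tn _))
    (Sys.hs_act _ (hs_chd h t.2) t.1)

variable (X Γ) in
/-- The rules. -/
noncomputable def Rs : Set (Rule (PX X)) := {r0 fun x _ => PhN Γ x, r0 fun x _ => Tn (sup Γ x).2}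

/-- **Every set of the model is an image of pairs of an ordinal and a set of natural numbers.** -/
theorem svc {A : Set (PName (PX X))} {π : Pkg (PX X)} (h : IsPX X (NFin X Γ) A π)
    (hR : ClR (Rs X Γ) π) {Y : ZFSet.{0}} (hY : Y ∈ (SX X (NFin X Γ)).Ms π) :
    ∃ F ∈ (SX X (NFin X Γ)).Ms π, (∀ z ∈ F, ∃ a T y, z = pair (pair a T) y ∧ a.IsOrdinal ∧
      T ⊆ ZFSet.omega) ∧ (∀ a T y y', pair (pair a T) y ∈ F → pair (pair a T) y' ∈ F → y = y') ∧
      ∀ y ∈ Y, ∃ a T, pair (pair a T) y ∈ F := by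
  obtain ⟨τ, ⟨hτ, hτS⟩, rfl⟩ := hY
  have h1 : PhN Γ τ ∈ π.N := r0_mem hR (F := fun x _ => PhN Γ x) (Or.inl rfl) hτ 0
  have hmem : ∀ z, z ∈ π.val (PhN Γ τ) ↔ ∃ t : GG X Γ × τ.idx, check (ordI τ t.2).toZFSet ∈ π.N ∧
      Tn (fun i => t.1.1.2 ((sup Γ (τ.chd t.2)).2 i)) ∈ π.N ∧ axg t.1 (τ.chd t.2) ∈ π.N ∧
      z = pair (pair (π.val (check (ordI τ t.2).toZFSet))
        (π.val (Tn fun i => t.1.1.2 ((sup Γ (τ.chd t.2)).2 i)))) (π.val (axg t.1 (τ.chd t.2))) := by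
    intro z
    unfold PhN
    rw [mem_mkN]
    constructor
    · rintro ⟨t, ht, rfl⟩
      have h2 := π.fst_mem ht
      have h3 := π.fst_mem h2
      have h4 := π.snd_mem h2
      have h5 := π.snd_mem ht
      refine ⟨t, h3, h4, h5, ?_⟩
      unfold elN
      rw [π.val_opN h2 h5, π.val_opN h3 h4]
    · rintro ⟨t, h3, h4, h5, rfl⟩
      refine ⟨t, π.opN_mem (π.opN_mem h3 h4) h5, ?_⟩
      unfold elN
      rw [π.val_opN (π.opN_mem h3 h4) h5, π.val_opN h3 h4]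
  refine ⟨_, Sys.mem_Ms h1 (hs_PhN hτS), fun z hz => ?_, fun a T y y' hy hy' => ?_,
    fun y hy => ?_⟩
  · obtain ⟨t, -, -, -, rfl⟩ := (hmem z).1 hz
    refine ⟨_, _, _, rfl, π.hat_isOrdinal (ZFSet.isOrdinal_toZFSet _), fun z hz => ?_⟩
    obtain ⟨i, s, rfl, -⟩ := (mem_Tn h).1 hz
    exact mem_omega_iff.2 ⟨_, rfl⟩
  · obtain ⟨⟨g, j⟩, h3, h4, h5, h6⟩ := (hmem _).1 hy
    obtain ⟨⟨g', j'⟩, h3', h4', h5', h6'⟩ := (hmem _).1 hy'
    dsimp only at h3 h4 h5 h6 h3' h4' h5' h6'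
    obtain ⟨h7, rfl⟩ := ZFSet.pair_inj.1 h6
    obtain ⟨rfl, rfl⟩ := ZFSet.pair_inj.1 h7
    obtain ⟨h7', rfl⟩ := ZFSet.pair_inj.1 h6'
    obtain ⟨h8, h9⟩ := ZFSet.pair_inj.1 h7'
    have h10 : j = j' := ordI_injective τ (Ordinal.toZFSet_injective ((π.hat_inj h3 h3').1 h8))
    subst h10
    have h11 := Tn_inj h h9
    -- the automorphism `g⁻¹ * g'` fixes the support
    have h12 : Eqv (axg (g⁻¹ * g') (τ.chd j)) (τ.chd j) := by
      refine sup_spec (hs_chd hτS j) _ fun i => ?_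
      have h13 := congrFun h11 i
      change (g.1.2⁻¹ * g'.1.2) _ = _
      rw [Equiv.Perm.mul_apply]
      change g.1.2⁻¹ (g'.1.2 ((sup Γ (τ.chd j)).2 i)) = _
      rw [← h13, perm_inv_self]
    have h13 := h12.act g
    rw [← axg_mul, mul_inv_cancel_left] at h13
    exact (h13.val h5' h5).symm
  · obtain ⟨x, hx, c, hc, -, rfl⟩ := π.mem_val.1 hy
    obtain ⟨j, rfl, hj⟩ := π.ordI_mem hτ hx hc
    have h3 : Tn (sup Γ (τ.chd j)).2 ∈ π.N := r0_mem hR (F := fun x _ => Tn (sup Γ x).2)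
      (Or.inr rfl) hx 0
    refine ⟨π.val (check (ordI τ j).toZFSet), π.val (Tn (sup Γ (τ.chd j)).2),
      (hmem _).2 ⟨((1 : GG X Γ), j), hj, h3, ?_, ?_⟩⟩
    · rw [axg_one]
      exact hx
    · rw [axg_one]
      rfl

end Pool.Agent.Q212.SV
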