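import Pool.Agent.Q211.TP.Tyc

/-!
# Embeddings of metrizable spaces into the Tychonoff cube with the exponent of the reals
-/

set_option autoImplicit false
set_option linter.unusedSectionVars false
set_option linter.unreachableTactic false
set_option linter.unusedTactic false

namespace Pool.Agent.Q212.SV

open Pool.Agent.W868 Pool.Agent.W868.PName Pool.Agent.Q211.SY Pool.Agent.Q211.FS
open Pool.Agent.Q211.TP
open ZFSet (pair)

/-- In `M`, the space `(X, τ)` is embeddable in the Tychonoff cube `[0, 1] ^ ℝ`: if `R` is the set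
of all real numbers of `M`, if `E` is the set of all real numbers of `M` in `[0, 1]`, with its
usual topology `σ`, and if `N` is the set of all functions in `M` from `R` to `E`, with the
product topology `ν`, then there is in `M` a homeomorphism `h` from `(X, τ)` to a subspace `C`
of `N`. -/
def EmbedsInCube (M : Set ZFSet.{0}) (X τ : ZFSet.{0}) : Prop :=
  ∃ R ∈ M, ∃ E ∈ M, ∃ σ ∈ M, ∃ N ∈ M, ∃ ν ∈ M, ∃ C ∈ M, ∃ h ∈ M,
    (∀ z, z ∈ R ↔ z ∈ M ∧ ∃ x : ℝ, z = cutS x) ∧
    (∀ z, z ∈ E ↔ z ∈ M ∧ ∃ x : ℝ, 0 ≤ x ∧ x ≤ 1 ∧ z = cutS x) ∧ IsUsualTop M E σ ∧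
    (∀ g, g ∈ N ↔ g ∈ M ∧ ZFSet.IsFunc R E g) ∧ IsPowTop M σ R N ν ∧
    C ⊆ N ∧ IsHomeo X τ C (subTop ν C) h

/-- In `M`, the set `Θ` is a partial function from the reals `R` to `X` with dense range. -/
structure DenseIx (X R Θ : ZFSet.{0}) (d : ZFSet.{0} → ZFSet.{0} → ℝ) : Prop where
  fn : ∀ z p p', pair z p ∈ Θ → pair z p' ∈ Θ → p = p'
  rg : ∀ z p, pair z p ∈ Θ → z ∈ R ∧ p ∈ X
  ds : ∀ x ∈ X, ∀ ε : ℝ, 0 < ε → ∃ z p, pair z p ∈ Θ ∧ d x p < ε

section

variable {M : Set ZFSet.{0}} (hM : IsZF M) (hQ : Qc ∈ M) (hL : LQ ∈ M)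

include hM hQ hL

theorem exists_unit {R : ZFSet.{0}} (hRM : R ∈ M) (hR : ∀ z, z ∈ R ↔ z ∈ M ∧ ∃ x : ℝ, z = cutS x) :
    ∃ E ∈ M, ∀ z, z ∈ E ↔ z ∈ M ∧ ∃ x : ℝ, 0 ≤ x ∧ x ≤ 1 ∧ z = cutS x := by
  have hB := hM.base
  have h0 : qc (0, 0, 0) ∈ M := hM.trans _ hQ _ (mem_Qc.2 ⟨_, rfl⟩)
  have h1 : qc (1, 0, 0) ∈ M := hM.trans _ hQ _ (mem_Qc.2 ⟨_, rfl⟩)
  have e0 : qv (0, 0, 0) = 0 := by simp [qv]
  have e1 : qv (1, 0, 0) = 1 := by simp [qv]
  refine ⟨ZFSet.sep (fun z => (∀ q ∈ Qc, pair q (qc (0, 0, 0)) ∈ LQ → q ∈ z) ∧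
    ∀ q ∈ z, pair q (qc (1, 0, 0)) ∈ LQ) R, ?_, fun z => ?_⟩
  · generalize qc (0, 0, 0) = a at h0
    generalize qc (1, 0, 0) = b at h1
    refine hM.sep_mem (Q := fun z => (∀ q ∈ Qc, pair q a ∈ LQ → q ∈ z) ∧
      ∀ q ∈ z, pair q b ∈ LQ) ?_ hRM
    (repeat' first
      | assumption
      | exact DfnF.proj _
      | exact DfnF.const (by assumption)
      | exact DfnF.const' (by first | assumption | trivial) (by first | assumption | trivial)
      | exact Dfn.prop _
      | apply hB.isFunc' | apply hB.isInj' | apply hB.isBij' | apply hB.isOrdinal'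
      | apply hB.subset' | apply hB.pair' | apply hB.insert'
      | apply Dfn.not | apply Dfn.and | apply Dfn.or | apply Dfn.imp | apply Dfn.iff
      | apply hB.bex | apply hB.ball | apply Dfn.ex | apply Dfn.all
      | apply Dfn.eq | apply Dfn.mem)
  · rw [ZFSet.mem_sep, hR]
    constructor
    · rintro ⟨⟨hz, x, rfl⟩, h2, h3⟩
      refine ⟨hz, x, ?_, ?_, rfl⟩
      · by_contra h4
        push Not at h4
        obtain ⟨t, h5, h6⟩ := exists_qv_btwn h4
        have h7 := h2 (qc t) (mem_Qc.2 ⟨t, rfl⟩) (mem_LQ.2 (by rw [e0]; exact h6))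
        rw [qc_mem_cutS] at h7
        linarith
      · by_contra h4
        push Not at h4
        obtain ⟨t, h5, h6⟩ := exists_qv_btwn h4
        have h7 := h3 (qc t) (qc_mem_cutS.2 h6)
        rw [mem_LQ, e1] at h7
        linarith
    · rintro ⟨hz, x, h2, h3, rfl⟩
      refine ⟨⟨hz, x, rfl⟩, fun q hq h4 => ?_, fun q hq => ?_⟩
      · obtain ⟨t, rfl⟩ := mem_Qc.1 hq
        rw [mem_LQ, e0] at h4
        exact qc_mem_cutS.2 (by linarith)
      · obtain ⟨t, h4, rfl⟩ := mem_cutS.1 hq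
        rw [mem_LQ, e1]
        linarith

variable {X τ : ZFSet.{0}} {d : ZFSet.{0} → ZFSet.{0} → ℝ} (hX : X ∈ M) (m : MetricIn M X τ d)

include hX m

/-- The cuts of the bounded distances. -/
theorem exists_W : ∃ W ∈ M, ∀ x ∈ X, ∀ p ∈ X, ∀ t : ℕ × ℕ × ℕ,
    pair (pair x p) (qc t) ∈ W ↔ qv t < min 1 (d x p) := by
  have hB := hM.base
  have hom : ZFSet.omega ∈ M := hM.infinity
  obtain ⟨G, hG, hG'⟩ := m.coded
  have h0 : nat 0 ∈ M := hM.nat_mem 0
  have h1 : qc (1, 0, 0) ∈ M := hM.trans _ hQ _ (mem_Qc.2 ⟨_, rfl⟩)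
  have e1 : qv (1, 0, 0) = 1 := by simp [qv]
  have hXX : ZFSet.prod X X ∈ M := hM.prod_mem hX hX
  have hrel : ∃ W ∈ M, W ⊆ ZFSet.prod (ZFSet.prod X X) Qc ∧ ∀ u q, pair u q ∈ W ↔
      u ∈ ZFSet.prod X X ∧ q ∈ Qc ∧ pair q (qc (1, 0, 0)) ∈ LQ ∧
      ∃ a ∈ ZFSet.omega, ∃ b ∈ ZFSet.omega, pair q (pair (pair a (nat 0)) b) ∈ LQ ∧
        ¬ pair u (pair a b) ∈ G := by
    generalize qc (1, 0, 0) = c at h1
    generalize nat 0 = o at h0
    refine hM.rel_mem (x := ZFSet.prod X X) (y := Qc) hXX hQ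
      (Q := fun u q => pair q c ∈ LQ ∧ ∃ a ∈ ZFSet.omega, ∃ b ∈ ZFSet.omega,
        pair q (pair (pair a o) b) ∈ LQ ∧ ¬ pair u (pair a b) ∈ G) ?_
    (repeat' first
      | assumption
      | exact DfnF.proj _
      | exact DfnF.const (by assumption)
      | exact DfnF.const' (by first | assumption | trivial) (by first | assumption | trivial)
      | exact Dfn.prop _
      | apply Dfn.not | apply Dfn.and | apply Dfn.or | apply Dfn.imp | apply Dfn.iff
      | apply hB.bex | apply hB.ball | apply Dfn.ex | apply Dfn.all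
      | apply Dfn.eq | apply Dfn.mem | apply hB.pair' | apply hB.subset' | apply hB.insert'
      | apply hB.isFunc' | apply hB.isInj' | apply hB.isBij' | apply hB.isOrdinal')
  obtain ⟨W, hW, -, hW'⟩ := hrel
  refine ⟨W, hW, fun x hx p hp t => ?_⟩
  rw [hW', ZFSet.pair_mem_prod, mem_LQ, e1, lt_min_iff]
  have hd : 0 ≤ d x p := m.nonneg hM hX hx hp
  have hGn : ∀ a b : ℕ, pair (pair x p) (pair (nat a) (nat b)) ∈ G ↔ d x p < a / (b + 1) := by
    intro a b
    rw [hG']
    constructor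
    · rintro ⟨x', -, y', -, a', b', h5, h6⟩
      obtain ⟨h7, h8⟩ := ZFSet.pair_inj.1 h5
      obtain ⟨rfl, rfl⟩ := ZFSet.pair_inj.1 h7
      obtain ⟨h9, h10⟩ := ZFSet.pair_inj.1 h8
      rw [nat_injective h9, nat_injective h10]
      exact h6
    · intro h5
      exact ⟨x, hx, p, hp, a, b, rfl, h5⟩
  constructor
  · rintro ⟨-, -, h2, a, ha, b, hb, h3, h4⟩
    obtain ⟨a, rfl⟩ := mem_omega_iff.1 ha
    obtain ⟨b, rfl⟩ := mem_omega_iff.1 hb
    have h5 : pair (pair (nat a) (nat 0)) (nat b) = qc (a, 0, b) := rfl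
    rw [h5, mem_LQ] at h3
    rw [hGn, not_lt] at h4
    have h6 : qv (a, 0, b) = a / (b + 1) := by simp [qv]
    rw [h6] at h3
    exact ⟨h2, lt_of_lt_of_le h3 h4⟩
  · rintro ⟨h2, h3⟩
    refine ⟨⟨hx, hp⟩, mem_Qc.2 ⟨t, rfl⟩, h2, ?_⟩
    -- a nonnegative rational number between `qv t` and the distance
    obtain ⟨a, b, h4, h5⟩ : ∃ a b : ℕ, qv t < (a : ℝ) / (b + 1) ∧ (a : ℝ) / (b + 1) ≤ d x p := by
      rcases lt_or_ge (qv t) 0 with h4 | h4
      · exact ⟨0, 0, by simpa using h4, by simpa using hd⟩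
      · obtain ⟨⟨a, a', b⟩, h5, h6⟩ := exists_qv_btwn h3
        have h7 : qv (a, a', b) = ((a : ℝ) - a') / (b + 1) := rfl
        have h8 : (0 : ℝ) < (b : ℝ) + 1 := by positivity
        have h9 : (0 : ℝ) < ((a : ℝ) - a') / (b + 1) := by
          rw [← h7]
          linarith
        have h10 : (0 : ℝ) < (a : ℝ) - a' := by
          rcases div_pos_iff.1 h9 with h | h
          · exact h.1
          · linarith [h.2]
        have h11 : a' ≤ a := by
          have : (a' : ℝ) ≤ a := by linarith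
          exact_mod_cast this
        refine ⟨a - a', b, ?_, ?_⟩
        · rw [Nat.cast_sub h11, ← h7]
          exact h5
        · rw [Nat.cast_sub h11, ← h7]
          exact h6.le
    have h5' : pair (pair (nat a) (nat 0)) (nat b) = qc (a, 0, b) := rfl
    refine ⟨nat a, mem_omega_iff.2 ⟨a, rfl⟩, nat b, mem_omega_iff.2 ⟨b, rfl⟩, ?_, ?_⟩
    · rw [h5', mem_LQ]
      have h6 : qv (a, 0, b) = a / (b + 1) := by simp [qv]
      rw [h6]
      exact h4
    · rw [hGn, not_lt]
      exact h5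

/-- **A metrizable space with a dense subset that is an image of a set of reals embeds into the
Tychonoff cube.** -/
theorem embeds_of_dense (hτM : τ ∈ M) {R : ZFSet.{0}} (hRM : R ∈ M)
    (hR : ∀ z, z ∈ R ↔ z ∈ M ∧ ∃ x : ℝ, z = cutS x) {Θ : ZFSet.{0}} (hΘM : Θ ∈ M)
    (hΘ : DenseIx X R Θ d) : EmbedsInCube M X τ := by
  classical
  have hB := hM.base
  have hom : ZFSet.omega ∈ M := hM.infinity
  obtain ⟨E, hEM, hE⟩ := exists_unit hM hQ hL hRM hR
  have hEr : IsRealSet E := fun z hz => by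
    obtain ⟨-, x, -, -, rfl⟩ := (hE z).1 hz
    exact ⟨x, rfl⟩
  obtain ⟨σ, hσM, hσ⟩ := exists_top hM hQ hL hEM hEr
  obtain ⟨N, hNM, ν, hνM, hN, hν⟩ := exists_power hM hEM hσM hRM
  obtain ⟨W, hWM, hW⟩ := exists_W hM hQ hL hX m
  have hc0 : cutS 0 ∈ M := cut0_mem hM hQ hL
  have hc0E : cutS 0 ∈ E := (hE _).2 ⟨hc0, 0, le_rfl, zero_le_one, rfl⟩
  -- the values
  let val : ZFSet.{0} → ZFSet.{0} → ℝ := fun y z =>
    if h : ∃ p, pair z p ∈ Θ then min 1 (d y h.choose) else 0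
  have val_of : ∀ {y z p}, pair z p ∈ Θ → val y z = min 1 (d y p) := by
    intro y z p hp
    have h : ∃ p, pair z p ∈ Θ := ⟨p, hp⟩
    simp only [val]
    rw [dif_pos h, hΘ.fn z _ _ h.choose_spec hp]
  have val_not : ∀ {y z}, (¬ ∃ p, pair z p ∈ Θ) → val y z = 0 := by
    intro y z h
    simp only [val]
    rw [dif_neg h]
  have cutW : ∀ y ∈ X, ∀ p ∈ X, ∀ v : ZFSet.{0}, v ∈ E →
      ((∀ q ∈ Qc, (q ∈ v ↔ pair (pair y p) q ∈ W)) ↔ v = cutS (min 1 (d y p))) := by
    intro y hy p hp v hv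
    constructor
    · intro h
      obtain ⟨-, x, -, -, rfl⟩ := (hE v).1 hv
      ext q
      constructor
      · intro hq
        obtain ⟨t, -, rfl⟩ := mem_cutS.1 hq
        have h1 := (h _ (mem_Qc.2 ⟨t, rfl⟩)).1 hq
        exact qc_mem_cutS.2 ((hW y hy p hp t).1 h1)
      · intro hq
        obtain ⟨t, ht, rfl⟩ := mem_cutS.1 hq
        exact (h _ (mem_Qc.2 ⟨t, rfl⟩)).2 ((hW y hy p hp t).2 ht)
    · rintro rfl q hq
      obtain ⟨t, rfl⟩ := mem_Qc.1 hq
      rw [qc_mem_cutS, hW y hy p hp t]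
  have cutM : ∀ y ∈ X, ∀ p ∈ X, cutS (min 1 (d y p)) ∈ M := by
    intro y hy p hp
    have h1 : cutS (min 1 (d y p)) = ZFSet.sep (fun q => pair (pair y p) q ∈ W) Qc := by
      ext q
      rw [ZFSet.mem_sep]
      constructor
      · intro hq
        obtain ⟨t, ht, rfl⟩ := mem_cutS.1 hq
        exact ⟨mem_Qc.2 ⟨t, rfl⟩, (hW y hy p hp t).2 ht⟩
      · rintro ⟨hq, h2⟩
        obtain ⟨t, rfl⟩ := mem_Qc.1 hq
        exact qc_mem_cutS.2 ((hW y hy p hp t).1 h2)
    rw [h1]
    have hyM := hM.trans _ hX _ hy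
    have hpM := hM.trans _ hX _ hp
    exact hM.sep_mem (Q := fun q => pair (pair y p) q ∈ W) (by
      (repeat' first
        | assumption
        | exact DfnF.proj _
        | exact DfnF.const (by assumption)
        | exact DfnF.const' (by first | assumption | trivial) (by first | assumption | trivial)
        | exact Dfn.prop _
        | apply Dfn.not | apply Dfn.and | apply Dfn.or | apply Dfn.imp | apply Dfn.iff
        | apply hB.bex | apply hB.ball | apply Dfn.ex | apply Dfn.all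
        | apply Dfn.eq | apply Dfn.mem | apply hB.pair' | apply hB.subset' | apply hB.insert'
        | apply hB.isFunc' | apply hB.isInj' | apply hB.isBij' | apply hB.isOrdinal')) hQ
  have hd : ∀ y ∈ X, ∀ p ∈ X, 0 ≤ d y p := fun y hy p hp => m.nonneg hM hX hy hp
  have valE : ∀ y ∈ X, ∀ z, cutS (val y z) ∈ E := by
    intro y hy z
    by_cases h : ∃ p, pair z p ∈ Θ
    · obtain ⟨p, hp⟩ := h
      rw [val_of hp]
      have hpX := (hΘ.rg z p hp).2
      exact (hE _).2 ⟨cutM y hy p hpX, _, le_min zero_le_one (hd y hy p hpX), min_le_left _ _, rfl⟩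
    · rw [val_not h]
      exact hc0E
  -- the relation between the point, the coordinate and the value
  have vv : ∀ y ∈ X, ∀ z v : ZFSet.{0}, v ∈ E →
      (((∃ p ∈ X, pair z p ∈ Θ ∧ ∀ q ∈ Qc, (q ∈ v ↔ pair (pair y p) q ∈ W)) ∨
        ((∀ p ∈ X, pair z p ∉ Θ) ∧ v = cutS 0)) ↔ v = cutS (val y z)) := by
    intro y hy z v hv
    constructor
    · rintro (⟨p, hpX, hp, h⟩ | ⟨h, rfl⟩)
      · rw [(cutW y hy p hpX v hv).1 h, val_of hp]
      · rw [val_not]
        rintro ⟨p, hp⟩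
        exact h p (hΘ.rg z p hp).2 hp
    · rintro rfl
      by_cases h : ∃ p, pair z p ∈ Θ
      · obtain ⟨p, hp⟩ := h
        have hpX := (hΘ.rg z p hp).2
        refine Or.inl ⟨p, hpX, hp, (cutW y hy p hpX _ hv).2 ?_⟩
        rw [val_of hp]
      · rw [val_not h]
        exact Or.inr ⟨fun p _ hp => h ⟨p, hp⟩, rfl⟩
  -- the evaluation
  let ev : ZFSet.{0} → ZFSet.{0} := fun y =>
    ZFSet.sep (fun t => ∃ z ∈ R, ∃ v ∈ E, t = pair z v ∧
      ((∃ p ∈ X, pair z p ∈ Θ ∧ ∀ q ∈ Qc, (q ∈ v ↔ pair (pair y p) q ∈ W)) ∨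
        ((∀ p ∈ X, pair z p ∉ Θ) ∧ v = cutS 0))) (ZFSet.prod R E)
  have mem_ev : ∀ y ∈ X, ∀ z v, pair z v ∈ ev y ↔ z ∈ R ∧ v = cutS (val y z) := by
    intro y hy z v
    simp only [ev]
    rw [ZFSet.mem_sep, ZFSet.pair_mem_prod]
    constructor
    · rintro ⟨-, z', hz, v', hv, h, h1⟩
      obtain ⟨rfl, rfl⟩ := ZFSet.pair_inj.1 h
      exact ⟨hz, (vv y hy z v hv).1 h1⟩
    · rintro ⟨hz, rfl⟩
      have hv := valE y hy z
      exact ⟨⟨hz, hv⟩, z, hz, _, hv, rfl, (vv y hy z _ hv).2 rfl⟩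
  have ev_sub : ∀ y, ev y ⊆ ZFSet.prod R E := fun y z hz => (ZFSet.mem_sep.1 hz).1
  have ev_N : ∀ y ∈ X, ev y ∈ N := by
    intro y hy
    have hyM := hM.trans _ hX _ hy
    refine (hN _).2 ⟨?_, ev_sub y, fun z hz => ?_⟩
    · simp only [ev]
      generalize cutS 0 = c0 at hc0
      refine hM.sep_mem (Q := fun t => ∃ z ∈ R, ∃ v ∈ E, t = pair z v ∧
        ((∃ p ∈ X, pair z p ∈ Θ ∧ ∀ q ∈ Qc, (q ∈ v ↔ pair (pair y p) q ∈ W)) ∨
          ((∀ p ∈ X, pair z p ∉ Θ) ∧ v = c0))) ?_ (hM.prod_mem hRM hEM)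
      (repeat' first
        | assumption
        | exact DfnF.proj _
        | exact DfnF.const (by assumption)
        | exact DfnF.const' (by first | assumption | trivial) (by first | assumption | trivial)
        | exact Dfn.prop _
        | apply Dfn.not | apply Dfn.and | apply Dfn.or | apply Dfn.imp | apply Dfn.iff
        | apply hB.bex | apply hB.ball | apply Dfn.ex | apply Dfn.all
        | apply Dfn.eq | apply Dfn.mem | apply hB.pair' | apply hB.subset' | apply hB.insert'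
        | apply hB.isFunc' | apply hB.isInj' | apply hB.isBij' | apply hB.isOrdinal')
    · exact ⟨cutS (val y z), (mem_ev y hy z _).2 ⟨hz, rfl⟩,
        fun v hv => ((mem_ev y hy z v).1 hv).2⟩
  have val_eq : ∀ y ∈ X, ∀ y' ∈ X, ev y = ev y' → ∀ z ∈ R, val y z = val y' z := by
    intro y hy y' hy' h z hz
    have h1 : pair z (cutS (val y z)) ∈ ev y := (mem_ev y hy z _).2 ⟨hz, rfl⟩
    rw [h, mem_ev y' hy'] at h1
    exact cutS_injective h1.2
  have sep3 : ∀ y ∈ X, ∀ ε : ℝ, 0 < ε → ε ≤ 1 → ∃ z ∈ R, val y z < ε / 3 ∧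
      ∀ y' ∈ X, val y' z < 2 * ε / 3 → d y y' < ε := by
    intro y hy ε hε hε1
    obtain ⟨z, p, hp, h1⟩ := hΘ.ds y hy (ε / 3) (by linarith)
    have hzR := (hΘ.rg z p hp).1
    have hpX := (hΘ.rg z p hp).2
    refine ⟨z, hzR, ?_, fun y' hy' h2 => ?_⟩
    · rw [val_of hp]
      exact lt_of_le_of_lt (min_le_right _ _) h1
    · rw [val_of hp] at h2
      have h3 : d y' p < 2 * ε / 3 := by
        rcases min_lt_iff.1 h2 with h | h
        · linarith
        · exact h
      have h4 := m.tri y hy p hpX y' hy'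
      rw [m.symm p hpX y' hy'] at h4
      linarith
  have ev_inj : ∀ y ∈ X, ∀ y' ∈ X, ev y = ev y' → y = y' := by
    intro y hy y' hy' h
    by_contra hne
    have h0 : 0 < d y y' := by
      rcases (hd y hy y' hy').lt_or_eq with h1 | h1
      · exact h1
      · exact absurd (m.eq_of y hy y' hy' h1.symm) hne
    obtain ⟨z, hz, h1, h2⟩ := sep3 y hy (min 1 (d y y')) (lt_min one_pos h0) (min_le_left _ _)
    have h3 := h2 y' hy' (by
      rw [← val_eq y hy y' hy' h z hz]
      have : 0 < min 1 (d y y') := lt_min one_pos h0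
      linarith)
    exact absurd h3 (not_lt.2 (min_le_right _ _))
  -- the graph of the embedding
  obtain ⟨h, hhM, hh⟩ : ∃ h ∈ M, ∀ t, t ∈ h ↔ ∃ y ∈ X, t = pair y (ev y) := by
    refine ⟨ZFSet.sep (fun t => ∃ y ∈ X, ∃ g ∈ N, t = pair y g ∧ ∀ z ∈ R, ∀ v ∈ E,
      (pair z v ∈ g ↔ ((∃ p ∈ X, pair z p ∈ Θ ∧ ∀ q ∈ Qc, (q ∈ v ↔ pair (pair y p) q ∈ W)) ∨
        ((∀ p ∈ X, pair z p ∉ Θ) ∧ v = cutS 0)))) (ZFSet.prod X N), ?_, fun t => ?_⟩
    · generalize cutS 0 = c0 at hc0
      refine hM.sep_mem (Q := fun t => ∃ y ∈ X, ∃ g ∈ N, t = pair y g ∧ ∀ z ∈ R, ∀ v ∈ E,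
        (pair z v ∈ g ↔ ((∃ p ∈ X, pair z p ∈ Θ ∧ ∀ q ∈ Qc, (q ∈ v ↔ pair (pair y p) q ∈ W)) ∨
          ((∀ p ∈ X, pair z p ∉ Θ) ∧ v = c0)))) ?_ (hM.prod_mem hX hNM)
      (repeat' first
        | assumption
        | exact DfnF.proj _
        | exact DfnF.const (by assumption)
        | exact DfnF.const' (by first | assumption | trivial) (by first | assumption | trivial)
        | exact Dfn.prop _
        | apply Dfn.not | apply Dfn.and | apply Dfn.or | apply Dfn.imp | apply Dfn.iff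
        | apply hB.bex | apply hB.ball | apply Dfn.ex | apply Dfn.all
        | apply Dfn.eq | apply Dfn.mem | apply hB.pair' | apply hB.subset' | apply hB.insert'
        | apply hB.isFunc' | apply hB.isInj' | apply hB.isBij' | apply hB.isOrdinal')
    · rw [ZFSet.mem_sep]
      constructor
      · rintro ⟨-, y, hy, g, hg, rfl, h1⟩
        refine ⟨y, hy, ?_⟩
        congr 1
        have hgf := ((hN g).1 hg).2
        ext u
        constructor
        · intro hu
          obtain ⟨z, hz, v, hv, rfl⟩ := ZFSet.mem_prod.1 (hgf.1 hu)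
          exact (mem_ev y hy z v).2 ⟨hz, (vv y hy z v hv).1 ((h1 z hz v hv).1 hu)⟩
        · intro hu
          obtain ⟨z, hz, v, hv, rfl⟩ := ZFSet.mem_prod.1 (ev_sub y hu)
          exact (h1 z hz v hv).2 ((vv y hy z v hv).2 ((mem_ev y hy z v).1 hu).2)
      · rintro ⟨y, hy, rfl⟩
        refine ⟨ZFSet.pair_mem_prod.2 ⟨hy, ev_N y hy⟩, y, hy, ev y, ev_N y hy, rfl,
          fun z hz v hv => ?_⟩
        rw [mem_ev y hy, vv y hy z v hv]
        exact ⟨fun h => h.2, fun h => ⟨hz, h⟩⟩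
  have hpair : ∀ y g, pair y g ∈ h ↔ y ∈ X ∧ g = ev y := by
    intro y g
    rw [hh]
    constructor
    · rintro ⟨y', hy', h1⟩
      obtain ⟨rfl, rfl⟩ := ZFSet.pair_inj.1 h1
      exact ⟨hy', rfl⟩
    · rintro ⟨hy, rfl⟩
      exact ⟨y, hy, rfl⟩
  -- the image
  obtain ⟨C, hCM, hC⟩ : ∃ C ∈ M, ∀ g, g ∈ C ↔ ∃ y ∈ X, g = ev y := by
    refine ⟨ZFSet.sep (fun g => ∃ y ∈ X, pair y g ∈ h) N, ?_, fun g => ?_⟩
    · refine hM.sep_mem (Q := fun g => ∃ y ∈ X, pair y g ∈ h) ?_ hNM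
      (repeat' first
        | assumption
        | exact DfnF.proj _
        | exact DfnF.const (by assumption)
        | exact DfnF.const' (by first | assumption | trivial) (by first | assumption | trivial)
        | exact Dfn.prop _
        | apply Dfn.not | apply Dfn.and | apply Dfn.or | apply Dfn.imp | apply Dfn.iff
        | apply hB.bex | apply hB.ball | apply Dfn.ex | apply Dfn.all
        | apply Dfn.eq | apply Dfn.mem | apply hB.pair' | apply hB.subset' | apply hB.insert'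
        | apply hB.isFunc' | apply hB.isInj' | apply hB.isBij' | apply hB.isOrdinal')
    · rw [ZFSet.mem_sep]
      constructor
      · rintro ⟨-, y, hy, h1⟩
        exact ⟨y, hy, ((hpair _ _).1 h1).2⟩
      · rintro ⟨y, hy, rfl⟩
        exact ⟨ev_N y hy, y, hy, (hpair _ _).2 ⟨hy, rfl⟩⟩
  have hCN : C ⊆ N := fun g hg => by
    obtain ⟨y, hy, rfl⟩ := (hC g).1 hg
    exact ev_N y hy
  have lip : ∀ y ∈ X, ∀ y' ∈ X, ∀ z, |val y z - val y' z| ≤ d y y' := by
    intro y hy y' hy' z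
    have h0 := hd y hy y' hy'
    by_cases h1 : ∃ p, pair z p ∈ Θ
    · obtain ⟨p, hp⟩ := h1
      have hpX := (hΘ.rg z p hp).2
      rw [val_of hp, val_of hp]
      have h2 := m.tri y hy y' hy' p hpX
      have h3 := m.tri y' hy' y hy p hpX
      rw [m.symm y' hy' y hy] at h3
      rw [abs_le]
      constructor
      · rcases le_total 1 (d y p) with h4 | h4
        · rw [min_eq_left h4]
          have := min_le_left 1 (d y' p)
          linarith
        · rw [min_eq_right h4]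
          have := min_le_right 1 (d y' p)
          linarith
      · rcases le_total 1 (d y' p) with h4 | h4
        · rw [min_eq_left h4]
          have := min_le_left 1 (d y p)
          linarith
        · rw [min_eq_right h4]
          have := min_le_right 1 (d y p)
          linarith
    · rw [val_not h1, val_not h1]
      simpa using h0
  refine ⟨R, hRM, E, hEM, σ, hσM, N, hNM, ν, hνM, C, hCM, h, hhM, hR, hE, hσ, hN, hν, hCN,
    ⟨⟨⟨⟨?_, ?_⟩, ?_⟩, ?_⟩, ?_⟩⟩
  · intro t ht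
    obtain ⟨y, hy, rfl⟩ := (hh t).1 ht
    exact ZFSet.pair_mem_prod.2 ⟨hy, (hC _).2 ⟨y, hy, rfl⟩⟩
  · intro y hy
    exact ⟨ev y, (hpair _ _).2 ⟨hy, rfl⟩, fun g hg => ((hpair _ _).1 hg).2⟩
  · intro a b c ha hb
    obtain ⟨ha1, ha2⟩ := (hpair _ _).1 ha
    obtain ⟨hb1, hb2⟩ := (hpair _ _).1 hb
    exact ev_inj a ha1 b hb1 (ha2.symm.trans hb2)
  · intro g hg
    obtain ⟨y, hy, rfl⟩ := (hC g).1 hg
    exact ⟨y, hy, (hpair _ _).2 ⟨hy, rfl⟩⟩
  · intro U hUX
    rw [sub_pow hM hσM hRM hNM hν hCM hCN]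
    have hmemA : ∀ g, g ∈ ZFSet.sep (fun y => ∃ x ∈ U, pair x y ∈ h) C ↔
        ∃ x ∈ U, g = ev x := by
      intro g
      rw [ZFSet.mem_sep]
      constructor
      · rintro ⟨-, x, hx, h2⟩
        exact ⟨x, hx, ((hpair _ _).1 h2).2⟩
      · rintro ⟨x, hx, rfl⟩
        exact ⟨(hC _).2 ⟨x, hUX hx, rfl⟩, x, hx, (hpair _ _).2 ⟨hUX hx, rfl⟩⟩
    constructor
    · intro hU
      obtain ⟨hUM, -, hUn⟩ := (m.top U).1 hU
      refine ⟨?_, fun z hz => (ZFSet.mem_sep.1 hz).1, fun g hg => ?_⟩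
      · refine hM.sep_mem (Q := fun y => ∃ x ∈ U, pair x y ∈ h) ?_ hCM
        (repeat' first
          | assumption
          | exact DfnF.proj _
          | exact DfnF.const (by assumption)
          | exact DfnF.const' (by first | assumption | trivial) (by first | assumption | trivial)
          | exact Dfn.prop _
          | apply Dfn.not | apply Dfn.and | apply Dfn.or | apply Dfn.imp | apply Dfn.iff
          | apply hB.bex | apply hB.ball | apply Dfn.ex | apply Dfn.all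
          | apply Dfn.eq | apply Dfn.mem | apply hB.pair' | apply hB.subset' | apply hB.insert'
          | apply hB.isFunc' | apply hB.isInj' | apply hB.isBij' | apply hB.isOrdinal')
      · obtain ⟨x, hx, rfl⟩ := (hmemA g).1 hg
        obtain ⟨ε, hε, h2⟩ := hUn x hx
        have hε' : 0 < min ε 1 := lt_min hε one_pos
        obtain ⟨z, hz, h3, h4⟩ := sep3 x (hUX hx) (min ε 1) hε' (min_le_right _ _)
        obtain ⟨t, h5, h6⟩ := exists_qv_btwn (show min ε 1 / 3 < 2 * min ε 1 / 3 by linarith)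
        have htM : qc t ∈ M := hM.trans _ hQ _ (mem_Qc.2 ⟨_, rfl⟩)
        have hlt := dfn_LtC hM hQ hL
        -- the condition
        have hVM : ZFSet.sep (fun v => LtC v (qc t)) E ∈ M := by
          generalize qc t = c at htM
          refine hM.sep_mem (Q := fun v => LtC v c) ?_ hEM
          (repeat' first
            | apply Dfn.comp2 (Q := fun a b => LtC a b) hlt
            | assumption
            | exact DfnF.proj _
            | exact DfnF.const (by assumption)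
            | exact DfnF.const' (by first | assumption | trivial) (by first | assumption | trivial)
            | exact Dfn.prop _)
        have hVσ : ZFSet.sep (fun v => LtC v (qc t)) E ∈ σ := by
          refine (hσ _).2 ⟨hVM, fun v hv => (ZFSet.mem_sep.1 hv).1, fun s hs => ?_⟩
          have h7 := (ZFSet.mem_sep.1 hs).2
          rw [ltC_iff] at h7
          refine ⟨qv t - s, by linarith, fun s' hs' h8 => ZFSet.mem_sep.2 ⟨hs', ?_⟩⟩
          rw [ltC_iff]
          rw [abs_lt] at h8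
          linarith
        refine ⟨{(z, ZFSet.sep (fun v => LtC v (qc t)) E)}, fun c hc => ?_, fun g' hg' h7 => ?_⟩
        · rw [Finset.mem_singleton.1 hc]
          dsimp only
          refine ⟨hz, hVσ, cutS (val x z), ZFSet.mem_sep.2 ⟨valE x (hUX hx) z, ?_⟩,
            (mem_ev x (hUX hx) z _).2 ⟨hz, rfl⟩⟩
          rw [ltC_iff]
          linarith
        · obtain ⟨y, hy, rfl⟩ := (hC g').1 hg'
          obtain ⟨v, hv, h8⟩ := h7 _ (Finset.mem_singleton_self _)
          dsimp only at hv h8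
          have h9 := ((mem_ev y hy z v).1 h8).2
          subst h9
          have h10 := (ZFSet.mem_sep.1 hv).2
          rw [ltC_iff] at h10
          exact (hmemA _).2 ⟨y, h2 y hy ((h4 y hy (by linarith)).trans_le (min_le_left _ _)), rfl⟩
    · rintro ⟨hAM, -, hAn⟩
      have hUM : U ∈ M := by
        have h8 : U = ZFSet.sep (fun x => ∃ g ∈ ZFSet.sep (fun y => ∃ x ∈ U, pair x y ∈ h) C,
            pair x g ∈ h) X := by
          ext x
          rw [ZFSet.mem_sep]
          constructor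
          · intro hx
            exact ⟨hUX hx, ev x, (hmemA _).2 ⟨x, hx, rfl⟩, (hpair _ _).2 ⟨hUX hx, rfl⟩⟩
          · rintro ⟨hx, g, hg, h2⟩
            obtain ⟨x', hx', rfl⟩ := (hmemA g).1 hg
            rw [ev_inj x hx x' (hUX hx') ((hpair _ _).1 h2).2.symm]
            exact hx'
        rw [h8]
        generalize ZFSet.sep (fun y => ∃ x ∈ U, pair x y ∈ h) C = A at hAM
        refine hM.sep_mem (Q := fun x => ∃ g ∈ A, pair x g ∈ h) ?_ hX
        (repeat' first
          | assumption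
          | exact DfnF.proj _
          | exact DfnF.const (by assumption)
          | exact DfnF.const' (by first | assumption | trivial) (by first | assumption | trivial)
          | exact Dfn.prop _
          | apply Dfn.not | apply Dfn.and | apply Dfn.or | apply Dfn.imp | apply Dfn.iff
          | apply hB.bex | apply hB.ball | apply Dfn.ex | apply Dfn.all
          | apply Dfn.eq | apply Dfn.mem | apply hB.pair' | apply hB.subset' | apply hB.insert'
          | apply hB.isFunc' | apply hB.isInj' | apply hB.isBij' | apply hB.isOrdinal')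
      refine (m.top U).2 ⟨hUM, hUX, fun x hx => ?_⟩
      obtain ⟨F, hF, h2⟩ := hAn (ev x) ((hmemA _).2 ⟨x, hx, rfl⟩)
      have h3 : ∀ G : Finset (ZFSet.{0} × ZFSet.{0}), G ⊆ F → ∃ ε : ℝ, 0 < ε ∧
          ∀ y ∈ X, d x y < ε → ∀ c ∈ G, ∃ v ∈ c.2, pair c.1 v ∈ ev y := by
        intro G
        refine Finset.induction_on G (fun _ => ⟨1, one_pos, fun y _ _ c hc =>
          absurd hc (by simp)⟩) ?_
        intro c G _ ih hG
        obtain ⟨ε, hε, h4⟩ := ih fun c hc => hG (Finset.mem_insert_of_mem hc)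
        obtain ⟨hc1, hc2, v, hv, h5⟩ := hF c (hG (Finset.mem_insert_self _ _))
        have h6 := ((mem_ev x (hUX hx) c.1 v).1 h5).2
        subst h6
        obtain ⟨-, -, h7⟩ := (hσ c.2).1 hc2
        obtain ⟨δ, hδ, h8⟩ := h7 _ hv
        refine ⟨min ε δ, lt_min hε hδ, fun y hy hxy e he => ?_⟩
        rcases Finset.mem_insert.1 he with rfl | he
        · refine ⟨cutS (val y e.1), h8 _ (valE y hy _) ?_, (mem_ev y hy _ _).2 ⟨hc1, rfl⟩⟩
          exact lt_of_le_of_lt (lip x (hUX hx) y hy _) (hxy.trans_le (min_le_right _ _))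
        · exact h4 y hy (hxy.trans_le (min_le_left _ _)) e he
      obtain ⟨ε, hε, h4⟩ := h3 F (Finset.Subset.refl _)
      refine ⟨ε, hε, fun y hy hxy => ?_⟩
      obtain ⟨x', hx', h6⟩ := (hmemA _).1 (h2 (ev y) ((hC _).2 ⟨y, hy, rfl⟩) (h4 y hy hxy))
      rw [ev_inj y hy x' (hUX hx') h6]
      exact hx'

end

end Pool.Agent.Q212.SV
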