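import Pool.Agent.Q212.SV2

/-!
# Coding triples of a set of natural numbers and two natural numbers by real numbers
-/

set_option autoImplicit false
set_option linter.unusedSectionVars false
set_option linter.unreachableTactic false
set_option linter.unusedTactic false

namespace Pool.Agent.Q212.SV

open Pool.Agent.W868 Pool.Agent.W868.PName Pool.Agent.Q211.SY Pool.Agent.Q211.FS
open Pool.Agent.Q211.TP
open ZFSet (pair)

/-- Partial sums of the series of the Cantor function. -/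
noncomputable def ps (f : ℕ → Bool) (n : ℕ) : ℝ :=
  ∑ i ∈ Finset.range n, Cardinal.cantorFunctionAux (1 / 3) f i

theorem aux_nonneg (f : ℕ → Bool) (i : ℕ) : 0 ≤ Cardinal.cantorFunctionAux (1 / 3) f i := by
  unfold Cardinal.cantorFunctionAux
  cases f i
  · simp
  · simp

theorem lt_cantor {f : ℕ → Bool} {q : ℝ} :
    q < Cardinal.cantorFunction (1 / 3) f ↔ ∃ n, q < ps f n := by
  have hs : Summable (Cardinal.cantorFunctionAux (1 / 3) f) :=
    Cardinal.summable_cantor_function f (by norm_num) (by norm_num)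
  constructor
  · intro h
    have h1 := hs.hasSum.tendsto_sum_nat
    have h2 := (tendsto_order.1 h1).1 q h
    obtain ⟨n, hn⟩ := h2.exists
    exact ⟨n, hn⟩
  · rintro ⟨n, hn⟩
    exact hn.trans_le (hs.sum_le_tsum _ fun i _ => aux_nonneg f i)

theorem ps_congr {f g : ℕ → Bool} {n : ℕ} (h : ∀ i < n, f i = g i) : ps f n = ps g n := by
  refine Finset.sum_congr rfl fun i hi => ?_
  unfold Cardinal.cantorFunctionAux
  rw [h i (Finset.mem_range.1 hi)]

theorem exists_bits (f : ℕ → Bool) (n : ℕ) : ∃ c : ℕ, ∀ i < n, c.testBit i = f i :=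
  ⟨Nat.ofBits fun i : Fin n => f i, fun i hi => Nat.testBit_ofBits_lt _ i hi⟩

/-- The relation of the partial sums. -/
noncomputable def CB : ZFSet.{0} :=
  ZFSet.range fun u : {u : (ℕ × ℕ × ℕ) × (ℕ × ℕ) // qv u.1 < ps u.2.2.testBit u.2.1} =>
    pair (qc u.1.1) (pair (nat u.1.2.1) (nat u.1.2.2))

theorem mem_CB {t : ℕ × ℕ × ℕ} {n c : ℕ} :
    pair (qc t) (pair (nat n) (nat c)) ∈ CB ↔ qv t < ps c.testBit n := by
  rw [CB, ZFSet.mem_range]
  constructor
  · rintro ⟨⟨⟨t', n', c'⟩, h⟩, h1⟩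
    obtain ⟨h2, h3⟩ := ZFSet.pair_inj.1 h1
    obtain ⟨h4, h5⟩ := ZFSet.pair_inj.1 h3
    have e1 := qc_injective h2
    have e2 := nat_injective h4
    have e3 := nat_injective h5
    dsimp only at e1 e2 e3
    subst e1 e2 e3
    exact h
  · intro h
    exact ⟨⟨(t, n, c), h⟩, rfl⟩

/-- The relation of the binary digits. -/
noncomputable def Bt : ZFSet.{0} :=
  ZFSet.range fun u : {u : ℕ × ℕ // u.1.testBit u.2} => pair (nat u.1.1) (nat u.1.2)

theorem mem_Bt {c i : ℕ} : pair (nat c) (nat i) ∈ Bt ↔ c.testBit i = true := by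
  rw [Bt, ZFSet.mem_range]
  constructor
  · rintro ⟨⟨⟨c', i'⟩, h⟩, h1⟩
    obtain ⟨h4, h5⟩ := ZFSet.pair_inj.1 h1
    have e2 := nat_injective h4
    have e3 := nat_injective h5
    dsimp only at e2 e3
    subst e2 e3
    exact h
  · intro h
    exact ⟨⟨(c, i), h⟩, rfl⟩

/-- The pairing function. -/
noncomputable def En : ZFSet.{0} :=
  ZFSet.range fun u : ℕ × ℕ => pair (pair (nat u.1) (nat u.2)) (nat (Nat.pair u.1 u.2))

theorem mem_En {a b i : ℕ} : pair (pair (nat a) (nat b)) (nat i) ∈ En ↔ i = Nat.pair a b := by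
  rw [En, ZFSet.mem_range]
  constructor
  · rintro ⟨⟨a', b'⟩, h1⟩
    obtain ⟨h2, h3⟩ := ZFSet.pair_inj.1 h1
    obtain ⟨h4, h5⟩ := ZFSet.pair_inj.1 h2
    have e1 := nat_injective h3
    have e2 := nat_injective h4
    have e3 := nat_injective h5
    dsimp only at e1 e2 e3
    rw [← e1, e2, e3]
  · rintro rfl
    exact ⟨(a, b), rfl⟩

open Classical in
/-- The characteristic function of the code. -/
noncomputable def chi (T : ZFSet.{0}) (k j i : ℕ) : Bool :=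
  decide ((∃ a : ℕ, nat a ∈ T ∧ i = Nat.pair 0 a) ∨ i = Nat.pair 1 k ∨ i = Nat.pair 2 j)

theorem chi_iff {T : ZFSet.{0}} {k j i : ℕ} : chi T k j i = true ↔
    (∃ a : ℕ, nat a ∈ T ∧ i = Nat.pair 0 a) ∨ i = Nat.pair 1 k ∨ i = Nat.pair 2 j := by
  classical
  unfold chi
  rw [decide_eq_true_iff]

theorem chi_inj {T T' : ZFSet.{0}} {k k' j j' : ℕ} (hT : T ⊆ ZFSet.omega)
    (hT' : T' ⊆ ZFSet.omega) (h : chi T k j = chi T' k' j') : T = T' ∧ k = k' ∧ j = j' := by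
  have h1 : ∀ i, chi T k j i = true ↔ chi T' k' j' i = true := fun i => by rw [h]
  simp only [chi_iff] at h1
  refine ⟨?_, ?_, ?_⟩
  · have key : ∀ {T T' : ZFSet.{0}} {k k' j j' : ℕ}, T ⊆ ZFSet.omega →
        (∀ i, ((∃ a : ℕ, nat a ∈ T ∧ i = Nat.pair 0 a) ∨ i = Nat.pair 1 k ∨ i = Nat.pair 2 j) ↔
        ((∃ a : ℕ, nat a ∈ T' ∧ i = Nat.pair 0 a) ∨ i = Nat.pair 1 k' ∨ i = Nat.pair 2 j')) →
        T ⊆ T' := by
      intro T T' k k' j j' hT h1 z hz
      obtain ⟨a, rfl⟩ := mem_omega_iff.1 (hT hz)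
      rcases (h1 (Nat.pair 0 a)).1 (Or.inl ⟨a, hz, rfl⟩) with ⟨b, hb, h2⟩ | h2 | h2
      · rw [Nat.pair_eq_pair] at h2
        rw [h2.2]
        exact hb
      · rw [Nat.pair_eq_pair] at h2
        exact absurd h2.1 (by norm_num)
      · rw [Nat.pair_eq_pair] at h2
        exact absurd h2.1 (by norm_num)
    ext z
    exact ⟨fun hz => key hT h1 hz, fun hz => key hT' (fun i => (h1 i).symm) hz⟩
  · rcases (h1 (Nat.pair 1 k)).1 (Or.inr (Or.inl rfl)) with ⟨b, hb, h2⟩ | h2 | h2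
    · rw [Nat.pair_eq_pair] at h2
      exact absurd h2.1 (by norm_num)
    · rw [Nat.pair_eq_pair] at h2
      exact h2.2
    · rw [Nat.pair_eq_pair] at h2
      exact absurd h2.1 (by norm_num)
  · rcases (h1 (Nat.pair 2 j)).1 (Or.inr (Or.inr rfl)) with ⟨b, hb, h2⟩ | h2 | h2
    · rw [Nat.pair_eq_pair] at h2
      exact absurd h2.1 (by norm_num)
    · rw [Nat.pair_eq_pair] at h2
      exact absurd h2.1 (by norm_num)
    · rw [Nat.pair_eq_pair] at h2
      exact h2.2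

/-- The real number that codes a set of natural numbers and two natural numbers. -/
noncomputable def xr (T : ZFSet.{0}) (k j : ℕ) : ℝ := Cardinal.cantorFunction (1 / 3) (chi T k j)

theorem xr_inj {T T' : ZFSet.{0}} {k k' j j' : ℕ} (hT : T ⊆ ZFSet.omega)
    (hT' : T' ⊆ ZFSet.omega) (h : xr T k j = xr T' k' j') : T = T' ∧ k = k' ∧ j = j' :=
  chi_inj hT hT' (Cardinal.cantorFunction_injective (by norm_num) (by norm_num) h)

/-- The number `i` is in the code of the triple. -/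
def InT (T k j i : ZFSet.{0}) : Prop :=
  (∃ a ∈ T, pair (pair (nat 0) a) i ∈ En) ∨ pair (pair (nat 1) k) i ∈ En ∨
    pair (pair (nat 2) j) i ∈ En

theorem inT_iff {T : ZFSet.{0}} (hT : T ⊆ ZFSet.omega) {k j i : ℕ} :
    InT T (nat k) (nat j) (nat i) ↔ chi T k j i = true := by
  rw [chi_iff]
  unfold InT
  rw [mem_En, mem_En]
  refine or_congr_left ?_
  constructor
  · rintro ⟨a, ha, h⟩
    obtain ⟨a, rfl⟩ := mem_omega_iff.1 (hT ha)
    exact ⟨a, ha, mem_En.1 h⟩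
  · rintro ⟨a, ha, h⟩
    exact ⟨nat a, ha, mem_En.2 h⟩

/-- The element `q` is in the cut of the code of the triple. -/
def CtT (T k j q : ZFSet.{0}) : Prop :=
  ∃ n ∈ ZFSet.omega, ∃ c ∈ ZFSet.omega, (∀ i ∈ n, (pair c i ∈ Bt ↔ InT T k j i)) ∧
    pair q (pair n c) ∈ CB

theorem ctT_iff {T : ZFSet.{0}} (hT : T ⊆ ZFSet.omega) {k j : ℕ} {t : ℕ × ℕ × ℕ} :
    CtT T (nat k) (nat j) (qc t) ↔ qv t < xr T k j := by
  unfold CtT xr
  rw [lt_cantor]
  constructor
  · rintro ⟨n, hn, c, hc, h1, h2⟩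
    obtain ⟨n, rfl⟩ := mem_omega_iff.1 hn
    obtain ⟨c, rfl⟩ := mem_omega_iff.1 hc
    rw [mem_CB] at h2
    refine ⟨n, ?_⟩
    rw [ps_congr (g := c.testBit)]
    · exact h2
    · intro i hi
      have h3 := h1 (nat i) (nat_mem_nat.2 hi)
      rw [mem_Bt, inT_iff hT] at h3
      exact Bool.eq_iff_iff.2 h3.symm
  · rintro ⟨n, hn⟩
    obtain ⟨c, hc⟩ := exists_bits (chi T k j) n
    refine ⟨nat n, mem_omega_iff.2 ⟨n, rfl⟩, nat c, mem_omega_iff.2 ⟨c, rfl⟩, fun i hi => ?_, ?_⟩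
    · obtain ⟨i, hi', rfl⟩ := mem_nat_iff.1 hi
      rw [mem_Bt, inT_iff hT, hc i hi']
    · rw [mem_CB, ps_congr hc]
      exact hn

/-- The set `z` is the cut of the code of the triple. -/
def ZrT (T k j z : ZFSet.{0}) : Prop := ∀ q ∈ Qc, (q ∈ z ↔ CtT T k j q)

theorem zrT_iff {T : ZFSet.{0}} (hT : T ⊆ ZFSet.omega) {k j : ℕ} {z : ZFSet.{0}}
    (hz : ∃ x : ℝ, z = cutS x) : ZrT T (nat k) (nat j) z ↔ z = cutS (xr T k j) := by
  obtain ⟨x, rfl⟩ := hz
  constructor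
  · intro h
    ext q
    constructor
    · intro hq
      obtain ⟨t, -, rfl⟩ := mem_cutS.1 hq
      exact qc_mem_cutS.2 ((ctT_iff hT).1 ((h _ (mem_Qc.2 ⟨t, rfl⟩)).1 hq))
    · intro hq
      obtain ⟨t, ht, rfl⟩ := mem_cutS.1 hq
      exact (h _ (mem_Qc.2 ⟨t, rfl⟩)).2 ((ctT_iff hT).2 ht)
  · intro h q hq
    obtain ⟨t, rfl⟩ := mem_Qc.1 hq
    rw [h, qc_mem_cutS, ctT_iff hT]

section

variable {M : Set ZFSet.{0}} (hM : IsZF M) (hQ : Qc ∈ M) (hCB : CB ∈ M) (hBt : Bt ∈ M)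
  (hEn : En ∈ M)

include hM hQ hCB hBt hEn

theorem dfn_CtT : Dfn M M fun w : Fin 4 → ZFSet.{0} => CtT (w 0) (w 1) (w 2) (w 3) := by
  have hB := hM.base
  have hom : ZFSet.omega ∈ M := hM.infinity
  have h0 := hM.nat_mem 0
  have h1 := hM.nat_mem 1
  have h2 := hM.nat_mem 2
  unfold CtT InT
  generalize nat 0 = o0 at h0
  generalize nat 1 = o1 at h1
  generalize nat 2 = o2 at h2
  (repeat' first
    | assumption
    | exact DfnF.proj _
    | exact DfnF.const (by assumption)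
    | exact DfnF.const' (by first | assumption | trivial) (by first | assumption | trivial)
    | exact Dfn.prop _
    | apply Dfn.not | apply Dfn.and | apply Dfn.or | apply Dfn.imp | apply Dfn.iff
    | apply hB.bex | apply hB.ball | apply Dfn.ex | apply Dfn.all
    | apply Dfn.eq | apply Dfn.mem | apply hB.pair' | apply hB.subset' | apply hB.insert'
    | apply hB.isFunc' | apply hB.isInj' | apply hB.isBij' | apply hB.isOrdinal')

theorem dfn_ZrT : Dfn M M fun w : Fin 4 → ZFSet.{0} => ZrT (w 0) (w 1) (w 2) (w 3) := by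
  have hB := hM.base
  have hC := dfn_CtT hM hQ hCB hBt hEn
  unfold ZrT
  refine hB.ball (DfnF.const hQ) (Dfn.iff (Dfn.mem (DfnF.proj 0) (DfnF.proj 4)) ?_)
  exact hC.comp ![1, 2, 3, 0]

theorem xr_mem {T : ZFSet.{0}} (hT : T ⊆ ZFSet.omega) (hTM : T ∈ M) (k j : ℕ) :
    cutS (xr T k j) ∈ M := by
  have h1 : cutS (xr T k j) = ZFSet.sep (fun q => CtT T (nat k) (nat j) q) Qc := by
    ext q
    rw [ZFSet.mem_sep]
    constructor
    · intro hq
      obtain ⟨t, ht, rfl⟩ := mem_cutS.1 hq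
      exact ⟨mem_Qc.2 ⟨t, rfl⟩, (ctT_iff hT).2 ht⟩
    · rintro ⟨hq, h2⟩
      obtain ⟨t, rfl⟩ := mem_Qc.1 hq
      exact qc_mem_cutS.2 ((ctT_iff hT).1 h2)
  rw [h1]
  have hC := dfn_CtT hM hQ hCB hBt hEn
  have hk := hM.nat_mem k
  have hj := hM.nat_mem j
  refine hM.sep_mem (Q := fun q => CtT T (nat k) (nat j) q) ?_ hQ
  exact Dfn.comp4 (Q := fun a b c e => CtT a b c e) hC (DfnF.const hTM) (DfnF.const hk)
    (DfnF.const hj) (DfnF.proj 0)

end

end Pool.Agent.Q212.SV
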