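import Pool.Agent.Q212.SV3

/-!
# Dense images of sets of reals in compact metric spaces
-/

set_option autoImplicit false
set_option linter.unusedSectionVars false
set_option linter.unreachableTactic false
set_option linter.unusedTactic false

namespace Pool.Agent.Q212.SV

open Pool.Agent.W868 Pool.Agent.W868.PName Pool.Agent.Q211.SY Pool.Agent.Q211.FS
open Pool.Agent.Q211.TP
open ZFSet (pair)

/-- The size of a set in bijection with a natural number. -/
theorem ncard_of_bij {j : ℕ} {S f : ZFSet.{0}} (h : IsBij (nat j) S f) :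
    {z | z ∈ S}.Finite ∧ {z | z ∈ S}.ncard = j := by
  classical
  obtain ⟨⟨⟨h1, h2⟩, h3⟩, h4⟩ := h
  have h5 : ∀ i : ℕ, ∃ z, i < j → pair (nat i) z ∈ f := by
    intro i
    by_cases hi : i < j
    · obtain ⟨z, hz, -⟩ := h2 _ (nat_mem_nat.2 hi)
      exact ⟨z, fun _ => hz⟩
    · exact ⟨∅, fun h => absurd h hi⟩
  choose F hF using h5
  have h6 : {z | z ∈ S} = F '' (Finset.range j : Set ℕ) := by
    ext z
    simp only [Set.mem_setOf_eq, Set.mem_image, Finset.coe_range, Set.mem_Iio]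
    constructor
    · intro hz
      obtain ⟨a, ha, hf⟩ := h4 z hz
      obtain ⟨i, hi, rfl⟩ := mem_nat_iff.1 ha
      exact ⟨i, hi, (h2 _ ha).unique (hF i hi) hf⟩
    · rintro ⟨i, hi, rfl⟩
      exact (ZFSet.pair_mem_prod.1 (h1 (hF i hi))).2
  have h7 : Set.InjOn F (Finset.range j : Set ℕ) := by
    intro a ha b hb hab
    have ha' := hF a (by simpa using ha)
    have hb' := hF b (by simpa using hb)
    rw [hab] at ha'
    exact nat_injective (h3 _ _ _ ha' hb')
  rw [h6]
  refine ⟨(Finset.finite_toSet _).image _, ?_⟩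
  rw [Set.ncard_image_of_injOn h7, Set.ncard_coe_finset, Finset.card_range]

/-- Small covers of compact metric spaces. -/
theorem small_cover {M : Set ZFSet.{0}} {X τ D : ZFSet.{0}} {d : ZFSet.{0} → ZFSet.{0} → ℝ}
    (s : Sp0 M X τ d D) (k : ℕ) : ∃ F : Finset ZFSet.{0},
      (∀ U ∈ F, ∀ a ∈ U, ∀ b ∈ U, a ∈ X → b ∈ X → d a b < 1 / (k + 1)) ∧
      ∀ x ∈ X, ∃ U ∈ F, x ∈ U := by
  have hB := s.hM.base
  have h1 := s.hτ
  have h2 := s.hX
  have h3 := s.hD
  have h4 := s.hM.nat_mem (2 * k + 1)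
  obtain ⟨F, hF, hF'⟩ := s.cpt
    (ZFSet.sep (fun U => ∃ x ∈ X, ∀ y ∈ U, pair (pair x y) (nat (2 * k + 1)) ∈ D) τ)
    (s.hM.sep_mem (Q := fun U => ∃ x ∈ X, ∀ y ∈ U, pair (pair x y) (nat (2 * k + 1)) ∈ D) (by
      (repeat' first
        | assumption
        | exact DfnF.proj _
        | exact DfnF.const (by assumption)
        | exact DfnF.const' (by first | assumption | trivial) (by first | assumption | trivial)
        | exact Dfn.prop _
        | apply Dfn.not | apply Dfn.and | apply Dfn.or | apply Dfn.imp | apply Dfn.iff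
        | apply hB.bex | apply hB.ball | apply Dfn.ex | apply Dfn.all
        | apply Dfn.eq | apply Dfn.mem | apply hB.pair' | apply hB.subset' | apply hB.insert'
        | apply hB.isFunc' | apply hB.isInj' | apply hB.isBij' | apply hB.isOrdinal')) h1)
      (fun U hU => (ZFSet.mem_sep.1 hU).1) (by
      intro x hx
      obtain ⟨U, hU, hxU, hU'⟩ := s.ball x hx (2 * k + 1)
      refine ⟨U, ZFSet.mem_sep.2 ⟨hU, x, hx, fun y hy => ?_⟩, hxU⟩
      obtain ⟨hyX, h5⟩ := (hU' y).1 hy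
      exact (s.ent x hx y hyX _).2 h5)
  refine ⟨F, fun U hU a ha b hb haX hbX => ?_, hF'⟩
  obtain ⟨-, c, hc, h9⟩ := ZFSet.mem_sep.1 (hF _ hU)
  have h10 := (s.ent c hc a haX _).1 (h9 _ ha)
  have h11 := (s.ent c hc b hbX _).1 (h9 _ hb)
  have h12 := s.m.tri a haX c hc b hbX
  rw [s.m.symm a haX c hc] at h12
  have h13 : (1 : ℝ) / ((2 * k + 1 : ℕ) + 1) + 1 / ((2 * k + 1 : ℕ) + 1) = 1 / (k + 1) := by
    push_cast
    field_simp
    ring
  linarith

/-- A function `F` on pairs of an ordinal and a set of natural numbers whose values include the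
elements of `X`. -/
structure SVF (M : Set ZFSet.{0}) (X F : ZFSet.{0}) : Prop where
  FM : F ∈ M
  ty : ∀ z ∈ F, ∃ a T y, z = pair (pair a T) y ∧ a.IsOrdinal ∧ T ⊆ ZFSet.omega
  fn : ∀ a T y y', pair (pair a T) y ∈ F → pair (pair a T) y' ∈ F → y = y'
  sj : ∀ y ∈ X, ∃ a T, pair (pair a T) y ∈ F

namespace SVF

variable {M : Set ZFSet.{0}} {X F : ZFSet.{0}} (v : SVF M X F)

include v

theorem ord {a T y : ZFSet.{0}} (h : pair (pair a T) y ∈ F) : a.IsOrdinal := by
  obtain ⟨a', T', y', h1, h2, -⟩ := v.ty _ h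
  obtain ⟨h3, -⟩ := ZFSet.pair_inj.1 h1
  obtain ⟨rfl, -⟩ := ZFSet.pair_inj.1 h3
  exact h2

theorem nats {a T y : ZFSet.{0}} (h : pair (pair a T) y ∈ F) : T ⊆ ZFSet.omega := by
  obtain ⟨a', T', y', h1, -, h2⟩ := v.ty _ h
  obtain ⟨h3, -⟩ := ZFSet.pair_inj.1 h1
  obtain ⟨-, rfl⟩ := ZFSet.pair_inj.1 h3
  exact h2

end SVF

/-- The ordinal `a` gives an element of `X`. -/
def dm (X F T a : ZFSet.{0}) : Prop := ∃ p ∈ X, pair (pair a T) p ∈ F

/-- The elements given by `b` and `a` are not close. -/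
def far (X F T k D b a : ZFSet.{0}) : Prop := ∀ p ∈ X, ∀ p' ∈ X, pair (pair a T) p ∈ F →
  pair (pair b T) p' ∈ F → ¬ pair (pair p' p) k ∈ D

/-- The greedily chosen ordinals. -/
noncomputable def gr (X F T k D : ZFSet.{0}) : ZFSet.{0} → Prop :=
  WellFounded.fix ZFSet.mem_wf fun a rec =>
    dm X F T a ∧ ∀ b (h : b ∈ a), rec b h → far X F T k D b a

theorem gr_iff {X F T k D a : ZFSet.{0}} : gr X F T k D a ↔
    dm X F T a ∧ ∀ b ∈ a, gr X F T k D b → far X F T k D b a := by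
  unfold gr
  rw [WellFounded.fix_eq]

/-- The set `S` is the set of the greedily chosen ordinals. -/
def IsG (M : Set ZFSet.{0}) (X F T k D S : ZFSet.{0}) : Prop := ∀ a ∈ M, (a ∈ S ↔
  dm X F T a ∧ ∀ b ∈ S, b ∈ a → far X F T k D b a)

theorem isG_iff {M : Set ZFSet.{0}} (hM : IsZF M) {X F T k D S : ZFSet.{0}} (hF : F ∈ M)
    (hS : S ∈ M) : IsG M X F T k D S ↔ ∀ a, a ∈ S ↔ gr X F T k D a := by
  have hdm : ∀ a, dm X F T a → a ∈ M := by
    rintro a ⟨p, -, hp⟩
    have h1 := hM.trans _ hF _ hp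
    exact (hM.of_pair_mem (hM.of_pair_mem h1).1).1
  constructor
  · intro h a
    induction a using ZFSet.inductionOn with
    | h a ih =>
      by_cases ha : a ∈ M
      · rw [h a ha, gr_iff]
        refine and_congr_right fun _ => ⟨fun h1 b hb hg => h1 b ((ih b hb).2 hg) hb,
          fun h1 b hbS hb => h1 b hb ((ih b hb).1 hbS)⟩
      · constructor
        · intro h1
          exact absurd (hM.trans _ hS _ h1) ha
        · intro h1
          exact absurd (hdm a (gr_iff.1 h1).1) ha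
  · intro h a ha
    rw [h, gr_iff]
    refine and_congr_right fun _ => ⟨fun h1 b hbS hb => h1 b hb ((h b).1 hbS),
      fun h1 b hb hg => h1 b ((h b).2 hg) hb⟩

end Pool.Agent.Q212.SV
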