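import Pool.Agent.Q212.SV4

/-!
# Dense images of sets of reals in compact metric spaces, II
-/

set_option autoImplicit false
set_option linter.unusedSectionVars false
set_option linter.unreachableTactic false
set_option linter.unusedTactic false

namespace Pool.Agent.Q212.SV

open Pool.Agent.W868 Pool.Agent.W868.PName Pool.Agent.Q211.SY Pool.Agent.Q211.FS
open Pool.Agent.Q211.TP
open ZFSet (pair)

/-- The set of the greedily chosen ordinals is finite. -/
theorem gr_finite {M : Set ZFSet.{0}} {X τ D F T : ZFSet.{0}} {d : ZFSet.{0} → ZFSet.{0} → ℝ}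
    (s : Sp0 M X τ d D) (v : SVF M X F) (k : ℕ) : {a | gr X F T (nat k) D a}.Finite := by
  classical
  obtain ⟨G, hG1, hG2⟩ := small_cover s k
  have h1 : ∀ a, ∃ p, gr X F T (nat k) D a → p ∈ X ∧ pair (pair a T) p ∈ F := by
    intro a
    by_cases h : gr X F T (nat k) D a
    · obtain ⟨p, hp, hp'⟩ := (gr_iff.1 h).1
      exact ⟨p, fun _ => ⟨hp, hp'⟩⟩
    · exact ⟨∅, fun h' => absurd h' h⟩
  choose P hP using h1
  have h2 : ∀ a, ∃ U, gr X F T (nat k) D a → U ∈ G ∧ P a ∈ U := by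
    intro a
    by_cases h : gr X F T (nat k) D a
    · obtain ⟨U, hU, hU'⟩ := hG2 (P a) (hP a h).1
      exact ⟨U, fun _ => ⟨hU, hU'⟩⟩
    · exact ⟨∅, fun h' => absurd h' h⟩
  choose U hU using h2
  have key : ∀ a b, gr X F T (nat k) D a → gr X F T (nat k) D b → U a = U b → ¬ b ∈ a := by
    intro a b ha hb hab hba
    have h3 := (gr_iff.1 ha).2 b hba hb (P a) (hP a ha).1 (P b) (hP b hb).1 (hP a ha).2 (hP b hb).2
    rw [s.ent _ (hP b hb).1 _ (hP a ha).1] at h3
    refine h3 (hG1 (U b) (hU b hb).1 _ (hU b hb).2 _ ?_ (hP b hb).1 (hP a ha).1)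
    rw [← hab]
    exact (hU a ha).2
  refine Set.Finite.of_injOn (f := U) (t := (G : Set ZFSet.{0}))
    (fun a ha => Finset.mem_coe.2 (hU a ha).1) ?_ G.finite_toSet
  intro a ha b hb hab
  rcases ZFSet.IsOrdinal.mem_trichotomous (v.ord (hP a ha).2) (v.ord (hP b hb).2) with h | h | h
  · exact absurd h (key b a hb ha hab.symm)
  · exact h
  · exact absurd h (key a b ha hb hab)

/-- The point `p` is the value of `F` at the greedily chosen ordinal with position `j`. -/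
def Vl (M : Set ZFSet.{0}) (X F D T k j p : ZFSet.{0}) : Prop :=
  ∃ S ∈ M, IsG M X F T k D S ∧ ∃ a ∈ S, pair (pair a T) p ∈ F ∧
    ∃ S' ∈ M, (∀ b ∈ M, (b ∈ S' ↔ b ∈ S ∧ b ∈ a)) ∧ ∃ f ∈ M, IsBij j S' f

section

variable {M : Set ZFSet.{0}} {X τ D F : ZFSet.{0}} {d : ZFSet.{0} → ZFSet.{0} → ℝ}
  (s : Sp0 M X τ d D) (v : SVF M X F)

include s v

theorem vl_fn {T p p' : ZFSet.{0}} {k j : ℕ} (h : Vl M X F D T (nat k) (nat j) p)
    (h' : Vl M X F D T (nat k) (nat j) p') : p = p' := by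
  obtain ⟨S, hS, h1, a, ha, h2, S', hS', h3, f, hf, h4⟩ := h
  obtain ⟨S2, hS2, h1', a', ha', h2', S2', hS2', h3', f', hf', h4'⟩ := h'
  rw [isG_iff s.hM v.FM hS] at h1
  rw [isG_iff s.hM v.FM hS2] at h1'
  have e1 : S = S2 := by
    ext z
    rw [h1, h1']
  subst e1
  obtain ⟨f1, c1⟩ := ncard_of_bij h4
  obtain ⟨f2, c2⟩ := ncard_of_bij h4'
  have key : ∀ {a a' S' S2' : ZFSet.{0}}, a ∈ S → a'.IsOrdinal → S' ∈ M → S2' ∈ M →
      (∀ b ∈ M, (b ∈ S' ↔ b ∈ S ∧ b ∈ a)) → (∀ b ∈ M, (b ∈ S2' ↔ b ∈ S ∧ b ∈ a')) →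
      {z | z ∈ S2'}.Finite → {z | z ∈ S'}.ncard = j → {z | z ∈ S2'}.ncard = j → ¬ a ∈ a' := by
    intro a a' S' S2' haS ho hS' hS2' h3 h3' f2 c1 c2 haa
    have h5 : {z | z ∈ S'} ⊂ {z | z ∈ S2'} := by
      refine ⟨fun z hz => ?_, fun hle => ?_⟩
      · have hzM := s.hM.trans _ hS' _ hz
        obtain ⟨hz1, hz2⟩ := (h3 z hzM).1 hz
        exact (h3' z hzM).2 ⟨hz1, ho.mem_trans hz2 haa⟩
      · have haM := s.hM.trans _ hS _ haS
        have h6 : a ∈ S2' := (h3' a haM).2 ⟨haS, haa⟩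
        exact ZFSet.mem_irrefl _ ((h3 a haM).1 (hle h6)).2
    have h6 := Set.ncard_lt_ncard h5 f2
    omega
  have o1 := v.ord h2
  have o2 := v.ord h2'
  rcases ZFSet.IsOrdinal.mem_trichotomous o1 o2 with h | h | h
  · exact absurd h (key ha o2 hS' hS2' h3 h3' f2 c1 c2)
  · subst h
    exact v.fn _ _ _ _ h2 h2'
  · exact absurd h (key ha' o1 hS2' hS' h3' h3 f1 c2 c1)

theorem exists_vl {T a p : ZFSet.{0}} (k : ℕ) (ha : gr X F T (nat k) D a)
    (hp : pair (pair a T) p ∈ F) : ∃ j : ℕ, Vl M X F D T (nat k) (nat j) p := by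
  have hM := s.hM
  have hB := hM.base
  have hfin := gr_finite (T := T) s v k
  have hdm : ∀ a, gr X F T (nat k) D a → a ∈ M := by
    intro a h
    obtain ⟨p, -, hp⟩ := (gr_iff.1 h).1
    have h1 := hM.trans _ v.FM _ hp
    exact (hM.of_pair_mem (hM.of_pair_mem h1).1).1
  obtain ⟨S, hS, hS'⟩ := exists_fin_mem hM hfin.toFinset fun z hz => hdm z (hfin.mem_toFinset.1 hz)
  have h1 : ∀ z, z ∈ S ↔ gr X F T (nat k) D z := fun z => by
    rw [hS', hfin.mem_toFinset]
    exact Iff.rfl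
  have haM := hdm a ha
  have h2 : ZFSet.sep (fun b => b ∈ a) S ∈ M := by
    refine hM.sep_mem (Q := fun b => b ∈ a) ?_ hS
    (repeat' first
      | assumption
      | exact DfnF.proj _
      | exact DfnF.const (by assumption)
      | apply Dfn.mem)
  have h3 : {z | z ∈ ZFSet.sep (fun b => b ∈ a) S}.Finite := by
    refine hfin.subset fun z hz => ?_
    exact (h1 z).1 (ZFSet.mem_sep.1 hz).1
  obtain ⟨j, f, hf, hf'⟩ := exists_bij_of_finite hM h2 h3
  exact ⟨j, S, hS, (isG_iff hM v.FM hS).2 h1, a, (h1 a).2 ha, hp, _, h2,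
    fun b _ => ZFSet.mem_sep, f, hf, hf'⟩

theorem dfn_Vl : Dfn M M fun w : Fin 4 → ZFSet.{0} => Vl M X F D (w 0) (w 1) (w 2) (w 3) := by
  have hB := s.hM.base
  have h1 := s.hX
  have h2 := s.hD
  have h3 := v.FM
  unfold Vl IsG dm far
  (repeat' first
    | assumption
    | exact DfnF.proj _
    | exact DfnF.const (by assumption)
    | exact DfnF.const' (by first | assumption | trivial) (by first | assumption | trivial)
    | exact Dfn.prop _
    | apply hB.isFunc' | apply hB.isInj' | apply hB.isBij' | apply hB.isOrdinal'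
    | apply hB.subset' | apply hB.pair' | apply hB.insert'
    | apply Dfn.not | apply Dfn.and | apply Dfn.or | apply Dfn.imp | apply Dfn.iff
    | apply hB.bex | apply hB.ball | apply Dfn.ex | apply Dfn.all
    | apply Dfn.eq | apply Dfn.mem)

/-- **Compact metrizable spaces that are images of pairs of ordinals and sets of natural numbers
have dense subsets that are images of sets of reals.** -/
theorem exists_dense (hQ : Qc ∈ M) (hCB : CB ∈ M) (hBt : Bt ∈ M) (hEn : En ∈ M) {R : ZFSet.{0}}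
    (hRM : R ∈ M) (hR : ∀ z, z ∈ R ↔ z ∈ M ∧ ∃ x : ℝ, z = cutS x) :
    ∃ Θ ∈ M, DenseIx X R Θ d := by
  have hM := s.hM
  have hB := hM.base
  have hom : ZFSet.omega ∈ M := hM.infinity
  have hXM := s.hX
  have hC := dfn_ZrT hM hQ hCB hBt hEn
  have hV := dfn_Vl s v
  obtain ⟨Θ, hΘ, -, h1⟩ := hM.rel_mem (x := R) (y := X) hRM hXM
    (Q := fun z p => ∃ T ∈ M, T ⊆ ZFSet.omega ∧ ∃ k ∈ ZFSet.omega, ∃ j ∈ ZFSet.omega,
      ZrT T k j z ∧ Vl M X F D T k j p) (by
      (repeat' first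
        | apply Dfn.comp4 (Q := fun a b c e => ZrT a b c e) hC
        | apply Dfn.comp4 (Q := fun a b c e => Vl M X F D a b c e) hV
        | assumption
        | exact DfnF.proj _
        | exact DfnF.const (by assumption)
        | exact DfnF.const' (by first | assumption | trivial) (by first | assumption | trivial)
        | exact Dfn.prop _
        | apply Dfn.not | apply Dfn.and | apply Dfn.or | apply Dfn.imp | apply Dfn.iff
        | apply hB.bex | apply hB.ball | apply Dfn.ex | apply Dfn.all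
        | apply Dfn.eq | apply Dfn.mem | apply hB.pair' | apply hB.subset' | apply hB.insert'
        | apply hB.isFunc' | apply hB.isInj' | apply hB.isBij' | apply hB.isOrdinal'))
  refine ⟨Θ, hΘ, ⟨fun z p p' hp hp' => ?_, fun z p hp => ?_, fun x hx ε hε => ?_⟩⟩
  · obtain ⟨hz, -, T, hT, hTs, k, hk, j, hj, h2, h3⟩ := (h1 z p).1 hp
    obtain ⟨-, -, T', hT', hTs', k', hk', j', hj', h2', h3'⟩ := (h1 z p').1 hp'
    obtain ⟨k, rfl⟩ := mem_omega_iff.1 hk
    obtain ⟨j, rfl⟩ := mem_omega_iff.1 hj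
    obtain ⟨k', rfl⟩ := mem_omega_iff.1 hk'
    obtain ⟨j', rfl⟩ := mem_omega_iff.1 hj'
    have hz' := ((hR z).1 hz).2
    rw [zrT_iff hTs hz'] at h2
    rw [zrT_iff hTs' hz'] at h2'
    obtain ⟨rfl, rfl, rfl⟩ := xr_inj hTs hTs' (cutS_injective (h2.symm.trans h2'))
    exact vl_fn s v h3 h3'
  · obtain ⟨hz, hpX, -⟩ := (h1 z p).1 hp
    exact ⟨hz, hpX⟩
  · obtain ⟨k, hk⟩ := exists_nat_one_div_lt hε
    obtain ⟨a, T, haT⟩ := v.sj x hx
    have hTs := v.nats haT
    have hTM : T ∈ M := (hM.of_pair_mem (hM.of_pair_mem (hM.trans _ v.FM _ haT)).1).2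
    have key : ∀ b p, gr X F T (nat k) D b → p ∈ X → pair (pair b T) p ∈ F →
        ∃ z, pair z p ∈ Θ := by
      intro b p hb hpX hp
      obtain ⟨j, hj⟩ := exists_vl s v k hb hp
      have hcM := xr_mem hM hQ hCB hBt hEn hTs hTM k j
      have hcR : cutS (xr T k j) ∈ R := (hR _).2 ⟨hcM, _, rfl⟩
      exact ⟨cutS (xr T k j), (h1 _ _).2 ⟨hcR, hpX, T, hTM, hTs, nat k, mem_omega_iff.2 ⟨k, rfl⟩,
        nat j, mem_omega_iff.2 ⟨j, rfl⟩, (zrT_iff hTs ⟨_, rfl⟩).2 rfl, hj⟩⟩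
    by_cases hg : gr X F T (nat k) D a
    · obtain ⟨z, hz⟩ := key a x hg hx haT
      refine ⟨z, x, hz, ?_⟩
      rw [s.m.self x hx]
      exact hε
    · rw [gr_iff] at hg
      have h2 : dm X F T a := ⟨x, hx, haT⟩
      have h3 : ∃ b ∈ a, gr X F T (nat k) D b ∧ ¬ far X F T (nat k) D b a := by
        by_contra hcon
        push Not at hcon
        exact hg ⟨h2, hcon⟩
      obtain ⟨b, hb, hbg, hbf⟩ := h3
      unfold far at hbf
      push Not at hbf
      obtain ⟨p, hp, p', hp', h4, h5, h6⟩ := hbf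
      have h7 : p = x := v.fn _ _ _ _ h4 haT
      subst h7
      rw [s.ent p' hp' p hp] at h6
      obtain ⟨z, hz⟩ := key b p' hbg hp' h5
      refine ⟨z, p', hz, ?_⟩
      rw [s.m.symm p hp p' hp']
      exact h6.trans hk

end

end Pool.Agent.Q212.SV
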