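import Pool.Agent.Q212.SV5
import Pool.Agent.Q212.SV1

/-!
# A model of ZF with a family of pairs without a choice function in which the compact metrizable
spaces embed into the Tychonoff cube
-/

set_option autoImplicit false
set_option linter.unusedSectionVars false
set_option linter.unreachableTactic false
set_option linter.unusedTactic false

namespace Pool.Agent.Q212.SV

open Pool.Agent.W868 Pool.Agent.W868.PName Pool.Agent.Q211.SY Pool.Agent.Q211.FS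
open Pool.Agent.Q211.PA Pool.Agent.Q211.TP Pool.Agent.Q211.AM
open ZFSet (pair)

section

variable {X : Type} {Γ : Type} [Group Γ] [MulAction Γ X] {N : NFil Γ}

/-- The same with additional names and rules. -/
theorem exists_pm3r [Countable X] (hN : N.Pt X) (A0 : Set (PName (PX X))) (hA0 : A0.Countable)
    (Q0 : Set (Rule (PX X))) (hQ0 : Q0.Countable) (𝓓 : Set (Set X)) (h𝓓 : 𝓓.Countable)
    (hinv : ∀ γ : Γ, ∀ D ∈ 𝓓, im' γ D ∈ 𝓓) (hsym : ∀ D ∈ 𝓓, ∃ H ∈ N.F, ∀ g ∈ H, im' g D = D)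
    (𝔉 : Set (Set (Set X))) (h𝔉 : 𝔉.Countable) (hsub : ∀ φ ∈ 𝔉, φ ⊆ 𝓓)
    (hinvF : ∀ γ : Γ, ∀ φ ∈ 𝔉, imF γ φ ∈ 𝔉) (hsymF : ∀ φ ∈ 𝔉, ∃ H ∈ N.F, ∀ g ∈ H, imF g φ = φ)
    (cd : ℕ → ZFSet.{0}) (hcd : ∀ n, Cd (cd n))
    (Rl : ℕ → ℕ → Set X → Prop) (hRl : ∀ k n, ∀ γ : Γ, ∀ D ∈ 𝓓, Rl k n (im' γ D) ↔ Rl k n D) :
    ∃ M at' st fam, PM3 N 𝓓 𝔉 cd Rl M at' st fam ∧ ∃ π, IsPX X N A0 π ∧ ClR Q0 π ∧
      M = (SX X N).Ms π := by
  classical
  have : Countable {D // D ∈ 𝓓} := h𝓓.to_subtype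
  have : Countable {φ // φ ∈ 𝔉} := h𝔉.to_subtype
  obtain ⟨π, h0, hQ0'⟩ := exists_PXR N (A0 ∪ ((Set.range (fun D : {D // D ∈ 𝓓} =>
    (setN D.1 : PName (PX X))) ∪ Set.range (fun φ : {φ // φ ∈ 𝔉} => (setF φ.1 : PName (PX X)))) ∪
    Set.range fun k : ℕ => (relN (fun (n : ℕ) (D : {D // D ∈ 𝓓}) => Rl k n D.1)
      (fun n => check (cd n)) (fun D => setN D.1) : PName (PX X))))
    (hA0.union (((Set.countable_range _).union (Set.countable_range _)).union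
      (Set.countable_range _))) Q0 hQ0
  have h : IsPX X N ((Set.range (fun D : {D // D ∈ 𝓓} =>
    (setN D.1 : PName (PX X))) ∪ Set.range (fun φ : {φ // φ ∈ 𝔉} => (setF φ.1 : PName (PX X)))) ∪
    Set.range fun k : ℕ => (relN (fun (n : ℕ) (D : {D // D ∈ 𝓓}) => Rl k n D.1)
      (fun n => check (cd n)) (fun D => setN D.1) : PName (PX X))) π :=
    ⟨h0.cl, h0.cn, h0.an, h0.dq, h0.dn, h0.qc, h0.lq, fun x hx => h0.sub (Or.inr hx)⟩
  have hA : IsPX X N A0 π :=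
    ⟨h0.cl, h0.cn, h0.an, h0.dq, h0.dn, h0.qc, h0.lq, fun x hx => h0.sub (Or.inl hx)⟩
  have hM := h.isZF
  have hat : ∀ z, Cd z → π.val (check z) = z := fun z hz => (hz.hat π).2
  have hset : ∀ D ∈ 𝓓, (setN D : PName (PX X)) ∈ π.N :=
    fun D hD => h.sub (Or.inl (Or.inl ⟨⟨D, hD⟩, rfl⟩))
  have hfam : ∀ φ ∈ 𝔉, (setF φ : PName (PX X)) ∈ π.N :=
    fun φ hφ => h.sub (Or.inl (Or.inr ⟨⟨φ, hφ⟩, rfl⟩))
  have hnat : ∀ n, (check (cd n) : PName (PX X)) ∈ π.N := fun n => ((hcd n).hat π).1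
  have hvn : ∀ n, π.val (check (cd n)) = cd n := fun n => hat _ (hcd n)
  have hsF : ∀ φ ∈ 𝔉, (SX X N).HS (setF φ) := fun φ hφ =>
    hs_setF hN (fun D hD => hsym D (hsub φ hφ hD)) (hsymF φ hφ)
  refine ⟨(SX X N).Ms π, fun x => π.val (An x), fun D => π.val (setN D),
    fun φ => π.val (setF φ), ⟨hM, h.countable,
    h.Qc_mem, h.LQ_mem, fun x y hxy => h.An_injective hxy, fun x => h.An_mem hN x,
    fun D hD z => ?_, fun D hD => Sys.mem_Ms (hset D hD) (hs_setN hN (hsym D hD)),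
    fun φ hφ z => ?_, fun φ hφ => Sys.mem_Ms (hfam φ hφ) (hsF φ hφ),
    fun k => ?_, ?_⟩, π, hA, hQ0', rfl⟩
  · unfold setN
    rw [mem_mkN]
    constructor
    · rintro ⟨i, -, h1⟩
      exact ⟨i.1, i.2, h1⟩
    · rintro ⟨x, hx, h1⟩
      exact ⟨⟨x, hx⟩, h.an x, h1⟩
  · unfold setF
    rw [mem_mkN]
    constructor
    · rintro ⟨i, -, h1⟩
      exact ⟨i.1, i.2, h1⟩
    · rintro ⟨x, hx, h1⟩
      exact ⟨⟨x, hx⟩, hset x (hsub φ hφ hx), h1⟩
  · have h1 : (relN (fun (n : ℕ) (D : {D // D ∈ 𝓓}) => Rl k n D.1)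
      (fun n => check (cd n)) (fun D => setN D.1) : PName (PX X)) ∈ π.N :=
      h.sub (Or.inr ⟨k, rfl⟩)
    obtain ⟨H, hH⟩ := N.ne
    refine ⟨_, Sys.mem_Ms h1 (hs_relN hH (fun _ => Sys.hs_check _ _)
      (fun D => hs_setN hN (hsym _ D.2)) fun g _ => ⟨1, fperm hinv g.1.1, fun n => by
        rw [ax_check]
        exact Eqv.refl _, fun D => ax_setN g D.1, fun n D => hRl k n _ _ D.2⟩), fun z => ?_⟩
    rw [mem_relN (fun n => hnat n) (fun D => hset _ D.2)]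
    constructor
    · rintro ⟨n, D, h2, h3⟩
      refine ⟨n, D.1, D.2, h2, ?_⟩
      rw [h3, hvn]
    · rintro ⟨n, D, hD, h2, h3⟩
      refine ⟨n, ⟨D, hD⟩, h2, ?_⟩
      rw [h3, hvn]
  · rintro _ ⟨x, ⟨hx, hxS⟩, rfl⟩
    obtain ⟨H, hH, e, hfx⟩ := sym_iffX.1 hxS.sym
    refine ⟨H, hH, e.image Prod.fst, fun γ hγ hγe r hr k Q hQ o ho hq => ?_⟩
    have hγe' : ∀ d ∈ e, γ • d.1 = d.1 := fun d hd => hγe d.1 (Finset.mem_image_of_mem _ hd)
    obtain ⟨g, hg1, hg2⟩ := exists_gg_fix γ e hγe'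
    have s1 : ∀ o : Ob X, FxC Γ e (nO o) := by
      intro o
      rcases o with x | D | φ
      · exact fxC_An _ _
      · exact fxC_setN _ _
      · exact fxC_setF _ _
    have s2 : ∀ o : Ob X, okO 𝓓 𝔉 o → nO o ∈ π.N ∧ (SX X N).HS (nO o) := by
      intro o ho
      rcases o with x | D | φ
      · exact ⟨h.an x, hs_An hN _⟩
      · exact ⟨hset D ho, hs_setN hN (hsym D ho)⟩
      · exact ⟨hfam φ ho, hsF φ ho⟩
    have s3 : ∀ o : Ob X, okO 𝓓 𝔉 o → okO 𝓓 𝔉 (acO γ o) := by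
      intro o ho
      rcases o with x | D | φ
      · exact trivial
      · exact hinv γ D ho
      · exact hinvF γ φ ho
    have s4 : ∀ o : Ob X, Eqv (axg g (nO o)) (nO (acO γ o)) := by
      intro o
      rcases o with x | D | φ
      · have h2 := ax_An g x
        rwa [hg1] at h2
      · have h2 := ax_setN g D
        rwa [hg1] at h2
      · have h2 := ax_setF g φ
        rwa [hg1] at h2
    have s5 : ∀ o : Ob X, π.val (nO o) = vO (fun x => π.val (An x)) (fun D => π.val (setN D))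
        (fun φ => π.val (setF φ)) o := by
      intro o
      rcases o with x | D | φ <;> rfl
    let tu : (Fin k → Ob X) → Fin (k + 2) → PName (PX X) := fun o =>
      Fin.cons x (Fin.cons (check r) fun i => nO (o i))
    have t1 : ∀ i, FxC Γ e (tu o i) := by
      intro i
      refine Fin.cases hfx.fxC (fun i => Fin.cases (fxC_check _ _) (fun i => s1 _) i) i
    have t2 : ∀ o : Fin k → Ob X, (∀ i, okO 𝓓 𝔉 (o i)) → ∀ i,
        tu o i ∈ π.N ∧ (SX X N).HS (tu o i) := by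
      intro o ho i
      refine Fin.cases ⟨hx, hxS⟩ (fun i => Fin.cases ⟨(hr.hat π).1, Sys.hs_check _ _⟩
        (fun i => s2 _ (ho i)) i) i
    have t3 : ∀ i, Eqv (axg g (tu o i)) (tu (fun i => acO γ (o i)) i) := by
      intro i
      refine Fin.cases ?_ (fun i => Fin.cases ?_ (fun i => s4 _) i) i
      · exact hfx g (by rw [hg1]; exact hγ) hg2
      · change Eqv (axg g (check r)) (check r)
        rw [ax_check]
        exact Eqv.refl _
    have t4 : ∀ o : Fin k → Ob X, π.val ∘ tu o =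
        Fin.cons (π.val x) (Fin.cons r fun i => vO (fun x => π.val (An x))
          (fun D => π.val (setN D)) (fun φ => π.val (setF φ)) (o i)) := by
      intro o
      funext i
      refine Fin.cases rfl (fun i => Fin.cases ?_ (fun i => ?_) i) i
      · exact hat r hr
      · exact s5 (o i)
    have h1 := transfer (N := N) h.cl hQ t1 (t2 o ho) (t2 _ fun i => s3 _ (ho i)) g hg2 t3
      (by rw [t4]; exact hq)
    rw [t4] at h1
    exact h1

end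

/-! ### The model -/

/-- The index set. -/
abbrev Xm := ℕ × Bool

/-- The group. -/
abbrev Gm := ℕ → Equiv.Perm Bool

instance : MulAction Gm Xm where
  smul γ x := (x.1, γ x.1 x.2)
  one_smul _ := rfl
  mul_smul _ _ _ := rfl

theorem smul_def (γ : Gm) (x : Xm) : γ • x = (x.1, γ x.1 x.2) := rfl

/-- The pairs. -/
def Dn (n : ℕ) : Set Xm := {x | x.1 = n}

theorem mem_Dn {n : ℕ} {x : Xm} : x ∈ Dn n ↔ x.1 = n := Iff.rfl

theorem im_Dn (γ : Gm) (n : ℕ) : im' γ (Dn n) = Dn n := by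
  ext x
  rw [mem_im', mem_Dn, mem_Dn]
  rfl

theorem Dn_inj {n m : ℕ} (h : Dn n = Dn m) : n = m := by
  have h1 : ((n, true) : Xm) ∈ Dn n := rfl
  rw [h] at h1
  exact h1

/-- The family of the pairs. -/
def FFm : Set (Set Xm) := Set.range Dn

/-- The names of the codes. -/
noncomputable def A0 : Set (PName (PX Xm)) := {check CB, check Bt, check En}

/-- The properties of the model. -/
structure MD (M : Set ZFSet.{0}) (at' : Xm → ZFSet.{0}) (st : Set Xm → ZFSet.{0})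
    (A : ZFSet.{0}) : Prop where
  zf : IsZF M
  cnt : M.Countable
  qc : Qc ∈ M
  lq : LQ ∈ M
  cb : CB ∈ M
  bt : Bt ∈ M
  en : En ∈ M
  inj : Function.Injective at'
  mst : ∀ n z, z ∈ st (Dn n) ↔ ∃ x ∈ Dn n, z = at' x
  AM : A ∈ M
  mA : ∀ z, z ∈ A ↔ ∃ n, z = st (Dn n)
  bij : ∃ F ∈ M, ∀ z, z ∈ F ↔ ∃ n : ℕ, z = pair (nat n) (st (Dn n))
  inv : ∀ f ∈ M, ∃ E : Finset Xm, ∀ γ : Gm, (∀ x ∈ E, γ • x = x) → ∀ n x,
    pair (st (Dn n)) (at' x) ∈ f → pair (st (Dn n)) (at' (γ • x)) ∈ f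
  sv : ∀ Y ∈ M, ∃ F, SVF M Y F

theorem ud_pr : UD fun _ (v : Fin 4 → ZFSet.{0}) => pair (v 2) (v 3) ∈ v 0 := by
  (repeat' first
    | assumption
    | exact UF.proj _
    | exact UD.prop _
    | apply UD.eq | apply UD.mem | apply UF.pair)

theorem exists_md : ∃ M at' st A, MD M at' st A := by
  classical
  obtain ⟨M, at', st, fam, h, π, hπ, hR, hMπ⟩ := exists_pm3r (X := Xm) (Γ := Gm) (N := NFin Xm Gm)
    pt_NFin A0 (by
      unfold A0
      exact (Set.toFinite _).countable) (Rs Xm Gm) (by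
      unfold Rs
      exact (Set.toFinite _).countable)
    FFm (Set.countable_range _)
    (by
      rintro γ _ ⟨n, rfl⟩
      exact ⟨n, (im_Dn γ n).symm⟩)
    (by
      rintro _ ⟨n, rfl⟩
      obtain ⟨H, hH⟩ := (NFin Xm Gm).ne
      exact ⟨H, hH, fun g _ => im_Dn g n⟩)
    {FFm} (Set.countable_singleton _) (by
      rintro φ rfl
      exact fun _ h => h)
    (by
      rintro γ φ rfl
      rw [Set.mem_singleton_iff]
      ext D
      rw [mem_imF]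
      constructor
      · rintro ⟨n, hn⟩
        refine ⟨n, ?_⟩
        have h1 := im'_inv' γ D
        rw [← hn, im_Dn] at h1
        exact h1
      · rintro ⟨n, rfl⟩
        exact ⟨n, (im_Dn _ n).symm⟩)
    (by
      rintro φ rfl
      obtain ⟨H, hH⟩ := (NFin Xm Gm).ne
      refine ⟨H, hH, fun γ _ => ?_⟩
      ext D
      rw [mem_imF]
      constructor
      · rintro ⟨n, hn⟩
        refine ⟨n, ?_⟩
        have h1 := im'_inv' γ D
        rw [← hn, im_Dn] at h1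
        exact h1
      · rintro ⟨n, rfl⟩
        exact ⟨n, (im_Dn _ n).symm⟩)
    nat (fun n => .nat n) (fun _ n D => D = Dn n) (by
      rintro k n γ D ⟨m, rfl⟩
      rw [im_Dn])
  have hc : ∀ z, check z ∈ A0 → (∀ y ∈ z, Cd y) → z ∈ M := by
    intro z hz hy
    have h1 := hat_fix π fun y h2 => (hy y h2).hat π
    rw [← h1, hMπ]
    exact Sys.mem_Ms (hπ.sub hz) (Sys.hs_check _ _)
  obtain ⟨F, hF, hF'⟩ := h.rl 0
  refine ⟨M, at', st, fam FFm, h.zf, h.cnt, h.qc, h.lq, hc _ (by simp [A0]) ?_,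
    hc _ (by simp [A0]) ?_, hc _ (by simp [A0]) ?_, h.inj, fun n z => h.mst _ ⟨n, rfl⟩ z,
    h.famM _ rfl, fun z => ?_, ⟨F, hF, fun z => ?_⟩, fun f hf => ?_, fun Y hY => ?_⟩
  · intro y hy
    obtain ⟨u, rfl⟩ := ZFSet.mem_range.1 hy
    exact .pair (.qc _) (.pair (.nat _) (.nat _))
  · intro y hy
    obtain ⟨u, rfl⟩ := ZFSet.mem_range.1 hy
    exact .pair (.nat _) (.nat _)
  · intro y hy
    obtain ⟨u, rfl⟩ := ZFSet.mem_range.1 hy
    exact .pair (.pair (.nat _) (.nat _)) (.nat _)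
  · rw [h.mfam _ rfl]
    constructor
    · rintro ⟨D, ⟨n, rfl⟩, rfl⟩
      exact ⟨n, rfl⟩
    · rintro ⟨n, rfl⟩
      exact ⟨Dn n, ⟨n, rfl⟩, rfl⟩
  · rw [hF']
    constructor
    · rintro ⟨n, D, -, rfl, rfl⟩
      exact ⟨n, rfl⟩
    · rintro ⟨n, rfl⟩
      exact ⟨n, Dn n, ⟨n, rfl⟩, rfl, rfl⟩
  · obtain ⟨H, ⟨E, hE⟩, e, h1⟩ := h.inv f hf
    refine ⟨E ∪ e, fun γ hγ n x hx => ?_⟩
    have h2 := h1 γ ((hE γ).2 fun x hx => hγ x (Finset.mem_union_left _ hx))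
      (fun x hx => hγ x (Finset.mem_union_right _ hx)) _ (.nat 0) 2 _ ud_pr
      ![.inr (.inl (Dn n)), .inl x] (by
        intro i
        refine Fin.cases ⟨n, rfl⟩ (fun i => ?_) i
        refine Fin.cases trivial (fun i => i.elim0) i) hx
    have h3 : pair (st (im' γ (Dn n))) (at' (γ • x)) ∈ f := h2
    rwa [im_Dn] at h3
  · rw [hMπ] at hY
    obtain ⟨F, hF, h1, h2, h3⟩ := svc hπ hR hY
    rw [← hMπ] at hF
    exact ⟨F, hF, h1, h2, h3⟩

/-- The main result. -/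
theorem main : ∃ M : Set ZFSet.{0}, M.Countable ∧ IsZF M ∧
    (∀ X ∈ M, ∀ τ ∈ M, MetrizableIn M X τ → CompactIn M X τ → EmbedsInCube M X τ) ∧
    ∃ A ∈ M, (∃ f ∈ M, IsBij ZFSet.omega A f) ∧ (∀ s ∈ A, ∃ u v, u ≠ v ∧ s = {u, v}) ∧
      ¬ ∃ c ∈ M, ∀ s ∈ A, ∃ z ∈ s, ∀ w, pair s w ∈ c ↔ w = z := by
  classical
  obtain ⟨M, at', st, A, h⟩ := exists_md
  have hst : ∀ n, st (Dn n) = {at' (n, true), at' (n, false)} := by
    intro n
    ext z
    rw [h.mst, ZFSet.mem_pair]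
    constructor
    · rintro ⟨⟨m, b⟩, hm, rfl⟩
      obtain rfl := mem_Dn.1 hm
      cases b
      · exact Or.inr rfl
      · exact Or.inl rfl
    · rintro (rfl | rfl)
      · exact ⟨_, rfl, rfl⟩
      · exact ⟨_, rfl, rfl⟩
  have hinj : ∀ n m, st (Dn n) = st (Dn m) → n = m := by
    intro n m hnm
    have h1 : at' (n, true) ∈ st (Dn n) := (h.mst _ _).2 ⟨_, rfl, rfl⟩
    rw [hnm, h.mst] at h1
    obtain ⟨x, hx, h2⟩ := h1
    rw [← h.inj h2] at hx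
    exact hx
  refine ⟨M, h.cnt, h.zf, fun X hX τ hτ hmet hcpt => ?_, A, h.AM, ?_, fun s hs => ?_, ?_⟩
  · obtain ⟨d, m⟩ := hmet
    obtain ⟨D, hD, hD'⟩ := exists_ent h.zf hX m
    have s : Sp0 M X τ d D := ⟨h.zf, hX, hτ, m, hD, hD', hcpt⟩
    obtain ⟨F, v⟩ := h.sv X hX
    obtain ⟨R, hRM, hR⟩ := exists_reals h.zf h.qc h.lq
    obtain ⟨Θ, hΘM, hΘ⟩ := exists_dense s v h.qc h.cb h.bt h.en hRM hR
    exact embeds_of_dense h.zf h.qc h.lq hX m hτ hRM hR hΘM hΘ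
  · obtain ⟨F, hF, hF'⟩ := h.bij
    refine ⟨F, hF, ⟨⟨fun z hz => ?_, fun n hn => ?_⟩, fun a b c ha hb => ?_⟩, fun b hb => ?_⟩
    · obtain ⟨n, rfl⟩ := (hF' z).1 hz
      exact ZFSet.pair_mem_prod.2 ⟨mem_omega_iff.2 ⟨n, rfl⟩, (h.mA _).2 ⟨n, rfl⟩⟩
    · obtain ⟨n, rfl⟩ := mem_omega_iff.1 hn
      refine ⟨st (Dn n), (hF' _).2 ⟨n, rfl⟩, fun w hw => ?_⟩
      obtain ⟨m, hm⟩ := (hF' _).1 hw
      obtain ⟨h1, rfl⟩ := ZFSet.pair_inj.1 hm
      rw [nat_injective h1]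
    · obtain ⟨n, hn⟩ := (hF' _).1 ha
      obtain ⟨m, hm⟩ := (hF' _).1 hb
      obtain ⟨rfl, h1⟩ := ZFSet.pair_inj.1 hn
      obtain ⟨rfl, h2⟩ := ZFSet.pair_inj.1 hm
      rw [hinj n m (h1.symm.trans h2)]
    · obtain ⟨n, rfl⟩ := (h.mA _).1 hb
      exact ⟨nat n, mem_omega_iff.2 ⟨n, rfl⟩, (hF' _).2 ⟨n, rfl⟩⟩
  · obtain ⟨n, rfl⟩ := (h.mA _).1 hs
    refine ⟨at' (n, true), at' (n, false), fun h1 => ?_, hst n⟩
    have h2 := h.inj h1
    simp at h2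
  · rintro ⟨c, hc, h1⟩
    obtain ⟨E, hE⟩ := h.inv c hc
    obtain ⟨n, hn⟩ : ∃ n : ℕ, n ∉ E.image Prod.fst := Infinite.exists_notMem_finset _
    obtain ⟨z, hz, h2⟩ := h1 (st (Dn n)) ((h.mA _).2 ⟨n, rfl⟩)
    obtain ⟨x, hx, rfl⟩ := (h.mst _ _).1 hz
    obtain rfl := mem_Dn.1 hx
    let γ : Gm := fun m => if m = x.1 then Equiv.swap true false else 1
    have h3 := hE γ (fun y hy => by
      rw [smul_def]
      have h4 : y.1 ≠ x.1 := by
        intro h5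
        exact hn (h5 ▸ Finset.mem_image_of_mem _ hy)
      have h5 : γ y.1 = 1 := if_neg h4
      rw [h5]
      rfl) x.1 x ((h2 _).2 rfl)
    have h4 := h.inj ((h2 _).1 h3)
    rw [smul_def] at h4
    have h5 := (Prod.ext_iff.1 h4).2
    have h6 : γ x.1 = Equiv.swap true false := if_pos rfl
    dsimp only at h5
    rw [h6] at h5
    cases hb : x.2
    · rw [hb] at h5
      simp at h5
    · rw [hb] at h5
      simp at h5

end Pool.Agent.Q212.SV
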