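import Mathlib

/-!
# Conditions: a set of natural numbers and an `F_σ` ideal which does not contain it
-/

set_option autoImplicit false

namespace Pool.Agent.Q212.TW

open Set

/-- A set `A` together with an `F_σ` ideal (the sets `X` all whose finite subsets are in `K m`, for
some `m`) which does not contain `A`. -/
structure Nd where
  A : Set ℕ
  K : ℕ → Set (Finset ℕ)
  emp : ∀ m, ∅ ∈ K m
  her : ∀ m F F', F ∈ K m → F' ⊆ F → F' ∈ K m
  mono : ∀ m F, F ∈ K m → F ∈ K (m + 1)
  add : ∀ m F F', F ∈ K m → F' ∈ K m → F ∪ F' ∈ K (m + 1)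
  sing : ∀ x, ∃ m, {x} ∈ K m
  pos : ∀ m, ∃ F : Finset ℕ, ↑F ⊆ A ∧ F ∉ K m

namespace Nd

/-- `X` is small -/
def J (K : ℕ → Set (Finset ℕ)) (X : Set ℕ) : Prop := ∃ m, ∀ F : Finset ℕ, ↑F ⊆ X → F ∈ K m

variable (p : Nd)

theorem monoLe {m n : ℕ} (h : m ≤ n) {F : Finset ℕ} (hF : F ∈ p.K m) : F ∈ p.K n := by
  induction h with
  | refl => exact hF
  | step _ ih => exact p.mono _ _ ih

theorem not_J : ¬ J p.K p.A := by
  rintro ⟨m, hm⟩
  obtain ⟨F, h1, h2⟩ := p.pos m
  exact h2 (hm F h1)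

theorem J_mono {X Y : Set ℕ} (h : J p.K X) (hY : Y ⊆ X) : J p.K Y := by
  obtain ⟨m, hm⟩ := h
  exact ⟨m, fun F hF => hm F (hF.trans hY)⟩

theorem J_union {X Y : Set ℕ} (hX : J p.K X) (hY : J p.K Y) : J p.K (X ∪ Y) := by
  classical
  obtain ⟨m, hm⟩ := hX
  obtain ⟨n, hn⟩ := hY
  refine ⟨max m n + 1, fun F hF => ?_⟩
  have h1 : F = F.filter (· ∈ X) ∪ F.filter (· ∉ X) := (Finset.filter_union_filter_not_eq _ F).symm
  rw [h1]
  refine p.add _ _ _ (p.monoLe (le_max_left _ _) (hm _ ?_)) (p.monoLe (le_max_right _ _) (hn _ ?_))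
  · intro x hx
    rw [Finset.mem_coe, Finset.mem_filter] at hx
    exact hx.2
  · intro x hx
    rw [Finset.mem_coe, Finset.mem_filter] at hx
    exact (hF hx.1).resolve_left hx.2

theorem J_empty : J p.K ∅ := ⟨0, fun F hF => by
  have : F = ∅ := by
    rw [← Finset.coe_eq_empty]
    exact subset_empty_iff.1 hF
  rw [this]
  exact p.emp 0⟩

theorem J_fin {X : Set ℕ} (hX : X.Finite) : J p.K X := by
  induction X, hX using Set.Finite.induction_on with
  | empty => exact p.J_empty
  | @insert x X _ _ ih =>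
    rw [insert_eq]
    refine p.J_union ?_ ih
    obtain ⟨m, hm⟩ := p.sing x
    refine ⟨m, fun F hF => p.her m _ _ hm ?_⟩
    rw [← Finset.coe_subset, Finset.coe_singleton]
    exact hF

theorem J_iUnion {ι : Type} [Fintype ι] {X : ι → Set ℕ} (h : ∀ i, J p.K (X i)) :
    J p.K (⋃ i, X i) := by
  classical
  have key : ∀ s : Finset ι, J p.K (⋃ i ∈ s, X i) := by
    intro s
    induction s using Finset.induction_on with
    | empty => simpa using p.J_empty
    | insert i s _ ih =>
      rw [Finset.set_biUnion_insert]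
      exact p.J_union (h i) ih
  have := key Finset.univ
  simpa using this

/-- positive sets have large finite subsets beyond every bound -/
theorem pos_tail {C : Set ℕ} (hC : ¬ J p.K C) (m N : ℕ) :
    ∃ F : Finset ℕ, ↑F ⊆ C ∧ (∀ x ∈ F, N ≤ x) ∧ F ∉ p.K m := by
  by_contra hcon
  push Not at hcon
  apply hC
  have h1 : J p.K (C ∩ {x | N ≤ x}) := ⟨m, fun F hF => hcon F (hF.trans inter_subset_left)
    fun x hx => (hF hx).2⟩
  have h2 : J p.K {x | x < N} := p.J_fin (Set.finite_lt_nat N)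
  refine p.J_mono (p.J_union h1 h2) fun x hx => ?_
  by_cases h : N ≤ x
  · exact Or.inl ⟨hx, h⟩
  · exact Or.inr (not_le.1 h)

/-- restriction to a positive subset -/
def restr (C : Set ℕ) (hC : ¬ J p.K C) : Nd where
  A := C
  K := p.K
  emp := p.emp
  her := p.her
  mono := p.mono
  add := p.add
  sing := p.sing
  pos m := by
    obtain ⟨F, h1, _, h2⟩ := p.pos_tail hC m 0
    exact ⟨F, h1, h2⟩

instance : Preorder Nd where
  le q p := ∃ N : ℕ, (∀ x ∈ q.A, N ≤ x → x ∈ p.A) ∧
    ∀ m F, (∀ x ∈ F, N ≤ x) → F ∈ p.K m → F ∈ q.K m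
  le_refl p := ⟨0, fun _ hx _ => hx, fun _ _ _ h => h⟩
  le_trans a b c := by
    rintro ⟨N, h1, h2⟩ ⟨M, h3, h4⟩
    refine ⟨max N M, fun x hx h => h3 x (h1 x hx ((le_max_left _ _).trans h))
      ((le_max_right _ _).trans h), fun m F hF h => ?_⟩
    exact h2 m F (fun x hx => (le_max_left _ _).trans (hF x hx))
      (h4 m F (fun x hx => (le_max_right _ _).trans (hF x hx)) h)

theorem restr_le {C : Set ℕ} (hC : ¬ J p.K C) (h : C ⊆ p.A) : p.restr C hC ≤ p :=
  ⟨0, fun _ hx _ => h hx, fun _ _ _ h => h⟩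

variable {p}

theorem le_diff {q : Nd} (h : q ≤ p) : (q.A \ p.A).Finite := by
  obtain ⟨N, h1, -⟩ := h
  refine (Set.finite_lt_nat N).subset ?_
  rintro x ⟨hx, hx'⟩
  by_contra hN
  exact hx' (h1 x hx (not_lt.1 hN))

theorem le_J {q : Nd} (h : q ≤ p) {X : Set ℕ} (hX : J p.K X) : J q.K X := by
  obtain ⟨N, -, h2⟩ := h
  obtain ⟨m, hm⟩ := hX
  have h3 : J q.K (X ∩ {x | N ≤ x}) := ⟨m, fun F hF => h2 m F (fun x hx => (hF hx).2)
    (hm F (hF.trans inter_subset_left))⟩
  have h4 : J q.K {x | x < N} := q.J_fin (Set.finite_lt_nat N)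
  refine q.J_mono (q.J_union h3 h4) fun x hx => ?_
  by_cases h : N ≤ x
  · exact Or.inl ⟨hx, h⟩
  · exact Or.inr (not_le.1 h)

/-- the first condition -/
def root : Nd where
  A := Set.univ
  K m := {F | F.card ≤ 2 ^ m}
  emp m := by simp
  her m F F' h h' := (Finset.card_le_card h').trans h
  mono m F h := le_trans h (Nat.pow_le_pow_right (by norm_num) (Nat.le_succ m))
  add m F F' h h' := by
    have h1 : F.card ≤ 2 ^ m := h
    have h2 : F'.card ≤ 2 ^ m := h'
    have h3 : (F ∪ F').card ≤ F.card + F'.card := Finset.card_union_le _ _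
    change (F ∪ F').card ≤ 2 ^ (m + 1)
    rw [pow_succ]
    omega
  sing x := ⟨0, by simp⟩
  pos m := ⟨Finset.range (2 ^ m + 1), Set.subset_univ _, by simp⟩

/-! ### Sequences of finite sets -/

/-- A sequence of disjoint finite sets `E j ⊆ C j` beyond given bounds which are not in `K j`. -/
theorem blocks (K : ℕ → ℕ → Set (Finset ℕ)) (C : ℕ → Set ℕ)
    (h : ∀ j N, ∃ F : Finset ℕ, ↑F ⊆ C j ∧ (∀ x ∈ F, N ≤ x) ∧ F ∉ K j j) :
    ∃ E : ℕ → Finset ℕ, (∀ j, ↑(E j) ⊆ C j ∧ E j ∉ K j j) ∧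
      ∀ i j, i < j → ∀ x ∈ E i, ∀ y ∈ E j, x < y := by
  classical
  choose f hf1 hf2 hf3 using h
  let E : ℕ → Finset ℕ × ℕ := fun j => Nat.rec (f 0 0, (f 0 0).sup id + 1)
    (fun j r => (f (j + 1) r.2, max r.2 ((f (j + 1) r.2).sup id + 1))) j
  have hE : ∀ j, ∃ N, (E j).1 = f j N := by
    intro j
    cases j with
    | zero => exact ⟨0, rfl⟩
    | succ j => exact ⟨(E j).2, rfl⟩
  have hE2 : ∀ j, ∀ x ∈ (E j).1, x < (E j).2 := by
    intro j x hx
    have h1 : id x ≤ (E j).1.sup id := Finset.le_sup hx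
    simp only [id] at h1
    cases j with
    | zero => exact lt_of_le_of_lt h1 (Nat.lt_succ_self _)
    | succ j => exact lt_of_le_of_lt h1 (lt_of_lt_of_le (Nat.lt_succ_self _) (le_max_right _ _))
  have hE3 : ∀ i j, i ≤ j → (E i).2 ≤ (E j).2 := by
    intro i j hij
    induction hij with
    | refl => exact le_rfl
    | step _ ih => exact ih.trans (le_max_left _ _)
  refine ⟨fun j => (E j).1, fun j => ?_, ?_⟩
  · obtain ⟨N, hN⟩ := hE j
    simp only [hN]
    exact ⟨hf1 j N, hf3 j N⟩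
  · intro i j hij x hx y hy
    obtain ⟨j, rfl⟩ : ∃ k, j = k + 1 := ⟨j - 1, by omega⟩
    have h1 := hE2 i x hx
    have h2 := hE3 i j (by omega)
    have h3 := hf2 (j + 1) (E j).2 y hy
    omega

/-- Descending sequences of conditions have lower bounds. -/
theorem lower (p : ℕ → Nd) (hp : ∀ n, p (n + 1) ≤ p n) : ∃ q, ∀ n, q ≤ p n := by
  classical
  have hanti : ∀ m n, m ≤ n → p n ≤ p m := fun m n h => antitone_nat_of_succ_le hp h
  have hch : ∀ m n, ∃ N : ℕ, m ≤ n → (∀ x ∈ (p n).A, N ≤ x → x ∈ (p m).A) ∧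
      ∀ l F, (∀ x ∈ F, N ≤ x) → F ∈ (p m).K l → F ∈ (p n).K l := by
    intro m n
    by_cases h : m ≤ n
    · obtain ⟨N, h1, h2⟩ := hanti m n h
      exact ⟨N, fun _ => ⟨h1, h2⟩⟩
    · exact ⟨0, fun h' => absurd h' h⟩
  choose N hN using hch
  let M : ℕ → ℕ := fun n => (Finset.range (n + 1)).sup fun m => N m n
  have hM : ∀ m n, m ≤ n → N m n ≤ M n := fun m n h =>
    Finset.le_sup (f := fun m => N m n) (Finset.mem_range.2 (by omega))
  obtain ⟨E, hE1, hE2⟩ := blocks (fun j => (p j).K) (fun j => (p j).A ∩ {x | M j ≤ x}) (by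
    intro j B
    obtain ⟨F, h1, h2, h3⟩ := (p j).pos_tail (p j).not_J j (max B (M j))
    exact ⟨F, fun x hx => ⟨h1 hx, (le_max_right _ _).trans (h2 x hx)⟩,
      fun x hx => (le_max_left _ _).trans (h2 x hx), h3⟩)
  have hEd : ∀ i j, ∀ x, x ∈ E i → x ∈ E j → i = j := by
    intro i j x hi hj
    rcases lt_trichotomy i j with h | h | h
    · exact absurd (hE2 i j h x hi x hj) (lt_irrefl x)
    · exact h
    · exact absurd (hE2 j i h x hj x hi) (lt_irrefl x)
  let q : Nd :=
    { A := {x | ∃ j, x ∈ E j}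
      K := fun m => {F | ∀ j, F ∩ E j ∈ (p j).K m}
      emp := fun m j => by rw [Finset.empty_inter]; exact (p j).emp m
      her := fun m F F' h h' j => (p j).her m _ _ (h j) (Finset.inter_subset_inter_right h')
      mono := fun m F h j => (p j).mono m _ (h j)
      add := fun m F F' h h' j => by
        rw [Finset.union_inter_distrib_right]
        exact (p j).add m _ _ (h j) (h' j)
      sing := fun x => by
        by_cases hx : ∃ j, x ∈ E j
        · obtain ⟨j, hj⟩ := hx
          obtain ⟨m, hm⟩ := (p j).sing x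
          refine ⟨m, fun i => ?_⟩
          by_cases hi : x ∈ E i
          · rw [← hEd i j x hi hj] at hm
            exact (p i).her m _ _ hm Finset.inter_subset_left
          · rw [Finset.singleton_inter_of_notMem hi]
            exact (p i).emp m
        · push Not at hx
          refine ⟨0, fun i => ?_⟩
          rw [Finset.singleton_inter_of_notMem (hx i)]
          exact (p i).emp 0
      pos := fun m => ⟨E m, fun x hx => ⟨m, hx⟩, fun h => (hE1 m).2 (by
        have := h m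
        rwa [Finset.inter_self] at this)⟩ }
  refine ⟨q, fun n => ⟨((Finset.range n).biUnion E).sup id + 1, ?_, ?_⟩⟩
  · rintro x ⟨j, hj⟩ hx
    have hnj : n ≤ j := by
      by_contra h
      have h1 : id x ≤ ((Finset.range n).biUnion E).sup id :=
        Finset.le_sup (Finset.mem_biUnion.2 ⟨j, Finset.mem_range.2 (not_le.1 h), hj⟩)
      simp only [id] at h1
      omega
    obtain ⟨h1, h2⟩ := (hE1 j).1 hj
    exact (hN n j hnj).1 x h1 ((hM n j hnj).trans h2)
  · intro m F hF hFK j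
    by_cases hnj : n ≤ j
    · refine (hN n j hnj).2 m _ (fun x hx => ?_) ((p n).her m _ _ hFK Finset.inter_subset_left)
      have h1 := (Finset.mem_inter.1 hx).2
      obtain ⟨-, h2⟩ := (hE1 j).1 h1
      exact (hM n j hnj).trans h2
    · have h1 : F ∩ E j = ∅ := by
        rw [Finset.eq_empty_iff_forall_notMem]
        intro x hx
        obtain ⟨h2, h3⟩ := Finset.mem_inter.1 hx
        have h4 := hF x h2
        have h1 : id x ≤ ((Finset.range n).biUnion E).sup id :=
          Finset.le_sup (Finset.mem_biUnion.2 ⟨j, Finset.mem_range.2 (not_le.1 hnj), h3⟩)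
        simp only [id] at h1
        omega
      rw [h1]
      exact (p j).emp m

/-! ### Splitting -/

/-- continuum many almost disjoint strengthenings -/
theorem split (p : Nd) : ∃ f : (ℕ → Bool) → Nd, (∀ c, f c ≤ p ∧ (f c).A ⊆ p.A) ∧
    ∀ c c', c ≠ c' → ((f c).A ∩ (f c').A).Finite := by
  classical
  obtain ⟨E, hE1, hE2⟩ := blocks (fun j => p.K) (fun _ => p.A) (by
    intro j B
    exact p.pos_tail p.not_J j B)
  have hEd : ∀ i j, ∀ x, x ∈ E i → x ∈ E j → i = j := by
    intro i j x hi hj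
    rcases lt_trichotomy i j with h | h | h
    · exact absurd (hE2 i j h x hi x hj) (lt_irrefl x)
    · exact h
    · exact absurd (hE2 j i h x hj x hi) (lt_irrefl x)
  let e : (ℕ → Bool) → ℕ → ℕ := fun c n => Encodable.encode (List.ofFn fun i : Fin n => c i)
  have he : ∀ c c' n n', e c n = e c' n' → n = n' ∧ ∀ i < n, c i = c' i := by
    intro c c' n n' h
    have h1 := Encodable.encode_injective h
    have h2 : n = n' := by
      have := congrArg List.length h1
      simpa using this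
    subst h2
    refine ⟨rfl, fun i hi => ?_⟩
    have h3 := List.ofFn_injective h1
    exact congrFun h3 ⟨i, hi⟩
  let D : (ℕ → Bool) → Set ℕ := fun c => {x | ∃ n, x ∈ E (e c n)}
  have hD : ∀ c, ¬ J p.K (D c) := by
    rintro c ⟨m, hm⟩
    have hinj : Function.Injective (e c) := fun n n' h => (he c c n n' h).1
    obtain ⟨n, hn⟩ : ∃ n, m ≤ e c n := by
      by_contra hcon
      push Not at hcon
      have h1 : (Set.range (e c)).Finite := (Set.finite_lt_nat m).subset (by
        rintro _ ⟨n, rfl⟩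
        exact hcon n)
      exact Set.infinite_range_of_injective hinj h1
    have h2 := hm (E (e c n)) fun x hx => ⟨n, hx⟩
    exact (hE1 (e c n)).2 (p.monoLe hn h2)
  have hDA : ∀ c, D c ⊆ p.A := by
    rintro c x ⟨n, hn⟩
    exact (hE1 _).1 hn
  refine ⟨fun c => p.restr (D c) (hD c), fun c => ⟨p.restr_le _ (hDA c), hDA c⟩, ?_⟩
  intro c c' hcc
  obtain ⟨i, hi⟩ : ∃ i, c i ≠ c' i := by
    by_contra h
    push Not at h
    exact hcc (funext h)
  refine (((Finset.range (i + 1)).biUnion fun n => E (e c n)).finite_toSet).subset ?_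
  rintro x ⟨⟨n, hn⟩, ⟨n', hn'⟩⟩
  have h1 := hEd _ _ x hn hn'
  obtain ⟨rfl, h2⟩ := he c c' n n' h1
  rw [Finset.mem_coe, Finset.mem_biUnion]
  refine ⟨n, Finset.mem_range.2 ?_, hn⟩
  by_contra h
  exact hi (h2 i (by omega))

end Nd

end Pool.Agent.Q212.TW
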