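import Pool.Agent.Q212.TW1

/-!
# Tasks
-/

set_option autoImplicit false

namespace Pool.Agent.Q212.TW

open Set

namespace Nd

variable (p : Nd)

/-! ### Deciding a set -/

theorem exists_decide (B : Set ℕ) : ∃ q ≤ p, q.A ⊆ p.A ∧ (q.A ⊆ B ∨ q.A ∩ B = ∅) := by
  by_cases h : J p.K (p.A ∩ B)
  · have h2 : ¬ J p.K (p.A \ B) := fun h' => p.not_J (p.J_mono (p.J_union h h') fun x hx => by
      by_cases hB : x ∈ B
      · exact Or.inl ⟨hx, hB⟩
      · exact Or.inr ⟨hx, hB⟩)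
    refine ⟨p.restr _ h2, p.restr_le _ sdiff_subset, sdiff_subset, Or.inr ?_⟩
    ext x
    simp only [restr, mem_inter_iff, mem_sdiff, mem_empty_iff_false, iff_false]
    tauto
  · exact ⟨p.restr _ h, p.restr_le _ inter_subset_left, inter_subset_left, Or.inl inter_subset_right⟩

/-! ### Fusion -/

theorem exists_fuse (B : Finset ℕ → ℕ → Set ℕ) (N : ℕ)
    (h : ∀ F : Finset ℕ, ↑F ⊆ p.A ∩ {x | N ≤ x} → ∀ k, ↑F ⊆ B F k ∧ (p.A \ B F k).Finite) :
    ∃ q ≤ p, q.A ⊆ p.A ∧ ∀ m, ∃ F k, m ≤ k ∧ q.A ⊆ B F k := by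
  classical
  have hpick : ∀ (j : ℕ) (C : Set ℕ), ∃ F : Finset ℕ, (p.A \ C).Finite → ↑F ⊆ p.A ∩ C ∧ F ∉ p.K j := by
    intro j C
    by_cases hC : (p.A \ C).Finite
    · have h1 : ¬ J p.K (p.A ∩ C) := fun h' => p.not_J (p.J_mono (p.J_union h' (p.J_fin hC))
        fun x hx => by
          by_cases hxC : x ∈ C
          · exact Or.inl ⟨hx, hxC⟩
          · exact Or.inr ⟨hx, hxC⟩)
      obtain ⟨F, h2, -, h3⟩ := p.pos_tail h1 j 0
      exact ⟨F, fun _ => ⟨h2, h3⟩⟩
    · exact ⟨∅, fun h' => absurd h' hC⟩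
  choose pick hp using hpick
  let C₀ : Set ℕ := p.A ∩ {x | N ≤ x}
  let st : ℕ → Finset ℕ × Set ℕ := fun j => Nat.rec (pick 0 C₀, C₀ ∩ B (pick 0 C₀) 0)
    (fun j r => (r.1 ∪ pick (j + 1) r.2, r.2 ∩ B (r.1 ∪ pick (j + 1) r.2) (j + 1))) j
  have hC₀ : (p.A \ C₀).Finite := (Set.finite_lt_nat N).subset (by
    rintro x ⟨hx, hx'⟩
    by_contra hN
    exact hx' ⟨hx, (not_lt.1 hN : N ≤ x)⟩)
  have hst1 : ∀ j, (st (j + 1)).1 = (st j).1 ∪ pick (j + 1) (st j).2 := fun j => rfl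
  have hst2 : ∀ j, (st (j + 1)).2 = (st j).2 ∩ B (st (j + 1)).1 (j + 1) := fun j => rfl
  have inv : ∀ j, (↑(st j).1 ⊆ C₀ ∧ (st j).2 ⊆ C₀) ∧ (p.A \ (st j).2).Finite ∧ (st j).1 ∉ p.K j := by
    intro j
    induction j with
    | zero =>
      obtain ⟨h1, h2⟩ := hp 0 C₀ hC₀
      have h3 : ↑(pick 0 C₀) ⊆ C₀ := h1.trans inter_subset_right
      refine ⟨⟨h3, inter_subset_left⟩, ?_, h2⟩
      change (p.A \ (C₀ ∩ B (pick 0 C₀) 0)).Finite
      rw [sdiff_inter]
      exact hC₀.union (h _ h3 0).2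
    | succ j ih =>
      obtain ⟨⟨h1, h2⟩, h3, h4⟩ := ih
      obtain ⟨h5, h6⟩ := hp (j + 1) (st j).2 h3
      have h7 : ↑(st (j + 1)).1 ⊆ C₀ := by
        rw [hst1, Finset.coe_union]
        exact union_subset h1 ((h5.trans inter_subset_right).trans h2)
      refine ⟨⟨h7, ?_⟩, ?_, ?_⟩
      · rw [hst2]
        exact inter_subset_left.trans h2
      · rw [hst2, sdiff_inter]
        exact h3.union (h _ h7 _).2
      · rw [hst1]
        exact fun h' => h6 (p.her _ _ _ h' Finset.subset_union_right)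
  have hmono : ∀ i j, i ≤ j → (st i).1 ⊆ (st j).1 ∧ (st j).2 ⊆ (st i).2 ∧
      ↑(st j).1 ⊆ (↑(st i).1 : Set ℕ) ∪ (st i).2 := by
    intro i j hij
    induction hij with
    | refl => exact ⟨Finset.Subset.refl _, subset_rfl, subset_union_left⟩
    | @step j _ ih =>
      obtain ⟨h1, h2, h3⟩ := ih
      refine ⟨h1.trans ?_, ?_, ?_⟩
      · rw [hst1]
        exact Finset.subset_union_left
      · rw [hst2]
        exact inter_subset_left.trans h2
      · rw [hst1, Finset.coe_union]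
        refine union_subset h3 ?_
        have h5 := (hp (j + 1) (st j).2 (inv j).2.1).1
        exact ((h5.trans inter_subset_right).trans h2).trans subset_union_right
  let D : Set ℕ := {x | ∃ j, x ∈ (st j).1}
  have hD : ¬ J p.K D := by
    rintro ⟨m, hm⟩
    exact (inv m).2.2 (hm _ fun x hx => ⟨m, hx⟩)
  have hDA : D ⊆ p.A := by
    rintro x ⟨j, hj⟩
    exact ((inv j).1.1 hj).1
  refine ⟨p.restr D hD, p.restr_le _ hDA, hDA, fun m => ⟨(st m).1, m, le_rfl, ?_⟩⟩
  rintro x ⟨j, hj⟩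
  have h1 : (↑(st m).1 : Set ℕ) ⊆ B (st m).1 m := (h _ (inv m).1.1 m).1
  have h2 : (st m).2 ⊆ B (st m).1 m := by
    cases m with
    | zero => exact inter_subset_right
    | succ m =>
      rw [hst2]
      exact inter_subset_right
  rcases le_total j m with hjm | hjm
  · exact h1 ((hmono j m hjm).1 hj)
  · exact (union_subset h1 h2) ((hmono m j hjm).2.2 hj)

/-! ### Promises -/

/-- the compactness argument -/
theorem compact (𝓕 : Set (ℕ × ℕ × Finset ℕ)) (i : ℕ)
    (h : ∀ C ⊆ p.A, ¬ J p.K C → ∃ k F, F.Nonempty ∧ (i, k, F) ∈ 𝓕 ∧ ↑F ⊆ C) :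
    ∃ k, ∀ c : ℕ → Fin (i + 1),
      (∀ F : Finset ℕ, (∀ x ∈ F, x ∈ p.A ∧ x ≤ k ∧ c x = 0) → F ∈ p.K i) →
      ∃ j, j ≠ 0 ∧ ∃ F : Finset ℕ, F.Nonempty ∧ ∃ k' ≤ k, (i, k', F) ∈ 𝓕 ∧
        ∀ x ∈ F, x ∈ p.A ∧ x ≤ k ∧ c x = j := by
  classical
  by_contra hcon
  push Not at hcon
  choose c hc1 hc2 using hcon
  let U : Ultrafilter ℕ := Filter.hyperfilter ℕ
  have hU : ∀ m : ℕ, ∀ᶠ k in (U : Filter ℕ), m ≤ k := fun m =>
    Nat.hyperfilter_le_atTop (Filter.eventually_ge_atTop m)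
  have hlim : ∀ x : ℕ, ∃ j, ∀ᶠ k in (U : Filter ℕ), c k x = j := by
    intro x
    obtain ⟨j, hj⟩ := Ultrafilter.eq_pure_of_finite (U.map fun k => c k x)
    refine ⟨j, ?_⟩
    have h1 : {j} ∈ U.map fun k => c k x := by
      rw [hj]
      exact mem_singleton j
    exact h1
  choose d hd using hlim
  have hfin : ∀ (F : Finset ℕ) (j : Fin (i + 1)), (∀ x ∈ F, d x = j) →
      ∀ᶠ k in (U : Filter ℕ), ∀ x ∈ F, c k x = j := by
    intro F j hF
    rw [Filter.eventually_all_finset]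
    intro x hx
    rw [← hF x hx]
    exact hd x
  have hbd : ∀ F : Finset ℕ, ∀ᶠ k in (U : Filter ℕ), ∀ x ∈ F, x ≤ k := by
    intro F
    rw [Filter.eventually_all_finset]
    exact fun x _ => hU x
  -- the class of colour `0` is small
  have h0 : J p.K {x | x ∈ p.A ∧ d x = 0} := by
    refine ⟨i, fun F hF => ?_⟩
    obtain ⟨k, h1, h2⟩ := ((hfin F 0 fun x hx => (hF hx).2).and (hbd F)).exists
    exact hc1 k F fun x hx => ⟨(hF hx).1, h2 x hx, h1 x hx⟩
  obtain ⟨j, hj0, hj⟩ : ∃ j : Fin (i + 1), j ≠ 0 ∧ ¬ J p.K {x | x ∈ p.A ∧ d x = j} := by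
    by_contra hcon
    push Not at hcon
    refine p.not_J (p.J_mono (p.J_iUnion (X := fun j : Fin (i + 1) => {x | x ∈ p.A ∧ d x = j})
      fun j => ?_) fun x hx => mem_iUnion.2 ⟨d x, hx, rfl⟩)
    by_cases hj : j = 0
    · rw [hj]
      exact h0
    · exact hcon j hj
  obtain ⟨k₀, F, hFne, hF1, hF2⟩ := h _ (fun x hx => hx.1) hj
  obtain ⟨k, ⟨h1, h2⟩, h3⟩ := (((hfin F j fun x hx => (hF2 hx).2).and (hbd F)).and (hU k₀)).exists
  obtain ⟨x, hx1, hx2⟩ := hc2 k j hj0 F hFne k₀ h3 hF1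
  exact hx2 (hF2 hx1).1 (h2 x hx1) (h1 x hx1)

/-- the sets which are to become small -/
def HH (𝓕 : Set (ℕ × ℕ × Finset ℕ)) (G : ℕ → ℕ) (F : Finset ℕ) : Prop :=
  ∀ i k F', F'.Nonempty → k ≤ G i → (i, k, F') ∈ 𝓕 → ¬ F' ⊆ F

theorem HH.anti {𝓕 : Set (ℕ × ℕ × Finset ℕ)} {G : ℕ → ℕ} {F F' : Finset ℕ} (h : HH 𝓕 G F)
    (hF : F' ⊆ F) : HH 𝓕 G F' :=
  fun i k E hE hk hm hs => h i k E hE hk hm (hs.trans hF)

theorem HH_empty {𝓕 : Set (ℕ × ℕ × Finset ℕ)} {G : ℕ → ℕ} : HH 𝓕 G ∅ := by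
  intro i k E hE _ _ hs
  rw [Finset.subset_empty] at hs
  exact hE.ne_empty hs

theorem exists_promise (𝓕 : Set (ℕ × ℕ × Finset ℕ)) : ∃ q ≤ p, q.A ⊆ p.A ∧
    ((∃ i, ∀ k F, F.Nonempty → (i, k, F) ∈ 𝓕 → ¬ ↑F ⊆ q.A) ∨
      ∃ G : ℕ → ℕ, Monotone G ∧ ∀ X : Set ℕ,
        (∀ i k F, F.Nonempty → k ≤ G i → (i, k, F) ∈ 𝓕 → ¬ ↑F ⊆ X) → J q.K X) := by
  classical
  by_cases hA : ∃ i, ∃ C, C ⊆ p.A ∧ ¬ J p.K C ∧ ∀ k F, F.Nonempty → (i, k, F) ∈ 𝓕 → ¬ ↑F ⊆ C
  · obtain ⟨i, C, hC1, hC2, hC3⟩ := hA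
    exact ⟨p.restr C hC2, p.restr_le _ hC1, hC1, Or.inl ⟨i, hC3⟩⟩
  · push Not at hA
    have hk := fun i => p.compact 𝓕 i (hA i)
    choose g hg using hk
    let G : ℕ → ℕ := fun i => (Finset.range (i + 1)).sup g
    have hgG : ∀ i, g i ≤ G i := fun i => Finset.le_sup (f := g) (Finset.mem_range.2 (by omega))
    have hGm : Monotone G := fun i j hij => Finset.sup_mono (Finset.range_subset_range.2 (by omega))
    have hG : ∀ i, ∀ c : ℕ → Fin (i + 1),
        (∀ F : Finset ℕ, (∀ x ∈ F, x ∈ p.A ∧ x ≤ G i ∧ c x = 0) → F ∈ p.K i) →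
        ∃ j, j ≠ 0 ∧ ∃ F : Finset ℕ, F.Nonempty ∧ ∃ k' ≤ G i, (i, k', F) ∈ 𝓕 ∧
          ∀ x ∈ F, x ∈ p.A ∧ x ≤ G i ∧ c x = j := by
      intro i c hc
      obtain ⟨j, hj, F, hF, k', hk', h1, h2⟩ := hg i c fun F hF => hc F fun x hx =>
        ⟨(hF x hx).1, (hF x hx).2.1.trans (hgG i), (hF x hx).2.2⟩
      exact ⟨j, hj, F, hF, k', hk'.trans (hgG i), h1, fun x hx =>
        ⟨(h2 x hx).1, (h2 x hx).2.1.trans (hgG i), (h2 x hx).2.2⟩⟩
    have hKsub : ∀ m F, F ∈ p.K m → ∃ c : ℕ → ℕ, (∀ x ∈ F, c x ≤ 2 ^ m) ∧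
        (F.filter fun x => c x = 0) ∈ p.K m ∧
        ∀ j, j ≠ 0 → HH 𝓕 G (F.filter fun x => c x = j) := by
      intro m F hF
      refine ⟨fun _ => 0, by simp, p.her _ _ _ hF (Finset.filter_subset _ _), fun j hj => ?_⟩
      have : (F.filter fun _ => 0 = j) = ∅ := by
        rw [Finset.filter_eq_empty_iff]
        exact fun _ _ => Ne.symm hj
      rw [this]
      exact HH_empty
    let q : Nd :=
      { A := p.A
        K := fun m => {F | ∃ c : ℕ → ℕ, (∀ x ∈ F, c x ≤ 2 ^ m) ∧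
          (F.filter fun x => c x = 0) ∈ p.K m ∧ ∀ j, j ≠ 0 → HH 𝓕 G (F.filter fun x => c x = j)}
        emp := fun m => hKsub m ∅ (p.emp m)
        her := by
          rintro m F F' ⟨c, h1, h2, h3⟩ hF
          refine ⟨c, fun x hx => h1 x (hF hx), p.her _ _ _ h2 (Finset.filter_subset_filter _ hF),
            fun j hj => (h3 j hj).anti (Finset.filter_subset_filter _ hF)⟩
        mono := by
          rintro m F ⟨c, h1, h2, h3⟩
          exact ⟨c, fun x hx => (h1 x hx).trans (Nat.pow_le_pow_right (by norm_num) (by omega)),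
            p.mono _ _ h2, h3⟩
        add := by
          rintro m F F' ⟨c, h1, h2, h3⟩ ⟨c', h1', h2', h3'⟩
          refine ⟨fun x => if x ∈ F then c x else if c' x = 0 then 0 else 2 ^ m + c' x,
            fun x hx => ?_, ?_, fun j hj => ?_⟩
          · rw [pow_succ]
            beta_reduce
            split_ifs with h4 h5
            · have := h1 x h4
              omega
            · omega
            · have := h1' x ((Finset.mem_union.1 hx).resolve_left h4)
              omega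
          · refine p.her _ _ _ (p.add _ _ _ h2 h2') fun x hx => ?_
            rw [Finset.mem_filter] at hx
            obtain ⟨hx1, hx2⟩ := hx
            rw [Finset.mem_union, Finset.mem_filter, Finset.mem_filter]
            beta_reduce at hx2
            split_ifs at hx2 with h4 h5
            · exact Or.inl ⟨h4, hx2⟩
            · exact Or.inr ⟨(Finset.mem_union.1 hx1).resolve_left h4, h5⟩
            · have h6 : 0 < 2 ^ m := by positivity
              omega
          · rcases le_or_gt j (2 ^ m) with hjm | hjm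
            · refine (h3 j hj).anti fun x hx => ?_
              rw [Finset.mem_filter] at hx ⊢
              obtain ⟨hx1, hx2⟩ := hx
              beta_reduce at hx2
              split_ifs at hx2 with h4 h5
              · exact ⟨h4, hx2⟩
              · omega
              · omega
            · refine (h3' (j - 2 ^ m) (by omega)).anti fun x hx => ?_
              rw [Finset.mem_filter] at hx ⊢
              obtain ⟨hx1, hx2⟩ := hx
              beta_reduce at hx2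
              split_ifs at hx2 with h4 h5
              · have := h1 x h4
                omega
              · omega
              · exact ⟨(Finset.mem_union.1 hx1).resolve_left h4, by omega⟩
        sing := fun x => by
          obtain ⟨m, hm⟩ := p.sing x
          exact ⟨m, hKsub m _ hm⟩
        pos := by
          intro m
          refine ⟨(Finset.range (G (2 ^ m) + 1)).filter (· ∈ p.A), fun x hx => ?_, ?_⟩
          · rw [Finset.mem_coe, Finset.mem_filter] at hx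
            exact hx.2
          · rintro ⟨c, h1, h2, h3⟩
            have hc' : ∀ x, x ∈ p.A → x ≤ G (2 ^ m) → c x ≤ 2 ^ m := fun x hx hx' =>
              h1 x (Finset.mem_filter.2 ⟨Finset.mem_range.2 (by omega), hx⟩)
            obtain ⟨j, hj, F, hF, k', hk', h4, h5⟩ := hG (2 ^ m)
              (fun x => if hx : c x < 2 ^ m + 1 then ⟨c x, hx⟩ else 0) (by
                intro F hF
                refine p.monoLe (Nat.lt_two_pow_self (n := m)).le (p.her _ _ _ h2 fun x hx => ?_)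
                obtain ⟨h6, h7, h8⟩ := hF x hx
                have h9 := hc' x h6 h7
                rw [dif_pos (by omega)] at h8
                rw [Finset.mem_filter, Finset.mem_filter, Finset.mem_range]
                refine ⟨⟨by omega, h6⟩, ?_⟩
                have := congrArg Fin.val h8
                simpa using this)
            refine h3 j (fun h => hj (Fin.ext (by simpa using h))) (2 ^ m) k' F hF hk' h4
              fun x hx => ?_
            obtain ⟨h6, h7, h8⟩ := h5 x hx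
            have h9 := hc' x h6 h7
            rw [dif_pos (by omega)] at h8
            rw [Finset.mem_filter, Finset.mem_filter, Finset.mem_range]
            refine ⟨⟨by omega, h6⟩, ?_⟩
            rw [← h8] }
    refine ⟨q, ⟨0, fun _ hx _ => hx, fun m F _ hF => hKsub m F hF⟩, subset_rfl,
      Or.inr ⟨G, hGm, fun X hX => ⟨0, fun F hF => ⟨fun _ => 1, by simp, ?_, fun j hj => ?_⟩⟩⟩⟩
    · have : (F.filter fun _ => 1 = 0) = ∅ := by simp
      rw [this]
      exact p.emp 0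
    · intro i k F' hF' hk hm hs
      exact hX i k F' hF' hk hm fun x hx => hF (Finset.filter_subset _ _ (hs hx))

/-! ### Tasks -/

/-- codes of tasks -/
abbrev Code : Type := Set ℕ ⊕ Set (ℕ × ℕ × Finset ℕ) ⊕ Set (Finset ℕ × ℕ × ℕ)

/-- `q` performs the task -/
def Good : Code → Nd → Prop
  | Sum.inl B, q => q.A ⊆ B ∨ q.A ∩ B = ∅
  | Sum.inr (Sum.inl 𝓕), q => (∃ i, ∀ k F, F.Nonempty → (i, k, F) ∈ 𝓕 → ¬ ↑F ⊆ q.A) ∨
      ∃ G : ℕ → ℕ, Monotone G ∧ ∀ X : Set ℕ,
        (∀ i k F, F.Nonempty → k ≤ G i → (i, k, F) ∈ 𝓕 → ¬ ↑F ⊆ X) → J q.K X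
  | Sum.inr (Sum.inr B), q => ∀ m, ∃ F k, m ≤ k ∧ ∀ x ∈ q.A, (F, k, x) ∈ B

theorem code_inj : Nonempty (Code ↪ (ℕ → Bool)) := by
  have h : ∀ (α : Type) [Countable α] [Infinite α], Cardinal.mk (Set α) = Cardinal.continuum := by
    intro α _ _
    rw [Cardinal.mk_set, Cardinal.mk_eq_aleph0 α, Cardinal.two_power_aleph0]
  have h1 : Cardinal.mk Code ≤ Cardinal.mk (ℕ → Bool) := by
    rw [Cardinal.mk_sum, Cardinal.mk_sum, h, h, h]
    simp
  exact Cardinal.le_def _ _ |>.1 h1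

open Classical in
/-- performing a task, if possible -/
noncomputable def act (c : Code) (p : Nd) : Nd :=
  if h : ∃ q ≤ p, q.A ⊆ p.A ∧ Good c q then h.choose else p

theorem act_le (c : Code) (p : Nd) : act c p ≤ p ∧ (act c p).A ⊆ p.A := by
  classical
  rw [act]
  split_ifs with h
  · exact ⟨h.choose_spec.1, h.choose_spec.2.1⟩
  · exact ⟨le_rfl, subset_rfl⟩

theorem act_good {c : Code} {p : Nd} (h : ∃ q ≤ p, q.A ⊆ p.A ∧ Good c q) : Good c (act c p) := by
  classical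
  rw [act, dif_pos h]
  exact h.choose_spec.2.2

end Nd

end Pool.Agent.Q212.TW
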