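import Pool.Agent.Q212.TW2

/-!
# The tree of conditions and its ideal
-/

set_option autoImplicit false

namespace Pool.Agent.Q212.TW

open Set

namespace Nd

/-! ### Successors -/

noncomputable def spl (p : Nd) : (ℕ → Bool) → Nd := (split p).choose

theorem spl_le (p : Nd) (c : ℕ → Bool) : spl p c ≤ p ∧ (spl p c).A ⊆ p.A :=
  (split p).choose_spec.1 c

theorem spl_ad (p : Nd) {c c' : ℕ → Bool} (h : c ≠ c') : ((spl p c).A ∩ (spl p c').A).Finite :=
  (split p).choose_spec.2 c c' h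

noncomputable def code : Code ↪ (ℕ → Bool) := Classical.choice code_inj

/-- the successor of `p` for the task `c` -/
noncomputable def suc (c : Code) (p : Nd) : Nd := act c (spl p (code c))

theorem suc_le (c : Code) (p : Nd) : suc c p ≤ p :=
  (act_le c _).1.trans (spl_le p _).1

theorem suc_ad {c c' : Code} (p : Nd) (h : c ≠ c') : ((suc c p).A ∩ (suc c' p).A).Finite :=
  (spl_ad p fun h' => h (code.injective h')).subset
    (inter_subset_inter (act_le _ _).2 (act_le _ _).2)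

open Classical in
/-- a lower bound, if possible -/
noncomputable def pick {ι : Type} (M : ι → Nd) : Nd := if h : ∃ q, ∀ i, q ≤ M i then h.choose else root

theorem pick_le {ι : Type} {M : ι → Nd} (h : ∃ q, ∀ i, q ≤ M i) (i : ι) : pick M ≤ M i := by
  classical
  rw [pick, dif_pos h]
  exact h.choose_spec i

theorem infinite (p : Nd) : p.A.Infinite := fun h => p.not_J (p.J_fin h)

theorem decide_code (B : Set ℕ) (p : Nd) : (suc (Sum.inl B) p).A ⊆ B ∨
    (suc (Sum.inl B) p).A ∩ B = ∅ := by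
  have h : Good (Sum.inl B) (suc (Sum.inl B) p) := act_good (exists_decide _ B)
  exact h

theorem promise_code (𝓕 : Set (ℕ × ℕ × Finset ℕ)) (p : Nd) :
    (∃ i, ∀ k F, F.Nonempty → (i, k, F) ∈ 𝓕 → ¬ ↑F ⊆ (suc (Sum.inr (Sum.inl 𝓕)) p).A) ∨
      ∃ G : ℕ → ℕ, Monotone G ∧ ∀ X : Set ℕ,
        (∀ i k F, F.Nonempty → k ≤ G i → (i, k, F) ∈ 𝓕 → ¬ ↑F ⊆ X) →
          J (suc (Sum.inr (Sum.inl 𝓕)) p).K X := by
  have h : Good (Sum.inr (Sum.inl 𝓕)) (suc (Sum.inr (Sum.inl 𝓕)) p) :=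
    act_good (exists_promise _ 𝓕)
  exact h

theorem fuse_code (B : Set (Finset ℕ × ℕ × ℕ)) (p : Nd) (N : ℕ)
    (h : ∀ F : Finset ℕ, ↑F ⊆ p.A ∩ {x | N ≤ x} → ∀ k, (∀ x ∈ F, (F, k, x) ∈ B) ∧
      {x | x ∈ p.A ∧ (F, k, x) ∉ B}.Finite) :
    ∀ m, ∃ F k, m ≤ k ∧ ∀ x ∈ (suc (Sum.inr (Sum.inr B)) p).A, (F, k, x) ∈ B := by
  have h1 : Good (Sum.inr (Sum.inr B)) (suc (Sum.inr (Sum.inr B)) p) := by
    refine act_good ?_
    set c : Code := Sum.inr (Sum.inr B)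
    have hs := spl_le p (code c)
    obtain ⟨q, hq1, hq2, hq3⟩ := exists_fuse (spl p (code c)) (fun F k => {x | (F, k, x) ∈ B}) N (by
      intro F hF k
      have h2 := h F (fun x hx => ⟨hs.2 (hF hx).1, (hF hx).2⟩) k
      exact ⟨h2.1, h2.2.subset fun x hx => ⟨hs.2 hx.1, hx.2⟩⟩)
    exact ⟨q, hq1, hq2, hq3⟩
  exact h1

end Nd

open Nd

/-! ### The tree -/

section Tree

variable {Ω : Type} [LinearOrder Ω] [WellFoundedLT Ω]

/-- the node of level `α` on the branch `h` -/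
noncomputable def tr : Ω → (Ω → Code) → Nd :=
  wellFounded_lt.fix fun α rec h => pick fun β : Iio α => suc (h β) (rec β.1 β.2 h)

theorem tr_eq (α : Ω) (h : Ω → Code) :
    tr α h = pick fun β : Iio α => suc (h β) (tr β.1 h) := by
  rw [tr, WellFounded.fix_eq]

theorem tr_congr (α : Ω) {h h' : Ω → Code} (hh : ∀ β < α, h β = h' β) : tr α h = tr α h' := by
  induction α using WellFoundedLT.induction with
  | ind α ih =>
    rw [tr_eq, tr_eq]
    congr 1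
    funext β
    rw [hh β.1 β.2, ih β.1 β.2 fun γ hγ => hh γ (hγ.trans β.2)]

variable (hc : ∀ w : Ω, (Iio w).Countable)

include hc

theorem tr_le_suc (α : Ω) (h : Ω → Code) : ∀ β < α, tr α h ≤ suc (h β) (tr β h) := by
  induction α using WellFoundedLT.induction with
  | ind α ih =>
    intro β₀ hβ₀
    rw [tr_eq]
    refine pick_le (M := fun β : Iio α => suc (h β) (tr β.1 h)) ?_ ⟨β₀, hβ₀⟩
    obtain ⟨e, he⟩ := (hc α).exists_eq_range ⟨β₀, hβ₀⟩
    have heα : ∀ n, e n < α := fun n => by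
      have : e n ∈ Iio α := he ▸ mem_range_self n
      exact this
    let b : ℕ → Ω := fun n => Nat.rec (e 0) (fun n r => max r (e (n + 1))) n
    have hbα : ∀ n, b n < α := by
      intro n
      induction n with
      | zero => exact heα 0
      | succ n ihn => exact max_lt ihn (heα _)
    have hbe : ∀ n, e n ≤ b n := by
      intro n
      cases n with
      | zero => exact le_rfl
      | succ n => exact le_max_right _ _
    have hM : ∀ β γ, β ≤ γ → γ < α → suc (h γ) (tr γ h) ≤ suc (h β) (tr β h) := by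
      intro β γ hβγ hγ
      rcases eq_or_lt_of_le hβγ with rfl | hlt
      · exact le_rfl
      · exact (suc_le _ _).trans (ih γ hγ β hlt)
    obtain ⟨q, hq⟩ := lower (fun n => suc (h (b n)) (tr (b n) h)) fun n =>
      hM _ _ (le_max_left _ _) (hbα (n + 1))
    refine ⟨q, ?_⟩
    rintro ⟨β, hβ⟩
    obtain ⟨n, rfl⟩ : β ∈ range e := he ▸ hβ
    exact (hq n).trans (hM _ _ (hbe n) (hbα n))

theorem tr_le {α β : Ω} {h k : Ω → Code} (hαβ : α ≤ β) (hk : ∀ γ < α, k γ = h γ) :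
    tr β k ≤ tr α h := by
  rw [← tr_congr α hk]
  rcases eq_or_lt_of_le hαβ with rfl | hlt
  · exact le_rfl
  · exact (tr_le_suc hc β k α hlt).trans (suc_le _ _)

theorem ad_or {α β : Ω} {h k : Ω → Code} (hinf : ((tr α h).A ∩ (tr β k).A).Infinite) :
    ∀ γ, γ < α → γ < β → h γ = k γ := by
  classical
  by_contra hcon
  push Not at hcon
  obtain ⟨γ₀, h₀⟩ := hcon
  obtain ⟨γ, ⟨h1, h2, h3⟩, h4⟩ := WellFounded.has_min (wellFounded_lt (α := Ω))
    {γ | γ < α ∧ γ < β ∧ h γ ≠ k γ} ⟨γ₀, h₀⟩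
  have h5 : tr γ h = tr γ k := tr_congr γ fun δ hδ => by
    by_contra hne
    exact h4 δ ⟨hδ.trans h1, hδ.trans h2, hne⟩ hδ
  have h6 := tr_le_suc hc α h γ h1
  have h7 := tr_le_suc hc β k γ h2
  rw [← h5] at h7
  have h8 := suc_ad (tr γ h) h3
  apply hinf
  refine ((h8.union (le_diff h6)).union (le_diff h7)).subset ?_
  rintro x ⟨hx1, hx2⟩
  by_cases h9 : x ∈ (suc (h γ) (tr γ h)).A
  · by_cases h10 : x ∈ (suc (k γ) (tr γ h)).A
    · exact Or.inl (Or.inl ⟨h9, h10⟩)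
    · exact Or.inr ⟨hx2, h10⟩
  · exact Or.inl (Or.inr ⟨hx1, h9⟩)

omit hc

/-- the ideal: the sets which do not almost contain a node -/
def Sm (Ω : Type) [LinearOrder Ω] [WellFoundedLT Ω] (B : Set ℕ) : Prop :=
  ∀ (α : Ω) (h : Ω → Code), ((tr α h).A \ B).Infinite

theorem Sm.mono {B C : Set ℕ} (h : Sm Ω B) (hC : C ⊆ B) : Sm Ω C := fun α k =>
  (h α k).mono (sdiff_subset_sdiff_right hC)

theorem sm_fin {B : Set ℕ} (h : B.Finite) : Sm Ω B := fun α k => (tr α k).infinite.sdiff h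

theorem not_sm_tr (α : Ω) (h : Ω → Code) : ¬ Sm Ω (tr α h).A := fun h' => h' α h (by
  rw [sdiff_self]
  exact finite_empty)

theorem not_sm_iff {B : Set ℕ} : ¬ Sm Ω B ↔ ∃ (α : Ω) (h : Ω → Code), ((tr α h).A \ B).Finite := by
  simp only [Sm, not_forall, Set.not_infinite]

include hc

variable (hb : ∀ a : ℕ → Ω, ∃ b, ∀ n, a n < b)

include hb

omit [WellFoundedLT Ω] hc in
theorem exists_gt' (α : Ω) : ∃ β, α < β := by
  obtain ⟨b, h⟩ := hb fun _ => α
  exact ⟨b, h 0⟩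

theorem exists_suc (α : Ω) (h : Ω → Code) (c : Code) : ∃ (β : Ω) (k : Ω → Code), α < β ∧
    (∀ γ < α, k γ = h γ) ∧ tr β k ≤ suc c (tr α h) := by
  classical
  obtain ⟨β, hβ⟩ := exists_gt' hb α
  refine ⟨β, Function.update h α c, hβ, fun γ hγ => Function.update_of_ne hγ.ne _ _, ?_⟩
  have h1 := tr_le_suc hc β (Function.update h α c) α hβ
  rw [Function.update_self] at h1
  rwa [tr_congr α fun γ hγ => Function.update_of_ne (ne_of_lt hγ) _ _] at h1

theorem decide_tr (B : Set ℕ) (α : Ω) (h : Ω → Code) : ∃ (β : Ω) (k : Ω → Code), α < β ∧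
    (∀ γ < α, k γ = h γ) ∧ (((tr β k).A \ B).Finite ∨ ((tr β k).A ∩ B).Finite) := by
  obtain ⟨β, k, h1, h2, h3⟩ := exists_suc hc hb α h (Sum.inl B)
  refine ⟨β, k, h1, h2, ?_⟩
  have h4 := le_diff h3
  rcases decide_code B (tr α h) with h5 | h5
  · exact Or.inl (h4.subset (sdiff_subset_sdiff_right h5))
  · refine Or.inr (h4.subset ?_)
    rintro x ⟨hx1, hx2⟩
    refine ⟨hx1, fun hx3 => ?_⟩
    have : x ∈ (suc (Sum.inl B) (tr α h)).A ∩ B := ⟨hx3, hx2⟩
    rw [h5] at this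
    exact this

theorem sm_union {B C : Set ℕ} (hB : Sm Ω B) (hC : Sm Ω C) : Sm Ω (B ∪ C) := by
  by_contra hcon
  obtain ⟨α, h, hf⟩ := not_sm_iff.1 hcon
  obtain ⟨β, k, h1, h2, h3⟩ := decide_tr hc hb B α h
  have h4 := le_diff (tr_le hc h1.le h2)
  rcases h3 with h3 | h3
  · exact hB β k h3
  · refine hC β k (((hf.union h3).union h4).subset ?_)
    rintro x ⟨hx1, hx2⟩
    by_cases hx3 : x ∈ (tr α h).A
    · by_cases hx4 : x ∈ B
      · exact Or.inl (Or.inr ⟨hx1, hx4⟩)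
      · exact Or.inl (Or.inl ⟨hx3, fun h => h.elim hx4 hx2⟩)
    · exact Or.inr ⟨hx1, hx3⟩

omit hb in
/-- small subsets of nodes are in the ideal -/
theorem sm_of_J {α : Ω} {h : Ω → Code} {C : Set ℕ} (hC : C ⊆ (tr α h).A) (hJ : J (tr α h).K C) :
    Sm Ω C := by
  by_contra hcon
  obtain ⟨β, k, hf⟩ := not_sm_iff.1 hcon
  have hinf : ((tr α h).A ∩ (tr β k).A).Infinite := by
    intro h1
    refine (tr β k).infinite ((h1.union hf).subset fun x hx => ?_)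
    by_cases hxC : x ∈ C
    · exact Or.inl ⟨hC hxC, hx⟩
    · exact Or.inr ⟨hx, hxC⟩
  have hag := ad_or hc hinf
  rcases le_total α β with hle | hle
  · have h1 := tr_le hc (h := h) (k := k) hle fun γ hγ => (hag γ hγ (hγ.trans_le hle)).symm
    have h2 := le_J h1 hJ
    refine (tr β k).not_J ((tr β k).J_mono ((tr β k).J_union h2 ((tr β k).J_fin hf)) fun x hx => ?_)
    by_cases hxC : x ∈ C
    · exact Or.inl hxC
    · exact Or.inr ⟨hx, hxC⟩
  · have h1 := le_diff (tr_le hc (h := k) (k := h) hle fun γ hγ => hag γ (hγ.trans_le hle) hγ)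
    refine (tr α h).not_J ((tr α h).J_mono ((tr α h).J_union hJ ((tr α h).J_fin (h1.union hf)))
      fun x hx => ?_)
    by_cases hxC : x ∈ C
    · exact Or.inl hxC
    · by_cases hxB : x ∈ (tr β k).A
      · exact Or.inr (Or.inr ⟨hxB, hxC⟩)
      · exact Or.inr (Or.inl ⟨hx, hxB⟩)

/-- nodes are dense -/
theorem dense_tr {α : Ω} {h : Ω → Code} {r : Set ℕ} (hr : ¬ Sm Ω (r ∩ (tr α h).A)) :
    ∃ (β : Ω) (k : Ω → Code), α < β ∧ (∀ γ < α, k γ = h γ) ∧ ((tr β k).A \ r).Finite := by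
  obtain ⟨γ, l, hf⟩ := not_sm_iff.1 hr
  have hinf : ((tr α h).A ∩ (tr γ l).A).Infinite := by
    intro h1
    refine (tr γ l).infinite ((h1.union hf).subset fun x hx => ?_)
    by_cases hxC : x ∈ r ∩ (tr α h).A
    · exact Or.inl ⟨hxC.2, hx⟩
    · exact Or.inr ⟨hx, hxC⟩
  have hag := ad_or hc hinf
  have hfr : ((tr γ l).A \ r).Finite := hf.subset (sdiff_subset_sdiff_right inter_subset_left)
  rcases le_total α γ with hle | hle
  · obtain ⟨β, hβ⟩ := exists_gt' hb γ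
    refine ⟨β, l, hle.trans_lt hβ, fun δ hδ => (hag δ hδ (hδ.trans_le hle)).symm, ?_⟩
    refine ((le_diff (tr_le hc (h := l) (k := l) hβ.le fun _ _ => rfl)).union hfr).subset ?_
    rintro x ⟨hx1, hx2⟩
    by_cases hx3 : x ∈ (tr γ l).A
    · exact Or.inr ⟨hx3, hx2⟩
    · exact Or.inl ⟨hx1, hx3⟩
  · obtain ⟨β, hβ⟩ := exists_gt' hb α
    refine ⟨β, h, hβ, fun δ hδ => rfl, ?_⟩
    refine ((le_diff (tr_le hc (h := l) (k := h) (hle.trans hβ.le)
      fun δ hδ => hag δ (hδ.trans_le hle) hδ)).union hfr).subset ?_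
    rintro x ⟨hx1, hx2⟩
    by_cases hx3 : x ∈ (tr γ l).A
    · exact Or.inr ⟨hx3, hx2⟩
    · exact Or.inl ⟨hx1, hx3⟩

/-- countably many tasks -/
theorem seq_tr (R : ℕ → Nd → Prop) (hR : ∀ n p q, q ≤ p → R n p → R n q) (α₀ : Ω) (h₀ : Ω → Code)
    (hstep : ∀ n (α : Ω) (h : Ω → Code), tr α h ≤ tr α₀ h₀ → ∃ (β : Ω) (k : Ω → Code), α < β ∧
      (∀ γ < α, k γ = h γ) ∧ R n (tr β k)) :
    ∃ (β : Ω) (k : Ω → Code), α₀ < β ∧ (∀ γ < α₀, k γ = h₀ γ) ∧ ∀ n, R n (tr β k) := by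
  classical
  have hch : ∀ (n : ℕ) (s : Ω × (Ω → Code)), ∃ t : Ω × (Ω → Code), tr s.1 s.2 ≤ tr α₀ h₀ →
      s.1 < t.1 ∧ (∀ γ < s.1, t.2 γ = s.2 γ) ∧ R n (tr t.1 t.2) := by
    intro n s
    by_cases hs : tr s.1 s.2 ≤ tr α₀ h₀
    · obtain ⟨β, k, h1, h2, h3⟩ := hstep n s.1 s.2 hs
      exact ⟨(β, k), fun _ => ⟨h1, h2, h3⟩⟩
    · exact ⟨s, fun h => absurd h hs⟩
  choose st hst using hch
  let u : ℕ → Ω × (Ω → Code) := fun n => Nat.rec (α₀, h₀) (fun n s => st n s) n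
  have hu0 : ∀ n, tr (u n).1 (u n).2 ≤ tr α₀ h₀ := by
    intro n
    induction n with
    | zero => exact le_rfl
    | succ n ih =>
      obtain ⟨h1, h2, -⟩ := hst n (u n) ih
      exact (tr_le hc h1.le h2).trans ih
  have hu : ∀ n, (u n).1 < (u (n + 1)).1 ∧ (∀ γ < (u n).1, (u (n + 1)).2 γ = (u n).2 γ) ∧
      R n (tr (u (n + 1)).1 (u (n + 1)).2) := fun n => hst n (u n) (hu0 n)
  have hmono : ∀ m n, m ≤ n → (u m).1 ≤ (u n).1 ∧ ∀ γ < (u m).1, (u n).2 γ = (u m).2 γ := by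
    intro m n hmn
    induction hmn with
    | refl => exact ⟨le_rfl, fun _ _ => rfl⟩
    | @step n _ ih =>
      refine ⟨ih.1.trans (hu n).1.le, fun γ hγ => ?_⟩
      rw [(hu n).2.1 γ (hγ.trans_le ih.1)]
      exact ih.2 γ hγ
  obtain ⟨β, hβ⟩ := hb fun n => (u n).1
  let k : Ω → Code := fun γ => if hγ : ∃ n, γ < (u n).1 then (u (Nat.find hγ)).2 γ else h₀ γ
  have hk : ∀ n, ∀ γ < (u n).1, k γ = (u n).2 γ := by
    intro n γ hγ
    have hex : ∃ n, γ < (u n).1 := ⟨n, hγ⟩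
    simp only [k]
    rw [dif_pos hex]
    exact ((hmono _ n (Nat.find_le hγ)).2 γ (Nat.find_spec hex)).symm
  refine ⟨β, k, hβ 0, hk 0, fun n => ?_⟩
  exact hR n _ _ (tr_le hc (hβ (n + 1)).le (hk (n + 1))) (hu n).2.2

end Tree

end Pool.Agent.Q212.TW
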