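import Pool.Agent.Q212.TW3

/-!
# The generic ultrafilter of the tree ideal is not above the Baire space
-/

set_option autoImplicit false

namespace Pool.Agent.Q212.TW

open Set Nd

section Tree

variable {Ω : Type} [LinearOrder Ω] [WellFoundedLT Ω]

variable (hc : ∀ w : Ω, (Iio w).Countable) (hb : ∀ a : ℕ → Ω, ∃ b, ∀ n, a n < b)

include hc hb

theorem sm_trans {a b c : Set ℕ} (h1 : Sm Ω (a \ b)) (h2 : Sm Ω (b \ c)) : Sm Ω (a \ c) :=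
  (sm_union hc hb h1 h2).mono fun x hx => by
    by_cases h : x ∈ b
    · exact Or.inr ⟨h, hx.2⟩
    · exact Or.inl ⟨hx.1, h⟩

theorem sm_inter {a b : Set ℕ} (h1 : ¬ Sm Ω a) (h2 : Sm Ω (a \ b)) : ¬ Sm Ω (a ∩ b) := fun h =>
  h1 ((sm_union hc hb h h2).mono fun x hx => by
    by_cases h : x ∈ b
    · exact Or.inl ⟨hx, h⟩
    · exact Or.inr ⟨hx, h⟩)

theorem pos_of_diff {a b : Set ℕ} (h1 : ¬ Sm Ω a) (h2 : Sm Ω (a \ b)) : ¬ Sm Ω b := fun h =>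
  sm_inter hc hb h1 h2 (h.mono inter_subset_right)

/-- countably many dense sets of conditions -/
theorem fusion {ι : Type} [Countable ι] [Nonempty ι] (Q : ι → Set ℕ → Prop)
    (hdown : ∀ n r r', Q n r → ¬ Sm Ω r' → Sm Ω (r' \ r) → Q n r') (p : Set ℕ) (hp : ¬ Sm Ω p)
    (hdense : ∀ n r, ¬ Sm Ω r → Sm Ω (r \ p) → ∃ r', ¬ Sm Ω r' ∧ Sm Ω (r' \ r) ∧ Q n r') :
    ∃ (α : Ω) (h : Ω → Code), ((tr α h).A \ p).Finite ∧ ∀ n, Q n (tr α h).A := by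
  obtain ⟨e, he⟩ := exists_surjective_nat ι
  obtain ⟨α₀, h₀, hf⟩ := not_sm_iff.1 hp
  obtain ⟨β, k, h1, h2, h3⟩ := seq_tr hc hb (fun n q => ¬ Sm Ω q.A → Q (e n) q.A) (by
    intro n p q hqp hRp hq
    have h4 := sm_fin (Ω := Ω) (le_diff hqp)
    exact hdown _ _ _ (hRp (pos_of_diff hc hb hq h4)) hq h4) α₀ h₀ (by
    intro n α h hα
    have h4 : Sm Ω ((tr α h).A \ p) :=
      sm_trans hc hb (sm_fin (le_diff hα)) (sm_fin hf)
    obtain ⟨r', h5, h6, h7⟩ := hdense (e n) _ (not_sm_tr α h) h4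
    obtain ⟨β, k, h8, h9, h10⟩ := dense_tr hc hb (α := α) (h := h) (sm_inter hc hb h5 h6)
    exact ⟨β, k, h8, h9, fun h11 => hdown _ _ _ h7 h11 (sm_fin h10)⟩)
  refine ⟨β, k, ?_, fun n => ?_⟩
  · refine ((le_diff (tr_le hc h1.le h2)).union hf).subset ?_
    rintro x ⟨hx1, hx2⟩
    by_cases hx3 : x ∈ (tr α₀ h₀).A
    · exact Or.inr ⟨hx3, hx2⟩
    · exact Or.inl ⟨hx1, hx3⟩
  · obtain ⟨m, rfl⟩ := he n
    exact h3 m (not_sm_tr β k)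

/-- a node almost disjoint from countably many sets in the ideal -/
theorem avoid {ι : Type} [Countable ι] [Nonempty ι] (Z : ι → Set ℕ) (hZ : ∀ n, Sm Ω (Z n))
    (α₀ : Ω) (h₀ : Ω → Code) : ∃ (β : Ω) (k : Ω → Code), tr β k ≤ tr α₀ h₀ ∧
      ∀ n, ((tr β k).A ∩ Z n).Finite := by
  obtain ⟨e, he⟩ := exists_surjective_nat ι
  obtain ⟨β, k, h1, h2, h3⟩ := seq_tr hc hb (fun n q => (q.A ∩ Z (e n)).Finite) (by
    intro n p q hqp hRp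
    refine ((le_diff hqp).union hRp).subset ?_
    rintro x ⟨hx1, hx2⟩
    by_cases hx3 : x ∈ p.A
    · exact Or.inr ⟨hx3, hx2⟩
    · exact Or.inl ⟨hx1, hx3⟩) α₀ h₀ (by
    intro n α h _
    obtain ⟨β, k, h1, h2, h3⟩ := decide_tr hc hb (Z (e n)) α h
    exact ⟨β, k, h1, h2, h3.resolve_left fun h4 => hZ (e n) β k h4⟩)
  refine ⟨β, k, tr_le hc h1.le h2, fun n => ?_⟩
  obtain ⟨m, rfl⟩ := he n
  exact h3 m

/-- The main argument: there is no reduction of the Baire space. -/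
theorem core (Gam : Set ℕ → Set ℕ → (ℕ → ℕ) → Prop) (q₀ : Set ℕ) (hq₀ : ¬ Sm Ω q₀)
    (G0 : ∀ r B g, Gam r B g → Sm Ω (r \ B))
    (G1a : ∀ r r' B g, Gam r B g → ¬ Sm Ω r' → Sm Ω (r' \ r) → Gam r' B g)
    (G1b : ∀ r B B' g, Gam r B g → B' ⊆ B → Sm Ω (r \ B') → Gam r B' g)
    (G2 : ∀ r, ¬ Sm Ω r → Sm Ω (r \ q₀) → ∀ g : ℕ → ℕ, Monotone g →
      ∃ r', ¬ Sm Ω r' ∧ Sm Ω (r' \ r) ∧ ∃ B, Gam r' B g)
    (G3 : ∀ r B, ¬ Sm Ω r → Sm Ω (r \ q₀) → Sm Ω (r \ B) → ∀ i, ∃ m, ∀ g, Gam r B g → g i ≤ m) :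
    False := by
  classical
  let Bd : Set ℕ → Finset ℕ → ℕ → ℕ → Prop := fun r F i k =>
    ∀ r', ¬ Sm Ω r' → Sm Ω (r' \ r) → ∀ B, ↑F ⊆ B → ∀ g, Gam r' B g → g i < k
  have Bd_mono : ∀ r r' F i k, Bd r F i k → Sm Ω (r' \ r) → Bd r' F i k :=
    fun r r' F i k h h1 r'' h2 h3 => h r'' h2 (sm_trans hc hb h3 h1)
  -- deciding what is bounded
  obtain ⟨α, h, hf0, hQ⟩ := fusion hc hb
    (fun (t : Finset ℕ × ℕ × ℕ) r => Bd r t.1 t.2.1 t.2.2 ∨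
      ∀ r', ¬ Sm Ω r' → Sm Ω (r' \ r) → ¬ Bd r' t.1 t.2.1 t.2.2) (by
    rintro ⟨F, i, k⟩ r r' hr h1 h2
    rcases hr with hr | hr
    · exact Or.inl (Bd_mono r r' F i k hr h2)
    · exact Or.inr fun r'' h3 h4 => hr r'' h3 (sm_trans hc hb h4 h2)) q₀ hq₀ (by
    rintro ⟨F, i, k⟩ r h1 h2
    by_cases h3 : ∀ r', ¬ Sm Ω r' → Sm Ω (r' \ r) → ¬ Bd r' F i k
    · exact ⟨r, h1, by rw [Set.sdiff_self]; exact sm_fin finite_empty, Or.inr h3⟩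
    · push Not at h3
      obtain ⟨r', h4, h5, h6⟩ := h3
      exact ⟨r', h4, h5, Or.inl h6⟩)
  set r₀ := (tr α h).A with hr₀
  have hr₀q : Sm Ω (r₀ \ q₀) := sm_fin hf0
  let 𝓕 : Set (ℕ × ℕ × Finset ℕ) := {t | Bd r₀ t.2.2 t.1 t.2.1}
  obtain ⟨β, k, hαβ, hk, hle⟩ := exists_suc hc hb α h (Sum.inr (Sum.inl 𝓕))
  set q := suc (Sum.inr (Sum.inl 𝓕)) (tr α h) with hq
  set A₁ := (tr β k).A with hA₁
  have hA₁0 : Sm Ω (A₁ \ r₀) := sm_fin (le_diff (tr_le hc hαβ.le hk))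
  have hA₁q : Sm Ω (A₁ \ q₀) := sm_trans hc hb hA₁0 hr₀q
  have hA₁p : ¬ Sm Ω A₁ := not_sm_tr β k
  rcases promise_code 𝓕 (tr α h) with hA | ⟨G, hGm, hG⟩
  swap
  · -- the promise gives a contradiction
    obtain ⟨r', h1, h2, B, h3⟩ := G2 A₁ hA₁p hA₁q G hGm
    let X : Set ℕ := r' ∩ (B ∩ A₁)
    have hX : ¬ Sm Ω X := sm_inter hc hb h1 (by
      rw [sdiff_inter]
      exact sm_union hc hb (G0 _ _ _ h3) h2)
    have hXJ : ¬ J q.K X := fun hJ => hX (sm_of_J hc (α := β) (h := k)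
      (fun x hx => hx.2.2) (le_J hle hJ))
    have h4 := mt (hG X) hXJ
    push Not at h4
    obtain ⟨i, m, F, hF, hm, hF1, hF2⟩ := h4
    have h5 : G i < m := hF1 r' h1 (sm_trans hc hb h2 hA₁0) B (fun x hx => (hF2 hx).2.1) G h3
    omega
  · obtain ⟨i, hi⟩ := hA
    have hA₁f : (A₁ \ q.A).Finite := le_diff hle
    let R : Set ℕ := A₁ ∩ q.A
    have hRp : ¬ Sm Ω R := sm_inter hc hb hA₁p (sm_fin hA₁f)
    have hR0 : Sm Ω (R \ r₀) := hA₁0.mono (sdiff_subset_sdiff_left inter_subset_left)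
    obtain ⟨x₀, hx₀⟩ : R.Nonempty := by
      rw [nonempty_iff_ne_empty]
      intro h1
      apply hRp
      rw [h1]
      exact sm_fin finite_empty
    have hun' : ∀ F : Finset ℕ, F.Nonempty → ↑F ⊆ R → ∀ m r', ¬ Sm Ω r' → Sm Ω (r' \ r₀) →
        ¬ Bd r' F i m := by
      intro F hFne hF m
      rcases hQ (F, i, m) with h1 | h1
      · exact absurd (fun x hx => (hF hx).2) (hi m F hFne h1)
      · exact h1
    have hun : ∀ F : Finset ℕ, ↑F ⊆ R → ∀ m r', ¬ Sm Ω r' → Sm Ω (r' \ r₀) → ¬ Bd r' F i m := by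
      intro F hF m r' h1 h2 h3
      by_cases hFne : F.Nonempty
      · exact hun' F hFne hF m r' h1 h2 h3
      · rw [Finset.not_nonempty_iff_eq_empty] at hFne
        subst hFne
        refine hun' {x₀} (Finset.singleton_nonempty _) (by simpa using hx₀) m r' h1 h2 ?_
        intro r'' h4 h5 B _ g h6
        exact h3 r'' h4 h5 B (by simp) g h6
    obtain ⟨β₂, k₂, hf2, hQ2⟩ := fusion hc hb
      (fun (t : Finset ℕ × ℕ) r => (↑t.1 : Set ℕ) ⊆ R → ∃ B : Set ℕ, ↑t.1 ⊆ B ∧ ∃ g, Gam r B g ∧ t.2 ≤ g i) (by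
      rintro ⟨F, m⟩ r r' hr h1 h2 hF
      obtain ⟨B, h3, g, h4, h5⟩ := hr hF
      exact ⟨B, h3, g, G1a _ _ _ _ h4 h1 h2, h5⟩) R hRp (by
      rintro ⟨F, m⟩ r h1 h2
      by_cases hF : ↑F ⊆ R
      · have h3 := hun F hF m r h1 (sm_trans hc hb h2 hR0)
        simp only [Bd] at h3
        push Not at h3
        obtain ⟨r', h4, h5, B, h6, g, h7, h8⟩ := h3
        exact ⟨r', h4, h5, fun _ => ⟨B, h6, g, h7, h8⟩⟩
      · exact ⟨r, h1, by rw [Set.sdiff_self]; exact sm_fin finite_empty, fun h => absurd h hF⟩)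
    set A₂ := (tr β₂ k₂).A with hA₂
    have hch : ∀ (F : Finset ℕ) (m : ℕ), ∃ (B : Set ℕ) (g : ℕ → ℕ), ↑F ⊆ R →
        ↑F ⊆ B ∧ Gam A₂ B g ∧ m ≤ g i := by
      intro F m
      by_cases hF : ↑F ⊆ R
      · obtain ⟨B, h1, g, h2, h3⟩ := hQ2 (F, m) hF
        exact ⟨B, g, fun _ => ⟨h1, h2, h3⟩⟩
      · exact ⟨∅, fun _ => 0, fun h => absurd h hF⟩
    choose B g hBg using hch
    obtain ⟨β₃, k₃, hle3, hf3⟩ := avoid hc hb
      (fun t : Finset ℕ × ℕ => if (↑t.1 : Set ℕ) ⊆ R then A₂ \ B t.1 t.2 else ∅) (by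
      rintro ⟨F, m⟩
      simp only
      split_ifs with hF
      · exact G0 _ _ _ (hBg F m hF).2.1
      · exact sm_fin finite_empty) β₂ k₂
    set A₃ := (tr β₃ k₃).A with hA₃
    have hA₃2 : (A₃ \ A₂).Finite := le_diff hle3
    have hA₃R : (A₃ \ R).Finite := (hA₃2.union hf2).subset fun x hx => by
      by_cases h1 : x ∈ A₂
      · exact Or.inr ⟨h1, hx.2⟩
      · exact Or.inl ⟨hx.1, h1⟩
    obtain ⟨N, hN⟩ : ∃ N, ∀ x ∈ A₃, N ≤ x → x ∈ R := by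
      obtain ⟨N, hN⟩ := hA₃R.bddAbove
      refine ⟨N + 1, fun x hx hNx => ?_⟩
      by_contra h1
      have h2 : x ≤ N := hN ⟨hx, h1⟩
      omega
    let BB : Set (Finset ℕ × ℕ × ℕ) := {t | (↑t.1 : Set ℕ) ⊆ R ∧ t.2.2 ∈ B t.1 t.2.1}
    have hfuse := fuse_code BB (tr β₃ k₃) N (by
      intro F hF m
      have hFR : ↑F ⊆ R := fun x hx => hN x (hF hx).1 (hF hx).2
      refine ⟨fun x hx => ⟨hFR, (hBg F m hFR).1 hx⟩, ?_⟩
      have h1 := hf3 (F, m)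
      simp only [hFR, if_true] at h1
      refine (hA₃2.union h1).subset ?_
      rintro x ⟨hx1, hx2⟩
      by_cases h2 : x ∈ A₂
      · exact Or.inr ⟨hx1, h2, fun h3 => hx2 ⟨hFR, h3⟩⟩
      · exact Or.inl ⟨hx1, h2⟩)
    set E := (suc (Sum.inr (Sum.inr BB)) (tr β₃ k₃)).A with hE
    obtain ⟨β₄, k₄, -, -, hle4⟩ := exists_suc hc hb β₃ k₃ (Sum.inr (Sum.inr BB))
    have hEp : ¬ Sm Ω E := pos_of_diff hc hb (not_sm_tr β₄ k₄) (sm_fin (le_diff hle4))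
    have hE3 : Sm Ω (E \ A₃) := sm_fin (le_diff (suc_le _ _))
    have hE2 : Sm Ω (E \ A₂) := sm_trans hc hb hE3 (sm_fin hA₃2)
    have hEq : Sm Ω (E \ q₀) := sm_trans hc hb (sm_trans hc hb hE3 (sm_fin hA₃R))
      (sm_trans hc hb hR0 hr₀q)
    obtain ⟨x₁, hx₁⟩ : E.Nonempty := by
      rw [nonempty_iff_ne_empty]
      intro h1
      apply hEp
      rw [h1]
      exact sm_fin finite_empty
    have hEE : Sm Ω (E \ E) := by
      rw [Set.sdiff_self]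
      exact sm_fin finite_empty
    obtain ⟨m, hm⟩ := G3 E E hEp hEq hEE i
    obtain ⟨F, l, hl, hFl⟩ := hfuse (m + 1)
    have hFR : ↑F ⊆ R := (hFl x₁ hx₁).1
    obtain ⟨-, h2, h3⟩ := hBg F l hFR
    have h4 := G1b _ _ _ _ (G1a _ _ _ _ h2 hEp hE2) (fun x hx => (hFl x hx).2) hEE
    have h5 := hm _ h4
    omega

end Tree

end Pool.Agent.Q212.TW
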