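import Pool.Agent.Q212.TwoPoint

/-!
# Splitting a symmetric two-point set into two Hamel functions
-/

open Set

namespace Pool.Agent.Q212.TwoPoint

/-- The union of two perfect matchings is bipartite. -/
theorem two_color {X : Type*} (σ ν : Equiv.Perm X) (hσ : ∀ x, σ (σ x) = x)
    (hν : ∀ x, ν (ν x) = x) (hσ' : ∀ x, σ x ≠ x) (hν' : ∀ x, ν x ≠ x) :
    ∃ C : Set X, ∀ x, (σ x ∈ C ↔ x ∉ C) ∧ (ν x ∈ C ↔ x ∉ C) := by
  classical
  let τ : Equiv.Perm X := σ * ν
  have hσσ : σ * σ = 1 := Equiv.ext hσ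
  have hνν : ν * ν = 1 := Equiv.ext hν
  have hσinv : σ⁻¹ = σ := inv_eq_of_mul_eq_one_left hσσ
  have hνinv : ν⁻¹ = ν := inv_eq_of_mul_eq_one_left hνν
  have hconj : ∀ n : ℤ, σ * τ ^ n = τ ^ (-n) * σ := by
    intro n
    have h1 : σ * τ * σ⁻¹ = τ⁻¹ := by
      change σ * (σ * ν) * σ⁻¹ = (σ * ν)⁻¹
      rw [← mul_assoc, hσσ, one_mul, mul_inv_rev, hνinv]
    have h2 : σ * τ ^ n * σ⁻¹ = τ ^ (-n) := by
      rw [← conj_zpow, h1, inv_zpow, zpow_neg]
    rw [← h2, inv_mul_cancel_right]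
  have hns : ∀ x, ¬ τ.SameCycle x (σ x) := by
    rintro x ⟨n, hn⟩
    rcases Int.even_or_odd n with ⟨k, hk⟩ | ⟨k, hk⟩
    · have h1 : (τ ^ k) x = (τ ^ (-k) * σ) x := by
        rw [Equiv.Perm.mul_apply, ← hn, ← Equiv.Perm.mul_apply, ← zpow_add, hk]
        congr 2
        ring
      rw [← hconj] at h1
      exact hσ' _ h1.symm
    · have h1 : (τ ^ (k + 1)) x = (τ ^ (-k) * σ) x := by
        rw [Equiv.Perm.mul_apply, ← hn, ← Equiv.Perm.mul_apply, ← zpow_add, hk]
        congr 2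
        ring
      rw [← hconj, add_comm, zpow_add, zpow_one] at h1
      have h2 : σ (ν ((τ ^ k) x)) = σ ((τ ^ k) x) := h1
      exact hν' _ (σ.injective h2)
  let Q := Quotient (Equiv.Perm.SameCycle.setoid τ)
  let mk : X → Q := fun x => Quotient.mk _ x
  have hmk : ∀ x y, mk x = mk y ↔ τ.SameCycle x y := fun x y => Quotient.eq
  have hmkσ : ∀ x y, τ.SameCycle x y → mk (σ x) = mk (σ y) := by
    rintro x y ⟨n, hn⟩
    rw [hmk]
    refine ⟨-n, ?_⟩
    rw [← hn, ← Equiv.Perm.mul_apply, ← Equiv.Perm.mul_apply, hconj]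
  have hne : ∀ x, mk x ≠ mk (σ x) := fun x h => hns x ((hmk _ _).mp h)
  have hτ : ∀ x, mk (σ (ν x)) = mk x := by
    intro x
    rw [hmk]
    exact Equiv.Perm.SameCycle.symm ⟨1, by rw [zpow_one]; rfl⟩
  have hν2 : ∀ x, mk (ν x) = mk (σ x) := by
    intro x
    have h1 : mk (σ (σ (ν x))) = mk (σ x) := hmkσ _ _ ((hmk _ _).mp (hτ x))
    rwa [hσ] at h1
  have htri : ∀ p q : Q, p ≠ q → (WellOrderingRel p q ↔ ¬ WellOrderingRel q p) := by
    intro p q hpq
    constructor
    · intro h1 h2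
      exact asymm_of WellOrderingRel h1 h2
    · intro h1
      rcases trichotomous_of WellOrderingRel p q with h | h | h
      · exact h
      · exact absurd h hpq
      · exact absurd h h1
  refine ⟨{x | WellOrderingRel (mk x) (mk (σ x))}, fun x => ⟨?_, ?_⟩⟩
  · change WellOrderingRel (mk (σ x)) (mk (σ (σ x))) ↔ ¬ WellOrderingRel (mk x) (mk (σ x))
    rw [hσ]
    exact htri _ _ (hne x).symm
  · change WellOrderingRel (mk (ν x)) (mk (σ (ν x))) ↔ ¬ WellOrderingRel (mk x) (mk (σ x))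
    rw [hτ, hν2]
    exact htri _ _ (hne x).symm

/-- `h` is a Hamel function: its graph is a Hamel basis of `ℝ²`. -/
def HamelFunction (h : ℝ → ℝ) : Prop := HamelBasis {p : ℝ × ℝ | p.2 = h p.1}

/-- A selection of one point from each pair `{b, -b}`, `b ∈ B`, is again a Hamel basis. -/
theorem hamel_of_selection {B C : Set (ℝ × ℝ)} (hB : HamelBasis B)
    (hC : ∀ p ∈ sym B, (-p ∈ C ↔ p ∉ C)) (hCs : C ⊆ sym B) : HamelBasis C := by
  classical
  let w : B → ℚˣ := fun b => if b.1 ∈ C then 1 else -1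
  have hlin : LinearIndependent ℚ (w • (Subtype.val : B → ℝ × ℝ)) := hB.1.units_smul w
  have hval : ∀ b : B, (w • (Subtype.val : B → ℝ × ℝ)) b = if b.1 ∈ C then b.1 else -b.1 := by
    intro b
    change w b • b.1 = _
    simp only [w]
    split_ifs
    · exact one_smul _ _
    · rw [Units.neg_smul, one_smul]
  have hrange : range (w • (Subtype.val : B → ℝ × ℝ)) = C := by
    ext p
    constructor
    · rintro ⟨b, rfl⟩
      rw [hval]
      split_ifs with h
      · exact h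
      · exact (hC b.1 (Or.inl b.2)).mpr h
    · intro hp
      rcases hCs hp with h | h
      · exact ⟨⟨p, h⟩, by rw [hval, if_pos hp]⟩
      · refine ⟨⟨-p, h⟩, ?_⟩
        rw [hval, if_neg, neg_neg]
        intro hmem
        exact (hC p (Or.inr h)).mp hmem hp
  refine ⟨?_, ?_⟩
  · have := hlin.linearIndepOn_id
    rw [hrange] at this
    exact this
  · rw [eq_top_iff, ← hB.2, Submodule.span_le]
    intro b hb
    by_cases h : b ∈ C
    · exact Submodule.subset_span h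
    · have h1 := (hC b (Or.inl hb)).mpr h
      have h2 := (Submodule.span ℚ C).neg_mem (Submodule.subset_span h1)
      rwa [neg_neg] at h2

/-- If `B` is a Hamel basis and `B ∪ -B` meets every vertical line in exactly two points, then
`B ∪ -B` is the union of two Hamel functions. -/
theorem split {B : Set (ℝ × ℝ)} (hB : HamelBasis B)
    (hV : ∀ c : ℝ, (sym B ∩ {p | p.1 = c}).encard = 2) :
    ∃ f g : ℝ → ℝ, HamelFunction f ∧ HamelFunction g ∧
      sym B = {p : ℝ × ℝ | p.2 = f p.1} ∪ {p : ℝ × ℝ | p.2 = g p.1} := by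
  classical
  have hB0 : ∀ x ∈ sym B, x ≠ 0 := fun x hx => ne_zero_of_sym hB.1 hx
  -- the other point on the same vertical line
  have hex : ∀ x : sym B, ∃ y : sym B, y ≠ x ∧ y.1.1 = x.1.1 ∧
      ∀ z : sym B, z.1.1 = x.1.1 → z = x ∨ z = y := by
    rintro ⟨x, hx⟩
    obtain ⟨a, b, hab, heq⟩ := encard_eq_two.mp (hV x.1)
    have hxm : x ∈ ({a, b} : Set (ℝ × ℝ)) := heq ▸ ⟨hx, rfl⟩
    have ham : a ∈ sym B ∩ {p | p.1 = x.1} := heq ▸ Or.inl rfl
    have hbm : b ∈ sym B ∩ {p | p.1 = x.1} := heq ▸ Or.inr rfl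
    rcases hxm with rfl | rfl
    · refine ⟨⟨b, hbm.1⟩, fun h => hab (Subtype.ext_iff.mp h).symm, hbm.2, ?_⟩
      rintro ⟨z, hz⟩ hzx
      have : z ∈ ({x, b} : Set (ℝ × ℝ)) := heq ▸ ⟨hz, hzx⟩
      rcases this with rfl | rfl
      · exact Or.inl rfl
      · exact Or.inr rfl
    · refine ⟨⟨a, ham.1⟩, fun h => hab (Subtype.ext_iff.mp h), ham.2, ?_⟩
      rintro ⟨z, hz⟩ hzx
      have : z ∈ ({a, x} : Set (ℝ × ℝ)) := heq ▸ ⟨hz, hzx⟩
      rcases this with rfl | rfl
      · exact Or.inr rfl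
      · exact Or.inl rfl
  choose s hs1 hs2 hs3 using hex
  have hss : ∀ x, s (s x) = x := by
    intro x
    rcases hs3 (s x) x (hs2 x).symm with h | h
    · exact absurd h.symm (hs1 x)
    · exact h.symm
  let σ : Equiv.Perm (sym B) := ⟨s, s, hss, hss⟩
  let n : sym B → sym B := fun x => ⟨-x.1, sym_neg x.2⟩
  have hnn : ∀ x, n (n x) = x := fun x => Subtype.ext (neg_neg _)
  let ν : Equiv.Perm (sym B) := ⟨n, n, hnn, hnn⟩
  obtain ⟨C, hC⟩ := two_color σ ν hss hnn hs1 (by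
    intro x h
    exact hB0 x.1 x.2 (self_eq_neg.mp (Subtype.ext_iff.mp h).symm))
  -- each vertical line meets `C` in one point, and its complement in one point
  have hone : ∀ D : Set (sym B), (∀ x, (s x ∈ D ↔ x ∉ D)) → ∃ f : ℝ → ℝ,
      {p : ℝ × ℝ | p.2 = f p.1} = Subtype.val '' D := by
    intro D hD
    have h1 : ∀ c : ℝ, ∃ x : sym B, x ∈ D ∧ x.1.1 = c := by
      intro c
      obtain ⟨a, b, hab, heq⟩ := encard_eq_two.mp (hV c)
      have ham : a ∈ sym B ∩ {p | p.1 = c} := heq ▸ Or.inl rfl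
      by_cases haD : (⟨a, ham.1⟩ : sym B) ∈ D
      · exact ⟨_, haD, ham.2⟩
      · exact ⟨s ⟨a, ham.1⟩, (hD _).mpr haD, (hs2 _).trans ham.2⟩
    choose e he1 he2 using h1
    refine ⟨fun c => (e c).1.2, ?_⟩
    ext p
    constructor
    · intro hp
      have hp' : p.2 = (e p.1).1.2 := hp
      refine ⟨e p.1, he1 _, Prod.ext (he2 _) hp'.symm⟩
    · rintro ⟨x, hx, rfl⟩
      change x.1.2 = (e x.1.1).1.2
      rcases hs3 x (e x.1.1) (he2 _) with h | h
      · rw [h]
      · exact absurd (h ▸ he1 x.1.1) (fun h' => (hD x).mp h' hx)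
  obtain ⟨f, hf⟩ := hone C fun x => (hC x).1
  obtain ⟨g, hg⟩ := hone Cᶜ fun x => not_congr (hC x).1
  have hham : ∀ D : Set (sym B), (∀ x, (n x ∈ D ↔ x ∉ D)) → HamelBasis (Subtype.val '' D) := by
    intro D hD
    refine hamel_of_selection hB ?_ (by rintro _ ⟨x, _, rfl⟩; exact x.2)
    intro p hp
    have h1 : ∀ (q : ℝ × ℝ) (hq : q ∈ sym B), q ∈ Subtype.val '' D ↔ (⟨q, hq⟩ : sym B) ∈ D := by
      intro q hq
      constructor
      · rintro ⟨x, hx, rfl⟩
        exact hx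
      · intro h
        exact ⟨_, h, rfl⟩
    rw [h1 p hp, h1 (-p) (sym_neg hp)]
    exact hD ⟨p, hp⟩
  refine ⟨f, g, ?_, ?_, ?_⟩
  · unfold HamelFunction
    rw [hf]
    exact hham C fun x => (hC x).2
  · unfold HamelFunction
    rw [hg]
    exact hham Cᶜ fun x => not_congr (hC x).2
  · rw [hf, hg, ← image_union, union_compl_self, image_univ, Subtype.range_coe]

/-- The counterclockwise rotation by the angle `θ` about the origin. -/
noncomputable def rot (θ : ℝ) (p : ℝ × ℝ) : ℝ × ℝ :=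
  (p.1 * Real.cos θ - p.2 * Real.sin θ, p.1 * Real.sin θ + p.2 * Real.cos θ)

theorem rot_neg_rot (θ : ℝ) (p : ℝ × ℝ) : rot (-θ) (rot θ p) = p := by
  have h := Real.sin_sq_add_cos_sq θ
  unfold rot
  simp only [Real.cos_neg, Real.sin_neg]
  refine Prod.ext ?_ ?_
  · simp only
    linear_combination p.1 * h
  · simp only
    linear_combination p.2 * h

/-- The rotation as a linear equivalence over `ℚ`. -/
noncomputable def rotEquiv (θ : ℝ) : (ℝ × ℝ) ≃ₗ[ℚ] (ℝ × ℝ) where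
  toFun := rot θ
  invFun := rot (-θ)
  left_inv := rot_neg_rot θ
  right_inv := by
    intro p
    have := rot_neg_rot (-θ) p
    rwa [neg_neg] at this
  map_add' := by
    intro p q
    unfold rot
    refine Prod.ext ?_ ?_
    · simp only [Prod.fst_add, Prod.snd_add]
      ring
    · simp only [Prod.fst_add, Prod.snd_add]
      ring
  map_smul' := by
    intro r p
    unfold rot
    refine Prod.ext ?_ ?_
    · simp only [Prod.smul_fst, Prod.smul_snd, Rat.smul_def, RingHom.id_apply]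
      ring
    · simp only [Prod.smul_fst, Prod.smul_snd, Rat.smul_def, RingHom.id_apply]
      ring

theorem rotEquiv_apply (θ : ℝ) (p : ℝ × ℝ) : rotEquiv θ p = rot θ p := rfl

theorem hamel_rot {B : Set (ℝ × ℝ)} (hB : HamelBasis B) (θ : ℝ) : HamelBasis (rot θ '' B) := by
  constructor
  · have h1 : LinearIndependent ℚ (fun b : B => rotEquiv θ b.1) :=
      hB.1.map' (rotEquiv θ).toLinearMap (rotEquiv θ).ker
    have h2 := h1.linearIndepOn_id
    have h3 : range (fun b : B => rotEquiv θ b.1) = rot θ '' B := by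
      ext p
      constructor
      · rintro ⟨b, rfl⟩
        exact ⟨b.1, b.2, rfl⟩
      · rintro ⟨b, hb, rfl⟩
        exact ⟨⟨b, hb⟩, rfl⟩
    rw [h3] at h2
    exact h2
  · have h1 : Submodule.map (rotEquiv θ).toLinearMap (Submodule.span ℚ B) = ⊤ := by
      rw [hB.2, Submodule.map_top, LinearMap.range_eq_top]
      exact (rotEquiv θ).surjective
    rw [Submodule.map_span] at h1
    exact h1

theorem sym_rot (B : Set (ℝ × ℝ)) (θ : ℝ) : rot θ '' sym B = sym (rot θ '' B) := by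
  have hneg : ∀ p, rot θ (-p) = -rot θ p := fun p => (rotEquiv θ).map_neg p
  ext p
  constructor
  · rintro ⟨q, hq | hq, rfl⟩
    · exact Or.inl ⟨q, hq, rfl⟩
    · exact Or.inr ⟨-q, hq, hneg q⟩
  · rintro (⟨q, hq, rfl⟩ | ⟨q, hq, hqp⟩)
    · exact ⟨q, Or.inl hq, rfl⟩
    · refine ⟨-q, Or.inr (by rwa [neg_neg]), ?_⟩
      rw [hneg, hqp, neg_neg]

/-- There is a Mazurkiewicz set all of whose rotations are unions of two Hamel functions. -/
theorem exists_all_directions : ∃ M : Set (ℝ × ℝ), Mazurkiewicz M ∧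
    ∀ θ : ℝ, ∃ f g : ℝ → ℝ, HamelFunction f ∧ HamelFunction g ∧
      rot θ '' M = {p : ℝ × ℝ | p.2 = f p.1} ∪ {p : ℝ × ℝ | p.2 = g p.1} := by
  obtain ⟨B, hB, hM⟩ := exists_symmetric
  refine ⟨sym B, hM, fun θ => ?_⟩
  rw [sym_rot]
  refine split (hamel_rot hB θ) fun c => ?_
  rw [← sym_rot]
  have hne : (Real.cos θ, -Real.sin θ) ≠ ((0 : ℝ), (0 : ℝ)) := by
    intro h
    have h1 := (Prod.mk.inj h).1
    have h2 := (Prod.mk.inj h).2
    have h3 := Real.sin_sq_add_cos_sq θ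
    rw [h1, neg_eq_zero.mp h2] at h3
    norm_num at h3
  have h1 := hM (Real.cos θ) (-Real.sin θ) c hne
  have h2 : rot θ '' sym B ∩ {p | p.1 = c} =
      rot θ '' (sym B ∩ line (Real.cos θ) (-Real.sin θ) c) := by
    ext p
    constructor
    · rintro ⟨⟨q, hq, rfl⟩, hqc⟩
      refine ⟨q, ⟨hq, ?_⟩, rfl⟩
      have h3 : q.1 * Real.cos θ - q.2 * Real.sin θ = c := hqc
      change Real.cos θ * q.1 + -Real.sin θ * q.2 = c
      linear_combination h3
    · rintro ⟨q, ⟨hq, hqc⟩, rfl⟩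
      refine ⟨⟨q, hq, rfl⟩, ?_⟩
      have h3 : Real.cos θ * q.1 + -Real.sin θ * q.2 = c := hqc
      change q.1 * Real.cos θ - q.2 * Real.sin θ = c
      linear_combination h3
  have hinj : Function.Injective (rot θ) := (rotEquiv θ).injective
  rw [h2, hinj.encard_image]
  exact h1

end Pool.Agent.Q212.TwoPoint
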