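import Pool.Agent.Q212.Rec

/-!
# A symmetric two-point set made of a Hamel basis and its negative
-/

open Set Cardinal

namespace Pool.Agent.Q212.TwoPoint

/-- The line `a x + b y = c`. -/
def line (a b c : ℝ) : Set (ℝ × ℝ) := {p | a * p.1 + b * p.2 = c}

/-- A Mazurkiewicz (two-point) set meets every line in exactly two points. -/
def Mazurkiewicz (M : Set (ℝ × ℝ)) : Prop :=
  ∀ a b c : ℝ, (a, b) ≠ (0, 0) → (M ∩ line a b c).encard = 2

/-- `B` is a Hamel basis of `ℝ²`, i.e. a basis over `ℚ`. -/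
def HamelBasis (B : Set (ℝ × ℝ)) : Prop :=
  LinearIndependent ℚ (Subtype.val : B → ℝ × ℝ) ∧ Submodule.span ℚ B = ⊤

def cr (p q : ℝ × ℝ) : ℝ := p.1 * q.2 - p.2 * q.1

def det (x y z : ℝ × ℝ) : ℝ := cr x y + cr y z + cr z x

theorem det_cyc (x y z : ℝ × ℝ) : det x y z = det y z x := by unfold det; ring

theorem det_cyc' (x y z : ℝ × ℝ) : det x y z = det z x y := by unfold det; ring

theorem det_neg (x y z : ℝ × ℝ) : det (-x) y z = det x (-y) (-z) := by
  unfold det cr
  simp only [Prod.fst_neg, Prod.snd_neg]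
  ring

theorem det_pm (p x : ℝ × ℝ) : det p (-p) x = -2 * cr p x := by
  unfold det cr
  simp only [Prod.fst_neg, Prod.snd_neg]
  ring

theorem det_mp (p x : ℝ × ℝ) : det (-p) p x = 2 * cr p x := by
  unfold det cr
  simp only [Prod.fst_neg, Prod.snd_neg]
  ring

/-- `B ∪ -B` -/
def sym (B : Set (ℝ × ℝ)) : Set (ℝ × ℝ) := {p | p ∈ B ∨ -p ∈ B}

theorem sym_neg {B : Set (ℝ × ℝ)} {x : ℝ × ℝ} (hx : x ∈ sym B) : -x ∈ sym B := by
  rcases hx with h | h
  · exact Or.inr (by rwa [neg_neg])
  · exact Or.inl h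

theorem sym_mono {B B' : Set (ℝ × ℝ)} (h : B ⊆ B') : sym B ⊆ sym B' := by
  rintro x (hx | hx)
  · exact Or.inl (h hx)
  · exact Or.inr (h hx)

theorem sym_insert (B : Set (ℝ × ℝ)) (p x : ℝ × ℝ) :
    x ∈ sym (insert p B) ↔ x ∈ sym B ∨ x = p ∨ x = -p := by
  unfold sym
  simp only [mem_insert_iff, mem_ofPred_eq, neg_eq_iff_eq_neg]
  tauto

/-- No three distinct points of `M` are collinear. -/
def NoThree (M : Set (ℝ × ℝ)) : Prop :=
  ∀ x ∈ M, ∀ y ∈ M, ∀ z ∈ M, x ≠ y → y ≠ z → x ≠ z → det x y z ≠ 0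

theorem insert_noThree {B : Set (ℝ × ℝ)} (hM : NoThree (sym B)) {p : ℝ × ℝ}
    (h1 : ∀ m ∈ sym B, ∀ m' ∈ sym B, m ≠ m' → det p m m' ≠ 0)
    (h2 : ∀ m ∈ sym B, cr p m ≠ 0) : NoThree (sym (insert p B)) := by
  have h1' : ∀ m ∈ sym B, ∀ m' ∈ sym B, m ≠ m' → det (-p) m m' ≠ 0 := by
    intro m hm m' hm' hne
    rw [det_neg]
    exact h1 _ (sym_neg hm) _ (sym_neg hm') (fun h => hne (neg_injective h))
  have h3 : ∀ m ∈ sym B, det p (-p) m ≠ 0 := by
    intro m hm
    rw [det_pm]
    exact mul_ne_zero (by norm_num) (h2 m hm)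
  have h4 : ∀ m ∈ sym B, det (-p) p m ≠ 0 := by
    intro m hm
    rw [det_mp]
    exact mul_ne_zero (by norm_num) (h2 m hm)
  intro x hx y hy z hz hxy hyz hxz
  rw [sym_insert] at hx hy hz
  rcases hx with hx | rfl | rfl
  · rcases hy with hy | rfl | rfl
    · rcases hz with hz | rfl | rfl
      · exact hM x hx y hy z hz hxy hyz hxz
      · rw [det_cyc']; exact h1 x hx y hy hxy
      · rw [det_cyc']; exact h1' x hx y hy hxy
    · rcases hz with hz | rfl | rfl
      · rw [det_cyc]; exact h1 z hz x hx hxz.symm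
      · exact absurd rfl hyz
      · rw [det_cyc]; exact h3 x hx
    · rcases hz with hz | rfl | rfl
      · rw [det_cyc]; exact h1' z hz x hx hxz.symm
      · rw [det_cyc]; exact h4 x hx
      · exact absurd rfl hyz
  · rcases hy with hy | rfl | rfl
    · rcases hz with hz | rfl | rfl
      · exact h1 y hy z hz hyz
      · exact absurd rfl hxz
      · rw [det_cyc']; exact h4 y hy
    · exact absurd rfl hxy
    · rcases hz with hz | rfl | rfl
      · exact h3 z hz
      · exact absurd rfl hxz
      · exact absurd rfl hyz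
  · rcases hy with hy | rfl | rfl
    · rcases hz with hz | rfl | rfl
      · exact h1' y hy z hz hyz
      · rw [det_cyc']; exact h3 y hy
      · exact absurd rfl hxz
    · rcases hz with hz | rfl | rfl
      · exact h4 z hz
      · exact absurd rfl hyz
      · exact absurd rfl hxz
    · exact absurd rfl hxy

/-- `B` is linearly independent over `ℚ` and no three points of `B ∪ -B` are collinear. -/
def Good (B : Set (ℝ × ℝ)) : Prop := LinearIndepOn ℚ id B ∧ NoThree (sym B)

theorem good_fin (B : Set (ℝ × ℝ)) (h : ∀ F, F ⊆ B → F.Finite → Good F) : Good B := by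
  constructor
  · exact linearIndepOn_of_finite B fun t ht hf => (h t ht hf).1
  · intro x hx y hy z hz hxy hyz hxz
    have key : ∀ x ∈ sym B, ∃ b ∈ B, x ∈ sym {b} := by
      rintro x (hx | hx)
      · exact ⟨x, hx, Or.inl rfl⟩
      · exact ⟨-x, hx, Or.inr rfl⟩
    obtain ⟨a, ha, hxa⟩ := key x hx
    obtain ⟨b, hb, hyb⟩ := key y hy
    obtain ⟨c, hc, hzc⟩ := key z hz
    have hF : ({a, b, c} : Set (ℝ × ℝ)) ⊆ B := by
      rintro w (rfl | rfl | rfl)
      · exact ha
      · exact hb
      · exact hc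
    exact (h {a, b, c} hF (by simp)).2 x (sym_mono (by simp) hxa) y (sym_mono (by simp) hyb)
      z (sym_mono (by simp) hzc) hxy hyz hxz

theorem good_mono (B B' : Set (ℝ × ℝ)) (h : B ⊆ B') (hB : Good B') : Good B :=
  ⟨hB.1.mono h, fun x hx y hy z hz => hB.2 x (sym_mono h hx) y (sym_mono h hy) z (sym_mono h hz)⟩

theorem good_empty : Good ∅ := by
  refine ⟨linearIndepOn_empty _ _, fun x hx => ?_⟩
  rcases hx with h | h
  · exact absurd h (notMem_empty _)
  · exact absurd h (notMem_empty _)

theorem mk_span_lt {B : Set (ℝ × ℝ)} (hB : #B < Cardinal.continuum) :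
    #(Submodule.span ℚ B) < Cardinal.continuum := by
  have h1 : #(Submodule.span ℚ B) ≤ #(B →₀ ℚ) := by
    have h2 : Submodule.span ℚ B = LinearMap.range (Finsupp.linearCombination ℚ
        (Subtype.val : B → ℝ × ℝ)) := by
      rw [Finsupp.range_linearCombination, Subtype.range_coe]
    rw [h2]
    exact mk_le_of_surjective (LinearMap.surjective_rangeRestrict _)
  refine h1.trans_lt ?_
  rcases finite_or_infinite B with hf | hf
  · exact (mk_le_aleph0 (α := B →₀ ℚ)).trans_lt aleph0_lt_continuum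
  · rw [mk_finsupp_lift_of_infinite, lift_id, lift_id]
    refine max_lt hB ?_
    exact (mk_le_aleph0 (α := ℚ)).trans_lt aleph0_lt_continuum

theorem mk_sym_lt {B : Set (ℝ × ℝ)} (hB : #B < Cardinal.continuum) :
    #(sym B) < Cardinal.continuum := by
  have h1 : sym B ⊆ B ∪ Neg.neg '' B := by
    rintro x (hx | hx)
    · exact Or.inl hx
    · exact Or.inr ⟨-x, hx, neg_neg x⟩
  refine (mk_le_mk_of_subset h1).trans_lt ((mk_union_le _ _).trans_lt ?_)
  exact add_lt_of_lt aleph0_le_continuum hB (mk_image_le.trans_lt hB)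

theorem sym_subset_span {B : Set (ℝ × ℝ)} : sym B ⊆ Submodule.span ℚ B := by
  rintro x (hx | hx)
  · exact Submodule.subset_span hx
  · have := (Submodule.span ℚ B).neg_mem (Submodule.subset_span hx)
    rwa [neg_neg] at this

theorem ne_zero_of_sym {B : Set (ℝ × ℝ)} (hB : LinearIndepOn ℚ id B) {x : ℝ × ℝ}
    (hx : x ∈ sym B) : x ≠ 0 := by
  rintro rfl
  have h0 : (0 : ℝ × ℝ) ∈ B := by
    rcases hx with h | h
    · exact h
    · rwa [neg_zero] at h
  exact hB.ne_zero h0 rfl

theorem ab_ne {a b : ℝ} (hab : (a, b) ≠ (0, 0)) : a ^ 2 + b ^ 2 ≠ 0 := by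
  intro h
  have ha : a = 0 := by nlinarith [sq_nonneg a, sq_nonneg b]
  have hb : b = 0 := by nlinarith [sq_nonneg a, sq_nonneg b]
  exact hab (by rw [ha, hb])

theorem det_line {a b c : ℝ} {p m m' : ℝ × ℝ} (hp : a * p.1 + b * p.2 = c)
    (hw : a * (m.1 - m'.1) + b * (m.2 - m'.2) = 0) :
    (a ^ 2 + b ^ 2) * det p m m' =
      -(a * (m.2 - m'.2) - b * (m.1 - m'.1)) * (a * m.1 + b * m.2 - c) := by
  unfold det cr
  linear_combination (a * (m.2 - m'.2) - b * (m.1 - m'.1)) * hp +
    (a * (m.2 - p.2) - b * (m.1 - p.1)) * hw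

theorem cr_line {a b c : ℝ} {p m : ℝ × ℝ} (hp : a * p.1 + b * p.2 = c)
    (hw : a * m.1 + b * m.2 = 0) :
    (a ^ 2 + b ^ 2) * cr p m = (a * m.2 - b * m.1) * c := by
  unfold cr
  linear_combination (a * m.2 - b * m.1) * hp + (b * p.1 - a * p.2) * hw

theorem eq_zero_of {a b x y : ℝ} (hab : (a, b) ≠ (0, 0)) (h1 : a * x + b * y = 0)
    (h2 : a * y - b * x = 0) : x = 0 ∧ y = 0 := by
  have h := ab_ne hab
  constructor
  · have : (a ^ 2 + b ^ 2) * x = 0 := by linear_combination a * h1 - b * h2
    exact (mul_eq_zero.mp this).resolve_left h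
  · have : (a ^ 2 + b ^ 2) * y = 0 := by linear_combination b * h1 + a * h2
    exact (mul_eq_zero.mp this).resolve_left h

/-- Adding a generic point of a line. -/
theorem add_point {B : Set (ℝ × ℝ)} (hB : Good B) (hc : #B < Cardinal.continuum)
    {a b c : ℝ} (hab : (a, b) ≠ (0, 0))
    (h1 : ∀ m ∈ sym B, ∀ m' ∈ sym B, m ∈ line a b c → m' ∈ line a b c → m = m')
    (h2 : ∀ m ∈ sym B, m ∈ line a b c → c ≠ 0) :
    ∃ p ∈ line a b c, p ∉ Submodule.span ℚ B ∧ Good (insert p B) := by
  have hab2 := ab_ne hab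
  let p : ℝ → ℝ × ℝ := fun t =>
    (a * c / (a ^ 2 + b ^ 2) - t * b, b * c / (a ^ 2 + b ^ 2) + t * a)
  have hpl : ∀ t, a * (p t).1 + b * (p t).2 = c := by
    intro t
    change a * (a * c / (a ^ 2 + b ^ 2) - t * b) + b * (b * c / (a ^ 2 + b ^ 2) + t * a) = c
    field_simp
    ring
  have hpinj : ∀ s t, p s = p t → s = t := by
    intro s t hst
    have e1 := (Prod.mk.inj hst).1
    have e2 := (Prod.mk.inj hst).2
    have e5 : (s - t) * (a ^ 2 + b ^ 2) = 0 := by linear_combination a * e2 - b * e1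
    rcases mul_eq_zero.mp e5 with h | h
    · linarith
    · exact absurd h hab2
  -- the bad sets
  have hS := mk_sym_lt hc
  have hcard : #((Submodule.span ℚ B) ⊕ {mm : sym B × sym B // mm.1 ≠ mm.2} ⊕ sym B) <
      Cardinal.continuum := by
    rw [mk_sum, mk_sum]
    simp only [lift_id]
    refine add_lt_of_lt aleph0_le_continuum (mk_span_lt hc)
      (add_lt_of_lt aleph0_le_continuum ?_ hS)
    refine (mk_subtype_le _).trans_lt ?_
    rw [mk_prod]
    simp only [lift_id]
    exact mul_lt_of_lt aleph0_le_continuum hS hS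
  obtain ⟨t, ht⟩ := Rec.exists_avoid hcard
    (Sum.elim (fun z => {t | p t = z.1}) (Sum.elim
      (fun mm => {t | det (p t) mm.1.1.1 mm.1.2.1 = 0}) (fun m => {t | cr (p t) m.1 = 0}))) (by
    rintro (z | mm | m)
    · refine Set.Subsingleton.countable ?_
      intro s hs t ht
      have e1 : p s = z.1 := hs
      have e2 : p t = z.1 := ht
      exact hpinj s t (e1.trans e2.symm)
    · refine Set.Subsingleton.countable ?_
      obtain ⟨⟨⟨m, hm⟩, ⟨m', hm'⟩⟩, hne⟩ := mm
      have hne' : m ≠ m' := fun h => hne (Subtype.ext h)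
      intro s hs t ht
      have e1 : det (p s) m m' = 0 := hs
      have e2 : det (p t) m m' = 0 := ht
      by_contra hst
      have e3 : a * (m.1 - m'.1) + b * (m.2 - m'.2) = 0 := by
        have : (s - t) * (a * (m.1 - m'.1) + b * (m.2 - m'.2)) = 0 := by
          have e4 : det (p s) m m' - det (p t) m m' = 0 := by rw [e1, e2, sub_zero]
          simp only [det, cr, p] at e4
          linear_combination (-1 : ℝ) * e4
        rcases mul_eq_zero.mp this with h | h
        · exact absurd (sub_eq_zero.mp h) hst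
        · exact h
      have e4 := det_line (hpl s) e3
      rw [e1, mul_zero] at e4
      rcases mul_eq_zero.mp e4.symm with h | h
      · have h' := eq_zero_of hab e3 (neg_eq_zero.mp h)
        exact hne' (Prod.ext (sub_eq_zero.mp h'.1) (sub_eq_zero.mp h'.2))
      · have hm1 : a * m.1 + b * m.2 = c := sub_eq_zero.mp h
        have hm2 : a * m'.1 + b * m'.2 = c := by linear_combination hm1 - e3
        exact hne' (h1 m hm m' hm' hm1 hm2)
    · refine Set.Subsingleton.countable ?_
      obtain ⟨m, hm⟩ := m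
      intro s hs t ht
      have e1 : cr (p s) m = 0 := hs
      have e2 : cr (p t) m = 0 := ht
      by_contra hst
      have e3 : a * m.1 + b * m.2 = 0 := by
        have : (s - t) * (a * m.1 + b * m.2) = 0 := by
          have e4 : cr (p s) m - cr (p t) m = 0 := by rw [e1, e2, sub_zero]
          simp only [cr, p] at e4
          linear_combination (-1 : ℝ) * e4
        rcases mul_eq_zero.mp this with h | h
        · exact absurd (sub_eq_zero.mp h) hst
        · exact h
      have e4 := cr_line (hpl s) e3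
      rw [e1, mul_zero] at e4
      have hm0 := ne_zero_of_sym hB.1 hm
      rcases mul_eq_zero.mp e4.symm with h | h
      · have h' := eq_zero_of hab e3 h
        exact hm0 (Prod.ext h'.1 h'.2)
      · exact h2 m hm (show a * m.1 + b * m.2 = c by rw [e3, h]) h)
  have hsp : p t ∉ Submodule.span ℚ B := fun h => ht (Sum.inl ⟨p t, h⟩) rfl
  refine ⟨p t, hpl t, hsp, hB.1.id_insert hsp, insert_noThree hB.2 ?_ ?_⟩
  · intro m hm m' hm' hne
    exact ht (Sum.inr (Sum.inl ⟨(⟨m, hm⟩, ⟨m', hm'⟩), fun h => hne (Subtype.ext_iff.mp h)⟩))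
  · intro m hm
    exact ht (Sum.inr (Sum.inr ⟨m, hm⟩))

/-- Satisfying a line task. -/
theorem line_task {B : Set (ℝ × ℝ)} (hB : Good B) (hc : #B < Cardinal.continuum)
    {a b c : ℝ} (hab : (a, b) ≠ (0, 0)) :
    ∃ D : Set (ℝ × ℝ), D.Finite ∧ Good (B ∪ D) ∧
      ∃ x ∈ sym (B ∪ D), ∃ y ∈ sym (B ∪ D), x ≠ y ∧ x ∈ line a b c ∧ y ∈ line a b c := by
  by_cases h0 : ∃ x ∈ sym B, ∃ y ∈ sym B, x ≠ y ∧ x ∈ line a b c ∧ y ∈ line a b c
  · exact ⟨∅, finite_empty, by rwa [union_empty], by rwa [union_empty]⟩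
  push Not at h0
  have h1 : ∀ m ∈ sym B, ∀ m' ∈ sym B, m ∈ line a b c → m' ∈ line a b c → m = m' := by
    intro m hm m' hm' hl hl'
    by_contra hne
    exact h0 m hm m' hm' hne hl hl'
  by_cases hc0 : c = 0
  · -- line through the origin: it contains no point of `sym B`
    subst hc0
    obtain ⟨p, hpl, hps, hg⟩ := add_point hB hc hab h1 (by
      intro m hm hml
      exfalso
      have hml' : a * m.1 + b * m.2 = 0 := hml
      have hneg : -m ∈ line a b 0 := by
        change a * (-m).1 + b * (-m).2 = 0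
        rw [Prod.fst_neg, Prod.snd_neg]
        linear_combination (-1 : ℝ) * hml'
      have hmm := h1 m hm (-m) (sym_neg hm) hml hneg
      exact ne_zero_of_sym hB.1 hm (self_eq_neg.mp hmm))
    have hpl' : a * p.1 + b * p.2 = 0 := hpl
    refine ⟨{p}, finite_singleton p, by rwa [union_singleton], p, ?_, -p, ?_, ?_, hpl, ?_⟩
    · exact Or.inl (Or.inr rfl)
    · exact sym_neg (Or.inl (Or.inr rfl))
    · intro h
      have : p = 0 := self_eq_neg.mp h
      exact hps (this ▸ (Submodule.span ℚ B).zero_mem)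
    · change a * (-p).1 + b * (-p).2 = 0
      rw [Prod.fst_neg, Prod.snd_neg]
      linear_combination (-1 : ℝ) * hpl'
  · obtain ⟨p, hpl, hps, hg⟩ := add_point hB hc hab h1 (fun _ _ _ => hc0)
    have hc' : #(insert p B : Set (ℝ × ℝ)) < Cardinal.continuum :=
      mk_insert_le.trans_lt (add_lt_of_lt aleph0_le_continuum hc
        (one_lt_aleph0.trans aleph0_lt_continuum))
    by_cases h0' : ∃ x ∈ sym (insert p B), ∃ y ∈ sym (insert p B), x ≠ y ∧
        x ∈ line a b c ∧ y ∈ line a b c
    · exact ⟨{p}, finite_singleton p, by rwa [union_singleton], by rwa [union_singleton]⟩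
    push Not at h0'
    obtain ⟨q, hql, hqs, hg'⟩ := add_point hg hc' hab (by
      intro m hm m' hm' hl hl'
      by_contra hne
      exact h0' m hm m' hm' hne hl hl') (fun _ _ _ => hc0)
    have hun : B ∪ {p, q} = insert q (insert p B) := by
      ext x
      simp only [mem_union, mem_insert_iff, mem_singleton_iff]
      tauto
    refine ⟨{p, q}, by simp, by rwa [hun], p, ?_, q, ?_, ?_, hpl, hql⟩
    · exact Or.inl (Or.inr (Or.inl rfl))
    · exact Or.inl (Or.inr (Or.inr rfl))
    · rintro rfl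
      exact hqs (Submodule.subset_span (mem_insert _ _))

theorem quad_countable {α u v : ℝ} (h : (u, v) ≠ (0, 0)) :
    {t : ℝ | α + (t * v - t ^ 2 * u) = 0}.Countable := by
  by_cases hu : u = 0
  · have hv : v ≠ 0 := fun hv => h (by rw [hu, hv])
    refine Set.Subsingleton.countable ?_
    intro s hs t ht
    have e1 : α + (s * v - s ^ 2 * u) = 0 := hs
    have e2 : α + (t * v - t ^ 2 * u) = 0 := ht
    rw [hu] at e1 e2
    have : (s - t) * v = 0 := by linear_combination e1 - e2
    rcases mul_eq_zero.mp this with h | h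
    · linarith
    · exact absurd h hv
  · -- at most two roots
    by_cases hne : ∃ s, α + (s * v - s ^ 2 * u) = 0
    · obtain ⟨s, hs⟩ := hne
      refine Set.Countable.mono (s₂ := {s, v / u - s}) ?_ (by simp)
      intro t ht
      have ht' : α + (t * v - t ^ 2 * u) = 0 := ht
      have : (t - s) * (v - (t + s) * u) = 0 := by linear_combination ht' - hs
      rcases mul_eq_zero.mp this with h | h
      · exact Or.inl (by linarith)
      · right
        change t = v / u - s
        field_simp
        linarith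
    · refine Set.Countable.mono (s₂ := ∅) ?_ countable_empty
      intro t ht
      exact (hne ⟨t, ht⟩).elim

/-- Satisfying a span task. -/
theorem span_task {B : Set (ℝ × ℝ)} (hB : Good B) (hc : #B < Cardinal.continuum)
    (v : ℝ × ℝ) :
    ∃ D : Set (ℝ × ℝ), D.Finite ∧ Good (B ∪ D) ∧ v ∈ Submodule.span ℚ (B ∪ D) := by
  by_cases hv : v ∈ Submodule.span ℚ B
  · exact ⟨∅, finite_empty, by rwa [union_empty], by rwa [union_empty]⟩
  have hv0 : v ≠ 0 := fun h => hv (h ▸ (Submodule.span ℚ B).zero_mem)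
  let p : ℝ → ℝ × ℝ := fun t => (t, t ^ 2)
  have hcv : #(insert v B : Set (ℝ × ℝ)) < Cardinal.continuum :=
    mk_insert_le.trans_lt (add_lt_of_lt aleph0_le_continuum hc
      (one_lt_aleph0.trans aleph0_lt_continuum))
  have hS := mk_sym_lt hc
  have hcard : #((Submodule.span ℚ (insert v B)) ⊕
      ({mm : sym B × sym B // mm.1 ≠ mm.2} × Bool) ⊕ (sym B × Fin 4) ⊕ Unit) <
      Cardinal.continuum := by
    have hS2 : #({mm : sym B × sym B // mm.1 ≠ mm.2}) < Cardinal.continuum := by
      refine (mk_subtype_le _).trans_lt ?_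
      rw [mk_prod]
      simp only [lift_id]
      exact mul_lt_of_lt aleph0_le_continuum hS hS
    rw [mk_sum, mk_sum, mk_sum, mk_prod, mk_prod]
    simp only [lift_id]
    refine add_lt_of_lt aleph0_le_continuum (mk_span_lt hcv)
      (add_lt_of_lt aleph0_le_continuum ?_ (add_lt_of_lt aleph0_le_continuum ?_ ?_))
    · exact mul_lt_of_lt aleph0_le_continuum hS2 (mk_le_aleph0.trans_lt aleph0_lt_continuum)
    · exact mul_lt_of_lt aleph0_le_continuum hS (mk_le_aleph0.trans_lt aleph0_lt_continuum)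
    · exact mk_le_aleph0.trans_lt aleph0_lt_continuum
  obtain ⟨t, ht⟩ := Rec.exists_avoid hcard
    (Sum.elim (fun z => {t | p t = z.1}) (Sum.elim
      (fun mm => {t | (if mm.2 then det (p t) mm.1.1.1.1 mm.1.1.2.1
        else det (v - p t) mm.1.1.1.1 mm.1.1.2.1) = 0})
      (Sum.elim (fun m => {t | (![cr (p t) m.1.1, cr (v - p t) m.1.1,
        det (v - p t) m.1.1 (p t), det (v - p t) m.1.1 (-(p t))] : Fin 4 → ℝ) m.2 = 0})
        (fun _ => {t | cr (p t) v = 0})))) (by
    rintro (z | ⟨⟨⟨⟨m, hm⟩, ⟨m', hm'⟩⟩, hne⟩, b⟩ | ⟨⟨m, hm⟩, i⟩ | _)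
    · refine Set.Subsingleton.countable ?_
      intro s hs t ht
      have e1 : p s = z.1 := hs
      have e2 : p t = z.1 := ht
      exact (Prod.mk.inj (e1.trans e2.symm)).1
    · have hne' : (m.1 - m'.1, m.2 - m'.2) ≠ ((0 : ℝ), (0 : ℝ)) := by
        intro h
        refine hne (Subtype.ext (Prod.ext ?_ ?_))
        · exact sub_eq_zero.mp (Prod.mk.inj h).1
        · exact sub_eq_zero.mp (Prod.mk.inj h).2
      cases b
      · refine (quad_countable (α := -(cr m m' + cr v (m - m'))) hne').mono ?_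
        intro t ht
        have e1 : det (v - p t) m m' = 0 := ht
        simp only [det, cr, p, Prod.fst_sub, Prod.snd_sub] at e1
        simp only [cr, Prod.fst_sub, Prod.snd_sub, mem_ofPred_eq]
        linear_combination (-1 : ℝ) * e1
      · refine (quad_countable (α := cr m m') hne').mono ?_
        intro t ht
        have e1 : det (p t) m m' = 0 := ht
        simp only [det, cr, p] at e1
        simp only [cr, mem_ofPred_eq]
        linear_combination e1
    · have hm0 := ne_zero_of_sym hB.1 hm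
      have hm1 : (m.1, m.2) ≠ ((0 : ℝ), (0 : ℝ)) := hm0
      have hv1 : (v.1, v.2) ≠ ((0 : ℝ), (0 : ℝ)) := hv0
      fin_cases i
      · refine (quad_countable (α := 0) hm1).mono ?_
        intro t ht
        have e1 : cr (p t) m = 0 := ht
        simp only [cr, p] at e1
        simp only [mem_ofPred_eq]
        linear_combination e1
      · refine (quad_countable (α := -(cr v m)) hm1).mono ?_
        intro t ht
        have e1 : cr (v - p t) m = 0 := ht
        simp only [cr, p, Prod.fst_sub, Prod.snd_sub] at e1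
        simp only [cr, mem_ofPred_eq]
        linear_combination (-1 : ℝ) * e1
      · have hvm : (v.1 - 2 * m.1, v.2 - 2 * m.2) ≠ ((0 : ℝ), (0 : ℝ)) := by
          intro h
          apply hv
          have h1 : v = (2 : ℚ) • m := by
            refine Prod.ext ?_ ?_
            · rw [Prod.smul_fst, Rat.smul_def]
              push_cast
              exact sub_eq_zero.mp (Prod.mk.inj h).1
            · rw [Prod.smul_snd, Rat.smul_def]
              push_cast
              exact sub_eq_zero.mp (Prod.mk.inj h).2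
          rw [h1]
          exact (Submodule.span ℚ B).smul_mem _ (sym_subset_span hm)
        refine (quad_countable (α := cr v m) hvm).mono ?_
        intro t ht
        have e1 : det (v - p t) m (p t) = 0 := ht
        simp only [det, cr, p, Prod.fst_sub, Prod.snd_sub] at e1
        simp only [cr, mem_ofPred_eq]
        linear_combination e1
      · refine (quad_countable (α := -(cr v m)) hv1).mono ?_
        intro t ht
        have e1 : det (v - p t) m (-(p t)) = 0 := ht
        simp only [det, cr, p, Prod.fst_sub, Prod.snd_sub, Prod.fst_neg, Prod.snd_neg] at e1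
        simp only [cr, mem_ofPred_eq]
        linear_combination (-1 : ℝ) * e1
    · have hv1 : (v.1, v.2) ≠ ((0 : ℝ), (0 : ℝ)) := hv0
      refine (quad_countable (α := 0) hv1).mono ?_
      intro t ht
      have e1 : cr (p t) v = 0 := ht
      simp only [cr, p] at e1
      simp only [mem_ofPred_eq]
      linear_combination e1)
  -- the two new points
  have hps : p t ∉ Submodule.span ℚ (insert v B) := fun h => ht (Sum.inl ⟨p t, h⟩) rfl
  have hps' : p t ∉ Submodule.span ℚ B := fun h =>
    hps (Submodule.span_mono (subset_insert _ _) h)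
  have c1 : ∀ m ∈ sym B, ∀ m' ∈ sym B, m ≠ m' → det (p t) m m' ≠ 0 := fun m hm m' hm' hne =>
    ht (Sum.inr (Sum.inl (⟨(⟨m, hm⟩, ⟨m', hm'⟩), fun h => hne (Subtype.ext_iff.mp h)⟩, true)))
  have c2 : ∀ m ∈ sym B, ∀ m' ∈ sym B, m ≠ m' → det (v - p t) m m' ≠ 0 :=
    fun m hm m' hm' hne =>
    ht (Sum.inr (Sum.inl (⟨(⟨m, hm⟩, ⟨m', hm'⟩), fun h => hne (Subtype.ext_iff.mp h)⟩, false)))
  have c3 : ∀ m ∈ sym B, cr (p t) m ≠ 0 := fun m hm =>
    ht (Sum.inr (Sum.inr (Sum.inl (⟨m, hm⟩, 0))))
  have c4 : ∀ m ∈ sym B, cr (v - p t) m ≠ 0 := fun m hm =>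
    ht (Sum.inr (Sum.inr (Sum.inl (⟨m, hm⟩, 1))))
  have c5 : ∀ m ∈ sym B, det (v - p t) m (p t) ≠ 0 := fun m hm =>
    ht (Sum.inr (Sum.inr (Sum.inl (⟨m, hm⟩, 2))))
  have c6 : ∀ m ∈ sym B, det (v - p t) m (-(p t)) ≠ 0 := fun m hm =>
    ht (Sum.inr (Sum.inr (Sum.inl (⟨m, hm⟩, 3))))
  have c7 : cr (p t) v ≠ 0 := ht (Sum.inr (Sum.inr (Sum.inr ())))
  have hg1 : Good (insert (p t) B) := ⟨hB.1.id_insert hps', insert_noThree hB.2 c1 c3⟩
  have hqs : v - p t ∉ Submodule.span ℚ (insert (p t) B) := by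
    intro h
    have h1 : v ∈ Submodule.span ℚ (insert (p t) B) := by
      have := (Submodule.span ℚ (insert (p t) B)).add_mem h
        (Submodule.subset_span (mem_insert (p t) B))
      rwa [sub_add_cancel] at this
    exact hps (mem_span_insert_exchange h1 hv)
  have hneg : ∀ x y z : ℝ × ℝ, det x z y = -det x y z := by
    intro x y z
    unfold det cr
    ring
  have hg2 : Good (insert (v - p t) (insert (p t) B)) := by
    refine ⟨hg1.1.id_insert hqs, insert_noThree hg1.2 ?_ ?_⟩
    · intro m hm m' hm' hne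
      rw [sym_insert] at hm hm'
      have d1 : det (v - p t) (p t) (-(p t)) ≠ 0 := by
        have : det (v - p t) (p t) (-(p t)) = -2 * cr (p t) v := by
          unfold det cr
          simp only [Prod.fst_sub, Prod.snd_sub, Prod.fst_neg, Prod.snd_neg]
          ring
        rw [this]
        exact mul_ne_zero (by norm_num) c7
      rcases hm with hm | rfl | rfl
      · rcases hm' with hm' | rfl | rfl
        · exact c2 m hm m' hm' hne
        · exact c5 m hm
        · exact c6 m hm
      · rcases hm' with hm' | rfl | rfl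
        · rw [hneg]; exact neg_ne_zero.mpr (c5 m' hm')
        · exact absurd rfl hne
        · exact d1
      · rcases hm' with hm' | rfl | rfl
        · rw [hneg]; exact neg_ne_zero.mpr (c6 m' hm')
        · rw [hneg]; exact neg_ne_zero.mpr d1
        · exact absurd rfl hne
    · intro m hm
      rw [sym_insert] at hm
      have e1 : cr (v - p t) (p t) = - cr (p t) v := by
        unfold cr
        simp only [Prod.fst_sub, Prod.snd_sub]
        ring
      rcases hm with hm | rfl | rfl
      · exact c4 m hm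
      · rw [e1]
        exact neg_ne_zero.mpr c7
      · have e2 : cr (v - p t) (-(p t)) = cr (p t) v := by
          unfold cr
          simp only [Prod.fst_sub, Prod.snd_sub, Prod.fst_neg, Prod.snd_neg]
          ring
        rw [e2]
        exact c7
  have hun : B ∪ {p t, v - p t} = insert (v - p t) (insert (p t) B) := by
    ext x
    simp only [mem_union, mem_insert_iff, mem_singleton_iff]
    tauto
  refine ⟨{p t, v - p t}, by simp, by rwa [hun], ?_⟩
  have h1 : p t ∈ Submodule.span ℚ (B ∪ {p t, v - p t}) :=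
    Submodule.subset_span (Or.inr (Or.inl rfl))
  have h2 : v - p t ∈ Submodule.span ℚ (B ∪ {p t, v - p t}) :=
    Submodule.subset_span (Or.inr (Or.inr rfl))
  have := (Submodule.span ℚ (B ∪ {p t, v - p t})).add_mem h2 h1
  rwa [sub_add_cancel] at this

/-- There is a Hamel basis `B` of `ℝ²` such that `B ∪ -B` is a Mazurkiewicz set. -/
theorem exists_symmetric : ∃ B : Set (ℝ × ℝ), HamelBasis B ∧ Mazurkiewicz (sym B) := by
  let Sat : ({abc : ℝ × ℝ × ℝ // (abc.1, abc.2.1) ≠ (0, 0)} ⊕ (ℝ × ℝ)) → Set (ℝ × ℝ) → Prop :=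
    fun t B => match t with
    | Sum.inl abc => ∃ x ∈ sym B, ∃ y ∈ sym B, x ≠ y ∧
        x ∈ line abc.1.1 abc.1.2.1 abc.1.2.2 ∧ y ∈ line abc.1.1 abc.1.2.1 abc.1.2.2
    | Sum.inr v => v ∈ Submodule.span ℚ B
  obtain ⟨B, hB, hS⟩ := Rec.recursion Good Sat good_fin good_mono
    (by
      rintro (abc | v) B B' hBB h
      · obtain ⟨x, hx, y, hy, hrest⟩ := h
        exact ⟨x, sym_mono hBB hx, y, sym_mono hBB hy, hrest⟩
      · exact Submodule.span_mono hBB h)
    (by
      rw [mk_sum, mk_prod]
      simp only [lift_id]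
      refine add_le_of_le aleph0_le_continuum ?_ ?_
      · refine (mk_subtype_le _).trans ?_
        rw [mk_prod, mk_prod]
        simp only [lift_id, mk_real]
        rw [continuum_mul_self, continuum_mul_self]
      · rw [mk_real, continuum_mul_self])
    (by
      rintro (abc | v) B hB hc
      · exact line_task hB hc abc.2
      · exact span_task hB hc v)
    good_empty
  refine ⟨B, ⟨hB.1, ?_⟩, ?_⟩
  · rw [eq_top_iff]
    intro v _
    exact hS (Sum.inr v)
  · intro a b c hab
    obtain ⟨x, hx, y, hy, hxy, hxl, hyl⟩ := hS (Sum.inl ⟨(a, b, c), hab⟩)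
    have hxl' : a * x.1 + b * x.2 = c := hxl
    have hyl' : a * y.1 + b * y.2 = c := hyl
    have heq : sym B ∩ line a b c = {x, y} := by
      refine Subset.antisymm ?_ ?_
      · rintro z ⟨hz, hzl⟩
        by_contra hcon
        simp only [mem_insert_iff, mem_singleton_iff, not_or] at hcon
        have hzl' : a * z.1 + b * z.2 = c := hzl
        have h1 := det_line (p := z) (m := x) (m' := y) hzl' (by linear_combination hxl' - hyl')
        rw [sub_eq_zero.mpr hxl', mul_zero] at h1
        exact hB.2 z hz x hx y hy hcon.1 hxy hcon.2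
          ((mul_eq_zero.mp h1).resolve_left (ab_ne hab))
      · rintro z (rfl | rfl)
        · exact ⟨hx, hxl⟩
        · exact ⟨hy, hyl⟩
    rw [heq, encard_pair hxy]

end Pool.Agent.Q212.TwoPoint
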