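import Pool.Agent.W868.Defs

/-!
# Countably branching trees in transitive models of ZF: the definitions

The signature has one constant (the leaf) and one operation of arity `ω` (the node). All notions
are evaluated in a transitive model `M` of ZF.
-/

set_option autoImplicit false

namespace Pool.Agent.Q212.UT

open Pool.Agent.W868
open ZFSet (pair)

/-- For functions `s` and `t` on `ω`: `t` is the composition of `s` with a finitely supported
permutation of `ω`. -/
def Rearr (s t : ZFSet.{0}) : Prop :=
  ∃ π : Equiv.Perm ℕ, {n | π n ≠ n}.Finite ∧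
    ∀ n x, pair (nat n) x ∈ t ↔ pair (nat (π n)) x ∈ s

/-- `(A, l, α)` is in `M` an algebra for the signature with one constant and one operation of
arity `ω`: the constant is `l`, and the operation `α` is a function that is defined at all
functions from `ω` to `A` that are in `M`, with values in `A`. -/
structure IsAlg (M : Set ZFSet.{0}) (A l α : ZFSet.{0}) : Prop where
  memA : A ∈ M
  memα : α ∈ M
  leaf : l ∈ A
  sub : ∀ z ∈ α, ∃ s ∈ M, ∃ a ∈ A, ZFSet.IsFunc ZFSet.omega A s ∧ z = pair s a
  tot : ∀ s ∈ M, ZFSet.IsFunc ZFSet.omega A s → ∃ a, pair s a ∈ α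
  fn : ∀ s a b, pair s a ∈ α → pair s b ∈ α → a = b

/-- The algebra satisfies in `M` the equations `α (s) = α (s ∘ π)` for the finitely supported
permutations `π` of `ω`. -/
def WeaklyUnordered (M : Set ZFSet.{0}) (A α : ZFSet.{0}) : Prop :=
  ∀ s ∈ M, ∀ t ∈ M, ZFSet.IsFunc ZFSet.omega A s → ZFSet.IsFunc ZFSet.omega A t → Rearr s t →
    ∀ a, pair s a ∈ α → pair t a ∈ α

/-- `f` is a homomorphism from the algebra `(A, l, α)` to the algebra `(B, m, β)`: a function
from `A` to `B` with `f (l) = m` and `f (α (s)) = β (f ∘ s)` for all `s` in the domain of `α`. -/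
structure IsHom (A l α B m β f : ZFSet.{0}) : Prop where
  func : ZFSet.IsFunc A B f
  leaf : pair l m ∈ f
  node : ∀ s a t b, pair s a ∈ α → pair t b ∈ β →
    (∀ n x y, pair n x ∈ s → pair x y ∈ f → pair n y ∈ t) → pair a b ∈ f

/-- In `M`, `(W, l, α)` is an initial object of the category of algebras: the algebra of the
countably branching trees. -/
def IsTrees (M : Set ZFSet.{0}) (W l α : ZFSet.{0}) : Prop :=
  IsAlg M W l α ∧ ∀ B m β, IsAlg M B m β → ∃! f, f ∈ M ∧ IsHom W l α B m β f

/-- In `M`, `(T, l, τ)` is an initial object of the category of the algebras that satisfy the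
equations: the algebra of the countably branching weakly unordered trees. -/
def IsWeaklyUnorderedTrees (M : Set ZFSet.{0}) (T l τ : ZFSet.{0}) : Prop :=
  IsAlg M T l τ ∧ WeaklyUnordered M T τ ∧ ∀ B m β, IsAlg M B m β → WeaklyUnordered M B β →
    ∃! f, f ∈ M ∧ IsHom T l τ B m β f

end Pool.Agent.Q212.UT
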