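import Pool.Agent.W868.Itr
import Pool.Agent.Q211.SY.Seq
import Pool.Agent.Q211.SY.Hul
import Pool.Agent.Q212.UTDefs

/-!
# Cohen reals and finitely supported permutations: the symmetric system
-/

set_option autoImplicit false
set_option linter.unusedSectionVars false

namespace Pool.Agent.Q212.UT

open Pool.Agent.W868 Pool.Agent.W868.PName Pool.Agent.Q211.SY
open ZFSet (pair)

/-- The atomic conditions. -/
abbrev At : Type := (ℕ × ℕ) × Bool

/-- A finite partial function. -/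
def Ok (s : Finset At) : Prop := ∀ x b b', (x, b) ∈ s → (x, b') ∈ s → b = b'

/-- The notion of forcing. -/
def P : Type := {s : Finset At // Ok s}

instance : Countable P := inferInstanceAs (Countable {s : Finset At // Ok s})

namespace P

instance : Preorder P where
  le p q := q.1 ⊆ p.1
  le_refl _ := Finset.Subset.refl _
  le_trans _ _ _ h1 h2 := Finset.Subset.trans h2 h1

theorem le_def {p q : P} : p ≤ q ↔ q.1 ⊆ p.1 := Iff.rfl

theorem ok_empty : Ok ∅ := fun _ _ _ h => absurd h (Finset.notMem_empty _)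

instance : OrderTop P where
  top := ⟨∅, ok_empty⟩
  le_top _ := Finset.empty_subset _

theorem ext' {p q : P} (h : ∀ a, a ∈ p.1 ↔ a ∈ q.1) : p = q :=
  Subtype.ext (Finset.ext h)

theorem not_mem_top {a : At} : a ∉ (⊤ : P).1 := Finset.notMem_empty _

end P

/-! ### The symmetries -/

/-- The finitely supported permutations. -/
def Fy : Subgroup (Equiv.Perm ℕ) where
  carrier := {π | {n | π n ≠ n}.Finite}
  mul_mem' := by
    intro a b ha hb
    refine (Set.Finite.union ha hb).subset ?_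
    intro n hn
    by_contra h
    rw [Set.mem_union, not_or] at h
    obtain ⟨h1, h2⟩ := h
    have h2' : b n = n := not_not.1 h2
    have h1' : a n = n := not_not.1 h1
    exact hn (by rw [Equiv.Perm.mul_apply, h2', h1'])
  one_mem' := by
    have : {n | (1 : Equiv.Perm ℕ) n ≠ n} = ∅ := by
      ext n
      simp
    change {n | (1 : Equiv.Perm ℕ) n ≠ n}.Finite
    rw [this]
    exact Set.finite_empty
  inv_mem' := by
    intro a ha
    refine Set.Finite.subset ha ?_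
    intro n hn h
    apply hn
    conv_lhs => rw [← h]
    exact a.symm_apply_apply n

theorem mem_Fy {π : Equiv.Perm ℕ} : π ∈ Fy ↔ {n | π n ≠ n}.Finite := Iff.rfl

theorem swap_Fy (i j : ℕ) : Equiv.swap i j ∈ Fy := by
  rw [mem_Fy]
  refine (Set.toFinite {i, j}).subset ?_
  intro n hn
  by_contra h
  rw [Set.mem_insert_iff, Set.mem_singleton_iff, not_or] at h
  exact hn (Equiv.swap_apply_of_ne_of_ne h.1 h.2)

/-- The group. -/
abbrev Gp : Type := ℕ → Fy

/-- The action on the atoms. -/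
def mv (g : Gp) (a : At) : At := ((a.1.1, (g a.1.1).1 a.1.2), a.2)

theorem mv_mul (g h : Gp) (a : At) : mv (g * h) a = mv g (mv h a) := rfl

theorem mv_one (a : At) : mv 1 a = a := rfl

theorem mv_inv (g : Gp) (a : At) : mv g (mv g⁻¹ a) = a := by
  rw [← mv_mul, mul_inv_cancel, mv_one]

theorem inv_mv (g : Gp) (a : At) : mv g⁻¹ (mv g a) = a := by
  rw [← mv_mul, inv_mul_cancel, mv_one]

theorem mem_img {g : Gp} {s : Finset At} {a : At} :
    a ∈ s.image (mv g) ↔ mv g⁻¹ a ∈ s := by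
  rw [Finset.mem_image]
  constructor
  · rintro ⟨b, hb, rfl⟩
    rwa [inv_mv]
  · intro h
    exact ⟨_, h, mv_inv g a⟩

/-- The action on the conditions. -/
def sm (g : Gp) (p : P) : P :=
  ⟨p.1.image (mv g), by
    intro x b b' h1 h2
    rw [mem_img] at h1 h2
    exact p.2 (x.1, ((g⁻¹ : Gp) x.1).1 x.2) _ _ h1 h2⟩

theorem mem_sm {g : Gp} {p : P} {a : At} : a ∈ (sm g p).1 ↔ mv g⁻¹ a ∈ p.1 := mem_img

theorem sm_mul (g h : Gp) (p : P) : sm (g * h) p = sm g (sm h p) := by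
  refine P.ext' fun a => ?_
  rw [mem_sm, mem_sm, mem_sm, mul_inv_rev, mv_mul]

theorem sm_one (p : P) : sm 1 p = p := by
  refine P.ext' fun a => ?_
  rw [mem_sm, inv_one, mv_one]

theorem sm_le {g : Gp} {p q : P} (h : p ≤ q) : sm g p ≤ sm g q := by
  intro a ha
  rw [mem_sm] at ha ⊢
  exact h ha

/-- The action as a homomorphism to the automorphisms. -/
def ac : Gp →* (P ≃o P) where
  toFun g :=
    { toFun := sm g
      invFun := sm g⁻¹
      left_inv := fun p => by rw [← sm_mul, inv_mul_cancel, sm_one]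
      right_inv := fun p => by rw [← sm_mul, mul_inv_cancel, sm_one]
      map_rel_iff' := by
        intro p q
        constructor
        · intro h
          have h1 : sm g⁻¹ (sm g p) ≤ sm g⁻¹ (sm g q) := sm_le h
          rwa [← sm_mul, ← sm_mul, inv_mul_cancel, sm_one, sm_one] at h1
        · exact fun h => sm_le h }
  map_one' := RelIso.ext fun p => sm_one p
  map_mul' g h := RelIso.ext fun p => sm_mul g h p

theorem ac_app (g : Gp) (p : P) : ac g p = sm g p := rfl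

theorem sm_top (g : Gp) : sm g ⊤ = ⊤ := by
  refine P.ext' fun a => ?_
  rw [mem_sm]
  exact ⟨fun h => absurd h P.not_mem_top, fun h => absurd h P.not_mem_top⟩

/-- The stabilizer of the blocks of `e`. -/
def Hb (e : Finset ℕ) : Subgroup Gp where
  carrier := {g | ∀ n ∈ e, g n = 1}
  mul_mem' := by
    intro a b ha hb n hn
    rw [Pi.mul_apply, ha n hn, hb n hn, mul_one]
  one_mem' := fun _ _ => rfl
  inv_mem' := by
    intro a ha n hn
    rw [Pi.inv_apply, ha n hn, inv_one]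

theorem mem_Hb {e : Finset ℕ} {g : Gp} : g ∈ Hb e ↔ ∀ n ∈ e, g n = 1 := Iff.rfl

/-- The symmetric system. -/
def SU : Sys P where
  G := Gp
  grp := inferInstance
  ac := ac
  top g := sm_top g
  F := Set.range Hb
  ne := ⟨_, ∅, rfl⟩
  conj := by
    rintro _ ⟨e, rfl⟩ g
    refine ⟨_, ⟨e, rfl⟩, fun k hk => ?_⟩
    intro n hn
    have h1 : k n = 1 := hk n hn
    have h2 : (g⁻¹ * k * g) n = (g n)⁻¹ * k n * g n := rfl
    rw [h2, h1, mul_one, inv_mul_cancel]
  dir := by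
    rintro _ ⟨e, rfl⟩ _ ⟨e', rfl⟩
    refine ⟨_, ⟨e ∪ e', rfl⟩, fun g hg n hn => ?_, fun g hg n hn => ?_⟩
    · exact hg n (Finset.mem_union_left _ hn)
    · exact hg n (Finset.mem_union_right _ hn)

/-- The name `x` is fixed by the stabilizer of `e`. -/
abbrev Fx (e : Finset ℕ) (x : PName P) : Prop := SU.Fix (Hb e) x

theorem sym_iff {x : PName P} : SU.Sym x ↔ ∃ e, Fx e x := by
  constructor
  · rintro ⟨H, ⟨e, rfl⟩, h⟩
    exact ⟨e, h⟩
  · rintro ⟨e, h⟩
    exact ⟨_, ⟨e, rfl⟩, h⟩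

theorem act_ck (g : Gp) (x : ZFSet.{0}) :
    act (ac g) (check x : PName P) = check x := act_check (sm_top g) x

/-! ### The names -/

/-- The condition with one entry. -/
def cn (n m : ℕ) (b : Bool) : P :=
  ⟨{((n, m), b)}, by
    intro x c c' h1 h2
    rw [Finset.mem_singleton] at h1 h2
    rw [← h2] at h1
    exact congrArg Prod.snd h1⟩

theorem le_cn {n m : ℕ} {b : Bool} {p : P} : p ≤ cn n m b ↔ ((n, m), b) ∈ p.1 := by
  rw [P.le_def, cn, Finset.singleton_subset_iff]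

theorem sm_cn (g : Gp) (n m : ℕ) (b : Bool) : sm g (cn n m b) = cn n ((g n).1 m) b := by
  refine P.ext' fun a => ?_
  rw [mem_sm, cn, cn, Finset.mem_singleton, Finset.mem_singleton]
  constructor
  · intro h1
    have h2 := congrArg (mv g) h1
    rwa [mv_inv] at h2
  · rintro rfl
    exact inv_mv g ((n, m), b)

/-- The name of the preimage under `ρ` of the Cohen real number `n`. -/
noncomputable def xn (n : ℕ) (ρ : Fy) : PName P :=
  PName.mk ℕ (fun k => check (nat k)) (fun k => cn n (ρ.1 k) true)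

theorem act_xn (g : Gp) (n : ℕ) (ρ : Fy) : act (ac g) (xn n ρ) = xn n (g n * ρ) := by
  unfold xn
  rw [act]
  have h1 : (fun k => act (ac g) (check (nat k) : PName P)) = fun k => check (nat k) :=
    funext fun k => act_ck g _
  have h2 : (fun k => ac g (cn n (ρ.1 k) true)) = fun k => cn n ((g n * ρ).1 k) true :=
    funext fun k => sm_cn g n _ true
  rw [h1, h2]

/-- The name of the relation of the classes. -/
noncomputable def CN : PName P :=
  PName.mk (ℕ × Fy) (fun t => opN (check (nat t.1)) (xn t.1 t.2)) (fun _ => ⊤)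

theorem act_CN (g : Gp) (p : P) : Feq (act (ac g) CN) CN p := by
  refine feq_of_el fun z c => ?_
  have h1 : act (ac g) CN = PName.mk (ℕ × Fy)
      (fun t => opN (check (nat t.1)) (xn t.1 (g t.1 * t.2))) (fun _ => ⊤) := by
    unfold CN
    rw [act]
    congr 1
    funext t
    rw [act_opN (sm_top g), act_ck, act_xn]
  rw [h1]
  unfold CN
  rw [el_mk, el_mk]
  constructor
  · rintro ⟨t, rfl, rfl⟩
    exact ⟨(t.1, g t.1 * t.2), rfl, rfl⟩
  · rintro ⟨t, rfl, rfl⟩
    refine ⟨(t.1, (g t.1)⁻¹ * t.2), ?_, rfl⟩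
    rw [mul_inv_cancel_left]

theorem hs_of_fx {x : PName P} {e : Finset ℕ} (h : Fx e x) (hc : ∀ z c, El x z c → SU.HS z) :
    SU.HS x := SU.hs_iff.2 ⟨sym_iff.2 ⟨_, h⟩, hc⟩

theorem fx_xn (n : ℕ) (ρ : Fy) : Fx {n} (xn n ρ) := by
  intro g hg p
  have h1 : g n = 1 := hg n (Finset.mem_singleton_self _)
  have h2 : act (SU.ac g) (xn n ρ) = xn n ρ := by
    have h3 := act_xn g n ρ
    rw [h1, one_mul] at h3
    exact h3
  rw [h2]
  exact Feq.refl _ _

theorem hs_xn (n : ℕ) (ρ : Fy) : SU.HS (xn n ρ) := by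
  refine hs_of_fx (fx_xn n ρ) fun z c hz => ?_
  obtain ⟨i, rfl, rfl⟩ := el_mk.1 hz
  exact SU.hs_check _

theorem fx_CN : Fx ∅ CN := fun g _ p => act_CN g p

theorem hs_CN : SU.HS CN := by
  refine hs_of_fx fx_CN fun z c hz => ?_
  obtain ⟨i, rfl, rfl⟩ := el_mk.1 hz
  exact SU.hs_opN (SU.hs_check _) (hs_xn _ _)

theorem mem_mk (π : Pkg P) {ι : Type} {f : ι → PName P} {c : ι → P} {z : ZFSet.{0}} :
    z ∈ π.val (PName.mk ι f c) ↔ ∃ i, f i ∈ π.N ∧ z = π.val (f i) ∧ ∃ k, π.g k ≤ c i := by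
  rw [π.mem_val]
  constructor
  · rintro ⟨w, hw, d, hd, hm, rfl⟩
    obtain ⟨i, rfl, rfl⟩ := el_mk.1 hd
    exact ⟨i, hw, rfl, hm⟩
  · rintro ⟨i, hi, rfl, hm⟩
    exact ⟨_, hi, _, el_mk.2 ⟨i, rfl, rfl⟩, hm, rfl⟩

theorem mem_xn (π : Pkg P) {n : ℕ} {ρ : Fy} {z : ZFSet.{0}} :
    z ∈ π.val (xn n ρ) ↔ ∃ k, z = nat k ∧ ∃ j, ((n, ρ.1 k), true) ∈ (π.g j).1 := by
  unfold xn
  rw [mem_mk]
  constructor
  · rintro ⟨k, -, rfl, j, hj⟩
    refine ⟨k, ?_, j, le_cn.1 hj⟩
    exact π.hat_nat k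
  · rintro ⟨k, rfl, j, hj⟩
    exact ⟨k, π.nat_Z k, (π.hat_nat k).symm, j, le_cn.2 hj⟩

theorem mem_CN (π : Pkg P) {z : ZFSet.{0}} :
    z ∈ π.val CN ↔ ∃ n ρ, xn n ρ ∈ π.N ∧ z = pair (nat n) (π.val (xn n ρ)) := by
  unfold CN
  rw [mem_mk]
  constructor
  · rintro ⟨⟨n, ρ⟩, h1, rfl, -⟩
    have h2 := π.snd_mem h1
    refine ⟨n, ρ, h2, ?_⟩
    have h3 := π.val_opN (π.nat_Z n) h2
    rw [h3]
    congr 1
    exact π.hat_nat n
  · rintro ⟨n, ρ, h1, rfl⟩
    refine ⟨(n, ρ), π.opN_mem (π.nat_Z n) h1, ?_, 0, le_top⟩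
    have h3 := π.val_opN (π.nat_Z n) h1
    rw [h3]
    congr 1
    exact (π.hat_nat n).symm

/-! ### No choice function -/

/-- Forcing from the packages that contain additional names. -/
theorem ud_val : UD fun M (v : Fin 2 → ZFSet.{0}) => ∀ n ∈ ZFSet.omega, ∃ x ∈ M,
    pair n x ∈ v 0 ∧ pair n x ∈ v 1 ∧ ∀ y ∈ M, pair n y ∈ v 0 → y = x := by
  refine UD.ball (F := fun _ _ => ZFSet.omega) UF.om ?_
  refine UD.ex ?_
  refine UD.and (UD.mem (UF.pair (UF.proj 1) (UF.proj 0)) (UF.proj 2)) ?_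
  refine UD.and (UD.mem (UF.pair (UF.proj 1) (UF.proj 0)) (UF.proj 3)) ?_
  refine UD.all ?_
  exact UD.imp (UD.mem (UF.pair (UF.proj 2) (UF.proj 0)) (UF.proj 3))
    (UD.eq (UF.proj 0) (UF.proj 1))

theorem ud_at (n : ℕ) : UD fun _ (v : Fin 2 → ZFSet.{0}) => pair (nat n) (v 0) ∈ v 1 :=
  UD.mem (UF.pair (UF.nat n) (UF.proj 0)) (UF.proj 1)

/-- There is no choice function for the classes. -/
theorem no_choice {π : Pkg P} (hcl : SU.Cld π) (hC : CN ∈ π.N) :
    ¬ ∃ d ∈ SU.Ms π, ∀ n ∈ ZFSet.omega, ∃ x ∈ SU.Ms π, pair n x ∈ d ∧ pair n x ∈ π.val CN ∧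
      ∀ y ∈ SU.Ms π, pair n y ∈ d → y = x := by
  rintro ⟨_, ⟨d, ⟨hdN, hdS⟩, rfl⟩, h⟩
  obtain ⟨e, he⟩ := sym_iff.1 hdS.sym
  have hx : ∀ i, ![d, CN] i ∈ π.N ∧ SU.HS (![d, CN] i) := by
    intro i
    fin_cases i
    exacts [⟨hdN, hdS⟩, ⟨hC, hs_CN⟩]
  obtain ⟨k, hk⟩ := (Sys.frc_iff ud_val hcl hx).1 h
  obtain ⟨n, hn⟩ := Infinite.exists_notMem_finset e
  obtain ⟨x, -, h1, h2, -⟩ := h (nat n) (nat_mem_omega n)
  obtain ⟨n', ρ, hρN, h3⟩ := (mem_CN π).1 h2
  obtain ⟨h4, rfl⟩ := ZFSet.pair_inj.1 h3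
  obtain rfl := nat_injective h4
  have hx1 : ∀ i, ![xn n ρ, d] i ∈ π.N ∧ SU.HS (![xn n ρ, d] i) := by
    intro i
    fin_cases i
    exacts [⟨hρN, hs_xn n ρ⟩, ⟨hdN, hdS⟩]
  obtain ⟨k', hk'⟩ := (Sys.frc_iff (ud_at n) hcl (x := ![xn n ρ, d]) hx1).1 h1
  set q := π.g (max k k') with hq
  have hq1 : SU.Frc ud_val ![d, CN] q := hk.mono (π.g_le_left k k')
  have hq2 : SU.Frc (ud_at n) ![xn n ρ, d] q := hk'.mono (π.g_le_right k k')
  -- two new places
  obtain ⟨i, hi⟩ := Infinite.exists_notMem_finset (q.1.image fun a => a.1.2)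
  obtain ⟨j, hj⟩ := Infinite.exists_notMem_finset (insert i (q.1.image fun a => a.1.2))
  rw [Finset.mem_insert, not_or] at hj
  have hi' : ∀ m b, ((m, i), b) ∉ q.1 := fun m b hb =>
    hi (Finset.mem_image.2 ⟨_, hb, rfl⟩)
  have hj' : ∀ m b, ((m, j), b) ∉ q.1 := fun m b hb =>
    hj.2 (Finset.mem_image.2 ⟨_, hb, rfl⟩)
  let g : Gp := Function.update 1 n ⟨Equiv.swap i j, swap_Fy i j⟩
  have hgn : g n = ⟨Equiv.swap i j, swap_Fy i j⟩ := Function.update_self _ _ _
  have hgm : ∀ m, m ≠ n → g m = 1 := fun m hm => Function.update_of_ne hm _ _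
  have hgH : g ∈ Hb e := fun m hm => hgm m fun h => hn (h ▸ hm)
  have hgg : g⁻¹ = g := by
    funext m
    by_cases hm : m = n
    · subst hm
      rw [Pi.inv_apply, hgn]
      exact Subtype.ext (Equiv.swap_inv i j)
    · rw [Pi.inv_apply, hgm m hm, inv_one]
  have hgq : sm g q = q := by
    refine P.ext' fun a => ?_
    rw [mem_sm, hgg]
    have key : ∀ a ∈ q.1, mv g a = a := by
      rintro ⟨⟨m, l⟩, b⟩ ha
      unfold mv
      by_cases hm : m = n
      · subst hm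
        dsimp only
        rw [hgn]
        have h5 : l ≠ i := fun h => hi' _ _ (h ▸ ha)
        have h6 : l ≠ j := fun h => hj' _ _ (h ▸ ha)
        dsimp only
        rw [Equiv.swap_apply_of_ne_of_ne h5 h6]
      · dsimp only
        rw [hgm m hm]
        rfl
    constructor
    · intro ha
      have h5 := key _ ha
      have h6 : mv g (mv g a) = a := by
        have := inv_mv g a
        rwa [hgg] at this
      rw [h6] at h5
      rwa [← h5] at ha
    · intro ha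
      rw [key a ha]
      exact ha
  have hq3 : SU.Frc (ud_at n) ![xn n (g n * ρ), d] q := by
    have h5 : SU.Frc (ud_at n) (fun i => act (SU.ac g) (![xn n ρ, d] i)) (SU.ac g q) :=
      (Sys.frc_act g).2 hq2
    have h6 : SU.ac g q = q := hgq
    rw [h6] at h5
    refine (Sys.frc_congr fun i => ?_).1 h5
    fin_cases i
    · change Feq (act (ac g) (xn n ρ)) (xn n (g n * ρ)) q
      rw [act_xn]
      exact Feq.refl _ _
    · exact he g hgH q
  have hok : Ok (q.1 ∪ {((n, i), true), ((n, j), false)}) := by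
    intro x b b' h5 h6
    simp only [Finset.mem_union, Finset.mem_insert, Finset.mem_singleton] at h5 h6
    have hij : i ≠ j := fun h => hj.1 h.symm
    rcases h5 with h5 | h5 | h5 <;> rcases h6 with h6 | h6 | h6
    · exact q.2 _ _ _ h5 h6
    · obtain ⟨rfl, rfl⟩ := Prod.mk.inj h6
      exact absurd h5 (hi' _ _)
    · obtain ⟨rfl, rfl⟩ := Prod.mk.inj h6
      exact absurd h5 (hj' _ _)
    · obtain ⟨rfl, rfl⟩ := Prod.mk.inj h5
      exact absurd h6 (hi' _ _)
    · rw [(Prod.mk.inj h5).2, (Prod.mk.inj h6).2]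
    · have h7 := (Prod.mk.inj h5).1.symm.trans (Prod.mk.inj h6).1
      exact absurd (Prod.mk.inj h7).2 hij
    · obtain ⟨rfl, rfl⟩ := Prod.mk.inj h5
      exact absurd h6 (hj' _ _)
    · have h7 := (Prod.mk.inj h6).1.symm.trans (Prod.mk.inj h5).1
      exact absurd (Prod.mk.inj h7).2 hij
    · rw [(Prod.mk.inj h5).2, (Prod.mk.inj h6).2]
  let r : P := ⟨_, hok⟩
  have hrq : r ≤ q := Finset.subset_union_left
  obtain ⟨π', hA, hg0, hcl', -⟩ := Sys.exists_cld SU {d, CN, xn n ρ, xn n (g n * ρ)}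
    (Set.toFinite _).countable ∅ Set.countable_empty r
  have hr : ∃ m, π'.g m ≤ q := ⟨0, hg0.le.trans hrq⟩
  have hdN' : d ∈ π'.N := hA (by simp)
  have hCN' : CN ∈ π'.N := hA (by simp)
  have hxN' : xn n ρ ∈ π'.N := hA (by simp)
  have hyN' : xn n (g n * ρ) ∈ π'.N := hA (by simp)
  have g1 := (Sys.frc_sem (fun i => (hx i).2)).1 hq1 π' hcl' (by
    intro i
    fin_cases i
    exacts [hdN', hCN']) hr
  have g2 := (Sys.frc_sem (fun i => (hx1 i).2)).1 hq2 π' hcl' (by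
    intro i
    fin_cases i
    exacts [hxN', hdN']) hr
  have g3 := (Sys.frc_sem (x := ![xn n (g n * ρ), d]) (by
    intro i
    fin_cases i
    exacts [hs_xn _ _, hdS])).1 hq3 π' hcl' (by
    intro i
    fin_cases i
    exacts [hyN', hdN']) hr
  obtain ⟨x, -, -, -, h5⟩ := g1 (nat n) (nat_mem_omega n)
  have h6 := h5 _ (Sys.mem_Ms hxN' (hs_xn _ _)) g2
  have h7 := h5 _ (Sys.mem_Ms hyN' (hs_xn _ _)) g3
  have h8 : π'.val (xn n ρ) = π'.val (xn n (g n * ρ)) := h6.trans h7.symm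
  have h9 : nat (ρ.1.symm i) ∈ π'.val (xn n ρ) := by
    refine (mem_xn π').2 ⟨_, rfl, 0, ?_⟩
    rw [hg0, Equiv.apply_symm_apply]
    exact Finset.mem_union_right _ (by simp)
  rw [h8] at h9
  obtain ⟨l, h10, m, h11⟩ := (mem_xn π').1 h9
  obtain rfl := nat_injective h10
  have h12 : (g n * ρ).1 (ρ.1.symm i) = j := by
    have h13 : (g n * ρ).1 = (g n).1 * ρ.1 := rfl
    rw [h13, Equiv.Perm.mul_apply, Equiv.apply_symm_apply, hgn]
    exact Equiv.swap_apply_left i j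
  rw [h12] at h11
  have h14 : ((n, j), false) ∈ (π'.g m).1 := by
    have h15 : π'.g m ≤ r := (Sys.g_le π' (Nat.zero_le m)).trans hg0.le
    exact h15 (Finset.mem_union_right _ (by simp))
  exact absurd ((π'.g m).2 _ _ _ h11 h14) (by decide)

end Pool.Agent.Q212.UT
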