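import Pool.Agent.W868.Small
import Pool.Agent.W868.Itr
import Pool.Agent.Q212.UTDefs

/-!
# The initial algebras
-/

set_option autoImplicit false

namespace Pool.Agent.Q212.UT

open Pool.Agent.W868
open ZFSet (pair)

/-! ### Compositions -/

/-- The composition of `s` with the class function `F`. -/
noncomputable def cm (F : ZFSet.{0} → ZFSet.{0}) (s : ZFSet.{0}) : ZFSet.{0} :=
  im (fun p => pair (fs p) (F (sn p))) s

section cm

variable {F G : ZFSet.{0} → ZFSet.{0}} {X Y s t : ZFSet.{0}}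

theorem mem_cm (hs : ZFSet.IsFunc ZFSet.omega X s) {p : ZFSet.{0}} :
    p ∈ cm F s ↔ ∃ n x, pair n x ∈ s ∧ p = pair n (F x) := by
  unfold cm
  rw [mem_im]
  constructor
  · rintro ⟨q, hq, rfl⟩
    obtain ⟨n, -, x, -, rfl⟩ := ZFSet.mem_prod.1 (hs.1 hq)
    rw [fs_pair, sn_pair]
    exact ⟨n, x, hq, rfl⟩
  · rintro ⟨n, x, h, rfl⟩
    refine ⟨_, h, ?_⟩
    rw [fs_pair, sn_pair]

theorem pair_mem_cm (hs : ZFSet.IsFunc ZFSet.omega X s) {n y : ZFSet.{0}} :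
    pair n y ∈ cm F s ↔ ∃ x, pair n x ∈ s ∧ y = F x := by
  rw [mem_cm hs]
  constructor
  · rintro ⟨n', x, h, h'⟩
    obtain ⟨rfl, rfl⟩ := ZFSet.pair_inj.1 h'
    exact ⟨x, h, rfl⟩
  · rintro ⟨x, h, rfl⟩
    exact ⟨n, x, h, rfl⟩

theorem isFunc_cm (hs : ZFSet.IsFunc ZFSet.omega X s) (h : ∀ n x, pair n x ∈ s → F x ∈ Y) :
    ZFSet.IsFunc ZFSet.omega Y (cm F s) := by
  refine ⟨fun p hp => ?_, fun n hn => ?_⟩
  · obtain ⟨n, x, h1, rfl⟩ := (mem_cm hs).1 hp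
    exact ZFSet.pair_mem_prod.2 ⟨(ZFSet.pair_mem_prod.1 (hs.1 h1)).1, h n x h1⟩
  · obtain ⟨x, h1, h2⟩ := hs.2 n hn
    refine ⟨F x, (pair_mem_cm hs).2 ⟨x, h1, rfl⟩, fun y hy => ?_⟩
    obtain ⟨x', h3, rfl⟩ := (pair_mem_cm hs).1 hy
    rw [h2 x' h3]

theorem cm_congr (hs : ZFSet.IsFunc ZFSet.omega X s) (h : ∀ n x, pair n x ∈ s → F x = G x) :
    cm F s = cm G s := by
  ext p
  rw [mem_cm hs, mem_cm hs]
  constructor
  · rintro ⟨n, x, h1, rfl⟩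
    exact ⟨n, x, h1, by rw [h n x h1]⟩
  · rintro ⟨n, x, h1, rfl⟩
    exact ⟨n, x, h1, by rw [h n x h1]⟩

theorem isFunc_range (hs : ZFSet.IsFunc ZFSet.omega X s) (h : ∀ n x, pair n x ∈ s → x ∈ Y) :
    ZFSet.IsFunc ZFSet.omega Y s := by
  refine ⟨fun p hp => ?_, hs.2⟩
  obtain ⟨n, hn, x, hx, rfl⟩ := ZFSet.mem_prod.1 (hs.1 hp)
  exact ZFSet.pair_mem_prod.2 ⟨hn, h n x hp⟩

theorem func_eq (hs : ZFSet.IsFunc ZFSet.omega X s) (ht : ZFSet.IsFunc ZFSet.omega Y t)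
    (h : ∀ p ∈ s, p ∈ t) : s = t := by
  ext p
  refine ⟨h p, fun hp => ?_⟩
  obtain ⟨n, hn, x, hx, rfl⟩ := ZFSet.mem_prod.1 (ht.1 hp)
  obtain ⟨y, hy, -⟩ := hs.2 n hn
  have h1 := fun_unique ht hp (h _ hy)
  exact h1 ▸ hy

end cm

section dfn

variable {M : Set ZFSet.{0}} (hM : IsZF M) {m : ℕ}

include hM

theorem cm' {F : (Fin m → ZFSet.{0}) → ZFSet.{0}}
    {H : ZFSet.{0} → (Fin m → ZFSet.{0}) → ZFSet.{0}}
    (hH : DfnF M M fun w : Fin (m + 1) → ZFSet.{0} => H (sn (w 0)) (Fin.tail w))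
    (hF : DfnF M M F) : DfnF M M fun v => cm (fun x => H x v) (F v) := by
  refine hM.im' (h := fun p v => pair (fs p) (H (sn p) v)) hF ?_
  exact hM.base.pair' (hM.fs' (DfnF.proj 0)) hH

theorem cm_mem {F : ZFSet.{0} → ZFSet.{0}} (hF : DfnF M M fun w : Fin 1 → ZFSet.{0} => F (w 0))
    {s : ZFSet.{0}} (hs : s ∈ M) : cm F s ∈ M := by
  refine hM.im_mem (h := fun p => pair (fs p) (F (sn p))) hs ?_
  exact hM.base.pair' (hM.fs' (DfnF.proj 0)) (DfnF.comp1 (f := F) hF (hM.sn' (DfnF.proj 0)))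

theorem gr_mem {F : ZFSet.{0} → ZFSet.{0}} (hF : DfnF M M fun w : Fin 1 → ZFSet.{0} => F (w 0))
    {x : ZFSet.{0}} (hx : x ∈ M) : gr F x ∈ M :=
  hM.im_mem (h := fun u => pair u (F u)) hx (hM.base.pair' (DfnF.proj 0) hF)

end dfn

/-! ### The functions from `ω` -/

/-- The functions in `M` from `ω` to `X`. -/
noncomputable def Sq (M : Set ZFSet.{0}) (X : ZFSet.{0}) : ZFSet.{0} :=
  ZFSet.sep (fun z => z ∈ M ∧ ZFSet.IsFunc ZFSet.omega X z)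
    (ZFSet.powerset (ZFSet.prod ZFSet.omega X))

theorem mem_Sq {M : Set ZFSet.{0}} {X z : ZFSet.{0}} :
    z ∈ Sq M X ↔ z ∈ M ∧ ZFSet.IsFunc ZFSet.omega X z := by
  rw [Sq, ZFSet.mem_sep, ZFSet.mem_powerset]
  exact ⟨fun h => h.2, fun h => ⟨h.2.1, h⟩⟩

theorem dfn_Sq {M : Set ZFSet.{0}} (hM : IsZF M) :
    DfnF M M fun w : Fin 1 → ZFSet.{0} => Sq M (w 0) := by
  have hB := hM.base
  refine DfnF.of_unique (R := fun y v => (∀ z ∈ y, ZFSet.IsFunc ZFSet.omega (v 0) z) ∧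
    ∀ z ∈ M, ZFSet.IsFunc ZFSet.omega (v 0) z → z ∈ y) ?_ ?_
  · apply Dfn.and
    · apply hB.ball (DfnF.proj 0)
      exact hB.isFunc' (DfnF.const hM.infinity) (DfnF.proj 2) (DfnF.proj 0)
    · apply Dfn.all
      apply Dfn.imp
      · exact hB.isFunc' (DfnF.const hM.infinity) (DfnF.proj 2) (DfnF.proj 0)
      · exact Dfn.mem (DfnF.proj 0) (DfnF.proj 1)
  · intro v hv
    have h1 : Sq M (v 0) ∈ M := by
      obtain ⟨P, hP, h2⟩ := hM.exists_pow (hM.prod_mem hM.infinity (hv 0))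
      have h3 : Sq M (v 0) = ZFSet.sep (fun z => ZFSet.IsFunc ZFSet.omega (v 0) z) P := by
        ext z
        rw [mem_Sq, ZFSet.mem_sep, h2]
        exact ⟨fun h => ⟨⟨h.1, h.2.1⟩, h.2⟩, fun h => ⟨h.1.1, h.2⟩⟩
      rw [h3]
      refine hM.sep_mem ?_ hP
      exact hB.isFunc' (DfnF.const hM.infinity) (DfnF.const (hv 0)) (DfnF.proj 0)
    refine ⟨h1, fun y hy => ?_⟩
    constructor
    · rintro ⟨h2, h3⟩
      ext z
      rw [mem_Sq]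
      exact ⟨fun h => ⟨hM.trans _ hy _ h, h2 z h⟩, fun h => h3 z h.1 h.2⟩
    · rintro rfl
      exact ⟨fun z hz => (mem_Sq.1 hz).2, fun z h4 h5 => mem_Sq.2 ⟨h4, h5⟩⟩

/-! ### Equations given by an equivalence relation -/

/-- The equivalence relations on the functions on `ω`. -/
structure IsE (M : Set ZFSet.{0}) (E : ZFSet.{0} → ZFSet.{0} → Prop) : Prop where
  refl : ∀ s, E s s
  symm : ∀ s t, E s t → E t s
  trans : ∀ s t u, E s t → E t u → E s u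
  dfn : Dfn M M fun w : Fin 2 → ZFSet.{0} => E (w 0) (w 1)
  rng : ∀ X Y s t, ZFSet.IsFunc ZFSet.omega X s → ZFSet.IsFunc ZFSet.omega Y t → E s t →
    ZFSet.IsFunc ZFSet.omega X t
  cmp : ∀ X s t F, ZFSet.IsFunc ZFSet.omega X s → ZFSet.IsFunc ZFSet.omega X t → E s t →
    E (cm F s) (cm F t)

/-- The class of `s`. -/
noncomputable def cls (M : Set ZFSet.{0}) (E : ZFSet.{0} → ZFSet.{0} → Prop)
    (X s : ZFSet.{0}) : ZFSet.{0} :=
  ZFSet.sep (fun t => E s t) (Sq M X)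

/-- One step of the construction. -/
noncomputable def TT (M : Set ZFSet.{0}) (E : ZFSet.{0} → ZFSet.{0} → Prop)
    (X : ZFSet.{0}) : ZFSet.{0} :=
  insert ∅ (im (fun s => cls M E X s) (Sq M X))

/-- The underlying set of the algebra. -/
noncomputable def Tr (M : Set ZFSet.{0}) (E : ZFSet.{0} → ZFSet.{0} → Prop)
    (κ : ZFSet.{0}) : ZFSet.{0} :=
  itr (TT M E) ∅ κ

/-- The operation of the algebra. -/
noncomputable def al (M : Set ZFSet.{0}) (E : ZFSet.{0} → ZFSet.{0} → Prop)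
    (κ : ZFSet.{0}) : ZFSet.{0} :=
  gr (fun s => cls M E (Tr M E κ) s) (Sq M (Tr M E κ))

/-- The ordinal `κ` is large enough for the construction. -/
structure IsKap (M : Set ZFSet.{0}) (κ : ZFSet.{0}) : Prop where
  mem : κ ∈ M
  ord : κ.IsOrdinal
  zero : ∅ ∈ κ
  reg : ∀ ρ ∈ M, ZFSet.IsFunc ZFSet.omega κ ρ → ∃ δ ∈ κ, ∀ n y, pair n y ∈ ρ → y ∈ δ

section alg

variable {M : Set ZFSet.{0}} (hM : IsZF M) {E : ZFSet.{0} → ZFSet.{0} → Prop} (hE : IsE M E)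
  {κ : ZFSet.{0}} (hκ : IsKap M κ)

theorem mem_cls {X s t : ZFSet.{0}} :
    t ∈ cls M E X s ↔ (t ∈ M ∧ ZFSet.IsFunc ZFSet.omega X t) ∧ E s t := by
  rw [cls, ZFSet.mem_sep, mem_Sq]

include hE in
theorem cls_eq {X Y s : ZFSet.{0}} (h : ZFSet.IsFunc ZFSet.omega X s)
    (h' : ZFSet.IsFunc ZFSet.omega Y s) : cls M E X s = cls M E Y s := by
  ext t
  rw [mem_cls, mem_cls]
  constructor
  · rintro ⟨⟨h1, h2⟩, h3⟩
    exact ⟨⟨h1, hE.rng _ _ _ _ h' h2 h3⟩, h3⟩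
  · rintro ⟨⟨h1, h2⟩, h3⟩
    exact ⟨⟨h1, hE.rng _ _ _ _ h h2 h3⟩, h3⟩

include hE in
theorem self_mem_cls {X s : ZFSet.{0}} (hs : s ∈ M) (h : ZFSet.IsFunc ZFSet.omega X s) :
    s ∈ cls M E X s := mem_cls.2 ⟨⟨hs, h⟩, hE.refl s⟩

include hE in
theorem cls_ne {X s : ZFSet.{0}} (hs : s ∈ M) (h : ZFSet.IsFunc ZFSet.omega X s) :
    cls M E X s ≠ ∅ := fun h1 =>
  ZFSet.notMem_empty _ (h1 ▸ self_mem_cls hE hs h)

include hE in
theorem cls_of_E {X s t : ZFSet.{0}} (h : E s t) : cls M E X s = cls M E X t := by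
  ext u
  rw [mem_cls, mem_cls]
  constructor
  · rintro ⟨h1, h3⟩
    exact ⟨h1, hE.trans _ _ _ (hE.symm _ _ h) h3⟩
  · rintro ⟨h1, h3⟩
    exact ⟨h1, hE.trans _ _ _ h h3⟩

include hE in
theorem E_of_cls {X s t : ZFSet.{0}} (ht : t ∈ M) (h : ZFSet.IsFunc ZFSet.omega X t)
    (h1 : cls M E X s = cls M E X t) : E s t := by
  have h2 := self_mem_cls hE ht h
  rw [← h1] at h2
  exact (mem_cls.1 h2).2

include hM hE in
theorem dfn_cls2 : DfnF M M fun w : Fin 2 → ZFSet.{0} => cls M E (w 0) (w 1) := by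
  refine hM.sep' (Q := fun t v => E (v 1) t) (DfnF.comp1 (f := Sq M) (dfn_Sq hM)
    (DfnF.proj 0)) ?_
  exact Dfn.comp2 (Q := E) hE.dfn (DfnF.proj 2) (DfnF.proj 0)

include hM hE in
theorem dfn_cls {X : ZFSet.{0}} (hX : X ∈ M) :
    DfnF M M fun w : Fin 1 → ZFSet.{0} => cls M E X (w 0) :=
  DfnF.comp2 (f := cls M E) (dfn_cls2 hM hE) (DfnF.const hX) (DfnF.proj 0)

include hM hE in
theorem dfn_TT : DfnF M M fun w : Fin 1 → ZFSet.{0} => TT M E (w 0) := by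
  refine hM.base.insert' (DfnF.const hM.empty_mem) ?_
  refine hM.im' (h := fun s v => cls M E (v 0) s) (DfnF.comp1 (f := Sq M) (dfn_Sq hM)
    (DfnF.proj 0)) ?_
  exact DfnF.comp2 (f := cls M E) (dfn_cls2 hM hE) (DfnF.proj 1) (DfnF.proj 0)

theorem mem_TT {X z : ZFSet.{0}} : z ∈ TT M E X ↔
    z = ∅ ∨ ∃ s ∈ M, ZFSet.IsFunc ZFSet.omega X s ∧ z = cls M E X s := by
  rw [TT, ZFSet.mem_insert_iff, mem_im]
  refine or_congr Iff.rfl ?_
  constructor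
  · rintro ⟨s, hs, rfl⟩
    obtain ⟨h1, h2⟩ := mem_Sq.1 hs
    exact ⟨s, h1, h2, rfl⟩
  · rintro ⟨s, h1, h2, rfl⟩
    exact ⟨s, mem_Sq.2 ⟨h1, h2⟩, rfl⟩

include hM hE hκ in
theorem Tr_mem : Tr M E κ ∈ M := itr_mem_M hM hM.empty_mem hκ.mem (dfn_TT hM hE)

include hκ in
theorem empty_mem_Tr : ∅ ∈ Tr M E κ := by
  refine mem_itr.2 (Or.inr ⟨∅, hκ.zero, mem_TT.2 (Or.inl rfl)⟩)

include hE hκ in
theorem mem_Tr {z : ZFSet.{0}} (hz : z ∈ Tr M E κ) :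
    z = ∅ ∨ ∃ s ∈ M, ZFSet.IsFunc ZFSet.omega (Tr M E κ) s ∧ z = cls M E (Tr M E κ) s := by
  rcases mem_itr.1 hz with h | ⟨u, hu, h⟩
  · exact absurd h (ZFSet.notMem_empty _)
  · rcases mem_TT.1 h with h | ⟨s, hs, h1, rfl⟩
    · exact Or.inl h
    · refine Or.inr ⟨s, hs, ?_, ?_⟩
      · exact isFunc_range h1 fun n x hx =>
          itr_mono (hκ.ord.subset_of_mem hu) (ZFSet.pair_mem_prod.1 (h1.1 hx)).2
      · refine cls_eq hE h1 ?_
        exact isFunc_range h1 fun n x hx =>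
          itr_mono (hκ.ord.subset_of_mem hu) (ZFSet.pair_mem_prod.1 (h1.1 hx)).2

include hM hE hκ in
theorem cls_mem_Tr {s : ZFSet.{0}} (hs : s ∈ M) (h : ZFSet.IsFunc ZFSet.omega (Tr M E κ) s) :
    cls M E (Tr M E κ) s ∈ Tr M E κ := by
  let st : ZFSet.{0} → ZFSet.{0} := fun x => lo M fun ζ => x ∈ TT M E (itr (TT M E) ∅ ζ)
  have hst : DfnF M M fun w : Fin 1 → ZFSet.{0} => st (w 0) := by
    refine hM.lo' (Q := fun ζ v => v 0 ∈ TT M E (itr (TT M E) ∅ ζ)) ?_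
    refine Dfn.mem (DfnF.proj 1) (DfnF.comp1 (f := TT M E) (dfn_TT hM hE) ?_)
    exact DfnF.comp1 (f := itr (TT M E) ∅) (dfn_itr hM hM.empty_mem (dfn_TT hM hE)) (DfnF.proj 0)
  have h1 : ∀ x ∈ Tr M E κ, st x ∈ κ ∧ x ∈ TT M E (itr (TT M E) ∅ (st x)) := by
    intro x hx
    rcases mem_itr.1 hx with h2 | ⟨u, hu, h2⟩
    · exact absurd h2 (ZFSet.notMem_empty _)
    · have h3 : u ∈ M := hM.trans _ hκ.mem _ hu
      have h4 := hκ.ord.mem hu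
      have h5 := lo_spec (M := M) (P := fun ζ => x ∈ TT M E (itr (TT M E) ∅ ζ)) ⟨u, h3, h4, h2⟩
      refine ⟨?_, h5.2.2⟩
      exact h5.2.1.mem_of_subset_of_mem hκ.ord (lo_subset h3 h4 h2) hu
  have h2 : cm st s ∈ M := cm_mem hM hst hs
  have h3 : ZFSet.IsFunc ZFSet.omega κ (cm st s) := isFunc_cm h fun n x hx =>
    (h1 x (ZFSet.pair_mem_prod.1 (h.1 hx)).2).1
  obtain ⟨δ, hδ, h4⟩ := hκ.reg _ h2 h3
  have h5 : ZFSet.IsFunc ZFSet.omega (itr (TT M E) ∅ δ) s := by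
    refine isFunc_range h fun n x hx => ?_
    have h6 := h4 n (st x) ((pair_mem_cm h).2 ⟨x, hx, rfl⟩)
    exact mem_itr.2 (Or.inr ⟨_, h6, (h1 x (ZFSet.pair_mem_prod.1 (h.1 hx)).2).2⟩)
  rw [cls_eq hE h h5]
  exact mem_itr.2 (Or.inr ⟨δ, hδ, mem_TT.2 (Or.inr ⟨s, hs, h5, rfl⟩)⟩)

theorem pair_mem_al {s a : ZFSet.{0}} : pair s a ∈ al M E κ ↔
    (s ∈ M ∧ ZFSet.IsFunc ZFSet.omega (Tr M E κ) s) ∧ a = cls M E (Tr M E κ) s := by
  rw [al, pair_mem_gr, mem_Sq]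

include hM hE hκ in
theorem isAlg : IsAlg M (Tr M E κ) ∅ (al M E κ) where
  memA := Tr_mem hM hE hκ
  memα := by
    have h1 : Sq M (Tr M E κ) ∈ M := (dfn_Sq hM).1 (fun _ => Tr M E κ) fun _ => Tr_mem hM hE hκ
    exact gr_mem hM (dfn_cls hM hE (Tr_mem hM hE hκ)) h1
  leaf := empty_mem_Tr hκ
  sub := by
    intro z hz
    obtain ⟨s, hs, rfl⟩ := mem_gr.1 hz
    obtain ⟨h1, h2⟩ := mem_Sq.1 hs
    exact ⟨s, h1, _, cls_mem_Tr hM hE hκ h1 h2, h2, rfl⟩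
  tot := fun s hs h => ⟨_, pair_mem_al.2 ⟨⟨hs, h⟩, rfl⟩⟩
  fn := by
    intro s a b ha hb
    rw [(pair_mem_al.1 ha).2, (pair_mem_al.1 hb).2]

include hE in
theorem al_inv {s t : ZFSet.{0}} (ht : t ∈ M)
    (ht' : ZFSet.IsFunc ZFSet.omega (Tr M E κ) t) (h : E s t) {a : ZFSet.{0}}
    (ha : pair s a ∈ al M E κ) : pair t a ∈ al M E κ := by
  obtain ⟨-, rfl⟩ := pair_mem_al.1 ha
  exact pair_mem_al.2 ⟨⟨ht, ht'⟩, cls_of_E hE h⟩

/-! ### Recursion -/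

/-- The predecessors. -/
noncomputable def pr (z : ZFSet.{0}) : ZFSet.{0} :=
  ZFSet.sUnion (ZFSet.sUnion (ZFSet.sUnion z))

theorem pr_wf : WellFounded fun u z => u ∈ pr z := by
  refine Subrelation.wf (r := InvImage (· < ·) ZFSet.rank) ?_ (InvImage.wf _ Ordinal.lt_wf)
  intro u z h
  obtain ⟨a, ha, h1⟩ := ZFSet.mem_sUnion.1 h
  obtain ⟨b, hb, h2⟩ := ZFSet.mem_sUnion.1 ha
  obtain ⟨c, hc, h3⟩ := ZFSet.mem_sUnion.1 hb
  exact (ZFSet.rank_lt_of_mem h1).trans ((ZFSet.rank_lt_of_mem h2).trans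
    ((ZFSet.rank_lt_of_mem h3).trans (ZFSet.rank_lt_of_mem hc)))

theorem mem_pr {z s n x : ZFSet.{0}} (hs : s ∈ z) (h : pair n x ∈ s) : x ∈ pr z := by
  refine ZFSet.mem_sUnion.2 ⟨{n, x}, ?_, by simp⟩
  refine ZFSet.mem_sUnion.2 ⟨pair n x, ?_, by simp [ZFSet.pair]⟩
  exact ZFSet.mem_sUnion.2 ⟨s, hs, h⟩

open Classical in
/-- The recursion step. -/
noncomputable def GG (B m β z g : ZFSet.{0}) : ZFSet.{0} :=
  if z = ∅ then m else ZFSet.sUnion (ZFSet.sep (fun b => ∃ s ∈ z, pair (cm (ap g) s) b ∈ β) B)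

/-- The homomorphism. -/
noncomputable def hh (B m β : ZFSet.{0}) : ZFSet.{0} → ZFSet.{0} := wfF pr pr_wf (GG B m β)

theorem hh_eq (B m β z : ZFSet.{0}) : hh B m β z = GG B m β z (gr (hh B m β) (pr z)) := by
  rw [hh, wfF_eq]

variable {B m β : ZFSet.{0}}

include hM in
theorem dfn_hh (hB : B ∈ M) (hm : m ∈ M) (hβ : β ∈ M) :
    DfnF M M fun w : Fin 1 → ZFSet.{0} => hh B m β (w 0) := by
  have hb := hM.base
  refine hM.wfrec (pr := pr) pr_wf ?_ (G := GG B m β) ?_ fun z => hh_eq B m β z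
  · exact hb.sUnion' (hb.sUnion' (hb.sUnion' (DfnF.proj 0)))
  · refine DfnF.ite (Dfn.eq (DfnF.proj 0) (DfnF.const hM.empty_mem)) (DfnF.const hm) ?_
    refine hb.sUnion' (hM.sep' (Q := fun b v => ∃ s ∈ v 0, pair (cm (ap (v 1)) s) b ∈ β)
      (DfnF.const hB) ?_)
    refine hb.bex (DfnF.proj 1) ?_
    refine Dfn.mem (hb.pair' ?_ (DfnF.proj 1)) (DfnF.const hβ)
    refine cm' hM (H := fun x v => ap (v 3) x) ?_ (DfnF.proj 0)
    exact hM.ap' (DfnF.proj 4) (hM.sn' (DfnF.proj 0))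

theorem hh_empty : hh B m β ∅ = m := by
  rw [hh_eq, GG, if_pos rfl]

include hE in
theorem hh_cls (halg : IsAlg M B m β) (hM' : IsZF M)
    (hinv : ∀ s ∈ M, ∀ t ∈ M, ZFSet.IsFunc ZFSet.omega B s → ZFSet.IsFunc ZFSet.omega B t →
      E s t → ∀ b, pair s b ∈ β → pair t b ∈ β) {X s : ZFSet.{0}} (hs : s ∈ M)
    (hf : ZFSet.IsFunc ZFSet.omega X s) (hh' : ∀ n x, pair n x ∈ s → hh B m β x ∈ B)
    {b : ZFSet.{0}} (hb : pair (cm (hh B m β) s) b ∈ β) : hh B m β (cls M E X s) = b := by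
  have hsc := self_mem_cls hE hs hf
  have hm : m ∈ M := hM'.trans _ halg.memA _ halg.leaf
  have hd := dfn_hh hM' halg.memA hm halg.memα
  rw [hh_eq, GG, if_neg (cls_ne hE hs hf)]
  have hbB : b ∈ B := by
    obtain ⟨s1, -, a1, ha1, -, h1⟩ := halg.sub _ hb
    rw [(ZFSet.pair_inj.1 h1).2]
    exact ha1
  have hcm : ∀ t ∈ cls M E X s,
      cm (ap (gr (hh B m β) (pr (cls M E X s)))) t = cm (hh B m β) t := by
    intro t ht
    refine cm_congr (mem_cls.1 ht).1.2 fun n x hx => ?_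
    exact ap_gr (mem_pr ht hx)
  have h1 : ZFSet.sep (fun b => ∃ t ∈ cls M E X s,
      pair (cm (ap (gr (hh B m β) (pr (cls M E X s)))) t) b ∈ β) B = {b} := by
    ext c
    rw [ZFSet.mem_sep, ZFSet.mem_singleton]
    constructor
    · rintro ⟨hc, t, ht, h2⟩
      rw [hcm t ht] at h2
      obtain ⟨⟨htM, htf⟩, hst⟩ := mem_cls.1 ht
      set X' := ZFSet.sep (fun x => hh B m β x ∈ B) X with hX'
      have h3 : ZFSet.IsFunc ZFSet.omega X' s := isFunc_range hf fun n x hx =>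
        ZFSet.mem_sep.2 ⟨(ZFSet.pair_mem_prod.1 (hf.1 hx)).2, hh' n x hx⟩
      have h4 : ZFSet.IsFunc ZFSet.omega X' t := hE.rng _ _ _ _ h3 htf hst
      have h5 : ZFSet.IsFunc ZFSet.omega B (cm (hh B m β) s) := isFunc_cm hf hh'
      have h6 : ZFSet.IsFunc ZFSet.omega B (cm (hh B m β) t) := isFunc_cm htf fun n x hx =>
        (ZFSet.mem_sep.1 (ZFSet.pair_mem_prod.1 (h4.1 hx)).2).2
      have h7 : E (cm (hh B m β) s) (cm (hh B m β) t) := hE.cmp _ _ _ _ hf htf hst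
      have h8 := hinv _ (cm_mem hM' hd hs) _ (cm_mem hM' hd htM) h5 h6 h7 b hb
      exact halg.fn _ _ _ h2 h8
    · rintro rfl
      refine ⟨hbB, s, hsc, ?_⟩
      rw [hcm s hsc]
      exact hb
  rw [h1, ZFSet.sUnion_singleton]

include hM hE hκ in
theorem hh_mem (halg : IsAlg M B m β)
    (hinv : ∀ s ∈ M, ∀ t ∈ M, ZFSet.IsFunc ZFSet.omega B s → ZFSet.IsFunc ZFSet.omega B t →
      E s t → ∀ b, pair s b ∈ β → pair t b ∈ β) (z : ZFSet.{0}) :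
    z ∈ Tr M E κ → hh B m β z ∈ B := by
  have hm : m ∈ M := hM.trans _ halg.memA _ halg.leaf
  have hd := dfn_hh hM halg.memA hm halg.memα
  induction z using pr_wf.induction with
  | _ z ih =>
  intro hz
  rcases mem_Tr hE hκ hz with rfl | ⟨s, hs, hf, rfl⟩
  · rw [hh_empty]
    exact halg.leaf
  · have h1 : ∀ n x, pair n x ∈ s → hh B m β x ∈ B := fun n x hx =>
      ih x (mem_pr (self_mem_cls hE hs hf) hx) (ZFSet.pair_mem_prod.1 (hf.1 hx)).2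
    obtain ⟨b, hb⟩ := halg.tot _ (cm_mem hM hd hs) (isFunc_cm hf h1)
    rw [hh_cls hE halg hM hinv hs hf h1 hb]
    obtain ⟨s1, -, a1, ha1, -, h1⟩ := halg.sub _ hb
    rw [(ZFSet.pair_inj.1 h1).2]
    exact ha1

include hM hE hκ in
/-- The algebra is initial. -/
theorem initial (halg : IsAlg M B m β)
    (hinv : ∀ s ∈ M, ∀ t ∈ M, ZFSet.IsFunc ZFSet.omega B s → ZFSet.IsFunc ZFSet.omega B t →
      E s t → ∀ b, pair s b ∈ β → pair t b ∈ β) :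
    ∃! f, f ∈ M ∧ IsHom (Tr M E κ) ∅ (al M E κ) B m β f := by
  have hm : m ∈ M := hM.trans _ halg.memA _ halg.leaf
  have hd := dfn_hh hM halg.memA hm halg.memα
  have hT := hh_mem hM hE hκ halg hinv
  have hfunc : ZFSet.IsFunc (Tr M E κ) B (gr (hh B m β) (Tr M E κ)) := by
    refine ⟨fun p hp => ?_, fun z hz => ?_⟩
    · obtain ⟨u, hu, rfl⟩ := mem_gr.1 hp
      exact ZFSet.pair_mem_prod.2 ⟨hu, hT u hu⟩
    · exact ⟨hh B m β z, pair_mem_gr.2 ⟨hz, rfl⟩, fun y hy => (pair_mem_gr.1 hy).2⟩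
  refine ⟨gr (hh B m β) (Tr M E κ), ⟨gr_mem hM hd (Tr_mem hM hE hκ), hfunc, ?_, ?_⟩, ?_⟩
  · exact pair_mem_gr.2 ⟨empty_mem_Tr hκ, hh_empty.symm⟩
  · intro s a t b ha hb ht
    obtain ⟨⟨hs, hf⟩, rfl⟩ := pair_mem_al.1 ha
    have h1 : ∀ n x, pair n x ∈ s → hh B m β x ∈ B := fun n x hx =>
      hT x (ZFSet.pair_mem_prod.1 (hf.1 hx)).2
    have h2 : cm (hh B m β) s = t := by
      obtain ⟨t', -, b', -, ht', h3⟩ := halg.sub _ hb
      obtain ⟨rfl, rfl⟩ := ZFSet.pair_inj.1 h3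
      refine func_eq (isFunc_cm hf h1) ht' fun p hp => ?_
      obtain ⟨n, x, h4, rfl⟩ := (mem_cm hf).1 hp
      exact ht n x _ h4 (pair_mem_gr.2 ⟨(ZFSet.pair_mem_prod.1 (hf.1 h4)).2, rfl⟩)
    rw [← h2] at hb
    exact pair_mem_gr.2 ⟨cls_mem_Tr hM hE hκ hs hf, (hh_cls hE halg hM hinv hs hf h1 hb).symm⟩
  · rintro f ⟨-, hfn, hl, hn⟩
    have key : ∀ z, z ∈ Tr M E κ → pair z (hh B m β z) ∈ f := by
      intro z
      induction z using pr_wf.induction with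
      | _ z ih =>
      intro hz
      rcases mem_Tr hE hκ hz with rfl | ⟨s, hs, hf, rfl⟩
      · rw [hh_empty]
        exact hl
      · have h1 : ∀ n x, pair n x ∈ s → hh B m β x ∈ B := fun n x hx =>
          hT x (ZFSet.pair_mem_prod.1 (hf.1 hx)).2
        obtain ⟨b, hb⟩ := halg.tot _ (cm_mem hM hd hs) (isFunc_cm hf h1)
        rw [hh_cls hE halg hM hinv hs hf h1 hb]
        refine hn s _ _ b (pair_mem_al.2 ⟨⟨hs, hf⟩, rfl⟩) hb fun n x y hx hy => ?_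
        have h2 := ih x (mem_pr (self_mem_cls hE hs hf) hx)
          (ZFSet.pair_mem_prod.1 (hf.1 hx)).2
        exact (pair_mem_cm hf).2 ⟨x, hx, fun_unique hfn hy h2⟩
    ext p
    constructor
    · intro hp
      obtain ⟨z, hz, y, hy, rfl⟩ := ZFSet.mem_prod.1 (hfn.1 hp)
      exact pair_mem_gr.2 ⟨hz, fun_unique hfn hp (key z hz)⟩
    · intro hp
      obtain ⟨z, hz, rfl⟩ := mem_gr.1 hp
      exact key z hz

end alg

end Pool.Agent.Q212.UT
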