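import Pool.Agent.W868.Base2
import Pool.Agent.W868.Clo
import Pool.Agent.W868.Inj

/-!
# Countable subsets of the first uncountable ordinal of the ground model
-/

set_option autoImplicit false

namespace Pool.Agent.Q212.UT

open Pool.Agent.W868 Pool.Agent.W868.PName
open ZFSet (pair)
open scoped Cardinal

theorem sc_mem_Om1 {x : ZFSet.{0}} (hx : x ∈ Om1) : sc x ∈ Om1 := by
  obtain ⟨a, ha, rfl⟩ := Ordinal.mem_toZFSet_iff.1 hx
  unfold sc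
  rw [← Ordinal.toZFSet_add_one]
  refine Ordinal.mem_toZFSet_iff.2 ⟨_, ?_, rfl⟩
  exact (Cardinal.isSuccLimit_ord (Cardinal.aleph0_le_aleph 1)).succ_lt ha

/-- Injections of the countable ordinals to `ω`. -/
noncomputable def FF (ξ : ZFSet.{0}) : ZFSet.{0} :=
  open Classical in if h : ξ ∈ Om1 then (inj_of_mem_Om1 h).choose else ∅

theorem FF_spec {ξ : ZFSet.{0}} (h : ξ ∈ Om1) : IsInj ξ ZFSet.omega (FF ξ) := by
  rw [FF, dif_pos h]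
  exact (inj_of_mem_Om1 h).choose_spec

/-- The code of the injections. -/
noncomputable def EE : ZFSet.{0} :=
  ZFSet.sep (fun z => ∃ ξ ∈ Om1, ∃ η ∈ ξ, ∃ m : ℕ, pair η (nat m) ∈ FF ξ ∧
    z = pair (pair ξ (nat m)) η) (ZFSet.prod (ZFSet.prod Om1 ZFSet.omega) Om1)

theorem mem_EE {a b : ZFSet.{0}} : pair a b ∈ EE ↔ ∃ ξ ∈ Om1, ∃ η ∈ ξ, ∃ m : ℕ,
    pair η (nat m) ∈ FF ξ ∧ pair a b = pair (pair ξ (nat m)) η := by
  rw [EE, ZFSet.mem_sep]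
  constructor
  · exact fun h => h.2
  · rintro ⟨ξ, hξ, η, hη, m, h1, h2⟩
    refine ⟨?_, ξ, hξ, η, hη, m, h1, h2⟩
    rw [h2]
    exact ZFSet.pair_mem_prod.2 ⟨ZFSet.pair_mem_prod.2 ⟨hξ, nat_mem_omega m⟩,
      ord_Om1.mem_trans hη hξ⟩

theorem EE_fun {a b b' : ZFSet.{0}} (h : pair a b ∈ EE) (h' : pair a b' ∈ EE) : b = b' := by
  obtain ⟨ξ, hξ, η, hη, m, h1, h2⟩ := mem_EE.1 h
  obtain ⟨ξ', hξ', η', hη', m', h1', h2'⟩ := mem_EE.1 h'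
  obtain ⟨rfl, rfl⟩ := ZFSet.pair_inj.1 h2
  obtain ⟨h3, rfl⟩ := ZFSet.pair_inj.1 h2'
  obtain ⟨rfl, h4⟩ := ZFSet.pair_inj.1 h3
  rw [← h4] at h1'
  exact (FF_spec hξ).2 _ _ _ h1 h1'

theorem EE_ex {ξ η : ZFSet.{0}} (hξ : ξ ∈ Om1) (hη : η ∈ ξ) :
    ∃ m : ℕ, pair (pair ξ (nat m)) η ∈ EE := by
  obtain ⟨y, h1, -⟩ := (FF_spec hξ).1.2 η hη
  have h2 := (ZFSet.pair_mem_prod.1 ((FF_spec hξ).1.1 h1)).2
  obtain ⟨m, rfl⟩ := mem_omega_iff.1 h2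
  exact ⟨m, mem_EE.2 ⟨ξ, hξ, η, hη, m, h1, rfl⟩⟩

/-- The countable subsets of the first uncountable ordinal of the ground model are bounded. -/
theorem regular {P : Type} [Preorder P] [OrderTop P] (hP : CCC P) (π : Pkg P)
    (h1 : Om1 ∈ π.Z) (hE : EE ∈ π.Z) {ρ : ZFSet.{0}} (hρ : ρ ∈ π.W)
    (hf : ZFSet.IsFunc ZFSet.omega (π.hat Om1) ρ) :
    ∃ δ ∈ π.hat Om1, ∀ n y, pair n y ∈ ρ → y ∈ δ := by
  have hM := π.isZF_W
  have hB := hM.base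
  have hOW : π.hat Om1 ∈ π.W := π.V_subset_W (π.of_hat_mem_V h1)
  have hEW : π.hat EE ∈ π.W := π.V_subset_W (π.of_hat_mem_V hE)
  have hωW : ZFSet.omega ∈ π.W := hM.infinity
  have hωωW : ZFSet.prod ZFSet.omega ZFSet.omega ∈ π.W := hM.prod_mem hωW hωW
  have hωZ : ZFSet.prod ZFSet.omega ZFSet.omega ∈ π.Z := π.prod_Z π.omega_Z π.omega_Z
  -- the relation
  have hd : Dfn π.W π.W fun w : Fin 1 → ZFSet.{0} => ∃ n ∈ ZFSet.omega, ∃ m ∈ ZFSet.omega,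
      ∃ y ∈ π.hat Om1, ∃ b ∈ π.hat Om1, w 0 = pair (pair n m) b ∧ pair n y ∈ ρ ∧
        pair (pair y m) b ∈ π.hat EE := by
    (repeat' first
      | assumption
      | exact DfnF.proj _
      | exact DfnF.const (by assumption)
      | apply Dfn.not | apply Dfn.and | apply Dfn.or | apply Dfn.imp | apply Dfn.iff
      | apply hB.bex | apply hB.ball | apply Dfn.ex | apply Dfn.all
      | apply Dfn.eq | apply Dfn.mem | apply hB.pair')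
  have hR := hM.sep_mem (Q := fun z => ∃ n ∈ ZFSet.omega, ∃ m ∈ ZFSet.omega,
      ∃ y ∈ π.hat Om1, ∃ b ∈ π.hat Om1, z = pair (pair n m) b ∧ pair n y ∈ ρ ∧
        pair (pair y m) b ∈ π.hat EE) hd (hM.prod_mem hωωW hOW)
  set R := ZFSet.sep (fun z => ∃ n ∈ ZFSet.omega, ∃ m ∈ ZFSet.omega,
      ∃ y ∈ π.hat Om1, ∃ b ∈ π.hat Om1, z = pair (pair n m) b ∧ pair n y ∈ ρ ∧
        pair (pair y m) b ∈ π.hat EE)
        (ZFSet.prod (ZFSet.prod ZFSet.omega ZFSet.omega) (π.hat Om1)) with hRdef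
  have hhω : π.hat (ZFSet.prod ZFSet.omega ZFSet.omega) = ZFSet.prod ZFSet.omega ZFSet.omega := by
    rw [π.hat_prod π.omega_Z π.omega_Z, π.hat_omega]
  have hnot : ¬ ∀ b ∈ π.hat Om1, ∃ a ∈ π.hat (ZFSet.prod ZFSet.omega ZFSet.omega),
      pair a b ∈ R := by
    intro hc
    have h2 := covering hP π hωZ h1 hR (by
      intro a _ b _ b' _ hb hb'
      rw [hRdef, ZFSet.mem_sep] at hb hb'
      obtain ⟨-, n, -, m, -, y, -, c, -, h3, h4, h5⟩ := hb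
      obtain ⟨-, n', -, m', -, y', -, c', -, h3', h4', h5'⟩ := hb'
      obtain ⟨rfl, rfl⟩ := ZFSet.pair_inj.1 h3
      obtain ⟨h6, rfl⟩ := ZFSet.pair_inj.1 h3'
      obtain ⟨rfl, rfl⟩ := ZFSet.pair_inj.1 h6
      obtain rfl := fun_unique hf h4 h4'
      obtain ⟨a1, ha1, b1, hb1, h7, rfl, h8⟩ := π.of_pair_mem_hat hE h5
      obtain ⟨a2, ha2, b2, hb2, h9, rfl, h10⟩ := π.of_pair_mem_hat hE h5'
      rw [h7] at h9
      obtain rfl := (π.hat_inj ha1 ha2).1 h9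
      rw [EE_fun h8 h10]) hc
    rw [card_prod, card_omega, card_Om1, Cardinal.aleph0_mul_aleph0,
      Cardinal.aleph0_mul_aleph0] at h2
    exact absurd h2 (not_le.2 Cardinal.aleph0_lt_aleph_one)
  push Not at hnot
  obtain ⟨b, hb, h2⟩ := hnot
  obtain ⟨η, hη, hηZ, rfl⟩ := π.mem_hat.1 hb
  have hsZ : sc η ∈ π.Z := π.insert_Z hηZ hηZ
  refine ⟨π.hat (sc η), (π.hat_mem_hat hsZ h1).2 (sc_mem_Om1 hη), fun n y hny => ?_⟩
  obtain ⟨hn, hy⟩ := ZFSet.pair_mem_prod.1 (hf.1 hny)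
  obtain ⟨ξ, hξ, hξZ, rfl⟩ := π.mem_hat.1 hy
  rw [π.hat_mem_hat hξZ hsZ]
  have h3 : η ∉ ξ := by
    intro h4
    obtain ⟨m, h5⟩ := EE_ex hξ h4
    have h6 : pair (pair (π.hat ξ) (nat m)) (π.hat η) ∈ π.hat EE := by
      have h7 := (π.pair_mem_hat (π.pair_mem_Z hξZ (π.nat_Z m)) hηZ hE).2 h5
      rwa [π.hat_pair hξZ (π.nat_Z m), π.hat_nat] at h7
    refine h2 (pair n (nat m)) ?_ ?_
    · rw [hhω]
      exact ZFSet.pair_mem_prod.2 ⟨hn, nat_mem_omega m⟩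
    · rw [hRdef, ZFSet.mem_sep]
      refine ⟨ZFSet.pair_mem_prod.2 ⟨ZFSet.pair_mem_prod.2 ⟨hn, nat_mem_omega m⟩, hb⟩,
        n, hn, nat m, nat_mem_omega m, _, hy, _, hb, rfl, hny, h6⟩
  have hξo := ord_Om1.mem hξ
  have hηo := ord_Om1.mem hη
  unfold sc
  rw [ZFSet.mem_insert_iff]
  rcases hξo.mem_trichotomous hηo with h | h | h
  · exact Or.inr h
  · exact Or.inl h
  · exact absurd h h3

end Pool.Agent.Q212.UT
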