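import Pool.Agent.Q211.SY.Seq
import Pool.Agent.Q212.UT2

/-!
# Finitely supported rearrangements
-/

set_option autoImplicit false
set_option linter.unreachableTactic false
set_option linter.unusedTactic false

namespace Pool.Agent.Q212.UT

open Pool.Agent.W868 Pool.Agent.Q211.SY
open ZFSet (pair)

/-- Equality. -/
theorem isE_eq {M : Set ZFSet.{0}} : IsE M fun s t => s = t where
  refl _ := rfl
  symm _ _ h := h.symm
  trans _ _ _ h h' := h.trans h'
  dfn := Dfn.eq (DfnF.proj 0) (DfnF.proj 1)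
  rng := by
    rintro X Y s t h - rfl
    exact h
  cmp := by
    rintro X s t F - - rfl
    rfl

/-- The graph of a permutation. -/
noncomputable def pg (π : Equiv.Perm ℕ) : ZFSet.{0} :=
  ZFSet.range fun n : ℕ => pair (nat n) (nat (π n))

theorem mem_pg {π : Equiv.Perm ℕ} {n m : ℕ} : pair (nat n) (nat m) ∈ pg π ↔ m = π n := by
  rw [pg, ZFSet.mem_range]
  constructor
  · rintro ⟨k, hk⟩
    obtain ⟨h1, h2⟩ := ZFSet.pair_inj.1 hk
    have h3 := nat_injective h1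
    subst h3
    exact (nat_injective h2).symm
  · rintro rfl
    exact ⟨n, rfl⟩

theorem isFunc_pg {π : Equiv.Perm ℕ} : ZFSet.IsFunc ZFSet.omega ZFSet.omega (pg π) := by
  refine ⟨fun p hp => ?_, fun n hn => ?_⟩
  · obtain ⟨k, rfl⟩ := ZFSet.mem_range.1 hp
    exact ZFSet.pair_mem_prod.2 ⟨nat_mem_omega _, nat_mem_omega _⟩
  · obtain ⟨k, rfl⟩ := mem_omega_iff.1 hn
    refine ⟨nat (π k), mem_pg.2 rfl, fun y hy => ?_⟩
    obtain ⟨l, hl⟩ := ZFSet.mem_range.1 hy
    obtain ⟨h1, h2⟩ := ZFSet.pair_inj.1 hl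
    have h3 := nat_injective h1
    subst h3
    exact h2.symm

theorem isBij_pg {π : Equiv.Perm ℕ} : IsBij ZFSet.omega ZFSet.omega (pg π) := by
  refine ⟨⟨isFunc_pg, ?_⟩, ?_⟩
  · intro a b c ha hb
    obtain ⟨k, hk⟩ := ZFSet.mem_range.1 ha
    obtain ⟨l, hl⟩ := ZFSet.mem_range.1 hb
    obtain ⟨rfl, rfl⟩ := ZFSet.pair_inj.1 hk
    obtain ⟨rfl, h1⟩ := ZFSet.pair_inj.1 hl
    rw [π.injective (nat_injective h1)]
  · intro b hb
    obtain ⟨k, rfl⟩ := mem_omega_iff.1 hb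
    exact ⟨nat (π.symm k), nat_mem_omega _, mem_pg.2 (π.apply_symm_apply k).symm⟩

theorem fin_bound {π : Equiv.Perm ℕ} (h : {n | π n ≠ n}.Finite) : ∃ k, ∀ n, k ≤ n → π n = n := by
  obtain ⟨k, hk⟩ := h.bddAbove
  refine ⟨k + 1, fun n hn => ?_⟩
  by_contra h1
  have h2 := hk (show n ∈ {n | π n ≠ n} from h1)
  omega

theorem fin_of_bound {π : Equiv.Perm ℕ} {k : ℕ} (h : ∀ n, k ≤ n → π n = n) :
    {n | π n ≠ n}.Finite := by
  refine (Set.finite_lt_nat k).subset fun n hn => ?_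
  by_contra h1
  exact hn (h n (not_lt.1 h1))

theorem pg_mem {M : Set ZFSet.{0}} (hM : IsZF M) {π : Equiv.Perm ℕ} (h : {n | π n ≠ n}.Finite) :
    pg π ∈ M := by
  have hB := hM.base
  obtain ⟨k, hk⟩ := fin_bound h
  have h1 : fseq (fun n => nat (π n)) k ∈ M := fseq_mem hM fun i _ => hM.nat_mem _
  have hkM := hM.nat_mem k
  have hω := hM.infinity
  have h2 : pg π = ZFSet.sep (fun z => z ∈ fseq (fun n => nat (π n)) k ∨
      ∃ n ∈ ZFSet.omega, n ∉ nat k ∧ z = pair n n) (ZFSet.prod ZFSet.omega ZFSet.omega) := by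
    ext z
    rw [ZFSet.mem_sep]
    constructor
    · intro hz
      refine ⟨isFunc_pg.1 hz, ?_⟩
      obtain ⟨n, rfl⟩ := ZFSet.mem_range.1 hz
      by_cases hn : n < k
      · exact Or.inl (pair_mem_fseq.2 ⟨hn, rfl⟩)
      · refine Or.inr ⟨nat n, nat_mem_omega n, fun h3 => hn (nat_mem_nat.1 h3), ?_⟩
        rw [hk n (not_lt.1 hn)]
    · rintro ⟨-, h3 | ⟨n, hn, h4, rfl⟩⟩
      · obtain ⟨i, -, rfl⟩ := mem_fseq.1 h3
        exact mem_pg.2 rfl
      · obtain ⟨n, rfl⟩ := mem_omega_iff.1 hn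
        exact mem_pg.2 (hk n (not_lt.1 fun h5 => h4 (nat_mem_nat.2 h5))).symm
  rw [h2]
  refine hM.sep_mem ?_ (hM.prod_mem hω hω)
  (repeat' first
    | assumption
    | exact DfnF.proj _
    | exact DfnF.const (by assumption)
    | apply Dfn.not | apply Dfn.and | apply Dfn.or | apply Dfn.imp | apply Dfn.iff
    | apply hB.bex | apply hB.ball | apply Dfn.ex | apply Dfn.all
    | apply Dfn.eq | apply Dfn.mem | apply hB.pair')

/-- Permutations from bijections. -/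
theorem exists_perm {p : ZFSet.{0}} (h : IsBij ZFSet.omega ZFSet.omega p) :
    ∃ π : Equiv.Perm ℕ, ∀ n m : ℕ, pair (nat n) (nat m) ∈ p ↔ m = π n := by
  have h1 : ∀ n : ℕ, ∃ m : ℕ, pair (nat n) (nat m) ∈ p := by
    intro n
    obtain ⟨y, hy, -⟩ := h.1.1.2 _ (nat_mem_omega n)
    obtain ⟨m, rfl⟩ := mem_omega_iff.1 (ZFSet.pair_mem_prod.1 (h.1.1.1 hy)).2
    exact ⟨m, hy⟩
  choose f hf using h1
  have hinj : Function.Injective f := by
    intro a b hab
    have h2 := hf b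
    rw [← hab] at h2
    exact nat_injective (h.1.2 _ _ _ (hf a) h2)
  have hsurj : Function.Surjective f := by
    intro b
    obtain ⟨a, ha, hab⟩ := h.2 _ (nat_mem_omega b)
    obtain ⟨a, rfl⟩ := mem_omega_iff.1 ha
    exact ⟨a, nat_injective (fun_unique h.1.1 (hf a) hab)⟩
  refine ⟨Equiv.ofBijective f ⟨hinj, hsurj⟩, fun n m => ?_⟩
  change pair (nat n) (nat m) ∈ p ↔ m = f n
  constructor
  · intro h2
    exact nat_injective (fun_unique h.1.1 h2 (hf n))
  · rintro rfl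
    exact hf n

theorem rearr_iff {M : Set ZFSet.{0}} (hM : IsZF M) {s t : ZFSet.{0}} (hs : s ∈ M) (ht : t ∈ M) :
    Rearr s t ↔ ∃ p ∈ M, (IsBij ZFSet.omega ZFSet.omega p ∧
      ∃ k ∈ ZFSet.omega, ∀ n ∈ ZFSet.omega, n ∉ k → pair n n ∈ p) ∧
      ∀ n ∈ ZFSet.omega, ∀ m ∈ ZFSet.omega, pair n m ∈ p →
        ∀ x ∈ M, pair n x ∈ t ↔ pair m x ∈ s := by
  constructor
  · rintro ⟨π, h1, h2⟩
    obtain ⟨k, hk⟩ := fin_bound h1
    refine ⟨pg π, pg_mem hM h1, ⟨isBij_pg, nat k, nat_mem_omega k, fun n hn hnk => ?_⟩, ?_⟩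
    · obtain ⟨n, rfl⟩ := mem_omega_iff.1 hn
      exact mem_pg.2 (hk n (not_lt.1 fun h5 => hnk (nat_mem_nat.2 h5))).symm
    · intro n hn m hm hnm x _
      obtain ⟨n, rfl⟩ := mem_omega_iff.1 hn
      obtain ⟨m, rfl⟩ := mem_omega_iff.1 hm
      obtain rfl := mem_pg.1 hnm
      exact h2 n x
  · rintro ⟨p, hp, ⟨h1, k, hk, h2⟩, h3⟩
    obtain ⟨π, h4⟩ := exists_perm h1
    obtain ⟨k, rfl⟩ := mem_omega_iff.1 hk
    refine ⟨π, fin_of_bound (k := k) fun n hn => ?_, fun n x => ?_⟩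
    · have h5 := h2 _ (nat_mem_omega n) fun h6 => not_lt.2 hn (nat_mem_nat.1 h6)
      exact ((h4 n n).1 h5).symm
    · have h5 := h3 _ (nat_mem_omega n) _ (nat_mem_omega (π n)) ((h4 _ _).2 rfl)
      constructor
      · intro h6
        exact (h5 x (hM.of_pair_mem (hM.trans _ ht _ h6)).2).1 h6
      · intro h6
        exact (h5 x (hM.of_pair_mem (hM.trans _ hs _ h6)).2).2 h6

theorem isE_rearr {M : Set ZFSet.{0}} (hM : IsZF M) : IsE M Rearr where
  refl s := by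
    refine ⟨1, ?_, fun n x => Iff.rfl⟩
    refine fin_of_bound (k := 0) fun n _ => rfl
  symm := by
    rintro s t ⟨π, h1, h2⟩
    obtain ⟨k, hk⟩ := fin_bound h1
    refine ⟨π.symm, fin_of_bound (k := k) fun n hn => ?_, fun n x => ?_⟩
    · rw [Equiv.symm_apply_eq, hk n hn]
    · rw [h2, Equiv.apply_symm_apply]
  trans := by
    rintro s t u ⟨π, h1, h2⟩ ⟨ρ, h3, h4⟩
    obtain ⟨k, hk⟩ := fin_bound h1
    obtain ⟨l, hl⟩ := fin_bound h3
    refine ⟨π * ρ, fin_of_bound (k := max k l) fun n hn => ?_, fun n x => ?_⟩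
    · rw [Equiv.Perm.mul_apply, hl n (le_of_max_le_right hn), hk n (le_of_max_le_left hn)]
    · rw [h4, h2, Equiv.Perm.mul_apply]
  dfn := by
    have hB := hM.base
    have hω := hM.infinity
    refine Dfn.congr (R := fun w : Fin 2 → ZFSet.{0} => ∃ p ∈ M,
      (IsBij ZFSet.omega ZFSet.omega p ∧
        ∃ k ∈ ZFSet.omega, ∀ n ∈ ZFSet.omega, n ∉ k → pair n n ∈ p) ∧
        ∀ n ∈ ZFSet.omega, ∀ m ∈ ZFSet.omega, pair n m ∈ p →
          ∀ x ∈ M, pair n x ∈ w 1 ↔ pair m x ∈ w 0) ?_ ?_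
    · apply Dfn.ex
      refine Dfn.and (Dfn.and (hB.isBij' (DfnF.const hω) (DfnF.const hω) (DfnF.proj 0)) ?_) ?_
      · (repeat' first
        | assumption
        | exact DfnF.proj _
        | exact DfnF.const (by assumption)
        | apply Dfn.not | apply Dfn.and | apply Dfn.or | apply Dfn.imp | apply Dfn.iff
        | apply hB.bex | apply hB.ball | apply Dfn.ex | apply Dfn.all
        | apply Dfn.eq | apply Dfn.mem | apply hB.pair')
      · (repeat' first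
        | assumption
        | exact DfnF.proj _
        | exact DfnF.const (by assumption)
        | apply Dfn.not | apply Dfn.and | apply Dfn.or | apply Dfn.imp | apply Dfn.iff
        | apply hB.bex | apply hB.ball | apply Dfn.ex | apply Dfn.all
        | apply Dfn.eq | apply Dfn.mem | apply hB.pair')
    · intro v hv
      exact (rearr_iff hM (hv 0) (hv 1)).symm
  rng := by
    rintro X Y s t hs ht ⟨π, -, h2⟩
    refine isFunc_range ht fun n x hx => ?_
    obtain ⟨k, rfl⟩ := mem_omega_iff.1 (ZFSet.pair_mem_prod.1 (ht.1 hx)).1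
    exact (ZFSet.pair_mem_prod.1 (hs.1 ((h2 k x).1 hx))).2
  cmp := by
    rintro X s t F hs ht ⟨π, h1, h2⟩
    refine ⟨π, h1, fun n y => ?_⟩
    rw [pair_mem_cm hs, pair_mem_cm ht]
    constructor
    · rintro ⟨x, hx, rfl⟩
      exact ⟨x, (h2 n x).1 hx, rfl⟩
    · rintro ⟨x, hx, rfl⟩
      exact ⟨x, (h2 n x).2 hx, rfl⟩

/-- The algebra of the countably branching trees. -/
theorem isTrees {M : Set ZFSet.{0}} (hM : IsZF M) {κ : ZFSet.{0}} (hκ : IsKap M κ) :
    IsTrees M (Tr M (fun s t => s = t) κ) ∅ (al M (fun s t => s = t) κ) := by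
  refine ⟨isAlg hM isE_eq hκ, fun B m β h => ?_⟩
  refine initial hM isE_eq hκ h ?_
  rintro s - t - - - rfl b hb
  exact hb

/-- The algebra of the weakly unordered trees. -/
theorem isWTrees {M : Set ZFSet.{0}} (hM : IsZF M) {κ : ZFSet.{0}} (hκ : IsKap M κ) :
    IsWeaklyUnorderedTrees M (Tr M Rearr κ) ∅ (al M Rearr κ) := by
  have hE := isE_rearr hM
  refine ⟨isAlg hM hE hκ, ?_, fun B m β h h' => ?_⟩
  · intro s _ t ht _ ht' hst a ha
    exact al_inv hE ht ht' hst ha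
  · exact initial hM hE hκ h h'

end Pool.Agent.Q212.UT
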