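import Pool.Agent.Q212.UT1
import Pool.Agent.Q212.UT2a
import Pool.Agent.Q212.UT3

/-!
# The homomorphism is not surjective
-/

set_option autoImplicit false
set_option linter.unreachableTactic false
set_option linter.unusedTactic false

namespace Pool.Agent.Q212.UT

open Pool.Agent.W868 Pool.Agent.W868.PName Pool.Agent.Q211.SY
open ZFSet (pair)

/-- The finitely supported permutations are countable. -/
instance : Countable Fy := by
  have h : ∀ ρ : Fy, Set.Finite {n | ρ.1 n ≠ n} := fun ρ => ρ.2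
  let f : Fy → Finset (ℕ × ℕ) := fun ρ => (h ρ).toFinset.image fun n => (n, ρ.1 n)
  have hf : Function.Injective f := by
    intro ρ σ hρσ
    refine Subtype.ext (Equiv.ext fun n => ?_)
    have key : ∀ ρ σ : Fy, f ρ = f σ → ρ.1 n ≠ n → ρ.1 n = σ.1 n := by
      intro ρ σ h1 h2
      have h3 : (n, ρ.1 n) ∈ f ρ :=
        Finset.mem_image.2 ⟨n, (Set.Finite.mem_toFinset _).2 h2, rfl⟩
      rw [h1] at h3
      obtain ⟨m, -, h4⟩ := Finset.mem_image.1 h3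
      obtain ⟨rfl, h5⟩ := Prod.mk.inj h4
      exact h5.symm
    by_cases h1 : ρ.1 n = n
    · by_cases h2 : σ.1 n = n
      · rw [h1, h2]
      · exact (key σ ρ hρσ.symm h2).symm
    · exact key ρ σ hρσ h1
  exact hf.countable

/-- The packages that contain the relevant names. -/
structure IsMod (π : Pkg P) : Prop where
  cl : SU.Cld π
  cn : CN ∈ π.N
  xn : ∀ n ρ, xn n ρ ∈ π.N
  om : Om1 ∈ π.Z
  ee : EE ∈ π.Z

theorem exists_mod : ∃ π : Pkg P, IsMod π := by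
  obtain ⟨π, h1, -, h3, -⟩ := Sys.exists_cld SU
    ({CN, check Om1, check EE} ∪ Set.range fun t : ℕ × Fy => xn t.1 t.2)
    ((Set.toFinite _).countable.union (Set.countable_range _)) ∅ Set.countable_empty ⊤
  exact ⟨π, h3, h1 (Or.inl (by simp)), fun n ρ => h1 (Or.inr ⟨(n, ρ), rfl⟩),
    h1 (Or.inl (by simp)), h1 (Or.inl (by simp))⟩

theorem ccc : CCC P := fun s _ => s.to_countable

section

variable {π : Pkg P} (h : IsMod π)

include h

theorem IsMod.zf : IsZF (SU.Ms π) := T_ZF.isZF h.cl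

omit h in
theorem Ms_W : SU.Ms π ⊆ π.W := by
  rintro _ ⟨x, hx, rfl⟩
  exact ⟨x, hx.1, rfl⟩

omit h in
theorem hat_Ms {x : ZFSet.{0}} (hx : x ∈ π.Z) : π.hat x ∈ SU.Ms π :=
  Sys.mem_Ms hx (SU.hs_check x)

theorem IsMod.kap : IsKap (SU.Ms π) (π.hat Om1) where
  mem := hat_Ms h.om
  ord := π.hat_isOrdinal ord_Om1
  zero := by
    have h1 : (∅ : ZFSet.{0}) ∈ Om1 := by
      refine Ordinal.mem_toZFSet_iff.2 ⟨0, ?_, Ordinal.toZFSet_zero⟩
      rw [Cardinal.lt_ord, Ordinal.card_zero]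
      exact Cardinal.aleph_pos 1
    have h2 := (π.hat_mem_hat π.empty_Z h.om).2 h1
    rwa [π.hat_empty] at h2
  reg := fun ρ hρ hf => regular ccc π h.om h.ee (Ms_W hρ) hf

/-- The real numbers. -/
theorem IsMod.xs_mem (n : ℕ) (ρ : Fy) : π.val (UT.xn n ρ) ∈ SU.Ms π :=
  Sys.mem_Ms (h.xn n ρ) (hs_xn n ρ)

theorem IsMod.C_mem : π.val CN ∈ SU.Ms π := Sys.mem_Ms h.cn hs_CN

theorem IsMod.pair_C (n : ℕ) (ρ : Fy) : pair (nat n) (π.val (UT.xn n ρ)) ∈ π.val CN :=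
  (mem_CN π).2 ⟨n, ρ, h.xn n ρ, rfl⟩

end

open Classical in
/-- The function from `ω` that codes a real number. -/
noncomputable def yy (t x : ZFSet.{0}) : ZFSet.{0} :=
  gr (fun i => if i ∈ x then t else ∅) ZFSet.omega

theorem pair_mem_yy {t x i y : ZFSet.{0}} : pair i y ∈ yy t x ↔
    i ∈ ZFSet.omega ∧ ((i ∈ x ∧ y = t) ∨ (i ∉ x ∧ y = ∅)) := by
  rw [yy, pair_mem_gr]
  refine and_congr Iff.rfl ?_
  by_cases h : i ∈ x
  · simp [h]
  · simp [h]

theorem isFunc_yy {T t x : ZFSet.{0}} (h0 : ∅ ∈ T) (h1 : t ∈ T) :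
    ZFSet.IsFunc ZFSet.omega T (yy t x) := by
  refine ⟨fun p hp => ?_, fun i hi => ?_⟩
  · obtain ⟨i, hi, rfl⟩ := mem_gr.1 hp
    refine ZFSet.pair_mem_prod.2 ⟨hi, ?_⟩
    split_ifs
    · exact h1
    · exact h0
  · by_cases hx : i ∈ x
    · refine ⟨t, pair_mem_yy.2 ⟨hi, Or.inl ⟨hx, rfl⟩⟩, fun y hy => ?_⟩
      rcases (pair_mem_yy.1 hy).2 with h2 | h2
      · exact h2.2
      · exact absurd hx h2.1
    · refine ⟨∅, pair_mem_yy.2 ⟨hi, Or.inr ⟨hx, rfl⟩⟩, fun y hy => ?_⟩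
      rcases (pair_mem_yy.1 hy).2 with h2 | h2
      · exact absurd h2.1 hx
      · exact h2.2

theorem dfn_yy {M : Set ZFSet.{0}} (hM : IsZF M) {t : ZFSet.{0}} (ht : t ∈ M) :
    DfnF M M fun w : Fin 1 → ZFSet.{0} => yy t (w 0) := by
  have hB := hM.base
  refine hM.im' (h := fun i v => pair i (@ite _ (i ∈ v 0) (Classical.propDecidable _) t ∅))
    (DfnF.const hM.infinity) ?_
  refine hB.pair' (DfnF.proj 0) (DfnF.ite ?_ (DfnF.const ht) (DfnF.const hM.empty_mem))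
  exact Dfn.mem (DfnF.proj 0) (DfnF.proj 1)

/-- The homomorphism from the trees to the weakly unordered trees is not surjective. -/
theorem not_surj {π : Pkg P} (h : IsMod π) : ∃ τ ∈ Tr (SU.Ms π) Rearr (π.hat Om1),
    ∀ f ∈ SU.Ms π, IsHom (Tr (SU.Ms π) (fun s t => s = t) (π.hat Om1)) ∅
      (al (SU.Ms π) (fun s t => s = t) (π.hat Om1)) (Tr (SU.Ms π) Rearr (π.hat Om1)) ∅
      (al (SU.Ms π) Rearr (π.hat Om1)) f → ∀ w, pair w τ ∉ f := by
  have hM := h.zf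
  have hB := hM.base
  have hκ := h.kap
  have hE := isE_rearr hM
  have hQ : IsE (SU.Ms π) fun s t => s = t := isE_eq
  set M := SU.Ms π with hMdef
  set κ := π.hat Om1 with hκdef
  have hTM := Tr_mem hM hE hκ
  have hWM := Tr_mem hM hQ hκ
  have h0 := empty_mem_Tr (E := Rearr) hκ
  set T := Tr M Rearr κ with hT
  set W := Tr M (fun s t => s = t) κ with hW
  have hω := hM.infinity
  have h0M := hM.empty_mem
  -- the tree t1
  set c0 := gr (fun _ => ∅) ZFSet.omega with hc0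
  have hc0M : c0 ∈ M := gr_mem hM (DfnF.const hM.empty_mem) hω
  have hc0f : ZFSet.IsFunc ZFSet.omega T c0 := by
    refine ⟨fun p hp => ?_, fun n hn => ?_⟩
    · obtain ⟨i, hi, rfl⟩ := mem_gr.1 hp
      exact ZFSet.pair_mem_prod.2 ⟨hi, h0⟩
    · exact ⟨∅, pair_mem_gr.2 ⟨hn, rfl⟩, fun y hy => (pair_mem_gr.1 hy).2⟩
  set t1 := cls M Rearr T c0 with ht1
  have ht1T : t1 ∈ T := cls_mem_Tr hM hE hκ hc0M hc0f
  have ht1M : t1 ∈ M := hM.trans _ hTM _ ht1T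
  have ht10 : t1 ≠ ∅ := cls_ne hE hc0M hc0f
  -- the functions yy
  have hyyf : ∀ x, ZFSet.IsFunc ZFSet.omega T (yy t1 x) := fun x => isFunc_yy h0 ht1T
  have hyd := dfn_yy hM ht1M
  have hyyM : ∀ x ∈ M, yy t1 x ∈ M := fun x hx => hyd.1 (fun _ => x) fun _ => hx
  have hrr : ∀ n (ρ σ : Fy), Rearr (yy t1 (π.val (UT.xn n ρ))) (yy t1 (π.val (UT.xn n σ))) := by
    intro n ρ σ
    refine ⟨(ρ⁻¹ * σ : Fy).1, (ρ⁻¹ * σ : Fy).2, fun k y => ?_⟩
    have key : nat k ∈ π.val (UT.xn n σ) ↔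
        nat ((ρ⁻¹ * σ : Fy).1 k) ∈ π.val (UT.xn n ρ) := by
      rw [mem_xn, mem_xn]
      have h1 : ρ.1 ((ρ⁻¹ * σ : Fy).1 k) = σ.1 k := by
        have h2 : ((ρ * (ρ⁻¹ * σ) : Fy)).1 k = σ.1 k := by rw [mul_inv_cancel_left]
        exact h2
      constructor
      · rintro ⟨l, hl, hj⟩
        obtain rfl := nat_injective hl
        exact ⟨_, rfl, by rw [h1]; exact hj⟩
      · rintro ⟨l, hl, hj⟩
        obtain rfl := nat_injective hl
        rw [h1] at hj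
        exact ⟨_, rfl, hj⟩
    rw [pair_mem_yy, pair_mem_yy, key]
    have h3 := nat_mem_omega k
    have h4 := nat_mem_omega ((ρ⁻¹ * σ : Fy).1 k)
    simp only [h3, h4, true_and]
  -- the sequence
  set F : ZFSet.{0} → ZFSet.{0} := fun p => pair (fs p) (cls M Rearr T (yy t1 (sn p))) with hF
  have hFd : DfnF M M fun w : Fin 1 → ZFSet.{0} => F (w 0) := by
    refine hB.pair' (hM.fs' (DfnF.proj 0)) ?_
    refine DfnF.comp1 (f := fun s => cls M Rearr T s) (dfn_cls hM hE hTM) ?_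
    exact DfnF.comp1 (f := yy t1) hyd (hM.sn' (DfnF.proj 0))
  set S := im F (π.val CN) with hS
  have hSM : S ∈ M := hM.im_mem h.C_mem hFd
  have hSmem : ∀ z, z ∈ S ↔ ∃ n : ℕ, z = pair (nat n) (cls M Rearr T
      (yy t1 (π.val (UT.xn n 1)))) := by
    intro z
    rw [hS, mem_im]
    constructor
    · rintro ⟨p, hp, rfl⟩
      obtain ⟨n, ρ, -, rfl⟩ := (mem_CN π).1 hp
      refine ⟨n, ?_⟩
      change pair (fs (pair _ _)) (cls M Rearr T (yy t1 (sn (pair _ _)))) = _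
      rw [fs_pair, sn_pair, cls_of_E hE (hrr n ρ 1)]
    · rintro ⟨n, rfl⟩
      refine ⟨_, h.pair_C n 1, ?_⟩
      change _ = pair (fs (pair _ _)) (cls M Rearr T (yy t1 (sn (pair _ _))))
      rw [fs_pair, sn_pair]
  have hyT : ∀ n ρ, cls M Rearr T (yy t1 (π.val (UT.xn n ρ))) ∈ T := fun n ρ =>
    cls_mem_Tr hM hE hκ (hyyM _ (h.xs_mem n ρ)) (hyyf _)
  have hSf : ZFSet.IsFunc ZFSet.omega T S := by
    refine ⟨fun p hp => ?_, fun n hn => ?_⟩
    · obtain ⟨n, rfl⟩ := (hSmem _).1 hp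
      exact ZFSet.pair_mem_prod.2 ⟨nat_mem_omega n, hyT n 1⟩
    · obtain ⟨n, rfl⟩ := mem_omega_iff.1 hn
      refine ⟨_, (hSmem _).2 ⟨n, rfl⟩, fun y hy => ?_⟩
      obtain ⟨m, hm⟩ := (hSmem _).1 hy
      obtain ⟨h1, h2⟩ := ZFSet.pair_inj.1 hm
      obtain rfl := nat_injective h1
      exact h2
  refine ⟨cls M Rearr T S, cls_mem_Tr hM hE hκ hSM hSf, fun f hf hhom w hw => ?_⟩
  -- decomposition of elements
  have hdec : ∀ w v, pair w v ∈ f → v ≠ ∅ → ∃ s ∈ M, ZFSet.IsFunc ZFSet.omega W s ∧ w = {s} ∧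
      ZFSet.IsFunc ZFSet.omega T (cm (ap f) s) ∧ cm (ap f) s ∈ M ∧
      v = cls M Rearr T (cm (ap f) s) := by
    intro w v hwv hv
    obtain ⟨hwW, hvT⟩ := ZFSet.pair_mem_prod.1 (hhom.func.1 hwv)
    rcases mem_Tr hQ hκ hwW with rfl | ⟨s, hs, hsf, rfl⟩
    · exact absurd (fun_unique hhom.func hwv hhom.leaf) hv
    · have h1 : ∀ n x, pair n x ∈ s → ap f x ∈ T ∧ pair x (ap f x) ∈ f := by
        intro n x hx
        obtain ⟨y, hy, h2⟩ := fun_exists hhom.func (ZFSet.pair_mem_prod.1 (hsf.1 hx)).2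
        rw [ap_func hhom.func h2]
        exact ⟨hy, h2⟩
      have h2 : ZFSet.IsFunc ZFSet.omega T (cm (ap f) s) := isFunc_cm hsf fun n x hx =>
        (h1 n x hx).1
      have h3 : cm (ap f) s ∈ M := cm_mem hM (hM.ap' (DfnF.const hf) (DfnF.proj 0)) hs
      refine ⟨s, hs, hsf, ?_, h2, h3, ?_⟩
      · ext t
        rw [mem_cls, ZFSet.mem_singleton]
        constructor
        · exact fun h4 => h4.2.symm
        · rintro rfl
          exact ⟨⟨hs, hsf⟩, rfl⟩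
      · have h4 := hhom.node s _ (cm (ap f) s) _ (pair_mem_al.2 ⟨⟨hs, hsf⟩, rfl⟩)
          (pair_mem_al.2 ⟨⟨h3, h2⟩, rfl⟩) (by
            intro n x y hx hy
            exact (pair_mem_cm hsf).2 ⟨x, hx, (ap_func hhom.func hy).symm⟩)
        exact fun_unique hhom.func hwv h4
  obtain ⟨s, hs, hsf, -, h1, h2, h3⟩ := hdec w _ hw (cls_ne hE hSM hSf)
  have h4 : Rearr (cm (ap f) s) S := hE.symm _ _ (E_of_cls hE h2 h1 h3)
  obtain ⟨ϖ, hϖ, h5⟩ := h4
  -- the choice function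
  set D : ZFSet.{0} → ZFSet.{0} := fun v => ZFSet.sep (fun i => ∃ s' ∈ v,
    pair i t1 ∈ cm (ap f) s') ZFSet.omega with hD
  set H : ZFSet.{0} → ZFSet.{0} := fun n => D (ap s (ap (pg ϖ) n)) with hH
  have hpM : pg ϖ ∈ M := pg_mem hM hϖ
  have hDd : DfnF M M fun w : Fin 1 → ZFSet.{0} => D (w 0) := by
    refine hM.sep' (Q := fun i v => ∃ s' ∈ v 0, pair i t1 ∈ cm (ap f) s') (DfnF.const hω) ?_
    refine hB.bex (DfnF.proj 1) ?_
    refine Dfn.mem (hB.pair' (DfnF.proj 1) (DfnF.const ht1M)) ?_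
    refine cm' hM (H := fun x _ => ap f x) ?_ (DfnF.proj 0)
    exact hM.ap' (DfnF.const hf) (hM.sn' (DfnF.proj 0))
  have hHd : DfnF M M fun w : Fin 1 → ZFSet.{0} => H (w 0) := by
    refine DfnF.comp1 (f := D) hDd ?_
    exact hM.ap' (DfnF.const hs) (hM.ap' (DfnF.const hpM) (DfnF.proj 0))
  have hd : gr H ZFSet.omega ∈ M := gr_mem hM hHd hω
  have key : ∀ n : ℕ, ∃ ρ, H (nat n) = π.val (UT.xn n ρ) := by
    intro n
    have h6 := (h5 n _).1 ((hSmem _).2 ⟨n, rfl⟩)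
    obtain ⟨w', h7, h8⟩ := (pair_mem_cm hsf).1 h6
    have h9 : ap (pg ϖ) (nat n) = nat (ϖ n) := ap_func isFunc_pg (mem_pg.2 rfl)
    have h10 : ap s (nat (ϖ n)) = w' := ap_func hsf h7
    have h11 : pair w' (ap f w') ∈ f := by
      obtain ⟨y, -, h12⟩ := fun_exists hhom.func (ZFSet.pair_mem_prod.1 (hsf.1 h7)).2
      rwa [ap_func hhom.func h12]
    rw [← h8] at h11
    obtain ⟨s', hs', hsf', rfl, h12, h13, h14⟩ := hdec _ _ h11
      (cls_ne hE (hyyM _ (h.xs_mem n 1)) (hyyf _))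
    have h15 : Rearr (yy t1 (π.val (UT.xn n 1))) (cm (ap f) s') := E_of_cls hE h13 h12 h14
    obtain ⟨ρ, hρ, h16⟩ := h15
    refine ⟨⟨ρ, hρ⟩, ?_⟩
    change D (ap s (ap (pg ϖ) (nat n))) = _
    rw [h9, h10]
    ext z
    change z ∈ ZFSet.sep _ _ ↔ _
    rw [ZFSet.mem_sep, mem_xn]
    constructor
    · rintro ⟨hz, s2, hs2, h17⟩
      obtain rfl := ZFSet.mem_singleton.1 hs2
      obtain ⟨k, rfl⟩ := mem_omega_iff.1 hz
      have h18 := (pair_mem_yy.1 ((h16 k _).1 h17)).2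
      rcases h18 with h18 | h18
      · obtain ⟨l, hl, hj⟩ := (mem_xn π).1 h18.1
        obtain rfl := nat_injective hl
        exact ⟨k, rfl, hj⟩
      · exact absurd h18.2 ht10
    · rintro ⟨k, rfl, hj⟩
      refine ⟨nat_mem_omega k, s', ZFSet.mem_singleton.2 rfl, ?_⟩
      refine (h16 k _).2 (pair_mem_yy.2 ⟨nat_mem_omega _, Or.inl ⟨?_, rfl⟩⟩)
      exact (mem_xn π).2 ⟨ρ k, rfl, hj⟩
  refine no_choice h.cl h.cn ⟨gr H ZFSet.omega, hd, fun n hn => ?_⟩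
  obtain ⟨n, rfl⟩ := mem_omega_iff.1 hn
  obtain ⟨ρ, hρ⟩ := key n
  refine ⟨π.val (UT.xn n ρ), h.xs_mem n ρ, ?_, h.pair_C n ρ, fun y _ hy => ?_⟩
  · exact pair_mem_gr.2 ⟨nat_mem_omega n, hρ.symm⟩
  · rw [(pair_mem_gr.1 hy).2, hρ]

/-- There is a countable transitive model of ZF in which the homomorphism from the countably
branching trees to the countably branching weakly unordered trees is not surjective. -/
theorem main : ∃ M : Set ZFSet.{0}, M.Countable ∧ IsZF M ∧ ∃ W l α T l' τ,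
    IsTrees M W l α ∧ IsWeaklyUnorderedTrees M T l' τ ∧
    ∃ t ∈ T, ∀ f ∈ M, IsHom W l α T l' τ f → ∀ w, pair w t ∉ f := by
  obtain ⟨π, h⟩ := exists_mod
  refine ⟨SU.Ms π, ?_, h.zf, _, _, _, _, _, _, isTrees h.zf h.kap, isWTrees h.zf h.kap,
    not_surj h⟩
  exact (π.countable_W).mono Ms_W

end Pool.Agent.Q212.UT
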