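import Mathlib

/-!
# Linear algebra over the field with two elements
-/

set_option autoImplicit false

namespace Pool.Agent.Q212.VL

/-- The field with two elements. -/
abbrev F2 : Type := ZMod 2

/-- The vector space. -/
abbrev Vs : Type := ℕ →₀ F2

instance : Countable Vs := inferInstance

/-- The automorphisms. -/
abbrev Gl : Type := Vs ≃ₗ[F2] Vs

/-- The finite-dimensional subspaces. -/
abbrev Sb : Type := {E : Submodule F2 Vs // FiniteDimensional F2 E}

theorem rank_Vs : Module.rank F2 Vs = Cardinal.aleph0 := by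
  simp

theorem rank_compl {H C : Submodule F2 Vs} (hH : FiniteDimensional F2 H) (h : IsCompl H C) :
    Module.rank F2 C = Cardinal.aleph0 := by
  have h1 : Module.rank F2 H + Module.rank F2 C = Module.rank F2 Vs := by
    have h2 := (Submodule.prodEquivOfIsCompl H C h).rank_eq
    have : Module.Free F2 H := Module.Free.of_divisionRing F2 H
    have : Module.Free F2 C := Module.Free.of_divisionRing F2 C
    rw [← h2]
    exact (rank_prod' (R := F2) (M := H) (M₁ := C)).symm
  rw [rank_Vs] at h1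
  have h2 : Module.rank F2 H < Cardinal.aleph0 := Module.rank_lt_aleph0 F2 H
  refine le_antisymm ?_ ?_
  · rw [← h1]
    exact self_le_add_left _ _
  · by_contra h3
    push Not at h3
    have h4 := Cardinal.add_lt_aleph0 h2 h3
    rw [h1] at h4
    exact lt_irrefl _ h4

/-- Extension of injective maps. -/
theorem exists_ext {H : Submodule F2 Vs} (hH : FiniteDimensional F2 H) (j : Vs →ₗ[F2] Vs)
    (hj : ∀ v ∈ H, j v = 0 → v = 0) : ∃ g : Gl, ∀ v ∈ H, g v = j v := by
  obtain ⟨C, hC⟩ := Submodule.exists_isCompl H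
  have hinj : Function.Injective (j.domRestrict H) := by
    rw [injective_iff_map_eq_zero]
    intro a ha
    exact Subtype.ext (hj a.1 a.2 ha)
  let H' := LinearMap.range (j.domRestrict H)
  have hH' : FiniteDimensional F2 H' := inferInstance
  obtain ⟨C', hC'⟩ := Submodule.exists_isCompl H'
  let e1 : H ≃ₗ[F2] H' := LinearEquiv.ofInjective (j.domRestrict H) hinj
  have hr : Module.rank F2 C = Module.rank F2 C' := by
    rw [rank_compl hH hC, rank_compl hH' hC']
  obtain ⟨e2⟩ := nonempty_linearEquiv_of_rank_eq hr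
  refine ⟨(Submodule.prodEquivOfIsCompl H C hC).symm.trans ((e1.prodCongr e2).trans
    (Submodule.prodEquivOfIsCompl H' C' hC')), fun v hv => ?_⟩
  have h1 : (Submodule.prodEquivOfIsCompl H C hC).symm v = (⟨v, hv⟩, 0) := by
    exact Submodule.prodEquivOfIsCompl_symm_apply_left (p := H) (q := C) hC ⟨v, hv⟩
  rw [LinearEquiv.trans_apply, LinearEquiv.trans_apply, h1]
  rw [Submodule.coe_prodEquivOfIsCompl']
  have h2 : ((e1.prodCongr e2) (⟨v, hv⟩, 0)).2 = 0 := map_zero e2
  have h3 : (((e1.prodCongr e2) (⟨v, hv⟩, 0)).1 : Vs) = j v := rfl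
  rw [h2, h3, ZeroMemClass.coe_zero, add_zero]

/-- General position. -/
theorem exists_gp {E H K : Submodule F2 Vs} (hH : FiniteDimensional F2 H)
    (hK : FiniteDimensional F2 K) (hEH : E ≤ H) :
    ∃ g : Gl, (∀ v ∈ E, g v = v) ∧ ∀ v ∈ H, g v ∈ K → v ∈ E := by
  have hE : FiniteDimensional F2 E := Submodule.finiteDimensional_of_le hEH
  obtain ⟨D, hD⟩ := Submodule.exists_isCompl E
  -- a complement of `H ⊔ K`
  obtain ⟨C, hC⟩ := Submodule.exists_isCompl (H ⊔ K)
  have hHK : FiniteDimensional F2 (H ⊔ K : Submodule F2 Vs) := inferInstance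
  have hr : Module.rank F2 C = Module.rank F2 Vs := by rw [rank_compl hHK hC, rank_Vs]
  obtain ⟨e⟩ := nonempty_linearEquiv_of_rank_eq hr.symm
  -- the map
  let n : Vs →ₗ[F2] Vs := C.subtype ∘ₗ e.toLinearMap ∘ₗ D.subtype ∘ₗ
    (Submodule.projectionOnto D E hD.symm)
  have hn : ∀ v, n v ∈ C := fun v => (e _).2
  have hn0 : ∀ v, n v = 0 ↔ v ∈ E := by
    intro v
    constructor
    · intro h
      have h1 : e (D.subtype (Submodule.projectionOnto D E hD.symm v)) = 0 :=
        Subtype.ext h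
      have h2 : D.subtype (Submodule.projectionOnto D E hD.symm v) = 0 := by
        rwa [LinearEquiv.map_eq_zero_iff] at h1
      have h3 : Submodule.projectionOnto D E hD.symm v = 0 := Subtype.ext h2
      exact (Submodule.projectionOnto_apply_eq_zero_iff hD.symm).1 h3
    · intro h
      have h3 := (Submodule.projectionOnto_apply_eq_zero_iff hD.symm).2 h
      change ((e (D.subtype (Submodule.projectionOnto D E hD.symm v)) : C) : Vs) = 0
      rw [h3]
      simp
  have key : ∀ v ∈ H, v + n v ∈ H ⊔ K → v ∈ E := by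
    intro v hv h
    have h1 : n v ∈ H ⊔ K := by
      have h2 := Submodule.sub_mem _ h (Submodule.mem_sup_left hv : v ∈ H ⊔ K)
      rwa [add_sub_cancel_left] at h2
    have h2 : n v ∈ (H ⊔ K) ⊓ C := ⟨h1, hn v⟩
    rw [hC.inf_eq_bot, Submodule.mem_bot] at h2
    exact (hn0 v).1 h2
  obtain ⟨g, hg⟩ := exists_ext hH (LinearMap.id + n) (by
    intro v hv h
    have h1 : v + n v = 0 := h
    have h2 : v ∈ E := key v hv (h1 ▸ Submodule.zero_mem _)
    rw [(hn0 v).2 h2, add_zero] at h1
    exact h1)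
  refine ⟨g, fun v hv => ?_, fun v hv h => ?_⟩
  · rw [hg v (hEH hv)]
    change v + n v = v
    rw [(hn0 v).2 hv, add_zero]
  · rw [hg v hv] at h
    exact key v hv (Submodule.mem_sup_right h)

/-- The gluing lemma. -/
theorem exists_glue {E E' : Submodule F2 Vs} (hE : FiniteDimensional F2 E)
    (hE' : FiniteDimensional F2 E') (t s : Gl) (ht : ∀ v ∈ E ⊓ E', t v = v)
    (hs : ∀ v ∈ E ⊓ E', s v = v)
    (hd : ∀ a ∈ E, ∀ b ∈ E', t a = s b → a ∈ E ⊓ E') :
    ∃ g : Gl, (∀ v ∈ E, g v = t v) ∧ ∀ v ∈ E', g v = s v := by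
  -- a projection
  obtain ⟨C, hC1, hC2⟩ : ∃ C, Disjoint (E ⊓ E') C ∧ (E ⊓ E') ⊔ C = E' := by
    obtain ⟨D, hD⟩ := Submodule.exists_isCompl (E ⊓ E')
    refine ⟨D ⊓ E', hD.disjoint.mono_right inf_le_left, ?_⟩
    rw [← sup_inf_assoc_of_le D (inf_le_right : E ⊓ E' ≤ E'), hD.sup_eq_top, top_inf_eq]
  have hEC : Disjoint E C := by
    rw [Submodule.disjoint_def]
    intro x hx hxC
    have h1 : x ∈ E' := hC2 ▸ Submodule.mem_sup_right hxC
    exact Submodule.disjoint_def.1 hC1 x ⟨hx, h1⟩ hxC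
  obtain ⟨D, hCD, hD'⟩ := hEC.symm.exists_isCompl
  have hD : IsCompl E D := hD'.symm
  let p : Vs →ₗ[F2] Vs := E.subtype ∘ₗ (Submodule.projectionOnto E D hD)
  have hp1 : ∀ v ∈ E, p v = v := by
    intro v hv
    change ((Submodule.projectionOnto E D hD (⟨v, hv⟩ : E) : E) : Vs) = v
    rw [Submodule.projectionOnto_apply_left]
  have hp2 : ∀ v ∈ E', p v ∈ E ⊓ E' := by
    intro v hv
    rw [← hC2] at hv
    obtain ⟨a, ha, c, hc, rfl⟩ := Submodule.mem_sup.1 hv
    have h1 : p c = 0 := by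
      have h2 := (Submodule.projectionOnto_apply_eq_zero_iff hD).2 (hCD hc)
      change ((Submodule.projectionOnto E D hD c : E) : Vs) = 0
      rw [h2]
      rfl
    rw [map_add, h1, add_zero, hp1 a ha.1]
    exact ha
  let j : Vs →ₗ[F2] Vs := s.toLinearMap + (t.toLinearMap - s.toLinearMap) ∘ₗ p
  have hj : ∀ v, j v = s v + (t (p v) - s (p v)) := fun v => rfl
  have hjE : ∀ v ∈ E, j v = t v := by
    intro v hv
    rw [hj, hp1 v hv, add_sub_cancel]
  have hjE' : ∀ v ∈ E', j v = s v := by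
    intro v hv
    rw [hj, ht _ (hp2 v hv), hs _ (hp2 v hv), sub_self, add_zero]
  have hsup : FiniteDimensional F2 (E ⊔ E' : Submodule F2 Vs) := inferInstance
  obtain ⟨g, hg⟩ := exists_ext hsup j (by
    intro v hv h
    obtain ⟨a, ha, b, hb, rfl⟩ := Submodule.mem_sup.1 hv
    rw [map_add, hjE a ha, hjE' b hb] at h
    have h1 : t a = s (-b) := by
      rw [map_neg]
      exact eq_neg_of_add_eq_zero_left h
    have h2 := hd a ha (-b) (Submodule.neg_mem _ hb) h1
    rw [ht a h2] at h1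
    have h3 : s a = s (-b) := by rw [hs a h2, h1]
    have h4 := s.injective h3
    rw [h4, neg_add_cancel])
  refine ⟨g, fun v hv => ?_, fun v hv => ?_⟩
  · rw [hg v (Submodule.mem_sup_left hv), hjE v hv]
  · rw [hg v (Submodule.mem_sup_right hv), hjE' v hv]

end Pool.Agent.Q212.VL
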