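import Pool.Agent.Q211.SY.Hul
import Pool.Agent.Q212.VL1

/-!
# Cohen reals indexed by a vector space: the symmetric system and supports
-/

set_option autoImplicit false
set_option linter.unusedSectionVars false

namespace Pool.Agent.Q212.VL

open Pool.Agent.W868 Pool.Agent.W868.PName Pool.Agent.Q211.SY
open ZFSet (pair)

noncomputable section

/-- The atomic conditions. -/
abbrev At : Type := (Vs × ℕ) × Bool

/-- A finite partial function. -/
def Ok (s : Finset At) : Prop := ∀ x b b', (x, b) ∈ s → (x, b') ∈ s → b = b'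

/-- The notion of forcing. -/
def P : Type := {s : Finset At // Ok s}

instance : Countable P := inferInstanceAs (Countable {s : Finset At // Ok s})

namespace P

instance : Preorder P where
  le p q := q.1 ⊆ p.1
  le_refl _ := Finset.Subset.refl _
  le_trans _ _ _ h1 h2 := Finset.Subset.trans h2 h1

theorem le_def {p q : P} : p ≤ q ↔ q.1 ⊆ p.1 := Iff.rfl

theorem ok_empty : Ok ∅ := fun _ _ _ h => absurd h (Finset.notMem_empty _)

instance : OrderTop P where
  top := ⟨∅, ok_empty⟩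
  le_top _ := Finset.empty_subset _

theorem ext' {p q : P} (h : ∀ a, a ∈ p.1 ↔ a ∈ q.1) : p = q :=
  Subtype.ext (Finset.ext h)

theorem not_mem_top {a : At} : a ∉ (⊤ : P).1 := Finset.notMem_empty _

end P

/-! ### The action -/

/-- The action on the atoms. -/
def mv (g : Gl) (a : At) : At := ((g a.1.1, a.1.2), a.2)

theorem mv_mul (g h : Gl) (a : At) : mv (g * h) a = mv g (mv h a) := rfl

theorem mv_one (a : At) : mv 1 a = a := rfl

theorem mv_inv (g : Gl) (a : At) : mv g (mv g⁻¹ a) = a := by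
  rw [← mv_mul, mul_inv_cancel, mv_one]

theorem inv_mv (g : Gl) (a : At) : mv g⁻¹ (mv g a) = a := by
  rw [← mv_mul, inv_mul_cancel, mv_one]

theorem mem_img {g : Gl} {s : Finset At} {a : At} :
    a ∈ s.image (mv g) ↔ mv g⁻¹ a ∈ s := by
  rw [Finset.mem_image]
  constructor
  · rintro ⟨b, hb, rfl⟩
    rwa [inv_mv]
  · intro h
    exact ⟨_, h, mv_inv g a⟩

/-- The action on the conditions. -/
def sm (g : Gl) (p : P) : P :=
  ⟨p.1.image (mv g), by
    intro x b b' h1 h2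
    rw [mem_img] at h1 h2
    exact p.2 ((g⁻¹ : Gl) x.1, x.2) _ _ h1 h2⟩

theorem mem_sm {g : Gl} {p : P} {a : At} : a ∈ (sm g p).1 ↔ mv g⁻¹ a ∈ p.1 := mem_img

/-- Elements of the translate. -/
theorem mem_sm' {g : Gl} {p : P} {u : Vs} {n : ℕ} {b : Bool} :
    ((u, n), b) ∈ (sm g p).1 ↔ ∃ v, u = g v ∧ ((v, n), b) ∈ p.1 := by
  rw [sm, Finset.mem_image]
  constructor
  · rintro ⟨⟨⟨v, m⟩, c⟩, h1, h2⟩
    unfold mv at h2
    obtain ⟨h3, rfl⟩ := Prod.mk.inj h2
    obtain ⟨rfl, rfl⟩ := Prod.mk.inj h3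
    exact ⟨v, rfl, h1⟩
  · rintro ⟨v, rfl, h⟩
    exact ⟨_, h, rfl⟩

theorem sm_mul (g h : Gl) (p : P) : sm (g * h) p = sm g (sm h p) := by
  refine P.ext' fun a => ?_
  rw [mem_sm, mem_sm, mem_sm, mul_inv_rev, mv_mul]

theorem sm_one (p : P) : sm 1 p = p := by
  refine P.ext' fun a => ?_
  rw [mem_sm, inv_one, mv_one]

theorem sm_le {g : Gl} {p q : P} (h : p ≤ q) : sm g p ≤ sm g q := by
  intro a ha
  rw [mem_sm] at ha ⊢
  exact h ha

/-- The action as a homomorphism to the automorphisms. -/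
def ac : Gl →* (P ≃o P) where
  toFun g :=
    { toFun := sm g
      invFun := sm g⁻¹
      left_inv := fun p => by rw [← sm_mul, inv_mul_cancel, sm_one]
      right_inv := fun p => by rw [← sm_mul, mul_inv_cancel, sm_one]
      map_rel_iff' := by
        intro p q
        constructor
        · intro h
          have h1 : sm g⁻¹ (sm g p) ≤ sm g⁻¹ (sm g q) := sm_le h
          rwa [← sm_mul, ← sm_mul, inv_mul_cancel, sm_one, sm_one] at h1
        · exact fun h => sm_le h }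
  map_one' := RelIso.ext fun p => sm_one p
  map_mul' g h := RelIso.ext fun p => sm_mul g h p

theorem ac_app (g : Gl) (p : P) : ac g p = sm g p := rfl

theorem sm_top (g : Gl) : sm g ⊤ = ⊤ := by
  refine P.ext' fun a => ?_
  rw [mem_sm]
  exact ⟨fun h => absurd h P.not_mem_top, fun h => absurd h P.not_mem_top⟩

/-- The stabilizer of a subspace. -/
def Hb (E : Submodule F2 Vs) : Subgroup Gl where
  carrier := {g | ∀ v ∈ E, g v = v}
  mul_mem' := by
    intro a b ha hb v hv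
    have h1 : (a * b) v = a (b v) := rfl
    rw [h1, hb v hv, ha v hv]
  one_mem' := fun _ _ => rfl
  inv_mem' := by
    intro a ha v hv
    have h1 : a⁻¹ (a v) = v := by
      have : (a⁻¹ * a) v = v := by rw [inv_mul_cancel]; rfl
      exact this
    rwa [ha v hv] at h1

theorem mem_Hb {E : Submodule F2 Vs} {g : Gl} : g ∈ Hb E ↔ ∀ v ∈ E, g v = v := Iff.rfl

theorem Hb_mono {E E' : Submodule F2 Vs} (h : E ≤ E') : Hb E' ≤ Hb E :=
  fun _ hg v hv => hg v (h hv)

theorem inv_app' (g : Gl) (v : Vs) : g⁻¹ (g v) = v := by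
  have : (g⁻¹ * g) v = v := by rw [inv_mul_cancel]; rfl
  exact this

theorem app_inv' (g : Gl) (v : Vs) : g (g⁻¹ v) = v := by
  have : (g * g⁻¹) v = v := by rw [mul_inv_cancel]; rfl
  exact this

/-- The translate of a subspace. -/
abbrev tr (g : Gl) (E : Submodule F2 Vs) : Submodule F2 Vs := E.map g.toLinearMap

theorem mem_tr {g : Gl} {E : Submodule F2 Vs} {v : Vs} : v ∈ tr g E ↔ ∃ u ∈ E, g u = v :=
  Submodule.mem_map

theorem fin_tr (g : Gl) {E : Submodule F2 Vs} (hE : FiniteDimensional F2 E) :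
    FiniteDimensional F2 (tr g E) := inferInstance

/-- The symmetric system. -/
def SL : Sys P where
  G := Gl
  grp := inferInstance
  ac := ac
  top g := sm_top g
  F := {H | ∃ E : Submodule F2 Vs, FiniteDimensional F2 E ∧ H = Hb E}
  ne := ⟨_, ⊥, inferInstance, rfl⟩
  conj := by
    rintro _ ⟨E, hE, rfl⟩ g
    refine ⟨_, ⟨tr g E, fin_tr g hE, rfl⟩, fun k hk v hv => ?_⟩
    have h1 : (g⁻¹ * k * g) v = g⁻¹ (k (g v)) := rfl
    rw [h1, hk (g v) (mem_tr.2 ⟨v, hv, rfl⟩), inv_app']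
  dir := by
    rintro _ ⟨E, hE, rfl⟩ _ ⟨E', hE', rfl⟩
    exact ⟨_, ⟨E ⊔ E', inferInstance, rfl⟩, Hb_mono le_sup_left, Hb_mono le_sup_right⟩

/-- The name `x` is fixed by the stabilizer of `E`. -/
abbrev Fx (E : Submodule F2 Vs) (x : PName P) : Prop := SL.Fix (Hb E) x

/-- The action on the names. -/
abbrev ap (g : Gl) (x : PName P) : PName P := act (ac g) x

theorem sym_iff {x : PName P} : SL.Sym x ↔ ∃ E : Submodule F2 Vs, FiniteDimensional F2 E ∧ Fx E x := by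
  constructor
  · rintro ⟨H, ⟨E, hE, rfl⟩, h⟩
    exact ⟨E, hE, h⟩
  · rintro ⟨E, hE, h⟩
    exact ⟨_, ⟨E, hE, rfl⟩, h⟩

theorem ap_mul (g h : Gl) (x : PName P) : ap (g * h) x = ap g (ap h x) := by
  unfold ap
  rw [map_mul, act_mul]

theorem ap_one (x : PName P) : ap 1 x = x := by
  unfold ap
  rw [map_one, act_one]

theorem feq_ap {g : Gl} {x y : PName P} {p : P} (h : Feq x y p) :
    Feq (ap g x) (ap g y) (sm g p) := feq_act' h

theorem fmem_ap {g : Gl} {x y : PName P} {p : P} (h : Fmem x y p) :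
    Fmem (ap g x) (ap g y) (sm g p) := fmem_act' h

theorem Fx.mono {E E' : Submodule F2 Vs} {x : PName P} (h : Fx E x) (hE : E ≤ E') : Fx E' x :=
  Sys.Fix.mono h (Hb_mono hE)

theorem sm_inv_sm (g : Gl) (p : P) : sm g⁻¹ (sm g p) = p := by
  rw [← sm_mul, inv_mul_cancel, sm_one]

theorem sm_sm_inv (g : Gl) (p : P) : sm g (sm g⁻¹ p) = p := by
  rw [← sm_mul, mul_inv_cancel, sm_one]

theorem feq_trans' {x y z : PName P} {p : P} (h1 : Feq x y p) (h2 : Feq y z p) : Feq x z p :=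
  feq_trans h1 h2

/-- Two automorphisms that agree on a support. -/
theorem fx_coset {E : Submodule F2 Vs} {x : PName P} (h : Fx E x) {g k : Gl}
    (hgk : ∀ v ∈ E, g v = k v) (p : P) : Feq (ap g x) (ap k x) p := by
  have h1 : k⁻¹ * g ∈ Hb E := by
    intro v hv
    have h2 : (k⁻¹ * g) v = k⁻¹ (g v) := rfl
    rw [h2, hgk v hv, inv_app']
  have h2 := feq_ap (g := k) (h _ h1 (sm k⁻¹ p))
  change Feq (ap k (ap (k⁻¹ * g) x)) (ap k x) _ at h2
  rwa [← ap_mul, mul_inv_cancel_left, sm_sm_inv] at h2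

theorem fx_ap {E : Submodule F2 Vs} {x : PName P} (h : Fx E x) (g : Gl) :
    Fx (tr g E) (ap g x) := by
  intro (k : Gl) hk p
  have h1 : act (SL.ac k) (ap g x) = ap (k * g) x := (ap_mul k g x).symm
  rw [h1]
  refine fx_coset h (fun v hv => ?_) p
  exact hk (g v) (mem_tr.2 ⟨v, hv, rfl⟩)

/-! ### Conditions -/

/-- The span of the support. -/
def sp (p : P) : Submodule F2 Vs := Submodule.span F2 (p.1.image fun a => a.1.1 : Finset Vs)

instance fin_sp (p : P) : FiniteDimensional F2 (sp p) :=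
  FiniteDimensional.span_finset F2 _

theorem mem_sp {p : P} {u : Vs} {n : ℕ} {b : Bool} (h : ((u, n), b) ∈ p.1) : u ∈ sp p :=
  Submodule.subset_span (Finset.mem_coe.2 (Finset.mem_image.2 ⟨_, h, rfl⟩))

open Classical in
/-- The restriction of a condition. -/
def res (p : P) (E : Submodule F2 Vs) : P :=
  ⟨p.1.filter fun a => a.1.1 ∈ E, fun x b b' h h' =>
    p.2 x b b' (Finset.mem_of_mem_filter _ h) (Finset.mem_of_mem_filter _ h')⟩

theorem mem_res {p : P} {E : Submodule F2 Vs} {a : At} : a ∈ (res p E).1 ↔ a ∈ p.1 ∧ a.1.1 ∈ E := by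
  simp [res]

theorem le_res (p : P) (E : Submodule F2 Vs) : p ≤ res p E := fun _ ha => (mem_res.1 ha).1

theorem res_le {p q : P} (h : p ≤ q) (E : Submodule F2 Vs) : res p E ≤ res q E := fun _ ha =>
  mem_res.2 ⟨h (mem_res.1 ha).1, (mem_res.1 ha).2⟩

/-- The conditions agree. -/
def Cpt (p q : P) : Prop := ∀ u n b b', ((u, n), b) ∈ p.1 → ((u, n), b') ∈ q.1 → b = b'

/-- The union. -/
def un (p q : P) (h : Cpt p q) : P :=
  ⟨p.1 ∪ q.1, by
    rintro ⟨u, n⟩ b b' h1 h2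
    rw [Finset.mem_union] at h1 h2
    rcases h1 with h1 | h1 <;> rcases h2 with h2 | h2
    · exact p.2 _ _ _ h1 h2
    · exact h u n b b' h1 h2
    · exact (h u n b' b h2 h1).symm
    · exact q.2 _ _ _ h1 h2⟩

theorem mem_un {p q : P} {h : Cpt p q} {a : At} : a ∈ (un p q h).1 ↔ a ∈ p.1 ∨ a ∈ q.1 :=
  Finset.mem_union

theorem un_left {p q : P} {h : Cpt p q} : un p q h ≤ p := Finset.subset_union_left

theorem un_right {p q : P} {h : Cpt p q} : un p q h ≤ q := Finset.subset_union_right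

theorem Cpt.un {p q r : P} {h : Cpt p q} (h1 : Cpt p r) (h2 : Cpt q r) : Cpt (un p q h) r := by
  intro u n b b' h3 h4
  rcases mem_un.1 h3 with h5 | h5
  · exact h1 u n b b' h5 h4
  · exact h2 u n b b' h5 h4

/-- The restriction lemma. -/
theorem res_of {Φ : P → Prop} (hm : ∀ p q, q ≤ p → Φ p → Φ q)
    (hd : ∀ p, (∀ q ≤ p, ∃ s ≤ q, Φ s) → Φ p) {F : Submodule F2 Vs}
    (hF : FiniteDimensional F2 F) (hi : ∀ g ∈ Hb F, ∀ p, Φ p → Φ (sm g p)) {r : P} (h : Φ r) :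
    Φ (res r F) := by
  refine hd _ fun q hq => ?_
  obtain ⟨g, hg1, hg2⟩ := exists_gp (E := F) (H := F ⊔ sp r) (K := F ⊔ sp q) inferInstance
    inferInstance le_sup_left
  have hc : Cpt q (sm g r) := by
    intro u n b b' h1 h2
    obtain ⟨v, rfl, h3⟩ := mem_sm'.1 h2
    have h4 : v ∈ F := hg2 v (Submodule.mem_sup_right (mem_sp h3))
      (Submodule.mem_sup_right (mem_sp h1))
    rw [hg1 v h4] at h1
    have h5 : ((v, n), b') ∈ (res r F).1 := mem_res.2 ⟨h3, h4⟩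
    exact q.2 _ _ _ h1 (hq h5)
  exact ⟨un q _ hc, un_left, hm _ _ un_right (hi g hg1 r h)⟩

theorem feq_res {F : Submodule F2 Vs} (hF : FiniteDimensional F2 F) {x y : PName P}
    (hx : Fx F x) (hy : Fx F y) {r : P} (h : Feq x y r) : Feq x y (res r F) := by
  refine res_of (Φ := fun r => Feq x y r) (fun p q hq hp => hp.mono hq)
    (fun p hp => feq_dense hp) hF ?_ h
  intro g hg p hp
  have h1 := feq_ap (g := g) hp
  exact feq_trans ((hx g hg _).symm) (feq_trans h1 (hy g hg _))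

/-! ### The intersection lemma -/

/-- The first step. -/
theorem step0 {E E' : Submodule F2 Vs} (hE : FiniteDimensional F2 E)
    (hE' : FiniteDimensional F2 E') {x y : PName P} (hx : Fx E x) (hy : Fx E' y) {p : P}
    (hp : ∀ u n b, ((u, n), b) ∈ p.1 → u ∈ E ⊔ E') (h : Feq x y p) (t : Gl)
    (ht : ∀ v ∈ E ⊓ E', t v = v) (hd : ∀ a ∈ E, ∀ a' ∈ E, a = t a' → a ∈ E ⊓ E') {s : P}
    (h1 : s ≤ res p E) (h2 : s ≤ sm t (res p E)) : Feq (ap t x) x s := by
  refine feq_dense fun q hq => ?_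
  obtain ⟨g, hg1, hg2⟩ := exists_gp (E := E) (H := E ⊔ E')
    (K := sp q ⊔ E ⊔ tr t E ⊔ E') inferInstance inferInstance le_sup_left
  have hKq : sp q ≤ sp q ⊔ E ⊔ tr t E ⊔ E' :=
    le_trans le_sup_left (le_trans le_sup_left le_sup_left)
  have hKE : E ≤ sp q ⊔ E ⊔ tr t E ⊔ E' :=
    le_trans le_sup_right (le_trans le_sup_left le_sup_left)
  have hKt : tr t E ≤ sp q ⊔ E ⊔ tr t E ⊔ E' := le_trans le_sup_right le_sup_left
  set K := sp q ⊔ E ⊔ tr t E ⊔ E' with hK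
  obtain ⟨g', hg3, hg4⟩ := exists_glue hE hE' t g ht (fun v hv => hg1 v hv.1) (by
    intro a ha b hb hab
    have h3 : b ∈ E := hg2 b (Submodule.mem_sup_right hb) (hab ▸ hKt (mem_tr.2 ⟨a, ha, rfl⟩))
    rw [hg1 b h3, ← ht b ⟨h3, hb⟩] at hab
    rw [t.injective hab]
    exact ⟨h3, hb⟩)
  have hc1 : Cpt q (sm g p) := by
    intro u n b b' h3 h4
    obtain ⟨v, rfl, h5⟩ := mem_sm'.1 h4
    have h6 : v ∈ E := hg2 v (hp _ _ _ h5) (hKq (mem_sp h3))
    rw [hg1 v h6] at h3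
    exact q.2 _ _ _ h3 (hq (h1 (mem_res.2 ⟨h5, h6⟩)))
  have hc2 : Cpt q (sm g' p) := by
    intro u n b b' h3 h4
    obtain ⟨v, rfl, h5⟩ := mem_sm'.1 h4
    obtain ⟨a, ha, c, hc, rfl⟩ := Submodule.mem_sup.1 (hp _ _ _ h5)
    have h6 : g' (a + c) = t a + g c := by rw [map_add, hg3 a ha, hg4 c hc]
    have h7 : g c ∈ K := by
      have h8 : t a + g c ∈ K := h6 ▸ hKq (mem_sp h3)
      have h9 := Submodule.sub_mem _ h8 (hKt (mem_tr.2 ⟨a, ha, rfl⟩))
      change t a + g c - t a ∈ K at h9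
      rwa [add_sub_cancel_left] at h9
    have h8 : c ∈ E := hg2 c (Submodule.mem_sup_right hc) h7
    have h9 : a + c ∈ E := Submodule.add_mem _ ha h8
    have h10 : g' (a + c) = t (a + c) := hg3 _ h9
    rw [h10] at h3
    have h11 : ((t (a + c), n), b') ∈ (sm t (res p E)).1 :=
      mem_sm'.2 ⟨_, rfl, mem_res.2 ⟨h5, h9⟩⟩
    exact q.2 _ _ _ h3 (hq (h2 h11))
  have hc3 : Cpt (sm g p) (sm g' p) := by
    intro u n b b' h3 h4
    obtain ⟨v, rfl, h5⟩ := mem_sm'.1 h3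
    obtain ⟨v', h6, h7⟩ := mem_sm'.1 h4
    obtain ⟨a, ha, c, hc, rfl⟩ := Submodule.mem_sup.1 (hp _ _ _ h5)
    obtain ⟨a', ha', c', hc', rfl⟩ := Submodule.mem_sup.1 (hp _ _ _ h7)
    rw [map_add, map_add, hg1 a ha, hg3 a' ha', hg4 c' hc'] at h6
    have h8 : g (c - c') = t a' - a := by
      rw [map_sub]
      have h9 : g c = t a' + g c' - a := by rw [← h6, add_sub_cancel_left]
      rw [h9]
      abel
    have h9 : c - c' ∈ E := by
      refine hg2 _ (Submodule.mem_sup_right (Submodule.sub_mem _ hc hc')) ?_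
      rw [h8]
      exact Submodule.sub_mem _ (hKt (mem_tr.2 ⟨a', ha', rfl⟩)) (hKE ha)
    rw [hg1 _ h9] at h8
    have h10 : a + (c - c') = t a' := by rw [h8]; abel
    have h11 : a + (c - c') ∈ E ⊓ E' := hd _ (Submodule.add_mem _ ha h9) a' ha' h10
    rw [h10] at h11
    have h12 : t a' = a' := t.injective (ht _ h11)
    have h13 : a + c = a' + c' := by
      rw [← h12, ← h10]
      abel
    rw [h13] at h5
    exact p.2 _ _ _ h5 h7
  have hc4 : Cpt (un q _ hc1) (sm g' p) := Cpt.un hc2 hc3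
  refine ⟨un _ _ hc4, le_trans un_left un_left, ?_⟩
  have e1 : Feq (ap g x) (ap g y) (un _ _ hc4) :=
    (feq_ap (g := g) h).mono (le_trans un_left un_right)
  have e2 : Feq (ap g' x) (ap g' y) (un _ _ hc4) := (feq_ap (g := g') h).mono un_right
  have e3 : Feq (ap g x) x (un _ _ hc4) := hx g hg1 _
  have e4 : Feq (ap g' x) (ap t x) (un _ _ hc4) := fx_coset hx hg3 _
  have e5 : Feq (ap g' y) (ap g y) (un _ _ hc4) := fx_coset hy hg4 _
  exact feq_trans e4.symm (feq_trans e2 (feq_trans e5 (feq_trans e1.symm e3)))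

/-- The second step. -/
theorem step1 {E E' : Submodule F2 Vs} (hE : FiniteDimensional F2 E)
    (hE' : FiniteDimensional F2 E') {x y : PName P} (hx : Fx E x) (hy : Fx E' y) {p : P}
    (hp : ∀ u n b, ((u, n), b) ∈ p.1 → u ∈ E ⊔ E') (h : Feq x y p) (t : Gl)
    (ht : ∀ v ∈ E ⊓ E', t v = v) {s : P}
    (h1 : s ≤ res p E) (h2 : s ≤ sm t (res p E)) : Feq (ap t x) x s := by
  refine feq_dense fun q hq => ?_
  have hE2 : FiniteDimensional F2 (E ⊓ E' : Submodule F2 Vs) :=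
    Submodule.finiteDimensional_of_le (inf_le_left : E ⊓ E' ≤ E)
  obtain ⟨k, hk1, hk2⟩ := exists_gp (E := E ⊓ E') (H := E) (K := sp q ⊔ E ⊔ tr t E) hE
    inferInstance inf_le_left
  have hKq : sp q ≤ sp q ⊔ E ⊔ tr t E := le_trans le_sup_left le_sup_left
  have hKE : E ≤ sp q ⊔ E ⊔ tr t E := le_trans le_sup_right le_sup_left
  have hKt : tr t E ≤ sp q ⊔ E ⊔ tr t E := le_sup_right
  set K := sp q ⊔ E ⊔ tr t E with hK
  have hc : Cpt q (sm k (res p E)) := by
    intro u n b b' h3 h4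
    obtain ⟨v, rfl, h5⟩ := mem_sm'.1 h4
    have h6 := mem_res.1 h5
    have h7 : v ∈ E ⊓ E' := hk2 v h6.2 (hKq (mem_sp h3))
    rw [hk1 v h7] at h3
    exact q.2 _ _ _ h3 (hq (h1 h5))
  refine ⟨un q _ hc, un_left, ?_⟩
  have e1 : Feq (ap k x) x (un q _ hc) := by
    refine step0 hE hE' hx hy hp h k hk1 ?_ (un_left.trans (hq.trans h1)) un_right
    intro a ha a' ha' haa
    have h3 := hk2 a' ha' (haa ▸ hKE ha)
    rw [haa, hk1 a' h3]
    exact h3
  have e2 : Feq (ap (t⁻¹ * k) x) x (sm t⁻¹ (un q _ hc)) := by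
    refine step0 hE hE' hx hy hp h (t⁻¹ * k) ?_ ?_ ?_ ?_
    · intro v hv
      have h3 : (t⁻¹ * k) v = t⁻¹ (k v) := rfl
      rw [h3, hk1 v hv]
      conv_lhs => rw [← ht v hv]
      exact inv_app' t v
    · intro a ha a' ha' haa
      have h3 : (t⁻¹ * k) a' = t⁻¹ (k a') := rfl
      rw [h3] at haa
      have h4 : t a = k a' := by rw [haa, app_inv']
      have h5 := hk2 a' ha' (h4 ▸ hKt (mem_tr.2 ⟨a, ha, rfl⟩))
      rw [hk1 a' h5, ← ht a' h5] at h4
      rw [t.injective h4]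
      exact h5
    · have h3 : sm t⁻¹ (un q _ hc) ≤ sm t⁻¹ (sm t (res p E)) :=
        sm_le (un_left.trans (hq.trans h2))
      rwa [sm_inv_sm] at h3
    · rw [sm_mul]
      exact sm_le un_right
  have e3 := feq_ap (g := t) e2
  rw [← ap_mul, mul_inv_cancel_left, sm_sm_inv] at e3
  exact feq_trans e3.symm e1

/-- Names with a given support. -/
theorem exists_fixed {x : PName P} (hx : SL.HS x) {K : Submodule F2 Vs}
    (hK : FiniteDimensional F2 K) {t : P}
    (h : ∀ g ∈ Hb K, ∀ s, s ≤ t → s ≤ sm g t → Feq (ap g x) x s) :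
    ∃ z, SL.HS z ∧ Fx K z ∧ Feq z x t := by
  let z : PName P := PName.mk
    {j : Gl × x.idx × P // j.1 ∈ Hb K ∧ j.2.2 ≤ sm j.1 (x.cnd j.2.1) ∧ j.2.2 ≤ sm j.1 t}
    (fun j => ap j.1.1 (x.chd j.1.2.1)) (fun j => j.1.2.2)
  have hel : ∀ w c, El z w c ↔ ∃ g ∈ Hb K, ∃ w' c', El x w' c' ∧ w = ap g w' ∧
      c ≤ sm g c' ∧ c ≤ sm g t := by
    intro w c
    rw [el_mk]
    constructor
    · rintro ⟨⟨⟨g, i, s⟩, h1, h2, h3⟩, rfl, rfl⟩
      refine ⟨g, h1, x.chd i, x.cnd i, ?_, rfl, h2, h3⟩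
      have h4 := PName.eta x
      conv => 
        arg 1
        rw [← h4]
      exact el_mk.2 ⟨i, rfl, rfl⟩
    · rintro ⟨g, hg, w', c', hw, rfl, h1, h2⟩
      have h4 := PName.eta x
      rw [← h4] at hw
      obtain ⟨i, rfl, rfl⟩ := el_mk.1 hw
      exact ⟨⟨⟨g, i, c⟩, hg, h1, h2⟩, rfl, rfl⟩
  have hfx : Fx K z := by
    intro (g : Gl) hg p
    refine feq_of_el fun w c => ?_
    rw [el_act]
    constructor
    · rintro ⟨w, c, hw, rfl, rfl⟩
      obtain ⟨k, hk, w', c', hw', rfl, h1, h2⟩ := (hel w c).1 hw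
      refine (hel _ _).2 ⟨g * k, (Hb K).mul_mem hg hk, w', c', hw', (ap_mul g k w').symm, ?_, ?_⟩
      · rw [sm_mul]
        exact sm_le h1
      · rw [sm_mul]
        exact sm_le h2
    · intro hw
      obtain ⟨k, hk, w', c', hw', rfl, h1, h2⟩ := (hel w c).1 hw
      refine ⟨ap (g⁻¹ * k) w', sm g⁻¹ c, (hel _ _).2 ⟨g⁻¹ * k,
        (Hb K).mul_mem ((Hb K).inv_mem hg) hk, w', c', hw', rfl, ?_, ?_⟩, ?_, ?_⟩
      · rw [sm_mul]
        exact sm_le h1
      · rw [sm_mul]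
        exact sm_le h2
      · have h3 := ap_mul g (g⁻¹ * k) w'
        rw [mul_inv_cancel_left] at h3
        exact h3
      · exact (sm_sm_inv g c).symm
  refine ⟨z, SL.hs_iff.2 ⟨sym_iff.2 ⟨K, hK, hfx⟩, fun w c hw => ?_⟩, hfx, ?_⟩
  · obtain ⟨g, -, w', c', hw', rfl, -, -⟩ := (hel w c).1 hw
    exact SL.hs_act (hx.el hw') g
  · rw [feq_iff']
    constructor
    · intro w c hw q hq hqc
      obtain ⟨g, hg, w', c', hw', rfl, h1, h2⟩ := (hel w c).1 hw
      have h3 : Fmem (ap g w') (ap g x) q := by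
        rw [fmem_iff]
        intro r hr
        exact ⟨r, le_rfl, ap g w', sm g c', el_act.2 ⟨w', c', hw', rfl, rfl⟩,
          hr.trans (hqc.trans h1), Feq.refl _ _⟩
      have h4 : Fmem (ap g w') x q :=
        fmem_congr (Feq.refl _ _) (h g hg q hq (hqc.trans h2)) h3
      rw [fmem_iff] at h4
      obtain ⟨s, hs, w2, d, hw2, hd, h5⟩ := h4 q le_rfl
      exact ⟨s, hs, w2, d, hw2, hd, h5⟩
    · intro w c hw q hq hqc
      refine ⟨q, le_rfl, w, q, (hel w q).2 ⟨1, (Hb K).one_mem, w, c, hw, (ap_one w).symm, ?_, ?_⟩,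
        le_rfl, Feq.refl _ _⟩
      · rwa [sm_one]
      · rwa [sm_one]

/-- The intersection lemma. -/
theorem inter {E E' : Submodule F2 Vs} (hE : FiniteDimensional F2 E)
    (hE' : FiniteDimensional F2 E') {x y : PName P} (hsx : SL.HS x) (hx : Fx E x) (hy : Fx E' y)
    {r : P} (h : Feq x y r) : ∃ z, SL.HS z ∧ Fx (E ⊓ E') z ∧ Feq z x r := by
  have hE2 : FiniteDimensional F2 (E ⊓ E' : Submodule F2 Vs) :=
    Submodule.finiteDimensional_of_le (inf_le_left : E ⊓ E' ≤ E)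
  have h1 : Feq x y (res r (E ⊔ E')) :=
    feq_res inferInstance (hx.mono le_sup_left) (hy.mono le_sup_right) h
  obtain ⟨z, hz, hz1, hz2⟩ := exists_fixed hsx (K := E ⊓ E') hE2 (t := res (res r (E ⊔ E')) E)
    fun g hg s hs hs' => step1 hE hE' hx hy (fun u n b hb => (mem_res.1 hb).2) h1 g hg hs hs'
  exact ⟨z, hz, hz1, hz2.mono ((le_res _ _).trans (le_res _ _))⟩

/-- The elements of pairs. -/
theorem pair_supp {E E' : Submodule F2 Vs} (hE' : FiniteDimensional F2 E') (hEE : E ≤ E')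
    {w x : PName P} (hw : Fx E w) (hsx : SL.HS x) (hx : Fx E' x) {q : P} (hm : Fmem x w q)
    (h2 : ∀ s ≤ q, ∀ a b c, SL.HS a → SL.HS b → SL.HS c → Fmem a w s → Fmem b w s →
      Fmem c w s → ∃ s' ≤ s, Feq a b s' ∨ Feq a c s' ∨ Feq b c s') :
    ∃ r ≤ q, ∃ z, SL.HS z ∧ Fx E z ∧ Feq z x r := by
  have hE : FiniteDimensional F2 E := Submodule.finiteDimensional_of_le hEE
  have key : ∀ g k : Gl, (∀ v ∈ E, g v = v) → (∀ v ∈ E, k v = v) →
      (∀ v ∈ E', ∀ v' ∈ E', g v = k v' → v ∈ E) → ∀ s, s ≤ sm g q → Feq (ap g x) (ap k x) s →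
      ∃ r ≤ q, ∃ z, SL.HS z ∧ Fx E z ∧ Feq z x r := by
    intro g k hg hk hgk s hs h
    have h3 := feq_ap (g := g⁻¹) h
    rw [← ap_mul, ← ap_mul, inv_mul_cancel, ap_one] at h3
    obtain ⟨z, hz1, hz2, hz3⟩ := inter hE' (fin_tr (g⁻¹ * k) hE') hsx hx (fx_ap hx _) h3
    refine ⟨_, ?_, z, hz1, hz2.mono ?_, hz3⟩
    · have h4 : sm g⁻¹ s ≤ sm g⁻¹ (sm g q) := sm_le hs
      rwa [sm_inv_sm] at h4
    · rintro v ⟨hv, hv'⟩
      obtain ⟨u, hu, rfl⟩ := mem_tr.1 hv'
      refine hgk _ hv u hu ?_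
      have h5 : (g⁻¹ * k) u = g⁻¹ (k u) := rfl
      rw [h5, app_inv']
  obtain ⟨g, hg1, hg2⟩ := exists_gp (E := E) (H := E' ⊔ sp q) (K := E' ⊔ sp q) inferInstance
    inferInstance (le_trans hEE le_sup_left)
  obtain ⟨k, hk1, hk2⟩ := exists_gp (E := E) (H := E' ⊔ sp q)
    (K := (E' ⊔ sp q) ⊔ tr g (E' ⊔ sp q)) inferInstance inferInstance (le_trans hEE le_sup_left)
  have hc1 : Cpt q (sm g q) := by
    intro u n b b' h3 h4
    obtain ⟨v, rfl, h5⟩ := mem_sm'.1 h4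
    have h6 := hg2 v (Submodule.mem_sup_right (mem_sp h5)) (Submodule.mem_sup_right (mem_sp h3))
    rw [hg1 v h6] at h3
    exact q.2 _ _ _ h3 h5
  have hc2 : Cpt q (sm k q) := by
    intro u n b b' h3 h4
    obtain ⟨v, rfl, h5⟩ := mem_sm'.1 h4
    have h6 := hk2 v (Submodule.mem_sup_right (mem_sp h5))
      (Submodule.mem_sup_left (Submodule.mem_sup_right (mem_sp h3)))
    rw [hk1 v h6] at h3
    exact q.2 _ _ _ h3 h5
  have hc3 : Cpt (sm g q) (sm k q) := by
    intro u n b b' h3 h4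
    obtain ⟨v, rfl, h5⟩ := mem_sm'.1 h3
    obtain ⟨v', h6, h7⟩ := mem_sm'.1 h4
    have h8 := hk2 v' (Submodule.mem_sup_right (mem_sp h7)) (by
      rw [← h6]
      exact Submodule.mem_sup_right (mem_tr.2 ⟨v, Submodule.mem_sup_right (mem_sp h5), rfl⟩))
    rw [hk1 v' h8, ← hg1 v' h8] at h6
    rw [g.injective h6] at h5
    exact q.2 _ _ _ h5 h7
  have hc4 : Cpt (un q _ hc1) (sm k q) := Cpt.un hc2 hc3
  have hwg : ∀ g : Gl, (∀ v ∈ E, g v = v) → Fmem (ap g x) w (sm g q) := by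
    intro g hg
    exact fmem_congr (Feq.refl _ _) (hw g hg _) (fmem_ap (g := g) hm)
  obtain ⟨s, hs, h3⟩ := h2 (un _ _ hc4) (un_left.trans un_left) x (ap g x) (ap k x) hsx
    (SL.hs_act hsx g) (SL.hs_act hsx k) (hm.mono (un_left.trans un_left))
    ((hwg g hg1).mono (un_left.trans un_right)) ((hwg k hk1).mono un_right)
  rcases h3 with h3 | h3 | h3
  · refine key 1 g (fun v _ => rfl) hg1 ?_ s ?_ (by rwa [ap_one])
    · intro v hv v' hv' h4
      have h5 : v = g v' := h4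
      have h6 := hg2 v' (Submodule.mem_sup_left hv') (h5 ▸ Submodule.mem_sup_left hv)
      rw [h5, hg1 v' h6]
      exact h6
    · rw [sm_one]
      exact hs.trans (un_left.trans un_left)
  · refine key 1 k (fun v _ => rfl) hk1 ?_ s ?_ (by rwa [ap_one])
    · intro v hv v' hv' h4
      have h5 : v = k v' := h4
      have h6 := hk2 v' (Submodule.mem_sup_left hv')
        (h5 ▸ Submodule.mem_sup_left (Submodule.mem_sup_left hv))
      rw [h5, hk1 v' h6]
      exact h6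
    · rw [sm_one]
      exact hs.trans (un_left.trans un_left)
  · refine key g k hg1 hk1 ?_ s (hs.trans (un_left.trans un_right)) h3
    intro v hv v' hv' h4
    have h6 := hk2 v' (Submodule.mem_sup_left hv')
      (h4 ▸ Submodule.mem_sup_right (mem_tr.2 ⟨v, Submodule.mem_sup_left hv, rfl⟩))
    rw [hk1 v' h6, ← hg1 v' h6] at h4
    rw [g.injective h4]
    exact h6

end

end Pool.Agent.Q212.VL
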