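import Pool.Agent.Q211.SY.Frc
import Pool.Agent.Q211.SY.Ud
import Pool.Agent.Q211.SY.Seq
import Pool.Agent.Q212.VL2

/-!
# Choice functions for families of pairs
-/

set_option autoImplicit false
set_option linter.unusedSectionVars false
set_option linter.unreachableTactic false
set_option linter.unusedTactic false

namespace Pool.Agent.Q212.VL

open Pool.Agent.W868 Pool.Agent.W868.PName Pool.Agent.Q211.SY
open ZFSet (pair)

noncomputable section

/-- The condition separates the vectors of `E`. -/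
def Sep (q : P) (E : Submodule F2 Vs) : Prop := ∀ u ∈ E, ∀ v ∈ E, u ≠ v →
  ∃ n b b', b ≠ b' ∧ ((u, n), b) ∈ q.1 ∧ ((v, n), b') ∈ q.1

theorem Sep.mono {q r : P} {E : Submodule F2 Vs} (h : Sep q E) (hr : r ≤ q) : Sep r E := by
  intro u hu v hv huv
  obtain ⟨n, b, b', h1, h2, h3⟩ := h u hu v hv huv
  exact ⟨n, b, b', h1, hr h2, hr h3⟩

theorem exists_sep (q : P) {E : Submodule F2 Vs} (hE : FiniteDimensional F2 E) :
    ∃ r ≤ q, Sep r E := by
  classical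
  have hfin : Finite E := Module.finite_of_finite F2
  obtain ⟨k, ⟨e⟩⟩ := Finite.exists_equiv_fin E
  -- a bound for the places
  let m : ℕ := (q.1.image fun a => a.1.2).sup id + 1
  have hm : ∀ u n b, ((u, n), b) ∈ q.1 → n < m := by
    intro u n b h
    have h1 : n ∈ q.1.image fun a => a.1.2 := Finset.mem_image.2 ⟨_, h, rfl⟩
    have h2 := Finset.le_sup (f := id) h1
    exact Nat.lt_succ_of_le h2
  have := Fintype.ofFinite E
  let N : Finset At := (Finset.univ : Finset (E × E)).image fun t =>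
    ((t.1.1, m + (e t.2).1), decide (t.1 = t.2))
  have hN : ∀ u n b, ((u, n), b) ∈ N ↔ ∃ s t : E, u = s.1 ∧ n = m + (e t).1 ∧
      b = decide (s = t) := by
    intro u n b
    constructor
    · intro h
      obtain ⟨⟨s, t⟩, -, h2⟩ := Finset.mem_image.1 h
      obtain ⟨h3, rfl⟩ := Prod.mk.inj h2
      obtain ⟨rfl, rfl⟩ := Prod.mk.inj h3
      exact ⟨s, t, rfl, rfl, rfl⟩
    · rintro ⟨s, t, rfl, rfl, rfl⟩
      exact Finset.mem_image.2 ⟨(s, t), Finset.mem_univ _, rfl⟩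
  have hok : Ok (q.1 ∪ N) := by
    rintro ⟨u, n⟩ b b' h1 h2
    rw [Finset.mem_union] at h1 h2
    rcases h1 with h1 | h1 <;> rcases h2 with h2 | h2
    · exact q.2 _ _ _ h1 h2
    · obtain ⟨s, t, rfl, rfl, rfl⟩ := (hN _ _ _).1 h2
      have := hm _ _ _ h1
      omega
    · obtain ⟨s, t, rfl, rfl, rfl⟩ := (hN _ _ _).1 h1
      have := hm _ _ _ h2
      omega
    · obtain ⟨s, t, hs, ht, rfl⟩ := (hN _ _ _).1 h1
      obtain ⟨s', t', hs', ht', rfl⟩ := (hN _ _ _).1 h2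
      have h3 : s = s' := Subtype.ext (hs.symm.trans hs')
      have h4 : t = t' := e.injective (Fin.ext (by omega))
      rw [h3, h4]
  refine ⟨⟨_, hok⟩, Finset.subset_union_left, fun u hu v hv huv => ?_⟩
  refine ⟨m + (e ⟨u, hu⟩).1, true, false, by decide, ?_, ?_⟩
  · refine Finset.mem_union_right _ ((hN _ _ _).2 ⟨⟨u, hu⟩, ⟨u, hu⟩, rfl, rfl, ?_⟩)
    simp
  · refine Finset.mem_union_right _ ((hN _ _ _).2 ⟨⟨v, hv⟩, ⟨u, hu⟩, rfl, rfl, ?_⟩)
    symm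
    rw [decide_eq_false_iff_not]
    intro h
    exact huv (congrArg Subtype.val h).symm

/-- Names for a pair and one of its elements with the least support. -/
structure Nice (w1 w2 : PName P) (q : P) (E : Submodule F2 Vs) (a b : PName P) : Prop where
  hsa : SL.HS a
  hsb : SL.HS b
  fd : FiniteDimensional F2 E
  fa : Fx E a
  fb : Fx E b
  ea : Feq a w1 q
  eb : Feq b w2 q
  mem : Fmem b a q
  least : ∀ E2 : Submodule F2 Vs, FiniteDimensional F2 E2 → ∀ y, SL.HS y → Fx E2 y →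
    ∀ r ≤ q, Feq y a r → E ≤ E2
  sep : Sep q E

theorem Nice.mono {w1 w2 : PName P} {q : P} {E : Submodule F2 Vs} {a b : PName P}
    (h : Nice w1 w2 q E a b) {r : P} (hr : r ≤ q) : Nice w1 w2 r E a b where
  hsa := h.hsa
  hsb := h.hsb
  fd := h.fd
  fa := h.fa
  fb := h.fb
  ea := h.ea.mono hr
  eb := h.eb.mono hr
  mem := h.mem.mono hr
  least E2 h2 y hy hy2 s hs := h.least E2 h2 y hy hy2 s (hs.trans hr)
  sep := h.sep.mono hr

/-- Translates of nice names. -/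
theorem Nice.coset {w1 w2 : PName P} {q : P} {E : Submodule F2 Vs} {a b : PName P}
    (h : Nice w1 w2 q E a b) {g g' : Gl} {r : P} (h1 : r ≤ sm g q) (h2 : r ≤ sm g' q)
    (h3 : Feq (ap g a) (ap g' a) r) (p : P) : Feq (ap g b) (ap g' b) p := by
  have hE := h.fd
  have h4 := feq_ap (g := g⁻¹) h3
  rw [← ap_mul, ← ap_mul, inv_mul_cancel, ap_one] at h4
  have h5 : sm g⁻¹ r ≤ q := by
    have := sm_le (g := g⁻¹) h1
    rwa [sm_inv_sm] at this
  have h6 : sm g⁻¹ r ≤ sm (g⁻¹ * g') q := by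
    rw [sm_mul]
    exact sm_le h2
  set t := g⁻¹ * g' with ht
  have h7 : E ≤ tr t E := h.least _ (fin_tr t hE) _ (SL.hs_act h.hsa t) (fx_ap h.fa t) _ h5 h4.symm
  have h8 : E = tr t E := by
    have hfd := fin_tr t hE
    refine Submodule.eq_of_le_of_finrank_eq h7 ?_
    exact (LinearEquiv.finrank_map_eq t E).symm
  have h9 : ∀ v ∈ E, t v = v := by
    intro v hv
    by_contra hne
    have h10 : t v ∈ E := by
      rw [h8]
      exact mem_tr.2 ⟨v, hv, rfl⟩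
    obtain ⟨n, c, c', hcc, h11, h12⟩ := h.sep _ h10 _ hv hne
    have h13 : ((t v, n), c') ∈ (sm g⁻¹ r).1 := h6 (mem_sm'.2 ⟨v, rfl, h12⟩)
    exact hcc ((sm g⁻¹ r).2 _ _ _ (h5 h11) h13)
  refine fx_coset h.fb (fun v hv => ?_) p
  have h10 : g (t v) = g' v := by
    have h11 : g (t v) = (g * t) v := rfl
    rw [h11, ht, mul_inv_cancel_left]
  rw [← h10, h9 v hv]

/-- Density of the nice conditions. -/
theorem exists_nice {w1 w2 : PName P} (hw1 : SL.HS w1) (hw2 : SL.HS w2) {q : P}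
    (hm : Fmem w2 w1 q) (h2 : ∀ s ≤ q, ∀ a b c, SL.HS a → SL.HS b → SL.HS c → Fmem a w1 s →
      Fmem b w1 s → Fmem c w1 s → ∃ s' ≤ s, Feq a b s' ∨ Feq a c s' ∨ Feq b c s') :
    ∃ r ≤ q, ∃ E a b, Nice w1 w2 r E a b := by
  classical
  let D : Set ℕ := {d | ∃ r ≤ q, ∃ E : Submodule F2 Vs, FiniteDimensional F2 E ∧
    Module.finrank F2 E = d ∧ ∃ y, SL.HS y ∧ Fx E y ∧ Feq y w1 r}
  have hD : ∃ d, d ∈ D := by
    obtain ⟨E, hE, h⟩ := sym_iff.1 hw1.sym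
    exact ⟨_, q, le_rfl, E, hE, rfl, w1, hw1, h, Feq.refl _ _⟩
  obtain ⟨r, hr, E, hE, hd, a, ha, hfa, hea⟩ := Nat.find_spec hD
  have hmin : ∀ s ≤ q, ∀ E' : Submodule F2 Vs, FiniteDimensional F2 E' → ∀ y, SL.HS y →
      Fx E' y → Feq y w1 s → Module.finrank F2 E ≤ Module.finrank F2 E' := by
    intro s hs E' hE' y hy hfy hey
    rw [hd]
    exact Nat.find_min' hD ⟨s, hs, E', hE', rfl, y, hy, hfy, hey⟩
  obtain ⟨E', hE', hf2⟩ := sym_iff.1 hw2.sym
  have hma : Fmem w2 a r := by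
    have h3 := hm.mono hr
    exact fmem_congr (Feq.refl _ _) hea.symm h3
  obtain ⟨s, hs, b, hb, hfb, heb⟩ := pair_supp (E := E) (E' := E ⊔ E') inferInstance le_sup_left
    hfa hw2 (hf2.mono le_sup_right) hma (by
      intro s hs c1 c2 c3 h1 h2' h3 h4 h5 h6
      have key : ∀ c, Fmem c a s → Fmem c w1 s := fun c hc =>
        fmem_congr (Feq.refl _ _) (hea.mono hs) hc
      exact h2 s (hs.trans hr) c1 c2 c3 h1 h2' h3 (key _ h4) (key _ h5) (key _ h6))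
  obtain ⟨t, hts, hsep⟩ := exists_sep s hE
  refine ⟨t, hts.trans (hs.trans hr), E, a, b, ha, hb, hE, hfa, hfb, hea.mono (hts.trans hs),
    heb.mono hts, ?_, ?_, hsep⟩
  · exact fmem_congr (heb.mono hts).symm (Feq.refl _ _) (hma.mono (hts.trans hs))
  · intro E2 hE2 y hy hfy u hu hey
    obtain ⟨z, hz, hfz, hez⟩ := inter hE hE2 ha hfa hfy hey.symm
    have hfd : FiniteDimensional F2 (E ⊓ E2 : Submodule F2 Vs) :=
      Submodule.finiteDimensional_of_le (inf_le_left : E ⊓ E2 ≤ E)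
    have h3 := hmin u (hu.trans (hts.trans (hs.trans hr))) _ hfd z hz hfz
      (feq_trans hez (hea.mono (hu.trans (hts.trans hs))))
    have h4 : E ⊓ E2 = E := Submodule.eq_of_le_of_finrank_le inf_le_left h3
    exact inf_eq_left.1 h4

/-! ### The names -/

/-- The indices. -/
def Jx (F : PName P) : Type :=
  {j : (Σ i : F.idx, (F.chd i).idx) × P //
    ∃ E a b, Nice (F.chd j.1.1) ((F.chd j.1.1).chd j.1.2) j.2 E a b}

/-- The support. -/
def je {F : PName P} (j : Jx F) : Submodule F2 Vs := j.2.choose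

/-- The name of the pair. -/
def ja {F : PName P} (j : Jx F) : PName P := j.2.choose_spec.choose

/-- The name of the element. -/
def jb {F : PName P} (j : Jx F) : PName P := j.2.choose_spec.choose_spec.choose

theorem j_nice {F : PName P} (j : Jx F) : Nice (F.chd j.1.1.1) ((F.chd j.1.1.1).chd j.1.1.2) j.1.2
    (je j) (ja j) (jb j) := j.2.choose_spec.choose_spec.choose_spec

open Classical in
/-- A support. -/
def su (F : PName P) : Submodule F2 Vs :=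
  if h : ∃ E : Submodule F2 Vs, FiniteDimensional F2 E ∧ Fx E F then h.choose else ⊥

theorem su_spec {F : PName P} (h : SL.HS F) : FiniteDimensional F2 (su F) ∧ Fx (su F) F := by
  have h1 := sym_iff.1 h.sym
  rw [su, dif_pos h1]
  exact h1.choose_spec

/-- The name of the relation. -/
def SN (F : PName P) : PName P :=
  PName.mk ({g : Gl // g ∈ Hb (su F)} × Jx F)
    (fun t => opN (check (cd t.2)) (opN (ap t.1.1 (ja t.2)) (ap t.1.1 (jb t.2))))
    (fun t => sm t.1.1 t.2.1.2)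

theorem el_SN {F w : PName P} {c : P} : El (SN F) w c ↔ ∃ g ∈ Hb (su F), ∃ j : Jx F,
    w = opN (check (cd j)) (opN (ap g (ja j)) (ap g (jb j))) ∧ c = sm g j.1.2 := by
  unfold SN
  rw [el_mk]
  constructor
  · rintro ⟨⟨⟨g, hg⟩, j⟩, rfl, rfl⟩
    exact ⟨g, hg, j, rfl, rfl⟩
  · rintro ⟨g, hg, j, rfl, rfl⟩
    exact ⟨⟨⟨g, hg⟩, j⟩, rfl, rfl⟩

theorem hs_SN {F : PName P} (hF : SL.HS F) : SL.HS (SN F) := by
  obtain ⟨hE, -⟩ := su_spec hF
  refine SL.hs_iff.2 ⟨sym_iff.2 ⟨su F, hE, ?_⟩, fun w c hw => ?_⟩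
  · intro (g : Gl) hg p
    refine feq_of_el fun w c => ?_
    rw [el_act]
    constructor
    · rintro ⟨w, c, hw, rfl, rfl⟩
      obtain ⟨k, hk, j, rfl, rfl⟩ := el_SN.1 hw
      refine el_SN.2 ⟨g * k, (Hb _).mul_mem hg hk, j, ?_, (sm_mul g k _).symm⟩
      rw [act_opN (sm_top g), act_opN (sm_top g), act_check (sm_top g), ap_mul, ap_mul]
      rfl
    · intro hw
      obtain ⟨k, hk, j, rfl, rfl⟩ := el_SN.1 hw
      refine ⟨_, _, el_SN.2 ⟨g⁻¹ * k, (Hb _).mul_mem ((Hb _).inv_mem hg) hk, j, rfl, rfl⟩, ?_, ?_⟩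
      · rw [act_opN (sm_top g), act_opN (sm_top g), act_check (sm_top g)]
        have h1 : ∀ x, act (SL.ac g) (ap (g⁻¹ * k) x) = ap k x := by
          intro x
          have h2 := ap_mul g (g⁻¹ * k) x
          rw [mul_inv_cancel_left] at h2
          exact h2.symm
        rw [h1, h1]
      · have h2 := sm_mul g (g⁻¹ * k) j.1.2
        rw [mul_inv_cancel_left] at h2
        exact h2
  · obtain ⟨g, -, j, rfl, rfl⟩ := el_SN.1 hw
    have hj := j_nice j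
    exact SL.hs_opN (SL.hs_check _) (SL.hs_opN (SL.hs_act hj.hsa g) (SL.hs_act hj.hsb g))

/-- The data given by a condition. -/
def Dat (x : PName P) (q : P) (y : PName P) : Prop :=
  ∃ F w1 w2, x = opN F (opN w1 w2) ∧ ∃ j : Jx F, F.chd j.1.1.1 = w1 ∧
    (F.chd j.1.1.1).chd j.1.1.2 = w2 ∧ j.1.2 = q ∧
    y = opN (check (cd j)) (opN (ja j) (jb j))

/-- The set of the nice conditions. -/
def DA (x : PName P) : Set P := {q | ∃ y, Dat x q y}

open Classical in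
/-- The element given by a nice condition. -/
def DY (x : PName P) (q : P) : PName P := if h : ∃ y, Dat x q y then h.choose else emp

/-- The rules. -/
def RQ : Set (Rule P) := {r0 fun x _ => SN x, r0 fun x _ => Sys.nm P (DA x), r0 DY}

theorem RQ_countable : RQ.Countable := by
  unfold RQ
  exact (Set.toFinite _).countable

theorem DA_down {x : PName P} {q r : P} (h : q ∈ DA x) (hr : r ≤ q) : r ∈ DA x := by
  obtain ⟨y, F, w1, w2, rfl, j, rfl, rfl, rfl, rfl⟩ := h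
  exact ⟨_, F, _, _, rfl, ⟨(j.1.1, r), je j, ja j, jb j, (j_nice j).mono hr⟩, rfl, rfl, rfl, rfl⟩

/-! ### The relation in the model -/

section model

variable {π : Pkg P} (hcl : SL.Cld π) (hR : ClR RQ π)

include hR

theorem SN_mem {F : PName P} (hF : F ∈ π.N) : SN F ∈ π.N :=
  r0_mem hR (F := fun x _ => SN x) (by simp [RQ]) hF 0

omit hR in
theorem mem_SN {F : PName P} {z : ZFSet.{0}} : z ∈ π.val (SN F) ↔ ∃ g ∈ Hb (su F), ∃ j : Jx F,
    check (cd j) ∈ π.N ∧ ap g (ja j) ∈ π.N ∧ ap g (jb j) ∈ π.N ∧ (∃ k, π.g k ≤ sm g j.1.2) ∧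
    z = pair (π.hat (cd j)) (pair (π.val (ap g (ja j))) (π.val (ap g (jb j)))) := by
  rw [π.mem_val]
  constructor
  · rintro ⟨w, hw, c, hc, hk, rfl⟩
    obtain ⟨g, hg, j, rfl, rfl⟩ := el_SN.1 hc
    have h1 := π.fst_mem hw
    have h2 := π.snd_mem hw
    have h3 := π.fst_mem h2
    have h4 := π.snd_mem h2
    refine ⟨g, hg, j, h1, h3, h4, hk, ?_⟩
    rw [π.val_opN h1 h2, π.val_opN h3 h4]
    rfl
  · rintro ⟨g, hg, j, h1, h3, h4, hk, rfl⟩
    refine ⟨_, π.opN_mem h1 (π.opN_mem h3 h4), _, el_SN.2 ⟨g, hg, j, rfl, rfl⟩, hk, ?_⟩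
    rw [π.val_opN h1 (π.opN_mem h3 h4), π.val_opN h3 h4]
    rfl

omit hR in
theorem SN_elt {F : PName P} {z : ZFSet.{0}} (h : z ∈ π.val (SN F)) : ∃ j p x : ZFSet.{0},
    z = pair j (pair p x) ∧ j.IsOrdinal ∧ x ∈ p := by
  obtain ⟨g, hg, j, h1, h2, h3, ⟨k, hk⟩, rfl⟩ := mem_SN.1 h
  refine ⟨_, _, _, rfl, π.hat_isOrdinal (ZFSet.isOrdinal_toZFSet _), ?_⟩
  refine (π.val_mem_iff h3 h2).2 ⟨k, ?_⟩
  exact (fmem_ap (g := g) (j_nice j).mem).mono hk

omit hR in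
theorem SN_fun {F : PName P} {j p x x' : ZFSet.{0}} (h : pair j (pair p x) ∈ π.val (SN F))
    (h' : pair j (pair p x') ∈ π.val (SN F)) : x = x' := by
  obtain ⟨g, hg, i, h1, h2, h3, ⟨k, hk⟩, h4⟩ := mem_SN.1 h
  obtain ⟨g', hg', i', h1', h2', h3', ⟨k', hk'⟩, h4'⟩ := mem_SN.1 h'
  obtain ⟨rfl, h5⟩ := ZFSet.pair_inj.1 h4
  obtain ⟨rfl, rfl⟩ := ZFSet.pair_inj.1 h5
  obtain ⟨h6, h7⟩ := ZFSet.pair_inj.1 h4'
  obtain ⟨h8, rfl⟩ := ZFSet.pair_inj.1 h7
  have h9 : cd i = cd i' := (π.hat_inj h1 h1').1 h6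
  obtain rfl := cd_injective h9
  obtain ⟨n, hn⟩ := (π.val_eq_iff h2 h2').1 h8
  refine (π.val_eq_iff h3 h3').2 ⟨0, ?_⟩
  refine (j_nice i).coset (r := π.g (max (max k k') n)) ?_ ?_ (hn.mono (π.g_le_right _ _)) _
  · exact (π.g_le_left _ _).trans ((π.g_le_left _ _).trans hk)
  · exact (π.g_le_left _ _).trans ((π.g_le_right _ _).trans hk')

omit hR in
/-- The statement that a set has at most two elements. -/
theorem ud_two : UD fun _ (v : Fin 1 → ZFSet.{0}) => ∀ a ∈ v 0, ∀ b ∈ v 0, ∀ c ∈ v 0,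
    a = b ∨ a = c ∨ b = c := by
  (repeat' first
    | assumption
    | exact UF.proj _
    | exact UF.om
    | exact UD.prop _
    | apply UD.not | apply UD.and | apply UD.or | apply UD.imp | apply UD.iff
    | apply UD.bex | apply UD.ball | apply UD.ex | apply UD.all
    | apply UD.eq | apply UD.mem | apply UF.pair)

include hcl in
theorem SN_tot {F : PName P} (hF : F ∈ π.N) (hsF : SL.HS F) {p : ZFSet.{0}} (hp : p ∈ π.val F)
    (h2 : ∀ a ∈ p, ∀ b ∈ p, ∀ c ∈ p, a = b ∨ a = c ∨ b = c) (hne : ∃ x, x ∈ p) :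
    ∃ j x, pair j (pair p x) ∈ π.val (SN F) := by
  obtain ⟨w1, hw1, c1, hc1, ⟨k1, hk1⟩, rfl⟩ := π.mem_val.1 hp
  obtain ⟨x, hx⟩ := hne
  obtain ⟨w2, hw2, c2, hc2, ⟨k2, hk2⟩, rfl⟩ := π.mem_val.1 hx
  have hs1 : SL.HS w1 := hsF.el hc1
  have hs2 : SL.HS w2 := hs1.el hc2
  have hv1 : ∀ i, ![w1] i ∈ π.N ∧ SL.HS (![w1] i) := by
    intro i
    fin_cases i
    exact ⟨hw1, hs1⟩
  obtain ⟨k, hk⟩ := (Sys.frc_iff ud_two hcl hv1).1 h2
  obtain ⟨n, hn⟩ := (π.val_mem_iff hw2 hw1).1 hx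
  have hx' : opN F (opN w1 w2) ∈ π.N := π.opN_mem hF (π.opN_mem hw1 hw2)
  -- indices
  obtain ⟨i1, rfl, -⟩ : ∃ i, F.chd i = w1 ∧ F.cnd i = c1 := by
    have h3 := PName.eta F
    rw [← h3] at hc1
    obtain ⟨i, h4, h5⟩ := el_mk.1 hc1
    exact ⟨i, h4, h5⟩
  obtain ⟨i2, rfl, -⟩ : ∃ i, (F.chd i1).chd i = w2 ∧ (F.chd i1).cnd i = c2 := by
    have h3 := PName.eta (F.chd i1)
    rw [← h3] at hc2
    obtain ⟨i, h4, h5⟩ := el_mk.1 hc2
    exact ⟨i, h4, h5⟩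
  have hnm := r0_mem hR (F := fun x _ => Sys.nm P (DA x)) (by simp [RQ]) hx' 0
  have hdense : ∀ q ≤ π.g (max k n), ∃ r ≤ q, r ∈ DA (opN F (opN (F.chd i1)
      ((F.chd i1).chd i2))) := by
    intro q hq
    obtain ⟨r, hr, E, a, b, hN⟩ := exists_nice hs1 hs2 (q := q)
      (hn.mono (hq.trans (π.g_le_right _ _))) (by
        intro s hs a b c ha hb hc hma hmb hmc
        obtain ⟨π', hA, hg0, hcl', -⟩ := Sys.exists_cld SL {a, b, c, F.chd i1}
          (Set.toFinite _).countable ∅ Set.countable_empty s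
        have haN : a ∈ π'.N := hA (by simp)
        have hbN : b ∈ π'.N := hA (by simp)
        have hcN : c ∈ π'.N := hA (by simp)
        have hwN : F.chd i1 ∈ π'.N := hA (by simp)
        have h3 := (Sys.frc_sem (fun i => (hv1 i).2)).1 hk π' hcl' (by
          intro i
          fin_cases i
          exact hwN) ⟨0, hg0.le.trans (hs.trans (hq.trans (π.g_le_left _ _)))⟩
        have h4 : ∀ y ∈ π'.N, Fmem y (F.chd i1) s → π'.val y ∈ π'.val (F.chd i1) :=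
          fun y hy h5 => (π'.val_mem_iff hy hwN).2 ⟨0, by rw [hg0]; exact h5⟩
        have h5 := h3 _ (h4 a haN hma) _ (h4 b hbN hmb) _ (h4 c hcN hmc)
        have h6 : ∀ m, π'.g m ≤ s := fun m => (Sys.g_le π' (Nat.zero_le m)).trans hg0.le
        rcases h5 with h5 | h5 | h5
        · obtain ⟨m, hm⟩ := (π'.val_eq_iff haN hbN).1 h5
          exact ⟨_, h6 m, Or.inl hm⟩
        · obtain ⟨m, hm⟩ := (π'.val_eq_iff haN hcN).1 h5
          exact ⟨_, h6 m, Or.inr (Or.inl hm)⟩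
        · obtain ⟨m, hm⟩ := (π'.val_eq_iff hbN hcN).1 h5
          exact ⟨_, h6 m, Or.inr (Or.inr hm)⟩)
    exact ⟨r, hr, _, F, _, _, rfl, ⟨⟨⟨i1, i2⟩, r⟩, E, a, b, hN⟩, rfl, rfl, rfl, rfl⟩
  obtain ⟨m, -, hm⟩ := gen_dense' π hnm (fun r hr q hq => DA_down hr hq) hdense
  have hy := r0_mem hR (F := DY) (by simp [RQ]) hx' m
  have hDY : Dat (opN F (opN (F.chd i1) ((F.chd i1).chd i2))) (π.g m)
      (DY (opN F (opN (F.chd i1) ((F.chd i1).chd i2))) (π.g m)) := by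
    have hm' : ∃ y, Dat (opN F (opN (F.chd i1) ((F.chd i1).chd i2))) (π.g m) y := hm
    unfold DY
    rw [dif_pos hm']
    exact hm'.choose_spec
  obtain ⟨F', w1, w2, h3, j, h4, h5, h6, h7⟩ := hDY
  obtain ⟨rfl, h8⟩ := opN_inj h3
  obtain ⟨rfl, rfl⟩ := opN_inj h8
  rw [h7] at hy
  have h9 := π.fst_mem hy
  have h10 := π.snd_mem hy
  have h11 := π.fst_mem h10
  have h12 := π.snd_mem h10
  have hj := (j_nice j).ea
  rw [h4, h6] at hj
  have h13 : π.val (ja j) = π.val (F.chd i1) := (π.val_eq_iff h11 hw1).2 ⟨m, hj⟩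
  refine ⟨π.hat (cd j), π.val (jb j), mem_SN.2 ⟨1, (Hb _).one_mem, j, h9, ?_, ?_, ⟨m, ?_⟩, ?_⟩⟩
  · rwa [ap_one]
  · rwa [ap_one]
  · rw [sm_one, h6]
  · rw [ap_one, ap_one, h13]

end model

/-- Every family of pairs in `M` has a choice function in `M`. -/
def PairChoice (M : Set ZFSet.{0}) : Prop :=
  ∀ F ∈ M, (∀ p ∈ F, (∃ x, x ∈ p) ∧ ∀ a ∈ p, ∀ b ∈ p, ∀ c ∈ p, a = b ∨ a = c ∨ b = c) →
    ∃ c ∈ M, ∀ p ∈ F, ∃ x ∈ p, pair p x ∈ c ∧ ∀ y, pair p y ∈ c → y = x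

theorem pairChoice_of_rel {M : Set ZFSet.{0}} (hM : IsZF M) {F S : ZFSet.{0}} (hF : F ∈ M)
    (hS : S ∈ M) (h1 : ∀ z ∈ S, ∃ j p x : ZFSet.{0}, z = pair j (pair p x) ∧ j.IsOrdinal ∧ x ∈ p)
    (h2 : ∀ j p x x', pair j (pair p x) ∈ S → pair j (pair p x') ∈ S → x = x')
    (h3 : ∀ p ∈ F, ∃ j x, pair j (pair p x) ∈ S) :
    ∃ c ∈ M, ∀ p ∈ F, ∃ x ∈ p, pair p x ∈ c ∧ ∀ y, pair p y ∈ c → y = x := by
  have hB := hM.base
  have hUM := hM.union _ hF
  set Q : ZFSet.{0} → Prop := fun z => ∃ j ∈ M, ∃ p ∈ M, ∃ x ∈ M, z = pair p x ∧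
    pair j (pair p x) ∈ S ∧ ∀ i ∈ j, ∀ y ∈ M, pair i (pair p y) ∉ S with hQ
  have hd : Dfn M M fun w : Fin 1 → ZFSet.{0} => Q (w 0) := by
    simp only [hQ]
    (repeat' first
      | assumption
      | exact DfnF.proj _
      | exact DfnF.const (by assumption)
      | apply Dfn.not | apply Dfn.and | apply Dfn.or | apply Dfn.imp | apply Dfn.iff
      | apply hB.bex | apply hB.ball | apply Dfn.ex | apply Dfn.all
      | apply Dfn.eq | apply Dfn.mem | apply hB.pair')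
  refine ⟨_, hM.sep_mem (Q := Q) hd (hM.prod_mem hF hUM), fun p hp => ?_⟩
  have hpM := hM.trans _ hF _ hp
  have h4 : {j : ZFSet.{0} | ∃ x, pair j (pair p x) ∈ S}.Nonempty := h3 p hp
  have h5 := ZFSet.mem_wf.min_mem _ h4
  have h6 : ∀ i ∈ ZFSet.mem_wf.min _ h4, ∀ y, pair i (pair p y) ∉ S := fun i hi y hy =>
    ZFSet.mem_wf.not_lt_min _ (show i ∈ {j : ZFSet.{0} | ∃ x, pair j (pair p x) ∈ S}
      from ⟨y, hy⟩) hi
  set j := ZFSet.mem_wf.min _ h4 with hj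
  obtain ⟨x, hx⟩ := h5
  have hord : ∀ i y, pair i (pair p y) ∈ S → i.IsOrdinal ∧ y ∈ p := by
    intro i y hiy
    obtain ⟨i', p', x', h7, h8, h9⟩ := h1 _ hiy
    obtain ⟨rfl, h10⟩ := ZFSet.pair_inj.1 h7
    obtain ⟨rfl, rfl⟩ := ZFSet.pair_inj.1 h10
    exact ⟨h8, h9⟩
  have hxp := (hord _ _ hx).2
  have hxM := hM.trans _ hpM _ hxp
  have hjM : j ∈ M := (hM.of_pair_mem (hM.trans _ hS _ hx)).1
  refine ⟨x, hxp, ?_, fun y hy => ?_⟩
  · rw [ZFSet.mem_sep]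
    exact ⟨ZFSet.pair_mem_prod.2 ⟨hp, ZFSet.mem_sUnion.2 ⟨p, hp, hxp⟩⟩, j, hjM, p, hpM, x, hxM,
      rfl, hx, fun i hi y _ => h6 i hi y⟩
  · rw [ZFSet.mem_sep] at hy
    obtain ⟨-, i, hi, p', hp', y', hy', h7, h8, h9⟩ := hy
    obtain ⟨rfl, rfl⟩ := ZFSet.pair_inj.1 h7
    have h10 : i = j := by
      rcases (hord _ _ h8).1.mem_trichotomous (hord _ _ hx).1 with h11 | h11 | h11
      · exact absurd h8 (h6 i h11 _)
      · exact h11
      · exact absurd hx (h9 j h11 x hxM)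
    rw [h10] at h8
    exact h2 _ _ _ _ h8 hx

/-- Choice functions for families of pairs in the model. -/
theorem pairChoice {π : Pkg P} (hcl : SL.Cld π) (hR : ClR RQ π) : PairChoice (SL.Ms π) := by
  rintro _ ⟨F, ⟨hFN, hFS⟩, rfl⟩ hF
  refine pairChoice_of_rel (T_ZF.isZF hcl) (Sys.mem_Ms hFN hFS)
    (Sys.mem_Ms (SN_mem hR hFN) (hs_SN hFS)) (fun z hz => SN_elt hz)
    (fun j p x x' h h' => SN_fun h h') fun p hp => ?_
  exact SN_tot hcl hR hFN hFS hp (hF p hp).2 (hF p hp).1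

end

end Pool.Agent.Q212.VL
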