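import Pool.Agent.W868.Defs

/-!
# Compactness principles in transitive models of ZF: the definitions

The set `{0, 1}` is `nat 2`. A set in a transitive model `M` of ZF is finite in `M` if and only if
it is finite.
-/

set_option autoImplicit false

namespace Pool.Agent.Q212.VL

open Pool.Agent.W868
open ZFSet (pair)

/-- `f` is a homomorphism from the structure with the underlying set `X` and the relation `R`,
restricted to `X`, to the complete graph on `{0, 1}`: a function from `X` to `{0, 1}` that takes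
different values at the two components of every pair in `R`. -/
def IsCol (X R f : ZFSet.{0}) : Prop :=
  ZFSet.IsFunc X (nat 2) f ∧ ∀ x ∈ X, ∀ y ∈ X, pair x y ∈ R →
    ∀ i ∈ nat 2, ¬ (pair x i ∈ f ∧ pair y i ∈ f)

/-- The compactness principle for the complete graph on two vertices, in `M`. -/
def KK2 (M : Set ZFSet.{0}) : Prop :=
  ∀ X ∈ M, ∀ R ∈ M, (∀ a ∈ M, a ⊆ X → {z | z ∈ a}.Finite → ∃ f ∈ M, IsCol a R f) →
    ∃ f ∈ M, IsCol X R f

/-- `f` is a homomorphism from the structure with the underlying set `X` and the ternary relations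
`R₀` and `R₁`, restricted to `X`, to the structure `3LIN₂`: a function from `X` to `{0, 1}` such
that `f x + f y + f z = c` modulo `2` for all triples `(x, y, z)` in `R_c`, for `c = 0, 1`. -/
def IsSol (X R₀ R₁ f : ZFSet.{0}) : Prop :=
  ZFSet.IsFunc X (nat 2) f ∧ ∀ x ∈ X, ∀ y ∈ X, ∀ z ∈ X, ∀ i j k : ℕ,
    pair x (nat i) ∈ f → pair y (nat j) ∈ f → pair z (nat k) ∈ f →
      (pair x (pair y z) ∈ R₀ → (i + j + k) % 2 = 0) ∧
      (pair x (pair y z) ∈ R₁ → (i + j + k) % 2 = 1)

/-- The compactness principle for `3LIN₂`, in `M`. -/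
def K3LIN2 (M : Set ZFSet.{0}) : Prop :=
  ∀ X ∈ M, ∀ R₀ ∈ M, ∀ R₁ ∈ M,
    (∀ a ∈ M, a ⊆ X → {z | z ∈ a}.Finite → ∃ f ∈ M, IsSol a R₀ R₁ f) →
    ∃ f ∈ M, IsSol X R₀ R₁ f

end Pool.Agent.Q212.VL
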