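import Pool.Agent.W868.Inj
import Pool.Agent.W868.Itr
import Pool.Agent.Q211.SY.Cnt
import Pool.Agent.Q212.VL3
import Pool.Agent.Q212.VLDefs

/-!
# Choice functions for pairs imply the compactness principle for `K₂`
-/

set_option autoImplicit false
set_option linter.unusedSectionVars false
set_option linter.unreachableTactic false
set_option linter.unusedTactic false

namespace Pool.Agent.Q212.VL

open Pool.Agent.W868 Pool.Agent.Q211.SY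
open ZFSet (pair)

theorem mem_two {i : ZFSet.{0}} : i ∈ nat 2 ↔ i = nat 0 ∨ i = nat 1 := by
  rw [mem_nat_iff]
  constructor
  · rintro ⟨j, hj, rfl⟩
    interval_cases j
    · exact Or.inl rfl
    · exact Or.inr rfl
  · rintro (rfl | rfl)
    · exact ⟨0, by norm_num, rfl⟩
    · exact ⟨1, by norm_num, rfl⟩

theorem nat01 : nat 0 ≠ nat 1 := fun h => by
  have := nat_injective h
  omega

/-- Finite sets, inside a model. -/
def Fi (M : Set ZFSet.{0}) (a : ZFSet.{0}) : Prop := ∃ n ∈ ZFSet.omega, ∃ g ∈ M, IsBij n a g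

theorem fi_iff {M : Set ZFSet.{0}} (hM : IsZF M) {a : ZFSet.{0}} (ha : a ∈ M) :
    Fi M a ↔ {z | z ∈ a}.Finite := by
  constructor
  · rintro ⟨n, hn, g, -, hg⟩
    obtain ⟨n, rfl⟩ := mem_omega_iff.1 hn
    have h1 : ∀ z ∈ a, ∃ i < n, pair (nat i) z ∈ g := by
      intro z hz
      obtain ⟨x, hx, h2⟩ := hg.2 z hz
      obtain ⟨i, hi, rfl⟩ := mem_nat_iff.1 hx
      exact ⟨i, hi, h2⟩
    choose! f hf1 hf2 using h1
    refine Set.Finite.of_finite_image (f := f) ((Set.finite_lt_nat n).subset ?_) ?_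
    · rintro _ ⟨z, hz, rfl⟩
      exact hf1 z hz
    · intro z hz z' hz' h2
      have h3 := hf2 z hz
      rw [h2] at h3
      exact fun_unique hg.1.1 h3 (hf2 z' hz')
  · intro h
    obtain ⟨n, g, hg, h1⟩ := exists_bij_of_finite hM ha h
    exact ⟨nat n, nat_mem_omega n, g, hg, h1⟩

theorem dfn_isCol {M : Set ZFSet.{0}} (hM : IsZF M) {n : ℕ} {F G H : (Fin n → ZFSet.{0}) → ZFSet.{0}}
    (hF : DfnF M M F) (hG : DfnF M M G) (hH : DfnF M M H) :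
    Dfn M M fun v => IsCol (F v) (G v) (H v) := by
  have hB := hM.base
  have h2 := hM.nat_mem 2
  have h : Dfn M M fun v : Fin 3 → ZFSet.{0} => IsCol (v 0) (v 1) (v 2) := by
    refine Dfn.and (hB.isFunc' (DfnF.proj 0) (DfnF.const h2) (DfnF.proj 2)) ?_
    (repeat' first
      | assumption
      | exact DfnF.proj _
      | exact DfnF.const (by assumption)
      | apply Dfn.not | apply Dfn.and | apply Dfn.or | apply Dfn.imp | apply Dfn.iff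
      | apply hB.bex | apply hB.ball | apply Dfn.ex | apply Dfn.all
      | apply Dfn.eq | apply Dfn.mem | apply hB.pair')
  exact Dfn.comp3 (Q := IsCol) h hF hG hH

section

variable {M : Set ZFSet.{0}} (hM : IsZF M) {X R : ZFSet.{0}} (hX : X ∈ M) (hR : R ∈ M)
  (hfin : ∀ a ∈ M, a ⊆ X → {z | z ∈ a}.Finite → ∃ f ∈ M, IsCol a R f)

/-- The values `i` at `y` and `j` at `z` are equivalent. -/
def Rl (M : Set ZFSet.{0}) (X R y i z j : ZFSet.{0}) : Prop :=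
  ∃ a ∈ M, a ⊆ X ∧ Fi M a ∧ y ∈ a ∧ z ∈ a ∧ ∀ f ∈ M, IsCol a R f → (pair y i ∈ f ↔ pair z j ∈ f)

include hM hX hR in
theorem dfn_Rl : Dfn M M fun v : Fin 4 → ZFSet.{0} => Rl M X R (v 0) (v 1) (v 2) (v 3) := by
  have hB := hM.base
  unfold Rl Fi
  apply Dfn.ex
  refine Dfn.and (hB.subset' (DfnF.proj 0) (DfnF.const hX)) ?_
  refine Dfn.and (hB.bex (DfnF.const hM.infinity) (Dfn.ex (hB.isBij' (DfnF.proj 1) (DfnF.proj 2)
    (DfnF.proj 0)))) ?_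
  refine Dfn.and (Dfn.mem (DfnF.proj 1) (DfnF.proj 0)) ?_
  refine Dfn.and (Dfn.mem (DfnF.proj 3) (DfnF.proj 0)) ?_
  apply Dfn.all
  refine Dfn.imp (dfn_isCol hM (DfnF.proj 1) (DfnF.const hR) (DfnF.proj 0)) ?_
  exact Dfn.iff (Dfn.mem (hB.pair' (DfnF.proj 2) (DfnF.proj 3)) (DfnF.proj 0))
    (Dfn.mem (hB.pair' (DfnF.proj 4) (DfnF.proj 5)) (DfnF.proj 0))

theorem Rl.symm {y i z j : ZFSet.{0}} (h : Rl M X R y i z j) : Rl M X R z j y i := by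
  obtain ⟨a, ha, haX, hf, hy, hz, h1⟩ := h
  exact ⟨a, ha, haX, hf, hz, hy, fun f hf hc => (h1 f hf hc).symm⟩

/-- Restrictions of colourings. -/
theorem isCol_restr (hM : IsZF M) {a b f : ZFSet.{0}} (ha : a ∈ M) (hf : f ∈ M) (hab : a ⊆ b)
    (h : IsCol b R f) : ∃ g ∈ M, IsCol a R g ∧ ∀ y ∈ a, ∀ i, pair y i ∈ g ↔ pair y i ∈ f := by
  have hB := hM.base
  have h2 := hM.nat_mem 2
  refine ⟨ZFSet.sep (fun z => z ∈ f) (ZFSet.prod a (nat 2)), hM.sep_mem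
    (Dfn.mem (DfnF.proj 0) (DfnF.const hf)) (hM.prod_mem ha h2), ?_, ?_⟩
  · have key : ∀ y ∈ a, ∀ i, pair y i ∈ ZFSet.sep (fun z => z ∈ f) (ZFSet.prod a (nat 2)) ↔
        pair y i ∈ f := by
      intro y hy i
      rw [ZFSet.mem_sep]
      refine ⟨fun h => h.2, fun h' => ⟨ZFSet.pair_mem_prod.2 ⟨hy, ?_⟩, h'⟩⟩
      exact (ZFSet.pair_mem_prod.1 (h.1.1 h')).2
    refine ⟨⟨fun z hz => (ZFSet.mem_sep.1 hz).1, fun y hy => ?_⟩, ?_⟩
    · obtain ⟨i, hi, hu⟩ := h.1.2 y (hab hy)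
      exact ⟨i, (key y hy i).2 hi, fun j hj => hu j ((key y hy j).1 hj)⟩
    · intro x hx y hy hxy i hi hh
      exact h.2 x (hab hx) y (hab hy) hxy i hi ⟨(key x hx i).1 hh.1, (key y hy i).1 hh.2⟩
  · intro y hy i
    rw [ZFSet.mem_sep]
    refine ⟨fun h => h.2, fun h' => ⟨ZFSet.pair_mem_prod.2 ⟨hy, ?_⟩, h'⟩⟩
    exact (ZFSet.pair_mem_prod.1 (h.1.1 h')).2

include hM in
theorem Rl.trans {y i z j w k : ZFSet.{0}} (h : Rl M X R y i z j) (h' : Rl M X R z j w k) :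
    Rl M X R y i w k := by
  obtain ⟨a, ha, haX, hf, hy, hz, h1⟩ := h
  obtain ⟨b, hb, hbX, hf', hz', hw, h2⟩ := h'
  have hab : a ∪ b ∈ M := hM.union_mem ha hb
  have hfin : {z | z ∈ a ∪ b}.Finite := by
    have h3 := ((fi_iff hM ha).1 hf).union ((fi_iff hM hb).1 hf')
    refine h3.subset fun z hz => ?_
    exact ZFSet.mem_union.1 hz
  refine ⟨a ∪ b, hab, fun z hz => ?_, (fi_iff hM hab).2 hfin, ZFSet.mem_union.2 (Or.inl hy),
    ZFSet.mem_union.2 (Or.inr hw), fun f hf hc => ?_⟩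
  · rcases ZFSet.mem_union.1 hz with h3 | h3
    exacts [haX h3, hbX h3]
  · obtain ⟨g1, hg1, hc1, h3⟩ := isCol_restr hM ha hf
      (fun z hz => ZFSet.mem_union.2 (Or.inl hz)) hc
    obtain ⟨g2, hg2, hc2, h4⟩ := isCol_restr hM hb hf
      (fun z hz => ZFSet.mem_union.2 (Or.inr hz)) hc
    rw [← h3 y hy, h1 g1 hg1 hc1, h3 z hz, ← h4 z hz', h2 g2 hg2 hc2, h4 w hw]

include hM in
theorem Rl.refl {y i : ZFSet.{0}} (hX : X ∈ M) (hy : y ∈ X) : Rl M X R y i y i := by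
  have h1 : ({y} : ZFSet.{0}) ∈ M := hM.single_mem (hM.trans _ hX _ hy)
  refine ⟨{y}, h1, ?_, (fi_iff hM h1).2 ?_, ZFSet.mem_singleton.2 rfl, ZFSet.mem_singleton.2 rfl,
    fun f _ _ => Iff.rfl⟩
  · intro z hz
    rw [ZFSet.mem_singleton.1 hz]
    exact hy
  · refine (Set.finite_singleton y).subset fun z hz => ?_
    exact ZFSet.mem_singleton.1 hz

/-- The values of a colouring. -/
theorem col_val {a f y : ZFSet.{0}} (h : IsCol a R f) (hy : y ∈ a) :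
    (pair y (nat 0) ∈ f ∧ pair y (nat 1) ∉ f) ∨ (pair y (nat 1) ∈ f ∧ pair y (nat 0) ∉ f) := by
  obtain ⟨i, hi, hu⟩ := h.1.2 y hy
  rcases mem_two.1 (ZFSet.pair_mem_prod.1 (h.1.1 hi)).2 with rfl | rfl
  · exact Or.inl ⟨hi, fun h1 => nat01 (hu _ h1).symm⟩
  · exact Or.inr ⟨hi, fun h1 => nat01 (hu _ h1)⟩

include hM hfin in
theorem not_Rl {y : ZFSet.{0}} : ¬ Rl M X R y (nat 0) y (nat 1) := by
  rintro ⟨a, ha, haX, hf, hy, -, h1⟩
  obtain ⟨f, hf', hc⟩ := hfin a ha haX ((fi_iff hM ha).1 hf)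
  have h2 := h1 f hf' hc
  rcases col_val hc hy with h3 | h3
  · exact h3.2 (h2.1 h3.1)
  · exact h3.2 (h2.2 h3.1)

include hM in
theorem Rl.edge {y z : ZFSet.{0}} (hX : X ∈ M) (hy : y ∈ X) (hz : z ∈ X)
    (hyz : pair y z ∈ R) :
    Rl M X R y (nat 0) z (nat 1) ∧ Rl M X R y (nat 1) z (nat 0) := by
  have h1 : ({y, z} : ZFSet.{0}) ∈ M := hM.pairing _ (hM.trans _ hX _ hy) _ (hM.trans _ hX _ hz)
  have h2 : ({y, z} : ZFSet.{0}) ⊆ X := by
    intro w hw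
    rcases ZFSet.mem_pair.1 hw with rfl | rfl
    exacts [hy, hz]
  have h3 : Fi M ({y, z} : ZFSet.{0}) := by
    refine (fi_iff hM h1).2 ((Set.toFinite {y, z}).subset fun w hw => ?_)
    exact ZFSet.mem_pair.1 hw
  have hy' : y ∈ ({y, z} : ZFSet.{0}) := ZFSet.mem_pair.2 (Or.inl rfl)
  have hz' : z ∈ ({y, z} : ZFSet.{0}) := ZFSet.mem_pair.2 (Or.inr rfl)
  constructor
  · refine ⟨_, h1, h2, h3, hy', hz', fun f _ hc => ?_⟩
    have h4 := hc.2 y hy' z hz' hyz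
    rcases col_val hc hy' with h5 | h5 <;> rcases col_val hc hz' with h6 | h6
    · exact absurd ⟨h5.1, h6.1⟩ (h4 _ (mem_two.2 (Or.inl rfl)))
    · exact ⟨fun _ => h6.1, fun _ => h5.1⟩
    · exact ⟨fun h => absurd h h5.2, fun h => absurd h h6.2⟩
    · exact absurd ⟨h5.1, h6.1⟩ (h4 _ (mem_two.2 (Or.inr rfl)))
  · refine ⟨_, h1, h2, h3, hy', hz', fun f _ hc => ?_⟩
    have h4 := hc.2 y hy' z hz' hyz
    rcases col_val hc hy' with h5 | h5 <;> rcases col_val hc hz' with h6 | h6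
    · exact absurd ⟨h5.1, h6.1⟩ (h4 _ (mem_two.2 (Or.inl rfl)))
    · exact ⟨fun h => absurd h h5.2, fun h => absurd h h6.2⟩
    · exact ⟨fun _ => h6.1, fun _ => h5.1⟩
    · exact absurd ⟨h5.1, h6.1⟩ (h4 _ (mem_two.2 (Or.inr rfl)))

/-- The class of a value. -/
noncomputable def Cl (M : Set ZFSet.{0}) (X R y i : ZFSet.{0}) : ZFSet.{0} :=
  ZFSet.sep (fun p => ∃ z ∈ X, ∃ j ∈ nat 2, p = pair z j ∧ Rl M X R y i z j)
    (ZFSet.prod X (nat 2))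

theorem mem_Cl {y i z j : ZFSet.{0}} : pair z j ∈ Cl M X R y i ↔ (z ∈ X ∧ j ∈ nat 2) ∧
    Rl M X R y i z j := by
  rw [Cl, ZFSet.mem_sep, ZFSet.pair_mem_prod]
  refine and_congr_right fun h => ?_
  constructor
  · rintro ⟨z', -, j', -, h1, h2⟩
    obtain ⟨rfl, rfl⟩ := ZFSet.pair_inj.1 h1
    exact h2
  · exact fun h1 => ⟨z, h.1, j, h.2, rfl, h1⟩

include hM in
theorem Cl_eq {y i z j : ZFSet.{0}} (h : Rl M X R y i z j) : Cl M X R y i = Cl M X R z j := by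
  ext p
  constructor
  · intro hp
    obtain ⟨w, hw, k, hk, rfl⟩ := ZFSet.mem_prod.1 (ZFSet.mem_sep.1 hp).1
    exact mem_Cl.2 ⟨⟨hw, hk⟩, Rl.trans hM h.symm (mem_Cl.1 hp).2⟩
  · intro hp
    obtain ⟨w, hw, k, hk, rfl⟩ := ZFSet.mem_prod.1 (ZFSet.mem_sep.1 hp).1
    exact mem_Cl.2 ⟨⟨hw, hk⟩, Rl.trans hM h (mem_Cl.1 hp).2⟩

include hM hX hR in
theorem dfn_Cl : DfnF M M fun v : Fin 2 → ZFSet.{0} => Cl M X R (v 0) (v 1) := by
  have hB := hM.base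
  have h2 := hM.nat_mem 2
  refine hM.sep' (Q := fun p v => ∃ z ∈ X, ∃ j ∈ nat 2, p = pair z j ∧ Rl M X R (v 0) (v 1) z j)
    (DfnF.const (hM.prod_mem hX h2)) ?_
  refine hB.bex (DfnF.const hX) (hB.bex (DfnF.const h2) ?_)
  refine Dfn.and (Dfn.eq (DfnF.proj 2) (hB.pair' (DfnF.proj 1) (DfnF.proj 0))) ?_
  exact Dfn.comp4 (Q := Rl M X R) (dfn_Rl hM hX hR) (DfnF.proj 3) (DfnF.proj 4) (DfnF.proj 1)
    (DfnF.proj 0)

/-- The pair of the classes. -/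
noncomputable def Pr (M : Set ZFSet.{0}) (X R y : ZFSet.{0}) : ZFSet.{0} :=
  {Cl M X R y (nat 0), Cl M X R y (nat 1)}

include hM hX hR in
theorem dfn_Pr : DfnF M M fun v : Fin 1 → ZFSet.{0} => Pr M X R (v 0) := by
  have hB := hM.base
  refine hB.upair' ?_ ?_
  · exact DfnF.comp2 (f := Cl M X R) (dfn_Cl hM hX hR) (DfnF.proj 0) (DfnF.const (hM.nat_mem 0))
  · exact DfnF.comp2 (f := Cl M X R) (dfn_Cl hM hX hR) (DfnF.proj 0) (DfnF.const (hM.nat_mem 1))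

include hM hX hR hfin in
theorem exists_col (hch : PairChoice M) : ∃ f ∈ M, IsCol X R f := by
  have hB := hM.base
  have h2 := hM.nat_mem 2
  have hPd := dfn_Pr hM hX hR
  obtain ⟨c, hc, hch'⟩ := hch (im (Pr M X R) X) (hM.im_mem hX hPd) (by
    intro p hp
    obtain ⟨y, hy, rfl⟩ := mem_im.1 hp
    refine ⟨⟨_, ZFSet.mem_pair.2 (Or.inl rfl)⟩, ?_⟩
    intro a ha b hb c hc
    rcases ZFSet.mem_pair.1 ha with rfl | rfl <;> rcases ZFSet.mem_pair.1 hb with rfl | rfl <;>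
      rcases ZFSet.mem_pair.1 hc with rfl | rfl <;> simp)
  have hch2 : ∀ y ∈ X, ∃ x ∈ Pr M X R y, pair (Pr M X R y) x ∈ c ∧
      ∀ z, pair (Pr M X R y) z ∈ c → z = x := fun y hy => hch' _ (mem_im.2 ⟨y, hy, rfl⟩)
  -- the chosen class
  have hsel : ∀ y ∈ X, ∃ k ∈ nat 2, pair (Pr M X R y) (Cl M X R y k) ∈ c ∧
      ∀ z, pair (Pr M X R y) z ∈ c → z = Cl M X R y k := by
    intro y hy
    obtain ⟨x, hx, h3, h4⟩ := hch2 y hy
    rcases ZFSet.mem_pair.1 hx with rfl | rfl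
    · exact ⟨nat 0, mem_two.2 (Or.inl rfl), h3, h4⟩
    · exact ⟨nat 1, mem_two.2 (Or.inr rfl), h3, h4⟩
  have hRl : ∀ y ∈ X, ∀ k ∈ nat 2, ∀ i ∈ nat 2, Rl M X R y k y i → k = i := by
    intro y hy k hk i hi h3
    rcases mem_two.1 hk with rfl | rfl <;> rcases mem_two.1 hi with rfl | rfl
    · rfl
    · exact absurd h3 (not_Rl hM hfin)
    · exact absurd h3.symm (not_Rl hM hfin)
    · rfl
  set Q : ZFSet.{0} → Prop := fun p => ∃ y ∈ X, ∃ i ∈ nat 2, p = pair y i ∧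
    ∃ C ∈ M, pair (Pr M X R y) C ∈ c ∧ pair y i ∈ C with hQ
  have hQd : Dfn M M fun w : Fin 1 → ZFSet.{0} => Q (w 0) := by
    simp only [hQ]
    refine hB.bex (DfnF.const hX) (hB.bex (DfnF.const h2) ?_)
    refine Dfn.and (Dfn.eq (DfnF.proj 2) (hB.pair' (DfnF.proj 1) (DfnF.proj 0))) ?_
    apply Dfn.ex
    refine Dfn.and (Dfn.mem (hB.pair' (DfnF.comp1 (f := Pr M X R) hPd (DfnF.proj 2))
      (DfnF.proj 0)) (DfnF.const hc)) ?_
    exact Dfn.mem (hB.pair' (DfnF.proj 2) (DfnF.proj 1)) (DfnF.proj 0)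
  have hmem : ∀ y ∈ X, ∀ i, pair y i ∈ ZFSet.sep Q (ZFSet.prod X (nat 2)) ↔
      i ∈ nat 2 ∧ ∃ C, pair (Pr M X R y) C ∈ c ∧ pair y i ∈ C := by
    intro y hy i
    rw [ZFSet.mem_sep, ZFSet.pair_mem_prod]
    constructor
    · rintro ⟨⟨-, hi⟩, y', -, i', -, h3, C, -, h4, h5⟩
      obtain ⟨rfl, rfl⟩ := ZFSet.pair_inj.1 h3
      exact ⟨hi, C, h4, h5⟩
    · rintro ⟨hi, C, h4, h5⟩
      exact ⟨⟨hy, hi⟩, y, hy, i, hi, rfl, C, (hM.of_pair_mem (hM.trans _ hc _ h4)).2, h4, h5⟩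
  refine ⟨ZFSet.sep Q (ZFSet.prod X (nat 2)), hM.sep_mem hQd (hM.prod_mem hX h2), ⟨?_, ?_⟩, ?_⟩
  · exact fun z hz => (ZFSet.mem_sep.1 hz).1
  · intro y hy
    obtain ⟨k, hk, h3, h4⟩ := hsel y hy
    refine ⟨k, (hmem y hy k).2 ⟨hk, _, h3, mem_Cl.2 ⟨⟨hy, hk⟩, Rl.refl hM hX hy⟩⟩, ?_⟩
    intro i hi
    obtain ⟨hi2, C, h5, h6⟩ := (hmem y hy i).1 hi
    rw [h4 C h5] at h6
    exact (hRl y hy k hk i hi2 (mem_Cl.1 h6).2).symm
  · rintro y hy z hz hyz i hi ⟨h3, h4⟩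
    obtain ⟨-, C, h5, h6⟩ := (hmem y hy i).1 h3
    obtain ⟨-, C', h7, h8⟩ := (hmem z hz i).1 h4
    obtain ⟨hr1, hr2⟩ := Rl.edge (R := R) hM hX hy hz hyz
    have hPr : Pr M X R y = Pr M X R z := by
      unfold Pr
      rw [Cl_eq hM hr1, Cl_eq hM hr2]
      ext w
      rw [ZFSet.mem_pair, ZFSet.mem_pair, or_comm]
    obtain ⟨k, hk, h9, h10⟩ := hsel y hy
    rw [← hPr] at h7
    rw [h10 C h5] at h6
    rw [h10 C' h7] at h8
    have h11 := hRl y hy k hk i hi (mem_Cl.1 h6).2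
    subst h11
    have h12 := (mem_Cl.1 h8).2
    rcases mem_two.1 hk with rfl | rfl
    · exact not_Rl hM hfin (Rl.trans hM h12.symm hr1)
    · exact not_Rl hM hfin (Rl.trans hM hr2.symm h12)

end

/-- Choice functions for pairs imply the compactness principle. -/
theorem kk2_of_pairChoice {M : Set ZFSet.{0}} (hM : IsZF M) (h : PairChoice M) : KK2 M :=
  fun _ hX _ hR hfin => exists_col hM hX hR hfin h

end Pool.Agent.Q212.VL
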