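import Pool.Agent.Q212.VL4

/-!
# The compactness principle for `3LIN₂` fails
-/

set_option autoImplicit false
set_option linter.unusedSectionVars false
set_option linter.unreachableTactic false
set_option linter.unusedTactic false

namespace Pool.Agent.Q212.VL

open Pool.Agent.W868 Pool.Agent.W868.PName Pool.Agent.Q211.SY
open ZFSet (pair)

noncomputable section

/-! ### Vectors -/

/-- The distinguished vector. -/
def e0 : Vs := Finsupp.single 0 1

theorem two_cases (c : F2) : c = 0 ∨ c = 1 := by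
  revert c
  decide

theorem add_self' (v : Vs) : v + v = 0 := by
  ext n
  exact CharTwo.add_self_eq_zero (v n)

theorem e0_ne : e0 ≠ 0 := by
  unfold e0
  simp

theorem exists_notMem {E : Submodule F2 Vs} (hE : FiniteDimensional F2 E) : ∃ v, v ∉ E := by
  by_contra h
  push Not at h
  have h1 : E = ⊤ := by
    ext v
    simp [h v]
  obtain ⟨C, hC⟩ := Submodule.exists_isCompl E
  have h2 := rank_compl hE hC
  have h3 : C = ⊥ := by
    have h4 := hC.inf_eq_bot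
    rwa [h1, top_inf_eq] at h4
  rw [h3, rank_bot] at h2
  exact absurd h2.symm Cardinal.aleph0_ne_zero

theorem mem_sup_span {E : Submodule F2 Vs} {v u : Vs} :
    u ∈ E ⊔ Submodule.span F2 {v} ↔ u ∈ E ∨ u + v ∈ E := by
  rw [Submodule.mem_sup]
  constructor
  · rintro ⟨a, ha, b, hb, rfl⟩
    obtain ⟨c, rfl⟩ := Submodule.mem_span_singleton.1 hb
    rcases two_cases c with rfl | rfl
    · left
      rwa [zero_smul, add_zero]
    · right
      rwa [one_smul, add_assoc, add_self', add_zero]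
  · rintro (h | h)
    · exact ⟨u, h, 0, Submodule.zero_mem _, add_zero u⟩
    · refine ⟨u + v, h, v, Submodule.mem_span_singleton_self v, ?_⟩
      rw [add_assoc, add_self', add_zero]

/-- Transitivity. -/
theorem exists_move {E : Submodule F2 Vs} (hE : FiniteDimensional F2 E) {v w : Vs}
    (hv : v ∉ E) (hw : w ∉ E) : ∃ g ∈ Hb E, g v = w := by
  have hv0 : v ≠ 0 := fun h => hv (h ▸ E.zero_mem)
  have hw0 : w ≠ 0 := fun h => hw (h ▸ E.zero_mem)
  obtain ⟨n, hn⟩ := Finsupp.ne_iff.1 hv0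
  have hn1 : v n = 1 := by
    rcases two_cases (v n) with h | h
    · exact absurd h hn
    · exact h
  let j : Vs →ₗ[F2] Vs := (Finsupp.lapply n).smulRight w
  have hj : ∀ x, j x = x n • w := fun x => rfl
  obtain ⟨s, hs⟩ := exists_ext (H := Submodule.span F2 {v}) inferInstance j (by
    intro x hx h
    obtain ⟨c, rfl⟩ := Submodule.mem_span_singleton.1 hx
    rcases two_cases c with rfl | rfl
    · rw [zero_smul]
    · rw [one_smul, hj, hn1, one_smul] at h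
      exact absurd h hw0)
  have hsv : s v = w := by
    rw [hs v (Submodule.mem_span_singleton_self v), hj, hn1, one_smul]
  have hbot : ∀ x ∈ E ⊓ Submodule.span F2 {v}, x = 0 := by
    rintro x ⟨hx, hx'⟩
    obtain ⟨c, rfl⟩ := Submodule.mem_span_singleton.1 hx'
    rcases two_cases c with rfl | rfl
    · rw [zero_smul]
    · rw [one_smul] at hx
      exact absurd hx hv
  obtain ⟨g, hg1, hg2⟩ := exists_glue (E := E) (E' := Submodule.span F2 {v}) hE inferInstance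
    1 s (fun x _ => rfl) (fun x hx => by rw [hbot x hx, map_zero]) (by
      intro a ha b hb hab
      have hab' : a = s b := hab
      obtain ⟨c, rfl⟩ := Submodule.mem_span_singleton.1 hb
      rcases two_cases c with rfl | rfl
      · rw [zero_smul, map_zero] at hab'
        rw [hab']
        exact Submodule.zero_mem _
      · rw [one_smul, hsv] at hab'
        exact absurd (hab' ▸ ha) hw)
  refine ⟨g, fun x hx => hg1 x hx, ?_⟩
  rw [hg2 v (Submodule.mem_span_singleton_self v), hsv]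

/-! ### Names -/

/-- The condition with one entry. -/
def cn (v : Vs) (k : ℕ) (b : Bool) : P :=
  ⟨{((v, k), b)}, by
    intro x c c' h1 h2
    rw [Finset.mem_singleton] at h1 h2
    rw [← h2] at h1
    exact congrArg Prod.snd h1⟩

theorem le_cn {v : Vs} {k : ℕ} {b : Bool} {p : P} : p ≤ cn v k b ↔ ((v, k), b) ∈ p.1 := by
  rw [P.le_def, cn, Finset.singleton_subset_iff]

theorem sm_cn (g : Gl) (v : Vs) (k : ℕ) (b : Bool) : sm g (cn v k b) = cn (g v) k b := by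
  refine P.ext' fun a => ?_
  rw [mem_sm, cn, cn, Finset.mem_singleton, Finset.mem_singleton]
  constructor
  · intro h1
    have h2 := congrArg (mv g) h1
    rwa [mv_inv] at h2
  · rintro rfl
    exact inv_mv g ((v, k), b)

/-- The name of the real number with the index `v`. -/
def xn (v : Vs) : PName P := PName.mk ℕ (fun k => check (nat k)) (fun k => cn v k true)

theorem ap_xn (g : Gl) (v : Vs) : ap g (xn v) = xn (g v) := by
  unfold ap xn
  rw [act]
  have h1 : (fun k => act (ac g) (check (nat k) : PName P)) = fun k => check (nat k) :=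
    funext fun k => act_check (sm_top g) _
  have h2 : (fun k => ac g (cn v k true)) = fun k => cn (g v) k true :=
    funext fun k => sm_cn g v k true
  rw [h1, h2]

theorem fx_xn {v : Vs} {E : Submodule F2 Vs} (hv : v ∈ E) : Fx E (xn v) := by
  intro (g : Gl) hg p
  have h1 := ap_xn g v
  rw [hg v hv] at h1
  have h2 : act (SL.ac g) (xn v) = xn v := h1
  rw [h2]
  exact Feq.refl _ _

theorem hs_of_fx {x : PName P} {E : Submodule F2 Vs} (hE : FiniteDimensional F2 E) (h : Fx E x)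
    (hc : ∀ z c, El x z c → SL.HS z) : SL.HS x := SL.hs_iff.2 ⟨sym_iff.2 ⟨E, hE, h⟩, hc⟩

theorem hs_xn (v : Vs) : SL.HS (xn v) := by
  refine hs_of_fx (E := Submodule.span F2 {v}) inferInstance
    (fx_xn (Submodule.mem_span_singleton_self v)) fun z c hz => ?_
  obtain ⟨i, rfl, rfl⟩ := el_mk.1 hz
  exact SL.hs_check _

/-- The name of the set. -/
def AN : PName P := PName.mk Vs xn (fun _ => ⊤)

/-- The name of the first relation. -/
def R0N : PName P :=
  PName.mk (Vs × Vs) (fun t => opN (xn t.1) (opN (xn t.2) (xn (t.1 + t.2)))) (fun _ => ⊤)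

/-- The name of the second relation. -/
def R1N : PName P := PName.mk Unit (fun _ => opN (xn e0) (opN (xn e0) (xn e0))) (fun _ => ⊤)

theorem fx_AN (E : Submodule F2 Vs) : Fx E AN := by
  intro (g : Gl) _ p
  refine feq_of_el fun z c => ?_
  rw [el_act]
  constructor
  · rintro ⟨z, c, hz, rfl, rfl⟩
    obtain ⟨v, rfl, rfl⟩ := el_mk.1 hz
    exact el_mk.2 ⟨g v, (ap_xn g v).symm, (sm_top g)⟩
  · intro hz
    obtain ⟨v, rfl, rfl⟩ := el_mk.1 hz
    refine ⟨xn (g⁻¹ v), ⊤, el_mk.2 ⟨g⁻¹ v, rfl, rfl⟩, ?_, (sm_top g).symm⟩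
    have h1 := ap_xn g (g⁻¹ v)
    rw [app_inv'] at h1
    exact h1.symm

theorem hs_AN : SL.HS AN := by
  refine hs_of_fx (E := ⊥) inferInstance (fx_AN ⊥) fun z c hz => ?_
  obtain ⟨v, rfl, rfl⟩ := el_mk.1 hz
  exact hs_xn v

theorem fx_R0N (E : Submodule F2 Vs) : Fx E R0N := by
  intro (g : Gl) _ p
  have key : ∀ u v, act (ac g) (opN (xn u) (opN (xn v) (xn (u + v)))) =
      opN (xn (g u)) (opN (xn (g v)) (xn (g u + g v))) := by
    intro u v
    have h1 := ap_xn g u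
    have h2 := ap_xn g v
    have h3 := ap_xn g (u + v)
    rw [map_add] at h3
    unfold ap at h1 h2 h3
    rw [act_opN (sm_top g), act_opN (sm_top g), h1, h2, h3]
  refine feq_of_el fun z c => ?_
  rw [el_act]
  constructor
  · rintro ⟨z, c, hz, rfl, rfl⟩
    obtain ⟨⟨u, v⟩, rfl, rfl⟩ := el_mk.1 hz
    exact el_mk.2 ⟨(g u, g v), (key u v).symm, (sm_top g)⟩
  · intro hz
    obtain ⟨⟨u, v⟩, rfl, rfl⟩ := el_mk.1 hz
    refine ⟨_, ⊤, el_mk.2 ⟨(g⁻¹ u, g⁻¹ v), rfl, rfl⟩, ?_, (sm_top g).symm⟩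
    have h1 := key (g⁻¹ u) (g⁻¹ v)
    rw [app_inv', app_inv'] at h1
    exact h1.symm

theorem hs_R0N : SL.HS R0N := by
  refine hs_of_fx (E := ⊥) inferInstance (fx_R0N ⊥) fun z c hz => ?_
  obtain ⟨v, rfl, rfl⟩ := el_mk.1 hz
  exact SL.hs_opN (hs_xn _) (SL.hs_opN (hs_xn _) (hs_xn _))

theorem fx_R1N {E : Submodule F2 Vs} (hE : e0 ∈ E) : Fx E R1N := by
  intro (g : Gl) hg p
  have h1 := ap_xn g e0
  rw [hg e0 hE] at h1
  unfold ap at h1
  have key : act (ac g) (opN (xn e0) (opN (xn e0) (xn e0))) =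
      opN (xn e0) (opN (xn e0) (xn e0)) := by
    rw [act_opN (sm_top g), act_opN (sm_top g), h1]
  refine feq_of_el fun z c => ?_
  rw [el_act]
  constructor
  · rintro ⟨z, c, hz, rfl, rfl⟩
    obtain ⟨v, rfl, rfl⟩ := el_mk.1 hz
    exact el_mk.2 ⟨(), key.symm, (sm_top g)⟩
  · intro hz
    obtain ⟨v, rfl, rfl⟩ := el_mk.1 hz
    exact ⟨_, ⊤, el_mk.2 ⟨(), rfl, rfl⟩, key.symm, (sm_top g).symm⟩

theorem hs_R1N : SL.HS R1N := by
  refine hs_of_fx (E := Submodule.span F2 {e0}) inferInstance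
    (fx_R1N (Submodule.mem_span_singleton_self _)) fun z c hz => ?_
  obtain ⟨v, rfl, rfl⟩ := el_mk.1 hz
  exact SL.hs_opN (hs_xn _) (SL.hs_opN (hs_xn _) (hs_xn _))

/-! ### The model -/

/-- The packages that contain the names. -/
structure IsMod (π : Pkg P) : Prop where
  cl : SL.Cld π
  rq : ClR RQ π
  xn : ∀ v, xn v ∈ π.N
  an : AN ∈ π.N
  r0 : R0N ∈ π.N
  r1 : R1N ∈ π.N

theorem exists_mod (A : Set (PName P)) (hA : A.Countable) (p : P) :
    ∃ π : Pkg P, IsMod π ∧ A ⊆ π.N ∧ π.g 0 = p := by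
  obtain ⟨π, h1, h2, h3, h4⟩ := Sys.exists_cld SL (A ∪ ({AN, R0N, R1N} ∪ Set.range xn))
    (hA.union ((Set.toFinite _).countable.union (Set.countable_range _))) RQ RQ_countable p
  exact ⟨π, ⟨h3, h4, fun v => h1 (Or.inr (Or.inr ⟨v, rfl⟩)), h1 (Or.inr (Or.inl (by simp))),
    h1 (Or.inr (Or.inl (by simp))), h1 (Or.inr (Or.inl (by simp)))⟩,
    fun x hx => h1 (Or.inl hx), h2⟩

theorem mem_mk (π : Pkg P) {ι : Type} {f : ι → PName P} {c : ι → P} {z : ZFSet.{0}} :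
    z ∈ π.val (PName.mk ι f c) ↔ ∃ i, f i ∈ π.N ∧ z = π.val (f i) ∧ ∃ k, π.g k ≤ c i := by
  rw [π.mem_val]
  constructor
  · rintro ⟨w, hw, d, hd, hm, rfl⟩
    obtain ⟨i, rfl, rfl⟩ := el_mk.1 hd
    exact ⟨i, hw, rfl, hm⟩
  · rintro ⟨i, hi, rfl, hm⟩
    exact ⟨_, hi, _, el_mk.2 ⟨i, rfl, rfl⟩, hm, rfl⟩

theorem mem_xn (π : Pkg P) {v : Vs} {z : ZFSet.{0}} :
    z ∈ π.val (xn v) ↔ ∃ k, z = nat k ∧ ∃ j, ((v, k), true) ∈ (π.g j).1 := by
  unfold xn
  rw [mem_mk]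
  constructor
  · rintro ⟨k, -, rfl, j, hj⟩
    exact ⟨k, π.hat_nat k, j, le_cn.1 hj⟩
  · rintro ⟨k, rfl, j, hj⟩
    exact ⟨k, π.nat_Z k, (π.hat_nat k).symm, j, le_cn.2 hj⟩

section

variable {π : Pkg P} (h : IsMod π)

include h

theorem IsMod.mem_A {z : ZFSet.{0}} : z ∈ π.val AN ↔ ∃ v, z = π.val (VL.xn v) := by
  unfold AN
  rw [mem_mk]
  constructor
  · rintro ⟨v, -, rfl, -⟩
    exact ⟨v, rfl⟩
  · rintro ⟨v, rfl⟩
    exact ⟨v, h.xn v, rfl, 0, le_top⟩

theorem IsMod.mem_R0 {z : ZFSet.{0}} : z ∈ π.val R0N ↔ ∃ u v, z = pair (π.val (VL.xn u))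
    (pair (π.val (VL.xn v)) (π.val (VL.xn (u + v)))) := by
  unfold R0N
  rw [mem_mk]
  have key : ∀ u v, π.val (opN (VL.xn u) (opN (VL.xn v) (VL.xn (u + v)))) =
      pair (π.val (VL.xn u)) (pair (π.val (VL.xn v)) (π.val (VL.xn (u + v)))) := by
    intro u v
    rw [π.val_opN (h.xn u) (π.opN_mem (h.xn v) (h.xn _)), π.val_opN (h.xn v) (h.xn _)]
  constructor
  · rintro ⟨⟨u, v⟩, -, rfl, -⟩
    exact ⟨u, v, key u v⟩
  · rintro ⟨u, v, rfl⟩
    exact ⟨(u, v), π.opN_mem (h.xn u) (π.opN_mem (h.xn v) (h.xn _)), (key u v).symm, 0, le_top⟩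

theorem IsMod.mem_R1 {z : ZFSet.{0}} : z ∈ π.val R1N ↔ z = pair (π.val (VL.xn e0))
    (pair (π.val (VL.xn e0)) (π.val (VL.xn e0))) := by
  unfold R1N
  rw [mem_mk]
  have key : π.val (opN (VL.xn e0) (opN (VL.xn e0) (VL.xn e0))) =
      pair (π.val (VL.xn e0)) (pair (π.val (VL.xn e0)) (π.val (VL.xn e0))) := by
    rw [π.val_opN (h.xn _) (π.opN_mem (h.xn _) (h.xn _)), π.val_opN (h.xn _) (h.xn _)]
  constructor
  · rintro ⟨-, -, rfl, -⟩
    exact key
  · rintro rfl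
    exact ⟨(), π.opN_mem (h.xn _) (π.opN_mem (h.xn _) (h.xn _)), key.symm, 0, le_top⟩

theorem IsMod.xs_inj {u v : Vs} (huv : π.val (VL.xn u) = π.val (VL.xn v)) : u = v := by
  by_contra hne
  obtain ⟨n, hn⟩ := (π.val_eq_iff (h.xn u) (h.xn v)).1 huv
  obtain ⟨k, hk⟩ := Infinite.exists_notMem_finset ((π.g n).1.image fun a => a.1.2)
  have hk' : ∀ w b, ((w, k), b) ∉ (π.g n).1 := fun w b hb =>
    hk (Finset.mem_image.2 ⟨_, hb, rfl⟩)
  have hc1 : Cpt (π.g n) (cn u k true) := by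
    intro w m b b' h1 h2
    have h3 := Finset.mem_singleton.1 h2
    obtain ⟨h4, -⟩ := Prod.mk.inj h3
    obtain ⟨rfl, rfl⟩ := Prod.mk.inj h4
    exact absurd h1 (hk' _ _)
  have hc2 : Cpt (un _ _ hc1) (cn v k false) := by
    intro w m b b' h1 h2
    have h3 := Finset.mem_singleton.1 h2
    obtain ⟨h4, -⟩ := Prod.mk.inj h3
    obtain ⟨rfl, rfl⟩ := Prod.mk.inj h4
    rcases mem_un.1 h1 with h5 | h5
    · exact absurd h5 (hk' _ _)
    · have h6 := Finset.mem_singleton.1 h5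
      obtain ⟨h7, -⟩ := Prod.mk.inj h6
      exact absurd (Prod.mk.inj h7).1.symm hne
  obtain ⟨π', h', -, hg⟩ := exists_mod ∅ Set.countable_empty (un _ _ hc2)
  have h1 : π'.val (VL.xn u) = π'.val (VL.xn v) :=
    (π'.val_eq_iff (h'.xn u) (h'.xn v)).2 ⟨0, hn.mono (by
      rw [hg]
      exact un_left.trans un_left)⟩
  have h2 : nat k ∈ π'.val (VL.xn u) := by
    refine (mem_xn π').2 ⟨k, rfl, 0, ?_⟩
    rw [hg]
    exact (un_left (h := hc2)) ((un_right (h := hc1)) (Finset.mem_singleton_self _))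
  rw [h1] at h2
  obtain ⟨k', h3, j, h4⟩ := (mem_xn π').1 h2
  obtain rfl := nat_injective h3
  have h5 : ((v, k), false) ∈ (π'.g j).1 := by
    have h6 : π'.g j ≤ un _ _ hc2 := (Sys.g_le π' (Nat.zero_le j)).trans hg.le
    exact h6 ((un_right (h := hc2)) (Finset.mem_singleton_self _))
  exact absurd ((π'.g j).2 _ _ _ h4 h5) (by decide)

end

/-- Finite sets of elements of a model. -/
theorem fin_mem {M : Set ZFSet.{0}} (hM : IsZF M) (s : Set ZFSet.{0}) (hs : s.Finite)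
    (hsM : ∀ z ∈ s, z ∈ M) : ∃ y ∈ M, ∀ z, z ∈ y ↔ z ∈ s := by
  induction s, hs using Set.Finite.induction_on with
  | empty => exact ⟨∅, hM.empty_mem, fun z => ⟨fun h => absurd h (ZFSet.notMem_empty z),
      fun h => absurd h (Set.notMem_empty z)⟩⟩
  | insert _ _ ih =>
    obtain ⟨y, hy, h1⟩ := ih fun z hz => hsM z (Set.mem_insert_of_mem _ hz)
    refine ⟨insert _ y, hM.insert_mem (hsM _ (Set.mem_insert _ _)) hy, fun z => ?_⟩
    rw [ZFSet.mem_insert_iff, h1, Set.mem_insert_iff]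

theorem val_mod (c : F2) : c.val = 0 ∨ c.val = 1 := by
  rcases two_cases c with rfl | rfl
  · exact Or.inl rfl
  · exact Or.inr rfl

/-- The finite subsystems are solvable. -/
theorem fin_sol {π : Pkg P} (h : IsMod π) {a : ZFSet.{0}} (ha : a ⊆ π.val AN)
    (hfin : {z | z ∈ a}.Finite) : ∃ f ∈ SL.Ms π, IsSol a (π.val R0N) (π.val R1N) f := by
  classical
  have hM := T_ZF.isZF h.cl
  have h1 : ∀ z ∈ a, ∃ v, z = π.val (xn v) := fun z hz => (h.mem_A).1 (ha hz)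
  choose! V hV using h1
  obtain ⟨f, hf, hf'⟩ := fin_mem hM ((fun z => pair z (nat ((V z) 0).val)) '' {z | z ∈ a})
    (hfin.image _) (by
      rintro _ ⟨z, hz, rfl⟩
      refine hM.pair_mem ?_ (hM.nat_mem _)
      rw [hV z hz]
      exact Sys.mem_Ms (h.xn _) (hs_xn _))
  have key : ∀ z ∈ a, ∀ y, pair z y ∈ f ↔ y = nat ((V z) 0).val := by
    intro z hz y
    rw [hf']
    constructor
    · rintro ⟨w, hw, h2⟩
      obtain ⟨rfl, rfl⟩ := ZFSet.pair_inj.1 h2
      rfl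
    · rintro rfl
      exact ⟨z, hz, rfl⟩
  have hVx : ∀ v, π.val (xn v) ∈ a → V (π.val (xn v)) = v := fun v hv =>
    (h.xs_inj (hV _ hv)).symm
  refine ⟨f, hf, ⟨fun p hp => ?_, fun z hz => ?_⟩, ?_⟩
  · obtain ⟨z, hz, rfl⟩ := (hf' p).1 hp
    refine ZFSet.pair_mem_prod.2 ⟨hz, ?_⟩
    rw [mem_two]
    rcases val_mod ((V z) 0) with h3 | h3
    · rw [h3]; exact Or.inl rfl
    · rw [h3]; exact Or.inr rfl
  · exact ⟨_, (key z hz _).2 rfl, fun y hy => (key z hz y).1 hy⟩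
  · intro x hx y hy z hz i j k hi hj hk
    have hi' := nat_injective ((key x hx _).1 hi)
    have hj' := nat_injective ((key y hy _).1 hj)
    have hk' := nat_injective ((key z hz _).1 hk)
    constructor
    · intro hR
      obtain ⟨u, v, h3⟩ := (h.mem_R0).1 hR
      obtain ⟨rfl, h4⟩ := ZFSet.pair_inj.1 h3
      obtain ⟨rfl, rfl⟩ := ZFSet.pair_inj.1 h4
      rw [hVx _ hx] at hi'
      rw [hVx _ hy] at hj'
      rw [hVx _ hz] at hk'
      rw [hi', hj', hk', Finsupp.add_apply]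
      rcases two_cases (u 0) with h5 | h5 <;> rcases two_cases (v 0) with h6 | h6 <;>
        rw [h5, h6] <;> decide
    · intro hR
      have h3 := (h.mem_R1).1 hR
      obtain ⟨rfl, h4⟩ := ZFSet.pair_inj.1 h3
      obtain ⟨rfl, rfl⟩ := ZFSet.pair_inj.1 h4
      rw [hVx _ hx] at hi' hj' hk'
      have h5 : e0 0 = 1 := by
        unfold e0
        rw [Finsupp.single_eq_same]
      rw [hi', hj', hk', h5]
      decide

/-- The statement that `v 0` is a solution. -/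
theorem ud_sol : UD fun _ (v : Fin 4 → ZFSet.{0}) =>
    (∀ x ∈ v 1, (pair x (nat 0) ∈ v 0 ∨ pair x (nat 1) ∈ v 0) ∧
      ¬ (pair x (nat 0) ∈ v 0 ∧ pair x (nat 1) ∈ v 0)) ∧
    (∀ x ∈ v 1, ∀ y ∈ v 1, ∀ z ∈ v 1, pair x (pair y z) ∈ v 2 →
      ((pair x (nat 0) ∈ v 0 ↔ pair y (nat 0) ∈ v 0) ↔ pair z (nat 0) ∈ v 0)) ∧
    (∀ x ∈ v 1, pair x (pair x x) ∈ v 3 → ¬ pair x (nat 0) ∈ v 0) := by
  (repeat' first
    | assumption
    | exact UF.proj _
    | exact UF.om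
    | exact UF.nat _
    | exact UD.prop _
    | apply UD.not | apply UD.and | apply UD.or | apply UD.imp | apply UD.iff
    | apply UD.bex | apply UD.ball | apply UD.ex | apply UD.all
    | apply UD.eq | apply UD.mem | apply UF.pair)

/-- The statement that the value is zero. -/
theorem ud_z : UD fun _ (v : Fin 2 → ZFSet.{0}) => pair (v 0) (nat 0) ∈ v 1 :=
  UD.mem (UF.pair (UF.proj 0) (UF.nat 0)) (UF.proj 1)

theorem frc_res {n : ℕ} {R : Set ZFSet.{0} → (Fin n → ZFSet.{0}) → Prop} {hR : UD R}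
    {x : Fin n → PName P} {F : Submodule F2 Vs} (hF : FiniteDimensional F2 F)
    (hx : ∀ i, Fx F (x i)) {q : P} (h : SL.Frc hR x q) : SL.Frc hR x (res q F) := by
  refine res_of (Φ := fun q => SL.Frc hR x q) (fun p r hr hp => hp.mono hr)
    (fun p hp => Sys.frc_dense hp) hF ?_ h
  intro g hg p hp
  exact Sys.frc_fix (S := SL) hx hg hp

theorem logic_aux {τ z1 z2 z3 z4 w1 w2 w3 : Prop} (t1 : τ ↔ z1) (t2 : τ ↔ z2) (t3 : τ ↔ z3)
    (t4 : τ ↔ z4) (a1 : (z1 ↔ z2) ↔ w1) (a2 : (z3 ↔ z4) ↔ w2) (a3 : (w1 ↔ w2) ↔ w3)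
    (hz : ¬ w3) : False := by
  rw [← t1, ← t2] at a1
  rw [← t3, ← t4] at a2
  exact hz (a3.1 (iff_of_true (a1.1 Iff.rfl) (a2.1 Iff.rfl)))

theorem no_sol {π : Pkg P} (h : IsMod π) :
    ¬ ∃ f ∈ SL.Ms π, IsSol (π.val AN) (π.val R0N) (π.val R1N) f := by
  rintro ⟨_, ⟨φ, ⟨hφN, hφS⟩, rfl⟩, hf1, hf2⟩
  obtain ⟨E0, hE0, hfE0⟩ := sym_iff.1 hφS.sym
  set E := E0 ⊔ Submodule.span F2 {e0} with hEdef
  have hE : FiniteDimensional F2 E := inferInstance
  have heE : e0 ∈ E := Submodule.mem_sup_right (Submodule.mem_span_singleton_self _)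
  have hfE : Fx E φ := hfE0.mono le_sup_left
  -- the statement
  have hx : ∀ i, ![φ, AN, R0N, R1N] i ∈ π.N ∧ SL.HS (![φ, AN, R0N, R1N] i) := by
    intro i
    fin_cases i
    exacts [⟨hφN, hφS⟩, ⟨h.an, hs_AN⟩, ⟨h.r0, hs_R0N⟩, ⟨h.r1, hs_R1N⟩]
  have hxE : ∀ i, Fx E (![φ, AN, R0N, R1N] i) := by
    intro i
    fin_cases i
    exacts [hfE, fx_AN E, fx_R0N E, fx_R1N heE]
  have hval : ∀ x ∈ π.val AN, (pair x (nat 0) ∈ π.val φ ∧ pair x (nat 1) ∉ π.val φ) ∨
      (pair x (nat 1) ∈ π.val φ ∧ pair x (nat 0) ∉ π.val φ) := by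
    intro x hx
    obtain ⟨i, hi, hu⟩ := hf1.2 x hx
    rcases mem_two.1 (ZFSet.pair_mem_prod.1 (hf1.1 hi)).2 with rfl | rfl
    · exact Or.inl ⟨hi, fun h1 => nat01 (hu _ h1).symm⟩
    · exact Or.inr ⟨hi, fun h1 => nat01 (hu _ h1)⟩
  obtain ⟨k0, hk0⟩ := (Sys.frc_iff ud_sol h.cl hx).1 (by
    refine ⟨fun x hx => ?_, fun x hx y hy z hz hxyz => ?_, fun x hx hxx hx0 => ?_⟩
    · rcases hval x hx with h1 | h1
      · exact ⟨Or.inl h1.1, fun h2 => h1.2 h2.2⟩
      · exact ⟨Or.inr h1.1, fun h2 => h1.2 h2.1⟩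
    · have h3 := fun i j k hi hj hk => (hf2 x hx y hy z hz i j k hi hj hk).1 hxyz
      change (pair x (nat 0) ∈ π.val φ ↔ pair y (nat 0) ∈ π.val φ) ↔ pair z (nat 0) ∈ π.val φ
      rcases hval x hx with h4 | h4 <;> rcases hval y hy with h5 | h5 <;>
        rcases hval z hz with h6 | h6
      · tauto
      · exact absurd (h3 0 0 1 h4.1 h5.1 h6.1) (by norm_num)
      · exact absurd (h3 0 1 0 h4.1 h5.1 h6.1) (by norm_num)
      · tauto
      · exact absurd (h3 1 0 0 h4.1 h5.1 h6.1) (by norm_num)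
      · tauto
      · tauto
      · exact absurd (h3 1 1 1 h4.1 h5.1 h6.1) (by norm_num)
    · exact absurd ((hf2 x hx x hx x hx 0 0 0 hx0 hx0 hx0).2 hxx) (by norm_num))
  obtain ⟨v0, hv0⟩ := exists_notMem hE
  set F := E ⊔ Submodule.span F2 {v0} with hFdef
  have hF : FiniteDimensional F2 F := inferInstance
  have hv0F : v0 ∈ F := Submodule.mem_sup_right (Submodule.mem_span_singleton_self _)
  -- decide the value at `v0`
  have hy : ∀ i, ![xn v0, φ] i ∈ π.N ∧ SL.HS (![xn v0, φ] i) := by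
    intro i
    fin_cases i
    exacts [⟨h.xn v0, hs_xn v0⟩, ⟨hφN, hφS⟩]
  have hyF : ∀ i, Fx F (![xn v0, φ] i) := by
    intro i
    fin_cases i
    exacts [fx_xn hv0F, hfE.mono le_sup_left]
  obtain ⟨τ, hτ⟩ : ∃ τ : Prop, τ = (pair (π.val (xn v0)) (nat 0) ∈ π.val φ) := ⟨_, rfl⟩
  have hdec : ∃ k1, (τ → SL.Frc ud_z ![xn v0, φ] (π.g k1)) ∧
      (¬ τ → SL.Frc ud_z.not ![xn v0, φ] (π.g k1)) := by
    by_cases ht : τ
    · obtain ⟨k, hk⟩ := (Sys.frc_iff ud_z h.cl hy).1 (by rw [hτ] at ht; exact ht)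
      exact ⟨k, fun _ => hk, fun h => absurd ht h⟩
    · obtain ⟨k, hk⟩ := (Sys.frc_iff ud_z.not h.cl hy).1 (by rw [hτ] at ht; exact ht)
      exact ⟨k, fun h => absurd h ht, fun _ => hk⟩
  obtain ⟨k1, hk1⟩ := hdec
  set q := res (π.g (max k0 k1)) F with hq
  have hq0 : SL.Frc ud_sol ![φ, AN, R0N, R1N] q :=
    frc_res hF (fun i => (hxE i).mono le_sup_left) (hk0.mono (π.g_le_left _ _))
  have hq1 : τ → SL.Frc ud_z ![xn v0, φ] q := fun ht =>
    frc_res hF hyF ((hk1.1 ht).mono (π.g_le_right _ _))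
  have hq2 : ¬ τ → SL.Frc ud_z.not ![xn v0, φ] q := fun ht =>
    frc_res hF hyF ((hk1.2 ht).mono (π.g_le_right _ _))
  have hqF : ∀ u n b, ((u, n), b) ∈ q.1 → u ∈ F := fun u n b hb => (mem_res.1 hb).2
  -- translates
  have htr1 : ∀ g ∈ Hb E, SL.Frc ud_sol ![φ, AN, R0N, R1N] (sm g q) := fun g hg =>
    Sys.frc_fix (S := SL) hxE hg hq0
  have hact : ∀ g ∈ Hb E, ∀ p, ∀ i, Feq (act (SL.ac g) (![xn v0, φ] i)) (![xn (g v0), φ] i) p := by
    intro g hg p i
    fin_cases i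
    · change Feq (ap g (xn v0)) (xn (g v0)) p
      rw [ap_xn]
      exact Feq.refl _ _
    · exact hfE g hg p
  have htr2 : τ → ∀ g ∈ Hb E, SL.Frc ud_z ![xn (g v0), φ] (sm g q) := by
    intro ht g hg
    have h1 : SL.Frc ud_z (fun i => act (SL.ac g) (![xn v0, φ] i)) (SL.ac g q) :=
      (Sys.frc_act g).2 (hq1 ht)
    exact (Sys.frc_congr (hact g hg _)).1 h1
  have htr3 : ¬ τ → ∀ g ∈ Hb E, SL.Frc ud_z.not ![xn (g v0), φ] (sm g q) := by
    intro ht g hg
    have h1 : SL.Frc ud_z.not (fun i => act (SL.ac g) (![xn v0, φ] i)) (SL.ac g q) :=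
      (Sys.frc_act g).2 (hq2 ht)
    exact (Sys.frc_congr (hact g hg _)).1 h1
  -- compatibility of the translates
  have hcpt : ∀ g ∈ Hb E, ∀ k ∈ Hb E, g v0 ∉ E → k v0 ∉ E → g v0 + k v0 ∉ E →
      Cpt (sm g q) (sm k q) := by
    intro g hg k hk hgv hkv hgk u n b b' h1 h2
    obtain ⟨x, rfl, h3⟩ := mem_sm'.1 h1
    obtain ⟨y, h4, h5⟩ := mem_sm'.1 h2
    have hx := mem_sup_span.1 (hqF _ _ _ h3)
    have hy := mem_sup_span.1 (hqF _ _ _ h5)
    have hg' : ∀ x, x + v0 ∈ E → g x = (x + v0) + g v0 := by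
      intro x hx
      have h6 := hg _ hx
      rw [map_add] at h6
      rw [← h6, add_assoc, add_self', add_zero]
    have hk' : ∀ x, x + v0 ∈ E → k x = (x + v0) + k v0 := by
      intro x hx
      have h6 := hk _ hx
      rw [map_add] at h6
      rw [← h6, add_assoc, add_self', add_zero]
    rcases hx with hx | hx <;> rcases hy with hy | hy
    · rw [hg x hx, hk y hy] at h4
      subst h4
      exact q.2 _ _ _ h3 h5
    · exfalso
      rw [hg x hx, hk' y hy] at h4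
      apply hkv
      have h6 : k v0 = (y + v0) + x := by
        rw [h4, ← add_assoc, add_self', zero_add]
      rw [h6]
      exact Submodule.add_mem _ hy hx
    · exfalso
      rw [hg' x hx, hk y hy] at h4
      apply hgv
      have h6 : g v0 = (x + v0) + y := by
        rw [← h4, ← add_assoc, add_self', zero_add]
      rw [h6]
      exact Submodule.add_mem _ hx hy
    · exfalso
      rw [hg' x hx, hk' y hy] at h4
      apply hgk
      have h6 : g v0 + k v0 = (x + v0) + (y + v0) := by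
        have h7 : g v0 = (x + v0) + ((y + v0) + k v0) := by
          rw [← h4, ← add_assoc, add_self', zero_add]
        rw [h7]
        have h8 : (x + v0) + ((y + v0) + k v0) + k v0 =
            (x + v0) + (y + v0) + (k v0 + k v0) := by abel
        rw [h8, add_self', add_zero]
      rw [h6]
      exact Submodule.add_mem _ hx hy
  -- the vectors
  obtain ⟨v1, hv1⟩ := exists_notMem hF
  obtain ⟨v2, hv2⟩ := exists_notMem (E := F ⊔ Submodule.span F2 {v1}) inferInstance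
  have hEF : E ≤ F := le_sup_left
  have hv1' : ∀ x ∈ F, v1 + x ∉ F := fun x hx hx' => hv1 (by
    have := Submodule.add_mem _ hx' hx
    rwa [add_assoc, add_self', add_zero] at this)
  have hv2' : ∀ x ∈ F ⊔ Submodule.span F2 {v1}, v2 + x ∉ F ⊔ Submodule.span F2 {v1} :=
    fun x hx hx' => hv2 (by
      have := Submodule.add_mem _ hx' hx
      rwa [add_assoc, add_self', add_zero] at this)
  have hv1s : v1 ∈ F ⊔ Submodule.span F2 {v1} :=
    Submodule.mem_sup_right (Submodule.mem_span_singleton_self _)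
  have hFs : F ≤ F ⊔ Submodule.span F2 {v1} := le_sup_left
  have hw1 : v1 ∉ E := fun h1 => hv1 (hEF h1)
  have hw2 : v0 + v1 ∉ E := fun h1 => hv1' v0 hv0F (by
    rw [add_comm]
    exact hEF h1)
  have hw3 : v2 ∉ E := fun h1 => hv2 (hFs (hEF h1))
  have hw4 : v0 + e0 + v2 ∉ E := fun h1 =>
    hv2' (v0 + e0) (hFs (Submodule.add_mem _ hv0F (hEF heE))) (by
      rw [add_comm]
      exact hFs (hEF h1))
  obtain ⟨g1, hg1, e1⟩ := exists_move hE hv0 hw1
  obtain ⟨g2, hg2, e2⟩ := exists_move hE hv0 hw2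
  obtain ⟨g3, hg3, e3⟩ := exists_move hE hv0 hw3
  obtain ⟨g4, hg4, e4⟩ := exists_move hE hv0 hw4
  have c12 := hcpt g1 hg1 g2 hg2 (e1 ▸ hw1) (e2 ▸ hw2) (by
    rw [e1, e2]
    have h1 : v1 + (v0 + v1) = v0 + (v1 + v1) := by abel
    rw [h1, add_self', add_zero]
    exact hv0)
  have c13 := hcpt g1 hg1 g3 hg3 (e1 ▸ hw1) (e3 ▸ hw3) (by
    rw [e1, e3]
    intro h1
    refine hv2' v1 hv1s ?_
    rw [add_comm]
    exact hFs (hEF h1))
  have c23 := hcpt g2 hg2 g3 hg3 (e2 ▸ hw2) (e3 ▸ hw3) (by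
    rw [e2, e3]
    intro h1
    refine hv2' (v0 + v1) (Submodule.add_mem _ (hFs hv0F) hv1s) ?_
    rw [add_comm]
    exact hFs (hEF h1))
  have c14 := hcpt g1 hg1 g4 hg4 (e1 ▸ hw1) (e4 ▸ hw4) (by
    rw [e1, e4]
    intro h1
    refine hv2' (v1 + (v0 + e0)) (Submodule.add_mem _ hv1s
      (hFs (Submodule.add_mem _ hv0F (hEF heE)))) ?_
    have h2 : v2 + (v1 + (v0 + e0)) = v1 + (v0 + e0 + v2) := by abel
    rw [h2]
    exact hFs (hEF h1))
  have c24 := hcpt g2 hg2 g4 hg4 (e2 ▸ hw2) (e4 ▸ hw4) (by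
    rw [e2, e4]
    intro h1
    refine hv2' ((v0 + v1) + (v0 + e0)) (Submodule.add_mem _
      (Submodule.add_mem _ (hFs hv0F) hv1s)
      (hFs (Submodule.add_mem _ hv0F (hEF heE)))) ?_
    have h2 : v2 + ((v0 + v1) + (v0 + e0)) = v0 + v1 + (v0 + e0 + v2) := by abel
    rw [h2]
    exact hFs (hEF h1))
  have c34 := hcpt g3 hg3 g4 hg4 (e3 ▸ hw3) (e4 ▸ hw4) (by
    rw [e3, e4]
    intro h1
    have h2 : v2 + (v0 + e0 + v2) = v0 + e0 + (v2 + v2) := by abel
    rw [h2, add_self', add_zero] at h1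
    refine hv0 ?_
    have h3 := Submodule.add_mem _ h1 heE
    rwa [add_assoc, add_self', add_zero] at h3)
  have d3 : Cpt (un _ _ c12) (sm g3 q) := Cpt.un c13 c23
  have d4 : Cpt (un _ _ d3) (sm g4 q) := Cpt.un (Cpt.un c14 c24) c34
  set s := un _ _ d4 with hs
  have hs1 : s ≤ sm g1 q := un_left.trans (un_left.trans un_left)
  have hs2 : s ≤ sm g2 q := un_left.trans (un_left.trans un_right)
  have hs3 : s ≤ sm g3 q := un_left.trans un_right
  have hs4 : s ≤ sm g4 q := un_right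
  obtain ⟨π', h', hA, hg0⟩ := exists_mod {φ} (Set.countable_singleton _) s
  have hφN' : φ ∈ π'.N := hA rfl
  have hsol := (Sys.frc_sem (fun i => (hx i).2)).1 (htr1 g1 hg1) π' h'.cl (by
    intro i
    fin_cases i
    exacts [hφN', h'.an, h'.r0, h'.r1]) ⟨0, hg0.le.trans hs1⟩
  obtain ⟨-, hs5, hs6⟩ := hsol
  have hT : ∀ g ∈ Hb E, s ≤ sm g q → (τ ↔ pair (π'.val (xn (g v0))) (nat 0) ∈ π'.val φ) := by
    intro g hg hsg
    have hyg : ∀ i, SL.HS (![xn (g v0), φ] i) := by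
      intro i
      fin_cases i
      exacts [hs_xn _, hφS]
    have hygN : ∀ i, ![xn (g v0), φ] i ∈ π'.N := by
      intro i
      fin_cases i
      exacts [h'.xn _, hφN']
    constructor
    · intro ht
      exact (Sys.frc_sem hyg).1 (htr2 ht g hg) π' h'.cl hygN ⟨0, hg0.le.trans hsg⟩
    · intro ht
      by_contra hnt
      exact (Sys.frc_sem hyg).1 (htr3 hnt g hg) π' h'.cl hygN ⟨0, hg0.le.trans hsg⟩ ht
  have t1 := hT g1 hg1 hs1
  have t2 := hT g2 hg2 hs2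
  have t3 := hT g3 hg3 hs3
  have t4 := hT g4 hg4 hs4
  rw [e1] at t1
  rw [e2] at t2
  rw [e3] at t3
  rw [e4] at t4
  have hA' : ∀ v, π'.val (xn v) ∈ π'.val AN := fun v => (h'.mem_A).2 ⟨v, rfl⟩
  have hadd : ∀ u v, (pair (π'.val (xn u)) (nat 0) ∈ π'.val φ ↔
      pair (π'.val (xn v)) (nat 0) ∈ π'.val φ) ↔
      pair (π'.val (xn (u + v))) (nat 0) ∈ π'.val φ := fun u v =>
    hs5 _ (hA' u) _ (hA' v) _ (hA' _) ((h'.mem_R0).2 ⟨u, v, rfl⟩)
  have a1 := hadd v1 (v0 + v1)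
  have a2 := hadd v2 (v0 + e0 + v2)
  have a3 := hadd v0 (v0 + e0)
  have b1 : v1 + (v0 + v1) = v0 := by
    have h1 : v1 + (v0 + v1) = v0 + (v1 + v1) := by abel
    rw [h1, add_self', add_zero]
  have b2 : v2 + (v0 + e0 + v2) = v0 + e0 := by
    have h1 : v2 + (v0 + e0 + v2) = v0 + e0 + (v2 + v2) := by abel
    rw [h1, add_self', add_zero]
  have b3 : v0 + (v0 + e0) = e0 := by
    rw [← add_assoc, add_self', zero_add]
  rw [b1] at a1
  rw [b2] at a2
  rw [b3] at a3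
  have hz := hs6 _ (hA' e0) ((h'.mem_R1).2 rfl)
  have hz' : ¬ pair (π'.val (xn e0)) (nat 0) ∈ π'.val φ := hz
  exact logic_aux t1 t2 t3 t4 a1 a2 a3 hz'

/-- There is a model in which the compactness principle holds for `K₂` and fails for `3LIN₂`. -/
theorem main : ∃ M : Set ZFSet.{0}, M.Countable ∧ IsZF M ∧ KK2 M ∧ ¬ K3LIN2 M := by
  obtain ⟨π, h, -, -⟩ := exists_mod ∅ Set.countable_empty ⊤
  have hM := T_ZF.isZF h.cl
  refine ⟨SL.Ms π, ?_, hM, kk2_of_pairChoice hM (pairChoice h.cl h.rq), fun hK => ?_⟩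
  · refine (π.countable_W).mono ?_
    rintro _ ⟨x, hx, rfl⟩
    exact ⟨x, hx.1, rfl⟩
  · refine no_sol h (hK _ (Sys.mem_Ms h.an hs_AN) _ (Sys.mem_Ms h.r0 hs_R0N) _
      (Sys.mem_Ms h.r1 hs_R1N) fun a _ ha hfin => ?_)
    exact fin_sol h ha hfin

end

end Pool.Agent.Q212.VL
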