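import Pool.Agent.H310R3.StepZ

/-!
# Dedekind finiteness from a choice of new elements
-/

set_option maxHeartbeats 400000
set_option linter.all false

namespace Pool.Agent.Q212.ZA

open FirstOrder FirstOrder.Language
open Pool.Agent.Helper672.ZFA
open Pool.Agent.H310

universe u u₁ u₂ u₃ u₄

variable {M : Type u} [L.Structure M] [hM : IsModel M]
variable {α : Type u₁} {β : Type u₂} {γ : Type u₃} {δ : Type u₄}
  [ITy M α] [ITy M β] [ITy M γ] [ITy M δ]

/-! ### The transfinite construction -/

section

variable {nel : IPow M (ISq M α) → α}

/-- The stages. -/
noncomputable def stg (nel : IPow M (ISq M α) → α) (g₀ : ISq M α) (R : IPow M (ISq M α))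
    (n : INat M) : ISq M α := irec g₀ (fun _ g => cns (nel (insert g R)) g) n

theorem int_stg (h1 : IntF M nel) (g₀ : ISq M α) :
    IntF M (fun q : IPow M (ISq M α) × INat M => stg nel g₀ q.1 q.2) := by
  have h2 := int_cns (M := M) (α := α)
  unfold stg
  (repeat' (first | with_reducible exact IntF.id | with_reducible exact IntF.fst' | with_reducible exact IntF.snd' | with_reducible exact IntF.const _ | with_reducible exact Int.const _ | assumption | with_reducible apply Int.and | with_reducible apply Int.or | with_reducible apply Int.not | with_reducible apply Int.imp | with_reducible apply Int.iff | with_reducible apply Int.ne | with_reducible apply Int.eq | with_reducible apply Int.mem | with_reducible apply Int.subset | with_reducible apply Int.ltN | with_reducible apply Int.leN | with_reducible apply Int.fin | with_reducible apply Int.unique | with_reducible apply Int.all | with_reducible apply Int.ex | with_reducible apply IntF.fst | with_reducible apply IntF.snd | with_reducible apply IntF.app | with_reducible apply IntF.ite | with_reducible apply IntF.sep | with_reducible apply IntF.lam | with_reducible apply IntF.insert | with_reducible apply IntF.singleton | with_reducible apply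 IntF.union | with_reducible apply IntF.inter | with_reducible apply IntF.sdiff | with_reducible apply IntF.isUnion | with_reducible apply IntF.iimage | with_reducible apply IntF.the | with_reducible apply IntF.irec | with_reducible_and_instances apply IntF.add | with_reducible_and_instances apply IntF.mul | with_reducible apply IntF.succ | with_reducible apply IntF.val | (with_reducible refine Int.comp ?_ ?_; assumption) | (with_reducible refine Int.comp₂ ?_ ?_ ?_; assumption) | (with_reducible refine Int.comp₃ ?_ ?_ ?_ ?_; assumption) | (with_reducible refine IntF.comp ?_ ?_; assumption) | (with_reducible refine IntF.comp₂ ?_ ?_ ?_; assumption) | (with_reducible refine IntF.comp₃ ?_ ?_ ?_ ?_; assumption) | with_reducible apply IntF.pair))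

theorem stg_zero (h1 : IntF M nel) (g₀ : ISq M α) (R : IPow M (ISq M α)) :
    stg nel g₀ R 0 = g₀ := by
  have h2 := int_cns (M := M) (α := α)
  exact irec_zero (by (repeat' (first | with_reducible exact IntF.id | with_reducible exact IntF.fst' | with_reducible exact IntF.snd' | with_reducible exact IntF.const _ | with_reducible exact Int.const _ | assumption | with_reducible apply Int.and | with_reducible apply Int.or | with_reducible apply Int.not | with_reducible apply Int.imp | with_reducible apply Int.iff | with_reducible apply Int.ne | with_reducible apply Int.eq | with_reducible apply Int.mem | with_reducible apply Int.subset | with_reducible apply Int.ltN | with_reducible apply Int.leN | with_reducible apply Int.fin | with_reducible apply Int.unique | with_reducible apply Int.all | with_reducible apply Int.ex | with_reducible apply IntF.fst | with_reducible apply IntF.snd | with_reducible apply IntF.app | with_reducible apply IntF.ite | with_reducible apply IntF.sep | with_reducible apply IntF.lam | with_reducible apply IntF.insert | with_reducible apply IntF.singleton | with_reducible apply IntF.union | with_reducible apply IntF.inter | with_reducible apply IntF.sdiff | with_reducible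 apply IntF.isUnion | with_reducible apply IntF.iimage | with_reducible apply IntF.the | with_reducible apply IntF.irec | with_reducible_and_instances apply IntF.add | with_reducible_and_instances apply IntF.mul | with_reducible apply IntF.succ | with_reducible apply IntF.val | (with_reducible refine Int.comp ?_ ?_; assumption) | (with_reducible refine Int.comp₂ ?_ ?_ ?_; assumption) | (with_reducible refine Int.comp₃ ?_ ?_ ?_ ?_; assumption) | (with_reducible refine IntF.comp ?_ ?_; assumption) | (with_reducible refine IntF.comp₂ ?_ ?_ ?_; assumption) | (with_reducible refine IntF.comp₃ ?_ ?_ ?_ ?_; assumption) | with_reducible apply IntF.pair)))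

theorem stg_succ (h1 : IntF M nel) (g₀ : ISq M α) (R : IPow M (ISq M α)) (n : INat M) :
    stg nel g₀ R n.succ = cns (nel (insert (stg nel g₀ R n) R)) (stg nel g₀ R n) := by
  have h2 := int_cns (M := M) (α := α)
  exact irec_succ (f := fun _ g => cns (nel (insert g R)) g) (by (repeat' (first | with_reducible exact IntF.id | with_reducible exact IntF.fst' | with_reducible exact IntF.snd' | with_reducible exact IntF.const _ | with_reducible exact Int.const _ | assumption | with_reducible apply Int.and | with_reducible apply Int.or | with_reducible apply Int.not | with_reducible apply Int.imp | with_reducible apply Int.iff | with_reducible apply Int.ne | with_reducible apply Int.eq | with_reducible apply Int.mem | with_reducible apply Int.subset | with_reducible apply Int.ltN | with_reducible apply Int.leN | with_reducible apply Int.fin | with_reducible apply Int.unique | with_reducible apply Int.all | with_reducible apply Int.ex | with_reducible apply IntF.fst | with_reducible apply IntF.snd | with_reducible apply IntF.app | with_reducible apply IntF.ite | with_reducible apply IntF.sep | with_reducible apply IntF.lam | with_reducible apply IntF.insert | with_reducible apply IntF.singleton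 | with_reducible apply IntF.union | with_reducible apply IntF.inter | with_reducible apply IntF.sdiff | with_reducible apply IntF.isUnion | with_reducible apply IntF.iimage | with_reducible apply IntF.the | with_reducible apply IntF.irec | with_reducible_and_instances apply IntF.add | with_reducible_and_instances apply IntF.mul | with_reducible apply IntF.succ | with_reducible apply IntF.val | (with_reducible refine Int.comp ?_ ?_; assumption) | (with_reducible refine Int.comp₂ ?_ ?_ ?_; assumption) | (with_reducible refine Int.comp₃ ?_ ?_ ?_ ?_; assumption) | (with_reducible refine IntF.comp ?_ ?_; assumption) | (with_reducible refine IntF.comp₂ ?_ ?_ ?_; assumption) | (with_reducible refine IntF.comp₃ ?_ ?_ ?_ ?_; assumption) | with_reducible apply IntF.pair))) n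

theorem stg_spec (h1 : IntF M nel) (hn : ∀ E, Vld E → ∀ e, e ∈ E → ∀ l, nel E ≠ e.1 l)
    {g₀ : ISq M α} {R : IPow M (ISq M α)} (hR : Vld R) (hg : Dsj R g₀) (n : INat M) :
    Dsj R (stg nel g₀ R n) ∧ (∀ k, (stg nel g₀ R n).1 k ≠ nel (insert (stg nel g₀ R n) R)) ∧
      (∀ e k, e ∈ R → e.1 k ≠ nel (insert (stg nel g₀ R n) R)) := by
  have hs := int_stg h1 g₀
  have key : ∀ g, Dsj R g → (∀ k, g.1 k ≠ nel (insert g R)) ∧
      ∀ e k, e ∈ R → e.1 k ≠ nel (insert g R) := by
    intro g hg
    have hv := vld_insert hR hg
    exact ⟨fun k h => hn _ hv _ (mem_insert.2 (Or.inl rfl)) k h.symm,
      fun e k he h => hn _ hv _ (mem_insert.2 (Or.inr he)) k h.symm⟩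
  have h2 : Dsj R (stg nel g₀ R n) := by
    refine INat.ind (p := fun n => Dsj R (stg nel g₀ R n)) (by
      unfold Dsj
      (repeat' (first | with_reducible exact IntF.id | with_reducible exact IntF.fst' | with_reducible exact IntF.snd' | with_reducible exact IntF.const _ | with_reducible exact Int.const _ | assumption | with_reducible apply Int.and | with_reducible apply Int.or | with_reducible apply Int.not | with_reducible apply Int.imp | with_reducible apply Int.iff | with_reducible apply Int.ne | with_reducible apply Int.eq | with_reducible apply Int.mem | with_reducible apply Int.subset | with_reducible apply Int.ltN | with_reducible apply Int.leN | with_reducible apply Int.fin | with_reducible apply Int.unique | with_reducible apply Int.all | with_reducible apply Int.ex | with_reducible apply IntF.fst | with_reducible apply IntF.snd | with_reducible apply IntF.app | with_reducible apply IntF.ite | with_reducible apply IntF.sep | with_reducible apply IntF.lam | with_reducible apply IntF.insert | with_reducible apply IntF.singleton | with_reducible apply IntF.union | with_reducible apply IntF.inter | with_reducible apply IntF.sdiff | with_reducible apply IntF.isUnion | with_reducible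 apply IntF.iimage | with_reducible apply IntF.the | with_reducible apply IntF.irec | with_reducible_and_instances apply IntF.add | with_reducible_and_instances apply IntF.mul | with_reducible apply IntF.succ | with_reducible apply IntF.val | (with_reducible refine Int.comp ?_ ?_; assumption) | (with_reducible refine Int.comp₂ ?_ ?_ ?_; assumption) | (with_reducible refine Int.comp₃ ?_ ?_ ?_ ?_; assumption) | (with_reducible refine IntF.comp ?_ ?_; assumption) | (with_reducible refine IntF.comp₂ ?_ ?_ ?_; assumption) | (with_reducible refine IntF.comp₃ ?_ ?_ ?_ ?_; assumption) | with_reducible apply IntF.pair))) ?_ ?_ n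
    · rw [stg_zero h1]
      exact hg
    · intro n ih e m k he
      rw [stg_succ h1]
      obtain ⟨h3, h4⟩ := cns_spec (key _ ih).1
      rcases INat.eq_zero_or_succ k with rfl | ⟨k, rfl⟩
      · rw [h3]
        exact (key _ ih).2 e m he
      · rw [h4]
        exact ih e m k he
  exact ⟨h2, (key _ h2).1, (key _ h2).2⟩

/-- The new sequence. -/
noncomputable def nsq (nel : IPow M (ISq M α) → α) (g₀ : ISq M α) (R : IPow M (ISq M α)) :
    ISq M α :=
  the (fun g : ISq M α => ∀ n, g.1 n = nel (insert (stg nel g₀ R n) R)) g₀

theorem int_nsq (h1 : IntF M nel) (g₀ : ISq M α) : IntF M (fun R => nsq nel g₀ R) := by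
  have hs := int_stg h1 g₀
  unfold nsq
  (repeat' (first | with_reducible exact IntF.id | with_reducible exact IntF.fst' | with_reducible exact IntF.snd' | with_reducible exact IntF.const _ | with_reducible exact Int.const _ | assumption | with_reducible apply Int.and | with_reducible apply Int.or | with_reducible apply Int.not | with_reducible apply Int.imp | with_reducible apply Int.iff | with_reducible apply Int.ne | with_reducible apply Int.eq | with_reducible apply Int.mem | with_reducible apply Int.subset | with_reducible apply Int.ltN | with_reducible apply Int.leN | with_reducible apply Int.fin | with_reducible apply Int.unique | with_reducible apply Int.all | with_reducible apply Int.ex | with_reducible apply IntF.fst | with_reducible apply IntF.snd | with_reducible apply IntF.app | with_reducible apply IntF.ite | with_reducible apply IntF.sep | with_reducible apply IntF.lam | with_reducible apply IntF.insert | with_reducible apply IntF.singleton | with_reducible apply IntF.union | with_reducible apply IntF.inter | with_reducible apply IntF.sdiff | with_reducible apply IntF.isUnion | with_reducible apply IntF.iimage | with_reducible apply IntF.the | with_reducible apply IntF.irec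 | with_reducible_and_instances apply IntF.add | with_reducible_and_instances apply IntF.mul | with_reducible apply IntF.succ | with_reducible apply IntF.val | (with_reducible refine Int.comp ?_ ?_; assumption) | (with_reducible refine Int.comp₂ ?_ ?_ ?_; assumption) | (with_reducible refine Int.comp₃ ?_ ?_ ?_ ?_; assumption) | (with_reducible refine IntF.comp ?_ ?_; assumption) | (with_reducible refine IntF.comp₂ ?_ ?_ ?_; assumption) | (with_reducible refine IntF.comp₃ ?_ ?_ ?_ ?_; assumption) | with_reducible apply IntF.pair))

theorem nsq_spec (h1 : IntF M nel) (hn : ∀ E, Vld E → ∀ e, e ∈ E → ∀ l, nel E ≠ e.1 l)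
    {g₀ : ISq M α} {R : IPow M (ISq M α)} (hR : Vld R) (hg : Dsj R g₀) :
    Dsj (insert g₀ R) (nsq nel g₀ R) := by
  have hs := int_stg h1 g₀
  have h2 := stg_spec h1 hn hR hg
  -- the ranges increase
  have up : ∀ n k, ∃ l, (stg nel g₀ R n.succ).1 l = (stg nel g₀ R n).1 k := by
    intro n k
    rw [stg_succ h1]
    exact ⟨k.succ, (cns_spec (h2 n).2.1).2 k⟩
  have up' : ∀ m k n, m ≤ n → ∃ l, (stg nel g₀ R n).1 l = (stg nel g₀ R m).1 k := by
    intro m k n
    refine INat.ind (p := fun n => m ≤ n → ∃ l, (stg nel g₀ R n).1 l = (stg nel g₀ R m).1 k)
      (by (repeat' (first | with_reducible exact IntF.id | with_reducible exact IntF.fst' | with_reducible exact IntF.snd' | with_reducible exact IntF.const _ | with_reducible exact Int.const _ | assumption | with_reducible apply Int.and | with_reducible apply Int.or | with_reducible apply Int.not | with_reducible apply Int.imp | with_reducible apply Int.iff | with_reducible apply Int.ne | with_reducible apply Int.eq | with_reducible apply Int.mem | with_reducible apply Int.subset | with_reducible apply Int.ltN | with_reducible apply Int.leN | with_reducible apply Int.fin | with_reducible apply Int.unique | with_reducible apply Int.all | with_reducible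 apply Int.ex | with_reducible apply IntF.fst | with_reducible apply IntF.snd | with_reducible apply IntF.app | with_reducible apply IntF.ite | with_reducible apply IntF.sep | with_reducible apply IntF.lam | with_reducible apply IntF.insert | with_reducible apply IntF.singleton | with_reducible apply IntF.union | with_reducible apply IntF.inter | with_reducible apply IntF.sdiff | with_reducible apply IntF.isUnion | with_reducible apply IntF.iimage | with_reducible apply IntF.the | with_reducible apply IntF.irec | with_reducible_and_instances apply IntF.add | with_reducible_and_instances apply IntF.mul | with_reducible apply IntF.succ | with_reducible apply IntF.val | (with_reducible refine Int.comp ?_ ?_; assumption) | (with_reducible refine Int.comp₂ ?_ ?_ ?_; assumption) | (with_reducible refine Int.comp₃ ?_ ?_ ?_ ?_; assumption) | (with_reducible refine IntF.comp ?_ ?_; assumption) | (with_reducible refine IntF.comp₂ ?_ ?_ ?_; assumption) | (with_reducible refine IntF.comp₃ ?_ ?_ ?_ ?_; assumption) | with_reducible apply IntF.pair))) ?_ ?_ n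
    · intro h
      have : m = 0 := le_antisymm h (INat.zero_le m)
      subst this
      exact ⟨k, rfl⟩
    · intro n ih h
      rcases h.lt_or_eq with h | rfl
      · obtain ⟨l, hl⟩ := ih (INat.lt_succ_iff.1 h)
        obtain ⟨l', hl'⟩ := up n l
        exact ⟨l', hl'.trans hl⟩
      · exact ⟨k, rfl⟩
  have hx : ∀ m n, m < n → ∃ l, (stg nel g₀ R n).1 l = nel (insert (stg nel g₀ R m) R) := by
    intro m n hmn
    obtain ⟨l, hl⟩ := up' m.succ 0 n (INat.succ_le_iff.2 hmn)
    refine ⟨l, hl.trans ?_⟩
    rw [stg_succ h1]
    exact (cns_spec (h2 m).2.1).1
  have hI : IntF M (fun n => nel (insert (stg nel g₀ R n) R)) := by (repeat' (first | with_reducible exact IntF.id | with_reducible exact IntF.fst' | with_reducible exact IntF.snd' | with_reducible exact IntF.const _ | with_reducible exact Int.const _ | assumption | with_reducible apply Int.and | with_reducible apply Int.or | with_reducible apply Int.not | with_reducible apply Int.imp | with_reducible apply Int.iff | with_reducible apply Int.ne | with_reducible apply Int.eq | with_reducible apply Int.mem | with_reducible apply Int.subset | with_reducible apply Int.ltN | with_reducible apply Int.leN | with_reducible apply Int.fin | with_reducible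 apply Int.unique | with_reducible apply Int.all | with_reducible apply Int.ex | with_reducible apply IntF.fst | with_reducible apply IntF.snd | with_reducible apply IntF.app | with_reducible apply IntF.ite | with_reducible apply IntF.sep | with_reducible apply IntF.lam | with_reducible apply IntF.insert | with_reducible apply IntF.singleton | with_reducible apply IntF.union | with_reducible apply IntF.inter | with_reducible apply IntF.sdiff | with_reducible apply IntF.isUnion | with_reducible apply IntF.iimage | with_reducible apply IntF.the | with_reducible apply IntF.irec | with_reducible_and_instances apply IntF.add | with_reducible_and_instances apply IntF.mul | with_reducible apply IntF.succ | with_reducible apply IntF.val | (with_reducible refine Int.comp ?_ ?_; assumption) | (with_reducible refine Int.comp₂ ?_ ?_ ?_; assumption) | (with_reducible refine Int.comp₃ ?_ ?_ ?_ ?_; assumption) | (with_reducible refine IntF.comp ?_ ?_; assumption) | (with_reducible refine IntF.comp₂ ?_ ?_ ?_; assumption) | (with_reducible refine IntF.comp₃ ?_ ?_ ?_ ?_; assumption) | with_reducible apply IntF.pair))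
  have h3 : ∀ n, (nsq nel g₀ R).1 n = nel (insert (stg nel g₀ R n) R) := by
    refine the_spec (p := fun g : ISq M α => ∀ n, g.1 n = nel (insert (stg nel g₀ R n) R))
      ⟨⟨⟨_, hI⟩, ?_⟩, fun n => rfl, fun g hg => Subtype.ext (IFun.ext' hg)⟩
    intro m n hmn
    replace hmn : nel (insert (stg nel g₀ R m) R) = nel (insert (stg nel g₀ R n) R) := hmn
    rcases lt_trichotomy m n with h | h | h
    · obtain ⟨l, hl⟩ := hx m n h
      exact absurd (hl.trans hmn) ((h2 n).2.1 l)
    · exact h
    · obtain ⟨l, hl⟩ := hx n m h
      exact absurd (hl.trans hmn.symm) ((h2 m).2.1 l)
  intro e m n he
  rw [h3]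
  rcases mem_insert.1 he with rfl | he
  · obtain ⟨l, hl⟩ := up' 0 m n (INat.zero_le n)
    rw [stg_zero h1] at hl
    rw [← hl]
    exact (h2 n).2.1 l
  · exact (h2 n).2.2 e m he

/-- A type with an internal choice of elements outside the ranges of all families of disjoint
injective sequences is Dedekind finite. -/
theorem df_of_nel (h1 : IntF M nel) (hn : ∀ E, Vld E → ∀ e, e ∈ E → ∀ l, nel E ≠ e.1 l) :
    DF M α (fun _ => True) := by
  rintro ⟨g, hg1, _, hg3⟩
  let g₀ : ISq M α := ⟨⟨g, hg1⟩, hg3⟩
  have hs := int_nsq h1 g₀
  have hV := int_Vld (M := M) (α := α)
  obtain ⟨E, ⟨h4, h5⟩, h6⟩ := bw_up (F := fun E => insert (nsq nel g₀ (E \ {g₀})) E)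
    (Q := fun E => Vld E ∧ g₀ ∈ E) (bot := {g₀}) (by (repeat' (first | with_reducible exact IntF.id | with_reducible exact IntF.fst' | with_reducible exact IntF.snd' | with_reducible exact IntF.const _ | with_reducible exact Int.const _ | assumption | with_reducible apply Int.and | with_reducible apply Int.or | with_reducible apply Int.not | with_reducible apply Int.imp | with_reducible apply Int.iff | with_reducible apply Int.ne | with_reducible apply Int.eq | with_reducible apply Int.mem | with_reducible apply Int.subset | with_reducible apply Int.ltN | with_reducible apply Int.leN | with_reducible apply Int.fin | with_reducible apply Int.unique | with_reducible apply Int.all | with_reducible apply Int.ex | with_reducible apply IntF.fst | with_reducible apply IntF.snd | with_reducible apply IntF.app | with_reducible apply IntF.ite | with_reducible apply IntF.sep | with_reducible apply IntF.lam | with_reducible apply IntF.insert | with_reducible apply IntF.singleton | with_reducible apply IntF.union | with_reducible apply IntF.inter | with_reducible apply IntF.sdiff | with_reducible apply IntF.isUnion | with_reducible apply IntF.iimage | with_reducible apply IntF.the | with_reducible apply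 IntF.irec | with_reducible_and_instances apply IntF.add | with_reducible_and_instances apply IntF.mul | with_reducible apply IntF.succ | with_reducible apply IntF.val | (with_reducible refine Int.comp ?_ ?_; assumption) | (with_reducible refine Int.comp₂ ?_ ?_ ?_; assumption) | (with_reducible refine Int.comp₃ ?_ ?_ ?_ ?_; assumption) | (with_reducible refine IntF.comp ?_ ?_; assumption) | (with_reducible refine IntF.comp₂ ?_ ?_ ?_; assumption) | (with_reducible refine IntF.comp₃ ?_ ?_ ?_ ?_; assumption) | with_reducible apply IntF.pair))) (by (repeat' (first | with_reducible exact IntF.id | with_reducible exact IntF.fst' | with_reducible exact IntF.snd' | with_reducible exact IntF.const _ | with_reducible exact Int.const _ | assumption | with_reducible apply Int.and | with_reducible apply Int.or | with_reducible apply Int.not | with_reducible apply Int.imp | with_reducible apply Int.iff | with_reducible apply Int.ne | with_reducible apply Int.eq | with_reducible apply Int.mem | with_reducible apply Int.subset | with_reducible apply Int.ltN | with_reducible apply Int.leN | with_reducible apply Int.fin | with_reducible apply Int.unique | with_reducible apply Int.all | with_reducible apply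 Int.ex | with_reducible apply IntF.fst | with_reducible apply IntF.snd | with_reducible apply IntF.app | with_reducible apply IntF.ite | with_reducible apply IntF.sep | with_reducible apply IntF.lam | with_reducible apply IntF.insert | with_reducible apply IntF.singleton | with_reducible apply IntF.union | with_reducible apply IntF.inter | with_reducible apply IntF.sdiff | with_reducible apply IntF.isUnion | with_reducible apply IntF.iimage | with_reducible apply IntF.the | with_reducible apply IntF.irec | with_reducible_and_instances apply IntF.add | with_reducible_and_instances apply IntF.mul | with_reducible apply IntF.succ | with_reducible apply IntF.val | (with_reducible refine Int.comp ?_ ?_; assumption) | (with_reducible refine Int.comp₂ ?_ ?_ ?_; assumption) | (with_reducible refine Int.comp₃ ?_ ?_ ?_ ?_; assumption) | (with_reducible refine IntF.comp ?_ ?_; assumption) | (with_reducible refine IntF.comp₂ ?_ ?_ ?_; assumption) | (with_reducible refine IntF.comp₃ ?_ ?_ ?_ ?_; assumption) | with_reducible apply IntF.pair)))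
    ⟨fun e e' _ _ he he' _ => by
      rw [mem_singleton] at he he'
      rw [he, he'], mem_singleton.2 rfl⟩
    (fun E ⟨hE, h0⟩ => by
      refine ⟨⟨vld_insert hE ?_, mem_insert.2 (Or.inr h0)⟩, fun x hx => mem_insert.2 (Or.inr hx)⟩
      have h7 : insert g₀ (E \ {g₀}) = E := IPow.ext' fun x => by
        rw [mem_insert, mem_sdiff, mem_singleton]
        by_cases hx : x = g₀
        · rw [hx]
          exact ⟨fun _ => h0, fun _ => Or.inl rfl⟩
        · exact ⟨fun h => (h.resolve_left hx).1, fun h => Or.inr ⟨h, hx⟩⟩
      have h8 : Vld (E \ {g₀}) := fun e e' m n he he' =>
        hE e e' m n (mem_sdiff.1 he).1 (mem_sdiff.1 he').1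
      have h9 := nsq_spec h1 hn h8 (g₀ := g₀) (fun e m n he h => by
        rw [mem_sdiff, mem_singleton] at he
        exact he.2 (hE _ _ _ _ he.1 h0 h))
      rwa [h7] at h9)
    (fun C ⟨s, hs⟩ hC hch => by
      refine ⟨fun e e' m n he he' h => ?_, mem_isUnion.2 ⟨s, hs, (hC s hs).2⟩⟩
      rw [mem_isUnion] at he he'
      obtain ⟨t, ht, he⟩ := he
      obtain ⟨t', ht', he'⟩ := he'
      rcases hch t t' ht ht' with h7 | h7
      · exact (hC t' ht').1 e e' m n (h7 _ he) he' h
      · exact (hC t ht).1 e e' m n he (h7 _ he') h)
  have h7 : insert g₀ (E \ {g₀}) = E := IPow.ext' fun x => by
    rw [mem_insert, mem_sdiff, mem_singleton]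
    by_cases hx : x = g₀
    · rw [hx]
      exact ⟨fun _ => h5, fun _ => Or.inl rfl⟩
    · exact ⟨fun h => (h.resolve_left hx).1, fun h => Or.inr ⟨h, hx⟩⟩
  have h8 : Vld (E \ {g₀}) := fun e e' m n he he' =>
    h4 e e' m n (mem_sdiff.1 he).1 (mem_sdiff.1 he').1
  have h9 := nsq_spec h1 hn h8 (g₀ := g₀) (fun e m n he h => by
    rw [mem_sdiff, mem_singleton] at he
    exact he.2 (h4 _ _ _ _ he.1 h5 h))
  rw [h7] at h9
  have h10 : nsq nel g₀ (E \ {g₀}) ∈ E := by
    have : nsq nel g₀ (E \ {g₀}) ∈ insert (nsq nel g₀ (E \ {g₀})) E := mem_insert.2 (Or.inl rfl)
    rwa [h6] at this
  exact h9 _ 0 0 h10 rfl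

end

/-! ### The diagonal argument -/

section

variable {f : β → α} {dec : β → ISq M α → INat M → Prop}

/-- The objects with value `e l` do not have the pattern `k`. -/
def Aw (f : β → α) (dec : β → ISq M α → INat M → Prop) (e : ISq M α) (l k : INat M) : Prop :=
  ∀ P : β, f P = e.1 l → ¬ ∀ j, (dec P e (pr l j) ↔ j = k)

/-- The least such `k`. -/
def LAw (f : β → α) (dec : β → ISq M α → INat M → Prop) (e : ISq M α) (l k : INat M) : Prop :=
  Aw f dec e l k ∧ ∀ k', Aw f dec e l k' → k ≤ k'

theorem int_Aw (hf : IntF M f)
    (hd : Int M (fun q : (β × ISq M α) × INat M => dec q.1.1 q.1.2 q.2)) :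
    Int M (fun q : (ISq M α × INat M) × INat M => Aw f dec q.1.1 q.1.2 q.2) := by
  have hb := int_pr (M := M)
  unfold Aw
  (repeat' (first | with_reducible exact IntF.id | with_reducible exact IntF.fst' | with_reducible exact IntF.snd' | with_reducible exact IntF.const _ | with_reducible exact Int.const _ | assumption | with_reducible apply Int.and | with_reducible apply Int.or | with_reducible apply Int.not | with_reducible apply Int.imp | with_reducible apply Int.iff | with_reducible apply Int.ne | with_reducible apply Int.eq | with_reducible apply Int.mem | with_reducible apply Int.subset | with_reducible apply Int.ltN | with_reducible apply Int.leN | with_reducible apply Int.fin | with_reducible apply Int.unique | with_reducible apply Int.all | with_reducible apply Int.ex | with_reducible apply IntF.fst | with_reducible apply IntF.snd | with_reducible apply IntF.app | with_reducible apply IntF.ite | with_reducible apply IntF.sep | with_reducible apply IntF.lam | with_reducible apply IntF.insert | with_reducible apply IntF.singleton | with_reducible apply IntF.union | with_reducible apply IntF.inter | with_reducible apply IntF.sdiff | with_reducible apply IntF.isUnion | with_reducible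 apply IntF.iimage | with_reducible apply IntF.the | with_reducible apply IntF.irec | with_reducible_and_instances apply IntF.add | with_reducible_and_instances apply IntF.mul | with_reducible apply IntF.succ | with_reducible apply IntF.val | (with_reducible refine Int.comp ?_ ?_; assumption) | (with_reducible refine Int.comp₂ ?_ ?_ ?_; assumption) | (with_reducible refine Int.comp₃ ?_ ?_ ?_ ?_; assumption) | (with_reducible refine IntF.comp ?_ ?_; assumption) | (with_reducible refine IntF.comp₂ ?_ ?_ ?_; assumption) | (with_reducible refine IntF.comp₃ ?_ ?_ ?_ ?_; assumption) | with_reducible apply IntF.pair))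

theorem int_LAw (hf : IntF M f)
    (hd : Int M (fun q : (β × ISq M α) × INat M => dec q.1.1 q.1.2 q.2)) :
    Int M (fun q : (ISq M α × INat M) × INat M => LAw f dec q.1.1 q.1.2 q.2) := by
  have hA := int_Aw hf hd
  unfold LAw
  (repeat' (first | with_reducible exact IntF.id | with_reducible exact IntF.fst' | with_reducible exact IntF.snd' | with_reducible exact IntF.const _ | with_reducible exact Int.const _ | assumption | with_reducible apply Int.and | with_reducible apply Int.or | with_reducible apply Int.not | with_reducible apply Int.imp | with_reducible apply Int.iff | with_reducible apply Int.ne | with_reducible apply Int.eq | with_reducible apply Int.mem | with_reducible apply Int.subset | with_reducible apply Int.ltN | with_reducible apply Int.leN | with_reducible apply Int.fin | with_reducible apply Int.unique | with_reducible apply Int.all | with_reducible apply Int.ex | with_reducible apply IntF.fst | with_reducible apply IntF.snd | with_reducible apply IntF.app | with_reducible apply IntF.ite | with_reducible apply IntF.sep | with_reducible apply IntF.lam | with_reducible apply IntF.insert | with_reducible apply IntF.singleton | with_reducible apply IntF.union | with_reducible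 apply IntF.inter | with_reducible apply IntF.sdiff | with_reducible apply IntF.isUnion | with_reducible apply IntF.iimage | with_reducible apply IntF.the | with_reducible apply IntF.irec | with_reducible_and_instances apply IntF.add | with_reducible_and_instances apply IntF.mul | with_reducible apply IntF.succ | with_reducible apply IntF.val | (with_reducible refine Int.comp ?_ ?_; assumption) | (with_reducible refine Int.comp₂ ?_ ?_ ?_; assumption) | (with_reducible refine Int.comp₃ ?_ ?_ ?_ ?_; assumption) | (with_reducible refine IntF.comp ?_ ?_; assumption) | (with_reducible refine IntF.comp₂ ?_ ?_ ?_; assumption) | (with_reducible refine IntF.comp₃ ?_ ?_ ?_ ?_; assumption) | with_reducible apply IntF.pair))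

theorem exists_LAw (hf : IntF M f)
    (hd : Int M (fun q : (β × ISq M α) × INat M => dec q.1.1 q.1.2 q.2))
    (hfib : ∀ a, FinP M (fun P => f P = a)) (e : ISq M α)
    (l : INat M) : ∃ k, LAw f dec e l k := by
  have hb := int_pr (M := M)
  have hA := int_Aw hf hd
  refine INat.exists_least (p := fun k => Aw f dec e l k) (by (repeat' (first | with_reducible exact IntF.id | with_reducible exact IntF.fst' | with_reducible exact IntF.snd' | with_reducible exact IntF.const _ | with_reducible exact Int.const _ | assumption | with_reducible apply Int.and | with_reducible apply Int.or | with_reducible apply Int.not | with_reducible apply Int.imp | with_reducible apply Int.iff | with_reducible apply Int.ne | with_reducible apply Int.eq | with_reducible apply Int.mem | with_reducible apply Int.subset | with_reducible apply Int.ltN | with_reducible apply Int.leN | with_reducible apply Int.fin | with_reducible apply Int.unique | with_reducible apply Int.all | with_reducible apply Int.ex | with_reducible apply IntF.fst | with_reducible apply IntF.snd | with_reducible apply IntF.app | with_reducible apply IntF.ite | with_reducible apply IntF.sep | with_reducible apply IntF.lam | with_reducible apply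 IntF.insert | with_reducible apply IntF.singleton | with_reducible apply IntF.union | with_reducible apply IntF.inter | with_reducible apply IntF.sdiff | with_reducible apply IntF.isUnion | with_reducible apply IntF.iimage | with_reducible apply IntF.the | with_reducible apply IntF.irec | with_reducible_and_instances apply IntF.add | with_reducible_and_instances apply IntF.mul | with_reducible apply IntF.succ | with_reducible apply IntF.val | (with_reducible refine Int.comp ?_ ?_; assumption) | (with_reducible refine Int.comp₂ ?_ ?_ ?_; assumption) | (with_reducible refine Int.comp₃ ?_ ?_ ?_ ?_; assumption) | (with_reducible refine IntF.comp ?_ ?_; assumption) | (with_reducible refine IntF.comp₂ ?_ ?_ ?_; assumption) | (with_reducible refine IntF.comp₃ ?_ ?_ ?_ ?_; assumption) | with_reducible apply IntF.pair))) ?_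
  by_contra h
  have hf' : IntF M (fun P : β => the (fun k => ∀ j, (dec P e (pr l j) ↔ j = k)) 0) := by (repeat' (first | with_reducible exact IntF.id | with_reducible exact IntF.fst' | with_reducible exact IntF.snd' | with_reducible exact IntF.const _ | with_reducible exact Int.const _ | assumption | with_reducible apply Int.and | with_reducible apply Int.or | with_reducible apply Int.not | with_reducible apply Int.imp | with_reducible apply Int.iff | with_reducible apply Int.ne | with_reducible apply Int.eq | with_reducible apply Int.mem | with_reducible apply Int.subset | with_reducible apply Int.ltN | with_reducible apply Int.leN | with_reducible apply Int.fin | with_reducible apply Int.unique | with_reducible apply Int.all | with_reducible apply Int.ex | with_reducible apply IntF.fst | with_reducible apply IntF.snd | with_reducible apply IntF.app | with_reducible apply IntF.ite | with_reducible apply IntF.sep | with_reducible apply IntF.lam | with_reducible apply IntF.insert | with_reducible apply IntF.singleton | with_reducible apply IntF.union | with_reducible apply IntF.inter | with_reducible apply IntF.sdiff | with_reducible apply IntF.isUnion | with_reducible apply IntF.iimage |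 with_reducible apply IntF.the | with_reducible apply IntF.irec | with_reducible_and_instances apply IntF.add | with_reducible_and_instances apply IntF.mul | with_reducible apply IntF.succ | with_reducible apply IntF.val | (with_reducible refine Int.comp ?_ ?_; assumption) | (with_reducible refine Int.comp₂ ?_ ?_ ?_; assumption) | (with_reducible refine Int.comp₃ ?_ ?_ ?_ ?_; assumption) | (with_reducible refine IntF.comp ?_ ?_; assumption) | (with_reducible refine IntF.comp₂ ?_ ?_ ?_; assumption) | (with_reducible refine IntF.comp₃ ?_ ?_ ?_ ?_; assumption) | with_reducible apply IntF.pair))
  refine not_finP_nat (M := M) (((hfib (e.1 l)).image hf').mono fun k _ => ?_)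
  have h1 : ¬ Aw f dec e l k := fun h1 => h ⟨k, h1⟩
  unfold Aw at h1
  push Not at h1
  obtain ⟨P, h2, h3⟩ := h1
  refine ⟨P, h2, the_eq ⟨k, h3, fun k' hk' => ?_⟩ h3⟩
  exact (h3 k').1 ((hk' k').2 rfl)

/-- The diagonal set. -/
noncomputable def dgw (f : β → α) (dec : β → ISq M α → INat M → Prop) :
    IPow M (INat M × ISq M α) :=
  sep M fun q => ∃ l k, q.1 = pr l k ∧ LAw f dec q.2 l k

theorem mem_dgw (hf : IntF M f)
    (hd : Int M (fun q : (β × ISq M α) × INat M => dec q.1.1 q.1.2 q.2))
    {l k : INat M} {e : ISq M α} :
    (pr l k, e) ∈ dgw f dec ↔ LAw f dec e l k := by
  have hb := int_pr (M := M)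
  have hL := int_LAw hf hd
  have hI : Int M (fun q : INat M × ISq M α => ∃ l k, q.1 = pr l k ∧ LAw f dec q.2 l k) := by
    (repeat' (first | with_reducible exact IntF.id | with_reducible exact IntF.fst' | with_reducible exact IntF.snd' | with_reducible exact IntF.const _ | with_reducible exact Int.const _ | assumption | with_reducible apply Int.and | with_reducible apply Int.or | with_reducible apply Int.not | with_reducible apply Int.imp | with_reducible apply Int.iff | with_reducible apply Int.ne | with_reducible apply Int.eq | with_reducible apply Int.mem | with_reducible apply Int.subset | with_reducible apply Int.ltN | with_reducible apply Int.leN | with_reducible apply Int.fin | with_reducible apply Int.unique | with_reducible apply Int.all | with_reducible apply Int.ex | with_reducible apply IntF.fst | with_reducible apply IntF.snd | with_reducible apply IntF.app | with_reducible apply IntF.ite | with_reducible apply IntF.sep | with_reducible apply IntF.lam | with_reducible apply IntF.insert | with_reducible apply IntF.singleton | with_reducible apply IntF.union | with_reducible apply IntF.inter | with_reducible apply IntF.sdiff | with_reducible apply IntF.isUnion | with_reducible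 apply IntF.iimage | with_reducible apply IntF.the | with_reducible apply IntF.irec | with_reducible_and_instances apply IntF.add | with_reducible_and_instances apply IntF.mul | with_reducible apply IntF.succ | with_reducible apply IntF.val | (with_reducible refine Int.comp ?_ ?_; assumption) | (with_reducible refine Int.comp₂ ?_ ?_ ?_; assumption) | (with_reducible refine Int.comp₃ ?_ ?_ ?_ ?_; assumption) | (with_reducible refine IntF.comp ?_ ?_; assumption) | (with_reducible refine IntF.comp₂ ?_ ?_ ?_; assumption) | (with_reducible refine IntF.comp₃ ?_ ?_ ?_ ?_; assumption) | with_reducible apply IntF.pair))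
  unfold dgw
  rw [mem_sep hI]
  constructor
  · rintro ⟨l', k', h1, h2⟩
    obtain ⟨rfl, rfl⟩ := pr_inj h1
    exact h2
  · intro h1
    exact ⟨l, k, rfl, h1⟩

/-- Families of codes: if every set of indices is coded by an object, in a uniform way, and there
is a finite-to-one map from the objects to the type, then the type is Dedekind finite. -/
theorem df_of_code (hf : IntF M f) (hfib : ∀ a, FinP M (fun P => f P = a))
    (hd : Int M (fun q : (β × ISq M α) × INat M => dec q.1.1 q.1.2 q.2))
    {obj : IPow M (ISq M α) → IPow M (INat M × ISq M α) → β}
    (hobj : IntF M (fun q : IPow M (ISq M α) × IPow M (INat M × ISq M α) => obj q.1 q.2))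
    (hdec : ∀ E D e n, Vld E → e ∈ E → (dec (obj E D) e n ↔ (n, e) ∈ D)) :
    DF M α (fun _ => True) := by
  refine df_of_nel (nel := fun E => f (obj E (dgw f dec))) (by (repeat' (first | with_reducible exact IntF.id | with_reducible exact IntF.fst' | with_reducible exact IntF.snd' | with_reducible exact IntF.const _ | with_reducible exact Int.const _ | assumption | with_reducible apply Int.and | with_reducible apply Int.or | with_reducible apply Int.not | with_reducible apply Int.imp | with_reducible apply Int.iff | with_reducible apply Int.ne | with_reducible apply Int.eq | with_reducible apply Int.mem | with_reducible apply Int.subset | with_reducible apply Int.ltN | with_reducible apply Int.leN | with_reducible apply Int.fin | with_reducible apply Int.unique | with_reducible apply Int.all | with_reducible apply Int.ex | with_reducible apply IntF.fst | with_reducible apply IntF.snd | with_reducible apply IntF.app | with_reducible apply IntF.ite | with_reducible apply IntF.sep | with_reducible apply IntF.lam | with_reducible apply IntF.insert | with_reducible apply IntF.singleton | with_reducible apply IntF.union | with_reducible apply IntF.inter | with_reducible apply IntF.sdiff | with_reducible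 apply IntF.isUnion | with_reducible apply IntF.iimage | with_reducible apply IntF.the | with_reducible apply IntF.irec | with_reducible_and_instances apply IntF.add | with_reducible_and_instances apply IntF.mul | with_reducible apply IntF.succ | with_reducible apply IntF.val | (with_reducible refine Int.comp ?_ ?_; assumption) | (with_reducible refine Int.comp₂ ?_ ?_ ?_; assumption) | (with_reducible refine Int.comp₃ ?_ ?_ ?_ ?_; assumption) | (with_reducible refine IntF.comp ?_ ?_; assumption) | (with_reducible refine IntF.comp₂ ?_ ?_ ?_; assumption) | (with_reducible refine IntF.comp₃ ?_ ?_ ?_ ?_; assumption) | with_reducible apply IntF.pair))) fun E hE e he l h => ?_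
  obtain ⟨k, hk⟩ := exists_LAw hf hd hfib e l
  refine hk.1 _ h fun j => ?_
  rw [hdec _ _ _ _ hE he, mem_dgw hf hd]
  exact ⟨fun h => le_antisymm (h.2 k hk.1) (hk.2 j h.1), fun h => h ▸ hk⟩

end

end Pool.Agent.Q212.ZA
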