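import Pool.Agent.H310R3.Bridge

/-!
# Cardinalities of finite sets in a model
-/

set_option maxHeartbeats 400000
set_option linter.all false

namespace Pool.Agent.Q212.ZA

open FirstOrder FirstOrder.Language
open Pool.Agent.Helper672.ZFA
open Pool.Agent.H310

universe u u₁ u₂ u₃ u₄

variable {M : Type u} [L.Structure M] [hM : IsModel M]
variable {α : Type u₁} {β : Type u₂} {γ : Type u₃} {δ : Type u₄}
  [ITy M α] [ITy M β] [ITy M γ] [ITy M δ]

theorem BN_unique : ∀ n : INat M, ∀ (s : IPow M α) (e e' : IFun M α (INat M)) (n' : INat M),
    BN e s n → BN e' s n' → n = n' := by
  classical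
  have hI := int_BN (M := M) (α := α)
  refine INat.ind (by (repeat' (first | with_reducible exact IntF.id | with_reducible exact IntF.fst' | with_reducible exact IntF.snd' | with_reducible exact IntF.const _ | with_reducible exact Int.const _ | assumption | with_reducible apply Int.and | with_reducible apply Int.or | with_reducible apply Int.not | with_reducible apply Int.imp | with_reducible apply Int.iff | with_reducible apply Int.ne | with_reducible apply Int.eq | with_reducible apply Int.mem | with_reducible apply Int.subset | with_reducible apply Int.ltN | with_reducible apply Int.leN | with_reducible apply Int.fin | with_reducible apply Int.unique | with_reducible apply Int.all | with_reducible apply Int.ex | with_reducible apply IntF.fst | with_reducible apply IntF.snd | with_reducible apply IntF.app | with_reducible apply IntF.ite | with_reducible apply IntF.sep | with_reducible apply IntF.lam | with_reducible apply IntF.insert | with_reducible apply IntF.singleton | with_reducible apply IntF.union | with_reducible apply IntF.inter | with_reducible apply IntF.sdiff | with_reducible apply IntF.isUnion | with_reducible apply IntF.iimage | with_reducible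 apply IntF.the | with_reducible apply IntF.irec | with_reducible_and_instances apply IntF.add | with_reducible_and_instances apply IntF.mul | with_reducible apply IntF.succ | with_reducible apply IntF.val | (with_reducible refine Int.comp ?_ ?_; assumption) | (with_reducible refine Int.comp₂ ?_ ?_ ?_; assumption) | (with_reducible refine Int.comp₃ ?_ ?_ ?_ ?_; assumption) | (with_reducible refine IntF.comp ?_ ?_; assumption) | (with_reducible refine IntF.comp₂ ?_ ?_ ?_; assumption) | (with_reducible refine IntF.comp₃ ?_ ?_ ?_ ?_; assumption) | with_reducible apply IntF.pair))) ?_ ?_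
  · rintro s e e' n' ⟨h1, h2, h3⟩ ⟨h1', h2', h3'⟩
    rcases INat.eq_zero_or_succ n' with rfl | ⟨k, rfl⟩
    · rfl
    · obtain ⟨a, ha, -⟩ := h3' k (INat.lt_succ_self k)
      exact absurd (h1 a ha) INat.not_lt_zero
  · rintro m ih s e e' n' ⟨h1, h2, h3⟩ ⟨h1', h2', h3'⟩
    obtain ⟨a, ha, hea⟩ := h3 m (INat.lt_succ_self m)
    rcases INat.eq_zero_or_succ n' with rfl | ⟨m', rfl⟩
    · exact absurd (h1' a ha) INat.not_lt_zero
    obtain ⟨z, hz, hez⟩ := h3' m' (INat.lt_succ_self m')
    have hmem : ∀ x, x ∈ s \ {a} ↔ x ∈ s ∧ ¬ x = a := fun x => by
      rw [mem_sdiff, mem_singleton]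
    have hf : IntF M (fun x : α => if e' x = m' then e' a else e' x) := by (repeat' (first | with_reducible exact IntF.id | with_reducible exact IntF.fst' | with_reducible exact IntF.snd' | with_reducible exact IntF.const _ | with_reducible exact Int.const _ | assumption | with_reducible apply Int.and | with_reducible apply Int.or | with_reducible apply Int.not | with_reducible apply Int.imp | with_reducible apply Int.iff | with_reducible apply Int.ne | with_reducible apply Int.eq | with_reducible apply Int.mem | with_reducible apply Int.subset | with_reducible apply Int.ltN | with_reducible apply Int.leN | with_reducible apply Int.fin | with_reducible apply Int.unique | with_reducible apply Int.all | with_reducible apply Int.ex | with_reducible apply IntF.fst | with_reducible apply IntF.snd | with_reducible apply IntF.app | with_reducible apply IntF.ite | with_reducible apply IntF.sep | with_reducible apply IntF.lam | with_reducible apply IntF.insert | with_reducible apply IntF.singleton | with_reducible apply IntF.union | with_reducible apply IntF.inter | with_reducible apply IntF.sdiff | with_reducible apply IntF.isUnion | with_reducible apply IntF.iimage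 | with_reducible apply IntF.the | with_reducible apply IntF.irec | with_reducible_and_instances apply IntF.add | with_reducible_and_instances apply IntF.mul | with_reducible apply IntF.succ | with_reducible apply IntF.val | (with_reducible refine Int.comp ?_ ?_; assumption) | (with_reducible refine Int.comp₂ ?_ ?_ ?_; assumption) | (with_reducible refine Int.comp₃ ?_ ?_ ?_ ?_; assumption) | (with_reducible refine IntF.comp ?_ ?_; assumption) | (with_reducible refine IntF.comp₂ ?_ ?_ ?_; assumption) | (with_reducible refine IntF.comp₃ ?_ ?_ ?_ ?_; assumption) | with_reducible apply IntF.pair))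
    have hlt : ∀ {k l : INat M}, k < l.succ → k ≠ l → k < l := fun h h' =>
      lt_of_le_of_ne (INat.lt_succ_iff.1 h) h'
    have := ih (s \ {a}) e ⟨_, hf⟩ m' ⟨fun x hx => ?_, fun x y hx hy => ?_, fun k hk => ?_⟩
      ⟨fun x hx => ?_, fun x y hx hy hxy => ?_, fun k hk => ?_⟩
    · rw [this]
    · rw [hmem] at hx
      refine hlt (h1 x hx.1) fun h => hx.2 (h2 x a hx.1 ha (h.trans hea.symm))
    · rw [hmem] at hx hy
      exact h2 x y hx.1 hy.1
    · obtain ⟨x, hx, hex⟩ := h3 k (hk.trans (INat.lt_succ_self m))
      refine ⟨x, (hmem x).2 ⟨hx, ?_⟩, hex⟩
      rintro rfl
      rw [hea] at hex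
      exact absurd hk (by rw [hex]; exact lt_irrefl _)
    · change (if e' x = m' then e' a else e' x) < m'
      rw [hmem] at hx
      by_cases h : e' x = m'
      · rw [if_pos h]
        refine hlt (h1' a ha) fun h' => hx.2 (h2' x a hx.1 ha (h.trans h'.symm))
      · rw [if_neg h]
        exact hlt (h1' x hx.1) h
    · change (if e' x = m' then e' a else e' x) = (if e' y = m' then e' a else e' y) at hxy
      rw [hmem] at hx hy
      by_cases h : e' x = m' <;> by_cases h' : e' y = m'
      · exact h2' x y hx.1 hy.1 (h.trans h'.symm)
      · rw [if_pos h, if_neg h'] at hxy
        exact absurd (h2' a y ha hy.1 hxy).symm hy.2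
      · rw [if_neg h, if_pos h'] at hxy
        exact absurd (h2' x a hx.1 ha hxy) hx.2
      · rw [if_neg h, if_neg h'] at hxy
        exact h2' x y hx.1 hy.1 hxy
    · obtain ⟨x, hx, hex⟩ := h3' k (hk.trans (INat.lt_succ_self m'))
      have hkm : k ≠ m' := ne_of_lt hk
      by_cases hxa : x = a
      · subst hxa
        refine ⟨z, (hmem z).2 ⟨hz, ?_⟩, ?_⟩
        · rintro rfl
          exact hkm (hex.symm.trans hez)
        · change (if e' z = m' then e' x else e' z) = k
          rw [if_pos hez, hex]
      · refine ⟨x, (hmem x).2 ⟨hx, hxa⟩, ?_⟩
        change (if e' x = m' then e' a else e' x) = k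
        rw [if_neg (by rw [hex]; exact hkm), hex]

/-- The number of elements. -/
noncomputable def crd (s : IPow M α) : INat M := the (fun n => ∃ e, BN e s n) 0

theorem int_crd : IntF M (fun s : IPow M α => crd s) := by
  have hI := int_BN (M := M) (α := α)
  unfold crd
  (repeat' (first | with_reducible exact IntF.id | with_reducible exact IntF.fst' | with_reducible exact IntF.snd' | with_reducible exact IntF.const _ | with_reducible exact Int.const _ | assumption | with_reducible apply Int.and | with_reducible apply Int.or | with_reducible apply Int.not | with_reducible apply Int.imp | with_reducible apply Int.iff | with_reducible apply Int.ne | with_reducible apply Int.eq | with_reducible apply Int.mem | with_reducible apply Int.subset | with_reducible apply Int.ltN | with_reducible apply Int.leN | with_reducible apply Int.fin | with_reducible apply Int.unique | with_reducible apply Int.all | with_reducible apply Int.ex | with_reducible apply IntF.fst | with_reducible apply IntF.snd | with_reducible apply IntF.app | with_reducible apply IntF.ite | with_reducible apply IntF.sep | with_reducible apply IntF.lam | with_reducible apply IntF.insert |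 with_reducible apply IntF.singleton | with_reducible apply IntF.union | with_reducible apply IntF.inter | with_reducible apply IntF.sdiff | with_reducible apply IntF.isUnion | with_reducible apply IntF.iimage | with_reducible apply IntF.the | with_reducible apply IntF.irec | with_reducible_and_instances apply IntF.add | with_reducible_and_instances apply IntF.mul | with_reducible apply IntF.succ | with_reducible apply IntF.val | (with_reducible refine Int.comp ?_ ?_; assumption) | (with_reducible refine Int.comp₂ ?_ ?_ ?_; assumption) | (with_reducible refine Int.comp₃ ?_ ?_ ?_ ?_; assumption) | (with_reducible refine IntF.comp ?_ ?_; assumption) | (with_reducible refine IntF.comp₂ ?_ ?_ ?_; assumption) | (with_reducible refine IntF.comp₃ ?_ ?_ ?_ ?_; assumption) | with_reducible apply IntF.pair))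

theorem crd_eq {s : IPow M α} {e : IFun M α (INat M)} {n : INat M} (h : BN e s n) :
    crd s = n :=
  the_eq ⟨n, ⟨e, h⟩, fun n' ⟨e', h'⟩ => BN_unique _ _ _ _ _ h' h⟩ ⟨e, h⟩

theorem crd_spec {s : IPow M α} (hs : IFin s) : ∃ e, BN e s (crd s) := by
  obtain ⟨e, n, h⟩ := exists_BN hs
  exact ⟨e, by rw [crd_eq h]; exact h⟩

theorem bn_insert {e : IFun M α (INat M)} {s : IPow M α} {n : INat M} (h : BN e s n) {a : α}
    (ha : ¬ a ∈ s) : ∃ e', BN e' (insert a s) n.succ := by
  classical
  obtain ⟨h1, h2, h3⟩ := h
  have hf : IntF M (fun x : α => if x = a then n else e x) := by (repeat' (first | with_reducible exact IntF.id | with_reducible exact IntF.fst' | with_reducible exact IntF.snd' | with_reducible exact IntF.const _ | with_reducible exact Int.const _ | assumption | with_reducible apply Int.and | with_reducible apply Int.or | with_reducible apply Int.not | with_reducible apply Int.imp | with_reducible apply Int.iff | with_reducible apply Int.ne | with_reducible apply Int.eq | with_reducible apply Int.mem | with_reducible apply Int.subset | with_reducible apply Int.ltN | with_reducible apply Int.leN | with_reducible apply Int.fin | with_reducible apply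 Int.unique | with_reducible apply Int.all | with_reducible apply Int.ex | with_reducible apply IntF.fst | with_reducible apply IntF.snd | with_reducible apply IntF.app | with_reducible apply IntF.ite | with_reducible apply IntF.sep | with_reducible apply IntF.lam | with_reducible apply IntF.insert | with_reducible apply IntF.singleton | with_reducible apply IntF.union | with_reducible apply IntF.inter | with_reducible apply IntF.sdiff | with_reducible apply IntF.isUnion | with_reducible apply IntF.iimage | with_reducible apply IntF.the | with_reducible apply IntF.irec | with_reducible_and_instances apply IntF.add | with_reducible_and_instances apply IntF.mul | with_reducible apply IntF.succ | with_reducible apply IntF.val | (with_reducible refine Int.comp ?_ ?_; assumption) | (with_reducible refine Int.comp₂ ?_ ?_ ?_; assumption) | (with_reducible refine Int.comp₃ ?_ ?_ ?_ ?_; assumption) | (with_reducible refine IntF.comp ?_ ?_; assumption) | (with_reducible refine IntF.comp₂ ?_ ?_ ?_; assumption) | (with_reducible refine IntF.comp₃ ?_ ?_ ?_ ?_; assumption) | with_reducible apply IntF.pair))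
  have hsa : ∀ x, x ∈ s → ¬ x = a := fun x hx h => ha (h ▸ hx)
  refine ⟨⟨_, hf⟩, fun x hx => ?_, fun x y hx hy hxy => ?_, fun m hm => ?_⟩
  · change (if x = a then n else e x) < n.succ
    rcases mem_insert.1 hx with rfl | hx
    · rw [if_pos rfl]
      exact INat.lt_succ_self n
    · rw [if_neg (hsa x hx)]
      exact (h1 x hx).trans (INat.lt_succ_self n)
  · change (if x = a then n else e x) = (if y = a then n else e y) at hxy
    rcases mem_insert.1 hx with hx | hx <;> rcases mem_insert.1 hy with hy | hy
    · rw [hx, hy]
    · rw [if_pos hx, if_neg (hsa y hy)] at hxy
      exact absurd (h1 y hy) (by rw [← hxy]; exact lt_irrefl n)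
    · rw [if_neg (hsa x hx), if_pos hy] at hxy
      exact absurd (h1 x hx) (by rw [hxy]; exact lt_irrefl n)
    · rw [if_neg (hsa x hx), if_neg (hsa y hy)] at hxy
      exact h2 x y hx hy hxy
  · rcases (INat.lt_succ_iff.1 hm).lt_or_eq with hm | rfl
    · obtain ⟨x, hx, h⟩ := h3 m hm
      refine ⟨x, mem_insert.2 (Or.inr hx), ?_⟩
      change (if x = a then n else e x) = m
      rw [if_neg (hsa x hx), h]
    · refine ⟨a, mem_insert.2 (Or.inl rfl), ?_⟩
      change (if a = a then m else e a) = m
      rw [if_pos rfl]

theorem crd_insert {s : IPow M α} (hs : IFin s) {a : α} (ha : ¬ a ∈ s) :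
    crd (insert a s) = (crd s).succ := by
  obtain ⟨e, he⟩ := crd_spec hs
  obtain ⟨e', he'⟩ := bn_insert he ha
  exact crd_eq he'

theorem crd_empty : crd (∅ : IPow M α) = 0 :=
  crd_eq (e := ⟨fun _ => 0, IntF.const _⟩) ⟨fun a ha => by simp at ha, fun a b ha => by
    simp at ha, fun m hm => absurd hm INat.not_lt_zero⟩

theorem crd_singleton (a : α) : crd ({a} : IPow M α) = INat.succ 0 := by
  have : ({a} : IPow M α) = insert a ∅ := IPow.ext' fun x => by simp
  rw [this, crd_insert IFin.empty (by simp), crd_empty]

/-- In an infinite type there are finite sets of all sizes that contain a given point. -/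
theorem exists_crd (hinf : ¬ FinP M (fun _ : α => True)) (x : α) (n : INat M) :
    ∃ s : IPow M α, IFin s ∧ x ∈ s ∧ crd s = n.succ := by
  have hc := int_crd (M := M) (α := α)
  refine INat.ind (p := fun n => ∃ s : IPow M α, IFin s ∧ x ∈ s ∧ crd s = n.succ) (by (repeat' (first | with_reducible exact IntF.id | with_reducible exact IntF.fst' | with_reducible exact IntF.snd' | with_reducible exact IntF.const _ | with_reducible exact Int.const _ | assumption | with_reducible apply Int.and | with_reducible apply Int.or | with_reducible apply Int.not | with_reducible apply Int.imp | with_reducible apply Int.iff | with_reducible apply Int.ne | with_reducible apply Int.eq | with_reducible apply Int.mem | with_reducible apply Int.subset | with_reducible apply Int.ltN | with_reducible apply Int.leN | with_reducible apply Int.fin | with_reducible apply Int.unique | with_reducible apply Int.all | with_reducible apply Int.ex | with_reducible apply IntF.fst | with_reducible apply IntF.snd | with_reducible apply IntF.app | with_reducible apply IntF.ite | with_reducible apply IntF.sep | with_reducible apply IntF.lam | with_reducible apply IntF.insert | with_reducible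 apply IntF.singleton | with_reducible apply IntF.union | with_reducible apply IntF.inter | with_reducible apply IntF.sdiff | with_reducible apply IntF.isUnion | with_reducible apply IntF.iimage | with_reducible apply IntF.the | with_reducible apply IntF.irec | with_reducible_and_instances apply IntF.add | with_reducible_and_instances apply IntF.mul | with_reducible apply IntF.succ | with_reducible apply IntF.val | (with_reducible refine Int.comp ?_ ?_; assumption) | (with_reducible refine Int.comp₂ ?_ ?_ ?_; assumption) | (with_reducible refine Int.comp₃ ?_ ?_ ?_ ?_; assumption) | (with_reducible refine IntF.comp ?_ ?_; assumption) | (with_reducible refine IntF.comp₂ ?_ ?_ ?_; assumption) | (with_reducible refine IntF.comp₃ ?_ ?_ ?_ ?_; assumption) | with_reducible apply IntF.pair)))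
    ?_ ?_ n
  · exact ⟨{x}, IFin.singleton x, mem_singleton.2 rfl, crd_singleton x⟩
  · rintro n ⟨s, h1, h2, h3⟩
    have h4 : ∃ a, ¬ a ∈ s := by
      by_contra h
      push Not at h
      exact hinf ⟨s, h1, fun a _ => h a⟩
    obtain ⟨a, ha⟩ := h4
    refine ⟨insert a s, h1.insert a, mem_insert.2 (Or.inr h2), ?_⟩
    rw [crd_insert h1 ha, h3]

end Pool.Agent.Q212.ZA
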