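import Pool.Agent.Q212.ZA2

/-!
# Powers of a finite discrete space are strongly zero-dimensional: the argument inside a model
-/

set_option maxHeartbeats 1000000
set_option linter.all false

namespace Pool.Agent.Q212.ZB

open FirstOrder FirstOrder.Language
open Pool.Agent.Helper672.ZFA
open Pool.Agent.H310
open Pool.Agent.Q212.ZA

universe u u₁ u₂ u₃ u₄

variable {M : Type u} [L.Structure M] [hM : IsModel M]
variable {α : Type u₁} {β : Type u₂} {R : Type u₃} [ITy M α] [ITy M β] [ITy M R]

/-- Agreement on a set. -/
def Agr (s : IPow M α) (x y : IFun M α β) : Prop := ∀ j, j ∈ s → x j = y j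

theorem int_Agr : Int M (fun q : (IPow M α × IFun M α β) × IFun M α β =>
    Agr q.1.1 q.1.2 q.2) := by
  unfold Agr
  (repeat' (first | with_reducible exact IntF.id | with_reducible exact IntF.fst' | with_reducible exact IntF.snd' | with_reducible exact IntF.const _ | with_reducible exact Int.const _ | assumption | with_reducible apply Int.and | with_reducible apply Int.or | with_reducible apply Int.not | with_reducible apply Int.imp | with_reducible apply Int.iff | with_reducible apply Int.ne | with_reducible apply Int.eq | with_reducible apply Int.mem | with_reducible apply Int.subset | with_reducible apply Int.ltN | with_reducible apply Int.leN | with_reducible apply Int.fin | with_reducible apply Int.unique | with_reducible apply Int.all | with_reducible apply Int.ex | with_reducible apply IntF.fst | with_reducible apply IntF.snd | with_reducible apply IntF.app | with_reducible apply IntF.ite | with_reducible apply IntF.sep | with_reducible apply IntF.lam | with_reducible apply IntF.insert | with_reducible apply IntF.singleton | with_reducible apply IntF.union | with_reducible apply IntF.inter | with_reducible apply IntF.sdiff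 | with_reducible apply IntF.isUnion | with_reducible apply IntF.iimage | with_reducible apply IntF.the | with_reducible apply IntF.irec | with_reducible_and_instances apply IntF.add | with_reducible_and_instances apply IntF.mul | with_reducible apply IntF.succ | with_reducible apply IntF.val | (with_reducible refine Int.comp ?_ ?_; assumption) | (with_reducible refine Int.comp₂ ?_ ?_ ?_; assumption) | (with_reducible refine Int.comp₃ ?_ ?_ ?_ ?_; assumption) | (with_reducible refine IntF.comp ?_ ?_; assumption) | (with_reducible refine IntF.comp₂ ?_ ?_ ?_; assumption) | (with_reducible refine IntF.comp₃ ?_ ?_ ?_ ?_; assumption) | with_reducible apply IntF.pair))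

theorem Agr.refl (s : IPow M α) (x : IFun M α β) : Agr s x x := fun _ _ => rfl

theorem Agr.symm {s : IPow M α} {x y : IFun M α β} (h : Agr s x y) : Agr s y x :=
  fun j hj => (h j hj).symm

theorem Agr.trans {s : IPow M α} {x y z : IFun M α β} (h : Agr s x y) (h' : Agr s y z) :
    Agr s x z := fun j hj => (h j hj).trans (h' j hj)

theorem Agr.mono {s t : IPow M α} {x y : IFun M α β} (h : Agr s x y) (hts : t ⊆ s) :
    Agr t x y := fun j hj => h j (hts j hj)

/-- The point that is `x` on `s` and `y` outside `s`. -/
theorem exists_mix (s : IPow M α) (x y : IFun M α β) :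
    ∃ w : IFun M α β, (∀ j, j ∈ s → w j = x j) ∧ ∀ j, ¬ j ∈ s → w j = y j := by
  classical
  have hf : IntF M (fun j : α => if j ∈ s then x j else y j) := by (repeat' (first | with_reducible exact IntF.id | with_reducible exact IntF.fst' | with_reducible exact IntF.snd' | with_reducible exact IntF.const _ | with_reducible exact Int.const _ | assumption | with_reducible apply Int.and | with_reducible apply Int.or | with_reducible apply Int.not | with_reducible apply Int.imp | with_reducible apply Int.iff | with_reducible apply Int.ne | with_reducible apply Int.eq | with_reducible apply Int.mem | with_reducible apply Int.subset | with_reducible apply Int.ltN | with_reducible apply Int.leN | with_reducible apply Int.fin | with_reducible apply Int.unique | with_reducible apply Int.all | with_reducible apply Int.ex | with_reducible apply IntF.fst | with_reducible apply IntF.snd | with_reducible apply IntF.app | with_reducible apply IntF.ite | with_reducible apply IntF.sep | with_reducible apply IntF.lam | with_reducible apply IntF.insert | with_reducible apply IntF.singleton | with_reducible apply IntF.union | with_reducible apply IntF.inter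 | with_reducible apply IntF.sdiff | with_reducible apply IntF.isUnion | with_reducible apply IntF.iimage | with_reducible apply IntF.the | with_reducible apply IntF.irec | with_reducible_and_instances apply IntF.add | with_reducible_and_instances apply IntF.mul | with_reducible apply IntF.succ | with_reducible apply IntF.val | (with_reducible refine Int.comp ?_ ?_; assumption) | (with_reducible refine Int.comp₂ ?_ ?_ ?_; assumption) | (with_reducible refine Int.comp₃ ?_ ?_ ?_ ?_; assumption) | (with_reducible refine IntF.comp ?_ ?_; assumption) | (with_reducible refine IntF.comp₂ ?_ ?_ ?_; assumption) | (with_reducible refine IntF.comp₃ ?_ ?_ ?_ ?_; assumption) | with_reducible apply IntF.pair))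
  exact ⟨⟨_, hf⟩, fun j hj => if_pos hj, fun j hj => if_neg hj⟩

section

variable [Field R] [LinearOrder R] [IsStrictOrderedRing R] [IAdd M R] [ILE M R]
  {f : IFun M α β → R}

/-- The oscillation on a cylinder is less than `δ`. -/
def Osc (f : IFun M α β → R) (δ : R) (s : IPow M α) (x : IFun M α β) : Prop :=
  ∀ y y', Agr s x y → Agr s x y' → f y < f y' + δ

theorem int_Osc (hf : IntF M f) :
    Int M (fun q : (R × IPow M α) × IFun M α β => Osc f q.1.1 q.1.2 q.2) := by
  have h1 := int_Agr (M := M) (α := α) (β := β)
  unfold Osc
  (repeat' (first | with_reducible exact IntF.id | with_reducible exact IntF.fst' | with_reducible exact IntF.snd' | with_reducible exact IntF.const _ | with_reducible exact Int.const _ | assumption | with_reducible apply Int.and | with_reducible apply Int.or | with_reducible apply Int.not | with_reducible apply Int.imp | with_reducible apply Int.iff | with_reducible apply Int.ne | with_reducible apply Int.eq | with_reducible apply Int.mem | with_reducible apply Int.subset | with_reducible apply Int.ltN | with_reducible apply Int.leN | with_reducible apply Int.fin | with_reducible apply Int.unique | with_reducible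 apply Int.all | with_reducible apply Int.ex | with_reducible apply IntF.fst | with_reducible apply IntF.snd | with_reducible apply IntF.app | with_reducible apply IntF.ite | with_reducible apply IntF.sep | with_reducible apply IntF.lam | with_reducible apply IntF.insert | with_reducible apply IntF.singleton | with_reducible apply IntF.union | with_reducible apply IntF.inter | with_reducible apply IntF.sdiff | with_reducible apply IntF.isUnion | with_reducible apply IntF.iimage | with_reducible apply IntF.the | with_reducible apply IntF.irec | with_reducible_and_instances apply IntF.add | with_reducible_and_instances apply IntF.mul | with_reducible apply IntF.succ | with_reducible apply IntF.val | with_reducible_and_instances apply Pool.Agent.Helper672.ZFA.Int.le | with_reducible_and_instances apply Pool.Agent.Helper672.ZFA.Int.lt | with_reducible_and_instances apply IntF.sub | with_reducible_and_instances apply IntF.neg | with_reducible_and_instances apply IntF.inv | with_reducible_and_instances apply IntF.div | with_reducible apply IntF.mk | (with_reducible refine Int.comp ?_ ?_; assumption) | (with_reducible refine Int.comp₂ ?_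 ?_ ?_; assumption) | (with_reducible refine Int.comp₃ ?_ ?_ ?_ ?_; assumption) | (with_reducible refine IntF.comp ?_ ?_; assumption) | (with_reducible refine IntF.comp₂ ?_ ?_ ?_; assumption) | (with_reducible refine IntF.comp₃ ?_ ?_ ?_ ?_; assumption) | (with_reducible refine Int.comp₄ ?_ ?_ ?_ ?_ ?_; assumption) | with_reducible apply IntF.pair))

theorem Osc.congr {δ : R} {s : IPow M α} {x y : IFun M α β} (h : Osc f δ s x)
    (hxy : Agr s x y) : Osc f δ s y :=
  fun z z' hz hz' => h z z' (hxy.trans hz) (hxy.trans hz')

/-- A big jump at a coordinate outside `G`. -/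
def Jp (f : IFun M α β → R) (δ : R) (n : INat M) (d : IPow M α) (z : IFun M α β)
    (G : IPow M α) : Prop :=
  ∃ j, ¬ j ∈ G ∧ ∃ s : IPow M α, IFin s ∧ d ⊆ s ∧ crd (s \ d) ≤ n ∧ ∃ x x' : IFun M α β,
    Agr d z x ∧ Osc f δ s x ∧ (∀ i, i ≠ j → x i = x' i) ∧
      ¬ (f x < f x' + (δ + δ) ∧ f x' < f x + (δ + δ))

theorem Jp.mono {δ : R} {n : INat M} {d : IPow M α} {z : IFun M α β}
    {G G' : IPow M α} (h : Jp f δ n d z G') (hG : G ⊆ G') : Jp f δ n d z G := by
  obtain ⟨j, h1, h2⟩ := h
  exact ⟨j, fun h => h1 (hG j h), h2⟩

theorem int_Jp (hf : IntF M f) (δ : R) :
    Int M (fun q : ((INat M × IPow M α) × IFun M α β) × IPow M α =>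
      Jp f δ q.1.1.1 q.1.1.2 q.1.2 q.2) := by
  have h1 := int_Agr (M := M) (α := α) (β := β)
  have h2 := int_Osc hf
  have h3 := int_crd (M := M) (α := α)
  unfold Jp
  (repeat' (first | with_reducible exact IntF.id | with_reducible exact IntF.fst' | with_reducible exact IntF.snd' | with_reducible exact IntF.const _ | with_reducible exact Int.const _ | assumption | with_reducible apply Int.and | with_reducible apply Int.or | with_reducible apply Int.not | with_reducible apply Int.imp | with_reducible apply Int.iff | with_reducible apply Int.ne | with_reducible apply Int.eq | with_reducible apply Int.mem | with_reducible apply Int.subset | with_reducible apply Int.ltN | with_reducible apply Int.leN | with_reducible apply Int.fin | with_reducible apply Int.unique | with_reducible apply Int.all | with_reducible apply Int.ex | with_reducible apply IntF.fst | with_reducible apply IntF.snd | with_reducible apply IntF.app | with_reducible apply IntF.ite | with_reducible apply IntF.sep | with_reducible apply IntF.lam | with_reducible apply IntF.insert | with_reducible apply IntF.singleton | with_reducible apply IntF.union | with_reducible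 apply IntF.inter | with_reducible apply IntF.sdiff | with_reducible apply IntF.isUnion | with_reducible apply IntF.iimage | with_reducible apply IntF.the | with_reducible apply IntF.irec | with_reducible_and_instances apply IntF.add | with_reducible_and_instances apply IntF.mul | with_reducible apply IntF.succ | with_reducible apply IntF.val | with_reducible_and_instances apply Pool.Agent.Helper672.ZFA.Int.le | with_reducible_and_instances apply Pool.Agent.Helper672.ZFA.Int.lt | with_reducible_and_instances apply IntF.sub | with_reducible_and_instances apply IntF.neg | with_reducible_and_instances apply IntF.inv | with_reducible_and_instances apply IntF.div | with_reducible apply IntF.mk | (with_reducible refine Int.comp ?_ ?_; assumption) | (with_reducible refine Int.comp₂ ?_ ?_ ?_; assumption) | (with_reducible refine Int.comp₃ ?_ ?_ ?_ ?_; assumption) | (with_reducible refine IntF.comp ?_ ?_; assumption) | (with_reducible refine IntF.comp₂ ?_ ?_ ?_; assumption) | (with_reducible refine IntF.comp₃ ?_ ?_ ?_ ?_; assumption) | (with_reducible refine Int.comp₄ ?_ ?_ ?_ ?_ ?_; assumption) | with_reducible apply IntF.pair))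

theorem crd_mono {s t : IPow M α} (hs : IFin s) (hts : t ⊆ s) : crd t ≤ crd s := by
  have hc := int_crd (M := M) (α := α)
  revert t
  suffices H : ∀ t, t ⊆ s → crd t ≤ crd s from fun {t} ht => H t ht
  refine IFin.ind (p := fun s => ∀ t, t ⊆ s → crd t ≤ crd s) (by (repeat' (first | with_reducible exact IntF.id | with_reducible exact IntF.fst' | with_reducible exact IntF.snd' | with_reducible exact IntF.const _ | with_reducible exact Int.const _ | assumption | with_reducible apply Int.and | with_reducible apply Int.or | with_reducible apply Int.not | with_reducible apply Int.imp | with_reducible apply Int.iff | with_reducible apply Int.ne | with_reducible apply Int.eq | with_reducible apply Int.mem | with_reducible apply Int.subset | with_reducible apply Int.ltN | with_reducible apply Int.leN | with_reducible apply Int.fin | with_reducible apply Int.unique | with_reducible apply Int.all | with_reducible apply Int.ex | with_reducible apply IntF.fst | with_reducible apply IntF.snd | with_reducible apply IntF.app | with_reducible apply IntF.ite | with_reducible apply IntF.sep | with_reducible apply IntF.lam | with_reducible apply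 IntF.insert | with_reducible apply IntF.singleton | with_reducible apply IntF.union | with_reducible apply IntF.inter | with_reducible apply IntF.sdiff | with_reducible apply IntF.isUnion | with_reducible apply IntF.iimage | with_reducible apply IntF.the | with_reducible apply IntF.irec | with_reducible_and_instances apply IntF.add | with_reducible_and_instances apply IntF.mul | with_reducible apply IntF.succ | with_reducible apply IntF.val | (with_reducible refine Int.comp ?_ ?_; assumption) | (with_reducible refine Int.comp₂ ?_ ?_ ?_; assumption) | (with_reducible refine Int.comp₃ ?_ ?_ ?_ ?_; assumption) | (with_reducible refine IntF.comp ?_ ?_; assumption) | (with_reducible refine IntF.comp₂ ?_ ?_ ?_; assumption) | (with_reducible refine IntF.comp₃ ?_ ?_ ?_ ?_; assumption) | with_reducible apply IntF.pair))) ?_ ?_ s hs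
  · intro t ht
    have : t = ∅ := IPow.ext' fun x => ⟨fun h => ht x h, fun h => absurd h (by simp)⟩
    rw [this]
  · intro s a hs ha ih t ht
    by_cases h : a ∈ t
    · have h1 : t = Insert.insert a (t \ {a}) := IPow.ext' fun x => by
        by_cases hx : x = a <;> simp [hx, h]
      have h2 : t \ {a} ⊆ s := fun x hx => by
        rw [mem_sdiff, mem_singleton] at hx
        exact (mem_insert.1 (ht x hx.1)).resolve_left hx.2
      rw [h1, crd_insert (hs.subset h2) (by simp), crd_insert hs ha, INat.succ_le_iff,
        INat.lt_succ_iff]
      exact ih _ h2
    · refine (ih t fun x hx => (mem_insert.1 (ht x hx)).resolve_left fun h1 => h (h1 ▸ hx)).trans ?_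
      rw [crd_insert hs ha]
      exact INat.le_succ_self _

/-- The main finiteness lemma. -/
theorem not_all_Jp (hβ : FinP M (fun _ : β => True)) (hf : IntF M f)
    (hc : ∀ x ε, 0 < ε → ∃ s : IPow M α, IFin s ∧ ∀ y, Agr s x y →
      f x < f y + ε ∧ f y < f x + ε) {δ : R} (hδ : 0 < δ) :
    ∀ n : INat M, ∀ (d : IPow M α) (z : IFun M α β), IFin d →
      ∃ G : IPow M α, IFin G ∧ ¬ Jp f δ n d z G := by
  classical
  have hJ := int_Jp hf δ
  -- the oscillation argument
  have keyA : ∀ (n : INat M) (d : IPow M α) (z : IFun M α β), IFin d →
      (∀ G : IPow M α, IFin G → d ⊆ G → ∃ j, ¬ j ∈ G ∧ ∃ s : IPow M α, IFin s ∧ d ⊆ s ∧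
        (∀ i, i ∈ s → i ∈ G → i ∈ d) ∧ ∃ x x' : IFun M α β,
        Agr d z x ∧ Osc f δ s x ∧ (∀ i, i ≠ j → x i = x' i) ∧
          ¬ (f x < f x' + (δ + δ) ∧ f x' < f x + (δ + δ))) → False := by
    intro n d z hd H
    have hosc : ∀ y y', Agr d z y → Agr d z y' → ∀ ε, 0 < ε → f y < f y' + (δ + ε) := by
      intro y y' hy hy' ε hε
      obtain ⟨s₁, hs₁, h1⟩ := hc y (ε / 2) (half_pos hε)
      obtain ⟨s₂, hs₂, h2⟩ := hc y' (ε / 2) (half_pos hε)
      obtain ⟨j, -, s, hs, hds, hsG, x, x', hx, hO, -, -⟩ := H (d ∪ (s₁ ∪ s₂))
        (hd.union (hs₁.union hs₂)) fun i hi => mem_union.2 (Or.inl hi)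
      obtain ⟨w, hw, hw'⟩ := exists_mix s x y
      obtain ⟨v, hv, hv'⟩ := exists_mix s x y'
      have h3 : f y < f w + ε / 2 := by
        refine (h1 w fun i hi => ?_).1
        by_cases his : i ∈ s
        · have hid : i ∈ d := hsG i his (mem_union.2 (Or.inr (mem_union.2 (Or.inl hi))))
          rw [hw i his, ← hx i hid, hy i hid]
        · rw [hw' i his]
      have h4 : f v < f y' + ε / 2 := by
        refine (h2 v fun i hi => ?_).2
        by_cases his : i ∈ s
        · have hid : i ∈ d := hsG i his (mem_union.2 (Or.inr (mem_union.2 (Or.inr hi))))
          rw [hv i his, ← hx i hid, hy' i hid]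
        · rw [hv' i his]
      have h5 : f w < f v + δ := hO w v (fun i hi => (hw i hi).symm) fun i hi => (hv i hi).symm
      linarith
    obtain ⟨j, hj, s, hs, hds, hsG, x, x', hx, hO, hxx', hn⟩ := H d hd fun i hi => hi
    have hx'd : Agr d z x' := fun i hi => (hx i hi).trans (hxx' i fun h => hj (h ▸ hi))
    refine hn ⟨hosc x x' hx hx'd δ hδ, hosc x' x hx'd hx δ hδ⟩
  -- if it fails for all sets, then there is a bad set
  have keyB : ∀ (n : INat M) (d : IPow M α) (z : IFun M α β), IFin d →
      (∀ G : IPow M α, IFin G → Jp f δ n d z G) → ∃ G : IPow M α, IFin G ∧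
        ∀ G' : IPow M α, IFin G' → ∃ j, ¬ j ∈ G' ∧ ∃ s : IPow M α, IFin s ∧ d ⊆ s ∧
          crd (s \ d) ≤ n ∧ (∃ g, g ∈ s ∧ g ∈ G ∧ ¬ g ∈ d) ∧ ∃ x x' : IFun M α β,
          Agr d z x ∧ Osc f δ s x ∧ (∀ i, i ≠ j → x i = x' i) ∧
            ¬ (f x < f x' + (δ + δ) ∧ f x' < f x + (δ + δ)) := by
    intro n d z hd H
    by_contra hcon
    refine keyA n d z hd fun G hG hdG => ?_
    by_contra h1
    refine hcon ⟨G, hG, fun G' hG' => ?_⟩
    obtain ⟨j, hj, s, hs, hds, hcs, x, x', hx, hO, hxx', hn⟩ := H (G ∪ G') (hG.union hG')
    have hjG : ¬ j ∈ G := fun h => hj (mem_union.2 (Or.inl h))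
    refine ⟨j, fun h => hj (mem_union.2 (Or.inr h)), s, hs, hds, hcs, ?_, x, x', hx, hO, hxx', hn⟩
    by_contra h2
    push Not at h2
    exact h1 ⟨j, hjG, s, hs, hds, h2, x, x', hx, hO, hxx', hn⟩
  refine INat.ind (by (repeat' (first | with_reducible exact IntF.id | with_reducible exact IntF.fst' | with_reducible exact IntF.snd' | with_reducible exact IntF.const _ | with_reducible exact Int.const _ | assumption | with_reducible apply Int.and | with_reducible apply Int.or | with_reducible apply Int.not | with_reducible apply Int.imp | with_reducible apply Int.iff | with_reducible apply Int.ne | with_reducible apply Int.eq | with_reducible apply Int.mem | with_reducible apply Int.subset | with_reducible apply Int.ltN | with_reducible apply Int.leN | with_reducible apply Int.fin | with_reducible apply Int.unique | with_reducible apply Int.all | with_reducible apply Int.ex | with_reducible apply IntF.fst | with_reducible apply IntF.snd | with_reducible apply IntF.app | with_reducible apply IntF.ite | with_reducible apply IntF.sep | with_reducible apply IntF.lam | with_reducible apply IntF.insert | with_reducible apply IntF.singleton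 | with_reducible apply IntF.union | with_reducible apply IntF.inter | with_reducible apply IntF.sdiff | with_reducible apply IntF.isUnion | with_reducible apply IntF.iimage | with_reducible apply IntF.the | with_reducible apply IntF.irec | with_reducible_and_instances apply IntF.add | with_reducible_and_instances apply IntF.mul | with_reducible apply IntF.succ | with_reducible apply IntF.val | (with_reducible refine Int.comp ?_ ?_; assumption) | (with_reducible refine Int.comp₂ ?_ ?_ ?_; assumption) | (with_reducible refine Int.comp₃ ?_ ?_ ?_ ?_; assumption) | (with_reducible refine IntF.comp ?_ ?_; assumption) | (with_reducible refine IntF.comp₂ ?_ ?_ ?_; assumption) | (with_reducible refine IntF.comp₃ ?_ ?_ ?_ ?_; assumption) | (with_reducible refine Int.comp₄ ?_ ?_ ?_ ?_ ?_; assumption) | with_reducible apply IntF.pair))) ?_ ?_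
  · intro d z hd
    by_contra hcon
    push Not at hcon
    obtain ⟨G, hG, h1⟩ := keyB 0 d z hd hcon
    obtain ⟨j, -, s, hs, hds, hcs, ⟨g, hgs, -, hgd⟩, -⟩ := h1 ∅ IFin.empty
    have h2 : crd ({g} : IPow M α) ≤ crd (s \ d) := crd_mono (hs.subset fun x hx =>
      (mem_sdiff.1 hx).1) fun x hx => by
        rw [mem_singleton] at hx
        subst hx
        exact mem_sdiff.2 ⟨hgs, hgd⟩
    rw [crd_singleton] at h2
    exact absurd (h2.trans hcs) (not_le.2 (INat.lt_succ_self 0))
  · intro n ih d z hd
    by_contra hcon
    push Not at hcon
    obtain ⟨G, hG, h1⟩ := keyB n.succ d z hd hcon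
    obtain ⟨B, hB, hB'⟩ := hβ
    have hmod : ∀ (g : α) (b : β), ∃ z' : IFun M α β, z' g = b ∧ ∀ i, i ≠ g → z' i = z i := by
      intro g b
      have hf : IntF M (fun j : α => if j = g then b else z j) := by (repeat' (first | with_reducible exact IntF.id | with_reducible exact IntF.fst' | with_reducible exact IntF.snd' | with_reducible exact IntF.const _ | with_reducible exact Int.const _ | assumption | with_reducible apply Int.and | with_reducible apply Int.or | with_reducible apply Int.not | with_reducible apply Int.imp | with_reducible apply Int.iff | with_reducible apply Int.ne | with_reducible apply Int.eq | with_reducible apply Int.mem | with_reducible apply Int.subset | with_reducible apply Int.ltN | with_reducible apply Int.leN | with_reducible apply Int.fin | with_reducible apply Int.unique | with_reducible apply Int.all | with_reducible apply Int.ex | with_reducible apply IntF.fst | with_reducible apply IntF.snd | with_reducible apply IntF.app | with_reducible apply IntF.ite | with_reducible apply IntF.sep | with_reducible apply IntF.lam | with_reducible apply IntF.insert | with_reducible apply IntF.singleton | with_reducible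 apply IntF.union | with_reducible apply IntF.inter | with_reducible apply IntF.sdiff | with_reducible apply IntF.isUnion | with_reducible apply IntF.iimage | with_reducible apply IntF.the | with_reducible apply IntF.irec | with_reducible_and_instances apply IntF.add | with_reducible_and_instances apply IntF.mul | with_reducible apply IntF.succ | with_reducible apply IntF.val | (with_reducible refine Int.comp ?_ ?_; assumption) | (with_reducible refine Int.comp₂ ?_ ?_ ?_; assumption) | (with_reducible refine Int.comp₃ ?_ ?_ ?_ ?_; assumption) | (with_reducible refine IntF.comp ?_ ?_; assumption) | (with_reducible refine IntF.comp₂ ?_ ?_ ?_; assumption) | (with_reducible refine IntF.comp₃ ?_ ?_ ?_ ?_; assumption) | with_reducible apply IntF.pair))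
      exact ⟨⟨_, hf⟩, if_pos rfl, fun j hj => if_neg hj⟩
    have hIr : Int M (fun q : (α × β) × IPow M α => IFin q.2 ∧ ∀ z' : IFun M α β,
        z' q.1.1 = q.1.2 → (∀ i, i ≠ q.1.1 → z' i = z i) →
          ¬ Jp f δ n (Insert.insert q.1.1 d) z' q.2) := by (repeat' (first | with_reducible exact IntF.id | with_reducible exact IntF.fst' | with_reducible exact IntF.snd' | with_reducible exact IntF.const _ | with_reducible exact Int.const _ | assumption | with_reducible apply Int.and | with_reducible apply Int.or | with_reducible apply Int.not | with_reducible apply Int.imp | with_reducible apply Int.iff | with_reducible apply Int.ne | with_reducible apply Int.eq | with_reducible apply Int.mem | with_reducible apply Int.subset | with_reducible apply Int.ltN | with_reducible apply Int.leN | with_reducible apply Int.fin | with_reducible apply Int.unique | with_reducible apply Int.all | with_reducible apply Int.ex | with_reducible apply IntF.fst | with_reducible apply IntF.snd | with_reducible apply IntF.app | with_reducible apply IntF.ite | with_reducible apply IntF.sep | with_reducible apply IntF.lam | with_reducible apply IntF.insert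 | with_reducible apply IntF.singleton | with_reducible apply IntF.union | with_reducible apply IntF.inter | with_reducible apply IntF.sdiff | with_reducible apply IntF.isUnion | with_reducible apply IntF.iimage | with_reducible apply IntF.the | with_reducible apply IntF.irec | with_reducible_and_instances apply IntF.add | with_reducible_and_instances apply IntF.mul | with_reducible apply IntF.succ | with_reducible apply IntF.val | (with_reducible refine Int.comp ?_ ?_; assumption) | (with_reducible refine Int.comp₂ ?_ ?_ ?_; assumption) | (with_reducible refine Int.comp₃ ?_ ?_ ?_ ?_; assumption) | (with_reducible refine IntF.comp ?_ ?_; assumption) | (with_reducible refine IntF.comp₂ ?_ ?_ ?_; assumption) | (with_reducible refine IntF.comp₃ ?_ ?_ ?_ ?_; assumption) | (with_reducible refine Int.comp₄ ?_ ?_ ?_ ?_ ?_; assumption) | with_reducible apply IntF.pair))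
    obtain ⟨G', hG'⟩ := IFin.exists_bound
      (r := fun (p : α × β) (G' : IPow M α) => IFin G' ∧ ∀ z' : IFun M α β,
        z' p.1 = p.2 → (∀ i, i ≠ p.1 → z' i = z i) → ¬ Jp f δ n (Insert.insert p.1 d) z' G')
      hIr (fun G₁ G₂ => by
        by_cases h1 : IFin G₁ <;> by_cases h2 : IFin G₂
        · refine ⟨G₁ ∪ G₂, fun p hp => ⟨h1.union h2, fun z' hz hz' hJ => ?_⟩⟩
          rcases hp with hp | hp
          · exact hp.2 z' hz hz' (hJ.mono fun x hx => mem_union.2 (Or.inl hx))
          · exact hp.2 z' hz hz' (hJ.mono fun x hx => mem_union.2 (Or.inr hx))
        · exact ⟨G₁, fun p hp => hp.elim id fun h => absurd h.1 h2⟩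
        · exact ⟨G₂, fun p hp => hp.elim (fun h => absurd h.1 h1) id⟩
        · exact ⟨G₂, fun p hp => hp.elim (fun h => absurd h.1 h1) id⟩)
      ⟨∅⟩ (hG.prod hB) (fun p hp => by
        obtain ⟨z', hz', hz''⟩ := hmod p.1 p.2
        obtain ⟨G₁, h2, h3⟩ := ih (Insert.insert p.1 d) z' (hd.insert p.1)
        refine ⟨G₁, h2, fun z₁ h4 h5 => ?_⟩
        have : z₁ = z' := IFun.ext' fun i => by
          by_cases hi : i = p.1
          · rw [hi, h4, hz']
          · rw [h5 i hi, hz'' i hi]
        rw [this]
        exact h3)
    have hG'' : ∃ G₀ : IPow M α, IFin G₀ ∧ ∀ p, p ∈ iprod G B → ∀ z' : IFun M α β,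
        z' p.1 = p.2 → (∀ i, i ≠ p.1 → z' i = z i) →
          ¬ Jp f δ n (Insert.insert p.1 d) z' G₀ := by
      by_cases hne : ∃ p, p ∈ iprod G B
      · obtain ⟨p, hp⟩ := hne
        exact ⟨G', (hG' p hp).1, fun p hp => (hG' p hp).2⟩
      · exact ⟨∅, IFin.empty, fun p hp => absurd ⟨p, hp⟩ hne⟩
    obtain ⟨G₀, hG₀, h2⟩ := hG''
    obtain ⟨j, hj, s, hs, hds, hcs, ⟨g, hgs, hgG, hgd⟩, x, x', hx, hO, hxx', hn⟩ := h1 G₀ hG₀
    obtain ⟨z', hz', hz''⟩ := hmod g (x g)
    refine h2 (g, x g) (mem_iprod.2 ⟨hgG, hB' _ trivial⟩) z' hz' hz'' ⟨j, hj, s, hs, ?_, ?_, x, x',
      ?_, hO, hxx', hn⟩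
    · intro i hi
      rcases mem_insert.1 hi with rfl | hi
      · exact hgs
      · exact hds i hi
    · have h3 : s \ d = Insert.insert g (s \ Insert.insert g d) := IPow.ext' fun i => by
        rw [mem_insert, mem_sdiff, mem_sdiff, mem_insert]
        by_cases hi : i = g
        · subst hi
          simp [hgs, hgd]
        · simp [hi]
      rw [h3, crd_insert (hs.subset fun x hx => (mem_sdiff.1 hx).1) (by simp)] at hcs
      exact INat.lt_succ_iff.1 (INat.succ_le_iff.1 hcs)
    · intro i hi
      rcases mem_insert.1 hi with rfl | hi
      · exact hz'
      · by_cases hig : i = g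
        · rw [hig, hz']
        · rw [hz'' i hig, hx i hi]

end

end Pool.Agent.Q212.ZB
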