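import Pool.Agent.Q212.ZB1

/-!
# Powers of a finite discrete space are strongly zero-dimensional: the clopen set
-/

set_option maxHeartbeats 1000000
set_option linter.all false

namespace Pool.Agent.Q212.ZB

open FirstOrder FirstOrder.Language
open Pool.Agent.Helper672.ZFA
open Pool.Agent.H310
open Pool.Agent.Q212.ZA

universe u u₁ u₂ u₃ u₄

variable {M : Type u} [L.Structure M] [hM : IsModel M]
variable {α : Type u₁} {β : Type u₂} {R : Type u₃} [ITy M α] [ITy M β] [ITy M R]
variable [Field R] [LinearOrder R] [IsStrictOrderedRing R] [IAdd M R] [ILE M R]
  {f : IFun M α β → R}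

/-- The coordinates with a big jump. -/
def Jn (f : IFun M α β → R) (δ : R) (n : INat M) (j : α) : Prop :=
  ∃ s : IPow M α, IFin s ∧ crd s ≤ n ∧ ∃ x x' : IFun M α β,
    Osc f δ s x ∧ (∀ i, i ≠ j → x i = x' i) ∧
      ¬ (f x < f x' + (δ + δ) ∧ f x' < f x + (δ + δ))

theorem Jn.mono {δ : R} {n n' : INat M} {j : α} (h : Jn f δ n j) (hn : n ≤ n') :
    Jn f δ n' j := by
  obtain ⟨s, h1, h2, h3⟩ := h
  exact ⟨s, h1, h2.trans hn, h3⟩

theorem finP_Jn (hβ : FinP M (fun _ : β => True)) (hf : IntF M f)
    (hc : ∀ x ε, 0 < ε → ∃ s : IPow M α, IFin s ∧ ∀ y, Agr s x y →
      f x < f y + ε ∧ f y < f x + ε) {δ : R} (hδ : 0 < δ) (n : INat M) :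
    FinP M (fun j => Jn f δ n j) := by
  by_cases hne : ∃ j, Jn f δ n j
  · obtain ⟨j, s, hs, hcs, x, x', h1⟩ := hne
    obtain ⟨G, hG, h2⟩ := not_all_Jp hβ hf hc hδ n ∅ x IFin.empty
    refine ⟨G, hG, fun j hj => ?_⟩
    by_contra hjG
    obtain ⟨s, hs, hcs, x, x', hO, hxx', hn⟩ := hj
    refine h2 ⟨j, hjG, s, hs, fun i hi => absurd hi (by simp), ?_, x, x', fun i hi =>
      absurd hi (by simp), hO, hxx', hn⟩
    have : s \ ∅ = s := IPow.ext' fun i => by simp
    rw [this]
    exact hcs
  · exact ⟨∅, IFin.empty, fun j hj => absurd ⟨j, hj⟩ hne⟩

section

variable {q : INat M → R}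

/-- The finite sets of coordinates. -/
noncomputable def Lm (f : IFun M α β → R) (q : INat M → R) (m : INat M) : IPow M α :=
  sep M fun j => ∃ k, k ≤ m ∧ Jn f (q k) m j

theorem int_Jn (hf : IntF M f) :
    Int M (fun c : (R × INat M) × α => Jn f c.1.1 c.1.2 c.2) := by
  have h2 := int_Osc hf
  have h3 := int_crd (M := M) (α := α)
  unfold Jn
  (repeat' (first | with_reducible exact IntF.id | with_reducible exact IntF.fst' | with_reducible exact IntF.snd' | with_reducible exact IntF.const _ | with_reducible exact Int.const _ | assumption | with_reducible apply Int.and | with_reducible apply Int.or | with_reducible apply Int.not | with_reducible apply Int.imp | with_reducible apply Int.iff | with_reducible apply Int.ne | with_reducible apply Int.eq | with_reducible apply Int.mem | with_reducible apply Int.subset | with_reducible apply Int.ltN | with_reducible apply Int.leN | with_reducible apply Int.fin | with_reducible apply Int.unique | with_reducible apply Int.all | with_reducible apply Int.ex | with_reducible apply IntF.fst | with_reducible apply IntF.snd | with_reducible apply IntF.app | with_reducible apply IntF.ite | with_reducible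 apply IntF.sep | with_reducible apply IntF.lam | with_reducible apply IntF.insert | with_reducible apply IntF.singleton | with_reducible apply IntF.union | with_reducible apply IntF.inter | with_reducible apply IntF.sdiff | with_reducible apply IntF.isUnion | with_reducible apply IntF.iimage | with_reducible apply IntF.the | with_reducible apply IntF.irec | with_reducible_and_instances apply IntF.add | with_reducible_and_instances apply IntF.mul | with_reducible apply IntF.succ | with_reducible apply IntF.val | with_reducible_and_instances apply Pool.Agent.Helper672.ZFA.Int.le | with_reducible_and_instances apply Pool.Agent.Helper672.ZFA.Int.lt | with_reducible_and_instances apply IntF.sub | with_reducible_and_instances apply IntF.neg | with_reducible_and_instances apply IntF.inv | with_reducible_and_instances apply IntF.div | with_reducible apply IntF.mk | (with_reducible refine Int.comp ?_ ?_; assumption) | (with_reducible refine Int.comp₂ ?_ ?_ ?_; assumption) | (with_reducible refine Int.comp₃ ?_ ?_ ?_ ?_; assumption) | (with_reducible refine IntF.comp ?_ ?_; assumption) | (with_reducible refine IntF.comp₂ ?_ ?_ ?_; assumption)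 | (with_reducible refine IntF.comp₃ ?_ ?_ ?_ ?_; assumption) | (with_reducible refine Int.comp₄ ?_ ?_ ?_ ?_ ?_; assumption) | with_reducible apply IntF.pair))

theorem int_Lm (hf : IntF M f) (hq : IntF M q) : IntF M (fun m => Lm f q m) := by
  have h2 := int_Jn hf
  unfold Lm
  (repeat' (first | with_reducible exact IntF.id | with_reducible exact IntF.fst' | with_reducible exact IntF.snd' | with_reducible exact IntF.const _ | with_reducible exact Int.const _ | assumption | with_reducible apply Int.and | with_reducible apply Int.or | with_reducible apply Int.not | with_reducible apply Int.imp | with_reducible apply Int.iff | with_reducible apply Int.ne | with_reducible apply Int.eq | with_reducible apply Int.mem | with_reducible apply Int.subset | with_reducible apply Int.ltN | with_reducible apply Int.leN | with_reducible apply Int.fin | with_reducible apply Int.unique | with_reducible apply Int.all | with_reducible apply Int.ex | with_reducible apply IntF.fst | with_reducible apply IntF.snd | with_reducible apply IntF.app | with_reducible apply IntF.ite | with_reducible apply IntF.sep | with_reducible apply IntF.lam | with_reducible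 apply IntF.insert | with_reducible apply IntF.singleton | with_reducible apply IntF.union | with_reducible apply IntF.inter | with_reducible apply IntF.sdiff | with_reducible apply IntF.isUnion | with_reducible apply IntF.iimage | with_reducible apply IntF.the | with_reducible apply IntF.irec | with_reducible_and_instances apply IntF.add | with_reducible_and_instances apply IntF.mul | with_reducible apply IntF.succ | with_reducible apply IntF.val | with_reducible_and_instances apply Pool.Agent.Helper672.ZFA.Int.le | with_reducible_and_instances apply Pool.Agent.Helper672.ZFA.Int.lt | with_reducible_and_instances apply IntF.sub | with_reducible_and_instances apply IntF.neg | with_reducible_and_instances apply IntF.inv | with_reducible_and_instances apply IntF.div | with_reducible apply IntF.mk | (with_reducible refine Int.comp ?_ ?_; assumption) | (with_reducible refine Int.comp₂ ?_ ?_ ?_; assumption) | (with_reducible refine Int.comp₃ ?_ ?_ ?_ ?_; assumption) | (with_reducible refine IntF.comp ?_ ?_; assumption) | (with_reducible refine IntF.comp₂ ?_ ?_ ?_; assumption) | (with_reducible refine IntF.comp₃ ?_ ?_ ?_ ?_; assumption)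 | (with_reducible refine Int.comp₄ ?_ ?_ ?_ ?_ ?_; assumption) | with_reducible apply IntF.pair))

theorem mem_Lm (hf : IntF M f) (hq : IntF M q) {m : INat M} {j : α} :
    j ∈ Lm f q m ↔ ∃ k, k ≤ m ∧ Jn f (q k) m j := by
  have h2 := int_Jn hf
  unfold Lm
  rw [mem_sep (by (repeat' (first | with_reducible exact IntF.id | with_reducible exact IntF.fst' | with_reducible exact IntF.snd' | with_reducible exact IntF.const _ | with_reducible exact Int.const _ | assumption | with_reducible apply Int.and | with_reducible apply Int.or | with_reducible apply Int.not | with_reducible apply Int.imp | with_reducible apply Int.iff | with_reducible apply Int.ne | with_reducible apply Int.eq | with_reducible apply Int.mem | with_reducible apply Int.subset | with_reducible apply Int.ltN | with_reducible apply Int.leN | with_reducible apply Int.fin | with_reducible apply Int.unique | with_reducible apply Int.all | with_reducible apply Int.ex | with_reducible apply IntF.fst | with_reducible apply IntF.snd | with_reducible apply IntF.app | with_reducible apply IntF.ite | with_reducible apply IntF.sep | with_reducible apply IntF.lam | with_reducible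 apply IntF.insert | with_reducible apply IntF.singleton | with_reducible apply IntF.union | with_reducible apply IntF.inter | with_reducible apply IntF.sdiff | with_reducible apply IntF.isUnion | with_reducible apply IntF.iimage | with_reducible apply IntF.the | with_reducible apply IntF.irec | with_reducible_and_instances apply IntF.add | with_reducible_and_instances apply IntF.mul | with_reducible apply IntF.succ | with_reducible apply IntF.val | with_reducible_and_instances apply Pool.Agent.Helper672.ZFA.Int.le | with_reducible_and_instances apply Pool.Agent.Helper672.ZFA.Int.lt | with_reducible_and_instances apply IntF.sub | with_reducible_and_instances apply IntF.neg | with_reducible_and_instances apply IntF.inv | with_reducible_and_instances apply IntF.div | with_reducible apply IntF.mk | (with_reducible refine Int.comp ?_ ?_; assumption) | (with_reducible refine Int.comp₂ ?_ ?_ ?_; assumption) | (with_reducible refine Int.comp₃ ?_ ?_ ?_ ?_; assumption) | (with_reducible refine IntF.comp ?_ ?_; assumption) | (with_reducible refine IntF.comp₂ ?_ ?_ ?_; assumption) | (with_reducible refine IntF.comp₃ ?_ ?_ ?_ ?_; assumption)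 | (with_reducible refine Int.comp₄ ?_ ?_ ?_ ?_ ?_; assumption) | with_reducible apply IntF.pair)))]

theorem Lm_mono (hf : IntF M f) (hq : IntF M q) {m m' : INat M} (h : m ≤ m') :
    Lm f q m ⊆ Lm f q m' := by
  intro j hj
  obtain ⟨k, h1, h2⟩ := (mem_Lm hf hq).1 hj
  exact (mem_Lm hf hq).2 ⟨k, h1.trans h, h2.mono h⟩

theorem fin_Lm (hβ : FinP M (fun _ : β => True)) (hf : IntF M f)
    (hc : ∀ x ε, 0 < ε → ∃ s : IPow M α, IFin s ∧ ∀ y, Agr s x y →
      f x < f y + ε ∧ f y < f x + ε) (hq : IntF M q) (hpos : ∀ n, 0 < q n) (m : INat M) :
    IFin (Lm f q m) := by
  have h2 := int_Jn hf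
  obtain ⟨K, hK, hK'⟩ := finP_le m
  obtain ⟨G, hG⟩ := IFin.exists_bound
    (r := fun (k : INat M) (G : IPow M α) => IFin G ∧ ∀ j, Jn f (q k) m j → j ∈ G)
    (by (repeat' (first | with_reducible exact IntF.id | with_reducible exact IntF.fst' | with_reducible exact IntF.snd' | with_reducible exact IntF.const _ | with_reducible exact Int.const _ | assumption | with_reducible apply Int.and | with_reducible apply Int.or | with_reducible apply Int.not | with_reducible apply Int.imp | with_reducible apply Int.iff | with_reducible apply Int.ne | with_reducible apply Int.eq | with_reducible apply Int.mem | with_reducible apply Int.subset | with_reducible apply Int.ltN | with_reducible apply Int.leN | with_reducible apply Int.fin | with_reducible apply Int.unique | with_reducible apply Int.all | with_reducible apply Int.ex | with_reducible apply IntF.fst | with_reducible apply IntF.snd | with_reducible apply IntF.app | with_reducible apply IntF.ite | with_reducible apply IntF.sep | with_reducible apply IntF.lam | with_reducible apply IntF.insert | with_reducible apply IntF.singleton | with_reducible apply IntF.union | with_reducible apply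 IntF.inter | with_reducible apply IntF.sdiff | with_reducible apply IntF.isUnion | with_reducible apply IntF.iimage | with_reducible apply IntF.the | with_reducible apply IntF.irec | with_reducible_and_instances apply IntF.add | with_reducible_and_instances apply IntF.mul | with_reducible apply IntF.succ | with_reducible apply IntF.val | with_reducible_and_instances apply Pool.Agent.Helper672.ZFA.Int.le | with_reducible_and_instances apply Pool.Agent.Helper672.ZFA.Int.lt | with_reducible_and_instances apply IntF.sub | with_reducible_and_instances apply IntF.neg | with_reducible_and_instances apply IntF.inv | with_reducible_and_instances apply IntF.div | with_reducible apply IntF.mk | (with_reducible refine Int.comp ?_ ?_; assumption) | (with_reducible refine Int.comp₂ ?_ ?_ ?_; assumption) | (with_reducible refine Int.comp₃ ?_ ?_ ?_ ?_; assumption) | (with_reducible refine IntF.comp ?_ ?_; assumption) | (with_reducible refine IntF.comp₂ ?_ ?_ ?_; assumption) | (with_reducible refine IntF.comp₃ ?_ ?_ ?_ ?_; assumption) | (with_reducible refine Int.comp₄ ?_ ?_ ?_ ?_ ?_; assumption) | with_reducible apply IntF.pair))) (fun G₁ G₂ =>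 by
        by_cases h1 : IFin G₁ <;> by_cases h2 : IFin G₂
        · refine ⟨G₁ ∪ G₂, fun p hp => ⟨h1.union h2, fun j hj => ?_⟩⟩
          rcases hp with hp | hp
          · exact mem_union.2 (Or.inl (hp.2 j hj))
          · exact mem_union.2 (Or.inr (hp.2 j hj))
        · exact ⟨G₁, fun p hp => hp.elim id fun h => absurd h.1 h2⟩
        · exact ⟨G₂, fun p hp => hp.elim (fun h => absurd h.1 h1) id⟩
        · exact ⟨G₂, fun p hp => hp.elim (fun h => absurd h.1 h1) id⟩)
      ⟨∅⟩ hK (fun k _ => finP_Jn hβ hf hc (hpos k) m)
  refine (hG m (hK' m le_rfl)).1.subset fun j hj => ?_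
  obtain ⟨k, h3, h4⟩ := (mem_Lm hf hq).1 hj
  exact (hG k (hK' k h3)).2 j h4

/-- A single change outside the set does not change the value. -/
theorem single_change (hf : IntF M f)
    (hc : ∀ x ε, 0 < ε → ∃ s : IPow M α, IFin s ∧ ∀ y, Agr s x y →
      f x < f y + ε ∧ f y < f x + ε) (hq : IntF M q) (hpos : ∀ n, 0 < q n)
    (hlim : ∀ ε, 0 < ε → ∃ n, q n < ε) {j : α} (hj : ∀ m, ¬ j ∈ Lm f q m)
    {x x' : IFun M α β} (hx : ∀ i, i ≠ j → x i = x' i) : f x = f x' := by
  by_contra hne
  have h1 : ∃ ε, 0 < ε ∧ ¬ (f x < f x' + ε ∧ f x' < f x + ε) := by
    rcases lt_or_gt_of_ne hne with h | h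
    · refine ⟨f x' - f x, sub_pos.2 h, fun h' => ?_⟩
      have := h'.2
      linarith
    · refine ⟨f x - f x', sub_pos.2 h, fun h' => ?_⟩
      have := h'.1
      linarith
  obtain ⟨ε, hε, h1⟩ := h1
  obtain ⟨k, hk⟩ := hlim (ε / 2) (half_pos hε)
  obtain ⟨s, hs, h2⟩ := hc x (q k / 2) (half_pos (hpos k))
  refine hj (max k (crd s)) ((mem_Lm hf hq).2 ⟨k, le_max_left _ _, s, hs, le_max_right _ _,
    x, x', fun y y' hy hy' => ?_, hx, fun h => h1 ⟨?_, ?_⟩⟩)
  · have h3 := (h2 y hy).2
    have h4 := (h2 y' hy').1
    linarith
  · have := h.1
    linarith
  · have := h.2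
    linarith

/-- Finitely many changes outside the set do not change the value. -/
theorem finite_change (hf : IntF M f)
    (hc : ∀ x ε, 0 < ε → ∃ s : IPow M α, IFin s ∧ ∀ y, Agr s x y →
      f x < f y + ε ∧ f y < f x + ε) (hq : IntF M q) (hpos : ∀ n, 0 < q n)
    (hlim : ∀ ε, 0 < ε → ∃ n, q n < ε) {F : IPow M α} (hF : IFin F)
    (hj : ∀ j, j ∈ F → ∀ m, ¬ j ∈ Lm f q m)
    {x x' : IFun M α β} (hx : ∀ i, ¬ i ∈ F → x i = x' i) : f x = f x' := by
  classical
  have hL := int_Lm hf hq
  revert x x'
  suffices H : (∀ j, j ∈ F → ∀ m, ¬ j ∈ Lm f q m) → ∀ x x' : IFun M α β,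
      (∀ i, ¬ i ∈ F → x i = x' i) → f x = f x' from fun {x x'} h => H hj x x' h
  refine IFin.ind (p := fun F => (∀ j, j ∈ F → ∀ m, ¬ j ∈ Lm f q m) → ∀ x x' : IFun M α β,
      (∀ i, ¬ i ∈ F → x i = x' i) → f x = f x') (by (repeat' (first | with_reducible exact IntF.id | with_reducible exact IntF.fst' | with_reducible exact IntF.snd' | with_reducible exact IntF.const _ | with_reducible exact Int.const _ | assumption | with_reducible apply Int.and | with_reducible apply Int.or | with_reducible apply Int.not | with_reducible apply Int.imp | with_reducible apply Int.iff | with_reducible apply Int.ne | with_reducible apply Int.eq | with_reducible apply Int.mem | with_reducible apply Int.subset | with_reducible apply Int.ltN | with_reducible apply Int.leN | with_reducible apply Int.fin | with_reducible apply Int.unique | with_reducible apply Int.all | with_reducible apply Int.ex | with_reducible apply IntF.fst | with_reducible apply IntF.snd | with_reducible apply IntF.app | with_reducible apply IntF.ite | with_reducible apply IntF.sep | with_reducible apply IntF.lam | with_reducible apply IntF.insert | with_reducible apply IntF.singleton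 | with_reducible apply IntF.union | with_reducible apply IntF.inter | with_reducible apply IntF.sdiff | with_reducible apply IntF.isUnion | with_reducible apply IntF.iimage | with_reducible apply IntF.the | with_reducible apply IntF.irec | with_reducible_and_instances apply IntF.add | with_reducible_and_instances apply IntF.mul | with_reducible apply IntF.succ | with_reducible apply IntF.val | with_reducible_and_instances apply Pool.Agent.Helper672.ZFA.Int.le | with_reducible_and_instances apply Pool.Agent.Helper672.ZFA.Int.lt | with_reducible_and_instances apply IntF.sub | with_reducible_and_instances apply IntF.neg | with_reducible_and_instances apply IntF.inv | with_reducible_and_instances apply IntF.div | with_reducible apply IntF.mk | (with_reducible refine Int.comp ?_ ?_; assumption) | (with_reducible refine Int.comp₂ ?_ ?_ ?_; assumption) | (with_reducible refine Int.comp₃ ?_ ?_ ?_ ?_; assumption) | (with_reducible refine IntF.comp ?_ ?_; assumption) | (with_reducible refine IntF.comp₂ ?_ ?_ ?_; assumption) | (with_reducible refine IntF.comp₃ ?_ ?_ ?_ ?_; assumption) | (with_reducible refine Int.comp₄ ?_ ?_ ?_ ?_ ?_; assumption)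 | with_reducible apply IntF.pair))) ?_ ?_ F hF
  · intro _ x x' h
    have : x = x' := IFun.ext' fun i => h i (by simp)
    rw [this]
  · intro F a hF ha ih hj x x' h
    obtain ⟨w, hw, hw'⟩ := exists_mix {a} x x'
    have h1 : f x = f w := by
      refine ih (fun j h => hj j (mem_insert.2 (Or.inr h))) x w fun i hi => ?_
      by_cases hia : i = a
      · subst hia
        exact (hw i (mem_singleton.2 rfl)).symm
      · rw [hw' i fun h => hia (mem_singleton.1 h)]
        refine h i fun h => ?_
        rcases mem_insert.1 h with h | h
        · exact hia h
        · exact hi h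
    rw [h1]
    exact single_change hf hc hq hpos hlim (hj a (mem_insert.2 (Or.inl rfl)))
      fun i hi => hw' i fun h => hi (mem_singleton.1 h)

/-- Around every point there is a level where the oscillation is small. -/
theorem exists_level (hf : IntF M f)
    (hc : ∀ x ε, 0 < ε → ∃ s : IPow M α, IFin s ∧ ∀ y, Agr s x y →
      f x < f y + ε ∧ f y < f x + ε) (hq : IntF M q) (hpos : ∀ n, 0 < q n)
    (hlim : ∀ ε, 0 < ε → ∃ n, q n < ε) (x : IFun M α β) : ∃ m, Osc f 1 (Lm f q m) x := by
  have hL := int_Lm hf hq
  obtain ⟨s, hs, h1⟩ := hc x (1 / 2) (by norm_num)
  obtain ⟨m, hm⟩ := IFin.exists_bound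
    (r := fun (j : α) (m : INat M) => (∃ k, j ∈ Lm f q k) → j ∈ Lm f q m)
    (by (repeat' (first | with_reducible exact IntF.id | with_reducible exact IntF.fst' | with_reducible exact IntF.snd' | with_reducible exact IntF.const _ | with_reducible exact Int.const _ | assumption | with_reducible apply Int.and | with_reducible apply Int.or | with_reducible apply Int.not | with_reducible apply Int.imp | with_reducible apply Int.iff | with_reducible apply Int.ne | with_reducible apply Int.eq | with_reducible apply Int.mem | with_reducible apply Int.subset | with_reducible apply Int.ltN | with_reducible apply Int.leN | with_reducible apply Int.fin | with_reducible apply Int.unique | with_reducible apply Int.all | with_reducible apply Int.ex | with_reducible apply IntF.fst | with_reducible apply IntF.snd | with_reducible apply IntF.app | with_reducible apply IntF.ite | with_reducible apply IntF.sep | with_reducible apply IntF.lam | with_reducible apply IntF.insert | with_reducible apply IntF.singleton | with_reducible apply IntF.union | with_reducible apply IntF.inter | with_reducible apply IntF.sdiff | with_reducible apply IntF.isUnion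 | with_reducible apply IntF.iimage | with_reducible apply IntF.the | with_reducible apply IntF.irec | with_reducible_and_instances apply IntF.add | with_reducible_and_instances apply IntF.mul | with_reducible apply IntF.succ | with_reducible apply IntF.val | with_reducible_and_instances apply Pool.Agent.Helper672.ZFA.Int.le | with_reducible_and_instances apply Pool.Agent.Helper672.ZFA.Int.lt | with_reducible_and_instances apply IntF.sub | with_reducible_and_instances apply IntF.neg | with_reducible_and_instances apply IntF.inv | with_reducible_and_instances apply IntF.div | with_reducible apply IntF.mk | (with_reducible refine Int.comp ?_ ?_; assumption) | (with_reducible refine Int.comp₂ ?_ ?_ ?_; assumption) | (with_reducible refine Int.comp₃ ?_ ?_ ?_ ?_; assumption) | (with_reducible refine IntF.comp ?_ ?_; assumption) | (with_reducible refine IntF.comp₂ ?_ ?_ ?_; assumption) | (with_reducible refine IntF.comp₃ ?_ ?_ ?_ ?_; assumption) | (with_reducible refine Int.comp₄ ?_ ?_ ?_ ?_ ?_; assumption) | with_reducible apply IntF.pair))) (fun m₁ m₂ => ⟨max m₁ m₂, fun j hj hk => by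
        rcases hj with hj | hj
        · exact Lm_mono hf hq (le_max_left _ _) _ (hj hk)
        · exact Lm_mono hf hq (le_max_right _ _) _ (hj hk)⟩)
      ⟨0⟩ hs (fun j _ => by
        by_cases h : ∃ k, j ∈ Lm f q k
        · obtain ⟨k, hk⟩ := h
          exact ⟨k, fun _ => hk⟩
        · exact ⟨0, fun h' => absurd h' h⟩)
  refine ⟨m, fun y y' hy hy' => ?_⟩
  have key : ∀ y, Agr (Lm f q m) x y → ∃ w, Agr s x w ∧ f w = f y := by
    intro y hy
    obtain ⟨w, hw, hw'⟩ := exists_mix s x y
    refine ⟨w, fun i hi => (hw i hi).symm, ?_⟩
    have hI : Int M (fun j => j ∈ s ∧ ¬ ∃ k, j ∈ Lm f q k) := by (repeat' (first | with_reducible exact IntF.id | with_reducible exact IntF.fst' | with_reducible exact IntF.snd' | with_reducible exact IntF.const _ | with_reducible exact Int.const _ | assumption | with_reducible apply Int.and | with_reducible apply Int.or | with_reducible apply Int.not | with_reducible apply Int.imp | with_reducible apply Int.iff | with_reducible apply Int.ne | with_reducible apply Int.eq | with_reducible apply Int.mem | with_reducible apply Int.subset | with_reducible apply Int.ltN | with_reducible apply Int.leN | with_reducible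 apply Int.fin | with_reducible apply Int.unique | with_reducible apply Int.all | with_reducible apply Int.ex | with_reducible apply IntF.fst | with_reducible apply IntF.snd | with_reducible apply IntF.app | with_reducible apply IntF.ite | with_reducible apply IntF.sep | with_reducible apply IntF.lam | with_reducible apply IntF.insert | with_reducible apply IntF.singleton | with_reducible apply IntF.union | with_reducible apply IntF.inter | with_reducible apply IntF.sdiff | with_reducible apply IntF.isUnion | with_reducible apply IntF.iimage | with_reducible apply IntF.the | with_reducible apply IntF.irec | with_reducible_and_instances apply IntF.add | with_reducible_and_instances apply IntF.mul | with_reducible apply IntF.succ | with_reducible apply IntF.val | with_reducible_and_instances apply Pool.Agent.Helper672.ZFA.Int.le | with_reducible_and_instances apply Pool.Agent.Helper672.ZFA.Int.lt | with_reducible_and_instances apply IntF.sub | with_reducible_and_instances apply IntF.neg | with_reducible_and_instances apply IntF.inv | with_reducible_and_instances apply IntF.div | with_reducible apply IntF.mk | (with_reducible refine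 Int.comp ?_ ?_; assumption) | (with_reducible refine Int.comp₂ ?_ ?_ ?_; assumption) | (with_reducible refine Int.comp₃ ?_ ?_ ?_ ?_; assumption) | (with_reducible refine IntF.comp ?_ ?_; assumption) | (with_reducible refine IntF.comp₂ ?_ ?_ ?_; assumption) | (with_reducible refine IntF.comp₃ ?_ ?_ ?_ ?_; assumption) | (with_reducible refine Int.comp₄ ?_ ?_ ?_ ?_ ?_; assumption) | with_reducible apply IntF.pair))
    refine finite_change hf hc hq hpos hlim (F := sep M fun j => j ∈ s ∧ ¬ ∃ k, j ∈ Lm f q k)
      (hs.subset fun j hj => ((mem_sep hI).1 hj).1)
      (fun j hj k hk => ((mem_sep hI).1 hj).2 ⟨k, hk⟩) fun i hi => ?_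
    rw [mem_sep hI] at hi
    by_cases his : i ∈ s
    · have h2 : ∃ k, i ∈ Lm f q k := by
        by_contra h2
        exact hi ⟨his, h2⟩
      rw [hw i his, hy i (hm i his h2)]
    · exact hw' i his
  obtain ⟨w, hw, hw'⟩ := key y hy
  obtain ⟨v, hv, hv'⟩ := key y' hy'
  have h3 := (h1 w hw).2
  have h4 := (h1 v hv).1
  rw [hw'] at h3
  rw [hv'] at h4
  linarith

/-- The theorem: there is a clopen set that contains all zeros of `f` and no point with
value `1`. -/
theorem exists_clopen (hβ : FinP M (fun _ : β => True)) (hf : IntF M f)
    (hc : ∀ x ε, 0 < ε → ∃ s : IPow M α, IFin s ∧ ∀ y, Agr s x y →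
      f x < f y + ε ∧ f y < f x + ε) (hq : IntF M q) (hpos : ∀ n, 0 < q n)
    (hlim : ∀ ε, 0 < ε → ∃ n, q n < ε) :
    ∃ C : IPow M (IFun M α β), (∀ x, f x = 0 → x ∈ C) ∧ (∀ x, f x = 1 → ¬ x ∈ C) ∧
      ∀ x, ∃ s : IPow M α, IFin s ∧ ∀ y, Agr s x y → (x ∈ C ↔ y ∈ C) := by
  have hL := int_Lm hf hq
  have hO := int_Osc hf
  have hA := int_Agr (M := M) (α := α) (β := β)
  have hI : Int M (fun x => ∃ m, (Osc f 1 (Lm f q m) x ∧
      ∀ k, Osc f 1 (Lm f q k) x → m ≤ k) ∧ ∃ y, Agr (Lm f q m) x y ∧ f y = 0) := by (repeat' (first | with_reducible exact IntF.id | with_reducible exact IntF.fst' | with_reducible exact IntF.snd' | with_reducible exact IntF.const _ | with_reducible exact Int.const _ | assumption | with_reducible apply Int.and | with_reducible apply Int.or | with_reducible apply Int.not | with_reducible apply Int.imp | with_reducible apply Int.iff | with_reducible apply Int.ne | with_reducible apply Int.eq | with_reducible apply Int.mem | with_reducible apply Int.subset | with_reducible apply Int.ltN | with_reducible apply Int.leN | with_reducible apply Int.fin | with_reducible apply Int.unique | with_reducible apply Int.all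 | with_reducible apply Int.ex | with_reducible apply IntF.fst | with_reducible apply IntF.snd | with_reducible apply IntF.app | with_reducible apply IntF.ite | with_reducible apply IntF.sep | with_reducible apply IntF.lam | with_reducible apply IntF.insert | with_reducible apply IntF.singleton | with_reducible apply IntF.union | with_reducible apply IntF.inter | with_reducible apply IntF.sdiff | with_reducible apply IntF.isUnion | with_reducible apply IntF.iimage | with_reducible apply IntF.the | with_reducible apply IntF.irec | with_reducible_and_instances apply IntF.add | with_reducible_and_instances apply IntF.mul | with_reducible apply IntF.succ | with_reducible apply IntF.val | with_reducible_and_instances apply Pool.Agent.Helper672.ZFA.Int.le | with_reducible_and_instances apply Pool.Agent.Helper672.ZFA.Int.lt | with_reducible_and_instances apply IntF.sub | with_reducible_and_instances apply IntF.neg | with_reducible_and_instances apply IntF.inv | with_reducible_and_instances apply IntF.div | with_reducible apply IntF.mk | (with_reducible refine Int.comp ?_ ?_; assumption) | (with_reducible refine Int.comp₂ ?_ ?_ ?_; assumption)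 | (with_reducible refine Int.comp₃ ?_ ?_ ?_ ?_; assumption) | (with_reducible refine IntF.comp ?_ ?_; assumption) | (with_reducible refine IntF.comp₂ ?_ ?_ ?_; assumption) | (with_reducible refine IntF.comp₃ ?_ ?_ ?_ ?_; assumption) | (with_reducible refine Int.comp₄ ?_ ?_ ?_ ?_ ?_; assumption) | with_reducible apply IntF.pair))
  have hleast : ∀ x, ∃ m, Osc f 1 (Lm f q m) x ∧ ∀ k, Osc f 1 (Lm f q k) x → m ≤ k := by
    intro x
    exact INat.exists_least (p := fun m => Osc f 1 (Lm f q m) x) (by (repeat' (first | with_reducible exact IntF.id | with_reducible exact IntF.fst' | with_reducible exact IntF.snd' | with_reducible exact IntF.const _ | with_reducible exact Int.const _ | assumption | with_reducible apply Int.and | with_reducible apply Int.or | with_reducible apply Int.not | with_reducible apply Int.imp | with_reducible apply Int.iff | with_reducible apply Int.ne | with_reducible apply Int.eq | with_reducible apply Int.mem | with_reducible apply Int.subset | with_reducible apply Int.ltN | with_reducible apply Int.leN | with_reducible apply Int.fin | with_reducible apply Int.unique | with_reducible apply Int.all | with_reducible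 apply Int.ex | with_reducible apply IntF.fst | with_reducible apply IntF.snd | with_reducible apply IntF.app | with_reducible apply IntF.ite | with_reducible apply IntF.sep | with_reducible apply IntF.lam | with_reducible apply IntF.insert | with_reducible apply IntF.singleton | with_reducible apply IntF.union | with_reducible apply IntF.inter | with_reducible apply IntF.sdiff | with_reducible apply IntF.isUnion | with_reducible apply IntF.iimage | with_reducible apply IntF.the | with_reducible apply IntF.irec | with_reducible_and_instances apply IntF.add | with_reducible_and_instances apply IntF.mul | with_reducible apply IntF.succ | with_reducible apply IntF.val | with_reducible_and_instances apply Pool.Agent.Helper672.ZFA.Int.le | with_reducible_and_instances apply Pool.Agent.Helper672.ZFA.Int.lt | with_reducible_and_instances apply IntF.sub | with_reducible_and_instances apply IntF.neg | with_reducible_and_instances apply IntF.inv | with_reducible_and_instances apply IntF.div | with_reducible apply IntF.mk | (with_reducible refine Int.comp ?_ ?_; assumption) | (with_reducible refine Int.comp₂ ?_ ?_ ?_; assumption) | (with_reducible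 refine Int.comp₃ ?_ ?_ ?_ ?_; assumption) | (with_reducible refine IntF.comp ?_ ?_; assumption) | (with_reducible refine IntF.comp₂ ?_ ?_ ?_; assumption) | (with_reducible refine IntF.comp₃ ?_ ?_ ?_ ?_; assumption) | (with_reducible refine Int.comp₄ ?_ ?_ ?_ ?_ ?_; assumption) | with_reducible apply IntF.pair)))
      (exists_level hf hc hq hpos hlim x)
  refine ⟨sep M fun x => ∃ m, (Osc f 1 (Lm f q m) x ∧
      ∀ k, Osc f 1 (Lm f q k) x → m ≤ k) ∧ ∃ y, Agr (Lm f q m) x y ∧ f y = 0, ?_, ?_, ?_⟩
  · intro x hx
    obtain ⟨m, hm⟩ := hleast x
    exact (mem_sep hI).2 ⟨m, hm, x, Agr.refl _ _, hx⟩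
  · intro x hx hxC
    obtain ⟨m, ⟨h1, -⟩, y, h2, h3⟩ := (mem_sep hI).1 hxC
    have := h1 x y (Agr.refl _ _) h2
    rw [hx, h3, zero_add] at this
    exact lt_irrefl _ this
  · intro x
    obtain ⟨m, hm, hmin⟩ := hleast x
    refine ⟨Lm f q m, fin_Lm hβ hf hc hq hpos m, fun y hy => ?_⟩
    have key : ∀ x y : IFun M α β, Agr (Lm f q m) x y → Osc f 1 (Lm f q m) x →
        (∀ k, Osc f 1 (Lm f q k) x → m ≤ k) →
        (∃ m, (Osc f 1 (Lm f q m) x ∧ ∀ k, Osc f 1 (Lm f q k) x → m ≤ k) ∧
          ∃ z, Agr (Lm f q m) x z ∧ f z = 0) →
        (Osc f 1 (Lm f q m) y ∧ ∀ k, Osc f 1 (Lm f q k) y → m ≤ k) ∧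
          ∃ z, Agr (Lm f q m) y z ∧ f z = 0 := by
      rintro x y hy hm hmin ⟨m', ⟨h1, h2⟩, z, hz, hz'⟩
      have h3 : m' = m := le_antisymm (h2 m hm) (hmin m' h1)
      subst h3
      refine ⟨⟨hm.congr hy, fun k hk => ?_⟩, z, hy.symm.trans hz, hz'⟩
      by_contra hlt
      rw [not_le] at hlt
      exact absurd (hmin k (hk.congr (hy.symm.mono (Lm_mono hf hq hlt.le)))) (not_le.2 hlt)
    have hleasty : Osc f 1 (Lm f q m) y ∧ ∀ k, Osc f 1 (Lm f q k) y → m ≤ k := by
      refine ⟨hm.congr hy, fun k hk => ?_⟩
      by_contra hlt
      rw [not_le] at hlt
      exact absurd (hmin k (hk.congr (hy.symm.mono (Lm_mono hf hq hlt.le)))) (not_le.2 hlt)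
    rw [mem_sep hI, mem_sep hI]
    constructor
    · intro h
      exact ⟨m, key x y hy hm hmin h⟩
    · intro h
      exact ⟨m, key y x hy.symm hleasty.1 hleasty.2 h⟩

end

end Pool.Agent.Q212.ZB
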