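import Pool.Agent.Q212.ZB2
import Pool.Agent.Q212.ZA4
import Pool.Agent.H310R3.Met
import Pool.Agent.H310R3.TopDefs

/-!
# Strongly zero-dimensional spaces in a model of set theory: definitions and bridge
-/

set_option maxHeartbeats 1000000
set_option linter.all false

namespace Pool.Agent.Q212.ZTop

open FirstOrder FirstOrder.Language
open Pool.Agent.Helper672.Plain (LSet Mem IsOrdPair El)
open Pool.Agent.H310Cards
open Pool.Agent.H310Top (IsClosed)
open Pool.Agent.H635Amen (IsReals)

universe u

section

variable {M : Type u} [LSet.Structure M]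

/-- `b` has exactly two elements. -/
def IsTwo (b : M) : Prop := ∃ u v, u ≠ v ∧ ∀ z, Mem z b ↔ z = u ∨ z = v

/-- `x` is the set of all functions from `j` to `b`. -/
def IsFunSet (x j b : M) : Prop := ∀ f, Mem f x ↔ IsFun f j b

/-- `t` is the product topology on the set `x` of all functions from `j` to a set with the
discrete topology: a set `u` of such functions is open if and only if for every `f` in `u` there
is a finite set `s` of coordinates such that `u` contains all `g` in `x` that agree with `f`
on `s`. -/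
def IsPowerTop (t x j : M) : Prop :=
  ∀ u, Mem u t ↔ (∀ z, Mem z u → Mem z x) ∧ ∀ f, Mem f u → ∃ s, (∀ i, Mem i s → Mem i j) ∧
    IsFinite s ∧ ∀ g, Mem g x → (∀ i y, Mem i s → App f i y → App g i y) → Mem g u

/-- The function `φ` from the set `x` to the set `r` is in the model: its graph is an element of
the model. -/
def InModel {x r : M} (φ : El x → El r) : Prop :=
  ∃ g, ∀ (a : El x) (c : El r), φ a = c ↔ ∃ p, IsOrdPair p a.1 c.1 ∧ Mem p g

/-- The real valued function `φ` on the space `x` with the topology `t` is continuous. -/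
def IsCts (t : M) {x r : M} [Field (El r)] [LinearOrder (El r)] [IsStrictOrderedRing (El r)]
    (φ : El x → El r) : Prop :=
  ∀ (a : El x) (ε : El r), 0 < ε → ∃ u, Mem u t ∧ Mem a.1 u ∧
    ∀ b : El x, Mem b.1 u → |φ b - φ a| < ε

/-- `a` and `b` are completely separated in the space `x` with the topology `t`: there is in the
model a continuous function `φ` from `x` to the unit interval of the field `El r` of real numbers
of the model that is `0` on `a` and `1` on `b`. -/
def CompletelySeparated (t x a b : M) : Prop :=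
  ∃ (r : M) (_ : Field (El r)) (_ : LinearOrder (El r)) (_ : IsStrictOrderedRing (El r)),
    IsReals r ∧ ∃ φ : El x → El r, InModel φ ∧ IsCts t φ ∧ (∀ z, 0 ≤ φ z ∧ φ z ≤ 1) ∧
      (∀ z : El x, Mem z.1 a → φ z = 0) ∧ ∀ z : El x, Mem z.1 b → φ z = 1

/-- The space `x` with the topology `t` is strongly zero-dimensional: for all completely
separated subsets `a` and `b` there is a clopen set that contains `a` and is disjoint
from `b`. -/
def IsStronglyZeroDim (t x : M) : Prop :=
  ∀ a b, (∀ z, Mem z a → Mem z x) → (∀ z, Mem z b → Mem z x) → CompletelySeparated t x a b →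
    ∃ c, Mem c t ∧ IsClosed t x c ∧ (∀ z, Mem z a → Mem z c) ∧ ∀ z, Mem z c → ¬ Mem z b

end

end Pool.Agent.Q212.ZTop

namespace Pool.Agent.Q212.ZB

open FirstOrder FirstOrder.Language
open Pool.Agent.Helper672.ZFA
open Pool.Agent.H310
open Pool.Agent.H310Cards
open Pool.Agent.H635Amen (IsReals)
open Pool.Agent.Q212.ZA
open Pool.Agent.Q212.ZTop

universe u u₁ u₂ u₃ u₄

attribute [local instance] Helper672.Plain.toL

section

variable {M : Type u} [Helper672.Plain.LSet.Structure M] [hZ : Helper672.Plain.Zermelo M]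

local instance instModelL : IsModel M := Helper672.Plain.isModel_toL

noncomputable local instance instPEl (x : M) : ITy M (Helper672.Plain.El x) :=
  (inferInstance : ITy M (El x))

theorem code_PEl {x : M} (z : Helper672.Plain.El x) : code (M := M) z = z.1 := rfl

theorem mem_PEl {a : M} {z : M} : Mem z a ↔ ∃ x : Helper672.Plain.El a, code x = z :=
  ⟨fun h => ⟨⟨z, h⟩, rfl⟩, fun ⟨x, h⟩ => h ▸ x.2⟩

theorem graph_iff {g x y : M} :
    (∃ p, Helper672.Plain.IsOrdPair p x y ∧ Helper672.Plain.Mem p g) ↔ Mem (op x y) g := by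
  constructor
  · rintro ⟨p, h1, h2⟩
    rw [ordPair_iff] at h1
    rw [h1] at h2
    exact h2
  · intro h1
    exact ⟨_, ordPair_iff.2 rfl, h1⟩

theorem opGraph_iff {g x y z : M} :
    (∃ p q, Helper672.Plain.IsOrdPair p x y ∧ Helper672.Plain.IsOrdPair q p z ∧
      Helper672.Plain.Mem q g) ↔ Mem (op (op x y) z) g := by
  constructor
  · rintro ⟨p, q, h1, h2, h3⟩
    rw [ordPair_iff] at h1 h2
    subst h1 h2
    exact h3
  · intro h1
    exact ⟨_, _, ordPair_iff.2 rfl, ordPair_iff.2 rfl, h1⟩

/-- The model's functions. -/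
theorem intF_of_inModel {x r : M} {φ : Helper672.Plain.El x → Helper672.Plain.El r}
    (h : InModel φ) : IntF M φ := by
  obtain ⟨g, hg⟩ := h
  exact ⟨g, fun q => ((hg q.1 q.2).trans graph_iff).symm⟩

theorem inModel_of_intF {x r : M} {φ : Helper672.Plain.El x → Helper672.Plain.El r}
    (h : IntF M φ) : InModel φ := by
  obtain ⟨g, hg⟩ := h
  exact ⟨g, fun a c => (hg (a, c)).symm.trans graph_iff.symm⟩

theorem reals_add {r : M} [Field (Helper672.Plain.El r)] [LinearOrder (Helper672.Plain.El r)]
    [IsStrictOrderedRing (Helper672.Plain.El r)] (hr : IsReals r) :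
    IAdd M (Helper672.Plain.El r) := by
  obtain ⟨ga, ha⟩ := hr.add
  exact ⟨ga, fun q => ((ha q.1.1 q.1.2 q.2).trans opGraph_iff).symm⟩

theorem reals_mul {r : M} [Field (Helper672.Plain.El r)] [LinearOrder (Helper672.Plain.El r)]
    [IsStrictOrderedRing (Helper672.Plain.El r)] (hr : IsReals r) :
    IMul M (Helper672.Plain.El r) := by
  obtain ⟨ga, ha⟩ := hr.mul
  exact ⟨ga, fun q => ((ha q.1.1 q.1.2 q.2).trans opGraph_iff).symm⟩

theorem reals_le {r : M} [Field (Helper672.Plain.El r)] [LinearOrder (Helper672.Plain.El r)]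
    [IsStrictOrderedRing (Helper672.Plain.El r)] (hr : IsReals r) :
    ILE M (Helper672.Plain.El r) := by
  obtain ⟨ga, ha⟩ := hr.le
  exact ⟨ga, fun q => ((ha q.1 q.2).trans graph_iff).symm⟩

theorem reals_q {r : M} [Field (Helper672.Plain.El r)] [LinearOrder (Helper672.Plain.El r)]
    [IsStrictOrderedRing (Helper672.Plain.El r)] (hr : IsReals r) :
    ∃ q : INat M → Helper672.Plain.El r, IntF M q ∧ (∀ n, 0 < q n) ∧ (∀ m n, m < n → q n < q m) ∧
      ∀ ε, 0 < ε → ∃ n, q n < ε := H310.exists_q hr

theorem pl_code {a u : M} (h : ∀ z, Mem z u → Mem z a) :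
    ∃ U : IPow M (Helper672.Plain.El a), code U = u ∧ ∀ x, x ∈ U ↔ Mem x.1 u := by
  have hI : Int M (fun x : Helper672.Plain.El a => Mem (code x) u) := ⟨u, fun x => Iff.rfl⟩
  refine ⟨⟨_, hI⟩, extM fun z => ?_, fun x => Iff.rfl⟩
  refine (mem_code_pow (s := (⟨_, hI⟩ : IPow M (Helper672.Plain.El a)))).trans
    ⟨?_, fun hz => ⟨⟨z, h z hz⟩, hz, rfl⟩⟩
  rintro ⟨x, hx, rfl⟩
  exact hx

/-- The set of functions. -/
theorem mem_funSet {x j b z : M} (hx : IsFunSet x j b) :
    Mem z x ↔ ∃ φ : IFun M (Helper672.Plain.El j) (Helper672.Plain.El b), code φ = z := by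
  refine (hx z).trans ⟨fun h => ?_, ?_⟩
  · obtain ⟨φ, h4, h5⟩ := exists_fun (α := Helper672.Plain.El j) (β := Helper672.Plain.El b) h
      (fun x => x.2) fun z => mem_PEl.1
    refine ⟨⟨φ, h4⟩, extM fun q => ?_⟩
    refine (mem_code_fun (f := (⟨φ, h4⟩ : IFun M _ _))).trans ⟨?_, fun hq => ?_⟩
    · rintro ⟨x, rfl⟩
      exact app_iff.1 ((h5 x (φ x)).1 rfl)
    · obtain ⟨x, y, h6, h7, h8⟩ := h.1 q hq
      have h9 := (h5 ⟨x, h6⟩ ⟨y, h7⟩).2 ⟨q, h8, hq⟩
      refine ⟨⟨x, h6⟩, (ordPair_iff.1 h8).trans ?_⟩
      change _ = op x (code (φ ⟨x, h6⟩))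
      rw [h9]
      rfl
  · rintro ⟨φ, rfl⟩
    exact isFun_code φ (fun z => mem_PEl) fun x => (φ x).2

theorem app_code' {α : Type u₁} {β : Type u₂} [ITy M α] [ITy M β] {f : IFun M α β} {a : α}
    {b : β} : App (code (M := M) f) (code a) (code b) ↔ f a = b := by
  rw [app_code]
  constructor
  · rintro ⟨a', h1, h2⟩
    rw [ITy.inj h1] at h2
    exact ITy.inj h2
  · intro h
    exact ⟨a, rfl, congrArg code h⟩

theorem result_aux {j b x t : M} (hb : IsFinite b) (hx : IsFunSet x j b) (ht : IsPowerTop t x j) :
    IsStronglyZeroDim t x := by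
  intro A B hA hB hsep
  obtain ⟨r, _, _, _, hr, φ, hφ, hcts, -, hφA, hφB⟩ := hsep
  letI := reals_add hr
  letI := reals_le hr
  obtain ⟨q, hq, hpos, -, hlim⟩ := reals_q hr
  have hX := fun z : M => mem_funSet (z := z) hx
  -- the function on the internal function type
  have hφi := intF_of_inModel hφ
  have hιi : ∀ g : IFun M (Helper672.Plain.El j) (Helper672.Plain.El b), Mem (code g) x :=
    fun g => (hX _).2 ⟨g, rfl⟩
  let ι : IFun M (Helper672.Plain.El j) (Helper672.Plain.El b) → Helper672.Plain.El x :=
    fun g => ⟨code g, hιi g⟩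
  have hι : IntF M ι := by
    refine IntF.of_D (S := fun v => v 0 = v 1) (D.eqf (DF.var _) (DF.var _)) fun a b => ?_
    exact ⟨fun h => Subtype.ext h, fun h => congrArg Subtype.val h⟩
  have hιs : ∀ z : Helper672.Plain.El x, ∃ g, ι g = z := fun z => by
    obtain ⟨g, hg⟩ := (hX z.1).1 z.2
    exact ⟨g, Subtype.ext hg⟩
  have hfin : FinP M (fun _ : Helper672.Plain.El b => True) :=
    finP_of_finite (Int.const _) (t := b) (fun z => by
      rw [mem_PEl]
      simp) hb
  have hfi : IntF M (fun g => φ (ι g)) := IntF.comp hφi hι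
  obtain ⟨C, h1, h2, h3⟩ := exists_clopen (f := fun g => φ (ι g)) hfin hfi (fun g ε hε => by
      obtain ⟨U, hU, haU, h4⟩ := hcts (ι g) ε hε
      obtain ⟨s, hsj, hs, h5⟩ := ((ht U).1 hU).2 (code g) haU
      obtain ⟨S, rfl, hS⟩ := pl_code hsj
      refine ⟨S, isFinite_code.1 hs, fun g' hg' => ?_⟩
      have h6 : Mem (code g') U := by
        refine h5 _ (hιi g') fun i y hi hy => ?_
        obtain ⟨k, hk, rfl⟩ := code_mem_code.1 hi
        obtain ⟨k', hk', rfl⟩ := app_code.1 hy
        obtain rfl := ITy.inj hk'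
        exact app_code'.2 (hg' k' hk).symm
      have h7 := h4 (ι g') h6
      rw [abs_lt] at h7
      constructor <;> linarith [h7.1, h7.2]) hq hpos hlim
  have hC : Int M (fun z : Helper672.Plain.El x => ∃ g, g ∈ C ∧ ι g = z) := by (repeat' (first | with_reducible exact IntF.id | with_reducible exact IntF.fst' | with_reducible exact IntF.snd' | with_reducible exact IntF.const _ | with_reducible exact Int.const _ | assumption | with_reducible apply Int.and | with_reducible apply Int.or | with_reducible apply Int.not | with_reducible apply Int.imp | with_reducible apply Int.iff | with_reducible apply Int.ne | with_reducible apply Int.eq | with_reducible apply Int.mem | with_reducible apply Int.subset | with_reducible apply Int.ltN | with_reducible apply Int.leN | with_reducible apply Int.fin | with_reducible apply Int.unique | with_reducible apply Int.all | with_reducible apply Int.ex | with_reducible apply IntF.fst | with_reducible apply IntF.snd | with_reducible apply IntF.app | with_reducible apply IntF.ite | with_reducible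 apply IntF.sep | with_reducible apply IntF.lam | with_reducible apply IntF.insert | with_reducible apply IntF.singleton | with_reducible apply IntF.union | with_reducible apply IntF.inter | with_reducible apply IntF.sdiff | with_reducible apply IntF.isUnion | with_reducible apply IntF.iimage | with_reducible apply IntF.the | with_reducible apply IntF.irec | with_reducible_and_instances apply IntF.add | with_reducible_and_instances apply IntF.mul | with_reducible apply IntF.succ | with_reducible apply IntF.val | (with_reducible refine Int.comp ?_ ?_; assumption) | (with_reducible refine Int.comp₂ ?_ ?_ ?_; assumption) | (with_reducible refine Int.comp₃ ?_ ?_ ?_ ?_; assumption) | (with_reducible refine IntF.comp ?_ ?_; assumption) | (with_reducible refine IntF.comp₂ ?_ ?_ ?_; assumption) | (with_reducible refine IntF.comp₃ ?_ ?_ ?_ ?_; assumption) | with_reducible apply IntF.pair))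
  have hCm : ∀ g, Mem (code g) hC.small.elt ↔ g ∈ C := by
    intro g
    rw [hC.small.mem]
    constructor
    · rintro ⟨z, ⟨g', hg', rfl⟩, hz⟩
      have : g' = g := ITy.inj (M := M) hz
      rwa [← this]
    · intro hg
      exact ⟨ι g, ⟨g, hg, rfl⟩, rfl⟩
  have hD : Int M (fun z : Helper672.Plain.El x => ∃ g, ¬ g ∈ C ∧ ι g = z) := by (repeat' (first | with_reducible exact IntF.id | with_reducible exact IntF.fst' | with_reducible exact IntF.snd' | with_reducible exact IntF.const _ | with_reducible exact Int.const _ | assumption | with_reducible apply Int.and | with_reducible apply Int.or | with_reducible apply Int.not | with_reducible apply Int.imp | with_reducible apply Int.iff | with_reducible apply Int.ne | with_reducible apply Int.eq | with_reducible apply Int.mem | with_reducible apply Int.subset | with_reducible apply Int.ltN | with_reducible apply Int.leN | with_reducible apply Int.fin | with_reducible apply Int.unique | with_reducible apply Int.all | with_reducible apply Int.ex | with_reducible apply IntF.fst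 | with_reducible apply IntF.snd | with_reducible apply IntF.app | with_reducible apply IntF.ite | with_reducible apply IntF.sep | with_reducible apply IntF.lam | with_reducible apply IntF.insert | with_reducible apply IntF.singleton | with_reducible apply IntF.union | with_reducible apply IntF.inter | with_reducible apply IntF.sdiff | with_reducible apply IntF.isUnion | with_reducible apply IntF.iimage | with_reducible apply IntF.the | with_reducible apply IntF.irec | with_reducible_and_instances apply IntF.add | with_reducible_and_instances apply IntF.mul | with_reducible apply IntF.succ | with_reducible apply IntF.val | (with_reducible refine Int.comp ?_ ?_; assumption) | (with_reducible refine Int.comp₂ ?_ ?_ ?_; assumption) | (with_reducible refine Int.comp₃ ?_ ?_ ?_ ?_; assumption) | (with_reducible refine IntF.comp ?_ ?_; assumption) | (with_reducible refine IntF.comp₂ ?_ ?_ ?_; assumption) | (with_reducible refine IntF.comp₃ ?_ ?_ ?_ ?_; assumption) | with_reducible apply IntF.pair))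
  have hDm : ∀ g, Mem (code g) hD.small.elt ↔ ¬ g ∈ C := by
    intro g
    rw [hD.small.mem]
    constructor
    · rintro ⟨z, ⟨g', hg', rfl⟩, hz⟩
      have : g' = g := ITy.inj (M := M) hz
      rwa [← this]
    · intro hg
      exact ⟨ι g, ⟨g, hg, rfl⟩, rfl⟩
  -- open sets
  have hopen : ∀ (P : IFun M (Helper672.Plain.El j) (Helper672.Plain.El b) → Prop) (u : M),
      (∀ z, Mem z u → Mem z x) → (∀ g, Mem (code g) u ↔ P g) →
      (∀ g, P g → ∃ s : IPow M (Helper672.Plain.El j), IFin s ∧ ∀ g', Agr s g g' → P g') →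
      Mem u t := by
    intro P u hu hP h
    refine (ht u).2 ⟨hu, fun f hf => ?_⟩
    obtain ⟨g, rfl⟩ := (hX f).1 (hu f hf)
    obtain ⟨s, hs, h4⟩ := h g ((hP g).1 hf)
    refine ⟨code s, fun i hi => ?_, isFinite_code.2 hs, fun f' hf' h5 => ?_⟩
    · obtain ⟨k, -, rfl⟩ := code_mem_code.1 hi
      exact k.2
    · obtain ⟨g', rfl⟩ := (hX f').1 hf'
      refine (hP g').2 (h4 g' fun k hk => ?_)
      have h6 := h5 (code k) (code (g k)) (code_mem_code.2 ⟨k, hk, rfl⟩) (app_code'.2 rfl)
      exact (app_code'.1 h6).symm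
  have hCx : ∀ z, Mem z hC.small.elt → Mem z x := by
    intro z hz
    obtain ⟨z, -, rfl⟩ := hC.small.mem.1 hz
    exact z.2
  have hDx : ∀ z, Mem z hD.small.elt → Mem z x := by
    intro z hz
    obtain ⟨z, -, rfl⟩ := hD.small.mem.1 hz
    exact z.2
  refine ⟨hC.small.elt, hopen _ _ hCx hCm fun g hg => ?_, ⟨hCx, hD.small.elt,
    hopen _ _ hDx hDm fun g hg => ?_, fun z => ⟨fun hz => ⟨hDx z hz, ?_⟩, ?_⟩⟩, fun z hz => ?_,
    fun z hz hzB => ?_⟩
  · obtain ⟨s, hs, h4⟩ := h3 g
    exact ⟨s, hs, fun g' hg' => (h4 g' hg').1 hg⟩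
  · obtain ⟨s, hs, h4⟩ := h3 g
    exact ⟨s, hs, fun g' hg' h => hg ((h4 g' hg').2 h)⟩
  · obtain ⟨g, rfl⟩ := (hX z).1 (hDx z hz)
    exact fun h => (hDm g).1 hz ((hCm g).1 h)
  · rintro ⟨h4, h5⟩
    obtain ⟨g, rfl⟩ := (hX z).1 h4
    exact (hDm g).2 fun h => h5 ((hCm g).2 h)
  · obtain ⟨g, rfl⟩ := (hX z).1 (hA z hz)
    exact (hCm g).2 (h1 g (hφA (ι g) hz))
  · obtain ⟨g, rfl⟩ := (hX z).1 (hB z hzB)
    exact h2 g (hφB (ι g) hzB) ((hCm g).1 hz)

/-- A set with two elements is finite. -/
theorem isFinite_two {b : M} (hb : IsTwo b) : IsFinite b := by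
  obtain ⟨u, v, -, h⟩ := hb
  by_contra hn
  have hu : Mem u b := (h u).2 (Or.inl rfl)
  have hv : Mem v b := (h v).2 (Or.inr rfl)
  refine not_finP (α := Helper672.Plain.El b) (fun z => mem_PEl) hn ?_
  let u' : Helper672.Plain.El b := ⟨u, hu⟩
  let v' : Helper672.Plain.El b := ⟨v, hv⟩
  refine ((FinP.eq (M := M) u').or (FinP.eq v')).mono fun z _ => ?_
  exact ((h z.1).1 z.2).imp (fun h => Subtype.ext h) fun h => Subtype.ext h

end

end Pool.Agent.Q212.ZB
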