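import Pool.Agent.Q212.ZB3

/-!
# The product topology is a topology
-/

set_option maxHeartbeats 1000000
set_option linter.all false

namespace Pool.Agent.Q212.ZB

open FirstOrder FirstOrder.Language
open Pool.Agent.Helper672.ZFA
open Pool.Agent.H310
open Pool.Agent.H310Cards
open Pool.Agent.H310Top (IsTopology)
open Pool.Agent.Q212.ZA
open Pool.Agent.Q212.ZTop

universe u u₁ u₂ u₃ u₄

attribute [local instance] Helper672.Plain.toL

section

variable {M : Type u} [Helper672.Plain.LSet.Structure M] [hZ : Helper672.Plain.Zermelo M]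

local instance instModelL' : IsModel M := Helper672.Plain.isModel_toL

noncomputable local instance instPEl' (x : M) : ITy M (Helper672.Plain.El x) :=
  (inferInstance : ITy M (El x))

theorem isTopology_power {x j t : M} (ht : IsPowerTop t x j) : IsTopology t x where
  sub u hu := ((ht u).1 hu).1
  univ := (ht x).2 ⟨fun _ h => h, fun f hf => ⟨code (M := M) (∅ : IPow M (Helper672.Plain.El j)),
    fun i hi => by
      obtain ⟨k, -, rfl⟩ := code_mem_code.1 hi
      exact k.2, isFinite_code.2 IFin.empty, fun g hg _ => hg⟩⟩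
  inter u v w hu hv hw := by
    refine (ht w).2 ⟨fun z hz => ((ht u).1 hu).1 z ((hw z).1 hz).1, fun f hf => ?_⟩
    obtain ⟨h1, h2⟩ := (hw f).1 hf
    obtain ⟨s, hs, hsf, h3⟩ := ((ht u).1 hu).2 f h1
    obtain ⟨s', hs', hsf', h3'⟩ := ((ht v).1 hv).2 f h2
    obtain ⟨S, rfl, hS⟩ := pl_code hs
    obtain ⟨S', rfl, hS'⟩ := pl_code hs'
    refine ⟨code (M := M) (S ∪ S'), fun i hi => ?_,
      isFinite_code.2 ((isFinite_code.1 hsf).union (isFinite_code.1 hsf')), fun g hg h => ?_⟩
    · obtain ⟨k, -, rfl⟩ := code_mem_code.1 hi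
      exact k.2
    · refine (hw g).2 ⟨h3 g hg fun i y hi hy => ?_, h3' g hg fun i y hi hy => ?_⟩
      · obtain ⟨k, hk, rfl⟩ := code_mem_code.1 hi
        exact h _ y (code_mem_code.2 ⟨k, mem_union.2 (Or.inl hk), rfl⟩) hy
      · obtain ⟨k, hk, rfl⟩ := code_mem_code.1 hi
        exact h _ y (code_mem_code.2 ⟨k, mem_union.2 (Or.inr hk), rfl⟩) hy
  union c w hc hw := by
    refine (ht w).2 ⟨fun z hz => ?_, fun f hf => ?_⟩
    · obtain ⟨u, hu, hz⟩ := (hw z).1 hz
      exact ((ht u).1 (hc u hu)).1 z hz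
    · obtain ⟨u, hu, hf⟩ := (hw f).1 hf
      obtain ⟨s, hs, hsf, h3⟩ := ((ht u).1 (hc u hu)).2 f hf
      exact ⟨s, hs, hsf, fun g hg h => (hw g).2 ⟨u, hu, h3 g hg h⟩⟩

end

end Pool.Agent.Q212.ZB
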