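import Pool.Agent.Q212.ZA2

/-!
# Strongly zero-dimensional realcompact spaces: functions to the natural numbers
-/

set_option maxHeartbeats 1000000
set_option linter.all false

namespace Pool.Agent.Q212.ZC

open FirstOrder FirstOrder.Language
open Pool.Agent.Helper672.ZFA
open Pool.Agent.H310
open Pool.Agent.Q212.ZA

universe u u₁ u₂ u₃ u₄

variable {M : Type u} [L.Structure M] [hM : IsModel M]
variable {α : Type u₁} {ι : Type u₂} {R : Type u₃} [ITy M α] [ITy M ι] [ITy M R]

section real

variable [Field R] [LinearOrder R] [IsStrictOrderedRing R] [IAdd M R] [IMul M R] [ILE M R]

/-- The natural numbers as reals. -/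
noncomputable def cs (R : Type u₃) [ITy M R] [Field R] (k : INat M) : R :=
  irec (0 : R) (fun _ y => y + 1) k

theorem int_cs : IntF M (fun k : INat M => cs R k) := by
  unfold cs
  (repeat' (first | with_reducible exact IntF.id | with_reducible exact IntF.fst' | with_reducible exact IntF.snd' | with_reducible exact IntF.const _ | with_reducible exact Int.const _ | assumption | with_reducible apply Int.and | with_reducible apply Int.or | with_reducible apply Int.not | with_reducible apply Int.imp | with_reducible apply Int.iff | with_reducible apply Int.ne | with_reducible apply Int.eq | with_reducible apply Int.mem | with_reducible apply Int.subset | with_reducible apply Int.ltN | with_reducible apply Int.leN | with_reducible apply Int.fin | with_reducible apply Int.unique | with_reducible apply Int.all | with_reducible apply Int.ex | with_reducible apply IntF.fst | with_reducible apply IntF.snd | with_reducible apply IntF.app | with_reducible apply IntF.ite | with_reducible apply IntF.sep | with_reducible apply IntF.lam | with_reducible apply IntF.insert | with_reducible apply IntF.singleton | with_reducible apply IntF.union | with_reducible apply IntF.inter | with_reducible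 apply IntF.sdiff | with_reducible apply IntF.isUnion | with_reducible apply IntF.iimage | with_reducible apply IntF.the | with_reducible apply IntF.irec | with_reducible_and_instances apply IntF.add | with_reducible_and_instances apply IntF.mul | with_reducible apply IntF.succ | with_reducible apply IntF.val | with_reducible_and_instances apply Pool.Agent.Helper672.ZFA.Int.le | with_reducible_and_instances apply Pool.Agent.Helper672.ZFA.Int.lt | with_reducible_and_instances apply IntF.sub | with_reducible_and_instances apply IntF.neg | with_reducible_and_instances apply IntF.inv | with_reducible_and_instances apply IntF.div | with_reducible apply IntF.mk | (with_reducible refine Int.comp ?_ ?_; assumption) | (with_reducible refine Int.comp₂ ?_ ?_ ?_; assumption) | (with_reducible refine Int.comp₃ ?_ ?_ ?_ ?_; assumption) | (with_reducible refine IntF.comp ?_ ?_; assumption) | (with_reducible refine IntF.comp₂ ?_ ?_ ?_; assumption) | (with_reducible refine IntF.comp₃ ?_ ?_ ?_ ?_; assumption) | (with_reducible refine Int.comp₄ ?_ ?_ ?_ ?_ ?_; assumption) | with_reducible apply IntF.pair))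

theorem cs_zero : cs R (0 : INat M) = 0 := irec_zero (by (repeat' (first | with_reducible exact IntF.id | with_reducible exact IntF.fst' | with_reducible exact IntF.snd' | with_reducible exact IntF.const _ | with_reducible exact Int.const _ | assumption | with_reducible apply Int.and | with_reducible apply Int.or | with_reducible apply Int.not | with_reducible apply Int.imp | with_reducible apply Int.iff | with_reducible apply Int.ne | with_reducible apply Int.eq | with_reducible apply Int.mem | with_reducible apply Int.subset | with_reducible apply Int.ltN | with_reducible apply Int.leN | with_reducible apply Int.fin | with_reducible apply Int.unique | with_reducible apply Int.all | with_reducible apply Int.ex | with_reducible apply IntF.fst | with_reducible apply IntF.snd | with_reducible apply IntF.app | with_reducible apply IntF.ite | with_reducible apply IntF.sep | with_reducible apply IntF.lam | with_reducible apply IntF.insert | with_reducible apply IntF.singleton | with_reducible apply IntF.union | with_reducible apply IntF.inter | with_reducible apply IntF.sdiff | with_reducible apply IntF.isUnion | with_reducible apply IntF.iimage | with_reducible apply IntF.the | with_reducible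 apply IntF.irec | with_reducible_and_instances apply IntF.add | with_reducible_and_instances apply IntF.mul | with_reducible apply IntF.succ | with_reducible apply IntF.val | with_reducible_and_instances apply Pool.Agent.Helper672.ZFA.Int.le | with_reducible_and_instances apply Pool.Agent.Helper672.ZFA.Int.lt | with_reducible_and_instances apply IntF.sub | with_reducible_and_instances apply IntF.neg | with_reducible_and_instances apply IntF.inv | with_reducible_and_instances apply IntF.div | with_reducible apply IntF.mk | (with_reducible refine Int.comp ?_ ?_; assumption) | (with_reducible refine Int.comp₂ ?_ ?_ ?_; assumption) | (with_reducible refine Int.comp₃ ?_ ?_ ?_ ?_; assumption) | (with_reducible refine IntF.comp ?_ ?_; assumption) | (with_reducible refine IntF.comp₂ ?_ ?_ ?_; assumption) | (with_reducible refine IntF.comp₃ ?_ ?_ ?_ ?_; assumption) | (with_reducible refine Int.comp₄ ?_ ?_ ?_ ?_ ?_; assumption) | with_reducible apply IntF.pair)))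

theorem cs_succ (k : INat M) : cs R k.succ = cs R k + 1 := irec_succ (by (repeat' (first | with_reducible exact IntF.id | with_reducible exact IntF.fst' | with_reducible exact IntF.snd' | with_reducible exact IntF.const _ | with_reducible exact Int.const _ | assumption | with_reducible apply Int.and | with_reducible apply Int.or | with_reducible apply Int.not | with_reducible apply Int.imp | with_reducible apply Int.iff | with_reducible apply Int.ne | with_reducible apply Int.eq | with_reducible apply Int.mem | with_reducible apply Int.subset | with_reducible apply Int.ltN | with_reducible apply Int.leN | with_reducible apply Int.fin | with_reducible apply Int.unique | with_reducible apply Int.all | with_reducible apply Int.ex | with_reducible apply IntF.fst | with_reducible apply IntF.snd | with_reducible apply IntF.app | with_reducible apply IntF.ite | with_reducible apply IntF.sep | with_reducible apply IntF.lam | with_reducible apply IntF.insert | with_reducible apply IntF.singleton | with_reducible apply IntF.union | with_reducible apply IntF.inter | with_reducible apply IntF.sdiff | with_reducible apply IntF.isUnion | with_reducible apply IntF.iimage | with_reducible apply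 IntF.the | with_reducible apply IntF.irec | with_reducible_and_instances apply IntF.add | with_reducible_and_instances apply IntF.mul | with_reducible apply IntF.succ | with_reducible apply IntF.val | with_reducible_and_instances apply Pool.Agent.Helper672.ZFA.Int.le | with_reducible_and_instances apply Pool.Agent.Helper672.ZFA.Int.lt | with_reducible_and_instances apply IntF.sub | with_reducible_and_instances apply IntF.neg | with_reducible_and_instances apply IntF.inv | with_reducible_and_instances apply IntF.div | with_reducible apply IntF.mk | (with_reducible refine Int.comp ?_ ?_; assumption) | (with_reducible refine Int.comp₂ ?_ ?_ ?_; assumption) | (with_reducible refine Int.comp₃ ?_ ?_ ?_ ?_; assumption) | (with_reducible refine IntF.comp ?_ ?_; assumption) | (with_reducible refine IntF.comp₂ ?_ ?_ ?_; assumption) | (with_reducible refine IntF.comp₃ ?_ ?_ ?_ ?_; assumption) | (with_reducible refine Int.comp₄ ?_ ?_ ?_ ?_ ?_; assumption) | with_reducible apply IntF.pair))) k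

theorem cs_nonneg (k : INat M) : 0 ≤ cs R k := by
  have h := int_cs (M := M) (R := R)
  refine INat.ind (p := fun k : INat M => 0 ≤ cs R k) (by (repeat' (first | with_reducible exact IntF.id | with_reducible exact IntF.fst' | with_reducible exact IntF.snd' | with_reducible exact IntF.const _ | with_reducible exact Int.const _ | assumption | with_reducible apply Int.and | with_reducible apply Int.or | with_reducible apply Int.not | with_reducible apply Int.imp | with_reducible apply Int.iff | with_reducible apply Int.ne | with_reducible apply Int.eq | with_reducible apply Int.mem | with_reducible apply Int.subset | with_reducible apply Int.ltN | with_reducible apply Int.leN | with_reducible apply Int.fin | with_reducible apply Int.unique | with_reducible apply Int.all | with_reducible apply Int.ex | with_reducible apply IntF.fst | with_reducible apply IntF.snd | with_reducible apply IntF.app | with_reducible apply IntF.ite | with_reducible apply IntF.sep | with_reducible apply IntF.lam | with_reducible apply IntF.insert | with_reducible apply IntF.singleton | with_reducible apply IntF.union | with_reducible apply IntF.inter | with_reducible apply IntF.sdiff | with_reducible apply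 IntF.isUnion | with_reducible apply IntF.iimage | with_reducible apply IntF.the | with_reducible apply IntF.irec | with_reducible_and_instances apply IntF.add | with_reducible_and_instances apply IntF.mul | with_reducible apply IntF.succ | with_reducible apply IntF.val | with_reducible_and_instances apply Pool.Agent.Helper672.ZFA.Int.le | with_reducible_and_instances apply Pool.Agent.Helper672.ZFA.Int.lt | with_reducible_and_instances apply IntF.sub | with_reducible_and_instances apply IntF.neg | with_reducible_and_instances apply IntF.inv | with_reducible_and_instances apply IntF.div | with_reducible apply IntF.mk | (with_reducible refine Int.comp ?_ ?_; assumption) | (with_reducible refine Int.comp₂ ?_ ?_ ?_; assumption) | (with_reducible refine Int.comp₃ ?_ ?_ ?_ ?_; assumption) | (with_reducible refine IntF.comp ?_ ?_; assumption) | (with_reducible refine IntF.comp₂ ?_ ?_ ?_; assumption) | (with_reducible refine IntF.comp₃ ?_ ?_ ?_ ?_; assumption) | (with_reducible refine Int.comp₄ ?_ ?_ ?_ ?_ ?_; assumption) | with_reducible apply IntF.pair))) ?_ ?_ k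
  · rw [cs_zero]
  · intro k ih
    rw [cs_succ]
    linarith

theorem cs_lt {k l : INat M} (hkl : k < l) : cs R k + 1 ≤ cs R l := by
  have h := int_cs (M := M) (R := R)
  revert hkl
  refine INat.ind (p := fun l : INat M => k < l → cs R k + 1 ≤ cs R l) (by (repeat' (first | with_reducible exact IntF.id | with_reducible exact IntF.fst' | with_reducible exact IntF.snd' | with_reducible exact IntF.const _ | with_reducible exact Int.const _ | assumption | with_reducible apply Int.and | with_reducible apply Int.or | with_reducible apply Int.not | with_reducible apply Int.imp | with_reducible apply Int.iff | with_reducible apply Int.ne | with_reducible apply Int.eq | with_reducible apply Int.mem | with_reducible apply Int.subset | with_reducible apply Int.ltN | with_reducible apply Int.leN | with_reducible apply Int.fin | with_reducible apply Int.unique | with_reducible apply Int.all | with_reducible apply Int.ex | with_reducible apply IntF.fst | with_reducible apply IntF.snd | with_reducible apply IntF.app | with_reducible apply IntF.ite | with_reducible apply IntF.sep | with_reducible apply IntF.lam | with_reducible apply IntF.insert | with_reducible apply IntF.singleton | with_reducible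 apply IntF.union | with_reducible apply IntF.inter | with_reducible apply IntF.sdiff | with_reducible apply IntF.isUnion | with_reducible apply IntF.iimage | with_reducible apply IntF.the | with_reducible apply IntF.irec | with_reducible_and_instances apply IntF.add | with_reducible_and_instances apply IntF.mul | with_reducible apply IntF.succ | with_reducible apply IntF.val | with_reducible_and_instances apply Pool.Agent.Helper672.ZFA.Int.le | with_reducible_and_instances apply Pool.Agent.Helper672.ZFA.Int.lt | with_reducible_and_instances apply IntF.sub | with_reducible_and_instances apply IntF.neg | with_reducible_and_instances apply IntF.inv | with_reducible_and_instances apply IntF.div | with_reducible apply IntF.mk | (with_reducible refine Int.comp ?_ ?_; assumption) | (with_reducible refine Int.comp₂ ?_ ?_ ?_; assumption) | (with_reducible refine Int.comp₃ ?_ ?_ ?_ ?_; assumption) | (with_reducible refine IntF.comp ?_ ?_; assumption) | (with_reducible refine IntF.comp₂ ?_ ?_ ?_; assumption) | (with_reducible refine IntF.comp₃ ?_ ?_ ?_ ?_; assumption) | (with_reducible refine Int.comp₄ ?_ ?_ ?_ ?_ ?_; assumption) | with_reducible apply IntF.pair))) ?_ ?_ l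
  · intro h
    exact absurd h INat.not_lt_zero
  · intro l ih h
    rw [cs_succ]
    rcases (INat.lt_succ_iff.1 h).lt_or_eq with h1 | rfl
    · linarith [ih h1]
    · exact le_rfl

theorem cs_arch (hsup : ∀ s : IPow M R, (∃ x, x ∈ s) → (∃ b, ∀ x, x ∈ s → x ≤ b) →
    ∃ c, (∀ x, x ∈ s → x ≤ c) ∧ ∀ b, (∀ x, x ∈ s → x ≤ b) → c ≤ b) (y : R) :
    ∃ k : INat M, y < cs R k := by
  have h := int_cs (M := M) (R := R)
  by_contra hcon
  push Not at hcon
  have hI : Int M (fun x : R => ∃ k : INat M, x = cs R k) := by (repeat' (first | with_reducible exact IntF.id | with_reducible exact IntF.fst' | with_reducible exact IntF.snd' | with_reducible exact IntF.const _ | with_reducible exact Int.const _ | assumption | with_reducible apply Int.and | with_reducible apply Int.or | with_reducible apply Int.not | with_reducible apply Int.imp | with_reducible apply Int.iff | with_reducible apply Int.ne | with_reducible apply Int.eq | with_reducible apply Int.mem | with_reducible apply Int.subset | with_reducible apply Int.ltN | with_reducible apply Int.leN | with_reducible apply Int.fin | with_reducible apply Int.unique | with_reducible apply Int.all | with_reducible apply Int.ex | with_reducible apply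 IntF.fst | with_reducible apply IntF.snd | with_reducible apply IntF.app | with_reducible apply IntF.ite | with_reducible apply IntF.sep | with_reducible apply IntF.lam | with_reducible apply IntF.insert | with_reducible apply IntF.singleton | with_reducible apply IntF.union | with_reducible apply IntF.inter | with_reducible apply IntF.sdiff | with_reducible apply IntF.isUnion | with_reducible apply IntF.iimage | with_reducible apply IntF.the | with_reducible apply IntF.irec | with_reducible_and_instances apply IntF.add | with_reducible_and_instances apply IntF.mul | with_reducible apply IntF.succ | with_reducible apply IntF.val | with_reducible_and_instances apply Pool.Agent.Helper672.ZFA.Int.le | with_reducible_and_instances apply Pool.Agent.Helper672.ZFA.Int.lt | with_reducible_and_instances apply IntF.sub | with_reducible_and_instances apply IntF.neg | with_reducible_and_instances apply IntF.inv | with_reducible_and_instances apply IntF.div | with_reducible apply IntF.mk | (with_reducible refine Int.comp ?_ ?_; assumption) | (with_reducible refine Int.comp₂ ?_ ?_ ?_; assumption) | (with_reducible refine Int.comp₃ ?_ ?_ ?_ ?_; assumption) | (with_reducible refine IntF.comp ?_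 ?_; assumption) | (with_reducible refine IntF.comp₂ ?_ ?_ ?_; assumption) | (with_reducible refine IntF.comp₃ ?_ ?_ ?_ ?_; assumption) | (with_reducible refine Int.comp₄ ?_ ?_ ?_ ?_ ?_; assumption) | with_reducible apply IntF.pair))
  obtain ⟨c, h1, h2⟩ := hsup (sep M fun x => ∃ k : INat M, x = cs R k)
    ⟨0, (mem_sep hI).2 ⟨0, cs_zero.symm⟩⟩ ⟨y, fun x hx => by
      obtain ⟨k, rfl⟩ := (mem_sep hI).1 hx
      exact hcon k⟩
  have h3 := h2 (c - 1) fun x hx => by
    obtain ⟨k, rfl⟩ := (mem_sep hI).1 hx
    have := h1 (cs R k.succ) ((mem_sep hI).2 ⟨_, rfl⟩)
    rw [cs_succ] at this
    linarith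
  linarith

/-- The least `k` with `y < 2 k + a`. -/
noncomputable def lst (M : Type u) [L.Structure M] [IsModel M] {R : Type u₃} [ITy M R] [Field R]
    [LinearOrder R] (a y : R) : INat M :=
  the (fun k : INat M => y < cs R k + cs R k + a ∧ ∀ m : INat M, y < cs R m + cs R m + a → k ≤ m) 0

theorem int_lst : IntF M (fun q : R × R => lst M q.1 q.2) := by
  have h := int_cs (M := M) (R := R)
  unfold lst
  (repeat' (first | with_reducible exact IntF.id | with_reducible exact IntF.fst' | with_reducible exact IntF.snd' | with_reducible exact IntF.const _ | with_reducible exact Int.const _ | assumption | with_reducible apply Int.and | with_reducible apply Int.or | with_reducible apply Int.not | with_reducible apply Int.imp | with_reducible apply Int.iff | with_reducible apply Int.ne | with_reducible apply Int.eq | with_reducible apply Int.mem | with_reducible apply Int.subset | with_reducible apply Int.ltN | with_reducible apply Int.leN | with_reducible apply Int.fin | with_reducible apply Int.unique | with_reducible apply Int.all | with_reducible apply Int.ex | with_reducible apply IntF.fst | with_reducible apply IntF.snd | with_reducible apply IntF.app | with_reducible apply IntF.ite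 | with_reducible apply IntF.sep | with_reducible apply IntF.lam | with_reducible apply IntF.insert | with_reducible apply IntF.singleton | with_reducible apply IntF.union | with_reducible apply IntF.inter | with_reducible apply IntF.sdiff | with_reducible apply IntF.isUnion | with_reducible apply IntF.iimage | with_reducible apply IntF.the | with_reducible apply IntF.irec | with_reducible_and_instances apply IntF.add | with_reducible_and_instances apply IntF.mul | with_reducible apply IntF.succ | with_reducible apply IntF.val | with_reducible_and_instances apply Pool.Agent.Helper672.ZFA.Int.le | with_reducible_and_instances apply Pool.Agent.Helper672.ZFA.Int.lt | with_reducible_and_instances apply IntF.sub | with_reducible_and_instances apply IntF.neg | with_reducible_and_instances apply IntF.inv | with_reducible_and_instances apply IntF.div | with_reducible apply IntF.mk | (with_reducible refine Int.comp ?_ ?_; assumption) | (with_reducible refine Int.comp₂ ?_ ?_ ?_; assumption) | (with_reducible refine Int.comp₃ ?_ ?_ ?_ ?_; assumption) | (with_reducible refine IntF.comp ?_ ?_; assumption) | (with_reducible refine IntF.comp₂ ?_ ?_ ?_; assumption) | (with_reducible refine IntF.comp₃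 ?_ ?_ ?_ ?_; assumption) | (with_reducible refine Int.comp₄ ?_ ?_ ?_ ?_ ?_; assumption) | with_reducible apply IntF.pair))

theorem lst_unique {a y : R} {k : INat M} (h1 : y < cs R k + cs R k + a)
    (h2 : k = 0 ∨ cs R k + cs R k + a ≤ y + 2) :
    ∀ m : INat M, y < cs R m + cs R m + a → k ≤ m := by
  intro m hm
  by_contra hlt
  rw [not_le] at hlt
  rcases h2 with rfl | h2
  · exact absurd hlt INat.not_lt_zero
  · have := cs_lt (R := R) hlt
    linarith

theorem lst_eq {a y : R} {k : INat M} (h1 : y < cs R k + cs R k + a)
    (h2 : k = 0 ∨ cs R k + cs R k + a ≤ y + 2) : lst M a y = k :=
  the_eq ⟨k, ⟨h1, lst_unique h1 h2⟩, fun m hm => le_antisymm (hm.2 k h1) (lst_unique h1 h2 m hm.1)⟩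
    ⟨h1, lst_unique h1 h2⟩

theorem lst_spec (hsup : ∀ s : IPow M R, (∃ x, x ∈ s) → (∃ b, ∀ x, x ∈ s → x ≤ b) →
    ∃ c, (∀ x, x ∈ s → x ≤ c) ∧ ∀ b, (∀ x, x ∈ s → x ≤ b) → c ≤ b) {a : R} (ha : 0 ≤ a) (y : R) :
    y < cs R (lst M a y) + cs R (lst M a y) + a ∧
      (lst M a y = 0 ∨ cs R (lst M a y) + cs R (lst M a y) + a ≤ y + 2) := by
  have h := int_cs (M := M) (R := R)
  obtain ⟨k₀, hk₀⟩ := cs_arch (M := M) hsup y
  obtain ⟨k, h1, h2⟩ := INat.exists_least (p := fun k : INat M => y < cs R k + cs R k + a)
    (by (repeat' (first | with_reducible exact IntF.id | with_reducible exact IntF.fst' | with_reducible exact IntF.snd' | with_reducible exact IntF.const _ | with_reducible exact Int.const _ | assumption | with_reducible apply Int.and | with_reducible apply Int.or | with_reducible apply Int.not | with_reducible apply Int.imp | with_reducible apply Int.iff | with_reducible apply Int.ne | with_reducible apply Int.eq | with_reducible apply Int.mem | with_reducible apply Int.subset | with_reducible apply Int.ltN | with_reducible apply Int.leN | with_reducible apply Int.fin | with_reducible apply Int.unique | with_reducible apply Int.all | with_reducible apply Int.ex | with_reducible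 apply IntF.fst | with_reducible apply IntF.snd | with_reducible apply IntF.app | with_reducible apply IntF.ite | with_reducible apply IntF.sep | with_reducible apply IntF.lam | with_reducible apply IntF.insert | with_reducible apply IntF.singleton | with_reducible apply IntF.union | with_reducible apply IntF.inter | with_reducible apply IntF.sdiff | with_reducible apply IntF.isUnion | with_reducible apply IntF.iimage | with_reducible apply IntF.the | with_reducible apply IntF.irec | with_reducible_and_instances apply IntF.add | with_reducible_and_instances apply IntF.mul | with_reducible apply IntF.succ | with_reducible apply IntF.val | with_reducible_and_instances apply Pool.Agent.Helper672.ZFA.Int.le | with_reducible_and_instances apply Pool.Agent.Helper672.ZFA.Int.lt | with_reducible_and_instances apply IntF.sub | with_reducible_and_instances apply IntF.neg | with_reducible_and_instances apply IntF.inv | with_reducible_and_instances apply IntF.div | with_reducible apply IntF.mk | (with_reducible refine Int.comp ?_ ?_; assumption) | (with_reducible refine Int.comp₂ ?_ ?_ ?_; assumption) | (with_reducible refine Int.comp₃ ?_ ?_ ?_ ?_; assumption) | (with_reducible refine IntF.comp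 ?_ ?_; assumption) | (with_reducible refine IntF.comp₂ ?_ ?_ ?_; assumption) | (with_reducible refine IntF.comp₃ ?_ ?_ ?_ ?_; assumption) | (with_reducible refine Int.comp₄ ?_ ?_ ?_ ?_ ?_; assumption) | with_reducible apply IntF.pair))) ⟨k₀, by linarith [cs_nonneg (R := R) k₀]⟩
  have h3 : k = 0 ∨ cs R k + cs R k + a ≤ y + 2 := by
    rcases INat.eq_zero_or_succ k with rfl | ⟨m, rfl⟩
    · exact Or.inl rfl
    · right
      rw [cs_succ]
      by_contra hlt
      rw [not_le] at hlt
      have := h2 m (by linarith)
      exact absurd (INat.lt_succ_self m) (not_lt.2 this)
  rw [lst_eq h1 h3]
  exact ⟨h1, h3⟩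

/-- The distance to the even natural numbers. -/
noncomputable def dev (M : Type u) [L.Structure M] [IsModel M] {R : Type u₃} [ITy M R] [Field R]
    [LinearOrder R] (y : R) : R :=
  if y ≤ cs R (lst M 2 y) + cs R (lst M 2 y) + 1 then y - (cs R (lst M 2 y) + cs R (lst M 2 y))
  else cs R (lst M 2 y) + cs R (lst M 2 y) + 2 - y

theorem int_dev : IntF M (fun y : R => dev M y) := by
  have h := int_cs (M := M) (R := R)
  have h1 := int_lst (M := M) (R := R)
  unfold dev
  (repeat' (first | with_reducible exact IntF.id | with_reducible exact IntF.fst' | with_reducible exact IntF.snd' | with_reducible exact IntF.const _ | with_reducible exact Int.const _ | assumption | with_reducible apply Int.and | with_reducible apply Int.or | with_reducible apply Int.not | with_reducible apply Int.imp | with_reducible apply Int.iff | with_reducible apply Int.ne | with_reducible apply Int.eq | with_reducible apply Int.mem | with_reducible apply Int.subset | with_reducible apply Int.ltN | with_reducible apply Int.leN | with_reducible apply Int.fin | with_reducible apply Int.unique | with_reducible apply Int.all | with_reducible apply Int.ex | with_reducible apply IntF.fst | with_reducible apply IntF.snd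 | with_reducible apply IntF.app | with_reducible apply IntF.ite | with_reducible apply IntF.sep | with_reducible apply IntF.lam | with_reducible apply IntF.insert | with_reducible apply IntF.singleton | with_reducible apply IntF.union | with_reducible apply IntF.inter | with_reducible apply IntF.sdiff | with_reducible apply IntF.isUnion | with_reducible apply IntF.iimage | with_reducible apply IntF.the | with_reducible apply IntF.irec | with_reducible_and_instances apply IntF.add | with_reducible_and_instances apply IntF.mul | with_reducible apply IntF.succ | with_reducible apply IntF.val | with_reducible_and_instances apply Pool.Agent.Helper672.ZFA.Int.le | with_reducible_and_instances apply Pool.Agent.Helper672.ZFA.Int.lt | with_reducible_and_instances apply IntF.sub | with_reducible_and_instances apply IntF.neg | with_reducible_and_instances apply IntF.inv | with_reducible_and_instances apply IntF.div | with_reducible apply IntF.mk | (with_reducible refine Int.comp ?_ ?_; assumption) | (with_reducible refine Int.comp₂ ?_ ?_ ?_; assumption) | (with_reducible refine Int.comp₃ ?_ ?_ ?_ ?_; assumption) | (with_reducible refine IntF.comp ?_ ?_; assumption) | (with_reducible refine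 IntF.comp₂ ?_ ?_ ?_; assumption) | (with_reducible refine IntF.comp₃ ?_ ?_ ?_ ?_; assumption) | (with_reducible refine Int.comp₄ ?_ ?_ ?_ ?_ ?_; assumption) | with_reducible apply IntF.pair))

theorem dev_eq {y : R} {k : INat M} (h1 : cs R k + cs R k ≤ y) (h2 : y < cs R k + cs R k + 2) :
    dev M y = min (y - (cs R k + cs R k)) (cs R k + cs R k + 2 - y) := by
  have h3 : lst M 2 y = k := lst_eq h2 (Or.inr (by linarith))
  unfold dev
  rw [h3]
  by_cases h : y ≤ cs R k + cs R k + 1
  · rw [if_pos h, min_eq_left (by linarith)]
  · rw [if_neg h, min_eq_right (by linarith)]

theorem exists_k (hsup : ∀ s : IPow M R, (∃ x, x ∈ s) → (∃ b, ∀ x, x ∈ s → x ≤ b) →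
    ∃ c, (∀ x, x ∈ s → x ≤ c) ∧ ∀ b, (∀ x, x ∈ s → x ≤ b) → c ≤ b) {y : R} (hy : 0 ≤ y) :
    ∃ k : INat M, k = lst M 2 y ∧ cs R k + cs R k ≤ y ∧ y < cs R k + cs R k + 2 := by
  obtain ⟨h1, h2⟩ := lst_spec (M := M) hsup (a := 2) (by norm_num) y
  refine ⟨_, rfl, ?_, h1⟩
  rcases h2 with h2 | h2
  · rw [h2, cs_zero]
    linarith
  · linarith

theorem dev_bd (hsup : ∀ s : IPow M R, (∃ x, x ∈ s) → (∃ b, ∀ x, x ∈ s → x ≤ b) →
    ∃ c, (∀ x, x ∈ s → x ≤ c) ∧ ∀ b, (∀ x, x ∈ s → x ≤ b) → c ≤ b) {y : R} (hy : 0 ≤ y) :
    0 ≤ dev M y ∧ dev M y ≤ 1 := by
  obtain ⟨k, -, h1, h2⟩ := exists_k (M := M) hsup hy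
  rw [dev_eq h1 h2]
  refine ⟨le_min (by linarith) (by linarith), ?_⟩
  rcases le_total y (cs R k + cs R k + 1) with h | h
  · exact (min_le_left _ _).trans (by linarith)
  · exact (min_le_right _ _).trans (by linarith)

theorem dev_lip (hsup : ∀ s : IPow M R, (∃ x, x ∈ s) → (∃ b, ∀ x, x ∈ s → x ≤ b) →
    ∃ c, (∀ x, x ∈ s → x ≤ c) ∧ ∀ b, (∀ x, x ∈ s → x ≤ b) → c ≤ b) {y y' : R} (hy : 0 ≤ y)
    (hyy : y ≤ y') : dev M y ≤ dev M y' + (y' - y) ∧ dev M y' ≤ dev M y + (y' - y) := by
  obtain ⟨k, -, h1, h2⟩ := exists_k (M := M) hsup hy
  obtain ⟨k', -, h1', h2'⟩ := exists_k (M := M) hsup (hy.trans hyy)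
  rw [dev_eq h1 h2, dev_eq h1' h2']
  rcases lt_trichotomy k k' with h | rfl | h
  · have h3 := cs_lt (R := R) h
    constructor
    · refine (min_le_right _ _).trans ?_
      have : (0 : R) ≤ min (y' - (cs R k' + cs R k')) (cs R k' + cs R k' + 2 - y') :=
        le_min (by linarith) (by linarith)
      linarith
    · refine (min_le_left _ _).trans ?_
      have : (0 : R) ≤ min (y - (cs R k + cs R k)) (cs R k + cs R k + 2 - y) :=
        le_min (by linarith) (by linarith)
      linarith
  · constructor
    · rw [← sub_le_iff_le_add]
      refine le_min ?_ ?_
      · have := min_le_left (y - (cs R k + cs R k)) (cs R k + cs R k + 2 - y)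
        linarith
      · have := min_le_right (y - (cs R k + cs R k)) (cs R k + cs R k + 2 - y)
        linarith
    · rw [← sub_le_iff_le_add]
      refine le_min ?_ ?_
      · have := min_le_left (y' - (cs R k + cs R k)) (cs R k + cs R k + 2 - y')
        linarith
      · have := min_le_right (y' - (cs R k + cs R k)) (cs R k + cs R k + 2 - y')
        linarith
  · have h3 := cs_lt (R := R) h
    linarith

theorem dev_even {k : INat M} : dev M (cs R k + cs R k) = 0 := by
  rw [dev_eq (M := M) (k := k) le_rfl (by linarith)]
  simp

theorem dev_odd {k : INat M} : dev M (cs R k + cs R k + 1) = 1 := by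
  rw [dev_eq (M := M) (k := k) (by linarith) (by linarith)]
  rw [min_eq_left (by linarith)]
  ring

end real

end Pool.Agent.Q212.ZC
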