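import Pool.Agent.Q212.ZC1

/-!
# Strongly zero-dimensional realcompact spaces are closed in powers of the natural numbers
-/

set_option maxHeartbeats 1000000
set_option linter.all false

namespace Pool.Agent.Q212.ZC

open FirstOrder FirstOrder.Language
open Pool.Agent.Helper672.ZFA
open Pool.Agent.H310
open Pool.Agent.Q212.ZA

universe u u₁ u₂ u₃ u₄

variable {M : Type u} [L.Structure M] [hM : IsModel M]
variable {α : Type u₁} {ι : Type u₂} {R : Type u₃} [ITy M α] [ITy M ι] [ITy M R]

section top

variable {Op : IPow M α → Prop}

/-- Locally constant functions to the natural numbers. -/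
def Loc (Op : IPow M α → Prop) (h : IFun M α (INat M)) : Prop :=
  ∀ x, ∃ U, Op U ∧ x ∈ U ∧ ∀ y, y ∈ U → h y = h x

theorem int_Loc (hO : Int M Op) : Int M (fun h : IFun M α (INat M) => Loc Op h) := by
  unfold Loc
  (repeat' (first | with_reducible exact IntF.id | with_reducible exact IntF.fst' | with_reducible exact IntF.snd' | with_reducible exact IntF.const _ | with_reducible exact Int.const _ | assumption | with_reducible apply Int.and | with_reducible apply Int.or | with_reducible apply Int.not | with_reducible apply Int.imp | with_reducible apply Int.iff | with_reducible apply Int.ne | with_reducible apply Int.eq | with_reducible apply Int.mem | with_reducible apply Int.subset | with_reducible apply Int.ltN | with_reducible apply Int.leN | with_reducible apply Int.fin | with_reducible apply Int.unique | with_reducible apply Int.all | with_reducible apply Int.ex | with_reducible apply IntF.fst | with_reducible apply IntF.snd | with_reducible apply IntF.app | with_reducible apply IntF.ite | with_reducible apply IntF.sep | with_reducible apply IntF.lam | with_reducible apply IntF.insert | with_reducible apply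 IntF.singleton | with_reducible apply IntF.union | with_reducible apply IntF.inter | with_reducible apply IntF.sdiff | with_reducible apply IntF.isUnion | with_reducible apply IntF.iimage | with_reducible apply IntF.the | with_reducible apply IntF.irec | with_reducible_and_instances apply IntF.add | with_reducible_and_instances apply IntF.mul | with_reducible apply IntF.succ | with_reducible apply IntF.val | (with_reducible refine Int.comp ?_ ?_; assumption) | (with_reducible refine Int.comp₂ ?_ ?_ ?_; assumption) | (with_reducible refine Int.comp₃ ?_ ?_ ?_ ?_; assumption) | (with_reducible refine IntF.comp ?_ ?_; assumption) | (with_reducible refine IntF.comp₂ ?_ ?_ ?_; assumption) | (with_reducible refine IntF.comp₃ ?_ ?_ ?_ ?_; assumption) | with_reducible apply IntF.pair))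

variable [Field R] [LinearOrder R] [IsStrictOrderedRing R] [IAdd M R] [IMul M R] [ILE M R]

/-- Continuous real functions. -/
def Cts (Op : IPow M α → Prop) (f : α → R) : Prop :=
  ∀ x ε, 0 < ε → ∃ U, Op U ∧ x ∈ U ∧ ∀ y, y ∈ U → f y < f x + ε ∧ f x < f y + ε

variable (M R) in
/-- Completeness. -/
def Cpl : Prop := ∀ s : IPow M R, (∃ x, x ∈ s) → (∃ b, ∀ x, x ∈ s → x ≤ b) →
    ∃ c, (∀ x, x ∈ s → x ≤ c) ∧ ∀ b, (∀ x, x ∈ s → x ≤ b) → c ≤ b

/-- Strong zero-dimensionality. -/
def Szd (R : Type u₃) [ITy M R] [Field R] [LinearOrder R] (Op : IPow M α → Prop) : Prop :=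
  ∀ φ : α → R, IntF M φ → Cts Op φ → (∀ x, 0 ≤ φ x ∧ φ x ≤ 1) →
    ∃ C : IPow M α, Op C ∧ Op (icompl C) ∧ (∀ x, φ x = 0 → x ∈ C) ∧ ∀ x, φ x = 1 → ¬ x ∈ C

/-- A locally constant function such that `g` has small oscillation where it is constant. -/
theorem exists_h (hsup : Cpl M R) (hO : Int M Op)
    (hinter : ∀ U V, Op U → Op V → Op (U ∩ V)) (hszd : Szd R Op)
    {g : α → R} (hg : IntF M g) (hgc : Cts Op g) (hg0 : ∀ x, 0 ≤ g x) :
    ∃ h : IFun M α (INat M), Loc Op h ∧ ∀ x y, h x = h y → g x < g y + 3 := by
  classical
  have hdev := int_dev (M := M) (R := R)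
  have hlst := int_lst (M := M) (R := R)
  obtain ⟨C, hC, hC', h0, h1⟩ := hszd (fun x => dev M (g x)) (by (repeat' (first | with_reducible exact IntF.id | with_reducible exact IntF.fst' | with_reducible exact IntF.snd' | with_reducible exact IntF.const _ | with_reducible exact Int.const _ | assumption | with_reducible apply Int.and | with_reducible apply Int.or | with_reducible apply Int.not | with_reducible apply Int.imp | with_reducible apply Int.iff | with_reducible apply Int.ne | with_reducible apply Int.eq | with_reducible apply Int.mem | with_reducible apply Int.subset | with_reducible apply Int.ltN | with_reducible apply Int.leN | with_reducible apply Int.fin | with_reducible apply Int.unique | with_reducible apply Int.all | with_reducible apply Int.ex | with_reducible apply IntF.fst | with_reducible apply IntF.snd | with_reducible apply IntF.app | with_reducible apply IntF.ite | with_reducible apply IntF.sep | with_reducible apply IntF.lam | with_reducible apply IntF.insert | with_reducible apply IntF.singleton | with_reducible apply IntF.union | with_reducible apply IntF.inter | with_reducible apply IntF.sdiff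 | with_reducible apply IntF.isUnion | with_reducible apply IntF.iimage | with_reducible apply IntF.the | with_reducible apply IntF.irec | with_reducible_and_instances apply IntF.add | with_reducible_and_instances apply IntF.mul | with_reducible apply IntF.succ | with_reducible apply IntF.val | with_reducible_and_instances apply Pool.Agent.Helper672.ZFA.Int.le | with_reducible_and_instances apply Pool.Agent.Helper672.ZFA.Int.lt | with_reducible_and_instances apply IntF.sub | with_reducible_and_instances apply IntF.neg | with_reducible_and_instances apply IntF.inv | with_reducible_and_instances apply IntF.div | with_reducible apply IntF.mk | (with_reducible refine Int.comp ?_ ?_; assumption) | (with_reducible refine Int.comp₂ ?_ ?_ ?_; assumption) | (with_reducible refine Int.comp₃ ?_ ?_ ?_ ?_; assumption) | (with_reducible refine IntF.comp ?_ ?_; assumption) | (with_reducible refine IntF.comp₂ ?_ ?_ ?_; assumption) | (with_reducible refine IntF.comp₃ ?_ ?_ ?_ ?_; assumption) | (with_reducible refine Int.comp₄ ?_ ?_ ?_ ?_ ?_; assumption) | with_reducible apply IntF.pair))) (fun x ε hε => by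
    obtain ⟨U, hU, hxU, hU'⟩ := hgc x ε hε
    refine ⟨U, hU, hxU, fun y hy => ?_⟩
    obtain ⟨h2, h3⟩ := hU' y hy
    rcases le_total (g x) (g y) with h | h
    · obtain ⟨h4, h5⟩ := dev_lip (M := M) hsup (hg0 x) h
      constructor <;> linarith
    · obtain ⟨h4, h5⟩ := dev_lip (M := M) hsup (hg0 y) h
      constructor <;> linarith) fun x => dev_bd (M := M) hsup (hg0 x)
  have hh : IntF M (fun x : α => if x ∈ C then lst M 1 (g x) else lst M 2 (g x)) := by (repeat' (first | with_reducible exact IntF.id | with_reducible exact IntF.fst' | with_reducible exact IntF.snd' | with_reducible exact IntF.const _ | with_reducible exact Int.const _ | assumption | with_reducible apply Int.and | with_reducible apply Int.or | with_reducible apply Int.not | with_reducible apply Int.imp | with_reducible apply Int.iff | with_reducible apply Int.ne | with_reducible apply Int.eq | with_reducible apply Int.mem | with_reducible apply Int.subset | with_reducible apply Int.ltN | with_reducible apply Int.leN | with_reducible apply Int.fin | with_reducible apply Int.unique | with_reducible apply Int.all | with_reducible apply Int.ex | with_reducible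 apply IntF.fst | with_reducible apply IntF.snd | with_reducible apply IntF.app | with_reducible apply IntF.ite | with_reducible apply IntF.sep | with_reducible apply IntF.lam | with_reducible apply IntF.insert | with_reducible apply IntF.singleton | with_reducible apply IntF.union | with_reducible apply IntF.inter | with_reducible apply IntF.sdiff | with_reducible apply IntF.isUnion | with_reducible apply IntF.iimage | with_reducible apply IntF.the | with_reducible apply IntF.irec | with_reducible_and_instances apply IntF.add | with_reducible_and_instances apply IntF.mul | with_reducible apply IntF.succ | with_reducible apply IntF.val | with_reducible_and_instances apply Pool.Agent.Helper672.ZFA.Int.le | with_reducible_and_instances apply Pool.Agent.Helper672.ZFA.Int.lt | with_reducible_and_instances apply IntF.sub | with_reducible_and_instances apply IntF.neg | with_reducible_and_instances apply IntF.inv | with_reducible_and_instances apply IntF.div | with_reducible apply IntF.mk | (with_reducible refine Int.comp ?_ ?_; assumption) | (with_reducible refine Int.comp₂ ?_ ?_ ?_; assumption) | (with_reducible refine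 Int.comp₃ ?_ ?_ ?_ ?_; assumption) | (with_reducible refine IntF.comp ?_ ?_; assumption) | (with_reducible refine IntF.comp₂ ?_ ?_ ?_; assumption) | (with_reducible refine IntF.comp₃ ?_ ?_ ?_ ?_; assumption) | (with_reducible refine Int.comp₄ ?_ ?_ ?_ ?_ ?_; assumption) | with_reducible apply IntF.pair))
  have hon : ∀ x, x ∈ C → ∀ k : INat M, k = lst M 1 (g x) → g x < cs R k + cs R k + 1 ∧
      (k = 0 ∨ cs R k + cs R k < g x + 1) := by
    rintro x hx k rfl
    obtain ⟨h2, h3⟩ := lst_spec (M := M) hsup (a := 1) (by norm_num) (g x)
    refine ⟨h2, ?_⟩
    rcases INat.eq_zero_or_succ (lst M 1 (g x)) with h4 | ⟨m, h4⟩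
    · exact Or.inl h4
    · right
      have h5 : cs R (lst M 1 (g x)) + cs R (lst M 1 (g x)) + 1 ≤ g x + 2 := by
        rcases h3 with h3 | h3
        · rw [h4] at h3
          exact absurd h3 (INat.succ_ne_zero m)
        · exact h3
      have h6 : cs R m + cs R m + 1 ≤ g x := by
        rw [h4, cs_succ] at h5
        linarith
      rcases h6.lt_or_eq with h7 | h7
      · rw [h4, cs_succ]
        linarith
      · refine absurd hx (h1 x ?_)
        change dev M (g x) = 1
        rw [← h7, dev_odd]
  have hoff : ∀ x, ¬ x ∈ C → ∀ k : INat M, k = lst M 2 (g x) → g x < cs R k + cs R k + 2 ∧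
      cs R k + cs R k < g x := by
    rintro x hx k rfl
    obtain ⟨k, hk, h3, h2⟩ := exists_k (M := M) hsup (hg0 x)
    rw [← hk]
    refine ⟨h2, ?_⟩
    rcases h3.lt_or_eq with h7 | h7
    · exact h7
    · refine absurd (h0 x ?_) hx
      change dev M (g x) = 0
      rw [← h7, dev_even]
  refine ⟨⟨_, hh⟩, fun x => ?_, fun x y hxy => ?_⟩
  · by_cases hx : x ∈ C
    · obtain ⟨h2, h3⟩ := hon x hx _ rfl
      have h4 : ∃ ε, 0 < ε ∧ g x + ε ≤ cs R (lst M 1 (g x)) + cs R (lst M 1 (g x)) + 1 ∧
          (lst M 1 (g x) = 0 ∨ cs R (lst M 1 (g x)) + cs R (lst M 1 (g x)) + ε ≤ g x + 1) := by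
        rcases h3 with h3 | h3
        · exact ⟨_, sub_pos.2 h2, by linarith, Or.inl h3⟩
        · refine ⟨min (cs R (lst M 1 (g x)) + cs R (lst M 1 (g x)) + 1 - g x)
            (g x + 1 - (cs R (lst M 1 (g x)) + cs R (lst M 1 (g x)))),
            lt_min (sub_pos.2 h2) (sub_pos.2 h3), ?_, Or.inr ?_⟩
          · have := min_le_left (cs R (lst M 1 (g x)) + cs R (lst M 1 (g x)) + 1 - g x)
              (g x + 1 - (cs R (lst M 1 (g x)) + cs R (lst M 1 (g x))))
            linarith
          · have := min_le_right (cs R (lst M 1 (g x)) + cs R (lst M 1 (g x)) + 1 - g x)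
              (g x + 1 - (cs R (lst M 1 (g x)) + cs R (lst M 1 (g x))))
            linarith
      obtain ⟨ε, hε, h5, h6⟩ := h4
      obtain ⟨U, hU, hxU, hU'⟩ := hgc x ε hε
      refine ⟨U ∩ C, hinter U C hU hC, mem_inter.2 ⟨hxU, hx⟩, fun y hy => ?_⟩
      rw [mem_inter] at hy
      obtain ⟨h7, h8⟩ := hU' y hy.1
      change (if y ∈ C then lst M 1 (g y) else lst M 2 (g y)) =
        (if x ∈ C then lst M 1 (g x) else lst M 2 (g x))
      rw [if_pos hy.2, if_pos hx]
      refine lst_eq (by linarith) ?_
      rcases h6 with h6 | h6
      · exact Or.inl h6
      · right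
        linarith
    · obtain ⟨h2, h3⟩ := hoff x hx _ rfl
      have h4 : ∃ ε, 0 < ε ∧ g x + ε ≤ cs R (lst M 2 (g x)) + cs R (lst M 2 (g x)) + 2 ∧
          cs R (lst M 2 (g x)) + cs R (lst M 2 (g x)) + ε ≤ g x := by
        refine ⟨min (cs R (lst M 2 (g x)) + cs R (lst M 2 (g x)) + 2 - g x)
          (g x - (cs R (lst M 2 (g x)) + cs R (lst M 2 (g x)))),
          lt_min (sub_pos.2 h2) (sub_pos.2 h3), ?_, ?_⟩
        · have := min_le_left (cs R (lst M 2 (g x)) + cs R (lst M 2 (g x)) + 2 - g x)
            (g x - (cs R (lst M 2 (g x)) + cs R (lst M 2 (g x))))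
          linarith
        · have := min_le_right (cs R (lst M 2 (g x)) + cs R (lst M 2 (g x)) + 2 - g x)
            (g x - (cs R (lst M 2 (g x)) + cs R (lst M 2 (g x))))
          linarith
      obtain ⟨ε, hε, h5, h6⟩ := h4
      obtain ⟨U, hU, hxU, hU'⟩ := hgc x ε hε
      refine ⟨U ∩ icompl C, hinter U _ hU hC', mem_inter.2 ⟨hxU, mem_icompl.2 hx⟩,
        fun y hy => ?_⟩
      rw [mem_inter, mem_icompl] at hy
      obtain ⟨h7, h8⟩ := hU' y hy.1
      change (if y ∈ C then lst M 1 (g y) else lst M 2 (g y)) =
        (if x ∈ C then lst M 1 (g x) else lst M 2 (g x))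
      rw [if_neg hy.2, if_neg hx]
      exact lst_eq (by linarith) (Or.inr (by linarith))
  · change (if x ∈ C then lst M 1 (g x) else lst M 2 (g x)) =
      (if y ∈ C then lst M 1 (g y) else lst M 2 (g y)) at hxy
    have hup : ∀ x k, (if x ∈ C then lst M 1 (g x) else lst M 2 (g x)) = k →
        g x < cs R k + cs R k + 2 := by
      intro x k hk
      by_cases hx : x ∈ C
      · rw [if_pos hx] at hk
        linarith [(hon x hx k hk.symm).1]
      · rw [if_neg hx] at hk
        exact (hoff x hx k hk.symm).1
    have hlo : ∀ x k, (if x ∈ C then lst M 1 (g x) else lst M 2 (g x)) = k →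
        cs R k + cs R k ≤ g x + 1 := by
      intro x k hk
      by_cases hx : x ∈ C
      · rw [if_pos hx] at hk
        rcases (hon x hx k hk.symm).2 with h | h
        · rw [h, cs_zero]
          linarith [hg0 x]
        · exact h.le
      · rw [if_neg hx] at hk
        linarith [(hoff x hx k hk.symm).2]
    linarith [hup x _ rfl, hlo y _ hxy.symm]

/-- The version for all continuous functions. -/
theorem exists_hh (hsup : Cpl M R) (hO : Int M Op)
    (hinter : ∀ U V, Op U → Op V → Op (U ∩ V)) (hszd : Szd R Op)
    {f : α → R} (hf : IntF M f) (hfc : Cts Op f) {ε : R} (hε : 0 < ε) :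
    ∃ h h' : IFun M α (INat M), Loc Op h ∧ Loc Op h' ∧
      ∀ x y, h x = h y → h' x = h' y → f x < f y + ε := by
  classical
  have hδ : 0 < 6 / ε := by positivity
  have key : ∀ f : α → R, IntF M f → Cts Op f → ∃ h : IFun M α (INat M), Loc Op h ∧
      ∀ x y, h x = h y → (if f x ≤ 0 then 0 else f x * (6 / ε)) <
        (if f y ≤ 0 then 0 else f y * (6 / ε)) + 3 := by
    intro f hf hfc
    refine exists_h hsup hO hinter hszd (g := fun x => if f x ≤ 0 then 0 else f x * (6 / ε))
      (by (repeat' (first | with_reducible exact IntF.id | with_reducible exact IntF.fst' | with_reducible exact IntF.snd' | with_reducible exact IntF.const _ | with_reducible exact Int.const _ | assumption | with_reducible apply Int.and | with_reducible apply Int.or | with_reducible apply Int.not | with_reducible apply Int.imp | with_reducible apply Int.iff | with_reducible apply Int.ne | with_reducible apply Int.eq | with_reducible apply Int.mem | with_reducible apply Int.subset | with_reducible apply Int.ltN | with_reducible apply Int.leN | with_reducible apply Int.fin | with_reducible apply Int.unique | with_reducible apply Int.all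 | with_reducible apply Int.ex | with_reducible apply IntF.fst | with_reducible apply IntF.snd | with_reducible apply IntF.app | with_reducible apply IntF.ite | with_reducible apply IntF.sep | with_reducible apply IntF.lam | with_reducible apply IntF.insert | with_reducible apply IntF.singleton | with_reducible apply IntF.union | with_reducible apply IntF.inter | with_reducible apply IntF.sdiff | with_reducible apply IntF.isUnion | with_reducible apply IntF.iimage | with_reducible apply IntF.the | with_reducible apply IntF.irec | with_reducible_and_instances apply IntF.add | with_reducible_and_instances apply IntF.mul | with_reducible apply IntF.succ | with_reducible apply IntF.val | with_reducible_and_instances apply Pool.Agent.Helper672.ZFA.Int.le | with_reducible_and_instances apply Pool.Agent.Helper672.ZFA.Int.lt | with_reducible_and_instances apply IntF.sub | with_reducible_and_instances apply IntF.neg | with_reducible_and_instances apply IntF.inv | with_reducible_and_instances apply IntF.div | with_reducible apply IntF.mk | (with_reducible refine Int.comp ?_ ?_; assumption) | (with_reducible refine Int.comp₂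 ?_ ?_ ?_; assumption) | (with_reducible refine Int.comp₃ ?_ ?_ ?_ ?_; assumption) | (with_reducible refine IntF.comp ?_ ?_; assumption) | (with_reducible refine IntF.comp₂ ?_ ?_ ?_; assumption) | (with_reducible refine IntF.comp₃ ?_ ?_ ?_ ?_; assumption) | (with_reducible refine Int.comp₄ ?_ ?_ ?_ ?_ ?_; assumption) | with_reducible apply IntF.pair))) (fun x η hη => ?_) fun x => ?_
    · obtain ⟨U, hU, hxU, hU'⟩ := hfc x (η * (ε / 6)) (by positivity)
      refine ⟨U, hU, hxU, fun y hy => ?_⟩
      obtain ⟨h1, h2⟩ := hU' y hy
      have e1 : η * (ε / 6) * (6 / ε) = η := by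
        field_simp
      have h3 : f y * (6 / ε) < f x * (6 / ε) + η := by
        have := mul_lt_mul_of_pos_right h1 hδ
        rw [add_mul, e1] at this
        exact this
      have h4 : f x * (6 / ε) < f y * (6 / ε) + η := by
        have := mul_lt_mul_of_pos_right h2 hδ
        rw [add_mul, e1] at this
        exact this
      change (if f y ≤ 0 then 0 else f y * (6 / ε)) < (if f x ≤ 0 then 0 else f x * (6 / ε)) + η ∧
        (if f x ≤ 0 then 0 else f x * (6 / ε)) < (if f y ≤ 0 then 0 else f y * (6 / ε)) + η
      by_cases hx : f x ≤ 0 <;> by_cases hy : f y ≤ 0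
      · rw [if_pos hx, if_pos hy]
        constructor <;> linarith
      · rw [if_pos hx, if_neg hy]
        have h5 : f x * (6 / ε) ≤ 0 := mul_nonpos_of_nonpos_of_nonneg hx hδ.le
        have h6 : 0 < f y * (6 / ε) := mul_pos (not_le.1 hy) hδ
        constructor <;> linarith
      · rw [if_neg hx, if_pos hy]
        have h5 : f y * (6 / ε) ≤ 0 := mul_nonpos_of_nonpos_of_nonneg hy hδ.le
        have h6 : 0 < f x * (6 / ε) := mul_pos (not_le.1 hx) hδ
        constructor <;> linarith
      · rw [if_neg hx, if_neg hy]
        exact ⟨h3, h4⟩
    · change 0 ≤ (if f x ≤ 0 then 0 else f x * (6 / ε))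
      by_cases hx : f x ≤ 0
      · rw [if_pos hx]
      · rw [if_neg hx]
        exact (mul_pos (not_le.1 hx) hδ).le
  obtain ⟨h, hl, h1⟩ := key f hf hfc
  obtain ⟨h', hl', h1'⟩ := key (fun x => - f x) (by (repeat' (first | with_reducible exact IntF.id | with_reducible exact IntF.fst' | with_reducible exact IntF.snd' | with_reducible exact IntF.const _ | with_reducible exact Int.const _ | assumption | with_reducible apply Int.and | with_reducible apply Int.or | with_reducible apply Int.not | with_reducible apply Int.imp | with_reducible apply Int.iff | with_reducible apply Int.ne | with_reducible apply Int.eq | with_reducible apply Int.mem | with_reducible apply Int.subset | with_reducible apply Int.ltN | with_reducible apply Int.leN | with_reducible apply Int.fin | with_reducible apply Int.unique | with_reducible apply Int.all | with_reducible apply Int.ex | with_reducible apply IntF.fst | with_reducible apply IntF.snd | with_reducible apply IntF.app | with_reducible apply IntF.ite | with_reducible apply IntF.sep | with_reducible apply IntF.lam | with_reducible apply IntF.insert | with_reducible apply IntF.singleton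 | with_reducible apply IntF.union | with_reducible apply IntF.inter | with_reducible apply IntF.sdiff | with_reducible apply IntF.isUnion | with_reducible apply IntF.iimage | with_reducible apply IntF.the | with_reducible apply IntF.irec | with_reducible_and_instances apply IntF.add | with_reducible_and_instances apply IntF.mul | with_reducible apply IntF.succ | with_reducible apply IntF.val | with_reducible_and_instances apply Pool.Agent.Helper672.ZFA.Int.le | with_reducible_and_instances apply Pool.Agent.Helper672.ZFA.Int.lt | with_reducible_and_instances apply IntF.sub | with_reducible_and_instances apply IntF.neg | with_reducible_and_instances apply IntF.inv | with_reducible_and_instances apply IntF.div | with_reducible apply IntF.mk | (with_reducible refine Int.comp ?_ ?_; assumption) | (with_reducible refine Int.comp₂ ?_ ?_ ?_; assumption) | (with_reducible refine Int.comp₃ ?_ ?_ ?_ ?_; assumption) | (with_reducible refine IntF.comp ?_ ?_; assumption) | (with_reducible refine IntF.comp₂ ?_ ?_ ?_; assumption) | (with_reducible refine IntF.comp₃ ?_ ?_ ?_ ?_; assumption) | (with_reducible refine Int.comp₄ ?_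 ?_ ?_ ?_ ?_; assumption) | with_reducible apply IntF.pair))) fun x η hη => by
    obtain ⟨U, hU, hxU, hU'⟩ := hfc x η hη
    refine ⟨U, hU, hxU, fun y hy => ?_⟩
    obtain ⟨h2, h3⟩ := hU' y hy
    constructor <;> linarith
  refine ⟨h, h', hl, hl', fun x y hxy hxy' => ?_⟩
  have h2 := h1 x y hxy
  have h3 := h1' y x hxy'.symm
  have e1 : (6 / ε) * (ε / 6) = 1 := by field_simp
  have hε6 : 0 < ε / 6 := by positivity
  have conv : ∀ a b : R, a * (6 / ε) < b * (6 / ε) + 6 → a < b + ε := by
    intro a b hab
    have h := mul_lt_mul_of_pos_right hab hε6
    have e2 : a * (6 / ε) * (ε / 6) = a := by rw [mul_assoc, e1, mul_one]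
    have e3 : (b * (6 / ε) + 6) * (ε / 6) = b + ε := by
      rw [add_mul, mul_assoc, e1, mul_one]
      ring
    rwa [e2, e3] at h
  refine conv _ _ ?_
  -- positive and negative parts
  have pos : ∀ a : R, a * (6 / ε) ≤ (if a ≤ 0 then 0 else a * (6 / ε)) := by
    intro a
    by_cases h : a ≤ 0
    · rw [if_pos h]
      exact mul_nonpos_of_nonpos_of_nonneg h hδ.le
    · rw [if_neg h]
  have split : ∀ a : R, a * (6 / ε) = (if a ≤ 0 then 0 else a * (6 / ε)) -
      (if -a ≤ 0 then 0 else -a * (6 / ε)) := by
    intro a
    rcases lt_trichotomy a 0 with h | h | h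
    · rw [if_pos h.le, if_neg (by linarith)]
      ring
    · rw [h]
      simp
    · rw [if_neg (by linarith), if_pos (by linarith)]
      ring
  rw [split (f x), split (f y)]
  linarith

end top

end Pool.Agent.Q212.ZC
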