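import Pool.Agent.Q212.ZC2

/-!
# Strongly zero-dimensional realcompact spaces: the range in the power of the natural numbers
-/

set_option maxHeartbeats 1000000
set_option linter.all false

namespace Pool.Agent.Q212.ZC

open FirstOrder FirstOrder.Language
open Pool.Agent.Helper672.ZFA
open Pool.Agent.H310
open Pool.Agent.Q212.ZA

universe u u₁ u₂ u₃ u₄

variable {M : Type u} [L.Structure M] [hM : IsModel M]
variable {α : Type u₁} {ι : Type u₂} {R : Type u₃} [ITy M α] [ITy M ι] [ITy M R]

section

variable {Op : IPow M α → Prop} [hOF : Fact (Int M (fun h : IFun M α (INat M) => Loc Op h))]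
variable [Field R] [LinearOrder R] [IsStrictOrderedRing R] [IAdd M R] [IMul M R] [ILE M R]

/-- The type of locally constant functions. -/
abbrev JT (Op : IPow M α → Prop) : Type _ := {h : IFun M α (INat M) // Loc Op h}

/-- The points where the functions of `S` have the values `ψ`. -/
def Fp (ψ : IFun M (JT Op) (INat M)) (S : IPow M (JT Op)) (x : α) : Prop :=
  ∀ h, h ∈ S → h.1 x = ψ h

theorem int_Fp : Int M (fun q : (IFun M (JT Op) (INat M) × IPow M (JT Op)) × α =>
    Fp q.1.1 q.1.2 q.2) := by
  unfold Fp
  (repeat' (first | with_reducible exact IntF.id | with_reducible exact IntF.fst' | with_reducible exact IntF.snd' | with_reducible exact IntF.const _ | with_reducible exact Int.const _ | assumption | with_reducible apply Int.and | with_reducible apply Int.or | with_reducible apply Int.not | with_reducible apply Int.imp | with_reducible apply Int.iff | with_reducible apply Int.ne | with_reducible apply Int.eq | with_reducible apply Int.mem | with_reducible apply Int.subset | with_reducible apply Int.ltN | with_reducible apply Int.leN | with_reducible apply Int.fin | with_reducible apply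 Int.unique | with_reducible apply Int.all | with_reducible apply Int.ex | with_reducible apply IntF.fst | with_reducible apply IntF.snd | with_reducible apply IntF.app | with_reducible apply IntF.ite | with_reducible apply IntF.sep | with_reducible apply IntF.lam | with_reducible apply IntF.insert | with_reducible apply IntF.singleton | with_reducible apply IntF.union | with_reducible apply IntF.inter | with_reducible apply IntF.sdiff | with_reducible apply IntF.isUnion | with_reducible apply IntF.iimage | with_reducible apply IntF.the | with_reducible apply IntF.irec | with_reducible_and_instances apply IntF.add | with_reducible_and_instances apply IntF.mul | with_reducible apply IntF.succ | with_reducible apply IntF.val | (with_reducible refine Int.comp ?_ ?_; assumption) | (with_reducible refine Int.comp₂ ?_ ?_ ?_; assumption) | (with_reducible refine Int.comp₃ ?_ ?_ ?_ ?_; assumption) | (with_reducible refine IntF.comp ?_ ?_; assumption) | (with_reducible refine IntF.comp₂ ?_ ?_ ?_; assumption) | (with_reducible refine IntF.comp₃ ?_ ?_ ?_ ?_; assumption) | with_reducible apply IntF.pair))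

theorem Fp.mono {ψ : IFun M (JT Op) (INat M)} {S T : IPow M (JT Op)} {x : α} (h : Fp ψ T x)
    (hST : S ⊆ T) : Fp ψ S x := fun k hk => h k (hST k hk)

/-- The map to the power of the natural numbers has a closed range. -/
theorem exists_point (hsup : Cpl M R) (hO : Int M Op)
    (hinter : ∀ U V, Op U → Op V → Op (U ∩ V)) (hszd : Szd R Op)
    {e : ι → α → R} (he : IntF M (fun q : ι × α => e q.1 q.2)) (hec : ∀ i, Cts Op (e i))
    (hbase : ∀ U, Op U → ∀ x, x ∈ U → ∃ s : IPow M ι, IFin s ∧ ∃ ε : R, 0 < ε ∧
      ∀ y, (∀ i, i ∈ s → e i y < e i x + ε ∧ e i x < e i y + ε) → y ∈ U)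
    (hclosed : ∀ p : IFun M ι R, (∀ s : IPow M ι, IFin s → ∀ ε : R, 0 < ε →
      ∃ x, ∀ i, i ∈ s → e i x < p i + ε ∧ p i < e i x + ε) → ∃ x, ∀ i, e i x = p i)
    {ψ : IFun M (JT Op) (INat M)}
    (hψ : ∀ S : IPow M (JT Op), IFin S → ∃ x, Fp ψ S x) : ∃ x, ∀ h : JT Op, h.1 x = ψ h := by
  classical
  have hei : ∀ i, IntF M (fun x => e i x) := fun i => he.slice i
  have hF := int_Fp (M := M) (Op := Op)
  have hJ : Int M (fun h : IFun M α (INat M) => Loc Op h) := int_Loc hO
  -- small oscillation
  have hosc : ∀ i, ∀ ε : R, 0 < ε → ∃ S : IPow M (JT Op), IFin S ∧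
      ∀ x y, Fp ψ S x → Fp ψ S y → e i x < e i y + ε := by
    intro i ε hε
    obtain ⟨h, h', hl, hl', h1⟩ := exists_hh hsup hO hinter hszd (hei i) (hec i) hε
    refine ⟨({⟨h, hl⟩} : IPow M (JT Op)) ∪ {⟨h', hl'⟩},
      (IFin.singleton _).union (IFin.singleton _), fun x y hx hy => ?_⟩
    refine h1 x y ?_ ?_
    · have h2 := hx ⟨h, hl⟩ (mem_union.2 (Or.inl (mem_singleton.2 rfl)))
      have h3 := hy ⟨h, hl⟩ (mem_union.2 (Or.inl (mem_singleton.2 rfl)))
      exact h2.trans h3.symm
    · have h2 := hx ⟨h', hl'⟩ (mem_union.2 (Or.inr (mem_singleton.2 rfl)))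
      have h3 := hy ⟨h', hl'⟩ (mem_union.2 (Or.inr (mem_singleton.2 rfl)))
      exact h2.trans h3.symm
  -- the lower bounds
  have hA : Int M (fun q : ι × R => ∃ S : IPow M (JT Op), IFin S ∧
      ∀ x, Fp ψ S x → q.2 ≤ e q.1 x) := by (repeat' (first | with_reducible exact IntF.id | with_reducible exact IntF.fst' | with_reducible exact IntF.snd' | with_reducible exact IntF.const _ | with_reducible exact Int.const _ | assumption | with_reducible apply Int.and | with_reducible apply Int.or | with_reducible apply Int.not | with_reducible apply Int.imp | with_reducible apply Int.iff | with_reducible apply Int.ne | with_reducible apply Int.eq | with_reducible apply Int.mem | with_reducible apply Int.subset | with_reducible apply Int.ltN | with_reducible apply Int.leN | with_reducible apply Int.fin | with_reducible apply Int.unique | with_reducible apply Int.all | with_reducible apply Int.ex | with_reducible apply IntF.fst | with_reducible apply IntF.snd | with_reducible apply IntF.app | with_reducible apply IntF.ite | with_reducible apply IntF.sep | with_reducible apply IntF.lam | with_reducible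 apply IntF.insert | with_reducible apply IntF.singleton | with_reducible apply IntF.union | with_reducible apply IntF.inter | with_reducible apply IntF.sdiff | with_reducible apply IntF.isUnion | with_reducible apply IntF.iimage | with_reducible apply IntF.the | with_reducible apply IntF.irec | with_reducible_and_instances apply IntF.add | with_reducible_and_instances apply IntF.mul | with_reducible apply IntF.succ | with_reducible apply IntF.val | with_reducible_and_instances apply Pool.Agent.Helper672.ZFA.Int.le | with_reducible_and_instances apply Pool.Agent.Helper672.ZFA.Int.lt | with_reducible_and_instances apply IntF.sub | with_reducible_and_instances apply IntF.neg | with_reducible_and_instances apply IntF.inv | with_reducible_and_instances apply IntF.div | with_reducible apply IntF.mk | (with_reducible refine Int.comp ?_ ?_; assumption) | (with_reducible refine Int.comp₂ ?_ ?_ ?_; assumption) | (with_reducible refine Int.comp₃ ?_ ?_ ?_ ?_; assumption) | (with_reducible refine IntF.comp ?_ ?_; assumption) | (with_reducible refine IntF.comp₂ ?_ ?_ ?_; assumption) | (with_reducible refine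 IntF.comp₃ ?_ ?_ ?_ ?_; assumption) | (with_reducible refine Int.comp₄ ?_ ?_ ?_ ?_ ?_; assumption) | with_reducible apply IntF.pair))
  have hlub : ∀ i, ∃! p : R, (∀ c, (∃ S : IPow M (JT Op), IFin S ∧ ∀ x, Fp ψ S x → c ≤ e i x) →
      c ≤ p) ∧ ∀ b, (∀ c, (∃ S : IPow M (JT Op), IFin S ∧ ∀ x, Fp ψ S x → c ≤ e i x) →
        c ≤ b) → p ≤ b := by
    intro i
    have hAi : Int M (fun c : R => ∃ S : IPow M (JT Op), IFin S ∧
      ∀ x, Fp ψ S x → c ≤ e i x) := Int.slice (p := fun (i : ι) (c : R) =>
        ∃ S : IPow M (JT Op), IFin S ∧ ∀ x, Fp ψ S x → c ≤ e i x) hA i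
    obtain ⟨S₀, hS₀, h1⟩ := hosc i 1 one_pos
    obtain ⟨x₀, hx₀⟩ := hψ S₀ hS₀
    obtain ⟨p, h2, h3⟩ := hsup (sep M fun c : R => ∃ S : IPow M (JT Op), IFin S ∧
      ∀ x, Fp ψ S x → c ≤ e i x) ⟨e i x₀ - 1, (mem_sep hAi).2 ⟨S₀, hS₀, fun x hx => by
        linarith [h1 x₀ x hx₀ hx]⟩⟩ ⟨e i x₀ + 1, fun c hc => by
        obtain ⟨S, hS, h4⟩ := (mem_sep hAi).1 hc
        obtain ⟨y, hy⟩ := hψ (S ∪ S₀) (hS.union hS₀)
        have h5 := h4 y (hy.mono fun k hk => mem_union.2 (Or.inl hk))
        have h6 := h1 y x₀ (hy.mono fun k hk => mem_union.2 (Or.inr hk)) hx₀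
        linarith⟩
    refine ⟨p, ⟨fun c hc => h2 c ((mem_sep hAi).2 hc), fun b hb => h3 b fun c hc =>
      hb c ((mem_sep hAi).1 hc)⟩, fun p' hp' => ?_⟩
    exact le_antisymm (hp'.2 p fun c hc => h2 c ((mem_sep hAi).2 hc))
      (h3 p' fun c hc => hp'.1 c ((mem_sep hAi).1 hc))
  have hp : IntF M (fun i : ι => the (fun p : R => (∀ c, (∃ S : IPow M (JT Op), IFin S ∧
      ∀ x, Fp ψ S x → c ≤ e i x) → c ≤ p) ∧ ∀ b, (∀ c, (∃ S : IPow M (JT Op), IFin S ∧
        ∀ x, Fp ψ S x → c ≤ e i x) → c ≤ b) → p ≤ b) 0) := by
    have hA2 : Int M (fun q : ι × R => ∀ c, (∃ S : IPow M (JT Op), IFin S ∧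
      ∀ x, Fp ψ S x → c ≤ e q.1 x) → c ≤ q.2) := by (repeat' (first | with_reducible exact IntF.id | with_reducible exact IntF.fst' | with_reducible exact IntF.snd' | with_reducible exact IntF.const _ | with_reducible exact Int.const _ | assumption | with_reducible apply Int.and | with_reducible apply Int.or | with_reducible apply Int.not | with_reducible apply Int.imp | with_reducible apply Int.iff | with_reducible apply Int.ne | with_reducible apply Int.eq | with_reducible apply Int.mem | with_reducible apply Int.subset | with_reducible apply Int.ltN | with_reducible apply Int.leN | with_reducible apply Int.fin | with_reducible apply Int.unique | with_reducible apply Int.all | with_reducible apply Int.ex | with_reducible apply IntF.fst | with_reducible apply IntF.snd | with_reducible apply IntF.app | with_reducible apply IntF.ite | with_reducible apply IntF.sep | with_reducible apply IntF.lam | with_reducible apply IntF.insert | with_reducible apply IntF.singleton | with_reducible apply IntF.union | with_reducible apply IntF.inter | with_reducible apply IntF.sdiff | with_reducible apply IntF.isUnion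 | with_reducible apply IntF.iimage | with_reducible apply IntF.the | with_reducible apply IntF.irec | with_reducible_and_instances apply IntF.add | with_reducible_and_instances apply IntF.mul | with_reducible apply IntF.succ | with_reducible apply IntF.val | with_reducible_and_instances apply Pool.Agent.Helper672.ZFA.Int.le | with_reducible_and_instances apply Pool.Agent.Helper672.ZFA.Int.lt | with_reducible_and_instances apply IntF.sub | with_reducible_and_instances apply IntF.neg | with_reducible_and_instances apply IntF.inv | with_reducible_and_instances apply IntF.div | with_reducible apply IntF.mk | (with_reducible refine Int.comp ?_ ?_; assumption) | (with_reducible refine Int.comp₂ ?_ ?_ ?_; assumption) | (with_reducible refine Int.comp₃ ?_ ?_ ?_ ?_; assumption) | (with_reducible refine IntF.comp ?_ ?_; assumption) | (with_reducible refine IntF.comp₂ ?_ ?_ ?_; assumption) | (with_reducible refine IntF.comp₃ ?_ ?_ ?_ ?_; assumption) | (with_reducible refine Int.comp₄ ?_ ?_ ?_ ?_ ?_; assumption) | with_reducible apply IntF.pair))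
    have hA3 : Int M (fun q : ι × R => ∀ b, (∀ c, (∃ S : IPow M (JT Op), IFin S ∧
        ∀ x, Fp ψ S x → c ≤ e q.1 x) → c ≤ b) → q.2 ≤ b) := by (repeat' (first | with_reducible exact IntF.id | with_reducible exact IntF.fst' | with_reducible exact IntF.snd' | with_reducible exact IntF.const _ | with_reducible exact Int.const _ | assumption | with_reducible apply Int.and | with_reducible apply Int.or | with_reducible apply Int.not | with_reducible apply Int.imp | with_reducible apply Int.iff | with_reducible apply Int.ne | with_reducible apply Int.eq | with_reducible apply Int.mem | with_reducible apply Int.subset | with_reducible apply Int.ltN | with_reducible apply Int.leN | with_reducible apply Int.fin | with_reducible apply Int.unique | with_reducible apply Int.all | with_reducible apply Int.ex | with_reducible apply IntF.fst | with_reducible apply IntF.snd | with_reducible apply IntF.app | with_reducible apply IntF.ite | with_reducible apply IntF.sep | with_reducible apply IntF.lam | with_reducible apply IntF.insert | with_reducible apply IntF.singleton | with_reducible apply IntF.union |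 with_reducible apply IntF.inter | with_reducible apply IntF.sdiff | with_reducible apply IntF.isUnion | with_reducible apply IntF.iimage | with_reducible apply IntF.the | with_reducible apply IntF.irec | with_reducible_and_instances apply IntF.add | with_reducible_and_instances apply IntF.mul | with_reducible apply IntF.succ | with_reducible apply IntF.val | with_reducible_and_instances apply Pool.Agent.Helper672.ZFA.Int.le | with_reducible_and_instances apply Pool.Agent.Helper672.ZFA.Int.lt | with_reducible_and_instances apply IntF.sub | with_reducible_and_instances apply IntF.neg | with_reducible_and_instances apply IntF.inv | with_reducible_and_instances apply IntF.div | with_reducible apply IntF.mk | (with_reducible refine Int.comp ?_ ?_; assumption) | (with_reducible refine Int.comp₂ ?_ ?_ ?_; assumption) | (with_reducible refine Int.comp₃ ?_ ?_ ?_ ?_; assumption) | (with_reducible refine IntF.comp ?_ ?_; assumption) | (with_reducible refine IntF.comp₂ ?_ ?_ ?_; assumption) | (with_reducible refine IntF.comp₃ ?_ ?_ ?_ ?_; assumption) | (with_reducible refine Int.comp₄ ?_ ?_ ?_ ?_ ?_; assumption)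 | with_reducible apply IntF.pair))
    exact IntF.the (Int.and hA2 hA3) (IntF.const _)
  let p : IFun M ι R := ⟨_, hp⟩
  have hps : ∀ i, (∀ c, (∃ S : IPow M (JT Op), IFin S ∧ ∀ x, Fp ψ S x → c ≤ e i x) →
      c ≤ p i) ∧ ∀ b, (∀ c, (∃ S : IPow M (JT Op), IFin S ∧ ∀ x, Fp ψ S x → c ≤ e i x) →
        c ≤ b) → p i ≤ b := fun i => the_spec (hlub i)
  -- approximation
  have happ : ∀ i, ∀ ε : R, 0 < ε → ∃ S : IPow M (JT Op), IFin S ∧
      ∀ x, Fp ψ S x → e i x < p i + ε ∧ p i < e i x + ε := by
    intro i ε hε
    obtain ⟨S, hS, h1⟩ := hosc i (ε / 2) (half_pos hε)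
    refine ⟨S, hS, fun x hx => ⟨?_, ?_⟩⟩
    · have := (hps i).1 (e i x - ε / 2) ⟨S, hS, fun y hy => by linarith [h1 x y hx hy]⟩
      linarith
    · have := (hps i).2 (e i x + ε / 2) fun c hc => by
        obtain ⟨S', hS', h4⟩ := hc
        obtain ⟨y, hy⟩ := hψ (S' ∪ S) (hS'.union hS)
        have h5 := h4 y (hy.mono fun k hk => mem_union.2 (Or.inl hk))
        have h6 := h1 y x (hy.mono fun k hk => mem_union.2 (Or.inr hk)) hx
        linarith
      linarith
  have happ' : ∀ s : IPow M ι, IFin s → ∀ ε : R, 0 < ε → ∃ S : IPow M (JT Op), IFin S ∧
      ∀ i, i ∈ s → ∀ x, Fp ψ S x → e i x < p i + ε ∧ p i < e i x + ε := by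
    intro s hs ε hε
    by_cases hne : ∃ i, i ∈ s
    · obtain ⟨i₀, hi₀⟩ := hne
      obtain ⟨S, hS⟩ := IFin.exists_bound (r := fun (i : ι) (S : IPow M (JT Op)) => IFin S ∧
        ∀ x, Fp ψ S x → e i x < p i + ε ∧ p i < e i x + ε) (by (repeat' (first | with_reducible exact IntF.id | with_reducible exact IntF.fst' | with_reducible exact IntF.snd' | with_reducible exact IntF.const _ | with_reducible exact Int.const _ | assumption | with_reducible apply Int.and | with_reducible apply Int.or | with_reducible apply Int.not | with_reducible apply Int.imp | with_reducible apply Int.iff | with_reducible apply Int.ne | with_reducible apply Int.eq | with_reducible apply Int.mem | with_reducible apply Int.subset | with_reducible apply Int.ltN | with_reducible apply Int.leN | with_reducible apply Int.fin | with_reducible apply Int.unique | with_reducible apply Int.all | with_reducible apply Int.ex | with_reducible apply IntF.fst | with_reducible apply IntF.snd | with_reducible apply IntF.app | with_reducible apply IntF.ite | with_reducible apply IntF.sep | with_reducible apply IntF.lam | with_reducible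 apply IntF.insert | with_reducible apply IntF.singleton | with_reducible apply IntF.union | with_reducible apply IntF.inter | with_reducible apply IntF.sdiff | with_reducible apply IntF.isUnion | with_reducible apply IntF.iimage | with_reducible apply IntF.the | with_reducible apply IntF.irec | with_reducible_and_instances apply IntF.add | with_reducible_and_instances apply IntF.mul | with_reducible apply IntF.succ | with_reducible apply IntF.val | with_reducible_and_instances apply Pool.Agent.Helper672.ZFA.Int.le | with_reducible_and_instances apply Pool.Agent.Helper672.ZFA.Int.lt | with_reducible_and_instances apply IntF.sub | with_reducible_and_instances apply IntF.neg | with_reducible_and_instances apply IntF.inv | with_reducible_and_instances apply IntF.div | with_reducible apply IntF.mk | (with_reducible refine Int.comp ?_ ?_; assumption) | (with_reducible refine Int.comp₂ ?_ ?_ ?_; assumption) | (with_reducible refine Int.comp₃ ?_ ?_ ?_ ?_; assumption) | (with_reducible refine IntF.comp ?_ ?_; assumption) | (with_reducible refine IntF.comp₂ ?_ ?_ ?_; assumption) | (with_reducible refine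 IntF.comp₃ ?_ ?_ ?_ ?_; assumption) | (with_reducible refine Int.comp₄ ?_ ?_ ?_ ?_ ?_; assumption) | with_reducible apply IntF.pair))) (fun S₁ S₂ => by
          by_cases h1 : IFin S₁ <;> by_cases h2 : IFin S₂
          · refine ⟨S₁ ∪ S₂, fun i hi => ⟨h1.union h2, fun x hx => ?_⟩⟩
            rcases hi with hi | hi
            · exact hi.2 x (hx.mono fun k hk => mem_union.2 (Or.inl hk))
            · exact hi.2 x (hx.mono fun k hk => mem_union.2 (Or.inr hk))
          · exact ⟨S₁, fun i hi => hi.elim id fun h => absurd h.1 h2⟩
          · exact ⟨S₂, fun i hi => hi.elim (fun h => absurd h.1 h1) id⟩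
          · exact ⟨S₂, fun i hi => hi.elim (fun h => absurd h.1 h1) id⟩)
        ⟨∅⟩ hs fun i _ => happ i ε hε
      exact ⟨S, (hS i₀ hi₀).1, fun i hi => (hS i hi).2⟩
    · exact ⟨∅, IFin.empty, fun i hi => absurd ⟨i, hi⟩ hne⟩
  obtain ⟨x, hx⟩ := hclosed p fun s hs ε hε => by
    obtain ⟨S, hS, h1⟩ := happ' s hs ε hε
    obtain ⟨y, hy⟩ := hψ S hS
    exact ⟨y, fun i hi => h1 i hi y hy⟩
  refine ⟨x, fun h => ?_⟩
  obtain ⟨U, hU, hxU, h1⟩ := h.2 x
  obtain ⟨s, hs, ε, hε, h2⟩ := hbase U hU x hxU
  obtain ⟨S, hS, h3⟩ := happ' s hs ε hε
  obtain ⟨y, hy⟩ := hψ (S ∪ {h}) (hS.union (IFin.singleton h))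
  have h4 : y ∈ U := h2 y fun i hi => by
    rw [hx i]
    exact h3 i hi y (hy.mono fun k hk => mem_union.2 (Or.inl hk))
  rw [← h1 y h4]
  exact hy h (mem_union.2 (Or.inr (mem_singleton.2 rfl)))

end

end Pool.Agent.Q212.ZC
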