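import Pool.Agent.Q212.ZC3
import Pool.Agent.Q212.ZB3

/-!
# Realcompact and N-compact spaces in a model of set theory: definitions and bridge
-/

set_option maxHeartbeats 1000000
set_option linter.all false

namespace Pool.Agent.Q212.ZTop

open FirstOrder FirstOrder.Language
open Pool.Agent.Helper672.Plain (LSet Mem IsOrdPair El)
open Pool.Agent.H310Cards
open Pool.Agent.H310Top (IsClosed IsTopology)
open Pool.Agent.H635Amen (IsReals)

universe u

section

variable {M : Type u} [LSet.Structure M]

/-- `t` is a Tychonoff topology on `x`: a `T1` topology such that each point is completely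
separated from each closed set that does not contain it. -/
structure IsTychonoff (t x : M) : Prop where
  top : IsTopology t x
  t1 : ∀ y z, Mem y x → Mem z x → y ≠ z → ∃ u, Mem u t ∧ Mem y u ∧ ¬ Mem z u
  reg : ∀ c y s, IsClosed t x c → Mem y x → ¬ Mem y c → (∀ z, Mem z s ↔ z = y) →
    CompletelySeparated t x s c

/-- `s` is the product topology on the set `y` of all functions from `j` to the field of real
numbers `El r`: a set `u` of such functions is open if and only if for every `f` in `u` there are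
a finite set `k` of coordinates and `ε > 0` such that `u` contains all `g` in `y` with
`|g i - f i| < ε` for all `i` in `k`. -/
def IsRealPowerTop (s y j r : M) [Field (El r)] [LinearOrder (El r)] : Prop :=
  ∀ u, Mem u s ↔ (∀ z, Mem z u → Mem z y) ∧ ∀ f, Mem f u → ∃ k, (∀ i, Mem i k → Mem i j) ∧
    IsFinite k ∧ ∃ ε : El r, 0 < ε ∧ ∀ g, Mem g y →
      (∀ (i : M) (a b : El r), Mem i k → App f i a.1 → App g i b.1 → |b - a| < ε) → Mem g u

/-- `e` is a homeomorphism of the space `x` with the topology `t` onto a closed subspace of the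
space `y` with the topology `s`: `e` is injective, the open subsets of `x` are exactly the
preimages of the open subsets of `y`, and the range of `e` is closed. -/
structure IsClosedEmb (e t x s y : M) : Prop where
  inj : IsInj e x y
  top : ∀ u, Mem u t ↔ (∀ z, Mem z u → Mem z x) ∧
    ∃ v, Mem v s ∧ ∀ z a, App e z a → (Mem z u ↔ Mem a v)
  closed : ∃ c, IsClosed s y c ∧ ∀ a, Mem a c ↔ ∃ z, App e z a

/-- The space is realcompact: it is homeomorphic to a closed subspace of a power of the real
line. -/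
def IsRealcompact (t x : M) : Prop :=
  ∃ (r : M) (_ : Field (El r)) (_ : LinearOrder (El r)) (_ : IsStrictOrderedRing (El r)),
    IsReals r ∧ ∃ j y s e, IsFunSet y j r ∧ IsRealPowerTop s y j r ∧ IsClosedEmb e t x s y

/-- The space is `N`-compact: it is homeomorphic to a closed subspace of a power of the discrete
space of the natural numbers. -/
def IsNCompact (t x : M) : Prop :=
  ∃ w j y s e, IsOmega w ∧ IsFunSet y j w ∧ IsPowerTop s y j ∧ IsClosedEmb e t x s y

end

end Pool.Agent.Q212.ZTop

namespace Pool.Agent.Q212.ZC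

open FirstOrder FirstOrder.Language
open Pool.Agent.Helper672.ZFA
open Pool.Agent.H310
open Pool.Agent.H310Cards
open Pool.Agent.H310Top (IsClosed IsTopology)
open Pool.Agent.H635Amen (IsReals)
open Pool.Agent.Q212.ZA
open Pool.Agent.Q212.ZB
open Pool.Agent.Q212.ZTop

universe u u₁ u₂ u₃ u₄

attribute [local instance] Helper672.Plain.toL

section

variable {M : Type u} [Helper672.Plain.LSet.Structure M] [hZ : Helper672.Plain.Zermelo M]

attribute [local instance] Pool.Agent.Q212.ZB.instModelL Pool.Agent.Q212.ZB.instPEl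

theorem code_val {x : M} (z : Helper672.Plain.El x) : code (M := M) z = z.1 := rfl

theorem exists_code' {α : Type u₁} [ITy M α] {a u : M}
    (ha : ∀ z, Mem z a ↔ ∃ x : α, code x = z) (h : ∀ z, Mem z u → Mem z a) :
    ∃ U : IPow M α, code U = u := by
  have hI : Int M (fun x : α => Mem (code x) u) := ⟨u, fun x => Iff.rfl⟩
  refine ⟨⟨_, hI⟩, extM fun z => ?_⟩
  refine (mem_code_pow (s := (⟨_, hI⟩ : IPow M α))).trans ⟨?_, fun hz => ?_⟩
  · rintro ⟨x, hx, rfl⟩
    exact hx
  · obtain ⟨x, rfl⟩ := (ha z).1 (h z hz)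
    exact ⟨x, hz, rfl⟩

/-- The set of functions. -/
theorem isFun_iff {α : Type u₁} {β : Type u₂} [ITy M α] [ITy M β] {j b z : M}
    (hj : ∀ z, Mem z j ↔ ∃ x : α, code x = z) (hb : ∀ z, Mem z b ↔ ∃ x : β, code x = z) :
    IsFun z j b ↔ ∃ φ : IFun M α β, code φ = z := by
  refine ⟨fun h => ?_, ?_⟩
  · obtain ⟨φ, h4, h5⟩ := exists_fun (α := α) (β := β) h
      (fun x => (hj _).2 ⟨x, rfl⟩) fun z => (hb z).1
    refine ⟨⟨φ, h4⟩, extM fun q => ?_⟩
    refine (mem_code_fun (f := (⟨φ, h4⟩ : IFun M _ _))).trans ⟨?_, fun hq => ?_⟩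
    · rintro ⟨x, rfl⟩
      exact app_iff.1 ((h5 x (φ x)).1 rfl)
    · obtain ⟨x, y, h6, h7, h8⟩ := h.1 q hq
      obtain ⟨x, rfl⟩ := (hj x).1 h6
      obtain ⟨y, rfl⟩ := (hb y).1 h7
      have h9 := (h5 x y).2 ⟨q, h8, hq⟩
      refine ⟨x, (ordPair_iff.1 h8).trans ?_⟩
      change _ = op (code x) (code (φ x))
      rw [h9]
  · rintro ⟨φ, rfl⟩
    exact isFun_code φ hj fun x => (hb (code (φ x))).2 ⟨φ x, rfl⟩

theorem isOmega_dom : IsOmega (dom M (INat M)) := by
  intro n
  refine (mem_dom (M := M) (α := INat M)).trans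
    ⟨?_, fun h => ⟨⟨n, fun i hi => h i (ind_iff.1 hi)⟩, rfl⟩⟩
  rintro ⟨a, rfl⟩ i hi
  exact a.prop i (ind_iff.2 hi)

section

variable {t x : M}

/-- Open sets. -/
def OpT (t : M) {x : M} (U : IPow M (Helper672.Plain.El x)) : Prop := Mem (code U) t

theorem int_OpT : Int M (fun U : IPow M (Helper672.Plain.El x) => OpT t U) := ⟨t, fun _ => Iff.rfl⟩

theorem mem_codeU {U : IPow M (Helper672.Plain.El x)} {z : M} :
    Mem z (code (M := M) U) ↔ ∃ a, a ∈ U ∧ a.1 = z := code_mem_code

theorem mem_codeU' {U : IPow M (Helper672.Plain.El x)} {z : Helper672.Plain.El x} :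
    Mem z.1 (code (M := M) U) ↔ z ∈ U :=
  mem_codeU.trans ⟨fun ⟨a, h1, h2⟩ => (Subtype.ext h2 : a = z) ▸ h1, fun h => ⟨z, h, rfl⟩⟩

theorem code_sub {U : IPow M (Helper672.Plain.El x)} : ∀ z, Mem z (code (M := M) U) → Mem z x := by
  intro z hz
  obtain ⟨a, -, rfl⟩ := mem_codeU.1 hz
  exact a.2

/-- Complete separation from an internal continuous function. -/
theorem compSep {r : M} [Field (Helper672.Plain.El r)] [LinearOrder (Helper672.Plain.El r)]
    [IsStrictOrderedRing (Helper672.Plain.El r)] (hr : IsReals r)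
    {φ : Helper672.Plain.El x → Helper672.Plain.El r} (hφ : IntF M φ)
    (hc : Cts (M := M) (OpT t) φ) (h01 : ∀ z, 0 ≤ φ z ∧ φ z ≤ 1) {a b : M}
    (ha : ∀ z : Helper672.Plain.El x, Mem z.1 a → φ z = 0)
    (hb : ∀ z : Helper672.Plain.El x, Mem z.1 b → φ z = 1) : CompletelySeparated t x a b := by
  refine ⟨r, _, _, inferInstance, hr, φ, inModel_of_intF hφ, fun z ε hε => ?_, h01, ha, hb⟩
  obtain ⟨U, hU, hzU, h1⟩ := hc z ε hε
  refine ⟨code U, hU, mem_codeU'.2 hzU, fun w hw => ?_⟩
  obtain ⟨h2, h3⟩ := h1 w (mem_codeU'.1 hw)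
  rw [abs_lt]
  constructor <;> linarith

/-- Clopen sets from complete separation. -/
theorem clopen_of_sep (hszd : IsStronglyZeroDim t x) {a b : M} (ha : ∀ z, Mem z a → Mem z x)
    (hb : ∀ z, Mem z b → Mem z x) (h : CompletelySeparated t x a b) :
    ∃ C : IPow M (Helper672.Plain.El x), OpT t C ∧ OpT t (icompl C) ∧
      (∀ z : Helper672.Plain.El x, Mem z.1 a → z ∈ C) ∧
      ∀ z : Helper672.Plain.El x, Mem z.1 b → ¬ z ∈ C := by
  obtain ⟨c, hc, ⟨hcx, u, hu, hu'⟩, h1, h2⟩ := hszd a b ha hb h
  obtain ⟨C, rfl, hC⟩ := pl_code hcx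
  refine ⟨C, hc, ?_, fun z hz => mem_codeU'.1 (h1 _ hz), fun z hz hzC =>
    h2 _ (mem_codeU'.2 hzC) hz⟩
  have : code (M := M) (icompl C) = u := extM fun z => by
    refine mem_codeU.trans ⟨?_, fun hz => ?_⟩
    · rintro ⟨z, hz, rfl⟩
      exact (hu' _).2 ⟨z.2, fun h => mem_icompl.1 hz (mem_codeU'.1 h)⟩
    · obtain ⟨h3, h4⟩ := (hu' z).1 hz
      exact ⟨⟨z, h3⟩, mem_icompl.2 fun h => h4 (mem_codeU'.2 h), rfl⟩
  rw [OpT, this]
  exact hu

theorem szd_of (hszd : IsStronglyZeroDim t x) {r : M} [Field (Helper672.Plain.El r)]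
    [LinearOrder (Helper672.Plain.El r)]
    [IsStrictOrderedRing (Helper672.Plain.El r)] (hr : IsReals r) :
    Szd (M := M) (Helper672.Plain.El r) (OpT t (x := x)) := by
  intro φ hφ hc h01
  have h0 : Int M (fun z => φ z = 0) := Int.eq hφ (IntF.const _)
  have h1 : Int M (fun z => φ z = 1) := Int.eq hφ (IntF.const _)
  have key : ∀ (P : Helper672.Plain.El x → Prop) (hP : Int M P) (z : Helper672.Plain.El x),
      Mem z.1 hP.small.elt ↔ P z := by
    intro P hP z
    rw [hP.small.mem]
    exact ⟨fun ⟨w, h1, h2⟩ => (Subtype.ext h2 : w = z) ▸ h1, fun h => ⟨z, h, rfl⟩⟩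
  have key' : ∀ (P : Helper672.Plain.El x → Prop) (hP : Int M P) (z : M),
      Mem z hP.small.elt → Mem z x := by
    intro P hP z hz
    obtain ⟨w, -, rfl⟩ := hP.small.mem.1 hz
    exact w.2
  obtain ⟨C, hC, hC', h2, h3⟩ := clopen_of_sep hszd (key' _ h0) (key' _ h1)
    (compSep hr hφ hc h01 (fun z hz => (key _ h0 z).1 hz) fun z hz => (key _ h1 z).1 hz)
  exact ⟨C, hC, hC', fun z hz => h2 z ((key _ h0 z).2 hz), fun z hz => h3 z ((key _ h1 z).2 hz)⟩

/-- Locally constant functions that detect open sets. -/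
theorem exists_loc (ht : IsTychonoff t x) (hszd : IsStronglyZeroDim t x)
    {U : IPow M (Helper672.Plain.El x)} (hU : OpT t U) {z : Helper672.Plain.El x} (hz : z ∈ U) :
    ∃ h : IFun M (Helper672.Plain.El x) (INat M), Loc (OpT t) h ∧ ∀ y, h y = h z → y ∈ U := by
  classical
  have hcl : IsClosed t x (code (M := M) (icompl U)) := by
    refine ⟨code_sub, code U, hU, fun y => ⟨fun hy => ⟨code_sub y hy, fun h => ?_⟩, fun hy => ?_⟩⟩
    · obtain ⟨y, hy', rfl⟩ := mem_codeU.1 hy
      exact mem_icompl.1 (mem_codeU'.1 h) hy'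
    · obtain ⟨h1, h2⟩ := hy
      by_contra h3
      exact h2 ((mem_codeU' (z := ⟨y, h1⟩)).2 (mem_icompl.2 fun h => h3
        ((mem_codeU' (z := ⟨y, h1⟩)).2 h)))
  have hs : ∀ w, Mem w (code (M := M) ({z} : IPow M (Helper672.Plain.El x))) ↔ w = z.1 := by
    intro w
    refine mem_codeU.trans ⟨?_, fun h => ⟨z, mem_singleton.2 rfl, h.symm⟩⟩
    rintro ⟨a, ha, rfl⟩
    rw [mem_singleton.1 ha]
  obtain ⟨C, hC, hC', h1, h2⟩ := clopen_of_sep hszd code_sub code_sub
    (ht.reg _ z.1 _ hcl z.2 (fun h => mem_icompl.1 (mem_codeU'.1 h) hz) hs)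
  have hzC : z ∈ C := h1 z ((hs _).2 rfl)
  have hf : IntF M (fun y : Helper672.Plain.El x => if y ∈ C then (0 : INat M) else INat.succ 0) := by
    (repeat' (first | with_reducible exact IntF.id | with_reducible exact IntF.fst' | with_reducible exact IntF.snd' | with_reducible exact IntF.const _ | with_reducible exact Int.const _ | assumption | with_reducible apply Int.and | with_reducible apply Int.or | with_reducible apply Int.not | with_reducible apply Int.imp | with_reducible apply Int.iff | with_reducible apply Int.ne | with_reducible apply Int.eq | with_reducible apply Int.mem | with_reducible apply Int.subset | with_reducible apply Int.ltN | with_reducible apply Int.leN | with_reducible apply Int.fin | with_reducible apply Int.unique | with_reducible apply Int.all | with_reducible apply Int.ex | with_reducible apply IntF.fst | with_reducible apply IntF.snd | with_reducible apply IntF.app | with_reducible apply IntF.ite | with_reducible apply IntF.sep | with_reducible apply IntF.lam | with_reducible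 apply IntF.insert | with_reducible apply IntF.singleton | with_reducible apply IntF.union | with_reducible apply IntF.inter | with_reducible apply IntF.sdiff | with_reducible apply IntF.isUnion | with_reducible apply IntF.iimage | with_reducible apply IntF.the | with_reducible apply IntF.irec | with_reducible_and_instances apply IntF.add | with_reducible_and_instances apply IntF.mul | with_reducible apply IntF.succ | with_reducible apply IntF.val | (with_reducible refine Int.comp ?_ ?_; assumption) | (with_reducible refine Int.comp₂ ?_ ?_ ?_; assumption) | (with_reducible refine Int.comp₃ ?_ ?_ ?_ ?_; assumption) | (with_reducible refine IntF.comp ?_ ?_; assumption) | (with_reducible refine IntF.comp₂ ?_ ?_ ?_; assumption) | (with_reducible refine IntF.comp₃ ?_ ?_ ?_ ?_; assumption) | with_reducible apply IntF.pair))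
  refine ⟨⟨_, hf⟩, fun y => ?_, fun y hy => ?_⟩
  · by_cases hy : y ∈ C
    · refine ⟨C, hC, hy, fun w hw => ?_⟩
      change (if w ∈ C then (0 : INat M) else INat.succ 0) = if y ∈ C then 0 else INat.succ 0
      rw [if_pos hw, if_pos hy]
    · refine ⟨icompl C, hC', mem_icompl.2 hy, fun w hw => ?_⟩
      change (if w ∈ C then (0 : INat M) else INat.succ 0) = if y ∈ C then 0 else INat.succ 0
      rw [if_neg (mem_icompl.1 hw), if_neg hy]
  · change (if y ∈ C then (0 : INat M) else INat.succ 0) = if z ∈ C then 0 else INat.succ 0 at hy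
    rw [if_pos hzC] at hy
    by_contra hyU
    have hyC : ¬ y ∈ C := h2 y (mem_codeU'.2 (mem_icompl.2 hyU))
    rw [if_neg hyC] at hy
    exact INat.succ_ne_zero _ hy

end

end

end Pool.Agent.Q212.ZC
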