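import Pool.Agent.Q212.ZC4

/-!
# Strongly zero-dimensional realcompact spaces are N-compact
-/

set_option maxHeartbeats 1000000
set_option linter.all false

namespace Pool.Agent.Q212.ZC

open FirstOrder FirstOrder.Language
open Pool.Agent.Helper672.ZFA
open Pool.Agent.H310
open Pool.Agent.H310Cards
open Pool.Agent.H310Top (IsClosed IsTopology)
open Pool.Agent.H635Amen (IsReals)
open Pool.Agent.Q212.ZA
open Pool.Agent.Q212.ZB
open Pool.Agent.Q212.ZTop

universe u u₁ u₂ u₃ u₄

attribute [local instance] Helper672.Plain.toL

section

variable {M : Type u} [Helper672.Plain.LSet.Structure M] [hZ : Helper672.Plain.Zermelo M]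

attribute [local instance] Pool.Agent.Q212.ZB.instModelL Pool.Agent.Q212.ZB.instPEl

variable {t x : M}

theorem mcI {α : Type u₁} [ITy M α] {s : IPow M α} {a : α} :
    Helper672.Plain.Mem (code (M := M) a) (code (M := M) s) ↔ a ∈ s :=
  mem_code_iff (M := M) (s := s) (a := a)

theorem opT_inter (ht : IsTopology t x) {U V : IPow M (Helper672.Plain.El x)} (hU : OpT t U)
    (hV : OpT t V) : OpT t (U ∩ V) := by
  refine ht.inter _ _ _ hU hV fun z => ⟨fun hz => ?_, fun hz => ?_⟩
  · obtain ⟨a, ha, rfl⟩ := mem_codeU.1 hz
    rw [mem_inter] at ha
    exact ⟨mem_codeU'.2 ha.1, mem_codeU'.2 ha.2⟩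
  · obtain ⟨h1, h2⟩ := hz
    have h3 := code_sub z h1
    exact (mem_codeU' (z := ⟨z, h3⟩)).2 (mem_inter.2 ⟨(mem_codeU' (z := ⟨z, h3⟩)).1 h1,
      (mem_codeU' (z := ⟨z, h3⟩)).1 h2⟩)

theorem opT_univ (ht : IsTopology t x) : OpT t (iuniv M (Helper672.Plain.El x)) := by
  have : code (M := M) (iuniv M (Helper672.Plain.El x)) = x := extM fun z => by
    refine mem_codeU.trans ⟨?_, fun hz => ⟨⟨z, hz⟩, mem_iuniv.2 trivial, rfl⟩⟩
    rintro ⟨a, -, rfl⟩
    exact a.2
  rw [OpT, this]
  exact ht.univ

/-- Local characterization of open sets. -/
theorem opT_of_local (ht : IsTopology t x) {U : IPow M (Helper672.Plain.El x)}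
    (h : ∀ z, z ∈ U → ∃ W, OpT t W ∧ z ∈ W ∧ W ⊆ U) : OpT t U := by
  have hI : Int M (fun W : IPow M (Helper672.Plain.El x) => OpT t W ∧ W ⊆ U) := by
    have hO := int_OpT (t := t) (x := x)
    (repeat' (first | with_reducible exact IntF.id | with_reducible exact IntF.fst' | with_reducible exact IntF.snd' | with_reducible exact IntF.const _ | with_reducible exact Int.const _ | assumption | with_reducible apply Int.and | with_reducible apply Int.or | with_reducible apply Int.not | with_reducible apply Int.imp | with_reducible apply Int.iff | with_reducible apply Int.ne | with_reducible apply Int.eq | with_reducible apply Int.mem | with_reducible apply Int.subset | with_reducible apply Int.ltN | with_reducible apply Int.leN | with_reducible apply Int.fin | with_reducible apply Int.unique | with_reducible apply Int.all | with_reducible apply Int.ex | with_reducible apply IntF.fst | with_reducible apply IntF.snd | with_reducible apply IntF.app | with_reducible apply IntF.ite | with_reducible apply IntF.sep | with_reducible apply IntF.lam | with_reducible apply IntF.insert | with_reducible apply IntF.singleton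 | with_reducible apply IntF.union | with_reducible apply IntF.inter | with_reducible apply IntF.sdiff | with_reducible apply IntF.isUnion | with_reducible apply IntF.iimage | with_reducible apply IntF.the | with_reducible apply IntF.irec | with_reducible_and_instances apply IntF.add | with_reducible_and_instances apply IntF.mul | with_reducible apply IntF.succ | with_reducible apply IntF.val | (with_reducible refine Int.comp ?_ ?_; assumption) | (with_reducible refine Int.comp₂ ?_ ?_ ?_; assumption) | (with_reducible refine Int.comp₃ ?_ ?_ ?_ ?_; assumption) | (with_reducible refine IntF.comp ?_ ?_; assumption) | (with_reducible refine IntF.comp₂ ?_ ?_ ?_; assumption) | (with_reducible refine IntF.comp₃ ?_ ?_ ?_ ?_; assumption) | with_reducible apply IntF.pair))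
  refine ht.union (code (M := M) (sep M fun W : IPow M (Helper672.Plain.El x) =>
    OpT t W ∧ W ⊆ U)) _ (fun w hw => ?_) fun z => ⟨fun hz => ?_, ?_⟩
  · obtain ⟨W, hW, rfl⟩ := code_mem_code.1 hw
    exact ((mem_sep hI).1 hW).1
  · obtain ⟨a, ha, rfl⟩ := mem_codeU.1 hz
    obtain ⟨W, hW, haW, hWU⟩ := h a ha
    exact ⟨code W, code_mem_code.2 ⟨W, (mem_sep hI).2 ⟨hW, hWU⟩, rfl⟩, mem_codeU'.2 haW⟩
  · rintro ⟨w, hw, hz⟩
    obtain ⟨W, hW, rfl⟩ := code_mem_code.1 hw
    obtain ⟨a, ha, rfl⟩ := mem_codeU.1 hz
    exact mem_codeU'.2 (((mem_sep hI).1 hW).2 a ha)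

/-- The internal form of realcompactness. -/
theorem internal_realcompact (ht : IsTopology t x) {r : M} [Field (Helper672.Plain.El r)]
    [LinearOrder (Helper672.Plain.El r)] [IsStrictOrderedRing (Helper672.Plain.El r)]
    (hr : IsReals r) {j y s e : M} (hy : IsFunSet y j r) (hs : IsRealPowerTop s y j r)
    (he : IsClosedEmb e t x s y) :
    ∃ E : Helper672.Plain.El j → Helper672.Plain.El x → Helper672.Plain.El r,
      IntF M (fun q : Helper672.Plain.El j × Helper672.Plain.El x => E q.1 q.2) ∧
      (∀ i, Cts (M := M) (OpT t) (E i)) ∧
      (∀ U, OpT t U → ∀ z, z ∈ U → ∃ s : IPow M (Helper672.Plain.El j), IFin s ∧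
        ∃ ε : Helper672.Plain.El r, 0 < ε ∧
        ∀ y, (∀ i, i ∈ s → E i y < E i z + ε ∧ E i z < E i y + ε) → y ∈ U) ∧
      ∀ p : IFun M (Helper672.Plain.El j) (Helper672.Plain.El r),
        (∀ s : IPow M (Helper672.Plain.El j), IFin s → ∀ ε : Helper672.Plain.El r, 0 < ε →
          ∃ z, ∀ i, i ∈ s → E i z < p i + ε ∧ p i < E i z + ε) → ∃ z, ∀ i, E i z = p i := by
  letI := reals_add hr
  letI := reals_mul hr
  letI := reals_le hr
  have hY := fun z : M => mem_funSet (z := z) hy
  obtain ⟨φ, hφ, hφ'⟩ := exists_fun (α := Helper672.Plain.El x)
    (β := IFun M (Helper672.Plain.El j) (Helper672.Plain.El r)) he.inj.1 (fun z => z.2)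
    fun z hz => (hY z).1 hz
  have hc : ∀ z, App e z.1 (code (φ z)) := fun z => (hφ' z (φ z)).1 rfl
  have hu : ∀ z a, App e z a → ∃ h : Mem z x, a = code (φ ⟨z, h⟩) := by
    intro z a hza
    obtain ⟨q, h1, h2⟩ := hza
    obtain ⟨z', a', h3, h4, h5⟩ := he.inj.1.1 q h2
    obtain ⟨rfl, rfl⟩ := op_inj ((ordPair_iff.1 h1).symm.trans (ordPair_iff.1 h5))
    obtain ⟨g, rfl⟩ := (hY a).1 h4
    have h6 := (hφ' ⟨z, h3⟩ g).2 ⟨q, h1, h2⟩
    exact ⟨h3, by rw [h6]⟩
  have hyc : ∀ g : IFun M (Helper672.Plain.El j) (Helper672.Plain.El r), Mem (code g) y :=
    fun g => (hY _).2 ⟨g, rfl⟩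
  refine ⟨fun i z => φ z i, by (repeat' (first | with_reducible exact IntF.id | with_reducible exact IntF.fst' | with_reducible exact IntF.snd' | with_reducible exact IntF.const _ | with_reducible exact Int.const _ | assumption | with_reducible apply Int.and | with_reducible apply Int.or | with_reducible apply Int.not | with_reducible apply Int.imp | with_reducible apply Int.iff | with_reducible apply Int.ne | with_reducible apply Int.eq | with_reducible apply Int.mem | with_reducible apply Int.subset | with_reducible apply Int.ltN | with_reducible apply Int.leN | with_reducible apply Int.fin | with_reducible apply Int.unique | with_reducible apply Int.all | with_reducible apply Int.ex | with_reducible apply IntF.fst | with_reducible apply IntF.snd | with_reducible apply IntF.app | with_reducible apply IntF.ite | with_reducible apply IntF.sep | with_reducible apply IntF.lam | with_reducible apply IntF.insert | with_reducible apply IntF.singleton | with_reducible apply IntF.union | with_reducible apply IntF.inter | with_reducible apply IntF.sdiff | with_reducible apply IntF.isUnion | with_reducible apply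 IntF.iimage | with_reducible apply IntF.the | with_reducible apply IntF.irec | with_reducible_and_instances apply IntF.add | with_reducible_and_instances apply IntF.mul | with_reducible apply IntF.succ | with_reducible apply IntF.val | (with_reducible refine Int.comp ?_ ?_; assumption) | (with_reducible refine Int.comp₂ ?_ ?_ ?_; assumption) | (with_reducible refine Int.comp₃ ?_ ?_ ?_ ?_; assumption) | (with_reducible refine IntF.comp ?_ ?_; assumption) | (with_reducible refine IntF.comp₂ ?_ ?_ ?_; assumption) | (with_reducible refine IntF.comp₃ ?_ ?_ ?_ ?_; assumption) | with_reducible apply IntF.pair)), fun i z ε hε => ?_, fun U hU z hz => ?_, fun p hp => ?_⟩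
  · -- continuity
    have hV : Int M (fun g : IFun M (Helper672.Plain.El j) (Helper672.Plain.El r) =>
        g i < φ z i + ε ∧ φ z i < g i + ε) := by (repeat' (first | with_reducible exact IntF.id | with_reducible exact IntF.fst' | with_reducible exact IntF.snd' | with_reducible exact IntF.const _ | with_reducible exact Int.const _ | assumption | with_reducible apply Int.and | with_reducible apply Int.or | with_reducible apply Int.not | with_reducible apply Int.imp | with_reducible apply Int.iff | with_reducible apply Int.ne | with_reducible apply Int.eq | with_reducible apply Int.mem | with_reducible apply Int.subset | with_reducible apply Int.ltN | with_reducible apply Int.leN | with_reducible apply Int.fin | with_reducible apply Int.unique | with_reducible apply Int.all | with_reducible apply Int.ex | with_reducible apply IntF.fst | with_reducible apply IntF.snd | with_reducible apply IntF.app | with_reducible apply IntF.ite | with_reducible apply IntF.sep | with_reducible apply IntF.lam | with_reducible apply IntF.insert | with_reducible apply IntF.singleton | with_reducible apply IntF.union | with_reducible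 apply IntF.inter | with_reducible apply IntF.sdiff | with_reducible apply IntF.isUnion | with_reducible apply IntF.iimage | with_reducible apply IntF.the | with_reducible apply IntF.irec | with_reducible_and_instances apply IntF.add | with_reducible_and_instances apply IntF.mul | with_reducible apply IntF.succ | with_reducible apply IntF.val | with_reducible_and_instances apply Pool.Agent.Helper672.ZFA.Int.le | with_reducible_and_instances apply Pool.Agent.Helper672.ZFA.Int.lt | with_reducible_and_instances apply IntF.sub | with_reducible_and_instances apply IntF.neg | with_reducible_and_instances apply IntF.inv | with_reducible_and_instances apply IntF.div | with_reducible apply IntF.mk | (with_reducible refine Int.comp ?_ ?_; assumption) | (with_reducible refine Int.comp₂ ?_ ?_ ?_; assumption) | (with_reducible refine Int.comp₃ ?_ ?_ ?_ ?_; assumption) | (with_reducible refine IntF.comp ?_ ?_; assumption) | (with_reducible refine IntF.comp₂ ?_ ?_ ?_; assumption) | (with_reducible refine IntF.comp₃ ?_ ?_ ?_ ?_; assumption) | (with_reducible refine Int.comp₄ ?_ ?_ ?_ ?_ ?_; assumption) | with_reducible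 apply IntF.pair))
    have hV' : ∀ g : IFun M (Helper672.Plain.El j) (Helper672.Plain.El r),
        Mem (code g) hV.small.elt ↔ g i < φ z i + ε ∧ φ z i < g i + ε := by
      intro g
      rw [hV.small.mem]
      exact ⟨fun ⟨w, h1, h2⟩ => (ITy.inj (M := M) h2 : w = g) ▸ h1, fun h => ⟨g, h, rfl⟩⟩
    have hVs : Mem hV.small.elt s := by
      refine (hs _).2 ⟨fun f hf => ?_, fun f hf => ?_⟩
      · obtain ⟨g, -, rfl⟩ := hV.small.mem.1 hf
        exact hyc g
      · obtain ⟨g, ⟨h1, h2⟩, rfl⟩ := hV.small.mem.1 hf
        refine ⟨code (M := M) ({i} : IPow M (Helper672.Plain.El j)), code_sub,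
          isFinite_code.2 (IFin.singleton i),
          min (φ z i + ε - g i) (g i + ε - φ z i), lt_min (by linarith) (by linarith),
          fun f' hf' h3 => ?_⟩
        obtain ⟨g', rfl⟩ := (hY f').1 hf'
        have h4 := h3 i.1 (g i) (g' i) (mem_codeU'.2 (mem_singleton.2 rfl))
          (app_code'.2 rfl) (app_code'.2 rfl)
        rw [abs_lt] at h4
        have h5 := min_le_left (φ z i + ε - g i) (g i + ε - φ z i)
        have h6 := min_le_right (φ z i + ε - g i) (g i + ε - φ z i)
        refine (hV' g').2 ⟨?_, ?_⟩
        · linarith [h4.1, h4.2]
        · linarith [h4.1, h4.2]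
    have hW : Int M (fun w : Helper672.Plain.El x => φ w i < φ z i + ε ∧ φ z i < φ w i + ε) := by
      (repeat' (first | with_reducible exact IntF.id | with_reducible exact IntF.fst' | with_reducible exact IntF.snd' | with_reducible exact IntF.const _ | with_reducible exact Int.const _ | assumption | with_reducible apply Int.and | with_reducible apply Int.or | with_reducible apply Int.not | with_reducible apply Int.imp | with_reducible apply Int.iff | with_reducible apply Int.ne | with_reducible apply Int.eq | with_reducible apply Int.mem | with_reducible apply Int.subset | with_reducible apply Int.ltN | with_reducible apply Int.leN | with_reducible apply Int.fin | with_reducible apply Int.unique | with_reducible apply Int.all | with_reducible apply Int.ex | with_reducible apply IntF.fst | with_reducible apply IntF.snd | with_reducible apply IntF.app | with_reducible apply IntF.ite | with_reducible apply IntF.sep | with_reducible apply IntF.lam | with_reducible apply IntF.insert | with_reducible apply IntF.singleton | with_reducible apply IntF.union | with_reducible apply IntF.inter | with_reducible apply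 IntF.sdiff | with_reducible apply IntF.isUnion | with_reducible apply IntF.iimage | with_reducible apply IntF.the | with_reducible apply IntF.irec | with_reducible_and_instances apply IntF.add | with_reducible_and_instances apply IntF.mul | with_reducible apply IntF.succ | with_reducible apply IntF.val | with_reducible_and_instances apply Pool.Agent.Helper672.ZFA.Int.le | with_reducible_and_instances apply Pool.Agent.Helper672.ZFA.Int.lt | with_reducible_and_instances apply IntF.sub | with_reducible_and_instances apply IntF.neg | with_reducible_and_instances apply IntF.inv | with_reducible_and_instances apply IntF.div | with_reducible apply IntF.mk | (with_reducible refine Int.comp ?_ ?_; assumption) | (with_reducible refine Int.comp₂ ?_ ?_ ?_; assumption) | (with_reducible refine Int.comp₃ ?_ ?_ ?_ ?_; assumption) | (with_reducible refine IntF.comp ?_ ?_; assumption) | (with_reducible refine IntF.comp₂ ?_ ?_ ?_; assumption) | (with_reducible refine IntF.comp₃ ?_ ?_ ?_ ?_; assumption) | (with_reducible refine Int.comp₄ ?_ ?_ ?_ ?_ ?_; assumption) | with_reducible apply IntF.pair))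
    refine ⟨sep M fun w : Helper672.Plain.El x => φ w i < φ z i + ε ∧ φ z i < φ w i + ε, ?_,
      (mem_sep hW).2 ⟨by linarith, by linarith⟩, fun w hw => (mem_sep hW).1 hw⟩
    refine (he.top _).2 ⟨code_sub, _, hVs, fun w a hwa => ?_⟩
    obtain ⟨h1, rfl⟩ := hu w a hwa
    exact ((mem_codeU' (z := ⟨w, h1⟩)).trans (mem_sep hW)).trans (hV' _).symm
  · -- the base
    obtain ⟨-, v, hv, h1⟩ := (he.top _).1 hU
    have h2 : Mem (code (φ z)) v := (h1 _ _ (hc z)).1 (mem_codeU'.2 hz)
    obtain ⟨k, hk, hkf, ε, hε, h3⟩ := ((hs v).1 hv).2 _ h2
    obtain ⟨K, rfl, hK⟩ := pl_code hk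
    refine ⟨K, isFinite_code.1 hkf, ε, hε, fun w hw => ?_⟩
    refine mem_codeU'.1 ((h1 _ _ (hc w)).2 (h3 _ (hyc (φ w)) fun i a b hi ha hb => ?_))
    obtain ⟨i, hi', rfl⟩ := mem_codeU.1 hi
    have ha' : φ z i = a := app_code'.1 ha
    have hb' : φ w i = b := app_code'.1 hb
    obtain ⟨h4, h5⟩ := hw i hi'
    rw [← ha', ← hb', abs_lt]
    constructor <;> linarith
  · -- closedness
    obtain ⟨c, ⟨hcy, u, hus, hu'⟩, hc'⟩ := he.closed
    by_cases hpc : Mem (code p) c
    · obtain ⟨z, hz⟩ := (hc' _).1 hpc
      obtain ⟨h1, h2⟩ := hu z _ hz
      refine ⟨⟨z, h1⟩, fun i => ?_⟩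
      have h3 : p = φ ⟨z, h1⟩ := ITy.inj h2
      rw [h3]
    · have h1 : Mem (code p) u := (hu' _).2 ⟨hyc p, hpc⟩
      obtain ⟨k, hk, hkf, ε, hε, h3⟩ := ((hs u).1 hus).2 _ h1
      obtain ⟨K, rfl, hK⟩ := pl_code hk
      obtain ⟨z, hz⟩ := hp K (isFinite_code.1 hkf) ε hε
      have h4 : Mem (code (φ z)) u := h3 _ (hyc (φ z)) fun i a b hi ha hb => by
        obtain ⟨i, hi', rfl⟩ := mem_codeU.1 hi
        have ha' : p i = a := app_code'.1 ha
        have hb' : φ z i = b := app_code'.1 hb
        obtain ⟨h4, h5⟩ := hz i hi'
        rw [← ha', ← hb', abs_lt]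
        constructor <;> linarith
      exact absurd ((hc' _).2 ⟨z.1, hc z⟩) ((hu' _).1 h4).2

instance instFactLoc : Fact (Int M (fun h : IFun M (Helper672.Plain.El x) (INat M) =>
    Loc (OpT t) h)) := ⟨int_Loc int_OpT⟩

/-- The index set. -/
abbrev JX (t x : M) : Type _ := {h : IFun M (Helper672.Plain.El x) (INat M) // Loc (OpT t) h}

/-- The power. -/
abbrev YX (t x : M) : Type _ := IFun M (JX t x) (INat M)

theorem int_ev : IntF M (fun q : Helper672.Plain.El x × JX t x => q.2.1 q.1) := by
  (repeat' (first | with_reducible exact IntF.id | with_reducible exact IntF.fst' | with_reducible exact IntF.snd' | with_reducible exact IntF.const _ | with_reducible exact Int.const _ | assumption | with_reducible apply Int.and | with_reducible apply Int.or | with_reducible apply Int.not | with_reducible apply Int.imp | with_reducible apply Int.iff | with_reducible apply Int.ne | with_reducible apply Int.eq | with_reducible apply Int.mem | with_reducible apply Int.subset | with_reducible apply Int.ltN | with_reducible apply Int.leN | with_reducible apply Int.fin | with_reducible apply Int.unique | with_reducible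 apply Int.all | with_reducible apply Int.ex | with_reducible apply IntF.fst | with_reducible apply IntF.snd | with_reducible apply IntF.app | with_reducible apply IntF.ite | with_reducible apply IntF.sep | with_reducible apply IntF.lam | with_reducible apply IntF.insert | with_reducible apply IntF.singleton | with_reducible apply IntF.union | with_reducible apply IntF.inter | with_reducible apply IntF.sdiff | with_reducible apply IntF.isUnion | with_reducible apply IntF.iimage | with_reducible apply IntF.the | with_reducible apply IntF.irec | with_reducible_and_instances apply IntF.add | with_reducible_and_instances apply IntF.mul | with_reducible apply IntF.succ | with_reducible apply IntF.val | (with_reducible refine Int.comp ?_ ?_; assumption) | (with_reducible refine Int.comp₂ ?_ ?_ ?_; assumption) | (with_reducible refine Int.comp₃ ?_ ?_ ?_ ?_; assumption) | (with_reducible refine IntF.comp ?_ ?_; assumption) | (with_reducible refine IntF.comp₂ ?_ ?_ ?_; assumption) | (with_reducible refine IntF.comp₃ ?_ ?_ ?_ ?_; assumption) | with_reducible apply IntF.pair))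

theorem int_evx (z : Helper672.Plain.El x) : IntF M (fun h : JX t x => h.1 z) := by
  (repeat' (first | with_reducible exact IntF.id | with_reducible exact IntF.fst' | with_reducible exact IntF.snd' | with_reducible exact IntF.const _ | with_reducible exact Int.const _ | assumption | with_reducible apply Int.and | with_reducible apply Int.or | with_reducible apply Int.not | with_reducible apply Int.imp | with_reducible apply Int.iff | with_reducible apply Int.ne | with_reducible apply Int.eq | with_reducible apply Int.mem | with_reducible apply Int.subset | with_reducible apply Int.ltN | with_reducible apply Int.leN | with_reducible apply Int.fin | with_reducible apply Int.unique | with_reducible apply Int.all | with_reducible apply Int.ex | with_reducible apply IntF.fst | with_reducible apply IntF.snd | with_reducible apply IntF.app | with_reducible apply IntF.ite | with_reducible apply IntF.sep | with_reducible apply IntF.lam | with_reducible apply IntF.insert | with_reducible apply IntF.singleton | with_reducible apply IntF.union | with_reducible apply IntF.inter | with_reducible apply IntF.sdiff |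 with_reducible apply IntF.isUnion | with_reducible apply IntF.iimage | with_reducible apply IntF.the | with_reducible apply IntF.irec | with_reducible_and_instances apply IntF.add | with_reducible_and_instances apply IntF.mul | with_reducible apply IntF.succ | with_reducible apply IntF.val | (with_reducible refine Int.comp ?_ ?_; assumption) | (with_reducible refine Int.comp₂ ?_ ?_ ?_; assumption) | (with_reducible refine Int.comp₃ ?_ ?_ ?_ ?_; assumption) | (with_reducible refine IntF.comp ?_ ?_; assumption) | (with_reducible refine IntF.comp₂ ?_ ?_ ?_; assumption) | (with_reducible refine IntF.comp₃ ?_ ?_ ?_ ?_; assumption) | with_reducible apply IntF.pair))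

/-- The evaluation. -/
noncomputable def ev (t : M) {x : M} (z : Helper672.Plain.El x) : YX t x :=
  ⟨fun h => h.1 z, int_evx z⟩

theorem int_ev' : IntF M (ev t : Helper672.Plain.El x → YX t x) := IntF.of_app int_ev

/-- The open subsets of the power. -/
def OpY (U : IPow M (YX t x)) : Prop :=
  ∀ f, f ∈ U → ∃ S : IPow M (JX t x), IFin S ∧ ∀ g : YX t x, (∀ h, h ∈ S → f h = g h) → g ∈ U

theorem int_OpY : Int M (fun U : IPow M (YX t x) => OpY U) := by
  unfold OpY
  (repeat' (first | with_reducible exact IntF.id | with_reducible exact IntF.fst' | with_reducible exact IntF.snd' | with_reducible exact IntF.const _ | with_reducible exact Int.const _ | assumption | with_reducible apply Int.and | with_reducible apply Int.or | with_reducible apply Int.not | with_reducible apply Int.imp | with_reducible apply Int.iff | with_reducible apply Int.ne | with_reducible apply Int.eq | with_reducible apply Int.mem | with_reducible apply Int.subset | with_reducible apply Int.ltN | with_reducible apply Int.leN | with_reducible apply Int.fin | with_reducible apply Int.unique | with_reducible apply Int.all | with_reducible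 apply Int.ex | with_reducible apply IntF.fst | with_reducible apply IntF.snd | with_reducible apply IntF.app | with_reducible apply IntF.ite | with_reducible apply IntF.sep | with_reducible apply IntF.lam | with_reducible apply IntF.insert | with_reducible apply IntF.singleton | with_reducible apply IntF.union | with_reducible apply IntF.inter | with_reducible apply IntF.sdiff | with_reducible apply IntF.isUnion | with_reducible apply IntF.iimage | with_reducible apply IntF.the | with_reducible apply IntF.irec | with_reducible_and_instances apply IntF.add | with_reducible_and_instances apply IntF.mul | with_reducible apply IntF.succ | with_reducible apply IntF.val | (with_reducible refine Int.comp ?_ ?_; assumption) | (with_reducible refine Int.comp₂ ?_ ?_ ?_; assumption) | (with_reducible refine Int.comp₃ ?_ ?_ ?_ ?_; assumption) | (with_reducible refine IntF.comp ?_ ?_; assumption) | (with_reducible refine IntF.comp₂ ?_ ?_ ?_; assumption) | (with_reducible refine IntF.comp₃ ?_ ?_ ?_ ?_; assumption) | with_reducible apply IntF.pair))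

theorem result_aux (ht : IsTychonoff t x) (hszd : IsStronglyZeroDim t x)
    (hrc : IsRealcompact t x) : IsNCompact t x := by
  classical
  obtain ⟨r, _, _, _, hr, j, y, s, e, hy, hs, he⟩ := hrc
  letI := reals_add hr
  letI := reals_mul hr
  letI := reals_le hr
  obtain ⟨E, hE, hEc, hbase, hclosed⟩ := internal_realcompact ht.top hr hy hs he
  have hO : Int M (fun U : IPow M (Helper672.Plain.El x) => OpT t U) := int_OpT
  have hsup : Cpl M (Helper672.Plain.El r) := by
    intro S hne hbd
    obtain ⟨a, ha⟩ := hne
    obtain ⟨b, hb⟩ := hbd
    obtain ⟨c, h1, h2⟩ := hr.complete ⟨code S, code_sub⟩ ⟨a.1, mem_codeU'.2 ha⟩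
      ⟨b, fun z hz => hb z (mem_codeU'.1 hz)⟩
    exact ⟨c, fun z hz => h1 (mem_codeU'.2 hz), fun b hb => h2 fun z hz => hb z (mem_codeU'.1 hz)⟩
  have hevi := int_ev' (t := t) (x := x)
  have hevi2 : IntF M (fun z : Helper672.Plain.El x => ev t z) := hevi
  -- open subsets of the power
  have hOp := int_OpY (t := t) (x := x)
  have hyM : ∀ z, Mem z (dom M (YX t x)) ↔ ∃ g : YX t x, code g = z := fun z => mem_dom
  have hjM : ∀ z, Mem z (dom M (JX t x)) ↔ ∃ h : JX t x, code h = z := fun z => mem_dom
  have hwM : ∀ z, Mem z (dom M (INat M)) ↔ ∃ h : INat M, code h = z := fun z => mem_dom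
  have hT : ∀ U, Mem (code (M := M) U)
      (code (M := M) (sep M fun U : IPow M (YX t x) => OpY U)) ↔ OpY U :=
    fun U => mem_code_iff.trans (mem_sep hOp)
  have hTop : IsPowerTop (code (M := M) (sep M fun U : IPow M (YX t x) => OpY U)) (dom M (YX t x)) (dom M (JX t x)) := by
    intro u
    constructor
    · intro hu
      obtain ⟨U, hU, rfl⟩ := code_mem_code.1 hu
      refine ⟨fun z hz => ?_, fun f hf => ?_⟩
      · obtain ⟨g, -, rfl⟩ := code_mem_code.1 hz
        exact (hyM _).2 ⟨g, rfl⟩
      · obtain ⟨f, hf', rfl⟩ := code_mem_code.1 hf
        obtain ⟨S, hS, h1⟩ := (mem_sep hOp).1 hU f hf'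
        refine ⟨code S, fun i hi => ?_, isFinite_code.2 hS, fun g hg h2 => ?_⟩
        · obtain ⟨h, -, rfl⟩ := code_mem_code.1 hi
          exact (hjM _).2 ⟨h, rfl⟩
        · obtain ⟨g, rfl⟩ := (hyM g).1 hg
          refine code_mem_code.2 ⟨g, h1 g fun h hh => ?_, rfl⟩
          have := h2 (code h) (code (f h)) (code_mem_code.2 ⟨h, hh, rfl⟩) (app_code'.2 rfl)
          exact (app_code'.1 this).symm
    · rintro ⟨h1, h2⟩
      obtain ⟨U, rfl⟩ := exists_code' hyM h1
      refine (hT U).2 fun f hf => ?_
      obtain ⟨k, hk, hkf, h3⟩ := h2 (code f) (mem_code_iff.2 hf)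
      obtain ⟨S, rfl⟩ := exists_code' hjM hk
      refine ⟨S, isFinite_code.1 hkf, fun g hg => ?_⟩
      refine mem_code_iff.1 (h3 (code g) ((hyM _).2 ⟨g, rfl⟩) fun i y hi hy => ?_)
      obtain ⟨h, hh, rfl⟩ := code_mem_code.1 hi
      obtain ⟨h', hh', rfl⟩ := app_code.1 hy
      obtain rfl := ITy.inj hh'
      exact app_code'.2 (hg _ hh).symm
  let ε : IFun M (Helper672.Plain.El x) (YX t x) := ⟨ev t, hevi⟩
  have happ : ∀ z a, App (code (M := M) ε) z a ↔ ∃ w : Helper672.Plain.El x, w.1 = z ∧
      code (ev t w) = a := fun z a => app_code
  have hloc : ∀ (z : Helper672.Plain.El x) (h : JX t x), ∃ W, OpT t W ∧ z ∈ W ∧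
      ∀ y, y ∈ W → h.1 y = h.1 z := fun z h => h.2 z
  have hlocs : ∀ (z : Helper672.Plain.El x) (S : IPow M (JX t x)), IFin S → ∃ W, OpT t W ∧ z ∈ W ∧
      ∀ y, y ∈ W → ∀ h : JX t x, h ∈ S → h.1 y = h.1 z := by
    intro z S hS
    refine IFin.ind (p := fun S : IPow M (JX t x) => ∃ W : IPow M (Helper672.Plain.El x), OpT t W ∧
      z ∈ W ∧ ∀ y, y ∈ W → ∀ h : JX t x, h ∈ S → h.1 y = h.1 z) (by (repeat' (first | with_reducible exact IntF.id | with_reducible exact IntF.fst' | with_reducible exact IntF.snd' | with_reducible exact IntF.const _ | with_reducible exact Int.const _ | assumption | with_reducible apply Int.and | with_reducible apply Int.or | with_reducible apply Int.not | with_reducible apply Int.imp | with_reducible apply Int.iff | with_reducible apply Int.ne | with_reducible apply Int.eq | with_reducible apply Int.mem | with_reducible apply Int.subset | with_reducible apply Int.ltN | with_reducible apply Int.leN | with_reducible apply Int.fin | with_reducible apply Int.unique | with_reducible apply Int.all | with_reducible apply Int.ex | with_reducible apply IntF.fst | with_reducible apply IntF.snd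 | with_reducible apply IntF.app | with_reducible apply IntF.ite | with_reducible apply IntF.sep | with_reducible apply IntF.lam | with_reducible apply IntF.insert | with_reducible apply IntF.singleton | with_reducible apply IntF.union | with_reducible apply IntF.inter | with_reducible apply IntF.sdiff | with_reducible apply IntF.isUnion | with_reducible apply IntF.iimage | with_reducible apply IntF.the | with_reducible apply IntF.irec | with_reducible_and_instances apply IntF.add | with_reducible_and_instances apply IntF.mul | with_reducible apply IntF.succ | with_reducible apply IntF.val | (with_reducible refine Int.comp ?_ ?_; assumption) | (with_reducible refine Int.comp₂ ?_ ?_ ?_; assumption) | (with_reducible refine Int.comp₃ ?_ ?_ ?_ ?_; assumption) | (with_reducible refine IntF.comp ?_ ?_; assumption) | (with_reducible refine IntF.comp₂ ?_ ?_ ?_; assumption) | (with_reducible refine IntF.comp₃ ?_ ?_ ?_ ?_; assumption) | with_reducible apply IntF.pair))) ?_ ?_ S hS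
    · exact ⟨iuniv M _, opT_univ ht.top, mem_iuniv.2 trivial, fun y _ h hh => absurd hh (by simp)⟩
    · rintro S h - - ⟨W, h1, h2, h3⟩
      obtain ⟨V, h4, h5, h6⟩ := hloc z h
      refine ⟨W ∩ V, opT_inter ht.top h1 h4, mem_inter.2 ⟨h2, h5⟩, fun y hy k hk => ?_⟩
      rw [mem_inter] at hy
      rcases mem_insert.1 hk with rfl | hk
      · exact h6 y hy.2
      · exact h3 y hy.1 k hk
  refine ⟨dom M (INat M), dom M (JX t x), dom M (YX t x), code (M := M) (sep M fun U : IPow M (YX t x) => OpY U), code (M := M) ε, isOmega_dom,
    fun f => ((hyM f).trans (isFun_iff hjM hwM).symm), hTop, ⟨⟨?_, ?_⟩, ?_, ?_⟩⟩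
  · exact isFun_code ε (fun z => mem_PEl) fun z => (hyM (code (ε z))).2 ⟨ε z, rfl⟩
  · -- injectivity
    intro z z' a h1 h2
    obtain ⟨w, rfl, h3⟩ := (happ _ _).1 h1
    obtain ⟨w', rfl, h4⟩ := (happ _ _).1 h2
    have h5 : ev t w = ev t w' := ITy.inj (h3.trans h4.symm)
    by_contra hne
    obtain ⟨u, hu, hwu, hw'u⟩ := ht.t1 w.1 w'.1 w.2 w'.2 hne
    obtain ⟨U, rfl, hU⟩ := pl_code (ht.top.sub u hu)
    obtain ⟨h, hl, h6⟩ := exists_loc ht hszd hu ((hU w).2 hwu)
    have h7 : (ev t w) ⟨h, hl⟩ = (ev t w') ⟨h, hl⟩ := by rw [h5]
    exact hw'u ((hU w').1 (h6 w' (Eq.symm h7)))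
  · -- the topology
    intro u
    constructor
    · intro hu
      obtain ⟨U, rfl, hU⟩ := pl_code (ht.top.sub u hu)
      have hV : Int M (fun f : YX t x => ∃ z : Helper672.Plain.El x, z ∈ U ∧ ∃ h : JX t x,
        (∀ y, h.1 y = h.1 z → y ∈ U) ∧ f h = h.1 z) := by (repeat' (first | with_reducible exact IntF.id | with_reducible exact IntF.fst' | with_reducible exact IntF.snd' | with_reducible exact IntF.const _ | with_reducible exact Int.const _ | assumption | with_reducible apply Int.and | with_reducible apply Int.or | with_reducible apply Int.not | with_reducible apply Int.imp | with_reducible apply Int.iff | with_reducible apply Int.ne | with_reducible apply Int.eq | with_reducible apply Int.mem | with_reducible apply Int.subset | with_reducible apply Int.ltN | with_reducible apply Int.leN | with_reducible apply Int.fin | with_reducible apply Int.unique | with_reducible apply Int.all | with_reducible apply Int.ex | with_reducible apply IntF.fst | with_reducible apply IntF.snd | with_reducible apply IntF.app | with_reducible apply IntF.ite | with_reducible apply IntF.sep | with_reducible apply IntF.lam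 | with_reducible apply IntF.insert | with_reducible apply IntF.singleton | with_reducible apply IntF.union | with_reducible apply IntF.inter | with_reducible apply IntF.sdiff | with_reducible apply IntF.isUnion | with_reducible apply IntF.iimage | with_reducible apply IntF.the | with_reducible apply IntF.irec | with_reducible_and_instances apply IntF.add | with_reducible_and_instances apply IntF.mul | with_reducible apply IntF.succ | with_reducible apply IntF.val | (with_reducible refine Int.comp ?_ ?_; assumption) | (with_reducible refine Int.comp₂ ?_ ?_ ?_; assumption) | (with_reducible refine Int.comp₃ ?_ ?_ ?_ ?_; assumption) | (with_reducible refine IntF.comp ?_ ?_; assumption) | (with_reducible refine IntF.comp₂ ?_ ?_ ?_; assumption) | (with_reducible refine IntF.comp₃ ?_ ?_ ?_ ?_; assumption) | with_reducible apply IntF.pair))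
      refine ⟨code_sub, code (M := M) (sep M fun f : YX t x => ∃ z : Helper672.Plain.El x, z ∈ U ∧
        ∃ h : JX t x, (∀ y, h.1 y = h.1 z → y ∈ U) ∧ f h = h.1 z), (hT _).2 fun f hf => ?_,
        fun z a hza => ?_⟩
      · obtain ⟨z, hz, h, h1, h2⟩ := (mem_sep hV).1 hf
        refine ⟨{h}, IFin.singleton h, fun g hg => (mem_sep hV).2 ⟨z, hz, h, h1, ?_⟩⟩
        rw [← hg h (mem_singleton.2 rfl), h2]
      · obtain ⟨w, rfl, rfl⟩ := (happ _ _).1 hza
        refine (mem_codeU' (z := w)).trans (Iff.trans ?_ mcI.symm)
        rw [mem_sep hV]
        constructor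
        · intro hw
          obtain ⟨h, hl, h6⟩ := exists_loc ht hszd hu hw
          exact ⟨w, hw, ⟨h, hl⟩, h6, rfl⟩
        · rintro ⟨z, hz, h, h1, h2⟩
          exact h1 w h2
    · rintro ⟨h1, v, hv, h2⟩
      obtain ⟨U, rfl, hU⟩ := pl_code h1
      obtain ⟨V, hV, rfl⟩ := code_mem_code.1 hv
      refine opT_of_local ht.top fun z hz => ?_
      have h3 : ∀ w : Helper672.Plain.El x, w ∈ U ↔ ev t w ∈ V := fun w =>
        (mem_codeU' (z := w)).symm.trans ((h2 w.1 (code (ev t w)) ((happ _ _).2 ⟨w, rfl, rfl⟩)).trans mcI)
      obtain ⟨S, hS, h4⟩ := (mem_sep hOp).1 hV (ev t z) ((h3 z).1 hz)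
      obtain ⟨W, hW, hzW, h5⟩ := hlocs z S hS
      exact ⟨W, hW, hzW, fun w hw => (h3 w).2 (h4 (ev t w) fun h hh => (h5 w hw h hh).symm)⟩
  · -- the range is closed
    have hR : Int M (fun f : YX t x => ∃ z, ev t z = f) := by (repeat' (first | with_reducible exact IntF.id | with_reducible exact IntF.fst' | with_reducible exact IntF.snd' | with_reducible exact IntF.const _ | with_reducible exact Int.const _ | assumption | with_reducible apply Int.and | with_reducible apply Int.or | with_reducible apply Int.not | with_reducible apply Int.imp | with_reducible apply Int.iff | with_reducible apply Int.ne | with_reducible apply Int.eq | with_reducible apply Int.mem | with_reducible apply Int.subset | with_reducible apply Int.ltN | with_reducible apply Int.leN | with_reducible apply Int.fin | with_reducible apply Int.unique | with_reducible apply Int.all | with_reducible apply Int.ex | with_reducible apply IntF.fst | with_reducible apply IntF.snd | with_reducible apply IntF.app | with_reducible apply IntF.ite | with_reducible apply IntF.sep | with_reducible apply IntF.lam | with_reducible apply IntF.insert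 | with_reducible apply IntF.singleton | with_reducible apply IntF.union | with_reducible apply IntF.inter | with_reducible apply IntF.sdiff | with_reducible apply IntF.isUnion | with_reducible apply IntF.iimage | with_reducible apply IntF.the | with_reducible apply IntF.irec | with_reducible_and_instances apply IntF.add | with_reducible_and_instances apply IntF.mul | with_reducible apply IntF.succ | with_reducible apply IntF.val | (with_reducible refine Int.comp ?_ ?_; assumption) | (with_reducible refine Int.comp₂ ?_ ?_ ?_; assumption) | (with_reducible refine Int.comp₃ ?_ ?_ ?_ ?_; assumption) | (with_reducible refine IntF.comp ?_ ?_; assumption) | (with_reducible refine IntF.comp₂ ?_ ?_ ?_; assumption) | (with_reducible refine IntF.comp₃ ?_ ?_ ?_ ?_; assumption) | with_reducible apply IntF.pair))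
    have hR' : Int M (fun f : YX t x => ¬ ∃ z, ev t z = f) := by (repeat' (first | with_reducible exact IntF.id | with_reducible exact IntF.fst' | with_reducible exact IntF.snd' | with_reducible exact IntF.const _ | with_reducible exact Int.const _ | assumption | with_reducible apply Int.and | with_reducible apply Int.or | with_reducible apply Int.not | with_reducible apply Int.imp | with_reducible apply Int.iff | with_reducible apply Int.ne | with_reducible apply Int.eq | with_reducible apply Int.mem | with_reducible apply Int.subset | with_reducible apply Int.ltN | with_reducible apply Int.leN | with_reducible apply Int.fin | with_reducible apply Int.unique | with_reducible apply Int.all | with_reducible apply Int.ex | with_reducible apply IntF.fst | with_reducible apply IntF.snd | with_reducible apply IntF.app | with_reducible apply IntF.ite | with_reducible apply IntF.sep | with_reducible apply IntF.lam | with_reducible apply IntF.insert | with_reducible apply IntF.singleton | with_reducible apply IntF.union | with_reducible apply IntF.inter | with_reducible apply IntF.sdiff | with_reducible apply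 IntF.isUnion | with_reducible apply IntF.iimage | with_reducible apply IntF.the | with_reducible apply IntF.irec | with_reducible_and_instances apply IntF.add | with_reducible_and_instances apply IntF.mul | with_reducible apply IntF.succ | with_reducible apply IntF.val | (with_reducible refine Int.comp ?_ ?_; assumption) | (with_reducible refine Int.comp₂ ?_ ?_ ?_; assumption) | (with_reducible refine Int.comp₃ ?_ ?_ ?_ ?_; assumption) | (with_reducible refine IntF.comp ?_ ?_; assumption) | (with_reducible refine IntF.comp₂ ?_ ?_ ?_; assumption) | (with_reducible refine IntF.comp₃ ?_ ?_ ?_ ?_; assumption) | with_reducible apply IntF.pair))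
    refine ⟨code (M := M) (sep M fun f : YX t x => ∃ z, ev t z = f), ⟨fun z hz => ?_,
      code (M := M) (sep M fun f : YX t x => ¬ ∃ z, ev t z = f), (hT _).2 fun ψ hψ => ?_,
      fun z => ⟨fun hz => ?_, fun hz => ?_⟩⟩, fun a => ⟨fun ha => ?_, fun ha => ?_⟩⟩
    · obtain ⟨g, -, rfl⟩ := code_mem_code.1 hz
      exact (hyM _).2 ⟨g, rfl⟩
    · have h1 := (mem_sep hR').1 hψ
      by_contra h2
      replace h2 : ∀ S : IPow M (JX t x), IFin S → ∃ g : YX t x, (∀ h, h ∈ S → ψ h = g h) ∧
          ¬ g ∈ sep M fun f : YX t x => ¬ ∃ z, ev t z = f := by
        intro S hS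
        by_contra h3
        refine h2 ⟨S, hS, fun g hg => ?_⟩
        by_contra h4
        exact h3 ⟨g, hg, h4⟩
      obtain ⟨z, hz⟩ := exists_point hsup hO (fun U V hU hV => opT_inter ht.top hU hV)
        (szd_of hszd hr) hE hEc hbase hclosed (ψ := ψ) fun S hS => by
          obtain ⟨g, h3, h4⟩ := h2 S hS
          have h5 : ∃ z, ev t z = g := by
            by_contra h6
            exact h4 ((mem_sep hR').2 h6)
          obtain ⟨z, rfl⟩ := h5
          exact ⟨z, fun h hh => (h3 h hh).symm⟩
      exact h1 ⟨z, IFun.ext' hz⟩
    · obtain ⟨g, hg, rfl⟩ := code_mem_code.1 hz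
      refine ⟨(hyM _).2 ⟨g, rfl⟩, fun h => (mem_sep hR').1 hg ((mem_sep hR).1 (mem_code_iff.1 h))⟩
    · obtain ⟨h1, h2⟩ := hz
      obtain ⟨g, rfl⟩ := (hyM _).1 h1
      exact mem_code_iff.2 ((mem_sep hR').2 fun h => h2 (mem_code_iff.2 ((mem_sep hR).2 h)))
    · obtain ⟨g, hg, rfl⟩ := code_mem_code.1 ha
      obtain ⟨z, rfl⟩ := (mem_sep hR).1 hg
      exact ⟨z.1, (happ _ _).2 ⟨z, rfl, rfl⟩⟩
    · obtain ⟨z, hz⟩ := ha
      obtain ⟨w, rfl, rfl⟩ := (happ _ _).1 hz
      exact mem_code_iff.2 ((mem_sep hR).2 ⟨w, rfl⟩)

end

end Pool.Agent.Q212.ZC
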