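import Pool.Agent.Q212.ZB1

/-!
# Ranks in subsets of a well-ordered set with countable initial segments
-/

set_option maxHeartbeats 1000000
set_option linter.all false

namespace Pool.Agent.Q212.ZD

open FirstOrder FirstOrder.Language
open Pool.Agent.Helper672.ZFA
open Pool.Agent.H310
open Pool.Agent.Q212.ZA
open Pool.Agent.Q212.ZB

universe u u₁ u₂ u₃ u₄

variable {M : Type u} [L.Structure M] [hM : IsModel M]
variable {α : Type u₁} {β : Type u₂} [ITy M α] [ITy M β]

variable (M) in
/-- Countable predicates: there is an internal injection to the natural numbers. -/
def Cnt (p : α → Prop) : Prop :=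
  ∃ e : IFun M α (INat M), ∀ x y, p x → p y → e x = e y → x = y

theorem Cnt.mono {p q : α → Prop} (h : Cnt M q) (hpq : ∀ a, p a → q a) : Cnt M p := by
  obtain ⟨e, he⟩ := h
  exact ⟨e, fun x y hx hy => he x y (hpq x hx) (hpq y hy)⟩

theorem cnt_of_rel {p : α → Prop} {T : INat M → α → Prop}
    (hT : Int M (fun q : INat M × α => T q.1 q.2)) (hu : ∀ k a b, T k a → T k b → a = b)
    (h : ∀ a, p a → ∃ k, T k a) : Cnt M p := by
  have hI : IntF M (fun a => the (fun k => T k a ∧ ∀ k', T k' a → k ≤ k') 0) := by (repeat' (first | with_reducible exact IntF.id | with_reducible exact IntF.fst' | with_reducible exact IntF.snd' | with_reducible exact IntF.const _ | with_reducible exact Int.const _ | assumption | with_reducible apply Int.and | with_reducible apply Int.or | with_reducible apply Int.not | with_reducible apply Int.imp | with_reducible apply Int.iff | with_reducible apply Int.ne | with_reducible apply Int.eq | with_reducible apply Int.mem | with_reducible apply Int.subset | with_reducible apply Int.ltN | with_reducible apply Int.leN | with_reducible apply Int.fin | with_reducible apply Int.unique | with_reducible apply Int.all | with_reducible apply Int.ex |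 with_reducible apply IntF.fst | with_reducible apply IntF.snd | with_reducible apply IntF.app | with_reducible apply IntF.ite | with_reducible apply IntF.sep | with_reducible apply IntF.lam | with_reducible apply IntF.insert | with_reducible apply IntF.singleton | with_reducible apply IntF.union | with_reducible apply IntF.inter | with_reducible apply IntF.sdiff | with_reducible apply IntF.isUnion | with_reducible apply IntF.iimage | with_reducible apply IntF.the | with_reducible apply IntF.irec | with_reducible_and_instances apply IntF.add | with_reducible_and_instances apply IntF.mul | with_reducible apply IntF.succ | with_reducible apply IntF.val | (with_reducible refine Int.comp ?_ ?_; assumption) | (with_reducible refine Int.comp₂ ?_ ?_ ?_; assumption) | (with_reducible refine Int.comp₃ ?_ ?_ ?_ ?_; assumption) | (with_reducible refine IntF.comp ?_ ?_; assumption) | (with_reducible refine IntF.comp₂ ?_ ?_ ?_; assumption) | (with_reducible refine IntF.comp₃ ?_ ?_ ?_ ?_; assumption) | with_reducible apply IntF.pair))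
  have h1 : ∀ a, p a → T (the (fun k => T k a ∧ ∀ k', T k' a → k ≤ k') 0) a := by
    intro a ha
    obtain ⟨k, h2, h3⟩ := INat.exists_least (p := fun k => T k a) (by (repeat' (first | with_reducible exact IntF.id | with_reducible exact IntF.fst' | with_reducible exact IntF.snd' | with_reducible exact IntF.const _ | with_reducible exact Int.const _ | assumption | with_reducible apply Int.and | with_reducible apply Int.or | with_reducible apply Int.not | with_reducible apply Int.imp | with_reducible apply Int.iff | with_reducible apply Int.ne | with_reducible apply Int.eq | with_reducible apply Int.mem | with_reducible apply Int.subset | with_reducible apply Int.ltN | with_reducible apply Int.leN | with_reducible apply Int.fin | with_reducible apply Int.unique | with_reducible apply Int.all | with_reducible apply Int.ex | with_reducible apply IntF.fst | with_reducible apply IntF.snd | with_reducible apply IntF.app | with_reducible apply IntF.ite | with_reducible apply IntF.sep | with_reducible apply IntF.lam | with_reducible apply IntF.insert | with_reducible apply IntF.singleton | with_reducible apply IntF.union | with_reducible apply IntF.inter | with_reducible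 apply IntF.sdiff | with_reducible apply IntF.isUnion | with_reducible apply IntF.iimage | with_reducible apply IntF.the | with_reducible apply IntF.irec | with_reducible_and_instances apply IntF.add | with_reducible_and_instances apply IntF.mul | with_reducible apply IntF.succ | with_reducible apply IntF.val | (with_reducible refine Int.comp ?_ ?_; assumption) | (with_reducible refine Int.comp₂ ?_ ?_ ?_; assumption) | (with_reducible refine Int.comp₃ ?_ ?_ ?_ ?_; assumption) | (with_reducible refine IntF.comp ?_ ?_; assumption) | (with_reducible refine IntF.comp₂ ?_ ?_ ?_; assumption) | (with_reducible refine IntF.comp₃ ?_ ?_ ?_ ?_; assumption) | with_reducible apply IntF.pair))) (h a ha)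
    exact (the_spec (p := fun k => T k a ∧ ∀ k', T k' a → k ≤ k') (d := (0 : INat M))
      ⟨k, ⟨h2, h3⟩, fun y hy => le_antisymm (hy.2 k h2) (h3 y hy.1)⟩).1
  refine ⟨⟨_, hI⟩, fun x y hx hy hxy => ?_⟩
  replace hxy : the (fun k => T k x ∧ ∀ k', T k' x → k ≤ k') 0 =
    the (fun k => T k y ∧ ∀ k', T k' y → k ≤ k') 0 := hxy
  have h2 := h1 x hx
  rw [hxy] at h2
  exact hu _ _ _ h2 (h1 y hy)

/-- The union of a sequence of finite subsets of a linearly ordered type is countable. -/
theorem cnt_of_fin {lt : β → β → Prop} (hlt : Int M (fun q : β × β => lt q.1 q.2))
    (irr : ∀ a, ¬ lt a a) (tr : ∀ a b c, lt a b → lt b c → lt a c)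
    (tri : ∀ a b, lt a b ∨ a = b ∨ lt b a) {W : INat M → IPow M β} (hW : IntF M W)
    (hfin : ∀ m, IFin (W m)) : Cnt M (fun z => ∃ m, z ∈ W m) := by
  have hc := int_crd (M := M) (α := β)
  have hp := int_pr (M := M)
  have hI : ∀ m z, Int M (fun z' => z' ∈ W m ∧ lt z' z) := fun m z => by (repeat' (first | with_reducible exact IntF.id | with_reducible exact IntF.fst' | with_reducible exact IntF.snd' | with_reducible exact IntF.const _ | with_reducible exact Int.const _ | assumption | with_reducible apply Int.and | with_reducible apply Int.or | with_reducible apply Int.not | with_reducible apply Int.imp | with_reducible apply Int.iff | with_reducible apply Int.ne | with_reducible apply Int.eq | with_reducible apply Int.mem | with_reducible apply Int.subset | with_reducible apply Int.ltN | with_reducible apply Int.leN | with_reducible apply Int.fin | with_reducible apply Int.unique | with_reducible apply Int.all | with_reducible apply Int.ex | with_reducible apply IntF.fst | with_reducible apply IntF.snd | with_reducible apply IntF.app | with_reducible apply IntF.ite | with_reducible apply IntF.sep | with_reducible apply IntF.lam | with_reducible apply IntF.insert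 | with_reducible apply IntF.singleton | with_reducible apply IntF.union | with_reducible apply IntF.inter | with_reducible apply IntF.sdiff | with_reducible apply IntF.isUnion | with_reducible apply IntF.iimage | with_reducible apply IntF.the | with_reducible apply IntF.irec | with_reducible_and_instances apply IntF.add | with_reducible_and_instances apply IntF.mul | with_reducible apply IntF.succ | with_reducible apply IntF.val | (with_reducible refine Int.comp ?_ ?_; assumption) | (with_reducible refine Int.comp₂ ?_ ?_ ?_; assumption) | (with_reducible refine Int.comp₃ ?_ ?_ ?_ ?_; assumption) | (with_reducible refine IntF.comp ?_ ?_; assumption) | (with_reducible refine IntF.comp₂ ?_ ?_ ?_; assumption) | (with_reducible refine IntF.comp₃ ?_ ?_ ?_ ?_; assumption) | with_reducible apply IntF.pair))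
  have key : ∀ m z z', z ∈ W m → z' ∈ W m → lt z z' →
      crd (sep M fun x => x ∈ W m ∧ lt x z) ≠ crd (sep M fun x => x ∈ W m ∧ lt x z') := by
    intro m z z' hz hz' hlt' heq
    have h1 : IFin (sep M fun x => x ∈ W m ∧ lt x z) :=
      (hfin m).subset fun x hx => ((mem_sep (hI m z)).1 hx).1
    have h1' : IFin (sep M fun x => x ∈ W m ∧ lt x z') :=
      (hfin m).subset fun x hx => ((mem_sep (hI m z')).1 hx).1
    have h2 : ¬ z ∈ sep M fun x => x ∈ W m ∧ lt x z := fun h =>
      irr z ((mem_sep (hI m z)).1 h).2
    have h3 := crd_insert h1 h2
    have h4 : crd (insert z (sep M fun x => x ∈ W m ∧ lt x z)) ≤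
        crd (sep M fun x => x ∈ W m ∧ lt x z') := crd_mono h1' fun x hx => by
      rcases mem_insert.1 hx with rfl | hx
      · exact (mem_sep (hI m z')).2 ⟨hz, hlt'⟩
      · have := (mem_sep (hI m z)).1 hx
        exact (mem_sep (hI m z')).2 ⟨this.1, tr _ _ _ this.2 hlt'⟩
    rw [h3, ← heq] at h4
    exact absurd h4 (not_le.2 (INat.lt_succ_self _))
  refine cnt_of_rel (T := fun k z => ∃ m j, k = pr m j ∧ z ∈ W m ∧
    crd (sep M fun z' => z' ∈ W m ∧ lt z' z) = j) (by (repeat' (first | with_reducible exact IntF.id | with_reducible exact IntF.fst' | with_reducible exact IntF.snd' | with_reducible exact IntF.const _ | with_reducible exact Int.const _ | assumption | with_reducible apply Int.and | with_reducible apply Int.or | with_reducible apply Int.not | with_reducible apply Int.imp | with_reducible apply Int.iff | with_reducible apply Int.ne | with_reducible apply Int.eq | with_reducible apply Int.mem | with_reducible apply Int.subset | with_reducible apply Int.ltN | with_reducible apply Int.leN | with_reducible apply Int.fin | with_reducible apply Int.unique | with_reducible apply Int.all | with_reducible apply Int.ex | with_reducible apply IntF.fst | with_reducible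 apply IntF.snd | with_reducible apply IntF.app | with_reducible apply IntF.ite | with_reducible apply IntF.sep | with_reducible apply IntF.lam | with_reducible apply IntF.insert | with_reducible apply IntF.singleton | with_reducible apply IntF.union | with_reducible apply IntF.inter | with_reducible apply IntF.sdiff | with_reducible apply IntF.isUnion | with_reducible apply IntF.iimage | with_reducible apply IntF.the | with_reducible apply IntF.irec | with_reducible_and_instances apply IntF.add | with_reducible_and_instances apply IntF.mul | with_reducible apply IntF.succ | with_reducible apply IntF.val | (with_reducible refine Int.comp ?_ ?_; assumption) | (with_reducible refine Int.comp₂ ?_ ?_ ?_; assumption) | (with_reducible refine Int.comp₃ ?_ ?_ ?_ ?_; assumption) | (with_reducible refine IntF.comp ?_ ?_; assumption) | (with_reducible refine IntF.comp₂ ?_ ?_ ?_; assumption) | (with_reducible refine IntF.comp₃ ?_ ?_ ?_ ?_; assumption) | with_reducible apply IntF.pair))) ?_ ?_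
  · rintro k a b ⟨m, j, rfl, h1, h2⟩ ⟨m', j', h3, h4, h5⟩
    obtain ⟨rfl, rfl⟩ := pr_inj h3
    rcases tri a b with h | h | h
    · exact absurd (h2.trans h5.symm) (key m a b h1 h4 h)
    · exact h
    · exact absurd (h5.trans h2.symm) (key m b a h4 h1 h)
  · rintro z ⟨m, hz⟩
    exact ⟨_, m, _, rfl, hz, rfl⟩

/-! ### Ranks -/

section

variable {lt : β → β → Prop}

variable (M) in
/-- There is an increasing function from the elements of `S` below `x` to the elements
below `y`. -/
def Emb (lt : β → β → Prop) (S : IPow M β) (x y : β) : Prop :=
  ∃ g : IFun M β β, (∀ z, z ∈ S → lt z x → lt (g z) y) ∧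
    ∀ z z', z ∈ S → z' ∈ S → lt z z' → lt z' x → lt (g z) (g z')

variable (M) in
/-- `y` is the rank of `x` in `S`. -/
def Rk (lt : β → β → Prop) (S : IPow M β) (x y : β) : Prop :=
  Emb M lt S x y ∧ ∀ y', Emb M lt S x y' → ¬ lt y' y

variable (M) in
/-- All ranks in `S` are below `b`. -/
def OT (lt : β → β → Prop) (S : IPow M β) (b : β) : Prop :=
  ∀ x y, x ∈ S → Rk M lt S x y → lt y b

theorem int_Emb (hlt : Int M (fun q : β × β => lt q.1 q.2)) :
    Int M (fun q : (IPow M β × β) × β => Emb M lt q.1.1 q.1.2 q.2) := by
  unfold Emb
  (repeat' (first | with_reducible exact IntF.id | with_reducible exact IntF.fst' | with_reducible exact IntF.snd' | with_reducible exact IntF.const _ | with_reducible exact Int.const _ | assumption | with_reducible apply Int.and | with_reducible apply Int.or | with_reducible apply Int.not | with_reducible apply Int.imp | with_reducible apply Int.iff | with_reducible apply Int.ne | with_reducible apply Int.eq | with_reducible apply Int.mem | with_reducible apply Int.subset | with_reducible apply Int.ltN | with_reducible apply Int.leN | with_reducible apply Int.fin | with_reducible apply Int.unique | with_reducible apply Int.all |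 with_reducible apply Int.ex | with_reducible apply IntF.fst | with_reducible apply IntF.snd | with_reducible apply IntF.app | with_reducible apply IntF.ite | with_reducible apply IntF.sep | with_reducible apply IntF.lam | with_reducible apply IntF.insert | with_reducible apply IntF.singleton | with_reducible apply IntF.union | with_reducible apply IntF.inter | with_reducible apply IntF.sdiff | with_reducible apply IntF.isUnion | with_reducible apply IntF.iimage | with_reducible apply IntF.the | with_reducible apply IntF.irec | with_reducible_and_instances apply IntF.add | with_reducible_and_instances apply IntF.mul | with_reducible apply IntF.succ | with_reducible apply IntF.val | (with_reducible refine Int.comp ?_ ?_; assumption) | (with_reducible refine Int.comp₂ ?_ ?_ ?_; assumption) | (with_reducible refine Int.comp₃ ?_ ?_ ?_ ?_; assumption) | (with_reducible refine IntF.comp ?_ ?_; assumption) | (with_reducible refine IntF.comp₂ ?_ ?_ ?_; assumption) | (with_reducible refine IntF.comp₃ ?_ ?_ ?_ ?_; assumption) | with_reducible apply IntF.pair))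

theorem int_Rk (hlt : Int M (fun q : β × β => lt q.1 q.2)) :
    Int M (fun q : (IPow M β × β) × β => Rk M lt q.1.1 q.1.2 q.2) := by
  have h := int_Emb hlt
  unfold Rk
  (repeat' (first | with_reducible exact IntF.id | with_reducible exact IntF.fst' | with_reducible exact IntF.snd' | with_reducible exact IntF.const _ | with_reducible exact Int.const _ | assumption | with_reducible apply Int.and | with_reducible apply Int.or | with_reducible apply Int.not | with_reducible apply Int.imp | with_reducible apply Int.iff | with_reducible apply Int.ne | with_reducible apply Int.eq | with_reducible apply Int.mem | with_reducible apply Int.subset | with_reducible apply Int.ltN | with_reducible apply Int.leN | with_reducible apply Int.fin | with_reducible apply Int.unique | with_reducible apply Int.all | with_reducible apply Int.ex | with_reducible apply IntF.fst | with_reducible apply IntF.snd | with_reducible apply IntF.app | with_reducible apply IntF.ite | with_reducible apply IntF.sep | with_reducible apply IntF.lam | with_reducible apply IntF.insert | with_reducible apply IntF.singleton | with_reducible apply IntF.union | with_reducible apply IntF.inter | with_reducible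 apply IntF.sdiff | with_reducible apply IntF.isUnion | with_reducible apply IntF.iimage | with_reducible apply IntF.the | with_reducible apply IntF.irec | with_reducible_and_instances apply IntF.add | with_reducible_and_instances apply IntF.mul | with_reducible apply IntF.succ | with_reducible apply IntF.val | (with_reducible refine Int.comp ?_ ?_; assumption) | (with_reducible refine Int.comp₂ ?_ ?_ ?_; assumption) | (with_reducible refine Int.comp₃ ?_ ?_ ?_ ?_; assumption) | (with_reducible refine IntF.comp ?_ ?_; assumption) | (with_reducible refine IntF.comp₂ ?_ ?_ ?_; assumption) | (with_reducible refine IntF.comp₃ ?_ ?_ ?_ ?_; assumption) | with_reducible apply IntF.pair))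

theorem int_OT (hlt : Int M (fun q : β × β => lt q.1 q.2)) :
    Int M (fun q : IPow M β × β => OT M lt q.1 q.2) := by
  have h := int_Rk hlt
  unfold OT
  (repeat' (first | with_reducible exact IntF.id | with_reducible exact IntF.fst' | with_reducible exact IntF.snd' | with_reducible exact IntF.const _ | with_reducible exact Int.const _ | assumption | with_reducible apply Int.and | with_reducible apply Int.or | with_reducible apply Int.not | with_reducible apply Int.imp | with_reducible apply Int.iff | with_reducible apply Int.ne | with_reducible apply Int.eq | with_reducible apply Int.mem | with_reducible apply Int.subset | with_reducible apply Int.ltN | with_reducible apply Int.leN | with_reducible apply Int.fin | with_reducible apply Int.unique | with_reducible apply Int.all | with_reducible apply Int.ex | with_reducible apply IntF.fst | with_reducible apply IntF.snd | with_reducible apply IntF.app | with_reducible apply IntF.ite | with_reducible apply IntF.sep | with_reducible apply IntF.lam | with_reducible apply IntF.insert | with_reducible apply IntF.singleton | with_reducible apply IntF.union | with_reducible apply IntF.inter | with_reducible apply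 IntF.sdiff | with_reducible apply IntF.isUnion | with_reducible apply IntF.iimage | with_reducible apply IntF.the | with_reducible apply IntF.irec | with_reducible_and_instances apply IntF.add | with_reducible_and_instances apply IntF.mul | with_reducible apply IntF.succ | with_reducible apply IntF.val | (with_reducible refine Int.comp ?_ ?_; assumption) | (with_reducible refine Int.comp₂ ?_ ?_ ?_; assumption) | (with_reducible refine Int.comp₃ ?_ ?_ ?_ ?_; assumption) | (with_reducible refine IntF.comp ?_ ?_; assumption) | (with_reducible refine IntF.comp₂ ?_ ?_ ?_; assumption) | (with_reducible refine IntF.comp₃ ?_ ?_ ?_ ?_; assumption) | with_reducible apply IntF.pair))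

/-- Well-orders. -/
structure IWO (M : Type u) [L.Structure M] [IsModel M] {β : Type u₂} [ITy M β]
    (lt : β → β → Prop) : Prop where
  int : Int M (fun q : β × β => lt q.1 q.2)
  irr : ∀ a, ¬ lt a a
  tr : ∀ a b c, lt a b → lt b c → lt a c
  tri : ∀ a b, lt a b ∨ a = b ∨ lt b a
  min : ∀ p : β → Prop, Int M p → (∃ x, p x) → ∃ x, p x ∧ ∀ y, p y → ¬ lt y x

variable (h : IWO M lt)
include h

theorem exists_Rk (S : IPow M β) (x : β) : ∃ y, Rk M lt S x y := by
  have hlt := h.int
  have hE := int_Emb hlt
  exact h.min (fun y => Emb M lt S x y) (by (repeat' (first | with_reducible exact IntF.id | with_reducible exact IntF.fst' | with_reducible exact IntF.snd' | with_reducible exact IntF.const _ | with_reducible exact Int.const _ | assumption | with_reducible apply Int.and | with_reducible apply Int.or | with_reducible apply Int.not | with_reducible apply Int.imp | with_reducible apply Int.iff | with_reducible apply Int.ne | with_reducible apply Int.eq | with_reducible apply Int.mem | with_reducible apply Int.subset | with_reducible apply Int.ltN | with_reducible apply Int.leN | with_reducible apply Int.fin | with_reducible apply Int.unique | with_reducible apply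 Int.all | with_reducible apply Int.ex | with_reducible apply IntF.fst | with_reducible apply IntF.snd | with_reducible apply IntF.app | with_reducible apply IntF.ite | with_reducible apply IntF.sep | with_reducible apply IntF.lam | with_reducible apply IntF.insert | with_reducible apply IntF.singleton | with_reducible apply IntF.union | with_reducible apply IntF.inter | with_reducible apply IntF.sdiff | with_reducible apply IntF.isUnion | with_reducible apply IntF.iimage | with_reducible apply IntF.the | with_reducible apply IntF.irec | with_reducible_and_instances apply IntF.add | with_reducible_and_instances apply IntF.mul | with_reducible apply IntF.succ | with_reducible apply IntF.val | (with_reducible refine Int.comp ?_ ?_; assumption) | (with_reducible refine Int.comp₂ ?_ ?_ ?_; assumption) | (with_reducible refine Int.comp₃ ?_ ?_ ?_ ?_; assumption) | (with_reducible refine IntF.comp ?_ ?_; assumption) | (with_reducible refine IntF.comp₂ ?_ ?_ ?_; assumption) | (with_reducible refine IntF.comp₃ ?_ ?_ ?_ ?_; assumption) | with_reducible apply IntF.pair)))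
    ⟨x, ⟨fun z => z, IntF.id⟩, fun z _ hz => hz, fun z z' _ _ hz _ => hz⟩

theorem Rk_unique {S : IPow M β} {x y y' : β} (h1 : Rk M lt S x y) (h2 : Rk M lt S x y') :
    y = y' := by
  rcases h.tri y y' with h3 | h3 | h3
  · exact absurd h3 (h2.2 _ h1.1)
  · exact h3
  · exact absurd h3 (h1.2 _ h2.1)

theorem lt_of_not {a b c : β} (h1 : ¬ lt b a) (h2 : lt b c) : lt a c := by
  rcases h.tri a b with h3 | h3 | h3
  · exact h.tr _ _ _ h3 h2
  · exact h3 ▸ h2
  · exact absurd h3 h1

theorem lt_of_not' {a b c : β} (h1 : lt a b) (h2 : ¬ lt c b) : lt a c := by
  rcases h.tri b c with h3 | h3 | h3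
  · exact h.tr _ _ _ h1 h3
  · exact h3 ▸ h1
  · exact absurd h3 h2

theorem Rk_lt {S : IPow M β} {x x' y y' : β} (hx : x ∈ S) (hxx : lt x x')
    (h1 : Rk M lt S x y) (h2 : Rk M lt S x' y') : lt y y' := by
  obtain ⟨g, h3, h4⟩ := h2.1
  refine lt_of_not h (b := g x) (h1.2 _ ⟨g, fun z hz hzx => h4 z x hz hx hzx hxx,
    fun z z' hz hz' h5 h6 => h4 z z' hz hz' h5 (h.tr _ _ _ h6 hxx)⟩) (h3 x hx hxx)

theorem Rk_inj {S : IPow M β} {x x' y : β} (hx : x ∈ S) (hx' : x' ∈ S)
    (h1 : Rk M lt S x y) (h2 : Rk M lt S x' y) : x = x' := by
  rcases h.tri x x' with h3 | h3 | h3
  · exact absurd (Rk_lt h hx h3 h1 h2) (h.irr _)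
  · exact h3
  · exact absurd (Rk_lt h hx' h3 h2 h1) (h.irr _)

theorem Rk_mono {S S' : IPow M β} (hS : S' ⊆ S) {x y y' : β}
    (h1 : Rk M lt S x y) (h2 : Rk M lt S' x y') : ¬ lt y y' := by
  obtain ⟨g, h3, h4⟩ := h1.1
  exact h2.2 _ ⟨g, fun z hz => h3 z (hS z hz), fun z z' hz hz' => h4 z z' (hS z hz) (hS z' hz')⟩

theorem OT_mono {S S' : IPow M β} (hS : S' ⊆ S) {b : β} (h1 : OT M lt S b) : OT M lt S' b := by
  intro x y hx hy
  obtain ⟨y', hy'⟩ := exists_Rk h S x
  exact lt_of_not h (Rk_mono h hS hy' hy) (h1 x y' (hS x hx) hy')

theorem OT_le {S : IPow M β} {b b' : β} (h1 : OT M lt S b) (hb : ¬ lt b' b) :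
    OT M lt S b' := fun x y hx hy => lt_of_not' h (h1 x y hx hy) hb

theorem exists_of_not_OT {S : IPow M β} (h1 : ¬ ∃ b, OT M lt S b) (b : β) :
    ∃ x, x ∈ S ∧ Rk M lt S x b := by
  have hlt := h.int
  have hR := int_Rk hlt
  by_contra h2
  push Not at h2
  have h3 : ∃ x, x ∈ S ∧ ∃ y, Rk M lt S x y ∧ lt b y := by
    by_contra h4
    push Not at h4
    refine h1 ⟨b, fun x y hx hy => ?_⟩
    rcases h.tri y b with h5 | h5 | h5
    · exact h5
    · exact absurd (h5 ▸ hy) (h2 x hx)
    · exact absurd h5 (h4 x hx y hy)
  obtain ⟨x, ⟨hx, y, hy, hby⟩, hmin⟩ := h.min
    (fun x => x ∈ S ∧ ∃ y, Rk M lt S x y ∧ lt b y) (by (repeat' (first | with_reducible exact IntF.id | with_reducible exact IntF.fst' | with_reducible exact IntF.snd' | with_reducible exact IntF.const _ | with_reducible exact Int.const _ | assumption | with_reducible apply Int.and | with_reducible apply Int.or | with_reducible apply Int.not | with_reducible apply Int.imp | with_reducible apply Int.iff | with_reducible apply Int.ne | with_reducible apply Int.eq | with_reducible apply Int.mem | with_reducible apply Int.subset | with_reducible apply Int.ltN | with_reducible apply Int.leN | with_reducible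 apply Int.fin | with_reducible apply Int.unique | with_reducible apply Int.all | with_reducible apply Int.ex | with_reducible apply IntF.fst | with_reducible apply IntF.snd | with_reducible apply IntF.app | with_reducible apply IntF.ite | with_reducible apply IntF.sep | with_reducible apply IntF.lam | with_reducible apply IntF.insert | with_reducible apply IntF.singleton | with_reducible apply IntF.union | with_reducible apply IntF.inter | with_reducible apply IntF.sdiff | with_reducible apply IntF.isUnion | with_reducible apply IntF.iimage | with_reducible apply IntF.the | with_reducible apply IntF.irec | with_reducible_and_instances apply IntF.add | with_reducible_and_instances apply IntF.mul | with_reducible apply IntF.succ | with_reducible apply IntF.val | (with_reducible refine Int.comp ?_ ?_; assumption) | (with_reducible refine Int.comp₂ ?_ ?_ ?_; assumption) | (with_reducible refine Int.comp₃ ?_ ?_ ?_ ?_; assumption) | (with_reducible refine IntF.comp ?_ ?_; assumption) | (with_reducible refine IntF.comp₂ ?_ ?_ ?_; assumption) | (with_reducible refine IntF.comp₃ ?_ ?_ ?_ ?_; assumption) | with_reducible apply IntF.pair))) h3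
  have h4 : ∀ z, z ∈ S → lt z x → ∀ w, Rk M lt S z w → lt w b := by
    intro z hz hzx w hw
    rcases h.tri w b with h5 | h5 | h5
    · exact h5
    · exact absurd (h5 ▸ hw) (h2 z hz)
    · exact absurd hzx (hmin z ⟨hz, w, hw, h5⟩)
  have hg : IntF M (fun z => the (fun w => Rk M lt S z w) b) := by (repeat' (first | with_reducible exact IntF.id | with_reducible exact IntF.fst' | with_reducible exact IntF.snd' | with_reducible exact IntF.const _ | with_reducible exact Int.const _ | assumption | with_reducible apply Int.and | with_reducible apply Int.or | with_reducible apply Int.not | with_reducible apply Int.imp | with_reducible apply Int.iff | with_reducible apply Int.ne | with_reducible apply Int.eq | with_reducible apply Int.mem | with_reducible apply Int.subset | with_reducible apply Int.ltN | with_reducible apply Int.leN | with_reducible apply Int.fin | with_reducible apply Int.unique | with_reducible apply Int.all | with_reducible apply Int.ex | with_reducible apply IntF.fst | with_reducible apply IntF.snd | with_reducible apply IntF.app | with_reducible apply IntF.ite | with_reducible apply IntF.sep | with_reducible apply IntF.lam | with_reducible apply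 IntF.insert | with_reducible apply IntF.singleton | with_reducible apply IntF.union | with_reducible apply IntF.inter | with_reducible apply IntF.sdiff | with_reducible apply IntF.isUnion | with_reducible apply IntF.iimage | with_reducible apply IntF.the | with_reducible apply IntF.irec | with_reducible_and_instances apply IntF.add | with_reducible_and_instances apply IntF.mul | with_reducible apply IntF.succ | with_reducible apply IntF.val | (with_reducible refine Int.comp ?_ ?_; assumption) | (with_reducible refine Int.comp₂ ?_ ?_ ?_; assumption) | (with_reducible refine Int.comp₃ ?_ ?_ ?_ ?_; assumption) | (with_reducible refine IntF.comp ?_ ?_; assumption) | (with_reducible refine IntF.comp₂ ?_ ?_ ?_; assumption) | (with_reducible refine IntF.comp₃ ?_ ?_ ?_ ?_; assumption) | with_reducible apply IntF.pair))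
  have h5 : ∀ z, Rk M lt S z (the (fun w => Rk M lt S z w) b) := by
    intro z
    obtain ⟨w, hw⟩ := exists_Rk h S z
    exact the_spec (p := fun w => Rk M lt S z w) ⟨w, hw, fun w' hw' => Rk_unique h hw' hw⟩
  exact hy.2 b ⟨⟨_, hg⟩, fun z hz hzx => h4 z hz hzx _ (h5 z),
    fun z z' hz hz' hzz _ => Rk_lt h hz hzz (h5 z) (h5 z')⟩ hby

/-- A countable set has bounded ranks. -/
theorem exists_OT (hunc : ¬ Cnt M (fun _ : β => True)) {S : IPow M β}
    (hS : Cnt M (fun x => x ∈ S)) : ∃ b, OT M lt S b := by
  by_contra h1
  have hlt := h.int
  have hR := int_Rk hlt
  obtain ⟨e, he⟩ := hS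
  refine hunc (cnt_of_rel (T := fun k b => ∃ x, x ∈ S ∧ e x = k ∧ Rk M lt S x b)
    (by (repeat' (first | with_reducible exact IntF.id | with_reducible exact IntF.fst' | with_reducible exact IntF.snd' | with_reducible exact IntF.const _ | with_reducible exact Int.const _ | assumption | with_reducible apply Int.and | with_reducible apply Int.or | with_reducible apply Int.not | with_reducible apply Int.imp | with_reducible apply Int.iff | with_reducible apply Int.ne | with_reducible apply Int.eq | with_reducible apply Int.mem | with_reducible apply Int.subset | with_reducible apply Int.ltN | with_reducible apply Int.leN | with_reducible apply Int.fin | with_reducible apply Int.unique | with_reducible apply Int.all | with_reducible apply Int.ex | with_reducible apply IntF.fst | with_reducible apply IntF.snd | with_reducible apply IntF.app | with_reducible apply IntF.ite | with_reducible apply IntF.sep | with_reducible apply IntF.lam | with_reducible apply IntF.insert | with_reducible apply IntF.singleton | with_reducible apply IntF.union | with_reducible apply IntF.inter | with_reducible apply IntF.sdiff | with_reducible apply IntF.isUnion | with_reducible apply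 IntF.iimage | with_reducible apply IntF.the | with_reducible apply IntF.irec | with_reducible_and_instances apply IntF.add | with_reducible_and_instances apply IntF.mul | with_reducible apply IntF.succ | with_reducible apply IntF.val | (with_reducible refine Int.comp ?_ ?_; assumption) | (with_reducible refine Int.comp₂ ?_ ?_ ?_; assumption) | (with_reducible refine Int.comp₃ ?_ ?_ ?_ ?_; assumption) | (with_reducible refine IntF.comp ?_ ?_; assumption) | (with_reducible refine IntF.comp₂ ?_ ?_ ?_; assumption) | (with_reducible refine IntF.comp₃ ?_ ?_ ?_ ?_; assumption) | with_reducible apply IntF.pair))) ?_ ?_)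
  · rintro k a b ⟨x, hx, h2, h3⟩ ⟨x', hx', h4, h5⟩
    obtain rfl := he x x' hx hx' (h2.trans h4.symm)
    exact Rk_unique h h3 h5
  · intro b _
    obtain ⟨x, hx, h2⟩ := exists_of_not_OT h h1 b
    exact ⟨_, x, hx, rfl, h2⟩

/-- The union of a sequence of sets with uniformly bounded ranks is countable. -/
theorem cnt_of_OT (hseg : ∀ b, Cnt M (fun x => lt x b)) {W : INat M → IPow M β}
    (hW : IntF M W) {b : β} (hb : ∀ m, OT M lt (W m) b) : Cnt M (fun z => ∃ m, z ∈ W m) := by
  have hlt := h.int
  have hR := int_Rk hlt
  have hp := int_pr (M := M)
  obtain ⟨e, he⟩ := hseg b
  refine cnt_of_rel (T := fun k z => ∃ m j, k = pr m j ∧ z ∈ W m ∧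
    ∃ y, Rk M lt (W m) z y ∧ e y = j) (by (repeat' (first | with_reducible exact IntF.id | with_reducible exact IntF.fst' | with_reducible exact IntF.snd' | with_reducible exact IntF.const _ | with_reducible exact Int.const _ | assumption | with_reducible apply Int.and | with_reducible apply Int.or | with_reducible apply Int.not | with_reducible apply Int.imp | with_reducible apply Int.iff | with_reducible apply Int.ne | with_reducible apply Int.eq | with_reducible apply Int.mem | with_reducible apply Int.subset | with_reducible apply Int.ltN | with_reducible apply Int.leN | with_reducible apply Int.fin | with_reducible apply Int.unique | with_reducible apply Int.all | with_reducible apply Int.ex | with_reducible apply IntF.fst | with_reducible apply IntF.snd | with_reducible apply IntF.app | with_reducible apply IntF.ite | with_reducible apply IntF.sep | with_reducible apply IntF.lam | with_reducible apply IntF.insert | with_reducible apply IntF.singleton | with_reducible apply IntF.union | with_reducible apply IntF.inter | with_reducible apply IntF.sdiff | with_reducible apply IntF.isUnion | with_reducible apply IntF.iimage | with_reducible apply IntF.the |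 with_reducible apply IntF.irec | with_reducible_and_instances apply IntF.add | with_reducible_and_instances apply IntF.mul | with_reducible apply IntF.succ | with_reducible apply IntF.val | (with_reducible refine Int.comp ?_ ?_; assumption) | (with_reducible refine Int.comp₂ ?_ ?_ ?_; assumption) | (with_reducible refine Int.comp₃ ?_ ?_ ?_ ?_; assumption) | (with_reducible refine IntF.comp ?_ ?_; assumption) | (with_reducible refine IntF.comp₂ ?_ ?_ ?_; assumption) | (with_reducible refine IntF.comp₃ ?_ ?_ ?_ ?_; assumption) | with_reducible apply IntF.pair))) ?_ ?_
  · rintro k z z' ⟨m, j, rfl, h1, y, h2, h3⟩ ⟨m', j', h4, h5, y', h6, h7⟩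
    obtain ⟨rfl, rfl⟩ := pr_inj h4
    obtain rfl := he y y' (hb m z y h1 h2) (hb m z' y' h5 h6) (h3.trans h7.symm)
    exact Rk_inj h h1 h5 h2 h6
  · rintro z ⟨m, hz⟩
    obtain ⟨y, hy⟩ := exists_Rk h (W m) z
    exact ⟨_, m, _, rfl, hz, y, hy, rfl⟩

end

end Pool.Agent.Q212.ZD
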