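import Pool.Agent.Q212.ZD1

/-!
# Countable chain conditions and names for surjections onto the first uncountable ordinal
-/

set_option maxHeartbeats 1000000
set_option linter.all false

namespace Pool.Agent.Q212.ZD

open FirstOrder FirstOrder.Language
open Pool.Agent.Helper672.ZFA
open Pool.Agent.H310
open Pool.Agent.Q212.ZA
open Pool.Agent.Q212.ZB

universe u u₁ u₂ u₃ u₄

variable {M : Type u} [L.Structure M] [hM : IsModel M]
variable {π : Type u₁} {β : Type u₂} [ITy M π] [ITy M β]

/-- Compatible conditions. -/
def Cmp (le : π → π → Prop) (p q : π) : Prop := ∃ r, le r p ∧ le r q

theorem int_Cmp {le : π → π → Prop} (hle : Int M (fun q : π × π => le q.1 q.2)) :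
    Int M (fun q : π × π => Cmp le q.1 q.2) := by
  unfold Cmp
  (repeat' (first | with_reducible exact IntF.id | with_reducible exact IntF.fst' | with_reducible exact IntF.snd' | with_reducible exact IntF.const _ | with_reducible exact Int.const _ | assumption | with_reducible apply Int.and | with_reducible apply Int.or | with_reducible apply Int.not | with_reducible apply Int.imp | with_reducible apply Int.iff | with_reducible apply Int.ne | with_reducible apply Int.eq | with_reducible apply Int.mem | with_reducible apply Int.subset | with_reducible apply Int.ltN | with_reducible apply Int.leN | with_reducible apply Int.fin | with_reducible apply Int.unique | with_reducible apply Int.all | with_reducible apply Int.ex | with_reducible apply IntF.fst | with_reducible apply IntF.snd | with_reducible apply IntF.app | with_reducible apply IntF.ite | with_reducible apply IntF.sep | with_reducible apply IntF.lam | with_reducible apply IntF.insert | with_reducible apply IntF.singleton | with_reducible apply IntF.union | with_reducible apply IntF.inter | with_reducible apply IntF.sdiff | with_reducible apply IntF.isUnion | with_reducible apply IntF.iimage | with_reducible apply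 IntF.the | with_reducible apply IntF.irec | with_reducible_and_instances apply IntF.add | with_reducible_and_instances apply IntF.mul | with_reducible apply IntF.succ | with_reducible apply IntF.val | (with_reducible refine Int.comp ?_ ?_; assumption) | (with_reducible refine Int.comp₂ ?_ ?_ ?_; assumption) | (with_reducible refine Int.comp₃ ?_ ?_ ?_ ?_; assumption) | (with_reducible refine IntF.comp ?_ ?_; assumption) | (with_reducible refine IntF.comp₂ ?_ ?_ ?_; assumption) | (with_reducible refine IntF.comp₃ ?_ ?_ ?_ ?_; assumption) | with_reducible apply IntF.pair))

/-- Predense sets. -/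
def PD (le : π → π → Prop) (D : IPow M π) : Prop := ∀ p, ∃ d, d ∈ D ∧ Cmp le p d

/-- A forcing with the property `ccc₃` and a name for a function from the natural numbers
to `β`. -/
structure Nm (M : Type u) [L.Structure M] [IsModel M] {π : Type u₁} {β : Type u₂} [ITy M π]
    [ITy M β] (le : π → π → Prop) (R : π → INat M → β → Prop) (p₀ : π) : Prop where
  ile : Int M (fun q : π × π => le q.1 q.2)
  iR : Int M (fun q : (π × INat M) × β => R q.1.1 q.1.2 q.2)
  refl : ∀ p, le p p
  tr : ∀ p q r, le p q → le q r → le p r
  ccc : ∀ D : IPow M π, PD le D → ∃ D₀ : IPow M π, D₀ ⊆ D ∧ Cnt M (fun d => d ∈ D₀) ∧ PD le D₀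
  down : ∀ p q n a, R p n a → le q p → R q n a
  fn : ∀ p n a b, le p p₀ → R p n a → R p n b → a = b
  tot : ∀ p n, le p p₀ → ∃ q a, le q p ∧ R q n a

section

variable {le : π → π → Prop} {R : π → INat M → β → Prop} {p₀ : π} (h : Nm M le R p₀)
include h

theorem dec_fin (m : INat M) : ∀ p, le p p₀ → ∃ q, le q p ∧ ∀ n, n ≤ m → ∃ a, R q n a := by
  have hle := h.ile
  have hR := h.iR
  refine INat.ind (p := fun m => ∀ p, le p p₀ → ∃ q, le q p ∧ ∀ n, n ≤ m → ∃ a, R q n a)
    (by (repeat' (first | with_reducible exact IntF.id | with_reducible exact IntF.fst' | with_reducible exact IntF.snd' | with_reducible exact IntF.const _ | with_reducible exact Int.const _ | assumption | with_reducible apply Int.and | with_reducible apply Int.or | with_reducible apply Int.not | with_reducible apply Int.imp | with_reducible apply Int.iff | with_reducible apply Int.ne | with_reducible apply Int.eq | with_reducible apply Int.mem | with_reducible apply Int.subset | with_reducible apply Int.ltN | with_reducible apply Int.leN | with_reducible apply Int.fin | with_reducible apply Int.unique | with_reducible apply Int.all | with_reducible apply Int.ex | with_reducible apply IntF.fst | with_reducible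 apply IntF.snd | with_reducible apply IntF.app | with_reducible apply IntF.ite | with_reducible apply IntF.sep | with_reducible apply IntF.lam | with_reducible apply IntF.insert | with_reducible apply IntF.singleton | with_reducible apply IntF.union | with_reducible apply IntF.inter | with_reducible apply IntF.sdiff | with_reducible apply IntF.isUnion | with_reducible apply IntF.iimage | with_reducible apply IntF.the | with_reducible apply IntF.irec | with_reducible_and_instances apply IntF.add | with_reducible_and_instances apply IntF.mul | with_reducible apply IntF.succ | with_reducible apply IntF.val | (with_reducible refine Int.comp ?_ ?_; assumption) | (with_reducible refine Int.comp₂ ?_ ?_ ?_; assumption) | (with_reducible refine Int.comp₃ ?_ ?_ ?_ ?_; assumption) | (with_reducible refine IntF.comp ?_ ?_; assumption) | (with_reducible refine IntF.comp₂ ?_ ?_ ?_; assumption) | (with_reducible refine IntF.comp₃ ?_ ?_ ?_ ?_; assumption) | with_reducible apply IntF.pair))) ?_ ?_ m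
  · intro p hp
    obtain ⟨q, a, h1, h2⟩ := h.tot p 0 hp
    refine ⟨q, h1, fun n hn => ?_⟩
    obtain rfl := le_antisymm hn (INat.zero_le n)
    exact ⟨a, h2⟩
  · intro m ih p hp
    obtain ⟨q, h1, h2⟩ := ih p hp
    obtain ⟨r, a, h3, h4⟩ := h.tot q m.succ (h.tr _ _ _ h1 hp)
    refine ⟨r, h.tr _ _ _ h3 h1, fun n hn => ?_⟩
    rcases hn.lt_or_eq with h5 | rfl
    · obtain ⟨b, hb⟩ := h2 n (INat.lt_succ_iff.1 h5)
      exact ⟨b, h.down _ _ _ _ hb h3⟩
    · exact ⟨a, h4⟩

/-- The values forced below the elements of an antichain are countable. -/
theorem cnt_values {A : π → INat M → Prop} (hA : Int M (fun q : π × INat M => A q.1 q.2))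
    (hA1 : ∀ q m, A q m → le q p₀)
    (hA2 : ∀ q m q' m', A q m → A q' m' → Cmp le q q' → q = q' ∧ m = m') :
    Cnt M (fun a => ∃ q m n r, A q m ∧ n ≤ m ∧ le r q ∧ R r n a) := by
  have hle := h.ile
  have hR := h.iR
  have hC := int_Cmp hle
  have hp := int_pr (M := M)
  have hI : Int M (fun r => (∃ q m, A q m ∧ le r q ∧ ∀ n, n ≤ m → ∃ a, R r n a) ∨
    ∀ q m, A q m → ¬ Cmp le r q) := by (repeat' (first | with_reducible exact IntF.id | with_reducible exact IntF.fst' | with_reducible exact IntF.snd' | with_reducible exact IntF.const _ | with_reducible exact Int.const _ | assumption | with_reducible apply Int.and | with_reducible apply Int.or | with_reducible apply Int.not | with_reducible apply Int.imp | with_reducible apply Int.iff | with_reducible apply Int.ne | with_reducible apply Int.eq | with_reducible apply Int.mem | with_reducible apply Int.subset | with_reducible apply Int.ltN | with_reducible apply Int.leN | with_reducible apply Int.fin | with_reducible apply Int.unique | with_reducible apply Int.all | with_reducible apply Int.ex | with_reducible apply IntF.fst | with_reducible apply IntF.snd | with_reducible apply IntF.app | with_reducible apply IntF.ite | with_reducible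 apply IntF.sep | with_reducible apply IntF.lam | with_reducible apply IntF.insert | with_reducible apply IntF.singleton | with_reducible apply IntF.union | with_reducible apply IntF.inter | with_reducible apply IntF.sdiff | with_reducible apply IntF.isUnion | with_reducible apply IntF.iimage | with_reducible apply IntF.the | with_reducible apply IntF.irec | with_reducible_and_instances apply IntF.add | with_reducible_and_instances apply IntF.mul | with_reducible apply IntF.succ | with_reducible apply IntF.val | (with_reducible refine Int.comp ?_ ?_; assumption) | (with_reducible refine Int.comp₂ ?_ ?_ ?_; assumption) | (with_reducible refine Int.comp₃ ?_ ?_ ?_ ?_; assumption) | (with_reducible refine IntF.comp ?_ ?_; assumption) | (with_reducible refine IntF.comp₂ ?_ ?_ ?_; assumption) | (with_reducible refine IntF.comp₃ ?_ ?_ ?_ ?_; assumption) | with_reducible apply IntF.pair))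
  obtain ⟨D, h1, ⟨e, he⟩, h2⟩ := h.ccc (sep M fun r =>
    (∃ q m, A q m ∧ le r q ∧ ∀ n, n ≤ m → ∃ a, R r n a) ∨ ∀ q m, A q m → ¬ Cmp le r q) (by
      intro p
      by_cases h3 : ∃ q m, A q m ∧ Cmp le p q
      · obtain ⟨q, m, h4, s, h5, h6⟩ := h3
        obtain ⟨r, h7, h8⟩ := dec_fin h m s (h.tr _ _ _ h6 (hA1 _ _ h4))
        exact ⟨r, (mem_sep hI).2 (Or.inl ⟨q, m, h4, h.tr _ _ _ h7 h6, h8⟩),
          r, h.tr _ _ _ h7 h5, h.refl r⟩
      · push Not at h3
        exact ⟨p, (mem_sep hI).2 (Or.inr h3), p, h.refl p, h.refl p⟩)
  refine cnt_of_rel (T := fun k a => ∃ d n, d ∈ D ∧ le d p₀ ∧ k = pr (e d) n ∧ R d n a)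
    (by (repeat' (first | with_reducible exact IntF.id | with_reducible exact IntF.fst' | with_reducible exact IntF.snd' | with_reducible exact IntF.const _ | with_reducible exact Int.const _ | assumption | with_reducible apply Int.and | with_reducible apply Int.or | with_reducible apply Int.not | with_reducible apply Int.imp | with_reducible apply Int.iff | with_reducible apply Int.ne | with_reducible apply Int.eq | with_reducible apply Int.mem | with_reducible apply Int.subset | with_reducible apply Int.ltN | with_reducible apply Int.leN | with_reducible apply Int.fin | with_reducible apply Int.unique | with_reducible apply Int.all | with_reducible apply Int.ex | with_reducible apply IntF.fst | with_reducible apply IntF.snd | with_reducible apply IntF.app | with_reducible apply IntF.ite | with_reducible apply IntF.sep | with_reducible apply IntF.lam | with_reducible apply IntF.insert | with_reducible apply IntF.singleton | with_reducible apply IntF.union | with_reducible apply IntF.inter | with_reducible apply IntF.sdiff | with_reducible apply IntF.isUnion | with_reducible apply IntF.iimage | with_reducible apply IntF.the | with_reducible apply IntF.irec | with_reducible_and_instances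 apply IntF.add | with_reducible_and_instances apply IntF.mul | with_reducible apply IntF.succ | with_reducible apply IntF.val | (with_reducible refine Int.comp ?_ ?_; assumption) | (with_reducible refine Int.comp₂ ?_ ?_ ?_; assumption) | (with_reducible refine Int.comp₃ ?_ ?_ ?_ ?_; assumption) | (with_reducible refine IntF.comp ?_ ?_; assumption) | (with_reducible refine IntF.comp₂ ?_ ?_ ?_; assumption) | (with_reducible refine IntF.comp₃ ?_ ?_ ?_ ?_; assumption) | with_reducible apply IntF.pair))) ?_ ?_
  · rintro k a b ⟨d, n, h3, h4, rfl, h5⟩ ⟨d', n', h6, h7, h8, h9⟩
    obtain ⟨h10, rfl⟩ := pr_inj h8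
    obtain rfl := he d d' h3 h6 h10
    exact h.fn _ _ _ _ h4 h5 h9
  · rintro a ⟨q, m, n, r, h3, h4, h5, h6⟩
    obtain ⟨d, h7, t, h8, h9⟩ := h2 r
    have h10 := (mem_sep hI).1 (h1 d h7)
    have h11 : Cmp le d q := ⟨t, h9, h.tr _ _ _ h8 h5⟩
    rcases h10 with ⟨q', m', h12, h13, h14⟩ | h10
    · obtain ⟨rfl, rfl⟩ := hA2 q m q' m' h3 h12 (by
        obtain ⟨s, hs1, hs2⟩ := h11
        exact ⟨s, hs2, h.tr _ _ _ hs1 h13⟩)
      obtain ⟨b, hb⟩ := h14 n h4
      have hd : le d p₀ := h.tr _ _ _ h13 (hA1 _ _ h3)
      have hab : a = b := h.fn t n a b (h.tr _ _ _ h9 hd) (h.down _ _ _ _ h6 h8)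
        (h.down _ _ _ _ hb h9)
      exact ⟨_, d, n, h7, hd, rfl, hab ▸ hb⟩
    · exact absurd h11 (h10 q m h3)

end

/-- The possible values up to `m` below `p`. -/
noncomputable def Wv (le : π → π → Prop) (R : π → INat M → β → Prop) (p : π) (m : INat M) :
    IPow M β := sep M fun a => ∃ n r, n ≤ m ∧ le r p ∧ R r n a

section

variable {le : π → π → Prop} {R : π → INat M → β → Prop} {p₀ : π} (h : Nm M le R p₀)
variable {lt : β → β → Prop}
include h

theorem int_Wv : IntF M (fun q : π × INat M => Wv le R q.1 q.2) := by
  have hle := h.ile
  have hR := h.iR
  unfold Wv
  (repeat' (first | with_reducible exact IntF.id | with_reducible exact IntF.fst' | with_reducible exact IntF.snd' | with_reducible exact IntF.const _ | with_reducible exact Int.const _ | assumption | with_reducible apply Int.and | with_reducible apply Int.or | with_reducible apply Int.not | with_reducible apply Int.imp | with_reducible apply Int.iff | with_reducible apply Int.ne | with_reducible apply Int.eq | with_reducible apply Int.mem | with_reducible apply Int.subset | with_reducible apply Int.ltN | with_reducible apply Int.leN | with_reducible apply Int.fin | with_reducible apply Int.unique | with_reducible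 apply Int.all | with_reducible apply Int.ex | with_reducible apply IntF.fst | with_reducible apply IntF.snd | with_reducible apply IntF.app | with_reducible apply IntF.ite | with_reducible apply IntF.sep | with_reducible apply IntF.lam | with_reducible apply IntF.insert | with_reducible apply IntF.singleton | with_reducible apply IntF.union | with_reducible apply IntF.inter | with_reducible apply IntF.sdiff | with_reducible apply IntF.isUnion | with_reducible apply IntF.iimage | with_reducible apply IntF.the | with_reducible apply IntF.irec | with_reducible_and_instances apply IntF.add | with_reducible_and_instances apply IntF.mul | with_reducible apply IntF.succ | with_reducible apply IntF.val | (with_reducible refine Int.comp ?_ ?_; assumption) | (with_reducible refine Int.comp₂ ?_ ?_ ?_; assumption) | (with_reducible refine Int.comp₃ ?_ ?_ ?_ ?_; assumption) | (with_reducible refine IntF.comp ?_ ?_; assumption) | (with_reducible refine IntF.comp₂ ?_ ?_ ?_; assumption) | (with_reducible refine IntF.comp₃ ?_ ?_ ?_ ?_; assumption) | with_reducible apply IntF.pair))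

theorem mem_Wv {p : π} {m : INat M} {a : β} :
    a ∈ Wv le R p m ↔ ∃ n r, n ≤ m ∧ le r p ∧ R r n a := by
  have hle := h.ile
  have hR := h.iR
  unfold Wv
  rw [mem_sep (by (repeat' (first | with_reducible exact IntF.id | with_reducible exact IntF.fst' | with_reducible exact IntF.snd' | with_reducible exact IntF.const _ | with_reducible exact Int.const _ | assumption | with_reducible apply Int.and | with_reducible apply Int.or | with_reducible apply Int.not | with_reducible apply Int.imp | with_reducible apply Int.iff | with_reducible apply Int.ne | with_reducible apply Int.eq | with_reducible apply Int.mem | with_reducible apply Int.subset | with_reducible apply Int.ltN | with_reducible apply Int.leN | with_reducible apply Int.fin | with_reducible apply Int.unique | with_reducible apply Int.all | with_reducible apply Int.ex | with_reducible apply IntF.fst | with_reducible apply IntF.snd | with_reducible apply IntF.app | with_reducible apply IntF.ite | with_reducible apply IntF.sep | with_reducible apply IntF.lam | with_reducible apply IntF.insert | with_reducible apply IntF.singleton | with_reducible apply IntF.union | with_reducible apply IntF.inter | with_reducible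 apply IntF.sdiff | with_reducible apply IntF.isUnion | with_reducible apply IntF.iimage | with_reducible apply IntF.the | with_reducible apply IntF.irec | with_reducible_and_instances apply IntF.add | with_reducible_and_instances apply IntF.mul | with_reducible apply IntF.succ | with_reducible apply IntF.val | (with_reducible refine Int.comp ?_ ?_; assumption) | (with_reducible refine Int.comp₂ ?_ ?_ ?_; assumption) | (with_reducible refine Int.comp₃ ?_ ?_ ?_ ?_; assumption) | (with_reducible refine IntF.comp ?_ ?_; assumption) | (with_reducible refine IntF.comp₂ ?_ ?_ ?_; assumption) | (with_reducible refine IntF.comp₃ ?_ ?_ ?_ ?_; assumption) | with_reducible apply IntF.pair)))]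

theorem cnt_Wv {p : π} (hp : le p p₀) (m : INat M) : Cnt M (fun a => a ∈ Wv le R p m) := by
  refine (cnt_values h (A := fun q k => q = p ∧ k = m) (by (repeat' (first | with_reducible exact IntF.id | with_reducible exact IntF.fst' | with_reducible exact IntF.snd' | with_reducible exact IntF.const _ | with_reducible exact Int.const _ | assumption | with_reducible apply Int.and | with_reducible apply Int.or | with_reducible apply Int.not | with_reducible apply Int.imp | with_reducible apply Int.iff | with_reducible apply Int.ne | with_reducible apply Int.eq | with_reducible apply Int.mem | with_reducible apply Int.subset | with_reducible apply Int.ltN | with_reducible apply Int.leN | with_reducible apply Int.fin | with_reducible apply Int.unique | with_reducible apply Int.all | with_reducible apply Int.ex | with_reducible apply IntF.fst | with_reducible apply IntF.snd | with_reducible apply IntF.app | with_reducible apply IntF.ite | with_reducible apply IntF.sep | with_reducible apply IntF.lam | with_reducible apply IntF.insert | with_reducible apply IntF.singleton | with_reducible apply IntF.union | with_reducible apply IntF.inter | with_reducible apply IntF.sdiff | with_reducible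 apply IntF.isUnion | with_reducible apply IntF.iimage | with_reducible apply IntF.the | with_reducible apply IntF.irec | with_reducible_and_instances apply IntF.add | with_reducible_and_instances apply IntF.mul | with_reducible apply IntF.succ | with_reducible apply IntF.val | (with_reducible refine Int.comp ?_ ?_; assumption) | (with_reducible refine Int.comp₂ ?_ ?_ ?_; assumption) | (with_reducible refine Int.comp₃ ?_ ?_ ?_ ?_; assumption) | (with_reducible refine IntF.comp ?_ ?_; assumption) | (with_reducible refine IntF.comp₂ ?_ ?_ ?_; assumption) | (with_reducible refine IntF.comp₃ ?_ ?_ ?_ ?_; assumption) | with_reducible apply IntF.pair))) ?_ ?_).mono ?_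
  · rintro q k ⟨rfl, rfl⟩
    exact hp
  · rintro q k q' k' ⟨rfl, rfl⟩ ⟨rfl, rfl⟩ _
    exact ⟨rfl, rfl⟩
  · intro a ha
    obtain ⟨n, r, h1, h2, h3⟩ := (mem_Wv h).1 ha
    exact ⟨p, m, n, r, ⟨rfl, rfl⟩, h1, h2, h3⟩

theorem Wv_mono {p : π} {m m' : INat M} (hm : m ≤ m') : Wv le R p m ⊆ Wv le R p m' := by
  intro a ha
  obtain ⟨n, r, h1, h2, h3⟩ := (mem_Wv h).1 ha
  exact (mem_Wv h).2 ⟨n, r, h1.trans hm, h2, h3⟩

/-- The theorem: no condition of a forcing with the property `ccc₃` forces that the first
uncountable ordinal is countable. -/
theorem no_collapse (hw : IWO M lt) (hseg : ∀ b, Cnt M (fun x => lt x b))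
    (hunc : ¬ Cnt M (fun _ : β => True))
    (onto : ∀ p a, le p p₀ → ∃ q n, le q p ∧ R q n a) : False := by
  have hle := h.ile
  have hR := h.iR
  have hlt := hw.int
  have hW := int_Wv h
  have hC := int_Cmp hle
  have hO := int_OT hlt
  have hcov : ∀ p, le p p₀ → ∀ a, ∃ m, a ∈ Wv le R p m := by
    intro p hp a
    obtain ⟨q, n, h1, h2⟩ := onto p a hp
    exact ⟨n, (mem_Wv h).2 ⟨n, q, le_rfl, h1, h2⟩⟩
  -- some set of values is infinite
  have hinf : ∃ m, ¬ IFin (Wv le R p₀ m) := by
    by_contra h1
    push Not at h1
    exact hunc ((cnt_of_fin hlt hw.irr hw.tr hw.tri (W := fun m => Wv le R p₀ m) (by (repeat' (first | with_reducible exact IntF.id | with_reducible exact IntF.fst' | with_reducible exact IntF.snd' | with_reducible exact IntF.const _ | with_reducible exact Int.const _ | assumption | with_reducible apply Int.and | with_reducible apply Int.or | with_reducible apply Int.not | with_reducible apply Int.imp | with_reducible apply Int.iff | with_reducible apply Int.ne | with_reducible apply Int.eq | with_reducible apply Int.mem | with_reducible apply Int.subset | with_reducible apply Int.ltN | with_reducible apply Int.leN | with_reducible apply Int.fin | with_reducible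 apply Int.unique | with_reducible apply Int.all | with_reducible apply Int.ex | with_reducible apply IntF.fst | with_reducible apply IntF.snd | with_reducible apply IntF.app | with_reducible apply IntF.ite | with_reducible apply IntF.sep | with_reducible apply IntF.lam | with_reducible apply IntF.insert | with_reducible apply IntF.singleton | with_reducible apply IntF.union | with_reducible apply IntF.inter | with_reducible apply IntF.sdiff | with_reducible apply IntF.isUnion | with_reducible apply IntF.iimage | with_reducible apply IntF.the | with_reducible apply IntF.irec | with_reducible_and_instances apply IntF.add | with_reducible_and_instances apply IntF.mul | with_reducible apply IntF.succ | with_reducible apply IntF.val | (with_reducible refine Int.comp ?_ ?_; assumption) | (with_reducible refine Int.comp₂ ?_ ?_ ?_; assumption) | (with_reducible refine Int.comp₃ ?_ ?_ ?_ ?_; assumption) | (with_reducible refine IntF.comp ?_ ?_; assumption) | (with_reducible refine IntF.comp₂ ?_ ?_ ?_; assumption) | (with_reducible refine IntF.comp₃ ?_ ?_ ?_ ?_; assumption) | with_reducible apply IntF.pair)))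
      h1).mono fun a _ => hcov p₀ (h.refl p₀) a)
  have hinf' : ∃ n, ¬ FinP M (fun a => ∃ r, le r p₀ ∧ R r n a) := by
    by_contra h1
    push Not at h1
    obtain ⟨m, hm⟩ := hinf
    refine hm ?_
    obtain ⟨K, hK, hK'⟩ := finP_le m
    obtain ⟨G, hG⟩ := IFin.exists_bound
      (r := fun (k : INat M) (G : IPow M β) => IFin G ∧ ∀ a, (∃ r, le r p₀ ∧ R r k a) → a ∈ G)
      (by (repeat' (first | with_reducible exact IntF.id | with_reducible exact IntF.fst' | with_reducible exact IntF.snd' | with_reducible exact IntF.const _ | with_reducible exact Int.const _ | assumption | with_reducible apply Int.and | with_reducible apply Int.or | with_reducible apply Int.not | with_reducible apply Int.imp | with_reducible apply Int.iff | with_reducible apply Int.ne | with_reducible apply Int.eq | with_reducible apply Int.mem | with_reducible apply Int.subset | with_reducible apply Int.ltN | with_reducible apply Int.leN | with_reducible apply Int.fin | with_reducible apply Int.unique | with_reducible apply Int.all | with_reducible apply Int.ex | with_reducible apply IntF.fst | with_reducible apply IntF.snd | with_reducible apply IntF.app | with_reducible apply IntF.ite | with_reducible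 apply IntF.sep | with_reducible apply IntF.lam | with_reducible apply IntF.insert | with_reducible apply IntF.singleton | with_reducible apply IntF.union | with_reducible apply IntF.inter | with_reducible apply IntF.sdiff | with_reducible apply IntF.isUnion | with_reducible apply IntF.iimage | with_reducible apply IntF.the | with_reducible apply IntF.irec | with_reducible_and_instances apply IntF.add | with_reducible_and_instances apply IntF.mul | with_reducible apply IntF.succ | with_reducible apply IntF.val | (with_reducible refine Int.comp ?_ ?_; assumption) | (with_reducible refine Int.comp₂ ?_ ?_ ?_; assumption) | (with_reducible refine Int.comp₃ ?_ ?_ ?_ ?_; assumption) | (with_reducible refine IntF.comp ?_ ?_; assumption) | (with_reducible refine IntF.comp₂ ?_ ?_ ?_; assumption) | (with_reducible refine IntF.comp₃ ?_ ?_ ?_ ?_; assumption) | with_reducible apply IntF.pair))) (fun G₁ G₂ => by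
          by_cases h1 : IFin G₁ <;> by_cases h2 : IFin G₂
          · refine ⟨G₁ ∪ G₂, fun p hp => ⟨h1.union h2, fun j hj => ?_⟩⟩
            rcases hp with hp | hp
            · exact mem_union.2 (Or.inl (hp.2 j hj))
            · exact mem_union.2 (Or.inr (hp.2 j hj))
          · exact ⟨G₁, fun p hp => hp.elim id fun h => absurd h.1 h2⟩
          · exact ⟨G₂, fun p hp => hp.elim (fun h => absurd h.1 h1) id⟩
          · exact ⟨G₂, fun p hp => hp.elim (fun h => absurd h.1 h1) id⟩)
        ⟨∅⟩ hK (fun k _ => h1 k)
    refine (hG m (hK' m le_rfl)).1.subset fun a ha => ?_
    obtain ⟨n, r, h3, h4, h5⟩ := (mem_Wv h).1 ha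
    exact (hG n (hK' n h3)).2 a ⟨r, h4, h5⟩
  obtain ⟨n₁, hn₁⟩ := hinf'
  -- a countable set of conditions
  have hI : Int M (fun r => (le r p₀ ∧ ∃ a, R r n₁ a) ∨ ¬ Cmp le r p₀) := by (repeat' (first | with_reducible exact IntF.id | with_reducible exact IntF.fst' | with_reducible exact IntF.snd' | with_reducible exact IntF.const _ | with_reducible exact Int.const _ | assumption | with_reducible apply Int.and | with_reducible apply Int.or | with_reducible apply Int.not | with_reducible apply Int.imp | with_reducible apply Int.iff | with_reducible apply Int.ne | with_reducible apply Int.eq | with_reducible apply Int.mem | with_reducible apply Int.subset | with_reducible apply Int.ltN | with_reducible apply Int.leN | with_reducible apply Int.fin | with_reducible apply Int.unique | with_reducible apply Int.all | with_reducible apply Int.ex | with_reducible apply IntF.fst | with_reducible apply IntF.snd | with_reducible apply IntF.app | with_reducible apply IntF.ite | with_reducible apply IntF.sep | with_reducible apply IntF.lam | with_reducible apply IntF.insert | with_reducible apply IntF.singleton | with_reducible apply IntF.union | with_reducible apply IntF.inter | with_reducible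 apply IntF.sdiff | with_reducible apply IntF.isUnion | with_reducible apply IntF.iimage | with_reducible apply IntF.the | with_reducible apply IntF.irec | with_reducible_and_instances apply IntF.add | with_reducible_and_instances apply IntF.mul | with_reducible apply IntF.succ | with_reducible apply IntF.val | (with_reducible refine Int.comp ?_ ?_; assumption) | (with_reducible refine Int.comp₂ ?_ ?_ ?_; assumption) | (with_reducible refine Int.comp₃ ?_ ?_ ?_ ?_; assumption) | (with_reducible refine IntF.comp ?_ ?_; assumption) | (with_reducible refine IntF.comp₂ ?_ ?_ ?_; assumption) | (with_reducible refine IntF.comp₃ ?_ ?_ ?_ ?_; assumption) | with_reducible apply IntF.pair))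
  obtain ⟨D, h1, ⟨e, he⟩, h2⟩ := h.ccc (sep M fun r => (le r p₀ ∧ ∃ a, R r n₁ a) ∨
    ¬ Cmp le r p₀) (by
      intro p
      by_cases h3 : Cmp le p p₀
      · obtain ⟨s, h5, h6⟩ := h3
        obtain ⟨r, a, h7, h8⟩ := h.tot s n₁ h6
        exact ⟨r, (mem_sep hI).2 (Or.inl ⟨h.tr _ _ _ h7 h6, a, h8⟩),
          r, h.tr _ _ _ h7 h5, h.refl r⟩
      · exact ⟨p, (mem_sep hI).2 (Or.inr h3), p, h.refl p, h.refl p⟩)
  have hD : ∀ a, (∃ r, le r p₀ ∧ R r n₁ a) → ∃ d, d ∈ D ∧ le d p₀ ∧ R d n₁ a := by
    rintro a ⟨r, h3, h4⟩
    obtain ⟨d, h7, t, h8, h9⟩ := h2 r
    rcases (mem_sep hI).1 (h1 d h7) with ⟨h10, b, h11⟩ | h10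
    · have hab : a = b := h.fn t n₁ a b (h.tr _ _ _ h9 h10) (h.down _ _ _ _ h4 h8)
        (h.down _ _ _ _ h11 h9)
      exact ⟨d, h7, h10, hab ▸ h11⟩
    · exact absurd ⟨t, h9, h.tr _ _ _ h8 h3⟩ h10
  -- the least index
  let K : INat M → β → Prop := fun k a => ∃ d, d ∈ D ∧ le d p₀ ∧ R d n₁ a ∧ e d = k
  have hKI : Int M (fun q : INat M × β => ∃ d, d ∈ D ∧ le d p₀ ∧ R d n₁ q.2 ∧ e d = q.1) := by
    (repeat' (first | with_reducible exact IntF.id | with_reducible exact IntF.fst' | with_reducible exact IntF.snd' | with_reducible exact IntF.const _ | with_reducible exact Int.const _ | assumption | with_reducible apply Int.and | with_reducible apply Int.or | with_reducible apply Int.not | with_reducible apply Int.imp | with_reducible apply Int.iff | with_reducible apply Int.ne | with_reducible apply Int.eq | with_reducible apply Int.mem | with_reducible apply Int.subset | with_reducible apply Int.ltN | with_reducible apply Int.leN | with_reducible apply Int.fin | with_reducible apply Int.unique | with_reducible apply Int.all | with_reducible apply Int.ex | with_reducible apply IntF.fst | with_reducible apply IntF.snd | with_reducible apply IntF.app | with_reducible apply IntF.ite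 | with_reducible apply IntF.sep | with_reducible apply IntF.lam | with_reducible apply IntF.insert | with_reducible apply IntF.singleton | with_reducible apply IntF.union | with_reducible apply IntF.inter | with_reducible apply IntF.sdiff | with_reducible apply IntF.isUnion | with_reducible apply IntF.iimage | with_reducible apply IntF.the | with_reducible apply IntF.irec | with_reducible_and_instances apply IntF.add | with_reducible_and_instances apply IntF.mul | with_reducible apply IntF.succ | with_reducible apply IntF.val | (with_reducible refine Int.comp ?_ ?_; assumption) | (with_reducible refine Int.comp₂ ?_ ?_ ?_; assumption) | (with_reducible refine Int.comp₃ ?_ ?_ ?_ ?_; assumption) | (with_reducible refine IntF.comp ?_ ?_; assumption) | (with_reducible refine IntF.comp₂ ?_ ?_ ?_; assumption) | (with_reducible refine IntF.comp₃ ?_ ?_ ?_ ?_; assumption) | with_reducible apply IntF.pair))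
  have hKI' : Int M (fun q : INat M × β => K q.1 q.2) := hKI
  let mk : π → Prop := fun d => d ∈ D ∧ le d p₀ ∧ ∃ a, R d n₁ a ∧ ∀ k, K k a → e d ≤ k
  have hmI : Int M (fun d => d ∈ D ∧ le d p₀ ∧ ∃ a, R d n₁ a ∧ ∀ k, K k a → e d ≤ k) := by
    (repeat' (first | with_reducible exact IntF.id | with_reducible exact IntF.fst' | with_reducible exact IntF.snd' | with_reducible exact IntF.const _ | with_reducible exact Int.const _ | assumption | with_reducible apply Int.and | with_reducible apply Int.or | with_reducible apply Int.not | with_reducible apply Int.imp | with_reducible apply Int.iff | with_reducible apply Int.ne | with_reducible apply Int.eq | with_reducible apply Int.mem | with_reducible apply Int.subset | with_reducible apply Int.ltN | with_reducible apply Int.leN | with_reducible apply Int.fin | with_reducible apply Int.unique | with_reducible apply Int.all | with_reducible apply Int.ex | with_reducible apply IntF.fst | with_reducible apply IntF.snd | with_reducible apply IntF.app | with_reducible apply IntF.ite | with_reducible apply IntF.sep | with_reducible apply IntF.lam | with_reducible apply IntF.insert | with_reducible apply IntF.singleton | with_reducible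 apply IntF.union | with_reducible apply IntF.inter | with_reducible apply IntF.sdiff | with_reducible apply IntF.isUnion | with_reducible apply IntF.iimage | with_reducible apply IntF.the | with_reducible apply IntF.irec | with_reducible_and_instances apply IntF.add | with_reducible_and_instances apply IntF.mul | with_reducible apply IntF.succ | with_reducible apply IntF.val | (with_reducible refine Int.comp ?_ ?_; assumption) | (with_reducible refine Int.comp₂ ?_ ?_ ?_; assumption) | (with_reducible refine Int.comp₃ ?_ ?_ ?_ ?_; assumption) | (with_reducible refine IntF.comp ?_ ?_; assumption) | (with_reducible refine IntF.comp₂ ?_ ?_ ?_; assumption) | (with_reducible refine IntF.comp₃ ?_ ?_ ?_ ?_; assumption) | with_reducible apply IntF.pair))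
  have hmI' : Int M (fun d => mk d) := hmI
  have hmk : ∀ a, (∃ r, le r p₀ ∧ R r n₁ a) → ∃ d, mk d ∧ R d n₁ a := by
    intro a ha
    obtain ⟨d, h3, h4, h5⟩ := hD a ha
    obtain ⟨k, ⟨d', h6, h7, h8, h9⟩, h10⟩ := INat.exists_least (p := fun k => K k a)
      (by (repeat' (first | with_reducible exact IntF.id | with_reducible exact IntF.fst' | with_reducible exact IntF.snd' | with_reducible exact IntF.const _ | with_reducible exact Int.const _ | assumption | with_reducible apply Int.and | with_reducible apply Int.or | with_reducible apply Int.not | with_reducible apply Int.imp | with_reducible apply Int.iff | with_reducible apply Int.ne | with_reducible apply Int.eq | with_reducible apply Int.mem | with_reducible apply Int.subset | with_reducible apply Int.ltN | with_reducible apply Int.leN | with_reducible apply Int.fin | with_reducible apply Int.unique | with_reducible apply Int.all | with_reducible apply Int.ex | with_reducible apply IntF.fst | with_reducible apply IntF.snd | with_reducible apply IntF.app | with_reducible apply IntF.ite | with_reducible apply IntF.sep | with_reducible apply IntF.lam | with_reducible apply IntF.insert | with_reducible apply IntF.singleton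 | with_reducible apply IntF.union | with_reducible apply IntF.inter | with_reducible apply IntF.sdiff | with_reducible apply IntF.isUnion | with_reducible apply IntF.iimage | with_reducible apply IntF.the | with_reducible apply IntF.irec | with_reducible_and_instances apply IntF.add | with_reducible_and_instances apply IntF.mul | with_reducible apply IntF.succ | with_reducible apply IntF.val | (with_reducible refine Int.comp ?_ ?_; assumption) | (with_reducible refine Int.comp₂ ?_ ?_ ?_; assumption) | (with_reducible refine Int.comp₃ ?_ ?_ ?_ ?_; assumption) | (with_reducible refine IntF.comp ?_ ?_; assumption) | (with_reducible refine IntF.comp₂ ?_ ?_ ?_; assumption) | (with_reducible refine IntF.comp₃ ?_ ?_ ?_ ?_; assumption) | with_reducible apply IntF.pair))) ⟨e d, d, h3, h4, h5, rfl⟩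
    exact ⟨d', ⟨h6, h7, a, h8, fun k hk => h9.symm ▸ h10 k hk⟩, h8⟩
  have hmk2 : ∀ d d', mk d → mk d' → Cmp le d d' → d = d' := by
    rintro d d' ⟨h3, h4, a, h5, h6⟩ ⟨h7, h8, b, h9, h10⟩ ⟨t, h11, h12⟩
    have hab : a = b := h.fn t n₁ a b (h.tr _ _ _ h11 h4) (h.down _ _ _ _ h5 h11)
      (h.down _ _ _ _ h9 h12)
    subst hab
    exact he d d' h3 h7 (le_antisymm (h6 _ ⟨d', h7, h8, h9, rfl⟩) (h10 _ ⟨d, h3, h4, h5, rfl⟩))
  have hunb : ∀ N, ∃ d, mk d ∧ N < e d := by
    intro N
    by_contra h3
    push Not at h3
    refine hn₁ ?_
    have hf : IntF M (fun a => the (fun k => ∃ d, mk d ∧ R d n₁ a ∧ e d = k) 0) := by (repeat' (first | with_reducible exact IntF.id | with_reducible exact IntF.fst' | with_reducible exact IntF.snd' | with_reducible exact IntF.const _ | with_reducible exact Int.const _ | assumption | with_reducible apply Int.and | with_reducible apply Int.or | with_reducible apply Int.not | with_reducible apply Int.imp | with_reducible apply Int.iff | with_reducible apply Int.ne | with_reducible apply Int.eq | with_reducible apply Int.mem | with_reducible apply Int.subset | with_reducible apply Int.ltN | with_reducible apply Int.leN | with_reducible apply Int.fin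 | with_reducible apply Int.unique | with_reducible apply Int.all | with_reducible apply Int.ex | with_reducible apply IntF.fst | with_reducible apply IntF.snd | with_reducible apply IntF.app | with_reducible apply IntF.ite | with_reducible apply IntF.sep | with_reducible apply IntF.lam | with_reducible apply IntF.insert | with_reducible apply IntF.singleton | with_reducible apply IntF.union | with_reducible apply IntF.inter | with_reducible apply IntF.sdiff | with_reducible apply IntF.isUnion | with_reducible apply IntF.iimage | with_reducible apply IntF.the | with_reducible apply IntF.irec | with_reducible_and_instances apply IntF.add | with_reducible_and_instances apply IntF.mul | with_reducible apply IntF.succ | with_reducible apply IntF.val | (with_reducible refine Int.comp ?_ ?_; assumption) | (with_reducible refine Int.comp₂ ?_ ?_ ?_; assumption) | (with_reducible refine Int.comp₃ ?_ ?_ ?_ ?_; assumption) | (with_reducible refine IntF.comp ?_ ?_; assumption) | (with_reducible refine IntF.comp₂ ?_ ?_ ?_; assumption) | (with_reducible refine IntF.comp₃ ?_ ?_ ?_ ?_; assumption) | with_reducible apply IntF.pair))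
    have h4 : ∀ a, (∃ r, le r p₀ ∧ R r n₁ a) → ∃ d, mk d ∧ R d n₁ a ∧
        the (fun k => ∃ d, mk d ∧ R d n₁ a ∧ e d = k) 0 = e d := by
      intro a ha
      obtain ⟨d, h4, h5⟩ := hmk a ha
      refine ⟨d, h4, h5, the_eq ⟨e d, ⟨d, h4, h5, rfl⟩, ?_⟩ ⟨d, h4, h5, rfl⟩⟩
      rintro k ⟨d', h6, h7, rfl⟩
      obtain ⟨h8, h9, b, h10, h11⟩ := h4
      obtain ⟨h12, h13, b', h14, h15⟩ := h6
      obtain rfl := h.fn _ _ _ _ h9 h5 h10
      obtain rfl := h.fn _ _ _ _ h13 h7 h14
      exact le_antisymm (h15 _ ⟨d, h8, h9, h5, rfl⟩) (h11 _ ⟨d', h12, h13, h7, rfl⟩)
    refine FinP.of_inj (by (repeat' (first | with_reducible exact IntF.id | with_reducible exact IntF.fst' | with_reducible exact IntF.snd' | with_reducible exact IntF.const _ | with_reducible exact Int.const _ | assumption | with_reducible apply Int.and | with_reducible apply Int.or | with_reducible apply Int.not | with_reducible apply Int.imp | with_reducible apply Int.iff | with_reducible apply Int.ne | with_reducible apply Int.eq | with_reducible apply Int.mem | with_reducible apply Int.subset | with_reducible apply Int.ltN | with_reducible apply Int.leN | with_reducible apply Int.fin | with_reducible apply Int.unique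 | with_reducible apply Int.all | with_reducible apply Int.ex | with_reducible apply IntF.fst | with_reducible apply IntF.snd | with_reducible apply IntF.app | with_reducible apply IntF.ite | with_reducible apply IntF.sep | with_reducible apply IntF.lam | with_reducible apply IntF.insert | with_reducible apply IntF.singleton | with_reducible apply IntF.union | with_reducible apply IntF.inter | with_reducible apply IntF.sdiff | with_reducible apply IntF.isUnion | with_reducible apply IntF.iimage | with_reducible apply IntF.the | with_reducible apply IntF.irec | with_reducible_and_instances apply IntF.add | with_reducible_and_instances apply IntF.mul | with_reducible apply IntF.succ | with_reducible apply IntF.val | (with_reducible refine Int.comp ?_ ?_; assumption) | (with_reducible refine Int.comp₂ ?_ ?_ ?_; assumption) | (with_reducible refine Int.comp₃ ?_ ?_ ?_ ?_; assumption) | (with_reducible refine IntF.comp ?_ ?_; assumption) | (with_reducible refine IntF.comp₂ ?_ ?_ ?_; assumption) | (with_reducible refine IntF.comp₃ ?_ ?_ ?_ ?_; assumption) | with_reducible apply IntF.pair))) hf (fun a b ha hb hab => ?_) (finP_le N) fun a ha => ?_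
    · obtain ⟨d, h5, h6, h7⟩ := h4 a ha
      obtain ⟨d', h8, h9, h10⟩ := h4 b hb
      obtain rfl := he d d' h5.1 h8.1 (h7.symm.trans (hab.trans h10))
      exact h.fn _ _ _ _ h5.2.1 h6 h9
    · obtain ⟨d, h5, h6, h7⟩ := h4 a ha
      rw [h7]
      exact h3 d h5
  -- the levels
  let G : π → INat M → Prop := fun q m => ∀ b, OT M lt (Wv le R q m) b →
    OT M lt (Wv le R p₀ (e q)) b
  have hGI : Int M (fun q : π × INat M => ∀ b, OT M lt (Wv le R q.1 q.2) b →
    OT M lt (Wv le R p₀ (e q.1)) b) := by (repeat' (first | with_reducible exact IntF.id | with_reducible exact IntF.fst' | with_reducible exact IntF.snd' | with_reducible exact IntF.const _ | with_reducible exact Int.const _ | assumption | with_reducible apply Int.and | with_reducible apply Int.or | with_reducible apply Int.not | with_reducible apply Int.imp | with_reducible apply Int.iff | with_reducible apply Int.ne | with_reducible apply Int.eq | with_reducible apply Int.mem | with_reducible apply Int.subset | with_reducible apply Int.ltN | with_reducible apply Int.leN | with_reducible apply Int.fin | with_reducible apply Int.unique | with_reducible apply Int.all | with_reducible apply Int.ex | with_reducible apply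 IntF.fst | with_reducible apply IntF.snd | with_reducible apply IntF.app | with_reducible apply IntF.ite | with_reducible apply IntF.sep | with_reducible apply IntF.lam | with_reducible apply IntF.insert | with_reducible apply IntF.singleton | with_reducible apply IntF.union | with_reducible apply IntF.inter | with_reducible apply IntF.sdiff | with_reducible apply IntF.isUnion | with_reducible apply IntF.iimage | with_reducible apply IntF.the | with_reducible apply IntF.irec | with_reducible_and_instances apply IntF.add | with_reducible_and_instances apply IntF.mul | with_reducible apply IntF.succ | with_reducible apply IntF.val | (with_reducible refine Int.comp ?_ ?_; assumption) | (with_reducible refine Int.comp₂ ?_ ?_ ?_; assumption) | (with_reducible refine Int.comp₃ ?_ ?_ ?_ ?_; assumption) | (with_reducible refine IntF.comp ?_ ?_; assumption) | (with_reducible refine IntF.comp₂ ?_ ?_ ?_; assumption) | (with_reducible refine IntF.comp₃ ?_ ?_ ?_ ?_; assumption) | with_reducible apply IntF.pair))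
  have hGI' : Int M (fun q : π × INat M => G q.1 q.2) := hGI
  have hG : ∀ q, le q p₀ → ∃ m, G q m := by
    intro q hq
    by_contra h3
    have h4 : ∀ m, ∃ b, OT M lt (Wv le R q m) b ∧ ¬ OT M lt (Wv le R p₀ (e q)) b := by
      intro m
      by_contra h4
      push Not at h4
      exact h3 ⟨m, h4⟩
    obtain ⟨c, hc⟩ := exists_OT hw hunc (cnt_Wv h (h.refl p₀) (e q))
    refine hunc ((cnt_of_OT hw hseg (W := fun m => Wv le R q m) (by (repeat' (first | with_reducible exact IntF.id | with_reducible exact IntF.fst' | with_reducible exact IntF.snd' | with_reducible exact IntF.const _ | with_reducible exact Int.const _ | assumption | with_reducible apply Int.and | with_reducible apply Int.or | with_reducible apply Int.not | with_reducible apply Int.imp | with_reducible apply Int.iff | with_reducible apply Int.ne | with_reducible apply Int.eq | with_reducible apply Int.mem | with_reducible apply Int.subset | with_reducible apply Int.ltN | with_reducible apply Int.leN | with_reducible apply Int.fin | with_reducible apply Int.unique | with_reducible apply Int.all | with_reducible apply Int.ex | with_reducible apply IntF.fst | with_reducible apply IntF.snd | with_reducible apply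 IntF.app | with_reducible apply IntF.ite | with_reducible apply IntF.sep | with_reducible apply IntF.lam | with_reducible apply IntF.insert | with_reducible apply IntF.singleton | with_reducible apply IntF.union | with_reducible apply IntF.inter | with_reducible apply IntF.sdiff | with_reducible apply IntF.isUnion | with_reducible apply IntF.iimage | with_reducible apply IntF.the | with_reducible apply IntF.irec | with_reducible_and_instances apply IntF.add | with_reducible_and_instances apply IntF.mul | with_reducible apply IntF.succ | with_reducible apply IntF.val | (with_reducible refine Int.comp ?_ ?_; assumption) | (with_reducible refine Int.comp₂ ?_ ?_ ?_; assumption) | (with_reducible refine Int.comp₃ ?_ ?_ ?_ ?_; assumption) | (with_reducible refine IntF.comp ?_ ?_; assumption) | (with_reducible refine IntF.comp₂ ?_ ?_ ?_; assumption) | (with_reducible refine IntF.comp₃ ?_ ?_ ?_ ?_; assumption) | with_reducible apply IntF.pair))) (b := c)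
      fun m => ?_).mono fun a _ => hcov q hq a)
    obtain ⟨b, h5, h6⟩ := h4 m
    exact OT_le hw h5 fun h7 => h6 (OT_le hw hc fun h8 => hw.irr _ (hw.tr _ _ _ h7 h8))
  -- the antichain
  let A : π → INat M → Prop := fun q m => mk q ∧ G q m ∧ ∀ m', G q m' → m ≤ m'
  have hA : Int M (fun q : π × INat M => mk q.1 ∧ G q.1 q.2 ∧ ∀ m', G q.1 m' → q.2 ≤ m') := by
    (repeat' (first | with_reducible exact IntF.id | with_reducible exact IntF.fst' | with_reducible exact IntF.snd' | with_reducible exact IntF.const _ | with_reducible exact Int.const _ | assumption | with_reducible apply Int.and | with_reducible apply Int.or | with_reducible apply Int.not | with_reducible apply Int.imp | with_reducible apply Int.iff | with_reducible apply Int.ne | with_reducible apply Int.eq | with_reducible apply Int.mem | with_reducible apply Int.subset | with_reducible apply Int.ltN | with_reducible apply Int.leN | with_reducible apply Int.fin | with_reducible apply Int.unique | with_reducible apply Int.all | with_reducible apply Int.ex | with_reducible apply IntF.fst | with_reducible apply IntF.snd | with_reducible apply IntF.app | with_reducible apply IntF.ite | with_reducible apply IntF.sep |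 with_reducible apply IntF.lam | with_reducible apply IntF.insert | with_reducible apply IntF.singleton | with_reducible apply IntF.union | with_reducible apply IntF.inter | with_reducible apply IntF.sdiff | with_reducible apply IntF.isUnion | with_reducible apply IntF.iimage | with_reducible apply IntF.the | with_reducible apply IntF.irec | with_reducible_and_instances apply IntF.add | with_reducible_and_instances apply IntF.mul | with_reducible apply IntF.succ | with_reducible apply IntF.val | (with_reducible refine Int.comp ?_ ?_; assumption) | (with_reducible refine Int.comp₂ ?_ ?_ ?_; assumption) | (with_reducible refine Int.comp₃ ?_ ?_ ?_ ?_; assumption) | (with_reducible refine IntF.comp ?_ ?_; assumption) | (with_reducible refine IntF.comp₂ ?_ ?_ ?_; assumption) | (with_reducible refine IntF.comp₃ ?_ ?_ ?_ ?_; assumption) | with_reducible apply IntF.pair))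
  have h3 := cnt_values h (A := A) hA (fun q m hq => hq.1.2.1) (by
    intro q m q' m' hq hq' hc
    obtain rfl := hmk2 q q' hq.1 hq'.1 hc
    exact ⟨rfl, le_antisymm (hq.2.2 _ hq'.2.1) (hq'.2.2 _ hq.2.1)⟩)
  have hA' : Int M (fun q : π × INat M => A q.1 q.2) := hA
  have hS : Int M (fun a => ∃ q m n r, A q m ∧ n ≤ m ∧ le r q ∧ R r n a) := by (repeat' (first | with_reducible exact IntF.id | with_reducible exact IntF.fst' | with_reducible exact IntF.snd' | with_reducible exact IntF.const _ | with_reducible exact Int.const _ | assumption | with_reducible apply Int.and | with_reducible apply Int.or | with_reducible apply Int.not | with_reducible apply Int.imp | with_reducible apply Int.iff | with_reducible apply Int.ne | with_reducible apply Int.eq | with_reducible apply Int.mem | with_reducible apply Int.subset | with_reducible apply Int.ltN | with_reducible apply Int.leN | with_reducible apply Int.fin | with_reducible apply Int.unique | with_reducible apply Int.all | with_reducible apply Int.ex | with_reducible apply IntF.fst | with_reducible apply IntF.snd | with_reducible apply IntF.app | with_reducible apply IntF.ite | with_reducible apply IntF.sep | with_reducible apply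 IntF.lam | with_reducible apply IntF.insert | with_reducible apply IntF.singleton | with_reducible apply IntF.union | with_reducible apply IntF.inter | with_reducible apply IntF.sdiff | with_reducible apply IntF.isUnion | with_reducible apply IntF.iimage | with_reducible apply IntF.the | with_reducible apply IntF.irec | with_reducible_and_instances apply IntF.add | with_reducible_and_instances apply IntF.mul | with_reducible apply IntF.succ | with_reducible apply IntF.val | (with_reducible refine Int.comp ?_ ?_; assumption) | (with_reducible refine Int.comp₂ ?_ ?_ ?_; assumption) | (with_reducible refine Int.comp₃ ?_ ?_ ?_ ?_; assumption) | (with_reducible refine IntF.comp ?_ ?_; assumption) | (with_reducible refine IntF.comp₂ ?_ ?_ ?_; assumption) | (with_reducible refine IntF.comp₃ ?_ ?_ ?_ ?_; assumption) | with_reducible apply IntF.pair))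
  obtain ⟨b, hb⟩ := exists_OT hw hunc (S := sep M fun a => ∃ q m n r, A q m ∧ n ≤ m ∧ le r q ∧
    R r n a) (h3.mono fun a ha => (mem_sep hS).1 ha)
  refine hunc ((cnt_of_OT hw hseg (W := fun m => Wv le R p₀ m) (by (repeat' (first | with_reducible exact IntF.id | with_reducible exact IntF.fst' | with_reducible exact IntF.snd' | with_reducible exact IntF.const _ | with_reducible exact Int.const _ | assumption | with_reducible apply Int.and | with_reducible apply Int.or | with_reducible apply Int.not | with_reducible apply Int.imp | with_reducible apply Int.iff | with_reducible apply Int.ne | with_reducible apply Int.eq | with_reducible apply Int.mem | with_reducible apply Int.subset | with_reducible apply Int.ltN | with_reducible apply Int.leN | with_reducible apply Int.fin | with_reducible apply Int.unique | with_reducible apply Int.all | with_reducible apply Int.ex | with_reducible apply IntF.fst | with_reducible apply IntF.snd | with_reducible apply IntF.app | with_reducible apply IntF.ite | with_reducible apply IntF.sep | with_reducible apply IntF.lam | with_reducible apply IntF.insert | with_reducible apply IntF.singleton | with_reducible apply IntF.union | with_reducible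 apply IntF.inter | with_reducible apply IntF.sdiff | with_reducible apply IntF.isUnion | with_reducible apply IntF.iimage | with_reducible apply IntF.the | with_reducible apply IntF.irec | with_reducible_and_instances apply IntF.add | with_reducible_and_instances apply IntF.mul | with_reducible apply IntF.succ | with_reducible apply IntF.val | (with_reducible refine Int.comp ?_ ?_; assumption) | (with_reducible refine Int.comp₂ ?_ ?_ ?_; assumption) | (with_reducible refine Int.comp₃ ?_ ?_ ?_ ?_; assumption) | (with_reducible refine IntF.comp ?_ ?_; assumption) | (with_reducible refine IntF.comp₂ ?_ ?_ ?_; assumption) | (with_reducible refine IntF.comp₃ ?_ ?_ ?_ ?_; assumption) | with_reducible apply IntF.pair))) (b := b)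
    fun m => ?_).mono fun a _ => hcov p₀ (h.refl p₀) a)
  obtain ⟨q, hq, hmq⟩ := hunb m
  obtain ⟨k, h4, h5⟩ := INat.exists_least (p := fun k => G q k) (by (repeat' (first | with_reducible exact IntF.id | with_reducible exact IntF.fst' | with_reducible exact IntF.snd' | with_reducible exact IntF.const _ | with_reducible exact Int.const _ | assumption | with_reducible apply Int.and | with_reducible apply Int.or | with_reducible apply Int.not | with_reducible apply Int.imp | with_reducible apply Int.iff | with_reducible apply Int.ne | with_reducible apply Int.eq | with_reducible apply Int.mem | with_reducible apply Int.subset | with_reducible apply Int.ltN | with_reducible apply Int.leN | with_reducible apply Int.fin | with_reducible apply Int.unique | with_reducible apply Int.all | with_reducible apply Int.ex | with_reducible apply IntF.fst | with_reducible apply IntF.snd | with_reducible apply IntF.app | with_reducible apply IntF.ite | with_reducible apply IntF.sep | with_reducible apply IntF.lam | with_reducible apply IntF.insert | with_reducible apply IntF.singleton | with_reducible apply IntF.union | with_reducible apply IntF.inter | with_reducible apply IntF.sdiff |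 with_reducible apply IntF.isUnion | with_reducible apply IntF.iimage | with_reducible apply IntF.the | with_reducible apply IntF.irec | with_reducible_and_instances apply IntF.add | with_reducible_and_instances apply IntF.mul | with_reducible apply IntF.succ | with_reducible apply IntF.val | (with_reducible refine Int.comp ?_ ?_; assumption) | (with_reducible refine Int.comp₂ ?_ ?_ ?_; assumption) | (with_reducible refine Int.comp₃ ?_ ?_ ?_ ?_; assumption) | (with_reducible refine IntF.comp ?_ ?_; assumption) | (with_reducible refine IntF.comp₂ ?_ ?_ ?_; assumption) | (with_reducible refine IntF.comp₃ ?_ ?_ ?_ ?_; assumption) | with_reducible apply IntF.pair))) (hG q hq.2.1)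
  refine OT_mono hw (Wv_mono h hmq.le) (h4 b (OT_mono hw ?_ hb))
  intro a ha
  obtain ⟨n, r, h6, h7, h8⟩ := (mem_Wv h).1 ha
  exact (mem_sep hS).2 ⟨q, k, n, r, ⟨hq, h4, h5⟩, h6, h7, h8⟩

end

end Pool.Agent.Q212.ZD
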