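import Pool.Agent.Q212.ZD2

/-!
# The forcing relation for the values of names in the ground model, and generic filters
-/

set_option maxHeartbeats 1000000
set_option linter.all false

namespace Pool.Agent.Q212.ZD

open FirstOrder FirstOrder.Language
open Pool.Agent.Helper672.ZFA
open Pool.Agent.H310
open Pool.Agent.Q212.ZA
open Pool.Agent.Q212.ZB

universe u u₁ u₂ u₃ u₄

variable {M : Type u} [L.Structure M] [hM : IsModel M]
variable {π : Type u₁} {β : Type u₂} {υ : Type u₃} [ITy M π] [ITy M β] [ITy M υ]

/-! ### The forcing relation -/

/-- The clauses for the relation that `p` forces that the value of `ρ` is `x`. -/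
def Cl (le : π → π → Prop) (mm : υ → υ → Prop) (Nr : υ → υ → π → Prop)
    (H : IPow M ((π × υ) × υ)) (p : π) (ρ x : υ) : Prop :=
  (∀ t s, Nr ρ t s → ∀ q, le q p → le q s → ∃ r y, le r q ∧ mm y x ∧ ((r, t), y) ∈ H) ∧
    ∀ y, mm y x → ∀ q, le q p → ∃ r t s, le r q ∧ le r s ∧ Nr ρ t s ∧ ((r, t), y) ∈ H

variable (M) in
/-- The relation that `p` forces that the value of `ρ` is `x`. -/
def FE (le : π → π → Prop) (mm : υ → υ → Prop) (Nr : υ → υ → π → Prop) (p : π) (ρ x : υ) :
    Prop :=
  ∃ H : IPow M ((π × υ) × υ), (∀ p ρ x, ((p, ρ), x) ∈ H → Cl le mm Nr H p ρ x) ∧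
    ((p, ρ), x) ∈ H

section

variable {le : π → π → Prop} {mm : υ → υ → Prop} {Nr : υ → υ → π → Prop}
  (hle : Int M (fun q : π × π => le q.1 q.2)) (hmm : Int M (fun q : υ × υ => mm q.1 q.2))
  (hNr : Int M (fun q : (υ × υ) × π => Nr q.1.1 q.1.2 q.2))
include hle hmm hNr

theorem int_Cl : Int M (fun q : ((IPow M ((π × υ) × υ) × π) × υ) × υ =>
    Cl le mm Nr q.1.1.1 q.1.1.2 q.1.2 q.2) := by
  unfold Cl
  (repeat' (first | with_reducible exact IntF.id | with_reducible exact IntF.fst' | with_reducible exact IntF.snd' | with_reducible exact IntF.const _ | with_reducible exact Int.const _ | assumption | with_reducible apply Int.and | with_reducible apply Int.or | with_reducible apply Int.not | with_reducible apply Int.imp | with_reducible apply Int.iff | with_reducible apply Int.ne | with_reducible apply Int.eq | with_reducible apply Int.mem | with_reducible apply Int.subset | with_reducible apply Int.ltN | with_reducible apply Int.leN | with_reducible apply Int.fin | with_reducible apply Int.unique | with_reducible apply Int.all | with_reducible apply Int.ex | with_reducible apply IntF.fst | with_reducible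 apply IntF.snd | with_reducible apply IntF.app | with_reducible apply IntF.ite | with_reducible apply IntF.sep | with_reducible apply IntF.lam | with_reducible apply IntF.insert | with_reducible apply IntF.singleton | with_reducible apply IntF.union | with_reducible apply IntF.inter | with_reducible apply IntF.sdiff | with_reducible apply IntF.isUnion | with_reducible apply IntF.iimage | with_reducible apply IntF.the | with_reducible apply IntF.irec | with_reducible_and_instances apply IntF.add | with_reducible_and_instances apply IntF.mul | with_reducible apply IntF.succ | with_reducible apply IntF.val | (with_reducible refine Int.comp ?_ ?_; assumption) | (with_reducible refine Int.comp₂ ?_ ?_ ?_; assumption) | (with_reducible refine Int.comp₃ ?_ ?_ ?_ ?_; assumption) | (with_reducible refine IntF.comp ?_ ?_; assumption) | (with_reducible refine IntF.comp₂ ?_ ?_ ?_; assumption) | (with_reducible refine IntF.comp₃ ?_ ?_ ?_ ?_; assumption) | (with_reducible refine Int.comp₄ ?_ ?_ ?_ ?_ ?_; assumption) | with_reducible apply IntF.pair))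

theorem int_FE : Int M (fun q : (π × υ) × υ => FE M le mm Nr q.1.1 q.1.2 q.2) := by
  have h := int_Cl hle hmm hNr
  unfold FE
  (repeat' (first | with_reducible exact IntF.id | with_reducible exact IntF.fst' | with_reducible exact IntF.snd' | with_reducible exact IntF.const _ | with_reducible exact Int.const _ | assumption | with_reducible apply Int.and | with_reducible apply Int.or | with_reducible apply Int.not | with_reducible apply Int.imp | with_reducible apply Int.iff | with_reducible apply Int.ne | with_reducible apply Int.eq | with_reducible apply Int.mem | with_reducible apply Int.subset | with_reducible apply Int.ltN | with_reducible apply Int.leN | with_reducible apply Int.fin | with_reducible apply Int.unique | with_reducible apply Int.all | with_reducible apply Int.ex | with_reducible apply IntF.fst | with_reducible apply IntF.snd | with_reducible apply IntF.app | with_reducible apply IntF.ite | with_reducible apply IntF.sep | with_reducible apply IntF.lam | with_reducible apply IntF.insert | with_reducible apply IntF.singleton | with_reducible apply IntF.union | with_reducible apply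 IntF.inter | with_reducible apply IntF.sdiff | with_reducible apply IntF.isUnion | with_reducible apply IntF.iimage | with_reducible apply IntF.the | with_reducible apply IntF.irec | with_reducible_and_instances apply IntF.add | with_reducible_and_instances apply IntF.mul | with_reducible apply IntF.succ | with_reducible apply IntF.val | (with_reducible refine Int.comp ?_ ?_; assumption) | (with_reducible refine Int.comp₂ ?_ ?_ ?_; assumption) | (with_reducible refine Int.comp₃ ?_ ?_ ?_ ?_; assumption) | (with_reducible refine IntF.comp ?_ ?_; assumption) | (with_reducible refine IntF.comp₂ ?_ ?_ ?_; assumption) | (with_reducible refine IntF.comp₃ ?_ ?_ ?_ ?_; assumption) | (with_reducible refine Int.comp₄ ?_ ?_ ?_ ?_ ?_; assumption) | with_reducible apply IntF.pair))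

theorem Cl.mono {H H' : IPow M ((π × υ) × υ)} (hH : H ⊆ H') {p : π} {ρ x : υ}
    (h : Cl le mm Nr H p ρ x) : Cl le mm Nr H' p ρ x := by
  obtain ⟨h1, h2⟩ := h
  refine ⟨fun t s h3 q h4 h5 => ?_, fun y h3 q h4 => ?_⟩
  · obtain ⟨r, y, h6, h7, h8⟩ := h1 t s h3 q h4 h5
    exact ⟨r, y, h6, h7, hH _ h8⟩
  · obtain ⟨r, t, s, h6, h7, h8, h9⟩ := h2 y h3 q h4
    exact ⟨r, t, s, h6, h7, h8, hH _ h9⟩

theorem FE_iff {p : π} {ρ x : υ} : FE M le mm Nr p ρ x ↔
    (∀ t s, Nr ρ t s → ∀ q, le q p → le q s → ∃ r y, le r q ∧ mm y x ∧ FE M le mm Nr r t y) ∧
      ∀ y, mm y x → ∀ q, le q p → ∃ r t s, le r q ∧ le r s ∧ Nr ρ t s ∧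
        FE M le mm Nr r t y := by
  have hF := int_FE hle hmm hNr
  have hC := int_Cl hle hmm hNr
  have hI : Int M (fun c : (π × υ) × υ => FE M le mm Nr c.1.1 c.1.2 c.2) := hF
  constructor
  · rintro ⟨H, h1, h2⟩
    obtain ⟨h3, h4⟩ := h1 _ _ _ h2
    refine ⟨fun t s h5 q h6 h7 => ?_, fun y h5 q h6 => ?_⟩
    · obtain ⟨r, y, h8, h9, h10⟩ := h3 t s h5 q h6 h7
      exact ⟨r, y, h8, h9, H, h1, h10⟩
    · obtain ⟨r, t, s, h8, h9, h10, h11⟩ := h4 y h5 q h6
      exact ⟨r, t, s, h8, h9, h10, H, h1, h11⟩
  · rintro ⟨h3, h4⟩
    have hI2 : Int M (fun c : (π × υ) × υ => Cl le mm Nr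
      (sep M fun c : (π × υ) × υ => FE M le mm Nr c.1.1 c.1.2 c.2) c.1.1 c.1.2 c.2) := by
      (repeat' (first | with_reducible exact IntF.id | with_reducible exact IntF.fst' | with_reducible exact IntF.snd' | with_reducible exact IntF.const _ | with_reducible exact Int.const _ | assumption | with_reducible apply Int.and | with_reducible apply Int.or | with_reducible apply Int.not | with_reducible apply Int.imp | with_reducible apply Int.iff | with_reducible apply Int.ne | with_reducible apply Int.eq | with_reducible apply Int.mem | with_reducible apply Int.subset | with_reducible apply Int.ltN | with_reducible apply Int.leN | with_reducible apply Int.fin | with_reducible apply Int.unique | with_reducible apply Int.all | with_reducible apply Int.ex | with_reducible apply IntF.fst | with_reducible apply IntF.snd | with_reducible apply IntF.app | with_reducible apply IntF.ite | with_reducible apply IntF.sep | with_reducible apply IntF.lam | with_reducible apply IntF.insert | with_reducible apply IntF.singleton | with_reducible apply IntF.union | with_reducible apply IntF.inter | with_reducible apply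 IntF.sdiff | with_reducible apply IntF.isUnion | with_reducible apply IntF.iimage | with_reducible apply IntF.the | with_reducible apply IntF.irec | with_reducible_and_instances apply IntF.add | with_reducible_and_instances apply IntF.mul | with_reducible apply IntF.succ | with_reducible apply IntF.val | (with_reducible refine Int.comp ?_ ?_; assumption) | (with_reducible refine Int.comp₂ ?_ ?_ ?_; assumption) | (with_reducible refine Int.comp₃ ?_ ?_ ?_ ?_; assumption) | (with_reducible refine IntF.comp ?_ ?_; assumption) | (with_reducible refine IntF.comp₂ ?_ ?_ ?_; assumption) | (with_reducible refine IntF.comp₃ ?_ ?_ ?_ ?_; assumption) | (with_reducible refine Int.comp₄ ?_ ?_ ?_ ?_ ?_; assumption) | with_reducible apply IntF.pair))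
    refine ⟨sep M fun c : (π × υ) × υ => Cl le mm Nr
      (sep M fun c : (π × υ) × υ => FE M le mm Nr c.1.1 c.1.2 c.2) c.1.1 c.1.2 c.2,
      fun p' ρ' x' h5 => ?_, ?_⟩
    · refine Cl.mono hle hmm hNr (fun c hc => (mem_sep hI2).2 ?_) ((mem_sep hI2).1 h5)
      obtain ⟨H, h1, h2⟩ := (mem_sep hI).1 hc
      exact Cl.mono hle hmm hNr (fun c' hc' => (mem_sep hI).2 ⟨H, h1, hc'⟩) (h1 _ _ _ h2)
    · refine (mem_sep hI2).2 ⟨fun t s h5 q h6 h7 => ?_, fun y h5 q h6 => ?_⟩
      · obtain ⟨r, y, h8, h9, h10⟩ := h3 t s h5 q h6 h7
        exact ⟨r, y, h8, h9, (mem_sep hI).2 h10⟩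
      · obtain ⟨r, t, s, h8, h9, h10, h11⟩ := h4 y h5 q h6
        exact ⟨r, t, s, h8, h9, h10, (mem_sep hI).2 h11⟩

theorem FE_down (tr : ∀ p q r, le p q → le q r → le p r) {p q : π} {ρ x : υ}
    (h : FE M le mm Nr p ρ x) (hq : le q p) : FE M le mm Nr q ρ x := by
  rw [FE_iff hle hmm hNr] at h ⊢
  exact ⟨fun t s h3 q' h4 h5 => h.1 t s h3 q' (tr _ _ _ h4 hq) h5,
    fun y h3 q' h4 => h.2 y h3 q' (tr _ _ _ h4 hq)⟩

theorem FE_dense (refl : ∀ p, le p p) (ρ x : υ) (p : π) : ∃ q, le q p ∧
    (FE M le mm Nr q ρ x ∨
      (∃ t s, Nr ρ t s ∧ le q s ∧ ∀ r y, le r q → mm y x → ¬ FE M le mm Nr r t y) ∨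
      ∃ y, mm y x ∧ ∀ r t s, le r q → le r s → Nr ρ t s → ¬ FE M le mm Nr r t y) := by
  by_cases h : FE M le mm Nr p ρ x
  · exact ⟨p, refl p, Or.inl h⟩
  · rw [FE_iff hle hmm hNr, not_and_or] at h
    rcases h with h | h
    · push Not at h
      obtain ⟨t, s, h1, q, h2, h3, h4⟩ := h
      exact ⟨q, h2, Or.inr (Or.inl ⟨t, s, h1, h3, h4⟩)⟩
    · push Not at h
      obtain ⟨y, h1, q, h2, h3⟩ := h
      exact ⟨q, h2, Or.inr (Or.inr ⟨y, h1, h3⟩)⟩

end

/-! ### Generic filters -/

/-- Generic filters. -/
structure Gnr (M : Type u) [L.Structure M] [IsModel M] {π : Type u₁} [ITy M π]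
    (le : π → π → Prop) (G : π → Prop) : Prop where
  up : ∀ p q, G p → le p q → G q
  dir : ∀ p q, G p → G q → ∃ r, G r ∧ le r p ∧ le r q
  gen : ∀ D : IPow M π, (∀ p, ∃ d, d ∈ D ∧ le d p) → ∃ d, d ∈ D ∧ G d

section

variable {le : π → π → Prop} {G : π → Prop} (hG : Gnr M le G)
  (hle : Int M (fun q : π × π => le q.1 q.2))
include hG hle

theorem Gnr.decide (refl : ∀ p, le p p) (tr : ∀ p q r, le p q → le q r → le p r)
    {D : π → Prop} (hD : Int M D) :
    ∃ p, G p ∧ (D p ∨ ∀ r, le r p → ¬ D r) := by
  have hI : Int M (fun p => D p ∨ ∀ r, le r p → ¬ D r) := by (repeat' (first | with_reducible exact IntF.id | with_reducible exact IntF.fst' | with_reducible exact IntF.snd' | with_reducible exact IntF.const _ | with_reducible exact Int.const _ | assumption | with_reducible apply Int.and | with_reducible apply Int.or | with_reducible apply Int.not | with_reducible apply Int.imp | with_reducible apply Int.iff | with_reducible apply Int.ne | with_reducible apply Int.eq | with_reducible apply Int.mem | with_reducible apply Int.subset | with_reducible apply Int.ltN | with_reducible apply Int.leN | with_reducible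 apply Int.fin | with_reducible apply Int.unique | with_reducible apply Int.all | with_reducible apply Int.ex | with_reducible apply IntF.fst | with_reducible apply IntF.snd | with_reducible apply IntF.app | with_reducible apply IntF.ite | with_reducible apply IntF.sep | with_reducible apply IntF.lam | with_reducible apply IntF.insert | with_reducible apply IntF.singleton | with_reducible apply IntF.union | with_reducible apply IntF.inter | with_reducible apply IntF.sdiff | with_reducible apply IntF.isUnion | with_reducible apply IntF.iimage | with_reducible apply IntF.the | with_reducible apply IntF.irec | with_reducible_and_instances apply IntF.add | with_reducible_and_instances apply IntF.mul | with_reducible apply IntF.succ | with_reducible apply IntF.val | (with_reducible refine Int.comp ?_ ?_; assumption) | (with_reducible refine Int.comp₂ ?_ ?_ ?_; assumption) | (with_reducible refine Int.comp₃ ?_ ?_ ?_ ?_; assumption) | (with_reducible refine IntF.comp ?_ ?_; assumption) | (with_reducible refine IntF.comp₂ ?_ ?_ ?_; assumption) | (with_reducible refine IntF.comp₃ ?_ ?_ ?_ ?_; assumption)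 | with_reducible apply IntF.pair))
  obtain ⟨d, h1, h2⟩ := hG.gen (sep M fun p => D p ∨ ∀ r, le r p → ¬ D r) fun p => by
    by_cases h : ∃ r, le r p ∧ D r
    · obtain ⟨r, h1, h2⟩ := h
      exact ⟨r, (mem_sep hI).2 (Or.inl h2), h1⟩
    · push Not at h
      exact ⟨p, (mem_sep hI).2 (Or.inr h), refl p⟩
  exact ⟨d, h2, (mem_sep hI).1 h1⟩

theorem Gnr.below (refl : ∀ p, le p p) (tr : ∀ p q r, le p q → le q r → le p r)
    {D : π → Prop} (hD : Int M D) {p : π} (hp : G p)
    (h : ∀ q, le q p → ∃ r, le r q ∧ D r) : ∃ r, G r ∧ D r := by
  obtain ⟨d, h1, h2 | h2⟩ := hG.decide hle refl tr hD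
  · exact ⟨d, h1, h2⟩
  · obtain ⟨q, h3, h4, h5⟩ := hG.dir p d hp h1
    obtain ⟨r, h6, h7⟩ := h q h4
    exact absurd h7 (h2 r (tr _ _ _ h6 h5))

end

section

variable {le : π → π → Prop} {mm : υ → υ → Prop} {Nr : υ → υ → π → Prop} {G : π → Prop}
  (hG : Gnr M le G)
  (hle : Int M (fun q : π × π => le q.1 q.2)) (hmm : Int M (fun q : υ × υ => mm q.1 q.2))
  (hNr : Int M (fun q : (υ × υ) × π => Nr q.1.1 q.1.2 q.2))
  (refl : ∀ p, le p p) (tr : ∀ p q r, le p q → le q r → le p r)
include hG hle hmm hNr refl tr

theorem gen1 {p s : π} {ρ t x : υ} (hp : G p) (hs : G s) (hN : Nr ρ t s)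
    (h : FE M le mm Nr p ρ x) : ∃ r y, G r ∧ mm y x ∧ FE M le mm Nr r t y := by
  have hF := int_FE hle hmm hNr
  obtain ⟨q, h1, h2, h3⟩ := hG.dir p s hp hs
  obtain ⟨r, h4, y, h5, h6⟩ := hG.below hle refl tr
    (D := fun r => ∃ y, mm y x ∧ FE M le mm Nr r t y) (by (repeat' (first | with_reducible exact IntF.id | with_reducible exact IntF.fst' | with_reducible exact IntF.snd' | with_reducible exact IntF.const _ | with_reducible exact Int.const _ | assumption | with_reducible apply Int.and | with_reducible apply Int.or | with_reducible apply Int.not | with_reducible apply Int.imp | with_reducible apply Int.iff | with_reducible apply Int.ne | with_reducible apply Int.eq | with_reducible apply Int.mem | with_reducible apply Int.subset | with_reducible apply Int.ltN | with_reducible apply Int.leN | with_reducible apply Int.fin | with_reducible apply Int.unique | with_reducible apply Int.all | with_reducible apply Int.ex | with_reducible apply IntF.fst | with_reducible apply IntF.snd | with_reducible apply IntF.app | with_reducible apply IntF.ite | with_reducible apply IntF.sep | with_reducible apply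 IntF.lam | with_reducible apply IntF.insert | with_reducible apply IntF.singleton | with_reducible apply IntF.union | with_reducible apply IntF.inter | with_reducible apply IntF.sdiff | with_reducible apply IntF.isUnion | with_reducible apply IntF.iimage | with_reducible apply IntF.the | with_reducible apply IntF.irec | with_reducible_and_instances apply IntF.add | with_reducible_and_instances apply IntF.mul | with_reducible apply IntF.succ | with_reducible apply IntF.val | (with_reducible refine Int.comp ?_ ?_; assumption) | (with_reducible refine Int.comp₂ ?_ ?_ ?_; assumption) | (with_reducible refine Int.comp₃ ?_ ?_ ?_ ?_; assumption) | (with_reducible refine IntF.comp ?_ ?_; assumption) | (with_reducible refine IntF.comp₂ ?_ ?_ ?_; assumption) | (with_reducible refine IntF.comp₃ ?_ ?_ ?_ ?_; assumption) | with_reducible apply IntF.pair))) h1 (fun q' h4 => by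
      obtain ⟨r, y, h5, h6, h7⟩ := ((FE_iff hle hmm hNr).1 h).1 t s hN q' (tr _ _ _ h4 h2)
        (tr _ _ _ h4 h3)
      exact ⟨r, h5, y, h6, h7⟩)
  exact ⟨r, y, h4, h5, h6⟩

theorem gen2 {p : π} {ρ x y : υ} (hp : G p) (h : FE M le mm Nr p ρ x) (hy : mm y x) :
    ∃ r t s, G r ∧ le r s ∧ Nr ρ t s ∧ FE M le mm Nr r t y := by
  have hF := int_FE hle hmm hNr
  obtain ⟨r, h4, t, s, h5, h6, h7⟩ := hG.below hle refl tr
    (D := fun r => ∃ t s, le r s ∧ Nr ρ t s ∧ FE M le mm Nr r t y) (by (repeat' (first | with_reducible exact IntF.id | with_reducible exact IntF.fst' | with_reducible exact IntF.snd' | with_reducible exact IntF.const _ | with_reducible exact Int.const _ | assumption | with_reducible apply Int.and | with_reducible apply Int.or | with_reducible apply Int.not | with_reducible apply Int.imp | with_reducible apply Int.iff | with_reducible apply Int.ne | with_reducible apply Int.eq | with_reducible apply Int.mem | with_reducible apply Int.subset | with_reducible apply Int.ltN | with_reducible apply Int.leN | with_reducible apply Int.fin | with_reducible apply Int.unique | with_reducible apply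 Int.all | with_reducible apply Int.ex | with_reducible apply IntF.fst | with_reducible apply IntF.snd | with_reducible apply IntF.app | with_reducible apply IntF.ite | with_reducible apply IntF.sep | with_reducible apply IntF.lam | with_reducible apply IntF.insert | with_reducible apply IntF.singleton | with_reducible apply IntF.union | with_reducible apply IntF.inter | with_reducible apply IntF.sdiff | with_reducible apply IntF.isUnion | with_reducible apply IntF.iimage | with_reducible apply IntF.the | with_reducible apply IntF.irec | with_reducible_and_instances apply IntF.add | with_reducible_and_instances apply IntF.mul | with_reducible apply IntF.succ | with_reducible apply IntF.val | (with_reducible refine Int.comp ?_ ?_; assumption) | (with_reducible refine Int.comp₂ ?_ ?_ ?_; assumption) | (with_reducible refine Int.comp₃ ?_ ?_ ?_ ?_; assumption) | (with_reducible refine IntF.comp ?_ ?_; assumption) | (with_reducible refine IntF.comp₂ ?_ ?_ ?_; assumption) | (with_reducible refine IntF.comp₃ ?_ ?_ ?_ ?_; assumption) | with_reducible apply IntF.pair))) hp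
    (fun q' h4 => by
      obtain ⟨r, t, s, h5, h6, h7, h8⟩ := ((FE_iff hle hmm hNr).1 h).2 y hy q' h4
      exact ⟨r, h5, t, s, h6, h7, h8⟩)
  exact ⟨r, t, s, h4, h5, h6, h7⟩

theorem gen3 (ρ x : υ) : ∃ q, G q ∧ (FE M le mm Nr q ρ x ∨
      (∃ t s, Nr ρ t s ∧ le q s ∧ ∀ r y, le r q → mm y x → ¬ FE M le mm Nr r t y) ∨
      ∃ y, mm y x ∧ ∀ r t s, le r q → le r s → Nr ρ t s → ¬ FE M le mm Nr r t y) := by
  have hF := int_FE hle hmm hNr
  have hI : Int M (fun q => FE M le mm Nr q ρ x ∨
      (∃ t s, Nr ρ t s ∧ le q s ∧ ∀ r y, le r q → mm y x → ¬ FE M le mm Nr r t y) ∨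
      ∃ y, mm y x ∧ ∀ r t s, le r q → le r s → Nr ρ t s → ¬ FE M le mm Nr r t y) := by (repeat' (first | with_reducible exact IntF.id | with_reducible exact IntF.fst' | with_reducible exact IntF.snd' | with_reducible exact IntF.const _ | with_reducible exact Int.const _ | assumption | with_reducible apply Int.and | with_reducible apply Int.or | with_reducible apply Int.not | with_reducible apply Int.imp | with_reducible apply Int.iff | with_reducible apply Int.ne | with_reducible apply Int.eq | with_reducible apply Int.mem | with_reducible apply Int.subset | with_reducible apply Int.ltN | with_reducible apply Int.leN | with_reducible apply Int.fin | with_reducible apply Int.unique | with_reducible apply Int.all | with_reducible apply Int.ex | with_reducible apply IntF.fst | with_reducible apply IntF.snd | with_reducible apply IntF.app | with_reducible apply IntF.ite | with_reducible apply IntF.sep | with_reducible apply IntF.lam | with_reducible apply IntF.insert | with_reducible apply IntF.singleton | with_reducible apply IntF.union | with_reducible apply IntF.inter | with_reducible apply IntF.sdiff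 | with_reducible apply IntF.isUnion | with_reducible apply IntF.iimage | with_reducible apply IntF.the | with_reducible apply IntF.irec | with_reducible_and_instances apply IntF.add | with_reducible_and_instances apply IntF.mul | with_reducible apply IntF.succ | with_reducible apply IntF.val | (with_reducible refine Int.comp ?_ ?_; assumption) | (with_reducible refine Int.comp₂ ?_ ?_ ?_; assumption) | (with_reducible refine Int.comp₃ ?_ ?_ ?_ ?_; assumption) | (with_reducible refine IntF.comp ?_ ?_; assumption) | (with_reducible refine IntF.comp₂ ?_ ?_ ?_; assumption) | (with_reducible refine IntF.comp₃ ?_ ?_ ?_ ?_; assumption) | with_reducible apply IntF.pair))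
  obtain ⟨d, h1, h2⟩ := hG.gen (sep M fun q => FE M le mm Nr q ρ x ∨
      (∃ t s, Nr ρ t s ∧ le q s ∧ ∀ r y, le r q → mm y x → ¬ FE M le mm Nr r t y) ∨
      ∃ y, mm y x ∧ ∀ r t s, le r q → le r s → Nr ρ t s → ¬ FE M le mm Nr r t y) fun p => by
    obtain ⟨q, h1, h2⟩ := FE_dense hle hmm hNr refl ρ x p
    exact ⟨q, (mem_sep hI).2 h2, h1⟩
  exact ⟨d, h2, (mem_sep hI).1 h1⟩

end

/-! ### The abstract theorems -/

section

variable {le : π → π → Prop} {lt : β → β → Prop}

/-- The theorem for partial functions. -/
theorem no_collapse_partial (hle : Int M (fun q : π × π => le q.1 q.2))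
    (refl : ∀ p, le p p) (tr : ∀ p q r, le p q → le q r → le p r)
    (ccc : ∀ D : IPow M π, PD le D → ∃ D₀ : IPow M π, D₀ ⊆ D ∧ Cnt M (fun d => d ∈ D₀) ∧
      PD le D₀)
    (hw : IWO M lt) (hseg : ∀ b, Cnt M (fun x => lt x b)) (hunc : ¬ Cnt M (fun _ : β => True))
    {R : π → INat M → β → Prop} (hR : Int M (fun q : (π × INat M) × β => R q.1.1 q.1.2 q.2))
    (down : ∀ p q n a, R p n a → le q p → R q n a) {p₀ : π}
    (fn : ∀ p n a b, le p p₀ → R p n a → R p n b → a = b)
    (onto : ∀ p a, le p p₀ → ∃ q n, le q p ∧ R q n a) : False := by
  have hne : ∃ a : β, True := by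
    by_contra h
    push Not at h
    exact hunc ⟨⟨fun _ => 0, IntF.const _⟩, fun x => (h x).elim⟩
  obtain ⟨a₀, -⟩ := hne
  refine no_collapse (R := fun q n a => R q n a ∨ (a = a₀ ∧ ∀ r b, le r q → ¬ R r n b))
    (p₀ := p₀) ⟨hle, by (repeat' (first | with_reducible exact IntF.id | with_reducible exact IntF.fst' | with_reducible exact IntF.snd' | with_reducible exact IntF.const _ | with_reducible exact Int.const _ | assumption | with_reducible apply Int.and | with_reducible apply Int.or | with_reducible apply Int.not | with_reducible apply Int.imp | with_reducible apply Int.iff | with_reducible apply Int.ne | with_reducible apply Int.eq | with_reducible apply Int.mem | with_reducible apply Int.subset | with_reducible apply Int.ltN | with_reducible apply Int.leN | with_reducible apply Int.fin | with_reducible apply Int.unique | with_reducible apply Int.all | with_reducible apply Int.ex | with_reducible apply IntF.fst | with_reducible apply IntF.snd | with_reducible apply IntF.app | with_reducible apply IntF.ite | with_reducible apply IntF.sep | with_reducible apply IntF.lam | with_reducible apply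 IntF.insert | with_reducible apply IntF.singleton | with_reducible apply IntF.union | with_reducible apply IntF.inter | with_reducible apply IntF.sdiff | with_reducible apply IntF.isUnion | with_reducible apply IntF.iimage | with_reducible apply IntF.the | with_reducible apply IntF.irec | with_reducible_and_instances apply IntF.add | with_reducible_and_instances apply IntF.mul | with_reducible apply IntF.succ | with_reducible apply IntF.val | (with_reducible refine Int.comp ?_ ?_; assumption) | (with_reducible refine Int.comp₂ ?_ ?_ ?_; assumption) | (with_reducible refine Int.comp₃ ?_ ?_ ?_ ?_; assumption) | (with_reducible refine IntF.comp ?_ ?_; assumption) | (with_reducible refine IntF.comp₂ ?_ ?_ ?_; assumption) | (with_reducible refine IntF.comp₃ ?_ ?_ ?_ ?_; assumption) | with_reducible apply IntF.pair)), refl, tr, ccc, ?_, ?_, ?_⟩ hw hseg hunc ?_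
  · rintro p q n a (h | ⟨rfl, h⟩) hq
    · exact Or.inl (down _ _ _ _ h hq)
    · exact Or.inr ⟨rfl, fun r b h1 => h r b (tr _ _ _ h1 hq)⟩
  · rintro p n a b hp (h1 | ⟨h1, h2⟩) (h3 | ⟨h3, h4⟩)
    · exact fn _ _ _ _ hp h1 h3
    · exact absurd h1 (h4 _ _ (refl p))
    · exact absurd h3 (h2 _ _ (refl p))
    · rw [h1, h3]
  · intro p n hp
    by_cases h : ∃ q a, le q p ∧ R q n a
    · obtain ⟨q, a, h1, h2⟩ := h
      exact ⟨q, a, h1, Or.inl h2⟩
    · push Not at h
      exact ⟨p, a₀, refl p, Or.inr ⟨rfl, h⟩⟩
  · intro p a hp
    obtain ⟨q, n, h1, h2⟩ := onto p a hp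
    exact ⟨q, n, h1, Or.inl h2⟩

/-- The theorem for generic filters. -/
theorem no_collapse_generic (hle : Int M (fun q : π × π => le q.1 q.2))
    (refl : ∀ p, le p p) (tr : ∀ p q r, le p q → le q r → le p r)
    (ccc : ∀ D : IPow M π, PD le D → ∃ D₀ : IPow M π, D₀ ⊆ D ∧ Cnt M (fun d => d ∈ D₀) ∧
      PD le D₀)
    (hw : IWO M lt) (hseg : ∀ b, Cnt M (fun x => lt x b)) (hunc : ¬ Cnt M (fun _ : β => True))
    {R : π → INat M → β → Prop} (hR : Int M (fun q : (π × INat M) × β => R q.1.1 q.1.2 q.2))
    (down : ∀ p q n a, R p n a → le q p → R q n a)
    {G : π → Prop} (hG : Gnr M le G)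
    (fn : ∀ p n a b, G p → R p n a → R p n b → a = b)
    (onto : ∀ a, ∃ q n, G q ∧ R q n a) : False := by
  obtain ⟨p₁, h1, h2⟩ := hG.decide hle refl tr
    (D := fun q => ∃ n a b, R q n a ∧ R q n b ∧ a ≠ b) (by (repeat' (first | with_reducible exact IntF.id | with_reducible exact IntF.fst' | with_reducible exact IntF.snd' | with_reducible exact IntF.const _ | with_reducible exact Int.const _ | assumption | with_reducible apply Int.and | with_reducible apply Int.or | with_reducible apply Int.not | with_reducible apply Int.imp | with_reducible apply Int.iff | with_reducible apply Int.ne | with_reducible apply Int.eq | with_reducible apply Int.mem | with_reducible apply Int.subset | with_reducible apply Int.ltN | with_reducible apply Int.leN | with_reducible apply Int.fin | with_reducible apply Int.unique | with_reducible apply Int.all | with_reducible apply Int.ex | with_reducible apply IntF.fst | with_reducible apply IntF.snd | with_reducible apply IntF.app | with_reducible apply IntF.ite | with_reducible apply IntF.sep | with_reducible apply IntF.lam | with_reducible apply IntF.insert | with_reducible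 apply IntF.singleton | with_reducible apply IntF.union | with_reducible apply IntF.inter | with_reducible apply IntF.sdiff | with_reducible apply IntF.isUnion | with_reducible apply IntF.iimage | with_reducible apply IntF.the | with_reducible apply IntF.irec | with_reducible_and_instances apply IntF.add | with_reducible_and_instances apply IntF.mul | with_reducible apply IntF.succ | with_reducible apply IntF.val | (with_reducible refine Int.comp ?_ ?_; assumption) | (with_reducible refine Int.comp₂ ?_ ?_ ?_; assumption) | (with_reducible refine Int.comp₃ ?_ ?_ ?_ ?_; assumption) | (with_reducible refine IntF.comp ?_ ?_; assumption) | (with_reducible refine IntF.comp₂ ?_ ?_ ?_; assumption) | (with_reducible refine IntF.comp₃ ?_ ?_ ?_ ?_; assumption) | with_reducible apply IntF.pair)))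
  obtain ⟨p₂, h3, h4⟩ := hG.decide hle refl tr
    (D := fun q => ∃ a, ∀ r n, le r q → ¬ R r n a) (by (repeat' (first | with_reducible exact IntF.id | with_reducible exact IntF.fst' | with_reducible exact IntF.snd' | with_reducible exact IntF.const _ | with_reducible exact Int.const _ | assumption | with_reducible apply Int.and | with_reducible apply Int.or | with_reducible apply Int.not | with_reducible apply Int.imp | with_reducible apply Int.iff | with_reducible apply Int.ne | with_reducible apply Int.eq | with_reducible apply Int.mem | with_reducible apply Int.subset | with_reducible apply Int.ltN | with_reducible apply Int.leN | with_reducible apply Int.fin | with_reducible apply Int.unique | with_reducible apply Int.all | with_reducible apply Int.ex | with_reducible apply IntF.fst | with_reducible apply IntF.snd | with_reducible apply IntF.app | with_reducible apply IntF.ite | with_reducible apply IntF.sep | with_reducible apply IntF.lam | with_reducible apply IntF.insert | with_reducible apply IntF.singleton | with_reducible apply IntF.union | with_reducible apply IntF.inter | with_reducible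 apply IntF.sdiff | with_reducible apply IntF.isUnion | with_reducible apply IntF.iimage | with_reducible apply IntF.the | with_reducible apply IntF.irec | with_reducible_and_instances apply IntF.add | with_reducible_and_instances apply IntF.mul | with_reducible apply IntF.succ | with_reducible apply IntF.val | (with_reducible refine Int.comp ?_ ?_; assumption) | (with_reducible refine Int.comp₂ ?_ ?_ ?_; assumption) | (with_reducible refine Int.comp₃ ?_ ?_ ?_ ?_; assumption) | (with_reducible refine IntF.comp ?_ ?_; assumption) | (with_reducible refine IntF.comp₂ ?_ ?_ ?_; assumption) | (with_reducible refine IntF.comp₃ ?_ ?_ ?_ ?_; assumption) | with_reducible apply IntF.pair)))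
  obtain ⟨p₀, h5, h6, h7⟩ := hG.dir p₁ p₂ h1 h3
  have h8 : ∀ r, le r p₁ → ¬ ∃ n a b, R r n a ∧ R r n b ∧ a ≠ b := by
    rcases h2 with ⟨n, a, b, h8, h9, h10⟩ | h2
    · exact absurd (fn _ _ _ _ h1 h8 h9) h10
    · exact h2
  have h9 : ∀ r, le r p₂ → ¬ ∃ a, ∀ s n, le s r → ¬ R s n a := by
    rcases h4 with ⟨a, h9⟩ | h4
    · obtain ⟨q, n, h10, h11⟩ := onto a
      obtain ⟨s, h12, h13, h14⟩ := hG.dir p₂ q h3 h10
      exact absurd (down _ _ _ _ h11 h14) (h9 s n h13)
    · exact h4
  refine no_collapse_partial hle refl tr ccc hw hseg hunc hR down (p₀ := p₀) ?_ ?_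
  · intro p n a b hp h10 h11
    by_contra h12
    exact h8 p (tr _ _ _ hp h6) ⟨n, a, b, h10, h11, h12⟩
  · intro p a hp
    by_contra h12
    push Not at h12
    exact h9 p (tr _ _ _ hp h7) ⟨a, h12⟩

end

end Pool.Agent.Q212.ZD
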