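import Pool.Agent.Q212.ZD3
import Pool.Agent.Q212.ZC4
import Pool.Agent.H635R2.Coll
import Pool.Agent.H525R3.Lang

/-!
# Forcing with a strong countable chain condition in models of ZF: definitions and bridge
-/

set_option maxHeartbeats 1000000
set_option linter.all false

namespace Pool.Agent.Q212.ZForce

open FirstOrder FirstOrder.Language
open Pool.Agent.Helper672.Plain (LSet Mem IsOrdPair)
open Pool.Agent.H310Cards
open Pool.Agent.H525Emb (PMem)

universe u

section

variable {M : Type u} [LSet.Structure M]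

/-- `(P, le)` is a preordered set in the model. -/
structure IsPreorder (P le : M) : Prop where
  refl : ∀ p, Mem p P → PMem p p le
  trans : ∀ p q r, Mem p P → Mem q P → Mem r P → PMem p q le → PMem q r le → PMem p r le

/-- The conditions `p` and `q` are compatible. -/
def Compat (P le p q : M) : Prop := ∃ r, Mem r P ∧ PMem r p le ∧ PMem r q le

/-- `D` is a predense subset of `P`: every condition is compatible with an element of `D`. -/
def IsPredense (P le D : M) : Prop :=
  (∀ d, Mem d D → Mem d P) ∧ ∀ p, Mem p P → ∃ d, Mem d D ∧ Compat P le p d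

/-- `a` is countable in the model: there is an injective function from `a` to the set of all
natural numbers. -/
def IsCountable (a : M) : Prop := ∃ w f, IsOmega w ∧ IsInj f a w

/-- The property `ccc₃`: every predense subset has a countable predense subset. -/
def CCC3 (P le : M) : Prop := ∀ D, IsPredense P le D →
  ∃ D₀, (∀ d, Mem d D₀ → Mem d D) ∧ IsCountable D₀ ∧ IsPredense P le D₀

/-- `w` is an ordinal: a transitive set that is linearly ordered by membership. (In models of ZF
membership is well-founded by the axiom of Foundation.) -/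
def IsOrdinal (w : M) : Prop :=
  (∀ x y, Mem x y → Mem y w → Mem x w) ∧ ∀ x y, Mem x w → Mem y w → Mem x y ∨ x = y ∨ Mem y x

/-- `w` is the first uncountable ordinal. -/
def IsOmega1 (w : M) : Prop := IsOrdinal w ∧ ¬ IsCountable w ∧ ∀ x, Mem x w → IsCountable x

/-- The triple `(q, (n, a))` is an element of `F`. -/
def Tri (q n a F : M) : Prop := ∃ t, IsOrdPair t n a ∧ PMem q t F

/-- `p` is a condition and `F` is a set of triples that is a name for a function from the natural
numbers onto `w`, below the condition `p`: the triple `(q, (n, a))` in `F` says that `q` forces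
that the value at `n` is `a`. -/
structure IsCollapseName (P le w p F : M) : Prop where
  mem : Mem p P
  sub : ∀ q n a, Tri q n a F → Mem q P ∧ IsNat n ∧ Mem a w
  fn : ∀ q q' n a a' r, Tri q n a F → Tri q' n a' F → Mem r P → PMem r p le → PMem r q le →
    PMem r q' le → a = a'
  total : ∀ n r, IsNat n → Mem r P → PMem r p le → ∃ q a, Tri q n a F ∧ Compat P le r q
  onto : ∀ a r, Mem a w → Mem r P → PMem r p le → ∃ q n, Tri q n a F ∧ Compat P le r q

end

end Pool.Agent.Q212.ZForce

namespace Pool.Agent.Q212.ZD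

open FirstOrder FirstOrder.Language
open Pool.Agent.Helper672.ZFA
open Pool.Agent.H310
open Pool.Agent.H310Cards
open Pool.Agent.Q212.ZA
open Pool.Agent.Q212.ZB
open Pool.Agent.Q212.ZC
open Pool.Agent.Q212.ZForce
open Pool.Agent.H525Emb (PMem)

universe u u₁ u₂ u₃ u₄

attribute [local instance] Helper672.Plain.toL

section

variable {M : Type u} [Helper672.Plain.LSet.Structure M] [hZ : Helper672.Plain.Zermelo M]

attribute [local instance] Pool.Agent.Q212.ZB.instModelL Pool.Agent.Q212.ZB.instPEl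

theorem pMem_iff {x y s : M} : PMem x y s ↔ Mem (op x y) s := by
  constructor
  · rintro ⟨q, h1, h2⟩
    rw [ordPair_iff] at h1
    rw [← h1]
    exact h2
  · intro h
    exact ⟨_, ordPair_iff.2 rfl, h⟩

theorem tri_iff {q n a F : M} : Tri q n a F ↔ Mem (op q (op n a)) F := by
  constructor
  · rintro ⟨t, h1, h2⟩
    rw [ordPair_iff] at h1
    rw [← h1]
    exact pMem_iff.1 h2
  · intro h
    exact ⟨_, ordPair_iff.2 rfl, pMem_iff.2 h⟩

/-! ### Countable sets -/

theorem cnt_of_countable {α : Type u₁} [ITy M α] {a : M} {p : α → Prop}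
    (ha : ∀ x, p x → Mem (code x) a) (h : IsCountable a) : Cnt M p := by
  obtain ⟨w, f, hw, hf, hinj⟩ := h
  refine cnt_of_rel (T := fun k x => Mem (op (code x) (code k)) f) ?_ ?_ ?_
  · exact Int.of_D₂ (S := fun v => Mem (op (v 1) (v 0)) f)
      (D.memf (DF.op (DF.var _) (DF.var _)) (DF.const _)) fun _ _ => Iff.rfl
  · intro k x y h1 h2
    exact ITy.inj (hinj _ _ _ (app_iff.2 h1) (app_iff.2 h2))
  · intro x hx
    obtain ⟨y, hy, -⟩ := hf.2 (code x) (ha x hx)
    obtain ⟨q, h4, h5⟩ := hy
    obtain ⟨x', y', h8, h9, h10⟩ := hf.1 q h5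
    obtain ⟨-, rfl⟩ := op_inj ((ordPair_iff.1 h4).symm.trans (ordPair_iff.1 h10))
    obtain ⟨k, rfl⟩ := (mem_omega hw).1 h9
    exact ⟨k, app_iff.1 ⟨q, h4, h5⟩⟩

theorem countable_of_cnt {α : Type u₁} [ITy M α] {a : M}
    (ha : ∀ z, Mem z a ↔ ∃ x : α, code x = z) (h : Cnt M (fun _ : α => True)) :
    IsCountable a := by
  obtain ⟨e, he⟩ := h
  refine ⟨dom M (INat M), code e, isOmega_dom, isFun_code e ha fun x => code_mem_dom (e x), ?_⟩
  intro x x' y h1 h2
  obtain ⟨b, rfl, h3⟩ := app_code.1 h1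
  obtain ⟨c, rfl, h4⟩ := app_code.1 h2
  rw [he b c trivial trivial (ITy.inj (h3.trans h4.symm))]

/-! ### The order of the conditions -/

/-- The order of the conditions. -/
def lle (P le : M) (p q : Helper672.Plain.El P) : Prop := Mem (op p.1 q.1) le

theorem int_lle (P le : M) :
    Int M (fun q : Helper672.Plain.El P × Helper672.Plain.El P => lle P le q.1 q.2) :=
  ⟨le, fun q => Iff.rfl⟩

theorem cmp_iff {P le : M} {p q : Helper672.Plain.El P} :
    Compat P le p.1 q.1 ↔ Cmp (lle P le) p q := by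
  constructor
  · rintro ⟨r, h1, h2, h3⟩
    exact ⟨⟨r, h1⟩, pMem_iff.1 h2, pMem_iff.1 h3⟩
  · rintro ⟨r, h1, h2⟩
    exact ⟨r.1, r.2, pMem_iff.2 h1, pMem_iff.2 h2⟩

theorem lle_refl {P le : M} (h : IsPreorder P le) (p : Helper672.Plain.El P) :
    lle P le p p := pMem_iff.1 (h.refl p.1 p.2)

theorem lle_trans {P le : M} (h : IsPreorder P le) (p q r : Helper672.Plain.El P)
    (h1 : lle P le p q) (h2 : lle P le q r) : lle P le p r :=
  pMem_iff.1 (h.trans p.1 q.1 r.1 p.2 q.2 r.2 (pMem_iff.2 h1) (pMem_iff.2 h2))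

theorem pd_iff {P le : M} {D : IPow M (Helper672.Plain.El P)} :
    IsPredense P le (code D) ↔ PD (lle P le) D := by
  constructor
  · rintro ⟨-, h2⟩ p
    obtain ⟨d, h3, h4⟩ := h2 p.1 p.2
    obtain ⟨d, h5, rfl⟩ := code_mem_code.1 h3
    exact ⟨d, h5, cmp_iff.1 h4⟩
  · intro h
    refine ⟨fun d hd => ?_, fun p hp => ?_⟩
    · obtain ⟨d, -, rfl⟩ := code_mem_code.1 hd
      exact d.2
    · obtain ⟨d, h1, h2⟩ := h ⟨p, hp⟩
      exact ⟨code (M := M) d, code_mem_code.2 ⟨d, h1, rfl⟩, cmp_iff.2 h2⟩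

theorem ccc_int {P le : M} (h : CCC3 P le) (D : IPow M (Helper672.Plain.El P))
    (hD : PD (lle P le) D) : ∃ D₀ : IPow M (Helper672.Plain.El P), D₀ ⊆ D ∧
      Cnt M (fun d => d ∈ D₀) ∧ PD (lle P le) D₀ := by
  obtain ⟨D₀, h1, h2, h3⟩ := h (code D) (pd_iff.2 hD)
  obtain ⟨D₀, rfl⟩ := exists_code' (α := Helper672.Plain.El P) (a := P) (fun z => mem_El) h3.1
  refine ⟨D₀, fun d hd => ?_, cnt_of_countable (fun d hd => mem_code_iff.2 hd) h2,
    pd_iff.1 h3⟩
  exact mem_code_iff.1 (h1 _ (mem_code_iff.2 hd))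

/-! ### The first uncountable ordinal -/

/-- The order of the ordinals. -/
def llt (w : M) (x y : Helper672.Plain.El w) : Prop := Mem x.1 y.1

theorem int_llt (w : M) :
    Int M (fun q : Helper672.Plain.El w × Helper672.Plain.El w => llt w q.1 q.2) :=
  Int.of_D₂ (S := fun v => Mem (v 0) (v 1)) (D.memf (DF.var _) (DF.var _)) fun _ _ => Iff.rfl

theorem iwo {w : M} (hF : ∀ x : M, (∃ y, Mem y x) → ∃ y, Mem y x ∧ ∀ z, Mem z x → ¬ Mem z y)
    (hw : IsOrdinal w) : IWO M (llt w) := by
  have irr : ∀ x : M, ¬ Mem x x := by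
    intro x h
    obtain ⟨y, h1, h2⟩ := hF (up x x) ⟨x, mem_up.2 (Or.inl rfl)⟩
    have h3 : y = x := (mem_up.1 h1).elim id id
    subst h3
    exact h2 y h1 h
  have asym : ∀ x y : M, Mem x y → Mem y x → False := by
    intro x y h1 h2
    obtain ⟨z, h3, h4⟩ := hF (up x y) ⟨x, mem_up.2 (Or.inl rfl)⟩
    rcases mem_up.1 h3 with rfl | rfl
    · exact h4 y (mem_up.2 (Or.inr rfl)) h2
    · exact h4 x (mem_up.2 (Or.inl rfl)) h1
  have cyc : ∀ x y z : M, Mem x y → Mem y z → Mem z x → False := by
    intro x y z h1 h2 h3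
    have hm : ∀ t, Mem t (small_union (up x y) (up z z)).elt ↔ t = x ∨ t = y ∨ t = z := by
      intro t
      rw [(small_union (up x y) (up z z)).mem]
      change (Mem t (up x y) ∨ Mem t (up z z)) ↔ _
      rw [mem_up, mem_up, or_self, or_assoc]
    obtain ⟨t, h4, h5⟩ := hF (small_union (up x y) (up z z)).elt ⟨x, (hm x).2 (Or.inl rfl)⟩
    rcases (hm t).1 h4 with rfl | rfl | rfl
    · exact h5 z ((hm z).2 (Or.inr (Or.inr rfl))) h3
    · exact h5 x ((hm x).2 (Or.inl rfl)) h1
    · exact h5 y ((hm y).2 (Or.inr (Or.inl rfl))) h2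
  refine ⟨int_llt w, fun x => irr x.1, fun x y z h1 h2 => ?_, fun x y => ?_, fun p hp hne => ?_⟩
  · rcases hw.2 x.1 z.1 x.2 z.2 with h | h | h
    · exact h
    · have h2' : Mem y.1 x.1 := h.symm ▸ h2
      exact absurd h2' fun h' => asym _ _ h1 h'
    · exact (cyc _ _ _ h1 h2 h).elim
  · rcases hw.2 x.1 y.1 x.2 y.2 with h | h | h
    · exact Or.inl h
    · exact Or.inr (Or.inl (Subtype.ext h))
    · exact Or.inr (Or.inr h)
  · obtain ⟨x, hx⟩ := hne
    obtain ⟨y, h1, h2⟩ := hF (code (sep M p)) ⟨code (M := M) x, mem_code_iff.2 ((mem_sep hp).2 hx)⟩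
    obtain ⟨y, h3, rfl⟩ := code_mem_code.1 h1
    exact ⟨y, (mem_sep hp).1 h3, fun z hz => h2 _ (mem_code_iff.2 ((mem_sep hp).2 hz))⟩

theorem seg_countable {w : M} (hw : IsOmega1 w) (b : Helper672.Plain.El w) :
    Cnt M (fun x : Helper672.Plain.El w => llt w x b) :=
  cnt_of_countable (fun x hx => hx) (hw.2.2 b.1 b.2)

theorem not_cnt {w : M} (hw : IsOmega1 w) :
    ¬ Cnt M (fun _ : Helper672.Plain.El w => True) :=
  fun h => hw.2.1 (countable_of_cnt (fun z => mem_El) h)

/-! ### The combinatorial version -/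

/-- The name as a relation. -/
def Fr (P w F : M) (q : Helper672.Plain.El P) (n : INat M) (a : Helper672.Plain.El w) : Prop :=
  Mem (op q.1 (op n.val a.1)) F

theorem int_Fr (P w F : M) :
    Int M (fun q : (Helper672.Plain.El P × INat M) × Helper672.Plain.El w =>
      Fr P w F q.1.1 q.1.2 q.2) := by
  refine Int.of_D (S := fun v => ∃ x y z, v 0 = op (op x y) z ∧ Mem (op x (op y z)) F) ?_ ?_
  · exact D.ex (D.ex (D.ex (D.and (D.eqf (DF.var _) (DF.op (DF.op (DF.var _) (DF.var _))
      (DF.var _))) (D.memf (DF.op (DF.var _) (DF.op (DF.var _) (DF.var _))) (DF.const _)))))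
  · rintro ⟨⟨q, n⟩, a⟩
    constructor
    · rintro ⟨x, y, z, h1, h2⟩
      obtain ⟨h3, h4⟩ := op_inj (h1 : op (op q.1 n.val) a.1 = op (op x y) z)
      obtain ⟨h5, h6⟩ := op_inj h3
      subst h4 h5 h6
      exact h2
    · intro h
      exact ⟨q.1, n.val, a.1, rfl, h⟩

theorem no_name (hF : ∀ x : M, (∃ y, Mem y x) → ∃ y, Mem y x ∧ ∀ z, Mem z x → ¬ Mem z y)
    {P le w p F : M} (hP : IsPreorder P le) (hc : CCC3 P le) (hw : IsOmega1 w)
    (h : IsCollapseName P le w p F) : False := by
  have hle := int_lle P le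
  have hFr := int_Fr P w F
  have refl := lle_refl hP
  have tr := lle_trans hP
  have hcmp : ∀ (r : Helper672.Plain.El P) {q : M}, (hq : Mem q P) → Compat P le r.1 q →
      ∃ s : Helper672.Plain.El P, lle P le s r ∧ lle P le s ⟨q, hq⟩ := fun r q hq h =>
    (cmp_iff (p := r) (q := ⟨q, hq⟩)).1 h
  refine no_collapse (p₀ := (⟨p, h.mem⟩ : Helper672.Plain.El P))
    (R := fun q n a => ∃ q', Fr P w F q' n a ∧ lle P le q q')
    ⟨hle, by (repeat' (first | with_reducible exact IntF.id | with_reducible exact IntF.fst' | with_reducible exact IntF.snd' | with_reducible exact IntF.const _ | with_reducible exact Int.const _ | assumption | with_reducible apply Int.and | with_reducible apply Int.or | with_reducible apply Int.not | with_reducible apply Int.imp | with_reducible apply Int.iff | with_reducible apply Int.ne | with_reducible apply Int.eq | with_reducible apply Int.mem | with_reducible apply Int.subset | with_reducible apply Int.ltN | with_reducible apply Int.leN | with_reducible apply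 Int.fin | with_reducible apply Int.unique | with_reducible apply Int.all | with_reducible apply Int.ex | with_reducible apply IntF.fst | with_reducible apply IntF.snd | with_reducible apply IntF.app | with_reducible apply IntF.ite | with_reducible apply IntF.sep | with_reducible apply IntF.lam | with_reducible apply IntF.insert | with_reducible apply IntF.singleton | with_reducible apply IntF.union | with_reducible apply IntF.inter | with_reducible apply IntF.sdiff | with_reducible apply IntF.isUnion | with_reducible apply IntF.iimage | with_reducible apply IntF.the | with_reducible apply IntF.irec | with_reducible_and_instances apply IntF.add | with_reducible_and_instances apply IntF.mul | with_reducible apply IntF.succ | with_reducible apply IntF.val | (with_reducible refine Int.comp ?_ ?_; assumption) | (with_reducible refine Int.comp₂ ?_ ?_ ?_; assumption) | (with_reducible refine Int.comp₃ ?_ ?_ ?_ ?_; assumption) | (with_reducible refine IntF.comp ?_ ?_; assumption) | (with_reducible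 refine IntF.comp₂ ?_ ?_ ?_; assumption) | (with_reducible refine IntF.comp₃ ?_ ?_ ?_ ?_; assumption) | with_reducible apply IntF.pair)), refl, tr, ccc_int hc, ?_, ?_, ?_⟩ (iwo hF hw.1) (seg_countable hw)
    (not_cnt hw) ?_
  · rintro q q' n a ⟨r, h1, h2⟩ h3
    exact ⟨r, h1, tr _ _ _ h3 h2⟩
  · rintro r n a b h1 ⟨q, h2, h3⟩ ⟨q', h4, h5⟩
    exact Subtype.ext (h.fn q.1 q'.1 n.val a.1 b.1 r.1 (tri_iff.2 h2) (tri_iff.2 h4) r.2
      (pMem_iff.2 h1) (pMem_iff.2 h3) (pMem_iff.2 h5))
  · intro r n h1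
    obtain ⟨q, a, h2, h3⟩ := h.total n.val r.1 (fun i hi => n.prop i (ind_iff.2 hi)) r.2
      (pMem_iff.2 h1)
    obtain ⟨h4, -, h5⟩ := h.sub _ _ _ h2
    obtain ⟨s, h6, h7⟩ := hcmp r h4 h3
    exact ⟨s, ⟨a, h5⟩, h6, ⟨q, h4⟩, tri_iff.1 h2, h7⟩
  · intro r a h1
    obtain ⟨q, n, h2, h3⟩ := h.onto a.1 r.1 a.2 r.2 (pMem_iff.2 h1)
    obtain ⟨h4, h5, -⟩ := h.sub _ _ _ h2
    obtain ⟨s, h6, h7⟩ := hcmp r h4 h3
    exact ⟨s, ⟨n, fun i hi => h5 i (ind_iff.1 hi)⟩, h6, ⟨q, h4⟩, tri_iff.1 h2, h7⟩

end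

end Pool.Agent.Q212.ZD
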