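import Pool.Agent.Q212.ZD4

/-!
# Generic extensions by forcing with a strong countable chain condition
-/

set_option maxHeartbeats 1000000
set_option linter.all false

namespace Pool.Agent.Q212.ZD

open FirstOrder FirstOrder.Language
open Pool.Agent.Helper672.ZFA
open Pool.Agent.H310
open Pool.Agent.H310Cards
open Pool.Agent.Q212.ZA
open Pool.Agent.Q212.ZB
open Pool.Agent.Q212.ZC
open Pool.Agent.Q212.ZForce
open Pool.Agent.H635Amen (ZF)
open Pool.Agent.H525Emb (PMem IsTrans IsGenericFilter IsEval IsValue)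

universe u u₁ u₂ u₃ u₄

attribute [local instance] Helper672.Plain.toL

attribute [local instance] Pool.Agent.Q212.ZB.instModelL Pool.Agent.Q212.ZB.instPEl

/-! ### Relations in the ground model -/

section

variable {M : Type u} [Helper672.Plain.LSet.Structure M] [hZ : Helper672.Plain.Zermelo M]

theorem replL_of_zf (h : ZF M) : H635.ReplL M := fun F hD a h1 =>
  h.replacement {p | F p.1 p.2} (H635.definable_of_toL hD) a h1

/-- The pair `(t, s)` is in `ρ`. -/
def Nrr (u P : M) (ρ t : Helper672.Plain.El u) (s : Helper672.Plain.El P) : Prop :=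
  Mem (op t.1 s.1) ρ.1

theorem int_Nrr (u P : M) :
    Int M (fun q : (Helper672.Plain.El u × Helper672.Plain.El u) × Helper672.Plain.El P =>
      Nrr u P q.1.1 q.1.2 q.2) := by
  refine Int.of_D (S := fun v => ∃ x y z, v 0 = op (op x y) z ∧ Mem (op y z) x) ?_ ?_
  · exact D.ex (D.ex (D.ex (D.and (D.eqf (DF.var _) (DF.op (DF.op (DF.var _) (DF.var _))
      (DF.var _))) (D.memf (DF.op (DF.var _) (DF.var _)) (DF.var _)))))
  · rintro ⟨⟨q, n⟩, a⟩
    constructor
    · rintro ⟨x, y, z, h1, h2⟩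
      obtain ⟨h3, h4⟩ := op_inj (h1 : op (op q.1 n.1) a.1 = op (op x y) z)
      obtain ⟨h5, h6⟩ := op_inj h3
      subst h4 h5 h6
      exact h2
    · intro h
      exact ⟨q.1, n.1, a.1, rfl, h⟩

/-- The code `c` is the pair `(a, n)`. -/
def Eqq (u w : M) (c : Helper672.Plain.El u) (a : Helper672.Plain.El w) (n : INat M) : Prop :=
  c.1 = op a.1 n.val

theorem int_Eqq (u w : M) :
    Int M (fun q : (Helper672.Plain.El u × Helper672.Plain.El w) × INat M =>
      Eqq u w q.1.1 q.1.2 q.2) := by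
  refine Int.of_D (S := fun v => ∃ x y z, v 0 = op (op x y) z ∧ x = op y z) ?_ ?_
  · exact D.ex (D.ex (D.ex (D.and (D.eqf (DF.var _) (DF.op (DF.op (DF.var _) (DF.var _))
      (DF.var _))) (D.eqf (DF.var _) (DF.op (DF.var _) (DF.var _))))))
  · rintro ⟨⟨q, n⟩, a⟩
    constructor
    · rintro ⟨x, y, z, h1, h2⟩
      obtain ⟨h3, h4⟩ := op_inj (h1 : op (op q.1 n.1) a.1 = op (op x y) z)
      obtain ⟨h5, h6⟩ := op_inj h3
      subst h4 h5 h6
      exact h2
    · intro h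
      exact ⟨q.1, n.1, a.1, rfl, h⟩

end

/-! ### Absoluteness of pairs -/

section

variable {N : Type u} [hs : Helper672.Plain.LSet.Structure N]
  {V : Helper672.Plain.LSet.Substructure N}

theorem mem_V {x y : V} : Helper672.Plain.Mem x y ↔ Helper672.Plain.Mem (x : N) (y : N) := by
  unfold Helper672.Plain.Mem
  have : (fun i => ((![x, y] i : V) : N)) = ![(x : N), (y : N)] := by
    funext i
    fin_cases i <;> rfl
  rw [← this]
  exact Iff.rfl

theorem isPair_V (htr : IsTrans V) {p x y : V} :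
    Helper672.Plain.IsPair p x y ↔ Helper672.Plain.IsPair (p : N) (x : N) (y : N) := by
  constructor
  · intro h z
    constructor
    · intro hz
      have hzV := htr z p hz p.2
      rcases (h ⟨z, hzV⟩).1 (mem_V.2 hz) with h1 | h1
      · exact Or.inl (congrArg Subtype.val h1)
      · exact Or.inr (congrArg Subtype.val h1)
    · rintro (rfl | rfl)
      · exact mem_V.1 ((h x).2 (Or.inl rfl))
      · exact mem_V.1 ((h y).2 (Or.inr rfl))
  · intro h z
    rw [mem_V, h, Subtype.ext_iff, Subtype.ext_iff]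

theorem isOrdPair_V (htr : IsTrans V) {p x y : V} :
    Helper672.Plain.IsOrdPair p x y ↔ Helper672.Plain.IsOrdPair (p : N) (x : N) (y : N) := by
  constructor
  · rintro ⟨s, d, h1, h2, h3⟩
    exact ⟨s, d, (isPair_V htr).1 h1, (isPair_V htr).1 h2, (isPair_V htr).1 h3⟩
  · rintro ⟨s, d, h1, h2, h3⟩
    have hs : s ∈ V := htr s p ((h3 s).2 (Or.inl rfl)) p.2
    have hd : d ∈ V := htr d p ((h3 d).2 (Or.inr rfl)) p.2
    exact ⟨⟨s, hs⟩, ⟨d, hd⟩, (isPair_V htr).2 h1, (isPair_V htr).2 h2, (isPair_V htr).2 h3⟩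

variable [hZ : Helper672.Plain.Zermelo N] [hZV : Helper672.Plain.Zermelo V]

theorem op_V (htr : IsTrans V) (x y : V) : ((op x y : V) : N) = op (x : N) (y : N) :=
  ordPair_iff.1 ((isOrdPair_V htr).1 (ordPair_iff.2 rfl))

theorem mem_op_V (htr : IsTrans V) {x y s : V} :
    Helper672.Plain.Mem (op x y) s ↔ PMem (x : N) (y : N) (s : N) := by
  rw [mem_V, op_V htr, pMem_iff]
  exact Iff.rfl

/-- The conditions in the generic filter. -/
def Gp (P : V) (G : N) (p : Helper672.Plain.El P) : Prop := Helper672.Plain.Mem (p.1 : N) G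

theorem gnr (htr : IsTrans V) {P le : V} {G : N}
    (hG : IsGenericFilter V (P : N) (le : N) G) : Gnr V (lle P le) (Gp P G) := by
  have hle : ∀ p q : Helper672.Plain.El P, lle P le p q ↔ PMem (p.1 : N) (q.1 : N) (le : N) :=
    fun p q => mem_op_V htr
  refine ⟨fun p q h1 h2 => ?_, fun p q h1 h2 => ?_, fun D hD => ?_⟩
  · exact hG.upward p.1 q.1 h1 (mem_V.1 q.2) ((hle p q).1 h2)
  · obtain ⟨r, h3, h4, h5⟩ := hG.directed p.1 q.1 h1 h2
    have h6 := hG.sub r h3
    have h7 := htr r P h6 P.2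
    exact ⟨⟨⟨r, h7⟩, mem_V.2 h6⟩, h3, (hle _ _).2 h4, (hle _ _).2 h5⟩
  · have hm : ∀ z : V, Helper672.Plain.Mem z (code (M := V) D) ↔ ∃ a, a ∈ D ∧ code a = z :=
      fun z => code_mem_code (M := V) (s := D) (z := z)
    obtain ⟨d, h1, h2⟩ := hG.generic (code (M := V) D : V) (code (M := V) D : V).2 (fun d hd => by
        have hdV := htr d _ hd (code (M := V) D : V).2
        obtain ⟨a, h1, h2⟩ := (hm ⟨d, hdV⟩).1 (mem_V.2 hd)
        have h3 : (a.1 : N) = d := congrArg Subtype.val h2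
        rw [← h3]
        exact mem_V.1 a.2)
      (fun p hp => by
        have hpV := htr p P hp P.2
        obtain ⟨d, h1, h2⟩ := hD ⟨⟨p, hpV⟩, mem_V.2 hp⟩
        exact ⟨d.1, mem_V.1 ((hm _).2 ⟨d, h1, rfl⟩), (hle _ _).1 h2⟩)
    have hdV := htr d _ h1 (code (M := V) D : V).2
    obtain ⟨a, h3, h4⟩ := (hm ⟨d, hdV⟩).1 (mem_V.2 h1)
    have h5 : (a.1 : N) = d := congrArg Subtype.val h4
    refine ⟨a, h3, ?_⟩
    change Helper672.Plain.Mem (a.1 : N) G
    rw [h5]
    exact h2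

/-! ### Truth -/

section

variable {P le u : V} {G R : N}

theorem exists_el (htr : IsTrans V)
    (hu : ∀ z w : V, Helper672.Plain.Mem z u → Helper672.Plain.Mem w z →
      Helper672.Plain.Mem w u) (x : Helper672.Plain.El u) (z : N)
    (hz : Helper672.Plain.Mem z (x.1 : N)) :
    ∃ y : Helper672.Plain.El u, (y.1 : N) = z ∧ llt u y x := by
  have hzV := htr z _ hz x.1.2
  exact ⟨⟨⟨z, hzV⟩, hu x.1 ⟨z, hzV⟩ x.2 (mem_V.2 hz)⟩, rfl, mem_V.2 hz⟩

theorem nrr_iff (htr : IsTrans V) (ρ t : Helper672.Plain.El u) (s : Helper672.Plain.El P) :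
    Nrr u P ρ t s ↔ PMem (t.1 : N) (s.1 : N) (ρ.1 : N) := mem_op_V htr

theorem evalA (htr : IsTrans V) (hG : IsGenericFilter V (P : N) (le : N) G) (hR : IsEval G R)
    (hu : ∀ z w : V, Helper672.Plain.Mem z u → Helper672.Plain.Mem w z →
      Helper672.Plain.Mem w u) (ρ : Helper672.Plain.El u) (y z : N)
    (h1 : PMem (ρ.1 : N) y R) (h2 : Helper672.Plain.Mem z y) :
      ∃ t s, Nrr u P ρ t s ∧ Gp P G s ∧ PMem (t.1 : N) z R := by
  obtain ⟨t, s, h3, h4, h5⟩ := (hR _ _ h1).1 z h2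
  have hsP := hG.sub s h4
  have hsV := htr s P hsP P.2
  obtain ⟨q, h6, h7⟩ := h3
  have hqV := htr q _ h7 ρ.1.2
  obtain ⟨c, d, h8, h9, h10⟩ := h6
  have hc : Helper672.Plain.Mem c q := (h10 c).2 (Or.inl rfl)
  have hcV := htr c q hc hqV
  have ht : Helper672.Plain.Mem t c := (h8 t).2 (Or.inl rfl)
  have htV := htr t c ht hcV
  have h11 : Helper672.Plain.Mem (⟨q, hqV⟩ : V) u := hu ρ.1 _ ρ.2 (mem_V.2 h7)
  have h12 : Helper672.Plain.Mem (⟨c, hcV⟩ : V) u := hu _ _ h11 (mem_V.2 hc)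
  have h13 : Helper672.Plain.Mem (⟨t, htV⟩ : V) u := hu _ _ h12 (mem_V.2 ht)
  exact ⟨⟨⟨t, htV⟩, h13⟩, ⟨⟨s, hsV⟩, mem_V.2 hsP⟩,
    (nrr_iff htr _ _ _).2 ⟨q, ⟨c, d, h8, h9, h10⟩, h7⟩, h4, h5⟩

theorem evalB (htr : IsTrans V) (hR : IsEval G R) (ρ : Helper672.Plain.El u) (y : N)
    (t : Helper672.Plain.El u) (s : Helper672.Plain.El P) (h1 : PMem (ρ.1 : N) y R)
    (h2 : Nrr u P ρ t s) (h3 : Gp P G s) :
    ∃ z, Helper672.Plain.Mem z y ∧ PMem (t.1 : N) z R :=
  (hR _ _ h1).2 t.1 s.1 ((nrr_iff htr _ _ _).1 h2) h3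

/-- The truth lemma for one name. -/
def Phi (P le u : V) (G R : N) (ρ : Helper672.Plain.El u) : Prop :=
  ∀ x : Helper672.Plain.El u,
    ((∃ p, Gp P G p ∧ FE V (lle P le) (llt u) (Nrr u P) p ρ x) →
      ∀ y : N, PMem (ρ.1 : N) y R → y = (x.1 : N)) ∧
    (PMem (ρ.1 : N) (x.1 : N) R → ∃ p, Gp P G p ∧ FE V (lle P le) (llt u) (Nrr u P) p ρ x)

theorem phi_step (htr : IsTrans V) (hP : IsPreorder P le)
    (hG : IsGenericFilter V (P : N) (le : N) G) (hR : IsEval G R)
    (hu : ∀ z w : V, Helper672.Plain.Mem z u → Helper672.Plain.Mem w z →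
      Helper672.Plain.Mem w u) (ρ : Helper672.Plain.El u)
    (ih : ∀ t s, Nrr u P ρ t s → Phi P le u G R t) : Phi P le u G R ρ := by
  have hle := int_lle P le
  have hmm := int_llt u
  have hNr := int_Nrr u P
  have refl := lle_refl hP
  have tr := lle_trans hP
  have hGn := gnr htr hG
  have hel := fun x z => exists_el (u := u) htr hu x z
  have eA := fun y z => evalA htr hG hR hu ρ y z
  have eB := fun y t (s : Helper672.Plain.El P) => evalB htr hR (u := u) ρ y t s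
  intro x
  constructor
  · rintro ⟨p, h1, h2⟩ y' h3
    refine extM fun z => ⟨fun hz => ?_, fun hz => ?_⟩
    · obtain ⟨t, s, h4, h5, h6⟩ := eA y' z h3 hz
      obtain ⟨r, y, h7, h8, h9⟩ := gen1 hGn hle hmm hNr refl tr h1 h5 h4 h2
      have h10 := (ih t s h4 y).1 ⟨r, h7, h9⟩ z h6
      rw [h10]
      exact mem_V.1 h8
    · obtain ⟨y, rfl, hy⟩ := hel x z hz
      obtain ⟨r, t, s, h4, h5, h6, h7⟩ := gen2 hGn hle hmm hNr refl tr h1 h2 hy
      obtain ⟨z', h8, h9⟩ := eB y' t s h3 h6 (hGn.up _ _ h4 h5)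
      have h10 := (ih t s h6 y).1 ⟨r, h4, h7⟩ z' h9
      rw [← h10]
      exact h8
  · intro h1
    obtain ⟨q, h2, h3 | ⟨t, s, h3, h4, h5⟩ | ⟨y, h3, h4⟩⟩ :=
      gen3 hGn hle hmm hNr refl tr ρ x
    · exact ⟨q, h2, h3⟩
    · obtain ⟨z, h6, h7⟩ := eB _ t s h1 h3 (hGn.up _ _ h2 h4)
      obtain ⟨y, rfl, hy⟩ := hel x z h6
      obtain ⟨p', h8, h9⟩ := (ih t s h3 y).2 h7
      obtain ⟨r, h10, h11, h12⟩ := hGn.dir q p' h2 h8
      exact absurd (FE_down hle hmm hNr tr h9 h12) (h5 r y h11 hy)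
    · obtain ⟨t, s, h5, h6, h7⟩ := eA _ (y.1 : N) h1 (mem_V.1 h3)
      obtain ⟨p', h8, h9⟩ := (ih t s h5 y).2 h7
      obtain ⟨r, h10, h11, h12⟩ := hGn.dir q p' h2 h8
      obtain ⟨r', h13, h14, h15⟩ := hGn.dir r s h10 h6
      exact absurd (FE_down hle hmm hNr tr h9 (tr _ _ _ h14 h12))
        (h4 r' t s (tr _ _ _ h14 h11) h15 h5)

theorem phi_all (hN : ZF N) (htr : IsTrans V) (hP : IsPreorder P le)
    (hG : IsGenericFilter V (P : N) (le : N) G) (hR : IsEval G R)
    (hu : ∀ z w : V, Helper672.Plain.Mem z u → Helper672.Plain.Mem w z →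
      Helper672.Plain.Mem w u) (ρ : Helper672.Plain.El u) : Phi P le u G R ρ := by
  obtain ⟨s₀, hs₀⟩ := int_FE (int_lle P le) (int_llt u) (int_Nrr u P)
  have hs₁ : ∀ (p : Helper672.Plain.El P) (ρ x : Helper672.Plain.El u),
      Mem (op (op (p.1 : N) (ρ.1 : N)) (x.1 : N)) (s₀ : N) ↔
        FE V (lle P le) (llt u) (Nrr u P) p ρ x := by
    intro p ρ x
    have h1 : ((op (op p.1 ρ.1) x.1 : V) : N) = op (op (p.1 : N) (ρ.1 : N)) (x.1 : N) := by
      rw [op_V htr, op_V htr]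
    rw [← h1]
    exact (mem_V (x := op (op p.1 ρ.1) x.1) (y := s₀)).symm.trans (hs₀ ((p, ρ), x))
  have hcond : ∀ p : N, Mem p G → ∀ ρ x : Helper672.Plain.El u,
      Mem (op (op p (ρ.1 : N)) (x.1 : N)) (s₀ : N) →
        ∃ p, Gp P G p ∧ FE V (lle P le) (llt u) (Nrr u P) p ρ x := by
    intro p h1 ρ x h2
    have hpP := hG.sub p h1
    have hpV := htr p P hpP P.2
    exact ⟨⟨⟨p, hpV⟩, mem_V.2 hpP⟩, h1, (hs₁ ⟨⟨p, hpV⟩, mem_V.2 hpP⟩ ρ x).1 h2⟩
  have key : ∀ z : N, ∀ ρ : N, (ρ = z ∨ Mem ρ z ∨ ∃ y, Mem y z ∧ Mem ρ y) → Mem ρ (u : N) →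
      ∀ x : N, Mem x (u : N) →
        ((∃ p, Mem p G ∧ Mem (op (op p ρ) x) (s₀ : N)) → ∀ y, Mem (op ρ y) R → y = x) ∧
          (Mem (op ρ x) R → ∃ p, Mem p G ∧ Mem (op (op p ρ) x) (s₀ : N)) := by
    refine fun z => H635.mem_ind (M := N) (fun _ => trivial) (replL_of_zf hN) hN.foundation
      (S := fun z => ∀ ρ : N, (ρ = z ∨ Mem ρ z ∨ ∃ y, Mem y z ∧ Mem ρ y) → Mem ρ (u : N) →
      ∀ x : N, Mem x (u : N) →
        ((∃ p, Mem p G ∧ Mem (op (op p ρ) x) (s₀ : N)) → ∀ y, Mem (op ρ y) R → y = x) ∧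
          (Mem (op ρ x) R → ∃ p, Mem p G ∧ Mem (op (op p ρ) x) (s₀ : N))) ?_ ?_ z
    · refine D.all (D.imp (D.or (D.eqf (DF.var _) (DF.var _)) (D.or (D.memf (DF.var _)
        (DF.var _)) (D.ex (D.and (D.memf (DF.var _) (DF.var _)) (D.memf (DF.var _)
        (DF.var _)))))) (D.imp (D.memf (DF.var _) (DF.const _)) (D.all (D.imp (D.memf
        (DF.var _) (DF.const _)) (D.and (D.imp (D.ex (D.and (D.memf (DF.var _) (DF.const _))
        (D.memf (DF.op (DF.op (DF.var _) (DF.var _)) (DF.var _)) (DF.const _)))) (D.all (D.imp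
        (D.memf (DF.op (DF.var _) (DF.var _)) (DF.const _)) (D.eqf (DF.var _) (DF.var _)))))
        (D.imp (D.memf (DF.op (DF.var _) (DF.var _)) (DF.const _)) (D.ex (D.and (D.memf
        (DF.var _) (DF.const _)) (D.memf (DF.op (DF.op (DF.var _) (DF.var _)) (DF.var _))
        (DF.const _))))))))))
    · intro z ih ρ hρ hρu
      -- it is enough to show this for `ρ = z`
      rcases hρ with rfl | hρ | ⟨y, hy, hρ⟩
      · have hρV : ρ ∈ V := htr ρ u hρu u.2
        have hstep := phi_step htr hP hG hR hu (⟨⟨ρ, hρV⟩, mem_V.2 hρu⟩ : Helper672.Plain.El u)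
          (fun t s hts x => by
            have h1 : PMem (t.1 : N) (s.1 : N) ρ := (mem_op_V htr).1 hts
            obtain ⟨q, h2, h3⟩ := h1
            obtain ⟨c, d, h4, h5, h6⟩ := h2
            have h7 := ih q h3 (t.1 : N) (Or.inr (Or.inr ⟨c, (h6 c).2 (Or.inl rfl),
              (h4 _).2 (Or.inl rfl)⟩)) (mem_V.1 t.2) (x.1 : N) (mem_V.1 x.2)
            refine ⟨?_, ?_⟩
            · rintro ⟨p, h8, h9⟩ y hy
              exact h7.1 ⟨p.1, h8, (hs₁ p t x).2 h9⟩ y (pMem_iff.1 hy)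
            · intro h8
              obtain ⟨p, h9, h10⟩ := h7.2 (pMem_iff.1 h8)
              exact hcond p h9 t x h10)
        intro x hx
        have hxV : x ∈ V := htr x u hx u.2
        have h1 := hstep ⟨⟨x, hxV⟩, mem_V.2 hx⟩
        refine ⟨?_, ?_⟩
        · rintro ⟨p, h2, h3⟩ y hy
          exact h1.1 (hcond p h2 ⟨⟨ρ, hρV⟩, mem_V.2 hρu⟩ ⟨⟨x, hxV⟩, mem_V.2 hx⟩ h3) y
            (pMem_iff.2 hy)
        · intro h2
          obtain ⟨p, h3, h4⟩ := h1.2 (pMem_iff.2 h2)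
          exact ⟨p.1, h3, (hs₁ p ⟨⟨ρ, hρV⟩, mem_V.2 hρu⟩ ⟨⟨x, hxV⟩, mem_V.2 hx⟩).2 h4⟩
      · exact ih ρ hρ ρ (Or.inl rfl) hρu
      · exact ih y hy ρ (Or.inr (Or.inl hρ)) hρu
  intro x
  have h7 := key (ρ.1 : N) (ρ.1 : N) (Or.inl rfl) (mem_V.1 ρ.2) (x.1 : N) (mem_V.1 x.2)
  refine ⟨?_, ?_⟩
  · rintro ⟨p, h8, h9⟩ y hy
    exact h7.1 ⟨p.1, h8, (hs₁ p ρ x).2 h9⟩ y (pMem_iff.1 hy)
  · intro h8
    obtain ⟨p, h9, h10⟩ := h7.2 (pMem_iff.1 h8)
    exact hcond p h9 ρ x h10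

end

/-! ### The theorem for generic extensions -/

theorem nat_V (htr : IsTrans V) {y : N} (hy : IsNat y) : ∃ n : INat V, ((n.val : V) : N) = y := by
  have h1 := hy ((dom V (INat V) : V) : N) ⟨⟨(((0 : INat V).val : V) : N),
    mem_V.1 (code_mem_dom (M := V) (0 : INat V)), fun z hz => ?_⟩, fun n hn => ?_⟩
  · have hV := htr y _ h1 (dom V (INat V) : V).2
    have h2 : Mem (⟨y, hV⟩ : V) (dom V (INat V)) := (mem_V (x := ⟨y, hV⟩)).2 h1
    obtain ⟨n, hn⟩ := mem_dom.1 h2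
    exact ⟨n, congrArg Subtype.val hn⟩
  · have hzV := htr z _ hz ((0 : INat V).val : V).2
    exact INat.not_mem_zero (M := V) (z := ⟨z, hzV⟩) ((mem_V (x := ⟨z, hzV⟩)).2 hz)
  · have hV := htr n _ hn (dom V (INat V) : V).2
    have h2 : Mem (⟨n, hV⟩ : V) (dom V (INat V)) := (mem_V (x := ⟨n, hV⟩)).2 hn
    obtain ⟨k, hk⟩ := mem_dom.1 h2
    have hk' : ((k.val : V) : N) = n := congrArg Subtype.val hk
    refine ⟨((INat.succ k).val : V), mem_V.1 (code_mem_dom (M := V) (INat.succ k)),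
      fun z => ⟨fun hz => ?_, fun hz => ?_⟩⟩
    · have hzV := htr z _ hz ((INat.succ k).val : V).2
      have h3 : Mem (⟨z, hzV⟩ : V) (INat.succ k).val := (mem_V (x := ⟨z, hzV⟩)).2 hz
      rcases (INat.mem_succ (n := k) (z := (⟨z, hzV⟩ : V))).1 h3 with h | h
      · left
        rw [← hk']
        exact (mem_V (x := ⟨z, hzV⟩)).1 h
      · right
        rw [← hk']
        exact congrArg Subtype.val h
    · rcases hz with h | h
      · rw [← hk'] at h
        have hzV := htr z _ h (k.val : V).2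
        have h3 : Mem (⟨z, hzV⟩ : V) k.val := (mem_V (x := ⟨z, hzV⟩)).2 h
        exact (mem_V (x := ⟨z, hzV⟩)).1
          ((INat.mem_succ (n := k) (z := (⟨z, hzV⟩ : V))).2 (Or.inl h3))
      · rw [← hk'] at h
        subst h
        exact (mem_V (x := k.val)).1 ((INat.mem_succ (n := k) (z := k.val)).2 (Or.inr rfl))

theorem no_generic (hN : ZF N) (hV : ZF V) (htr : IsTrans V) {P le w : V} {G : N}
    (hP : IsPreorder P le) (hc : CCC3 P le) (hw : IsOmega1 w)
    (hG : IsGenericFilter V (P : N) (le : N) G)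
    (hgen : ∀ x : N, ∃ τ, τ ∈ V ∧ IsValue G τ x) : ¬ IsCountable (w : N) := by
  rintro ⟨ω, f, hω, hf, hinj⟩
  obtain ⟨τ, hτ, R, hR, hτf⟩ := hgen f
  -- a transitive set
  obtain ⟨u, hu1, hu2⟩ := H635.exists_trans (M := V) (fun _ => trivial) (replL_of_zf hV)
    (Helper672.ZFA.small_union (up (⟨τ, hτ⟩ : V) ⟨τ, hτ⟩) (dom V (Helper672.Plain.El w × INat V))).elt
  have hτu : Mem (⟨τ, hτ⟩ : V) u := hu1 _ ((Helper672.ZFA.small_union _ _).mem.2 (Or.inl (mem_up.2
    (Or.inl rfl))))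
  have hpu : ∀ (a : Helper672.Plain.El w) (n : INat V), Mem (op a.1 n.val) u := fun a n =>
    hu1 _ ((Helper672.ZFA.small_union _ _).mem.2 (Or.inr (code_mem_dom (M := V) (a, n))))
  have hle := int_lle P le
  have hmm := int_llt u
  have hNr := int_Nrr u P
  have hE := int_Eqq u w
  have hF := int_FE hle hmm hNr
  have refl := lle_refl hP
  have tr := lle_trans hP
  have hGn := gnr htr hG
  have hphi := phi_all hN htr hP hG hR hu2
  let τ' : Helper672.Plain.El u := ⟨⟨τ, hτ⟩, hτu⟩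
  have hτ' : PMem (τ'.1 : N) f R := hτf
  have truth : ∀ q n a, Gp P G q → (∃ t s c, Nrr u P τ' t s ∧ lle P le q s ∧
      FE V (lle P le) (llt u) (Nrr u P) q t c ∧ Eqq u w c a n) →
      App f (a.1 : N) (n.val : N) := by
    rintro q n a h1 ⟨t, s, c, h2, h3, h4, h5⟩
    obtain ⟨z, h6, h7⟩ := evalB htr hR τ' f t s hτ' h2 (hGn.up _ _ h1 h3)
    have h8 := (hphi t c).1 ⟨q, h1, h4⟩ z h7
    rw [app_iff, ← op_V htr]
    have h9 : c.1 = op a.1 n.val := h5
    rw [← h9, ← h8]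
    exact h6
  refine no_collapse_generic hle refl tr (ccc_int hc) (iwo hV.foundation hw.1)
    (seg_countable hw) (not_cnt hw) (R := fun q n a => ∃ t s c, Nrr u P τ' t s ∧ lle P le q s ∧
      FE V (lle P le) (llt u) (Nrr u P) q t c ∧ Eqq u w c a n) (by (repeat' (first | with_reducible exact IntF.id | with_reducible exact IntF.fst' | with_reducible exact IntF.snd' | with_reducible exact IntF.const _ | with_reducible exact Int.const _ | assumption | with_reducible apply Int.and | with_reducible apply Int.or | with_reducible apply Int.not | with_reducible apply Int.imp | with_reducible apply Int.iff | with_reducible apply Int.ne | with_reducible apply Int.eq | with_reducible apply Int.mem | with_reducible apply Int.subset | with_reducible apply Int.ltN | with_reducible apply Int.leN | with_reducible apply Int.fin | with_reducible apply Int.unique | with_reducible apply Int.all | with_reducible apply Int.ex | with_reducible apply IntF.fst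 | with_reducible apply IntF.snd | with_reducible apply IntF.app | with_reducible apply IntF.ite | with_reducible apply IntF.sep | with_reducible apply IntF.lam | with_reducible apply IntF.insert | with_reducible apply IntF.singleton | with_reducible apply IntF.union | with_reducible apply IntF.inter | with_reducible apply IntF.sdiff | with_reducible apply IntF.isUnion | with_reducible apply IntF.iimage | with_reducible apply IntF.the | with_reducible apply IntF.irec | with_reducible_and_instances apply IntF.add | with_reducible_and_instances apply IntF.mul | with_reducible apply IntF.succ | with_reducible apply IntF.val | (with_reducible refine Int.comp ?_ ?_; assumption) | (with_reducible refine Int.comp₂ ?_ ?_ ?_; assumption) | (with_reducible refine Int.comp₃ ?_ ?_ ?_ ?_; assumption) | (with_reducible refine IntF.comp ?_ ?_; assumption) | (with_reducible refine IntF.comp₂ ?_ ?_ ?_; assumption) | (with_reducible refine IntF.comp₃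 ?_ ?_ ?_ ?_; assumption) | (with_reducible refine Int.comp₄ ?_ ?_ ?_ ?_ ?_; assumption) | with_reducible apply IntF.pair))) ?_ hGn ?_ ?_
  · rintro p q n a ⟨t, s, c, h2, h3, h4, h5⟩ h6
    exact ⟨t, s, c, h2, tr _ _ _ h6 h3, FE_down hle hmm hNr tr h4 h6, h5⟩
  · intro p n a b h1 h2 h3
    have h4 := hinj _ _ _ (truth p n a h1 h2) (truth p n b h1 h3)
    exact Subtype.ext (Subtype.ext h4)
  · intro a
    obtain ⟨y, hy, -⟩ := hf.2 (a.1 : N) (mem_V.1 a.2)
    obtain ⟨q, h4, h5⟩ := hy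
    obtain ⟨x', y', h8, h9, h10⟩ := hf.1 q h5
    obtain ⟨-, rfl⟩ := op_inj ((ordPair_iff.1 h4).symm.trans (ordPair_iff.1 h10))
    obtain ⟨n, rfl⟩ := nat_V htr ((hω y).1 h9)
    let c : Helper672.Plain.El u := ⟨op a.1 n.val, hpu a n⟩
    have hc' : (c.1 : N) = op (a.1 : N) (n.val : N) := op_V htr _ _
    have h11 : Helper672.Plain.Mem (c.1 : N) f := by
      rw [hc']
      exact app_iff.1 ⟨q, h4, h5⟩
    obtain ⟨t, s, h12, h13, h14⟩ := evalA htr hG hR hu2 τ' f _ hτ' h11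
    obtain ⟨p, h15, h16⟩ := (hphi t c).2 h14
    obtain ⟨r, h17, h18, h19⟩ := hGn.dir p s h15 h13
    exact ⟨r, n, h17, t, s, c, h12, h19, FE_down hle hmm hNr tr h16 h18, rfl⟩

end

end Pool.Agent.Q212.ZD
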